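import Pool.Agent.Spd.Explore

/-!
# SPD: admissible sets of vertices (definitions of helper77, no sorry)

Used by the isoperimetric block (I) and by block C.
-/

namespace Pool.Agent.Spd

/-- Finite sets of vertices (given by all their darts) containing `v_0, ..., v_L`, each component of
which contains one of these boundary vertices. -/
structure Adm (H : HPT) (L : ℕ) (K : Finset ℕ) : Prop where
  sub : ∀ d ∈ K, d ∈ H.M.D
  sat : ∀ d ∈ K, ∀ e, H.M.SameV d e → e ∈ K
  line : ∀ i : ℤ, 0 ≤ i → i ≤ L → H.M.bd i ∈ K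
  conn : ∀ Z : Finset ℕ, Z ⊆ K → (∀ d ∈ Z, ∀ e, H.M.SameV d e → e ∈ Z) →
    (∀ i : ℤ, 0 ≤ i → i ≤ L → H.M.bd i ∈ Z) → (∀ d ∈ Z, H.M.inv d ∈ K → H.M.inv d ∈ Z) → Z = K

/-- Number of darts from `K` to its complement. -/
noncomputable def bdry (H : HPT) (K : Finset ℕ) : ℕ := (K.filter fun d => H.M.inv d ∉ K).card

end Pool.Agent.Spd
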