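import Pool.Agent.Spd.Explore

/-!
# SPD A01: basic facts about half-planar triangulations

Everything is elementary.  Recall `rot d = fc (inv d)`; `SameV d e` says that `e` is an iterate of
`d` under `rot`; `Inner d` says that `d` is a dart which is not one of the outer darts
`inv (bd i)`; `fc` maps inner darts to inner darts with `fc^3 = id` there, and it maps
`inv (bd i)` to `inv (bd (i-1))`.

* `rot_mem`: `inv d` is a dart; if it is inner use `fc_inner`, otherwise `fc_outer`, `inv_mem`.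
* `bd_inj`: `bd i = bd j` gives `SameV (bd i) (bd j)`.
* `fc_inj`: on inner darts `fc (fc (fc d)) = d`; on outer darts use `bd_inj` and `inv_inv`; the
  image of an inner dart is inner, the image of an outer dart is outer (`fc_outer`), so the mixed
  case is impossible (`Inner` excludes `inv (bd i)`).
* `rot_inj`: `fc_inj` and `inv_inv`.
* `sameV_symm`: by `rot_fin` there is `m > 0` with `rot^[m] d = d`; if `rot^[n] d = e` then
  `rot^[(n+1)*m - n] e = d` ... (or use injectivity of iterates on the finite orbit).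
* `tgt`: `rot (inv d) = fc (inv (inv d)) = fc d`.
* `bd_prev`: `rot (bd i) = fc (inv (bd i)) = inv (bd (i-1))`.
* `face_ne`: if two of `d, fc d, fc (fc d)` had the same origin, one of the three darts would be a
  loop: `fc x` has the same origin as `inv x` (`tgt`), so `SameV x (fc x)` gives `SameV x (inv x)`;
  `SameV d (fc (fc d))`: with `y = fc (fc d)`, `fc y = d`, so `SameV y (inv y)`.
* `inv_ne_fc`: if `inv d = fc d` then with `b = fc (fc d)`: `b` has the same origin as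
  `inv (fc d) = inv (inv d) = d`, and `d = fc b` has the same origin as `inv b`, so `b` is a loop.
  `inv_ne_fc2`: if `inv d = fc (fc d) =: b`, then `fc b = d`, `b = inv d`, so `inv b = d = fc b`:
  the previous case for `b`.
* `closed_empty`: assume `x ∈ G`.  By `conn` there is an `EqvGen` chain from `x` to the outer dart
  `inv (bd 0)`.  Show that `G` is invariant in both directions under `y = inv x` and `y = fc x`
  (`x ∈ D`): forwards by hypothesis; backwards: `inv x ∈ G` gives `x = inv (inv x) ∈ G`; if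
  `fc x ∈ G` then `fc x` is inner, so `x` is inner (`fc` of an outer dart is outer), and
  `x = fc (fc (fc x)) ∈ G`.  So `inv (bd 0) ∈ G`, which is not inner.
-/

namespace Pool.Agent.Spd

namespace PreMap.IsHPT

variable {M : PreMap}

theorem inner_or_outer (_h : M.IsHPT) {d : ℕ} (hd : d ∈ M.D) :
    M.Inner d ∨ ∃ i, d = M.inv (M.bd i) := by
  by_cases hx : ∃ i, d = M.inv (M.bd i)
  · exact Or.inr hx
  · exact Or.inl ⟨hd, fun i hi => hx ⟨i, hi⟩⟩

theorem bd_mem (h : M.IsHPT) (i : ℤ) : M.bd i ∈ M.D := (h.bd_inner i).1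

theorem bd_inj (h : M.IsHPT) {i j : ℤ} (hij : M.bd i = M.bd j) : i = j :=
  h.simple i j ⟨0, hij⟩

private theorem fc_mem_aux (h : M.IsHPT) {d : ℕ} (hd : d ∈ M.D) : M.fc d ∈ M.D := by
  rcases h.inner_or_outer hd with h1 | ⟨i, rfl⟩
  · exact (h.fc_inner d h1).1
  · rw [h.fc_outer i]
    exact h.inv_mem _ (h.bd_mem (i - 1))

theorem rot_mem (h : M.IsHPT) {d : ℕ} (hd : d ∈ M.D) : M.rot d ∈ M.D :=
  fc_mem_aux h (h.inv_mem d hd)

theorem iter_mem (h : M.IsHPT) {d : ℕ} (hd : d ∈ M.D) (n : ℕ) : M.rot^[n] d ∈ M.D := by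
  induction n with
  | zero => exact hd
  | succ n ih =>
    rw [Function.iterate_succ_apply']
    exact h.rot_mem ih

theorem fc_inj (h : M.IsHPT) {d e : ℕ} (hd : d ∈ M.D) (he : e ∈ M.D) (hde : M.fc d = M.fc e) :
    d = e := by
  rcases h.inner_or_outer hd with h1 | ⟨i, rfl⟩
  · rcases h.inner_or_outer he with h2 | ⟨j, rfl⟩
    · rw [← h.fc_tri d h1, ← h.fc_tri e h2, hde]
    · rw [h.fc_outer j] at hde
      exact absurd hde ((h.fc_inner d h1).2 (j - 1))
  · rcases h.inner_or_outer he with h2 | ⟨j, rfl⟩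
    · rw [h.fc_outer i] at hde
      exact absurd hde.symm ((h.fc_inner e h2).2 (i - 1))
    · rw [h.fc_outer i, h.fc_outer j] at hde
      have h3 := congrArg M.inv hde
      rw [h.inv_inv _ (h.bd_mem _), h.inv_inv _ (h.bd_mem _)] at h3
      have h4 := h.bd_inj h3
      have h5 : i = j := by omega
      rw [h5]

theorem fc_mem (h : M.IsHPT) {d : ℕ} (hd : d ∈ M.D) : M.fc d ∈ M.D :=
  fc_mem_aux h hd

theorem inner_of_fc (h : M.IsHPT) {d : ℕ} (hd : d ∈ M.D) (hf : M.Inner (M.fc d)) :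
    M.Inner d := by
  rcases h.inner_or_outer hd with h1 | ⟨i, rfl⟩
  · exact h1
  · exact absurd (h.fc_outer i) (hf.2 (i - 1))

theorem rot_inj (h : M.IsHPT) {d e : ℕ} (hd : d ∈ M.D) (he : e ∈ M.D)
    (hde : M.rot d = M.rot e) : d = e := by
  have h1 : M.inv d = M.inv e := h.fc_inj (h.inv_mem d hd) (h.inv_mem e he) hde
  rw [← h.inv_inv d hd, h1, h.inv_inv e he]

theorem sameV_refl (_h : M.IsHPT) (d : ℕ) : M.SameV d d := ⟨0, rfl⟩

theorem sameV_symm (h : M.IsHPT) {d e : ℕ} (hd : d ∈ M.D) (hde : M.SameV d e) :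
    M.SameV e d := by
  obtain ⟨n, rfl⟩ := hde
  obtain ⟨m, hm0, hm⟩ := h.rot_fin d hd
  have h1 : Function.IsPeriodicPt M.rot (m * (n + 1)) d :=
    Function.IsPeriodicPt.mul_const hm (n + 1)
  refine ⟨m * (n + 1) - n, ?_⟩
  have h2 : n ≤ m * (n + 1) := by nlinarith
  rw [← Function.iterate_add_apply, Nat.sub_add_cancel h2]
  exact h1

theorem sameV_trans (_h : M.IsHPT) {d e f : ℕ} (hde : M.SameV d e) (hef : M.SameV e f) :
    M.SameV d f := by
  obtain ⟨m, rfl⟩ := hde
  obtain ⟨n, rfl⟩ := hef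
  exact ⟨n + m, Function.iterate_add_apply _ _ _ _⟩

theorem sameV_mem (h : M.IsHPT) {d e : ℕ} (hd : d ∈ M.D) (hde : M.SameV d e) : e ∈ M.D := by
  obtain ⟨m, rfl⟩ := hde
  exact h.iter_mem hd m

theorem sameV_rot (_h : M.IsHPT) (d : ℕ) : M.SameV d (M.rot d) := ⟨1, rfl⟩

theorem tgt (h : M.IsHPT) {d : ℕ} (hd : d ∈ M.D) : M.SameV (M.inv d) (M.fc d) := by
  refine ⟨1, ?_⟩
  rw [Function.iterate_one]
  unfold rot
  rw [h.inv_inv d hd]

theorem bd_prev (h : M.IsHPT) (i : ℤ) : M.SameV (M.bd i) (M.inv (M.bd (i - 1))) :=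
  ⟨1, h.fc_outer i⟩

theorem bd_next (h : M.IsHPT) (i : ℤ) : M.SameV (M.inv (M.bd i)) (M.bd (i + 1)) := by
  have h1 := h.bd_prev (i + 1)
  rw [add_sub_cancel_right] at h1
  exact h.sameV_symm (h.bd_mem (i + 1)) h1

private theorem not_sameV_fc (h : M.IsHPT) {d : ℕ} (hd : d ∈ M.D) : ¬ M.SameV d (M.fc d) := by
  intro h1
  have h2 := h.sameV_symm (h.inv_mem d hd) (h.tgt hd)
  exact h.loopless d hd (h.sameV_trans h1 h2)

theorem face_ne (h : M.IsHPT) {d : ℕ} (hd : M.Inner d) :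
    ¬ M.SameV d (M.fc d) ∧ ¬ M.SameV (M.fc d) (M.fc (M.fc d)) ∧
      ¬ M.SameV d (M.fc (M.fc d)) := by
  refine ⟨not_sameV_fc h hd.1, not_sameV_fc h (h.fc_mem hd.1), fun h1 => ?_⟩
  have h2 := h.sameV_symm hd.1 h1
  have h3 := not_sameV_fc h (h.fc_mem (h.fc_mem hd.1))
  rw [h.fc_tri d hd] at h3
  exact h3 h2

theorem inv_ne_fc (h : M.IsHPT) {d : ℕ} (hd : M.Inner d) : M.inv d ≠ M.fc d := by
  intro h1
  have h2 := h.tgt (h.fc_mem hd.1)
  rw [← h1, h.inv_inv d hd.1, h1] at h2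
  exact (h.face_ne hd).2.2 h2

theorem inv_ne_fc2 (h : M.IsHPT) {d : ℕ} (hd : M.Inner d) : M.inv d ≠ M.fc (M.fc d) := by
  intro h1
  apply h.inv_ne_fc (h.fc_inner _ (h.fc_inner d hd))
  rw [h.fc_tri d hd, ← h1, h.inv_inv d hd.1]

theorem closed_empty (h : M.IsHPT) (G : Finset ℕ) (h1 : ∀ d ∈ G, M.Inner d ∧ M.fc d ∈ G)
    (h2 : ∀ d ∈ G, M.inv d ∈ G) : G = ∅ := by
  by_contra hne
  obtain ⟨x, hx⟩ := Finset.nonempty_iff_ne_empty.2 hne
  have key : ∀ a b, Relation.EqvGen (fun x y => x ∈ M.D ∧ (y = M.inv x ∨ y = M.fc x)) a b →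
      (a ∈ G ↔ b ∈ G) := by
    intro a b hab
    induction hab with
    | rel a b hab =>
      obtain ⟨ha, rfl | rfl⟩ := hab
      · constructor
        · exact h2 a
        · intro h3
          have h4 := h2 _ h3
          rwa [h.inv_inv a ha] at h4
      · constructor
        · exact fun h3 => (h1 a h3).2
        · intro h3
          have h4 := h.inner_of_fc ha (h1 _ h3).1
          have h5 := (h1 _ (h1 _ h3).2).2
          rwa [h.fc_tri a h4] at h5
    | refl a => exact Iff.rfl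
    | symm a b _ ih => exact ih.symm
    | trans a b c _ _ ih ih' => exact ih.trans ih'
  have h3 : M.inv (M.bd 0) ∈ G :=
    (key _ _ (h.conn x (h1 x hx).1.1 _ (h.inv_mem _ (h.bd_mem 0)))).1 hx
  exact (h1 _ h3).1.2 0 rfl

/-- In a finite `fc`-invariant set a dart is as good as its face. -/
theorem fc_mem_iff (h : M.IsHPT) {G : Set ℕ} (h1 : ∀ d ∈ G, M.Inner d ∧ M.fc d ∈ G) {d : ℕ}
    (hd : d ∈ M.D) : M.fc d ∈ G ↔ d ∈ G := by
  refine ⟨fun h3 => ?_, fun h3 => (h1 d h3).2⟩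
  have h4 := h.inner_of_fc hd (h1 _ h3).1
  have h5 := (h1 _ (h1 _ h3).2).2
  rwa [h.fc_tri d h4] at h5

/-- Rotating around a vertex without crossing the boundary edges of `G` does not change the
status with respect to `G`: `rot x` lies in the face of `inv x`. -/
theorem status_rot (h : M.IsHPT) {G : Set ℕ} (h1 : ∀ d ∈ G, M.Inner d ∧ M.fc d ∈ G) {x : ℕ}
    (hx : x ∈ M.D) : M.rot x ∈ G ↔ M.inv x ∈ G :=
  h.fc_mem_iff h1 (h.inv_mem x hx)

/-- If no dart at the vertex of `x` belongs to a boundary edge of `G`, the status is constant. -/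
theorem status_const (h : M.IsHPT) {G : Set ℕ} (h1 : ∀ d ∈ G, M.Inner d ∧ M.fc d ∈ G) {x y : ℕ}
    (hx : x ∈ M.D) (hxy : M.SameV x y)
    (hno : ∀ z, M.SameV x z → (z ∈ G ↔ M.inv z ∈ G)) : x ∈ G ↔ y ∈ G := by
  obtain ⟨n, rfl⟩ := hxy
  induction n with
  | zero => exact Iff.rfl
  | succ n ih =>
    rw [Function.iterate_succ_apply']
    exact ih.trans ((hno _ ⟨n, rfl⟩).trans (h.status_rot h1 (h.iter_mem hx n)).symm)

end PreMap.IsHPT

end Pool.Agent.Spd
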