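import Pool.Agent.Spd.Orbit

/-!
# SPD C01: hitting probabilities of boundary vertices (definitions)

`H.hit J n e` = probability that the simple random walk started at the origin of the dart `e` visits
one of the boundary vertices `v_j`, `j ∈ J`, at one of the times `0, ..., n` (defined by recursion on
`n`: first step).  `hitE J n x` = sum over the darts `d` at `v_x` of this probability for the end
point of `d`; `escE J n x` = sum over the darts at `v_x` of the complementary probability.

No sorry in this file.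
-/

namespace Pool.Agent.Spd

namespace HPT

open Classical in
/-- Probability to visit `{v_j : j ∈ J}` up to time `n`, started at the origin of `e`. -/
noncomputable def hit (H : HPT) (J : Set ℤ) : ℕ → ℕ → ℝ
  | 0, e => if ∃ j ∈ J, H.M.SameV (H.M.bd j) e then 1 else 0
  | n + 1, e => if ∃ j ∈ J, H.M.SameV (H.M.bd j) e then 1 else
      (∑ κ ∈ Finset.range (H.deg e), hit H J n (H.M.inv (H.M.rot^[κ] e))) / H.deg e

/-- Sum over the darts at `v_x` of the hitting probabilities of their end points. -/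
noncomputable def hitE (H : HPT) (J : Set ℤ) (n : ℕ) (x : ℤ) : ℝ :=
  ∑ κ ∈ Finset.range (H.deg (H.M.bd x)), H.hit J n (H.M.inv (H.M.rot^[κ] (H.M.bd x)))

/-- Sum over the darts at `v_x` of the probabilities not to hit, started at their end points. -/
noncomputable def escE (H : HPT) (J : Set ℤ) (n : ℕ) (x : ℤ) : ℝ :=
  ∑ κ ∈ Finset.range (H.deg (H.M.bd x)), (1 - H.hit J n (H.M.inv (H.M.rot^[κ] (H.M.bd x))))

theorem hit_zero (H : HPT) (J : Set ℤ) (e : ℕ) [Decidable (∃ j ∈ J, H.M.SameV (H.M.bd j) e)] :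
    H.hit J 0 e = if ∃ j ∈ J, H.M.SameV (H.M.bd j) e then 1 else 0 := by
  rw [hit]
  congr

theorem hit_on {H : HPT} {J : Set ℤ} {e : ℕ} (h : ∃ j ∈ J, H.M.SameV (H.M.bd j) e) (n : ℕ) :
    H.hit J n e = 1 := by
  cases n with
  | zero => rw [hit, if_pos h]
  | succ n => rw [hit, if_pos h]

theorem hit_zero_off {H : HPT} {J : Set ℤ} {e : ℕ} (h : ¬ ∃ j ∈ J, H.M.SameV (H.M.bd j) e) :
    H.hit J 0 e = 0 := by
  rw [hit, if_neg h]

theorem hit_succ_off {H : HPT} {J : Set ℤ} {e : ℕ} (h : ¬ ∃ j ∈ J, H.M.SameV (H.M.bd j) e)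
    (n : ℕ) : H.hit J (n + 1) e =
      (∑ κ ∈ Finset.range (H.deg e), H.hit J n (H.M.inv (H.M.rot^[κ] e))) / H.deg e := by
  rw [hit, if_neg h]

theorem escE_eq (H : HPT) (J : Set ℤ) (n : ℕ) (x : ℤ) :
    H.escE J n x = H.deg (H.M.bd x) - H.hitE J n x := by
  unfold escE hitE
  rw [Finset.sum_sub_distrib]
  simp

end HPT

end Pool.Agent.Spd
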