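import Pool.Agent.Spd.C01

/-!
# SPD C02: sums over the darts at a vertex; first properties of `hit`

* `sum_orbit`: for `e ∈ D` and `SameV e f`: `f = rot^[m] e`; the map `κ ↦ rot^[κ] e` identifies
  `{κ < deg e}` with the darts of the vertex (`Orbit`: `sameV_iff_lt`, `iter_injOn`, `deg_sameV`), the
  same for `f`; so both sums are the sum of `g` over the finset
  `(range (deg e)).image (fun κ => rot^[κ] e)` (`Finset.sum_image` with `iter_injOn`), which is the
  same set for `e` and `f` (`sameV_symm`, `sameV_trans`).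
* `hit_sameV`: cases on `n`; the condition `∃ j ∈ J, SameV (bd j) e` is the same for `e` and `f`
  (`sameV_trans`, `sameV_symm`); the sums agree by `sum_orbit`, the degrees by `deg_sameV`.
* `hit_nonneg`, `hit_le_one`: induction on `n` (generalizing `e`); all darts `inv (rot^[κ] e)` are in
  `D` (`iter_mem`, `inv_mem`); an average of numbers in `[0, 1]` (`deg e > 0`: `deg_pos`).
  (`hit_nonneg` holds for all `e`; `hit_le_one` also, since `0 / 0 = 0`.)
* `hitE_nonneg`, `hitE_le_deg`, `escE_nonneg`, `escE_le_deg`: sums of numbers in `[0, 1]`.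
-/

namespace Pool.Agent.Spd

namespace HPT

theorem sum_orbit (H : HPT) {e f : ℕ} (he : e ∈ H.M.D) (hef : H.M.SameV e f) (g : ℕ → ℝ) :
    ∑ κ ∈ Finset.range (H.deg f), g (H.M.rot^[κ] f) =
      ∑ κ ∈ Finset.range (H.deg e), g (H.M.rot^[κ] e) := by
  have key : ∀ d, ∑ κ ∈ Finset.range (H.deg d), g (H.M.rot^[κ] d) =
      ∑ x ∈ (Finset.range (H.deg d)).image (fun κ => H.M.rot^[κ] d), g x := by
    intro d
    rw [Finset.sum_image]
    intro a ha b hb hab
    rw [Finset.mem_coe, Finset.mem_range] at ha hb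
    exact H.iter_injOn ha hb hab
  have hf : f ∈ H.M.D := H.ok.sameV_mem he hef
  have hset : (Finset.range (H.deg f)).image (fun κ => H.M.rot^[κ] f) =
      (Finset.range (H.deg e)).image (fun κ => H.M.rot^[κ] e) := by
    ext x
    have h1 : ∀ d, x ∈ (Finset.range (H.deg d)).image (fun κ => H.M.rot^[κ] d) ↔
        ∃ κ < H.deg d, H.M.rot^[κ] d = x := by
      intro d
      simp only [Finset.mem_image, Finset.mem_range]
    rw [h1, h1, ← H.sameV_iff_lt hf, ← H.sameV_iff_lt he]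
    exact ⟨fun h => H.ok.sameV_trans hef h,
      fun h => H.ok.sameV_trans (H.ok.sameV_symm he hef) h⟩
  rw [key, key, hset]

private theorem on_sameV_iff (H : HPT) (J : Set ℤ) {e f : ℕ} (he : e ∈ H.M.D)
    (hef : H.M.SameV e f) :
    (∃ j ∈ J, H.M.SameV (H.M.bd j) f) ↔ ∃ j ∈ J, H.M.SameV (H.M.bd j) e := by
  constructor
  · rintro ⟨j, hj, h⟩
    exact ⟨j, hj, H.ok.sameV_trans h (H.ok.sameV_symm he hef)⟩
  · rintro ⟨j, hj, h⟩
    exact ⟨j, hj, H.ok.sameV_trans h hef⟩

theorem hit_sameV (H : HPT) (J : Set ℤ) (n : ℕ) {e f : ℕ} (he : e ∈ H.M.D)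
    (hef : H.M.SameV e f) : H.hit J n f = H.hit J n e := by
  have h1 := H.on_sameV_iff J he hef
  by_cases h : ∃ j ∈ J, H.M.SameV (H.M.bd j) e
  · rw [hit_on h n, hit_on (h1.2 h) n]
  · have h2 : ¬ ∃ j ∈ J, H.M.SameV (H.M.bd j) f := fun h3 => h (h1.1 h3)
    cases n with
    | zero => rw [hit_zero_off h, hit_zero_off h2]
    | succ n =>
      rw [hit_succ_off h, hit_succ_off h2, H.deg_sameV he hef,
        ← H.sum_orbit he hef (fun x => H.hit J n (H.M.inv x)), H.deg_sameV he hef]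

theorem hit_nonneg (H : HPT) (J : Set ℤ) (n e : ℕ) : 0 ≤ H.hit J n e := by
  induction n generalizing e with
  | zero =>
    by_cases h : ∃ j ∈ J, H.M.SameV (H.M.bd j) e
    · rw [hit_on h]
      norm_num
    · rw [hit_zero_off h]
  | succ n ih =>
    by_cases h : ∃ j ∈ J, H.M.SameV (H.M.bd j) e
    · rw [hit_on h]
      norm_num
    · rw [hit_succ_off h]
      exact div_nonneg (Finset.sum_nonneg fun κ _ => ih _) (Nat.cast_nonneg _)

theorem hit_le_one (H : HPT) (J : Set ℤ) (n e : ℕ) : H.hit J n e ≤ 1 := by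
  induction n generalizing e with
  | zero =>
    by_cases h : ∃ j ∈ J, H.M.SameV (H.M.bd j) e
    · rw [hit_on h]
    · rw [hit_zero_off h]
      norm_num
  | succ n ih =>
    by_cases h : ∃ j ∈ J, H.M.SameV (H.M.bd j) e
    · rw [hit_on h]
    · rw [hit_succ_off h]
      refine div_le_one_of_le₀ ?_ (Nat.cast_nonneg _)
      have h1 := Finset.sum_le_sum (s := Finset.range (H.deg e))
        (f := fun κ => H.hit J n (H.M.inv (H.M.rot^[κ] e))) (g := fun _ => (1 : ℝ))
        fun κ _ => ih _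
      simpa using h1

theorem hitE_nonneg (H : HPT) (J : Set ℤ) (n : ℕ) (x : ℤ) : 0 ≤ H.hitE J n x :=
  Finset.sum_nonneg fun _ _ => H.hit_nonneg J n _

theorem hitE_le_deg (H : HPT) (J : Set ℤ) (n : ℕ) (x : ℤ) :
    H.hitE J n x ≤ H.deg (H.M.bd x) := by
  have h1 := Finset.sum_le_sum (s := Finset.range (H.deg (H.M.bd x)))
    (f := fun κ => H.hit J n (H.M.inv (H.M.rot^[κ] (H.M.bd x)))) (g := fun _ => (1 : ℝ))
    fun κ _ => H.hit_le_one J n _
  simpa [hitE] using h1

theorem escE_nonneg (H : HPT) (J : Set ℤ) (n : ℕ) (x : ℤ) : 0 ≤ H.escE J n x := by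
  rw [escE_eq]
  linarith [H.hitE_le_deg J n x]

theorem escE_le_deg (H : HPT) (J : Set ℤ) (n : ℕ) (x : ℤ) :
    H.escE J n x ≤ H.deg (H.M.bd x) := by
  rw [escE_eq]
  linarith [H.hitE_nonneg J n x]

end HPT

end Pool.Agent.Spd
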