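import Pool.Agent.Spd.C02

/-!
# SPD C03: monotonicity of the hitting probabilities; shift of the root

* `hit_mono`: `hit J n e ≤ hit J (n+1) e` for `e ∈ D`: induction on `n` (generalizing `e`).  On `J`
  both sides are `1` (`hit_on`).  Off `J`: `n = 0`: `0 ≤ ..` (`hit_nonneg`).  Step: averages, termwise
  (`hit_succ_off`, `div_le_div_of_nonneg_right`, `Finset.sum_le_sum`, `inv_mem`, `iter_mem`).
* `hit_mono_le`: `m ≤ n`.
* `hit_subset`: `J ⊆ J'`: induction on `n`; if `e` is on `J` it is on `J'`; if it is on `J'` only, the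
  right side is `1` (`hit_le_one`); otherwise averages.
* `hit_union`: `hit (J ∪ J') n e ≤ hit J n e + hit J' n e`: induction on `n`; if `e` is on `J` or on
  `J'` the right side is `≥ 1`; otherwise averages (and `n = 0`: `0 ≤ 0`).
* `escE_compare`: `univ = J ∪ Jᶜ`: `hit univ ≤ hit J + hit Jᶜ`, so
  `1 - hit J ≤ (1 - hit univ) + hit Jᶜ`; sum over the darts at `v_x`.
* `hit_shift`: `(H.shift k).M.bd j = H.M.bd (j + k)`, the rest of the data (`inv`, `rot`, `deg`,
  `SameV`) is unchanged (`rfl`); induction on `n`; the conditions `∃ j ∈ J, SameV (bd (j+k)) e` and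
  `∃ i, i - k ∈ J ∧ SameV (bd i) e` are equivalent.
* `hitE_shift`, `escE_shift`, `deg_shift`: by definition and `hit_shift`.
-/

namespace Pool.Agent.Spd

namespace HPT

private theorem hit_mono_all (H : HPT) (J : Set ℤ) (n e : ℕ) :
    H.hit J n e ≤ H.hit J (n + 1) e := by
  induction n generalizing e with
  | zero =>
    by_cases h : ∃ j ∈ J, H.M.SameV (H.M.bd j) e
    · rw [hit_on h, hit_on h]
    · rw [hit_zero_off h]
      exact H.hit_nonneg J _ e
  | succ n ih =>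
    by_cases h : ∃ j ∈ J, H.M.SameV (H.M.bd j) e
    · rw [hit_on h, hit_on h]
    · rw [hit_succ_off h, hit_succ_off h (n + 1)]
      exact div_le_div_of_nonneg_right (Finset.sum_le_sum fun κ _ => ih _) (Nat.cast_nonneg _)

private theorem hit_mono_le_all (H : HPT) (J : Set ℤ) {m n : ℕ} (hmn : m ≤ n) (e : ℕ) :
    H.hit J m e ≤ H.hit J n e := by
  induction hmn with
  | refl => exact le_rfl
  | step _ ih => exact ih.trans (hit_mono_all H J _ e)

private theorem hit_subset_all (H : HPT) {J J' : Set ℤ} (hJ : J ⊆ J') (n e : ℕ) :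
    H.hit J n e ≤ H.hit J' n e := by
  induction n generalizing e with
  | zero =>
    by_cases h : ∃ j ∈ J, H.M.SameV (H.M.bd j) e
    · have h' : ∃ j ∈ J', H.M.SameV (H.M.bd j) e := by
        obtain ⟨j, hj, h1⟩ := h
        exact ⟨j, hJ hj, h1⟩
      rw [hit_on h, hit_on h']
    · rw [hit_zero_off h]
      exact H.hit_nonneg J' _ e
  | succ n ih =>
    by_cases h' : ∃ j ∈ J', H.M.SameV (H.M.bd j) e
    · rw [hit_on h']
      exact H.hit_le_one J _ e
    · have h : ¬ ∃ j ∈ J, H.M.SameV (H.M.bd j) e := by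
        rintro ⟨j, hj, h1⟩
        exact h' ⟨j, hJ hj, h1⟩
      rw [hit_succ_off h, hit_succ_off h']
      exact div_le_div_of_nonneg_right (Finset.sum_le_sum fun κ _ => ih _) (Nat.cast_nonneg _)

private theorem hit_union_all (H : HPT) (J J' : Set ℤ) (n e : ℕ) :
    H.hit (J ∪ J') n e ≤ H.hit J n e + H.hit J' n e := by
  by_cases h : ∃ j ∈ J, H.M.SameV (H.M.bd j) e
  · rw [hit_on h n]
    linarith [H.hit_le_one (J ∪ J') n e, H.hit_nonneg J' n e]
  by_cases h' : ∃ j ∈ J', H.M.SameV (H.M.bd j) e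
  · rw [hit_on h' n]
    linarith [H.hit_le_one (J ∪ J') n e, H.hit_nonneg J n e]
  have h2 : ¬ ∃ j ∈ J ∪ J', H.M.SameV (H.M.bd j) e := by
    rintro ⟨j, hj | hj, h1⟩
    · exact h ⟨j, hj, h1⟩
    · exact h' ⟨j, hj, h1⟩
  induction n generalizing e with
  | zero =>
    rw [hit_zero_off h, hit_zero_off h', hit_zero_off h2, add_zero]
  | succ n ih =>
    rw [hit_succ_off h, hit_succ_off h', hit_succ_off h2, ← add_div, ← Finset.sum_add_distrib]
    refine div_le_div_of_nonneg_right (Finset.sum_le_sum fun κ _ => ?_) (Nat.cast_nonneg _)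
    obtain ⟨x, hx⟩ : ∃ x, x = H.M.inv (H.M.rot^[κ] e) := ⟨_, rfl⟩
    rw [← hx]
    by_cases k : ∃ j ∈ J, H.M.SameV (H.M.bd j) x
    · rw [hit_on k n]
      linarith [H.hit_le_one (J ∪ J') n x, H.hit_nonneg J' n x]
    by_cases k' : ∃ j ∈ J', H.M.SameV (H.M.bd j) x
    · rw [hit_on k' n]
      linarith [H.hit_le_one (J ∪ J') n x, H.hit_nonneg J n x]
    have k2 : ¬ ∃ j ∈ J ∪ J', H.M.SameV (H.M.bd j) x := by
      rintro ⟨j, hj | hj, h1⟩
      · exact k ⟨j, hj, h1⟩
      · exact k' ⟨j, hj, h1⟩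
    exact ih x k k' k2

theorem hit_mono (H : HPT) (J : Set ℤ) (n : ℕ) {e : ℕ} (he : e ∈ H.M.D) :
    H.hit J n e ≤ H.hit J (n + 1) e :=
  hit_mono_all H J n e

theorem hit_mono_le (H : HPT) (J : Set ℤ) {m n : ℕ} (hmn : m ≤ n) {e : ℕ} (he : e ∈ H.M.D) :
    H.hit J m e ≤ H.hit J n e :=
  hit_mono_le_all H J hmn e

theorem hit_subset (H : HPT) {J J' : Set ℤ} (hJ : J ⊆ J') (n : ℕ) {e : ℕ} (he : e ∈ H.M.D) :
    H.hit J n e ≤ H.hit J' n e :=
  hit_subset_all H hJ n e

theorem hit_union (H : HPT) (J J' : Set ℤ) (n : ℕ) {e : ℕ} (he : e ∈ H.M.D) :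
    H.hit (J ∪ J') n e ≤ H.hit J n e + H.hit J' n e :=
  hit_union_all H J J' n e

theorem hitE_subset (H : HPT) {J J' : Set ℤ} (hJ : J ⊆ J') (n : ℕ) (x : ℤ) :
    H.hitE J n x ≤ H.hitE J' n x :=
  Finset.sum_le_sum fun _ _ => hit_subset_all H hJ n _

theorem escE_anti (H : HPT) (J : Set ℤ) {m n : ℕ} (hmn : m ≤ n) (x : ℤ) :
    H.escE J n x ≤ H.escE J m x :=
  Finset.sum_le_sum fun _ _ => sub_le_sub_left (hit_mono_le_all H J hmn _) 1

theorem escE_compare (H : HPT) (J : Set ℤ) (n : ℕ) (x : ℤ) :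
    H.escE J n x ≤ H.escE Set.univ n x + H.hitE Jᶜ n x := by
  unfold escE hitE
  rw [← Finset.sum_add_distrib]
  refine Finset.sum_le_sum fun κ _ => ?_
  have h1 := hit_union_all H J Jᶜ n (H.M.inv (H.M.rot^[κ] (H.M.bd x)))
  rw [Set.union_compl_self] at h1
  linarith

theorem hit_shift (H : HPT) (k : ℤ) (J : Set ℤ) (n e : ℕ) :
    (H.shift k).hit J n e = H.hit {i | i - k ∈ J} n e := by
  have h0 : ∀ e, (∃ j ∈ J, (H.shift k).M.SameV ((H.shift k).M.bd j) e) ↔
      ∃ i ∈ {i : ℤ | i - k ∈ J}, H.M.SameV (H.M.bd i) e := by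
    intro e
    constructor
    · rintro ⟨j, hj, h1⟩
      refine ⟨j + k, ?_, h1⟩
      rw [Set.mem_ofPred_eq, add_sub_cancel_right]
      exact hj
    · rintro ⟨i, hi, h1⟩
      refine ⟨i - k, hi, ?_⟩
      have h2 : (H.shift k).M.bd (i - k) = H.M.bd i := by
        change H.M.bd (i - k + k) = H.M.bd i
        rw [sub_add_cancel]
      rw [h2]
      exact h1
  induction n generalizing e with
  | zero =>
    by_cases h : ∃ i ∈ {i : ℤ | i - k ∈ J}, H.M.SameV (H.M.bd i) e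
    · rw [hit_on h, hit_on ((h0 e).2 h)]
    · rw [hit_zero_off h, hit_zero_off fun h1 => h ((h0 e).1 h1)]
  | succ n ih =>
    by_cases h : ∃ i ∈ {i : ℤ | i - k ∈ J}, H.M.SameV (H.M.bd i) e
    · rw [hit_on h, hit_on ((h0 e).2 h)]
    · rw [hit_succ_off h, hit_succ_off fun h1 => h ((h0 e).1 h1)]
      have h1 : (H.shift k).deg e = H.deg e := rfl
      rw [h1]
      congr 1
      exact Finset.sum_congr rfl fun κ _ => ih _

theorem hitE_shift (H : HPT) (k : ℤ) (J : Set ℤ) (n : ℕ) (x : ℤ) :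
    (H.shift k).hitE J n x = H.hitE {i | i - k ∈ J} n (x + k) :=
  Finset.sum_congr rfl fun _ _ => hit_shift H k J n _

theorem escE_shift (H : HPT) (k : ℤ) (J : Set ℤ) (n : ℕ) (x : ℤ) :
    (H.shift k).escE J n x = H.escE {i | i - k ∈ J} n (x + k) :=
  Finset.sum_congr rfl fun _ _ => congrArg (fun t => 1 - t) (hit_shift H k J n _)

end HPT

end Pool.Agent.Spd
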