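import Pool.Agent.Spd.C03

/-!
# SPD C04: finite range

* `hit_fin`: for finite `J` the set `{e ∈ D | hit J n e ≠ 0}` is finite: induction on `n`.
  `n = 0`: `hit J 0 e ≠ 0` implies `SameV (bd j) e` for some `j ∈ J`: finite union of the finite
  classes of the `bd j` (`cls_finite`).  Step: `hit J (n+1) e ≠ 0` and `e` not on `J`: some summand is not
  `0`, i.e. `y = inv (rot^[κ] e)` satisfies `hit J n y ≠ 0`; `inv y = rot^[κ] e`, so
  `SameV (inv y) e` (`sameV_symm`); so `e` is in the union over the finitely many `y` (induction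
  hypothesis) of the classes of `inv y` (finite).
* `hit_vanish`: for every `n` and `e ∈ D` there is `m` with `hit {j | m < |j|} n e = 0`, more precisely
  `hit {j | m' < |j|} n e = 0` for all `m' ≥ m`: induction on `n`.  If `e` is on the boundary, it is
  at a unique `v_i` (`simple`), take `m ≥ |i|`; then `e` is not on `{j | m' < |j|}`.  For
  `n + 1` take also `m ≥` the numbers `m` for the finitely many darts `inv (rot^[κ] e)`, `κ < deg e`
  (`Finset.sup` over `range (deg e)` of a choice function); then the average of zeros is `0`.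
-/

namespace Pool.Agent.Spd

namespace HPT

private theorem c04_cls (H : HPT) {J : Set ℤ} (hJ : J.Finite) :
    (⋃ j ∈ J, {e | H.M.SameV (H.M.bd j) e}).Finite :=
  hJ.biUnion fun j _ => H.cls_finite (H.ok.bd_mem j)

theorem hit_fin (H : HPT) {J : Set ℤ} (hJ : J.Finite) (n : ℕ) :
    {e | e ∈ H.M.D ∧ H.hit J n e ≠ 0}.Finite := by
  induction n with
  | zero =>
    refine (c04_cls H hJ).subset ?_
    rintro e ⟨-, he⟩
    by_contra h
    apply he
    apply hit_zero_off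
    rintro ⟨j, hj, hje⟩
    exact h (Set.mem_biUnion hj hje)
  | succ n ih =>
    have h1 : (⋃ y ∈ {e | e ∈ H.M.D ∧ H.hit J n e ≠ 0},
        {e | H.M.SameV (H.M.inv y) e}).Finite :=
      ih.biUnion fun y hy => H.cls_finite (H.ok.inv_mem y hy.1)
    refine ((c04_cls H hJ).union h1).subset ?_
    rintro e ⟨heD, he⟩
    by_cases hon : ∃ j ∈ J, H.M.SameV (H.M.bd j) e
    · obtain ⟨j, hj, hje⟩ := hon
      exact Or.inl (Set.mem_biUnion hj hje)
    · right
      rw [hit_succ_off hon] at he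
      have h2 : (∑ κ ∈ Finset.range (H.deg e), H.hit J n (H.M.inv (H.M.rot^[κ] e))) ≠ 0 := by
        intro h0
        apply he
        rw [h0, zero_div]
      obtain ⟨κ, -, hκ⟩ := Finset.exists_ne_zero_of_sum_ne_zero h2
      have h3 : H.M.rot^[κ] e ∈ H.M.D := H.ok.iter_mem heD κ
      have h4 : H.M.SameV (H.M.rot^[κ] e) e := H.ok.sameV_symm heD ⟨κ, rfl⟩
      refine Set.mem_biUnion (x := H.M.inv (H.M.rot^[κ] e)) ⟨H.ok.inv_mem _ h3, hκ⟩ ?_
      rw [Set.mem_ofPred_eq, H.ok.inv_inv _ h3]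
      exact h4

private theorem c04_off (H : HPT) (e : ℕ) : ∃ m : ℕ, ∀ m' : ℕ, m ≤ m' →
    ¬ ∃ j ∈ {j : ℤ | (m' : ℤ) < |j|}, H.M.SameV (H.M.bd j) e := by
  by_cases h : ∃ i, H.M.SameV (H.M.bd i) e
  · obtain ⟨i, hi⟩ := h
    refine ⟨i.natAbs, fun m' hm' => ?_⟩
    rintro ⟨j, hj, hje⟩
    have h1 : H.M.SameV e (H.M.bd j) := H.ok.sameV_symm (H.ok.bd_mem j) hje
    have h2 := H.ok.simple i j (H.ok.sameV_trans hi h1)
    subst h2
    have h3 : (m' : ℤ) < |i| := hj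
    have h4 : (i.natAbs : ℤ) = |i| := Int.natCast_natAbs i
    omega
  · refine ⟨0, fun m' _ => ?_⟩
    rintro ⟨j, -, hje⟩
    exact h ⟨j, hje⟩

private theorem c04_sum (H : HPT) (n k : ℕ) (z : ℕ → ℕ)
    (h : ∀ κ, ∃ m : ℕ, ∀ m' : ℕ, m ≤ m' → H.hit {j : ℤ | (m' : ℤ) < |j|} n (z κ) = 0) :
    ∃ m : ℕ, ∀ m' : ℕ, m ≤ m' →
      ∑ κ ∈ Finset.range k, H.hit {j : ℤ | (m' : ℤ) < |j|} n (z κ) = 0 := by
  choose mm hm using h
  refine ⟨(Finset.range k).sup mm, fun m' hm' => Finset.sum_eq_zero fun κ hκ => ?_⟩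
  exact hm κ m' ((Finset.le_sup (f := mm) hκ).trans hm')

theorem hit_vanish (H : HPT) (n : ℕ) {e : ℕ} (he : e ∈ H.M.D) :
    ∃ m : ℕ, ∀ m' : ℕ, m ≤ m' → H.hit {j : ℤ | (m' : ℤ) < |j|} n e = 0 := by
  induction n generalizing e with
  | zero =>
    obtain ⟨m, hm⟩ := c04_off H e
    exact ⟨m, fun m' hm' => hit_zero_off (hm m' hm')⟩
  | succ n ih =>
    obtain ⟨m, hm⟩ := c04_off H e
    obtain ⟨m1, hm1⟩ := c04_sum H n (H.deg e) (fun κ => H.M.inv (H.M.rot^[κ] e))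
      fun κ => ih (H.ok.inv_mem _ (H.ok.iter_mem he κ))
    refine ⟨max m m1, fun m' hm' => ?_⟩
    rw [hit_succ_off (hm m' ((le_max_left _ _).trans hm')),
      hm1 m' ((le_max_right _ _).trans hm'), zero_div]

theorem hitE_vanish (H : HPT) (n : ℕ) (x : ℤ) :
    ∃ m : ℕ, ∀ m' : ℕ, m ≤ m' → H.hitE {j : ℤ | (m' : ℤ) < |j|} n x = 0 :=
  c04_sum H n (H.deg (H.M.bd x)) (fun κ => H.M.inv (H.M.rot^[κ] (H.M.bd x)))
    fun κ => hit_vanish H n (H.ok.inv_mem _ (H.ok.iter_mem (H.ok.bd_mem x) κ))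

end HPT

end Pool.Agent.Spd
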