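import Pool.Agent.Spd.C04
import Pool.Agent.Spd.Adm

/-!
# SPD C05: superlevel sets of hitting probabilities are admissible

`J = {0, ..., L}`, `f = hit J n`, `0 ≤ t < 1`, `K` = the darts of `D` with `t < f`.

* `sub`: clear.  `sat`: `hit_sameV`, `sameV_mem`.  `line`: `f (bd i) = 1 > t` (`hit_on`, `bd_mem`).
* `conn`: let `Z` be as in the definition.  Show by induction on `m ≤ n`: every `e ∈ D` with
  `t < hit J m e` is in `Z`; for `m = n` this is `K ⊆ Z`.
  If `e` is on `J`: `SameV (bd j) e`, `bd j ∈ Z`, so `e ∈ Z` (`Z` is saturated); this covers `m = 0`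
  (`hit_zero_off`: otherwise `hit J 0 e = 0 ≤ t`).
  Step `m + 1 ≤ n`, `e` not on `J`: `hit J (m+1) e` is the average of the numbers
  `hit J m (inv (rot^[κ] e))`, `κ < deg e` (`hit_succ_off`), so one of them is `> t` (otherwise the average
  is `≤ t`, using `t ≥ 0` and `deg e > 0`); `y = inv (rot^[κ] e) ∈ D`, so `y ∈ Z` by induction.
  `inv y = rot^[κ] e` (`inv_inv`) satisfies `f (inv y) = f e ≥ hit J (m+1) e > t` (`hit_sameV`,
  `hit_mono_le`), so `inv y ∈ K`, hence `inv y ∈ Z`, and `e ∈ Z` since `SameV (rot^[κ] e) e` (`sameV_symm`).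
-/

namespace Pool.Agent.Spd

theorem level_adm (H : HPT) (L n : ℕ) {t : ℝ} (ht0 : 0 ≤ t) (ht1 : t < 1) {K : Finset ℕ}
    (hK : ∀ d, d ∈ K ↔ d ∈ H.M.D ∧ t < H.hit (Set.Icc 0 (L : ℤ)) n d) : Adm H L K := by
  have ok := H.ok
  refine ⟨fun d hd => ((hK d).1 hd).1, ?_, ?_, ?_⟩
  · intro d hd e hde
    obtain ⟨h1, h2⟩ := (hK d).1 hd
    refine (hK e).2 ⟨ok.sameV_mem h1 hde, ?_⟩
    rw [HPT.hit_sameV H _ n h1 hde]
    exact h2
  · intro i hi0 hiL
    refine (hK _).2 ⟨ok.bd_mem i, ?_⟩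
    have h1 : ∃ j ∈ Set.Icc 0 (L : ℤ), H.M.SameV (H.M.bd j) (H.M.bd i) :=
      ⟨i, ⟨hi0, hiL⟩, ok.sameV_refl _⟩
    rw [HPT.hit_on h1 n]
    exact ht1
  · intro Z hZK hsat hline hinv
    have key : ∀ m, m ≤ n → ∀ e ∈ H.M.D, t < H.hit (Set.Icc 0 (L : ℤ)) m e → e ∈ Z := by
      intro m
      induction m with
      | zero =>
        intro _ e _ hte
        by_cases hon : ∃ j ∈ Set.Icc 0 (L : ℤ), H.M.SameV (H.M.bd j) e
        · obtain ⟨j, hj, hje⟩ := hon
          exact hsat _ (hline j hj.1 hj.2) e hje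
        · rw [HPT.hit_zero_off hon] at hte
          exact absurd ht0 (not_le.2 hte)
      | succ m ih =>
        intro hmn e he hte
        by_cases hon : ∃ j ∈ Set.Icc 0 (L : ℤ), H.M.SameV (H.M.bd j) e
        · obtain ⟨j, hj, hje⟩ := hon
          exact hsat _ (hline j hj.1 hj.2) e hje
        · have hex : ∃ κ ∈ Finset.range (H.deg e),
              t < H.hit (Set.Icc 0 (L : ℤ)) m (H.M.inv (H.M.rot^[κ] e)) := by
            by_contra hno
            push Not at hno
            have h1 : ∑ κ ∈ Finset.range (H.deg e),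
                H.hit (Set.Icc 0 (L : ℤ)) m (H.M.inv (H.M.rot^[κ] e)) ≤ H.deg e * t := by
              have h2 := Finset.sum_le_card_nsmul (Finset.range (H.deg e)) _ t hno
              simpa [nsmul_eq_mul] using h2
            have h3 : (0 : ℝ) < H.deg e := by exact_mod_cast H.deg_pos he
            rw [HPT.hit_succ_off hon, lt_div_iff₀ h3] at hte
            linarith [mul_comm t (H.deg e : ℝ)]
          obtain ⟨κ, _, hκ⟩ := hex
          have hr : H.M.rot^[κ] e ∈ H.M.D := ok.iter_mem he κ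
          have hy : H.M.inv (H.M.rot^[κ] e) ∈ H.M.D := ok.inv_mem _ hr
          have hyZ := ih (by omega) _ hy hκ
          have hii : H.M.inv (H.M.inv (H.M.rot^[κ] e)) = H.M.rot^[κ] e := ok.inv_inv _ hr
          have hsv : H.M.SameV e (H.M.rot^[κ] e) := ⟨κ, rfl⟩
          have hrK : H.M.inv (H.M.inv (H.M.rot^[κ] e)) ∈ K := by
            rw [hii]
            refine (hK _).2 ⟨hr, ?_⟩
            rw [HPT.hit_sameV H _ n he hsv]
            exact lt_of_lt_of_le hte (HPT.hit_mono_le H _ hmn he)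
          have h4 := hinv _ hyZ hrK
          rw [hii] at h4
          exact hsat _ h4 e (ok.sameV_symm he hsv)
    refine Finset.Subset.antisymm hZK fun d hd => ?_
    obtain ⟨h1, h2⟩ := (hK d).1 hd
    exact key n le_rfl d h1 h2

end Pool.Agent.Spd
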