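import Mathlib

/-!
# SPD C06: a Cheeger inequality for a finite set with an involution (pure analysis)

`S` is a finite set of darts (natural numbers), `ι` an involution of `S`, `f` a function with values in
`[0, 1]` on `S`.  Hypothesis `hc`: for every `t ∈ [0, 1)` the number of darts of the superlevel set
`{f > t}` times `c` is at most the number of darts `d` with `f d > t ≥ f (ι d)`.

* `coarea`: `2 c ∑ f(d)² ≤ ∑ |f(d)² - f(ι d)²|`.
  For a real number `0 ≤ a ≤ 1`: `a² = ∫_0^1 1[s < a²] ds`; put `s = t²`: for `s ∈ [0, 1)`,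
  `s < f(d)²` iff `√s < f d`.  So `∑_d f(d)² = ∫_0^1 #{d : √s < f d} ds` and
  `∑_d (f(d)² - f(ι d)²)^+ = ∫_0^1 #{d : f (ι d) ≤ √s < f d} ds` (for each `d`:
  `(a² - b²)^+ = ∫_0^1 1[b² ≤ s < a²] ds`).  With `t = √s`, `hc` gives
  `c ∑ f(d)² ≤ ∑ (f(d)² - f(ι d)²)^+`.  Finally
  `∑ |f(d)² - f(ι d)²| = ∑ (f(d)² - f(ι d)²)^+ + ∑ (f(ι d)² - f(d)²)^+` and the second sum
  equals the first one by the involution (`Finset.sum_bij` or `Finset.sum_nbij'`).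
  (Alternatively, avoid integrals: sort the finitely many values of `f`, or use the layer cake
  formula as a finite sum over the values `0 = t_0 < t_1 < ... < t_k` of `f` on `S ∪ {0}`:
  `f(d)² = ∑_{i : t_{i+1} ≤ f d} (t_{i+1}² - t_i²)`.  For `t_i ≤ t < t_{i+1}` the superlevel sets are
  constant, `hc` is used for `t = t_i`.)
* `energy`: Cauchy-Schwarz:
  `(2 c ∑ f²)² ≤ (∑ |f - f∘ι| |f + f∘ι|)² ≤ ∑ (f - f∘ι)² ∑ (f + f∘ι)²`
  (`Finset.sum_mul_sq_le_sq_mul_sq`), and `∑ (f + f∘ι)² ≤ 2 ∑ f² + 2 ∑ (f∘ι)² = 4 ∑ f²`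
  (involution).  If `∑ f² = 0` the claim is trivial, otherwise divide by `4 ∑ f²`.
-/

namespace Pool.Agent.Spd

open MeasureTheory Set in
private lemma c06_int {a b : ℝ} (hb : 0 ≤ b) (ha : a ≤ 1) :
    IntegrableOn (fun s : ℝ => if s < a ∧ b ≤ s then (1 : ℝ) else 0) (Ico 0 1) ∧
    ∫ s in Ico (0 : ℝ) 1, (if s < a ∧ b ≤ s then (1 : ℝ) else 0) = max (a - b) 0 := by
  have h1 : (fun s : ℝ => if s < a ∧ b ≤ s then (1 : ℝ) else 0) = (Ico b a).indicator 1 := by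
    funext s
    by_cases h : s < a ∧ b ≤ s
    · rw [if_pos h, indicator_of_mem (show s ∈ Ico b a from ⟨h.2, h.1⟩), Pi.one_apply]
    · rw [if_neg h, indicator_of_notMem (fun h' => h ⟨h'.2, h'.1⟩)]
  have h2 : Ico b a ∩ Ico 0 1 = Ico b a := by
    apply inter_eq_left.2
    intro s hs
    exact ⟨hb.trans hs.1, hs.2.trans_le ha⟩
  constructor
  · rw [h1]
    refine IntegrableOn.indicator ?_ measurableSet_Ico
    exact integrableOn_const (by simp) (by simp)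
  · rw [h1, integral_indicator_one measurableSet_Ico, measureReal_restrict_apply measurableSet_Ico,
      h2, Real.volume_real_Ico]

private lemma c06_inv {S : Finset ℕ} {ι : ℕ → ℕ} (hι : ∀ d ∈ S, ι d ∈ S)
    (hι' : ∀ d ∈ S, ι (ι d) = d) (g : ℕ → ℝ) : ∑ d ∈ S, g (ι d) = ∑ d ∈ S, g d :=
  Finset.sum_nbij' ι ι hι hι hι' hι' fun _ _ => rfl

theorem coarea {S : Finset ℕ} {ι : ℕ → ℕ} (hι : ∀ d ∈ S, ι d ∈ S) (hι' : ∀ d ∈ S, ι (ι d) = d)
    {f : ℕ → ℝ} (h0 : ∀ d ∈ S, 0 ≤ f d) (h1 : ∀ d ∈ S, f d ≤ 1) {c : ℝ}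
    (hc : ∀ t : ℝ, 0 ≤ t → t < 1 → c * ((S.filter fun d => t < f d).card : ℝ) ≤
      ((S.filter fun d => t < f d ∧ f (ι d) ≤ t).card : ℝ)) :
    2 * c * ∑ d ∈ S, f d ^ 2 ≤ ∑ d ∈ S, |f d ^ 2 - f (ι d) ^ 2| := by
  have hcoef : ∀ d ∈ S, 0 ≤ f (ι d) := fun d hd => h0 _ (hι d hd)
  have hsq1 : ∀ d ∈ S, f d ^ 2 ≤ 1 := fun d hd => by
    have := h0 d hd
    have := h1 d hd
    nlinarith
  have e1 : ∀ d ∈ S, ∫ s in Set.Ico (0 : ℝ) 1, (if s < f d ^ 2 ∧ 0 ≤ s then (1 : ℝ) else 0) =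
      f d ^ 2 := by
    intro d hd
    rw [(c06_int le_rfl (hsq1 d hd)).2, sub_zero, max_eq_left (sq_nonneg _)]
  have e2 : ∀ d ∈ S, ∫ s in Set.Ico (0 : ℝ) 1,
      (if s < f d ^ 2 ∧ f (ι d) ^ 2 ≤ s then (1 : ℝ) else 0) =
        max (f d ^ 2 - f (ι d) ^ 2) 0 := fun d hd =>
    (c06_int (sq_nonneg _) (hsq1 d hd)).2
  have key : c * ∑ d ∈ S, f d ^ 2 ≤ ∑ d ∈ S, max (f d ^ 2 - f (ι d) ^ 2) 0 := by
    rw [← Finset.sum_congr rfl e1, ← Finset.sum_congr rfl e2,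
      ← MeasureTheory.integral_finsetSum _ (fun d hd => (c06_int le_rfl (hsq1 d hd)).1),
      ← MeasureTheory.integral_finsetSum _ (fun d hd => (c06_int (sq_nonneg _) (hsq1 d hd)).1),
      ← MeasureTheory.integral_const_mul]
    refine MeasureTheory.setIntegral_mono_on ?_ ?_ measurableSet_Ico ?_
    · exact (MeasureTheory.integrable_finsetSum _
        (fun d hd => (c06_int le_rfl (hsq1 d hd)).1)).const_mul c
    · exact MeasureTheory.integrable_finsetSum _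
        (fun d hd => (c06_int (sq_nonneg _) (hsq1 d hd)).1)
    · intro s hs
      have ht := Real.sqrt_nonneg s
      have hts := Real.sq_sqrt hs.1
      have ht1 : √s < 1 := by
        rw [← sq_lt_sq₀ ht zero_le_one, hts, one_pow]
        exact hs.2
      have h2 := hc (√s) ht ht1
      have h3 : ((S.filter fun d => √s < f d).card : ℝ) =
          ∑ d ∈ S, if s < f d ^ 2 ∧ 0 ≤ s then (1 : ℝ) else 0 := by
        rw [← Finset.sum_boole]
        refine Finset.sum_congr rfl fun d hd => ?_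
        have h4 : √s < f d ↔ s < f d ^ 2 ∧ 0 ≤ s := by
          rw [← sq_lt_sq₀ ht (h0 d hd), hts]
          exact ⟨fun h => ⟨h, hs.1⟩, fun h => h.1⟩
        simp only [h4]
      have h5 : ((S.filter fun d => √s < f d ∧ f (ι d) ≤ √s).card : ℝ) =
          ∑ d ∈ S, if s < f d ^ 2 ∧ f (ι d) ^ 2 ≤ s then (1 : ℝ) else 0 := by
        rw [← Finset.sum_boole]
        refine Finset.sum_congr rfl fun d hd => ?_
        have h4 : (√s < f d ∧ f (ι d) ≤ √s) ↔ (s < f d ^ 2 ∧ f (ι d) ^ 2 ≤ s) := by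
          rw [← sq_lt_sq₀ ht (h0 d hd), ← sq_le_sq₀ (hcoef d hd) ht, hts]
        simp only [h4]
      rw [h3, h5] at h2
      exact h2
  have habs : ∀ x : ℝ, |x| = max x 0 + max (-x) 0 := by
    intro x
    rcases le_total 0 x with h | h
    · rw [abs_of_nonneg h, max_eq_left h, max_eq_right (by linarith), add_zero]
    · rw [abs_of_nonpos h, max_eq_right h, max_eq_left (by linarith), zero_add]
  have h6 : ∑ d ∈ S, |f d ^ 2 - f (ι d) ^ 2| =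
      ∑ d ∈ S, max (f d ^ 2 - f (ι d) ^ 2) 0 + ∑ d ∈ S, max (f d ^ 2 - f (ι d) ^ 2) 0 := by
    conv_rhs => arg 2; rw [← c06_inv hι hι' (fun d => max (f d ^ 2 - f (ι d) ^ 2) 0)]
    rw [← Finset.sum_add_distrib]
    refine Finset.sum_congr rfl fun d hd => ?_
    rw [habs, hι' d hd, neg_sub]
  rw [h6]
  linarith

theorem energy {S : Finset ℕ} {ι : ℕ → ℕ} (hι : ∀ d ∈ S, ι d ∈ S) (hι' : ∀ d ∈ S, ι (ι d) = d)
    {f : ℕ → ℝ} (h0 : ∀ d ∈ S, 0 ≤ f d) (h1 : ∀ d ∈ S, f d ≤ 1) {c : ℝ} (hc0 : 0 ≤ c)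
    (hc : ∀ t : ℝ, 0 ≤ t → t < 1 → c * ((S.filter fun d => t < f d).card : ℝ) ≤
      ((S.filter fun d => t < f d ∧ f (ι d) ≤ t).card : ℝ)) :
    c ^ 2 * ∑ d ∈ S, f d ^ 2 ≤ ∑ d ∈ S, (f d - f (ι d)) ^ 2 := by
  have h2 := coarea hι hι' h0 h1 hc
  set X := ∑ d ∈ S, f d ^ 2 with hX
  have hX0 : 0 ≤ X := Finset.sum_nonneg fun d _ => sq_nonneg _
  have h3 : (∑ d ∈ S, |f d ^ 2 - f (ι d) ^ 2|) ^ 2 ≤
      (∑ d ∈ S, |f d - f (ι d)| ^ 2) * ∑ d ∈ S, |f d + f (ι d)| ^ 2 := by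
    refine le_trans (le_of_eq ?_) (Finset.sum_mul_sq_le_sq_mul_sq S (fun d => |f d - f (ι d)|)
      fun d => |f d + f (ι d)|)
    congr 1
    refine Finset.sum_congr rfl fun d _ => ?_
    rw [← abs_mul]
    congr 1
    ring
  simp only [sq_abs] at h3
  have h4 : ∑ d ∈ S, (f d + f (ι d)) ^ 2 ≤ 4 * X := by
    have h5 : ∑ d ∈ S, (f d + f (ι d)) ^ 2 ≤ ∑ d ∈ S, (2 * f d ^ 2 + 2 * f (ι d) ^ 2) :=
      Finset.sum_le_sum fun d _ => by nlinarith [sq_nonneg (f d - f (ι d))]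
    refine h5.trans (le_of_eq ?_)
    rw [Finset.sum_add_distrib, ← Finset.mul_sum, ← Finset.mul_sum,
      c06_inv hι hι' (fun d => f d ^ 2)]
    ring
  set D := ∑ d ∈ S, (f d - f (ι d)) ^ 2 with hD
  have hD0 : 0 ≤ D := Finset.sum_nonneg fun d _ => sq_nonneg _
  have h5 : (2 * c * X) ^ 2 ≤ D * (4 * X) := by
    have h6 : 0 ≤ 2 * c * X := by positivity
    have h7 : (2 * c * X) ^ 2 ≤ (∑ d ∈ S, |f d ^ 2 - f (ι d) ^ 2|) ^ 2 :=
      pow_le_pow_left₀ h6 h2 2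
    exact h7.trans (h3.trans (mul_le_mul_of_nonneg_left h4 hD0))
  rcases hX0.eq_or_lt with h6 | h6
  · rw [← h6, mul_zero]
    exact hD0
  · have h7 : (4 * X) * (c ^ 2 * X) ≤ (4 * X) * D := by nlinarith
    exact le_of_mul_le_mul_left h7 (by positivity)

/-- Summation by parts. -/
theorem green_inv {S : Finset ℕ} {ι : ℕ → ℕ} (hι : ∀ d ∈ S, ι d ∈ S)
    (hι' : ∀ d ∈ S, ι (ι d) = d) (f : ℕ → ℝ) :
    ∑ d ∈ S, (f d - f (ι d)) ^ 2 = 2 * ∑ d ∈ S, f d * (f d - f (ι d)) := by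
  have h1 := c06_inv hι hι' (fun d => f d ^ 2)
  beta_reduce at h1
  have h2 : ∑ d ∈ S, (f d - f (ι d)) ^ 2 =
      ∑ d ∈ S, f d ^ 2 + ∑ d ∈ S, f (ι d) ^ 2 - 2 * ∑ d ∈ S, f d * f (ι d) := by
    rw [Finset.mul_sum, ← Finset.sum_add_distrib, ← Finset.sum_sub_distrib]
    refine Finset.sum_congr rfl fun d _ => ?_
    ring
  have h3 : ∑ d ∈ S, f d * (f d - f (ι d)) =
      ∑ d ∈ S, f d ^ 2 - ∑ d ∈ S, f d * f (ι d) := by
    rw [← Finset.sum_sub_distrib]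
    refine Finset.sum_congr rfl fun d _ => ?_
    ring
  rw [h2, h3, h1]
  ring

end Pool.Agent.Spd
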