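import Pool.Agent.Spd.C04

/-!
# SPD C07: averaging over vertices and Green's formula

`T` is a finite set of darts that contains with a dart all darts of the same vertex.

* `sum_avg`: for `d ∈ T` the map `κ ↦ rot^[κ] d`, `κ < deg d`, is a bijection onto
  `T.filter (SameV d ·)` (`sameV_iff_lt`, `iter_injOn`), so
  `∑_{κ < deg d} g (rot^[κ] d) = ∑_{e ∈ T, SameV d e} g e`.  Then exchange the sums:
  `∑_{d ∈ T} (∑_{e ∈ T, SameV d e} g e) / deg d = ∑_{e ∈ T} g e ∑_{d ∈ T, SameV d e} 1 / deg d`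
  and for `SameV d e`: `deg d = deg e` (`deg_sameV`), the number of such `d` is the number of darts of
  the vertex of `e`, which is `deg e` (`SameV d e ↔ SameV e d`), positive (`deg_pos`).
* `green_vertex`: `J = {0, ..., L}`, `f = hit J n`, `T` = the darts with `f ≠ 0` (finite: `hit_fin`; closed:
  `hit_sameV`).  By `sum_avg` for `g d = f d * (f d - f (inv d))` the left side is the sum over `d ∈ T` of
  `φ d = f d * (f d - A d)`, `A d = (∑_{κ < deg d} f (inv (rot^[κ] d))) / deg d` (since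
  `f (rot^[κ] d) = f d`).  If `d` is not on `J`, `A d = hit J (n+1) d ≥ f d` (`hit_succ_off`, `hit_mono`), so
  `φ d ≤ 0` (`hit_nonneg`).  If `SameV (bd x) d`, `x ∈ J`, then `f d = 1` and `φ d = escE J n x / deg (bd x)`
  (`sum_orbit` applied to `g y = 1 - f (inv y)`, `deg_sameV`).  The darts of `T` on `J` are the disjoint union
  over `x ∈ J` (`simple`) of the classes of `bd x`, each with `deg (bd x)` elements, so
  `∑_{d ∈ T} φ d ≤ ∑_{x ∈ J} escE J n x`.
-/

namespace Pool.Agent.Spd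

namespace HPT

private theorem card_cls {H : HPT} {T : Finset ℕ} [DecidableEq ℕ]
    {d : ℕ} [DecidablePred fun e => H.M.SameV d e] (hd : d ∈ H.M.D)
    (hs : ∀ e, H.M.SameV d e → e ∈ T) :
    (T.filter fun e => H.M.SameV d e) =
      (Finset.range (H.deg d)).image (fun κ => H.M.rot^[κ] d) := by
  ext e
  rw [Finset.mem_filter, Finset.mem_image]
  constructor
  · rintro ⟨-, h⟩
    obtain ⟨κ, h1, h2⟩ := (H.sameV_iff_lt hd).1 h
    exact ⟨κ, Finset.mem_range.2 h1, h2⟩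
  · rintro ⟨κ, h1, h2⟩
    have h3 : H.M.SameV d e := ⟨κ, h2⟩
    exact ⟨hs e h3, h3⟩

private theorem injOn_range {H : HPT} {d : ℕ} :
    Set.InjOn (fun κ => H.M.rot^[κ] d) (Finset.range (H.deg d) : Set ℕ) := by
  intro a ha b hb hab
  rw [Finset.mem_coe, Finset.mem_range] at ha hb
  exact H.iter_injOn ha hb hab

theorem sum_avg (H : HPT) {T : Finset ℕ} (hT : ∀ d ∈ T, d ∈ H.M.D)
    (hs : ∀ d ∈ T, ∀ e, H.M.SameV d e → e ∈ T) (g : ℕ → ℝ) :
    ∑ d ∈ T, (∑ κ ∈ Finset.range (H.deg d), g (H.M.rot^[κ] d)) / H.deg d = ∑ d ∈ T, g d := by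
  classical
  have h1 : ∀ d ∈ T, (∑ κ ∈ Finset.range (H.deg d), g (H.M.rot^[κ] d)) / H.deg d =
      ∑ e ∈ T, if H.M.SameV d e then g e / H.deg e else 0 := by
    intro d hd
    rw [← Finset.sum_filter, card_cls (hT d hd) (hs d hd), Finset.sum_image injOn_range,
      Finset.sum_div]
    refine Finset.sum_congr rfl fun κ _ => ?_
    rw [H.deg_sameV (hT d hd) ⟨κ, rfl⟩]
  rw [Finset.sum_congr rfl h1, Finset.sum_comm]
  refine Finset.sum_congr rfl fun e he => ?_
  have h2 : ∀ d ∈ T, (if H.M.SameV d e then g e / H.deg e else 0) =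
      if H.M.SameV e d then g e / H.deg e else 0 := by
    intro d hd
    have h3 : H.M.SameV d e ↔ H.M.SameV e d :=
      ⟨H.ok.sameV_symm (hT d hd), H.ok.sameV_symm (hT e he)⟩
    simp only [h3]
  rw [Finset.sum_congr rfl h2, ← Finset.sum_filter, Finset.sum_const,
    card_cls (hT e he) (hs e he), ← H.deg_eq_card (hT e he), nsmul_eq_mul]
  have h4 : (H.deg e : ℝ) ≠ 0 := by
    have := H.deg_pos (hT e he)
    positivity
  field_simp

theorem green_vertex (H : HPT) (L n : ℕ) {T : Finset ℕ}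
    (hT : ∀ d, d ∈ T ↔ d ∈ H.M.D ∧ H.hit (Set.Icc 0 (L : ℤ)) n d ≠ 0) :
    ∑ d ∈ T, H.hit (Set.Icc 0 (L : ℤ)) n d *
        (H.hit (Set.Icc 0 (L : ℤ)) n d - H.hit (Set.Icc 0 (L : ℤ)) n (H.M.inv d)) ≤
      ∑ x ∈ Finset.Icc (0 : ℤ) L, H.escE (Set.Icc 0 (L : ℤ)) n x := by
  classical
  set J : Set ℤ := Set.Icc 0 (L : ℤ) with hJ
  have hD : ∀ d ∈ T, d ∈ H.M.D := fun d hd => ((hT d).1 hd).1
  have hs : ∀ d ∈ T, ∀ e, H.M.SameV d e → e ∈ T := by
    intro d hd e hde
    refine (hT e).2 ⟨H.ok.sameV_mem (hD d hd) hde, ?_⟩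
    rw [H.hit_sameV J n (hD d hd) hde]
    exact ((hT d).1 hd).2
  rw [← H.sum_avg hD hs (fun d => H.hit J n d * (H.hit J n d - H.hit J n (H.M.inv d)))]
  -- the right side as a sum over `T`
  have hR : ∀ x ∈ Finset.Icc (0 : ℤ) L, H.escE J n x =
      ∑ d ∈ T, if H.M.SameV (H.M.bd x) d then H.escE J n x / H.deg (H.M.bd x) else 0 := by
    intro x hx
    rw [Finset.mem_Icc] at hx
    have hb := H.ok.bd_mem x
    have hbT : H.M.bd x ∈ T := by
      refine (hT _).2 ⟨hb, ?_⟩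
      rw [hit_on ⟨x, by rw [hJ]; exact hx, H.ok.sameV_refl _⟩]
      exact one_ne_zero
    rw [← Finset.sum_filter, Finset.sum_const, card_cls hb (hs _ hbT), ← H.deg_eq_card hb,
      nsmul_eq_mul]
    have h4 : (H.deg (H.M.bd x) : ℝ) ≠ 0 := by
      have := H.deg_pos hb
      positivity
    field_simp
  rw [Finset.sum_congr rfl hR, Finset.sum_comm]
  refine Finset.sum_le_sum fun d hd => ?_
  have hdD := hD d hd
  have hdp : (0 : ℝ) < H.deg d := by
    have := H.deg_pos hdD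
    exact_mod_cast this
  have hnn : ∀ x ∈ Finset.Icc (0 : ℤ) L, (0 : ℝ) ≤
      if H.M.SameV (H.M.bd x) d then H.escE J n x / H.deg (H.M.bd x) else 0 := by
    intro x _
    split_ifs
    · exact div_nonneg (H.escE_nonneg J n x) (Nat.cast_nonneg _)
    · exact le_rfl
  have hsum : ∑ κ ∈ Finset.range (H.deg d), H.hit J n (H.M.rot^[κ] d) *
      (H.hit J n (H.M.rot^[κ] d) - H.hit J n (H.M.inv (H.M.rot^[κ] d))) =
      H.hit J n d * ∑ κ ∈ Finset.range (H.deg d),
        (H.hit J n d - H.hit J n (H.M.inv (H.M.rot^[κ] d))) := by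
    rw [Finset.mul_sum]
    refine Finset.sum_congr rfl fun κ _ => ?_
    rw [H.hit_sameV J n hdD ⟨κ, rfl⟩]
  rw [hsum]
  by_cases hon : ∃ j ∈ J, H.M.SameV (H.M.bd j) d
  · obtain ⟨x, hx, hxd⟩ := hon
    have hx' : x ∈ Finset.Icc (0 : ℤ) L := by
      rw [Finset.mem_Icc]
      exact hx
    refine le_trans (le_of_eq ?_) (Finset.single_le_sum hnn hx')
    have hb := H.ok.bd_mem x
    rw [if_pos hxd, hit_on ⟨x, hx, hxd⟩, one_mul,
      H.sum_orbit hb hxd (fun y => 1 - H.hit J n (H.M.inv y)), H.deg_sameV hb hxd]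
    rfl
  · refine le_trans ?_ (Finset.sum_nonneg hnn)
    have h1 : H.hit J n d ≤ H.hit J (n + 1) d := H.hit_mono J n hdD
    rw [hit_succ_off hon, le_div_iff₀ hdp] at h1
    refine div_nonpos_of_nonpos_of_nonneg ?_ hdp.le
    refine mul_nonpos_of_nonneg_of_nonpos (H.hit_nonneg J n d) ?_
    rw [Finset.sum_sub_distrib, Finset.sum_const, Finset.card_range, nsmul_eq_mul]
    linarith

end HPT

end Pool.Agent.Spd
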