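import Pool.Agent.Spd.C05
import Pool.Agent.Spd.C06
import Pool.Agent.Spd.C07

/-!
# SPD C08: the deterministic estimate

`J = {0, ..., L}`, `f = hit J n`, `T` = the finite set of darts of `D` with `f ≠ 0` (`hit_fin`, `J` is
finite), `S = T ∪ T.image inv`, `ι = inv`.

* `ι` is an involution of `S`: `T ⊆ D`, `inv_inv`, `inv_mem`.
* hypothesis of `energy`: for `0 ≤ t < 1` let `K = T.filter (t < f ·)` = all darts of `D` with `t < f`
  (`t ≥ 0`); `Adm H L K` (`level_adm`); `S.filter (t < f ·) = K` and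
  `K.filter (inv · ∉ K) = S.filter (fun d => t < f d ∧ f (inv d) ≤ t)`; so `hc` gives the
  hypothesis.
* `energy`: `c² ∑_S f² ≤ ∑_S (f - f ∘ inv)² = 2 ∑_S f (f - f ∘ inv)` (`green_inv`)
  `= 2 ∑_T f (f - f ∘ inv)` (the terms with `f = 0` vanish) `≤ 2 ∑_{x ∈ J} escE J n x` (`green_vertex`).
* `∑_S f² ≥ L + 1`: the darts `bd x`, `0 ≤ x ≤ L`, are distinct (`bd_inj`), in `T`, with `f = 1`.
-/

namespace Pool.Agent.Spd

theorem det_bound (H : HPT) (L : ℕ) {c : ℝ} (hc0 : 0 ≤ c)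
    (hc : ∀ K, Adm H L K → c * (K.card : ℝ) ≤ bdry H K) (n : ℕ) :
    c ^ 2 / 2 * ((L : ℝ) + 1) ≤ ∑ x ∈ Finset.Icc (0 : ℤ) L, H.escE (Set.Icc 0 (L : ℤ)) n x := by
  classical
  set J : Set ℤ := Set.Icc 0 (L : ℤ) with hJ
  set f : ℕ → ℝ := H.hit J n with hf
  set T : Finset ℕ := (H.hit_fin (Set.finite_Icc (0 : ℤ) (L : ℤ)) n).toFinset with hTdef
  have hT : ∀ d, d ∈ T ↔ d ∈ H.M.D ∧ f d ≠ 0 := by
    intro d
    rw [hTdef, Set.Finite.mem_toFinset]
    rfl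
  have hf0 : ∀ d, 0 ≤ f d := fun d => H.hit_nonneg J n d
  have hf1 : ∀ d, f d ≤ 1 := fun d => H.hit_le_one J n d
  set S : Finset ℕ := T ∪ T.image H.M.inv with hSdef
  have hSD : ∀ d ∈ S, d ∈ H.M.D := by
    intro d hd
    rcases Finset.mem_union.1 hd with h | h
    · exact ((hT d).1 h).1
    · obtain ⟨e, he, rfl⟩ := Finset.mem_image.1 h
      exact H.ok.inv_mem e ((hT e).1 he).1
  have hι : ∀ d ∈ S, H.M.inv d ∈ S := by
    intro d hd
    rcases Finset.mem_union.1 hd with h | h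
    · exact Finset.mem_union_right _ (Finset.mem_image_of_mem _ h)
    · obtain ⟨e, he, rfl⟩ := Finset.mem_image.1 h
      rw [H.ok.inv_inv e ((hT e).1 he).1]
      exact Finset.mem_union_left _ he
  have hι' : ∀ d ∈ S, H.M.inv (H.M.inv d) = d := fun d hd => H.ok.inv_inv d (hSD d hd)
  have hTS : T ⊆ S := Finset.subset_union_left
  have hposT : ∀ d ∈ H.M.D, ∀ t : ℝ, 0 ≤ t → t < f d → d ∈ T := by
    intro d hd t ht htf
    exact (hT d).2 ⟨hd, (lt_of_le_of_lt ht htf).ne'⟩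
  have hlev : ∀ t : ℝ, 0 ≤ t → t < 1 → c * ((S.filter fun d => t < f d).card : ℝ) ≤
      ((S.filter fun d => t < f d ∧ f (H.M.inv d) ≤ t).card : ℝ) := by
    intro t ht0 ht1
    have hK : ∀ d, d ∈ (S.filter fun d => t < f d) ↔ d ∈ H.M.D ∧ t < H.hit (Set.Icc 0 (L : ℤ)) n d := by
      intro d
      rw [Finset.mem_filter]
      constructor
      · rintro ⟨h1, h2⟩
        exact ⟨hSD d h1, h2⟩
      · rintro ⟨h1, h2⟩
        exact ⟨hTS (hposT d h1 t ht0 h2), h2⟩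
    have h1 := hc _ (level_adm H L n ht0 ht1 hK)
    refine h1.trans ?_
    unfold bdry
    refine Nat.cast_le.2 (Finset.card_le_card ?_)
    intro d hd
    obtain ⟨h2, h3⟩ := Finset.mem_filter.1 hd
    obtain ⟨h4, h5⟩ := Finset.mem_filter.1 h2
    refine Finset.mem_filter.2 ⟨h4, h5, ?_⟩
    by_contra h6
    exact h3 ((hK _).2 ⟨H.ok.inv_mem d (hSD d h4), not_le.1 h6⟩)
  have hE := energy hι hι' (fun d _ => hf0 d) (fun d _ => hf1 d) hc0 hlev
  have hG := green_inv hι hι' f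
  have hV := H.green_vertex L n (T := T) hT
  have hST : ∑ d ∈ S, f d * (f d - f (H.M.inv d)) = ∑ d ∈ T, f d * (f d - f (H.M.inv d)) := by
    refine (Finset.sum_subset hTS ?_).symm
    intro d hd hdT
    have : f d = 0 := by
      by_contra h
      exact hdT ((hT d).2 ⟨hSD d hd, h⟩)
    rw [this, zero_mul]
  have hlow : ((L : ℝ) + 1) ≤ ∑ d ∈ S, f d ^ 2 := by
    have h1 : ∀ i ∈ Finset.Icc (0 : ℤ) L, H.M.bd i ∈ S ∧ f (H.M.bd i) = 1 := by
      intro i hi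
      have h2 : f (H.M.bd i) = 1 :=
        HPT.hit_on ⟨i, Finset.mem_Icc.1 hi, H.ok.sameV_refl _⟩ n
      refine ⟨hTS ((hT _).2 ⟨H.ok.bd_mem i, ?_⟩), h2⟩
      rw [h2]
      exact one_ne_zero
    have h3 : ∑ d ∈ (Finset.Icc (0 : ℤ) L).image H.M.bd, f d ^ 2 = (L : ℝ) + 1 := by
      rw [Finset.sum_image (fun a _ b _ hab => H.ok.bd_inj hab)]
      rw [Finset.sum_congr rfl (g := fun _ => (1 : ℝ))]
      · simp
      · intro i hi
        rw [(h1 i hi).2, one_pow]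
    rw [← h3]
    refine Finset.sum_le_sum_of_subset_of_nonneg ?_ (fun d _ _ => sq_nonneg _)
    intro d hd
    obtain ⟨i, hi, rfl⟩ := Finset.mem_image.1 hd
    exact (h1 i hi).1
  have h5 : c ^ 2 * ((L : ℝ) + 1) ≤ c ^ 2 * ∑ d ∈ S, f d ^ 2 :=
    mul_le_mul_of_nonneg_left hlow (sq_nonneg c)
  have h6 : ∑ d ∈ T, f d * (f d - f (H.M.inv d)) ≤
      ∑ x ∈ Finset.Icc (0 : ℤ) L, H.escE J n x := hV
  rw [hG, hST] at hE
  linarith

end Pool.Agent.Spd
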