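import Pool.Agent.Spd.SimNear1

/-!
(Part `SimNear2`: `walkFrom_sim`, `walk_sim`.  The text below is the common header of the parts.)

# SPD S12: distances and walks are transported by isomorphisms of explored parts

`Reach H n e f`: the origin of `f` is at distance at most `n` from the origin of `e`.

* `reach_finite`: induction on `n`: vertices are finite (`cls_finite`), finite unions.
* `reach_self`: `Reach H n e e` for all `n`.
* `reach_mem`: all `f` with `Reach H n e f` are darts of `H`.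
* `sim_near`: induction on `n`, generalizing `e`.  `n = 0`: `Sim.on_iff` with `K = H`
  (`Sim.base`): `SameV (H.bd i) e ↔ SameV (H'.bd i) (φ e)`.  Step: `e` is strictly below `G`, so all
  darts `x ~ e` and their inverses are explored (`Sim.iter`-argument), the class of `φ e` consists of
  the `φ x`, `x ~ e` (`Sim.iter`: `φ (rot^[k] e) = rot^[k] (φ e)`), and `φ (inv x) = inv (φ x)`
  (`h.inv`).  `x` and `inv x` satisfy the hypothesis for `n`.  So `e' ∈ near n ∨ inv e' ∈ near n`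
  is transported by the induction hypothesis.
* `sim_dist`: `d = H.distBd e`: `e ∈ near d`, `e ∉ near (d-1)` if `d > 0` (`distBd_le_iff`);
  `sim_near` for `d` and `d - 1`.
* `walkFrom_sim`: induction on `j ≤ n`: `φ (walkFrom e U j) = walkFrom e' U' j`, using `Sim.deg`,
  `Sim.iter` and `h.inv` at the strictly below vertex of `walkFrom e U j`, `j < n`; the new dart is
  `inv x` with `x` at this vertex, so it is explored.
* `walk_sim`: `walk_eq`, start `inv (H.bd (-1))` with `h.bdy`.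
-/

namespace Pool.Agent.Spd

namespace HPT

variable {H G H' G' : HPT} {φ ψ : ℕ → ℕ}

theorem walkFrom_sim (S : Sub G H) (S' : Sub G' H') (h : Sim H G H' G' φ ψ)
    {U U' : ℕ → unitInterval} {n e : ℕ} (he : e ∈ H.M.D)
    (hn : ¬ G.M.Inner e) (hb : ∀ j < n, Blw H G (H.walkFrom e U j))
    (hk : ∀ j < n, ⌊(U' j : ℝ) * H.deg (H.walkFrom e U j)⌋₊ =
      ⌊(U j : ℝ) * H.deg (H.walkFrom e U j)⌋₊) {j : ℕ} (hj : j ≤ n) :
    φ (H.walkFrom e U j) = H'.walkFrom (φ e) U' j ∧ ¬ G.M.Inner (H.walkFrom e U j) := by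
  have hmem : ∀ m : ℕ, H.walkFrom e U m ∈ H.M.D := by
    intro m
    induction m with
    | zero => exact he
    | succ m ih => exact H.ok.inv_mem _ (H.ok.iter_mem ih _)
  induction j with
  | zero => exact ⟨rfl, hn⟩
  | succ j ih =>
    obtain ⟨ih1, -⟩ := ih (by omega)
    have hjn : j < n := by omega
    have hB := hb j hjn
    have hD := hmem j
    have hk' := hk j hjn
    have hxD : H.M.rot^[⌊(U j : ℝ) * H.deg (H.walkFrom e U j)⌋₊] (H.walkFrom e U j) ∈ H.M.D :=
      H.ok.iter_mem hD _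
    have hxG : H.M.rot^[⌊(U j : ℝ) * H.deg (H.walkFrom e U j)⌋₊] (H.walkFrom e U j) ∉ G.M.D :=
      hB _ ⟨_, rfl⟩
    have h1 : ¬ G.M.Inner
        (H.M.rot^[⌊(U j : ℝ) * H.deg (H.walkFrom e U j)⌋₊] (H.walkFrom e U j)) :=
      fun hI => hxG hI.1
    have h2 : ¬ G.M.Inner (H.M.inv
        (H.M.rot^[⌊(U j : ℝ) * H.deg (H.walkFrom e U j)⌋₊] (H.walkFrom e U j))) :=
      fun hI => hxG ((S.mem_iff _).2 ⟨hxD, Or.inr hI⟩)
    refine ⟨?_, h2⟩
    have h3 : H'.walkFrom (φ e) U' (j + 1) =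
        H'.M.inv (H'.M.rot^[⌊(U' j : ℝ) * H'.deg (H'.walkFrom (φ e) U' j)⌋₊]
          (H'.walkFrom (φ e) U' j)) := rfl
    have h4 : H.walkFrom e U (j + 1) =
        H.M.inv (H.M.rot^[⌊(U j : ℝ) * H.deg (H.walkFrom e U j)⌋₊] (H.walkFrom e U j)) := rfl
    rw [h3, h4, h.inv _ hxD h1 h2, h.iter S hD hB, ← ih1, h.deg S S' hD hB, hk']

theorem walk_sim (S : Sub G H) (S' : Sub G' H') (h : Sim H G H' G' φ ψ)
    {U U' : ℕ → unitInterval} {n : ℕ} (hb : ∀ j < n, Blw H G (H.walk U j))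
    (hk : ∀ j < n, ⌊(U' j : ℝ) * H.deg (H.walk U j)⌋₊ = kap H U j) {j : ℕ} (hj : j ≤ n) :
    φ (H.walk U j) = H'.walk U' j ∧ ¬ G.M.Inner (H.walk U j) := by
  have he : H.M.inv (H.M.bd (-1)) ∈ H.M.D := H.ok.inv_mem _ (H.ok.bd_inner (-1)).1
  have hn : ¬ G.M.Inner (H.M.inv (H.M.bd (-1))) := by
    intro hI
    exact (S.cutting.sub _ hI).2 (-1) rfl
  have h1 : ∀ j < n, Blw H G (H.walkFrom (H.M.inv (H.M.bd (-1))) U j) := by
    intro j hj
    rw [← walk_eq]
    exact hb j hj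
  have h2 : ∀ j < n, ⌊(U' j : ℝ) * H.deg (H.walkFrom (H.M.inv (H.M.bd (-1))) U j)⌋₊ =
      ⌊(U j : ℝ) * H.deg (H.walkFrom (H.M.inv (H.M.bd (-1))) U j)⌋₊ := by
    intro j hj
    have h3 := hk j hj
    rw [kap, walk_eq] at h3
    exact h3
  have h4 := walkFrom_sim S S' h he hn h1 h2 hj
  rw [h.bdy (-1), ← walk_eq, ← walk_eq] at h4
  exact h4

end HPT

end Pool.Agent.Spd
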