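import Pool.Agent.Spd.C04
import Pool.Agent.Spd.SimNear

/-!
# SPD C10: hitting probabilities are transported by isomorphisms of explored parts

`Sim H G H' G' φ ψ`: isomorphism of the explored parts (`Explore.lean`, `SimA`, `SimB`); `Reach H n e f`: the
origin of `f` is at distance at most `n` from the origin of `e` (`SimNear`).

* `sim_hit`: induction on `n`, generalizing `e`.  `e` is strictly below `G` (`reach_self`), so `e` is not
  inner in `G` (no dart of its vertex is in `G.D`).  The condition `∃ j ∈ J, SameV (H.bd j) e` is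
  equivalent to `∃ j ∈ J, SameV (H'.bd j) (φ e)`: `Sim.on_iff` with `K = H`, `K' = H'` (`Sim.base`,
  `Sub.refl`).  If it holds both sides are `1` (`hit_on`).  Otherwise, `n = 0`: both sides are `0`.
  Step: `H'.deg (φ e) = H.deg e` (`Sim.deg`); for each `κ`, with `x = rot^[κ] e`: `φ x = rot^[κ] (φ e)`
  (`Sim.iter`), `x` and `inv x` are not inner in `G` (otherwise `x ∈ G.D` by `Sub.mem_iff`, but the vertex
  of `e` is strictly below), so `φ (inv x) = inv (φ x)` (`h.inv`); every `f` with `Reach H n (inv x) f`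
  satisfies `Reach H (n+1) e f` (definition of `Reach`), so the induction hypothesis applies to `inv x`
  (`inv x ∈ D`).
* `sim_bd`: `h.bdy x : φ (inv (bd x)) = inv (bd' x)`; `bd x` and `inv (bd x)` are not inner in `G`
  (`bd x` is strictly below; `inv (bd x)` is an outer dart of `H`, `Sub.cutting.sub`), so by `h.inv` for the
  dart `inv (bd x)`: `φ (inv (inv (bd x))) = inv (φ (inv (bd x))) = inv (inv (bd' x))`, and `inv_inv`.
* `sim_hitE`: `sim_bd`, `Sim.deg`, `Sim.iter`, `h.inv` as in the step of `sim_hit`, and `sim_hit` for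
  `inv (rot^[κ] (bd x))`.
-/

namespace Pool.Agent.Spd

namespace HPT

variable {H G H' G' : HPT} {φ ψ : ℕ → ℕ}

private theorem not_inner_blw {d : ℕ} (hb : Blw H G d) : ¬ G.M.Inner d := fun hi =>
  hb d ⟨0, rfl⟩ hi.1

private theorem cond_iff (S : Sub G H) (S' : Sub G' H') (h : Sim H G H' G' φ ψ) (J : Set ℤ)
    {e : ℕ} (he : e ∈ H.M.D) (hn : ¬ G.M.Inner e) :
    (∃ j ∈ J, H.M.SameV (H.M.bd j) e) ↔ ∃ j ∈ J, H'.M.SameV (H'.M.bd j) (φ e) := by
  refine exists_congr fun j => and_congr_right fun _ => ?_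
  exact Sim.on_iff S S' h (h.base S S') (Sub.refl H) (Sub.refl H') S he hn j

theorem sim_hit (S : Sub G H) (S' : Sub G' H') (h : Sim H G H' G' φ ψ) (J : Set ℤ) (n : ℕ)
    {e : ℕ} (he : e ∈ H.M.D) (hb : ∀ f, Reach H n e f → Blw H G f) :
    H'.hit J n (φ e) = H.hit J n e := by
  induction n generalizing e with
  | zero =>
    have hn : ¬ G.M.Inner e := not_inner_blw (hb e (reach_self H 0 e))
    have hcond := cond_iff S S' h J he hn
    by_cases hc : ∃ j ∈ J, H.M.SameV (H.M.bd j) e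
    · rw [hit_on hc, hit_on (hcond.1 hc)]
    · rw [hit_zero_off hc, hit_zero_off (fun h' => hc (hcond.2 h'))]
  | succ n ih =>
    have hbe : Blw H G e := hb e (reach_self H (n + 1) e)
    have hcond := cond_iff S S' h J he (not_inner_blw hbe)
    by_cases hc : ∃ j ∈ J, H.M.SameV (H.M.bd j) e
    · rw [hit_on hc, hit_on (hcond.1 hc)]
    · rw [hit_succ_off hc, hit_succ_off (fun h' => hc (hcond.2 h')), Sim.deg S S' h he hbe]
      congr 1
      refine Finset.sum_congr rfl fun k _ => ?_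
      have hx : H.M.SameV e (H.M.rot^[k] e) := ⟨k, rfl⟩
      have hxD : H.M.rot^[k] e ∈ H.M.D := H.ok.iter_mem he k
      have h1 : ¬ G.M.Inner (H.M.rot^[k] e) := not_inner_blw (blw_sameV S he hx hbe)
      have h2 := (adj_not_cross S he hbe hx).2
      rw [← Sim.iter S h he hbe k, ← h.inv _ hxD h1 h2]
      exact ih (H.ok.inv_mem _ hxD) fun f hf => hb f ⟨_, hx, Or.inr hf⟩

theorem sim_bd (S : Sub G H) (h : Sim H G H' G' φ ψ) (x : ℤ) (hb : Blw H G (H.M.bd x)) :
    φ (H.M.bd x) = H'.M.bd x := by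
  have h1 : H.M.inv (H.M.bd x) ∈ H.M.D := H.ok.inv_mem _ (H.ok.bd_mem x)
  have h2 : ¬ G.M.Inner (H.M.inv (H.M.bd x)) := fun hi => (S.inner hi).2 x rfl
  have h3 : ¬ G.M.Inner (H.M.inv (H.M.inv (H.M.bd x))) := by
    rw [H.ok.inv_inv _ (H.ok.bd_mem x)]
    exact not_inner_blw hb
  have h4 := h.inv _ h1 h2 h3
  rwa [H.ok.inv_inv _ (H.ok.bd_mem x), h.bdy, H'.ok.inv_inv _ (H'.ok.bd_mem x)] at h4

theorem sim_hitE (S : Sub G H) (S' : Sub G' H') (h : Sim H G H' G' φ ψ) (J : Set ℤ) (n : ℕ)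
    (x : ℤ) (hb : ∀ f, Reach H (n + 1) (H.M.bd x) f → Blw H G f) :
    H'.hitE J n x = H.hitE J n x ∧ H'.deg (H'.M.bd x) = H.deg (H.M.bd x) := by
  have he : H.M.bd x ∈ H.M.D := H.ok.bd_mem x
  have hbe : Blw H G (H.M.bd x) := hb _ (reach_self H (n + 1) _)
  have hbd : φ (H.M.bd x) = H'.M.bd x := sim_bd S h x hbe
  have hdeg : H'.deg (H'.M.bd x) = H.deg (H.M.bd x) := by
    rw [← hbd]
    exact Sim.deg S S' h he hbe
  refine ⟨?_, hdeg⟩
  unfold hitE
  rw [hdeg]
  refine Finset.sum_congr rfl fun k _ => ?_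
  have hx : H.M.SameV (H.M.bd x) (H.M.rot^[k] (H.M.bd x)) := ⟨k, rfl⟩
  have hxD : H.M.rot^[k] (H.M.bd x) ∈ H.M.D := H.ok.iter_mem he k
  have h1 : ¬ G.M.Inner (H.M.rot^[k] (H.M.bd x)) := not_inner_blw (blw_sameV S he hx hbe)
  have h2 := (adj_not_cross S he hbe hx).2
  rw [← hbd, ← Sim.iter S h he hbe k, ← h.inv _ hxD h1 h2]
  exact sim_hit S S' h J n (H.ok.inv_mem _ hxD) fun f hf => hb f ⟨_, hx, Or.inr hf⟩

end HPT

end Pool.Agent.Spd
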