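import Pool.Agent.Spd.MeasB1

/-!
(Part `MeasB2`: `measurable_deg0`, `measurable_distLine`.  The text below is the common header of the parts.)

# SPD M8: locally determined functions

TOOL (`fair_tool`): for a finite set `F` of darts of `H` and `c : List ℤ` there is `k` such that the
exploration `fair k` swallows the vertices of `F` (`exhaust_blw`), explores more than `c`
(`fair_fine`), and for every `H'` with the same outcomes along `fair k` there are `φ`, `ψ` with
`Sim H (H.exec (fair k)) H' (H'.exec (fair k)) φ ψ` (`sim_of_outs`, `c₁ = fair k`) and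
`Sim H (H.exec c) H' (H'.exec c) φ ψ` (`back_outs`), `H'.outs c = H.outs c`.

* `measurable_deg0`: `measurable_of_local` with `F = {H.bd 0}`: `φ (H.bd 0) = H'.bd 0` (`h.bdy 0` and
  `h.inv` for the explored darts `inv (H.bd 0)`, `H.bd 0`), `Sim.deg`.
* `measurable_distLine`: `e = (H.exec c).bd i`, `F = {f | Reach H (H.distBd e) e f}`
  (`reach_finite`); `φ e = (H'.exec c).bd i` (`line` for `H.exec c`, `h.inv` since `e` is explored:
  strictly below), `sim_dist`.
* `measurable_distWalk`: `measurable_of_local₂`: `F` = the darts `H.walk U j`, `j ≤ n`, and the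
  `Reach`-ball of `H.walk U n` of radius `distBd`; `l` = list of the degrees `H.deg (H.walk U j)`,
  `j < n`; `walk_sim` and `sim_dist`.
* `measurableSet_ret`: `{(G, U) | ∃ i, SameV (G.bd i) (G.walkK κ U (n+1))}` is locally determined: `F` =
  `G.bd 0` and the darts `G.walkK κ U j`, `j ≤ n + 1`; `walkFrom_sim` for
  `e = inv (rot^[κ] (inv (bd (-1))))` (`φ e = e'` by `Sim.iter` at the root vertex, `h.inv`), and
  `Sim.on_iff` with `K = G` (the reference map, `Sim.base`).
* `measurableSet_esc`: `κ < deg` (`measurable_deg0`) and a countable intersection.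
* `measurable_stopT`: `{stopT = s}` is the union of the sets `{outs (replicate (s+1) 0) = o}` with
  `o` of length `s + 1`, whose last entry is the first one of type `L` (`stop_spec`, `stop_min`,
  `outs` along `replicate`: the outcome number `t` is `(rem^[t] H).step`).
* `measurable_star`: on `{stopT = s}` it is `H.exec (replicate (s+1) 0)` (`exec_replicate`).
* `measurable_starOuts`, `measurable_starVol`: `starVol_eq`.
-/

namespace Pool.Agent.Spd

open MeasureTheory

namespace HPT

private theorem blw_aux {G H : HPT} (S : Sub G H) {e : ℕ} (he : e ∈ H.M.D) (hb : Blw H G e) :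
    ¬ G.M.Inner e ∧ ¬ G.M.Inner (H.M.inv e) := by
  have h0 : e ∉ G.M.D := hb e ⟨0, rfl⟩
  refine ⟨fun h => h0 h.1, fun h => h0 ?_⟩
  have h1 := G.ok.inv_mem _ h.1
  rw [S.inv_eq, H.ok.inv_inv e he] at h1
  exact h1

private theorem phi_aux {G H G' H' : HPT} {φ ψ : ℕ → ℕ} (S : Sub G H) (h : Sim H G H' G' φ ψ)
    {e e' : ℕ} (he : e ∈ H.M.D) (he' : e' ∈ H'.M.D) (hb : Blw H G e)
    (h1 : φ (H.M.inv e) = H'.M.inv e') : φ e = e' := by
  obtain ⟨h2, h3⟩ := blw_aux S he hb
  have h4 := h.inv (H.M.inv e) (H.ok.inv_mem e he) h3 (by rw [H.ok.inv_inv e he]; exact h2)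
  rw [H.ok.inv_inv e he, h1, H'.ok.inv_inv e' he'] at h4
  exact h4

theorem measurable_deg0 : Measurable (fun H : HPT => H.deg (H.M.bd 0)) := by
  refine measurable_of_local _ fun H => ?_
  have hD : H.M.bd 0 ∈ H.M.D := (H.ok.bd_inner 0).1
  obtain ⟨k, hb, -, hs⟩ := fair_tool H (F := {H.M.bd 0}) (Set.finite_singleton _)
    (by rintro d rfl; exact hD) []
  refine ⟨fair k, fun H' ho => ?_⟩
  obtain ⟨φ, ψ, h, -, -⟩ := hs H' ho
  have S := exec_sub H (fair k)
  have S' := exec_sub H' (fair k)
  have hb0 := hb (H.M.bd 0) rfl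
  have hφ : φ (H.M.bd 0) = H'.M.bd 0 :=
    phi_aux S h hD (H'.ok.bd_inner 0).1 hb0 (h.bdy 0)
  have h1 := Sim.deg S S' h hD hb0
  rw [hφ] at h1
  exact h1

theorem measurable_distLine (c : List ℤ) (i : ℤ) :
    Measurable (fun H : HPT => H.distBd ((H.exec c).M.bd i)) := by
  refine measurable_of_local _ fun H => ?_
  have mem : ∀ K : HPT, (K.exec c).M.bd i ∈ K.M.D := fun K =>
    ((exec_sub K c).mem_iff _).1 ((K.exec c).ok.bd_inner i).1 |>.1
  obtain ⟨k, hb, -, hs⟩ := fair_tool H
    (F := {f | Reach H (H.distBd ((H.exec c).M.bd i)) ((H.exec c).M.bd i) f})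
    (reach_finite H _ (mem H)) (fun d hd => reach_mem H _ (mem H) hd) c
  refine ⟨fair k, fun H' ho => ?_⟩
  obtain ⟨φ, ψ, h, hK, -⟩ := hs H' ho
  have S := exec_sub H (fair k)
  have S' := exec_sub H' (fair k)
  have hb0 : Blw H (H.exec (fair k)) ((H.exec c).M.bd i) := hb _ (reach_self H _ _)
  have hφ : φ ((H.exec c).M.bd i) = (H'.exec c).M.bd i :=
    phi_aux S h (mem H) (mem H') hb0 (hK.line i)
  have h1 := sim_dist S S' h (mem H) (fun f hf => hb f hf)
  rw [hφ] at h1
  exact h1

end HPT

end Pool.Agent.Spd
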