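import Pool.Agent.Spd.MeasB1

/-!
(Part `MeasB3`: `measurable_distWalk`.  The text below is the common header of the parts.)

# SPD M8: locally determined functions

TOOL (`fair_tool`): for a finite set `F` of darts of `H` and `c : List ℤ` there is `k` such that the
exploration `fair k` swallows the vertices of `F` (`exhaust_blw`), explores more than `c`
(`fair_fine`), and for every `H'` with the same outcomes along `fair k` there are `φ`, `ψ` with
`Sim H (H.exec (fair k)) H' (H'.exec (fair k)) φ ψ` (`sim_of_outs`, `c₁ = fair k`) and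
`Sim H (H.exec c) H' (H'.exec c) φ ψ` (`back_outs`), `H'.outs c = H.outs c`.

* `measurable_deg0`: `measurable_of_local` with `F = {H.bd 0}`: `φ (H.bd 0) = H'.bd 0` (`h.bdy 0` and
  `h.inv` for the explored darts `inv (H.bd 0)`, `H.bd 0`), `Sim.deg`.
* `measurable_distLine`: `e = (H.exec c).bd i`, `F = {f | Reach H (H.distBd e) e f}`
  (`reach_finite`); `φ e = (H'.exec c).bd i` (`line` for `H.exec c`, `h.inv` since `e` is explored:
  strictly below), `sim_dist`.
* `measurable_distWalk`: `measurable_of_local₂`: `F` = the darts `H.walk U j`, `j ≤ n`, and the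
  `Reach`-ball of `H.walk U n` of radius `distBd`; `l` = list of the degrees `H.deg (H.walk U j)`,
  `j < n`; `walk_sim` and `sim_dist`.
* `measurableSet_ret`: `{(G, U) | ∃ i, SameV (G.bd i) (G.walkK κ U (n+1))}` is locally determined: `F` =
  `G.bd 0` and the darts `G.walkK κ U j`, `j ≤ n + 1`; `walkFrom_sim` for
  `e = inv (rot^[κ] (inv (bd (-1))))` (`φ e = e'` by `Sim.iter` at the root vertex, `h.inv`), and
  `Sim.on_iff` with `K = G` (the reference map, `Sim.base`).
* `measurableSet_esc`: `κ < deg` (`measurable_deg0`) and a countable intersection.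
* `measurable_stopT`: `{stopT = s}` is the union of the sets `{outs (replicate (s+1) 0) = o}` with
  `o` of length `s + 1`, whose last entry is the first one of type `L` (`stop_spec`, `stop_min`,
  `outs` along `replicate`: the outcome number `t` is `(rem^[t] H).step`).
* `measurable_star`: on `{stopT = s}` it is `H.exec (replicate (s+1) 0)` (`exec_replicate`).
* `measurable_starOuts`, `measurable_starVol`: `starVol_eq`.
-/

namespace Pool.Agent.Spd

open MeasureTheory

namespace HPT

theorem measurable_distWalk (n : ℕ) :
    Measurable (fun p : HPT × (ℕ → unitInterval) => p.1.distBd (p.1.walk p.2 n)) := by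
  refine measurable_of_local₂ _ fun H U => ?_
  have hw := fun j => (walk_isPath H U).mem j
  obtain ⟨k, h1, -, h2⟩ := fair_tool H
    (F := (H.walk U '' Set.Iic n) ∪ {f | Reach H (H.distBd (H.walk U n)) (H.walk U n) f})
    (((Set.finite_Iic n).image _).union (reach_finite H _ (hw n))) (by
      rintro d (⟨j, -, rfl⟩ | hd)
      · exact hw j
      · exact reach_mem H _ (hw n) hd) []
  refine ⟨fair k, (List.range n).map (fun j => H.deg (H.walk U j)), fun H' U' ho hU => ?_⟩
  obtain ⟨φ, ψ, h3, -, -⟩ := h2 H' ho
  have hk : ∀ j < n, ⌊(U' j : ℝ) * H.deg (H.walk U j)⌋₊ = kap H U j := by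
    intro j hj
    have h4 := hU j (by simpa using hj)
    have h5 : ((List.range n).map (fun j => H.deg (H.walk U j))).getD j 0 =
        H.deg (H.walk U j) := by
      rw [List.getD_eq_getElem _ _ (by simpa using hj)]
      simp
    rw [h5] at h4
    exact h4
  have h4 := walk_sim (exec_sub H (fair k)) (exec_sub H' (fair k)) h3
    (fun j hj => h1 _ (Or.inl ⟨j, hj.le, rfl⟩)) hk le_rfl
  have h5 := sim_dist (exec_sub H (fair k)) (exec_sub H' (fair k)) h3 (hw n)
    (fun f hf => h1 f (Or.inr hf))
  rw [h4.1] at h5
  exact h5

end HPT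

end Pool.Agent.Spd
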