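import Pool.Agent.Spd.MeasB1
import Pool.Agent.Spd.MeasB2

/-!
(Part `MeasB4`: `measurableSet_ret`, `measurableSet_esc`.  The text below is the common header of the parts.)

# SPD M8: locally determined functions

TOOL (`fair_tool`): for a finite set `F` of darts of `H` and `c : List ℤ` there is `k` such that the
exploration `fair k` swallows the vertices of `F` (`exhaust_blw`), explores more than `c`
(`fair_fine`), and for every `H'` with the same outcomes along `fair k` there are `φ`, `ψ` with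
`Sim H (H.exec (fair k)) H' (H'.exec (fair k)) φ ψ` (`sim_of_outs`, `c₁ = fair k`) and
`Sim H (H.exec c) H' (H'.exec c) φ ψ` (`back_outs`), `H'.outs c = H.outs c`.

* `measurable_deg0`: `measurable_of_local` with `F = {H.bd 0}`: `φ (H.bd 0) = H'.bd 0` (`h.bdy 0` and
  `h.inv` for the explored darts `inv (H.bd 0)`, `H.bd 0`), `Sim.deg`.
* `measurable_distLine`: `e = (H.exec c).bd i`, `F = {f | Reach H (H.distBd e) e f}`
  (`reach_finite`); `φ e = (H'.exec c).bd i` (`line` for `H.exec c`, `h.inv` since `e` is explored: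
  strictly below), `sim_dist`.
* `measurable_distWalk`: `measurable_of_local₂`: `F` = the darts `H.walk U j`, `j ≤ n`, and the
  `Reach`-ball of `H.walk U n` of radius `distBd`; `l` = list of the degrees `H.deg (H.walk U j)`,
  `j < n`; `walk_sim` and `sim_dist`.
* `measurableSet_ret`: `{(G, U) | ∃ i, SameV (G.bd i) (G.walkK κ U (n+1))}` is locally determined: `F` =
  `G.bd 0` and the darts `G.walkK κ U j`, `j ≤ n + 1`; `walkFrom_sim` for
  `e = inv (rot^[κ] (inv (bd (-1))))` (`φ e = e'` by `Sim.iter` at the root vertex, `h.inv`), and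
  `Sim.on_iff` with `K = G` (the reference map, `Sim.base`).
* `measurableSet_esc`: `κ < deg` (`measurable_deg0`) and a countable intersection.
* `measurable_stopT`: `{stopT = s}` is the union of the sets `{outs (replicate (s+1) 0) = o}` with
  `o` of length `s + 1`, whose last entry is the first one of type `L` (`stop_spec`, `stop_min`,
  `outs` along `replicate`: the outcome number `t` is `(rem^[t] H).step`).
* `measurable_star`: on `{stopT = s}` it is `H.exec (replicate (s+1) 0)` (`exec_replicate`).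
* `measurable_starOuts`, `measurable_starVol`: `starVol_eq`.
-/

namespace Pool.Agent.Spd

open MeasureTheory

namespace HPT

private theorem nib {H G : HPT} {d : ℕ} (hb : Blw H G d) : ¬ G.M.Inner d := fun hi =>
  hb d (H.ok.sameV_refl d) hi.1

/-- The first dart after the choice `κ`. -/
private theorem ret_first {H G H' G' : HPT} {φ ψ : ℕ → ℕ} (S : Sub G H)
    (h : Sim H G H' G' φ ψ) (hb : Blw H G (H.M.bd 0)) (κ : ℕ) :
    φ (H.M.inv (H.M.rot^[κ] (H.M.inv (H.M.bd (-1))))) =
      H'.M.inv (H'.M.rot^[κ] (H'.M.inv (H'.M.bd (-1)))) ∧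
    ¬ G.M.Inner (H.M.inv (H.M.rot^[κ] (H.M.inv (H.M.bd (-1))))) := by
  have h0 : H.M.SameV (H.M.bd 0) (H.M.inv (H.M.bd (-1))) := H.ok.bd_prev 0
  have hd0 : H.M.inv (H.M.bd (-1)) ∈ H.M.D := H.ok.inv_mem _ (H.ok.bd_mem (-1))
  have hb0 : Blw H G (H.M.inv (H.M.bd (-1))) := blw_sameV S (H.ok.bd_mem 0) h0 hb
  have hb1 : Blw H G (H.M.rot^[κ] (H.M.inv (H.M.bd (-1)))) := blw_sameV S hd0 ⟨κ, rfl⟩ hb0
  have hd1 := H.ok.iter_mem hd0 κ
  have h2 : ¬ G.M.Inner (H.M.inv (H.M.rot^[κ] (H.M.inv (H.M.bd (-1))))) := by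
    intro hI
    have h3 := G.ok.inv_mem _ hI.1
    rw [S.inv_eq, H.ok.inv_inv _ hd1] at h3
    exact hb1 _ (H.ok.sameV_refl _) h3
  refine ⟨?_, h2⟩
  rw [h.inv _ hd1 (nib hb1) h2, Sim.iter S h hd0 hb0, h.bdy]

private theorem walkFrom_mem (H : HPT) {e : ℕ} (he : e ∈ H.M.D) (U : ℕ → unitInterval) (j : ℕ) :
    H.walkFrom e U j ∈ H.M.D := by
  induction j with
  | zero => exact he
  | succ j ih => exact H.ok.inv_mem _ (H.ok.iter_mem ih _)

theorem measurableSet_ret (κ n : ℕ) : MeasurableSet {p : HPT × (ℕ → unitInterval) |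
    ∃ i, p.1.M.SameV (p.1.M.bd i) (p.1.walkK κ p.2 (n + 1))} := by
  rw [measurableSet_setOfPred]
  refine measurable_of_local₂ _ fun H U => ?_
  set e := H.M.inv (H.M.rot^[κ] (H.M.inv (H.M.bd (-1)))) with he
  have heD : e ∈ H.M.D :=
    H.ok.inv_mem _ (H.ok.iter_mem (H.ok.inv_mem _ (H.ok.bd_mem (-1))) κ)
  have hF : (insert (H.M.bd 0) ((fun j => H.walkFrom e U j) '' Set.Iio (n + 1))).Finite :=
    ((Set.finite_Iio _).image _).insert _
  obtain ⟨k, hk1, hk2, hk3⟩ := fair_tool H hF (by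
    rintro d (rfl | ⟨j, -, rfl⟩)
    · exact H.ok.bd_mem 0
    · exact walkFrom_mem H heD U j) []
  refine ⟨fair k, (List.range n).map fun j => H.deg (H.walkFrom e U j), fun H' U' ho hU => ?_⟩
  obtain ⟨φ, ψ, h1, h2, -⟩ := hk3 H' ho
  have S := exec_sub H (fair k)
  have S' := exec_sub H' (fair k)
  obtain ⟨h3, h4⟩ := ret_first S h1 (hk1 _ (Set.mem_insert _ _)) κ
  have hbw : ∀ j < n, Blw H (H.exec (fair k)) (H.walkFrom e U j) := fun j hj =>
    hk1 _ (Set.mem_insert_of_mem _ ⟨j, Set.mem_Iio.2 (by omega), rfl⟩)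
  obtain ⟨h5, h6⟩ := walkFrom_sim S S' h1 (U := U) (U' := U') (n := n) heD h4 hbw
    (fun j hj => by
      have h7 := hU j (by simpa using hj)
      have h8 : ((List.range n).map fun j => H.deg (H.walkFrom e U j)).getD j 0 =
          H.deg (H.walkFrom e U j) := by
        rw [List.getD_eq_getElem _ _ (by simpa using hj)]
        simp
      rw [h8] at h7
      exact h7) le_rfl
  have h9 : ∀ i, H.M.SameV (H.M.bd i) (H.walkFrom e U n) ↔
      H'.M.SameV (H'.M.bd i) (φ (H.walkFrom e U n)) := fun i =>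
    Sim.on_iff S S' h1 h2 (Sub.refl H) (Sub.refl H') S (walkFrom_mem H heD U n) h6 i
  apply propext
  show (∃ i, H'.M.SameV (H'.M.bd i) (H'.walkK κ U' (n + 1))) ↔
    ∃ i, H.M.SameV (H.M.bd i) (H.walkK κ U (n + 1))
  have h10 : H'.walkK κ U' (n + 1) = φ (H.walkFrom e U n) := by
    rw [h5, h3]
    rfl
  have h11 : H.walkK κ U (n + 1) = H.walkFrom e U n := rfl
  rw [h10, h11]
  exact exists_congr fun i => (h9 i).symm

theorem measurableSet_esc (κ : ℕ) :
    MeasurableSet {p : HPT × (ℕ → unitInterval) | p.1.Esc κ p.2} := by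
  have h1 : {p : HPT × (ℕ → unitInterval) | p.1.Esc κ p.2} =
      {p : HPT × (ℕ → unitInterval) | κ < p.1.deg (p.1.M.bd 0)} ∩
      ⋂ n : ℕ, {p : HPT × (ℕ → unitInterval) |
        ∃ i, p.1.M.SameV (p.1.M.bd i) (p.1.walkK κ p.2 (n + 1))}ᶜ := by
    ext p
    simp only [Set.mem_ofPred_eq, Set.mem_inter_iff, Set.mem_iInter, Set.mem_compl_iff, Esc,
      not_exists]
  rw [h1]
  refine MeasurableSet.inter ?_ (MeasurableSet.iInter fun n => (measurableSet_ret κ n).compl)
  exact measurableSet_lt measurable_const (measurable_deg0.comp measurable_fst)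

end HPT

end Pool.Agent.Spd
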