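import Pool.Agent.Spd.Star1

/-!
(Part `Star2`: `star_shape`, `star_line`.  The text below is the common header of the parts.)

# SPD A18: exploration of the star of the root vertex

* `stop_exists`: as long as the outcome is `N` or `R k τ`, the new root dart `inv b` has the same
  origin `v_0` (`b : w → v_0`), and the old root dart `bd 0` (origin `v_0`) is removed for ever; the
  darts at `v_0` are finitely many (`cls_finite`, all in `H`), so some outcome is `L`.
* `star_blw`: after the outcome `L k τ` no dart at `v_0` remains: `v_0` is not a vertex of the new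
  line (`lineL`: the origins are `v_{i-k}` (`i < 0`), `v_{-k}`, `v_i` (`i ≥ 1`)), and it is not
  above the line since it was on the previous line: `trich`; an `Abv` vertex of `rem` would be
  `Abv` in the previous map (`abv_mono`), against `boundary_not_abv`.
* `shape_aux` (invariant for `G = rem^[t] H`, all outcomes before `t` different from `L`): there
  are `q, m ≥ 1` with `G.bd i = bd i` for `i < 0`, `G.bd i = bd (i - q + m)` for `i ≥ q`, and for
  `0 < i < q` the origin of `G.bd i` is not on the boundary of `H` and is a neighbour of `v_0`.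
  `t = 0`: `q = m = 1`.  Outcome `N` (`lineN`): `q + 1, m`; the new vertex `w` is the origin of
  `inv a`, `b : w → v_0`; `w` is not on the line of `G`; it is a vertex of `G`, so it is above the
  line of `G` (`trich` in `G`, `G`), and a boundary vertex of `H` is never above
  (`boundary_not_abv`, positions in `H`).  Outcome `R k`: (`lineR`) if `k + 1 ≥ q` then `q' = 1`,
  `m' = k + 1 - q + m`; if `k + 1 < q` then `q' = q - k`, `m' = m`.
* `star_shape`: the last outcome `L k τ`: `bd' i = G.bd (i - k) = bd (i - k)` (`i < 0`),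
  `bd' 0 = inv a` from `v_{-k}`, `bd' i = G.bd i` (`i ≥ 1`): `q, m` unchanged; `b : v_{-k} → v_0`
  shows that `v_{-k}` is a neighbour of `v_0`.
-/

namespace Pool.Agent.Spd

namespace HPT

variable {H : HPT}

/-- Facts on the root triangle `r, a, b` of `G`, seen in `H`. -/
private theorem s2_tri {G H : HPT} (S : Sub G H) :
    H.M.SameV (H.M.inv (G.M.fc (G.M.bd 0))) (G.M.fc (G.M.fc (G.M.bd 0))) ∧
    H.M.SameV (G.M.fc (G.M.fc (G.M.bd 0))) (H.M.inv (G.M.fc (G.M.bd 0))) ∧
    H.M.SameV (H.M.inv (G.M.fc (G.M.fc (G.M.bd 0)))) (G.M.bd 0) ∧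
    H.M.SameV (G.M.bd 0) (H.M.inv (G.M.fc (G.M.fc (G.M.bd 0)))) ∧
    G.M.fc (G.M.bd 0) ∈ G.M.D ∧ G.M.fc (G.M.fc (G.M.bd 0)) ∈ G.M.D := by
  have ha : G.M.fc (G.M.bd 0) ∈ G.M.D := G.ok.fc_mem (G.ok.bd_mem 0)
  have hb : G.M.fc (G.M.fc (G.M.bd 0)) ∈ G.M.D := G.ok.fc_mem ha
  have h1 : G.M.SameV (G.M.inv (G.M.fc (G.M.bd 0))) (G.M.fc (G.M.fc (G.M.bd 0))) := G.ok.tgt ha
  have h2 : G.M.SameV (G.M.inv (G.M.fc (G.M.fc (G.M.bd 0)))) (G.M.bd 0) := by
    have h := G.ok.tgt hb
    rwa [G.ok.fc_tri _ (G.ok.bd_inner 0)] at h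
  have hia := G.ok.inv_mem _ ha
  have hib := G.ok.inv_mem _ hb
  have e1 := ((S.sameV hia _).1 h1).1
  have e2 := ((S.sameV hib _).1 h2).1
  rw [S.inv_eq] at e1 e2
  have hia' : H.M.inv (G.M.fc (G.M.bd 0)) ∈ H.M.D := H.ok.inv_mem _ (S.memD ha)
  have hib' : H.M.inv (G.M.fc (G.M.fc (G.M.bd 0))) ∈ H.M.D := H.ok.inv_mem _ (S.memD hb)
  exact ⟨e1, H.ok.sameV_symm hia' e1, e2, H.ok.sameV_symm hib' e2, ha, hb⟩

private theorem s2_new {G H : HPT} (S : Sub G H)
    (hw : ∀ i, ¬ G.M.SameV (G.M.bd i) (G.M.fc (G.M.fc (G.M.bd 0)))) (j : ℤ) :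
    ¬ H.M.SameV (H.M.bd j) (H.M.inv (G.M.fc (G.M.bd 0))) := by
  intro hj
  have ha : G.M.fc (G.M.bd 0) ∈ G.M.D := G.ok.fc_mem (G.ok.bd_mem 0)
  have hia : G.M.inv (G.M.fc (G.M.bd 0)) ∈ G.M.D := G.ok.inv_mem _ ha
  have hia2 : H.M.inv (G.M.fc (G.M.bd 0)) ∈ G.M.D := by rwa [S.inv_eq] at hia
  have hia' : H.M.inv (G.M.fc (G.M.bd 0)) ∈ H.M.D := S.memD hia2
  rcases trich S hia' with h | h | h
  · exact h _ (H.ok.sameV_refl _) hia2
  · obtain ⟨i, hi⟩ := h
    apply hw i
    refine (S.sameV (G.ok.bd_mem i) _).2 ⟨H.ok.sameV_trans hi (s2_tri S).1, (s2_tri S).2.2.2.2.2⟩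
  · exact boundary_not_abv S j
      (abv_sameV S hia' (H.ok.sameV_symm (H.ok.bd_mem j) hj) h)

/-- The invariant of the exploration. -/
private def Inv (H G : HPT) (q m : ℕ) : Prop :=
  0 < q ∧ 0 < m ∧ (∀ i : ℤ, i < 0 → G.M.bd i = H.M.bd i) ∧
    (∀ i : ℤ, q ≤ i → G.M.bd i = H.M.bd (i - q + m)) ∧
    (∀ i : ℤ, 0 < i → i < q → (∀ j, ¬ H.M.SameV (H.M.bd j) (G.M.bd i)) ∧
      ∃ x, H.M.SameV (H.M.bd 0) x ∧ H.M.SameV (H.M.inv x) (G.M.bd i))

private theorem shape_aux (H : HPT) (t : ℕ) (ht : t ≤ H.stopT) :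
    ∃ q m, Inv H (rem^[t] H) q m := by
  induction t with
  | zero =>
    refine ⟨1, 1, one_pos, one_pos, fun i _ => rfl, fun i hi => ?_, fun i h1 h2 => ?_⟩
    · simp only [Function.iterate_zero, id_eq]
      congr 1
      push_cast
      ring
    · exfalso
      push_cast at h2
      omega
  | succ t ih =>
    obtain ⟨q, m, hq, hm, hlt, hge, hmid⟩ := ih (by omega)
    set G : HPT := rem^[t] H with hG
    have hG' : rem^[t + 1] H = G.rem := Function.iterate_succ_apply' _ _ _
    have S : Sub G H := iter_rem_sub H t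
    have hroot : H.M.SameV (H.M.bd 0) (G.rem.M.bd 0) := by
      rw [← hG']
      exact root_stays H ht
    have hnL : ¬ G.step.isL := stop_min H (by omega)
    obtain ⟨e1, e2, e3, e4, ha, hb⟩ := s2_tri S
    rw [hG']
    rcases hs : G.step with _ | ⟨k, τ⟩ | ⟨k, τ⟩
    · -- new vertex
      obtain ⟨hw, -, hbd⟩ := step_N G hs
      have hb0 : G.rem.M.bd 0 = H.M.inv (G.M.fc (G.M.fc (G.M.bd 0))) := by
        rw [hbd, lineN]
        simp [S.inv_eq]
      refine ⟨q + 1, m, by omega, hm, fun i hi => ?_, fun i hi => ?_, fun i h1 h2 => ?_⟩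
      · rw [hbd, lineN]
        simp only [hi, if_true]
        exact hlt i hi
      · push_cast at hi
        rw [hbd, lineN]
        rw [if_neg (by omega), if_neg (by omega), if_neg (by omega), hge _ (by omega)]
        congr 1
        push_cast
        ring
      · push_cast at h2
        by_cases h11 : i = 1
        · subst h11
          have hb1 : G.rem.M.bd 1 = H.M.inv (G.M.fc (G.M.bd 0)) := by
            rw [hbd, lineN]
            simp [S.inv_eq]
          rw [hb1]
          refine ⟨s2_new S hw, H.M.inv (G.M.fc (G.M.fc (G.M.bd 0))), ?_, ?_⟩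
          · rw [← hb0]
            exact hroot
          · rw [H.ok.inv_inv _ (S.memD hb)]
            exact e2
        · have hbi : G.rem.M.bd i = G.M.bd (i - 1) := by
            rw [hbd, lineN]
            rw [if_neg (by omega), if_neg (by omega), if_neg h11]
          rw [hbi]
          exact hmid _ (by omega) (by omega)
    · -- `R k τ`
      obtain ⟨-, F, -, -, -, hbd⟩ := step_R G hs
      have hbi : ∀ i : ℤ, 0 < i → G.rem.M.bd i = G.M.bd (i + k) := by
        intro i hi
        rw [hbd, lineR]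
        rw [if_neg (by omega), if_neg (by omega)]
      have hneg : ∀ i : ℤ, i < 0 → G.rem.M.bd i = H.M.bd i := by
        intro i hi
        rw [hbd, lineR]
        rw [if_pos hi]
        exact hlt i hi
      by_cases hk : q ≤ k + 1
      · refine ⟨1, k + 1 - q + m, one_pos, by omega, hneg, fun i hi => ?_, fun i h1 h2 => ?_⟩
        · push_cast at hi
          rw [hbi i (by omega), hge _ (by omega)]
          congr 1
          omega
        · exfalso
          push_cast at h2
          omega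
      · refine ⟨q - k, m, by omega, hm, hneg, fun i hi => ?_, fun i h1 h2 => ?_⟩
        · rw [hbi i (by omega), hge _ (by omega)]
          congr 1
          omega
        · rw [hbi i h1]
          exact hmid _ (by omega) (by omega)
    · exact absurd (hs ▸ trivial : G.step.isL) hnL

theorem star_shape (H : HPT) : ∃ k m q : ℕ, 0 < k ∧ 0 < m ∧ 0 < q ∧
    (∀ i : ℤ, i < 0 → H.star.M.bd i = H.M.bd (i - k)) ∧
    (∀ i : ℤ, q ≤ i → H.star.M.bd i = H.M.bd (i - q + m)) ∧
    (∀ i : ℤ, 0 < i → i < q → (∀ j, ¬ H.M.SameV (H.M.bd j) (H.star.M.bd i)) ∧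
      ∃ x, H.M.SameV (H.M.bd 0) x ∧ H.M.SameV (H.M.inv x) (H.star.M.bd i)) ∧
    H.M.SameV (H.M.bd (-k)) (H.star.M.bd 0) ∧
    (∃ x, H.M.SameV (H.M.bd 0) x ∧ H.M.SameV (H.M.inv x) (H.star.M.bd 0)) := by
  obtain ⟨q, m, hq, hm, hlt, hge, hmid⟩ := shape_aux H H.stopT le_rfl
  set G : HPT := rem^[H.stopT] H with hG
  have hst : H.star = G.rem := Function.iterate_succ_apply' _ _ _
  have S : Sub G H := iter_rem_sub H _
  have hL : G.step.isL := stop_spec H
  have hroot : H.M.SameV (H.M.bd 0) (G.M.bd 0) := root_stays H le_rfl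
  obtain ⟨e1, e2, e3, e4, ha, hb⟩ := s2_tri S
  rw [hst]
  rcases hs : G.step with _ | ⟨k, τ⟩ | ⟨k, τ⟩
  · rw [hs] at hL
    exact hL.elim
  · rw [hs] at hL
    exact hL.elim
  · obtain ⟨hw, F, -, -, -, hbd⟩ := step_L G hs
    have hk : 0 < k := tri_pos τ
    have hb0 : G.rem.M.bd 0 = H.M.inv (G.M.fc (G.M.bd 0)) := by
      rw [hbd, lineL]
      simp [S.inv_eq]
    have hbi : ∀ i : ℤ, 0 < i → G.rem.M.bd i = G.M.bd i := by
      intro i hi
      rw [hbd, lineL]
      rw [if_neg (by omega), if_neg (by omega)]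
    refine ⟨k, m, q, hk, hm, hq, fun i hi => ?_, fun i hi => ?_, fun i h1 h2 => ?_, ?_, ?_⟩
    · rw [hbd, lineL]
      rw [if_pos hi]
      exact hlt _ (by omega)
    · rw [hbi i (by omega)]
      exact hge i hi
    · rw [hbi i h1]
      exact hmid i h1 h2
    · rw [hb0, ← hlt _ (by omega)]
      exact H.ok.sameV_trans ((S.sameV (G.ok.bd_mem _) _).1 hw).1 e2
    · refine ⟨H.M.inv (G.M.fc (G.M.fc (G.M.bd 0))), H.ok.sameV_trans hroot e4, ?_⟩
      rw [H.ok.inv_inv _ (S.memD hb), hb0]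
      exact e2

/-- Every vertex of the line of the star is on the old line or a neighbour of the root vertex. -/
theorem star_line (H : HPT) (i : ℤ) : (∃ j, H.M.SameV (H.M.bd j) (H.star.M.bd i)) ∨
    ∃ x, H.M.SameV (H.M.bd 0) x ∧ H.M.SameV (H.M.inv x) (H.star.M.bd i) := by
  obtain ⟨k, m, q, hk, hm, hq, h1, h2, h3, h4, h5⟩ := H.star_shape
  rcases lt_trichotomy i 0 with hi | hi | hi
  · exact Or.inl ⟨i - k, by rw [h1 i hi]; exact H.ok.sameV_refl _⟩
  · subst hi
    exact Or.inr h5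
  · by_cases hq' : (q : ℤ) ≤ i
    · exact Or.inl ⟨i - q + m, by rw [h2 i hq']; exact H.ok.sameV_refl _⟩
    · exact Or.inr (h3 i hi (by omega)).2

end HPT

end Pool.Agent.Spd
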