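import Pool.Agent.Spd.Star1

/-!
(Part `Star3`: `exec_star`, `outs_star`, `stop_of_outs`, `Step.vol`, `starVol_eq`.  The text below is the common header of the parts.)

# SPD A18: exploration of the star of the root vertex

* `stop_exists`: as long as the outcome is `N` or `R k τ`, the new root dart `inv b` has the same
  origin `v_0` (`b : w → v_0`), and the old root dart `bd 0` (origin `v_0`) is removed for ever; the
  darts at `v_0` are finitely many (`cls_finite`, all in `H`), so some outcome is `L`.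
* `star_blw`: after the outcome `L k τ` no dart at `v_0` remains: `v_0` is not a vertex of the new
  line (`lineL`: the origins are `v_{i-k}` (`i < 0`), `v_{-k}`, `v_i` (`i ≥ 1`)), and it is not
  above the line since it was on the previous line: `trich`; an `Abv` vertex of `rem` would be
  `Abv` in the previous map (`abv_mono`), against `boundary_not_abv`.
* `shape_aux` (invariant for `G = rem^[t] H`, all outcomes before `t` different from `L`): there
  are `q, m ≥ 1` with `G.bd i = bd i` for `i < 0`, `G.bd i = bd (i - q + m)` for `i ≥ q`, and for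
  `0 < i < q` the origin of `G.bd i` is not on the boundary of `H` and is a neighbour of `v_0`.
  `t = 0`: `q = m = 1`.  Outcome `N` (`lineN`): `q + 1, m`; the new vertex `w` is the origin of
  `inv a`, `b : w → v_0`; `w` is not on the line of `G`; it is a vertex of `G`, so it is above the
  line of `G` (`trich` in `G`, `G`), and a boundary vertex of `H` is never above
  (`boundary_not_abv`, positions in `H`).  Outcome `R k`: (`lineR`) if `k + 1 ≥ q` then `q' = 1`,
  `m' = k + 1 - q + m`; if `k + 1 < q` then `q' = q - k`, `m' = m`.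
* `star_shape`: the last outcome `L k τ`: `bd' i = G.bd (i - k) = bd (i - k)` (`i < 0`),
  `bd' 0 = inv a` from `v_{-k}`, `bd' i = G.bd i` (`i ≥ 1`): `q, m` unchanged; `b : v_{-k} → v_0`
  shows that `v_{-k}` is a neighbour of `v_0`.
-/

namespace Pool.Agent.Spd

namespace HPT

theorem exec_star (G : HPT) (i : ℤ) :
    G.exec (i :: List.replicate ((G.shift i).stopT) 0) = (G.shift i).star := by
  rw [exec_cons, exec_replicate]
  rfl

private theorem outs_replicate (n : ℕ) : ∀ K : HPT,
    K.outs (List.replicate n 0) = (List.range n).map (fun j => (rem^[j] K).step) := by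
  induction n with
  | zero => intro K; rfl
  | succ n ih =>
    intro K
    have h1 : K.outs (List.replicate (n + 1) 0) =
        (K.shift 0).step :: (K.shift 0).rem.outs (List.replicate n 0) := rfl
    rw [h1, shift_zero, ih, List.range_succ_eq_map, List.map_cons, List.map_map]
    rfl

theorem outs_star (G : HPT) (i : ℤ) :
    G.outs (i :: List.replicate ((G.shift i).stopT) 0) = (G.shift i).starOuts := by
  have h1 : G.outs (i :: List.replicate ((G.shift i).stopT) 0) =
      (G.shift i).step :: (G.shift i).rem.outs (List.replicate ((G.shift i).stopT) 0) := rfl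
  rw [h1, outs_replicate]
  unfold starOuts
  rw [List.range_succ_eq_map, List.map_cons, List.map_map]
  rfl

/-- The number of peelings is determined by the outcomes: if the outcomes of `H'` along
`0, ..., 0` agree with `starOuts H` then `H'` stops at the same time. -/
theorem stop_of_outs (H H' : HPT)
    (h : H'.outs (List.replicate (H.stopT + 1) 0) = H.outs (List.replicate (H.stopT + 1) 0)) :
    H'.stopT = H.stopT := by
  rw [outs_replicate, outs_replicate] at h
  have key : ∀ j, j ≤ H.stopT → (rem^[j] H').step = (rem^[j] H).step := by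
    intro j hj
    exact (List.map_inj_left.1 h) j (List.mem_range.2 (by omega))
  refine le_antisymm ?_ ?_
  · refine Nat.sInf_le ?_
    show (rem^[H.stopT] H').step.isL
    rw [key _ le_rfl]
    exact stop_spec H
  · by_contra hlt
    push Not at hlt
    have h1 := stop_spec H'
    rw [key _ hlt.le] at h1
    exact stop_min H hlt h1

/-- The volume of the star in terms of the outcomes: three darts per peeling and the holes. -/
def Step.vol : Step → ℕ
  | .N => 3
  | .R _ τ => 3 + 3 * τ.faces
  | .L _ τ => 3 + 3 * τ.faces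

private theorem fc_ne (K : HPT) {d : ℕ} (hd : d ∈ K.M.D) : K.M.fc d ≠ d := by
  intro h
  apply K.ok.loopless (K.M.inv d) (K.ok.inv_mem d hd)
  refine ⟨1, ?_⟩
  show K.M.fc (K.M.inv (K.M.inv d)) = K.M.inv (K.M.inv d)
  rw [K.ok.inv_inv d hd, h]

private theorem vol_aux (K : HPT) (F : Finset ℕ) (hF : ∀ d ∈ F, K.M.Inner d)
    (h0 : K.M.bd 0 ∉ F) (h1 : K.M.fc (K.M.bd 0) ∉ F) (h2 : K.M.fc (K.M.fc (K.M.bd 0)) ∉ F)
    (hI : ∀ d, K.rem.M.Inner d ↔ K.M.Inner d ∧ d ≠ K.M.bd 0 ∧ d ≠ K.M.fc (K.M.bd 0) ∧
      d ≠ K.M.fc (K.M.fc (K.M.bd 0)) ∧ d ∉ F) :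
    Set.ncard {d | K.M.Inner d ∧ ¬ K.rem.M.Inner d} = 3 + F.card := by
  classical
  have hr : K.M.Inner (K.M.bd 0) := K.ok.bd_inner 0
  have ha := K.ok.fc_inner _ hr
  have hb := K.ok.fc_inner _ ha
  have e1 : K.M.fc (K.M.bd 0) ≠ K.M.bd 0 := fc_ne K hr.1
  have e2 : K.M.fc (K.M.fc (K.M.bd 0)) ≠ K.M.fc (K.M.bd 0) := fc_ne K ha.1
  have e3 : K.M.bd 0 ≠ K.M.fc (K.M.fc (K.M.bd 0)) := by
    have h3 := fc_ne K hb.1
    rwa [K.ok.fc_tri _ hr] at h3
  have hset : {d | K.M.Inner d ∧ ¬ K.rem.M.Inner d} =
      ((insert (K.M.bd 0) (insert (K.M.fc (K.M.bd 0))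
        (insert (K.M.fc (K.M.fc (K.M.bd 0))) F)) : Finset ℕ) : Set ℕ) := by
    ext d
    simp only [Set.mem_setOf_eq, hI, Finset.coe_insert, Set.mem_insert_iff, Finset.mem_coe]
    constructor
    · rintro ⟨h3, h4⟩
      by_contra h5
      push Not at h5
      exact h4 ⟨h3, h5⟩
    · rintro (rfl | rfl | rfl | h3)
      · exact ⟨hr, fun h => h.2.1 rfl⟩
      · exact ⟨ha, fun h => h.2.2.1 rfl⟩
      · exact ⟨hb, fun h => h.2.2.2.1 rfl⟩
      · exact ⟨hF d h3, fun h => h.2.2.2.2 h3⟩
  rw [hset, Set.ncard_coe_finset, Finset.card_insert_of_notMem, Finset.card_insert_of_notMem,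
    Finset.card_insert_of_notMem h2]
  · omega
  · rw [Finset.mem_insert, not_or]
    exact ⟨e2.symm, h1⟩
  · rw [Finset.mem_insert, Finset.mem_insert, not_or, not_or]
    exact ⟨e1.symm, e3, h0⟩

private theorem vol_step (K : HPT) :
    Set.ncard {d | K.M.Inner d ∧ ¬ K.rem.M.Inner d} = Step.vol K.step := by
  cases hs : K.step with
  | N =>
    obtain ⟨-, hI, -⟩ := step_N K hs
    have h := vol_aux K ∅ (fun d hd => absurd hd (Finset.notMem_empty d))
      (Finset.notMem_empty _) (Finset.notMem_empty _) (Finset.notMem_empty _) (fun d => by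
        rw [hI d]
        simp)
    rw [h]
    rfl
  | R k τ =>
    obtain ⟨h1, F, hf, hB, hI, -⟩ := step_R K hs
    obtain ⟨a, b, c⟩ := hole_disj K.ok (tri_pos τ) (Or.inl ⟨h1, hB⟩)
    rw [vol_aux K F (fun d hd => (fill_closed K.ok hf d hd).1) a b c hI, fill_card K.ok hf]
    rfl
  | L k τ =>
    obtain ⟨h1, F, hf, hB, hI, -⟩ := step_L K hs
    obtain ⟨a, b, c⟩ := hole_disj K.ok (tri_pos τ) (Or.inr ⟨h1, hB⟩)
    rw [vol_aux K F (fun d hd => (fill_closed K.ok hf d hd).1) a b c hI, fill_card K.ok hf]
    rfl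

private theorem vol_iter (H : HPT) (n : ℕ) :
    Set.ncard {d | H.M.Inner d ∧ ¬ (rem^[n] H).M.Inner d} =
      (((List.range n).map (fun j => (rem^[j] H).step)).map Step.vol).sum := by
  induction n with
  | zero =>
    have : {d | H.M.Inner d ∧ ¬ (rem^[0] H).M.Inner d} = ∅ := by
      ext d
      simp
    rw [this, Set.ncard_empty]
    rfl
  | succ n ih =>
    have hS := iter_rem_sub H n
    have hR : Sub (rem^[n + 1] H) (rem^[n] H) := by
      rw [Function.iterate_succ_apply']
      exact rem_sub _
    have hset : {d | H.M.Inner d ∧ ¬ (rem^[n + 1] H).M.Inner d} =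
        {d | H.M.Inner d ∧ ¬ (rem^[n] H).M.Inner d} ∪
          {d | (rem^[n] H).M.Inner d ∧ ¬ (rem^[n + 1] H).M.Inner d} := by
      ext d
      simp only [Set.mem_setOf_eq, Set.mem_union]
      constructor
      · rintro ⟨h1, h2⟩
        by_cases h3 : (rem^[n] H).M.Inner d
        · exact Or.inr ⟨h3, h2⟩
        · exact Or.inl ⟨h1, h3⟩
      · rintro (⟨h1, h2⟩ | ⟨h1, h2⟩)
        · exact ⟨h1, fun h3 => h2 (hR.cutting.sub d h3)⟩
        · exact ⟨hS.cutting.sub d h1, h2⟩
    have hdisj : Disjoint {d | H.M.Inner d ∧ ¬ (rem^[n] H).M.Inner d}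
        {d | (rem^[n] H).M.Inner d ∧ ¬ (rem^[n + 1] H).M.Inner d} := by
      rw [Set.disjoint_left]
      rintro d ⟨-, h1⟩ ⟨h2, -⟩
      exact h1 h2
    have hstep : Set.ncard {d | (rem^[n] H).M.Inner d ∧ ¬ (rem^[n + 1] H).M.Inner d} =
        Step.vol (rem^[n] H).step := by
      rw [Function.iterate_succ_apply']
      exact vol_step _
    rw [hset, Set.ncard_union_eq hdisj hS.fin hR.fin, ih, hstep, List.range_succ,
      List.map_append, List.map_append, List.sum_append]
    simp

theorem starVol_eq (H : HPT) : H.starVol = ((H.starOuts).map Step.vol).sum :=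
  vol_iter H (H.stopT + 1)

end HPT

end Pool.Agent.Spd
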