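import Pool.Agent.Spd.Star1

/-!
(Part `Star4`: `star_special`.  The text below is the common header of the parts.)

# SPD A18: exploration of the star of the root vertex

* `stop_exists`: as long as the outcome is `N` or `R k τ`, the new root dart `inv b` has the same
  origin `v_0` (`b : w → v_0`), and the old root dart `bd 0` (origin `v_0`) is removed for ever; the
  darts at `v_0` are finitely many (`cls_finite`, all in `H`), so some outcome is `L`.
* `star_blw`: after the outcome `L k τ` no dart at `v_0` remains: `v_0` is not a vertex of the new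
  line (`lineL`: the origins are `v_{i-k}` (`i < 0`), `v_{-k}`, `v_i` (`i ≥ 1`)), and it is not
  above the line since it was on the previous line: `trich`; an `Abv` vertex of `rem` would be
  `Abv` in the previous map (`abv_mono`), against `boundary_not_abv`.
* `shape_aux` (invariant for `G = rem^[t] H`, all outcomes before `t` different from `L`): there
  are `q, m ≥ 1` with `G.bd i = bd i` for `i < 0`, `G.bd i = bd (i - q + m)` for `i ≥ q`, and for
  `0 < i < q` the origin of `G.bd i` is not on the boundary of `H` and is a neighbour of `v_0`.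
  `t = 0`: `q = m = 1`.  Outcome `N` (`lineN`): `q + 1, m`; the new vertex `w` is the origin of
  `inv a`, `b : w → v_0`; `w` is not on the line of `G`; it is a vertex of `G`, so it is above the
  line of `G` (`trich` in `G`, `G`), and a boundary vertex of `H` is never above
  (`boundary_not_abv`, positions in `H`).  Outcome `R k`: (`lineR`) if `k + 1 ≥ q` then `q' = 1`,
  `m' = k + 1 - q + m`; if `k + 1 < q` then `q' = q - k`, `m' = m`.
* `star_shape`: the last outcome `L k τ`: `bd' i = G.bd (i - k) = bd (i - k)` (`i < 0`),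
  `bd' 0 = inv a` from `v_{-k}`, `bd' i = G.bd i` (`i ≥ 1`): `q, m` unchanged; `b : v_{-k} → v_0`
  shows that `v_{-k}` is a neighbour of `v_0`.
-/

namespace Pool.Agent.Spd

namespace HPT

/-- The special star used for regeneration times: outcomes `N`, `L 1 edge`.  The root vertex has
degree 3, the new vertex is the only new vertex of the line; `x` is the dart from the root vertex
to it, it is the dart number `κ = 1` in the rotation from `inv (bd (-1))`, and it is the only
removed dart at the new vertex (seen from the other side). -/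
theorem star_special (H : HPT) (h0 : H.step = Step.N) (h1 : H.rem.step = Step.L 1 Tri.edge) :
    H.stopT = 1 ∧ H.deg (H.M.bd 0) = 3 ∧
    H.M.SameV (H.M.inv (H.M.rot^[1] (H.M.inv (H.M.bd (-1))))) (H.star.M.bd 1) ∧
    {e | H.M.SameV (H.star.M.bd 1) e ∧ e ∉ H.star.M.D} =
      {H.M.inv (H.M.rot^[1] (H.M.inv (H.M.bd (-1))))} := by
  have hok := H.ok
  have hokG := H.rem.ok
  have S := rem_sub H
  obtain ⟨hw, hin, hbd⟩ := step_N H h0
  obtain ⟨-, F, hF, -, hin2, hbd2⟩ := step_L H.rem h1
  -- the darts of the first triangle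
  obtain ⟨a, ha⟩ : ∃ a, a = H.M.fc (H.M.bd 0) := ⟨_, rfl⟩
  obtain ⟨b, hb⟩ : ∃ b, b = H.M.fc a := ⟨_, rfl⟩
  rw [← ha, ← hb] at hw
  simp only [← ha, ← hb] at hin
  have hrI : H.M.Inner (H.M.bd 0) := hok.bd_inner 0
  have haI : H.M.Inner a := ha ▸ hok.fc_inner _ hrI
  have hbI : H.M.Inner b := hb ▸ hok.fc_inner _ haI
  have hfb : H.M.fc b = H.M.bd 0 := by rw [hb, ha]; exact hok.fc_tri _ hrI
  have e0 : H.rem.M.bd 0 = H.M.inv b := by
    rw [hbd, lineN, ← ha, ← hb]
    simp
  have e1 : H.rem.M.bd (-1) = H.M.bd (-1) := by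
    rw [hbd, lineN]
    simp
  have e2 : H.rem.M.bd 1 = H.M.inv a := by
    rw [hbd, lineN, ← ha]
    simp
  -- the darts of the second triangle
  obtain ⟨a', ha'⟩ : ∃ a', a' = H.M.fc (H.M.inv b) := ⟨_, rfl⟩
  have e3 : H.rem.M.fc (H.rem.M.bd 0) = a' := by
    rw [S.fc_eq _ (hokG.bd_inner 0), e0, ha']
  have ha'G : H.rem.M.Inner a' := e3 ▸ hokG.fc_inner _ (hokG.bd_inner 0)
  have e4 : H.rem.M.fc a' = H.M.fc a' := S.fc_eq _ ha'G
  have e5 : H.M.fc a' = H.M.bd (-1) ∧ F = ∅ := by
    obtain ⟨d, hd, hcs, hF0⟩ := hF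
    have h2 : holeL H.rem.M 1 = [H.rem.M.bd (-1), H.rem.M.inv (H.rem.M.fc a')] := by
      rw [holeL, e3]
      simp
    rw [h2] at hcs
    injection hcs with h3 h4
    injection h4 with h5 _
    refine ⟨?_, hF0⟩
    have hm : H.rem.M.fc a' ∈ H.rem.M.D := (hokG.fc_inner _ ha'G).1
    have h6 := congrArg H.rem.M.inv h5
    rw [hokG.inv_inv _ hm, hokG.inv_inv _ hd, ← h3, e1, e4] at h6
    exact h6
  obtain ⟨e5, hF0⟩ := e5
  have hibI : H.M.Inner (H.M.inv b) := ((hin _).1 (e0 ▸ hokG.bd_inner 0)).1
  have hibr : H.M.inv b ≠ H.M.bd 0 := ((hin _).1 (e0 ▸ hokG.bd_inner 0)).2.1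
  have e6 : H.M.fc (H.M.bd (-1)) = H.M.inv b := by
    rw [← e5, ha']
    exact hok.fc_tri _ hibI
  -- rotation around the root vertex
  have r1 : H.M.rot (H.M.bd 0) = H.M.inv (H.M.bd (-1)) := by
    have := hok.fc_outer 0
    rw [zero_sub] at this
    exact this
  have r2 : H.M.rot (H.M.inv (H.M.bd (-1))) = H.M.inv b := by
    unfold PreMap.rot
    rw [hok.inv_inv _ (hok.bd_mem _), e6]
  have r3 : H.M.rot (H.M.inv b) = H.M.bd 0 := by
    unfold PreMap.rot
    rw [hok.inv_inv _ hbI.1, hfb]
  have r4 : H.M.inv (H.M.rot^[1] (H.M.inv (H.M.bd (-1)))) = b := by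
    rw [Function.iterate_one, r2, hok.inv_inv _ hbI.1]
  have hnL : ¬ H.step.isL := by
    rw [h0]
    exact fun h => h
  have hL : (rem^[1] H).step.isL := by
    rw [Function.iterate_one, h1]
    trivial
  have hstop : H.stopT = 1 := by
    unfold stopT
    apply le_antisymm
    · exact Nat.sInf_le hL
    · refine le_csInf ⟨1, hL⟩ fun n hn => ?_
      rcases Nat.eq_zero_or_pos n with h | h
      · subst h
        exact absurd hn hnL
      · exact h
  have hstar : H.star = H.rem.rem := by
    unfold star
    rw [hstop]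
    rfl
  have s1 : H.star.M.bd 1 = H.M.inv a := by
    rw [hstar, hbd2, lineL, ← e2]
    simp
  have s0 : H.star.M.bd 0 = H.M.inv a' := by
    rw [hstar, hbd2, lineL, e3, S.inv_eq]
    simp
  have hab : H.M.SameV (H.M.inv a) b := by
    have := hok.tgt haI.1
    rwa [← hb] at this
  have hba : H.M.SameV b (H.M.inv a) := hok.sameV_symm (hok.inv_mem _ haI.1) hab
  refine ⟨hstop, ?_, ?_, ?_⟩
  · have hp : Function.IsPeriodicPt H.M.rot 3 (H.M.bd 0) := by
      change H.M.rot^[3] (H.M.bd 0) = H.M.bd 0
      rw [Function.iterate_succ_apply, Function.iterate_succ_apply, Function.iterate_one, r1, r2,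
        r3]
    have h2 := hp.minimalPeriod_dvd
    rcases (Nat.dvd_prime Nat.prime_three).1 h2 with h3 | h3
    · exfalso
      rw [Function.minimalPeriod_eq_one_iff_isFixedPt] at h3
      have h4 : H.M.rot (H.M.bd 0) = H.M.bd 0 := h3
      rw [r1] at h4
      exact hrI.2 (-1) h4.symm
    · exact h3
  · rw [r4, s1]
    exact hba
  · rw [r4, s1]
    have hSI : ∀ d, H.star.M.Inner d ↔ H.rem.M.Inner d ∧ d ≠ H.M.inv b ∧ d ≠ a' ∧
        d ≠ H.M.bd (-1) := by
      intro d
      rw [hstar, hin2, e3, e4, e5, e0, hF0]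
      simp
    have S2 := star_sub H
    ext e
    constructor
    · rintro ⟨he, heD⟩
      have heM : e ∈ H.M.D := hok.sameV_mem (hok.inv_mem _ haI.1) he
      have hbe : H.M.SameV b e := hok.sameV_trans hba he
      have heb : H.M.SameV e b := hok.sameV_symm hbI.1 hbe
      have hnb : ∀ i, ¬ H.M.SameV (H.M.bd i) e := fun i hi => hw i (hok.sameV_trans hi heb)
      rcases hok.inner_or_outer heM with hI | ⟨i, hi⟩
      swap
      · exfalso
        have h2 := hok.bd_next i
        rw [← hi] at h2
        exact hnb (i + 1) (hok.sameV_symm heM h2)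
      · have hns : ¬ H.star.M.Inner e := fun h => heD ((S2.mem_iff e).2 ⟨heM, Or.inl h⟩)
        rw [hSI] at hns
        by_cases hG : H.rem.M.Inner e
        · have h2 : e = H.M.inv b ∨ e = a' ∨ e = H.M.bd (-1) := by
            by_contra hcon
            push Not at hcon
            exact hns ⟨hG, hcon⟩
          rcases h2 with h2 | h2 | h2
          · exfalso
            refine hnb 0 ?_
            rw [h2]
            exact hok.sameV_symm hibI.1 (r3 ▸ hok.sameV_rot (H.M.inv b))
          · exfalso
            apply heD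
            refine (S2.mem_iff e).2 ⟨heM, Or.inr ?_⟩
            rw [h2, ← s0]
            exact H.star.ok.bd_inner 0
          · exfalso
            exact hnb (-1) (h2 ▸ hok.sameV_refl _)
        · have h2 : e = H.M.bd 0 ∨ e = a ∨ e = b := by
            by_contra hcon
            push Not at hcon
            exact hG ((hin e).2 ⟨hI, hcon⟩)
          rcases h2 with h2 | h2 | h2
          · exact absurd (h2 ▸ hok.sameV_refl _) (hnb 0)
          · exfalso
            rw [h2] at heb
            have h3 := (hok.face_ne haI).1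
            rw [← hb] at h3
            exact h3 heb
          · exact h2
    · intro he
      have he' : e = b := he
      rw [he']
      refine ⟨hab, fun hD => ?_⟩
      have h2 := ((S2.mem_iff b).1 hD).2
      rcases h2 with h2 | h2
      · rw [hSI, hin] at h2
        exact h2.1.2.2.2 rfl
      · rw [hSI] at h2
        exact h2.2.1 rfl

end HPT

end Pool.Agent.Spd
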