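import Pool.Agent.Spd.Star1
import Pool.Agent.Spd.Star2
import Pool.Agent.Spd.Star3
import Pool.Agent.Spd.Star4

/-!
# SPD: module `Star` (only imports)
-/
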