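import Pool.Agent.Spd.MeasA
import Pool.Agent.Spd.Star

/-!
(Part `MeasB5`: `measurable_stopT`, `measurable_star`, `measurable_starOuts`,
`measurable_starVol`.  The text below is the common header of the parts.)

# SPD M8: locally determined functions

TOOL (`fair_tool`): for a finite set `F` of darts of `H` and `c : List ℤ` there is `k` such that the
exploration `fair k` swallows the vertices of `F` (`exhaust_blw`), explores more than `c`
(`fair_fine`), and for every `H'` with the same outcomes along `fair k` there are `φ`, `ψ` with
`Sim H (H.exec (fair k)) H' (H'.exec (fair k)) φ ψ` (`sim_of_outs`, `c₁ = fair k`) and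
`Sim H (H.exec c) H' (H'.exec c) φ ψ` (`back_outs`), `H'.outs c = H.outs c`.

* `measurable_deg0`: `measurable_of_local` with `F = {H.bd 0}`: `φ (H.bd 0) = H'.bd 0` (`h.bdy 0` and
  `h.inv` for the explored darts `inv (H.bd 0)`, `H.bd 0`), `Sim.deg`.
* `measurable_distLine`: `e = (H.exec c).bd i`, `F = {f | Reach H (H.distBd e) e f}`
  (`reach_finite`); `φ e = (H'.exec c).bd i` (`line` for `H.exec c`, `h.inv` since `e` is explored:
  strictly below), `sim_dist`.
* `measurable_distWalk`: `measurable_of_local₂`: `F` = the darts `H.walk U j`, `j ≤ n`, and the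
  `Reach`-ball of `H.walk U n` of radius `distBd`; `l` = list of the degrees `H.deg (H.walk U j)`,
  `j < n`; `walk_sim` and `sim_dist`.
* `measurableSet_ret`: `{(G, U) | ∃ i, SameV (G.bd i) (G.walkK κ U (n+1))}` is locally determined: `F` =
  `G.bd 0` and the darts `G.walkK κ U j`, `j ≤ n + 1`; `walkFrom_sim` for
  `e = inv (rot^[κ] (inv (bd (-1))))` (`φ e = e'` by `Sim.iter` at the root vertex, `h.inv`), and
  `Sim.on_iff` with `K = G` (the reference map, `Sim.base`).
* `measurableSet_esc`: `κ < deg` (`measurable_deg0`) and a countable intersection.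
* `measurable_stopT`: `{stopT = s}` is the union of the sets `{outs (replicate (s+1) 0) = o}` with
  `o` of length `s + 1`, whose last entry is the first one of type `L` (`stop_spec`, `stop_min`,
  `outs` along `replicate`: the outcome number `t` is `(rem^[t] H).step`).
* `measurable_star`: on `{stopT = s}` it is `H.exec (replicate (s+1) 0)` (`exec_replicate`).
* `measurable_starOuts`, `measurable_starVol`: `starVol_eq`.
-/

namespace Pool.Agent.Spd

open MeasureTheory

namespace HPT

private theorem mb5_starOuts (G : HPT) :
    G.outs (List.replicate (G.stopT + 1) 0) = G.starOuts := by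
  have h := outs_star G 0
  rw [shift_zero] at h
  rw [List.replicate_succ]
  exact h

private theorem mb5_starOuts_eq (H H' : HPT)
    (h : H'.outs (List.replicate (H.stopT + 1) 0) = H.outs (List.replicate (H.stopT + 1) 0)) :
    H'.starOuts = H.starOuts := by
  have h1 := stop_of_outs H H' h
  rw [← mb5_starOuts, ← mb5_starOuts, h1]
  exact h

theorem measurable_stopT : Measurable HPT.stopT :=
  measurable_of_local _ fun H => ⟨List.replicate (H.stopT + 1) 0, fun H' h => stop_of_outs H H' h⟩

theorem measurable_star : Measurable HPT.star := by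
  intro S hS
  have h1 : HPT.star ⁻¹' S = ⋃ s : ℕ, (HPT.stopT ⁻¹' {s}) ∩
      (fun H : HPT => H.exec (List.replicate (s + 1) 0)) ⁻¹' S := by
    ext H
    rw [Set.mem_iUnion]
    constructor
    · intro h
      refine ⟨H.stopT, rfl, ?_⟩
      rw [Set.mem_preimage, exec_replicate]
      exact h
    · rintro ⟨s, hs, h⟩
      rw [Set.mem_preimage, Set.mem_singleton_iff] at hs
      subst hs
      rw [Set.mem_preimage, exec_replicate] at h
      exact h
  rw [h1]
  exact MeasurableSet.iUnion fun s =>
    (measurable_stopT (measurableSet_singleton s)).inter (measurable_exec _ hS)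

theorem measurable_starOuts : Measurable HPT.starOuts :=
  measurable_of_local _ fun H => ⟨List.replicate (H.stopT + 1) 0, fun H' h =>
    mb5_starOuts_eq H H' h⟩

theorem measurable_starVol : Measurable HPT.starVol :=
  measurable_of_local _ fun H => ⟨List.replicate (H.stopT + 1) 0, fun H' h => by
    rw [starVol_eq, starVol_eq, mb5_starOuts_eq H H' h]⟩

end HPT

end Pool.Agent.Spd
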