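import Pool.Agent.Spd.C10
import Pool.Agent.Spd.MeasB

/-!
# SPD C11: measurability of hitting probabilities; consequences of translation invariance

* `measurable_hitE`, `measurable_degBd`: `measurable_of_local`.  Given `H` take
  `F = {f | Reach H (n+1) (H.M.bd x) f}` (`reach_finite`, `reach_mem`, `bd_mem`) and `k` from
  `fair_tool H .. []`; `c = fair k`.  For `H'` with the same outcomes `fair_tool` gives `φ`, `ψ` with
  `Sim H (H.exec (fair k)) H' (H'.exec (fair k)) φ ψ`; `exec_sub` gives the two `Sub`; `sim_hitE`.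
  (For `measurable_degBd` take `n = 0`.)
* `measurable_escE`: `escE_eq`.
* `map_shift`: `Measure.ext`: `μ.map f B = μ (f ⁻¹' B)` (`Measure.map_apply (measurable_shift k)`) and
  `TransInv`.
-/

namespace Pool.Agent.Spd

open MeasureTheory

namespace HPT

private theorem c11_tool (J : Set ℤ) (n : ℕ) (x : ℤ) (H : HPT) : ∃ c : List ℤ,
    ∀ H' : HPT, H'.outs c = H.outs c →
      H'.hitE J n x = H.hitE J n x ∧ H'.deg (H'.M.bd x) = H.deg (H.M.bd x) := by
  obtain ⟨k, hb, -, hs⟩ := fair_tool H (F := {f | Reach H (n + 1) (H.M.bd x) f})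
    (reach_finite H _ (H.ok.bd_mem x)) (fun d hd => reach_mem H _ (H.ok.bd_mem x) hd) []
  refine ⟨fair k, fun H' ho => ?_⟩
  obtain ⟨φ, ψ, h, -, -⟩ := hs H' ho
  exact sim_hitE (exec_sub H (fair k)) (exec_sub H' (fair k)) h J n x fun f hf => hb f hf

theorem measurable_hitE (J : Set ℤ) (n : ℕ) (x : ℤ) :
    Measurable (fun H : HPT => H.hitE J n x) := by
  refine measurable_of_local _ fun H => ?_
  obtain ⟨c, hc⟩ := c11_tool J n x H
  exact ⟨c, fun H' ho => (hc H' ho).1⟩

theorem measurable_degBd (x : ℤ) : Measurable (fun H : HPT => H.deg (H.M.bd x)) := by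
  refine measurable_of_local _ fun H => ?_
  obtain ⟨c, hc⟩ := c11_tool ∅ 0 x H
  exact ⟨c, fun H' ho => (hc H' ho).2⟩

theorem measurable_escE (J : Set ℤ) (n : ℕ) (x : ℤ) :
    Measurable (fun H : HPT => H.escE J n x) := by
  have h1 : (fun H : HPT => H.escE J n x) =
      fun H : HPT => ((H.deg (H.M.bd x) : ℕ) : ℝ) - H.hitE J n x :=
    funext fun H => escE_eq H J n x
  rw [h1]
  exact (measurable_from_top.comp (measurable_degBd x)).sub (measurable_hitE J n x)

end HPT

theorem map_shift {μ : Measure HPT} (hT : TransInv μ) (k : ℤ) :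
    μ.map (fun H : HPT => H.shift k) = μ := by
  refine Measure.ext fun B hB => ?_
  rw [Measure.map_apply (HPT.measurable_shift k) hB]
  exact hT k B hB

end Pool.Agent.Spd
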