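import Pool.Agent.Spd.C11

/-!
# SPD C12: expectations of hitting and escape sums

`μ` is a translation invariant probability measure with `E deg (v_0) < ∞`.

* `integrable_deg`: for `x = 0` from `hdeg` (`Integrable` of a nonnegative measurable function with finite
  `lintegral`: `ENNReal.ofReal` of a natural number cast, `measurable_degBd`); for general `x`:
  `(H.shift x).deg ((H.shift x).M.bd 0) = H.deg (H.M.bd x)` (`bd (0 + x)`, `deg` unchanged) and `map_shift`
  (`Integrable.comp_measurable` or `integrable_map_measure`).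
* `integrable_hitE`, `integrable_escE`: measurable, between `0` and `deg` (`Integrable.mono'`).
* `integral_hitE_shift`: `H.hitE J n x = (H.shift x).hitE {i | i + x ∈ J} n 0` (`hitE_shift`; the set
  `{i | i - x ∈ {i | i + x ∈ J}}` is `J`), then `integral_map` with `map_shift`.
* `integral_escE_univ`: `escE_shift` with `J = univ`, the same.
* `integral_hitE_le`: `{i | i + x ∈ (Icc 0 L)ᶜ} ⊆ {j | min x (L - x) < |j|}` for `0 ≤ x ≤ L` (if
  `i + x < 0` then `|i| > x`; if `i + x > L` then `|i| > L - x`), `hitE_subset`, `integral_mono`.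
-/

namespace Pool.Agent.Spd

open MeasureTheory

variable {μ : Measure HPT} [IsProbabilityMeasure μ]

theorem integrable_deg (hT : TransInv μ)
    (hdeg : ∫⁻ H, (H.deg (H.M.bd 0) : ENNReal) ∂μ < ⊤) (x : ℤ) :
    Integrable (fun H : HPT => (H.deg (H.M.bd x) : ℝ)) μ := by
  have h0 : Integrable (fun H : HPT => (H.deg (H.M.bd 0) : ℝ)) μ := by
    refine ⟨(measurable_from_top.comp (HPT.measurable_degBd 0)).aestronglyMeasurable, ?_⟩
    refine lt_of_eq_of_lt (lintegral_congr fun H => ?_) hdeg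
    rw [Real.enorm_eq_ofReal (Nat.cast_nonneg _), ENNReal.ofReal_natCast]
  have h1 : Integrable (fun H : HPT => (H.deg (H.M.bd 0) : ℝ))
      (μ.map (fun H : HPT => H.shift x)) := by
    rw [map_shift hT x]
    exact h0
  have h2 := h1.comp_measurable (HPT.measurable_shift x)
  refine h2.congr (Filter.Eventually.of_forall fun H => ?_)
  change ((H.shift x).deg ((H.shift x).M.bd 0) : ℝ) = (H.deg (H.M.bd x) : ℝ)
  rw [HPT.shift_bd, zero_add]
  rfl

theorem integrable_hitE (hT : TransInv μ)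
    (hdeg : ∫⁻ H, (H.deg (H.M.bd 0) : ENNReal) ∂μ < ⊤) (J : Set ℤ) (n : ℕ) (x : ℤ) :
    Integrable (fun H : HPT => H.hitE J n x) μ := by
  refine (integrable_deg hT hdeg x).mono' (HPT.measurable_hitE J n x).aestronglyMeasurable
    (Filter.Eventually.of_forall fun H => ?_)
  rw [Real.norm_of_nonneg (H.hitE_nonneg J n x)]
  exact H.hitE_le_deg J n x

theorem integrable_escE (hT : TransInv μ)
    (hdeg : ∫⁻ H, (H.deg (H.M.bd 0) : ENNReal) ∂μ < ⊤) (J : Set ℤ) (n : ℕ) (x : ℤ) :
    Integrable (fun H : HPT => H.escE J n x) μ := by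
  refine (integrable_deg hT hdeg x).mono' (HPT.measurable_escE J n x).aestronglyMeasurable
    (Filter.Eventually.of_forall fun H => ?_)
  rw [Real.norm_of_nonneg (H.escE_nonneg J n x)]
  exact H.escE_le_deg J n x

theorem integral_hitE_shift (hT : TransInv μ) (J : Set ℤ) (n : ℕ) (x : ℤ) :
    ∫ H, H.hitE J n x ∂μ = ∫ H, H.hitE {i | i + x ∈ J} n 0 ∂μ := by
  have h1 : ∀ H : HPT, H.hitE J n x = (H.shift x).hitE {i | i + x ∈ J} n 0 := by
    intro H
    rw [H.hitE_shift, zero_add]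
    congr 1
    ext i
    simp
  calc ∫ H, H.hitE J n x ∂μ = ∫ H, (H.shift x).hitE {i | i + x ∈ J} n 0 ∂μ :=
        integral_congr_ae (Filter.Eventually.of_forall h1)
    _ = ∫ H, H.hitE {i | i + x ∈ J} n 0 ∂(μ.map (fun H : HPT => H.shift x)) :=
        (integral_map (HPT.measurable_shift x).aemeasurable
          (HPT.measurable_hitE _ n 0).aestronglyMeasurable).symm
    _ = ∫ H, H.hitE {i | i + x ∈ J} n 0 ∂μ := by rw [map_shift hT x]

theorem integral_escE_univ (hT : TransInv μ) (n : ℕ) (x : ℤ) :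
    ∫ H, H.escE Set.univ n x ∂μ = ∫ H, H.escE Set.univ n 0 ∂μ := by
  have h1 : ∀ H : HPT, H.escE Set.univ n x = (H.shift x).escE Set.univ n 0 := by
    intro H
    rw [H.escE_shift, zero_add]
    congr 1
  calc ∫ H, H.escE Set.univ n x ∂μ = ∫ H, (H.shift x).escE Set.univ n 0 ∂μ :=
        integral_congr_ae (Filter.Eventually.of_forall h1)
    _ = ∫ H, H.escE Set.univ n 0 ∂(μ.map (fun H : HPT => H.shift x)) :=
        (integral_map (HPT.measurable_shift x).aemeasurable
          (HPT.measurable_escE _ n 0).aestronglyMeasurable).symm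
    _ = ∫ H, H.escE Set.univ n 0 ∂μ := by rw [map_shift hT x]

theorem integral_hitE_le (hT : TransInv μ)
    (hdeg : ∫⁻ H, (H.deg (H.M.bd 0) : ENNReal) ∂μ < ⊤) (n L x : ℕ) (hx : x ≤ L) :
    ∫ H, H.hitE (Set.Icc 0 (L : ℤ))ᶜ n x ∂μ ≤
      ∫ H, H.hitE {j : ℤ | ((min x (L - x) : ℕ) : ℤ) < |j|} n 0 ∂μ := by
  rw [integral_hitE_shift hT]
  refine integral_mono (integrable_hitE hT hdeg _ n 0) (integrable_hitE hT hdeg _ n 0)
    fun H => H.hitE_subset ?_ n 0
  intro i hi
  have h1 : ¬ (0 ≤ i + (x : ℤ) ∧ i + (x : ℤ) ≤ L) := hi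
  change ((min x (L - x) : ℕ) : ℤ) < |i|
  have h2 : ((min x (L - x) : ℕ) : ℤ) ≤ x := by
    exact_mod_cast Nat.min_le_left x (L - x)
  have h3 : ((min x (L - x) : ℕ) : ℤ) ≤ L - x := by
    have : ((min x (L - x) : ℕ) : ℤ) ≤ ((L - x : ℕ) : ℤ) := by
      exact_mod_cast Nat.min_le_right x (L - x)
    rwa [Nat.cast_sub hx] at this
  by_cases h4 : 0 ≤ i + (x : ℤ)
  · have h5 : (L : ℤ) < i + x := not_le.1 fun h => h1 ⟨h4, h⟩
    exact lt_of_lt_of_le (by omega) (le_abs_self i)
  · exact lt_of_lt_of_le (by omega) (neg_le_abs i)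

end Pool.Agent.Spd
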