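import Pool.Agent.Spd.C12

/-!
# SPD C13: far boundary vertices are not hit

`η m = E hitE {|j| > m} n 0 → 0`: dominated convergence
(`tendsto_integral_of_dominated_convergence`): the functions are measurable, between `0` and
`deg (bd 0)` (`hitE_nonneg`, `hitE_le_deg`), which is integrable, and for every `H` they are
eventually `0` (`hitE_vanish`).
-/

namespace Pool.Agent.Spd

open MeasureTheory Filter Topology

theorem tendsto_eta {μ : Measure HPT} [IsProbabilityMeasure μ] (hT : TransInv μ)
    (hdeg : ∫⁻ H, (H.deg (H.M.bd 0) : ENNReal) ∂μ < ⊤) (n : ℕ) :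
    Tendsto (fun m : ℕ => ∫ H, H.hitE {j : ℤ | (m : ℤ) < |j|} n 0 ∂μ) atTop (𝓝 0) := by
  have h := tendsto_integral_of_dominated_convergence (μ := μ)
    (F := fun (m : ℕ) (H : HPT) => H.hitE {j : ℤ | (m : ℤ) < |j|} n 0)
    (f := fun _ : HPT => (0 : ℝ))
    (fun H : HPT => (H.deg (H.M.bd 0) : ℝ))
    (fun m => (HPT.measurable_hitE _ n 0).aestronglyMeasurable)
    (integrable_deg hT hdeg 0)
    (fun m => Filter.Eventually.of_forall fun H => by
      rw [Real.norm_eq_abs, abs_of_nonneg (HPT.hitE_nonneg H _ n 0)]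
      exact HPT.hitE_le_deg H _ n 0)
    (Filter.Eventually.of_forall fun H => by
      obtain ⟨m, hm⟩ := HPT.hitE_vanish H n 0
      exact tendsto_const_nhds.congr' ((eventually_ge_atTop m).mono fun m' hm' => (hm m' hm').symm))
  simpa using h

end Pool.Agent.Spd
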