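import Mathlib

/-!
# SPD C14: two facts about sequences (pure analysis)

* `cesaro_min`: `|η (min x (L - x))| ≤ |η x| + |η (L - x)|`, so the absolute value of the average is at
  most twice the Cesaro mean of `|η|`, which tends to `0`.
* `exp_small`: `C exp (-lam L) ≤ 1/2` for all large `L`.
-/

namespace Pool.Agent.Spd

open Filter Topology

theorem cesaro_min {η : ℕ → ℝ} (h : Tendsto η atTop (𝓝 0)) :
    Tendsto (fun L : ℕ => (∑ x ∈ Finset.range (L + 1), η (min x (L - x))) / ((L : ℝ) + 1))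
      atTop (𝓝 0) := by
  have h1 : Tendsto (fun n : ℕ => (n : ℝ)⁻¹ * ∑ i ∈ Finset.range n, |η i|) atTop (𝓝 0) := by
    have h2 : Tendsto (fun n => |η n|) atTop (𝓝 0) := by simpa using h.abs
    exact h2.cesaro
  have h3 : Tendsto (fun L : ℕ => 2 * (((L + 1 : ℕ) : ℝ)⁻¹ * ∑ i ∈ Finset.range (L + 1), |η i|))
      atTop (𝓝 0) := by
    have h4 := (h1.comp (tendsto_add_atTop_nat 1)).const_mul 2
    simpa using h4
  refine squeeze_zero_norm (fun L => ?_) h3
  have hL : (0 : ℝ) < (L : ℝ) + 1 := by positivity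
  rw [Real.norm_eq_abs, abs_div, abs_of_pos hL, Nat.cast_add, Nat.cast_one,
    div_le_iff₀ hL]
  have h5 : |∑ x ∈ Finset.range (L + 1), η (min x (L - x))| ≤
      ∑ x ∈ Finset.range (L + 1), (|η x| + |η (L - x)|) := by
    refine (Finset.abs_sum_le_sum_abs _ _).trans (Finset.sum_le_sum fun x _ => ?_)
    rcases min_choice x (L - x) with h6 | h6
    · rw [h6]
      exact le_add_of_nonneg_right (abs_nonneg _)
    · rw [h6]
      exact le_add_of_nonneg_left (abs_nonneg _)
  refine h5.trans (le_of_eq ?_)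
  rw [Finset.sum_add_distrib, Finset.sum_flip (fun x => |η x|)]
  field_simp
  ring

theorem exp_small {C lam : ℝ} (hlam : 0 < lam) :
    ∀ᶠ L : ℕ in atTop, C * Real.exp (-lam * L) ≤ 1 / 2 := by
  have h1 : Tendsto (fun L : ℕ => C * Real.exp (-lam * L)) atTop (𝓝 (C * 0)) := by
    refine Tendsto.const_mul _ (Real.tendsto_exp_atBot.comp ?_)
    exact tendsto_natCast_atTop_atTop.const_mul_atTop_of_neg (neg_lt_zero.2 hlam)
  rw [mul_zero] at h1
  exact (h1.eventually (gt_mem_nhds (by norm_num : (0 : ℝ) < 1 / 2))).mono fun L hL => le_of_lt hL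

end Pool.Agent.Spd
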