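import Pool.Agent.Spd.C08
import Pool.Agent.Spd.C13
import Pool.Agent.Spd.C14

/-!
# SPD C15: lower bound for the expected escape sum, uniformly in the time

Fix `n`; `ε = ∫ escE univ n 0`, `η m = ∫ hitE {|j| > m} n 0` (`η → 0`, `tendsto_eta`).  For `L` large
(`exp_small`) the exceptional set `S` of `hiso L` has `μ S ≤ 1/2`.  For `H ∉ S`, `det_bound`:
`c² / 2 (L+1) ≤ ∑_{x ∈ J} escE J n x`, `J = {0, ..., L}`; this sum is `≥ 0` everywhere
(`escE_nonneg`), so its integral is at least `c² / 2 (L+1) μ (Sᶜ) ≥ c² / 4 (L+1)` (integrate the indicator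
of `Sᶜ`; `integrable_escE`; `prob_compl_eq_one_sub`).  On the other hand (`escE_compare`,
`integral_finset_sum`, `integral_escE_univ`, `integral_hitE_le`) the integral is at most
`(L+1) ε + ∑_{x ≤ L} η (min x (L - x))`; the sum over `Finset.Icc (0 : ℤ) L` is a sum over
`x ∈ range (L+1)`, cast to `ℤ`.  Divide by `L + 1` and let `L → ∞` (`cesaro_min`, `ge_of_tendsto`).
-/

namespace Pool.Agent.Spd

open MeasureTheory Filter Topology

private theorem c15_sum (F : ℤ → ℝ) (L : ℕ) :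
    ∑ x ∈ Finset.Icc (0 : ℤ) L, F x = ∑ k ∈ Finset.range (L + 1), F (k : ℤ) := by
  have h1 : Finset.Icc (0 : ℤ) L = (Finset.range (L + 1)).image (fun k : ℕ => (k : ℤ)) := by
    ext x
    rw [Finset.mem_Icc, Finset.mem_image]
    constructor
    · rintro ⟨h2, h3⟩
      exact ⟨x.toNat, Finset.mem_range.2 (by omega), by omega⟩
    · rintro ⟨k, hk, rfl⟩
      rw [Finset.mem_range] at hk
      omega
  rw [h1, Finset.sum_image fun a _ b _ hab => by exact_mod_cast hab]

theorem eps_bound {μ : Measure HPT} [IsProbabilityMeasure μ] (hT : TransInv μ)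
    (hdeg : ∫⁻ H, (H.deg (H.M.bd 0) : ENNReal) ∂μ < ⊤) {c C lam : ℝ} (hc : 0 < c)
    (hlam : 0 < lam)
    (hiso : ∀ L : ℕ, ∃ S : Set HPT, MeasurableSet S ∧
      μ S ≤ ENNReal.ofReal (C * Real.exp (-lam * L)) ∧
      ∀ H ∉ S, ∀ K, Adm H L K → c * (K.card : ℝ) ≤ bdry H K) (n : ℕ) :
    c ^ 2 / 4 ≤ ∫ H, H.escE Set.univ n 0 ∂μ := by
  set ε : ℝ := ∫ H, H.escE Set.univ n 0 ∂μ with hε
  set η : ℕ → ℝ := fun m => ∫ H, H.hitE {j : ℤ | (m : ℤ) < |j|} n 0 ∂μ with hη
  have hη0 : Tendsto η atTop (𝓝 0) := tendsto_eta hT hdeg n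
  have key : ∀ᶠ L : ℕ in atTop, c ^ 2 / 4 ≤
      ε + (∑ x ∈ Finset.range (L + 1), η (min x (L - x))) / ((L : ℝ) + 1) := by
    filter_upwards [exp_small (C := C) hlam] with L hL
    obtain ⟨S, hS, hμS, hH⟩ := hiso L
    have hL1 : (0 : ℝ) < (L : ℝ) + 1 := by positivity
    have hS2 : μ.real S ≤ 1 / 2 := by
      refine ENNReal.toReal_le_of_le_ofReal (by norm_num) (hμS.trans ?_)
      exact ENNReal.ofReal_le_ofReal hL
    have hS3 : 1 / 2 ≤ μ.real Sᶜ := by
      rw [measureReal_compl hS, probReal_univ]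
      linarith
    have hgi : Integrable (fun H : HPT =>
        ∑ x ∈ Finset.Icc (0 : ℤ) L, H.escE (Set.Icc 0 (L : ℤ)) n x) μ :=
      integrable_finsetSum _ fun x _ => integrable_escE hT hdeg _ n x
    have h1 : μ.real Sᶜ * (c ^ 2 / 2 * ((L : ℝ) + 1)) ≤
        ∫ H, ∑ x ∈ Finset.Icc (0 : ℤ) L, H.escE (Set.Icc 0 (L : ℤ)) n x ∂μ := by
      have h2 : ∫ H, Sᶜ.indicator (fun _ => c ^ 2 / 2 * ((L : ℝ) + 1)) H ∂μ =
          μ.real Sᶜ * (c ^ 2 / 2 * ((L : ℝ) + 1)) := by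
        rw [integral_indicator_const _ hS.compl, smul_eq_mul]
      rw [← h2]
      refine integral_mono ((integrable_const _).indicator hS.compl) hgi fun H => ?_
      by_cases h3 : H ∈ Sᶜ
      · rw [Set.indicator_of_mem h3]
        exact det_bound H L hc.le (hH H h3) n
      · rw [Set.indicator_of_notMem h3]
        exact Finset.sum_nonneg fun x _ => H.escE_nonneg _ n x
    have h4 : ∫ H, ∑ x ∈ Finset.Icc (0 : ℤ) L, H.escE (Set.Icc 0 (L : ℤ)) n x ∂μ ≤
        ((L : ℝ) + 1) * ε + ∑ x ∈ Finset.range (L + 1), η (min x (L - x)) := by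
      rw [integral_finsetSum _ fun x _ => integrable_escE hT hdeg _ n x,
        c15_sum (fun x => ∫ H, H.escE (Set.Icc 0 (L : ℤ)) n x ∂μ) L]
      have h5 : ((L : ℝ) + 1) * ε = ∑ _x ∈ Finset.range (L + 1), ε := by
        rw [Finset.sum_const, Finset.card_range, nsmul_eq_mul]
        push_cast
        ring
      rw [h5, ← Finset.sum_add_distrib]
      refine Finset.sum_le_sum fun x hx => ?_
      have hxL : x ≤ L := Nat.lt_succ_iff.1 (Finset.mem_range.1 hx)
      have h6 : ∫ H, H.escE (Set.Icc 0 (L : ℤ)) n (x : ℤ) ∂μ ≤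
          ∫ H, (H.escE Set.univ n (x : ℤ) + H.hitE (Set.Icc 0 (L : ℤ))ᶜ n (x : ℤ)) ∂μ :=
        integral_mono (integrable_escE hT hdeg _ n _)
          ((integrable_escE hT hdeg _ n _).add (integrable_hitE hT hdeg _ n _))
          fun H => H.escE_compare _ n _
      rw [integral_add (integrable_escE hT hdeg _ n _) (integrable_hitE hT hdeg _ n _),
        integral_escE_univ hT] at h6
      exact h6.trans (add_le_add le_rfl (integral_hitE_le hT hdeg n L x hxL))
    have h7 : 1 / 2 * (c ^ 2 / 2 * ((L : ℝ) + 1)) ≤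
        ((L : ℝ) + 1) * ε + ∑ x ∈ Finset.range (L + 1), η (min x (L - x)) :=
      (mul_le_mul_of_nonneg_right hS3 (by positivity)).trans (h1.trans h4)
    have h8 : ε + (∑ x ∈ Finset.range (L + 1), η (min x (L - x))) / ((L : ℝ) + 1) =
        (((L : ℝ) + 1) * ε + ∑ x ∈ Finset.range (L + 1), η (min x (L - x))) / ((L : ℝ) + 1) := by
      field_simp
    rw [h8, le_div_iff₀ hL1]
    linarith
  have h9 : Tendsto (fun L : ℕ => ε + (∑ x ∈ Finset.range (L + 1), η (min x (L - x))) /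
      ((L : ℝ) + 1)) atTop (𝓝 (ε + 0)) := tendsto_const_nhds.add (cesaro_min hη0)
  rw [add_zero] at h9
  exact ge_of_tendsto h9 key

end Pool.Agent.Spd
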