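import Pool.Agent.Spd.PathReg1

/-!
(Part `PathReg2`: `not_inner_path`, `blw_path`, `pio_or_blw`, `pio_distinct`, `reg_line_nbr`, `expD_bound`.  The text below is the common header of the parts.)

# SPD A19: exploration along a path

`w` is a path of darts (`IsPath`): the position at time `n` is the origin of `w n`, and
`inv (w (n+1))` is the dart taken at time `n`.  `w 0` is an outer dart.

* `reg_succ_pio`: definition of `cmdP`, `exec_append`, `exec_star`.
* `not_inner_and_blw` (induction on `n`): `w n` is not inner in `reg n`; and `w m` is strictly below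
  `reg n` for `m < n`.  `n = 0`: `w 0 = inv (bd (-1))` is not inner in `H`.  Step: at a pioneer time
  the star of the position is explored, so `w n` is strictly below `reg (n+1)` (`star_blw` in
  `reg n`; transfer to `H`: all darts `e ~ w n` in `H` that are in `reg n` are `~` in `reg n`).
  Otherwise `w n` is not on the line, not above (`w n` not inner), so it is strictly below
  (`trich`).  Older positions: `blw_mono`.  `inv (w (n+1)) ~ w n` is strictly below, so `w (n+1)` is
  not inner in `reg (n+1)` (`adj_not_cross` with `inv (inv ..)`).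
* `reg_line_nbr`: induction with `star_line`; vertices of the line of `reg n` are vertices of `H`.
-/

namespace Pool.Agent.Spd

namespace HPT

variable {H : HPT} {w : ℕ → ℕ} {c₀ : List ℤ}

private theorem path_both (P : IsPath H w) (n : ℕ) : (¬ (reg c₀ H w n).M.Inner (w n)) ∧
    ∀ m < n, Blw H (reg c₀ H w n) (w m) := by
  induction n with
  | zero =>
    refine ⟨fun hI => ?_, fun m hm => absurd hm (Nat.not_lt_zero m)⟩
    exact (Sub.inner (reg_sub 0) hI).2 (-1) P.start
  | succ n ih =>
    obtain ⟨ih1, ih2⟩ := ih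
    have hb : Blw H (reg c₀ H w (n + 1)) (w n) := by
      by_cases h : Pio c₀ H w n
      · have hsub : Sub (regAt c₀ H w n) H := (reg_sub n).shift _
        rw [reg_succ_pio h]
        intro e' he' hD
        have h1 := star_sub (regAt c₀ H w n)
        have h2 : e' ∈ (regAt c₀ H w n).M.D := h1.memD hD
        have h3 : H.M.SameV ((regAt c₀ H w n).M.bd 0) e' :=
          H.ok.sameV_trans (regAt_bd h) he'
        have h4 : (regAt c₀ H w n).M.SameV ((regAt c₀ H w n).M.bd 0) e' :=
          (hsub.sameV ((regAt c₀ H w n).ok.bd_mem 0) e').2 ⟨h3, h2⟩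
        exact star_blw _ e' h4 hD
      · rw [reg_succ_not h]
        rcases trich (reg_sub n) (P.mem n) with h1 | h1 | h1
        · exact h1
        · exact absurd h1 h
        · exact absurd h1 (not_abv_of_not_inner ih1)
    refine ⟨fun hI => ?_, fun m hm => ?_⟩
    · have h1 := (adj_not_cross (reg_sub (n + 1)) (P.mem n) hb (P.step n)).2
      rw [H.ok.inv_inv _ (P.mem (n + 1))] at h1
      exact h1 hI
    · rcases Nat.lt_succ_iff_lt_or_eq.1 hm with h | h
      · exact blw_mono (reg_mono (Nat.le_succ n)) (ih2 m h)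
      · rw [h]
        exact hb

theorem not_inner_path (P : IsPath H w) (n : ℕ) : ¬ (reg c₀ H w n).M.Inner (w n) := by
  exact (path_both P n).1

theorem blw_path (P : IsPath H w) {m n : ℕ} (hmn : m < n) : Blw H (reg c₀ H w n) (w m) := by
  exact (path_both P n).2 m hmn

theorem pio_or_blw (P : IsPath H w) (n : ℕ) :
    Pio c₀ H w n ∨ Blw H (reg c₀ H w n) (w n) := by
  rcases trich (reg_sub n) (P.mem n) with h | h | h
  · exact Or.inr h
  · exact Or.inl h
  · exact absurd h (not_abv_of_not_inner (not_inner_path P n))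

/-- Pioneers are distinct vertices. -/
theorem pio_distinct (P : IsPath H w) {m n : ℕ} (hmn : m < n) (hn : Pio c₀ H w n) :
    ¬ H.M.SameV (w m) (w n) := by
  intro h
  have h1 : Blw H (reg c₀ H w n) (w n) := blw_sameV (reg_sub n) (P.mem m) h (blw_path P hmn)
  exact not_on_of_blw (reg_sub n) (P.mem n) h1 hn

/-- Every vertex of the line is on the line of the initial exploration or a neighbour of an earlier
pioneer. -/
theorem reg_line_nbr (P : IsPath H w) (n : ℕ) (i : ℤ) :
    (∃ j, H.M.SameV ((H.exec c₀).M.bd j) ((reg c₀ H w n).M.bd i)) ∨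
    ∃ m < n, Pio c₀ H w m ∧ ∃ x, H.M.SameV (w m) x ∧
      H.M.SameV (H.M.inv x) ((reg c₀ H w n).M.bd i) := by
  induction n generalizing i with
  | zero =>
    left
    exact ⟨i, H.ok.sameV_refl _⟩
  | succ n ih =>
    by_cases h : Pio c₀ H w n
    · have hsub : Sub (regAt c₀ H w n) H := (reg_sub n).shift _
      rw [reg_succ_pio h]
      rcases star_line (regAt c₀ H w n) i with ⟨j, hj⟩ | ⟨x, hx1, hx2⟩
      · have h1 : H.M.SameV ((regAt c₀ H w n).M.bd j) ((regAt c₀ H w n).star.M.bd i) :=
          ((hsub.sameV ((regAt c₀ H w n).ok.bd_mem j) _).1 hj).1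
        have h2 : (regAt c₀ H w n).M.bd j = (reg c₀ H w n).M.bd (j + pidx c₀ H w n) := rfl
        rw [h2] at h1
        rcases ih (j + pidx c₀ H w n) with ⟨k, hk⟩ | ⟨m, hm, hp, x, hx1, hx2⟩
        · left
          exact ⟨k, H.ok.sameV_trans hk h1⟩
        · right
          exact ⟨m, Nat.lt_succ_of_lt hm, hp, x, hx1, H.ok.sameV_trans hx2 h1⟩
      · right
        have hx0 : x ∈ (regAt c₀ H w n).M.D :=
          (regAt c₀ H w n).ok.sameV_mem ((regAt c₀ H w n).ok.bd_mem 0) hx1
        have h1 : H.M.SameV ((regAt c₀ H w n).M.bd 0) x :=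
          ((hsub.sameV ((regAt c₀ H w n).ok.bd_mem 0) _).1 hx1).1
        have h2 := ((hsub.sameV ((regAt c₀ H w n).ok.inv_mem _ hx0) _).1 hx2).1
        rw [hsub.inv_eq] at h2
        have h3 : H.M.SameV (w n) ((regAt c₀ H w n).M.bd 0) :=
          H.ok.sameV_symm (hsub.memD ((regAt c₀ H w n).ok.bd_mem 0)) (regAt_bd h)
        exact ⟨n, Nat.lt_succ_self n, h, x, H.ok.sameV_trans h3 h1, h2⟩
    · rw [reg_succ_not h]
      rcases ih i with h1 | ⟨m, hm, hp, x, hx1, hx2⟩
      · exact Or.inl h1
      · exact Or.inr ⟨m, Nat.lt_succ_of_lt hm, hp, x, hx1, hx2⟩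

open Classical in
/-- The darts counted by `expD` at different pioneers are different; at most one of them per
pioneer is an outer dart of `H`, the others are inner darts of `H` that have been removed. -/
theorem expD_bound (P : IsPath H w) (n : ℕ) :
    ∑ m ∈ (Finset.range n).filter (fun m => Pio c₀ H w m), expD c₀ H w m ≤
      ((Finset.range n).filter (fun m => Pio c₀ H w m)).card +
        Set.ncard {d | H.M.Inner d ∧ ¬ (reg c₀ H w n).M.Inner d} := by
  set F : Set ℕ := {d | H.M.Inner d ∧ ¬ (reg c₀ H w n).M.Inner d} with hF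
  have hfin : F.Finite := (reg_sub n).fin
  set A : ℕ → Finset ℕ := fun m => hfin.toFinset.filter (fun e => H.M.SameV (w m) e) with hA
  set Q := (Finset.range n).filter (fun m => Pio c₀ H w m) with hQ
  have h1 : ∀ m ∈ Q, expD c₀ H w m ≤ 1 + (A m).card := by
    intro m hm
    have hmn : m < n := Finset.mem_range.1 (Finset.mem_filter.1 hm).1
    have key : ∀ e, H.M.SameV (w m) e → e ∉ (reg c₀ H w m).M.D → H.M.Inner e → e ∈ A m := by
      intro e he1 he2 he3
      refine Finset.mem_filter.2 ⟨hfin.mem_toFinset.2 ⟨he3, fun hI => he2 ?_⟩, he1⟩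
      exact ((reg_mono hmn.le).inner hI).1
    by_cases hex : ∃ i, H.M.SameV (w m) (H.M.inv (H.M.bd i))
    · obtain ⟨i₀, hi₀⟩ := hex
      have hsub : {e | H.M.SameV (w m) e ∧ e ∉ (reg c₀ H w m).M.D} ⊆
          (↑(insert (H.M.inv (H.M.bd i₀)) (A m)) : Set ℕ) := by
        rintro e ⟨he1, he2⟩
        rw [Finset.mem_coe, Finset.mem_insert]
        rcases H.ok.inner_or_outer (H.ok.sameV_mem (P.mem m) he1) with hI | ⟨i, hi⟩
        · exact Or.inr (key e he1 he2 hI)
        · left
          rw [hi] at he1
          have e1 : H.M.SameV (w m) (H.M.bd (i + 1)) :=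
            H.ok.sameV_trans he1 (H.ok.bd_next i)
          have e2 : H.M.SameV (w m) (H.M.bd (i₀ + 1)) :=
            H.ok.sameV_trans hi₀ (H.ok.bd_next i₀)
          have e3 : H.M.SameV (H.M.bd (i + 1)) (H.M.bd (i₀ + 1)) :=
            H.ok.sameV_trans (H.ok.sameV_symm (P.mem m) e1) e2
          have e4 := H.ok.simple _ _ e3
          have e5 : i = i₀ := by omega
          rw [hi, e5]
      calc expD c₀ H w m ≤ Set.ncard (↑(insert (H.M.inv (H.M.bd i₀)) (A m)) : Set ℕ) :=
            Set.ncard_le_ncard hsub (Finset.finite_toSet _)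
        _ = (insert (H.M.inv (H.M.bd i₀)) (A m)).card := Set.ncard_coe_finset _
        _ ≤ (A m).card + 1 := Finset.card_insert_le _ _
        _ = 1 + (A m).card := add_comm _ _
    · have hsub : {e | H.M.SameV (w m) e ∧ e ∉ (reg c₀ H w m).M.D} ⊆ (↑(A m) : Set ℕ) := by
        rintro e ⟨he1, he2⟩
        rw [Finset.mem_coe]
        rcases H.ok.inner_or_outer (H.ok.sameV_mem (P.mem m) he1) with hI | ⟨i, hi⟩
        · exact key e he1 he2 hI
        · exact absurd ⟨i, hi ▸ he1⟩ hex
      calc expD c₀ H w m ≤ Set.ncard (↑(A m) : Set ℕ) :=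
            Set.ncard_le_ncard hsub (Finset.finite_toSet _)
        _ = (A m).card := Set.ncard_coe_finset _
        _ ≤ 1 + (A m).card := Nat.le_add_left _ _
  have h2 : ∑ m ∈ Q, (A m).card = (Q.biUnion A).card := by
    refine (Finset.card_biUnion ?_).symm
    intro m hm m' hm' hne
    refine Finset.disjoint_left.2 ?_
    intro e he he'
    have e1 : H.M.SameV (w m) e := (Finset.mem_filter.1 he).2
    have e2 : H.M.SameV (w m') e := (Finset.mem_filter.1 he').2
    rcases lt_or_gt_of_ne hne with hlt | hlt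
    · exact pio_distinct P hlt (Finset.mem_filter.1 hm').2
        (H.ok.sameV_trans e1 (H.ok.sameV_symm (P.mem m') e2))
    · exact pio_distinct P hlt (Finset.mem_filter.1 hm).2
        (H.ok.sameV_trans e2 (H.ok.sameV_symm (P.mem m) e1))
  have h3 : (Q.biUnion A).card ≤ Set.ncard F := by
    rw [Set.ncard_eq_toFinset_card F hfin]
    refine Finset.card_le_card (Finset.biUnion_subset.2 fun m _ => Finset.filter_subset _ _)
  calc ∑ m ∈ Q, expD c₀ H w m ≤ ∑ m ∈ Q, (1 + (A m).card) := Finset.sum_le_sum h1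
    _ = Q.card + ∑ m ∈ Q, (A m).card := by
      rw [Finset.sum_add_distrib, Finset.sum_const, smul_eq_mul, mul_one]
    _ ≤ Q.card + Set.ncard F := Nat.add_le_add le_rfl (h2 ▸ h3)

end HPT

end Pool.Agent.Spd
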