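import Pool.Agent.Spd.Unif
import Pool.Agent.Spd.PathReg

/-!
# SPD C16: first step of the walk

* `measurable_walkFrom`: induction on `n`; `walkFrom e U (n+1)` is a function of the natural numbers
  `w = walkFrom e U n` and `⌊U n * deg w⌋`; for each value `w₀` of `w` the map `U ↦ ⌊U n * deg w₀⌋` is
  measurable (`Nat.measurable_floor`, `measurable_pi_apply`, `measurable_subtype_coe`); countably many
  values (`measurable_to_countable'` or `Measurable.of_discrete` with a pair map:
  `{U | walkFrom e U (n+1) = v} = ⋃ w₀, {walkFrom e U n = w₀} ∩ {inv (rot^[⌊U n * deg w₀⌋] w₀) = v}`).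
* `unif_first`: almost surely `U 0 ≠ 1` (`unif_ne_one`), so `⌊U 0 * D⌋ < D`; up to a null set the set is
  the disjoint union over `κ < D` of `{⌊U 0 * D⌋ = κ ∧ (fun k => U (0 + 1 + k)) ∈ A κ}`, each of measure
  `1 * D⁻¹ * unif (A κ)` (`unif_choice` with `n = 0`, `E = univ`).
-/

namespace Pool.Agent.Spd

open MeasureTheory

namespace HPT

theorem measurable_walkFrom (H : HPT) (e n : ℕ) :
    Measurable (fun U : ℕ → unitInterval => H.walkFrom e U n) := by
  induction n with
  | zero => exact measurable_const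
  | succ n ih =>
    refine measurable_to_countable' fun v => ?_
    have h1 : (fun U : ℕ → unitInterval => H.walkFrom e U (n + 1)) ⁻¹' {v} =
        ⋃ w : ℕ, ((fun U : ℕ → unitInterval => H.walkFrom e U n) ⁻¹' {w} ∩
          (fun U : ℕ → unitInterval =>
            H.M.inv (H.M.rot^[⌊(U n : ℝ) * H.deg w⌋₊] w)) ⁻¹' {v}) := by
      ext U
      simp only [Set.mem_preimage, Set.mem_singleton_iff, Set.mem_iUnion, Set.mem_inter_iff]
      constructor
      · intro h
        exact ⟨_, rfl, h⟩
      · rintro ⟨w, h1, h2⟩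
        subst h1
        exact h2
    rw [h1]
    refine MeasurableSet.iUnion fun w => (ih (measurableSet_singleton w)).inter ?_
    have h2 : Measurable fun U : ℕ → unitInterval => ⌊(U n : ℝ) * H.deg w⌋₊ :=
      Nat.measurable_floor.comp
        ((measurable_subtype_coe.comp (measurable_pi_apply n)).mul_const _)
    have h3 : Measurable fun k : ℕ => H.M.inv (H.M.rot^[k] w) := measurable_from_nat
    exact (h3.comp h2) (measurableSet_singleton v)

end HPT

theorem unif_first {D : ℕ} (hD : 0 < D) {A : ℕ → Set (ℕ → unitInterval)}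
    (hA : ∀ κ, MeasurableSet (A κ)) :
    unif {U | (fun k => U (1 + k)) ∈ A ⌊(U 0 : ℝ) * D⌋₊} =
      ∑ κ ∈ Finset.range D, (D : ENNReal)⁻¹ * unif (A κ) := by
  have hDr : (0 : ℝ) < D := by exact_mod_cast hD
  have h1 : {U : ℕ → unitInterval | (fun k => U (1 + k)) ∈ A ⌊(U 0 : ℝ) * D⌋₊} =ᵐ[unif]
      (⋃ κ ∈ Finset.range D,
        {U : ℕ → unitInterval | ⌊(U 0 : ℝ) * D⌋₊ = κ ∧ (fun k => U (1 + k)) ∈ A κ} :
          Set (ℕ → unitInterval)) := by
    refine Filter.eventuallyEq_set.2 ?_
    filter_upwards [unif_ne_one 0] with U hU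
    have h2 : (U 0 : ℝ) < 1 := lt_of_le_of_ne (U 0).2.2 fun h => hU (Subtype.ext h)
    have h3 : ⌊(U 0 : ℝ) * D⌋₊ < D := by
      rw [Nat.floor_lt (mul_nonneg (U 0).2.1 hDr.le)]
      have := mul_lt_mul_of_pos_right h2 hDr
      linarith
    constructor
    · intro h
      exact Set.mem_iUnion₂.2 ⟨_, Finset.mem_range.2 h3, rfl, h⟩
    · intro h
      obtain ⟨κ, -, h4, h5⟩ := Set.mem_iUnion₂.1 h
      change (fun k => U (1 + k)) ∈ A ⌊(U 0 : ℝ) * D⌋₊
      rw [h4]
      exact h5
  rw [measure_congr h1, measure_biUnion_finset]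
  · refine Finset.sum_congr rfl fun κ hκ => ?_
    have h2 := unif_choice 0 (Finset.mem_range.1 hκ) (E := Set.univ) MeasurableSet.univ
      (fun _ _ _ => Iff.rfl) (hA κ)
    rw [measure_univ, one_mul] at h2
    rw [← h2]
    congr 1
    ext U
    constructor
    · rintro ⟨h3, h4⟩
      refine ⟨Set.mem_univ _, h3, ?_⟩
      simpa only [zero_add] using h4
    · rintro ⟨-, h3, h4⟩
      refine ⟨h3, ?_⟩
      simpa only [zero_add] using h4
  · intro κ _ κ' _ hne
    refine Set.disjoint_left.2 ?_
    rintro U ⟨h3, -⟩ ⟨h4, -⟩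
    exact hne (h3.symm.trans h4)
  · intro κ _
    have h2 : Measurable fun U : ℕ → unitInterval => ⌊(U 0 : ℝ) * D⌋₊ :=
      Nat.measurable_floor.comp
        ((measurable_subtype_coe.comp (measurable_pi_apply 0)).mul_const _)
    exact (h2 (measurableSet_singleton κ)).inter
      ((hA κ).preimage (measurable_pi_iff.2 fun j => measurable_pi_apply (1 + j)))

end Pool.Agent.Spd
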