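import Pool.Agent.Spd.C16
import Pool.Agent.Spd.C03

/-!
# SPD C17: the walk avoids the boundary up to time `n` with probability `1 - hit univ n`

Induction on `n`, generalizing `e`.

`n = 0`: the set is everything if `e` is not on the boundary (`hit = 0`), empty otherwise (`hit = 1`).

Step, `e` on the boundary: the set is empty (`m = 0`) and `hit univ (n+1) e = 1` (`hit_on`).

Step, `e` not on the boundary: `walkFrom e U (1 + m) = walkFrom (inv (rot^[⌊U 0 * deg e⌋] e)) (fun k => U (1 + k)) m`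
(`walkFrom_add` with first time `1`; `walkFrom e U 1` is by definition `inv (rot^[⌊U 0 * deg e⌋] e)`).  So the
set is `{U | (fun k => U (1 + k)) ∈ A ⌊U 0 * deg e⌋}` with
`A κ = {V | ∀ m ≤ n, ¬ ∃ i, SameV (bd i) (walkFrom (inv (rot^[κ] e)) V m)}` (measurable:
`measurable_walkFrom`, countable intersections, all subsets of `ℕ` are measurable).  `unif_first`
(`deg_pos`), the induction hypothesis (`inv (rot^[κ] e) ∈ D`), and
`∑_{κ < deg e} (1/deg e) (1 - hit univ n (..)) = 1 - hit univ (n+1) e` (`hit_succ_off`), written with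
`ENNReal.ofReal` (all numbers are nonnegative: `hit_le_one`; `ENNReal.ofReal_sum_of_nonneg`,
`ENNReal.ofReal_mul`, `ENNReal.ofReal_inv_of_pos`).
-/

namespace Pool.Agent.Spd

open MeasureTheory

namespace HPT

theorem measurableSet_noHit (H : HPT) (e n : ℕ) :
    MeasurableSet {U : ℕ → unitInterval |
      ∀ m ≤ n, ¬ ∃ i, H.M.SameV (H.M.bd i) (H.walkFrom e U m)} := by
  have h1 : {U : ℕ → unitInterval |
      ∀ m ≤ n, ¬ ∃ i, H.M.SameV (H.M.bd i) (H.walkFrom e U m)} =
      ⋂ m : ℕ, ⋂ _ : m ≤ n, (fun U : ℕ → unitInterval => H.walkFrom e U m) ⁻¹'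
        {x | ¬ ∃ i, H.M.SameV (H.M.bd i) x} := by
    ext U
    simp only [Set.mem_iInter, Set.mem_preimage, Set.mem_ofPred_eq]
  rw [h1]
  exact MeasurableSet.iInter fun m => MeasurableSet.iInter fun _ =>
    measurable_walkFrom H e m (MeasurableSet.of_discrete)

theorem noHit_law (H : HPT) (n : ℕ) {e : ℕ} (he : e ∈ H.M.D) :
    unif {U | ∀ m ≤ n, ¬ ∃ i, H.M.SameV (H.M.bd i) (H.walkFrom e U m)} =
      ENNReal.ofReal (1 - H.hit Set.univ n e) := by
  have hp : IsProbabilityMeasure unif := by
    unfold unif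
    infer_instance
  have hiff : ∀ x, (∃ j ∈ (Set.univ : Set ℤ), H.M.SameV (H.M.bd j) x) ↔
      ∃ i, H.M.SameV (H.M.bd i) x := fun x => by simp
  have hon : ∀ (n e : ℕ), (∃ i, H.M.SameV (H.M.bd i) e) →
      unif {U | ∀ m ≤ n, ¬ ∃ i, H.M.SameV (H.M.bd i) (H.walkFrom e U m)} =
        ENNReal.ofReal (1 - H.hit Set.univ n e) := by
    intro n e h
    rw [hit_on ((hiff e).2 h), sub_self, ENNReal.ofReal_zero]
    have h1 : {U : ℕ → unitInterval |
        ∀ m ≤ n, ¬ ∃ i, H.M.SameV (H.M.bd i) (H.walkFrom e U m)} = ∅ := by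
      ext U
      simp only [Set.mem_ofPred_eq, Set.mem_empty_iff_false, iff_false]
      exact fun h2 => h2 0 (Nat.zero_le n) h
    rw [h1, measure_empty]
  induction n generalizing e with
  | zero =>
    by_cases h : ∃ i, H.M.SameV (H.M.bd i) e
    · exact hon 0 e h
    · rw [hit_zero_off (fun h1 => h ((hiff e).1 h1)), sub_zero, ENNReal.ofReal_one]
      have h1 : {U : ℕ → unitInterval |
          ∀ m ≤ 0, ¬ ∃ i, H.M.SameV (H.M.bd i) (H.walkFrom e U m)} = Set.univ := by
        ext U
        simp only [Set.mem_ofPred_eq, Set.mem_univ, iff_true]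
        intro m hm
        obtain rfl : m = 0 := Nat.le_zero.1 hm
        exact h
      rw [h1, measure_univ]
  | succ n ih =>
    by_cases h : ∃ i, H.M.SameV (H.M.bd i) e
    · exact hon (n + 1) e h
    · set A : ℕ → Set (ℕ → unitInterval) := fun κ =>
        {V | ∀ m ≤ n, ¬ ∃ i, H.M.SameV (H.M.bd i)
          (H.walkFrom (H.M.inv (H.M.rot^[κ] e)) V m)} with hA
      have h1 : {U : ℕ → unitInterval |
          ∀ m ≤ n + 1, ¬ ∃ i, H.M.SameV (H.M.bd i) (H.walkFrom e U m)} =
          {U | (fun k => U (1 + k)) ∈ A ⌊(U 0 : ℝ) * H.deg e⌋₊} := by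
        ext U
        have hw : ∀ m, H.walkFrom e U (1 + m) =
            H.walkFrom (H.M.inv (H.M.rot^[⌊(U 0 : ℝ) * H.deg e⌋₊] e)) (fun k => U (1 + k)) m :=
          fun m => H.walkFrom_add e U 1 m
        simp only [hA, Set.mem_ofPred_eq]
        constructor
        · intro h2 m hm
          rw [← hw]
          exact h2 (1 + m) (by omega)
        · intro h2 m hm
          rcases Nat.eq_zero_or_pos m with rfl | hm0
          · exact h
          · obtain ⟨m', rfl⟩ : ∃ m', m = 1 + m' := ⟨m - 1, by omega⟩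
            rw [hw]
            exact h2 m' (by omega)
      have hd := H.deg_pos he
      have hd' : (0 : ℝ) < H.deg e := by exact_mod_cast hd
      rw [h1, unif_first hd (A := A) (fun κ => measurableSet_noHit H _ n),
        hit_succ_off (fun h1 => h ((hiff e).1 h1))]
      have h3 : ∀ κ ∈ Finset.range (H.deg e), ((H.deg e : ℕ) : ENNReal)⁻¹ * unif (A κ) =
          ENNReal.ofReal ((H.deg e : ℝ)⁻¹ *
            (1 - H.hit Set.univ n (H.M.inv (H.M.rot^[κ] e)))) := by
        intro κ _
        rw [hA, ih (H.ok.inv_mem _ (H.ok.iter_mem he κ)), ENNReal.ofReal_mul (by positivity),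
          ENNReal.ofReal_inv_of_pos hd', ENNReal.ofReal_natCast]
      rw [Finset.sum_congr rfl h3, ← ENNReal.ofReal_sum_of_nonneg]
      · congr 1
        rw [← Finset.mul_sum, Finset.sum_sub_distrib]
        simp only [Finset.sum_const, Finset.card_range, nsmul_eq_mul, mul_one]
        field_simp
      · intro κ _
        have := H.hit_le_one Set.univ n (H.M.inv (H.M.rot^[κ] e))
        exact mul_nonneg (by positivity) (by linarith)

end HPT

end Pool.Agent.Spd
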