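import Pool.Agent.Spd.C17

/-!
# SPD C18: the escape probability for a fixed map

Let `b = inv (bd (-1))`; `SameV (bd 0) b` (`bd_prev`), so `deg b = deg (bd 0)` (`deg_sameV`).  For
`κ < deg (bd 0)` put `e = inv (rot^[κ] b) ∈ D`.  By definition `walkK κ U (m+1) = walkFrom e U m`, so
`{U | Esc κ U} = ⋂ n, {U | ∀ m ≤ n, ¬ ∃ i, SameV (bd i) (walkFrom e U m)}`, a decreasing
intersection of measurable sets of a probability measure; its measure is the infimum (limit) of
`ENNReal.ofReal (1 - hit univ n e)` (`noHit_law`; `Antitone.measure_iInter` or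
`tendsto_measure_iInter_atTop`).  So both sides of the claim are limits of
`∑_{κ < deg (bd 0)} ENNReal.ofReal (1 - hit univ n (inv (rot^[κ] b)))`
(`tendsto_finset_sum`, `tendsto_atTop_iInf` for the antitone right side: `escE_anti`), which is
`ENNReal.ofReal (escE univ n 0)` (`ENNReal.ofReal_sum_of_nonneg`, and `sum_orbit` for
`g y = 1 - hit univ n (inv y)`, `e = bd 0`, `f = b`).
-/

namespace Pool.Agent.Spd

open MeasureTheory

namespace HPT

theorem esc_sum (H : HPT) :
    ∑ κ ∈ Finset.range (H.deg (H.M.bd 0)), unif {U | H.Esc κ U} =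
      ⨅ n : ℕ, ENNReal.ofReal (H.escE Set.univ n 0) := by
  have hbD : H.M.inv (H.M.bd (-1)) ∈ H.M.D := H.ok.inv_mem _ (H.ok.bd_mem _)
  have hb : H.M.SameV (H.M.bd 0) (H.M.inv (H.M.bd (-1))) := by
    have h := H.ok.bd_prev 0
    rwa [zero_sub] at h
  have hdeg : H.deg (H.M.inv (H.M.bd (-1))) = H.deg (H.M.bd 0) :=
    H.deg_sameV (H.ok.bd_mem 0) hb
  have heD : ∀ κ : ℕ, H.M.inv (H.M.rot^[κ] (H.M.inv (H.M.bd (-1)))) ∈ H.M.D := fun κ =>
    H.ok.inv_mem _ (H.ok.iter_mem hbD κ)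
  -- the escape event is a decreasing intersection
  have hlim : ∀ κ ∈ Finset.range (H.deg (H.M.bd 0)),
      Filter.Tendsto (fun n : ℕ => ENNReal.ofReal
        (1 - H.hit Set.univ n (H.M.inv (H.M.rot^[κ] (H.M.inv (H.M.bd (-1)))))))
        Filter.atTop (nhds (unif {U | H.Esc κ U})) := by
    intro κ hκ
    rw [Finset.mem_range] at hκ
    have hset : {U | H.Esc κ U} = ⋂ n : ℕ, {U : ℕ → unitInterval | ∀ m ≤ n,
        ¬ ∃ i, H.M.SameV (H.M.bd i)
          (H.walkFrom (H.M.inv (H.M.rot^[κ] (H.M.inv (H.M.bd (-1))))) U m)} := by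
      ext U
      rw [Set.mem_iInter]
      constructor
      · rintro ⟨-, h⟩ n m - ⟨i, hi⟩
        exact h m i hi
      · intro h
        exact ⟨hκ, fun n i hi => h n n le_rfl ⟨i, hi⟩⟩
    rw [hset]
    have h1 := tendsto_measure_iInter_atTop (μ := unif)
      (s := fun n : ℕ => {U : ℕ → unitInterval | ∀ m ≤ n, ¬ ∃ i, H.M.SameV (H.M.bd i)
        (H.walkFrom (H.M.inv (H.M.rot^[κ] (H.M.inv (H.M.bd (-1))))) U m)})
      (fun n => (H.measurableSet_noHit _ n).nullMeasurableSet)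
      (fun n n' hn U hU m hm => hU m (hm.trans hn)) ⟨0, measure_ne_top _ _⟩
    refine h1.congr fun n => ?_
    exact H.noHit_law n (heD κ)
  have h1 := tendsto_finsetSum (Finset.range (H.deg (H.M.bd 0))) hlim
  have h2 : Filter.Tendsto (fun n : ℕ => ENNReal.ofReal (H.escE Set.univ n 0)) Filter.atTop
      (nhds (⨅ n : ℕ, ENNReal.ofReal (H.escE Set.univ n 0))) :=
    tendsto_atTop_iInf fun n n' hn => ENNReal.ofReal_le_ofReal (escE_anti H _ hn 0)
  refine tendsto_nhds_unique (h1.congr fun n => ?_) h2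
  rw [← ENNReal.ofReal_sum_of_nonneg fun κ _ => by
    have := H.hit_le_one Set.univ n (H.M.inv (H.M.rot^[κ] (H.M.inv (H.M.bd (-1)))))
    linarith]
  congr 1
  have h3 := H.sum_orbit (H.ok.bd_mem 0) hb (fun y => 1 - H.hit Set.univ n (H.M.inv y))
  rw [hdeg] at h3
  exact h3

end HPT

end Pool.Agent.Spd
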