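import Pool.Agent.Spd.C15
import Pool.Agent.Spd.C18

/-!
# SPD C20: the walk leaves the boundary for ever with positive probability

`escMass μ = ∫⁻ ⨅ n, ofReal (escE univ n 0) = ⨅ n, ∫⁻ ofReal (escE univ n 0)` (`esc_sum`,
`lintegral_iInf`: the functions are measurable and antitone in `n` (`escE_anti`), the first one has finite
integral, since `escE ≤ deg`, or since it is integrable) and
`∫⁻ ofReal (escE univ n 0) = ofReal (∫ escE univ n 0) ≥ ofReal (c² / 4)`
(`ofReal_integral_eq_lintegral_ofReal`, `integrable_escE`, `escE_nonneg`, `eps_bound`).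
-/

namespace Pool.Agent.Spd

open MeasureTheory

theorem escMass_ge {μ : Measure HPT} [IsProbabilityMeasure μ] (hT : TransInv μ)
    (hdeg : ∫⁻ H, (H.deg (H.M.bd 0) : ENNReal) ∂μ < ⊤) {c C lam : ℝ} (hc : 0 < c)
    (hlam : 0 < lam)
    (hiso : ∀ L : ℕ, ∃ S : Set HPT, MeasurableSet S ∧
      μ S ≤ ENNReal.ofReal (C * Real.exp (-lam * L)) ∧
      ∀ H ∉ S, ∀ K, Adm H L K → c * (K.card : ℝ) ≤ bdry H K) :
    ENNReal.ofReal (c ^ 2 / 4) ≤ escMass μ := by
  have hint : ∀ n : ℕ, Integrable (fun H : HPT => H.escE Set.univ n 0) μ :=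
    fun n => integrable_escE hT hdeg Set.univ n 0
  have hle : ∀ n : ℕ, ENNReal.ofReal (c ^ 2 / 4) ≤
      ∫⁻ H : HPT, ENNReal.ofReal (H.escE Set.univ n 0) ∂μ := by
    intro n
    rw [← ofReal_integral_eq_lintegral_ofReal (hint n)
      (Filter.Eventually.of_forall fun H => HPT.escE_nonneg H Set.univ n 0)]
    exact ENNReal.ofReal_le_ofReal (eps_bound hT hdeg hc hlam hiso n)
  have hanti : Antitone (fun (n : ℕ) (H : HPT) => ENNReal.ofReal (H.escE Set.univ n 0)) :=
    fun m n hmn H => ENNReal.ofReal_le_ofReal (HPT.escE_anti H Set.univ hmn 0)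
  have h1 : escMass μ = ⨅ n : ℕ, ∫⁻ H : HPT, ENNReal.ofReal (H.escE Set.univ n 0) ∂μ := by
    unfold escMass
    simp only [HPT.esc_sum]
    refine lintegral_iInf' (fun n => ((hint n).aemeasurable).ennreal_ofReal)
      (Filter.Eventually.of_forall fun H m n hmn => hanti hmn H) ?_
    exact (ofReal_integral_eq_lintegral_ofReal (hint 0)
      (Filter.Eventually.of_forall fun H => HPT.escE_nonneg H Set.univ 0 0)) ▸
        ENNReal.ofReal_ne_top
  rw [h1]
  exact le_iInf hle

end Pool.Agent.Spd
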