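import Pool.Agent.Spd.Chord1

/-!
(Part `Chord2`: `chord_cutting`, `chord_below`.  The text below is the common header of the parts.)

# SPD A09: cutting along a chord of the boundary

`g` is a dart from `v_q` to `v_p`, `p < q = p + k`.  The polygon is
`cs = [bd p, ..., bd (q-1), g]`.

* `chord_poly`: `bd_next` for the consecutive boundary darts, the hypotheses for `g`; origins
  `v_p, ..., v_q` are distinct (`simple`).
* `chord_bounds`: `F` from `polyFill`.  If `inv g ∈ cs` then (`poly_inv`) `k = 1`, `g = inv (bd p)`;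
  `F = ∅` (`closed_empty`), and `Bounds` holds trivially.  Otherwise: `bd i`, `p ≤ i < q`, is in
  `F` because exactly one of `bd i`, `inv (bd i)` is and `inv (bd i)` is outer.  CLAIM `inv g ∉ F`.
  Use `HPT.rotation_between` at the vertex `v_p` with `u = bd p`, `v = inv g` (`u ≠ v`, else
  `g = inv (bd p)`): the only darts `z` at `v_p` such that exactly one of `z`, `inv z` is in `F` are
  the `z` with exactly one of `z, inv z` in `cs`: `z ∈ cs` with origin `v_p` is `bd p`
  (`poly_eq_of_sameV`); `inv z ∈ cs`: `inv z = bd i`, `z = inv (bd i)` has origin `v_{i+1}`, so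
  `i + 1 = p`, impossible; `inv z = g`: `z = inv g`.  `rot (bd p) = fc (inv (bd p))` is outer, so
  not in `F`; hence `inv g ∉ F`, `g ∈ F`.  So the oriented boundary of `F` is `cs`.
* `chord_cutting`: let `d` be inner, not in `F`, and `inv d` not inner or `inv d ∈ F`.  If `inv d`
  is outer then `d = bd i`; if `p ≤ i < q` then (nondegenerate case) `bd i ∈ cs` is in `F`,
  excluded; in the degenerate case `i = p` and `bd p = inv g` is the line dart.  If `inv d ∈ F`,
  `d ∉ F` then `inv d ∈ cs`, `d` is inner so `inv d ≠ bd i`, so `inv d = g`.  `inv g` is inner: if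
  `inv g = inv (bd j)` then `g = bd j`, origin `v_q`, target `v_{q+1} = v_p`, impossible.
* `chord_bd_mem`: boundary darts in `F`.
-/

namespace Pool.Agent.Spd

variable {M : PreMap}

private theorem line_lt {p : ℤ} {k g : ℕ} {i : ℤ} (hi : i < p) :
    chordLine M p k g i = M.bd i := if_pos hi

private theorem line_eq {p : ℤ} {k g : ℕ} : chordLine M p k g p = M.inv g := by
  unfold chordLine
  rw [if_neg (lt_irrefl p), if_pos rfl]

private theorem line_gt {p : ℤ} {k g : ℕ} {i : ℤ} (hi : p < i) :
    chordLine M p k g i = M.bd (i + k - 1) := by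
  unfold chordLine
  rw [if_neg (not_lt.2 hi.le), if_neg hi.ne']

private theorem inner_inv_g (h : M.IsHPT) {p : ℤ} {k : ℕ} (hk : 0 < k) {g : ℕ}
    (h1 : M.SameV (M.bd (p + k)) g) (h2 : M.SameV (M.bd p) (M.inv g)) (hg : g ∈ M.D) :
    M.Inner (M.inv g) := by
  refine ⟨h.inv_mem g hg, fun j hj => ?_⟩
  have h3 : g = M.bd j := by
    have := congrArg M.inv hj
    rwa [h.inv_inv g hg, h.inv_inv _ (h.bd_mem j)] at this
  have h4 : p + k = j := h.simple _ _ (h3 ▸ h1)
  have h5 : M.SameV (M.bd p) (M.bd (j + 1)) := by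
    rw [hj] at h2
    exact h.sameV_trans h2 (h.bd_next j)
  have h6 := h.simple _ _ h5
  omega

private theorem not_inner_inv_bd {i : ℤ} : ¬ M.Inner (M.inv (M.bd i)) := fun h => h.2 i rfl

private theorem line_org (h : M.IsHPT) {p : ℤ} {k : ℕ} {g : ℕ}
    (h2 : M.SameV (M.bd p) (M.inv g)) (i : ℤ) :
    M.SameV (M.bd (if i ≤ p then i else i + k - 1)) (chordLine M p k g i) := by
  rcases lt_trichotomy i p with hi | hi | hi
  · rw [if_pos hi.le, line_lt hi]
    exact h.sameV_refl _
  · subst hi
    rw [if_pos le_rfl, line_eq]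
    exact h2
  · rw [if_neg (not_le.2 hi), line_gt hi]
    exact h.sameV_refl _

theorem chord_cutting (h : M.IsHPT) {p : ℤ} {k : ℕ} (hk : 0 < k) {g : ℕ}
    (h1 : M.SameV (M.bd (p + k)) g) (h2 : M.SameV (M.bd p) (M.inv g)) (hg : g ∈ M.D)
    {F : Finset ℕ} (B : Bounds M (chordList M p k g) F) :
    Cutting M {d | M.Inner d ∧ d ∉ F} (chordLine M p k g) := by
  have hi := inner_inv_g h hk h1 h2 hg
  have hgF := chord_g h hk h1 h2 hg B
  have hbd := chord_bd_mem h hk h1 h2 hg B
  have hig := h.inv_inv g hg
  refine ⟨fun d hd => hd.1, ?_, ?_, ?_, ?_, ?_, ?_⟩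
  · intro d hd
    refine ⟨h.fc_inner d hd.1, fun hf => hd.2 ?_⟩
    have := (h.fc_mem_iff (G := (F : Set ℕ)) (fun d hd => B.1 d hd) hd.1.1).1 hf
    exact this
  · intro i
    rcases lt_trichotomy i p with hip | hip | hip
    · rw [line_lt hip]
      refine ⟨h.bd_inner i, fun hf => ?_⟩
      have := (hbd i).1 hf
      omega
    · rw [hip, line_eq]
      exact ⟨hi, hgF.1⟩
    · rw [line_gt hip]
      refine ⟨h.bd_inner _, fun hf => ?_⟩
      have := (hbd _).1 hf
      omega
  · intro i hR
    rcases lt_trichotomy i p with hip | hip | hip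
    · rw [line_lt hip] at hR
      exact not_inner_inv_bd hR.1
    · rw [hip, line_eq, hig] at hR
      rcases hgF.2 with h3 | ⟨-, h3, -⟩
      · exact hR.2 h3
      · have h4 : g = M.inv (M.bd p) := by rw [← h3, hig]
        exact hR.1.2 p h4
    · rw [line_gt hip] at hR
      exact not_inner_inv_bd hR.1
  · intro d hd
    by_cases h3 : M.Inner (M.inv d)
    · by_cases h4 : M.inv d ∈ F
      · right
        have h5 : M.inv (M.inv d) = d := h.inv_inv d hd.1.1
        have h6 := (B.2 (M.inv d) h3.1).1 ⟨h4, by rw [h5]; exact hd.2⟩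
        have h7 := h6.1
        unfold chordList at h7
        rw [List.mem_append, List.mem_map, List.mem_singleton] at h7
        rcases h7 with ⟨j, -, hj⟩ | h7
        · exfalso
          have h8 : d = M.inv (M.bd (p + j)) := by rw [hj, h5]
          exact hd.1.2 _ h8
        · refine ⟨p, ?_⟩
          rw [line_eq, ← h7, h5]
      · exact Or.inl ⟨h3, h4⟩
    · right
      rcases h.inner_or_outer (h.inv_mem d hd.1.1) with h4 | ⟨i, hi'⟩
      · exact absurd h4 h3
      · have h5 : d = M.bd i := by
          have := congrArg M.inv hi'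
          rwa [h.inv_inv d hd.1.1, h.inv_inv _ (h.bd_mem i)] at this
        rcases lt_or_ge i p with h6 | h6
        · exact ⟨i, by rw [line_lt h6, h5]⟩
        · rcases lt_or_ge i (p + k) with h7 | h7
          · have h8 : M.inv g = M.bd p := by
              by_contra h9
              exact hd.2 (h5 ▸ (hbd i).2 ⟨h6, h7, h9⟩)
            have h9 : k = 1 := by
              rcases hgF.2 with h10 | ⟨h10, -, -⟩
              · exfalso
                have h11 : g = M.inv (M.bd p) := by rw [← h8, hig]
                exact (B.1 g h10).1.2 p h11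
              · exact h10
            have h10 : i = p := by omega
            exact ⟨p, by rw [line_eq, h8, h5, h10]⟩
          · refine ⟨i - k + 1, ?_⟩
            rw [line_gt (by omega), h5]
            congr 1
            omega
  · intro i
    rcases lt_trichotomy (i + 1) p with hip | hip | hip
    · rw [line_lt hip, line_lt (by omega)]
      exact h.bd_next i
    · rw [hip, line_eq, line_lt (by omega)]
      have := h.bd_next i
      rw [hip] at this
      exact h.sameV_trans this h2
    · rw [line_gt hip]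
      rcases lt_or_ge p i with h3 | h3
      · rw [line_gt h3]
        have := h.bd_next (i + k - 1)
        rw [show i + (k : ℤ) - 1 + 1 = i + 1 + k - 1 by ring] at this
        exact this
      · have h4 : i = p := by omega
        rw [h4, line_eq, hig, show p + 1 + (k : ℤ) - 1 = p + k by ring]
        exact h.sameV_symm (h.bd_mem _) h1
  · intro i j hij
    have h3 := line_org h (k := k) h2 i
    have h4 := line_org h (k := k) h2 j
    have h5 := h.simple _ _ (h.sameV_trans (h.sameV_trans h3 hij) (h.sameV_symm (h.bd_mem _) h4))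
    split_ifs at h5 <;> omega

/-- The inner vertices of the line that is cut off are strictly below: no dart at `v_i`,
`p < i < p + k`, remains. -/
theorem chord_below (h : M.IsHPT) {p : ℤ} {k : ℕ} (hk : 0 < k) {g : ℕ}
    (h1 : M.SameV (M.bd (p + k)) g) (h2 : M.SameV (M.bd p) (M.inv g)) (hg : g ∈ M.D)
    {F : Finset ℕ} (B : Bounds M (chordList M p k g) F) {i : ℤ} (hi : p < i) (hi' : i < p + k)
    {x : ℕ} (hx : M.SameV (M.bd i) x) :
    x ∉ (M.cut {d | M.Inner d ∧ d ∉ F} (chordLine M p k g)).D := by
  have C := chord_cutting h hk h1 h2 hg B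
  have hline : ∀ j : ℤ, ¬ M.SameV (M.bd i) (chordLine M p k g j) := by
    intro j hj
    have h3 := line_org h (k := k) h2 j
    have h4 := h.simple _ _ (h.sameV_trans hj (h.sameV_symm (h.bd_mem _) h3))
    split_ifs at h4 <;> omega
  have hno : ∀ z, M.SameV (M.bd i) z → (z ∈ {d | M.Inner d ∧ d ∉ F} ↔
      M.inv z ∈ {d | M.Inner d ∧ d ∉ F}) := by
    intro z hz
    have hzD := h.sameV_mem (h.bd_mem i) hz
    constructor
    · intro h3
      rcases C.only z h3 with h4 | ⟨j, h4⟩
      · exact h4
      · exact absurd (h4 ▸ hz) (hline j)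
    · intro h3
      rcases C.only _ h3 with h4 | ⟨j, h4⟩
      · rwa [h.inv_inv z hzD] at h4
      · exfalso
        have h5 := C.path j
        rw [← h4, h.inv_inv z hzD] at h5
        exact hline (j + 1) (h.sameV_trans hz h5)
  have hG : ∀ d ∈ {d | M.Inner d ∧ d ∉ F}, M.Inner d ∧ M.fc d ∈ {d | M.Inner d ∧ d ∉ F} :=
    fun d hd => ⟨hd.1, C.fc_mem d hd⟩
  have hout : M.bd i ∉ {d | M.Inner d ∧ d ∉ F} := by
    intro h3
    have h4 := (h.status_const hG (h.bd_mem i) (h.bd_prev i) hno).1 h3
    exact not_inner_inv_bd h4.1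
  have hxR : x ∉ {d | M.Inner d ∧ d ∉ F} := fun h3 =>
    hout ((h.status_const hG (h.bd_mem i) hx hno).2 h3)
  rintro ⟨-, h3 | h3⟩
  · exact hxR h3
  · exact hxR ((hno x hx).2 h3)

end Pool.Agent.Spd
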