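import Pool.Agent.Spd.Poly

/-!
(Part `Chord1`: `chordList`, `chordLine`, `chord_poly`, `chord_bounds`, `chord_g`, `chord_bd_mem`.  The text below is the common header of the parts.)

# SPD A09: cutting along a chord of the boundary

`g` is a dart from `v_q` to `v_p`, `p < q = p + k`.  The polygon is
`cs = [bd p, ..., bd (q-1), g]`.

* `chord_poly`: `bd_next` for the consecutive boundary darts, the hypotheses for `g`; origins
  `v_p, ..., v_q` are distinct (`simple`).
* `chord_bounds`: `F` from `polyFill`.  If `inv g ∈ cs` then (`poly_inv`) `k = 1`, `g = inv (bd p)`;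
  `F = ∅` (`closed_empty`), and `Bounds` holds trivially.  Otherwise: `bd i`, `p ≤ i < q`, is in
  `F` because exactly one of `bd i`, `inv (bd i)` is and `inv (bd i)` is outer.  CLAIM `inv g ∉ F`.
  Use `HPT.rotation_between` at the vertex `v_p` with `u = bd p`, `v = inv g` (`u ≠ v`, else
  `g = inv (bd p)`): the only darts `z` at `v_p` such that exactly one of `z`, `inv z` is in `F` are
  the `z` with exactly one of `z, inv z` in `cs`: `z ∈ cs` with origin `v_p` is `bd p`
  (`poly_eq_of_sameV`); `inv z ∈ cs`: `inv z = bd i`, `z = inv (bd i)` has origin `v_{i+1}`, so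
  `i + 1 = p`, impossible; `inv z = g`: `z = inv g`.  `rot (bd p) = fc (inv (bd p))` is outer, so
  not in `F`; hence `inv g ∉ F`, `g ∈ F`.  So the oriented boundary of `F` is `cs`.
* `chord_cutting`: let `d` be inner, not in `F`, and `inv d` not inner or `inv d ∈ F`.  If `inv d`
  is outer then `d = bd i`; if `p ≤ i < q` then (nondegenerate case) `bd i ∈ cs` is in `F`,
  excluded; in the degenerate case `i = p` and `bd p = inv g` is the line dart.  If `inv d ∈ F`,
  `d ∉ F` then `inv d ∈ cs`, `d` is inner so `inv d ≠ bd i`, so `inv d = g`.  `inv g` is inner: if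
  `inv g = inv (bd j)` then `g = bd j`, origin `v_q`, target `v_{q+1} = v_p`, impossible.
* `chord_bd_mem`: boundary darts in `F`.
-/

namespace Pool.Agent.Spd

variable {M : PreMap}

/-- The polygon cut off by a chord. -/
def chordList (M : PreMap) (p : ℤ) (k : ℕ) (g : ℕ) : List ℕ :=
  (List.range k).map (fun j : ℕ => M.bd (p + j)) ++ [g]

/-- The line after cutting along the chord. -/
def chordLine (M : PreMap) (p : ℤ) (k : ℕ) (g : ℕ) : ℤ → ℕ := fun i =>
  if i < p then M.bd i else if i = p then M.inv g else M.bd (i + k - 1)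

private theorem chord_mem {p : ℤ} {k : ℕ} {g d : ℕ} :
    d ∈ chordList M p k g ↔ (∃ i, p ≤ i ∧ i < p + k ∧ d = M.bd i) ∨ d = g := by
  unfold chordList
  rw [List.mem_append, List.mem_map, List.mem_singleton]
  constructor
  · rintro (⟨j, hj, rfl⟩ | rfl)
    · rw [List.mem_range] at hj
      exact Or.inl ⟨p + j, by omega, by omega, rfl⟩
    · exact Or.inr rfl
  · rintro (⟨i, h1, h2, rfl⟩ | rfl)
    · refine Or.inl ⟨(i - p).toNat, ?_, ?_⟩
      · rw [List.mem_range]
        omega
      · have h3 : p + ((i - p).toNat : ℤ) = i := by omega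
        rw [h3]
    · exact Or.inr rfl

theorem chord_poly (h : M.IsHPT) {p : ℤ} {k : ℕ} (hk : 0 < k) {g : ℕ}
    (h1 : M.SameV (M.bd (p + k)) g) (h2 : M.SameV (M.bd p) (M.inv g)) (hg : g ∈ M.D) :
    Poly M (chordList M p k g) := by
  have hlen : (chordList M p k g).length = k + 1 := by
    simp [chordList]
  refine ⟨by omega, ?_, ?_, ?_⟩
  · intro d hd
    rcases chord_mem.1 hd with ⟨i, -, -, rfl⟩ | rfl
    · exact h.bd_mem i
    · exact hg
  · have htake : (chordList M p k g).take 1 = [M.bd p] := by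
      obtain ⟨m, rfl⟩ := Nat.exists_eq_succ_of_ne_zero hk.ne'
      simp [chordList, List.range_succ_eq_map]
    rw [htake]
    have hL : ∀ i (hi : i < (chordList M p k g ++ [M.bd p]).length),
        (chordList M p k g ++ [M.bd p])[i] =
          if i < k then M.bd (p + i) else if i = k then g else M.bd p := by
      intro i hi
      rw [List.length_append, hlen, List.length_singleton] at hi
      split_ifs with h3 h4
      · rw [List.getElem_append_left (by omega)]
        simp only [chordList]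
        rw [List.getElem_append_left (by simpa using h3), List.getElem_map, List.getElem_range]
      · subst h4
        rw [List.getElem_append_left (by omega)]
        simp only [chordList]
        rw [List.getElem_append_right (by simp)]
        simp
      · rw [List.getElem_append_right (by omega)]
        simp
    rw [List.isChain_iff_getElem]
    intro i hi
    rw [List.length_append, hlen, List.length_singleton] at hi
    rw [hL i, hL (i + 1)]
    rcases Nat.lt_trichotomy (i + 1) k with h3 | h3 | h3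
    · rw [if_pos (by omega), if_pos h3]
      have h4 := h.bd_next (p + i)
      have h5 : p + (i : ℤ) + 1 = p + ((i + 1 : ℕ) : ℤ) := by push_cast; ring
      rwa [h5] at h4
    · rw [if_pos (by omega), if_neg (by omega), if_pos h3]
      have h4 := h.bd_next (p + i)
      have h5 : p + (i : ℤ) + 1 = p + (k : ℤ) := by
        rw [← h3]
        push_cast
        ring
      rw [h5] at h4
      exact h.sameV_trans h4 h1
    · have h4 : i = k := by omega
      subst h4
      rw [if_neg (by omega), if_pos rfl, if_neg (by omega), if_neg (by omega)]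
      exact h.sameV_symm (h.bd_mem p) h2
  · unfold chordList
    rw [List.pairwise_append]
    refine ⟨?_, List.pairwise_singleton _ _, ?_⟩
    · rw [List.pairwise_map]
      refine List.Pairwise.imp ?_ List.pairwise_lt_range
      intro a b hab h3
      have h4 := h.simple _ _ h3
      omega
    · intro a ha b hb
      rw [List.mem_singleton] at hb
      subst hb
      rw [List.mem_map] at ha
      obtain ⟨j, hj, rfl⟩ := ha
      rw [List.mem_range] at hj
      intro h3
      have h4 := h.simple _ _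
        (h.sameV_trans h3 (h.sameV_symm (h.bd_mem _) h1))
      omega

private theorem chord_deg (h : M.IsHPT) {p : ℤ} {k : ℕ} (hk : 0 < k) {g : ℕ}
    (h1 : M.SameV (M.bd (p + k)) g) (h2 : M.SameV (M.bd p) (M.inv g)) (hg : g ∈ M.D)
    {d : ℕ} (hd : d ∈ chordList M p k g) (hi : M.inv d ∈ chordList M p k g) :
    k = 1 ∧ g = M.inv (M.bd p) ∧ chordList M p k g = [M.bd p, M.inv (M.bd p)] := by
  obtain ⟨x, hx⟩ := poly_inv h (chord_poly h hk h1 h2 hg) hd hi
  have h3 := congrArg List.length hx
  have h4 : k = 1 := by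
    simp only [chordList, List.length_append, List.length_map, List.length_range,
      List.length_cons, List.length_nil] at h3
    omega
  subst h4
  have h5 : chordList M p 1 g = [M.bd p, g] := by
    simp [chordList]
  rw [h5, List.cons.injEq, List.cons.injEq] at hx
  obtain ⟨rfl, h6, -⟩ := hx
  exact ⟨rfl, h6, by rw [h5, ← h6]⟩

private theorem chord_out (h : M.IsHPT) {p : ℤ} {k : ℕ} (hk : 0 < k) {g : ℕ}
    (h1 : M.SameV (M.bd (p + k)) g) (h2 : M.SameV (M.bd p) (M.inv g)) {i : ℤ}
    (hi : M.bd i ∈ chordList M p k g) : p ≤ i ∧ i < p + k := by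
  rcases chord_mem.1 hi with ⟨j, h3, h4, h5⟩ | h5
  · rw [h.bd_inj h5]
    exact ⟨h3, h4⟩
  · exfalso
    rw [← h5] at h1 h2
    have h6 := h.simple _ _ h1
    have h7 := h.simple _ _ (h.sameV_trans h2 (h.bd_next i))
    omega

theorem chord_bounds (h : M.IsHPT) {p : ℤ} {k : ℕ} (hk : 0 < k) {g : ℕ}
    (h1 : M.SameV (M.bd (p + k)) g) (h2 : M.SameV (M.bd p) (M.inv g)) (hg : g ∈ M.D) :
    ∃ F, Bounds M (chordList M p k g) F := by
  have P := chord_poly h hk h1 h2 hg
  have hgc : g ∈ chordList M p k g := chord_mem.2 (Or.inr rfl)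
  have hpc : M.bd p ∈ chordList M p k g := chord_mem.2 (Or.inl ⟨p, le_rfl, by omega, rfl⟩)
  by_cases hin : M.inv g ∈ chordList M p k g
  · obtain ⟨-, -, h3⟩ := chord_deg h hk h1 h2 hg hgc hin
    refine ⟨∅, fun d hd => absurd hd (Finset.notMem_empty d), fun d hd => ?_⟩
    refine ⟨fun h4 => absurd h4.1 (Finset.notMem_empty d), fun h4 => ?_⟩
    exfalso
    apply h4.2
    have h5 := h4.1
    rw [h3, List.mem_cons, List.mem_singleton] at h5 ⊢
    rcases h5 with rfl | rfl
    · exact Or.inr rfl
    · exact Or.inl (h.inv_inv _ (h.bd_mem p))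
  · obtain ⟨F, hF1, hF2⟩ := polyFill h P
    have hno : ∀ d ∈ chordList M p k g, M.inv d ∉ chordList M p k g := by
      intro d hd hd'
      obtain ⟨-, h3, -⟩ := chord_deg h hk h1 h2 hg hd hd'
      apply hin
      have h5 : M.inv g = M.bd p := by rw [h3, h.inv_inv _ (h.bd_mem p)]
      rw [h5]
      exact hpc
    have hone : ∀ d ∈ chordList M p k g, ¬ (d ∈ F ↔ M.inv d ∈ F) := by
      intro d hd h3
      exact hno d hd (((hF2 d (P.2.1 d hd)).1 h3).1 hd)
    have hout : ∀ i, M.inv (M.bd i) ∉ F := fun i hi => (hF1 _ hi).1.2 i rfl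
    have hgF : M.inv g ∉ F := by
      have hne : M.bd p ≠ M.inv g := by
        intro h3
        exact hin (h3 ▸ hpc)
      have h3 := HPT.rotation_between ⟨M, h⟩ (G := (F : Set ℕ)) hF1 (h.bd_mem p) h2 hne (by
        intro z hz hz1 hz2
        have hzD : z ∈ M.D := h.sameV_mem (h.bd_mem p) hz
        refine (hF2 z hzD).2 ⟨fun h3 => ?_, fun h3 => ?_⟩
        · exact absurd (poly_eq_of_sameV h P hpc h3 hz).symm hz1
        · exfalso
          rcases chord_mem.1 h3 with ⟨i, h4, h5, h6⟩ | h6
          · have h7 : z = M.inv (M.bd i) := by rw [← h6, h.inv_inv z hzD]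
            rw [h7] at hz
            have h8 := h.simple _ _ (h.sameV_trans hz (h.bd_next i))
            omega
          · exact hz2 (by
              show z = M.inv g
              rw [← h6, h.inv_inv z hzD]))
      intro h4
      have h5 : M.rot (M.bd p) ∈ F := h3.2 h4
      have h6 : M.rot (M.bd p) = M.inv (M.bd (p - 1)) := h.fc_outer p
      rw [h6] at h5
      exact hout _ h5
    have hall : ∀ d ∈ chordList M p k g, d ∈ F ∧ M.inv d ∉ F := by
      intro d hd
      have h3 := hone d hd
      rcases chord_mem.1 hd with ⟨i, h4, h5, rfl⟩ | rfl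
      · have h6 := hout i
        exact ⟨by tauto, h6⟩
      · exact ⟨by tauto, hgF⟩
    refine ⟨F, hF1, fun d hd => ⟨fun h3 => ?_, fun h3 => hall d h3.1⟩⟩
    have h4 := hF2 d hd
    by_cases h5 : d ∈ chordList M p k g
    · exact ⟨h5, hno d h5⟩
    · exfalso
      have h6 : M.inv d ∈ chordList M p k g := by
        by_contra h6
        exact h3.2 ((h4.2 ⟨fun h7 => absurd h7 h5, fun h7 => absurd h7 h6⟩).1 h3.1)
      exact h3.2 (hall _ h6).1

theorem chord_g (h : M.IsHPT) {p : ℤ} {k : ℕ} (hk : 0 < k) {g : ℕ}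
    (h1 : M.SameV (M.bd (p + k)) g) (h2 : M.SameV (M.bd p) (M.inv g)) (hg : g ∈ M.D)
    {F : Finset ℕ} (B : Bounds M (chordList M p k g) F) :
    M.inv g ∉ F ∧ (g ∈ F ∨ (k = 1 ∧ M.inv g = M.bd p ∧ F = ∅)) := by
  have hgc : g ∈ chordList M p k g := chord_mem.2 (Or.inr rfl)
  by_cases hin : M.inv g ∈ chordList M p k g
  · obtain ⟨h3, h4, h5⟩ := chord_deg h hk h1 h2 hg hgc hin
    rw [h5] at B
    have h6 := B.of_deg h (h.bd_mem p)
    refine ⟨by rw [h6]; exact Finset.notMem_empty _, Or.inr ⟨h3, ?_, h6⟩⟩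
    rw [h4, h.inv_inv _ (h.bd_mem p)]
  · have h3 := (B.2 g hg).2 ⟨hgc, hin⟩
    exact ⟨h3.2, Or.inl h3.1⟩

theorem chord_bd_mem (h : M.IsHPT) {p : ℤ} {k : ℕ} (hk : 0 < k) {g : ℕ}
    (h1 : M.SameV (M.bd (p + k)) g) (h2 : M.SameV (M.bd p) (M.inv g)) (hg : g ∈ M.D)
    {F : Finset ℕ} (B : Bounds M (chordList M p k g) F) (i : ℤ) :
    M.bd i ∈ F ↔ p ≤ i ∧ i < p + k ∧ M.inv g ≠ M.bd p := by
  have hgc : g ∈ chordList M p k g := chord_mem.2 (Or.inr rfl)
  have hpc : M.bd p ∈ chordList M p k g := chord_mem.2 (Or.inl ⟨p, le_rfl, by omega, rfl⟩)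
  have hout : M.inv (M.bd i) ∉ F := fun hi => (B.1 _ hi).1.2 i rfl
  have h3 := B.2 (M.bd i) (h.bd_mem i)
  constructor
  · intro h4
    obtain ⟨h5, h6⟩ := h3.1 ⟨h4, hout⟩
    obtain ⟨h7, h8⟩ := chord_out h hk h1 h2 h5
    refine ⟨h7, h8, fun h9 => ?_⟩
    obtain ⟨-, -, h10⟩ := chord_deg h hk h1 h2 hg hgc (by rw [h9]; exact hpc)
    apply h6
    rw [h10, List.mem_cons, List.mem_singleton] at h5 ⊢
    rcases h5 with h5 | h5
    · exact Or.inr (by rw [h5])
    · exact Or.inl (by rw [h5, h.inv_inv _ (h.bd_mem p)])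
  · rintro ⟨h4, h5, h6⟩
    have h7 : M.bd i ∈ chordList M p k g := chord_mem.2 (Or.inl ⟨i, h4, h5, rfl⟩)
    refine (h3.2 ⟨h7, fun h8 => h6 ?_⟩).1
    obtain ⟨-, h9, -⟩ := chord_deg h hk h1 h2 hg h7 h8
    rw [h9, h.inv_inv _ (h.bd_mem p)]

end Pool.Agent.Spd
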