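import Pool.Agent.Spd.Unif1

/-!
(Part `Unif2`: `unif_floor`, `unif_ne_one`, `unif_choice`.  The text below is the common header of the parts.)

# SPD M6: the sequence of uniform random variables

`unif = Measure.infinitePi (fun _ => volume)` on `ℕ → unitInterval`.

* `unif_drop`: the family `U ↦ U (n + k)`, `k ∈ ℕ`, is i.i.d. uniform: check cylinders
  (`Measure.infinitePi_pi`, `Measure.eq_infinitePi`).
* `unif_split`: let `E` depend on the coordinates `< n` only.  The coordinates are independent under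
  `unif` (`iIndepFun_infinitePi`), so the blocks `{0, ..., n-1}` and `{n, n+1, ...}` are
  (`iIndepFun.indepFun_finset`-like; or: the map `U ↦ ((U j)_{j<n}, drop n U)` sends `unif` to the
  product of `Measure.pi` and `unif`: check on rectangles of cylinders).
* `unif_floor`: the law of `U n` is uniform; `⌊x D⌋ = k` iff `k / D ≤ x < (k+1) / D`.
* `unif_choice`: `unif_split` twice.
-/

namespace Pool.Agent.Spd

open MeasureTheory

/-- The law of one variable. -/
private theorem unif_one (n : ℕ) {A : Set unitInterval} (hA : MeasurableSet A) :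
    unif {U | U n ∈ A} = volume A := by
  have h := (measurePreserving_eval_infinitePi (fun _ : ℕ => (volume : Measure unitInterval)) n)
  exact h.measure_preimage hA.nullMeasurableSet

private theorem meas_floor (D k : ℕ) :
    MeasurableSet {x : unitInterval | ⌊(x : ℝ) * D⌋₊ = k} := by
  have h : Measurable fun x : unitInterval => ⌊(x : ℝ) * D⌋₊ :=
    Nat.measurable_floor.comp (measurable_subtype_coe.mul_const _)
  exact h (measurableSet_singleton k)

theorem unif_floor (n : ℕ) {D k : ℕ} (hk : k < D) :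
    unif {U | ⌊(U n : ℝ) * D⌋₊ = k} = (D : ENNReal)⁻¹ := by
  have hD : 0 < (D : ℝ) := by
    have : 0 < D := by omega
    exact_mod_cast this
  have h1 : unif {U | ⌊(U n : ℝ) * D⌋₊ = k} = volume {x : unitInterval | ⌊(x : ℝ) * D⌋₊ = k} :=
    unif_one n (meas_floor D k)
  have h2 : Subtype.val '' {x : unitInterval | ⌊(x : ℝ) * D⌋₊ = k} =
      Set.Ico ((k : ℝ) / D) (((k : ℝ) + 1) / D) := by
    ext y
    constructor
    · rintro ⟨x, hx, rfl⟩
      have h3 : ⌊(x : ℝ) * D⌋₊ = k := hx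
      have h4 : 0 ≤ (x : ℝ) * D := mul_nonneg x.2.1 hD.le
      rw [Nat.floor_eq_iff h4] at h3
      exact ⟨(div_le_iff₀ hD).2 h3.1, (lt_div_iff₀ hD).2 h3.2⟩
    · rintro ⟨h3, h4⟩
      rw [div_le_iff₀ hD] at h3
      rw [lt_div_iff₀ hD] at h4
      have hk0 : (0 : ℝ) ≤ k := Nat.cast_nonneg k
      have hk1 : (k : ℝ) + 1 ≤ D := by exact_mod_cast hk
      have h5 : 0 ≤ y := by
        by_contra h
        have := mul_neg_of_neg_of_pos (not_le.1 h) hD
        linarith
      have h6 : y ≤ 1 := by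
        by_contra h
        have := mul_lt_mul_of_pos_right (not_le.1 h) hD
        linarith
      refine ⟨⟨y, h5, h6⟩, ?_, rfl⟩
      change ⌊y * D⌋₊ = k
      rw [Nat.floor_eq_iff (mul_nonneg h5 hD.le)]
      exact ⟨h3, h4⟩
  rw [h1, unitInterval.volume_apply, h2, Real.volume_Ico]
  have h3 : ((k : ℝ) + 1) / D - k / D = (D : ℝ)⁻¹ := by
    field_simp
    ring
  rw [h3, ENNReal.ofReal_inv_of_pos hD, ENNReal.ofReal_natCast]

theorem unif_ne_one (n : ℕ) : ∀ᵐ U ∂unif, U n ≠ 1 := by
  have h1 : unif {U | U n ∈ ({1} : Set unitInterval)} = 0 := by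
    rw [unif_one n (measurableSet_singleton 1), measure_singleton]
  rw [ae_iff]
  convert h1 using 2
  ext U
  simp

/-- The first `n` variables, the choice at time `n`, and the future are independent. -/
theorem unif_choice (n : ℕ) {D k : ℕ} (hk : k < D) {E : Set (ℕ → unitInterval)}
    (hE : MeasurableSet E)
    (hE' : ∀ U U' : ℕ → unitInterval, (∀ j < n, U j = U' j) → (U ∈ E ↔ U' ∈ E))
    {S : Set (ℕ → unitInterval)} (hS : MeasurableSet S) :
    unif {U | U ∈ E ∧ ⌊(U n : ℝ) * D⌋₊ = k ∧ (fun j => U (n + 1 + j)) ∈ S} =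
      unif E * (D : ENNReal)⁻¹ * unif S := by
  have hF : MeasurableSet {V : ℕ → unitInterval | ⌊(V 0 : ℝ) * D⌋₊ = k} :=
    (meas_floor D k).preimage (measurable_pi_apply 0)
  have hG : MeasurableSet {V : ℕ → unitInterval | (fun j => V (1 + j)) ∈ S} := by
    refine hS.preimage (measurable_pi_iff.2 fun j => measurable_pi_apply (1 + j))
  have h1 := unif_split n hE hE' (hF.inter hG)
  have h2 := unif_split 1 hF (S := S) (by
    intro U U' h
    have h3 := h 0 one_pos
    change ⌊(U 0 : ℝ) * D⌋₊ = k ↔ ⌊(U' 0 : ℝ) * D⌋₊ = k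
    rw [h3]) hS
  have h3 : {V : ℕ → unitInterval | ⌊(V 0 : ℝ) * D⌋₊ = k} ∩
      {V : ℕ → unitInterval | (fun j => V (1 + j)) ∈ S} =
      {V | V ∈ {V : ℕ → unitInterval | ⌊(V 0 : ℝ) * D⌋₊ = k} ∧ (fun j => V (1 + j)) ∈ S} := rfl
  rw [h3, h2, unif_floor 0 hk] at h1
  rw [mul_assoc, ← h1]
  congr 1
  ext U
  have h4 : (fun j => U (n + 1 + j)) = fun j => U (n + (1 + j)) := by
    funext j
    rw [add_assoc]
  change (U ∈ E ∧ ⌊(U n : ℝ) * D⌋₊ = k ∧ (fun j => U (n + 1 + j)) ∈ S) ↔
    (U ∈ E ∧ ⌊(U (n + 0) : ℝ) * D⌋₊ = k ∧ (fun j => U (n + (1 + j))) ∈ S)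
  rw [h4, add_zero]

end Pool.Agent.Spd
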