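import Pool.Agent.Spd.MeasB
import Pool.Agent.Spd.Unif

/-!
# SPD M10: a random variable that is independent of every finite exploration is constant

`F k` = sigma-algebra on `HPT × (ℕ → I)` generated by
`p ↦ (p.1.outs (fair k), (p.2 j)_{j < k})` (`MeasurableSpace.comap`, discrete sigma-algebra on the
outcomes).

* monotone: `fair_prefix`, `outs_append` (the first outcomes are a function of all outcomes:
  `List.take`).
* `V` is independent of `F k`: a set of `F k` is the countable disjoint union over `o` of the sets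
  `{outs (fair k) = o} ∩ {(p.2 j)_{j<k} ∈ A_o}`; hypothesis `hV` with `c = fair k`.
* so `V` is independent of `⨆ k, F k` (`ProbabilityTheory.indep_iSup_of_monotone`).
* `⨆ k, F k` is the full sigma-algebra: it contains the sets `{outs c = o} × univ`: this set is the
  union over `k` and `o'` of the sets `{outs (fair k) = o'}` that are contained in it (for
  `H` with `outs c H = o` take `k` with `fair_fine`; then `H'.outs (fair k) = H.outs (fair k)` implies
  `H'.outs c = o` by `outs_of_outs`); and the coordinates of `p.2`.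
* `V` is independent of itself: every event `{V ∈ B}` has probability `0` or `1`, so `V` is a.e.
  constant (cumulative distribution function, or `ProbabilityTheory` lemma for `IndepFun V V`).
-/

namespace Pool.Agent.Spd

open MeasureTheory

/-- The pi-system of the events decided by finitely many outcomes and coordinates. -/
private def constPi : Set (Set (HPT × (ℕ → unitInterval))) :=
  {S | S = ∅ ∨ ∃ (k : ℕ) (o : List Step) (n : ℕ) (E : Set (ℕ → unitInterval)), MeasurableSet E ∧
      (∀ U U' : ℕ → unitInterval, (∀ j < n, U j = U' j) → (U ∈ E ↔ U' ∈ E)) ∧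
      S = {p | p.1.outs (HPT.fair k) = o ∧ p.2 ∈ E}}

private theorem outs_take {k m : ℕ} (hkm : k ≤ m) {H H' : HPT}
    (h : H.outs (HPT.fair m) = H'.outs (HPT.fair m)) :
    H.outs (HPT.fair k) = H'.outs (HPT.fair k) := by
  obtain ⟨c, hc⟩ := HPT.fair_prefix hkm
  rw [hc, HPT.outs_append, HPT.outs_append] at h
  exact (List.append_inj h (by rw [HPT.outs_length, HPT.outs_length])).1

private theorem constPi_inter {k k' : ℕ} (hk : k ≤ k') {o o' : List Step} {n n' : ℕ}
    {E E' : Set (ℕ → unitInterval)} (hE : MeasurableSet E)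
    (hE' : ∀ U U' : ℕ → unitInterval, (∀ j < n, U j = U' j) → (U ∈ E ↔ U' ∈ E))
    (hF : MeasurableSet E')
    (hF' : ∀ U U' : ℕ → unitInterval, (∀ j < n', U j = U' j) → (U ∈ E' ↔ U' ∈ E')) :
    {p : HPT × (ℕ → unitInterval) | p.1.outs (HPT.fair k) = o ∧ p.2 ∈ E} ∩
      {p | p.1.outs (HPT.fair k') = o' ∧ p.2 ∈ E'} ∈ constPi := by
  by_cases he : ∃ H : HPT, H.outs (HPT.fair k) = o ∧ H.outs (HPT.fair k') = o'
  · obtain ⟨H, h1, h2⟩ := he
    right
    refine ⟨k', o', max n n', E ∩ E', hE.inter hF, ?_, ?_⟩
    · intro U U' hU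
      have a1 := hE' U U' (fun j hj => hU j (lt_of_lt_of_le hj (le_max_left _ _)))
      have a2 := hF' U U' (fun j hj => hU j (lt_of_lt_of_le hj (le_max_right _ _)))
      simp only [Set.mem_inter_iff, a1, a2]
    · ext p
      simp only [Set.mem_inter_iff, Set.mem_ofPred_eq]
      constructor
      · rintro ⟨⟨_, b2⟩, b3, b4⟩
        exact ⟨b3, b2, b4⟩
      · rintro ⟨b3, b2, b4⟩
        refine ⟨⟨?_, b2⟩, b3, b4⟩
        rw [← h1]
        exact outs_take hk (b3.trans h2.symm)
  · left
    rw [Set.eq_empty_iff_forall_notMem]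
    rintro p ⟨⟨b1, _⟩, b3, _⟩
    exact he ⟨p.1, b1, b3⟩

private theorem constPi_pi : IsPiSystem constPi := by
  intro S hS T hT _
  rcases hS with rfl | ⟨k, o, n, E, hE, hE', rfl⟩
  · left
    exact Set.empty_inter _
  rcases hT with rfl | ⟨k', o', n', F, hF, hF', rfl⟩
  · left
    exact Set.inter_empty _
  rcases le_total k k' with h | h
  · exact constPi_inter h hE hE' hF hF'
  · rw [Set.inter_comm]
    exact constPi_inter h hF hF' hE hE'

private theorem constPi_outs (c : List ℤ) (o : List Step) :
    MeasurableSet[MeasurableSpace.generateFrom constPi]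
      {p : HPT × (ℕ → unitInterval) | p.1.outs c = o} := by
  have e : {p : HPT × (ℕ → unitInterval) | p.1.outs c = o} =
      ⋃ (k : ℕ), ⋃ (o' : List Step), ⋃ (_ : ∀ H : HPT, H.outs (HPT.fair k) = o' → H.outs c = o),
        {p : HPT × (ℕ → unitInterval) | p.1.outs (HPT.fair k) = o' ∧ p.2 ∈ Set.univ} := by
    ext p
    simp only [Set.mem_ofPred_eq, Set.mem_iUnion, Set.mem_univ, and_true]
    constructor
    · intro hp
      obtain ⟨k, hk⟩ := HPT.fair_fine p.1 c
      refine ⟨k, p.1.outs (HPT.fair k), ?_, rfl⟩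
      intro H hH
      rw [HPT.outs_of_outs (hk k le_rfl) hH, hp]
    · rintro ⟨k, o', h, hp⟩
      exact h _ hp
  rw [e]
  refine MeasurableSet.iUnion fun k => MeasurableSet.iUnion fun o' => MeasurableSet.iUnion fun _ =>
    MeasurableSpace.measurableSet_generateFrom ?_
  right
  exact ⟨k, o', 0, Set.univ, MeasurableSet.univ, fun _ _ _ => by simp, rfl⟩

private theorem constPi_generate :
    (inferInstance : MeasurableSpace (HPT × (ℕ → unitInterval))) =
      MeasurableSpace.generateFrom constPi := by
  apply le_antisymm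
  · refine sup_le ?_ ?_
    · have e : (HPT.instMeasurableSpace : MeasurableSpace HPT) = MeasurableSpace.generateFrom
          {S | ∃ (c : List ℤ) (o : List Step), S = {H : HPT | H.outs c = o}} := rfl
      rw [e, MeasurableSpace.comap_generateFrom]
      refine MeasurableSpace.generateFrom_le ?_
      rintro _ ⟨_, ⟨c, o, rfl⟩, rfl⟩
      exact constPi_outs c o
    · rw [← measurable_iff_comap_le]
      refine @measurable_pi_lambda _ _ _ (MeasurableSpace.generateFrom constPi) _ _ ?_
      intro i A hA
      apply MeasurableSpace.measurableSet_generateFrom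
      right
      refine ⟨0, [], i + 1, {U | U i ∈ A}, measurable_pi_apply i hA, ?_, ?_⟩
      · intro U U' hU
        simp only [Set.mem_ofPred_eq, hU i (Nat.lt_succ_self i)]
      · ext p
        have : p.1.outs (HPT.fair 0) = [] := rfl
        simp only [Set.mem_preimage, Set.mem_ofPred_eq, this, true_and]
  · refine MeasurableSpace.generateFrom_le ?_
    rintro _ (rfl | ⟨k, o, n, E, hE, _, rfl⟩)
    · exact MeasurableSet.empty
    · exact (measurable_fst (HPT.measurableSet_outs (HPT.fair k) o)).inter (measurable_snd hE)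

theorem const_of_indep {μ : Measure HPT} [IsProbabilityMeasure μ]
    {V : HPT × (ℕ → unitInterval) → ℝ} (hm : Measurable V)
    (hV : ∀ (c : List ℤ) (o : List Step) (n : ℕ) (E : Set (ℕ → unitInterval)), MeasurableSet E →
      (∀ U U' : ℕ → unitInterval, (∀ j < n, U j = U' j) → (U ∈ E ↔ U' ∈ E)) →
      ∀ B : Set ℝ, MeasurableSet B →
        (μ.prod unif) {p | p.1.outs c = o ∧ p.2 ∈ E ∧ V p ∈ B} =
          (μ.prod unif) {p | p.1.outs c = o ∧ p.2 ∈ E} * (μ.prod unif) {p | V p ∈ B}) :
    ∃ v : ℝ, ∀ᵐ p ∂(μ.prod unif), V p = v := by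
  have key : ∀ B : Set ℝ, MeasurableSet B → ∀ S : Set (HPT × (ℕ → unitInterval)),
      MeasurableSet S →
      (μ.prod unif) (S ∩ V ⁻¹' B) = (μ.prod unif) S * (μ.prod unif) (V ⁻¹' B) := by
    intro B hB S hS
    have hVB : MeasurableSet (V ⁻¹' B) := hm hB
    induction S, hS using MeasurableSpace.induction_on_inter constPi_generate constPi_pi with
    | empty => simp
    | basic t ht =>
      rcases ht with rfl | ⟨k, o, n, E, hE, hE', rfl⟩
      · simp
      · have h := hV (HPT.fair k) o n E hE hE' B hB
        have e1 : {p : HPT × (ℕ → unitInterval) | p.1.outs (HPT.fair k) = o ∧ p.2 ∈ E} ∩ V ⁻¹' B =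
            {p | p.1.outs (HPT.fair k) = o ∧ p.2 ∈ E ∧ V p ∈ B} := by
          ext p
          simp only [Set.mem_inter_iff, Set.mem_ofPred_eq, Set.mem_preimage, and_assoc]
        rw [e1, h]
        rfl
    | compl t ht ih =>
      have e1 : tᶜ ∩ V ⁻¹' B = V ⁻¹' B \ (t ∩ V ⁻¹' B) := by
        ext p
        simp only [Set.mem_inter_iff, Set.mem_compl_iff, Set.mem_sdiff, not_and]
        tauto
      rw [e1, measure_sdiff Set.inter_subset_right (ht.inter hVB).nullMeasurableSet
        (measure_ne_top _ _), ih, prob_compl_eq_one_sub ht, ENNReal.sub_mul, one_mul]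
      intro _ _
      exact measure_ne_top _ _
    | iUnion f hd hf ih =>
      rw [Set.iUnion_inter, measure_iUnion _ (fun i => (hf i).inter hVB), measure_iUnion hd hf,
        ← ENNReal.tsum_mul_right]
      · exact tsum_congr ih
      · intro i j hij
        exact (hd hij).mono Set.inter_subset_left Set.inter_subset_left
  have h01 : ∀ B : Set ℝ, MeasurableSet B →
      (∀ᵐ p ∂(μ.prod unif), V p ∈ B) ∨ (∀ᵐ p ∂(μ.prod unif), V p ∉ B) := by
    intro B hB
    have hVB : MeasurableSet (V ⁻¹' B) := hm hB
    have h := key B hB (V ⁻¹' B) hVB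
    rw [Set.inter_self] at h
    by_cases h0 : (μ.prod unif) (V ⁻¹' B) = 0
    · right
      rw [ae_iff]
      have e : {p | ¬ V p ∉ B} = V ⁻¹' B := by
        ext p
        simp
      rw [e]
      exact h0
    · left
      have h1 : (μ.prod unif) (V ⁻¹' B) = 1 := by
        have h2 : (μ.prod unif) (V ⁻¹' B) * 1 =
            (μ.prod unif) (V ⁻¹' B) * (μ.prod unif) (V ⁻¹' B) := by
          rw [mul_one]
          exact h
        exact ((ENNReal.mul_right_inj h0 (measure_ne_top _ _)).1 h2).symm
      exact (prob_compl_eq_zero_iff hVB).2 h1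
  exact Filter.exists_eventuallyEq_const_of_forall_separating (f := V)
    (l := ae (μ.prod unif)) MeasurableSet h01

end Pool.Agent.Spd
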