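import Pool.Agent.Spd.W01

/-!
# SPD M3: there are countably many codes and outcomes (see `W01`)
-/

namespace Pool.Agent.Spd

instance instMeasurableSpaceListStep : MeasurableSpace (List Step) := ⊤

instance instDiscreteListStep : DiscreteMeasurableSpace (List Step) := ⟨fun _ => trivial⟩

end Pool.Agent.Spd
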