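import Pool.Agent.Spd.CutA1

/-!
(Part `CutA2`: `cut_rot`, `cut_sameV`.  The text below is the common header of the parts.)

# SPD A03: cutting a region out of a map, basic facts

`M.cut R L` has the darts `d ∈ D` with `d ∈ R` or `inv d ∈ R`, the same `inv`, the same `fc` on
`R`, the line `L` as boundary and `fc (inv (L i)) = inv (L (i-1))`.  `Cutting M R L` lists the
conditions.

* `mem_cut_iff`: a dart `d` with `d ∉ R`, `inv d ∈ R` is `inv (L i)` (`only` for `inv d`,
  `inv_inv`), so the darts of the cut are `R` and the `inv (L i)`.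
* `cut_inner`: `inv (L i) ∉ R` (`line_out`); if `d` is inner in the cut then it is not an
  `inv (L i)`, so it is in `R`.
* `L_inj`: `L i = L j` gives `SameV (L i) (L j)`.
* `cut_fc_outer`: `inv (L i) ∉ R`, and the index `i` is determined by `inv (L i)` (`inv_inv`,
  `L_inj`), so the chosen index is `i`.
* `cut_sameV` (KEY).  First: for `x` in the cut, `(cut).rot x` is the first return of `rot` to the
  cut: there is `n ≥ 1` with `(cut).rot x = M.rot^[n] x` and `M.rot^[m] x` not in the cut for
  `0 < m < n`.  If `inv x ∈ R` then `(cut).rot x = fc (inv x) = M.rot x` (`n = 1`).  Otherwise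
  `x ∈ R`, `inv x ∉ R`, so `x = L i` and `(cut).rot x = inv (L (i-1))`, which has the same
  `M`-origin as `L i` (`path` for `i-1`).  Let `n ≥ 1` be minimal with `y := M.rot^[n] (L i)` in
  the cut (it exists, e.g. the period), `z = M.rot^[n-1] (L i)`, so `y = fc (inv z)`.  If `y ∈ R`
  then `inv z ∈ R` (`fc` is injective on darts, `y = fc (fc (fc y))` and `R` is `fc`-invariant), so
  `z` is in the cut, so `n - 1 = 0` by minimality, `z = L i`, `inv (L i) ∈ R`: contradiction.
  So `y = inv (L m)`, whose origin is that of `L (m+1)` (`path`) and of `L i`, so `m + 1 = i`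
  (`simple`): `y = inv (L (i-1))`.
  Consequently `(cut).SameV` is contained in `M.SameV`; conversely if `M.rot^[n] x = e`, both in
  the cut, strong induction on `n`: the first return of `x` is `M.rot^[k] x` with `k ≤ n`.
* `star_principle`: if no `L i` is in `G` then `closed_empty`.  Otherwise let `i` be maximal with
  `L i ∈ G` (`G` is finite, `L` injective), `u = inv (L i)`, which has the origin of `L (i+1)`.
  Let `z ≠ u` be a dart at this vertex with different status from `inv z`.  If `z ∈ G` then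
  `z = L m` with the origin of `L (i+1)`, so `m = i + 1`, against maximality.  If `inv z ∈ G`,
  then `inv z = L m`, `z = inv (L m)` has the origin of `L (m+1)`, so `m = i`, `z = u`.  So
  `HPT.rotation_single` gives `L i = inv u ∈ G ↔ u ∈ G`; but `u = inv (L i) ∉ R`.
-/

namespace Pool.Agent.Spd

namespace Cutting

variable {M : PreMap} {R : Set ℕ} {L : ℤ → ℕ}

private theorem cut_rot_mem (h : M.IsHPT) (C : Cutting M R L) {x : ℕ}
    (hx : x ∈ (M.cut R L).D) : (M.cut R L).rot x ∈ (M.cut R L).D := by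
  have hr : (M.cut R L).rot x = (M.cut R L).fc (M.inv x) := rfl
  by_cases hi : M.inv x ∈ R
  · rw [hr, C.cut_fc hi]
    exact (C.mem_cut_iff h _).2 (Or.inl (C.fc_mem _ hi))
  · have hxR : x ∈ R := hx.2.resolve_right hi
    obtain ⟨i, rfl⟩ := (C.only x hxR).resolve_left hi
    rw [hr, C.cut_fc_outer h i]
    exact (C.mem_cut_iff h _).2 (Or.inr ⟨i - 1, rfl⟩)

/-- First return to the cut. -/
theorem cut_rot (h : M.IsHPT) (C : Cutting M R L) {x : ℕ} (hx : x ∈ (M.cut R L).D) :
    ∃ n, 0 < n ∧ (M.cut R L).rot x = M.rot^[n] x ∧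
      ∀ m, 0 < m → m < n → M.rot^[m] x ∉ (M.cut R L).D := by
  classical
  have hr : (M.cut R L).rot x = (M.cut R L).fc (M.inv x) := rfl
  by_cases hi : M.inv x ∈ R
  · refine ⟨1, one_pos, ?_, fun m h1 h2 => by omega⟩
    rw [hr, C.cut_fc hi]
    rfl
  · have hxR : x ∈ R := hx.2.resolve_right hi
    obtain ⟨i, rfl⟩ := (C.only x hxR).resolve_left hi
    have hex : ∃ n, 0 < n ∧ M.rot^[n] (L i) ∈ (M.cut R L).D := by
      obtain ⟨n, hn0, hn⟩ := h.rot_fin (L i) (C.L_memD i)
      exact ⟨n, hn0, by rw [hn]; exact hx⟩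
    obtain ⟨hn0, hn⟩ := Nat.find_spec hex
    have hmin : ∀ m, 0 < m → m < Nat.find hex → M.rot^[m] (L i) ∉ (M.cut R L).D :=
      fun m h1 h2 h3 => Nat.find_min hex h2 ⟨h1, h3⟩
    refine ⟨Nat.find hex, hn0, ?_, hmin⟩
    generalize Nat.find hex = n at hn0 hn hmin
    rw [hr, C.cut_fc_outer h i]
    obtain ⟨k, rfl⟩ : ∃ k, n = k + 1 := ⟨n - 1, by omega⟩
    rcases (C.mem_cut_iff h _).1 hn with h1 | ⟨m, h1⟩
    · exfalso
      rw [Function.iterate_succ_apply'] at h1
      have hz : M.rot^[k] (L i) ∈ M.D := h.iter_mem (C.L_memD i) k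
      have h2 : M.inv (M.rot^[k] (L i)) ∈ R :=
        (C.fc_mem_iff h (h.inv_mem _ hz)).1 h1
      rcases Nat.eq_zero_or_pos k with h3 | h3
      · subst h3
        exact C.line_out i h2
      · exact hmin k h3 (by omega) ⟨hz, Or.inr h2⟩
    · have h2 : M.SameV (L i) (M.inv (L m)) := ⟨k + 1, h1⟩
      have h3 : i = m + 1 := C.simple i (m + 1) (h.sameV_trans h2 (C.path m))
      rw [h1, h3, add_sub_cancel_right]

theorem cut_sameV (h : M.IsHPT) (C : Cutting M R L) {d : ℕ} (hd : d ∈ (M.cut R L).D) (e : ℕ) :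
    (M.cut R L).SameV d e ↔ M.SameV d e ∧ e ∈ (M.cut R L).D := by
  constructor
  · rintro ⟨n, rfl⟩
    induction n with
    | zero => exact ⟨h.sameV_refl d, hd⟩
    | succ n ih =>
      rw [Function.iterate_succ_apply']
      refine ⟨?_, cut_rot_mem h C ih.2⟩
      obtain ⟨k, -, hk, -⟩ := cut_rot h C ih.2
      exact h.sameV_trans ih.1 ⟨k, hk.symm⟩
  · rintro ⟨⟨n, hn⟩, he⟩
    induction n using Nat.strong_induction_on generalizing d with
    | _ n ih =>
      rcases Nat.eq_zero_or_pos n with h0 | h0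
      · subst h0
        exact ⟨0, hn⟩
      · obtain ⟨k, hk0, hk, hmin⟩ := cut_rot h C hd
        have hkn : k ≤ n := by
          by_contra h1
          refine hmin n h0 (by omega) ?_
          rw [hn]
          exact he
        have h1 : M.rot^[n - k] ((M.cut R L).rot d) = e := by
          rw [hk, ← Function.iterate_add_apply, Nat.sub_add_cancel hkn]
          exact hn
        obtain ⟨j, hj⟩ := ih (n - k) (by omega) (cut_rot_mem h C hd) h1
        exact ⟨j + 1, by rw [Function.iterate_succ_apply]; exact hj⟩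

end Cutting

end Pool.Agent.Spd
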