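import Pool.Agent.Spd.CutA1

/-!
(Part `CutA3`: `star_principle`.  The text below is the common header of the parts.)

# SPD A03: cutting a region out of a map, basic facts

`M.cut R L` has the darts `d ∈ D` with `d ∈ R` or `inv d ∈ R`, the same `inv`, the same `fc` on
`R`, the line `L` as boundary and `fc (inv (L i)) = inv (L (i-1))`.  `Cutting M R L` lists the
conditions.

* `mem_cut_iff`: a dart `d` with `d ∉ R`, `inv d ∈ R` is `inv (L i)` (`only` for `inv d`,
  `inv_inv`), so the darts of the cut are `R` and the `inv (L i)`.
* `cut_inner`: `inv (L i) ∉ R` (`line_out`); if `d` is inner in the cut then it is not an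
  `inv (L i)`, so it is in `R`.
* `L_inj`: `L i = L j` gives `SameV (L i) (L j)`.
* `cut_fc_outer`: `inv (L i) ∉ R`, and the index `i` is determined by `inv (L i)` (`inv_inv`,
  `L_inj`), so the chosen index is `i`.
* `cut_sameV` (KEY).  First: for `x` in the cut, `(cut).rot x` is the first return of `rot` to the
  cut: there is `n ≥ 1` with `(cut).rot x = M.rot^[n] x` and `M.rot^[m] x` not in the cut for
  `0 < m < n`.  If `inv x ∈ R` then `(cut).rot x = fc (inv x) = M.rot x` (`n = 1`).  Otherwise
  `x ∈ R`, `inv x ∉ R`, so `x = L i` and `(cut).rot x = inv (L (i-1))`, which has the same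
  `M`-origin as `L i` (`path` for `i-1`).  Let `n ≥ 1` be minimal with `y := M.rot^[n] (L i)` in
  the cut (it exists, e.g. the period), `z = M.rot^[n-1] (L i)`, so `y = fc (inv z)`.  If `y ∈ R`
  then `inv z ∈ R` (`fc` is injective on darts, `y = fc (fc (fc y))` and `R` is `fc`-invariant), so
  `z` is in the cut, so `n - 1 = 0` by minimality, `z = L i`, `inv (L i) ∈ R`: contradiction.
  So `y = inv (L m)`, whose origin is that of `L (m+1)` (`path`) and of `L i`, so `m + 1 = i`
  (`simple`): `y = inv (L (i-1))`.
  Consequently `(cut).SameV` is contained in `M.SameV`; conversely if `M.rot^[n] x = e`, both in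
  the cut, strong induction on `n`: the first return of `x` is `M.rot^[k] x` with `k ≤ n`.
* `star_principle`: if no `L i` is in `G` then `closed_empty`.  Otherwise let `i` be maximal with
  `L i ∈ G` (`G` is finite, `L` injective), `u = inv (L i)`, which has the origin of `L (i+1)`.
  Let `z ≠ u` be a dart at this vertex with different status from `inv z`.  If `z ∈ G` then
  `z = L m` with the origin of `L (i+1)`, so `m = i + 1`, against maximality.  If `inv z ∈ G`,
  then `inv z = L m`, `z = inv (L m)` has the origin of `L (m+1)`, so `m = i`, `z = u`.  So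
  `HPT.rotation_single` gives `L i = inv u ∈ G ↔ u ∈ G`; but `u = inv (L i) ∉ R`.
-/

namespace Pool.Agent.Spd

namespace Cutting

variable {M : PreMap} {R : Set ℕ} {L : ℤ → ℕ}

/-- A finite set of inner darts of the cut, `fc`-invariant, whose boundary darts are all on the
line, is empty (principle (*) of the write-up). -/
theorem star_principle (h : M.IsHPT) (C : Cutting M R L) (G : Finset ℕ) (hG : ↑G ⊆ R)
    (h1 : ∀ d ∈ G, M.fc d ∈ G) (h2 : ∀ d ∈ G, M.inv d ∈ G ∨ ∃ i, d = L i) : G = ∅ := by
  have hI : ∀ d ∈ G, M.Inner d ∧ M.fc d ∈ G := fun d hd => ⟨C.sub d (hG hd), h1 d hd⟩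
  by_cases hL : ∃ i, L i ∈ G
  · exfalso
    obtain ⟨i₀, hi₀⟩ := hL
    have hinj : Set.InjOn L (L ⁻¹' ↑G) := fun a _ b _ hab => C.L_inj hab
    obtain ⟨i, hi, hmax⟩ := (G.preimage L hinj).exists_max_image id
      ⟨i₀, Finset.mem_preimage.2 hi₀⟩
    rw [Finset.mem_preimage] at hi
    have hLD := C.L_memD i
    have hu : M.inv (L i) ∈ M.D := h.inv_mem _ hLD
    have hnext : M.SameV (L (i + 1)) (M.inv (L i)) := h.sameV_symm hu (C.path i)
    have key := HPT.rotation_single (⟨M, h⟩ : HPT) (G := (↑G : Set ℕ)) hI hu (by
      intro z hz hzu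
      have hz' : M.SameV (M.inv (L i)) z := hz
      have hzD : z ∈ M.D := h.sameV_mem hu hz'
      have h3 : M.SameV (L (i + 1)) z := h.sameV_trans hnext hz'
      constructor
      · intro hzG
        rcases h2 z hzG with h4 | ⟨m, rfl⟩
        · exact h4
        · exfalso
          have h5 := C.simple _ _ h3
          have h6 := hmax m (Finset.mem_preimage.2 hzG)
          simp only [id] at h6
          omega
      · intro hzG
        rcases h2 _ hzG with h4 | ⟨m, h4⟩
        · have h5 : M.inv (M.inv z) = z := h.inv_inv z hzD
          have h6 : M.inv (M.inv z) ∈ G := h4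
          rw [h5] at h6
          exact h6
        · exfalso
          have h4' : M.inv z = L m := h4
          have h5 : z = M.inv (L m) := by rw [← h4', h.inv_inv z hzD]
          have h6 : M.SameV (L (i + 1)) (L (m + 1)) := by
            have h7 := C.path m
            rw [← h5] at h7
            exact h.sameV_trans h3 h7
          have h7 := C.simple _ _ h6
          have h8 : m = i := by omega
          rw [h8] at h5
          exact hzu h5)
    have h4 : M.inv (M.inv (L i)) ∈ G ↔ M.inv (L i) ∈ G := key
    rw [h.inv_inv _ hLD] at h4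
    exact C.line_out i (hG (h4.1 hi))
  · exact h.closed_empty G hI fun d hd => (h2 d hd).resolve_right fun ⟨i, hi⟩ =>
      hL ⟨i, hi ▸ hd⟩

end Cutting

end Pool.Agent.Spd
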