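import Pool.Agent.Spd.Orbit

/-!
(Part `CutA1`: `L_inj`, `L_memD`, `fc_mem_iff`, `mem_cut_iff`, `cut_inner`, `cut_fc`, `cut_fc_outer`.  The text below is the common header of the parts.)

# SPD A03: cutting a region out of a map, basic facts

`M.cut R L` has the darts `d ∈ D` with `d ∈ R` or `inv d ∈ R`, the same `inv`, the same `fc` on
`R`, the line `L` as boundary and `fc (inv (L i)) = inv (L (i-1))`.  `Cutting M R L` lists the
conditions.

* `mem_cut_iff`: a dart `d` with `d ∉ R`, `inv d ∈ R` is `inv (L i)` (`only` for `inv d`,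
  `inv_inv`), so the darts of the cut are `R` and the `inv (L i)`.
* `cut_inner`: `inv (L i) ∉ R` (`line_out`); if `d` is inner in the cut then it is not an
  `inv (L i)`, so it is in `R`.
* `L_inj`: `L i = L j` gives `SameV (L i) (L j)`.
* `cut_fc_outer`: `inv (L i) ∉ R`, and the index `i` is determined by `inv (L i)` (`inv_inv`,
  `L_inj`), so the chosen index is `i`.
* `cut_sameV` (KEY).  First: for `x` in the cut, `(cut).rot x` is the first return of `rot` to the
  cut: there is `n ≥ 1` with `(cut).rot x = M.rot^[n] x` and `M.rot^[m] x` not in the cut for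
  `0 < m < n`.  If `inv x ∈ R` then `(cut).rot x = fc (inv x) = M.rot x` (`n = 1`).  Otherwise
  `x ∈ R`, `inv x ∉ R`, so `x = L i` and `(cut).rot x = inv (L (i-1))`, which has the same
  `M`-origin as `L i` (`path` for `i-1`).  Let `n ≥ 1` be minimal with `y := M.rot^[n] (L i)` in
  the cut (it exists, e.g. the period), `z = M.rot^[n-1] (L i)`, so `y = fc (inv z)`.  If `y ∈ R`
  then `inv z ∈ R` (`fc` is injective on darts, `y = fc (fc (fc y))` and `R` is `fc`-invariant), so
  `z` is in the cut, so `n - 1 = 0` by minimality, `z = L i`, `inv (L i) ∈ R`: contradiction.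
  So `y = inv (L m)`, whose origin is that of `L (m+1)` (`path`) and of `L i`, so `m + 1 = i`
  (`simple`): `y = inv (L (i-1))`.
  Consequently `(cut).SameV` is contained in `M.SameV`; conversely if `M.rot^[n] x = e`, both in
  the cut, strong induction on `n`: the first return of `x` is `M.rot^[k] x` with `k ≤ n`.
* `star_principle`: if no `L i` is in `G` then `closed_empty`.  Otherwise let `i` be maximal with
  `L i ∈ G` (`G` is finite, `L` injective), `u = inv (L i)`, which has the origin of `L (i+1)`.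
  Let `z ≠ u` be a dart at this vertex with different status from `inv z`.  If `z ∈ G` then
  `z = L m` with the origin of `L (i+1)`, so `m = i + 1`, against maximality.  If `inv z ∈ G`,
  then `inv z = L m`, `z = inv (L m)` has the origin of `L (m+1)`, so `m = i`, `z = u`.  So
  `HPT.rotation_single` gives `L i = inv u ∈ G ↔ u ∈ G`; but `u = inv (L i) ∉ R`.
-/

namespace Pool.Agent.Spd

namespace Cutting

variable {M : PreMap} {R : Set ℕ} {L : ℤ → ℕ}

theorem L_inj (C : Cutting M R L) {i j : ℤ} (hij : L i = L j) : i = j :=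
  C.simple i j ⟨0, hij⟩

theorem L_memD (C : Cutting M R L) (i : ℤ) : L i ∈ M.D := (C.sub _ (C.line_mem i)).1

theorem fc_mem_iff (h : M.IsHPT) (C : Cutting M R L) {d : ℕ} (hd : d ∈ M.D) :
    M.fc d ∈ R ↔ d ∈ R := by
  constructor
  · intro h1
    by_cases hI : M.Inner d
    · have h2 := C.fc_mem _ (C.fc_mem _ h1)
      rwa [h.fc_tri d hI] at h2
    · exfalso
      have h2 : ∃ i, d = M.inv (M.bd i) := by
        by_contra h3
        push Not at h3
        exact hI ⟨hd, h3⟩
      obtain ⟨i, rfl⟩ := h2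
      rw [h.fc_outer] at h1
      exact (C.sub _ h1).2 (i - 1) rfl
  · exact C.fc_mem d

theorem mem_cut_iff (h : M.IsHPT) (C : Cutting M R L) (d : ℕ) :
    d ∈ (M.cut R L).D ↔ d ∈ R ∨ ∃ i, d = M.inv (L i) := by
  constructor
  · rintro ⟨hd, h1 | h1⟩
    · exact Or.inl h1
    · rcases C.only _ h1 with h2 | ⟨i, h2⟩
      · rw [h.inv_inv d hd] at h2
        exact Or.inl h2
      · refine Or.inr ⟨i, ?_⟩
        rw [← h2, h.inv_inv d hd]
  · rintro (h1 | ⟨i, rfl⟩)
    · exact ⟨(C.sub d h1).1, Or.inl h1⟩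
    · refine ⟨h.inv_mem _ (C.L_memD i), Or.inr ?_⟩
      rw [h.inv_inv _ (C.L_memD i)]
      exact C.line_mem i

theorem cut_inner (h : M.IsHPT) (C : Cutting M R L) (d : ℕ) :
    (M.cut R L).Inner d ↔ d ∈ R := by
  constructor
  · rintro ⟨h1, h2⟩
    rcases (C.mem_cut_iff h d).1 h1 with h3 | ⟨i, h3⟩
    · exact h3
    · exact absurd h3 (h2 i)
  · intro h1
    refine ⟨(C.mem_cut_iff h d).2 (Or.inl h1), fun i hi => ?_⟩
    have h2 : d = M.inv (L i) := hi
    rw [h2] at h1
    exact C.line_out i h1

theorem cut_fc (C : Cutting M R L) {d : ℕ} (hd : d ∈ R) : (M.cut R L).fc d = M.fc d :=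
  if_pos hd

theorem cut_fc_outer (h : M.IsHPT) (C : Cutting M R L) (i : ℤ) :
    (M.cut R L).fc (M.inv (L i)) = M.inv (L (i - 1)) := by
  have hex : ∃ j, M.inv (L i) = M.inv (L j) := ⟨i, rfl⟩
  have h1 : (M.cut R L).fc (M.inv (L i)) = M.inv (L (hex.choose - 1)) :=
    (if_neg (C.line_out i)).trans (dif_pos hex)
  have h2 : hex.choose = i := by
    have h3 := congrArg M.inv hex.choose_spec
    rw [h.inv_inv _ (C.L_memD i), h.inv_inv _ (C.L_memD _)] at h3
    exact (C.L_inj h3).symm
  rw [h1, h2]

end Cutting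

end Pool.Agent.Spd
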