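import Pool.Agent.Spd.CutA

/-!
(Part `CutB2`: `cut_acyc`.  The text below is the common header of the parts.)

# SPD A04: a cut of a half-planar triangulation is a half-planar triangulation

Use `mem_cut_iff`, `cut_inner`, `cut_fc`, `cut_fc_outer`, `cut_sameV`, `star_principle` of `CutA`.

* `inv_mem`: if `d ∈ R` then `inv (inv d) = d ∈ R`; if `d = inv (L i)` then `inv d = L i ∈ R`.
* `bd_inner`, `fc_outer`, `fc_inner`, `fc_tri`: directly (`(cut).fc = fc` on `R`).
* `rot_fin`: the cut is finite at each vertex and `(cut).rot` is injective on the darts of the cut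
  (`cut_rot`: first return map of a periodic permutation), or: by `cut_rot` the iterates of
  `(cut).rot` are `M.rot^[n_1] x, M.rot^[n_2] x, ...` with `n_1 < n_2 < ...` listing all returns;
  `M.rot^[deg] x = x` is a return.
* `loopless`, `simple`: `cut_sameV` and `loopless` of `M`, `C.simple`.
* `conn`: let `S` be the set of darts of the cut related (in the cut) to the outer darts
  `inv (L 0)`; all `inv (L i)` are in `S` (`cut_fc_outer`).  Let `d ∈ R`.  Suppose `d ∉ S`.  The
  set `T = R \ S` is invariant in `M` in both directions under `fc` and `inv`: `fc`: clear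
  (`(cut).fc = fc` on `R`, `fc_mem_iff`).  `inv`: if `x ∈ T` then `inv x ∈ R` (otherwise `x = L i`
  is related to `inv (L i)`, so `x ∈ S`) and `inv x ∉ S`.  By `conn` of `M` all darts of `M` are
  in `T`, but `inv (M.bd 0)` is not inner.
* `acyc`: let `c` be a finite set of darts of the cut, `inv`-invariant, even at each vertex of the
  cut.  By `cut_sameV`, for `d` in the cut the set `{e ∈ c | M.SameV d e}` is the same as in the
  cut; for `d ∈ M.D` whose `M`-orbit meets `c`, take a dart of `c` in it (orbits are equivalence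
  classes); so `c` is even at each vertex of `M`.  Take `F` from `acyc` of `M` and let
  `F₁ = F.filter (· ∈ R)`, `F₂ = F.filter (· ∉ R)`.  CLAIM `F₂ = ∅`.  Both are `fc`-invariant.  If
  `d ∈ F₂` and `inv d ∉ F₂` then `d = inv (L i)` for some `i`, or `inv d = L i`, i.e. always
  `inv d = L i ∈ R`: if `inv d ∈ F` then `inv d ∈ R` but `d ∉ R`, so `inv d = L i` by `only`;
  if `inv d ∉ F` then `d ∈ c` is in the cut and not in `R`, so `d = inv (L i)`.  Suppose
  `F₂ ≠ ∅`.  If no `d ∈ F₂` has `inv d ∉ F₂` then `closed_empty`.  Otherwise let `i` be maximal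
  with `inv (L i) ∈ F₂` and look at the vertex of `L (i+1)`: the dart `u = inv (L i)` is the only
  dart `z` there with `z ∈ F₂` different from `inv z ∈ F₂` (if `z ∈ F₂`, `inv z ∉ F₂` then
  `inv z = L m`, `m = i` by `simple`; if `inv z ∈ F₂`, `z ∉ F₂` then `z = L m`, so `m = i + 1`
  and `inv (L (i+1)) ∈ F₂` against maximality).  `HPT.rotation_single` gives
  `inv u ∈ F₂ ↔ u ∈ F₂`, but `inv u = L i ∈ R`, so not in `F₂`: contradiction.
  So `F ⊆ R` and `F` works for the cut.
-/

namespace Pool.Agent.Spd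

namespace Cutting

variable {M : PreMap} {R : Set ℕ} {L : ℤ → ℕ}

theorem cut_acyc (h : M.IsHPT) (C : Cutting M R L) (c : Finset ℕ)
    (hc : ∀ d ∈ c, d ∈ (M.cut R L).D ∧ (M.cut R L).inv d ∈ c)
    (he : ∀ d ∈ (M.cut R L).D, Even (Set.ncard {e | e ∈ c ∧ (M.cut R L).SameV d e})) :
    ∃ F : Finset ℕ, (∀ d ∈ F, (M.cut R L).Inner d ∧ (M.cut R L).fc d ∈ F) ∧
      ∀ d ∈ (M.cut R L).D, (d ∈ c ↔ ¬ (d ∈ F ↔ (M.cut R L).inv d ∈ F)) := by
  classical
  have hcutD : ∀ d, d ∈ (M.cut R L).D → d ∈ M.D := fun d hd => hd.1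
  have hc' : ∀ d ∈ c, d ∈ M.D ∧ M.inv d ∈ c := fun d hd => ⟨hcutD d (hc d hd).1, (hc d hd).2⟩
  have he' : ∀ d ∈ M.D, Even (Set.ncard {e | e ∈ c ∧ M.SameV d e}) := by
    intro d hd
    by_cases hex : ∃ e0 ∈ c, M.SameV d e0
    · obtain ⟨e0, he0, hs0⟩ := hex
      have hD0 := (hc e0 he0).1
      have heq : {e | e ∈ c ∧ M.SameV d e} = {e | e ∈ c ∧ (M.cut R L).SameV e0 e} := by
        ext e
        simp only [Set.mem_ofPred_eq]
        constructor
        · rintro ⟨h1, h2⟩
          exact ⟨h1, (cut_sameV h C hD0 e).2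
            ⟨h.sameV_trans (h.sameV_symm hd hs0) h2, (hc e h1).1⟩⟩
        · rintro ⟨h1, h2⟩
          exact ⟨h1, h.sameV_trans hs0 ((cut_sameV h C hD0 e).1 h2).1⟩
      rw [heq]
      exact he e0 hD0
    · have heq : {e | e ∈ c ∧ M.SameV d e} = ∅ := by
        ext e
        simp only [Set.mem_ofPred_eq, Set.mem_empty_iff_false, iff_false]
        rintro ⟨h1, h2⟩
        exact hex ⟨e, h1, h2⟩
      rw [heq]
      simp
  obtain ⟨F, hF1, hF2⟩ := h.acyc c hc' he'
  have hLD : ∀ i, L i ∈ M.D := fun i => L_memD C i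
  set F₂ : Finset ℕ := F.filter (fun d => d ∉ R) with hF₂
  have hmem : ∀ d, d ∈ F₂ ↔ d ∈ F ∧ d ∉ R := fun d => by rw [hF₂, Finset.mem_filter]
  have hF₂1 : ∀ d ∈ F₂, M.Inner d ∧ M.fc d ∈ F₂ := by
    intro d hd
    obtain ⟨hdF, hdR⟩ := (hmem d).1 hd
    refine ⟨(hF1 d hdF).1, (hmem _).2 ⟨(hF1 d hdF).2, fun hx => hdR ?_⟩⟩
    exact (fc_mem_iff h C (hF1 d hdF).1.1).1 hx
  have key : ∀ d ∈ F₂, M.inv d ∉ F₂ → ∃ i, M.inv d = L i := by
    intro d hd hn
    obtain ⟨hdF, hdR⟩ := (hmem d).1 hd
    have hdD : d ∈ M.D := (hF1 d hdF).1.1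
    by_cases hi : M.inv d ∈ F
    · have hiR : M.inv d ∈ R := by
        by_contra hx
        exact hn ((hmem _).2 ⟨hi, hx⟩)
      rcases C.only _ hiR with h1 | h1
      · rw [h.inv_inv d hdD] at h1
        exact absurd h1 hdR
      · exact h1
    · have hdc : d ∈ c := (hF2 d hdD).2 (fun hx => hi (hx.1 hdF))
      rcases (mem_cut_iff h C d).1 (hc d hdc).1 with h1 | ⟨i, h1⟩
      · exact absurd h1 hdR
      · exact ⟨i, by rw [h1, h.inv_inv _ (hLD i)]⟩
  have hempty : F₂ = ∅ := by
    by_cases hall : ∀ d ∈ F₂, M.inv d ∈ F₂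
    · exact h.closed_empty F₂ hF₂1 hall
    · exfalso
      push Not at hall
      obtain ⟨d0, hd0, hn0⟩ := hall
      obtain ⟨i0, hi0⟩ := key d0 hd0 hn0
      have hd0D : d0 ∈ M.D := (hF₂1 d0 hd0).1.1
      have hfin : {i : ℤ | M.inv (L i) ∈ F₂}.Finite := by
        apply Set.Finite.preimage (f := fun i : ℤ => M.inv (L i)) (s := (↑F₂ : Set ℕ))
        · intro i _ j _ hij
          have hij' : M.inv (L i) = M.inv (L j) := hij
          have h2 : L i = L j := by
            rw [← h.inv_inv _ (hLD i), hij', h.inv_inv _ (hLD j)]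
          exact L_inj C h2
        · exact F₂.finite_toSet
      have hne : {i : ℤ | M.inv (L i) ∈ F₂}.Nonempty := by
        refine ⟨i0, ?_⟩
        simp only [Set.mem_ofPred_eq]
        rw [← hi0, h.inv_inv _ hd0D]
        exact hd0
      obtain ⟨i, hiI, himax⟩ := Set.exists_max_image _ (fun x : ℤ => x) hfin hne
      simp only [Set.mem_ofPred_eq] at hiI himax
      have huD : M.inv (L i) ∈ M.D := h.inv_mem _ (hLD i)
      have hup : M.SameV (M.inv (L i)) (L (i + 1)) := C.path i
      have hno : ∀ z, M.SameV (M.inv (L i)) z → z ≠ M.inv (L i) →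
          (z ∈ (↑F₂ : Set ℕ) ↔ M.inv z ∈ (↑F₂ : Set ℕ)) := by
        intro z hz hzne
        have hzD : z ∈ M.D := h.sameV_mem huD hz
        constructor
        · intro hz1
          by_contra hz2
          obtain ⟨m, hm⟩ := key z hz1 hz2
          have hzm : z = M.inv (L m) := by rw [← hm, h.inv_inv _ hzD]
          have h3 : M.SameV (L (i + 1)) (L (m + 1)) := by
            refine h.sameV_trans (h.sameV_symm huD hup) (h.sameV_trans hz ?_)
            rw [hzm]
            exact C.path m
          have h4 := C.simple _ _ h3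
          have h5 : m = i := by omega
          rw [h5] at hzm
          exact hzne hzm
        · intro hz1
          by_contra hz2
          have hz3 : M.inv (M.inv z) ∉ F₂ := by
            rw [h.inv_inv _ hzD]
            exact hz2
          obtain ⟨m, hm⟩ := key (M.inv z) hz1 hz3
          rw [h.inv_inv _ hzD] at hm
          have h3 : M.SameV (L (i + 1)) (L m) := by
            refine h.sameV_trans (h.sameV_symm huD hup) ?_
            rw [← hm]
            exact hz
          have h4 := C.simple _ _ h3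
          have h5 : M.inv (L (i + 1)) ∈ F₂ := by
            rw [h4, ← hm]
            exact hz1
          have h6 := himax (i + 1) h5
          omega
      have hrot := HPT.rotation_single (H := ⟨M, h⟩) (G := (↑F₂ : Set ℕ)) hF₂1 huD hno
      have h7 : M.inv (M.inv (L i)) ∈ (↑F₂ : Set ℕ) := hrot.2 hiI
      rw [h.inv_inv _ (hLD i)] at h7
      exact ((hmem _).1 h7).2 (C.line_mem i)
  have hFR : ∀ d ∈ F, d ∈ R := by
    intro d hd
    by_contra hx
    have : d ∈ F₂ := (hmem d).2 ⟨hd, hx⟩
    rw [hempty] at this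
    exact absurd this (Finset.notMem_empty d)
  refine ⟨F, fun d hd => ⟨(cut_inner h C d).2 (hFR d hd), ?_⟩, fun d hd => hF2 d (hcutD d hd)⟩
  rw [cut_fc C (hFR d hd)]
  exact (hF1 d hd).2

end Cutting

end Pool.Agent.Spd
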