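import Pool.Agent.Spd.CutB1
import Pool.Agent.Spd.CutB2

/-!
(Part `CutB3`: `isHPT`.  The text below is the common header of the parts.)

# SPD A04: a cut of a half-planar triangulation is a half-planar triangulation

Use `mem_cut_iff`, `cut_inner`, `cut_fc`, `cut_fc_outer`, `cut_sameV`, `star_principle` of `CutA`.

* `inv_mem`: if `d ∈ R` then `inv (inv d) = d ∈ R`; if `d = inv (L i)` then `inv d = L i ∈ R`.
* `bd_inner`, `fc_outer`, `fc_inner`, `fc_tri`: directly (`(cut).fc = fc` on `R`).
* `rot_fin`: the cut is finite at each vertex and `(cut).rot` is injective on the darts of the cut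
  (`cut_rot`: first return map of a periodic permutation), or: by `cut_rot` the iterates of
  `(cut).rot` are `M.rot^[n_1] x, M.rot^[n_2] x, ...` with `n_1 < n_2 < ...` listing all returns;
  `M.rot^[deg] x = x` is a return.
* `loopless`, `simple`: `cut_sameV` and `loopless` of `M`, `C.simple`.
* `conn`: let `S` be the set of darts of the cut related (in the cut) to the outer darts
  `inv (L 0)`; all `inv (L i)` are in `S` (`cut_fc_outer`).  Let `d ∈ R`.  Suppose `d ∉ S`.  The
  set `T = R \ S` is invariant in `M` in both directions under `fc` and `inv`: `fc`: clear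
  (`(cut).fc = fc` on `R`, `fc_mem_iff`).  `inv`: if `x ∈ T` then `inv x ∈ R` (otherwise `x = L i`
  is related to `inv (L i)`, so `x ∈ S`) and `inv x ∉ S`.  By `conn` of `M` all darts of `M` are
  in `T`, but `inv (M.bd 0)` is not inner.
* `acyc`: let `c` be a finite set of darts of the cut, `inv`-invariant, even at each vertex of the
  cut.  By `cut_sameV`, for `d` in the cut the set `{e ∈ c | M.SameV d e}` is the same as in the
  cut; for `d ∈ M.D` whose `M`-orbit meets `c`, take a dart of `c` in it (orbits are equivalence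
  classes); so `c` is even at each vertex of `M`.  Take `F` from `acyc` of `M` and let
  `F₁ = F.filter (· ∈ R)`, `F₂ = F.filter (· ∉ R)`.  CLAIM `F₂ = ∅`.  Both are `fc`-invariant.  If
  `d ∈ F₂` and `inv d ∉ F₂` then `d = inv (L i)` for some `i`, or `inv d = L i`, i.e. always
  `inv d = L i ∈ R`: if `inv d ∈ F` then `inv d ∈ R` but `d ∉ R`, so `inv d = L i` by `only`;
  if `inv d ∉ F` then `d ∈ c` is in the cut and not in `R`, so `d = inv (L i)`.  Suppose
  `F₂ ≠ ∅`.  If no `d ∈ F₂` has `inv d ∉ F₂` then `closed_empty`.  Otherwise let `i` be maximal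
  with `inv (L i) ∈ F₂` and look at the vertex of `L (i+1)`: the dart `u = inv (L i)` is the only
  dart `z` there with `z ∈ F₂` different from `inv z ∈ F₂` (if `z ∈ F₂`, `inv z ∉ F₂` then
  `inv z = L m`, `m = i` by `simple`; if `inv z ∈ F₂`, `z ∉ F₂` then `z = L m`, so `m = i + 1`
  and `inv (L (i+1)) ∈ F₂` against maximality).  `HPT.rotation_single` gives
  `inv u ∈ F₂ ↔ u ∈ F₂`, but `inv u = L i ∈ R`, so not in `F₂`: contradiction.
  So `F ⊆ R` and `F` works for the cut.
-/

namespace Pool.Agent.Spd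

namespace Cutting

variable {M : PreMap} {R : Set ℕ} {L : ℤ → ℕ}

theorem isHPT (h : M.IsHPT) (C : Cutting M R L) : (M.cut R L).IsHPT where
  inv_mem d hd := by
    refine ⟨h.inv_mem d hd.1, ?_⟩
    rcases hd.2 with h1 | h1
    · right
      change M.inv (M.inv d) ∈ R
      rwa [h.inv_inv d hd.1]
    · exact Or.inl h1
  inv_inv d hd := h.inv_inv d hd.1
  inv_ne d hd := h.inv_ne d hd.1
  bd_inner i := (C.cut_inner h _).2 (C.line_mem i)
  fc_outer i := C.cut_fc_outer h i
  fc_inner d hd := by
    have h1 := (C.cut_inner h _).1 hd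
    rw [C.cut_fc h1]
    exact (C.cut_inner h _).2 (C.fc_mem d h1)
  fc_tri d hd := by
    have h1 := (C.cut_inner h _).1 hd
    have h2 := C.fc_mem d h1
    have h3 := C.fc_mem _ h2
    rw [C.cut_fc h1, C.cut_fc h2, C.cut_fc h3]
    exact h.fc_tri d (C.sub d h1)
  rot_fin d hd := by
    have h1 : (M.cut R L).SameV d ((M.cut R L).rot d) := ⟨1, rfl⟩
    obtain ⟨h2, h3⟩ := (C.cut_sameV h hd _).1 h1
    have h4 := h.sameV_symm hd.1 h2
    obtain ⟨n, hn⟩ := (C.cut_sameV h h3 d).2 ⟨h4, hd⟩
    exact ⟨n + 1, Nat.succ_pos n, hn⟩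
  loopless d hd h1 := h.loopless d hd.1 ((C.cut_sameV h hd _).1 h1).1
  simple i j hij := by
    have h1 : L i ∈ (M.cut R L).D := ((C.cut_inner h _).2 (C.line_mem i)).1
    exact C.simple i j ((C.cut_sameV h h1 _).1 hij).1
  conn := C.cut_conn h
  acyc := C.cut_acyc h

end Cutting

end Pool.Agent.Spd
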