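import Pool.Agent.Spd.CutA

/-!
(Part `CutB1`: `cut_conn`.  The text below is the common header of the parts.)

# SPD A04: a cut of a half-planar triangulation is a half-planar triangulation

Use `mem_cut_iff`, `cut_inner`, `cut_fc`, `cut_fc_outer`, `cut_sameV`, `star_principle` of `CutA`.

* `inv_mem`: if `d ∈ R` then `inv (inv d) = d ∈ R`; if `d = inv (L i)` then `inv d = L i ∈ R`.
* `bd_inner`, `fc_outer`, `fc_inner`, `fc_tri`: directly (`(cut).fc = fc` on `R`).
* `rot_fin`: the cut is finite at each vertex and `(cut).rot` is injective on the darts of the cut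
  (`cut_rot`: first return map of a periodic permutation), or: by `cut_rot` the iterates of
  `(cut).rot` are `M.rot^[n_1] x, M.rot^[n_2] x, ...` with `n_1 < n_2 < ...` listing all returns;
  `M.rot^[deg] x = x` is a return.
* `loopless`, `simple`: `cut_sameV` and `loopless` of `M`, `C.simple`.
* `conn`: let `S` be the set of darts of the cut related (in the cut) to the outer darts
  `inv (L 0)`; all `inv (L i)` are in `S` (`cut_fc_outer`).  Let `d ∈ R`.  Suppose `d ∉ S`.  The
  set `T = R \ S` is invariant in `M` in both directions under `fc` and `inv`: `fc`: clear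
  (`(cut).fc = fc` on `R`, `fc_mem_iff`).  `inv`: if `x ∈ T` then `inv x ∈ R` (otherwise `x = L i`
  is related to `inv (L i)`, so `x ∈ S`) and `inv x ∉ S`.  By `conn` of `M` all darts of `M` are
  in `T`, but `inv (M.bd 0)` is not inner.
* `acyc`: let `c` be a finite set of darts of the cut, `inv`-invariant, even at each vertex of the
  cut.  By `cut_sameV`, for `d` in the cut the set `{e ∈ c | M.SameV d e}` is the same as in the
  cut; for `d ∈ M.D` whose `M`-orbit meets `c`, take a dart of `c` in it (orbits are equivalence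
  classes); so `c` is even at each vertex of `M`.  Take `F` from `acyc` of `M` and let
  `F₁ = F.filter (· ∈ R)`, `F₂ = F.filter (· ∉ R)`.  CLAIM `F₂ = ∅`.  Both are `fc`-invariant.  If
  `d ∈ F₂` and `inv d ∉ F₂` then `d = inv (L i)` for some `i`, or `inv d = L i`, i.e. always
  `inv d = L i ∈ R`: if `inv d ∈ F` then `inv d ∈ R` but `d ∉ R`, so `inv d = L i` by `only`;
  if `inv d ∉ F` then `d ∈ c` is in the cut and not in `R`, so `d = inv (L i)`.  Suppose
  `F₂ ≠ ∅`.  If no `d ∈ F₂` has `inv d ∉ F₂` then `closed_empty`.  Otherwise let `i` be maximal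
  with `inv (L i) ∈ F₂` and look at the vertex of `L (i+1)`: the dart `u = inv (L i)` is the only
  dart `z` there with `z ∈ F₂` different from `inv z ∈ F₂` (if `z ∈ F₂`, `inv z ∉ F₂` then
  `inv z = L m`, `m = i` by `simple`; if `inv z ∈ F₂`, `z ∉ F₂` then `z = L m`, so `m = i + 1`
  and `inv (L (i+1)) ∈ F₂` against maximality).  `HPT.rotation_single` gives
  `inv u ∈ F₂ ↔ u ∈ F₂`, but `inv u = L i ∈ R`, so not in `F₂`: contradiction.
  So `F ⊆ R` and `F` works for the cut.
-/

namespace Pool.Agent.Spd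

namespace Cutting

variable {M : PreMap} {R : Set ℕ} {L : ℤ → ℕ}

theorem cut_conn (h : M.IsHPT) (C : Cutting M R L) : ∀ d ∈ (M.cut R L).D, ∀ e ∈ (M.cut R L).D,
    Relation.EqvGen (fun x y => x ∈ (M.cut R L).D ∧
      (y = (M.cut R L).inv x ∨ y = (M.cut R L).fc x)) d e := by
  set E := Relation.EqvGen (fun x y => x ∈ (M.cut R L).D ∧
      (y = (M.cut R L).inv x ∨ y = (M.cut R L).fc x)) with hE
  have hinv : ∀ x ∈ (M.cut R L).D, E x (M.inv x) := fun x hx =>
    Relation.EqvGen.rel _ _ ⟨hx, Or.inl rfl⟩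
  have hfc : ∀ x ∈ (M.cut R L).D, E x ((M.cut R L).fc x) := fun x hx =>
    Relation.EqvGen.rel _ _ ⟨hx, Or.inr rfl⟩
  have hLD : ∀ i, M.inv (L i) ∈ (M.cut R L).D := fun i => (mem_cut_iff h C _).2 (Or.inr ⟨i, rfl⟩)
  have hRD : ∀ x ∈ R, x ∈ (M.cut R L).D := fun x hx => (mem_cut_iff h C _).2 (Or.inl hx)
  -- the outer darts
  have hprev : ∀ i, E (M.inv (L i)) (M.inv (L (i - 1))) := by
    intro i
    have h1 := hfc _ (hLD i)
    rwa [cut_fc_outer h C] at h1
  have hout : ∀ i : ℤ, E (M.inv (L 0)) (M.inv (L i)) := by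
    intro i
    induction i using Int.induction_on with
    | zero => exact Relation.EqvGen.refl _
    | succ n ih =>
      refine ih.trans _ _ _ (Relation.EqvGen.symm _ _ ?_)
      have h1 := hprev ((n : ℤ) + 1)
      rwa [add_sub_cancel_right] at h1
    | pred n ih => exact ih.trans _ _ _ (hprev _)
  -- the inner darts
  have hin : ∀ x ∈ R, E (M.inv (L 0)) x := by
    by_contra hcon
    push Not at hcon
    obtain ⟨d₀, hd₀, hd₀'⟩ := hcon
    have hI : ∀ x, x ∈ M.D → x ∈ R ∧ ¬ E (M.inv (L 0)) x →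
        M.inv x ∈ R ∧ ¬ E (M.inv (L 0)) (M.inv x) := by
      rintro x _ ⟨hx1, hx2⟩
      have h1 : M.inv x ∈ R := by
        rcases C.only x hx1 with h2 | ⟨i, rfl⟩
        · exact h2
        · exfalso
          apply hx2
          refine (hout i).trans _ _ _ ?_
          have h3 := hinv _ (hLD i)
          rwa [h.inv_inv _ (L_memD C i)] at h3
      refine ⟨h1, fun h2 => hx2 ?_⟩
      exact h2.trans _ _ _ (Relation.EqvGen.symm _ _ (hinv x (hRD x hx1)))
    have hF : ∀ x, x ∈ M.D → (x ∈ R ∧ ¬ E (M.inv (L 0)) x ↔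
        M.fc x ∈ R ∧ ¬ E (M.inv (L 0)) (M.fc x)) := by
      intro x hx
      constructor
      · rintro ⟨hx1, hx2⟩
        refine ⟨C.fc_mem x hx1, fun h2 => hx2 ?_⟩
        have h3 := hfc x (hRD x hx1)
        rw [cut_fc C hx1] at h3
        exact h2.trans _ _ _ (Relation.EqvGen.symm _ _ h3)
      · rintro ⟨hx1, hx2⟩
        have hx3 : x ∈ R := (fc_mem_iff h C hx).1 hx1
        refine ⟨hx3, fun h2 => hx2 ?_⟩
        have h3 := hfc x (hRD x hx3)
        rw [cut_fc C hx3] at h3
        exact h2.trans _ _ _ h3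
    have key : ∀ x y, Relation.EqvGen (fun x y => x ∈ M.D ∧ (y = M.inv x ∨ y = M.fc x)) x y →
        (x ∈ R ∧ ¬ E (M.inv (L 0)) x ↔ y ∈ R ∧ ¬ E (M.inv (L 0)) y) := by
      intro x y hxy
      induction hxy with
      | rel x y hxy =>
        obtain ⟨hx, rfl | rfl⟩ := hxy
        · refine ⟨hI x hx, fun hy => ?_⟩
          have h1 := hI _ (h.inv_mem x hx) hy
          rwa [h.inv_inv x hx] at h1
        · exact hF x hx
      | refl x => exact Iff.rfl
      | symm x y _ ih => exact ih.symm
      | trans x y z _ _ ih1 ih2 => exact ih1.trans ih2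
    have h1 := h.conn d₀ (C.sub d₀ hd₀).1 (M.inv (M.bd 0)) (h.inv_mem _ (h.bd_inner 0).1)
    have h2 := (key _ _ h1).1 ⟨hd₀, hd₀'⟩
    exact (C.sub _ h2.1).2 0 rfl
  have hall : ∀ x ∈ (M.cut R L).D, E (M.inv (L 0)) x := by
    intro x hx
    rcases (mem_cut_iff h C x).1 hx with h1 | ⟨i, rfl⟩
    · exact hin x h1
    · exact hout i
  intro d hd e he
  exact (Relation.EqvGen.symm _ _ (hall d hd)).trans _ _ _ (hall e he)

end Cutting

end Pool.Agent.Spd
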