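import Pool.Agent.Spd.CutC1

/-!
(Part `CutC2`: `Sub.refl`, `Sub.shift`, `Sub.shift'`, `Sub.eqv`, `Sub.inner`, `Sub.memD`, `Sub.sameV`, `Sub.trans`, `Sub.of_cutting`, `Sub.restrict`.  The text below is the common header of the parts.)

# SPD A05: nested cuts and sub-maps

* `cut_cut`: the darts: `d ∈ R'` or `inv d ∈ R'` with `R' ⊆ R`.  `fc`: on `R'` both are `M.fc`
  (`cut` on `R`); otherwise both are given by the same formula (`inv` is the same).
* `Cutting.trans`: `(cut).Inner = R`, `(cut).fc = fc` on `R`, `(cut).SameV` implies `M.SameV`; for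
  `simple`: `L' i`, `L' j` are in the cut, so `M.SameV` gives `(cut).SameV` (`cut_sameV`).
* `Cutting.restrict`: the same in the other direction; `path`: `inv (L' i)` is in the outer cut
  because `L' i ∈ R' ⊆ R`.
* `Eqv`: `rot` agrees on `D` (`inv` maps `D` to `D`), so iterates agree; `Inner` agrees;
  `Eqv.cut`: literal equality, since `cut` uses `fc` only on `R ⊆ D`.
* `Sub.eqv`: compare `mem_iff`, `fc_eq` and `fc_outer` (both maps are HPT) with the definition of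
  `cut`.
* `Sub.sameV`: through `Sub.eqv` and `cut_sameV`.
* `Sub.trans`: `Cutting.trans` transported with `Sub.eqv` (a `Cutting` of `H₁.M` is a `Cutting` of
  the equivalent map `H.M.cut ..`), finiteness: union of two finite sets.
* `Sub.of_cutting`: for a `Cutting H.M R L` with `{d | H.M.Inner d ∧ d ∉ R}` finite, the HPT
  `⟨H.M.cut R L, _⟩` is a sub-map.
* `Sub.restrict`: if `G₂` and `G₁` are sub-maps of `H` and the inner darts of `G₂` are inner in
  `G₁`, then `G₂` is a sub-map of `G₁`.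
-/

namespace Pool.Agent.Spd

namespace PreMap.Eqv

variable {M M' : PreMap}

end PreMap.Eqv

namespace HPT

private theorem shift_inner (G : HPT) (i : ℤ) (d : ℕ) : (G.shift i).M.Inner d ↔ G.M.Inner d := by
  constructor
  · rintro ⟨h1, h2⟩
    refine ⟨h1, fun j hj => h2 (j - i) ?_⟩
    have h3 : (G.shift i).M.bd (j - i) = G.M.bd (j - i + i) := rfl
    have h4 : (G.shift i).M.inv = G.M.inv := rfl
    rw [h3, h4, sub_add_cancel]
    exact hj
  · rintro ⟨h1, h2⟩
    exact ⟨h1, fun j hj => h2 (j + i) hj⟩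

theorem Sub.refl (H : HPT) : Sub H H := by
  refine ⟨⟨fun d hd => hd, fun d hd => H.ok.fc_inner d hd, fun i => H.ok.bd_inner i,
    fun i hi => hi.2 i rfl, fun d hd => ?_, fun i => PreMap.IsHPT.bd_next H.ok i, H.ok.simple⟩,
    fun d => ⟨fun hd => ⟨hd, ?_⟩, fun hd => hd.1⟩, rfl, fun _ _ => rfl, ?_⟩
  · by_cases h1 : H.M.Inner (H.M.inv d)
    · exact Or.inl h1
    · right
      have h2 : ∃ i, H.M.inv d = H.M.inv (H.M.bd i) := by
        by_contra h3
        push Not at h3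
        exact h1 ⟨H.ok.inv_mem d hd.1, h3⟩
      obtain ⟨i, hi⟩ := h2
      refine ⟨i, ?_⟩
      rw [← H.ok.inv_inv d hd.1, hi, H.ok.inv_inv _ (H.ok.bd_inner i).1]
  · by_cases h1 : H.M.Inner d
    · exact Or.inl h1
    · right
      have h2 : ∃ i, d = H.M.inv (H.M.bd i) := by
        by_contra h3
        push Not at h3
        exact h1 ⟨hd, h3⟩
      obtain ⟨i, hi⟩ := h2
      rw [hi, H.ok.inv_inv _ (H.ok.bd_inner i).1]
      exact H.ok.bd_inner i
  · have h1 : {d | H.M.Inner d ∧ ¬ H.M.Inner d} = ∅ := by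
      ext d
      constructor
      · rintro ⟨h2, h3⟩
        exact absurd h2 h3
      · intro h2
        exact absurd h2 (Set.notMem_empty d)
    rw [h1]
    exact Set.finite_empty

theorem Sub.shift {G H : HPT} (S : Sub G H) (i : ℤ) : Sub (G.shift i) H := by
  have hI := shift_inner G i
  refine ⟨⟨fun d hd => S.cutting.sub d ((hI d).1 hd), fun d hd => (hI _).2 (S.cutting.fc_mem d
    ((hI d).1 hd)), fun j => (hI _).2 (G.ok.bd_inner (j + i)),
    fun j hj => S.cutting.line_out (j + i) ((hI _).1 hj), fun d hd => ?_, fun j => ?_,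
    fun j l hjl => ?_⟩, fun d => ?_, S.inv_eq, fun d hd => S.fc_eq d ((hI d).1 hd), ?_⟩
  · rcases S.cutting.only d ((hI d).1 hd) with h1 | ⟨j, h1⟩
    · exact Or.inl ((hI _).2 h1)
    · refine Or.inr ⟨j - i, ?_⟩
      have h3 : (G.shift i).M.bd (j - i) = G.M.bd (j - i + i) := rfl
      rw [h3, sub_add_cancel]
      exact h1
  · have h1 := S.cutting.path (j + i)
    have h3 : (G.shift i).M.bd (j + 1) = G.M.bd (j + 1 + i) := rfl
    rw [h3, show j + 1 + i = j + i + 1 by ring]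
    exact h1
  · have h1 := S.cutting.simple (j + i) (l + i) hjl
    omega
  · rw [hI, hI]
    exact S.mem_iff d
  · refine S.fin.subset ?_
    rintro d ⟨h1, h2⟩
    exact ⟨h1, fun h3 => h2 ((hI d).2 h3)⟩

theorem Sub.shift' {G H : HPT} (S : Sub G H) (i : ℤ) : Sub G (H.shift i) := by
  have hI := shift_inner H i
  refine ⟨⟨fun d hd => (hI d).2 (S.cutting.sub d hd), S.cutting.fc_mem, S.cutting.line_mem,
    S.cutting.line_out, S.cutting.only, S.cutting.path, S.cutting.simple⟩, S.mem_iff, S.inv_eq,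
    S.fc_eq, ?_⟩
  refine S.fin.subset ?_
  rintro d ⟨h1, h2⟩
  exact ⟨(hI d).1 h1, h2⟩

theorem Sub.eqv {G H : HPT} (S : Sub G H) :
    (H.M.cut {d | G.M.Inner d} G.M.bd).Eqv G.M := by
  refine ⟨?_, S.inv_eq.symm, rfl, fun d hd => ?_⟩
  · ext d
    exact (S.mem_iff d).symm
  · rcases (S.cutting.mem_cut_iff H.ok d).1 hd with h1 | ⟨i, h1⟩
    · rw [S.cutting.cut_fc h1]
      exact (S.fc_eq d h1).symm
    · rw [h1, S.cutting.cut_fc_outer H.ok i, ← S.inv_eq, G.ok.fc_outer]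

theorem Sub.inner {G H : HPT} (S : Sub G H) {d : ℕ} (hd : G.M.Inner d) : H.M.Inner d :=
  S.cutting.sub d hd

theorem Sub.memD {G H : HPT} (S : Sub G H) {d : ℕ} (hd : d ∈ G.M.D) : d ∈ H.M.D :=
  ((S.mem_iff d).1 hd).1

theorem Sub.sameV {G H : HPT} (S : Sub G H) {d : ℕ} (hd : d ∈ G.M.D) (e : ℕ) :
    G.M.SameV d e ↔ H.M.SameV d e ∧ e ∈ G.M.D := by
  have hE := S.eqv
  have hd' : d ∈ (H.M.cut {d | G.M.Inner d} G.M.bd).D := by
    rw [hE.D]
    exact hd
  have h1 := S.cutting.cut_sameV H.ok hd' e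
  rw [hE.D] at h1
  rw [← hE.sameV (S.cutting.isHPT H.ok) hd' e]
  exact h1

theorem Sub.trans {G H K : HPT} (S : Sub G H) (T : Sub H K) : Sub G K := by
  refine ⟨T.cutting.trans K.ok (T.eqv.symm.cutting H.ok S.cutting), fun d => ?_, S.inv_eq.trans T.inv_eq, fun d hd => ?_, ?_⟩
  · constructor
    · intro hd
      obtain ⟨h1, h2⟩ := (S.mem_iff d).1 hd
      rw [T.inv_eq] at h2
      exact ⟨T.memD h1, h2⟩
    · rintro ⟨h1, h2⟩
      refine (S.mem_iff d).2 ⟨(T.mem_iff d).2 ⟨h1, ?_⟩, ?_⟩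
      · rcases h2 with h3 | h3
        · exact Or.inl (S.inner h3)
        · exact Or.inr (S.inner h3)
      · rw [T.inv_eq]
        exact h2
  · rw [S.fc_eq d hd, T.fc_eq d (S.inner hd)]
  · refine (T.fin.union S.fin).subset ?_
    rintro d ⟨h1, h2⟩
    by_cases h3 : H.M.Inner d
    · exact Or.inr ⟨h3, h2⟩
    · exact Or.inl ⟨h1, h3⟩

theorem Sub.of_cutting {H G : HPT} {R : Set ℕ} {L : ℤ → ℕ} (C : Cutting H.M R L)
    (hf : {d | H.M.Inner d ∧ d ∉ R}.Finite) (hG : G.M = H.M.cut R L) : Sub G H := by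
  have hI : ∀ d, G.M.Inner d ↔ d ∈ R := fun d => by
    rw [hG]
    exact C.cut_inner H.ok d
  have hR : {d | G.M.Inner d} = R := Set.ext hI
  have hL : G.M.bd = L := by rw [hG]; rfl
  refine ⟨?_, fun d => ?_, by rw [hG]; rfl, fun d hd => ?_, ?_⟩
  · rw [hR, hL]
    exact C
  · rw [hI, hI, hG]
    exact Iff.rfl
  · rw [hG]
    exact C.cut_fc ((hI d).1 hd)
  · refine hf.subset ?_
    rintro d ⟨h1, h2⟩
    exact ⟨h1, fun h3 => h2 ((hI d).2 h3)⟩

theorem Sub.restrict {H G₁ G₂ : HPT} (S₁ : Sub G₁ H) (S₂ : Sub G₂ H)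
    (h : ∀ d, G₂.M.Inner d → G₁.M.Inner d) : Sub G₂ G₁ := by
  have hR : {d | G₂.M.Inner d} ⊆ {d | G₁.M.Inner d} := h
  refine ⟨S₁.eqv.cutting (S₁.cutting.isHPT H.ok) (S₁.cutting.restrict H.ok S₂.cutting hR),
    fun d => ?_, S₂.inv_eq.trans S₁.inv_eq.symm, fun d hd => ?_, ?_⟩
  · rw [S₂.mem_iff, S₁.mem_iff, S₁.inv_eq]
    constructor
    · rintro ⟨h1, h2⟩
      refine ⟨⟨h1, ?_⟩, h2⟩
      rcases h2 with h3 | h3
      · exact Or.inl (h _ h3)
      · exact Or.inr (h _ h3)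
    · rintro ⟨⟨h1, -⟩, h2⟩
      exact ⟨h1, h2⟩
  · rw [S₂.fc_eq d hd, S₁.fc_eq d (h d hd)]
  · refine S₂.fin.subset ?_
    rintro d ⟨h1, h2⟩
    exact ⟨S₁.inner h1, h2⟩

end HPT

end Pool.Agent.Spd
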