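import Pool.Agent.Spd.CutC2

/-!
(Part `CutC3`: `Sub.same_inner`, `Sub.tails`, `Sub.line_of`.  The text below is the common header of the parts.)

# SPD A05: nested cuts and sub-maps

* `cut_cut`: the darts: `d ∈ R'` or `inv d ∈ R'` with `R' ⊆ R`.  `fc`: on `R'` both are `M.fc`
  (`cut` on `R`); otherwise both are given by the same formula (`inv` is the same).
* `Cutting.trans`: `(cut).Inner = R`, `(cut).fc = fc` on `R`, `(cut).SameV` implies `M.SameV`; for
  `simple`: `L' i`, `L' j` are in the cut, so `M.SameV` gives `(cut).SameV` (`cut_sameV`).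
* `Cutting.restrict`: the same in the other direction; `path`: `inv (L' i)` is in the outer cut
  because `L' i ∈ R' ⊆ R`.
* `Eqv`: `rot` agrees on `D` (`inv` maps `D` to `D`), so iterates agree; `Inner` agrees;
  `Eqv.cut`: literal equality, since `cut` uses `fc` only on `R ⊆ D`.
* `Sub.eqv`: compare `mem_iff`, `fc_eq` and `fc_outer` (both maps are HPT) with the definition of
  `cut`.
* `Sub.sameV`: through `Sub.eqv` and `cut_sameV`.
* `Sub.trans`: `Cutting.trans` transported with `Sub.eqv` (a `Cutting` of `H₁.M` is a `Cutting` of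
  the equivalent map `H.M.cut ..`), finiteness: union of two finite sets.
* `Sub.of_cutting`: for a `Cutting H.M R L` with `{d | H.M.Inner d ∧ d ∉ R}` finite, the HPT
  `⟨H.M.cut R L, _⟩` is a sub-map.
* `Sub.restrict`: if `G₂` and `G₁` are sub-maps of `H` and the inner darts of `G₂` are inner in
  `G₁`, then `G₂` is a sub-map of `G₁`.
-/

namespace Pool.Agent.Spd

namespace PreMap.Eqv

variable {M M' : PreMap}

end PreMap.Eqv

namespace HPT

/-- If the dart `H.M.bd i` is inner in `G` then it is on the line of `G`. -/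
private theorem Sub.bd_line {G H : HPT} (S : Sub G H) {i : ℤ} (h : G.M.Inner (H.M.bd i)) :
    ∃ k, H.M.bd i = G.M.bd k := by
  rcases S.cutting.only _ h with h1 | h1
  · exact absurd rfl ((S.cutting.sub _ h1).2 i)
  · exact h1

/-- Consecutive boundary darts which are on the line are consecutive on the line. -/
private theorem Sub.bd_succ {G H : HPT} (S : Sub G H) {i k l : ℤ} (h1 : H.M.bd i = G.M.bd k)
    (h2 : H.M.bd (i + 1) = G.M.bd l) : l = k + 1 := by
  have hD : H.M.inv (H.M.bd i) ∈ H.M.D := H.ok.inv_mem _ (H.ok.bd_mem i)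
  have h3 := H.ok.bd_next i
  have h4 := S.cutting.path k
  rw [← h1] at h4
  rw [h2] at h3
  exact (S.cutting.simple _ _ (H.ok.sameV_trans (H.ok.sameV_symm hD h4) h3)).symm

/-- A sub-map with the same inner darts has, up to a shift, the same line. -/
theorem Sub.same_inner {G H : HPT} (S : Sub G H) (h : ∀ d, H.M.Inner d → G.M.Inner d) :
    ∃ a : ℤ, ∀ i, G.M.bd i = H.M.bd (i + a) := by
  have h1 : ∀ i, ∃ j, G.M.bd i = H.M.bd j := by
    intro i
    have hD : G.M.bd i ∈ H.M.D := S.cutting.L_memD i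
    have h2 : ¬ H.M.Inner (H.M.inv (G.M.bd i)) := fun h3 => S.cutting.line_out i (h _ h3)
    rcases H.ok.inner_or_outer (H.ok.inv_mem _ hD) with h3 | ⟨j, h3⟩
    · exact absurd h3 h2
    · refine ⟨j, ?_⟩
      rw [← H.ok.inv_inv _ hD, h3, H.ok.inv_inv _ (H.ok.bd_mem j)]
  choose j hj using h1
  have h2 : ∀ i, j (i + 1) = j i + 1 := by
    intro i
    have hD : H.M.inv (G.M.bd i) ∈ H.M.D := H.ok.inv_mem _ (S.cutting.L_memD i)
    have h3 := S.cutting.path i
    have h4 := H.ok.bd_next (j i)
    rw [← hj i] at h4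
    rw [hj (i + 1)] at h3
    exact (H.ok.simple _ _ (H.ok.sameV_trans (H.ok.sameV_symm hD h4) h3)).symm
  refine ⟨j 0, fun i => ?_⟩
  rw [hj i]
  congr 1
  induction i using Int.induction_on with
  | zero => simp
  | succ n ih => rw [h2, ih]; ring
  | pred n ih =>
    have h3 := h2 (-(n : ℤ) - 1)
    rw [sub_add_cancel, ih] at h3
    linarith

/-- The line of a sub-map agrees with the boundary far away. -/
theorem Sub.tails {G H : HPT} (S : Sub G H) : ∃ N a b : ℤ,
    (∀ i, N ≤ i → G.M.bd (i + a) = H.M.bd i) ∧ (∀ i, i ≤ -N → G.M.bd (i + b) = H.M.bd i) := by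
  have hfin : {i : ℤ | ¬ G.M.Inner (H.M.bd i)}.Finite := by
    have h1 : {i : ℤ | ¬ G.M.Inner (H.M.bd i)} ⊆
        H.M.bd ⁻¹' {d | H.M.Inner d ∧ ¬ G.M.Inner d} := fun i hi => ⟨H.ok.bd_inner i, hi⟩
    exact (S.fin.preimage fun a _ b _ hab => H.ok.bd_inj hab).subset h1
  obtain ⟨A, hA⟩ := hfin.bddAbove
  obtain ⟨B, hB⟩ := hfin.bddBelow
  obtain ⟨N, hNA, hNB⟩ : ∃ N : ℤ, A < N ∧ -N < B := ⟨max (A + 1) (1 - B),
    by have := le_max_left (A + 1) (1 - B); omega,
    by have := le_max_right (A + 1) (1 - B); omega⟩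
  have h1 : ∀ i, N ≤ i → G.M.Inner (H.M.bd i) := by
    intro i hi
    by_contra hc
    have := hA hc
    omega
  have h2 : ∀ i, i ≤ -N → G.M.Inner (H.M.bd i) := by
    intro i hi
    by_contra hc
    have := hB hc
    omega
  obtain ⟨k, hk⟩ := S.bd_line (h1 N le_rfl)
  obtain ⟨l, hl⟩ := S.bd_line (h2 (-N) le_rfl)
  refine ⟨N, k - N, l + N, fun i hi => ?_, fun i hi => ?_⟩
  · obtain ⟨n, rfl⟩ := Int.le.dest hi
    clear hi
    induction n with
    | zero =>
      rw [Nat.cast_zero, add_zero, hk]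
      congr 1
      ring
    | succ n ih =>
      obtain ⟨m, hm⟩ := S.bd_line (h1 (N + (n : ℤ) + 1) (by omega))
      have h3 := S.bd_succ ih.symm hm
      rw [Nat.cast_succ, ← add_assoc, hm, h3]
      congr 1
      ring
  · obtain ⟨n, hn⟩ := Int.le.dest hi
    have hin : i = -N - n := by omega
    subst hin
    clear hi hn
    induction n with
    | zero =>
      rw [Nat.cast_zero, sub_zero, hl]
      congr 1
      ring
    | succ n ih =>
      obtain ⟨m, hm⟩ := S.bd_line (h2 (-N - ((n + 1 : ℕ) : ℤ)) (by omega))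
      have h4 : H.M.bd (-N - ((n + 1 : ℕ) : ℤ) + 1) = G.M.bd (-N - (n : ℤ) + (l + N)) := by
        rw [ih]
        congr 1
        push_cast
        ring
      have h3 := S.bd_succ hm h4
      rw [hm]
      congr 1
      push_cast
      linarith

/-- If `x` is a dart of the line or an inner dart of `H` which is not inner in `G`, its inverse is
not inner in `G` unless it is a line dart. -/
theorem Sub.line_of {G H : HPT} (S : Sub G H) {x : ℕ} (hx : G.M.Inner x)
    (hn : ¬ G.M.Inner (H.M.inv x)) : ∃ i, x = G.M.bd i :=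
  (S.cutting.only x hx).resolve_left hn

end HPT

end Pool.Agent.Spd
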