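import Pool.Agent.Spd.CutB

/-!
(Part `CutC1`: `cut_cut`, `Cutting.trans`, `Cutting.restrict`, `symm`, `inner`, `sameV`, `cut`, `cutting`.  The text below is the common header of the parts.)

# SPD A05: nested cuts and sub-maps

* `cut_cut`: the darts: `d ∈ R'` or `inv d ∈ R'` with `R' ⊆ R`.  `fc`: on `R'` both are `M.fc`
  (`cut` on `R`); otherwise both are given by the same formula (`inv` is the same).
* `Cutting.trans`: `(cut).Inner = R`, `(cut).fc = fc` on `R`, `(cut).SameV` implies `M.SameV`; for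
  `simple`: `L' i`, `L' j` are in the cut, so `M.SameV` gives `(cut).SameV` (`cut_sameV`).
* `Cutting.restrict`: the same in the other direction; `path`: `inv (L' i)` is in the outer cut
  because `L' i ∈ R' ⊆ R`.
* `Eqv`: `rot` agrees on `D` (`inv` maps `D` to `D`), so iterates agree; `Inner` agrees;
  `Eqv.cut`: literal equality, since `cut` uses `fc` only on `R ⊆ D`.
* `Sub.eqv`: compare `mem_iff`, `fc_eq` and `fc_outer` (both maps are HPT) with the definition of
  `cut`.
* `Sub.sameV`: through `Sub.eqv` and `cut_sameV`.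
* `Sub.trans`: `Cutting.trans` transported with `Sub.eqv` (a `Cutting` of `H₁.M` is a `Cutting` of
  the equivalent map `H.M.cut ..`), finiteness: union of two finite sets.
* `Sub.of_cutting`: for a `Cutting H.M R L` with `{d | H.M.Inner d ∧ d ∉ R}` finite, the HPT
  `⟨H.M.cut R L, _⟩` is a sub-map.
* `Sub.restrict`: if `G₂` and `G₁` are sub-maps of `H` and the inner darts of `G₂` are inner in
  `G₁`, then `G₂` is a sub-map of `G₁`.
-/

namespace Pool.Agent.Spd

private theorem ext_aux (A B : PreMap) (h1 : A.D = B.D) (h2 : A.inv = B.inv)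
    (h3 : A.fc = B.fc) (h4 : A.bd = B.bd) : A = B := by
  cases A
  cases B
  simp only at h1 h2 h3 h4
  subst h1 h2 h3 h4
  rfl

open Classical in
theorem cut_cut {M : PreMap} {R R' : Set ℕ} {L L' : ℤ → ℕ} (hR : R' ⊆ R) :
    (M.cut R L).cut R' L' = M.cut R' L' := by
  refine ext_aux _ _ ?_ rfl ?_ rfl
  · ext d
    constructor
    · rintro ⟨h1, h2⟩
      exact ⟨h1.1, h2⟩
    · rintro ⟨h1, h2⟩
      exact ⟨⟨h1, h2.imp (fun x => hR x) (fun x => hR x)⟩, h2⟩
  · funext d
    by_cases hd : d ∈ R'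
    · have h1 : ((M.cut R L).cut R' L').fc d = (M.cut R L).fc d := if_pos hd
      have h2 : (M.cut R L).fc d = M.fc d := if_pos (hR hd)
      have h3 : (M.cut R' L').fc d = M.fc d := if_pos hd
      rw [h1, h2, h3]
    · have h1 : ((M.cut R L).cut R' L').fc d =
          if h : ∃ i, d = M.inv (L' i) then M.inv (L' (h.choose - 1)) else 0 := if_neg hd
      have h3 : (M.cut R' L').fc d =
          if h : ∃ i, d = M.inv (L' i) then M.inv (L' (h.choose - 1)) else 0 := if_neg hd
      rw [h1, h3]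

theorem Cutting.trans {M : PreMap} {R R' : Set ℕ} {L L' : ℤ → ℕ} (h : M.IsHPT)
    (C : Cutting M R L) (C' : Cutting (M.cut R L) R' L') : Cutting M R' L' := by
  have hRR : R' ⊆ R := fun d hd => (C.cut_inner h d).1 (C'.sub d hd)
  have hm : ∀ i, L' i ∈ (M.cut R L).D := fun i => (C'.sub _ (C'.line_mem i)).1
  refine ⟨fun d hd => C.sub d (hRR hd), fun d hd => ?_, C'.line_mem, C'.line_out, C'.only,
    fun i => ?_, fun i j hij => ?_⟩
  · have h1 := C'.fc_mem d hd
    rwa [C.cut_fc (hRR hd)] at h1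
  · have h1 : M.inv (L' i) ∈ (M.cut R L).D := (C.isHPT h).inv_mem _ (hm i)
    exact ((C.cut_sameV h h1 _).1 (C'.path i)).1
  · exact C'.simple i j ((C.cut_sameV h (hm i) _).2 ⟨hij, hm j⟩)

theorem Cutting.restrict {M : PreMap} {R R' : Set ℕ} {L L' : ℤ → ℕ} (h : M.IsHPT)
    (C : Cutting M R L) (C' : Cutting M R' L') (hR : R' ⊆ R) : Cutting (M.cut R L) R' L' := by
  have hI : ∀ d ∈ R', (M.cut R L).Inner d := fun d hd => (C.cut_inner h d).2 (hR hd)
  have hm : ∀ i, L' i ∈ (M.cut R L).D := fun i => (hI _ (C'.line_mem i)).1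
  refine ⟨hI, fun d hd => ?_, C'.line_mem, C'.line_out, C'.only, fun i => ?_, fun i j hij => ?_⟩
  · rw [C.cut_fc (hR hd)]
    exact C'.fc_mem d hd
  · have h1 : M.inv (L' i) ∈ (M.cut R L).D := (C.isHPT h).inv_mem _ (hm i)
    exact (C.cut_sameV h h1 _).2 ⟨C'.path i, hm (i + 1)⟩
  · exact C'.simple i j ((C.cut_sameV h (hm i) _).1 hij).1

namespace PreMap.Eqv

variable {M M' : PreMap}

theorem symm (E : M.Eqv M') : M'.Eqv M :=
  ⟨E.D.symm, E.inv.symm, E.bd.symm, fun d hd => (E.fc d (by rw [E.D]; exact hd)).symm⟩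

theorem inner (E : M.Eqv M') (d : ℕ) : M.Inner d ↔ M'.Inner d := by
  unfold PreMap.Inner
  rw [E.D, E.inv, E.bd]

theorem sameV (h : M.IsHPT) (E : M.Eqv M') {d : ℕ} (hd : d ∈ M.D) (e : ℕ) :
    M.SameV d e ↔ M'.SameV d e := by
  have hit : ∀ n : ℕ, M.rot^[n] d = M'.rot^[n] d := by
    intro n
    induction n with
    | zero => rfl
    | succ n ih =>
      rw [Function.iterate_succ_apply', Function.iterate_succ_apply', ← ih]
      have h1 : M.inv (M.rot^[n] d) ∈ M.D := h.inv_mem _ (h.iter_mem hd n)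
      have h2 := E.fc _ h1
      have h3 : M'.rot (M.rot^[n] d) = M'.fc (M.inv (M.rot^[n] d)) := by
        rw [E.inv]
        rfl
      rw [h3]
      exact h2
  constructor
  · rintro ⟨n, hn⟩
    exact ⟨n, by rw [← hit n]; exact hn⟩
  · rintro ⟨n, hn⟩
    exact ⟨n, by rw [hit n]; exact hn⟩

theorem cut (E : M.Eqv M') {R : Set ℕ} (hR : R ⊆ M.D) (L : ℤ → ℕ) :
    M.cut R L = M'.cut R L := by
  classical
  refine ext_aux _ _ ?_ E.inv ?_ rfl
  · change {d | d ∈ M.D ∧ (d ∈ R ∨ M.inv d ∈ R)} = {d | d ∈ M'.D ∧ (d ∈ R ∨ M'.inv d ∈ R)}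
    rw [E.D, E.inv]
  · funext d
    by_cases hd : d ∈ R
    · have h1 : (M.cut R L).fc d = M.fc d := if_pos hd
      have h2 : (M'.cut R L).fc d = M'.fc d := if_pos hd
      rw [h1, h2, E.fc d (hR hd)]
    · have h1 : (M.cut R L).fc d =
          @dite ℕ (∃ i, d = M.inv (L i)) (Classical.propDecidable _)
            (fun h => M.inv (L (h.choose - 1))) (fun _ => 0) := if_neg hd
      have h2 : (M'.cut R L).fc d =
          @dite ℕ (∃ i, d = M'.inv (L i)) (Classical.propDecidable _)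
            (fun h => M'.inv (L (h.choose - 1))) (fun _ => 0) := if_neg hd
      rw [h1, h2, E.inv]

theorem cutting (h : M.IsHPT) (E : M.Eqv M') {R : Set ℕ} {L : ℤ → ℕ} (C : Cutting M R L) :
    Cutting M' R L := by
  have hm : ∀ i, L i ∈ M.D := fun i => (C.sub _ (C.line_mem i)).1
  refine ⟨fun d hd => (E.inner d).1 (C.sub d hd), fun d hd => ?_, C.line_mem, fun i => ?_,
    fun d hd => ?_, fun i => ?_, fun i j hij => ?_⟩
  · rw [← E.fc d (C.sub d hd).1]
    exact C.fc_mem d hd
  · rw [← E.inv]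
    exact C.line_out i
  · rw [← E.inv]
    exact C.only d hd
  · rw [← E.inv]
    exact (E.sameV h (h.inv_mem _ (hm i)) _).1 (C.path i)
  · exact C.simple i j ((E.sameV h (hm i) _).2 hij)

end PreMap.Eqv

namespace HPT

end HPT

end Pool.Agent.Spd
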