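import Mathlib

/-!
# Half-planar triangulations, their domain Markov laws and the simple random walk

Definitions for MP_0d5543_pr.  A map is given by darts (oriented edges), the edge involution `inv`,
and the face rotation `fc` (the next dart around the face on the left of a dart).
-/

namespace Pool.Agent.Spd

open MeasureTheory

/-- Raw data of a map with boundary: a set `D` of darts (natural numbers), the reversal `inv`,
the next dart `fc d` around the face to the left of `d`, and the boundary darts
`bd i : v_i → v_{i+1}`, `i ∈ ℤ`, with the interior to the left. -/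
structure PreMap where
  D : Set ℕ
  inv : ℕ → ℕ
  fc : ℕ → ℕ
  bd : ℤ → ℕ

namespace PreMap

/-- Rotation around the origin of a dart. -/
def rot (M : PreMap) (d : ℕ) : ℕ := M.fc (M.inv d)

/-- The darts `d` and `e` have the same origin (vertices are the orbits of `rot`). -/
def SameV (M : PreMap) (d e : ℕ) : Prop := ∃ n : ℕ, M.rot^[n] d = e

/-- Inner darts: the face to the left is not the external face, whose darts are `inv (bd i)`. -/
def Inner (M : PreMap) (d : ℕ) : Prop := d ∈ M.D ∧ ∀ i : ℤ, d ≠ M.inv (M.bd i)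

/-- Half-planar triangulations: connected, locally finite, without loops, all inner faces are
triangles, the external face is bounded by a bi-infinite simple path, and every cycle modulo `2` is
the boundary of a finite set of triangles (for a connected triangulated surface whose boundary is
one line this says that the map is planar and one-ended). -/
structure IsHPT (M : PreMap) : Prop where
  inv_mem : ∀ d ∈ M.D, M.inv d ∈ M.D
  inv_inv : ∀ d ∈ M.D, M.inv (M.inv d) = d
  inv_ne : ∀ d ∈ M.D, M.inv d ≠ d
  bd_inner : ∀ i, M.Inner (M.bd i)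
  fc_outer : ∀ i, M.fc (M.inv (M.bd i)) = M.inv (M.bd (i - 1))
  fc_inner : ∀ d, M.Inner d → M.Inner (M.fc d)
  fc_tri : ∀ d, M.Inner d → M.fc (M.fc (M.fc d)) = d
  rot_fin : ∀ d ∈ M.D, ∃ n, 0 < n ∧ M.rot^[n] d = d
  loopless : ∀ d ∈ M.D, ¬ M.SameV d (M.inv d)
  simple : ∀ i j, M.SameV (M.bd i) (M.bd j) → i = j
  conn : ∀ d ∈ M.D, ∀ e ∈ M.D,
    Relation.EqvGen (fun x y => x ∈ M.D ∧ (y = M.inv x ∨ y = M.fc x)) d e
  acyc : ∀ c : Finset ℕ, (∀ d ∈ c, d ∈ M.D ∧ M.inv d ∈ c) →
    (∀ d ∈ M.D, Even (Set.ncard {e | e ∈ c ∧ M.SameV d e})) →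
    ∃ F : Finset ℕ, (∀ d ∈ F, M.Inner d ∧ M.fc d ∈ F) ∧
      ∀ d ∈ M.D, (d ∈ c ↔ ¬ (d ∈ F ↔ M.inv d ∈ F))

/-- The root edge is moved by `k` along the boundary. -/
def shift (k : ℤ) (M : PreMap) : PreMap := { M with bd := fun i => M.bd (i + k) }

open Classical in
/-- The sub-map whose inner darts are `R` and whose boundary darts are `L i`. -/
noncomputable def cut (M : PreMap) (R : Set ℕ) (L : ℤ → ℕ) : PreMap where
  D := {d | d ∈ M.D ∧ (d ∈ R ∨ M.inv d ∈ R)}
  inv := M.inv
  fc := fun d => if d ∈ R then M.fc d else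
    if h : ∃ i, d = M.inv (L i) then M.inv (L (h.choose - 1)) else 0
  bd := L

end PreMap

/-- Codes of triangulations of a polygon with `k + 1` sides (simple boundary, no loops, multiple
edges allowed; `edge` is the degenerate triangulation of a 2-gon): decomposition at the triangle
behind the first side.  `new`: its third vertex is inside; `split`: it is on the boundary. -/
inductive Tri : ℕ → Type
  | edge : Tri 1
  | new {k : ℕ} : Tri (k + 2) → Tri (k + 1)
  | split {i j : ℕ} : Tri (i + 1) → Tri (j + 1) → Tri (i + j + 2)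

/-- `M.Fill τ cs F`: the closed path `cs` (interior to the left) bounds the triangulated polygon
with code `τ`, whose triangles consist of the darts `F`.  The first triangle has the darts
`d, fc d, fc (fc d)`, where `d` is the first dart of `cs`. -/
def PreMap.Fill (M : PreMap) : {k : ℕ} → Tri k → List ℕ → Finset ℕ → Prop
  | _, .edge, cs, F => ∃ d ∈ M.D, cs = [d, M.inv d] ∧ F = ∅
  | _, .new t, cs, F => ∃ d ds F', cs = d :: ds ∧ M.Inner d ∧
      (∀ e ∈ cs, ¬ M.SameV e (M.fc (M.fc d))) ∧
      M.Fill t (M.inv (M.fc (M.fc d)) :: M.inv (M.fc d) :: ds) F' ∧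
      d ∉ F' ∧ F = {d, M.fc d, M.fc (M.fc d)} ∪ F'
  | _, .split t₁ t₂, cs, F => ∃ d ds₁ ds₂ F₁ F₂, cs = d :: (ds₁ ++ ds₂) ∧ M.Inner d ∧
      M.Fill t₁ (ds₁ ++ [M.inv (M.fc d)]) F₁ ∧
      M.Fill t₂ (M.inv (M.fc (M.fc d)) :: ds₂) F₂ ∧
      d ∉ F₁ ∧ d ∉ F₂ ∧ Disjoint F₁ F₂ ∧ F = {d, M.fc d, M.fc (M.fc d)} ∪ (F₁ ∪ F₂)

/-- Outcome of revealing the triangle at the root edge `v_0 → v_1`: the third vertex is not on the
boundary (`N`), it is `v_{k+1}` (`R k τ`) or `v_{-k}` (`L k τ`), and `τ` is the code of the finite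
triangulated polygon which the triangle cuts off. -/
inductive Step : Type
  | N : Step
  | R (k : ℕ) (τ : Tri k) : Step
  | L (k : ℕ) (τ : Tri k) : Step

/-- Half-planar triangulations. -/
structure HPT where
  M : PreMap
  ok : M.IsHPT

/-- `H.Peel s H'`: the triangle at the root edge has outcome `s`, and `H'` is the map that remains
after removing this triangle and the polygon it cuts off, rooted at the leftmost new edge. -/
def PreMap.Peel (M : PreMap) (s : Step) (M' : PreMap) : Prop :=
  let r := M.bd 0
  let a := M.fc r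
  let b := M.fc a
  match s with
  | .N => (∀ i, ¬ M.SameV (M.bd i) b) ∧
      M' = M.cut {d | M.Inner d ∧ d ≠ r ∧ d ≠ a ∧ d ≠ b}
        (fun i => if i < 0 then M.bd i else if i = 0 then M.inv b else
          if i = 1 then M.inv a else M.bd (i - 1))
  | .R k τ => M.SameV (M.bd (k + 1)) b ∧ ∃ F : Finset ℕ,
      M.Fill τ ((List.range k).map (fun j : ℕ => M.bd (j + 1)) ++ [M.inv a]) F ∧
      M' = M.cut {d | M.Inner d ∧ d ≠ r ∧ d ≠ a ∧ d ≠ b ∧ d ∉ F}
        (fun i => if i < 0 then M.bd i else if i = 0 then M.inv b else M.bd (i + k))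
  | .L k τ => M.SameV (M.bd (-k)) b ∧ ∃ F : Finset ℕ,
      M.Fill τ ((List.range k).map (fun j : ℕ => M.bd (j - k)) ++ [M.inv b]) F ∧
      M' = M.cut {d | M.Inner d ∧ d ≠ r ∧ d ≠ a ∧ d ≠ b ∧ d ∉ F}
        (fun i => if i < 0 then M.bd (i - k) else if i = 0 then M.inv a else M.bd i)

namespace HPT

theorem shift_ok (k : ℤ) {M : PreMap} (h : M.IsHPT) : (M.shift k).IsHPT := by
  have hI : ∀ d, (M.shift k).Inner d ↔ M.Inner d := by
    intro d
    constructor
    · rintro ⟨h1, h2⟩
      refine ⟨h1, fun i hi => h2 (i - k) ?_⟩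
      simpa [PreMap.shift] using hi
    · rintro ⟨h1, h2⟩
      exact ⟨h1, fun i hi => h2 (i + k) hi⟩
  refine ⟨h.inv_mem, h.inv_inv, h.inv_ne, fun i => (hI _).2 (h.bd_inner _), ?_,
    fun d hd => (hI _).2 (h.fc_inner d ((hI _).1 hd)), fun d hd => h.fc_tri d ((hI _).1 hd),
    h.rot_fin, h.loopless, ?_, h.conn, ?_⟩
  · intro i
    have := h.fc_outer (i + k)
    simp only [PreMap.shift]
    rw [this]
    congr 2
    ring
  · intro i j hij
    have := h.simple (i + k) (j + k) hij
    omega
  · intro c hc he
    obtain ⟨F, hF1, hF2⟩ := h.acyc c hc he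
    exact ⟨F, fun d hd => ⟨(hI _).2 (hF1 d hd).1, (hF1 d hd).2⟩, hF2⟩

/-- The root edge is moved by `k` along the boundary. -/
def shift (k : ℤ) (H : HPT) : HPT where
  M := H.M.shift k
  ok := shift_ok k H.ok

open Classical in
/-- Outcome and remaining map of the peeling of the root edge. -/
noncomputable def peel (H : HPT) : Step × HPT :=
  if h : ∃ p : Step × HPT, H.M.Peel p.1 p.2.M then h.choose else (Step.N, H)

noncomputable def step (H : HPT) : Step := H.peel.1

noncomputable def rem (H : HPT) : HPT := H.peel.2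

/-- Outcomes of the successive peelings of the edges with indices `c` (each index refers to the
root edge that the previous peeling has left). -/
noncomputable def outs : List ℤ → HPT → List Step
  | [], _ => []
  | i :: c, H => (H.shift i).step :: outs c (H.shift i).rem

/-- The sigma-algebra generated by the finite explorations. -/
instance : MeasurableSpace HPT :=
  MeasurableSpace.generateFrom {S | ∃ (c : List ℤ) (o : List Step), S = {H | H.outs c = o}}

/-- Degree of the origin of `d`. -/
noncomputable def deg (H : HPT) (d : ℕ) : ℕ := Function.minimalPeriod H.M.rot d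

/-- Simple random walk from the root vertex `v_0`, driven by `U_0, U_1, ...`; `walk U n` is a dart
whose origin is `X_n`; the next step is the edge number `⌊U_n deg⌋` in the rotation around `X_n`. -/
noncomputable def walk (H : HPT) (U : ℕ → unitInterval) : ℕ → ℕ
  | 0 => H.M.inv (H.M.bd (-1))
  | n + 1 => H.M.inv (H.M.rot^[⌊(U n : ℝ) * H.deg (walk H U n)⌋₊] (walk H U n))

/-- Darts whose origin is at distance at most `n` from the boundary. -/
def near (H : HPT) : ℕ → Set ℕ
  | 0 => {e | ∃ i, H.M.SameV (H.M.bd i) e}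
  | n + 1 => {e | ∃ e', H.M.SameV e e' ∧ (e' ∈ near H n ∨ H.M.inv e' ∈ near H n)}

/-- Graph distance from the origin of `e` to the boundary. -/
noncomputable def distBd (H : HPT) (e : ℕ) : ℕ := sInf {n | e ∈ H.near n}

end HPT

/-- Invariance of a law under shifting the root along the boundary. -/
def TransInv (μ : Measure HPT) : Prop :=
  ∀ (k : ℤ) (B : Set HPT), MeasurableSet B → μ {H | H.shift k ∈ B} = μ B

/-- Domain Markov property: given the triangle at the root edge and the polygon it cuts off, the
remaining map has the original law. -/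
def DomMarkov (μ : Measure HPT) : Prop :=
  ∀ (s : Step) (B : Set HPT), MeasurableSet B →
    μ {H | H.step = s ∧ H.rem ∈ B} = μ {H | H.step = s} * μ B

/-- Law of an i.i.d. sequence of uniform random variables. -/
noncomputable def unif : Measure (ℕ → unitInterval) := Measure.infinitePi (fun _ => volume)

end Pool.Agent.Spd
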