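import Pool.Agent.Spd.Dist1

/-!
(Part `Dist2`: `dist_sub_le`, `dist_le_add`, `line_bdd`, `star_dist`, `swallow_dist`.  The text below is the common header of the parts.)

# SPD A20: distances to the boundary

`near n` = darts whose origin is at distance at most `n` from the boundary.
* `near_sameV`, `near_mono`, `near_inv`: directly from the definition (`SameV` is an equivalence on
  the darts of `H`).
* `exists_near`: connectedness (`conn`): the set of darts in some `near n` is invariant under
  `inv` and `fc` in both directions (`fc d ~ inv d`).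
* `distBd_le_iff`: `sInf` of an upward closed nonempty set.
* `distBd_adj`: adjacent vertices differ by at most 1.
* `exists_closer`: if `distBd e = n + 1` there is `x ~ e` with `distBd (inv x) = n`.
* `sub_le` (a path to the boundary must meet the line): by induction on `n`: if `e ∈ G.D` and
  `e ∈ H.near n` then `e ∈ G.near n`.  `n = 0`: `e` is on the boundary of `H`, it is a vertex of `G`
  not above the line (`boundary_not_abv`), so on the line (`trich`).  Step: if `e` is on the line of
  `G`: done.  Otherwise `e` is above (`trich`): the neighbour `inv e' ∈ H.near n` (or `e' ~ e`) is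
  in `G.D`.
* `le_add`: `H.distBd e ≤ G.distBd e + m`: induction on `G.distBd e` with `exists_closer` in `G`.
* `line_bdd`: `Sub.tails`: all but finitely many vertices of the line are on the boundary.
* `star_dist`: `star_line`.
* `swallow`: let `e` be a vertex of `G` (`e ∈ G.D`) strictly below `G.star` with
  `G.distBd e = N`.  Going down along vertices of distances `N, N-1, ..., 2` (`exists_closer`):
  each is strictly below `G.star`, because the next one is not above (`adj_not_cross` in `G`), and
  not on the line of `G.star`, whose vertices are at distance `≤ 1` (`star_line`).  Each has an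
  inner dart of `G` which is not inner in `G.star` (it is not on the boundary of `G`, so all its
  darts are inner).  Different distances, different darts: `N - 1 ≤ starVol`.
-/

namespace Pool.Agent.Spd

namespace HPT

variable {G H : HPT}

private theorem sub_near (S : Sub G H) : ∀ (n e : ℕ), e ∈ G.M.D → e ∈ H.near n → e ∈ G.near n := by
  intro n
  induction n with
  | zero =>
    intro e he hn
    obtain ⟨i, hi⟩ := hn
    have heH := S.memD he
    rcases trich S heH with h1 | ⟨j, hj⟩ | h1
    · exact absurd he (h1 e ⟨0, rfl⟩)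
    · exact ⟨j, (S.sameV (G.ok.bd_mem j) e).2 ⟨hj, he⟩⟩
    · have h2 := H.ok.sameV_symm (H.ok.bd_mem i) hi
      exact absurd (abv_sameV S heH h2 h1) (boundary_not_abv S i)
  | succ n ih =>
    intro e he hn
    obtain ⟨e', hs, hn'⟩ := hn
    have heH := S.memD he
    rcases trich S heH with h1 | ⟨j, hj⟩ | h1
    · exact absurd he (h1 e ⟨0, rfl⟩)
    · have h2 : e ∈ G.near 0 := ⟨j, (S.sameV (G.ok.bd_mem j) e).2 ⟨hj, he⟩⟩
      exact near_mono G (Nat.zero_le _) he h2
    · obtain ⟨h2, h3⟩ := h1 e' hs
      refine ⟨e', (S.sameV he e').2 ⟨hs, h2.1⟩, ?_⟩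
      rcases hn' with h4 | h4
      · exact Or.inl (ih e' h2.1 h4)
      · right
        rw [S.inv_eq]
        exact ih _ h3.1 h4

theorem dist_sub_le (S : Sub G H) {e : ℕ} (he : e ∈ G.M.D) : G.distBd e ≤ H.distBd e := by
  rw [distBd_le_iff G he]
  exact sub_near S _ e he ((distBd_le_iff H (S.memD he) _).1 le_rfl)

private theorem near_add (S : Sub G H) {m : ℕ} (hm : ∀ i, H.distBd (G.M.bd i) ≤ m) :
    ∀ (n e : ℕ), e ∈ G.M.D → e ∈ G.near n → H.distBd e ≤ n + m := by
  intro n
  induction n with
  | zero =>
    intro e he hn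
    obtain ⟨i, hi⟩ := hn
    have h1 := ((S.sameV (G.ok.bd_mem i) e).1 hi).1
    have h2 := distBd_sameV H (S.memD (G.ok.bd_mem i)) h1
    have h3 := hm i
    omega
  | succ n ih =>
    intro e he hn
    obtain ⟨e', hs, hn'⟩ := hn
    have he' := G.ok.sameV_mem he hs
    have h1 := distBd_sameV H (S.memD he) ((S.sameV he e').1 hs).1
    rcases hn' with h4 | h4
    · have h5 := ih e' he' h4
      omega
    · have h5 := ih _ (G.ok.inv_mem e' he') h4
      rw [S.inv_eq] at h5
      have h6 := distBd_adj H (S.memD he')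
      omega

theorem dist_le_add (S : Sub G H) {m : ℕ} (hm : ∀ i, H.distBd (G.M.bd i) ≤ m) {e : ℕ}
    (he : e ∈ G.M.D) : H.distBd e ≤ G.distBd e + m :=
  near_add S hm _ e he ((distBd_le_iff G he _).1 le_rfl)

theorem line_bdd (S : Sub G H) : ∃ m, ∀ i, H.distBd (G.M.bd i) ≤ m := by
  obtain ⟨N, a, b, h1, h2⟩ := S.tails
  have h0 : ∀ j, H.distBd (H.M.bd j) = 0 := fun j =>
    (distBd_eq_zero H (H.ok.bd_mem j)).2 ⟨j, 0, rfl⟩
  refine ⟨(Finset.Icc (-N + b) (N + a)).sup (fun i => H.distBd (G.M.bd i)), fun i => ?_⟩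
  by_cases hi : i ∈ Finset.Icc (-N + b) (N + a)
  · exact Finset.le_sup (f := fun i => H.distBd (G.M.bd i)) hi
  · rw [Finset.mem_Icc] at hi
    have h3 : H.distBd (G.M.bd i) = 0 := by
      by_cases h4 : N + a < i
      · have h5 := h1 (i - a) (by omega)
        rw [sub_add_cancel] at h5
        rw [h5]
        exact h0 _
      · have h5 := h2 (i - b) (by omega)
        rw [sub_add_cancel] at h5
        rw [h5]
        exact h0 _
    rw [h3]
    exact Nat.zero_le _

theorem star_dist (S : Sub G H) {m : ℕ} (hm : ∀ i, H.distBd (G.M.bd i) ≤ m) (i : ℤ) :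
    H.distBd (G.star.M.bd i) ≤ m + 1 := by
  rcases star_line G i with ⟨j, hj⟩ | ⟨x, hx, hx'⟩
  · have h1 := distBd_sameV H (S.memD (G.ok.bd_mem j)) ((S.sameV (G.ok.bd_mem j) _).1 hj).1
    have h2 := hm j
    omega
  · have hxD := G.ok.sameV_mem (G.ok.bd_mem 0) hx
    have hiD := G.ok.inv_mem x hxD
    have h1 := distBd_sameV H (S.memD (G.ok.bd_mem 0)) ((S.sameV (G.ok.bd_mem 0) _).1 hx).1
    have h2 := distBd_sameV H (S.memD hiD) ((S.sameV hiD _).1 hx').1
    have h3 := distBd_adj H (S.memD hiD)
    have h4 := hm 0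
    have h5 : H.M.inv (G.M.inv x) = x := by
      rw [← S.inv_eq]
      exact G.ok.inv_inv x hxD
    rw [h5] at h3
    omega

private theorem swallow_aux (G : HPT) : ∀ (n e : ℕ), e ∈ G.M.D → Blw G G.star e →
    G.distBd e = n → ∀ k, 2 ≤ k → k ≤ n →
      ∃ d, (G.M.Inner d ∧ ¬ G.star.M.Inner d) ∧ G.distBd d = k := by
  intro n
  induction n with
  | zero =>
    intro e he hb hn k hk hk'
    omega
  | succ n ih =>
    intro e he hb hn k hk hk'
    by_cases hkn : k = n + 1
    · refine ⟨e, ⟨?_, fun h => hb e ⟨0, rfl⟩ h.1⟩, by rw [hn, hkn]⟩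
      rcases G.ok.inner_or_outer he with h1 | ⟨i, hi⟩
      · exact h1
      · exfalso
        have h1 : G.distBd e = 0 := by
          rw [distBd_eq_zero G he]
          refine ⟨i + 1, ?_⟩
          rw [hi]
          exact G.ok.sameV_symm (G.ok.inv_mem _ (G.ok.bd_mem i)) (G.ok.bd_next i)
        omega
    · obtain ⟨x, hx, hx'⟩ := exists_closer G he hn
      have hxD := G.ok.sameV_mem he hx
      have hiD := G.ok.inv_mem x hxD
      refine ih (G.M.inv x) hiD ?_ hx' k hk (by omega)
      rcases trich (star_sub G) hiD with h1 | ⟨i, hi⟩ | h1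
      · exact h1
      · exfalso
        have h2 := star_dist (Sub.refl G) (m := 0) (fun j => by
          rw [Nat.le_zero, distBd_eq_zero G (G.ok.bd_mem j)]
          exact ⟨j, 0, rfl⟩) i
        have h3 := distBd_sameV G ((star_sub G).memD (G.star.ok.bd_mem i)) hi
        omega
      · exact absurd h1 (adj_not_cross (star_sub G) he hb hx).1

theorem swallow_dist (G : HPT) {e : ℕ} (he : e ∈ G.M.D) (hb : Blw G G.star e) :
    G.distBd e ≤ G.starVol + 1 := by
  have hfin : {d | G.M.Inner d ∧ ¬ G.star.M.Inner d}.Finite := (star_sub G).fin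
  have h1 : ((Finset.Icc 2 (G.distBd e) : Finset ℕ) : Set ℕ) ⊆
      G.distBd '' {d | G.M.Inner d ∧ ¬ G.star.M.Inner d} := by
    intro k hk
    rw [Finset.mem_coe, Finset.mem_Icc] at hk
    obtain ⟨d, hd, hdk⟩ := swallow_aux G _ e he hb rfl k hk.1 hk.2
    exact ⟨d, hd, hdk⟩
  have h2 := Set.ncard_le_ncard h1 (hfin.image _)
  rw [Set.ncard_coe_finset, Nat.card_Icc] at h2
  have h3 := Set.ncard_image_le (f := G.distBd) hfin
  have h4 : G.starVol = Set.ncard {d | G.M.Inner d ∧ ¬ G.star.M.Inner d} := rfl
  omega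

end HPT

end Pool.Agent.Spd
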