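import Pool.Agent.Spd.Star

/-!
(Part `Dist1`: `near_mono`, `near_sameV`, `near_inv`, `exists_near`, `distBd_le_iff`, `distBd_sameV`, `distBd_adj`, `distBd_eq_zero`, `exists_closer`, `distBd_shift`.  The text below is the common header of the parts.)

# SPD A20: distances to the boundary

`near n` = darts whose origin is at distance at most `n` from the boundary.
* `near_sameV`, `near_mono`, `near_inv`: directly from the definition (`SameV` is an equivalence on
  the darts of `H`).
* `exists_near`: connectedness (`conn`): the set of darts in some `near n` is invariant under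
  `inv` and `fc` in both directions (`fc d ~ inv d`).
* `distBd_le_iff`: `sInf` of an upward closed nonempty set.
* `distBd_adj`: adjacent vertices differ by at most 1.
* `exists_closer`: if `distBd e = n + 1` there is `x ~ e` with `distBd (inv x) = n`.
* `sub_le` (a path to the boundary must meet the line): by induction on `n`: if `e ∈ G.D` and
  `e ∈ H.near n` then `e ∈ G.near n`.  `n = 0`: `e` is on the boundary of `H`, it is a vertex of `G`
  not above the line (`boundary_not_abv`), so on the line (`trich`).  Step: if `e` is on the line of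
  `G`: done.  Otherwise `e` is above (`trich`): the neighbour `inv e' ∈ H.near n` (or `e' ~ e`) is
  in `G.D`.
* `le_add`: `H.distBd e ≤ G.distBd e + m`: induction on `G.distBd e` with `exists_closer` in `G`.
* `line_bdd`: `Sub.tails`: all but finitely many vertices of the line are on the boundary.
* `star_dist`: `star_line`.
* `swallow`: let `e` be a vertex of `G` (`e ∈ G.D`) strictly below `G.star` with
  `G.distBd e = N`.  Going down along vertices of distances `N, N-1, ..., 2` (`exists_closer`):
  each is strictly below `G.star`, because the next one is not above (`adj_not_cross` in `G`), and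
  not on the line of `G.star`, whose vertices are at distance `≤ 1` (`star_line`).  Each has an
  inner dart of `G` which is not inner in `G.star` (it is not on the boundary of `G`, so all its
  darts are inner).  Different distances, different darts: `N - 1 ≤ starVol`.
-/

namespace Pool.Agent.Spd

namespace HPT

variable {G H : HPT}

theorem near_mono (H : HPT) {m n : ℕ} (hmn : m ≤ n) {e : ℕ} (he : e ∈ H.M.D)
    (h : e ∈ H.near m) : e ∈ H.near n := by
  induction n, hmn using Nat.le_induction with
  | base => exact h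
  | succ n _ ih => exact ⟨e, ⟨0, rfl⟩, Or.inl ih⟩

theorem near_sameV (H : HPT) {n : ℕ} {e f : ℕ} (he : e ∈ H.M.D) (hef : H.M.SameV e f)
    (h : e ∈ H.near n) : f ∈ H.near n := by
  cases n with
  | zero =>
    obtain ⟨i, hi⟩ := h
    exact ⟨i, H.ok.sameV_trans hi hef⟩
  | succ n =>
    obtain ⟨e', h1, h2⟩ := h
    exact ⟨e', H.ok.sameV_trans (H.ok.sameV_symm he hef) h1, h2⟩

theorem near_inv (H : HPT) {n : ℕ} {e : ℕ} (he : e ∈ H.M.D) (h : H.M.inv e ∈ H.near n) :
    e ∈ H.near (n + 1) :=
  ⟨e, ⟨0, rfl⟩, Or.inr h⟩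

theorem exists_near (H : HPT) {e : ℕ} (he : e ∈ H.M.D) : ∃ n, e ∈ H.near n := by
  have key : ∀ a b, Relation.EqvGen
      (fun x y => x ∈ H.M.D ∧ (y = H.M.inv x ∨ y = H.M.fc x)) a b →
      ((∃ n, a ∈ H.near n) ↔ ∃ n, b ∈ H.near n) := by
    have hinv : ∀ a ∈ H.M.D, ((∃ n, a ∈ H.near n) ↔ ∃ n, H.M.inv a ∈ H.near n) := by
      intro a ha
      constructor
      · rintro ⟨n, hn⟩
        refine ⟨n + 1, H.near_inv (H.ok.inv_mem a ha) ?_⟩
        rwa [H.ok.inv_inv a ha]
      · rintro ⟨n, hn⟩
        exact ⟨n + 1, H.near_inv ha hn⟩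
    intro a b hab
    induction hab with
    | rel a b hab =>
      obtain ⟨ha, rfl | rfl⟩ := hab
      · exact hinv a ha
      · refine (hinv a ha).trans ?_
        have h1 := H.ok.tgt ha
        have h2 := H.ok.inv_mem a ha
        exact ⟨fun ⟨n, hn⟩ => ⟨n, H.near_sameV h2 h1 hn⟩, fun ⟨n, hn⟩ =>
          ⟨n, H.near_sameV (H.ok.fc_mem ha) (H.ok.sameV_symm h2 h1) hn⟩⟩
    | refl a => exact Iff.rfl
    | symm a b _ ih => exact ih.symm
    | trans a b c _ _ ih ih' => exact ih.trans ih'
  exact (key _ _ (H.ok.conn _ (H.ok.bd_mem 0) e he)).1 ⟨0, 0, 0, rfl⟩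

theorem distBd_le_iff (H : HPT) {e : ℕ} (he : e ∈ H.M.D) (n : ℕ) :
    H.distBd e ≤ n ↔ e ∈ H.near n := by
  constructor
  · intro h
    exact H.near_mono h he (Nat.sInf_mem (s := {n | e ∈ H.near n}) (H.exists_near he))
  · intro h
    exact Nat.sInf_le (s := {n | e ∈ H.near n}) h

theorem distBd_sameV (H : HPT) {e f : ℕ} (he : e ∈ H.M.D) (hef : H.M.SameV e f) :
    H.distBd e = H.distBd f := by
  have hf := H.ok.sameV_mem he hef
  apply le_antisymm
  · rw [H.distBd_le_iff he]
    exact H.near_sameV hf (H.ok.sameV_symm he hef) ((H.distBd_le_iff hf _).1 le_rfl)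
  · rw [H.distBd_le_iff hf]
    exact H.near_sameV he hef ((H.distBd_le_iff he _).1 le_rfl)

theorem distBd_adj (H : HPT) {e : ℕ} (he : e ∈ H.M.D) :
    H.distBd e ≤ H.distBd (H.M.inv e) + 1 := by
  rw [H.distBd_le_iff he]
  exact H.near_inv he ((H.distBd_le_iff (H.ok.inv_mem e he) _).1 le_rfl)

theorem distBd_eq_zero (H : HPT) {e : ℕ} (he : e ∈ H.M.D) :
    H.distBd e = 0 ↔ ∃ i, H.M.SameV (H.M.bd i) e := by
  rw [← Nat.le_zero, H.distBd_le_iff he]
  exact Iff.rfl

theorem exists_closer (H : HPT) {e : ℕ} (he : e ∈ H.M.D) {n : ℕ} (hn : H.distBd e = n + 1) :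
    ∃ x, H.M.SameV e x ∧ H.distBd (H.M.inv x) = n := by
  obtain ⟨x, h1, h2⟩ := (H.distBd_le_iff he (n + 1)).1 hn.le
  have hx := H.ok.sameV_mem he h1
  have h3 := H.distBd_sameV he h1
  rcases h2 with h2 | h2
  · have h4 := (H.distBd_le_iff hx n).2 h2
    omega
  · refine ⟨x, h1, ?_⟩
    have h4 := (H.distBd_le_iff (H.ok.inv_mem x hx) n).2 h2
    have h5 := H.distBd_adj hx
    omega

theorem distBd_shift (H : HPT) (i : ℤ) (e : ℕ) : (H.shift i).distBd e = H.distBd e := by
  have hS : ∀ a b, (H.shift i).M.SameV a b ↔ H.M.SameV a b := fun a b => Iff.rfl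
  have hn : ∀ n, (H.shift i).near n = H.near n := by
    intro n
    induction n with
    | zero =>
      ext e
      constructor
      · rintro ⟨j, hj⟩
        exact ⟨j + i, hj⟩
      · rintro ⟨j, hj⟩
        refine ⟨j - i, ?_⟩
        have h1 : (H.shift i).M.bd (j - i) = H.M.bd j := by
          change H.M.bd (j - i + i) = H.M.bd j
          rw [sub_add_cancel]
        rw [h1]
        exact hj
    | succ n ih =>
      ext e
      constructor
      · rintro ⟨e', h1, h2⟩
        rw [ih] at h2
        exact ⟨e', h1, h2⟩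
      · rintro ⟨e', h1, h2⟩
        rw [← ih] at h2
        exact ⟨e', h1, h2⟩
  unfold distBd
  simp only [hn]

end HPT

end Pool.Agent.Spd
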