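import Pool.Agent.Spd.CutC

/-!
# SPD A07: removing an ear (root triangle with two consecutive boundary darts)

`M` is an HPT, `r = bd 0`, `a = fc r = bd 1`, `b = fc a : v_2 → v_0`.  `R` = inner darts except
`r, a, b`; line `..., bd (-1), inv b, bd 2, bd 3, ...`.

* `inv b` is inner: otherwise `b = bd j` with origin `v_2` and target `v_0`, so `j = 2` and
  `v_3 = v_0`, impossible.  `inv b` is none of `r, a, b` (`inv_ne`, `inv_ne_fc`, `inv_ne_fc2`).
* `bd j` (`j ≠ 0, 1`) is not `r`, `a` (`bd_inj`), nor `b` (`b = bd j` as before).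
* `only`: `inv d` outer: `d = bd j`; `inv d ∈ {r, a}`: `d` outer; `inv d = b`: `d = inv b`.
* the rest as in `PeelN.lean`.

`ear'` is the mirror case: `r = bd 0`, `b = fc (fc r) = bd (-1)`, `a = fc r : v_1 → v_{-1}`, line
`..., bd (-2), inv a, bd 1, ...` where `inv a` has index `0`.  It follows from `ear` applied to
`M.shift (-1)` (there `bd 0` is `b` and `bd 1 = r = fc b`), or directly.
-/

namespace Pool.Agent.Spd

theorem cutting_ear {M : PreMap} (h : M.IsHPT) (ha : M.fc (M.bd 0) = M.bd 1) :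
    Cutting M {d | M.Inner d ∧ d ≠ M.bd 0 ∧ d ≠ M.fc (M.bd 0) ∧ d ≠ M.fc (M.fc (M.bd 0))}
      (fun i => if i < 0 then M.bd i else if i = 0 then M.inv (M.fc (M.fc (M.bd 0))) else
        M.bd (i + 1)) := by
  have hri : M.Inner (M.bd 0) := h.bd_inner 0
  have hai : M.Inner (M.fc (M.bd 0)) := h.fc_inner _ hri
  have hbi : M.Inner (M.fc (M.fc (M.bd 0))) := h.fc_inner _ hai
  have hfb : M.fc (M.fc (M.fc (M.bd 0))) = M.bd 0 := h.fc_tri _ hri
  have hA : M.SameV (M.bd 2) (M.fc (M.fc (M.bd 0))) := by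
    have h1 : M.SameV (M.inv (M.bd 1)) (M.bd 2) := h.bd_next 1
    have h2 : M.SameV (M.inv (M.fc (M.bd 0))) (M.fc (M.fc (M.bd 0))) := h.tgt hai.1
    rw [← ha] at h1
    exact h.sameV_trans (h.sameV_symm (h.inv_mem _ hai.1) h1) h2
  have hB : M.SameV (M.inv (M.fc (M.fc (M.bd 0)))) (M.bd 0) := by
    have h1 := h.tgt hbi.1
    rw [hfb] at h1
    exact h1
  set b := M.fc (M.fc (M.bd 0)) with hb
  have hb_bd : ∀ j, b ≠ M.bd j := by
    intro j hj
    rw [hj] at hA
    have h1 := h.simple _ _ hA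
    subst h1
    rw [hj] at hB
    have h2 : M.SameV (M.bd 3) (M.inv (M.bd 2)) := h.sameV_symm (h.inv_mem _ (h.bd_mem 2))
      (h.bd_next 2)
    have h3 := h.simple _ _ (h.sameV_trans h2 hB)
    omega
  have hib : M.Inner (M.inv b) := by
    refine ⟨h.inv_mem _ hbi.1, fun i hi => hb_bd i ?_⟩
    rw [← h.inv_inv b hbi.1, hi, h.inv_inv _ (h.bd_mem i)]
  have hib0 : M.inv b ≠ M.bd 0 := by
    have h1 := h.inv_ne_fc hbi
    rw [hfb] at h1
    exact h1
  have hib1 : M.inv b ≠ M.fc (M.bd 0) := by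
    have h1 := h.inv_ne_fc2 hbi
    rw [hfb] at h1
    exact h1
  have hib2 : M.inv b ≠ b := h.inv_ne _ hbi.1
  have hbdR : ∀ j : ℤ, j ≠ 0 → j ≠ 1 → M.bd j ∈
      {d | M.Inner d ∧ d ≠ M.bd 0 ∧ d ≠ M.fc (M.bd 0) ∧ d ≠ b} := by
    intro j h0 h1
    refine ⟨h.bd_inner j, fun hj => h0 (h.bd_inj hj), fun hj => h1 (h.bd_inj (hj.trans ha)),
      fun hj => hb_bd j hj.symm⟩
  have hidx : ∀ i : ℤ, M.SameV (M.bd (if i ≤ 0 then i else i + 1))
      (if i < 0 then M.bd i else if i = 0 then M.inv b else M.bd (i + 1)) := by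
    intro i
    rcases lt_trichotomy i 0 with hi | hi | hi
    · rw [if_pos hi.le, if_pos hi]
      exact h.sameV_refl _
    · subst hi
      simp only [le_refl, if_true, lt_irrefl, if_false]
      exact h.sameV_symm (h.inv_mem _ hbi.1) hB
    · rw [if_neg (not_le.2 hi), if_neg (not_lt.2 hi.le), if_neg hi.ne']
      exact h.sameV_refl _
  have hLD : ∀ i : ℤ, (if i < 0 then M.bd i else if i = 0 then M.inv b else M.bd (i + 1)) ∈
      {d | M.Inner d ∧ d ≠ M.bd 0 ∧ d ≠ M.fc (M.bd 0) ∧ d ≠ b} := by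
    intro i
    rcases lt_trichotomy i 0 with hi | hi | hi
    · rw [if_pos hi]
      exact hbdR i (by omega) (by omega)
    · subst hi
      simp only [lt_irrefl, if_false, if_true]
      exact ⟨hib, hib0, hib1, hib2⟩
    · rw [if_neg (not_lt.2 hi.le), if_neg hi.ne']
      exact hbdR _ (by omega) (by omega)
  refine ⟨fun d hd => hd.1, ?_, hLD, ?_, ?_, ?_, ?_⟩
  · -- fc_mem
    rintro d ⟨hd, h0, h1, h2⟩
    refine ⟨h.fc_inner d hd, fun he => h2 ?_, fun he => h0 ?_, fun he => h1 ?_⟩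
    · exact h.fc_inj hd.1 hbi.1 (he.trans hfb.symm)
    · exact h.fc_inj hd.1 hri.1 he
    · exact h.fc_inj hd.1 hai.1 he
  · -- line_out
    intro i
    show M.inv (if i < 0 then M.bd i else if i = 0 then M.inv b else M.bd (i + 1)) ∉ _
    rcases lt_trichotomy i 0 with hi | hi | hi
    · rw [if_pos hi]
      exact fun hx => hx.1.2 i rfl
    · subst hi
      simp only [lt_irrefl, if_false, if_true]
      rw [h.inv_inv _ hbi.1]
      exact fun hx => hx.2.2.2 rfl
    · rw [if_neg (not_lt.2 hi.le), if_neg hi.ne']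
      exact fun hx => hx.1.2 _ rfl
  · -- only
    rintro d ⟨hd, h0, h1, h2⟩
    rcases h.inner_or_outer (h.inv_mem d hd.1) with hi | ⟨i, hi⟩
    · by_cases k0 : M.inv d = M.bd 0
      · exfalso
        refine hd.2 0 ?_
        rw [← k0, h.inv_inv d hd.1]
      · by_cases k1 : M.inv d = M.fc (M.bd 0)
        · exfalso
          refine hd.2 1 ?_
          rw [← ha, ← k1, h.inv_inv d hd.1]
        · by_cases k2 : M.inv d = b
          · right
            refine ⟨0, ?_⟩
            simp only [lt_irrefl, if_false, if_true]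
            rw [← k2, h.inv_inv d hd.1]
          · left
            exact ⟨hi, k0, k1, k2⟩
    · right
      have hdi : d = M.bd i := by
        rw [← h.inv_inv d hd.1, hi, h.inv_inv _ (h.bd_mem i)]
      have hi0 : i ≠ 0 := fun hx => h0 (by rw [hdi, hx])
      have hi1 : i ≠ 1 := fun hx => h1 (by rw [hdi, hx, ha])
      rcases lt_or_gt_of_ne hi0 with hi' | hi'
      · refine ⟨i, ?_⟩
        simp only [if_pos hi']
        exact hdi
      · refine ⟨i - 1, ?_⟩
        have e1 : ¬ (i - 1 < 0) := by omega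
        have e2 : i - 1 ≠ 0 := by omega
        simp only [if_neg e1, if_neg e2, sub_add_cancel]
        exact hdi
  · -- path
    intro i
    show M.SameV (M.inv (if i < 0 then M.bd i else if i = 0 then M.inv b else M.bd (i + 1)))
      (if i + 1 < 0 then M.bd (i + 1) else if i + 1 = 0 then M.inv b else M.bd (i + 1 + 1))
    rcases lt_trichotomy i 0 with hi | hi | hi
    · rw [if_pos hi]
      rcases lt_or_eq_of_le (show i ≤ -1 by omega) with hi' | hi'
      · rw [if_pos (show i + 1 < 0 by omega)]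
        exact h.bd_next i
      · subst hi'
        rw [if_neg (by omega), if_pos (by omega)]
        have h1 : M.SameV (M.inv (M.bd (-1))) (M.bd (-1 + 1)) := h.bd_next (-1)
        rw [show (-1 : ℤ) + 1 = 0 by norm_num] at h1
        exact h.sameV_trans h1 (h.sameV_symm (h.inv_mem _ hbi.1) hB)
    · subst hi
      simp only [lt_irrefl, if_false, if_true]
      rw [if_neg (by omega), if_neg (by omega), h.inv_inv _ hbi.1]
      exact h.sameV_symm (h.bd_mem 2) hA
    · rw [if_neg (not_lt.2 hi.le), if_neg hi.ne', if_neg (by omega), if_neg (by omega)]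
      exact h.bd_next _
  · -- simple
    intro i j hij
    have h1 := h.sameV_trans (hidx i) hij
    have h2 := h.sameV_trans h1 (h.sameV_symm (h.bd_mem _) (hidx j))
    have h3 := h.simple _ _ h2
    split_ifs at h3 <;> omega

theorem cutting_ear' {M : PreMap} (h : M.IsHPT) (hb : M.fc (M.fc (M.bd 0)) = M.bd (-1)) :
    Cutting M {d | M.Inner d ∧ d ≠ M.bd 0 ∧ d ≠ M.fc (M.bd 0) ∧ d ≠ M.fc (M.fc (M.bd 0))}
      (fun i => if i < 0 then M.bd (i - 1) else if i = 0 then M.inv (M.fc (M.bd 0)) else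
        M.bd i) := by
  have hfb : M.fc (M.bd (-1)) = M.bd 0 := by
    rw [← hb]
    exact h.fc_tri _ (h.bd_inner 0)
  have hs : (M.shift (-1)).IsHPT := HPT.shift_ok (-1) h
  have hI : ∀ d, (M.shift (-1)).Inner d ↔ M.Inner d := by
    intro d
    constructor
    · rintro ⟨h1, h2⟩
      refine ⟨h1, fun i hi => h2 (i + 1) ?_⟩
      show d = M.inv (M.bd (i + 1 + -1))
      rw [hi]
      congr 2
      ring
    · rintro ⟨h1, h2⟩
      exact ⟨h1, fun i hi => h2 _ hi⟩
  have hc := cutting_ear hs (show M.fc (M.bd (0 + -1)) = M.bd (1 + -1) by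
    rw [show (0 : ℤ) + -1 = -1 by norm_num, show (1 : ℤ) + -1 = 0 by norm_num]
    exact hfb)
  have e1 : {d | (M.shift (-1)).Inner d ∧ d ≠ (M.shift (-1)).bd 0 ∧
      d ≠ (M.shift (-1)).fc ((M.shift (-1)).bd 0) ∧
      d ≠ (M.shift (-1)).fc ((M.shift (-1)).fc ((M.shift (-1)).bd 0))} =
      {d | M.Inner d ∧ d ≠ M.bd 0 ∧ d ≠ M.fc (M.bd 0) ∧ d ≠ M.fc (M.fc (M.bd 0))} := by
    ext d
    show ((M.shift (-1)).Inner d ∧ d ≠ M.bd (0 + -1) ∧ d ≠ M.fc (M.bd (0 + -1)) ∧
      d ≠ M.fc (M.fc (M.bd (0 + -1)))) ↔ _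
    rw [hI, show (0 : ℤ) + -1 = -1 by norm_num, hfb, hb]
    constructor
    · rintro ⟨k1, k2, k3, k4⟩
      exact ⟨k1, k3, k4, k2⟩
    · rintro ⟨k1, k2, k3, k4⟩
      exact ⟨k1, k4, k2, k3⟩
  have e2 : (fun i : ℤ => if i < 0 then (M.shift (-1)).bd i else if i = 0 then
      (M.shift (-1)).inv ((M.shift (-1)).fc ((M.shift (-1)).fc ((M.shift (-1)).bd 0))) else
        (M.shift (-1)).bd (i + 1)) =
      (fun i => if i < 0 then M.bd (i - 1) else if i = 0 then M.inv (M.fc (M.bd 0)) else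
        M.bd i) := by
    funext i
    show (if i < 0 then M.bd (i + -1) else if i = 0 then M.inv (M.fc (M.fc (M.bd (0 + -1)))) else
      M.bd (i + 1 + -1)) = _
    rw [show (0 : ℤ) + -1 = -1 by norm_num, hfb, show i + 1 + -1 = i by ring,
      show i + -1 = i - 1 by ring]
  rw [e1, e2] at hc
  exact ⟨fun d hd => (hI d).1 (hc.sub d hd), hc.fc_mem, hc.line_mem, hc.line_out, hc.only,
    hc.path, hc.simple⟩

end Pool.Agent.Spd
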