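import Pool.Agent.Spd.Defs

/-!
# Interface: explorations, stars, exploration along the walk

Definitions used by all blocks (no sorry in this file).
-/

namespace Pool.Agent.Spd

open MeasureTheory

/-- Data of a sub-map with inner darts `R` and boundary line `L`. -/
structure Cutting (M : PreMap) (R : Set ℕ) (L : ℤ → ℕ) : Prop where
  sub : ∀ d ∈ R, M.Inner d
  fc_mem : ∀ d ∈ R, M.fc d ∈ R
  line_mem : ∀ i, L i ∈ R
  line_out : ∀ i, M.inv (L i) ∉ R
  only : ∀ d ∈ R, M.inv d ∈ R ∨ ∃ i, d = L i
  path : ∀ i, M.SameV (M.inv (L i)) (L (i + 1))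
  simple : ∀ i j, M.SameV (L i) (L j) → i = j

/-- Equality of maps up to the irrelevant values of `fc` outside `D`. -/
structure PreMap.Eqv (M M' : PreMap) : Prop where
  D : M.D = M'.D
  inv : M.inv = M'.inv
  bd : M.bd = M'.bd
  fc : ∀ d ∈ M.D, M.fc d = M'.fc d

/-- Number of inner vertices of a coded polygon. -/
def Tri.verts : {k : ℕ} → Tri k → ℕ
  | _, .edge => 0
  | _, .new t => t.verts + 1
  | _, .split t₁ t₂ => t₁.verts + t₂.verts

/-- Number of triangles of a coded polygon. -/
def Tri.faces : {k : ℕ} → Tri k → ℕ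
  | _, .edge => 0
  | _, .new t => t.faces + 1
  | _, .split t₁ t₂ => t₁.faces + t₂.faces + 1

/-- The outcome is of the form `L k τ` (the root vertex is cut off). -/
def Step.isL : Step → Prop
  | .L _ _ => True
  | _ => False

namespace HPT

/-- `Sub G H`: the map `G` is a cofinite sub-map of `H` (same darts, same structure above the line
of `G`). -/
structure Sub (G H : HPT) : Prop where
  cutting : Cutting H.M {d | G.M.Inner d} G.M.bd
  mem_iff : ∀ d, d ∈ G.M.D ↔ d ∈ H.M.D ∧ (G.M.Inner d ∨ G.M.Inner (H.M.inv d))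
  inv_eq : G.M.inv = H.M.inv
  fc_eq : ∀ d, G.M.Inner d → G.M.fc d = H.M.fc d
  fin : {d | H.M.Inner d ∧ ¬ G.M.Inner d}.Finite

/-- The origin of `e` is strictly below the line of `G` (it is not a vertex of `G`). -/
def Blw (H G : HPT) (e : ℕ) : Prop := ∀ e', H.M.SameV e e' → e' ∉ G.M.D

/-- The origin of `e` is on the line of `G`. -/
def On (H G : HPT) (e : ℕ) : Prop := ∃ i, H.M.SameV (G.M.bd i) e

/-- The origin of `e` is strictly above the line of `G`. -/
def Abv (H G : HPT) (e : ℕ) : Prop :=
  ∀ e', H.M.SameV e e' → G.M.Inner e' ∧ G.M.Inner (H.M.inv e')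

/-- Successive peelings of the edges with indices `c` (the map that remains). -/
noncomputable def exec (H : HPT) (c : List ℤ) : HPT := c.foldl (fun G i => (G.shift i).rem) H

/-- Number of peelings at index `0` before the one that cuts off the root vertex. -/
noncomputable def stopT (H : HPT) : ℕ := sInf {n | (rem^[n] H).step.isL}

/-- Exploration of the star of the root vertex. -/
noncomputable def star (H : HPT) : HPT := rem^[H.stopT + 1] H

/-- Number of (inner) darts removed by the exploration of the star of the root vertex. -/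
noncomputable def starVol (H : HPT) : ℕ := Set.ncard {d | H.M.Inner d ∧ ¬ H.star.M.Inner d}

open Classical in
/-- Commands of the exploration along a path `w` (a sequence of darts; the positions are their
origins), up to time `n`, after the initial exploration `c₀`: whenever the path is on the line, the
star of its position is explored. -/
noncomputable def cmdP (c₀ : List ℤ) (H : HPT) (w : ℕ → ℕ) : ℕ → List ℤ
  | 0 => c₀
  | n + 1 =>
    if h : ∃ i, H.M.SameV ((H.exec (cmdP c₀ H w n)).M.bd i) (w n) then
      cmdP c₀ H w n ++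
        (h.choose :: List.replicate (((H.exec (cmdP c₀ H w n)).shift h.choose).stopT) 0)
    else cmdP c₀ H w n

/-- The unexplored region before time `n`. -/
noncomputable def reg (c₀ : List ℤ) (H : HPT) (w : ℕ → ℕ) (n : ℕ) : HPT :=
  H.exec (cmdP c₀ H w n)

/-- `n` is a pioneer time: the path is on the line of the unexplored region. -/
def Pio (c₀ : List ℤ) (H : HPT) (w : ℕ → ℕ) (n : ℕ) : Prop :=
  ∃ i, H.M.SameV ((reg c₀ H w n).M.bd i) (w n)

open Classical in
/-- Position on the line at a pioneer time. -/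
noncomputable def pidx (c₀ : List ℤ) (H : HPT) (w : ℕ → ℕ) (n : ℕ) : ℤ :=
  if h : Pio c₀ H w n then h.choose else 0

/-- The unexplored region at time `n`, rooted at the position of the path if it is on the line. -/
noncomputable def regAt (c₀ : List ℤ) (H : HPT) (w : ℕ → ℕ) (n : ℕ) : HPT :=
  (reg c₀ H w n).shift (pidx c₀ H w n)

/-- Number of darts at the position of the path that do not belong to the unexplored region. -/
noncomputable def expD (c₀ : List ℤ) (H : HPT) (w : ℕ → ℕ) (n : ℕ) : ℕ :=
  Set.ncard {e | H.M.SameV (w n) e ∧ e ∉ (reg c₀ H w n).M.D}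

/-- Number of the edge taken by the walk at time `n`. -/
noncomputable def kap (H : HPT) (U : ℕ → unitInterval) (n : ℕ) : ℕ :=
  ⌊(U n : ℝ) * H.deg (H.walk U n)⌋₊

/-- History of the exploration along the walk before time `n`: commands, outcomes, choices. -/
noncomputable def hist (c₀ : List ℤ) (H : HPT) (U : ℕ → unitInterval) (n : ℕ) :
    List ℤ × List Step × List ℕ :=
  (cmdP c₀ H (H.walk U) n, H.outs (cmdP c₀ H (H.walk U) n), (List.range n).map (kap H U))

/-- Walk started at the origin of the dart `e`. -/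
noncomputable def walkFrom (H : HPT) (e : ℕ) (U : ℕ → unitInterval) : ℕ → ℕ
  | 0 => e
  | n + 1 => H.M.inv
      (H.M.rot^[⌊(U n : ℝ) * H.deg (walkFrom H e U n)⌋₊] (walkFrom H e U n))

/-- Walk from the root vertex whose first dart is the dart number `κ` in the rotation from
`inv (bd (-1))`, driven by `U` afterwards. -/
noncomputable def walkK (H : HPT) (κ : ℕ) (U : ℕ → unitInterval) : ℕ → ℕ
  | 0 => H.M.inv (H.M.bd (-1))
  | n + 1 => H.walkFrom (H.M.inv (H.M.rot^[κ] (H.M.inv (H.M.bd (-1))))) U n

/-- This walk never returns to the boundary. -/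
def Esc (G : HPT) (κ : ℕ) (U : ℕ → unitInterval) : Prop :=
  κ < G.deg (G.M.bd 0) ∧ ∀ n i, ¬ G.M.SameV (G.M.bd i) (G.walkK κ U (n + 1))

/-- Outcomes of the exploration of the star. -/
noncomputable def starOuts (H : HPT) : List Step :=
  (List.range (H.stopT + 1)).map (fun j => (rem^[j] H).step)

/-- Isomorphism between the explored parts of two maps (all darts that are not inner darts of the
unexplored regions `G`, `G'`). -/
structure Sim (H G H' G' : HPT) (φ ψ : ℕ → ℕ) : Prop where
  map : ∀ d ∈ H.M.D, ¬ G.M.Inner d → φ d ∈ H'.M.D ∧ ¬ G'.M.Inner (φ d) ∧ ψ (φ d) = d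
  map' : ∀ d ∈ H'.M.D, ¬ G'.M.Inner d → ψ d ∈ H.M.D ∧ ¬ G.M.Inner (ψ d) ∧ φ (ψ d) = d
  inv : ∀ d ∈ H.M.D, ¬ G.M.Inner d → ¬ G.M.Inner (H.M.inv d) → φ (H.M.inv d) = H'.M.inv (φ d)
  fc : ∀ d ∈ H.M.D, ¬ G.M.Inner d → φ (H.M.fc d) = H'.M.fc (φ d)
  line : ∀ i, φ (H.M.inv (G.M.bd i)) = H'.M.inv (G'.M.bd i)
  bdy : ∀ i, φ (H.M.inv (H.M.bd i)) = H'.M.inv (H'.M.bd i)

/-- A fixed fair sequence of commands: the absolute positions are swept from right to left in
windows of width `4 ^ k`; `fairAbs n` is the `n`-th absolute position. -/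
def sweeps : ℕ → List ℤ
  | 0 => []
  | k + 1 => sweeps k ++ (List.range (2 * 4 ^ k + 1)).map (fun j : ℕ => (4 ^ k : ℤ) - j)

end HPT

/-- The simple random walk leaves the boundary for ever with positive probability (annealed, first
dart counted with multiplicity). -/
noncomputable def escMass (μ : Measure HPT) : ENNReal :=
  ∫⁻ H, ∑ κ ∈ Finset.range (H.deg (H.M.bd 0)), unif {U | H.Esc κ U} ∂μ

end Pool.Agent.Spd
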