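import Pool.Agent.Spd.FairA1

/-!
(Part `FairA2`: `pos_step`.  The text below is the common header of the parts.)

# SPD M1: a fixed fair exploration: positions

The absolute positions `sweeps k` are swept from right to left in windows of half-width
`1, 4, 16, ...`; `rel p l` turns absolute positions into the relative commands of `exec`.

* `rel_append`, `sweeps_prefix`, `fair_prefix`: lists.
* `exec_rel`: induction on `l` generalizing `G`, `p`, `shift_shift`; for `q :: l'`:
  `exec ((q-p) :: rel q l') G = ((G.shift (q-p)).rem).exec (rel q l')`, and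
  `peelAt (G.shift (-p)) q = ((G.shift (q-p)).rem).shift (-q)`.
* `fair_inner`: `shift_inner`.
* `peelAt_sub`: `rem_sub`, `Sub.shift`, `Sub.shift'` (or `Sub.trans`): the inner darts do not change
  under shifts.
* `pos_step`: `K = G.shift p`, `K.bd i = G.bd (i + p)`, `(peelAt G p).bd i = K.rem.bd (i - p)`.
  `step_N` (`lineN`): `q < p` (`K` index `q - p < 0`): same position `q`; `q = p` is removed
  (`K.bd 0` is not inner in `K.rem`); `q > p`: position `q + 1`.
  `step_R` (`lineR`, `k ≥ 1`): `q < p`: same; `p < q ≤ p + k`: `K.bd (q-p)` is in `holeR`, so it is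
  in the hole or (degenerate) `k = 1` and it is `a`: it is removed, contradiction (in the
  degenerate case `F = ∅`, `inv a = inv (K.bd 1)`, `K.bd 1 = a` is removed); or use
  `chord_bd_mem`; or simply: if it is inner in `K.rem`, its inverse is not inner (it is outer in
  `K`), so it is a line dart `K.rem.bd j` (`Sub.line_of`), by `lineR` `K.bd (q-p) = K.bd j` with
  `j < 0` or `= K.bd (j + k)` with `j ≥ 1`, or `= inv b`; the last one is impossible because
  `inv (inv b) = b` is inner in `K`; `bd_inj` then gives the position in all cases.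
  THIS ARGUMENT WORKS IN ALL THREE CASES and is the shortest proof: the inverse of `G.bd q` is not
  inner in `G`, hence not in `peelAt G p`, so `G.bd q` is a line dart of `peelAt G p`, number `q'`;
  compare with `lineN`, `lineR`, `lineL`; `inv a`, `inv b` are not line darts of `G` since their
  inverses are inner.
-/

namespace Pool.Agent.Spd

namespace HPT

private theorem sh_inner (G : HPT) (i : ℤ) (d : ℕ) : (G.shift i).M.Inner d ↔ G.M.Inner d := by
  constructor
  · rintro ⟨h1, h2⟩
    refine ⟨h1, fun j hj => h2 (j - i) ?_⟩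
    have h3 : (G.shift i).M.bd (j - i) = G.M.bd (j - i + i) := rfl
    rw [h3, sub_add_cancel]
    exact hj
  · rintro ⟨h1, h2⟩
    exact ⟨h1, fun j hj => h2 (j + i) hj⟩

private theorem not_inv_inner (K : HPT) (i : ℤ) {b : ℕ} (hb : K.M.Inner b)
    (h : K.M.bd i = K.M.inv b) : False := by
  have h1 : K.M.inv (K.M.bd i) = b := by rw [h]; exact K.ok.inv_inv b hb.1
  exact hb.2 i h1.symm

/-- Position of a line dart of `K` on the line of `K.rem`. -/
private theorem pos_aux (K : HPT) (q : ℤ) (hd : K.rem.M.Inner (K.M.bd q)) :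
    q ≠ 0 ∧ ∃ j, K.M.bd q = K.rem.M.bd j ∧ (q < 0 → q ≤ j ∧ j < 0) ∧
      (0 < q → 0 < j ∧ j ≤ q + 1) := by
  have S : Sub K.rem K := rem_sub K
  have hn : ¬ K.rem.M.Inner (K.M.inv (K.M.bd q)) := fun h => (S.inner h).2 q rfl
  obtain ⟨j, hj⟩ := S.line_of hd hn
  have hr : K.M.Inner (K.M.bd 0) := K.ok.bd_inner 0
  have ha : K.M.Inner (K.M.fc (K.M.bd 0)) := K.ok.fc_inner _ hr
  have hb : K.M.Inner (K.M.fc (K.M.fc (K.M.bd 0))) := K.ok.fc_inner _ ha
  rcases hs : K.step with _ | ⟨k, τ⟩ | ⟨k, τ⟩
  · obtain ⟨-, hI, hbd⟩ := K.step_N hs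
    have hq0 : q ≠ 0 := by
      rintro rfl
      exact ((hI _).1 hd).2.1 rfl
    refine ⟨hq0, j, hj, ?_⟩
    rw [hbd] at hj
    unfold lineN at hj
    rcases lt_trichotomy j 0 with h | h | h
    · rw [if_pos h] at hj
      have := K.ok.bd_inj hj
      omega
    · rw [if_neg (by omega), if_pos h] at hj
      exact (not_inv_inner K q hb hj).elim
    · rw [if_neg (by omega), if_neg (by omega)] at hj
      by_cases h1 : j = 1
      · rw [if_pos h1] at hj
        exact (not_inv_inner K q ha hj).elim
      · rw [if_neg h1] at hj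
        have := K.ok.bd_inj hj
        omega
  · obtain ⟨-, F, -, -, hI, hbd⟩ := K.step_R hs
    have hq0 : q ≠ 0 := by
      rintro rfl
      exact ((hI _).1 hd).2.1 rfl
    refine ⟨hq0, j, hj, ?_⟩
    rw [hbd] at hj
    unfold lineR at hj
    rcases lt_trichotomy j 0 with h | h | h
    · rw [if_pos h] at hj
      have := K.ok.bd_inj hj
      omega
    · rw [if_neg (by omega), if_pos h] at hj
      exact (not_inv_inner K q hb hj).elim
    · rw [if_neg (by omega), if_neg (by omega)] at hj
      have := K.ok.bd_inj hj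
      omega
  · obtain ⟨-, F, -, -, hI, hbd⟩ := K.step_L hs
    have hq0 : q ≠ 0 := by
      rintro rfl
      exact ((hI _).1 hd).2.1 rfl
    refine ⟨hq0, j, hj, ?_⟩
    rw [hbd] at hj
    unfold lineL at hj
    rcases lt_trichotomy j 0 with h | h | h
    · rw [if_pos h] at hj
      have := K.ok.bd_inj hj
      omega
    · rw [if_neg (by omega), if_pos h] at hj
      exact (not_inv_inner K q ha hj).elim
    · rw [if_neg (by omega), if_neg (by omega)] at hj
      have := K.ok.bd_inj hj
      omega

/-- Change of the position of a line dart. -/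
theorem pos_step (G : HPT) (p q : ℤ) (hd : (peelAt G p).M.Inner (G.M.bd q)) :
    q ≠ p ∧ ∃ q', G.M.bd q = (peelAt G p).M.bd q' ∧ (q < p → q ≤ q' ∧ q' < p) ∧
      (p < q → p < q' ∧ q' ≤ q + 1) := by
  have h1 : (G.shift p).rem.M.Inner (G.M.bd q) := (sh_inner _ (-p) _).1 hd
  have h2 : (G.shift p).M.bd (q - p) = G.M.bd q := by
    have h3 : (G.shift p).M.bd (q - p) = G.M.bd (q - p + p) := rfl
    rw [h3, sub_add_cancel]
  rw [← h2] at h1
  obtain ⟨h3, j, hj, h4, h5⟩ := pos_aux (G.shift p) (q - p) h1
  refine ⟨by omega, j + p, ?_, by omega, by omega⟩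
  have h6 : (peelAt G p).M.bd (j + p) = (G.shift p).rem.M.bd (j + p + -p) := rfl
  rw [h6, ← h2, hj]
  congr 1
  ring

end HPT

end Pool.Agent.Spd
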