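import Pool.Agent.Spd.Loc

/-!
(Part `FairA1`: `rel`, `fair`, `peelAt`, `absR`, `exec_rel`, `fair_prefix`, `fair_inner`, `fair_sub`, `peelAt_sub`, `absR_sub`, `absR_append`.  The text below is the common header of the parts.)

# SPD M1: a fixed fair exploration: positions

The absolute positions `sweeps k` are swept from right to left in windows of half-width
`1, 4, 16, ...`; `rel p l` turns absolute positions into the relative commands of `exec`.

* `rel_append`, `sweeps_prefix`, `fair_prefix`: lists.
* `exec_rel`: induction on `l` generalizing `G`, `p`, `shift_shift`; for `q :: l'`: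
  `exec ((q-p) :: rel q l') G = ((G.shift (q-p)).rem).exec (rel q l')`, and
  `peelAt (G.shift (-p)) q = ((G.shift (q-p)).rem).shift (-q)`.
* `fair_inner`: `shift_inner`.
* `peelAt_sub`: `rem_sub`, `Sub.shift`, `Sub.shift'` (or `Sub.trans`): the inner darts do not change
  under shifts.
* `pos_step`: `K = G.shift p`, `K.bd i = G.bd (i + p)`, `(peelAt G p).bd i = K.rem.bd (i - p)`.
  `step_N` (`lineN`): `q < p` (`K` index `q - p < 0`): same position `q`; `q = p` is removed
  (`K.bd 0` is not inner in `K.rem`); `q > p`: position `q + 1`.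
  `step_R` (`lineR`, `k ≥ 1`): `q < p`: same; `p < q ≤ p + k`: `K.bd (q-p)` is in `holeR`, so it is
  in the hole or (degenerate) `k = 1` and it is `a`: it is removed, contradiction (in the
  degenerate case `F = ∅`, `inv a = inv (K.bd 1)`, `K.bd 1 = a` is removed); or use
  `chord_bd_mem`; or simply: if it is inner in `K.rem`, its inverse is not inner (it is outer in
  `K`), so it is a line dart `K.rem.bd j` (`Sub.line_of`), by `lineR` `K.bd (q-p) = K.bd j` with
  `j < 0` or `= K.bd (j + k)` with `j ≥ 1`, or `= inv b`; the last one is impossible because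
  `inv (inv b) = b` is inner in `K`; `bd_inj` then gives the position in all cases.
  THIS ARGUMENT WORKS IN ALL THREE CASES and is the shortest proof: the inverse of `G.bd q` is not
  inner in `G`, hence not in `peelAt G p`, so `G.bd q` is a line dart of `peelAt G p`, number `q'`;
  compare with `lineN`, `lineR`, `lineL`; `inv a`, `inv b` are not line darts of `G` since their
  inverses are inner.
-/

namespace Pool.Agent.Spd

namespace HPT

/-- Relative commands for a list of absolute positions. -/
def rel : ℤ → List ℤ → List ℤ
  | _, [] => []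
  | p, q :: l => (q - p) :: rel q l

/-- The fair exploration (after `k` sweeps). -/
def fair (k : ℕ) : List ℤ := rel 0 (sweeps k)

/-- Peeling at the absolute position `p`. -/
noncomputable def peelAt (G : HPT) (p : ℤ) : HPT := ((G.shift p).rem).shift (-p)

/-- Peeling at a list of absolute positions. -/
noncomputable def absR (G : HPT) (l : List ℤ) : HPT := l.foldl peelAt G

theorem exec_rel (G : HPT) (p : ℤ) (l : List ℤ) :
    (G.exec (rel p l)).shift (-(l.getLastD p)) = absR (G.shift (-p)) l := by
  induction l generalizing G p with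
  | nil => rfl
  | cons q l ih =>
    have h1 : G.exec (rel p (q :: l)) = ((G.shift (q - p)).rem).exec (rel q l) := rfl
    have h2 : (q :: l).getLastD p = l.getLastD q := by
      rw [List.getLastD_cons]
    have h3 : absR (G.shift (-p)) (q :: l) = absR (peelAt (G.shift (-p)) q) l := rfl
    have h4 : peelAt (G.shift (-p)) q = ((G.shift (q - p)).rem).shift (-q) := by
      unfold peelAt
      rw [shift_shift, show -p + q = q - p by ring]
    rw [h1, h2, h3, h4]
    exact ih _ q

private theorem rel_append (p : ℤ) (l l' : List ℤ) :
    rel p (l ++ l') = rel p l ++ rel (l.getLastD p) l' := by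
  induction l generalizing p with
  | nil => rfl
  | cons q l ih =>
    have h2 : (q :: l).getLastD p = l.getLastD q := by
      rw [List.getLastD_cons]
    rw [h2]
    change (q - p) :: rel q (l ++ l') = (q - p) :: (rel q l ++ rel (l.getLastD q) l')
    rw [ih]

private theorem sweeps_prefix {k m : ℕ} (hkm : k ≤ m) : ∃ l, sweeps m = sweeps k ++ l := by
  induction m, hkm using Nat.le_induction with
  | base => exact ⟨[], (List.append_nil _).symm⟩
  | succ m _ ih =>
    obtain ⟨l, hl⟩ := ih
    refine ⟨l ++ (List.range (2 * 4 ^ m + 1)).map (fun j : ℕ => (4 ^ m : ℤ) - j), ?_⟩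
    rw [← List.append_assoc, ← hl]
    rfl

theorem fair_prefix {k m : ℕ} (hkm : k ≤ m) : ∃ c, fair m = fair k ++ c := by
  obtain ⟨l, hl⟩ := sweeps_prefix hkm
  refine ⟨rel ((sweeps k).getLastD 0) l, ?_⟩
  unfold fair
  rw [hl, rel_append]

theorem fair_inner (G : HPT) (k d : ℕ) :
    (G.exec (fair k)).M.Inner d ↔ (absR G (sweeps k)).M.Inner d := by
  have h := exec_rel G 0 (sweeps k)
  rw [neg_zero, shift_zero] at h
  rw [← h, shift_inner]
  exact Iff.rfl

theorem fair_sub (G : HPT) {k m : ℕ} (hkm : k ≤ m) :
    Sub (G.exec (fair m)) (G.exec (fair k)) := by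
  obtain ⟨c, hc⟩ := fair_prefix hkm
  rw [hc, exec_append]
  exact exec_sub _ c

theorem peelAt_sub (G : HPT) (p : ℤ) : Sub (peelAt G p) G :=
  ((rem_sub (G.shift p)).trans ((Sub.refl G).shift p)).shift (-p)

theorem absR_sub (G : HPT) (l : List ℤ) : Sub (absR G l) G := by
  induction l generalizing G with
  | nil => exact Sub.refl G
  | cons q l ih => exact (ih (peelAt G q)).trans (peelAt_sub G q)

theorem absR_append (G : HPT) (l l' : List ℤ) : absR G (l ++ l') = absR (absR G l) l' := by
  unfold absR
  rw [List.foldl_append]

end HPT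

end Pool.Agent.Spd
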