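import Pool.Agent.Spd.FairB1

/-!
(Part `FairB2`: `line_removed`.  The text below is the common header of the parts.)

# SPD M2: the fair exploration swallows everything

`sweeps (k+1) = sweeps k ++ [4^k, 4^k - 1, ..., -4^k]`.  `win P = [P, P-1, ..., -P]`.

* `sweep_removes`: the dart `d = G.bd q`, `-P ≤ q ≤ P`.  Peeling at `p = P, P-1, ..., -P`: as long as
  `d` is not removed, before the peeling at `p` it is a line dart with position `q_p`,
  `-P ≤ q_p ≤ p`: if `q_p = p` it is removed, otherwise `q_p ≤ q_{p-1} < p` by `pos_step`.  Before the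
  last peeling, at `-P`, the position is `-P`, so it is removed.  (State it for the lists
  `(List.range n).map (fun j => p - j)`, induction on `n`.)
* `sweep_growth`: each peeling at `|p| ≤ P` changes the position `q` to `q'` with
  `|q'| ≤ max |q| P + 1` (`pos_step`); `2 P + 1` peelings.
* `line_removed`: suppose `d = H.bd q` is inner in all `absR H (sweeps k)`; it is then a line dart
  (its inverse is never inner, `Sub.line_of`), position `q_k`.  By `sweep_removes` `|q_k| > 4^k`, so by
  `sweep_growth` `|q_{k+1}| ≤ |q_k| + 2 * 4^k + 1`, so `|q_k| ≤ |q_0| + 4^k * 2/3 + k`, which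
  contradicts `|q_k| > 4^k` for large `k`.  The same argument starting with a line dart of
  `absR H (sweeps m)`.
* `exhaust`: let `Z` be the set of darts that are inner in all `absR H (sweeps k)`.  `Z` is invariant
  under `fc` in both directions (`Sub.cutting.fc_mem`, `Cutting.fc_mem_iff`).  If `d ∈ Z` and
  `inv d ∉ Z` then from some `m` on `d` is inner and `inv d` is not, so `d` is a line dart of
  `absR H (sweeps m)`, against `line_removed`.  So `Z` is invariant under `inv` and `fc` in both
  directions; by `conn` and since `inv (H.bd 0)` is not inner, `Z = ∅`.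
* `exhaust_blw`: finite set `F` of darts: the set of all darts at their vertices and their inverses is
  finite; for large `m` none of them is inner in `H.exec (fair m)` (`fair_sub`: monotone), so no dart
  at these vertices is a dart of `H.exec (fair m)` (`Sub.mem_iff`).
* `fair_fine`: the darts of `H` that are inner in `H` and not in `H.exec c` are finitely many
  (`Sub.fin`), so for large `m` they are not inner in `H.exec (fair m)`; `Sub.restrict`.
-/

namespace Pool.Agent.Spd

namespace HPT

private theorem sweeps_step (H : HPT) (k : ℕ) : absR H (sweeps (k + 1)) =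
    absR (absR H (sweeps k)) ((List.range (2 * (4 ^ k) + 1)).map
      (fun j : ℕ => ((4 ^ k : ℕ) : ℤ) - j)) := by
  rw [sweeps, absR_append]
  push_cast
  rfl

private theorem six_mul_le (k : ℕ) (hk : 2 ≤ k) : 6 * k ≤ 4 ^ k := by
  induction k, hk using Nat.le_induction with
  | base => norm_num
  | succ n hn ih =>
    rw [pow_succ]
    omega

theorem line_removed (H : HPT) (m : ℕ) (q : ℤ) :
    ∃ k, m ≤ k ∧ ¬ (absR H (sweeps k)).M.Inner ((absR H (sweeps m)).M.bd q) := by
  by_contra hcon
  have h : ∀ k, m ≤ k → (absR H (sweeps k)).M.Inner ((absR H (sweeps m)).M.bd q) := by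
    intro k hk
    by_contra h1
    exact hcon ⟨k, hk, h1⟩
  have hstep : ∀ k, m ≤ k → ∃ q', (absR H (sweeps m)).M.bd q = (absR H (sweeps k)).M.bd q' ∧
      3 * |q'| ≤ 3 * |q| + 2 * 4 ^ k + 3 * k := by
    intro k hk
    induction k, hk using Nat.le_induction with
    | base =>
      refine ⟨q, rfl, ?_⟩
      have h1 : (0 : ℤ) ≤ 4 ^ m := by positivity
      have h2 : (0 : ℤ) ≤ (m : ℤ) := by positivity
      linarith
    | succ n hn ih =>
      obtain ⟨q', h1, h2⟩ := ih
      have h3 := h (n + 1) (by omega)
      rw [sweeps_step, h1] at h3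
      have h4 : ((4 ^ n : ℕ) : ℤ) < |q'| := by
        by_contra h5
        rw [not_lt] at h5
        exact sweep_removes _ (4 ^ n) q' (abs_le.1 h5).1 (abs_le.1 h5).2 h3
      obtain ⟨q'', h5, h6⟩ := sweep_growth _ (4 ^ n) q' h3
      refine ⟨q'', ?_, ?_⟩
      · rw [h1, sweeps_step]
        exact h5
      · rw [max_eq_left h4.le] at h6
        push_cast at h6 ⊢
        rw [pow_succ]
        linarith
  obtain ⟨q', h1, h2⟩ := hstep (m + q.natAbs + 2) (by omega)
  have h3 := six_mul_le (m + q.natAbs + 2) (by omega)
  have h4 : |q| = (q.natAbs : ℤ) := (Int.natCast_natAbs q).symm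
  have h5 : |q'| ≤ ((4 ^ (m + q.natAbs + 2) : ℕ) : ℤ) := by
    have h6 : ((6 * (m + q.natAbs + 2) : ℕ) : ℤ) ≤ ((4 ^ (m + q.natAbs + 2) : ℕ) : ℤ) := by
      exact_mod_cast h3
    rw [h4] at h2
    push_cast at h6 h2 ⊢
    linarith
  have h6 := h (m + q.natAbs + 2 + 1) (by omega)
  rw [sweeps_step, h1] at h6
  exact sweep_removes _ _ q' (abs_le.1 h5).1 (abs_le.1 h5).2 h6

end HPT

end Pool.Agent.Spd
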