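import Pool.Agent.Spd.FairB2

/-!
(Part `FairB3`: `exhaust`, `exhaust_blw`, `fair_fine`.  The text below is the common header of the parts.)

# SPD M2: the fair exploration swallows everything

`sweeps (k+1) = sweeps k ++ [4^k, 4^k - 1, ..., -4^k]`.  `win P = [P, P-1, ..., -P]`.

* `sweep_removes`: the dart `d = G.bd q`, `-P ≤ q ≤ P`.  Peeling at `p = P, P-1, ..., -P`: as long as
  `d` is not removed, before the peeling at `p` it is a line dart with position `q_p`,
  `-P ≤ q_p ≤ p`: if `q_p = p` it is removed, otherwise `q_p ≤ q_{p-1} < p` by `pos_step`.  Before the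
  last peeling, at `-P`, the position is `-P`, so it is removed.  (State it for the lists
  `(List.range n).map (fun j => p - j)`, induction on `n`.)
* `sweep_growth`: each peeling at `|p| ≤ P` changes the position `q` to `q'` with
  `|q'| ≤ max |q| P + 1` (`pos_step`); `2 P + 1` peelings.
* `line_removed`: suppose `d = H.bd q` is inner in all `absR H (sweeps k)`; it is then a line dart
  (its inverse is never inner, `Sub.line_of`), position `q_k`.  By `sweep_removes` `|q_k| > 4^k`, so by
  `sweep_growth` `|q_{k+1}| ≤ |q_k| + 2 * 4^k + 1`, so `|q_k| ≤ |q_0| + 4^k * 2/3 + k`, which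
  contradicts `|q_k| > 4^k` for large `k`.  The same argument starting with a line dart of
  `absR H (sweeps m)`.
* `exhaust`: let `Z` be the set of darts that are inner in all `absR H (sweeps k)`.  `Z` is invariant
  under `fc` in both directions (`Sub.cutting.fc_mem`, `Cutting.fc_mem_iff`).  If `d ∈ Z` and
  `inv d ∉ Z` then from some `m` on `d` is inner and `inv d` is not, so `d` is a line dart of
  `absR H (sweeps m)`, against `line_removed`.  So `Z` is invariant under `inv` and `fc` in both
  directions; by `conn` and since `inv (H.bd 0)` is not inner, `Z = ∅`.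
* `exhaust_blw`: finite set `F` of darts: the set of all darts at their vertices and their inverses is
  finite; for large `m` none of them is inner in `H.exec (fair m)` (`fair_sub`: monotone), so no dart
  at these vertices is a dart of `H.exec (fair m)` (`Sub.mem_iff`).
* `fair_fine`: the darts of `H` that are inner in `H` and not in `H.exec c` are finitely many
  (`Sub.fin`), so for large `m` they are not inner in `H.exec (fair m)`; `Sub.restrict`.
-/

namespace Pool.Agent.Spd

namespace HPT

private theorem exhaust_inv (H : HPT) {d : ℕ}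
    (hZ : ∀ k, (H.exec (fair k)).M.Inner d) (k : ℕ) :
    (H.exec (fair k)).M.Inner (H.M.inv d) := by
  by_contra hn
  have h1 : (absR H (sweeps k)).M.Inner d := (fair_inner H k d).1 (hZ k)
  have h2 : ¬ (absR H (sweeps k)).M.Inner (H.M.inv d) :=
    fun h => hn ((fair_inner H k _).2 h)
  obtain ⟨i, hi⟩ := (absR_sub H (sweeps k)).line_of h1 h2
  obtain ⟨m, -, hm⟩ := line_removed H k i
  rw [← hi] at hm
  exact hm ((fair_inner H m d).1 (hZ m))

private theorem exhaust_rel (H : HPT) {x y : ℕ}
    (h : Relation.EqvGen (fun x y => x ∈ H.M.D ∧ (y = H.M.inv x ∨ y = H.M.fc x)) x y) :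
    (∀ k, (H.exec (fair k)).M.Inner x) ↔ (∀ k, (H.exec (fair k)).M.Inner y) := by
  induction h with
  | rel x y hxy =>
    obtain ⟨hx, rfl | rfl⟩ := hxy
    · refine ⟨fun hZ k => exhaust_inv H hZ k, fun hZ k => ?_⟩
      have h1 := exhaust_inv H hZ k
      rwa [H.ok.inv_inv x hx] at h1
    · refine forall_congr' fun k => ?_
      have S := exec_sub H (fair k)
      exact (H.ok.fc_mem_iff (G := {d | (H.exec (fair k)).M.Inner d})
        (fun d hd => ⟨S.inner hd, S.cutting.fc_mem d hd⟩) hx).symm
  | refl x => exact Iff.rfl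
  | symm x y _ ih => exact ih.symm
  | trans x y z _ _ ih1 ih2 => exact ih1.trans ih2

theorem exhaust (H : HPT) (d : ℕ) : ∃ k, ¬ (H.exec (fair k)).M.Inner d := by
  by_contra hne
  push Not at hne
  have h0 : H.M.Inner d := (exec_sub H (fair 0)).inner (hne 0)
  have h1 := (exhaust_rel H (H.ok.conn d h0.1 (H.M.inv (H.M.bd 0))
    (H.ok.inv_mem _ (H.ok.bd_mem 0)))).1 hne
  exact ((exec_sub H (fair 0)).inner (h1 0)).2 0 rfl

private theorem exhaust_fin (H : HPT) {F : Set ℕ} (hF : F.Finite) :
    ∃ k, ∀ m, k ≤ m → ∀ d ∈ F, ¬ (H.exec (fair m)).M.Inner d := by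
  induction F, hF using Set.Finite.induction_on with
  | empty => exact ⟨0, fun m _ d hd => absurd hd (Set.notMem_empty d)⟩
  | @insert a s _ _ ih =>
    obtain ⟨k1, hk1⟩ := ih
    obtain ⟨k2, hk2⟩ := exhaust H a
    refine ⟨max k1 k2, fun m hm d hd => ?_⟩
    rcases Set.mem_insert_iff.1 hd with rfl | hd
    · exact fun h => hk2 ((fair_sub H ((le_max_right k1 k2).trans hm)).inner h)
    · exact hk1 m ((le_max_left k1 k2).trans hm) d hd

theorem exhaust_blw (H : HPT) {F : Set ℕ} (hF : F.Finite) (hD : ∀ d ∈ F, d ∈ H.M.D) :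
    ∃ k, ∀ m, k ≤ m → ∀ d ∈ F, Blw H (H.exec (fair m)) d := by
  have hfin : (⋃ d ∈ F, {e | H.M.SameV d e}).Finite :=
    hF.biUnion fun d hd => H.cls_finite (hD d hd)
  obtain ⟨k, hk⟩ := exhaust_fin H (hfin.union (hfin.image H.M.inv))
  refine ⟨k, fun m hm d hd e he hmem => ?_⟩
  have h1 : e ∈ ⋃ d ∈ F, {e | H.M.SameV d e} := Set.mem_biUnion hd he
  rcases (((exec_sub H (fair m)).mem_iff e).1 hmem).2 with h2 | h2
  · exact hk m hm e (Or.inl h1) h2
  · exact hk m hm _ (Or.inr ⟨e, h1, rfl⟩) h2

theorem fair_fine (H : HPT) (c : List ℤ) :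
    ∃ k, ∀ m, k ≤ m → Sub (H.exec (fair m)) (H.exec c) := by
  obtain ⟨k, hk⟩ := exhaust_fin H (exec_sub H c).fin
  refine ⟨k, fun m hm => (exec_sub H c).restrict (exec_sub H (fair m)) fun d hd => ?_⟩
  by_contra hn
  exact hk m hm d ⟨(exec_sub H (fair m)).inner hd, hn⟩ hd

end HPT

end Pool.Agent.Spd
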