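import Pool.Agent.Spd.FairA

/-!
(Part `FairB1`: `sweep_removes`, `sweep_growth`.  The text below is the common header of the parts.)

# SPD M2: the fair exploration swallows everything

`sweeps (k+1) = sweeps k ++ [4^k, 4^k - 1, ..., -4^k]`.  `win P = [P, P-1, ..., -P]`.

* `sweep_removes`: the dart `d = G.bd q`, `-P ≤ q ≤ P`.  Peeling at `p = P, P-1, ..., -P`: as long as
  `d` is not removed, before the peeling at `p` it is a line dart with position `q_p`,
  `-P ≤ q_p ≤ p`: if `q_p = p` it is removed, otherwise `q_p ≤ q_{p-1} < p` by `pos_step`.  Before the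
  last peeling, at `-P`, the position is `-P`, so it is removed.  (State it for the lists
  `(List.range n).map (fun j => p - j)`, induction on `n`.)
* `sweep_growth`: each peeling at `|p| ≤ P` changes the position `q` to `q'` with
  `|q'| ≤ max |q| P + 1` (`pos_step`); `2 P + 1` peelings.
* `line_removed`: suppose `d = H.bd q` is inner in all `absR H (sweeps k)`; it is then a line dart
  (its inverse is never inner, `Sub.line_of`), position `q_k`.  By `sweep_removes` `|q_k| > 4^k`, so by
  `sweep_growth` `|q_{k+1}| ≤ |q_k| + 2 * 4^k + 1`, so `|q_k| ≤ |q_0| + 4^k * 2/3 + k`, which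
  contradicts `|q_k| > 4^k` for large `k`.  The same argument starting with a line dart of
  `absR H (sweeps m)`.
* `exhaust`: let `Z` be the set of darts that are inner in all `absR H (sweeps k)`.  `Z` is invariant
  under `fc` in both directions (`Sub.cutting.fc_mem`, `Cutting.fc_mem_iff`).  If `d ∈ Z` and
  `inv d ∉ Z` then from some `m` on `d` is inner and `inv d` is not, so `d` is a line dart of
  `absR H (sweeps m)`, against `line_removed`.  So `Z` is invariant under `inv` and `fc` in both
  directions; by `conn` and since `inv (H.bd 0)` is not inner, `Z = ∅`.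
* `exhaust_blw`: finite set `F` of darts: the set of all darts at their vertices and their inverses is
  finite; for large `m` none of them is inner in `H.exec (fair m)` (`fair_sub`: monotone), so no dart
  at these vertices is a dart of `H.exec (fair m)` (`Sub.mem_iff`).
* `fair_fine`: the darts of `H` that are inner in `H` and not in `H.exec c` are finitely many
  (`Sub.fin`), so for large `m` they are not inner in `H.exec (fair m)`; `Sub.restrict`.
-/

namespace Pool.Agent.Spd

namespace HPT

private theorem fb1_cons (p : ℤ) (n : ℕ) :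
    (List.range (n + 1)).map (fun j : ℕ => p - (j : ℤ)) =
      p :: (List.range n).map (fun j : ℕ => (p - 1) - (j : ℤ)) := by
  rw [List.range_succ_eq_map, List.map_cons, List.map_map]
  congr 1
  · simp
  · refine List.map_congr_left fun j _ => ?_
    simp only [Function.comp_apply, Nat.succ_eq_add_one, Nat.cast_add, Nat.cast_one]
    ring

private theorem fb1_absR_cons (G : HPT) (p : ℤ) (l : List ℤ) :
    absR G (p :: l) = absR (peelAt G p) l := rfl

private theorem fb1_inner {G : HPT} {l : List ℤ} {d : ℕ} (h : (absR G l).M.Inner d) :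
    G.M.Inner d := (absR_sub G l).cutting.sub d h

private theorem fb1_removes (n : ℕ) : ∀ (G : HPT) (p q : ℤ), p - n < q → q ≤ p →
    ¬ (absR G ((List.range n).map (fun j : ℕ => p - (j : ℤ)))).M.Inner (G.M.bd q) := by
  induction n with
  | zero =>
    intro G p q h1 h2
    simp only [Nat.cast_zero, sub_zero] at h1
    omega
  | succ n ih =>
    intro G p q h1 h2 hd
    rw [fb1_cons, fb1_absR_cons] at hd
    obtain ⟨hne, q', hq', hlt, -⟩ := pos_step G p q (fb1_inner hd)
    obtain ⟨h3, h4⟩ := hlt (lt_of_le_of_ne h2 hne)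
    push_cast at h1
    rw [hq'] at hd
    exact ih (peelAt G p) (p - 1) q' (by omega) (by omega) hd

private theorem fb1_growth (P : ℕ) (n : ℕ) : ∀ (G : HPT) (p q : ℤ), p ≤ P → -(P : ℤ) < p - n + 2 →
    (absR G ((List.range n).map (fun j : ℕ => p - (j : ℤ)))).M.Inner (G.M.bd q) →
    ∃ q', G.M.bd q = (absR G ((List.range n).map (fun j : ℕ => p - (j : ℤ)))).M.bd q' ∧
      |q'| ≤ max |q| P + n := by
  induction n with
  | zero =>
    intro G p q _ _ _
    exact ⟨q, rfl, by
      rw [Nat.cast_zero, add_zero]
      exact le_max_left _ _⟩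
  | succ n ih =>
    intro G p q h1 h2 hd
    rw [fb1_cons, fb1_absR_cons] at hd ⊢
    obtain ⟨hne, q₁, hq₁, hlt, hgt⟩ := pos_step G p q (fb1_inner hd)
    push_cast at h2
    rw [hq₁] at hd
    obtain ⟨q', hq', hle⟩ := ih (peelAt G p) (p - 1) q₁ (by omega) (by omega) hd
    refine ⟨q', hq₁.trans hq', ?_⟩
    have hp : -(P : ℤ) ≤ p := by omega
    have h3 : |q₁| ≤ max |q| P + 1 := by
      rcases lt_or_gt_of_ne hne with h | h
      · obtain ⟨h4, h5⟩ := hlt h
        have h6 := le_max_left |q| (P : ℤ)
        have h7 := le_max_right |q| (P : ℤ)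
        have h8 := neg_abs_le q
        rw [abs_le]
        constructor <;> omega
      · obtain ⟨h4, h5⟩ := hgt h
        have h6 := le_max_left |q| (P : ℤ)
        have h7 := le_max_right |q| (P : ℤ)
        have h8 := le_abs_self q
        rw [abs_le]
        constructor <;> omega
    have h4 : max |q₁| (P : ℤ) ≤ max |q| P + 1 := max_le h3 (by
      have h7 := le_max_right |q| (P : ℤ)
      omega)
    push_cast
    omega

theorem sweep_removes (G : HPT) (P : ℕ) (q : ℤ) (h1 : -(P : ℤ) ≤ q) (h2 : q ≤ P) :
    ¬ (absR G ((List.range (2 * P + 1)).map (fun j : ℕ => (P : ℤ) - j))).M.Inner (G.M.bd q) :=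
  fb1_removes (2 * P + 1) G P q (by push_cast; omega) h2

theorem sweep_growth (G : HPT) (P : ℕ) (q : ℤ)
    (hd : (absR G ((List.range (2 * P + 1)).map (fun j : ℕ => (P : ℤ) - j))).M.Inner
      (G.M.bd q)) :
    ∃ q', G.M.bd q = (absR G ((List.range (2 * P + 1)).map (fun j : ℕ => (P : ℤ) - j))).M.bd q' ∧
      |q'| ≤ max |q| P + 2 * P + 1 := by
  obtain ⟨q', h1, h2⟩ := fb1_growth P (2 * P + 1) G P q le_rfl (by push_cast; omega) hd
  refine ⟨q', h1, ?_⟩
  push_cast at h2
  omega

end HPT

end Pool.Agent.Spd
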