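import Pool.Agent.Spd.FillB1

/-!
(Part `FillB2`: `fill_bounds`.  The text below is the common header of the parts.)

# SPD A12: a code determines the region and conversely

* `fill_length`: induction on the code.
* `fill_poly`: NOT claimed (the path is always assumed to be a polygon).
* `fill_head`: for `new`/`split` the first dart `d` of `cs` is in `F`, `inv d ∉ cs` if `cs` is a
  polygon: `cs` has length `≥ 3` (for `new t`, `t : Tri (k+2)`, and `k + 2` sides may be 2 when
  `k = 0`!).  CAREFUL: a 2-gon `[d, e]` with `e ≠ inv d` may be filled by `new t`.  If `e = inv d`,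
  then `Fill (new t) [d, inv d] F` would give a finite region bounded by nothing, impossible in an
  HPT; this is the content of `fill_bounds`.
* `fill_bounds`: induction on `τ`.
  - `edge`: `F = ∅`; for `e ∈ cs = [d, inv d]` also `inv e ∈ cs`, so both sides are false.
  - `new t`: `cs' = inv b :: inv a :: ds` is a polygon (as in `FillEx.new_bounds`, which only uses
    that the third vertex is not on `cs`), so `Bounds M cs' F'`.  `d, a, b ∉ F'` (`d ∉ F'`, faces).
    `F = {d,a,b} ∪ F'` is closed.  If `inv d ∈ cs` then `cs = [d, inv d]` (`poly_inv`) and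
    `cs' = [inv b, inv a, inv d]`; then `G = F` has no boundary: for `e ∈ F'`, `inv e ∉ F'` we have
    `e ∈ cs'`, so `inv e ∈ {b, a, d}`; for `e = a`: `inv a ∈ cs'`, not degenerate (length 3), so
    `inv a ∈ F'`; same for `b` and `d`; `closed_empty` contradicts `d ∈ F`.  Otherwise check
    the oriented boundary: `e ∈ F`, `inv e ∉ F`: `e = d`, or `e ∈ F'` with `e ∈ cs'`,
    `e ≠ inv a, inv b` (their inverses `a, b` are in `F`), so `e ∈ ds`; `e = a, b` is impossible
    because `inv a, inv b ∈ F'`.  Conversely for `e ∈ cs`: `e = d`: `inv d ∉ F`: `inv d ∈ F'` with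
    `d ∉ F'` would give `inv d ∈ cs'`; `inv d ≠ inv a, inv b`, so `inv d ∈ ds`, excluded.
    `e ∈ ds`: `e ∈ F'`, `inv e ∉ F'` by `Bounds M cs' F'`; `inv e ∈ {d,a,b}`: `inv e = d` gives
    `e = inv d ∈ cs`; `inv e = a`: `e = inv a` has origin `w`, not on `cs`; `inv e = b` same: `e = inv b`
    has origin `x₁`, so `e = d`, `inv d = b`, impossible (`inv_ne_fc2`).
  - `split`: similar with `split_poly` (the hypothesis on `w` holds because the second list is
    filled: show first that if `M.Fill τ cs F` then `cs` is a closed chain, by induction: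
    `fill_chain`), using `Disjoint F₁ F₂`; the degenerate subcase `inv d ∈ cs` does not occur
    (length `≥ 3`).
* `fill_card`: disjoint unions; `d, a, b` are different (`face_ne`).
* `fill_unique`: by `fill_bounds` and `Bounds.unique`, `F = F'`.  Induction on `τ`: `edge` gives
  `F = ∅`, the other codes `d ∈ F`.  `new` against `split`: in `split` the third vertex is the
  origin of the first dart of `ds₂ ⊆ cs` (`fill_chain`), in `new` it is not on `cs`.  `split`
  against `split`: the first dart of `ds₂` is the unique dart of `cs` with origin `w`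
  (`poly_eq_of_sameV`), so the lists agree (`poly_nodup`), hence the lengths and the types.
-/

namespace Pool.Agent.Spd

variable {M : PreMap}

/-- A polygon of length at least three has no edge run through twice. -/
private theorem nondeg (h : M.IsHPT) {cs : List ℕ} (P : Poly M cs) (hl : 3 ≤ cs.length) {e : ℕ}
    (he : e ∈ cs) : M.inv e ∉ cs := by
  intro hi
  obtain ⟨x, hx⟩ := poly_inv h P he hi
  rw [hx] at hl
  simp at hl

private theorem inv_flip (h : M.IsHPT) {x y : ℕ} (hx : x ∈ M.D) (hxy : M.inv x = y) :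
    M.inv y = x := by
  rw [← hxy]
  exact h.inv_inv x hx

/-- The new polygon when the third vertex is not on the path. -/
private theorem new_poly (h : M.IsHPT) {d : ℕ} {ds : List ℕ} (P : Poly M (d :: ds))
    (hd : M.Inner d) (hw : ∀ e ∈ d :: ds, ¬ M.SameV e (M.fc (M.fc d))) :
    Poly M (M.inv (M.fc (M.fc d)) :: M.inv (M.fc d) :: ds) := by
  obtain ⟨P1, P2, P3, P4⟩ := P
  have hdD : d ∈ M.D := hd.1
  have ha : M.Inner (M.fc d) := h.fc_inner d hd
  have hb : M.Inner (M.fc (M.fc d)) := h.fc_inner _ ha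
  have hfb : M.fc (M.fc (M.fc d)) = d := h.fc_tri d hd
  -- the origin of `inv b` is the origin of `d`
  have t1 : M.SameV (M.inv (M.fc (M.fc d))) d := by
    have := h.tgt hb.1
    rwa [hfb] at this
  have t1' : M.SameV d (M.inv (M.fc (M.fc d))) := h.sameV_symm (h.inv_mem _ hb.1) t1
  -- the origin of `inv a` is the origin of `b`
  have t2 : M.SameV (M.inv (M.fc d)) (M.fc (M.fc d)) := h.tgt ha.1
  have t2' : M.SameV (M.fc (M.fc d)) (M.inv (M.fc d)) := h.sameV_symm (h.inv_mem _ ha.1) t2
  have t3 : M.SameV (M.inv d) (M.fc d) := h.tgt hdD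
  have t3' : M.SameV (M.fc d) (M.inv d) := h.sameV_symm (h.inv_mem _ hdD) t3
  rw [List.pairwise_cons] at P4
  obtain ⟨P4a, P4b⟩ := P4
  obtain ⟨e₀, es, rfl⟩ : ∃ e₀ es, ds = e₀ :: es := by
    cases ds with
    | nil => simp at P1
    | cons x xs => exact ⟨x, xs, rfl⟩
  refine ⟨by simp, ?_, ?_, ?_⟩
  · intro e he
    rcases List.mem_cons.1 he with rfl | he
    · exact h.inv_mem _ hb.1
    rcases List.mem_cons.1 he with rfl | he
    · exact h.inv_mem _ ha.1
    · exact P2 e (List.mem_cons_of_mem _ he)
  · have P3' : M.SameV (M.inv d) e₀ ∧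
        List.IsChain (fun x y => M.SameV (M.inv x) y) ((e₀ :: es) ++ [d]) := by
      simpa using P3
    obtain ⟨c1, c2⟩ := P3'
    rw [List.isChain_append] at c2
    obtain ⟨c2, -, c3⟩ := c2
    have c4 : List.IsChain (fun x y => M.SameV (M.inv x) y)
        ((e₀ :: es) ++ [M.inv (M.fc (M.fc d))]) := by
      rw [List.isChain_append]
      refine ⟨c2, List.isChain_singleton _, ?_⟩
      intro x hx y hy
      have hy' : y = M.inv (M.fc (M.fc d)) := by simpa using hy.symm
      subst hy'
      exact h.sameV_trans (c3 x hx d (by simp)) t1'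
    have key : M.SameV (M.inv (M.inv (M.fc (M.fc d)))) (M.inv (M.fc d)) ∧
        M.SameV (M.inv (M.inv (M.fc d))) e₀ := by
      rw [h.inv_inv _ hb.1, h.inv_inv _ ha.1]
      exact ⟨t2', h.sameV_trans t3' c1⟩
    simpa using ⟨key.1, key.2, by simpa using c4⟩
  · rw [List.pairwise_cons, List.pairwise_cons]
    refine ⟨?_, ?_, P4b⟩
    · intro e he hs
      rcases List.mem_cons.1 he with rfl | he
      · exact (h.face_ne hd).2.2 (h.sameV_trans (h.sameV_trans t1' hs) t2)
      · exact P4a e he (h.sameV_trans t1' hs)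
    · intro e he hs
      refine hw e (List.mem_cons_of_mem _ he) ?_
      exact h.sameV_symm hb.1 (h.sameV_trans t2' hs)

theorem fill_bounds (h : M.IsHPT) {k : ℕ} {τ : Tri k} {cs : List ℕ} {F : Finset ℕ}
    (P : Poly M cs) (f : M.Fill τ cs F) : Bounds M cs F := by
  induction τ generalizing cs F with
  | edge =>
    obtain ⟨d, hd, rfl, rfl⟩ := f
    refine ⟨by simp, fun e _ => ?_⟩
    have := h.inv_inv d hd
    constructor
    · rintro ⟨h1, -⟩
      simp at h1
    · rintro ⟨h1, h2⟩
      exfalso
      apply h2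
      simp only [List.mem_cons, List.not_mem_nil, or_false] at h1 ⊢
      rcases h1 with rfl | rfl
      · exact Or.inr rfl
      · exact Or.inl this
  | new t ih =>
    refine ⟨fill_closed h f, ?_⟩
    have fcl := fill_closed h f
    obtain ⟨d, ds, F', rfl, hd, hw, ft, hdF, rfl⟩ := f
    have P' := new_poly h P hd hw
    have B' := ih P' ft
    have ha : M.Inner (M.fc d) := h.fc_inner d hd
    have hb : M.Inner (M.fc (M.fc d)) := h.fc_inner _ ha
    have hfb : M.fc (M.fc (M.fc d)) = d := h.fc_tri d hd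
    have hbF : M.fc (M.fc d) ∉ F' := fun hx => hdF (by simpa [hfb] using (B'.1 _ hx).2)
    have haF : M.fc d ∉ F' := fun hx => hbF (B'.1 _ hx).2
    have hds : ds ≠ [] := by
      rintro rfl
      have := P.1
      simp at this
    have hl : 3 ≤ (M.inv (M.fc (M.fc d)) :: M.inv (M.fc d) :: ds).length := by
      have := List.length_pos_of_ne_nil hds
      simp only [List.length_cons]
      omega
    have nd := fun {e : ℕ} => nondeg h P' hl (e := e)
    have nodup := poly_nodup h P'
    -- darts of the new path belong to `F'`, their inverses do not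
    have key : ∀ e ∈ M.inv (M.fc (M.fc d)) :: M.inv (M.fc d) :: ds, e ∈ F' ∧ M.inv e ∉ F' :=
      fun e he => (B'.2 e (P'.2.1 e he)).2 ⟨he, nd he⟩
    have kb : M.inv (M.fc (M.fc d)) ∈ F' := (key _ (by simp)).1
    have ka : M.inv (M.fc d) ∈ F' := (key _ (by simp)).1
    have i1 : M.inv d ≠ d := h.inv_ne d hd.1
    have i2 : M.inv d ≠ M.fc d := h.inv_ne_fc hd
    have i3 : M.inv d ≠ M.fc (M.fc d) := h.inv_ne_fc2 hd
    have inj : ∀ x ∈ M.D, ∀ y ∈ M.D, M.inv x = M.inv y → x = y := by
      intro x hx y hy hxy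
      rw [← h.inv_inv x hx, ← h.inv_inv y hy, hxy]
    have fn := h.face_ne hd
    have dna : d ≠ M.fc d := fun hx => fn.1 (by rw [← hx]; exact h.sameV_refl d)
    have dnb : d ≠ M.fc (M.fc d) := fun hx => fn.2.2 (by rw [← hx]; exact h.sameV_refl d)
    have hmem : ∀ x, x ∈ ({d, M.fc d, M.fc (M.fc d)} ∪ F' : Finset ℕ) ↔
        (x = d ∨ x = M.fc d ∨ x = M.fc (M.fc d)) ∨ x ∈ F' := by
      intro x
      simp only [Finset.mem_union, Finset.mem_insert, Finset.mem_singleton]
    -- boundary darts of `F'`
    have bF : ∀ e ∈ F', M.inv e ∉ F' → e = M.inv (M.fc (M.fc d)) ∨ e = M.inv (M.fc d) ∨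
        e ∈ ds := by
      intro e he hi
      have := ((B'.2 e (B'.1 e he).1.1).1 ⟨he, hi⟩).1
      simpa using this
    have ndeg : M.inv d ∉ d :: ds := by
      intro hcs
      obtain ⟨x, hx⟩ := poly_inv h P List.mem_cons_self hcs
      have hx1 : d = x := by simpa using congrArg List.head? hx
      subst hx1
      have hx2 : ds = [M.inv d] := by simpa using hx
      have emp := h.closed_empty _ fcl (by
        intro e he
        rw [hmem] at he ⊢
        rcases he with (rfl | rfl | rfl) | he
        · refine Or.inr (key _ ?_).1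
          rw [hx2]
          simp
        · exact Or.inr ka
        · exact Or.inr kb
        · by_cases hi : M.inv e ∈ F'
          · exact Or.inr hi
          · rcases bF e he hi with rfl | rfl | hm
            · rw [h.inv_inv _ hb.1]
              simp
            · rw [h.inv_inv _ ha.1]
              simp
            · rw [hx2] at hm
              have hm' : e = M.inv d := by simpa using hm
              rw [hm', h.inv_inv _ hd.1]
              simp)
      have hdm : d ∈ ({d, M.fc d, M.fc (M.fc d)} ∪ F' : Finset ℕ) := by simp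
      rw [emp] at hdm
      simp at hdm
    intro e heD
    rw [hmem, hmem]
    constructor
    · rintro ⟨he, hi⟩
      push Not at hi
      obtain ⟨⟨hi1, hi2, hi3⟩, hi4⟩ := hi
      rcases he with (rfl | rfl | rfl) | he
      · exact ⟨List.mem_cons_self, ndeg⟩
      · exact absurd ka hi4
      · exact absurd kb hi4
      · rcases bF e he hi4 with rfl | rfl | hm
        · exact absurd (h.inv_inv _ hb.1) hi3
        · exact absurd (h.inv_inv _ ha.1) hi2
        · refine ⟨List.mem_cons_of_mem _ hm, ?_⟩
          intro hx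
          rcases List.mem_cons.1 hx with hx | hx
          · exact hi1 hx
          · exact nd (List.mem_cons_of_mem _ (List.mem_cons_of_mem _ hm))
              (List.mem_cons_of_mem _ (List.mem_cons_of_mem _ hx))
    · rintro ⟨he, hi⟩
      rcases List.mem_cons.1 he with rfl | he
      · refine ⟨Or.inl (Or.inl rfl), ?_⟩
        rintro ((hx | hx | hx) | hx)
        · exact i1 hx
        · exact i2 hx
        · exact i3 hx
        · rcases bF _ hx (by rwa [h.inv_inv _ heD]) with hx | hx | hx
          · exact dnb (inj _ heD _ hb.1 hx)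
          · exact dna (inj _ heD _ ha.1 hx)
          · exact ndeg (List.mem_cons_of_mem _ hx)
      · have k1 := key e (List.mem_cons_of_mem _ (List.mem_cons_of_mem _ he))
        refine ⟨Or.inr k1.1, ?_⟩
        rintro ((hx | hx | hx) | hx)
        · apply ndeg
          rw [inv_flip h heD hx]
          exact List.mem_cons_of_mem _ he
        · have hx' : e = M.inv (M.fc d) := (inv_flip h heD hx).symm
          subst hx'
          simp only [List.nodup_cons] at nodup
          exact nodup.2.1 he
        · have hx' : e = M.inv (M.fc (M.fc d)) := (inv_flip h heD hx).symm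
          subst hx'
          simp only [List.nodup_cons, List.mem_cons, not_or] at nodup
          exact nodup.1.2 he
        · exact k1.2 hx
  | split t₁ t₂ ih₁ ih₂ =>
    refine ⟨fill_closed h f, ?_⟩
    obtain ⟨d, ds₁, ds₂, F₁, F₂, rfl, hd, f₁, f₂, hd1, hd2, hdis, rfl⟩ := f
    have ha : M.Inner (M.fc d) := h.fc_inner d hd
    have hb : M.Inner (M.fc (M.fc d)) := h.fc_inner _ ha
    have hfb : M.fc (M.fc (M.fc d)) = d := h.fc_tri d hd
    have l₁ := fill_length f₁
    have l₂ := fill_length f₂
    simp only [List.length_append, List.length_cons, List.length_nil] at l₁ l₂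
    have n₁ : ds₁ ≠ [] := by
      rintro rfl
      simp at l₁
    have n₂ : ds₂ ≠ [] := by
      rintro rfl
      simp at l₂
    have hw : ∀ e ∈ ds₂.head?, M.SameV (M.fc (M.fc d)) e := by
      intro e he
      have hc := (fill_chain h f₂).2
      obtain ⟨es, rfl⟩ : ∃ es, ds₂ = e :: es := by
        cases ds₂ with
        | nil => simp at he
        | cons x xs =>
          have : x = e := by simpa using he
          exact ⟨xs, by rw [this]⟩
      have hc' : M.SameV (M.inv (M.inv (M.fc (M.fc d)))) e := by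
        simp only [List.cons_append, List.isChain_cons_cons] at hc
        exact hc.1
      rwa [h.inv_inv _ hb.1] at hc'
    obtain ⟨P₁, P₂⟩ := split_poly h P hd n₁ n₂ hw
    have B₁ := ih₁ P₁ f₁
    have B₂ := ih₂ P₂ f₂
    have hb1 : M.fc (M.fc d) ∉ F₁ := fun hx => hd1 (by simpa [hfb] using (B₁.1 _ hx).2)
    have ha1 : M.fc d ∉ F₁ := fun hx => hb1 (B₁.1 _ hx).2
    have hb2 : M.fc (M.fc d) ∉ F₂ := fun hx => hd2 (by simpa [hfb] using (B₂.1 _ hx).2)
    have ha2 : M.fc d ∉ F₂ := fun hx => hb2 (B₂.1 _ hx).2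
    have hl : 3 ≤ (d :: (ds₁ ++ ds₂)).length := by
      simp only [List.length_cons, List.length_append]
      omega
    have nd := fun {e : ℕ} => nondeg h P hl (e := e)
    have i1 : M.inv d ≠ d := h.inv_ne d hd.1
    have i2 : M.inv d ≠ M.fc d := h.inv_ne_fc hd
    have i3 : M.inv d ≠ M.fc (M.fc d) := h.inv_ne_fc2 hd
    have j1 : M.inv (M.fc d) ≠ d := fun hx => i2 (inv_flip h ha.1 hx)
    have j2 : M.inv (M.fc d) ≠ M.fc d := h.inv_ne _ ha.1
    have j3 : M.inv (M.fc d) ≠ M.fc (M.fc d) := h.inv_ne_fc ha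
    have k1 : M.inv (M.fc (M.fc d)) ≠ d := fun hx => i3 (inv_flip h hb.1 hx)
    have k2 : M.inv (M.fc (M.fc d)) ≠ M.fc d := fun hx => j3 (inv_flip h hb.1 hx)
    have k3 : M.inv (M.fc (M.fc d)) ≠ M.fc (M.fc d) := h.inv_ne _ hb.1
    have inj : ∀ x ∈ M.D, ∀ y ∈ M.D, M.inv x = M.inv y → x = y := by
      intro x hx y hy hxy
      rw [← h.inv_inv x hx, ← h.inv_inv y hy, hxy]
    have fn := h.face_ne hd
    have dna : d ≠ M.fc d := fun hx => fn.1 (by rw [← hx]; exact h.sameV_refl d)
    have dnb : d ≠ M.fc (M.fc d) := fun hx => fn.2.2 (by rw [← hx]; exact h.sameV_refl d)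
    have anb : M.fc d ≠ M.fc (M.fc d) :=
      fun hx => fn.2.1 (by rw [← hx]; exact h.sameV_refl _)
    have hdis' : ∀ x, x ∈ F₁ → x ∉ F₂ := fun x hx hy => Finset.disjoint_left.1 hdis hx hy
    have m₁ : ∀ x, x ∈ ds₁ ++ [M.inv (M.fc d)] ↔ x ∈ ds₁ ∨ x = M.inv (M.fc d) := by
      intro x
      simp
    have m₂ : ∀ x, x ∈ M.inv (M.fc (M.fc d)) :: ds₂ ↔ x = M.inv (M.fc (M.fc d)) ∨ x ∈ ds₂ := by
      intro x
      simp
    have mc : ∀ x, x ∈ d :: (ds₁ ++ ds₂) ↔ x = d ∨ x ∈ ds₁ ∨ x ∈ ds₂ := by
      intro x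
      simp
    have hmem : ∀ x, x ∈ ({d, M.fc d, M.fc (M.fc d)} ∪ (F₁ ∪ F₂) : Finset ℕ) ↔
        (x = d ∨ x = M.fc d ∨ x = M.fc (M.fc d)) ∨ (x ∈ F₁ ∨ x ∈ F₂) := by
      intro x
      simp only [Finset.mem_union, Finset.mem_insert, Finset.mem_singleton]
    have c1 : ∀ x ∈ M.D, (x ∈ F₁ ∧ M.inv x ∉ F₁ ↔ (x ∈ ds₁ ∨ x = M.inv (M.fc d)) ∧
        ¬ (M.inv x ∈ ds₁ ∨ M.inv x = M.inv (M.fc d))) := by
      intro x hx
      rw [← m₁, ← m₁]
      exact B₁.2 x hx
    have c2 : ∀ x ∈ M.D, (x ∈ F₂ ∧ M.inv x ∉ F₂ ↔ (x = M.inv (M.fc (M.fc d)) ∨ x ∈ ds₂) ∧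
        ¬ (M.inv x = M.inv (M.fc (M.fc d)) ∨ M.inv x ∈ ds₂)) := by
      intro x hx
      rw [← m₂, ← m₂]
      exact B₂.2 x hx
    have nd' : ∀ x, (x = d ∨ x ∈ ds₁ ∨ x ∈ ds₂) → ¬ (M.inv x = d ∨ M.inv x ∈ ds₁ ∨
        M.inv x ∈ ds₂) := by
      intro x hx
      rw [← mc] at hx ⊢
      exact nd hx
    have q1 := c1 _ (h.inv_mem _ hd.1)
    have q2 := c2 _ (h.inv_mem _ hd.1)
    have q3 := c1 _ (h.inv_mem _ ha.1)
    have q4 := c2 _ (h.inv_mem _ ha.1)
    have q5 := c1 _ (h.inv_mem _ hb.1)
    have q6 := c2 _ (h.inv_mem _ hb.1)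
    rw [h.inv_inv _ hd.1] at q1 q2
    rw [h.inv_inv _ ha.1] at q3 q4
    rw [h.inv_inv _ hb.1] at q5 q6
    have nd1 := nd' d
    have nd2 := nd' (M.fc d)
    have nd3 := nd' (M.fc (M.fc d))
    have anb' : M.inv (M.fc d) ≠ M.inv (M.fc (M.fc d)) := fun hx => anb (inj _ ha.1 _ hb.1 hx)
    have dna' : M.inv d ≠ M.inv (M.fc d) := fun hx => dna (inj _ hd.1 _ ha.1 hx)
    have dnb' : M.inv d ≠ M.inv (M.fc (M.fc d)) := fun hx => dnb (inj _ hd.1 _ hb.1 hx)
    have na1 : M.inv (M.fc d) ∉ ds₁ := by
      intro hx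
      have := List.disjoint_of_nodup_append (poly_nodup h P₁)
      exact this hx (by simp)
    have nb2 : M.inv (M.fc (M.fc d)) ∉ ds₂ := (List.nodup_cons.1 (poly_nodup h P₂)).1
    intro e heD
    rw [hmem, hmem, mc, mc]
    have w1 := c1 e heD
    have w2 := c2 e heD
    have w3 := c1 _ (h.inv_mem _ heD)
    have w4 := c2 _ (h.inv_mem _ heD)
    rw [h.inv_inv _ heD] at w3 w4
    have w5 := nd' e
    have w6 := hdis' e
    constructor
    · rintro ⟨he, hi⟩
      have hm : e = d ∨ e ∈ ds₁ ∨ e ∈ ds₂ := by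
        rcases he with (rfl | rfl | rfl) | he | he
        · exact Or.inl rfl
        · by_cases hm : M.fc d ∈ ds₁
          · exact Or.inr (Or.inl hm)
          · exfalso
            have : M.inv (M.fc d) ∈ F₁ := (q3.2 ⟨Or.inr rfl, fun hx => hx.elim hm (Ne.symm j2)⟩).1
            exact hi (Or.inr (Or.inl this))
        · by_cases hm : M.fc (M.fc d) ∈ ds₂
          · exact Or.inr (Or.inr hm)
          · exfalso
            have : M.inv (M.fc (M.fc d)) ∈ F₂ :=
              (q6.2 ⟨Or.inl rfl, fun hx => hx.elim (Ne.symm k3) hm⟩).1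
            exact hi (Or.inr (Or.inr this))
        · have hi' : M.inv e ∉ F₁ := fun hx => hi (Or.inr (Or.inl hx))
          rcases (w1.1 ⟨he, hi'⟩).1 with hx | hx
          · exact Or.inr (Or.inl hx)
          · exfalso
            apply hi
            rw [hx, h.inv_inv _ ha.1]
            exact Or.inl (Or.inr (Or.inl rfl))
        · have hi' : M.inv e ∉ F₂ := fun hx => hi (Or.inr (Or.inr hx))
          rcases (w2.1 ⟨he, hi'⟩).1 with hx | hx
          · exfalso
            apply hi
            rw [hx, h.inv_inv _ hb.1]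
            exact Or.inl (Or.inr (Or.inr rfl))
          · exact Or.inr (Or.inr hx)
      exact ⟨hm, w5 hm⟩
    · rintro ⟨he, hi⟩
      have hid : M.inv d ∉ ds₁ ∧ M.inv d ∉ ds₂ :=
        ⟨fun hx => nd1 (Or.inl rfl) (Or.inr (Or.inl hx)),
          fun hx => nd1 (Or.inl rfl) (Or.inr (Or.inr hx))⟩
      have hie : M.inv e ∉ ds₁ ∧ M.inv e ∉ ds₂ :=
        ⟨fun hx => hi (Or.inr (Or.inl hx)), fun hx => hi (Or.inr (Or.inr hx))⟩
      have hed : M.inv e ≠ d := fun hx => hi (Or.inl hx)
      rcases he with rfl | he | he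
      · refine ⟨Or.inl (Or.inl rfl), ?_⟩
        rintro ((hx | hx | hx) | hx | hx)
        · exact i1 hx
        · exact i2 hx
        · exact i3 hx
        · rcases (q1.1 ⟨hx, hd1⟩).1 with hy | hy
          · exact hid.1 hy
          · exact dna' hy
        · rcases (q2.1 ⟨hx, hd2⟩).1 with hy | hy
          · exact dnb' hy
          · exact hid.2 hy
      · -- `e ∈ ds₁`
        by_cases hc : M.inv e = M.inv (M.fc d)
        · have hea : e = M.fc d := inj _ heD _ ha.1 hc
          subst hea
          refine ⟨Or.inl (Or.inr (Or.inl rfl)), ?_⟩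
          rintro ((hx | hx | hx) | hx | hx)
          · exact j1 hx
          · exact j2 hx
          · exact j3 hx
          · exact (q3.1 ⟨hx, ha1⟩).2 (Or.inl he)
          · rcases (q4.1 ⟨hx, ha2⟩).1 with hy | hy
            · exact anb' hy
            · exact hie.2 hy
        · obtain ⟨u1, u2⟩ := w1.2 ⟨Or.inl he, fun hx => hx.elim hie.1 hc⟩
          refine ⟨Or.inr (Or.inl u1), ?_⟩
          rintro ((hx | hx | hx) | hx | hx)
          · exact hed hx
          · exact na1 (by rw [inv_flip h heD hx]; exact he)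
          · have hy := inv_flip h heD hx
            by_cases hm : M.fc (M.fc d) ∈ ds₂
            · exact nd3 (Or.inr (Or.inr hm)) (by rw [hy]; exact Or.inr (Or.inl he))
            · have := (q6.2 ⟨Or.inl rfl, fun hx => hx.elim (Ne.symm k3) hm⟩).1
              rw [hy] at this
              exact w6 u1 this
          · exact u2 hx
          · rcases (w4.1 ⟨hx, w6 u1⟩).1 with hy | hy
            · apply hb1
              rw [← inj _ heD _ hb.1 hy]
              exact u1
            · exact hie.2 hy
      · -- `e ∈ ds₂`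
        by_cases hc : M.inv e = M.inv (M.fc (M.fc d))
        · have heb : e = M.fc (M.fc d) := inj _ heD _ hb.1 hc
          subst heb
          refine ⟨Or.inl (Or.inr (Or.inr rfl)), ?_⟩
          rintro ((hx | hx | hx) | hx | hx)
          · exact k1 hx
          · exact k2 hx
          · exact k3 hx
          · rcases (q5.1 ⟨hx, hb1⟩).1 with hy | hy
            · exact hie.1 hy
            · exact anb' hy.symm
          · exact (q6.1 ⟨hx, hb2⟩).2 (Or.inr he)
        · obtain ⟨u1, u2⟩ := w2.2 ⟨Or.inr he, fun hx => hx.elim hc hie.2⟩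
          refine ⟨Or.inr (Or.inr u1), ?_⟩
          rintro ((hx | hx | hx) | hx | hx)
          · exact hed hx
          · have hy := inv_flip h heD hx
            by_cases hm : M.fc d ∈ ds₁
            · exact nd2 (Or.inr (Or.inl hm)) (by rw [hy]; exact Or.inr (Or.inr he))
            · have := (q3.2 ⟨Or.inr rfl, fun hx => hx.elim hm (Ne.symm j2)⟩).1
              rw [hy] at this
              exact w6 this u1
          · exact nb2 (by rw [inv_flip h heD hx]; exact he)
          · rcases (w3.1 ⟨hx, fun hy => w6 hy u1⟩).1 with hy | hy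
            · exact hie.1 hy
            · apply ha2
              rw [← inj _ heD _ ha.1 hy]
              exact u1
          · exact u2 hx

end Pool.Agent.Spd
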