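import Pool.Agent.Spd.FillB2

/-!
(Part `FillB3`: `fill_unique`.  The text below is the common header of the parts.)

# SPD A12: a code determines the region and conversely

* `fill_length`: induction on the code.
* `fill_poly`: NOT claimed (the path is always assumed to be a polygon).
* `fill_head`: for `new`/`split` the first dart `d` of `cs` is in `F`, `inv d ∉ cs` if `cs` is a
  polygon: `cs` has length `≥ 3` (for `new t`, `t : Tri (k+2)`, and `k + 2` sides may be 2 when
  `k = 0`!).  CAREFUL: a 2-gon `[d, e]` with `e ≠ inv d` may be filled by `new t`.  If `e = inv d`,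
  then `Fill (new t) [d, inv d] F` would give a finite region bounded by nothing, impossible in an
  HPT; this is the content of `fill_bounds`.
* `fill_bounds`: induction on `τ`.
  - `edge`: `F = ∅`; for `e ∈ cs = [d, inv d]` also `inv e ∈ cs`, so both sides are false.
  - `new t`: `cs' = inv b :: inv a :: ds` is a polygon (as in `FillEx.new_bounds`, which only uses
    that the third vertex is not on `cs`), so `Bounds M cs' F'`.  `d, a, b ∉ F'` (`d ∉ F'`, faces).
    `F = {d,a,b} ∪ F'` is closed.  If `inv d ∈ cs` then `cs = [d, inv d]` (`poly_inv`) and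
    `cs' = [inv b, inv a, inv d]`; then `G = F` has no boundary: for `e ∈ F'`, `inv e ∉ F'` we have
    `e ∈ cs'`, so `inv e ∈ {b, a, d}`; for `e = a`: `inv a ∈ cs'`, not degenerate (length 3), so
    `inv a ∈ F'`; same for `b` and `d`; `closed_empty` contradicts `d ∈ F`.  Otherwise check
    the oriented boundary: `e ∈ F`, `inv e ∉ F`: `e = d`, or `e ∈ F'` with `e ∈ cs'`,
    `e ≠ inv a, inv b` (their inverses `a, b` are in `F`), so `e ∈ ds`; `e = a, b` is impossible
    because `inv a, inv b ∈ F'`.  Conversely for `e ∈ cs`: `e = d`: `inv d ∉ F`: `inv d ∈ F'` with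
    `d ∉ F'` would give `inv d ∈ cs'`; `inv d ≠ inv a, inv b`, so `inv d ∈ ds`, excluded.
    `e ∈ ds`: `e ∈ F'`, `inv e ∉ F'` by `Bounds M cs' F'`; `inv e ∈ {d,a,b}`: `inv e = d` gives
    `e = inv d ∈ cs`; `inv e = a`: `e = inv a` has origin `w`, not on `cs`; `inv e = b` same: `e = inv b`
    has origin `x₁`, so `e = d`, `inv d = b`, impossible (`inv_ne_fc2`).
  - `split`: similar with `split_poly` (the hypothesis on `w` holds because the second list is
    filled: show first that if `M.Fill τ cs F` then `cs` is a closed chain, by induction: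
    `fill_chain`), using `Disjoint F₁ F₂`; the degenerate subcase `inv d ∈ cs` does not occur
    (length `≥ 3`).
* `fill_card`: disjoint unions; `d, a, b` are different (`face_ne`).
* `fill_unique`: by `fill_bounds` and `Bounds.unique`, `F = F'`.  Induction on `τ`: `edge` gives
  `F = ∅`, the other codes `d ∈ F`.  `new` against `split`: in `split` the third vertex is the
  origin of the first dart of `ds₂ ⊆ cs` (`fill_chain`), in `new` it is not on `cs`.  `split`
  against `split`: the first dart of `ds₂` is the unique dart of `cs` with origin `w`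
  (`poly_eq_of_sameV`), so the lists agree (`poly_nodup`), hence the lengths and the types.
-/

namespace Pool.Agent.Spd

variable {M : PreMap}

private theorem append_cons_inj {e : ℕ} {A B A' B' : List ℕ} (hl : A ++ e :: B = A' ++ e :: B')
    (hA : e ∉ A) (hA' : e ∉ A') : A = A' ∧ B = B' := by
  induction A generalizing A' with
  | nil =>
    cases A' with
    | nil =>
      rw [List.nil_append, List.nil_append, List.cons.injEq] at hl
      exact ⟨rfl, hl.2⟩
    | cons x A' =>
      rw [List.nil_append, List.cons_append, List.cons.injEq] at hl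
      rw [hl.1] at hA'
      exact absurd List.mem_cons_self hA'
  | cons y A ih =>
    cases A' with
    | nil =>
      rw [List.nil_append, List.cons_append, List.cons.injEq] at hl
      rw [hl.1] at hA
      exact absurd List.mem_cons_self hA
    | cons x A' =>
      rw [List.cons_append, List.cons_append, List.cons.injEq] at hl
      obtain ⟨h1, h2⟩ := ih hl.2 (fun hm => hA (List.mem_cons_of_mem _ hm))
        (fun hm => hA' (List.mem_cons_of_mem _ hm))
      rw [hl.1, h1]
      exact ⟨rfl, h2⟩

/-- The data of a split: the lists are not empty, and the third vertex is the origin of the first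
dart of the second list. -/
private theorem split_head (h : M.IsHPT) {j : ℕ} {t : Tri (j + 1)} {d : ℕ} {ds : List ℕ}
    {F : Finset ℕ} (hd : M.Inner d) (f : M.Fill t (M.inv (M.fc (M.fc d)) :: ds) F) :
    ∃ e es, ds = e :: es ∧ M.SameV (M.fc (M.fc d)) e := by
  have hl := fill_length f
  rw [List.length_cons] at hl
  have hb : M.fc (M.fc d) ∈ M.D := (h.fc_inner _ (h.fc_inner _ hd)).1
  cases ds with
  | nil =>
    rw [List.length_nil] at hl
    omega
  | cons e es =>
    refine ⟨e, es, rfl, ?_⟩
    have hc := (fill_chain h f).2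
    rw [List.cons_append, List.cons_append] at hc
    have h1 := (List.isChain_cons_cons.1 hc).1
    rwa [h.inv_inv _ hb] at h1

private theorem fill_head {k : ℕ} {τ : Tri k} {cs : List ℕ} {F : Finset ℕ}
    (f : M.Fill τ cs F) : (F = ∅ ∧ ∃ d, cs = [d, M.inv d]) ∨ F.Nonempty := by
  cases τ with
  | edge =>
    simp only [PreMap.Fill] at f
    obtain ⟨d, _, h1, h2⟩ := f
    exact Or.inl ⟨h2, d, h1⟩
  | new t =>
    simp only [PreMap.Fill] at f
    obtain ⟨d, ds, F', _, _, _, _, _, h1⟩ := f
    right
    rw [h1]
    exact ⟨d, by simp⟩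
  | split t₁ t₂ =>
    simp only [PreMap.Fill] at f
    obtain ⟨d, ds₁, ds₂, F₁, F₂, _, _, _, _, _, _, _, h1⟩ := f
    right
    rw [h1]
    exact ⟨d, by simp⟩

private theorem fill_aux (h : M.IsHPT) {k : ℕ} (τ : Tri k) : ∀ {k' : ℕ} (τ' : Tri k')
    {cs : List ℕ} {F F' : Finset ℕ}, Poly M cs → M.Fill τ cs F → M.Fill τ' cs F' →
    k = k' ∧ HEq τ τ' := by
  induction τ with
  | edge =>
    intro k' τ' cs F F' P f f'
    have hF : F = F' := (fill_bounds h P f).unique h (fill_bounds h P f')
    simp only [PreMap.Fill] at f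
    obtain ⟨d, _, h1, h2⟩ := f
    cases τ' with
    | edge => exact ⟨rfl, HEq.rfl⟩
    | new t =>
      simp only [PreMap.Fill] at f'
      obtain ⟨d', ds, G, _, _, _, _, _, h3⟩ := f'
      rw [h2] at hF
      rw [← hF] at h3
      have h4 : d' ∈ (∅ : Finset ℕ) := by
        rw [h3]
        simp
      simp at h4
    | split t₁ t₂ =>
      simp only [PreMap.Fill] at f'
      obtain ⟨d', ds₁, ds₂, F₁, F₂, _, _, _, _, _, _, _, h3⟩ := f'
      rw [h2] at hF
      rw [← hF] at h3
      have h4 : d' ∈ (∅ : Finset ℕ) := by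
        rw [h3]
        simp
      simp at h4
  | new t ih =>
    intro k' τ' cs F F' P f f'
    have hF : F = F' := (fill_bounds h P f).unique h (fill_bounds h P f')
    have B := fill_bounds h P f
    simp only [PreMap.Fill] at f
    obtain ⟨d, ds, G, h1, hd, hw, hf, _, h2⟩ := f
    have hdF : d ∈ F := by
      rw [h2]
      simp
    cases τ' with
    | edge =>
      simp only [PreMap.Fill] at f'
      obtain ⟨d', _, _, h3⟩ := f'
      rw [h3] at hF
      rw [hF] at hdF
      simp at hdF
    | new t' =>
      simp only [PreMap.Fill] at f'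
      obtain ⟨d', ds', G', h1', hd', hw', hf', _, h2'⟩ := f'
      subst h1
      rw [List.cons.injEq] at h1'
      obtain ⟨rfl, rfl⟩ := h1'
      obtain ⟨P', _⟩ := new_bounds h P B hdF hw
      obtain ⟨e1, e2⟩ := ih t' P' hf hf'
      have e3 := Nat.succ_injective (Nat.succ_injective e1)
      subst e3
      rw [eq_of_heq e2]
      exact ⟨rfl, HEq.rfl⟩
    | split t₁ t₂ =>
      simp only [PreMap.Fill] at f'
      obtain ⟨d', ds₁, ds₂, F₁, F₂, h1', hd', _, hf2, _, _, _, h3⟩ := f'
      subst h1
      rw [List.cons.injEq] at h1'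
      obtain ⟨rfl, h4⟩ := h1'
      obtain ⟨e, es, rfl, hs⟩ := split_head h hd hf2
      exfalso
      refine hw e ?_ (h.sameV_symm (h.fc_inner _ (h.fc_inner _ hd)).1 hs)
      rw [h4]
      simp
  | split t₁ t₂ ih₁ ih₂ =>
    intro k' τ' cs F F' P f f'
    have hF : F = F' := (fill_bounds h P f).unique h (fill_bounds h P f')
    simp only [PreMap.Fill] at f
    obtain ⟨d, ds₁, ds₂, F₁, F₂, h1, hd, hf1, hf2, _, _, _, h2⟩ := f
    have hdF : d ∈ F := by
      rw [h2]
      simp
    obtain ⟨e, es, rfl, hs⟩ := split_head h hd hf2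
    have hb : M.fc (M.fc d) ∈ M.D := (h.fc_inner _ (h.fc_inner _ hd)).1
    cases τ' with
    | edge =>
      simp only [PreMap.Fill] at f'
      obtain ⟨d', _, _, h3⟩ := f'
      rw [h3] at hF
      rw [hF] at hdF
      simp at hdF
    | new t' =>
      simp only [PreMap.Fill] at f'
      obtain ⟨d', ds', G', h1', hd', hw', hf', _, h2'⟩ := f'
      subst h1
      rw [List.cons.injEq] at h1'
      obtain ⟨rfl, h4⟩ := h1'
      exfalso
      refine hw' e ?_ (h.sameV_symm hb hs)
      simp
    | split t₁' t₂' =>
      simp only [PreMap.Fill] at f'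
      obtain ⟨d', ds₁', ds₂', F₁', F₂', h1', hd', hf1', hf2', _, _, _, h3⟩ := f'
      subst h1
      rw [List.cons.injEq] at h1'
      obtain ⟨rfl, h4⟩ := h1'
      obtain ⟨e', es', rfl, hs'⟩ := split_head h hd hf2'
      have he : e ∈ d :: (ds₁ ++ e :: es) := by simp
      have he' : e' ∈ d :: (ds₁ ++ e :: es) := by
        rw [h4]
        simp
      have hee : e = e' := poly_eq_of_sameV h P he he'
        (h.sameV_trans (h.sameV_symm hb hs) hs')
      subst hee
      have hn := poly_nodup h P
      have hn1 : (ds₁ ++ e :: es).Nodup := (List.nodup_cons.1 hn).2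
      have hn2 : (ds₁' ++ e :: es').Nodup := by
        rw [← h4]
        exact hn1
      have hA : e ∉ ds₁ := fun hm => (List.nodup_append.1 hn1).2.2 e hm e List.mem_cons_self rfl
      have hA' : e ∉ ds₁' := fun hm =>
        (List.nodup_append.1 hn2).2.2 e hm e List.mem_cons_self rfl
      obtain ⟨rfl, rfl⟩ := append_cons_inj h4 hA hA'
      have hne : ds₁ ≠ [] := by
        rintro rfl
        have := fill_length hf1
        simp at this
      obtain ⟨P1, P2⟩ := split_poly h P hd hne (List.cons_ne_nil _ _)
        (fun x hx => by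
          rw [List.head?_cons, Option.mem_some] at hx
          rw [← hx]
          exact hs)
      obtain ⟨a1, a2⟩ := ih₁ t₁' P1 hf1 hf1'
      obtain ⟨b1, b2⟩ := ih₂ t₂' P2 hf2 hf2'
      have a3 := Nat.succ_injective a1
      have b3 := Nat.succ_injective b1
      subst a3
      subst b3
      rw [eq_of_heq a2, eq_of_heq b2]
      exact ⟨rfl, HEq.rfl⟩

theorem fill_unique (h : M.IsHPT) {k : ℕ} {τ τ' : Tri k} {cs : List ℕ} {F F' : Finset ℕ}
    (P : Poly M cs) (f : M.Fill τ cs F) (f' : M.Fill τ' cs F') : τ = τ' ∧ F = F' :=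
  ⟨eq_of_heq (fill_aux h τ τ' P f f').2, (fill_bounds h P f).unique h (fill_bounds h P f')⟩

end Pool.Agent.Spd
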