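import Pool.Agent.Spd.FillEx

/-!
(Part `FillB1`: `fill_length`, `fill_closed`, `fill_chain`, `fill_card`, `faces_eq`.  The text
below is the common header of the parts.)

# SPD A12: a code determines the region and conversely

* `fill_length`: induction on the code.
* `fill_poly`: NOT claimed (the path is always assumed to be a polygon).
* `fill_head`: for `new`/`split` the first dart `d` of `cs` is in `F`, `inv d ∉ cs` if `cs` is a
  polygon: `cs` has length `≥ 3` (for `new t`, `t : Tri (k+2)`, and `k + 2` sides may be 2 when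
  `k = 0`!).  CAREFUL: a 2-gon `[d, e]` with `e ≠ inv d` may be filled by `new t`.  If `e = inv d`,
  then `Fill (new t) [d, inv d] F` would give a finite region bounded by nothing, impossible in an
  HPT; this is the content of `fill_bounds`.
* `fill_bounds`: induction on `τ`.
  - `edge`: `F = ∅`; for `e ∈ cs = [d, inv d]` also `inv e ∈ cs`, so both sides are false.
  - `new t`: `cs' = inv b :: inv a :: ds` is a polygon (as in `FillEx.new_bounds`, which only uses
    that the third vertex is not on `cs`), so `Bounds M cs' F'`.  `d, a, b ∉ F'` (`d ∉ F'`, faces).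
    `F = {d,a,b} ∪ F'` is closed.  If `inv d ∈ cs` then `cs = [d, inv d]` (`poly_inv`) and
    `cs' = [inv b, inv a, inv d]`; then `G = F` has no boundary: for `e ∈ F'`, `inv e ∉ F'` we have
    `e ∈ cs'`, so `inv e ∈ {b, a, d}`; for `e = a`: `inv a ∈ cs'`, not degenerate (length 3), so
    `inv a ∈ F'`; same for `b` and `d`; `closed_empty` contradicts `d ∈ F`.  Otherwise check
    the oriented boundary: `e ∈ F`, `inv e ∉ F`: `e = d`, or `e ∈ F'` with `e ∈ cs'`,
    `e ≠ inv a, inv b` (their inverses `a, b` are in `F`), so `e ∈ ds`; `e = a, b` is impossible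
    because `inv a, inv b ∈ F'`.  Conversely for `e ∈ cs`: `e = d`: `inv d ∉ F`: `inv d ∈ F'` with
    `d ∉ F'` would give `inv d ∈ cs'`; `inv d ≠ inv a, inv b`, so `inv d ∈ ds`, excluded.
    `e ∈ ds`: `e ∈ F'`, `inv e ∉ F'` by `Bounds M cs' F'`; `inv e ∈ {d,a,b}`: `inv e = d` gives
    `e = inv d ∈ cs`; `inv e = a`: `e = inv a` has origin `w`, not on `cs`; `inv e = b` same: `e = inv b`
    has origin `x₁`, so `e = d`, `inv d = b`, impossible (`inv_ne_fc2`).
  - `split`: similar with `split_poly` (the hypothesis on `w` holds because the second list is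
    filled: show first that if `M.Fill τ cs F` then `cs` is a closed chain, by induction:
    `fill_chain`), using `Disjoint F₁ F₂`; the degenerate subcase `inv d ∈ cs` does not occur
    (length `≥ 3`).
* `fill_card`: disjoint unions; `d, a, b` are different (`face_ne`).
* `fill_unique`: by `fill_bounds` and `Bounds.unique`, `F = F'`.  Induction on `τ`: `edge` gives
  `F = ∅`, the other codes `d ∈ F`.  `new` against `split`: in `split` the third vertex is the
  origin of the first dart of `ds₂ ⊆ cs` (`fill_chain`), in `new` it is not on `cs`.  `split`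
  against `split`: the first dart of `ds₂` is the unique dart of `cs` with origin `w`
  (`poly_eq_of_sameV`), so the lists agree (`poly_nodup`), hence the lengths and the types.
-/

namespace Pool.Agent.Spd

variable {M : PreMap}

theorem fill_length {k : ℕ} {τ : Tri k} {cs : List ℕ} {F : Finset ℕ} (h : M.Fill τ cs F) :
    cs.length = k + 1 := by
  induction τ generalizing cs F with
  | edge =>
    obtain ⟨d, _, rfl, _⟩ := h
    rfl
  | new t ih =>
    obtain ⟨d, ds, F', rfl, _, _, hF, _, _⟩ := h
    have h1 := ih hF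
    simp only [List.length_cons] at h1 ⊢
    omega
  | split t₁ t₂ ih₁ ih₂ =>
    obtain ⟨d, ds₁, ds₂, F₁, F₂, rfl, _, hF₁, hF₂, _, _, _, _⟩ := h
    have h1 := ih₁ hF₁
    have h2 := ih₂ hF₂
    simp only [List.length_cons, List.length_append, List.length_nil] at h1 h2 ⊢
    omega

theorem fill_closed (h : M.IsHPT) {k : ℕ} {τ : Tri k} {cs : List ℕ} {F : Finset ℕ}
    (f : M.Fill τ cs F) : ∀ d ∈ F, M.Inner d ∧ M.fc d ∈ F := by
  have face : ∀ d, M.Inner d → ∀ e ∈ ({d, M.fc d, M.fc (M.fc d)} : Finset ℕ),
      M.Inner e ∧ M.fc e ∈ ({d, M.fc d, M.fc (M.fc d)} : Finset ℕ) := by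
    intro d hd e he
    have ha := h.fc_inner d hd
    have hb := h.fc_inner _ ha
    have h3 := h.fc_tri d hd
    simp only [Finset.mem_insert, Finset.mem_singleton] at he ⊢
    rcases he with rfl | rfl | rfl
    · exact ⟨hd, Or.inr (Or.inl rfl)⟩
    · exact ⟨ha, Or.inr (Or.inr rfl)⟩
    · exact ⟨hb, Or.inl h3⟩
  induction τ generalizing cs F with
  | edge =>
    obtain ⟨d, _, _, rfl⟩ := f
    simp
  | new t ih =>
    obtain ⟨d, ds, F', _, hd, _, hF, _, rfl⟩ := f
    intro e he
    rw [Finset.mem_union] at he ⊢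
    rcases he with he | he
    · exact ⟨(face d hd e he).1, Or.inl (face d hd e he).2⟩
    · exact ⟨(ih hF e he).1, Or.inr (ih hF e he).2⟩
  | split t₁ t₂ ih₁ ih₂ =>
    obtain ⟨d, ds₁, ds₂, F₁, F₂, _, hd, hF₁, hF₂, _, _, _, rfl⟩ := f
    intro e he
    rw [Finset.mem_union, Finset.mem_union] at he ⊢
    rcases he with he | he | he
    · exact ⟨(face d hd e he).1, Or.inl (face d hd e he).2⟩
    · exact ⟨(ih₁ hF₁ e he).1, Or.inr (Or.inl (ih₁ hF₁ e he).2)⟩
    · exact ⟨(ih₂ hF₂ e he).1, Or.inr (Or.inr (ih₂ hF₂ e he).2)⟩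

/-- Changing the last element of a chain. -/
private theorem chain_last {R : ℕ → ℕ → Prop} {x y : ℕ} (hxy : ∀ z, R z x → R z y) :
    ∀ l : List ℕ, List.IsChain R (l ++ [x]) → List.IsChain R (l ++ [y]) := by
  intro l hl
  rw [List.isChain_append] at hl ⊢
  refine ⟨hl.1, List.isChain_singleton _, ?_⟩
  intro a ha b hb
  simp only [List.head?_cons, Option.mem_def, Option.some.injEq] at hb
  subst hb
  exact hxy a (hl.2.2 a ha x (by simp))

/-- Changing the first element of a chain. -/
private theorem chain_first {R : ℕ → ℕ → Prop} {x y : ℕ} (hxy : ∀ z, R x z → R y z) :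
    ∀ l : List ℕ, List.IsChain R (x :: l) → List.IsChain R (y :: l) := by
  intro l hl
  rw [List.isChain_cons] at hl ⊢
  exact ⟨fun z hz => hxy z (hl.1 z hz), hl.2⟩

/-- A filled path is closed. -/
theorem fill_chain (h : M.IsHPT) {k : ℕ} {τ : Tri k} {cs : List ℕ} {F : Finset ℕ}
    (f : M.Fill τ cs F) : (∀ d ∈ cs, d ∈ M.D) ∧
      List.IsChain (fun x y => M.SameV (M.inv x) y) (cs ++ cs.take 1) := by
  induction τ generalizing cs F with
  | edge =>
    obtain ⟨d, hd, rfl, rfl⟩ := f
    refine ⟨?_, ?_⟩
    · intro e he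
      simp only [List.mem_cons, List.not_mem_nil, or_false] at he
      rcases he with rfl | rfl
      · exact hd
      · exact h.inv_mem _ hd
    · simp only [List.take_succ_cons, List.take_zero, List.cons_append, List.nil_append,
        List.isChain_cons_cons, List.isChain_singleton, and_true]
      refine ⟨⟨0, rfl⟩, ⟨0, ?_⟩⟩
      exact h.inv_inv d hd
  | new t ih =>
    obtain ⟨d, ds, F', rfl, hd, _, hF, _, rfl⟩ := f
    obtain ⟨h1, h2⟩ := ih hF
    have ha := h.fc_mem hd.1
    have hb := h.fc_mem ha
    have h3 : ∀ z, M.SameV (M.inv z) (M.inv (M.fc (M.fc d))) → M.SameV (M.inv z) d := by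
      intro z hz
      have h4 := h.tgt hb
      rw [h.fc_tri d hd] at h4
      exact h.sameV_trans hz h4
    refine ⟨?_, ?_⟩
    · intro e he
      rw [List.mem_cons] at he
      rcases he with rfl | he
      · exact hd.1
      · exact h1 e (by simp [he])
    · simp only [List.take_succ_cons, List.take_zero, List.cons_append] at h2 ⊢
      rw [List.isChain_cons] at h2
      have h4 : List.IsChain (fun x y => M.SameV (M.inv x) y) ((M.inv (M.fc d) :: ds) ++ [d]) :=
        chain_last h3 _ h2.2
      rw [List.cons_append] at h4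
      refine chain_first ?_ _ h4
      intro z hz
      rw [h.inv_inv _ ha] at hz
      exact h.sameV_trans (h.tgt hd.1) hz
  | split t₁ t₂ ih₁ ih₂ =>
    obtain ⟨d, ds₁, ds₂, F₁, F₂, rfl, hd, hF₁, hF₂, _, _, _, rfl⟩ := f
    obtain ⟨h1, h2⟩ := ih₁ hF₁
    obtain ⟨h3, h4⟩ := ih₂ hF₂
    have ha := h.fc_mem hd.1
    have hb := h.fc_mem ha
    have l1 := fill_length hF₁
    have l2 := fill_length hF₂
    have hda := h.tgt hd.1
    have hab := h.tgt ha
    have hbd := h.tgt hb
    rw [h.fc_tri d hd] at hbd
    rcases ds₁ with _ | ⟨e, ds₁⟩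
    · simp at l1
    refine ⟨?_, ?_⟩
    · intro x hx
      rw [List.mem_cons, List.mem_append] at hx
      rcases hx with rfl | hx | hx
      · exact hd.1
      · exact h1 x (List.mem_append_left _ hx)
      · exact h3 x (List.mem_cons_of_mem _ hx)
    · simp only [List.take_succ_cons, List.take_zero, List.cons_append, List.nil_append,
        List.append_assoc] at h2 h4 ⊢
      have h5 : List.IsChain (fun x y => M.SameV (M.inv x) y)
          ((M.inv (M.fc (M.fc d)) :: ds₂) ++ [d]) := by
        refine chain_last ?_ _ h4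
        intro z hz
        exact h.sameV_trans hz hbd
      rw [List.cons_append, List.isChain_cons] at h5
      have h6 : List.IsChain (fun x y => M.SameV (M.inv x) y)
          ((e :: ds₁) ++ [M.inv (M.fc d), e]) := h2
      have h7 : List.IsChain (fun x y => M.SameV (M.inv x) y)
          ((e :: ds₁) ++ (ds₂ ++ [d])) := by
        rw [List.isChain_append] at h6 ⊢
        refine ⟨h6.1, h5.2, ?_⟩
        intro x hx y hy
        have h8 := h6.2.2 x hx (M.inv (M.fc d)) (by simp)
        have h9 := h5.1 y hy
        rw [h.inv_inv _ hb] at h9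
        exact h.sameV_trans h8 (h.sameV_trans hab h9)
      rw [List.cons_append] at h7
      rw [List.isChain_cons_cons]
      refine ⟨?_, h7⟩
      have h8 : M.SameV (M.inv (M.inv (M.fc d))) e := by
        rw [List.isChain_append] at h6
        have h9 := h6.2.1
        rw [List.isChain_cons_cons] at h9
        exact h9.1
      rw [h.inv_inv _ ha] at h8
      exact h.sameV_trans hda h8

/-- The three darts of a face are different. -/
private theorem card_face (h : M.IsHPT) {d : ℕ} (hd : M.Inner d) :
    ({d, M.fc d, M.fc (M.fc d)} : Finset ℕ).card = 3 := by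
  obtain ⟨h1, h2, h3⟩ := h.face_ne hd
  refine Finset.card_eq_three.2 ⟨d, M.fc d, M.fc (M.fc d), ?_, ?_, ?_, rfl⟩
  · intro h4
    exact h1 ⟨0, h4⟩
  · intro h4
    exact h3 ⟨0, h4⟩
  · intro h4
    exact h2 ⟨0, h4⟩

/-- The face of a dart outside a closed set is disjoint from it. -/
private theorem face_disj (h : M.IsHPT) {d : ℕ} (hd : M.Inner d) {G : Finset ℕ}
    (hG : ∀ x ∈ G, M.Inner x ∧ M.fc x ∈ G) (hdG : d ∉ G) :
    Disjoint ({d, M.fc d, M.fc (M.fc d)} : Finset ℕ) G := by
  have h3 := h.fc_tri d hd
  rw [Finset.disjoint_left]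
  intro x hx hxG
  simp only [Finset.mem_insert, Finset.mem_singleton] at hx
  rcases hx with rfl | rfl | rfl
  · exact hdG hxG
  · have h4 := (hG _ (hG _ hxG).2).2
    rw [h3] at h4
    exact hdG h4
  · have h4 := (hG _ hxG).2
    rw [h3] at h4
    exact hdG h4

theorem fill_card (h : M.IsHPT) {k : ℕ} {τ : Tri k} {cs : List ℕ} {F : Finset ℕ}
    (f : M.Fill τ cs F) : F.card = 3 * τ.faces := by
  induction τ generalizing cs F with
  | edge =>
    obtain ⟨d, _, _, rfl⟩ := f
    rfl
  | new t ih =>
    obtain ⟨d, ds, F', _, hd, _, hF, hdF, rfl⟩ := f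
    have h1 := ih hF
    rw [Finset.card_union_of_disjoint (face_disj h hd (fill_closed h hF) hdF), card_face h hd, h1]
    simp only [Tri.faces]
    ring
  | split t₁ t₂ ih₁ ih₂ =>
    obtain ⟨d, ds₁, ds₂, F₁, F₂, _, hd, hF₁, hF₂, hd₁, hd₂, hdis, rfl⟩ := f
    have h1 := ih₁ hF₁
    have h2 := ih₂ hF₂
    rw [Finset.card_union_of_disjoint, card_face h hd, Finset.card_union_of_disjoint hdis, h1, h2]
    · simp only [Tri.faces]
      ring
    · rw [Finset.disjoint_union_right]
      exact ⟨face_disj h hd (fill_closed h hF₁) hd₁, face_disj h hd (fill_closed h hF₂) hd₂⟩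

/-- Number of faces and number of inner vertices. -/
theorem faces_eq {k : ℕ} (τ : Tri k) : τ.faces + 1 = k + 2 * τ.verts := by
  induction τ with
  | edge => rfl
  | new t ih =>
    simp only [Tri.faces, Tri.verts]
    omega
  | split t₁ t₂ ih₁ ih₂ =>
    simp only [Tri.faces, Tri.verts]
    omega

end Pool.Agent.Spd
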