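import Pool.Agent.Spd.FillB

/-!
# SPD A13: fillings in sub-maps

For a sub-map `G` of `H` and a path `cs` of darts of `G` with `F` contained in the inner darts of
`G`, filling means the same in both maps: induction on the code; `fc` agrees on inner darts of `G`,
`inv` agrees, `SameV` agrees between darts of `G` (`Sub.sameV`); in the `new` case the third vertex
`fc (fc d)` is a dart of `G` because `d ∈ F`; the new darts `inv b`, `inv a` are darts of `G`
(inverses of inner darts of `G`).  The condition `d' ∈ D` in `edge`: darts of `cs` are in `G`.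
-/

namespace Pool.Agent.Spd

theorem fill_sub {G H : HPT} (S : HPT.Sub G H) {k : ℕ} (τ : Tri k) (cs : List ℕ) (F : Finset ℕ)
    (hcs : ∀ d ∈ cs, d ∈ G.M.D) (hF : ∀ d ∈ F, G.M.Inner d) :
    G.M.Fill τ cs F ↔ H.M.Fill τ cs F := by
  have hinv : ∀ d, G.M.inv d = H.M.inv d := fun d => congrFun S.inv_eq d
  have e1 : ∀ d, G.M.Inner d → G.M.fc d = H.M.fc d := fun d hd => S.fc_eq d hd
  have e2 : ∀ d, G.M.Inner d → G.M.fc (G.M.fc d) = H.M.fc (H.M.fc d) := fun d hd => by
    rw [e1 _ (G.ok.fc_inner d hd), e1 d hd]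
  have m1 : ∀ d, G.M.Inner d → G.M.inv (G.M.fc d) ∈ G.M.D := fun d hd =>
    G.ok.inv_mem _ (G.ok.fc_inner d hd).1
  have m2 : ∀ d, G.M.Inner d → G.M.inv (G.M.fc (G.M.fc d)) ∈ G.M.D := fun d hd =>
    G.ok.inv_mem _ (G.ok.fc_inner _ (G.ok.fc_inner d hd)).1
  induction τ generalizing cs F with
  | edge =>
    simp only [PreMap.Fill]
    constructor
    · rintro ⟨d, hd, rfl, rfl⟩
      exact ⟨d, S.memD hd, by rw [hinv], rfl⟩
    · rintro ⟨d, hd, rfl, rfl⟩
      exact ⟨d, hcs d List.mem_cons_self, by rw [hinv], rfl⟩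
  | new t ih =>
    simp only [PreMap.Fill]
    constructor
    · rintro ⟨d, ds, F', rfl, hd, hV, hF', hdF, rfl⟩
      have hF1 : ∀ e ∈ F', G.M.Inner e := fun e he => hF e (Finset.mem_union_right _ he)
      refine ⟨d, ds, F', rfl, S.inner hd, fun e he hs => hV e he ?_, ?_, hdF, ?_⟩
      · rw [S.sameV (hcs e he), e2 d hd]
        refine ⟨hs, ?_⟩
        rw [← e2 d hd]
        exact (G.ok.fc_inner _ (G.ok.fc_inner d hd)).1
      · have h3 := (ih _ _ ?_ hF1).1 hF'
        · rwa [hinv, hinv, e2 d hd, e1 d hd] at h3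
        · intro x hx
          rcases List.mem_cons.1 hx with rfl | hx
          · exact m2 d hd
          rcases List.mem_cons.1 hx with rfl | hx
          · exact m1 d hd
          · exact hcs x (List.mem_cons_of_mem _ hx)
      · rw [e2 d hd, e1 d hd]
    · rintro ⟨d, ds, F', rfl, hd', hV, hF', hdF, rfl⟩
      have hd : G.M.Inner d := hF d (Finset.mem_union_left _ (Finset.mem_insert_self _ _))
      have hF1 : ∀ e ∈ F', G.M.Inner e := fun e he => hF e (Finset.mem_union_right _ he)
      refine ⟨d, ds, F', rfl, hd, fun e he hs => hV e he ?_, ?_, hdF, ?_⟩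
      · rw [S.sameV (hcs e he), e2 d hd] at hs
        exact hs.1
      · refine (ih _ _ ?_ hF1).2 ?_
        · intro x hx
          rcases List.mem_cons.1 hx with rfl | hx
          · exact m2 d hd
          rcases List.mem_cons.1 hx with rfl | hx
          · exact m1 d hd
          · exact hcs x (List.mem_cons_of_mem _ hx)
        · rw [hinv, hinv, e2 d hd, e1 d hd]
          exact hF'
      · rw [e2 d hd, e1 d hd]
  | split t₁ t₂ ih₁ ih₂ =>
    simp only [PreMap.Fill]
    constructor
    · rintro ⟨d, ds₁, ds₂, F₁, F₂, rfl, hd, h1, h2, hd1, hd2, hdis, rfl⟩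
      have hF1 : ∀ e ∈ F₁, G.M.Inner e := fun e he =>
        hF e (Finset.mem_union_right _ (Finset.mem_union_left _ he))
      have hF2 : ∀ e ∈ F₂, G.M.Inner e := fun e he =>
        hF e (Finset.mem_union_right _ (Finset.mem_union_right _ he))
      refine ⟨d, ds₁, ds₂, F₁, F₂, rfl, S.inner hd, ?_, ?_, hd1, hd2, hdis, ?_⟩
      · have h3 := (ih₁ _ _ ?_ hF1).1 h1
        · rwa [hinv, e1 d hd] at h3
        · intro x hx
          rcases List.mem_append.1 hx with hx | hx
          · exact hcs x (List.mem_cons_of_mem _ (List.mem_append_left _ hx))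
          · rw [List.mem_singleton.1 hx]
            exact m1 d hd
      · have h3 := (ih₂ _ _ ?_ hF2).1 h2
        · rwa [hinv, e2 d hd] at h3
        · intro x hx
          rcases List.mem_cons.1 hx with rfl | hx
          · exact m2 d hd
          · exact hcs x (List.mem_cons_of_mem _ (List.mem_append_right _ hx))
      · rw [e2 d hd, e1 d hd]
    · rintro ⟨d, ds₁, ds₂, F₁, F₂, rfl, hd', h1, h2, hd1, hd2, hdis, rfl⟩
      have hd : G.M.Inner d := hF d (Finset.mem_union_left _ (Finset.mem_insert_self _ _))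
      have hF1 : ∀ e ∈ F₁, G.M.Inner e := fun e he =>
        hF e (Finset.mem_union_right _ (Finset.mem_union_left _ he))
      have hF2 : ∀ e ∈ F₂, G.M.Inner e := fun e he =>
        hF e (Finset.mem_union_right _ (Finset.mem_union_right _ he))
      refine ⟨d, ds₁, ds₂, F₁, F₂, rfl, hd, ?_, ?_, hd1, hd2, hdis, ?_⟩
      · refine (ih₁ _ _ ?_ hF1).2 ?_
        · intro x hx
          rcases List.mem_append.1 hx with hx | hx
          · exact hcs x (List.mem_cons_of_mem _ (List.mem_append_left _ hx))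
          · rw [List.mem_singleton.1 hx]
            exact m1 d hd
        · rw [hinv, e1 d hd]
          exact h1
      · refine (ih₂ _ _ ?_ hF2).2 ?_
        · intro x hx
          rcases List.mem_cons.1 hx with rfl | hx
          · exact m2 d hd
          · exact hcs x (List.mem_cons_of_mem _ (List.mem_append_right _ hx))
        · rw [hinv, e2 d hd]
          exact h2
      · rw [e2 d hd, e1 d hd]

theorem poly_sub {G H : HPT} (S : HPT.Sub G H) (cs : List ℕ) (hcs : ∀ d ∈ cs, d ∈ G.M.D) :
    Poly G.M cs ↔ Poly H.M cs := by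
  have hmem : ∀ x ∈ cs ++ cs.take 1, x ∈ G.M.D := fun x hx => by
    rcases List.mem_append.1 hx with hx | hx
    · exact hcs x hx
    · exact hcs x (List.mem_of_mem_take hx)
  have hsv : ∀ x ∈ G.M.D, ∀ y ∈ G.M.D, (G.M.SameV x y ↔ H.M.SameV x y) := fun x hx y hy => by
    rw [S.sameV hx]
    exact ⟨fun h => h.1, fun h => ⟨h, hy⟩⟩
  have h1 : List.IsChain (fun x y => G.M.SameV (G.M.inv x) y) (cs ++ cs.take 1) ↔
      List.IsChain (fun x y => H.M.SameV (H.M.inv x) y) (cs ++ cs.take 1) := by
    refine List.IsChain.iff_of_mem_imp fun x y hx hy => ?_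
    rw [hsv _ (G.ok.inv_mem x (hmem x hx)) y (hmem y hy), S.inv_eq]
  have h2 : cs.Pairwise (fun x y => ¬ G.M.SameV x y) ↔ cs.Pairwise (fun x y => ¬ H.M.SameV x y) := by
    refine List.Pairwise.iff_of_mem fun {x y} hx hy => ?_
    rw [hsv x (hcs x hx) y (hcs y hy)]
  unfold Poly
  rw [h1, h2]
  exact ⟨fun h => ⟨h.1, fun d hd => S.memD (hcs d hd), h.2.2⟩, fun h => ⟨h.1, hcs, h.2.2⟩⟩

end Pool.Agent.Spd
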