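import Pool.Agent.Spd.FillEx1

/-!
(Part `FillEx2`: `fill_exists`.  The text below is the common header of the parts.)

# SPD A11: every polygon that bounds a finite region has a code

Strong induction on `F.card`, `cs = d :: ds`.

* degenerate: `inv d ∈ cs`.  `poly_inv` and `Bounds.head_mem`...: `cs = [d, inv d]` (the first dart
  is `x` or `inv x`, and `inv (inv x) = x`), `F = ∅` (`Bounds.of_deg`); code `Tri.edge`.
* otherwise `d ∈ F` (`d ∈ cs`, `inv d ∉ cs`), so `d` is inner and `a = fc d`, `b = fc a` are in `F`.
  Let `w` be the origin of `b`.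
  - `w` is not the origin of a dart of `cs`: `new`.  `cs' = inv b :: inv a :: ds`,
    `F' = F \ {d, a, b}`.  `Poly M cs'`: origins `x₁, w, x₂...`; chain: `b` (the inverse of
    `inv b`) has the origin of `inv a` (`tgt` for `a`), `a` has the origin of the first dart of
    `ds` (which starts at the target of `d`, like `a`); the last dart of `ds` ends at `x₁`, the
    origin of `inv b` (`tgt` for `b`: `inv b` has the origin of `fc b = d`).
    `Bounds M cs' F'`: see the proof for `e ∈ F'`, `inv e ∉ F'`: either `inv e ∉ F`, so `e ∈ cs`,
    `e ≠ d`, `e ∈ ds`; or `inv e ∈ {d, a, b}`: `inv e = d` means `e = inv d ∉ F`, impossible;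
    so `e = inv a` or `e = inv b`.  Conversely `e ∈ ds`: `e ∈ F`, `inv e ∉ F` (for `cs` not
    degenerate), `e ∉ {d,a,b}`: `e ≠ d` (`poly_nodup`), `e = a` would make its target `w` the
    origin of the next dart of `cs`, `e = b` has origin `w`.  `e = inv a`: `inv a ∈ F`, since
    otherwise `a ∈ cs` and `w` would be on `cs`; `inv a ∉ {d,a,b}` (`inv_ne`, `inv_ne_fc`,
    `inv_ne_fc2` for `a`); `inv (inv a) = a ∉ F'`.  Same for `inv b`.
    `F'` is smaller; if `t` is its code then `new t` is the code of `cs`.
  - `w` is the origin of `e ∈ cs`: `e ≠ d` and `e` is not the first dart of `ds` (`face_ne`), so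
    `cs = d :: (ds₁ ++ ds₂)`, `ds₂ = e :: ..`, `ds₁ ≠ []`: `split_poly`, `split_bounds`, induction.
The length of the list is the number of sides.
-/

namespace Pool.Agent.Spd

variable {M : PreMap}

private theorem fill_aux (h : M.IsHPT) (n : ℕ) : ∀ {k : ℕ} {cs : List ℕ} {F : Finset ℕ},
    F.card ≤ n → cs.length = k + 1 → Poly M cs → Bounds M cs F →
    ∃ τ : Tri k, M.Fill τ cs F := by
  induction n with
  | zero =>
    intro k cs F hn hk P B
    match cs, P, B, hk with
    | [], P, _, _ =>
      have := P.1
      simp at this
    | d :: ds, P, B, hk =>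
      have hF : F = ∅ := Finset.card_eq_zero.1 (Nat.le_zero.1 hn)
      rcases B.head_mem h P with h1 | ⟨h1, _⟩
      · rw [hF] at h1
        simp at h1
      · subst h1
        obtain rfl : k = 1 := by simpa using hk.symm
        exact ⟨Tri.edge, d, P.2.1 d (by simp), rfl, hF⟩
  | succ n ih =>
    intro k cs F hn hk P B
    match cs, P, B, hk with
    | [], P, _, _ =>
      have := P.1
      simp at this
    | d :: ds, P, B, hk =>
      rcases B.head_mem h P with h1 | ⟨h1, hF⟩
      · have hI : M.Inner d := (B.1 d h1).1
        have hcard : ∀ G : Finset ℕ, G ⊆ F → d ∉ G → G.card ≤ n := by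
          intro G hG hdG
          have h2 : G.card < F.card :=
            Finset.card_lt_card ⟨hG, fun h3 => hdG (h3 h1)⟩
          omega
        by_cases hw : ∀ e ∈ d :: ds, ¬ M.SameV e (M.fc (M.fc d))
        · obtain ⟨P', B'⟩ := new_bounds h P B h1 hw
          have h2 := P.1
          simp only [List.length_cons] at h2 hk
          obtain ⟨j, rfl⟩ : ∃ j, k = j + 1 := ⟨k - 1, by omega⟩
          obtain ⟨t, ht⟩ := ih (k := j + 2) (hcard _ Finset.sdiff_subset (by simp))
            (by simp only [List.length_cons]; omega) P' B'
          refine ⟨Tri.new t, d, ds, _, rfl, hI, hw, ht, by simp, ?_⟩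
          have h3 := (B.1 d h1).2
          have h4 := (B.1 _ h3).2
          refine (Finset.union_sdiff_of_subset ?_).symm
          intro x hx
          simp only [Finset.mem_insert, Finset.mem_singleton] at hx
          rcases hx with rfl | rfl | rfl
          exacts [h1, h3, h4]
        · push Not at hw
          obtain ⟨e, he, hew⟩ := hw
          have heds : e ∈ ds := by
            rcases List.mem_cons.1 he with rfl | he'
            · exact absurd hew (h.face_ne hI).2.2
            · exact he'
          have heD : e ∈ M.D := P.2.1 e he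
          obtain ⟨ds₁, ds₂, rfl⟩ := List.append_of_mem heds
          have hne : ds₁ ≠ [] := by
            rintro rfl
            have h3 := P.2.2.1
            simp only [List.nil_append, List.take_succ_cons, List.take_zero, List.cons_append,
              List.isChain_cons_cons] at h3
            have h4 := h.sameV_trans (h.sameV_symm (h.inv_mem d hI.1) h3.1) (h.tgt hI.1)
            exact (h.face_ne hI).2.1 (h.sameV_trans (h.sameV_symm heD h4) hew)
          have hhead : ∀ x ∈ (e :: ds₂).head?, M.SameV (M.fc (M.fc d)) x := by
            intro x hx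
            simp only [List.head?_cons, Option.mem_def, Option.some.injEq] at hx
            subst hx
            exact h.sameV_symm heD hew
          obtain ⟨P₁, P₂⟩ := split_poly h P hI hne (by simp) hhead
          obtain ⟨F₁, F₂, B₁, B₂, hd1, hd2, hdis, hF⟩ := split_bounds h P B hI hne (by simp) hhead
          obtain ⟨i, hi⟩ : ∃ i, ds₁.length = i + 1 :=
            ⟨ds₁.length - 1, by have := List.length_pos_of_ne_nil hne; omega⟩
          obtain rfl : k = i + ds₂.length + 2 := by
            simp only [List.length_cons, List.length_append] at hk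
            omega
          have hs1 : F₁ ⊆ F := by
            rw [hF]
            exact Finset.subset_union_left.trans Finset.subset_union_right
          have hs2 : F₂ ⊆ F := by
            rw [hF]
            exact Finset.subset_union_right.trans Finset.subset_union_right
          obtain ⟨t₁, ht₁⟩ := ih (k := i + 1) (hcard _ hs1 hd1) (by simp [hi]) P₁ B₁
          obtain ⟨t₂, ht₂⟩ := ih (k := ds₂.length + 1) (hcard _ hs2 hd2) (by simp) P₂ B₂
          exact ⟨Tri.split t₁ t₂, d, ds₁, e :: ds₂, F₁, F₂, rfl, hI, ht₁, ht₂, hd1, hd2, hdis, hF⟩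
      · subst h1
        obtain rfl : k = 1 := by simpa using hk.symm
        exact ⟨Tri.edge, d, P.2.1 d (by simp), rfl, hF⟩

theorem fill_exists (h : M.IsHPT) {k : ℕ} {cs : List ℕ} {F : Finset ℕ} (hk : cs.length = k + 1)
    (P : Poly M cs) (B : Bounds M cs F) : ∃ τ : Tri k, M.Fill τ cs F :=
  fill_aux h F.card le_rfl hk P B

end Pool.Agent.Spd
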