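import Pool.Agent.Spd.SplitD

/-!
(Part `FillEx1`: `new_bounds`.  The text below is the common header of the parts.)

# SPD A11: every polygon that bounds a finite region has a code

Strong induction on `F.card`, `cs = d :: ds`.

* degenerate: `inv d ∈ cs`.  `poly_inv` and `Bounds.head_mem`...: `cs = [d, inv d]` (the first dart
  is `x` or `inv x`, and `inv (inv x) = x`), `F = ∅` (`Bounds.of_deg`); code `Tri.edge`.
* otherwise `d ∈ F` (`d ∈ cs`, `inv d ∉ cs`), so `d` is inner and `a = fc d`, `b = fc a` are in `F`.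
  Let `w` be the origin of `b`.
  - `w` is not the origin of a dart of `cs`: `new`.  `cs' = inv b :: inv a :: ds`,
    `F' = F \ {d, a, b}`.  `Poly M cs'`: origins `x₁, w, x₂...`; chain: `b` (the inverse of
    `inv b`) has the origin of `inv a` (`tgt` for `a`), `a` has the origin of the first dart of
    `ds` (which starts at the target of `d`, like `a`); the last dart of `ds` ends at `x₁`, the
    origin of `inv b` (`tgt` for `b`: `inv b` has the origin of `fc b = d`).
    `Bounds M cs' F'`: see the proof for `e ∈ F'`, `inv e ∉ F'`: either `inv e ∉ F`, so `e ∈ cs`,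
    `e ≠ d`, `e ∈ ds`; or `inv e ∈ {d, a, b}`: `inv e = d` means `e = inv d ∉ F`, impossible;
    so `e = inv a` or `e = inv b`.  Conversely `e ∈ ds`: `e ∈ F`, `inv e ∉ F` (for `cs` not
    degenerate), `e ∉ {d,a,b}`: `e ≠ d` (`poly_nodup`), `e = a` would make its target `w` the
    origin of the next dart of `cs`, `e = b` has origin `w`.  `e = inv a`: `inv a ∈ F`, since
    otherwise `a ∈ cs` and `w` would be on `cs`; `inv a ∉ {d,a,b}` (`inv_ne`, `inv_ne_fc`,
    `inv_ne_fc2` for `a`); `inv (inv a) = a ∉ F'`.  Same for `inv b`.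
    `F'` is smaller; if `t` is its code then `new t` is the code of `cs`.
  - `w` is the origin of `e ∈ cs`: `e ≠ d` and `e` is not the first dart of `ds` (`face_ne`), so
    `cs = d :: (ds₁ ++ ds₂)`, `ds₂ = e :: ..`, `ds₁ ≠ []`: `split_poly`, `split_bounds`, induction.
The length of the list is the number of sides.
-/

namespace Pool.Agent.Spd

variable {M : PreMap} {cs : List ℕ}

private theorem FillEx1_succ (P : Poly M cs) {x : ℕ} (hx : x ∈ cs) :
    ∃ y ∈ cs, M.SameV (M.inv x) y := by
  obtain ⟨i, hi, rfl⟩ := List.getElem_of_mem hx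
  have h1 := List.isChain_iff_getElem.1 P.2.2.1 i (by
    have := P.1
    rw [List.length_append, List.length_take]
    omega)
  rw [List.getElem_append_left hi] at h1
  refine ⟨_, ?_, h1⟩
  have h2 : (cs ++ cs.take 1)[i + 1]'(by
      have := P.1
      rw [List.length_append, List.length_take]
      omega) ∈ cs ++ cs.take 1 := List.getElem_mem _
  rw [List.mem_append] at h2
  rcases h2 with h2 | h2
  · exact h2
  · exact List.mem_of_mem_take h2

private theorem FillEx1_poly (h : M.IsHPT) {d : ℕ} {ds : List ℕ}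
    (P : Poly M (d :: ds)) (hd : M.Inner d)
    (hw : ∀ e ∈ d :: ds, ¬ M.SameV e (M.fc (M.fc d))) :
    Poly M (M.inv (M.fc (M.fc d)) :: M.inv (M.fc d) :: ds) := by
  have haI := h.fc_inner d hd
  have hbI := h.fc_inner _ haI
  have htri := h.fc_tri d hd
  set a := M.fc d with ha
  set b := M.fc a with hb
  have hia := h.inv_mem a haI.1
  have hib := h.inv_mem b hbI.1
  have t1 : M.SameV (M.inv d) a := h.tgt hd.1
  have t2 : M.SameV (M.inv a) b := h.tgt haI.1
  have t3 : M.SameV (M.inv b) d := by
    have := h.tgt hbI.1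
    rwa [htri] at this
  have hdm : d ∈ d :: ds := List.mem_cons_self
  have hsub : ∀ y ∈ ds, y ∈ d :: ds := fun y hy => List.mem_cons_of_mem _ hy
  have hlen := P.1
  have hch := P.2.2.1
  obtain ⟨y, ys, rfl⟩ : ∃ y ys, ds = y :: ys := by
    cases ds with
    | nil =>
      rw [List.length_singleton] at hlen
      omega
    | cons y ys => exact ⟨y, ys, rfl⟩
  have hpw := P.2.2.2
  rw [List.pairwise_cons] at hpw
  refine ⟨?_, ?_, ?_, ?_⟩
  · rw [List.length_cons, List.length_cons]
    omega
  · intro e he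
    rw [List.mem_cons, List.mem_cons] at he
    rcases he with rfl | rfl | he
    · exact hib
    · exact hia
    · exact P.2.1 e (hsub e he)
  · have e1 : (d :: y :: ys) ++ (d :: y :: ys).take 1 = d :: ((y :: ys) ++ [d]) := rfl
    have e2 : (M.inv b :: M.inv a :: y :: ys) ++ (M.inv b :: M.inv a :: y :: ys).take 1 =
        M.inv b :: M.inv a :: ((y :: ys) ++ [M.inv b]) := rfl
    rw [e1, List.cons_append, List.isChain_cons_cons, ← List.cons_append,
      List.isChain_append] at hch
    rw [e2, List.isChain_cons_cons, List.cons_append, List.isChain_cons_cons,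
      ← List.cons_append, List.isChain_append]
    refine ⟨?_, ?_, hch.2.1, List.isChain_singleton _, ?_⟩
    · rw [h.inv_inv b hbI.1]
      exact h.sameV_symm hia t2
    · rw [h.inv_inv a haI.1]
      exact h.sameV_trans (h.sameV_symm (h.inv_mem d hd.1) t1) hch.1
    · intro x hx z hz
      rw [List.head?_cons, Option.mem_some_iff] at hz
      subst hz
      exact h.sameV_trans (hch.2.2.2 x hx d rfl) (h.sameV_symm hib t3)
  · rw [List.pairwise_cons, List.pairwise_cons]
    refine ⟨?_, ?_, hpw.2⟩
    · intro e he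
      rw [List.mem_cons] at he
      rcases he with rfl | he
      · intro h1
        exact hw d hdm (h.sameV_trans (h.sameV_symm hib t3) (h.sameV_trans h1 t2))
      · intro h1
        exact hpw.1 e he (h.sameV_trans (h.sameV_symm hib t3) h1)
    · intro e he h1
      exact hw e (hsub e he) (h.sameV_trans (h.sameV_symm hia h1) t2)

theorem new_bounds (h : M.IsHPT) {d : ℕ} {ds : List ℕ} {F : Finset ℕ}
    (P : Poly M (d :: ds)) (B : Bounds M (d :: ds) F) (hd : d ∈ F)
    (hw : ∀ e ∈ d :: ds, ¬ M.SameV e (M.fc (M.fc d))) :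
    Poly M (M.inv (M.fc (M.fc d)) :: M.inv (M.fc d) :: ds) ∧
      Bounds M (M.inv (M.fc (M.fc d)) :: M.inv (M.fc d) :: ds)
        (F \ {d, M.fc d, M.fc (M.fc d)}) := by
  have hdI := (B.1 d hd).1
  refine ⟨FillEx1_poly h P hdI hw, ?_⟩
  have haF := (B.1 d hd).2
  have hbF := (B.1 _ haF).2
  have haI := h.fc_inner d hdI
  have hbI := h.fc_inner _ haI
  have htri := h.fc_tri d hdI
  set a := M.fc d with ha
  set b := M.fc a with hb
  have hdm : d ∈ d :: ds := List.mem_cons_self
  have hsub : ∀ y ∈ ds, y ∈ d :: ds := fun y hy => List.mem_cons_of_mem _ hy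
  have t2 : M.SameV (M.inv a) b := h.tgt haI.1
  -- the polygon is not degenerate
  have hnd : ∀ e ∈ d :: ds, M.inv e ∉ d :: ds := by
    intro e he hie
    obtain ⟨x, hx⟩ := poly_inv h P he hie
    have hxD : x ∈ M.D := P.2.1 x (by rw [hx]; exact List.mem_cons_self)
    rw [hx] at B
    have h0 := B.of_deg h hxD
    rw [h0] at hd
    exact Finset.notMem_empty _ hd
  have hcs : ∀ e ∈ d :: ds, e ∈ F ∧ M.inv e ∉ F := fun e he =>
    (B.2 e (P.2.1 e he)).2 ⟨he, hnd e he⟩
  have hacs : a ∉ d :: ds := by
    intro h1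
    obtain ⟨y, hy, hay⟩ := FillEx1_succ P h1
    exact hw y hy (h.sameV_trans (h.sameV_symm (h.inv_mem a haI.1) hay) t2)
  have hbcs : b ∉ d :: ds := fun h1 => hw b h1 (h.sameV_refl b)
  have hiaF : M.inv a ∈ F := by
    by_contra h1
    exact hacs ((B.2 a haI.1).1 ⟨haF, h1⟩).1
  have hibF : M.inv b ∈ F := by
    by_contra h1
    exact hbcs ((B.2 b hbI.1).1 ⟨hbF, h1⟩).1
  have hmem : ∀ e, e ∈ F \ {d, a, b} ↔ e ∈ F ∧ e ≠ d ∧ e ≠ a ∧ e ≠ b := by
    intro e
    simp only [Finset.mem_sdiff, Finset.mem_insert, Finset.mem_singleton, not_or]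
  have hfb : M.fc b = d := htri
  have C : ∀ e ∈ M.inv b :: M.inv a :: ds,
      e ∈ F \ {d, a, b} ∧ M.inv e ∉ F \ {d, a, b} := by
    intro e he
    rw [List.mem_cons, List.mem_cons] at he
    rw [hmem, hmem]
    rcases he with rfl | rfl | he
    · refine ⟨⟨hibF, ?_, ?_, h.inv_ne b hbI.1⟩, ?_⟩
      · have h1 := h.inv_ne_fc hbI
        rwa [hfb] at h1
      · have h1 := h.inv_ne_fc2 hbI
        rwa [hfb] at h1
      · rw [h.inv_inv b hbI.1]
        exact fun h1 => h1.2.2.2 rfl
    · refine ⟨⟨hiaF, ?_, h.inv_ne a haI.1, h.inv_ne_fc haI⟩, ?_⟩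
      · have h1 := h.inv_ne_fc2 haI
        rwa [← hb, hfb] at h1
      · rw [h.inv_inv a haI.1]
        exact fun h1 => h1.2.2.1 rfl
    · have h1 := hcs e (hsub e he)
      refine ⟨⟨h1.1, ?_, ?_, ?_⟩, fun h2 => h1.2 h2.1⟩
      · rintro rfl
        exact (List.pairwise_cons.1 P.2.2.2).1 e he (h.sameV_refl e)
      · rintro h3
        rw [h3] at he
        exact hacs (hsub _ he)
      · rintro h3
        rw [h3] at he
        exact hbcs (hsub _ he)
  refine ⟨?_, ?_⟩
  · intro e he
    rw [hmem] at he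
    have h1 := B.1 e he.1
    refine ⟨h1.1, ?_⟩
    rw [hmem]
    refine ⟨h1.2, ?_, ?_, ?_⟩
    · intro h2
      exact he.2.2.2 (h.fc_inj h1.1.1 hbI.1 (h2.trans hfb.symm))
    · intro h2
      exact he.2.1 (h.fc_inj h1.1.1 hdI.1 h2)
    · intro h2
      exact he.2.2.1 (h.fc_inj h1.1.1 haI.1 h2)
  · intro e heD
    constructor
    · rintro ⟨h1, h2⟩
      have h3 : e ∈ M.inv b :: M.inv a :: ds := by
        rw [hmem] at h1 h2
        by_cases h4 : M.inv e ∈ F
        · have h5 : M.inv e = d ∨ M.inv e = a ∨ M.inv e = b := by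
            by_contra h6
            push Not at h6
            exact h2 ⟨h4, h6⟩
          rcases h5 with h5 | h5 | h5
          · exfalso
            have h6 := (hcs d hdm).2
            rw [← h5, h.inv_inv e heD] at h6
            exact h6 h1.1
          · rw [← h5, h.inv_inv e heD]
            exact List.mem_cons_of_mem _ List.mem_cons_self
          · rw [← h5, h.inv_inv e heD]
            exact List.mem_cons_self
        · have h5 := ((B.2 e heD).1 ⟨h1.1, h4⟩).1
          rw [List.mem_cons] at h5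
          rcases h5 with h5 | h5
          · exact absurd h5 h1.2.1
          · exact List.mem_cons_of_mem _ (List.mem_cons_of_mem _ h5)
      exact ⟨h3, fun h4 => h2 (C _ h4).1⟩
    · rintro ⟨h1, -⟩
      exact C e h1

end Pool.Agent.Spd
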