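import Pool.Agent.Spd.FillB

/-!
# SPD A14: regions with the same code are isomorphic

Induction on the code, for two maps `M`, `M'` (both HPT), polygons `cs`, `cs'` of the same length.
`f : F → F'` with inverse `g`, commuting with `fc`, with `inv` inside `F`, and sending the `i`-th
dart of `cs` to the `i`-th dart of `cs'`.

* `edge`: `F = F' = ∅`.
* `new t`: `cs = d :: ds`; let `f₀` be the map for `t` and `inv b :: inv a :: ds`.  Put
  `f d = d'`, `f a = a'`, `f b = b'` and `f = f₀` on `F₀` (`d, a, b ∉ F₀`).  `inv` inside `F`: for `e`,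
  `inv e` in `F₀` by `f₀`; `e = a`: `inv a ∈ F₀` is the dart number 1 of the list, so
  `f (inv a) = inv a' = inv (f a)`; `e = inv a`: `f (inv e) = f a = a' = inv (inv a')`.  Same for
  `b`; `inv d ∉ F` (`fill_bounds`).  Dart number 0: `d ↦ d'`; dart number `i + 1` of `cs` is dart
  number `i + 2` of the new list.
* `split t₁ t₂`: similarly; `ds₁` has the same length as `ds₁'` (`fill_length`).  If `t₁ = edge`
  then `ds₁ = [a]` and `ds₁' = [a']` (from `ds₁ ++ [inv a] = [x, inv x]`), so dart number 1 of `cs`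
  is `a ∈ F` and goes to `a'`; otherwise `inv a ∈ F₁` is the last dart of the first list.  The same
  for `b`, `t₂`.
* `cs[i] ∈ F ↔ cs'[i] ∈ F'`: for a degenerate polygon both are false (`F = ∅` only for `edge`),
  otherwise both are true (`fill_bounds`, `poly_inv`).

The isomorphism is constructed as a relation `R`; `Half` lists one half of its properties.
-/

namespace Pool.Agent.Spd

/-- One half of the properties of an isomorphism given as a relation. -/
private structure Half (M M' : PreMap) (cs cs' : List ℕ) (F : Finset ℕ) (R : ℕ → ℕ → Prop) :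
    Prop where
  mem : ∀ x x', R x x' → x ∈ F
  ex : ∀ x ∈ F, ∃ x', R x x'
  uniq : ∀ x x' y', R x x' → R x y' → x' = y'
  fc : ∀ x x', R x x' → R (M.fc x) (M'.fc x')
  inv : ∀ x x', R x x' → M.inv x ∈ F → R (M.inv x) (M'.inv x')
  bd : ∀ i < cs.length, cs.getD i 0 ∈ F → R (cs.getD i 0) (cs'.getD i 0)

/-- The relation with one more triangle. -/
private def ext (R : ℕ → ℕ → Prop) (d a b d' a' b' : ℕ) (x x' : ℕ) : Prop :=
  R x x' ∨ (x = d ∧ x' = d') ∨ (x = a ∧ x' = a') ∨ (x = b ∧ x' = b')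

private theorem ext_flip (R : ℕ → ℕ → Prop) (d a b d' a' b' : ℕ) :
    (fun x y => ext R d a b d' a' b' y x) = ext (fun x y => R y x) d' a' b' d a b := by
  funext x y
  apply propext
  unfold ext
  constructor
  · rintro (h | ⟨h1, h2⟩ | ⟨h1, h2⟩ | ⟨h1, h2⟩)
    · exact Or.inl h
    · exact Or.inr (Or.inl ⟨h2, h1⟩)
    · exact Or.inr (Or.inr (Or.inl ⟨h2, h1⟩))
    · exact Or.inr (Or.inr (Or.inr ⟨h2, h1⟩))
  · rintro (h | ⟨h1, h2⟩ | ⟨h1, h2⟩ | ⟨h1, h2⟩)
    · exact Or.inl h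
    · exact Or.inr (Or.inl ⟨h2, h1⟩)
    · exact Or.inr (Or.inr (Or.inl ⟨h2, h1⟩))
    · exact Or.inr (Or.inr (Or.inr ⟨h2, h1⟩))

private theorem face_distinct {M : PreMap} (h : M.IsHPT) {d : ℕ} (hd : M.Inner d) :
    d ≠ M.fc d ∧ M.fc d ≠ M.fc (M.fc d) ∧ d ≠ M.fc (M.fc d) := by
  obtain ⟨h1, h2, h3⟩ := h.face_ne hd
  refine ⟨fun e => h1 ?_, fun e => h2 ?_, fun e => h3 ?_⟩
  · rw [← e]; exact h.sameV_refl d
  · rw [← e]; exact h.sameV_refl _
  · rw [← e]; exact h.sameV_refl d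

/-- The inverses of the darts of a face are not in the face. -/
private theorem inv_not_face {M : PreMap} (h : M.IsHPT) {d : ℕ} (hd : M.Inner d) :
    ∀ x, (x = d ∨ x = M.fc d ∨ x = M.fc (M.fc d)) →
      M.inv x ≠ d ∧ M.inv x ≠ M.fc d ∧ M.inv x ≠ M.fc (M.fc d) := by
  have ha := h.fc_inner d hd
  have hb := h.fc_inner _ ha
  have h3 := h.fc_tri d hd
  rintro x (rfl | rfl | rfl)
  · exact ⟨h.inv_ne _ hd.1, h.inv_ne_fc hd, h.inv_ne_fc2 hd⟩
  · refine ⟨?_, h.inv_ne _ ha.1, h.inv_ne_fc ha⟩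
    have := h.inv_ne_fc2 ha
    rwa [h3] at this
  · refine ⟨?_, ?_, h.inv_ne _ hb.1⟩
    · have := h.inv_ne_fc hb
      rwa [h3] at this
    · have := h.inv_ne_fc2 hb
      rwa [h3] at this

/-- A boundary dart that is in the region is not degenerate. -/
private theorem inv_not_mem {M : PreMap} (h : M.IsHPT) {cs : List ℕ} {F : Finset ℕ}
    (P : Poly M cs) (B : Bounds M cs F) {x : ℕ} (hx : x ∈ cs) (hF : x ∈ F) : M.inv x ∉ F := by
  by_cases hi : M.inv x ∈ cs
  · obtain ⟨y, rfl⟩ := poly_inv h P hx hi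
    have hy : y ∈ M.D := P.2.1 y (by simp)
    rw [Bounds.of_deg h hy B] at hF
    simp at hF
  · exact ((B.2 x (P.2.1 x hx)).2 ⟨hx, hi⟩).2

/-- A boundary dart whose polygon is not degenerate is in the region. -/
private theorem mem_or_deg {M : PreMap} (h : M.IsHPT) {cs : List ℕ} {F : Finset ℕ}
    (P : Poly M cs) (B : Bounds M cs F) {x : ℕ} (hx : x ∈ cs) (hF : x ∉ F) :
    F = ∅ ∧ ∃ y, cs = [y, M.inv y] := by
  by_cases hi : M.inv x ∈ cs
  · obtain ⟨y, rfl⟩ := poly_inv h P hx hi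
    have hy : y ∈ M.D := P.2.1 y (by simp)
    exact ⟨Bounds.of_deg h hy B, y, rfl⟩
  · exact absurd ((B.2 x (P.2.1 x hx)).2 ⟨hx, hi⟩).1 hF

private theorem next_mem {M : PreMap} {cs : List ℕ} (P : Poly M cs) {e : ℕ} (he : e ∈ cs) :
    ∃ e' ∈ cs, M.SameV (M.inv e) e' := by
  obtain ⟨p, q, hpq⟩ := List.append_of_mem he
  have hch := P.2.2.1
  obtain ⟨c0, rest, hc⟩ : ∃ c0 rest, cs = c0 :: rest := by
    cases cs with
    | nil => simp at he
    | cons x y => exact ⟨x, y, rfl⟩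
  have ht : cs.take 1 = [c0] := by rw [hc]; rfl
  rw [ht] at hch
  rcases q with _ | ⟨q0, q⟩
  · refine ⟨c0, by rw [hc]; exact List.mem_cons_self, ?_⟩
    have h1 : cs ++ [c0] = p ++ e :: c0 :: [] := by rw [hpq]; simp
    rw [h1] at hch
    exact (List.isChain_append_cons_cons.1 hch).2.1
  · refine ⟨q0, by rw [hpq]; simp, ?_⟩
    have h1 : cs ++ [c0] = p ++ e :: q0 :: (q ++ [c0]) := by rw [hpq]; simp
    rw [h1] at hch
    exact (List.isChain_append_cons_cons.1 hch).2.1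

/-- Fields of `Half` which are the same in the two cases. -/
private theorem ext_basic {M M' : PreMap} (h : M.IsHPT) (h' : M'.IsHPT) {d d' : ℕ}
    (hd : M.Inner d) (hd' : M'.Inner d') {F₀ F : Finset ℕ} {R : ℕ → ℕ → Prop}
    (mem : ∀ x x', R x x' → x ∈ F₀) (ex : ∀ x ∈ F₀, ∃ x', R x x')
    (uniq : ∀ x x' y', R x x' → R x y' → x' = y')
    (fc : ∀ x x', R x x' → R (M.fc x) (M'.fc x'))
    (hF : F = {d, M.fc d, M.fc (M.fc d)} ∪ F₀) (hdF : d ∉ F₀) (haF : M.fc d ∉ F₀)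
    (hbF : M.fc (M.fc d) ∉ F₀) :
    let S := ext R d (M.fc d) (M.fc (M.fc d)) d' (M'.fc d') (M'.fc (M'.fc d'))
    (∀ x x', S x x' → x ∈ F) ∧ (∀ x ∈ F, ∃ x', S x x') ∧
      (∀ x x' y', S x x' → S x y' → x' = y') ∧ (∀ x x', S x x' → S (M.fc x) (M'.fc x')) := by
  intro S
  obtain ⟨n1, n2, n3⟩ := face_distinct h hd
  have hmem : ∀ x, x ∈ F ↔ (x = d ∨ x = M.fc d ∨ x = M.fc (M.fc d)) ∨ x ∈ F₀ := by
    intro x
    rw [hF, Finset.mem_union, Finset.mem_insert, Finset.mem_insert, Finset.mem_singleton]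
  refine ⟨?_, ?_, ?_, ?_⟩
  · rintro x x' (hx | ⟨rfl, -⟩ | ⟨rfl, -⟩ | ⟨rfl, -⟩)
    · exact (hmem _).2 (Or.inr (mem _ _ hx))
    · exact (hmem _).2 (Or.inl (Or.inl rfl))
    · exact (hmem _).2 (Or.inl (Or.inr (Or.inl rfl)))
    · exact (hmem _).2 (Or.inl (Or.inr (Or.inr rfl)))
  · intro x hx
    rcases (hmem x).1 hx with (rfl | rfl | rfl) | hx
    · exact ⟨d', Or.inr (Or.inl ⟨rfl, rfl⟩)⟩
    · exact ⟨_, Or.inr (Or.inr (Or.inl ⟨rfl, rfl⟩))⟩
    · exact ⟨_, Or.inr (Or.inr (Or.inr ⟨rfl, rfl⟩))⟩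
    · obtain ⟨x', hx'⟩ := ex x hx
      exact ⟨x', Or.inl hx'⟩
  · rintro x x' y' (hx | ⟨hx1, hx2⟩ | ⟨hx1, hx2⟩ | ⟨hx1, hx2⟩)
      (hy | ⟨hy1, hy2⟩ | ⟨hy1, hy2⟩ | ⟨hy1, hy2⟩)
    · exact uniq _ _ _ hx hy
    · exact absurd (mem _ _ hx) (hy1 ▸ hdF)
    · exact absurd (mem _ _ hx) (hy1 ▸ haF)
    · exact absurd (mem _ _ hx) (hy1 ▸ hbF)
    · exact absurd (mem _ _ hy) (hx1 ▸ hdF)
    · rw [hx2, hy2]
    · exact absurd (hx1.symm.trans hy1) n1
    · exact absurd (hx1.symm.trans hy1) n3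
    · exact absurd (mem _ _ hy) (hx1 ▸ haF)
    · exact absurd (hy1.symm.trans hx1) n1
    · rw [hx2, hy2]
    · exact absurd (hx1.symm.trans hy1) n2
    · exact absurd (mem _ _ hy) (hx1 ▸ hbF)
    · exact absurd (hy1.symm.trans hx1) n3
    · exact absurd (hy1.symm.trans hx1) n2
    · rw [hx2, hy2]
  · rintro x x' (hx | ⟨rfl, rfl⟩ | ⟨rfl, rfl⟩ | ⟨rfl, rfl⟩)
    · exact Or.inl (fc _ _ hx)
    · exact Or.inr (Or.inr (Or.inl ⟨rfl, rfl⟩))
    · exact Or.inr (Or.inr (Or.inr ⟨rfl, rfl⟩))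
    · exact Or.inr (Or.inl ⟨h.fc_tri d hd, h'.fc_tri d' hd'⟩)

private theorem new_half {M M' : PreMap} (h : M.IsHPT) (h' : M'.IsHPT) {d d' : ℕ}
    {ds ds' : List ℕ} {F₀ F : Finset ℕ} {R : ℕ → ℕ → Prop} (P : Poly M (d :: ds))
    (hd : M.Inner d) (hd' : M'.Inner d')
    (hw : ∀ e ∈ d :: ds, ¬ M.SameV e (M.fc (M.fc d))) (B : Bounds M (d :: ds) F)
    (cl : ∀ x ∈ F₀, M.Inner x ∧ M.fc x ∈ F₀)
    (hF : F = {d, M.fc d, M.fc (M.fc d)} ∪ F₀) (hdF : d ∉ F₀)
    (H : Half M M' (M.inv (M.fc (M.fc d)) :: M.inv (M.fc d) :: ds)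
      (M'.inv (M'.fc (M'.fc d')) :: M'.inv (M'.fc d') :: ds') F₀ R) :
    Half M M' (d :: ds) (d' :: ds') F
      (ext R d (M.fc d) (M.fc (M.fc d)) d' (M'.fc d') (M'.fc (M'.fc d'))) := by
  have ha := h.fc_inner d hd
  have hb := h.fc_inner _ ha
  have ha' := h'.fc_inner d' hd'
  have hb' := h'.fc_inner _ ha'
  have h3 := h.fc_tri d hd
  have hbF : M.fc (M.fc d) ∉ F₀ := fun hx => hdF (by rw [← h3]; exact (cl _ hx).2)
  have haF : M.fc d ∉ F₀ := fun hx => hbF (cl _ hx).2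
  have hmem : ∀ x, x ∈ F ↔ (x = d ∨ x = M.fc d ∨ x = M.fc (M.fc d)) ∨ x ∈ F₀ := by
    intro x
    rw [hF, Finset.mem_union, Finset.mem_insert, Finset.mem_insert, Finset.mem_singleton]
  have hdF' : d ∈ F := (hmem d).2 (Or.inl (Or.inl rfl))
  have hid : M.inv d ∉ F := inv_not_mem h P B List.mem_cons_self hdF'
  obtain ⟨q1, q2, q3, q4⟩ := ext_basic h h' hd hd' H.mem H.ex H.uniq H.fc hF hdF haF hbF
  refine ⟨q1, q2, q3, q4, ?_, ?_⟩
  · rintro x x' (hx | ⟨rfl, rfl⟩ | ⟨rfl, rfl⟩ | ⟨rfl, rfl⟩) hi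
    · have hxD : x ∈ M.D := (cl x (H.mem _ _ hx)).1.1
      have hii := h.inv_inv x hxD
      rcases (hmem _).1 hi with (e | e | e) | hi
      · exfalso
        apply hid
        rw [← e, hii]
        exact (hmem _).2 (Or.inr (H.mem _ _ hx))
      · have hx2 : x = M.inv (M.fc d) := by rw [← e, hii]
        have h1 := H.bd 1 (by simp) (by simpa [← hx2] using H.mem _ _ hx)
        simp only [List.getD_cons_succ, List.getD_cons_zero] at h1
        rw [← hx2] at h1
        have h2 := H.uniq _ _ _ hx h1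
        rw [e, h2, h'.inv_inv _ ha'.1]
        exact Or.inr (Or.inr (Or.inl ⟨rfl, rfl⟩))
      · have hx2 : x = M.inv (M.fc (M.fc d)) := by rw [← e, hii]
        have h1 := H.bd 0 (by simp) (by simpa [← hx2] using H.mem _ _ hx)
        simp only [List.getD_cons_zero] at h1
        rw [← hx2] at h1
        have h2 := H.uniq _ _ _ hx h1
        rw [e, h2, h'.inv_inv _ hb'.1]
        exact Or.inr (Or.inr (Or.inr ⟨rfl, rfl⟩))
      · exact Or.inl (H.inv _ _ hx hi)
    · exact absurd hi hid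
    · obtain ⟨m1, m2, m3⟩ := inv_not_face h hd (M.fc d) (Or.inr (Or.inl rfl))
      rcases (hmem _).1 hi with (e | e | e) | hi
      · exact absurd e m1
      · exact absurd e m2
      · exact absurd e m3
      · refine Or.inl ?_
        have h1 := H.bd 1 (by simp) (by simpa using hi)
        simpa using h1
    · obtain ⟨m1, m2, m3⟩ := inv_not_face h hd (M.fc (M.fc d)) (Or.inr (Or.inr rfl))
      rcases (hmem _).1 hi with (e | e | e) | hi
      · exact absurd e m1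
      · exact absurd e m2
      · exact absurd e m3
      · refine Or.inl ?_
        have h1 := H.bd 0 (by simp) (by simpa using hi)
        simpa using h1
  · intro i hi hiF
    rcases i with _ | j
    · simp only [List.getD_cons_zero]
      exact Or.inr (Or.inl ⟨rfl, rfl⟩)
    · simp only [List.getD_cons_succ] at hiF ⊢
      have hj : j < ds.length := by simpa using hi
      have hjm : ds.getD j 0 ∈ ds := by
        rw [List.getD_eq_getElem _ _ hj]
        exact List.getElem_mem hj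
      rcases (hmem _).1 hiF with (e | e | e) | hF0
      · exfalso
        have hn := poly_nodup h P
        rw [List.nodup_cons] at hn
        exact hn.1 (e ▸ hjm)
      · exfalso
        -- the dart after `a` on the polygon starts at the third vertex
        have ham : M.fc d ∈ d :: ds := List.mem_cons_of_mem _ (e ▸ hjm)
        obtain ⟨e', he', hs⟩ := next_mem P ham
        have h4 : M.SameV (M.inv (M.fc d)) (M.fc (M.fc d)) := h.tgt ha.1
        exact hw e' he' (h.sameV_trans (h.sameV_symm (h.inv_mem _ ha.1) hs) h4)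
      · exfalso
        exact hw _ (List.mem_cons_of_mem _ hjm) (by rw [e]; exact h.sameV_refl _)
      · refine Or.inl ?_
        have h1 := H.bd (j + 2) (by simp [hj]) (by simpa using hF0)
        simpa using h1

private theorem split_half {M M' : PreMap} (h : M.IsHPT) (h' : M'.IsHPT) {d d' : ℕ}
    {ds₁ ds₂ ds₁' ds₂' : List ℕ} {F₁ F₂ F : Finset ℕ} {R₁ R₂ : ℕ → ℕ → Prop}
    (P : Poly M (d :: (ds₁ ++ ds₂))) (hd : M.Inner d) (hd' : M'.Inner d')
    (B : Bounds M (d :: (ds₁ ++ ds₂)) F)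
    (P₁ : Poly M (ds₁ ++ [M.inv (M.fc d)])) (P₂ : Poly M (M.inv (M.fc (M.fc d)) :: ds₂))
    (B₁ : Bounds M (ds₁ ++ [M.inv (M.fc d)]) F₁) (B₂ : Bounds M (M.inv (M.fc (M.fc d)) :: ds₂) F₂)
    (hF : F = {d, M.fc d, M.fc (M.fc d)} ∪ (F₁ ∪ F₂)) (hd1 : d ∉ F₁) (hd2 : d ∉ F₂)
    (hdis : Disjoint F₁ F₂) (hl : ds₁.length = ds₁'.length)
    (h1 : ds₁ ≠ []) (h2 : ds₂ ≠ [])
    (e1 : F₁ = ∅ → ds₁ = [M.fc d] ∧ ds₁' = [M'.fc d'])
    (e2 : F₂ = ∅ → ds₂ = [M.fc (M.fc d)] ∧ ds₂' = [M'.fc (M'.fc d')])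
    (H₁ : Half M M' (ds₁ ++ [M.inv (M.fc d)]) (ds₁' ++ [M'.inv (M'.fc d')]) F₁ R₁)
    (H₂ : Half M M' (M.inv (M.fc (M.fc d)) :: ds₂) (M'.inv (M'.fc (M'.fc d')) :: ds₂') F₂ R₂) :
    Half M M' (d :: (ds₁ ++ ds₂)) (d' :: (ds₁' ++ ds₂')) F
      (ext (fun x x' => R₁ x x' ∨ R₂ x x') d (M.fc d) (M.fc (M.fc d))
        d' (M'.fc d') (M'.fc (M'.fc d'))) := by
  have ha := h.fc_inner d hd
  have hb := h.fc_inner _ ha
  have ha' := h'.fc_inner d' hd'
  have hb' := h'.fc_inner _ ha'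
  have h3 := h.fc_tri d hd
  obtain ⟨n1, n2, n3⟩ := face_distinct h hd
  have hb1 : M.fc (M.fc d) ∉ F₁ := fun hx => hd1 (by rw [← h3]; exact (B₁.1 _ hx).2)
  have ha1 : M.fc d ∉ F₁ := fun hx => hb1 (B₁.1 _ hx).2
  have hb2 : M.fc (M.fc d) ∉ F₂ := fun hx => hd2 (by rw [← h3]; exact (B₂.1 _ hx).2)
  have ha2 : M.fc d ∉ F₂ := fun hx => hb2 (B₂.1 _ hx).2
  have hmem : ∀ x, x ∈ F ↔ (x = d ∨ x = M.fc d ∨ x = M.fc (M.fc d)) ∨ x ∈ F₁ ∨ x ∈ F₂ := by
    intro x
    rw [hF, Finset.mem_union, Finset.mem_insert, Finset.mem_insert, Finset.mem_singleton,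
      Finset.mem_union]
  have hdF : d ∈ F := (hmem d).2 (Or.inl (Or.inl rfl))
  have haF : M.fc d ∈ F := (hmem _).2 (Or.inl (Or.inr (Or.inl rfl)))
  have hbF : M.fc (M.fc d) ∈ F := (hmem _).2 (Or.inl (Or.inr (Or.inr rfl)))
  have hid : M.inv d ∉ F := inv_not_mem h P B List.mem_cons_self hdF
  have h12 : ∀ x, x ∈ F₁ → x ∉ F₂ := fun x hx hx' => Finset.disjoint_left.1 hdis hx hx'
  have hnd := poly_nodup h P
  rw [List.nodup_cons] at hnd
  obtain ⟨hnd0, hnd1⟩ := hnd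
  rw [List.nodup_append] at hnd1
  -- darts of the boundaries of the two parts
  have b1 : ∀ x ∈ F₁, M.inv x ∉ F₁ → M.inv x ∈ F → x = M.inv (M.fc d) := by
    intro x hx hix hiF
    have hx2 : x ∈ ds₁ ++ [M.inv (M.fc d)] := ((B₁.2 x (B₁.1 x hx).1.1).1 ⟨hx, hix⟩).1
    rcases List.mem_append.1 hx2 with hx3 | hx3
    · exfalso
      refine inv_not_mem h P B ?_ ((hmem x).2 (Or.inr (Or.inl hx))) hiF
      exact List.mem_cons_of_mem _ (List.mem_append_left _ hx3)
    · exact List.mem_singleton.1 hx3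
  have b2 : ∀ x ∈ F₂, M.inv x ∉ F₂ → M.inv x ∈ F → x = M.inv (M.fc (M.fc d)) := by
    intro x hx hix hiF
    have hx2 : x ∈ M.inv (M.fc (M.fc d)) :: ds₂ := ((B₂.2 x (B₂.1 x hx).1.1).1 ⟨hx, hix⟩).1
    rcases List.mem_cons.1 hx2 with hx3 | hx3
    · exact hx3
    · exfalso
      refine inv_not_mem h P B ?_ ((hmem x).2 (Or.inr (Or.inr hx))) hiF
      exact List.mem_cons_of_mem _ (List.mem_append_right _ hx3)
  have g1 : M.inv (M.fc d) ∈ F₁ → R₁ (M.inv (M.fc d)) (M'.inv (M'.fc d')) := by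
    intro hx
    have := H₁.bd ds₁.length (by simp) (by simpa using hx)
    rw [List.getD_append_right _ _ _ _ le_rfl, List.getD_append_right _ _ _ _ hl.ge] at this
    simpa [hl] using this
  have g2 : M.inv (M.fc (M.fc d)) ∈ F₂ →
      R₂ (M.inv (M.fc (M.fc d))) (M'.inv (M'.fc (M'.fc d'))) := by
    intro hx
    have := H₂.bd 0 (by simp) (by simpa using hx)
    simpa using this
  have hiia := h.inv_inv _ ha.1
  have hiib := h.inv_inv _ hb.1
  obtain ⟨q1, q2, q3, q4⟩ := ext_basic (R := fun x x' => R₁ x x' ∨ R₂ x x') (F₀ := F₁ ∪ F₂)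
    h h' hd hd'
    (fun x x' hx => Finset.mem_union.2 (hx.imp (H₁.mem _ _) (H₂.mem _ _)))
    (fun x hx => (Finset.mem_union.1 hx).elim
      (fun hx => let ⟨x', hx'⟩ := H₁.ex x hx; ⟨x', Or.inl hx'⟩)
      (fun hx => let ⟨x', hx'⟩ := H₂.ex x hx; ⟨x', Or.inr hx'⟩))
    (fun x x' y' hx hy => by
      rcases hx with hx | hx <;> rcases hy with hy | hy
      · exact H₁.uniq _ _ _ hx hy
      · exact absurd (H₂.mem _ _ hy) (h12 _ (H₁.mem _ _ hx))
      · exact absurd (H₂.mem _ _ hx) (h12 _ (H₁.mem _ _ hy))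
      · exact H₂.uniq _ _ _ hx hy)
    (fun x x' hx => hx.imp (H₁.fc _ _) (H₂.fc _ _)) hF
    (by rw [Finset.mem_union]; exact fun hx => hx.elim hd1 hd2)
    (by rw [Finset.mem_union]; exact fun hx => hx.elim ha1 ha2)
    (by rw [Finset.mem_union]; exact fun hx => hx.elim hb1 hb2)
  refine ⟨q1, q2, q3, q4, ?_, ?_⟩
  · rintro x x' ((hx | hx) | ⟨rfl, rfl⟩ | ⟨rfl, rfl⟩ | ⟨rfl, rfl⟩) hi
    · have hx1 := H₁.mem _ _ hx
      have hxD : x ∈ M.D := (B₁.1 x hx1).1.1
      have hii := h.inv_inv x hxD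
      by_cases hi1 : M.inv x ∈ F₁
      · exact Or.inl (Or.inl (H₁.inv _ _ hx hi1))
      · have hx2 := b1 x hx1 hi1 hi
        subst hx2
        have hx3 := H₁.uniq _ _ _ hx (g1 hx1)
        rw [hx3, hiia, h'.inv_inv _ ha'.1]
        exact Or.inr (Or.inr (Or.inl ⟨rfl, rfl⟩))
    · have hx1 := H₂.mem _ _ hx
      have hxD : x ∈ M.D := (B₂.1 x hx1).1.1
      by_cases hi1 : M.inv x ∈ F₂
      · exact Or.inl (Or.inr (H₂.inv _ _ hx hi1))
      · have hx2 := b2 x hx1 hi1 hi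
        subst hx2
        have hx3 := H₂.uniq _ _ _ hx (g2 hx1)
        rw [hx3, hiib, h'.inv_inv _ hb'.1]
        exact Or.inr (Or.inr (Or.inr ⟨rfl, rfl⟩))
    · exact absurd hi hid
    · obtain ⟨m1, m2, m3⟩ := inv_not_face h hd (M.fc d) (Or.inr (Or.inl rfl))
      rcases (hmem _).1 hi with (e | e | e) | hi1 | hi2
      · exact absurd e m1
      · exact absurd e m2
      · exact absurd e m3
      · exact Or.inl (Or.inl (g1 hi1))
      · exfalso
        have := b2 _ hi2 (by rw [hiia]; exact ha2) (by rw [hiia]; exact haF)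
        have h5 : M.fc d = M.fc (M.fc d) := hiia.symm.trans ((congrArg M.inv this).trans hiib)
        exact n2 h5
    · obtain ⟨m1, m2, m3⟩ := inv_not_face h hd (M.fc (M.fc d)) (Or.inr (Or.inr rfl))
      rcases (hmem _).1 hi with (e | e | e) | hi1 | hi2
      · exact absurd e m1
      · exact absurd e m2
      · exact absurd e m3
      · exfalso
        have := b1 _ hi1 (by rw [hiib]; exact hb1) (by rw [hiib]; exact hbF)
        have h5 : M.fc d = M.fc (M.fc d) :=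
          hiia.symm.trans ((congrArg M.inv this.symm).trans hiib)
        exact n2 h5
      · exact Or.inl (Or.inr (g2 hi2))
  · intro i hi hiF
    rcases i with _ | j
    · simp only [List.getD_cons_zero]
      exact Or.inr (Or.inl ⟨rfl, rfl⟩)
    · simp only [List.getD_cons_succ] at hiF ⊢
      have hj : j < ds₁.length + ds₂.length := by simpa using hi
      by_cases hj1 : j < ds₁.length
      · rw [List.getD_append _ _ _ _ hj1] at hiF ⊢
        rw [List.getD_append _ _ _ _ (hl ▸ hj1)]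
        have hjm : ds₁.getD j 0 ∈ ds₁ := by
          rw [List.getD_eq_getElem _ _ hj1]
          exact List.getElem_mem hj1
        have hjc : ds₁.getD j 0 ∈ ds₁ ++ [M.inv (M.fc d)] := List.mem_append_left _ hjm
        rcases (hmem _).1 hiF with (e | e | e) | hF0 | hF0
        · exact absurd (List.mem_append_left _ (e ▸ hjm)) hnd0
        · obtain ⟨r1, -⟩ := mem_or_deg h P₁ B₁ hjc (by rw [e]; exact ha1)
          obtain ⟨r2, r3⟩ := e1 r1
          have hj0 : j = 0 := by rw [r2] at hj1; simpa using hj1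
          subst hj0
          rw [r2, r3]
          exact Or.inr (Or.inr (Or.inl ⟨rfl, rfl⟩))
        · exfalso
          obtain ⟨c, rest, hc⟩ : ∃ c rest, ds₂ = c :: rest := by
            cases ds₂ with
            | nil => exact absurd rfl h2
            | cons x y => exact ⟨x, y, rfl⟩
          have hch := P₂.2.2.1
          rw [hc, List.cons_append, List.cons_append, List.isChain_cons_cons, hiib] at hch
          have hcm : c ∈ ds₂ := by rw [hc]; exact List.mem_cons_self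
          have heq := poly_eq_of_sameV h P
            (List.mem_cons_of_mem _ (List.mem_append_left _ (e ▸ hjm)))
            (List.mem_cons_of_mem _ (List.mem_append_right _ hcm)) hch.1
          exact hnd1.2.2 _ (e ▸ hjm) _ hcm heq
        · refine Or.inl (Or.inl ?_)
          have := H₁.bd j (by simp; omega) (by rw [List.getD_append _ _ _ _ hj1]; exact hF0)
          rwa [List.getD_append _ _ _ _ hj1, List.getD_append _ _ _ _ (hl ▸ hj1)] at this
        · exfalso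
          obtain ⟨r1, -⟩ := mem_or_deg h P₁ B₁ hjc (fun hx => h12 _ hx hF0)
          obtain ⟨r2, r3⟩ := e1 r1
          have hj0 : j = 0 := by rw [r2] at hj1; simpa using hj1
          subst hj0
          rw [r2] at hF0
          exact ha2 hF0
      · have hj2 : ds₁.length ≤ j := not_lt.1 hj1
        rw [List.getD_append_right _ _ _ _ hj2] at hiF ⊢
        rw [List.getD_append_right _ _ _ _ (hl ▸ hj2), ← hl]
        set m := j - ds₁.length with hm
        have hml : m < ds₂.length := by omega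
        have hjm : ds₂.getD m 0 ∈ ds₂ := by
          rw [List.getD_eq_getElem _ _ hml]
          exact List.getElem_mem hml
        have hjc : ds₂.getD m 0 ∈ M.inv (M.fc (M.fc d)) :: ds₂ := List.mem_cons_of_mem _ hjm
        rcases (hmem _).1 hiF with (e | e | e) | hF0 | hF0
        · exact absurd (List.mem_append_right _ (e ▸ hjm)) hnd0
        · exfalso
          obtain ⟨c, rest, hc⟩ : ∃ c rest, ds₁ = c :: rest := by
            cases ds₁ with
            | nil => exact absurd rfl h1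
            | cons x y => exact ⟨x, y, rfl⟩
          have hch := P.2.2.1
          rw [hc, List.cons_append, List.cons_append, List.cons_append,
            List.isChain_cons_cons] at hch
          have hcm : c ∈ ds₁ := by rw [hc]; exact List.mem_cons_self
          have hsv : M.SameV c (M.fc d) :=
            h.sameV_trans (h.sameV_symm (h.inv_mem _ hd.1) hch.1) (h.tgt hd.1)
          have heq := poly_eq_of_sameV h P
            (List.mem_cons_of_mem _ (List.mem_append_left _ hcm))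
            (List.mem_cons_of_mem _ (List.mem_append_right _ (e ▸ hjm))) hsv
          exact hnd1.2.2 _ hcm _ (e ▸ hjm) heq
        · obtain ⟨r1, -⟩ := mem_or_deg h P₂ B₂ hjc (by rw [e]; exact hb2)
          obtain ⟨r2, r3⟩ := e2 r1
          have hj0 : m = 0 := by rw [r2] at hml; simpa using hml
          rw [hj0, r2, r3]
          exact Or.inr (Or.inr (Or.inr ⟨rfl, rfl⟩))
        · exfalso
          obtain ⟨r1, -⟩ := mem_or_deg h P₂ B₂ hjc (h12 _ hF0)
          obtain ⟨r2, r3⟩ := e2 r1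
          have hj0 : m = 0 := by rw [r2] at hml; simpa using hml
          rw [hj0, r2] at hF0
          exact hb1 hF0
        · refine Or.inl (Or.inr ?_)
          have := H₂.bd (m + 1) (by simp; omega) (by rw [List.getD_cons_succ]; exact hF0)
          rwa [List.getD_cons_succ, List.getD_cons_succ] at this

private theorem fill_empty {M : PreMap} {k : ℕ} {τ : Tri k} {cs : List ℕ} {F : Finset ℕ}
    (f : M.Fill τ cs F) (hF : F = ∅) : ∃ d, cs = [d, M.inv d] := by
  cases τ with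
  | edge =>
    obtain ⟨d, -, hd, -⟩ := f
    exact ⟨d, hd⟩
  | new t =>
    obtain ⟨d, ds, F', -, -, -, -, -, h⟩ := f
    rw [hF] at h
    have h1 : d ∈ (∅ : Finset ℕ) := by rw [h]; simp
    simp at h1
  | split t₁ t₂ =>
    obtain ⟨d, ds₁, ds₂, F₁, F₂, -, -, -, -, -, -, -, h⟩ := f
    rw [hF] at h
    have h1 : d ∈ (∅ : Finset ℕ) := by rw [h]; simp
    simp at h1

private theorem fill_edge_iff {M M' : PreMap} {k : ℕ} {τ : Tri k} {cs cs' : List ℕ}
    {F F' : Finset ℕ} (f : M.Fill τ cs F) (f' : M'.Fill τ cs' F') (hF : F = ∅) : F' = ∅ := by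
  cases τ with
  | edge =>
    obtain ⟨d, -, -, h⟩ := f'
    exact h
  | new t =>
    obtain ⟨d, ds, F', -, -, -, -, -, h⟩ := f
    rw [hF] at h
    have h1 : d ∈ (∅ : Finset ℕ) := by rw [h]; simp
    simp at h1
  | split t₁ t₂ =>
    obtain ⟨d, ds₁, ds₂, F₁, F₂, -, -, -, -, -, -, -, h⟩ := f
    rw [hF] at h
    have h1 : d ∈ (∅ : Finset ℕ) := by rw [h]; simp
    simp at h1

private theorem deg_first {M : PreMap} (h : M.IsHPT) {ds : List ℕ} {a : ℕ} (ha : a ∈ M.D)
    (hds : ∀ x ∈ ds, x ∈ M.D) (he : ∃ y, ds ++ [M.inv a] = [y, M.inv y]) : ds = [a] := by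
  obtain ⟨y, hy⟩ := he
  rcases ds with _ | ⟨x, ds⟩
  · simp at hy
  · rcases ds with _ | ⟨z, ds⟩
    · simp only [List.cons_append, List.nil_append, List.cons.injEq, and_true] at hy
      obtain ⟨rfl, h2⟩ := hy
      have h3 := congrArg M.inv h2
      rw [h.inv_inv _ ha, h.inv_inv _ (hds x (by simp))] at h3
      rw [h3]
    · simp at hy

private theorem deg_second {M : PreMap} (h : M.IsHPT) {ds : List ℕ} {b : ℕ} (hb : b ∈ M.D)
    (he : ∃ y, M.inv b :: ds = [y, M.inv y]) : ds = [b] := by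
  obtain ⟨y, hy⟩ := he
  simp only [List.cons.injEq] at hy
  obtain ⟨rfl, h2⟩ := hy
  rw [h2, h.inv_inv _ hb]

private theorem iso_aux {M M' : PreMap} (h : M.IsHPT) (h' : M'.IsHPT) {k : ℕ} (τ : Tri k) :
    ∀ {cs cs' : List ℕ} {F F' : Finset ℕ}, Poly M cs → Poly M' cs' → M.Fill τ cs F →
    M'.Fill τ cs' F' → ∃ R : ℕ → ℕ → Prop, Half M M' cs cs' F R ∧
      Half M' M cs' cs F' (fun x y => R y x) := by
  induction τ with
  | edge =>
    intro cs cs' F F' P P' f f'
    obtain ⟨d, -, -, rfl⟩ := f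
    obtain ⟨d', -, -, rfl⟩ := f'
    refine ⟨fun _ _ => False, ⟨?_, ?_, ?_, ?_, ?_, ?_⟩, ⟨?_, ?_, ?_, ?_, ?_, ?_⟩⟩ <;> simp
  | new t ih =>
    intro cs cs' F F' P P' f f'
    have B := fill_bounds h P f
    have B' := fill_bounds h' P' f'
    obtain ⟨d, ds, F₀, rfl, hd, hw, f₀, hd0, hF⟩ := f
    obtain ⟨d', ds', F₀', rfl, hd', hw', f₀', hd0', hF'⟩ := f'
    have hdF : d ∈ F := by rw [hF]; simp
    have hdF' : d' ∈ F' := by rw [hF']; simp
    obtain ⟨P₀, -⟩ := new_bounds h P B hdF hw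
    obtain ⟨P₀', -⟩ := new_bounds h' P' B' hdF' hw'
    obtain ⟨R, H, H'⟩ := ih P₀ P₀' f₀ f₀'
    refine ⟨ext R d (M.fc d) (M.fc (M.fc d)) d' (M'.fc d') (M'.fc (M'.fc d')),
      new_half h h' P hd hd' hw B (fill_closed h f₀) hF hd0 H, ?_⟩
    rw [ext_flip]
    exact new_half h' h P' hd' hd hw' B' (fill_closed h' f₀') hF' hd0' H'
  | split t₁ t₂ ih₁ ih₂ =>
    intro cs cs' F F' P P' f f'
    have B := fill_bounds h P f
    have B' := fill_bounds h' P' f'
    obtain ⟨d, ds₁, ds₂, F₁, F₂, rfl, hd, f₁, f₂, hd1, hd2, hdis, hF⟩ := f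
    obtain ⟨d', ds₁', ds₂', F₁', F₂', rfl, hd', f₁', f₂', hd1', hd2', hdis', hF'⟩ := f'
    have l1 := fill_length f₁
    have l2 := fill_length f₂
    have l1' := fill_length f₁'
    have l2' := fill_length f₂'
    simp only [List.length_append, List.length_cons, List.length_nil] at l1 l2 l1' l2'
    have h1 : ds₁ ≠ [] := by rintro rfl; simp at l1
    have h2 : ds₂ ≠ [] := by rintro rfl; simp at l2
    have h1' : ds₁' ≠ [] := by rintro rfl; simp at l1'
    have h2' : ds₂' ≠ [] := by rintro rfl; simp at l2'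
    have ha := h.fc_inner d hd
    have hb := h.fc_inner _ ha
    have ha' := h'.fc_inner d' hd'
    have hb' := h'.fc_inner _ ha'
    have hw : ∀ e ∈ ds₂.head?, M.SameV (M.fc (M.fc d)) e := by
      intro e he
      rcases ds₂ with _ | ⟨c, rest⟩
      · exact absurd rfl h2
      · have hc : c = e := by simpa using he
        subst hc
        have hch := (fill_chain h f₂).2
        rw [List.cons_append, List.cons_append, List.isChain_cons_cons,
          h.inv_inv _ hb.1] at hch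
        exact hch.1
    have hw' : ∀ e ∈ ds₂'.head?, M'.SameV (M'.fc (M'.fc d')) e := by
      intro e he
      rcases ds₂' with _ | ⟨c, rest⟩
      · exact absurd rfl h2'
      · have hc : c = e := by simpa using he
        subst hc
        have hch := (fill_chain h' f₂').2
        rw [List.cons_append, List.cons_append, List.isChain_cons_cons,
          h'.inv_inv _ hb'.1] at hch
        exact hch.1
    obtain ⟨P₁, P₂⟩ := split_poly h P hd h1 h2 hw
    obtain ⟨P₁', P₂'⟩ := split_poly h' P' hd' h1' h2' hw'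
    have B₁ := fill_bounds h P₁ f₁
    have B₂ := fill_bounds h P₂ f₂
    have B₁' := fill_bounds h' P₁' f₁'
    have B₂' := fill_bounds h' P₂' f₂'
    obtain ⟨R₁, H₁, H₁'⟩ := ih₁ P₁ P₁' f₁ f₁'
    obtain ⟨R₂, H₂, H₂'⟩ := ih₂ P₂ P₂' f₂ f₂'
    have m1 : ∀ x ∈ ds₁, x ∈ M.D := fun x hx => P.2.1 x (by simp [hx])
    have m1' : ∀ x ∈ ds₁', x ∈ M'.D := fun x hx => P'.2.1 x (by simp [hx])
    have e1 : F₁ = ∅ → ds₁ = [M.fc d] ∧ ds₁' = [M'.fc d'] := fun e =>
      ⟨deg_first h ha.1 m1 (fill_empty f₁ e),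
        deg_first h' ha'.1 m1' (fill_empty f₁' (fill_edge_iff f₁ f₁' e))⟩
    have e2 : F₂ = ∅ → ds₂ = [M.fc (M.fc d)] ∧ ds₂' = [M'.fc (M'.fc d')] := fun e =>
      ⟨deg_second h hb.1 (fill_empty f₂ e),
        deg_second h' hb'.1 (fill_empty f₂' (fill_edge_iff f₂ f₂' e))⟩
    have e1' : F₁' = ∅ → ds₁' = [M'.fc d'] ∧ ds₁ = [M.fc d] := fun e =>
      (e1 (fill_edge_iff f₁' f₁ e)).symm
    have e2' : F₂' = ∅ → ds₂' = [M'.fc (M'.fc d')] ∧ ds₂ = [M.fc (M.fc d)] := fun e =>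
      (e2 (fill_edge_iff f₂' f₂ e)).symm
    refine ⟨ext (fun x x' => R₁ x x' ∨ R₂ x x') d (M.fc d) (M.fc (M.fc d)) d' (M'.fc d')
      (M'.fc (M'.fc d')), split_half h h' P hd hd' B P₁ P₂ B₁ B₂ hF hd1 hd2 hdis (by omega)
        h1 h2 e1 e2 H₁ H₂, ?_⟩
    rw [ext_flip]
    exact split_half h' h P' hd' hd B' P₁' P₂' B₁' B₂' hF' hd1' hd2' hdis' (by omega)
      h1' h2' e1' e2' H₁' H₂'

theorem fill_iso {M M' : PreMap} (h : M.IsHPT) (h' : M'.IsHPT) {k : ℕ} (τ : Tri k)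
    {cs cs' : List ℕ} {F F' : Finset ℕ} (P : Poly M cs) (P' : Poly M' cs')
    (f : M.Fill τ cs F) (f' : M'.Fill τ cs' F') :
    ∃ φ ψ : ℕ → ℕ,
      (∀ e ∈ F, φ e ∈ F' ∧ ψ (φ e) = e ∧ φ (M.fc e) = M'.fc (φ e) ∧
        (M.inv e ∈ F → φ (M.inv e) = M'.inv (φ e))) ∧
      (∀ e ∈ F', ψ e ∈ F ∧ φ (ψ e) = e ∧ (M'.inv e ∈ F' → ψ (M'.inv e) = M.inv (ψ e))) ∧
      (∀ i < k + 1, (cs.getD i 0 ∈ F ↔ cs'.getD i 0 ∈ F') ∧
        (cs.getD i 0 ∈ F → φ (cs.getD i 0) = cs'.getD i 0)) := by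
  classical
  obtain ⟨R, H, H'⟩ := iso_aux h h' τ P P' f f'
  let φ : ℕ → ℕ := fun x => if hx : ∃ x', R x x' then hx.choose else 0
  let ψ : ℕ → ℕ := fun x' => if hx : ∃ x, R x x' then hx.choose else 0
  have hφ : ∀ x ∈ F, R x (φ x) := fun x hx => by
    have := H.ex x hx
    simp only [φ, dif_pos this]
    exact this.choose_spec
  have hψ : ∀ x ∈ F', R (ψ x) x := fun x hx => by
    have := H'.ex x hx
    simp only [ψ, dif_pos this]
    exact this.choose_spec
  have hφ2 : ∀ x x', R x x' → φ x = x' := fun x x' hx => H.uniq _ _ _ (hφ x (H.mem _ _ hx)) hx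
  have hψ2 : ∀ x x', R x x' → ψ x' = x := fun x x' hx =>
    H'.uniq _ _ _ (hψ x' (H'.mem _ _ hx)) hx
  have hl := fill_length f
  have hl' := fill_length f'
  refine ⟨φ, ψ, ?_, ?_, ?_⟩
  · intro e he
    have h1 := hφ e he
    exact ⟨H'.mem _ _ h1, hψ2 _ _ h1, hφ2 _ _ (H.fc _ _ h1), fun hi => hφ2 _ _ (H.inv _ _ h1 hi)⟩
  · intro e he
    have h1 := hψ e he
    exact ⟨H.mem _ _ h1, hφ2 _ _ h1, fun hi => hψ2 _ _ (H'.inv _ _ h1 hi)⟩
  · intro i hi
    refine ⟨⟨fun hm => H'.mem _ _ (H.bd i (by omega) hm), fun hm =>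
      H.mem _ _ (H'.bd i (by omega) hm)⟩, fun hm => hφ2 _ _ (H.bd i (by omega) hm)⟩

end Pool.Agent.Spd
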