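import Mathlib

/-!
# SPD I07: sums over lists

`∑ over lists of the products = ∑_n (∑ f)^n` in `[0, ∞]`.

Proof: `List α` is the disjoint union over `n` of the lists of length `n`; the sum over the lists of
length `n` is `(∑' a, f a)^n` by induction (`ENNReal.tsum_mul_left`, `ENNReal.tsum_mul_right`,
`ENNReal.tsum_prod`, the equivalence `α × (lists of length n) ≃ (lists of length n + 1)`), e.g. with
`Fin n → α`, `List.Vector α n`, or the sum over all lists of
`if l.length = n then (l.map f).prod else 0` with the equivalence `List α ≃ Unit ⊕ (α × List α)`.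
Then `ENNReal.tsum_comm`.
-/

namespace Pool.Agent.Spd

private def consEquiv (α : Type*) (n : ℕ) :
    α × {l : List α // l.length = n} ≃ {l : List α // l.length = n + 1} where
  toFun p := ⟨p.1 :: p.2.1, by rw [List.length_cons, p.2.2]⟩
  invFun l := (l.1.head (by
    intro h
    have h1 := l.2
    rw [h] at h1
    exact absurd h1 (by simp)), ⟨l.1.tail, by rw [List.length_tail, l.2]; rfl⟩)
  left_inv p := rfl
  right_inv l := Subtype.ext (List.cons_head_tail _)

private theorem tsum_length {α : Type*} (f : α → ENNReal) (n : ℕ) :
    ∑' l : {l : List α // l.length = n}, (l.1.map f).prod = (∑' a, f a) ^ n := by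
  induction n with
  | zero =>
    have h : ∀ l : {l : List α // l.length = 0}, (l.1.map f).prod = 1 := by
      intro l
      rw [List.length_eq_zero_iff.1 l.2]
      simp
    rw [tsum_congr h, pow_zero]
    rw [tsum_eq_single (⟨[], rfl⟩ : {l : List α // l.length = 0})]
    intro l hl
    exact absurd (Subtype.ext (List.length_eq_zero_iff.1 l.2)) hl
  | succ n ih =>
    rw [← (consEquiv α n).tsum_eq, ENNReal.tsum_prod']
    have h : ∀ a : α, ∑' l : {l : List α // l.length = n},
        ((consEquiv α n (a, l)).1.map f).prod = f a * (∑' a, f a) ^ n := by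
      intro a
      rw [← ih, ← ENNReal.tsum_mul_left]
      refine tsum_congr fun l => ?_
      show ((a :: l.1).map f).prod = _
      rw [List.map_cons, List.prod_cons]
    rw [tsum_congr h, ENNReal.tsum_mul_right, pow_succ']

theorem tsum_lists {α : Type*} (f : α → ENNReal) :
    ∑' l : List α, (l.map f).prod = ∑' n : ℕ, (∑' a, f a) ^ n := by
  rw [← (Equiv.sigmaFiberEquiv (List.length : List α → ℕ)).tsum_eq, ENNReal.tsum_sigma']
  exact tsum_congr fun n => tsum_length f n

theorem tsum_lists_lt_top {α : Type*} (f : α → ENNReal) (h : ∑' a, f a < 1) :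
    ∑' l : List α, (l.map f).prod < ⊤ := by
  rw [tsum_lists, ENNReal.tsum_geometric, ENNReal.inv_lt_top]
  exact tsub_pos_of_lt h

end Pool.Agent.Spd
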