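import Pool.Agent.Spd.W03

/-!
# SPD W04: commutation, right hole whose first triangle has a new vertex

Claim: `H.step = R (k+1) (new t)` iff (`(H.shift 1).step = N` and, with `G = (H.shift 1).rem`,
`G' = G.shift (-1)`, `G'.step = R (k+2) t`).

Notation: `r = bd 0`, `a = fc r`, `b = fc a`, `d = bd 1`, `a' = fc d`, `b' = fc a'`, `K = k + 1`,
`cs = holeR H.M K = d :: ds`, `ds = [bd 2, ..., bd K, inv a]`.  The line of `G` (`step_N`, `lineN`) is: index `-1`: `r`,
`0`: `inv b'`, `1`: `inv a'`, `m ≥ 2`: `bd m` (in terms of `H`: `(H.shift 1).bd (m-1)`).  So the line of `G'` is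
`0: r`, `1: inv b'`, `2: inv a'`, `j ≥ 3: bd (j - 1)`, and `holeR G'.M (k+2) = inv b' :: inv a' :: ds` (the root
triangle of `G'` is `r, a, b`: `root_same`).

(⇒) By `step_eq_R_iff`: `SameV (bd (K+1)) b` and `Fill (new t) cs F`, which gives: `b'` is not at an origin of `cs`,
`Fill t (inv b' :: inv a' :: ds) F'`, `d ∉ F'`, `F = {d, a', b'} ∪ F'`.  `(H.shift 1).step = N` (`step_eq_N_iff`): let
`SameV (bd i) b'`.  `1 ≤ i ≤ K`: `bd i ∈ cs`.  `i = K + 1`: `bd (K+1) ~ b ~ inv a ∈ cs` (`tgt`).  Other `i`: `b' ∈ F`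
contradicts `hole_vertex_R` (`Bounds` from `fill_bounds`, `holeR_poly`).
`G'.step = R (k+2) t` (`step_eq_R_iff`): `G'.bd (k+3) = bd (K+1) ~ b` in `H`, hence in `G'` (`Sub.sameV`); the filling:
`fill_sub` (`F'` consists of inner darts of `H` different from `d, a', b'`: `d ∉ F'` and `F'` is
`fc`-invariant; `step_N` describes the inner darts of `G`; the darts of the list are darts of `G`).
(⇐) `step_R` for `G'` gives `SameV` and `Fill t (holeR ..) F'` in `G'`, transfer to `H` by `Sub.sameV`, `fill_sub`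
(`F'` is inner in `G'`: `step_R`/`Bounds`); `b'` is not at an origin of `cs`: for `bd i` by `step_N`, for `inv a ~ b ~
bd (K+1)` also; `d ∉ F'` as `d` is not inner in `G`.  So `Fill (new t) cs ({d,a',b'} ∪ F')`, and `step_eq_R_iff`.
-/

namespace Pool.Agent.Spd

namespace HPT

private theorem w04_index {M : PreMap} (h : M.IsHPT) {i j : ℤ} {x : ℕ}
    (hi : M.SameV (M.bd i) x) (hj : M.SameV (M.bd j) x) : i = j :=
  h.simple i j (h.sameV_trans hi (h.sameV_symm (h.bd_mem j) hj))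

private theorem w04_hole (M : PreMap) (k : ℕ) : holeR M (k + 1) = M.bd 1 ::
    ((List.range k).map (fun j : ℕ => M.bd (j + 2)) ++ [M.inv (M.fc (M.bd 0))]) := by
  unfold holeR
  rw [List.range_succ_eq_map, List.map_cons, List.map_map, List.cons_append]
  congr 1

private theorem w04_hole_mem (M : PreMap) (k : ℕ) {z : ℕ} (hz : z ∈ holeR M k) :
    (∃ j : ℕ, j < k ∧ z = M.bd (j + 1)) ∨ z = M.inv (M.fc (M.bd 0)) := by
  unfold holeR at hz
  rcases List.mem_append.1 hz with hz | hz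
  · obtain ⟨j, hj, rfl⟩ := List.mem_map.1 hz
    exact Or.inl ⟨j, List.mem_range.1 hj, rfl⟩
  · exact Or.inr (List.mem_singleton.1 hz)

private theorem w04_mem_hole (M : PreMap) (k : ℕ) {j : ℕ} (hj : j < k) :
    M.bd (j + 1) ∈ holeR M k := by
  unfold holeR
  exact List.mem_append_left _ (List.mem_map.2 ⟨j, List.mem_range.2 hj, rfl⟩)

private theorem w04_mem_hole' (M : PreMap) (k : ℕ) : M.inv (M.fc (M.bd 0)) ∈ holeR M k := by
  unfold holeR
  exact List.mem_append_right _ (List.mem_singleton.2 rfl)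

theorem comm_new_R (H : HPT) (k : ℕ) (t : Tri (k + 2)) : H.step = .R (k + 1) (.new t) ↔
    (H.shift 1).step = .N ∧ ((H.shift 1).rem.shift (-1)).step = .R (k + 2) t := by
  have h := H.ok
  have h0 := h.bd_inner 0
  have h1 := h.bd_inner 1
  have ha := h.fc_inner _ h0
  have hb := h.fc_inner _ ha
  have ha' := h.fc_inner _ h1
  have hb' := h.fc_inner _ ha'
  have hN : (H.shift 1).step = .N ↔
      ∀ i, ¬ H.M.SameV (H.M.bd i) (H.M.fc (H.M.fc (H.M.bd 1))) := by
    rw [step_eq_N_iff]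
    constructor
    · intro h2 i h3
      refine h2 (i - 1) ?_
      change H.M.SameV (H.M.bd (i - 1 + 1)) (H.M.fc (H.M.fc (H.M.bd (0 + 1))))
      rw [sub_add_cancel, zero_add]
      exact h3
    · intro h2 i h3
      refine h2 (i + 1) ?_
      change H.M.SameV (H.M.bd (i + 1)) (H.M.fc (H.M.fc (H.M.bd (0 + 1)))) at h3
      rw [zero_add] at h3
      exact h3
  have S : Sub ((H.shift 1).rem.shift (-1)) H := by
    have S1 := (rem_sub (H.shift 1)).shift' (-1)
    rw [shift_shift] at S1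
    norm_num at S1
    rw [shift_zero] at S1
    exact S1.shift (-1)
  -- the structure of the second map
  have key : (H.shift 1).step = .N →
      (∀ e, ((H.shift 1).rem.shift (-1)).M.Inner e ↔ H.M.Inner e ∧ e ≠ H.M.bd 1 ∧
        e ≠ H.M.fc (H.M.bd 1) ∧ e ≠ H.M.fc (H.M.fc (H.M.bd 1))) ∧
      ((H.shift 1).rem.shift (-1)).M.bd 0 = H.M.bd 0 ∧
      ((H.shift 1).rem.shift (-1)).M.bd 1 = H.M.inv (H.M.fc (H.M.fc (H.M.bd 1))) ∧
      ((H.shift 1).rem.shift (-1)).M.bd 2 = H.M.inv (H.M.fc (H.M.bd 1)) ∧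
      ∀ j : ℤ, 3 ≤ j → ((H.shift 1).rem.shift (-1)).M.bd j = H.M.bd (j - 1) := by
    intro hs
    obtain ⟨-, hI, hL⟩ := step_N _ hs
    refine ⟨?_, ?_, ?_, ?_, ?_⟩
    · intro e
      rw [shift_inner, hI, shift_inner]
      exact Iff.rfl
    · rw [shift_bd, hL]
      rfl
    · rw [shift_bd, hL]
      rfl
    · rw [shift_bd, hL]
      rfl
    · intro j hj
      rw [shift_bd, hL]
      unfold lineN
      rw [if_neg (by omega), if_neg (by omega), if_neg (by omega), shift_bd]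
      congr 1
      ring
  have hole : (H.shift 1).step = .N → holeR ((H.shift 1).rem.shift (-1)).M (k + 2) =
      H.M.inv (H.M.fc (H.M.fc (H.M.bd 1))) :: H.M.inv (H.M.fc (H.M.bd 1)) ::
        ((List.range k).map (fun j : ℕ => H.M.bd (j + 2)) ++ [H.M.inv (H.M.fc (H.M.bd 0))]) := by
    intro hs
    obtain ⟨-, g0, g1, g2, g3⟩ := key hs
    rw [w04_hole, g1, List.range_succ_eq_map, List.map_cons, List.map_map, List.cons_append]
    congr 1
    have e0 : ((0 : ℕ) : ℤ) + 2 = 2 := by norm_num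
    rw [e0, g2]
    congr 1
    rw [(root_same S g0).1, S.inv_eq]
    congr 1
    refine List.map_congr_left fun j _ => ?_
    simp only [Function.comp]
    rw [g3 _ (by push_cast; omega)]
    congr 1
    push_cast
    ring
  have hcs : ∀ z ∈ holeR ((H.shift 1).rem.shift (-1)).M (k + 2),
      z ∈ ((H.shift 1).rem.shift (-1)).M.D := by
    intro z hz
    rcases w04_hole_mem _ _ hz with ⟨j, -, rfl⟩ | rfl
    · exact (HPT.ok _).bd_mem _
    · exact (HPT.ok _).inv_mem _ ((HPT.ok _).fc_mem ((HPT.ok _).bd_mem 0))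
  constructor
  · intro hs
    obtain ⟨hw, F, hF, B, -, -⟩ := step_R _ hs
    have hFu := hF
    obtain ⟨d, ds, F', hcs', hd, hV, hF', hdF, hFF⟩ := hFu
    rw [w04_hole] at hcs'
    obtain ⟨rfl, rfl⟩ := List.cons_eq_cons.1 hcs'
    have hbF : H.M.fc (H.M.fc (H.M.bd 1)) ∈ F := by
      rw [hFF]
      simp
    have hNs : (H.shift 1).step = .N := by
      rw [hN]
      intro i hi
      by_cases h2 : i ≤ 0 ∨ ((k + 1 : ℕ) : ℤ) + 2 ≤ i
      · exact hole_vertex_R H (Nat.succ_pos k) hw B h2 hbF hi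
      · by_cases h3 : i = ((k + 1 : ℕ) : ℤ) + 1
        · subst h3
          have h4 := h.tgt ha.1
          refine hV _ (w04_mem_hole' _ _) ?_
          exact h.sameV_trans h4 (h.sameV_trans (h.sameV_symm (h.bd_mem _) hw) hi)
        · obtain ⟨j, hj, rfl⟩ : ∃ j : ℕ, j < k + 1 ∧ i = (j : ℤ) + 1 :=
            ⟨(i - 1).toNat, by omega, by omega⟩
          exact hV _ (w04_mem_hole _ _ hj) hi
    refine ⟨hNs, ?_⟩
    obtain ⟨gI, g0, g1, g2, g3⟩ := key hNs
    rw [step_eq_R_iff]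
    have hr := root_same S g0
    refine ⟨?_, F', ?_⟩
    · rw [S.sameV ((HPT.ok _).bd_mem _)]
      refine ⟨?_, (HPT.ok _).fc_mem ((HPT.ok _).fc_mem ((HPT.ok _).bd_mem 0))⟩
      rw [hr.2, g3 _ (by push_cast; omega)]
      have e1 : ((k + 2 : ℕ) : ℤ) + 1 - 1 = ((k + 1 : ℕ) : ℤ) + 1 := by push_cast; ring
      rw [e1]
      exact hw
    · have hcl := fill_closed h hF'
      refine (fill_sub S t _ F' hcs ?_).2 ?_
      · intro x hx
        refine (gI x).2 ⟨(hcl x hx).1, ?_, ?_, ?_⟩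
        · rintro rfl
          exact hdF hx
        · rintro rfl
          have h5 := (hcl _ (hcl _ hx).2).2
          rw [h.fc_tri _ h1] at h5
          exact hdF h5
        · rintro rfl
          have h5 := (hcl _ hx).2
          rw [h.fc_tri _ h1] at h5
          exact hdF h5
      · rw [hole hNs]
        exact hF'
  · rintro ⟨hNs, hs⟩
    obtain ⟨gI, g0, g1, g2, g3⟩ := key hNs
    obtain ⟨hw, F', hF', B, -, -⟩ := step_R _ hs
    have hr := root_same S g0
    have hw2 : H.M.SameV (H.M.bd (((k + 1 : ℕ) : ℤ) + 1)) (H.M.fc (H.M.fc (H.M.bd 0))) := by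
      have h2 := ((S.sameV ((HPT.ok _).bd_mem _) _).1 hw).1
      rw [hr.2, g3 _ (by push_cast; omega)] at h2
      have e1 : ((k + 2 : ℕ) : ℤ) + 1 - 1 = ((k + 1 : ℕ) : ℤ) + 1 := by push_cast; ring
      rw [e1] at h2
      exact h2
    have hNv := hN.1 hNs
    rw [step_eq_R_iff]
    refine ⟨hw2, {H.M.bd 1, H.M.fc (H.M.bd 1), H.M.fc (H.M.fc (H.M.bd 1))} ∪ F', ?_⟩
    refine ⟨H.M.bd 1, _, F', w04_hole _ _, h1, ?_, ?_, ?_, rfl⟩
    · intro e he h2
      rcases w04_hole_mem _ _ he with ⟨j, -, rfl⟩ | rfl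
      · exact hNv _ h2
      · refine hNv _ (h.sameV_trans (h.sameV_trans hw2 ?_) h2)
        exact h.sameV_symm (h.inv_mem _ ha.1) (h.tgt ha.1)
    · rw [← hole hNs]
      exact (fill_sub S t _ F' hcs (fun x hx => (B.1 x hx).1)).1 hF'
    · intro h2
      exact ((gI _).1 (B.1 _ h2).1).2.1 rfl

end HPT

end Pool.Agent.Spd
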