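import Pool.Agent.Spd.W03

/-!
# SPD W05: commutation, right hole whose first triangle splits it

Claim: `H.step = R (i+j+2) (split t₁ t₂)` iff (`(H.shift 1).step = R (i+1) t₁` and, with
`G = (H.shift 1).rem`, `G' = G.shift (-1)`, `G'.step = R (j+1) t₂`).

Notation: `r = bd 0`, `a = fc r`, `b = fc a`, `d = bd 1`, `a' = fc d`, `b' = fc a'`, `K = i + j
+ 2`,
`cs = holeR H.M K = d :: (ds₁ ++ ds₂)`, `ds₁ = [bd 2, ..., bd (i+2)]`,
`ds₂ = [bd (i+3), ..., bd K, inv a]` (lengths
`i + 1`, `j + 1`; the decomposition in `Fill` has these lengths by `fill_length`).  `holeR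
(H.shift 1).M (i+1) =
ds₁ ++ [inv a']`.  The line of `G` (`step_R`, `lineR`): index `-1`: `r`, `0`: `inv b'`, `m ≥ 1`:
`bd (m + i + 2)`.  So
`G'`: `0: r`, `1: inv b'`, `m ≥ 2: bd (m + i + 1)`, and `holeR G'.M (j+1) = inv b' :: ds₂`
(root triangle of `G'`: `root_same`).

(⇒) `Fill (split t₁ t₂) cs F` gives `Fill t₁ (ds₁ ++ [inv a']) F₁`, `Fill t₂ (inv b' :: ds₂)
F₂`, `d ∉ F₁, F₂`,
`F₁, F₂` disjoint.  `(H.shift 1).step = R (i+1) t₁` (`step_eq_R_iff`): `b'` (`= inv (inv b')`)
has the origin of the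
first dart of `ds₂` (`fill_chain`), which is `bd (i+3)` or, if `j = 0`, `inv a ~ b ~ bd (K+1) =
bd (i+3)`.
`G'.step = R (j+1) t₂`: `G'.bd (j+2) = bd (K+1) ~ b`; `fill_sub` for `F₂` (inner darts of `G` by
`step_R`, where the
set there is `F₁` by `fill_unique`: `F₂` avoids `F₁` and `d, a', b'`).
(⇐) `step_R` twice; `F₂` is inner in `G`, so it avoids `F₁, d, a', b'`; `d ∉ F₁` by `hole_disj` (or
`Bounds`); then `Fill (split t₁ t₂) cs _` and `step_eq_R_iff` (`SameV (bd (K+1)) b` from `G'`).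
-/

namespace Pool.Agent.Spd

namespace HPT

/-- First part of the hole. -/
private def dsA (M : PreMap) (i : ℕ) : List ℕ :=
  (List.range (i + 1)).map (fun m : ℕ => M.bd (m + 2))

/-- Second part of the hole. -/
private def dsB (M : PreMap) (i j : ℕ) : List ℕ :=
  (List.range j).map (fun m : ℕ => M.bd (m + i + 3)) ++ [M.inv (M.fc (M.bd 0))]

private theorem range_split (i j : ℕ) : List.range (i + j + 2) =
    0 :: ((List.range (i + 1)).map (fun m => m + 1) ++
      (List.range j).map (fun m => m + i + 2)) := by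
  rw [show i + j + 2 = 1 + ((i + 1) + j) by omega, List.range_add, List.range_add,
    List.map_append, List.map_map]
  change [0] ++ _ = [0] ++ _
  congr 1
  congr 1
  · refine List.map_congr_left fun m _ => ?_
    omega
  · refine List.map_congr_left fun m _ => ?_
    simp only [Function.comp]
    omega

private theorem holeR_split (M : PreMap) (i j : ℕ) :
    holeR M (i + j + 2) = M.bd 1 :: (dsA M i ++ dsB M i j) := by
  unfold holeR dsA dsB
  rw [range_split, List.map_cons, List.map_append, List.map_map, List.map_map,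
    List.cons_append, List.append_assoc]
  have e0 : M.bd (((0 : ℕ) : ℤ) + 1) = M.bd 1 := by
    rw [Nat.cast_zero, zero_add]
  rw [e0]
  have e1 : List.map ((fun j_1 : ℕ => M.bd ((j_1 : ℤ) + 1)) ∘ fun m => m + 1)
      (List.range (i + 1)) = (List.range (i + 1)).map (fun m : ℕ => M.bd (m + 2)) := by
    refine List.map_congr_left fun m _ => ?_
    simp only [Function.comp]
    congr 1
  have e2 : List.map ((fun j_1 : ℕ => M.bd ((j_1 : ℤ) + 1)) ∘
      fun m => m + i + 2) (List.range j) = (List.range j).map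
        (fun m : ℕ => M.bd (m + i + 3)) := by
    refine List.map_congr_left fun m _ => ?_
    simp only [Function.comp]
    congr 1
  rw [e1, e2]

private theorem holeR_shift (H : HPT) (i : ℕ) :
    holeR (H.shift 1).M (i + 1) = dsA H.M i ++ [H.M.inv (H.M.fc (H.M.bd 1))] := by
  unfold holeR dsA
  have e1 : List.map (fun j : ℕ => (H.shift 1).M.bd (j + 1)) (List.range (i + 1)) =
      (List.range (i + 1)).map (fun m : ℕ => H.M.bd (m + 2)) := by
    refine List.map_congr_left fun m _ => ?_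
    change H.M.bd ((m : ℤ) + 1 + 1) = _
    congr 1
  have e2 : (H.shift 1).M.bd 0 = H.M.bd 1 := by
    change H.M.bd (0 + 1) = _
    rw [zero_add]
  rw [e1, e2]
  rfl

private theorem bd_map_length (M : PreMap) (i : ℕ) : (dsA M i).length = i + 1 := by
  unfold dsA
  simp

/-- The first dart of the second part has the origin of the vertex number `i + 3`. -/
private theorem head_dsB (M : PreMap) (h : M.IsHPT) (i j : ℕ)
    (hw : M.SameV (M.bd (((i + j + 2 : ℕ) : ℤ) + 1)) (M.fc (M.fc (M.bd 0)))) :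
    ∃ e l, dsB M i j = e :: l ∧ e ∈ M.D ∧ M.SameV e (M.bd (i + 3)) := by
  unfold dsB
  cases j with
  | zero =>
    have ha := h.fc_inner _ (h.bd_inner 0)
    refine ⟨_, [], rfl, h.inv_mem _ ha.1, ?_⟩
    have h1 := h.tgt ha.1
    have h2 : ((i + 0 + 2 : ℕ) : ℤ) + 1 = (i : ℤ) + 3 := by push_cast; ring
    rw [h2] at hw
    exact h.sameV_trans h1 (h.sameV_symm (h.bd_mem _) hw)
  | succ j =>
    rw [List.range_succ_eq_map, List.map_cons, List.cons_append]
    refine ⟨_, _, rfl, h.bd_mem _, ?_⟩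
    have h2 : ((0 : ℕ) : ℤ) + i + 3 = (i : ℤ) + 3 := by push_cast; ring
    rw [h2]
    exact h.sameV_refl _

private theorem fill_shift (H : HPT) (k : ℤ) {n : ℕ} (τ : Tri n) (cs : List ℕ) (F : Finset ℕ) :
    (H.shift k).M.Fill τ cs F ↔ H.M.Fill τ cs F := by
  have S₁ : Sub (H.shift k) H := (Sub.refl H).shift k
  constructor
  · intro f
    exact (fill_sub S₁ τ cs F (fill_chain (H.shift k).ok f).1
      (fun x hx => (fill_closed (H.shift k).ok f x hx).1)).1 f
  · intro f
    exact (fill_sub S₁ τ cs F (fill_chain H.ok f).1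
      (fun x hx => (shift_inner H k x).2 (fill_closed H.ok f x hx).1)).2 f

/-- The hole of the second peeling. -/
private theorem holeR_shift' (H G : HPT) (i j : ℕ) (S' : Sub (G.shift (-1)) H)
    (hbd : G.M.bd = lineR (H.shift 1).M (i + 1)) :
    (G.shift (-1)).M.bd 0 = H.M.bd 0 ∧
    (G.shift (-1)).M.bd (((j + 1 : ℕ) : ℤ) + 1) = H.M.bd (((i + j + 2 : ℕ) : ℤ) + 1) ∧
    holeR (G.shift (-1)).M (j + 1) =
      H.M.inv (H.M.fc (H.M.fc (H.M.bd 1))) :: dsB H.M i j := by
  have hb : ∀ m : ℤ, (G.shift (-1)).M.bd m = lineR (H.shift 1).M (i + 1) (m + -1) := by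
    intro m
    rw [← hbd]
    rfl
  have hpos : ∀ m : ℤ, 0 < m → lineR (H.shift 1).M (i + 1) m =
      H.M.bd (m + ((i + 1 : ℕ) : ℤ) + 1) := by
    intro m hm
    unfold lineR
    rw [if_neg (by omega), if_neg (by omega)]
    rfl
  have hzero : lineR (H.shift 1).M (i + 1) 0 = H.M.inv (H.M.fc (H.M.fc (H.M.bd 1))) := by
    unfold lineR
    rw [if_neg (lt_irrefl _), if_pos rfl]
    change H.M.inv (H.M.fc (H.M.fc (H.M.bd (0 + 1)))) = _
    rw [zero_add]
  have hneg : lineR (H.shift 1).M (i + 1) (-1) = H.M.bd 0 := by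
    unfold lineR
    rw [if_pos (by norm_num)]
    change H.M.bd (-1 + 1) = _
    congr 1
  have h0 : (G.shift (-1)).M.bd 0 = H.M.bd 0 := by
    rw [hb, zero_add, hneg]
  refine ⟨h0, ?_, ?_⟩
  · rw [hb, hpos _ (by omega)]
    congr 1
    push_cast
    ring
  · have hr := root_same S' h0
    unfold holeR dsB
    rw [hr.1, List.range_succ_eq_map, List.map_cons, List.map_map, List.cons_append]
    have e0 : (G.shift (-1)).M.bd (((0 : ℕ) : ℤ) + 1) =
        H.M.inv (H.M.fc (H.M.fc (H.M.bd 1))) := by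
      rw [hb]
      have : ((0 : ℕ) : ℤ) + 1 + -1 = 0 := by omega
      rw [this, hzero]
    rw [e0]
    have e1 : List.map ((fun j_1 : ℕ => (G.shift (-1)).M.bd ((j_1 : ℤ) + 1)) ∘ Nat.succ)
        (List.range j) = (List.range j).map (fun m : ℕ => H.M.bd (m + i + 3)) := by
      refine List.map_congr_left fun m _ => ?_
      simp only [Function.comp]
      rw [hb, hpos _ (by push_cast; omega)]
      congr 1
      push_cast
      ring
    rw [e1]
    have e2 : (G.shift (-1)).M.inv = H.M.inv := S'.inv_eq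
    rw [e2]

theorem comm_split_R (H : HPT) (i j : ℕ) (t₁ : Tri (i + 1)) (t₂ : Tri (j + 1)) :
    H.step = .R (i + j + 2) (.split t₁ t₂) ↔ (H.shift 1).step = .R (i + 1) t₁ ∧
      ((H.shift 1).rem.shift (-1)).step = .R (j + 1) t₂ := by
  have h := H.ok
  set H₁ : HPT := H.shift 1 with hH1
  set G : HPT := H₁.rem with hG
  set G' : HPT := G.shift (-1) with hG'
  obtain ⟨d, hd⟩ : ∃ d, d = H.M.bd 1 := ⟨_, rfl⟩
  have hdI : H.M.Inner d := by rw [hd]; exact h.bd_inner _
  have haI : H.M.Inner (H.M.fc d) := h.fc_inner _ hdI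
  have hbI : H.M.Inner (H.M.fc (H.M.fc d)) := h.fc_inner _ haI
  have htri : H.M.fc (H.M.fc (H.M.fc d)) = d := h.fc_tri _ hdI
  have hH1bd : H₁.M.bd 0 = d := by
    rw [hd]
    change H.M.bd (0 + 1) = _
    rw [zero_add]
  have S₀ : Sub G H₁ := rem_sub H₁
  have S₁ : Sub H₁ H := (Sub.refl H).shift 1
  have S : Sub G' H := (S₀.shift _).trans S₁
  have hH1I : ∀ x, H₁.M.Inner x ↔ H.M.Inner x := fun x => shift_inner H 1 x
  have hG'I : ∀ x, G'.M.Inner x ↔ G.M.Inner x := fun x => shift_inner G _ x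
  have hR : holeR H₁.M (i + 1) = dsA H.M i ++ [H.M.inv (H.M.fc d)] := by
    rw [hd]
    exact holeR_shift H i
  have hL : holeR H.M (i + j + 2) = d :: (dsA H.M i ++ dsB H.M i j) := by
    rw [hd]
    exact holeR_split H.M i j
  have hmem : ∀ x ∈ holeR G'.M (j + 1), x ∈ G'.M.D := by
    intro x hx
    unfold holeR at hx
    rcases List.mem_append.1 hx with hx | hx
    · obtain ⟨m, -, rfl⟩ := List.mem_map.1 hx
      exact G'.ok.bd_mem _
    · rw [List.mem_singleton] at hx
      rw [hx]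
      exact G'.ok.inv_mem _ (G'.ok.fc_inner _ (G'.ok.bd_inner 0)).1
  constructor
  · intro hs
    obtain ⟨hw, F, hF⟩ := (H.step_eq_R_iff _).1 hs
    obtain ⟨d', ds₁, ds₂, F₁, F₂, hcs, -, hf1, hf2, hd1, hd2, hdis, -⟩ := hF
    rw [hL] at hcs
    obtain ⟨hdd, hcs2⟩ := List.cons.inj hcs
    subst hdd
    have l1 : ds₁.length = (dsA H.M i).length := by
      have h1 := fill_length hf1
      rw [List.length_append, List.length_singleton] at h1
      rw [bd_map_length]
      omega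
    obtain ⟨e1, e2⟩ := List.append_inj hcs2 l1.symm
    subst e1
    subst e2
    have hwR : H₁.M.SameV (H₁.M.bd (((i + 1 : ℕ) : ℤ) + 1)) (H₁.M.fc (H₁.M.fc (H₁.M.bd 0))) := by
      rw [hH1bd]
      have h1 : H₁.M.bd (((i + 1 : ℕ) : ℤ) + 1) = H.M.bd (i + 3) := by
        change H.M.bd (((i + 1 : ℕ) : ℤ) + 1 + 1) = _
        have h2 : ((i + 1 : ℕ) : ℤ) + 1 + 1 = i + 3 := by
          push_cast
          ring
        rw [h2]
      rw [h1]
      change H.M.SameV (H.M.bd (i + 3)) (H.M.fc (H.M.fc d))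
      obtain ⟨e, l, he1, he2, he3⟩ := head_dsB H.M h i j hw
      have h2 := (fill_chain h hf2).2
      rw [he1, List.cons_append, List.cons_append, List.isChain_cons_cons] at h2
      have h3 := h2.1
      rw [h.inv_inv _ hbI.1] at h3
      exact h.sameV_symm hbI.1 (h.sameV_trans h3 he3)
    have hs1 : H₁.step = .R (i + 1) t₁ := by
      refine (H₁.step_eq_R_iff t₁).2 ⟨hwR, F₁, ?_⟩
      rw [hR]
      exact (fill_shift H 1 _ _ _).2 hf1
    refine ⟨hs1, ?_⟩
    obtain ⟨-, F₁', hf1', -, hin, hbd⟩ := H₁.step_R hs1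
    have hFF : F₁ = F₁' := by
      rw [hR] at hf1'
      have hP := holeR_poly H₁.ok (Nat.succ_pos i) hwR
      rw [hR] at hP
      exact (fill_unique H₁.ok hP ((fill_shift H 1 _ _ _).2 hf1) hf1').2
    subst hFF
    obtain ⟨q0, q1, q2⟩ := holeR_shift' H G i j S hbd
    have hrt := root_same S q0
    refine (G'.step_eq_R_iff t₂).2 ⟨?_, F₂, ?_⟩
    · have hm : G'.M.bd (((j + 1 : ℕ) : ℤ) + 1) ∈ G'.M.D := G'.ok.bd_mem _
      rw [S.sameV hm]
      refine ⟨?_, (G'.ok.fc_inner _ (G'.ok.fc_inner _ (G'.ok.bd_inner 0))).1⟩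
      rw [q1, hrt.2]
      exact hw
    · refine (fill_sub S t₂ _ F₂ hmem ?_).2 ?_
      · intro x hx
        have hcl := fill_closed h hf2
        rw [hG'I, hin, hH1bd]
        have hn1 : x ≠ d := by
          rintro rfl
          exact hd2 hx
        have hn3 : x ≠ H.M.fc (H.M.fc d) := by
          rintro rfl
          have := (hcl _ hx).2
          rw [htri] at this
          exact hd2 this
        have hn2 : x ≠ H.M.fc d := by
          rintro rfl
          have h1 := (hcl _ hx).2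
          have h2 := (hcl _ h1).2
          rw [htri] at h2
          exact hd2 h2
        exact ⟨(hH1I x).2 (hcl x hx).1, hn1, hn2, hn3,
          fun h1 => Finset.disjoint_left.1 hdis h1 hx⟩
      · rw [q2, ← hd]
        exact hf2
  · rintro ⟨hs1, hs2⟩
    obtain ⟨hw1, F₁, hf1, hB1, hin, hbd⟩ := H₁.step_R hs1
    obtain ⟨q0, q1, q2⟩ := holeR_shift' H G i j S hbd
    have hrt := root_same S q0
    obtain ⟨hw2, F₂, hf2, hB2, -, -⟩ := G'.step_R hs2
    have hF2 : ∀ x ∈ F₂, G'.M.Inner x := fun x hx => (hB2.1 x hx).1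
    have hf2' : H.M.Fill t₂ (H.M.inv (H.M.fc (H.M.fc d)) :: dsB H.M i j) F₂ := by
      have h1 := (fill_sub S t₂ _ F₂ hmem hF2).1 hf2
      rw [q2, ← hd] at h1
      exact h1
    have hf1' : H.M.Fill t₁ (dsA H.M i ++ [H.M.inv (H.M.fc d)]) F₁ := by
      rw [← hR]
      exact (fill_shift H 1 _ _ _).1 hf1
    have hdF1 : d ∉ F₁ := by
      have h1 := (hole_disj H₁.ok (Nat.succ_pos i) (Or.inl ⟨hw1, hB1⟩)).1
      rw [hH1bd] at h1
      exact h1
    have hF2' : ∀ x ∈ F₂, x ≠ d ∧ x ∉ F₁ := by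
      intro x hx
      have h1 := (hin x).1 ((hG'I x).1 (hF2 x hx))
      rw [hH1bd] at h1
      exact ⟨h1.2.1, h1.2.2.2.2⟩
    have hdF2 : d ∉ F₂ := fun h1 => (hF2' d h1).1 rfl
    refine (H.step_eq_R_iff _).2 ⟨?_, _, d, dsA H.M i, dsB H.M i j, F₁, F₂, hL, hdI, hf1',
      hf2', hdF1, hdF2, ?_, rfl⟩
    · have hm : G'.M.bd (((j + 1 : ℕ) : ℤ) + 1) ∈ G'.M.D := G'.ok.bd_mem _
      have h1 := ((S.sameV hm _).1 hw2).1
      rw [q1, hrt.2] at h1
      exact h1
    · rw [Finset.disjoint_left]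
      intro x hx1 hx2
      exact (hF2' x hx2).2 hx1

end HPT

end Pool.Agent.Spd
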