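import Pool.Agent.Spd.W03

/-!
# SPD W06: commutation, left hole whose first triangle has a new vertex

Claim: with `K = k + 1`: `H.step = L K (new t)` iff (`(H.shift (-K)).step = N` and, with
`G = (H.shift (-K)).rem`, `G' = G.shift (K+1)`, `G'.step = L (k+2) t`).

Notation: `r = bd 0`, `a = fc r`, `b = fc a`, `d = bd (-K)`, `a' = fc d`, `b' = fc a'`,
`cs = holeL H.M K = d :: ds`, `ds = [bd (1-K), ..., bd (-1), inv b]`.  The line of `G`
(`step_N`, `lineN`): `0: inv b'`, `1: inv a'`, `m ≥ 2: bd (m-1-K)`, `m < 0: bd (m-K)`.  So the root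
of `G'` is `G.bd (K+1) = bd 0 = r`, and
`holeL G'.M (k+2) = [G.bd 0, ..., G.bd (k+1), inv b] = inv b' :: inv a' :: ds` (root triangle of
`G'`: `root_same` for the sub-map `G'` of `H`, after a shift).

(⇒) `step_eq_L_iff`: `SameV (bd (-K)) b`, `Fill (new t) cs F` with `b'` not at an origin of `cs`,
`Fill t (inv b' :: inv a' :: ds) F'`, `d ∉ F'`, `F = {d, a', b'} ∪ F'`.
`(H.shift (-K)).step = N`: let `SameV (bd i) b'`:
`-K ≤ i ≤ -1`: `bd i ∈ cs`; `i = 0`: `bd 0 = fc b ~ inv b ∈ cs` (`tgt`); other `i`: `hole_vertex_L`.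
`G'.step = L (k+2) t`: `G'.bd (-(k+2)) = G.bd 0 = inv b' ~ fc b' = d = bd (-K) ~ b`; filling:
`fill_sub`.
(⇐) As in `W04`: `step_L` for `G'`; transfer to `H`; `SameV (bd (-K)) b` from `inv b' ~ d`; `b'` is
not at an origin of `cs` by `step_N` (`inv b ~ bd 0`).
-/

namespace Pool.Agent.Spd

namespace HPT

private theorem w06_holeL_succ (M : PreMap) (k : ℕ) :
    holeL M (k + 1) = M.bd (-((k + 1 : ℕ) : ℤ)) :: holeL M k := by
  unfold holeL
  rw [List.range_succ_eq_map, List.map_cons, List.map_map, List.cons_append]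
  refine congrArg₂ List.cons (congrArg M.bd ?_) (congrArg₂ _ ?_ rfl)
  · push_cast
    ring
  · refine List.map_congr_left fun j _ => congrArg M.bd ?_
    push_cast
    ring

private theorem w06_mem_holeL (M : PreMap) (k : ℕ) {e : ℕ} (he : e ∈ holeL M k) :
    (∃ i : ℤ, -(k : ℤ) ≤ i ∧ i < 0 ∧ e = M.bd i) ∨ e = M.inv (M.fc (M.fc (M.bd 0))) := by
  unfold holeL at he
  rcases List.mem_append.1 he with he | he
  · obtain ⟨j, hj, rfl⟩ := List.mem_map.1 he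
    rw [List.mem_range] at hj
    exact Or.inl ⟨(j : ℤ) - k, by omega, by omega, rfl⟩
  · exact Or.inr (List.mem_singleton.1 he)

private theorem w06_bd_mem_holeL (M : PreMap) (k : ℕ) {i : ℤ} (h1 : -(k : ℤ) ≤ i) (h2 : i < 0) :
    M.bd i ∈ holeL M k := by
  unfold holeL
  refine List.mem_append_left _ (List.mem_map.2 ⟨(i + k).toNat, ?_, ?_⟩)
  · rw [List.mem_range]
    omega
  · congr 1
    omega

private theorem w06_last_mem_holeL (M : PreMap) (k : ℕ) :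
    M.inv (M.fc (M.fc (M.bd 0))) ∈ holeL M k := by
  unfold holeL
  exact List.mem_append_right _ (List.mem_singleton.2 rfl)

/-- `bd 0` has the origin of `inv b`. -/
private theorem w06_inv_b {M : PreMap} (h : M.IsHPT) {i : ℤ} :
    M.SameV (M.inv (M.fc (M.fc (M.bd i)))) (M.bd i) := by
  have h1 := h.tgt (h.fc_inner _ (h.fc_inner _ (h.bd_inner i))).1
  rwa [h.fc_tri _ (h.bd_inner i)] at h1

/-- The map `G'`. -/
private theorem w06_setup (H : HPT) (k : ℕ) (hN : (H.shift (-(k + 1 : ℕ))).step = .N) :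
    Sub ((H.shift (-(k + 1 : ℕ))).rem.shift (k + 2 : ℕ)) H ∧
    ((H.shift (-(k + 1 : ℕ))).rem.shift (k + 2 : ℕ)).M.fc
      (((H.shift (-(k + 1 : ℕ))).rem.shift (k + 2 : ℕ)).M.fc
        (((H.shift (-(k + 1 : ℕ))).rem.shift (k + 2 : ℕ)).M.bd 0)) =
      H.M.fc (H.M.fc (H.M.bd 0)) ∧
    ((H.shift (-(k + 1 : ℕ))).rem.shift (k + 2 : ℕ)).M.bd (-(k + 2 : ℕ)) =
      H.M.inv (H.M.fc (H.M.fc (H.M.bd (-(k + 1 : ℕ))))) ∧
    holeL ((H.shift (-(k + 1 : ℕ))).rem.shift (k + 2 : ℕ)).M (k + 2) =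
      H.M.inv (H.M.fc (H.M.fc (H.M.bd (-(k + 1 : ℕ))))) ::
        H.M.inv (H.M.fc (H.M.bd (-(k + 1 : ℕ)))) :: holeL H.M k ∧
    (∀ x, ((H.shift (-(k + 1 : ℕ))).rem.shift (k + 2 : ℕ)).M.Inner x ↔
      H.M.Inner x ∧ x ≠ H.M.bd (-(k + 1 : ℕ)) ∧ x ≠ H.M.fc (H.M.bd (-(k + 1 : ℕ))) ∧
        x ≠ H.M.fc (H.M.fc (H.M.bd (-(k + 1 : ℕ))))) := by
  obtain ⟨-, hI, hline⟩ := step_N _ hN
  have hSub : Sub ((H.shift (-(k + 1 : ℕ))).rem.shift (k + 2 : ℕ)) H :=
    ((rem_sub _).trans ((Sub.refl H).shift _)).shift _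
  have hbd : ∀ j : ℤ, ((H.shift (-(k + 1 : ℕ))).rem.shift (k + 2 : ℕ)).M.bd j =
      lineN (H.shift (-(k + 1 : ℕ))).M (j + (k + 2 : ℕ)) := by
    intro j
    rw [shift_bd, hline]
  have hz : (0 : ℤ) + -((k + 1 : ℕ) : ℤ) = -((k + 1 : ℕ) : ℤ) := zero_add _
  have hb0 : ((H.shift (-(k + 1 : ℕ))).rem.shift (k + 2 : ℕ)).M.bd (-(k + 2 : ℕ)) =
      H.M.inv (H.M.fc (H.M.fc (H.M.bd (-(k + 1 : ℕ))))) := by
    rw [hbd, neg_add_cancel]
    change H.M.inv (H.M.fc (H.M.fc (H.M.bd (0 + -((k + 1 : ℕ) : ℤ))))) = _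
    rw [hz]
  have hb1 : ((H.shift (-(k + 1 : ℕ))).rem.shift (k + 2 : ℕ)).M.bd (-(k + 1 : ℕ)) =
      H.M.inv (H.M.fc (H.M.bd (-(k + 1 : ℕ)))) := by
    rw [hbd, show -((k + 1 : ℕ) : ℤ) + ((k + 2 : ℕ) : ℤ) = 1 by push_cast; ring]
    change H.M.inv (H.M.fc (H.M.bd (0 + -((k + 1 : ℕ) : ℤ)))) = _
    rw [hz]
  have hb2 : ∀ j : ℤ, -(k : ℤ) ≤ j →
      ((H.shift (-(k + 1 : ℕ))).rem.shift (k + 2 : ℕ)).M.bd j = H.M.bd j := by
    intro j hj
    rw [hbd]
    unfold lineN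
    rw [if_neg (by push_cast; omega), if_neg (by push_cast; omega),
      if_neg (by push_cast; omega), shift_bd]
    congr 1
    push_cast
    ring
  have hroot := root_same hSub (hb2 0 (by omega))
  refine ⟨hSub, hroot.2, hb0, ?_, ?_⟩
  · rw [w06_holeL_succ, w06_holeL_succ]
    congr 1
    congr 1
    unfold holeL
    rw [hroot.2, hSub.inv_eq]
    congr 1
    refine List.map_congr_left fun j _ => ?_
    exact hb2 _ (by omega)
  · intro x
    rw [shift_inner, hI, shift_inner]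
    change _ ∧ x ≠ H.M.bd (0 + -((k + 1 : ℕ) : ℤ)) ∧ x ≠ H.M.fc (H.M.bd (0 + -((k + 1 : ℕ) : ℤ))) ∧
        x ≠ H.M.fc (H.M.fc (H.M.bd (0 + -((k + 1 : ℕ) : ℤ)))) ↔ _
    rw [hz]

theorem comm_new_L (H : HPT) (k : ℕ) (t : Tri (k + 2)) : H.step = .L (k + 1) (.new t) ↔
    (H.shift (-(k + 1 : ℕ))).step = .N ∧
      ((H.shift (-(k + 1 : ℕ))).rem.shift (k + 2 : ℕ)).step = .L (k + 2) t := by
  have h := H.ok
  have hd : H.M.Inner (H.M.bd (-(k + 1 : ℕ))) := h.bd_inner _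
  have ha' := h.fc_inner _ hd
  have hb' := h.fc_inner _ ha'
  have hb : H.M.Inner (H.M.fc (H.M.fc (H.M.bd 0))) :=
    h.fc_inner _ (h.fc_inner _ (h.bd_inner 0))
  constructor
  · intro hs
    obtain ⟨hw, F, hF, hB, -⟩ := step_L H hs
    obtain ⟨d0, ds, F', hcs, -, hV, hF', hdF, hFe⟩ := hF
    rw [w06_holeL_succ] at hcs
    obtain ⟨hd0, hds⟩ := List.cons.inj hcs
    subst hd0
    subst hds
    have hbF : H.M.fc (H.M.fc (H.M.bd (-(k + 1 : ℕ)))) ∈ F := by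
      rw [hFe]
      exact Finset.mem_union_left _ (by simp)
    have hN : (H.shift (-(k + 1 : ℕ))).step = .N := by
      rw [step_eq_N_iff]
      intro i hi
      change H.M.SameV (H.M.bd (i + -((k + 1 : ℕ) : ℤ)))
        (H.M.fc (H.M.fc (H.M.bd (0 + -((k + 1 : ℕ) : ℤ))))) at hi
      rw [zero_add] at hi
      generalize i + -((k + 1 : ℕ) : ℤ) = j at hi
      rcases lt_trichotomy j 0 with hj | hj | hj
      · rcases lt_or_ge j (-((k + 1 : ℕ) : ℤ)) with hj' | hj'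
        · exact hole_vertex_L H (Nat.succ_pos k) hw hB (Or.inr (by omega)) hbF hi
        · exact hV _ (w06_bd_mem_holeL _ _ hj' hj) hi
      · subst hj
        exact hV _ (w06_last_mem_holeL _ _) (h.sameV_trans (w06_inv_b h) hi)
      · exact hole_vertex_L H (Nat.succ_pos k) hw hB (Or.inl (by omega)) hbF hi
    refine ⟨hN, ?_⟩
    obtain ⟨hSub, hroot, hb0, hhole, hInn⟩ := w06_setup H k hN
    rw [step_eq_L_iff]
    have hbG := (HPT.ok ((H.shift (-(k + 1 : ℕ))).rem.shift (k + 2 : ℕ))).bd_mem (-(k + 2 : ℕ))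
    refine ⟨?_, F', ?_⟩
    · rw [hroot, hSub.sameV hbG, hb0]
      refine ⟨h.sameV_trans (w06_inv_b h) hw, ?_⟩
      rw [← hroot]
      exact ((HPT.ok _).fc_inner _ ((HPT.ok _).fc_inner _ ((HPT.ok _).bd_inner 0))).1
    · have hcl := fill_closed h hF'
      rw [fill_sub hSub t _ F' ?_ ?_, hhole]
      · exact hF'
      · intro e he
        rcases w06_mem_holeL _ _ he with ⟨i, -, -, rfl⟩ | rfl
        · exact (HPT.ok _).bd_mem i
        · exact (HPT.ok _).inv_mem _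
            ((HPT.ok _).fc_inner _ ((HPT.ok _).fc_inner _ ((HPT.ok _).bd_inner 0))).1
      · intro x hx
        rw [hInn]
        refine ⟨(hcl x hx).1, ?_, ?_, ?_⟩
        · rintro rfl
          exact hdF hx
        · rintro rfl
          have h1 := (hcl _ (hcl _ hx).2).2
          rw [h.fc_tri _ hd] at h1
          exact hdF h1
        · rintro rfl
          have h1 := (hcl _ hx).2
          rw [h.fc_tri _ hd] at h1
          exact hdF h1
  · rintro ⟨hN, hL⟩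
    obtain ⟨hwN, -, -⟩ := step_N _ hN
    obtain ⟨hSub, hroot, hb0, hhole, hInn⟩ := w06_setup H k hN
    obtain ⟨hw, F, hF, -, -⟩ := step_L _ hL
    have hbG := (HPT.ok ((H.shift (-(k + 1 : ℕ))).rem.shift (k + 2 : ℕ))).bd_mem (-(k + 2 : ℕ))
    have hcl := fill_closed (HPT.ok _) hF
    rw [fill_sub hSub t _ F ?_ (fun x hx => (hcl x hx).1), hhole] at hF
    · rw [hroot, hSub.sameV hbG, hb0] at hw
      have hnb : ∀ j : ℤ, ¬ H.M.SameV (H.M.bd j) (H.M.fc (H.M.fc (H.M.bd (-(k + 1 : ℕ))))) := by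
        intro j hj
        refine hwN (j + (k + 1 : ℕ)) ?_
        change H.M.SameV (H.M.bd (j + ((k + 1 : ℕ) : ℤ) + -((k + 1 : ℕ) : ℤ)))
          (H.M.fc (H.M.fc (H.M.bd (0 + -((k + 1 : ℕ) : ℤ)))))
        rw [zero_add, add_neg_cancel_right]
        exact hj
      rw [step_eq_L_iff]
      refine ⟨h.sameV_trans (h.sameV_symm (h.inv_mem _ hb'.1) (w06_inv_b h)) hw.1,
        {H.M.bd (-(k + 1 : ℕ)), H.M.fc (H.M.bd (-(k + 1 : ℕ))),
          H.M.fc (H.M.fc (H.M.bd (-(k + 1 : ℕ))))} ∪ F,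
        H.M.bd (-(k + 1 : ℕ)), holeL H.M k, F, w06_holeL_succ _ _, hd, ?_, hF, ?_, rfl⟩
      · intro e he hs
        rcases w06_mem_holeL _ _ he with ⟨i, -, -, rfl⟩ | rfl
        · exact hnb i hs
        · exact hnb 0 (h.sameV_trans (h.sameV_symm (h.inv_mem _ hb.1) (w06_inv_b h)) hs)
      · intro hdF
        exact ((hInn _).1 (hcl _ hdF).1).2.1 rfl
    · intro e he
      rcases w06_mem_holeL _ _ he with ⟨i, -, -, rfl⟩ | rfl
      · exact (HPT.ok _).bd_mem i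
      · exact (HPT.ok _).inv_mem _
          ((HPT.ok _).fc_inner _ ((HPT.ok _).fc_inner _ ((HPT.ok _).bd_inner 0))).1

end HPT

end Pool.Agent.Spd
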