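import Pool.Agent.Spd.W03

/-!
# SPD W07: commutation, left hole whose first triangle splits it

Claim: with `K = i + j + 2`: `H.step = L K (split t₁ t₂)` iff (`(H.shift (-K)).step = R (i+1) t₁`
and, with
`G = (H.shift (-K)).rem`, `G' = G.shift (j+1)`, `G'.step = L (j+1) t₂`).

Notation: `r = bd 0`, `a = fc r`, `b = fc a`, `d = bd (-K)`, `a' = fc d`, `b' = fc a'`,
`cs = holeL H.M K = d :: (ds₁ ++ ds₂)`, `ds₁ = [bd (1-K), ..., bd (i+1-K)]` (length `i + 1`),
`ds₂ = [bd (i+2-K), ..., bd (-1), inv b]` (length `j + 1`).  `holeR (H.shift (-K)).M (i+1) = ds₁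
++ [inv a']`.  Line of `G`
(`step_R`, `lineR`): `0: inv b'`, `m ≥ 1: bd (m + i + 1 - K)`, `m < 0: bd (m - K)`.  Root of `G'`:
`G.bd (j+1) = bd 0 = r`
(`j + 1 + i + 1 = K`), `holeL G'.M (j+1) = [G.bd 0, ..., G.bd j, inv b] = inv b' :: ds₂` (root
triangle of `G'`:
`root_same`).

(⇒) `Fill (split t₁ t₂) cs F` gives `Fill t₁ (ds₁ ++ [inv a']) F₁`, `Fill t₂ (inv b' :: ds₂) F₂`,
`d ∉ F₁, F₂`,
`F₁, F₂` disjoint.  `(H.shift (-K)).step = R (i+1) t₁`: `SameV (bd (i+2-K)) b'` from `fill_chain`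
(the first dart of `ds₂`
is `bd (i+2-K)` or, if `j = 0`, `inv b ~ fc b = bd 0` and `i + 2 - K = 0`).
`G'.step = L (j+1) t₂`: `G'.bd (-(j+1)) = G.bd 0 = inv b' ~ fc b' = d = bd (-K) ~ b`; filling:
`fill_sub` (`F₂` avoids
`F₁, d, a', b'`, `fill_unique` for the set in `step_R`).
(⇐) As in `W05`.
-/

namespace Pool.Agent.Spd

namespace HPT

/-- First part of the hole. -/
private def dsA (M : PreMap) (i : ℕ) (K : ℤ) : List ℕ :=
  (List.range (i + 1)).map (fun m : ℕ => M.bd (m + 1 - K))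

/-- Second part of the hole. -/
private def dsB (M : PreMap) (i j : ℕ) (K : ℤ) : List ℕ :=
  (List.range j).map (fun m : ℕ => M.bd (m + i + 2 - K)) ++ [M.inv (M.fc (M.fc (M.bd 0)))]

private theorem range_split (i j : ℕ) : List.range (i + j + 2) =
    0 :: ((List.range (i + 1)).map (fun m => m + 1) ++
      (List.range j).map (fun m => m + i + 2)) := by
  rw [show i + j + 2 = 1 + ((i + 1) + j) by omega, List.range_add, List.range_add,
    List.map_append, List.map_map]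
  change [0] ++ _ = [0] ++ _
  congr 1
  congr 1
  · refine List.map_congr_left fun m _ => ?_
    omega
  · refine List.map_congr_left fun m _ => ?_
    simp only [Function.comp]
    omega

private theorem holeL_split (M : PreMap) (i j : ℕ) :
    holeL M (i + j + 2) = M.bd (-((i + j + 2 : ℕ) : ℤ)) ::
      (dsA M i ((i + j + 2 : ℕ) : ℤ) ++ dsB M i j ((i + j + 2 : ℕ) : ℤ)) := by
  unfold holeL dsA dsB
  rw [range_split, List.map_cons, List.map_append, List.map_map, List.map_map,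
    List.cons_append, List.append_assoc]
  have e0 : M.bd (((0 : ℕ) : ℤ) - ((i + j + 2 : ℕ) : ℤ)) = M.bd (-((i + j + 2 : ℕ) : ℤ)) := by
    rw [Nat.cast_zero, zero_sub]
  rw [e0]
  have e1 : List.map ((fun j_1 : ℕ => M.bd ((j_1 : ℤ) - ((i + j + 2 : ℕ) : ℤ))) ∘ fun m => m + 1)
      (List.range (i + 1)) = (List.range (i + 1)).map
        (fun m : ℕ => M.bd (m + 1 - ((i + j + 2 : ℕ) : ℤ))) := by
    refine List.map_congr_left fun m _ => ?_
    simp only [Function.comp]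
    congr 1
  have e2 : List.map ((fun j_1 : ℕ => M.bd ((j_1 : ℤ) - ((i + j + 2 : ℕ) : ℤ))) ∘
      fun m => m + i + 2) (List.range j) = (List.range j).map
        (fun m : ℕ => M.bd (m + i + 2 - ((i + j + 2 : ℕ) : ℤ))) := by
    refine List.map_congr_left fun m _ => ?_
    simp only [Function.comp]
    congr 1
  rw [e1, e2]

private theorem holeR_shift (H : HPT) (i : ℕ) (K : ℤ) :
    holeR (H.shift (-K)).M (i + 1) = dsA H.M i K ++ [H.M.inv (H.M.fc (H.M.bd (-K)))] := by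
  unfold holeR dsA
  have e1 : List.map (fun j : ℕ => (H.shift (-K)).M.bd (j + 1)) (List.range (i + 1)) =
      (List.range (i + 1)).map (fun m : ℕ => H.M.bd (m + 1 - K)) := by
    refine List.map_congr_left fun m _ => ?_
    change H.M.bd ((m : ℤ) + 1 + -K) = _
    congr 1
  have e2 : (H.shift (-K)).M.bd 0 = H.M.bd (-K) := by
    change H.M.bd (0 + -K) = _
    rw [zero_add]
  rw [e1, e2]
  rfl

private theorem bd_map_length (M : PreMap) (i : ℕ) (K : ℤ) : (dsA M i K).length = i + 1 := by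
  unfold dsA
  simp

/-- The first dart of the second part has the origin of the vertex number `i + 2 - K`. -/
private theorem head_dsB (M : PreMap) (h : M.IsHPT) (i j : ℕ) :
    ∃ e l, dsB M i j ((i + j + 2 : ℕ) : ℤ) = e :: l ∧ e ∈ M.D ∧
      M.SameV e (M.bd (i + 2 - ((i + j + 2 : ℕ) : ℤ))) := by
  unfold dsB
  cases j with
  | zero =>
    have hb := h.fc_inner _ (h.fc_inner _ (h.bd_inner 0))
    refine ⟨_, [], rfl, h.inv_mem _ hb.1, ?_⟩
    have h1 := h.tgt hb.1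
    rw [h.fc_tri _ (h.bd_inner 0)] at h1
    have h2 : (i : ℤ) + 2 - ((i + 0 + 2 : ℕ) : ℤ) = 0 := by omega
    rw [h2]
    exact h1
  | succ j =>
    rw [List.range_succ_eq_map, List.map_cons, List.cons_append]
    refine ⟨_, _, rfl, h.bd_mem _, ?_⟩
    have h2 : ((0 : ℕ) : ℤ) + i + 2 - ((i + (j + 1) + 2 : ℕ) : ℤ) =
      (i : ℤ) + 2 - ((i + (j + 1) + 2 : ℕ) : ℤ) := by omega
    rw [h2]
    exact h.sameV_refl _

private theorem fill_shift (H : HPT) (k : ℤ) {n : ℕ} (τ : Tri n) (cs : List ℕ) (F : Finset ℕ) :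
    (H.shift k).M.Fill τ cs F ↔ H.M.Fill τ cs F := by
  have S₁ : Sub (H.shift k) H := (Sub.refl H).shift k
  constructor
  · intro f
    exact (fill_sub S₁ τ cs F (fill_chain (H.shift k).ok f).1
      (fun x hx => (fill_closed (H.shift k).ok f x hx).1)).1 f
  · intro f
    exact (fill_sub S₁ τ cs F (fill_chain H.ok f).1
      (fun x hx => (shift_inner H k x).2 (fill_closed H.ok f x hx).1)).2 f

/-- The hole of the second peeling. -/
private theorem holeL_shift (H G : HPT) (i j : ℕ)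
    (S' : Sub (G.shift ((j + 1 : ℕ) : ℤ)) H)
    (hbd : G.M.bd = lineR (H.shift (-((i + j + 2 : ℕ) : ℤ))).M (i + 1)) :
    (G.shift ((j + 1 : ℕ) : ℤ)).M.bd 0 = H.M.bd 0 ∧
    (G.shift ((j + 1 : ℕ) : ℤ)).M.bd (-((j + 1 : ℕ) : ℤ)) =
      H.M.inv (H.M.fc (H.M.fc (H.M.bd (-((i + j + 2 : ℕ) : ℤ))))) ∧
    holeL (G.shift ((j + 1 : ℕ) : ℤ)).M (j + 1) =
      H.M.inv (H.M.fc (H.M.fc (H.M.bd (-((i + j + 2 : ℕ) : ℤ))))) ::
        dsB H.M i j ((i + j + 2 : ℕ) : ℤ) := by
  have hb : ∀ m : ℤ, (G.shift ((j + 1 : ℕ) : ℤ)).M.bd m =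
      lineR (H.shift (-((i + j + 2 : ℕ) : ℤ))).M (i + 1) (m + ((j + 1 : ℕ) : ℤ)) := by
    intro m
    rw [← hbd]
    rfl
  have hpos : ∀ m : ℤ, 0 < m → lineR (H.shift (-((i + j + 2 : ℕ) : ℤ))).M (i + 1) m =
      H.M.bd (m + ((i + 1 : ℕ) : ℤ) - ((i + j + 2 : ℕ) : ℤ)) := by
    intro m hm
    unfold lineR
    rw [if_neg (by omega), if_neg (by omega)]
    rfl
  have hzero : lineR (H.shift (-((i + j + 2 : ℕ) : ℤ))).M (i + 1) 0 =
      H.M.inv (H.M.fc (H.M.fc (H.M.bd (-((i + j + 2 : ℕ) : ℤ))))) := by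
    unfold lineR
    rw [if_neg (lt_irrefl _), if_pos rfl]
    change H.M.inv (H.M.fc (H.M.fc (H.M.bd (0 + _)))) = _
    rw [zero_add]
  have h0 : (G.shift ((j + 1 : ℕ) : ℤ)).M.bd 0 = H.M.bd 0 := by
    rw [hb, hpos _ (by omega)]
    congr 1
    omega
  refine ⟨h0, ?_, ?_⟩
  · rw [hb, neg_add_cancel, hzero]
  · have hr := root_same S' h0
    unfold holeL dsB
    rw [hr.2, List.range_succ_eq_map, List.map_cons, List.map_map, List.cons_append]
    have e0 : (G.shift ((j + 1 : ℕ) : ℤ)).M.bd (((0 : ℕ) : ℤ) - ((j + 1 : ℕ) : ℤ)) =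
        H.M.inv (H.M.fc (H.M.fc (H.M.bd (-((i + j + 2 : ℕ) : ℤ))))) := by
      rw [hb]
      have : ((0 : ℕ) : ℤ) - ((j + 1 : ℕ) : ℤ) + ((j + 1 : ℕ) : ℤ) = 0 := by omega
      rw [this, hzero]
    rw [e0]
    have e1 : List.map ((fun j_1 : ℕ => (G.shift ((j + 1 : ℕ) : ℤ)).M.bd
        ((j_1 : ℤ) - ((j + 1 : ℕ) : ℤ))) ∘ Nat.succ) (List.range j) =
        (List.range j).map (fun m : ℕ => H.M.bd (m + i + 2 - ((i + j + 2 : ℕ) : ℤ))) := by
      refine List.map_congr_left fun m _ => ?_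
      simp only [Function.comp]
      rw [hb, hpos _ (by omega)]
      congr 1
      omega
    rw [e1]
    have e2 : (G.shift ((j + 1 : ℕ) : ℤ)).M.inv = H.M.inv := S'.inv_eq
    rw [e2]

theorem comm_split_L (H : HPT) (i j : ℕ) (t₁ : Tri (i + 1)) (t₂ : Tri (j + 1)) :
    H.step = .L (i + j + 2) (.split t₁ t₂) ↔
      (H.shift (-(i + j + 2 : ℕ))).step = .R (i + 1) t₁ ∧
      ((H.shift (-(i + j + 2 : ℕ))).rem.shift (j + 1 : ℕ)).step = .L (j + 1) t₂ := by
  have h := H.ok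
  set K : ℤ := ((i + j + 2 : ℕ) : ℤ) with hK
  set H₁ : HPT := H.shift (-K) with hH1
  set G : HPT := H₁.rem with hG
  set G' : HPT := G.shift ((j + 1 : ℕ) : ℤ) with hG'
  obtain ⟨d, hd⟩ : ∃ d, d = H.M.bd (-K) := ⟨_, rfl⟩
  have hdI : H.M.Inner d := by rw [hd]; exact h.bd_inner _
  have haI : H.M.Inner (H.M.fc d) := h.fc_inner _ hdI
  have hbI : H.M.Inner (H.M.fc (H.M.fc d)) := h.fc_inner _ haI
  have htri : H.M.fc (H.M.fc (H.M.fc d)) = d := h.fc_tri _ hdI
  have hH1bd : H₁.M.bd 0 = d := by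
    rw [hd]
    change H.M.bd (0 + -K) = _
    rw [zero_add]
  have S₀ : Sub G H₁ := rem_sub H₁
  have S₁ : Sub H₁ H := (Sub.refl H).shift (-K)
  have S : Sub G' H := (S₀.shift _).trans S₁
  have hH1I : ∀ x, H₁.M.Inner x ↔ H.M.Inner x := fun x => shift_inner H (-K) x
  have hG'I : ∀ x, G'.M.Inner x ↔ G.M.Inner x := fun x => shift_inner G _ x
  have hR : holeR H₁.M (i + 1) = dsA H.M i K ++ [H.M.inv (H.M.fc d)] := by
    rw [hd]
    exact holeR_shift H i K
  have hL : holeL H.M (i + j + 2) = d :: (dsA H.M i K ++ dsB H.M i j K) := by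
    rw [hd]
    exact holeL_split H.M i j
  constructor
  · intro hs
    obtain ⟨hw, F, hF⟩ := (H.step_eq_L_iff _).1 hs
    obtain ⟨d', ds₁, ds₂, F₁, F₂, hcs, -, hf1, hf2, hd1, hd2, hdis, -⟩ := hF
    rw [hL] at hcs
    obtain ⟨hdd, hcs2⟩ := List.cons.inj hcs
    subst hdd
    have l1 : ds₁.length = (dsA H.M i K).length := by
      have h1 := fill_length hf1
      rw [List.length_append, List.length_singleton] at h1
      rw [bd_map_length]
      omega
    obtain ⟨e1, e2⟩ := List.append_inj hcs2 l1.symm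
    subst e1
    subst e2
    have hwR : H₁.M.SameV (H₁.M.bd (((i + 1 : ℕ) : ℤ) + 1)) (H₁.M.fc (H₁.M.fc (H₁.M.bd 0))) := by
      rw [hH1bd]
      have h1 : H₁.M.bd (((i + 1 : ℕ) : ℤ) + 1) = H.M.bd (i + 2 - K) := by
        change H.M.bd (((i + 1 : ℕ) : ℤ) + 1 + -K) = _
        have h2 : ((i + 1 : ℕ) : ℤ) + 1 + -K = i + 2 - K := by
          push_cast
          ring
        rw [h2]
      rw [h1]
      change H.M.SameV (H.M.bd (i + 2 - K)) (H.M.fc (H.M.fc d))
      obtain ⟨e, l, he1, he2, he3⟩ := head_dsB H.M h i j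
      have h2 := (fill_chain h hf2).2
      rw [he1, List.cons_append, List.cons_append, List.isChain_cons_cons] at h2
      have h3 := h2.1
      rw [h.inv_inv _ hbI.1] at h3
      exact h.sameV_symm hbI.1 (h.sameV_trans h3 he3)
    have hs1 : H₁.step = .R (i + 1) t₁ := by
      refine (H₁.step_eq_R_iff t₁).2 ⟨hwR, F₁, ?_⟩
      rw [hR]
      exact (fill_shift H (-K) _ _ _).2 hf1
    refine ⟨hs1, ?_⟩
    obtain ⟨-, F₁', hf1', -, hin, hbd⟩ := H₁.step_R hs1
    have hFF : F₁ = F₁' := by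
      rw [hR] at hf1'
      have hP := holeR_poly H₁.ok (Nat.succ_pos i) hwR
      rw [hR] at hP
      exact (fill_unique H₁.ok hP ((fill_shift H (-K) _ _ _).2 hf1) hf1').2
    subst hFF
    obtain ⟨q0, q1, q2⟩ := holeL_shift H G i j S hbd
    have hrt := root_same S q0
    refine (G'.step_eq_L_iff t₂).2 ⟨?_, F₂, ?_⟩
    · have hm : G'.M.bd (-((j + 1 : ℕ) : ℤ)) ∈ G'.M.D := G'.ok.bd_mem _
      rw [S.sameV hm]
      refine ⟨?_, (G'.ok.fc_inner _ (G'.ok.fc_inner _ (G'.ok.bd_inner 0))).1⟩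
      rw [q1, hrt.2, ← hd]
      have h1 := h.tgt hbI.1
      rw [htri, hd] at h1
      rw [← hd] at h1
      refine h.sameV_trans h1 ?_
      rw [hd]
      exact hw
    · have hmem : ∀ x ∈ holeL G'.M (j + 1), x ∈ G'.M.D := by
        intro x hx
        unfold holeL at hx
        rcases List.mem_append.1 hx with hx | hx
        · obtain ⟨m, -, rfl⟩ := List.mem_map.1 hx
          exact G'.ok.bd_mem _
        · rw [List.mem_singleton] at hx
          rw [hx]
          exact G'.ok.inv_mem _ (G'.ok.fc_inner _ (G'.ok.fc_inner _ (G'.ok.bd_inner 0))).1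
      refine (fill_sub S t₂ _ F₂ hmem ?_).2 ?_
      · intro x hx
        have hcl := fill_closed h hf2
        rw [hG'I, hin, hH1bd]
        have hn1 : x ≠ d := by
          rintro rfl
          exact hd2 hx
        have hn3 : x ≠ H.M.fc (H.M.fc d) := by
          rintro rfl
          have := (hcl _ hx).2
          rw [htri] at this
          exact hd2 this
        have hn2 : x ≠ H.M.fc d := by
          rintro rfl
          have h1 := (hcl _ hx).2
          have h2 := (hcl _ h1).2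
          rw [htri] at h2
          exact hd2 h2
        exact ⟨(hH1I x).2 (hcl x hx).1, hn1, hn2, hn3,
          fun h1 => Finset.disjoint_left.1 hdis h1 hx⟩
      · rw [q2, ← hd]
        exact hf2
  · rintro ⟨hs1, hs2⟩
    obtain ⟨hw1, F₁, hf1, hB1, hin, hbd⟩ := H₁.step_R hs1
    obtain ⟨q0, q1, q2⟩ := holeL_shift H G i j S hbd
    have hrt := root_same S q0
    obtain ⟨hw2, F₂, hf2, hB2, -, -⟩ := G'.step_L hs2
    have hmem : ∀ x ∈ holeL G'.M (j + 1), x ∈ G'.M.D := by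
      intro x hx
      unfold holeL at hx
      rcases List.mem_append.1 hx with hx | hx
      · obtain ⟨m, -, rfl⟩ := List.mem_map.1 hx
        exact G'.ok.bd_mem _
      · rw [List.mem_singleton] at hx
        rw [hx]
        exact G'.ok.inv_mem _ (G'.ok.fc_inner _ (G'.ok.fc_inner _ (G'.ok.bd_inner 0))).1
    have hF2 : ∀ x ∈ F₂, G'.M.Inner x := fun x hx => (hB2.1 x hx).1
    have hf2' : H.M.Fill t₂ (H.M.inv (H.M.fc (H.M.fc d)) :: dsB H.M i j K) F₂ := by
      have h1 := (fill_sub S t₂ _ F₂ hmem hF2).1 hf2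
      rw [q2, ← hd] at h1
      exact h1
    have hf1' : H.M.Fill t₁ (dsA H.M i K ++ [H.M.inv (H.M.fc d)]) F₁ := by
      rw [← hR]
      exact (fill_shift H (-K) _ _ _).1 hf1
    have hdF1 : d ∉ F₁ := by
      have h1 := (hole_disj H₁.ok (Nat.succ_pos i) (Or.inl ⟨hw1, hB1⟩)).1
      rw [hH1bd] at h1
      exact h1
    have hF2' : ∀ x ∈ F₂, x ≠ d ∧ x ∉ F₁ := by
      intro x hx
      have h1 := (hin x).1 ((hG'I x).1 (hF2 x hx))
      rw [hH1bd] at h1
      exact ⟨h1.2.1, h1.2.2.2.2⟩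
    have hdF2 : d ∉ F₂ := fun h1 => (hF2' d h1).1 rfl
    refine (H.step_eq_L_iff _).2 ⟨?_, _, d, dsA H.M i K, dsB H.M i j K, F₁, F₂, hL, hdI, hf1',
      hf2', hdF1, hdF2, ?_, rfl⟩
    · have hm : G'.M.bd (-((j + 1 : ℕ) : ℤ)) ∈ G'.M.D := G'.ok.bd_mem _
      have h1 := ((S.sameV hm _).1 hw2).1
      rw [q1, hrt.2, ← hd] at h1
      have h2 := h.tgt hbI.1
      rw [htri] at h2
      have h3 := h.sameV_symm (h.inv_mem _ hbI.1) h2
      rw [hd] at h3 h1
      exact h.sameV_trans h3 h1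
    · rw [Finset.disjoint_left]
      intro x hx1 hx2
      exact (hF2' x hx2).2 hx1

end HPT

end Pool.Agent.Spd
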