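import Pool.Agent.Spd.W02
import Pool.Agent.Spd.W04
import Pool.Agent.Spd.W05
import Pool.Agent.Spd.W06
import Pool.Agent.Spd.W07

/-!
# SPD W08: the probabilities of all outcomes in terms of `α` and `β`

`α` = probability of `Step.N`, `β` = probability of `Step.R 1 Tri.edge`.  Claim: both `R k τ` and
`L k τ` have probability `β ^ k * (α * β) ^ τ.verts`.

The commutation relations `comm_edge`, `comm_new_R`, `comm_split_R`, `comm_new_L`, `comm_split_L` (`W03`-`W07`) turn
the event `H.step = s` into an event for two peelings, and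

* `P{(H.shift i).step = s ∧ ((H.shift i).rem.shift j).step = s'} = pS s * pS s'` (`law_step` with
  `B = {G | (G.shift j).step = s'}` and translation invariance for `μ B`).

Induction on `τ` (for all `k`): `edge`: `R` by definition, `L` by `hE` and translation invariance.
`new t`, `t : Tri (k + 2)`: `α * (β ^ (k+2) * (αβ)^verts t) = β ^ (k+1) * (αβ) ^ (verts t + 1)`.
`split t₁ t₂`: product.
-/

namespace Pool.Agent.Spd

open MeasureTheory

theorem pS_two {μ : Measure HPT} [IsProbabilityMeasure μ] (hT : TransInv μ) (hD : DomMarkov μ)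
    (i j : ℤ) (s s' : Step) :
    μ {H | (H.shift i).step = s ∧ ((H.shift i).rem.shift j).step = s'} = pS μ s * pS μ s' := by
  have h1 : MeasurableSet {G : HPT | G.step = s'} :=
    HPT.measurable_step (measurableSet_singleton s')
  have h2 : MeasurableSet {G : HPT | (G.shift j).step = s'} :=
    (HPT.measurable_step.comp (HPT.measurable_shift j)) (measurableSet_singleton s')
  have h3 := law_step hT hD i s h2
  have h4 : μ {G : HPT | (G.shift j).step = s'} = pS μ s' := hT j {G : HPT | G.step = s'} h1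
  rw [h4] at h3
  exact h3

private theorem pS_R {μ : Measure HPT} [IsProbabilityMeasure μ] (hT : TransInv μ)
    (hD : DomMarkov μ) {k : ℕ} (τ : Tri k) :
    pS μ (.R k τ) = pS μ (.R 1 .edge) ^ k * (pS μ .N * pS μ (.R 1 .edge)) ^ τ.verts := by
  induction τ with
  | edge =>
    rw [Tri.verts, pow_zero, pow_one, mul_one]
  | @new k t ih =>
    have h1 : pS μ (.R (k + 1) (.new t)) = pS μ .N * pS μ (.R (k + 2) t) := by
      rw [← pS_two hT hD 1 (-1)]
      unfold pS
      congr 1
      ext H
      exact HPT.comm_new_R H k t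
    rw [h1, ih, Tri.verts]
    ring
  | @split i j t₁ t₂ ih₁ ih₂ =>
    have h1 : pS μ (.R (i + j + 2) (.split t₁ t₂)) =
        pS μ (.R (i + 1) t₁) * pS μ (.R (j + 1) t₂) := by
      rw [← pS_two hT hD 1 (-1)]
      unfold pS
      congr 1
      ext H
      exact HPT.comm_split_R H i j t₁ t₂
    rw [h1, ih₁, ih₂, Tri.verts]
    ring

private theorem pS_L {μ : Measure HPT} [IsProbabilityMeasure μ] (hT : TransInv μ)
    (hD : DomMarkov μ) {k : ℕ} (τ : Tri k) :
    pS μ (.L k τ) = pS μ (.R 1 .edge) ^ k * (pS μ .N * pS μ (.R 1 .edge)) ^ τ.verts := by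
  induction τ with
  | edge =>
    rw [Tri.verts, pow_zero, pow_one, mul_one]
    have h1 : MeasurableSet {G : HPT | G.step = .L 1 .edge} :=
      HPT.measurable_step (measurableSet_singleton _)
    have h2 := hT 1 _ h1
    unfold pS
    rw [← h2]
    congr 1
    ext H
    exact HPT.comm_edge H
  | @new k t ih =>
    have h1 : pS μ (.L (k + 1) (.new t)) = pS μ .N * pS μ (.L (k + 2) t) := by
      rw [← pS_two hT hD (-(k + 1 : ℕ)) (k + 2 : ℕ)]
      unfold pS
      congr 1
      ext H
      exact HPT.comm_new_L H k t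
    rw [h1, ih, Tri.verts]
    ring
  | @split i j t₁ t₂ ih₁ ih₂ =>
    have h1 : pS μ (.L (i + j + 2) (.split t₁ t₂)) =
        pS μ (.R (i + 1) t₁) * pS μ (.L (j + 1) t₂) := by
      rw [← pS_two hT hD (-(i + j + 2 : ℕ)) (j + 1 : ℕ)]
      unfold pS
      congr 1
      ext H
      exact HPT.comm_split_L H i j t₁ t₂
    rw [h1, pS_R hT hD t₁, ih₂, Tri.verts]
    ring

theorem stepLaw {μ : Measure HPT} [IsProbabilityMeasure μ] (hT : TransInv μ) (hD : DomMarkov μ) :
    StepLaw (pS μ) (pS μ .N) (pS μ (.R 1 .edge)) :=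
  { N := rfl
    R := fun _ τ => pS_R hT hD τ
    L := fun _ τ => pS_L hT hD τ
    sum := sum_pS }

end Pool.Agent.Spd
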