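import Pool.Agent.Spd.I06
import Pool.Agent.Spd.I07
import Pool.Agent.Spd.W08

/-!
# SPD I08: the isoperimetric inequality

`lam, eps` from `chernoff` (W14), `Φ = ∑' s, p s * ofReal (exp (-lam delta + eps size)) < 1`, `p =
pS μ`
(`stepLaw`, with `p N = ofReal a`).  Choose `g > 0` so large that `(1 + exp (-g))^2 Φ < 1`, put
`c = eps / (2 (g + lam))`.

For `L : ℕ` let `W_L` be the set of the lists `w` of inputs with `L + 1 + listDl w ≤ listF w` and
`listF w < 2 c listSz w` (real numbers), and `S_L = ⋃_{w ∈ W_L} {H | H.outs (cmds w) = w.map snd}`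
with
`cmds` for the initial state `⟨0, L, fun _ => true⟩`.  It is measurable (`Step` is countable, so
there are countably many lists;
`measurableSet_outs`).

If `H ∉ S_L` and `Adm H L K`, take `w` from `adm_run`.  If `bdry H K < c K.card` then
`listF w ≤ bdry < c K.card ≤ 2 c listSz w`, so `w ∈ W_L` and `H ∈ S_L`: contradiction.

Measure: `μ {H | H.outs (cmds w) = w.map snd} = ∏ p (snd i)` (`law_outs'`, `cmds_length`).  For `w ∈
W_L` the number
`lam (listF - L - 1 - listDl) + (g + lam) (2 c listSz - listF)` is `≥ 0`, so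
`μ S_L ≤ ∑_{w} ∏ p(snd i) exp (that)` and (everything is a product over the entries)
`= exp (-lam (L + 1)) ∑_w ∏_i p(s_i) exp (-lam delta s_i + eps size s_i) exp (-g inF i)`
(`(g + lam) 2 c = eps`, `lam - (g + lam) = -g`), which is `exp (-lam (L+1))` times `tsum_lists` for
`f i = p(s) ofReal (exp (..)) ofReal (exp (-g inF i))`; `∑' i, f i = (1 + exp (-g))^2 Φ < 1`
(`ENNReal.tsum_prod`, the four
values of the bits).  `C` = the real number `∑_w ∏ f`.
-/

namespace Pool.Agent.Spd

open MeasureTheory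

theorem cmds_length (σ : LSt) (w : List LSt.In) : (σ.cmds w).length = w.length := by
  induction w generalizing σ with
  | nil => rfl
  | cons i w ih =>
    change (σ.pos :: (σ.nxt i).cmds w).length = (i :: w).length
    rw [List.length_cons, List.length_cons, ih]

theorem tsum_bits (g lam eps : ℝ) (p : Step → ENNReal) :
    ∑' i : LSt.In, p i.2 * ENNReal.ofReal (Real.exp (-lam * i.2.delta + eps * i.2.size)) *
      ENNReal.ofReal (Real.exp (-g * inF i)) = ENNReal.ofReal ((1 + Real.exp (-g)) ^ 2) *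
        ∑' s, p s * ENNReal.ofReal (Real.exp (-lam * s.delta + eps * s.size)) := by
  have h1 : ∀ b : Bool × Bool, ∑' s : Step, p s *
      ENNReal.ofReal (Real.exp (-lam * s.delta + eps * s.size)) *
      ENNReal.ofReal (Real.exp (-g * inF (b, s))) =
      (∑' s, p s * ENNReal.ofReal (Real.exp (-lam * s.delta + eps * s.size))) *
        ENNReal.ofReal (Real.exp (-g *
          (((if b.1 then 0 else 1) + (if b.2 then 0 else 1) : ℕ) : ℝ))) := by
    intro b
    rw [← ENNReal.tsum_mul_right]
    rfl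
  have h2 : ∑' i : LSt.In, p i.2 *
      ENNReal.ofReal (Real.exp (-lam * i.2.delta + eps * i.2.size)) *
      ENNReal.ofReal (Real.exp (-g * inF i)) =
      ∑' b : Bool × Bool, ∑' s : Step, p s *
        ENNReal.ofReal (Real.exp (-lam * s.delta + eps * s.size)) *
        ENNReal.ofReal (Real.exp (-g * inF (b, s))) :=
    ENNReal.tsum_prod' (f := fun i : LSt.In => p i.2 *
      ENNReal.ofReal (Real.exp (-lam * i.2.delta + eps * i.2.size)) *
      ENNReal.ofReal (Real.exp (-g * inF i)))
  rw [h2, tsum_congr h1, tsum_fintype, ← Finset.mul_sum, mul_comm]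
  congr 1
  rw [Fintype.sum_prod_type, Fintype.sum_bool, Fintype.sum_bool, Fintype.sum_bool]
  have e0 : 0 ≤ Real.exp (-g) := (Real.exp_pos _).le
  have e2 : Real.exp (-g * 2) = Real.exp (-g) * Real.exp (-g) := by
    rw [← Real.exp_add]
    congr 1
    ring
  simp only [if_true, Bool.false_eq_true, if_false, add_zero, zero_add, Nat.cast_zero,
    Nat.cast_one, mul_zero, mul_one, Real.exp_zero]
  rw [show ((1 + 1 : ℕ) : ℝ) = 2 by norm_num, e2, ← ENNReal.ofReal_add zero_le_one e0,
    ← ENNReal.ofReal_add e0 (mul_nonneg e0 e0), ← ENNReal.ofReal_add (by positivity)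
    (by positivity)]
  congr 1
  ring

/-- Choice of the weight of a bit. -/
private theorem exists_weight {Φ : ENNReal} (h : Φ < 1) :
    ∃ g : ℝ, 0 < g ∧ ENNReal.ofReal ((1 + Real.exp (-g)) ^ 2) * Φ < 1 := by
  obtain ⟨φ, hφ⟩ : ∃ φ : ℝ, φ = Φ.toReal := ⟨_, rfl⟩
  have hΦ : Φ ≠ ⊤ := (h.trans ENNReal.one_lt_top).ne
  have h0 : 0 ≤ φ := hφ ▸ ENNReal.toReal_nonneg
  have h1 : φ < 1 := by
    rw [hφ]
    have := (ENNReal.toReal_lt_toReal hΦ ENNReal.one_ne_top).2 h
    rwa [ENNReal.toReal_one] at this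
  have h2 : Φ = ENNReal.ofReal φ := by rw [hφ, ENNReal.ofReal_toReal hΦ]
  obtain ⟨δ, hδ⟩ : ∃ δ : ℝ, δ = (1 - φ) / 4 := ⟨_, rfl⟩
  have hδ0 : 0 < δ := by rw [hδ]; linarith
  have hδ1 : δ < 1 := by rw [hδ]; linarith
  refine ⟨-Real.log δ, neg_pos.2 (Real.log_neg hδ0 hδ1), ?_⟩
  rw [neg_neg, Real.exp_log hδ0, h2, ← ENNReal.ofReal_mul (by positivity),
    ENNReal.ofReal_lt_one]
  have h3 : φ = 1 - 4 * δ := by rw [hδ]; ring
  rw [h3]
  nlinarith [pow_pos hδ0 2, pow_pos hδ0 3]

/-- The sum of the weights is additive along a list of inputs. -/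
private theorem prod_weights (g lam eps : ℝ) (p : Step → ENNReal) (w : List LSt.In) :
    (w.map fun i : LSt.In => p i.2 *
      ENNReal.ofReal (Real.exp (-lam * i.2.delta + eps * i.2.size)) *
      ENNReal.ofReal (Real.exp (-g * inF i))).prod =
    ((w.map Prod.snd).map p).prod * ENNReal.ofReal
      (Real.exp (-lam * listDl w + eps * listSz w - g * listF w)) := by
  induction w with
  | nil => simp [listDl, listSz, listF]
  | cons i w ih =>
    have e1 : listDl (i :: w) = i.2.delta + listDl w := by simp [listDl]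
    have e2 : listF (i :: w) = inF i + listF w := by simp [listF]
    have e3 : listSz (i :: w) = i.2.size + listSz w := by simp [listSz]
    rw [List.map_cons, List.prod_cons, ih, List.map_cons, List.map_cons, List.prod_cons, e1, e2,
      e3]
    have e4 : ENNReal.ofReal (Real.exp (-lam * ((i.2.delta + listDl w : ℤ) : ℝ) +
        eps * ((i.2.size + listSz w : ℕ) : ℝ) - g * ((inF i + listF w : ℕ) : ℝ))) =
        ENNReal.ofReal (Real.exp (-lam * i.2.delta + eps * i.2.size)) *
        ENNReal.ofReal (Real.exp (-g * inF i)) *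
        ENNReal.ofReal (Real.exp (-lam * listDl w + eps * listSz w - g * listF w)) := by
      rw [← ENNReal.ofReal_mul (Real.exp_pos _).le, ← Real.exp_add,
        ← ENNReal.ofReal_mul (Real.exp_pos _).le, ← Real.exp_add]
      congr 2
      push_cast
      ring
    rw [e4]
    ring

theorem iso {μ : Measure HPT} [IsProbabilityMeasure μ] (hT : TransInv μ) (hD : DomMarkov μ)
    {a : ℝ} (h1 : 2 / 3 < a) (h2 : a < 1) (hα : μ {H | H.step = .N} = ENNReal.ofReal a) :
    ∃ c C lam : ℝ, 0 < c ∧ 0 < lam ∧ ∀ L : ℕ, ∃ S : Set HPT, MeasurableSet S ∧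
      μ S ≤ ENNReal.ofReal (C * Real.exp (-lam * L)) ∧
      ∀ H ∉ S, ∀ K, Adm H L K → c * (K.card : ℝ) ≤ bdry H K := by
  have hlaw : StepLaw (pS μ) (ENNReal.ofReal a) (pS μ (.R 1 .edge)) := by
    have h := stepLaw hT hD
    have h3 : pS μ .N = ENNReal.ofReal a := hα
    rw [h3] at h
    exact h
  obtain ⟨lam, eps, hlam, heps, hlt⟩ := chernoff h1 h2 hlaw
  obtain ⟨g, hg, hgΦ⟩ := exists_weight hlt
  have hsum : ∑' i : LSt.In, pS μ i.2 *
      ENNReal.ofReal (Real.exp (-lam * i.2.delta + eps * i.2.size)) *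
      ENNReal.ofReal (Real.exp (-g * inF i)) < 1 := by
    rw [tsum_bits]
    exact hgΦ
  have hfin := tsum_lists_lt_top _ hsum
  obtain ⟨T, hTd⟩ : ∃ T : ENNReal, T = ∑' w : List LSt.In, (w.map fun i : LSt.In => pS μ i.2 *
      ENNReal.ofReal (Real.exp (-lam * i.2.delta + eps * i.2.size)) *
      ENNReal.ofReal (Real.exp (-g * inF i))).prod := ⟨_, rfl⟩
  rw [← hTd] at hfin
  have hgl : 0 < g + lam := add_pos hg hlam
  refine ⟨eps / (2 * (g + lam)), T.toReal, lam, by positivity, hlam, fun L => ?_⟩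
  obtain ⟨c, hc⟩ : ∃ c : ℝ, c = eps / (2 * (g + lam)) := ⟨_, rfl⟩
  rw [← hc]
  have hc0 : 0 < c := by rw [hc]; positivity
  have hceps : (g + lam) * (2 * c) = eps := by
    rw [hc]
    field_simp
  obtain ⟨σ, hσ⟩ : ∃ σ : LSt, σ = ⟨0, L, fun _ => true⟩ := ⟨_, rfl⟩
  let W : Set (List LSt.In) := {w | (L : ℤ) + 1 + listDl w ≤ listF w ∧
    (listF w : ℝ) < 2 * c * listSz w}
  refine ⟨⋃ w : W, {H | H.outs (σ.cmds w) = (w : List LSt.In).map Prod.snd}, ?_, ?_, ?_⟩
  · exact MeasurableSet.iUnion fun w => HPT.measurableSet_outs _ _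
  · have hterm : ∀ w : W, μ {H | H.outs (σ.cmds w) = (w : List LSt.In).map Prod.snd} ≤
        ENNReal.ofReal (Real.exp (-lam * (L + 1))) *
        ((w : List LSt.In).map fun i : LSt.In => pS μ i.2 *
          ENNReal.ofReal (Real.exp (-lam * i.2.delta + eps * i.2.size)) *
          ENNReal.ofReal (Real.exp (-g * inF i))).prod := by
      rintro ⟨w, hw1, hw2⟩
      rw [law_outs' hT hD (σ.cmds w) (w.map Prod.snd) (by rw [cmds_length, List.length_map]),
        prod_weights, mul_left_comm, ← ENNReal.ofReal_mul (Real.exp_pos _).le, ← Real.exp_add]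
      have h3 : (L : ℝ) + 1 + listDl w ≤ listF w := by exact_mod_cast hw1
      have h4 : 0 ≤ -lam * (L + 1) + (-lam * listDl w + eps * listSz w - g * listF w) := by
        have e1 : -lam * (L + 1) + (-lam * listDl w + eps * listSz w - g * listF w) =
            lam * (listF w - (L + 1 + listDl w)) +
              (g + lam) * (2 * c * listSz w - listF w) := by
          rw [← hceps]
          ring
        rw [e1]
        exact add_nonneg (mul_nonneg hlam.le (sub_nonneg.2 h3))
          (mul_nonneg hgl.le (sub_nonneg.2 hw2.le))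
      have h5 : (1 : ENNReal) ≤ ENNReal.ofReal
          (Real.exp (-lam * (L + 1) + (-lam * listDl w + eps * listSz w - g * listF w))) := by
        rw [ENNReal.one_le_ofReal]
        exact Real.one_le_exp h4
      calc ((w.map Prod.snd).map (pS μ)).prod = ((w.map Prod.snd).map (pS μ)).prod * 1 :=
            (mul_one _).symm
        _ ≤ _ := mul_le_mul_right h5 _
    have hC : Real.exp (-lam * (L + 1)) * T.toReal ≤ T.toReal * Real.exp (-lam * L) := by
      rw [mul_comm (Real.exp (-lam * (L + 1)))]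
      refine mul_le_mul_of_nonneg_left ?_ ENNReal.toReal_nonneg
      apply Real.exp_le_exp.2
      nlinarith
    calc μ (⋃ w : W, {H | H.outs (σ.cmds w) = (w : List LSt.In).map Prod.snd})
        ≤ ∑' w : W, μ {H | H.outs (σ.cmds w) = (w : List LSt.In).map Prod.snd} :=
          measure_iUnion_le _
      _ ≤ ∑' w : W, ENNReal.ofReal (Real.exp (-lam * (L + 1))) *
          ((w : List LSt.In).map fun i : LSt.In => pS μ i.2 *
            ENNReal.ofReal (Real.exp (-lam * i.2.delta + eps * i.2.size)) *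
            ENNReal.ofReal (Real.exp (-g * inF i))).prod := ENNReal.tsum_le_tsum hterm
      _ = ENNReal.ofReal (Real.exp (-lam * (L + 1))) * ∑' w : W,
          ((w : List LSt.In).map fun i : LSt.In => pS μ i.2 *
            ENNReal.ofReal (Real.exp (-lam * i.2.delta + eps * i.2.size)) *
            ENNReal.ofReal (Real.exp (-g * inF i))).prod := ENNReal.tsum_mul_left
      _ ≤ ENNReal.ofReal (Real.exp (-lam * (L + 1))) * T := by
          rw [hTd]
          refine mul_le_mul_right ?_ _
          exact ENNReal.tsum_comp_le_tsum_of_injective Subtype.val_injective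
            (fun w : List LSt.In => (w.map fun i : LSt.In => pS μ i.2 *
            ENNReal.ofReal (Real.exp (-lam * i.2.delta + eps * i.2.size)) *
            ENNReal.ofReal (Real.exp (-g * inF i))).prod)
      _ = ENNReal.ofReal (Real.exp (-lam * (L + 1)) * T.toReal) := by
          rw [ENNReal.ofReal_mul (Real.exp_pos _).le, ENNReal.ofReal_toReal hfin.ne]
      _ ≤ ENNReal.ofReal (T.toReal * Real.exp (-lam * L)) := ENNReal.ofReal_le_ofReal hC
  · intro H hH K hK
    by_contra hcon
    have hcon' : (bdry H K : ℝ) < c * K.card := not_le.1 hcon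
    obtain ⟨w, _, hw2, hw3, hw4, hw5⟩ := adm_run hK
    rw [← hσ] at hw2
    have h3 : (listF w : ℝ) ≤ bdry H K := by exact_mod_cast hw4
    have h4 : (K.card : ℝ) ≤ 2 * listSz w := by exact_mod_cast hw5
    have h5 : (listF w : ℝ) < 2 * c * listSz w := by
      have := mul_le_mul_of_nonneg_left h4 hc0.le
      linarith
    exact hH (Set.mem_iUnion.2 ⟨⟨w, hw3, h5⟩, hw2⟩)

end Pool.Agent.Spd
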