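import Pool.Agent.Spd.W01

/-!
# SPD W02: the law of finitely many peelings

`pS μ s` is the probability of the outcome `s`.

* `law_step`: translation invariance (for the set `{H | H.step = s ∧ H.rem ∈ B}`, which is measurable:
  `measurable_step`, `measurable_rem`) and the domain Markov property.
* `law_outs` : induction on `c` (`outs_cons`, `exec_cons`): for `c = i :: c'`, `o = s :: o'`,
  `{H | H.outs c = o ∧ H.exec c ∈ B} = {H | (H.shift i).step = s ∧ (H.shift i).rem ∈ B'}` with
  `B' = {H | H.outs c' = o' ∧ H.exec c' ∈ B}`.
* `sum_pS`: the sets `{H | H.step = s}` form a countable measurable partition.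
* `law_prod` : the same for the product with a second random variable (used for the walk): for
  `ν` a probability measure on another space, `A` measurable in the product:
  `{(H, U) | H.outs c = o ∧ (H.exec c, U) ∈ A}` has the measure `prod * (μ.prod ν) A`
  (`Measure.prod_apply` for the swapped product, i.e. integrate over `U` first, then `law_outs` for the section of
  `A` at `U`).
-/

namespace Pool.Agent.Spd

open MeasureTheory

/-- Probability of an outcome. -/
noncomputable def pS (μ : Measure HPT) (s : Step) : ENNReal := μ {H | H.step = s}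

/-- The formula for the law of one peeling (`p N = α`, parameter `β`). -/
structure StepLaw (p : Step → ENNReal) (α β : ENNReal) : Prop where
  N : p .N = α
  R : ∀ (k : ℕ) (τ : Tri k), p (.R k τ) = β ^ k * (α * β) ^ τ.verts
  L : ∀ (k : ℕ) (τ : Tri k), p (.L k τ) = β ^ k * (α * β) ^ τ.verts
  sum : ∑' s, p s = 1

theorem law_step {μ : Measure HPT} (hT : TransInv μ) (hD : DomMarkov μ) (i : ℤ) (s : Step)
    {B : Set HPT} (hB : MeasurableSet B) :
    μ {H | (H.shift i).step = s ∧ (H.shift i).rem ∈ B} = pS μ s * μ B := by
  have hS : MeasurableSet {H : HPT | H.step = s ∧ H.rem ∈ B} :=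
    (HPT.measurable_step (measurableSet_singleton s)).inter (HPT.measurable_rem hB)
  have h1 := hT i _ hS
  have h2 := hD s B hB
  rw [← h1] at h2
  exact h2

theorem law_outs {μ : Measure HPT} (hT : TransInv μ) (hD : DomMarkov μ) (c : List ℤ)
    (o : List Step) (hl : o.length = c.length) {B : Set HPT} (hB : MeasurableSet B) :
    μ {H | H.outs c = o ∧ H.exec c ∈ B} = (o.map (pS μ)).prod * μ B := by
  induction c generalizing o with
  | nil =>
    obtain rfl : o = [] := List.length_eq_zero_iff.1 (by simpa using hl)
    have h : {H : HPT | H.outs [] = [] ∧ H.exec [] ∈ B} = B := by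
      ext H
      exact ⟨fun h => h.2, fun h => ⟨rfl, h⟩⟩
    rw [h]
    simp
  | cons i c ih =>
    match o, hl with
    | s :: o, hl =>
      have hl' : o.length = c.length := by simpa using hl
      have hB' : MeasurableSet {H : HPT | H.outs c = o ∧ H.exec c ∈ B} :=
        (HPT.measurableSet_outs c o).inter (HPT.measurable_exec c hB)
      have h := law_step hT hD i s hB'
      rw [ih o hl'] at h
      rw [List.map_cons, List.prod_cons, mul_assoc, ← h]
      refine congrArg μ ?_
      ext H
      simp only [Set.mem_setOf_eq]
      rw [HPT.outs_cons, List.cons.injEq, and_assoc]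
      rfl

theorem law_outs' {μ : Measure HPT} [IsProbabilityMeasure μ] (hT : TransInv μ) (hD : DomMarkov μ)
    (c : List ℤ) (o : List Step) (hl : o.length = c.length) :
    μ {H | H.outs c = o} = (o.map (pS μ)).prod := by
  have h := law_outs hT hD c o hl MeasurableSet.univ
  rw [measure_univ, mul_one] at h
  rw [← h]
  refine congrArg μ ?_
  ext H
  simp

theorem sum_pS {μ : Measure HPT} [IsProbabilityMeasure μ] : ∑' s, pS μ s = 1 := by
  have h1 : (⋃ s : Step, {H : HPT | H.step = s}) = Set.univ := by
    ext H
    simp
  have h2 := measure_iUnion (μ := μ) (f := fun s : Step => {H : HPT | H.step = s})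
    (fun s t hst => Set.disjoint_left.2 fun H h h' => hst (h.symm.trans h'))
    (fun s => HPT.measurable_step (measurableSet_singleton s))
  rw [h1, measure_univ] at h2
  exact h2.symm

theorem law_prod {μ : Measure HPT} [IsProbabilityMeasure μ] (hT : TransInv μ) (hD : DomMarkov μ)
    {Ω : Type} [MeasurableSpace Ω] (ν : Measure Ω) [IsProbabilityMeasure ν] (c : List ℤ)
    (o : List Step) (hl : o.length = c.length) {A : Set (HPT × Ω)} (hA : MeasurableSet A) :
    (μ.prod ν) {x | x.1.outs c = o ∧ (x.1.exec c, x.2) ∈ A} =
      (o.map (pS μ)).prod * (μ.prod ν) A := by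
  have hS : MeasurableSet {x : HPT × Ω | x.1.outs c = o ∧ (x.1.exec c, x.2) ∈ A} :=
    (measurable_fst (HPT.measurableSet_outs c o)).inter
      (((HPT.measurable_exec c).comp measurable_fst).prodMk measurable_snd hA)
  rw [Measure.prod_apply_symm hS, Measure.prod_apply_symm hA, ← lintegral_const_mul]
  · refine lintegral_congr fun y => ?_
    have hB : MeasurableSet ((fun x : HPT => (x, y)) ⁻¹' A) := measurable_prodMk_right hA
    exact law_outs hT hD c o hl hB
  · exact measurable_measure_prodMk_right hA

end Pool.Agent.Spd
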