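import Pool.Agent.Spd.W12
import Pool.Agent.Spd.W02

/-!
# SPD W13: identification of `β`

* `tri_zero`: all constructors have positive index.
* `sum_step`: `Step` is the disjoint union of a point and two copies of `Σ k, Tri k`
  (an explicit equivalence, `tsum` over sums and sigma types in `ENNReal`).
* `sum_formula`: with the formula for all probabilities, `∑' k, ∑' τ : Tri k, pS μ (.R k τ)` is
  `∑' k, β^(k+1) Zs (k+1) (α β)` (the term `k = 0` is an empty sum).
* `beta_eq`: put `Φ x = α + 2 * ∑' k, x^(k+1) Zs (k+1) (α x)` for `x ∈ [0, ∞]`; `Φ β = 1` (`sum_pS`,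
  `sum_step`).  With `x₀ = α (1 - α)/2`: `α x₀ = α^2 (1 - α)/2`, so `Φ x₀ = α + (1 - α) = 1` by `sum_eq`.
  If `x < x'` and `Φ x < ∞` then `Φ x < Φ x'`: all terms are monotone (`Zs_mono`) and the term
  `k = 0` is strictly larger: `x * Zs 1 (α x) < x' * Zs 1 (α x')` because
  `Zs 1 ≥ 1` (`one_le_Zs_one`) and `x * Zs 1 (α x) < ∞`
  (`x * Z + (x' - x) * 1 ≤ x' * Z ≤ x' * Z'`).  So `β < x₀` and `x₀ < β` are impossible.
-/

namespace Pool.Agent.Spd

open MeasureTheory

theorem tri_zero : IsEmpty (Tri 0) := ⟨fun τ => nomatch τ⟩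

private theorem w13_sum {α β : Type} (f : α ⊕ β → ENNReal) :
    ∑' x, f x = ∑' a, f (.inl a) + ∑' b, f (.inr b) :=
  Summable.tsum_sum ENNReal.summable ENNReal.summable

theorem sum_step (F : Step → ENNReal) :
    ∑' s, F s = F .N + (∑' k, ∑' τ : Tri k, F (.R k τ)) + ∑' k, ∑' τ : Tri k, F (.L k τ) := by
  let G : (Unit ⊕ (Σ k, Tri k)) ⊕ (Σ k, Tri k) → Step := fun x => match x with
    | .inl (.inl _) => .N
    | .inl (.inr q) => .R q.1 q.2
    | .inr q => .L q.1 q.2
  have hG : Function.Bijective G := by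
    constructor
    · intro x y h
      match x, y, h with
      | .inl (.inl _), .inl (.inl _), _ => rfl
      | .inl (.inl _), .inl (.inr q), h => exact absurd h (by simp [G])
      | .inl (.inl _), .inr q, h => exact absurd h (by simp [G])
      | .inl (.inr q), .inl (.inl _), h => exact absurd h (by simp [G])
      | .inl (.inr ⟨k, τ⟩), .inl (.inr ⟨k', τ'⟩), h =>
        have h1 : Step.R k τ = Step.R k' τ' := h
        injection h1 with h2 h3
        subst h2
        rw [eq_of_heq h3]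
      | .inl (.inr q), .inr q', h => exact absurd h (by simp [G])
      | .inr q, .inl (.inl _), h => exact absurd h (by simp [G])
      | .inr q, .inl (.inr q'), h => exact absurd h (by simp [G])
      | .inr ⟨k, τ⟩, .inr ⟨k', τ'⟩, h =>
        have h1 : Step.L k τ = Step.L k' τ' := h
        injection h1 with h2 h3
        subst h2
        rw [eq_of_heq h3]
    · intro s
      cases s with
      | N => exact ⟨.inl (.inl ()), rfl⟩
      | R k τ => exact ⟨.inl (.inr ⟨k, τ⟩), rfl⟩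
      | L k τ => exact ⟨.inr ⟨k, τ⟩, rfl⟩
  rw [← (Equiv.ofBijective G hG).tsum_eq, w13_sum, w13_sum, tsum_fintype, ENNReal.tsum_sigma',
    ENNReal.tsum_sigma']
  simp [G]

private theorem sum_tri {β t : ENNReal} {f : ∀ k, Tri k → ENNReal}
    (h : ∀ k τ, f k τ = β ^ k * t ^ τ.verts) :
    (∑' k, ∑' τ : Tri k, f k τ) = ∑' k, β ^ (k + 1) * Zs (k + 1) t := by
  have h1 : ∀ k, ∑' τ : Tri k, f k τ = β ^ k * Zs k t := by
    intro k
    unfold Zs
    rw [← ENNReal.tsum_mul_left]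
    exact tsum_congr fun τ => h k τ
  have h0 : Zs 0 t = 0 := by
    have := tri_zero
    unfold Zs
    exact tsum_empty
  rw [tsum_congr h1, tsum_eq_zero_add' ENNReal.summable, h0, mul_zero, zero_add]

theorem sum_formula {p : Step → ENNReal} {α β : ENNReal} (h : StepLaw p α β) :
    (∑' k, ∑' τ : Tri k, p (.R k τ)) = ∑' k, β ^ (k + 1) * Zs (k + 1) (α * β) ∧
    (∑' k, ∑' τ : Tri k, p (.L k τ)) = ∑' k, β ^ (k + 1) * Zs (k + 1) (α * β) :=
  ⟨sum_tri (f := fun k τ => p (.R k τ)) h.R, sum_tri (f := fun k τ => p (.L k τ)) h.L⟩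

private theorem S_lt {α x y : ENNReal} (hxy : x < y)
    (hy : ∑' k : ℕ, y ^ (k + 1) * Zs (k + 1) (α * y) ≠ ⊤) :
    ∑' k : ℕ, x ^ (k + 1) * Zs (k + 1) (α * x) < ∑' k : ℕ, y ^ (k + 1) * Zs (k + 1) (α * y) := by
  have hm : ∀ k : ℕ, x ^ (k + 1) * Zs (k + 1) (α * x) ≤ y ^ (k + 1) * Zs (k + 1) (α * y) := fun k =>
    mul_le_mul' (pow_le_pow_left' hxy.le _) (Zs_mono (mul_le_mul' le_rfl hxy.le))
  have hy0 : y ≠ 0 := (lt_of_le_of_lt zero_le hxy).ne'
  have h1 : y ^ (0 + 1) * Zs (0 + 1) (α * y) ≠ ⊤ := ENNReal.ne_top_of_tsum_ne_top hy 0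
  have hZ0 : Zs (0 + 1) (α * y) ≠ 0 := by
    have h2 := one_le_Zs_one (α * y)
    intro h3
    rw [zero_add] at h3
    rw [h3] at h2
    exact absurd h2 (by simp)
  have hZt : Zs (0 + 1) (α * y) ≠ ⊤ := by
    intro h3
    rw [h3] at h1
    exact h1 (ENNReal.mul_top (pow_ne_zero _ hy0))
  refine ENNReal.tsum_lt_tsum (i := 0) (ne_top_of_le_ne_top hy (ENNReal.tsum_le_tsum hm)) hm ?_
  calc x ^ (0 + 1) * Zs (0 + 1) (α * x) ≤ x ^ (0 + 1) * Zs (0 + 1) (α * y) :=
        mul_le_mul' le_rfl (Zs_mono (mul_le_mul' le_rfl hxy.le))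
    _ < y ^ (0 + 1) * Zs (0 + 1) (α * y) := by
        rw [zero_add, pow_one, pow_one]
        rw [zero_add] at hZ0 hZt
        exact (ENNReal.mul_lt_mul_iff_left hZ0 hZt).2 hxy

private theorem al_mul {a : ℝ} (h1 : 2 / 3 < a) :
    ENNReal.ofReal a * ENNReal.ofReal (a * ((1 - a) / 2)) =
      ENNReal.ofReal (a ^ 2 * ((1 - a) / 2)) := by
  rw [← ENNReal.ofReal_mul (by linarith)]
  congr 1
  ring

theorem beta_eq {p : Step → ENNReal} {a : ℝ} {β : ENNReal} (h1 : 2 / 3 < a) (h2 : a < 1)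
    (h : StepLaw p (ENNReal.ofReal a) β) : β = ENNReal.ofReal (a * ((1 - a) / 2)) := by
  have hs := h.sum
  rw [sum_step, h.N, (sum_formula h).1, (sum_formula h).2, add_assoc] at hs
  have h0 : ∑' k : ℕ, ENNReal.ofReal (a * ((1 - a) / 2)) ^ (k + 1) *
      Zs (k + 1) (ENNReal.ofReal a * ENNReal.ofReal (a * ((1 - a) / 2))) =
      ENNReal.ofReal ((1 - a) / 2) := by
    rw [al_mul h1]
    exact sum_eq h1 h2
  have ht : ENNReal.ofReal a + (ENNReal.ofReal ((1 - a) / 2) + ENNReal.ofReal ((1 - a) / 2)) =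
      1 := by
    rw [← ENNReal.ofReal_add (by linarith) (by linarith), ← ENNReal.ofReal_add (by linarith)
      (by linarith), ← ENNReal.ofReal_one]
    congr 1
    ring
  have hSt : ∑' k : ℕ, β ^ (k + 1) * Zs (k + 1) (ENNReal.ofReal a * β) ≠ ⊤ := by
    intro h3
    rw [h3] at hs
    simp at hs
  rcases lt_trichotomy β (ENNReal.ofReal (a * ((1 - a) / 2))) with hlt | heq | hgt
  · have h3 := S_lt (α := ENNReal.ofReal a) hlt (by rw [h0]; exact ENNReal.ofReal_ne_top)
    rw [h0] at h3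
    have h4 := ENNReal.add_lt_add_left (a := ENNReal.ofReal a) ENNReal.ofReal_ne_top
      (ENNReal.add_lt_add h3 h3)
    rw [hs, ht] at h4
    exact absurd h4 (lt_irrefl _)
  · exact heq
  · have h3 := S_lt (α := ENNReal.ofReal a) hgt hSt
    rw [h0] at h3
    have h4 := ENNReal.add_lt_add_left (a := ENNReal.ofReal a) ENNReal.ofReal_ne_top
      (ENNReal.add_lt_add h3 h3)
    rw [hs, ht] at h4
    exact absurd h4 (lt_irrefl _)

/-- The root vertex is cut off with probability `(1 - a)/2`. -/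
theorem prob_L {p : Step → ENNReal} {a : ℝ} {β : ENNReal} (h1 : 2 / 3 < a) (h2 : a < 1)
    (h : StepLaw p (ENNReal.ofReal a) β) :
    ∑' k, ∑' τ : Tri k, p (.L k τ) = ENNReal.ofReal ((1 - a) / 2) := by
  rw [(sum_formula h).2, beta_eq h1 h2 h, al_mul h1]
  exact sum_eq h1 h2

end Pool.Agent.Spd
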