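import Pool.Agent.Spd.W08
import Pool.Agent.Spd.W13
import Pool.Agent.Spd.Unif

/-!
# SPD F1: mixtures of two laws with the same parameter

`pS μ` is a function of `a` (`stepLaw`, `beta_eq`: `p N = a`, `p (R k τ) = p (L k τ) = β^k (a β)^verts`,
`β = a (1 - a)/2`).  The mixture `(1/2) • μ + (1/2) • μ'` is again a probability measure, translation
invariant, and domain Markov: `μ {step = s, rem ∈ B} = pS μ s * μ B`, the same for `μ'` with the same
`pS`, take the average.
`prod_mix`: a property that holds a.e. for `(mix μ μ').prod unif` holds a.e. for `μ.prod unif`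
(`mix μ μ' ≥ (1/2) • μ`, `Measure.prod` is monotone: `AbsolutelyContinuous.prod`).
-/

namespace Pool.Agent.Spd

open MeasureTheory HPT

/-- Mixture of two laws. -/
noncomputable def mix (μ μ' : Measure HPT) : Measure HPT :=
  (2 : ENNReal)⁻¹ • μ + (2 : ENNReal)⁻¹ • μ'

private theorem mix_apply (μ μ' : Measure HPT) (B : Set HPT) :
    mix μ μ' B = (2 : ENNReal)⁻¹ * μ B + (2 : ENNReal)⁻¹ * μ' B := rfl

theorem pS_eq {μ μ' : Measure HPT} [IsProbabilityMeasure μ] [IsProbabilityMeasure μ']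
    (hT : TransInv μ) (hD : DomMarkov μ) (hT' : TransInv μ') (hD' : DomMarkov μ') {a : ℝ}
    (h1 : 2 / 3 < a) (h2 : a < 1) (hα : μ {H | H.step = .N} = ENNReal.ofReal a)
    (hα' : μ' {H | H.step = .N} = ENNReal.ofReal a) (s : Step) : pS μ s = pS μ' s := by
  have l1 := stepLaw hT hD
  have l2 := stepLaw hT' hD'
  have e1 : pS μ .N = ENNReal.ofReal a := hα
  have e2 : pS μ' .N = ENNReal.ofReal a := hα'
  rw [e1] at l1
  rw [e2] at l2
  have b1 := beta_eq h1 h2 l1
  have b2 := beta_eq h1 h2 l2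
  rw [b1] at l1
  rw [b2] at l2
  cases s with
  | N => rw [e1, e2]
  | R k τ => rw [l1.R, l2.R]
  | L k τ => rw [l1.L, l2.L]

theorem mix_prob {μ μ' : Measure HPT} [IsProbabilityMeasure μ] [IsProbabilityMeasure μ'] :
    IsProbabilityMeasure (mix μ μ') := by
  constructor
  rw [mix_apply, measure_univ, measure_univ, mul_one, ENNReal.inv_two_add_inv_two]

theorem mix_TI {μ μ' : Measure HPT} (hT : TransInv μ) (hT' : TransInv μ') :
    TransInv (mix μ μ') := by
  intro k B hB
  rw [mix_apply, mix_apply, hT k B hB, hT' k B hB]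

theorem mix_DM {μ μ' : Measure HPT} (hD : DomMarkov μ) (hD' : DomMarkov μ')
    (h : ∀ s, pS μ s = pS μ' s) : DomMarkov (mix μ μ') := by
  intro s B hB
  have h1 : μ {H | H.step = s} = μ' {H | H.step = s} := h s
  have h2 : (2 : ENNReal)⁻¹ * μ {H | H.step = s} + (2 : ENNReal)⁻¹ * μ' {H | H.step = s} =
      μ' {H | H.step = s} := by
    rw [h1, ← add_mul, ENNReal.inv_two_add_inv_two, one_mul]
  rw [mix_apply, mix_apply, mix_apply, hD s B hB, hD' s B hB, h2, h1]
  ring

theorem mix_N {μ μ' : Measure HPT} {a : ℝ} (hα : μ {H | H.step = .N} = ENNReal.ofReal a)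
    (hα' : μ' {H | H.step = .N} = ENNReal.ofReal a) :
    mix μ μ' {H | H.step = .N} = ENNReal.ofReal a := by
  rw [mix_apply, hα, hα', ← add_mul, ENNReal.inv_two_add_inv_two, one_mul]

theorem ae_of_mix {μ μ' : Measure HPT} [IsProbabilityMeasure μ] [IsProbabilityMeasure μ']
    {Φ : HPT × (ℕ → unitInterval) → Prop} (h : ∀ᵐ p ∂((mix μ μ').prod unif), Φ p) :
    (∀ᵐ p ∂(μ.prod unif), Φ p) ∧ ∀ᵐ p ∂(μ'.prod unif), Φ p := by
  have : IsProbabilityMeasure (mix μ μ') := mix_prob
  have h2 : (2 : ENNReal)⁻¹ ≠ 0 := ENNReal.inv_ne_zero.2 (by norm_num)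
  have a1 : μ ≪ mix μ μ' := by
    intro B hB
    rw [mix_apply] at hB
    have h3 := (add_eq_zero.1 hB).1
    exact (mul_eq_zero.1 h3).resolve_left h2
  have a2 : μ' ≪ mix μ μ' := by
    intro B hB
    rw [mix_apply] at hB
    have h3 := (add_eq_zero.1 hB).2
    exact (mul_eq_zero.1 h3).resolve_left h2
  exact ⟨(a1.prod Measure.AbsolutelyContinuous.rfl).ae_le h,
    (a2.prod Measure.AbsolutelyContinuous.rfl).ae_le h⟩

end Pool.Agent.Spd
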