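import Pool.Agent.Spd.W08
import Pool.Agent.Spd.MeasB

/-!
# SPD W15: integrals along the successive peelings of the root edge

* `lint_step`: split according to the value `s` of `H.step` (countable):
  `∫⁻ 1{H.step = s} g s f(H.rem) = g s * P{step = s} * ∫⁻ f`; for indicator functions `f` this is `DomMarkov`
  (`MeasurableSet B`), in general `Measurable.ennreal_induction`, or: the measure
  `(μ.restrict {H | H.step = s}).map rem` equals `pS μ s • μ` (`Measure.ext`, `DomMarkov`), `lintegral_map`.
* `lint_iter`: induction on `n`: the integrand for `n + 1` is `g H.step * F H.rem`, with `g s = 1` if `s` is not `L` and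
  `0` otherwise, and `F` the integrand for `n` (measurable: countable discrete target of `step`, `measurable_iter`).
  Use `Function.iterate_succ_apply`, and `∀ j < n + 1` splits into `j = 0` and `j + 1`.
  `∑' s, pS μ s * g s = μ {H | ¬ H.step.isL}` (countable partition).
* `stop_tail`: `n ≤ stopT` iff `∀ j < n, ¬ (rem^[j] H).step.isL` (`stop_spec`, `stop_min`); `lint_iter` with `f = 1`.
-/

namespace Pool.Agent.Spd

open MeasureTheory HPT

theorem measurable_iter (n : ℕ) : Measurable (fun H : HPT => rem^[n] H) :=
  measurable_rem.iterate n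

private theorem map_rem {μ : Measure HPT} (hD : DomMarkov μ) (s : Step) :
    (μ.restrict {H | H.step = s}).map (fun H : HPT => H.rem) = pS μ s • μ := by
  refine Measure.ext fun B hB => ?_
  rw [Measure.map_apply measurable_rem hB, Measure.restrict_apply (measurable_rem hB),
    Measure.smul_apply, smul_eq_mul]
  have h1 := hD s B hB
  rw [Set.inter_comm]
  exact h1

theorem lint_step {μ : Measure HPT} [IsProbabilityMeasure μ] (hD : DomMarkov μ)
    (g : Step → ENNReal) {f : HPT → ENNReal} (hf : Measurable f) :
    ∫⁻ H, g H.step * f H.rem ∂μ = (∑' s, pS μ s * g s) * ∫⁻ H, f H ∂μ := by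
  have h1 : (⋃ s : Step, {H : HPT | H.step = s}) = Set.univ := by
    ext H
    simp
  have hm : ∀ s : Step, MeasurableSet {H : HPT | H.step = s} := fun s =>
    measurable_step (measurableSet_singleton s)
  rw [← setLIntegral_univ, ← h1, lintegral_iUnion hm
    (fun s t hst => Set.disjoint_left.2 fun H h h' => hst (h.symm.trans h')),
    ← ENNReal.tsum_mul_right]
  refine tsum_congr fun s => ?_
  have h2 : ∫⁻ H in {H : HPT | H.step = s}, g H.step * f H.rem ∂μ =
      ∫⁻ H in {H : HPT | H.step = s}, g s * f H.rem ∂μ := by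
    refine setLIntegral_congr_fun (hm s) fun H hH => ?_
    have h3 : H.step = s := hH
    change g H.step * f H.rem = g s * f H.rem
    rw [h3]
  have hfr : Measurable fun H : HPT => f H.rem := hf.comp measurable_rem
  rw [h2, lintegral_const_mul _ hfr]
  have h4 : ∫⁻ H in {H : HPT | H.step = s}, f H.rem ∂μ =
      ∫⁻ G, f G ∂((μ.restrict {H | H.step = s}).map (fun H : HPT => H.rem)) :=
    (lintegral_map hf measurable_rem).symm
  rw [h4, map_rem hD s, lintegral_smul_measure, smul_eq_mul]
  ring

private theorem measurableSet_notL (n : ℕ) :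
    MeasurableSet {H : HPT | ∀ j < n, ¬ (rem^[j] H).step.isL} := by
  have h1 : {H : HPT | ∀ j < n, ¬ (rem^[j] H).step.isL} =
      ⋂ j : ℕ, ⋂ _ : j < n, (fun H : HPT => (rem^[j] H).step) ⁻¹' {s | ¬ s.isL} := by
    ext H
    simp only [Set.mem_iInter, Set.mem_preimage, Set.mem_ofPred_eq]
  rw [h1]
  exact MeasurableSet.iInter fun j => MeasurableSet.iInter fun _ =>
    (measurable_step.comp (measurable_iter j)) (MeasurableSet.of_discrete)

open Classical in
private theorem sum_notL {μ : Measure HPT} [IsProbabilityMeasure μ] (hD : DomMarkov μ) :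
    ∑' s, pS μ s * (if s.isL then 0 else 1) = μ {H | ¬ H.step.isL} := by
  have h1 := lint_step hD (fun s => if s.isL then 0 else 1) (f := fun _ => 1) measurable_const
  rw [lintegral_const, measure_univ, mul_one, mul_one] at h1
  have hm : MeasurableSet {H : HPT | ¬ H.step.isL} :=
    measurable_step (MeasurableSet.of_discrete : MeasurableSet {s : Step | ¬ s.isL})
  rw [← h1, ← lintegral_indicator_one hm]
  refine lintegral_congr fun H => ?_
  rw [mul_one]
  by_cases hH : H.step.isL
  · rw [if_pos hH, Set.indicator_of_notMem]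
    exact fun h2 => h2 hH
  · rw [if_neg hH, Set.indicator_of_mem]
    · rfl
    · exact hH

open Classical in
theorem lint_iter {μ : Measure HPT} [IsProbabilityMeasure μ] (hD : DomMarkov μ) (n : ℕ)
    {f : HPT → ENNReal} (hf : Measurable f) :
    ∫⁻ H, (if ∀ j < n, ¬ (rem^[j] H).step.isL then f (rem^[n] H) else 0) ∂μ =
      μ {H | ¬ H.step.isL} ^ n * ∫⁻ H, f H ∂μ := by
  induction n with
  | zero =>
    rw [pow_zero, one_mul]
    refine lintegral_congr fun H => ?_
    rw [if_pos (fun j hj => absurd hj (Nat.not_lt_zero j))]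
    rfl
  | succ n ih =>
    have hF : Measurable fun G : HPT =>
        if ∀ j < n, ¬ (rem^[j] G).step.isL then f (rem^[n] G) else 0 :=
      Measurable.ite (measurableSet_notL n) (hf.comp (measurable_iter n)) measurable_const
    have h1 := lint_step hD (fun s => if s.isL then 0 else 1) hF
    rw [ih, sum_notL hD, ← mul_assoc, ← pow_succ'] at h1
    rw [← h1]
    refine lintegral_congr fun H => ?_
    have h2 : (∀ j < n + 1, ¬ (rem^[j] H).step.isL) ↔
        ¬ H.step.isL ∧ ∀ j < n, ¬ (rem^[j] H.rem).step.isL := by
      rw [Nat.forall_lt_succ_left]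
      rfl
    by_cases hH : H.step.isL
    · rw [if_neg (fun h3 => (h2.1 h3).1 hH), if_pos hH, zero_mul]
    · rw [if_neg hH, one_mul]
      by_cases h4 : ∀ j < n, ¬ (rem^[j] H.rem).step.isL
      · rw [if_pos (h2.2 ⟨hH, h4⟩), if_pos h4]
        rfl
      · rw [if_neg (fun h3 => h4 (h2.1 h3).2), if_neg h4]

theorem stop_tail {μ : Measure HPT} [IsProbabilityMeasure μ] (hD : DomMarkov μ) (n : ℕ) :
    μ {H | n ≤ H.stopT} = μ {H | ¬ H.step.isL} ^ n := by
  classical
  have h1 := lint_iter hD n (f := fun _ => 1) measurable_const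
  rw [lintegral_const, measure_univ, mul_one, mul_one] at h1
  rw [← h1]
  have h2 : {H : HPT | n ≤ H.stopT} = {H : HPT | ∀ j < n, ¬ (rem^[j] H).step.isL} := by
    ext H
    constructor
    · intro h3 j hj
      exact stop_min H (lt_of_lt_of_le hj h3)
    · intro h3
      by_contra h4
      exact h3 _ (not_le.1 h4) (stop_spec H)
  rw [h2, ← lintegral_indicator_one (measurableSet_notL n)]
  refine lintegral_congr fun H => ?_
  by_cases hH : ∀ j < n, ¬ (rem^[j] H).step.isL
  · rw [if_pos hH, Set.indicator_of_mem]
    · rfl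
    · exact hH
  · rw [if_neg hH, Set.indicator_of_notMem]
    exact hH

end Pool.Agent.Spd
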