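import Pool.Agent.Spd.W14
import Pool.Agent.Spd.W15

/-!
# SPD W16: the star of the root vertex has finite mean volume; the degree is integrable

Throughout `p = pS μ`, `StepLaw p (ofReal a) β` by `stepLaw` and `hα`.

* `prob_not_L`: `μ {¬ isL} = 1 - ∑' k τ, pS μ (.L k τ) = 1 - (1 - a)/2` (`prob_L`, complement; the set
  `{H | H.step.isL}` is the disjoint union of the sets `{H | H.step = .L k τ}`).
* `vol_le`: `faces_eq` and `tri_pos`.
* `lint_starVol`: `starVol H = ∑_j 1{j ≤ stopT H} vol ((rem^[j] H).step)` (`starVol_eq`, the list `starOuts`), as a sum over all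
  `j : ℕ`.  So `∫⁻ starVol = ∑' j, ∫⁻ 1{∀ i < j, ¬ isL} vol (rem^[j] H).step = ∑' j, q^j * ∑' s, pS μ s * vol s`
  (`lintegral_tsum`, `lint_iter`, and `∫⁻ g H.step = ∑' s, pS μ s * g s`, which is `lint_step` with `f = 1`), `q = μ {¬ isL}`.
* `lintegral_starVol`: `q = (1 + a)/2 < 1`, `ENNReal.tsum_geometric`, `sum_size_lt_top` (W14), `vol_le`.
* `deg_le_starVol`: `star_blw`: no dart at `v_0` is in `star.D`.  `deg = ncard {e | SameV (bd 0) e}` (`ncard_cls`); such an `e` is inner
  in `H` (and then not inner in the star: counted by `starVol`), or `e = inv (bd i)`, where `i = -1` (`bd_next`, `simple`).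
  The set in `starVol` is finite (`star_sub`, `Sub.fin`).
* `prob_special`: `DomMarkov` with `B = {G | G.step = .L 1 .edge}`, `pS (.L 1 .edge) = β` (`stepLaw`, `verts edge = 0`), `beta_eq`.
-/

namespace Pool.Agent.Spd

open MeasureTheory HPT

theorem vol_le (s : Step) : HPT.Step.vol s ≤ 3 * s.size := by
  cases s with
  | N => exact le_rfl
  | R k τ =>
    have h1 := faces_eq τ
    have h2 := tri_pos τ
    simp only [HPT.Step.vol, Step.size]
    omega
  | L k τ =>
    have h1 := faces_eq τ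
    have h2 := tri_pos τ
    simp only [HPT.Step.vol, Step.size]
    omega

private theorem law_a {μ : Measure HPT} [IsProbabilityMeasure μ] (hT : TransInv μ)
    (hD : DomMarkov μ) {a : ℝ} (hα : μ {H | H.step = .N} = ENNReal.ofReal a) :
    StepLaw (pS μ) (ENNReal.ofReal a) (pS μ (.R 1 .edge)) := by
  have h := stepLaw hT hD
  rwa [show pS μ .N = ENNReal.ofReal a from hα] at h

private theorem meas_isL : MeasurableSet {H : HPT | H.step.isL} :=
  measurable_step (MeasurableSet.of_discrete (s := {s : Step | s.isL}))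

private theorem lint_g {μ : Measure HPT} [IsProbabilityMeasure μ] (hD : DomMarkov μ)
    (g : Step → ENNReal) : ∫⁻ H, g H.step ∂μ = ∑' s, pS μ s * g s := by
  have h := lint_step hD g (f := fun _ => 1) measurable_const
  simp only [mul_one, lintegral_const, measure_univ] at h
  exact h

open Classical in
private theorem prob_isL {μ : Measure HPT} [IsProbabilityMeasure μ] (hT : TransInv μ)
    (hD : DomMarkov μ) {a : ℝ} (h1 : 2 / 3 < a) (h2 : a < 1)
    (hα : μ {H | H.step = .N} = ENNReal.ofReal a) :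
    μ {H | H.step.isL} = ENNReal.ofReal ((1 - a) / 2) := by
  have h3 := prob_L h1 h2 (law_a hT hD hα)
  have h4 := lint_g (μ := μ) hD (fun s => if s.isL then 1 else 0)
  have h5 : ∫⁻ H : HPT, (if H.step.isL then 1 else 0 : ENNReal) ∂μ = μ {H | H.step.isL} := by
    rw [← lintegral_indicator_one meas_isL]
    refine lintegral_congr fun H => ?_
    by_cases hH : H.step.isL
    · rw [if_pos hH, Set.indicator_of_mem (show H ∈ {H : HPT | H.step.isL} from hH)]
      rfl
    · rw [if_neg hH, Set.indicator_of_notMem (show H ∉ {H : HPT | H.step.isL} from hH)]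
  rw [h5, sum_step] at h4
  rw [h4, ← h3]
  have e0 : ¬ Step.N.isL := fun h => h
  have e1 : ∀ (k : ℕ) (τ : Tri k), ¬ (Step.R k τ).isL := fun k τ h => h
  have e2 : ∀ (k : ℕ) (τ : Tri k), (Step.L k τ).isL := fun k τ => trivial
  simp only [if_neg e0, if_neg (e1 _ _), if_pos (e2 _ _), mul_zero, mul_one, tsum_zero, zero_add]

theorem prob_not_L {μ : Measure HPT} [IsProbabilityMeasure μ] (hT : TransInv μ)
    (hD : DomMarkov μ) {a : ℝ} (h1 : 2 / 3 < a) (h2 : a < 1)
    (hα : μ {H | H.step = .N} = ENNReal.ofReal a) :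
    μ {H | ¬ H.step.isL} = ENNReal.ofReal ((1 + a) / 2) := by
  have h3 : {H : HPT | ¬ H.step.isL} = {H : HPT | H.step.isL}ᶜ := rfl
  rw [h3, prob_compl_eq_one_sub meas_isL, prob_isL hT hD h1 h2 hα, ← ENNReal.ofReal_one,
    ← ENNReal.ofReal_sub 1 (by linarith)]
  congr 1
  ring

private theorem le_stop (H : HPT) (j : ℕ) : j < H.stopT + 1 ↔ ∀ i < j, ¬ (rem^[i] H).step.isL := by
  constructor
  · intro hj i hi
    exact stop_min H (by omega)
  · intro h
    by_contra hcon
    exact h H.stopT (by omega) (stop_spec H)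

open Classical in
private theorem starVol_tsum (H : HPT) : (H.starVol : ENNReal) =
    ∑' j : ℕ, if ∀ i < j, ¬ (rem^[i] H).step.isL then
      (HPT.Step.vol (rem^[j] H).step : ENNReal) else 0 := by
  rw [tsum_eq_sum (s := Finset.range (H.stopT + 1))]
  · have h1 : ∀ j ∈ Finset.range (H.stopT + 1), (if ∀ i < j, ¬ (rem^[i] H).step.isL then
        (HPT.Step.vol (rem^[j] H).step : ENNReal) else 0) =
        ((HPT.Step.vol (rem^[j] H).step : ℕ) : ENNReal) := by
      intro j hj
      rw [if_pos ((le_stop H j).1 (Finset.mem_range.1 hj))]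
    rw [Finset.sum_congr rfl h1, starVol_eq, ← Nat.cast_sum]
    congr 1
    unfold starOuts
    rw [List.map_map, ← Multiset.sum_coe]
    rfl
  · intro j hj
    rw [if_neg]
    intro h
    exact hj (Finset.mem_range.2 ((le_stop H j).2 h))

private theorem meas_pre (j : ℕ) : MeasurableSet {H : HPT | ∀ i < j, ¬ (rem^[i] H).step.isL} := by
  have h : {H : HPT | ∀ i < j, ¬ (rem^[i] H).step.isL} =
      ⋂ i : ℕ, ⋂ _ : i < j, (fun H : HPT => rem^[i] H) ⁻¹' {H : HPT | H.step.isL}ᶜ := by
    ext H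
    simp
  rw [h]
  exact MeasurableSet.iInter fun i => MeasurableSet.iInter fun _ =>
    measurable_iter i meas_isL.compl

private theorem meas_vol : Measurable (fun H : HPT => (HPT.Step.vol H.step : ENNReal)) :=
  (Measurable.of_discrete (f := fun s : Step => (HPT.Step.vol s : ENNReal))).comp measurable_step

theorem lint_starVol {μ : Measure HPT} [IsProbabilityMeasure μ] (hD : DomMarkov μ) :
    ∫⁻ H, (H.starVol : ENNReal) ∂μ =
      ∑' j : ℕ, μ {H | ¬ H.step.isL} ^ j * ∑' s, pS μ s * (HPT.Step.vol s : ENNReal) := by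
  classical
  rw [lintegral_congr starVol_tsum, lintegral_tsum]
  · refine tsum_congr fun j => ?_
    have h1 := lint_iter hD j meas_vol
    rw [h1, lint_g hD (fun s => (HPT.Step.vol s : ENNReal))]
  · intro j
    exact (Measurable.ite (meas_pre j) (meas_vol.comp (measurable_iter j))
      measurable_const).aemeasurable

theorem lintegral_starVol {μ : Measure HPT} [IsProbabilityMeasure μ] (hT : TransInv μ)
    (hD : DomMarkov μ) {a : ℝ} (h1 : 2 / 3 < a) (h2 : a < 1)
    (hα : μ {H | H.step = .N} = ENNReal.ofReal a) : ∫⁻ H, (H.starVol : ENNReal) ∂μ < ⊤ := by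
  rw [lint_starVol hD, ENNReal.tsum_mul_right, ENNReal.tsum_geometric,
    prob_not_L hT hD h1 h2 hα]
  refine ENNReal.mul_lt_top ?_ ?_
  · rw [ENNReal.inv_lt_top, tsub_pos_iff_lt, ENNReal.ofReal_lt_one]
    linarith
  · have h3 := sum_size_lt_top h1 h2 (law_a hT hD hα)
    refine lt_of_le_of_lt (b := 3 * ∑' s, pS μ s * (s.size : ENNReal)) ?_
      (ENNReal.mul_lt_top (by norm_num) h3)
    rw [← ENNReal.tsum_mul_left]
    refine ENNReal.tsum_le_tsum fun s => ?_
    rw [mul_left_comm]
    refine mul_le_mul_right ?_ _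
    exact_mod_cast vol_le s

theorem deg_le_starVol (H : HPT) : H.deg (H.M.bd 0) ≤ H.starVol + 1 := by
  have hok := H.ok
  rw [← H.ncard_cls (hok.bd_mem 0)]
  have hfin : {d | H.M.Inner d ∧ ¬ H.star.M.Inner d}.Finite := (star_sub H).fin
  have hsub : {e | H.M.SameV (H.M.bd 0) e} ⊆
      {d | H.M.Inner d ∧ ¬ H.star.M.Inner d} ∪ {H.M.inv (H.M.bd (-1))} := by
    intro e he
    have heD : e ∈ H.M.D := hok.sameV_mem (hok.bd_mem 0) he
    rcases hok.inner_or_outer heD with hI | ⟨i, hi⟩
    · exact Or.inl ⟨hI, fun h => star_blw H e he h.1⟩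
    · right
      have h1 := hok.bd_next i
      rw [← hi] at h1
      have h2 := hok.simple 0 (i + 1) (hok.sameV_trans he h1)
      have h3 : i = -1 := by omega
      rw [hi, h3]
      rfl
  calc Set.ncard {e | H.M.SameV (H.M.bd 0) e}
      ≤ Set.ncard ({d | H.M.Inner d ∧ ¬ H.star.M.Inner d} ∪ {H.M.inv (H.M.bd (-1))}) :=
        Set.ncard_le_ncard hsub (hfin.union (Set.finite_singleton _))
    _ ≤ Set.ncard {d | H.M.Inner d ∧ ¬ H.star.M.Inner d} +
        Set.ncard {H.M.inv (H.M.bd (-1))} := Set.ncard_union_le _ _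
    _ = H.starVol + 1 := by
        rw [Set.ncard_singleton]
        rfl

theorem lintegral_deg {μ : Measure HPT} [IsProbabilityMeasure μ] (hT : TransInv μ)
    (hD : DomMarkov μ) {a : ℝ} (h1 : 2 / 3 < a) (h2 : a < 1)
    (hα : μ {H | H.step = .N} = ENNReal.ofReal a) :
    ∫⁻ H, (H.deg (H.M.bd 0) : ENNReal) ∂μ < ⊤ := by
  have h3 := lintegral_starVol hT hD h1 h2 hα
  calc ∫⁻ H, (H.deg (H.M.bd 0) : ENNReal) ∂μ ≤ ∫⁻ H : HPT, ((H.starVol : ENNReal) + 1) ∂μ := by
        refine lintegral_mono fun H => ?_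
        have h4 : ((H.deg (H.M.bd 0) : ℕ) : ENNReal) ≤ ((H.starVol + 1 : ℕ) : ENNReal) :=
          Nat.cast_le.2 (deg_le_starVol H)
        rwa [Nat.cast_add, Nat.cast_one] at h4
    _ = ∫⁻ H : HPT, (H.starVol : ENNReal) ∂μ + 1 := by
        rw [lintegral_add_right _ measurable_const, lintegral_const, measure_univ, one_mul]
    _ < ⊤ := ENNReal.add_lt_top.2 ⟨h3, ENNReal.one_lt_top⟩

/-- The special beginning (used to return to exposed degree one) has positive probability. -/
theorem prob_special {μ : Measure HPT} [IsProbabilityMeasure μ] (hT : TransInv μ)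
    (hD : DomMarkov μ) {a : ℝ} (h1 : 2 / 3 < a) (h2 : a < 1)
    (hα : μ {H | H.step = .N} = ENNReal.ofReal a) :
    μ {H | H.step = .N ∧ H.rem.step = .L 1 .edge} =
      ENNReal.ofReal (a * (a * ((1 - a) / 2))) := by
  have hlaw := law_a hT hD hα
  have h3 := hD .N {G | G.step = .L 1 .edge} (measurable_step (measurableSet_singleton _))
  have h4 : {H : HPT | H.step = .N ∧ H.rem ∈ {G : HPT | G.step = .L 1 .edge}} =
      {H : HPT | H.step = .N ∧ H.rem.step = .L 1 .edge} := rfl
  rw [h4, hα] at h3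
  rw [h3]
  have h5 : μ {G : HPT | G.step = .L 1 .edge} = ENNReal.ofReal (a * ((1 - a) / 2)) := by
    have h6 := hlaw.L 1 .edge
    rw [Tri.verts, pow_one, pow_zero, mul_one, beta_eq h1 h2 hlaw] at h6
    exact h6
  rw [h5, ← ENNReal.ofReal_mul (by linarith)]

end Pool.Agent.Spd
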