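import Pool.Agent.Spd.G16
import Pool.Agent.Spd.Mix
import Pool.Agent.Spd.C20
import Pool.Agent.Spd.I08
import Pool.Agent.Spd.W16

/-!
# SPD: the speed away from the boundary
-/

namespace Pool.Agent.Spd

open MeasureTheory HPT Filter

theorem escMass_pos {μ : Measure HPT} [IsProbabilityMeasure μ] (hT : TransInv μ)
    (hD : DomMarkov μ) {a : ℝ} (h1 : 2 / 3 < a) (h2 : a < 1)
    (hα : μ {H | H.step = .N} = ENNReal.ofReal a) : 0 < escMass μ := by
  obtain ⟨c, C, lam, hc, hlam, h⟩ := iso hT hD h1 h2 hα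
  refine lt_of_lt_of_le ?_ (escMass_ge hT (lintegral_deg hT hD h1 h2 hα) hc hlam h)
  rw [ENNReal.ofReal_pos]
  positivity

theorem speed_one {μ : Measure HPT} [IsProbabilityMeasure μ] (hT : TransInv μ)
    (hD : DomMarkov μ) {a : ℝ} (h1 : 2 / 3 < a) (h2 : a < 1)
    (hα : μ {H | H.step = .N} = ENNReal.ofReal a) :
    ∃ v : ℝ, ∀ᵐ p ∂(μ.prod unif),
      Tendsto (fun m : ℕ => (p.1.distBd (p.1.walk p.2 m) : ℝ) / m) atTop (nhds v) := by
  have hv : vStar μ < ⊤ := lintegral_starVol hT hD h1 h2 hα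
  have hs : 0 < μ {G | special G} := by
    have h := prob_special hT hD h1 h2 hα
    have h3 : {G : HPT | special G} = {H | H.step = .N ∧ H.rem.step = .L 1 .edge} := rfl
    rw [h3, h, ENNReal.ofReal_pos]
    have : 0 < (1 - a) / 2 := by linarith
    positivity
  have hp : 0 < pReg μ := pReg_pos (escMass_pos hT hD h1 h2 hα)
  exact speed_const hT hD hv hs hp

theorem speed_all (a : ℝ) (h1 : 2 / 3 < a) (h2 : a < 1) : ∃ v : ℝ, ∀ μ : Measure HPT,
    IsProbabilityMeasure μ → TransInv μ → DomMarkov μ →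
    μ {H | H.step = .N} = ENNReal.ofReal a →
    ∀ᵐ p ∂(μ.prod unif),
      Tendsto (fun m : ℕ => (p.1.distBd (p.1.walk p.2 m) : ℝ) / m) atTop (nhds v) := by
  by_cases hex : ∃ μ : Measure HPT, IsProbabilityMeasure μ ∧ TransInv μ ∧ DomMarkov μ ∧
      μ {H | H.step = .N} = ENNReal.ofReal a
  · obtain ⟨μ₀, hP₀, hT₀, hD₀, hα₀⟩ := hex
    obtain ⟨v, hv⟩ := speed_one hT₀ hD₀ h1 h2 hα₀
    refine ⟨v, fun μ hP hT hD hα => ?_⟩
    have hmix := pS_eq hT₀ hD₀ hT hD h1 h2 hα₀ hα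
    have hPm : IsProbabilityMeasure (mix μ₀ μ) := mix_prob
    obtain ⟨v', hv'⟩ := speed_one (mix_TI hT₀ hT) (mix_DM hD₀ hD hmix) h1 h2 (mix_N hα₀ hα)
    obtain ⟨hA, hB⟩ := ae_of_mix hv'
    obtain ⟨p, hp1, hp2⟩ := (hv.and hA).exists
    have : v = v' := tendsto_nhds_unique hp1 hp2
    rw [this]
    exact hB
  · exact ⟨0, fun μ hP hT hD hα => absurd ⟨μ, hP, hT, hD, hα⟩ hex⟩

end Pool.Agent.Spd
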