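import Pool.Agent.Spd.Frame1

/-!
(Part `Frame2`: `stays_iff`, `deg_split`, `frame_dist`.  The text below is the common header of the parts.)

# SPD A21: change of frame at a time after which the path stays above the line

`n` is a pioneer time of the path `w` in `H`, `G = regAt c₀ H w n` (rooted at the position), and
the path stays strictly above the line of `G` after `n` (`Stays`).  Then the path seen in `G` is
`w'`: `w' 0 = inv (G.bd (-1))`, `w' m = w (n + m)` for `m ≥ 1`, and everything explored after time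
`n` in `H` is what is explored along `w'` in `G`.

* `frame_path`: `IsPath G w'`: `w (n+m)`, `m ≥ 1`, is above the line, so it is a dart of `G`
  (`Abv`), `SameV` in `G` and `H` agree there; `m = 0`: `inv (w (n+1)) ~ w n ~ G.bd 0` in `H`, and
  it is a dart of `G` since `w (n+1)` is inner in `G`; `inv (G.bd (-1)) ~ G.bd 0` (`bd_prev`).
* `frame_reg` for `m ≥ 1` (induction): `m = 1`: `reg (n+1) = G.star` (`reg_succ_pio`); in `G`, time
  `0` is a pioneer time with index `0`, so `reg 1 = (G.shift 0).star`.  Step: positions `w (n+m)`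
  are above the line of `G`, so `on_iff_of_abv` shows that the pioneer condition and the index are
  the same in both frames (`pidx_unique`).
* `frame_expD`: for `m ≥ 1` all darts at the position are darts of `G`.
* `esc_iff`: the walk in `H` after time `n` agrees with the walk in `G` as long as it is above the
  line (`abv_rot`); the first dart is `inv (w (n+1))`, which is `rot_G^κ (inv (G.bd (-1)))` for a
  unique `κ < deg_G` if it is a dart of `G`.
* `frame_dist`: `dist_le_add` and `dist_sub_le`.
-/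

namespace Pool.Agent.Spd

namespace HPT

variable {H : HPT} {w : ℕ → ℕ} {c₀ : List ℤ} {n : ℕ}

/-- For `m < n`, if the path stays above the line of `reg n` after time `n`, then it stays above
the line of `reg m` after time `m` iff it does so up to time `n`. -/
theorem stays_iff (P : IsPath H w) (S : Stays c₀ H w n) {m : ℕ} (hm : m < n) :
    Stays c₀ H w m ↔
      Pio c₀ H w m ∧ ∀ j, m < j → j ≤ n → Abv H (reg c₀ H w m) (w j) := by
  have _hP := P
  refine ⟨fun h => ⟨h.1, fun j hj _ => h.2 j hj⟩, fun h => ⟨h.1, fun j hj => ?_⟩⟩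
  rcases le_or_gt j n with hjn | hjn
  · exact h.2 j hj hjn
  · exact abv_mono (reg_mono hm.le) (S.2 j hjn)

/-- Degree at a pioneer: darts of the region and explored darts. -/
theorem deg_split (P : IsPath H w) (hp : Pio c₀ H w n) :
    H.deg (w n) = (regAt c₀ H w n).deg ((regAt c₀ H w n).M.bd 0) + expD c₀ H w n := by
  have S : Sub (regAt c₀ H w n) H := regAt_sub
  have hw : w n ∈ H.M.D := P.mem n
  have hb : (regAt c₀ H w n).M.bd 0 ∈ (regAt c₀ H w n).M.D :=
    PreMap.IsHPT.bd_mem (regAt c₀ H w n).ok 0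
  have h0 : H.M.SameV ((regAt c₀ H w n).M.bd 0) (w n) := regAt_bd hp
  have h1 : H.M.SameV (w n) ((regAt c₀ H w n).M.bd 0) := H.ok.sameV_symm (S.memD hb) h0
  have e1 : {e | (regAt c₀ H w n).M.SameV ((regAt c₀ H w n).M.bd 0) e} =
      {e | H.M.SameV (w n) e ∧ e ∈ (reg c₀ H w n).M.D} := by
    ext e
    simp only [Set.mem_ofPred_eq]
    rw [S.sameV hb e]
    exact ⟨fun h => ⟨H.ok.sameV_trans h1 h.1, h.2⟩, fun h => ⟨H.ok.sameV_trans h0 h.1, h.2⟩⟩
  have e2 : {e | H.M.SameV (w n) e} = {e | H.M.SameV (w n) e ∧ e ∈ (reg c₀ H w n).M.D} ∪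
      {e | H.M.SameV (w n) e ∧ e ∉ (reg c₀ H w n).M.D} := by
    ext e
    simp only [Set.mem_ofPred_eq, Set.mem_union]
    tauto
  have hf : {e | H.M.SameV (w n) e}.Finite := H.cls_finite hw
  rw [← H.ncard_cls hw, ← (regAt c₀ H w n).ncard_cls hb, e1, expD, e2]
  refine Set.ncard_union_eq ?_ (hf.subset fun e h => h.1) (hf.subset fun e h => h.1)
  rw [Set.disjoint_left]
  exact fun e h h' => h'.2 h.2

theorem frame_dist (P : IsPath H w) (S : Stays c₀ H w n) {C : ℕ}
    (hC : ∀ i, H.distBd ((reg c₀ H w n).M.bd i) ≤ C) (m : ℕ) :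
    (regAt c₀ H w n).distBd (w (n + (m + 1))) ≤ H.distBd (w (n + (m + 1))) ∧
      H.distBd (w (n + (m + 1))) ≤ (regAt c₀ H w n).distBd (w (n + (m + 1))) + C := by
  have _hP := P
  have T : Sub (regAt c₀ H w n) H := regAt_sub
  have hmem : w (n + (m + 1)) ∈ (regAt c₀ H w n).M.D :=
    (S.2 (n + (m + 1)) (by omega) (w (n + (m + 1))) (H.ok.sameV_refl _)).1.1
  refine ⟨dist_sub_le T hmem, dist_le_add T (fun i => ?_) hmem⟩
  exact hC (i + pidx c₀ H w n)

end HPT

end Pool.Agent.Spd
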