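import Pool.Agent.Spd.Frame1

/-!
(Part `Frame3`: `esc_iff`, `esc_walk`.  The text below is the common header of the parts.)

# SPD A21: change of frame at a time after which the path stays above the line

`n` is a pioneer time of the path `w` in `H`, `G = regAt c₀ H w n` (rooted at the position), and
the path stays strictly above the line of `G` after `n` (`Stays`).  Then the path seen in `G` is
`w'`: `w' 0 = inv (G.bd (-1))`, `w' m = w (n + m)` for `m ≥ 1`, and everything explored after time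
`n` in `H` is what is explored along `w'` in `G`.

* `frame_path`: `IsPath G w'`: `w (n+m)`, `m ≥ 1`, is above the line, so it is a dart of `G`
  (`Abv`), `SameV` in `G` and `H` agree there; `m = 0`: `inv (w (n+1)) ~ w n ~ G.bd 0` in `H`, and
  it is a dart of `G` since `w (n+1)` is inner in `G`; `inv (G.bd (-1)) ~ G.bd 0` (`bd_prev`).
* `frame_reg` for `m ≥ 1` (induction): `m = 1`: `reg (n+1) = G.star` (`reg_succ_pio`); in `G`, time
  `0` is a pioneer time with index `0`, so `reg 1 = (G.shift 0).star`.  Step: positions `w (n+m)`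
  are above the line of `G`, so `on_iff_of_abv` shows that the pioneer condition and the index are
  the same in both frames (`pidx_unique`).
* `frame_expD`: for `m ≥ 1` all darts at the position are darts of `G`.
* `esc_iff`: the walk in `H` after time `n` agrees with the walk in `G` as long as it is above the
  line (`abv_rot`); the first dart is `inv (w (n+1))`, which is `rot_G^κ (inv (G.bd (-1)))` for a
  unique `κ < deg_G` if it is a dart of `G`.
* `frame_dist`: `dist_le_add` and `dist_sub_le`.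
-/

namespace Pool.Agent.Spd

namespace HPT

private theorem abv_shift' {G H : HPT} (i : ℤ) (e : ℕ) :
    Abv H (G.shift i) e ↔ Abv H G e := by
  constructor
  · intro h e' he'
    exact ⟨(shift_inner G i e').1 (h e' he').1, (shift_inner G i _).1 (h e' he').2⟩
  · intro h e' he'
    exact ⟨(shift_inner G i e').2 (h e' he').1, (shift_inner G i _).2 (h e' he').2⟩

private theorem walkFrom_mem {H : HPT} {f : ℕ} (hf : f ∈ H.M.D) (V : ℕ → unitInterval) (m : ℕ) :
    H.walkFrom f V m ∈ H.M.D := by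
  induction m with
  | zero => exact hf
  | succ m ih => exact H.ok.inv_mem _ (H.ok.iter_mem ih _)

/-- One step of the walk at a vertex above the line is the same in both frames. -/
private theorem one_step {G H : HPT} (S : Sub G H) {e : ℕ} (he : e ∈ H.M.D) (ha : Abv H G e)
    (u : ℝ) : G.M.inv (G.M.rot^[⌊u * G.deg e⌋₊] e) = H.M.inv (H.M.rot^[⌊u * H.deg e⌋₊] e) := by
  rw [(abv_rot S he ha 0).2, (abv_rot S he ha _).1, S.inv_eq]

private theorem agree' {G H : HPT} (S : Sub G H) {f : ℕ} (hf : f ∈ H.M.D)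
    (V : ℕ → unitInterval) (hV : ∀ m, Abv H G (H.walkFrom f V m)) (m : ℕ) :
    G.walkFrom f V m = H.walkFrom f V m := by
  induction m with
  | zero => rfl
  | succ m ih =>
    simp only [walkFrom]
    rw [ih]
    exact one_step S (walkFrom_mem hf V m) (hV m) _

/-- A dart of `G` whose vertex is not on the line is above the line. -/
private theorem abv_of_mem {G H : HPT} (S : Sub G H) {e : ℕ} (he : e ∈ G.M.D)
    (hn : ∀ i, ¬ G.M.SameV (G.M.bd i) e) : Abv H G e := by
  rcases trich S (S.memD he) with h | h | h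
  · exact absurd he (h e ⟨0, rfl⟩)
  · obtain ⟨i, hi⟩ := h
    exact absurd ((S.sameV (G.ok.bd_inner i).1 e).2 ⟨hi, he⟩) (hn i)
  · exact h

private theorem agree {G H : HPT} (S : Sub G H) {f : ℕ} (hf : f ∈ G.M.D)
    (V : ℕ → unitInterval) (hV : ∀ m i, ¬ G.M.SameV (G.M.bd i) (G.walkFrom f V m)) (m : ℕ) :
    G.walkFrom f V m = H.walkFrom f V m ∧ Abv H G (H.walkFrom f V m) := by
  have hH : f ∈ H.M.D := S.memD hf
  have habv : ∀ m, G.walkFrom f V m = H.walkFrom f V m → Abv H G (H.walkFrom f V m) := by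
    intro m hm
    rw [← hm]
    exact abv_of_mem S (walkFrom_mem hf V m) (hV m)
  induction m with
  | zero => exact ⟨rfl, habv 0 rfl⟩
  | succ m ih =>
    have heq : G.walkFrom f V (m + 1) = H.walkFrom f V (m + 1) := by
      simp only [walkFrom]
      rw [ih.1]
      exact one_step S (walkFrom_mem hH V m) ih.2 _
    exact ⟨heq, habv _ heq⟩

private theorem walk_tail (H : HPT) (U : ℕ → unitInterval) (n m : ℕ) :
    H.walk U (n + 1 + m) = H.walkFrom (H.walk U (n + 1)) (fun j => U (n + 1 + j)) m := by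
  rw [walk_eq, walkFrom_add, ← walk_eq]

variable {H : HPT} {w : ℕ → ℕ} {c₀ : List ℤ} {n : ℕ}

/-- Walk version: the walk stays above the line of `reg n` iff its continuation is, in the frame
`G`, the walk `walkK κ` with `Esc κ`, where `κ` is the number of the dart taken at time `n` in the
rotation of `G`. -/
theorem esc_iff (U : ℕ → unitInterval) (hp : Pio c₀ H (H.walk U) n) :
    Stays c₀ H (H.walk U) n ↔
      ∃ κ, κ < (regAt c₀ H (H.walk U) n).deg ((regAt c₀ H (H.walk U) n).M.bd 0) ∧
        H.M.inv (H.walk U (n + 1)) = (regAt c₀ H (H.walk U) n).M.rot^[κ]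
          ((regAt c₀ H (H.walk U) n).M.inv ((regAt c₀ H (H.walk U) n).M.bd (-1))) ∧
        (regAt c₀ H (H.walk U) n).Esc κ (fun j => U (n + 1 + j)) := by
  have S : Sub (regAt c₀ H (H.walk U) n) H := regAt_sub
  have hbd := regAt_bd hp
  have P := walk_isPath H U
  have hf : H.walk U (n + 1) ∈ H.M.D := P.mem (n + 1)
  have hst := P.step n
  have hab : ∀ e, Abv H (regAt c₀ H (H.walk U) n) e ↔ Abv H (reg c₀ H (H.walk U) n) e :=
    fun e => abv_shift' _ e
  generalize hG : regAt c₀ H (H.walk U) n = G at *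
  have hGD : ∀ i, G.M.bd i ∈ G.M.D := fun i => (G.ok.bd_inner i).1
  have hb0 : G.M.SameV (G.M.bd 0) (G.M.inv (G.M.bd (-1))) := by
    have := G.ok.bd_prev 0
    simpa using this
  have hbm : G.M.inv (G.M.bd (-1)) ∈ G.M.D := G.ok.inv_mem _ (hGD (-1))
  constructor
  · rintro ⟨-, hA⟩
    have hA' : ∀ m, Abv H G (H.walkFrom (H.walk U (n + 1)) (fun j => U (n + 1 + j)) m) := by
      intro m
      rw [← walk_tail]
      exact (hab _).2 (hA _ (by omega))
    have hfG : H.walk U (n + 1) ∈ G.M.D := ((hA' 0) _ ⟨0, rfl⟩).1.1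
    have hiG : H.M.inv (H.walk U (n + 1)) ∈ G.M.D := by
      rw [← S.inv_eq]
      exact G.ok.inv_mem _ hfG
    have h1 : H.M.SameV (G.M.bd 0) (H.M.inv (H.walk U (n + 1))) := H.ok.sameV_trans hbd hst
    have h2 : G.M.SameV (G.M.bd 0) (H.M.inv (H.walk U (n + 1))) :=
      (S.sameV (hGD 0) _).2 ⟨h1, hiG⟩
    have h3 : G.M.SameV (G.M.inv (G.M.bd (-1))) (H.M.inv (H.walk U (n + 1))) :=
      G.ok.sameV_trans (G.ok.sameV_symm (hGD 0) hb0) h2
    obtain ⟨κ, hκ, hrot⟩ := (G.sameV_iff_lt hbm).1 h3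
    rw [G.deg_sameV (hGD 0) hb0] at hκ
    refine ⟨κ, hκ, hrot.symm, hκ, fun m i hi => ?_⟩
    have h4 : G.walkK κ (fun j => U (n + 1 + j)) (m + 1) =
        H.walkFrom (H.walk U (n + 1)) (fun j => U (n + 1 + j)) m := by
      rw [← agree' S hf _ hA' m]
      simp only [walkK]
      rw [hrot, S.inv_eq, H.ok.inv_inv _ hf]
    rw [h4] at hi
    have hmem := walkFrom_mem hf (fun j => U (n + 1 + j)) m
    exact not_on_of_abv S hmem (hA' m) ⟨i, ((S.sameV (hGD i) _).1 hi).1⟩
  · rintro ⟨κ, -, hrot, he⟩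
    refine ⟨hp, fun m hm => ?_⟩
    obtain ⟨j, rfl⟩ : ∃ j, m = n + 1 + j := ⟨m - (n + 1), by omega⟩
    have hiG : H.M.inv (H.walk U (n + 1)) ∈ G.M.D := by
      rw [hrot]
      exact G.ok.iter_mem hbm κ
    have hfG : H.walk U (n + 1) ∈ G.M.D := by
      rw [← H.ok.inv_inv _ hf, ← S.inv_eq]
      rw [← S.inv_eq] at hiG
      exact G.ok.inv_mem _ hiG
    have hV : ∀ m i, ¬ G.M.SameV (G.M.bd i)
        (G.walkFrom (H.walk U (n + 1)) (fun j => U (n + 1 + j)) m) := by
      intro m i hi
      apply he.2 m i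
      simp only [walkK]
      rw [← hrot, S.inv_eq, H.ok.inv_inv _ hf]
      exact hi
    rw [walk_tail, ← hab]
    exact (agree S hfG _ hV j).2

theorem esc_walk (U : ℕ → unitInterval) (hp : Pio c₀ H (H.walk U) n) {κ : ℕ}
    (hκ : H.M.inv (H.walk U (n + 1)) = (regAt c₀ H (H.walk U) n).M.rot^[κ]
          ((regAt c₀ H (H.walk U) n).M.inv ((regAt c₀ H (H.walk U) n).M.bd (-1))))
    (he : (regAt c₀ H (H.walk U) n).Esc κ (fun j => U (n + 1 + j))) :
    frame (regAt c₀ H (H.walk U) n) (H.walk U) n =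
      (regAt c₀ H (H.walk U) n).walkK κ (fun j => U (n + 1 + j)) := by
  have S : Sub (regAt c₀ H (H.walk U) n) H := regAt_sub
  have P := walk_isPath H U
  have hf : H.walk U (n + 1) ∈ H.M.D := P.mem (n + 1)
  generalize hG : regAt c₀ H (H.walk U) n = G at *
  have hbm : G.M.inv (G.M.bd (-1)) ∈ G.M.D := G.ok.inv_mem _ (G.ok.bd_inner (-1)).1
  have hiG : H.M.inv (H.walk U (n + 1)) ∈ G.M.D := by
    rw [hκ]
    exact G.ok.iter_mem hbm κ
  have hfG : H.walk U (n + 1) ∈ G.M.D := by
    rw [← H.ok.inv_inv _ hf, ← S.inv_eq]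
    rw [← S.inv_eq] at hiG
    exact G.ok.inv_mem _ hiG
  have hV : ∀ m i, ¬ G.M.SameV (G.M.bd i)
      (G.walkFrom (H.walk U (n + 1)) (fun j => U (n + 1 + j)) m) := by
    intro m i hi
    apply he.2 m i
    simp only [walkK]
    rw [← hκ, S.inv_eq, H.ok.inv_inv _ hf]
    exact hi
  funext m
  cases m with
  | zero => rfl
  | succ m =>
    simp only [frame, walkK]
    rw [← hκ, S.inv_eq, H.ok.inv_inv _ hf, (agree S hfG _ hV m).1, ← walk_tail]
    congr 1
    omega

end HPT

end Pool.Agent.Spd
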