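import Pool.Agent.Spd.PathReg
import Pool.Agent.Spd.Dist

/-!
(Part `Frame1`: `Stays`, `frame`, `regAt_sub`, `frame_isPath`, `frame_reg`, `frame_pio`,
`frame_regAt`, `frame_expD`, `frame_stays`.  The text below is the common header of the parts.)

# SPD A21: change of frame at a time after which the path stays above the line

`n` is a pioneer time of the path `w` in `H`, `G = regAt c₀ H w n` (rooted at the position), and
the path stays strictly above the line of `G` after `n` (`Stays`).  Then the path seen in `G` is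
`w'`: `w' 0 = inv (G.bd (-1))`, `w' m = w (n + m)` for `m ≥ 1`, and everything explored after time
`n` in `H` is what is explored along `w'` in `G`.

* `frame_path`: `IsPath G w'`: `w (n+m)`, `m ≥ 1`, is above the line, so it is a dart of `G`
  (`Abv`), `SameV` in `G` and `H` agree there; `m = 0`: `inv (w (n+1)) ~ w n ~ G.bd 0` in `H`, and
  it is a dart of `G` since `w (n+1)` is inner in `G`; `inv (G.bd (-1)) ~ G.bd 0` (`bd_prev`).
* `frame_reg` for `m ≥ 1` (induction): `m = 1`: `reg (n+1) = G.star` (`reg_succ_pio`); in `G`, time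
  `0` is a pioneer time with index `0`, so `reg 1 = (G.shift 0).star`.  Step: positions `w (n+m)`
  are above the line of `G`, so `on_iff_of_abv` shows that the pioneer condition and the index are
  the same in both frames (`pidx_unique`).
* `frame_expD`: for `m ≥ 1` all darts at the position are darts of `G`.
* `esc_iff`: the walk in `H` after time `n` agrees with the walk in `G` as long as it is above the
  line (`abv_rot`); the first dart is `inv (w (n+1))`, which is `rot_G^κ (inv (G.bd (-1)))` for a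
  unique `κ < deg_G` if it is a dart of `G`.
* `frame_dist`: `dist_le_add` and `dist_sub_le`.
-/

namespace Pool.Agent.Spd

namespace HPT

/-- After the pioneer time `n` the path stays strictly above the line of `reg n`. -/
def Stays (c₀ : List ℤ) (H : HPT) (w : ℕ → ℕ) (n : ℕ) : Prop :=
  Pio c₀ H w n ∧ ∀ m, n < m → Abv H (reg c₀ H w n) (w m)

/-- The path seen from the frame `G` at time `n`. -/
def frame (G : HPT) (w : ℕ → ℕ) (n : ℕ) : ℕ → ℕ
  | 0 => G.M.inv (G.M.bd (-1))
  | m + 1 => w (n + (m + 1))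

variable {H : HPT} {w : ℕ → ℕ} {c₀ : List ℤ} {n : ℕ}

theorem regAt_sub : Sub (regAt c₀ H w n) H := (reg_sub n).shift _

private theorem fr_shift_inner (k : ℤ) (K : HPT) (d : ℕ) :
    (K.shift k).M.Inner d ↔ K.M.Inner d := by
  constructor
  · rintro ⟨h1, h2⟩
    refine ⟨h1, fun i hi => h2 (i - k) ?_⟩
    simpa [HPT.shift, PreMap.shift] using hi
  · rintro ⟨h1, h2⟩
    exact ⟨h1, fun i hi => h2 (i + k) hi⟩

private theorem fr_ext : ∀ A B : HPT, A.M = B.M → A = B := by
  rintro ⟨M, h⟩ ⟨M', h'⟩ he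
  change M = M' at he
  subst he
  rfl

private theorem fr_shift_zero (K : HPT) : K.shift 0 = K := by
  apply fr_ext
  change { K.M with bd := fun i => K.M.bd (i + 0) } = K.M
  simp

private theorem fr_abv (S : Stays c₀ H w n) (m : ℕ) :
    Abv H (regAt c₀ H w n) (w (n + (m + 1))) := by
  intro e' he'
  have h := S.2 (n + (m + 1)) (by omega) e' he'
  exact ⟨(fr_shift_inner _ _ _).2 h.1, (fr_shift_inner _ _ _).2 h.2⟩

private theorem fr_mem (S : Stays c₀ H w n) (m : ℕ) :
    w (n + (m + 1)) ∈ (regAt c₀ H w n).M.D := (fr_abv S m _ ⟨0, rfl⟩).1.1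

theorem frame_isPath (P : IsPath H w) (S : Stays c₀ H w n) :
    IsPath (regAt c₀ H w n) (frame (regAt c₀ H w n) w n) := by
  have hs : Sub (regAt c₀ H w n) H := regAt_sub
  have hG := (regAt c₀ H w n).ok
  have hinv : ∀ x, (regAt c₀ H w n).M.inv x = H.M.inv x := fun x => by rw [hs.inv_eq]
  have hi : ∀ m, (regAt c₀ H w n).M.inv (w (n + (m + 1))) ∈ (regAt c₀ H w n).M.D :=
    fun m => hG.inv_mem _ (fr_mem S m)
  refine ⟨rfl, ?_, ?_⟩
  · intro m
    cases m with
    | zero => exact hG.inv_mem _ (hG.bd_mem _)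
    | succ m => exact fr_mem S m
  · intro m
    cases m with
    | zero =>
      have h1 : (regAt c₀ H w n).M.SameV ((regAt c₀ H w n).M.bd 0)
          ((regAt c₀ H w n).M.inv ((regAt c₀ H w n).M.bd (-1))) := hG.bd_prev 0
      have h2 : H.M.SameV ((regAt c₀ H w n).M.bd 0) (w n) := regAt_bd S.1
      have h3 : H.M.SameV ((regAt c₀ H w n).M.bd 0) (H.M.inv (w (n + 1))) :=
        H.ok.sameV_trans h2 (P.step n)
      have h4 : (regAt c₀ H w n).M.SameV ((regAt c₀ H w n).M.bd 0)
          ((regAt c₀ H w n).M.inv (w (n + 1))) := by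
        rw [hs.sameV (hG.bd_mem 0), hinv]
        refine ⟨h3, ?_⟩
        rw [← hinv]
        exact hi 0
      exact hG.sameV_trans (hG.sameV_symm (hG.bd_mem 0) h1) h4
    | succ m =>
      change (regAt c₀ H w n).M.SameV (w (n + (m + 1)))
        ((regAt c₀ H w n).M.inv (w (n + (m + 1 + 1))))
      rw [hs.sameV (fr_mem S m), hinv]
      refine ⟨P.step (n + (m + 1)), ?_⟩
      rw [← hinv]
      exact hi (m + 1)

private theorem fr_zero_spec :
    (regAt c₀ H w n).M.SameV ((reg [] (regAt c₀ H w n) (frame (regAt c₀ H w n) w n) 0).M.bd 0)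
      (frame (regAt c₀ H w n) w n 0) :=
  (regAt c₀ H w n).ok.bd_prev 0

private theorem fr_regAt_zero :
    regAt [] (regAt c₀ H w n) (frame (regAt c₀ H w n) w n) 0 = regAt c₀ H w n := by
  have h1 : pidx [] (regAt c₀ H w n) (frame (regAt c₀ H w n) w n) 0 = 0 :=
    pidx_unique (fr_zero_spec)
  have h2 : regAt [] (regAt c₀ H w n) (frame (regAt c₀ H w n) w n) 0 =
      (reg [] (regAt c₀ H w n) (frame (regAt c₀ H w n) w n) 0).shift 0 := by
    unfold regAt
    unfold regAt at h1
    rw [h1]
  rw [h2]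
  exact fr_shift_zero _

/-- The pioneer condition and the rooted regions agree if the regions agree. -/
private theorem fr_step (P : IsPath H w) (S : Stays c₀ H w n) (m : ℕ)
    (hr : reg [] (regAt c₀ H w n) (frame (regAt c₀ H w n) w n) (m + 1) =
      reg c₀ H w (n + (m + 1))) (i : ℤ) :
    (regAt c₀ H w n).M.SameV
      ((reg [] (regAt c₀ H w n) (frame (regAt c₀ H w n) w n) (m + 1)).M.bd i)
      (frame (regAt c₀ H w n) w n (m + 1)) ↔
    H.M.SameV ((reg c₀ H w (n + (m + 1))).M.bd i) (w (n + (m + 1))) := by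
  have T : Sub (reg c₀ H w (n + (m + 1))) (regAt c₀ H w n) :=
    (reg_mono (by omega)).shift' _
  rw [hr]
  exact (on_iff_of_abv regAt_sub T (P.mem _) (fr_abv S m) i).symm

private theorem fr_pio (P : IsPath H w) (S : Stays c₀ H w n) (m : ℕ)
    (hr : reg [] (regAt c₀ H w n) (frame (regAt c₀ H w n) w n) (m + 1) =
      reg c₀ H w (n + (m + 1))) :
    Pio [] (regAt c₀ H w n) (frame (regAt c₀ H w n) w n) (m + 1) ↔
      Pio c₀ H w (n + (m + 1)) :=
  exists_congr fun i => fr_step P S m hr i

private theorem fr_regAt (P : IsPath H w) (S : Stays c₀ H w n) (m : ℕ)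
    (hr : reg [] (regAt c₀ H w n) (frame (regAt c₀ H w n) w n) (m + 1) =
      reg c₀ H w (n + (m + 1))) (hp : Pio c₀ H w (n + (m + 1))) :
    regAt [] (regAt c₀ H w n) (frame (regAt c₀ H w n) w n) (m + 1) =
      regAt c₀ H w (n + (m + 1)) := by
  have h1 : pidx [] (regAt c₀ H w n) (frame (regAt c₀ H w n) w n) (m + 1) =
      pidx c₀ H w (n + (m + 1)) := by
    apply pidx_unique
    rw [fr_step P S m hr]
    exact pidx_spec hp
  have h2 : regAt [] (regAt c₀ H w n) (frame (regAt c₀ H w n) w n) (m + 1) =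
      (reg [] (regAt c₀ H w n) (frame (regAt c₀ H w n) w n) (m + 1)).shift
        (pidx [] (regAt c₀ H w n) (frame (regAt c₀ H w n) w n) (m + 1)) := rfl
  rw [h2, h1, hr]
  rfl

theorem frame_reg (P : IsPath H w) (S : Stays c₀ H w n) (m : ℕ) :
    reg [] (regAt c₀ H w n) (frame (regAt c₀ H w n) w n) (m + 1) = reg c₀ H w (n + (m + 1)) := by
  induction m with
  | zero =>
    rw [reg_succ_pio (⟨0, fr_zero_spec⟩ : Pio _ _ _ _), fr_regAt_zero]
    exact (reg_succ_pio S.1).symm
  | succ m ih =>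
    by_cases hp : Pio c₀ H w (n + (m + 1))
    · rw [reg_succ_pio ((fr_pio P S m ih).2 hp), fr_regAt P S m ih hp]
      exact (reg_succ_pio hp).symm
    · rw [reg_succ_not (fun h => hp ((fr_pio P S m ih).1 h)), ih]
      exact (reg_succ_not hp).symm

theorem frame_pio (P : IsPath H w) (S : Stays c₀ H w n) (m : ℕ) :
    Pio [] (regAt c₀ H w n) (frame (regAt c₀ H w n) w n) m ↔ Pio c₀ H w (n + m) := by
  cases m with
  | zero => exact ⟨fun _ => S.1, fun _ => ⟨0, fr_zero_spec⟩⟩
  | succ m => exact fr_pio P S m (frame_reg P S m)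

theorem frame_regAt (P : IsPath H w) (S : Stays c₀ H w n) {m : ℕ} (hp : Pio c₀ H w (n + m)) :
    regAt [] (regAt c₀ H w n) (frame (regAt c₀ H w n) w n) m = regAt c₀ H w (n + m) := by
  cases m with
  | zero => exact fr_regAt_zero
  | succ m => exact fr_regAt P S m (frame_reg P S m) hp

private theorem fr_sameV (S : Stays c₀ H w n) (m : ℕ) (e : ℕ) :
    (regAt c₀ H w n).M.SameV (w (n + (m + 1))) e ↔ H.M.SameV (w (n + (m + 1))) e := by
  rw [(regAt_sub (c₀ := c₀) (H := H) (w := w) (n := n)).sameV (fr_mem S m)]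
  exact ⟨fun h => h.1, fun h => ⟨h, (fr_abv S m e h).1.1⟩⟩

theorem frame_expD (P : IsPath H w) (S : Stays c₀ H w n) (m : ℕ) :
    expD [] (regAt c₀ H w n) (frame (regAt c₀ H w n) w n) (m + 1) =
      expD c₀ H w (n + (m + 1)) := by
  unfold expD
  rw [frame_reg P S m]
  congr 1
  ext e
  change ((regAt c₀ H w n).M.SameV (w (n + (m + 1))) e ∧ _) ↔ _
  rw [fr_sameV S m]
  rfl

/-- Staying above a later line is the same in both frames. -/
theorem frame_stays (P : IsPath H w) (S : Stays c₀ H w n) (m : ℕ) :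
    Stays [] (regAt c₀ H w n) (frame (regAt c₀ H w n) w n) (m + 1) ↔
      Stays c₀ H w (n + (m + 1)) := by
  have hs : Sub (regAt c₀ H w n) H := regAt_sub
  have key : ∀ j, Abv (regAt c₀ H w n) (reg c₀ H w (n + (m + 1))) (w (n + (j + 1))) ↔
      Abv H (reg c₀ H w (n + (m + 1))) (w (n + (j + 1))) := by
    intro j
    unfold Abv
    simp only [fr_sameV S j, hs.inv_eq]
  unfold Stays
  rw [frame_pio P S (m + 1), frame_reg P S m]
  refine and_congr_right fun _ => ⟨?_, ?_⟩
  · intro h k hk
    obtain ⟨j, rfl⟩ : ∃ j, k = n + (j + 1) := ⟨k - n - 1, by omega⟩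
    rw [← key j]
    exact h (j + 1) (by omega)
  · intro h k hk
    obtain ⟨j, rfl⟩ : ∃ j, k = j + 1 := ⟨k - 1, by omega⟩
    change Abv (regAt c₀ H w n) (reg c₀ H w (n + (m + 1))) (w (n + (j + 1)))
    rw [key j]
    exact h (n + (j + 1)) (by omega)

end HPT

end Pool.Agent.Spd
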