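import Pool.Agent.Spd.Fresh1

/-!
(Part `Fresh2`: `fresh`, `fresh_at`.  The text below is the common header of the parts.)

# SPD M7: freshness

* `hist_rect`: if some `(H, U)` has the history `h` at time `n`, let `l` be the list of the degrees
  `H.deg (H.walk U j)`, `j < n`.  `(H', U')` has the history `h` iff `H'.outs h.1 = h.2.1` and
  `⌊U' j * l[j]⌋ = h.2.2[j]` for `j < n`: `→`: `hist_sim_of_eq`, fields `kap`, `deg`;
  `←`: `hist_sim` (`ho`; `hk`: if the degrees agree, `kap H' U' j = ⌊U' j * l[j]⌋ = kap H U j`), and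
  `HSim.hist_eq`.
* `measurableSet_hist`: a rectangle or empty.
* `reg_eq_exec`: by definition `reg = exec (cmdP ..)` and `cmdP .. = (hist ..).1`.
* `fresh`: both sides vanish if nobody has the history `h`.  Otherwise `{hist = h} = A ×ˢ B`; with
  `c = h.1`, `B' = B ∩ E` (depends on the coordinates `< n` only):
  the measure of `{(H, U) | H.outs c = o, U ∈ B', (H.exec c, drop n U) ∈ S}` is
  `μ A * unif B' * (μ × unif) S`: for rectangles `S = S₁ ×ˢ S₂` this is `law_exec` and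
  `unif_split`; then uniqueness of product measures (`Measure.prod_eq`, applied to the image of
  the restricted measure).
* `fresh_at`: on `{hist = h}` the index `pidx` is constant (`HSim.pidx_eq`), so `regAt` is
  `(exec h.1 H).shift i`; apply `fresh` to `S' = {(G, V) | (G.shift i, V) ∈ S}` and `TransInv`
  (`(μ × unif) S' = (μ × unif) S`: `Measure.prod_apply_symm` or `MeasurePreserving.prod`).
-/

namespace Pool.Agent.Spd

open MeasureTheory

namespace HPT

end HPT

open HPT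

private theorem fresh_meas_aux {E : Set (ℕ → unitInterval)} (hE : MeasurableSet E) (n : ℕ)
    (D K : ℕ → ℕ) :
    MeasurableSet {U' : ℕ → unitInterval | U' ∈ E ∧ ∀ j < n, ⌊(U' j : ℝ) * D j⌋₊ = K j} := by
  have h1 : {U' : ℕ → unitInterval | U' ∈ E ∧ ∀ j < n, ⌊(U' j : ℝ) * D j⌋₊ = K j} =
      E ∩ ⋂ j, ⋂ (_ : j < n), {U' : ℕ → unitInterval | ⌊(U' j : ℝ) * D j⌋₊ = K j} := by
    ext U'
    simp
  rw [h1]
  refine hE.inter (MeasurableSet.iInter fun j => MeasurableSet.iInter fun _ => ?_)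
  have h2 : Measurable (fun U' : ℕ → unitInterval => ⌊(U' j : ℝ) * D j⌋₊) :=
    Nat.measurable_floor.comp
      ((measurable_subtype_coe.comp (measurable_pi_apply j)).mul_const _)
  exact h2 (MeasurableSet.singleton (K j))

private theorem fresh_prod_aux {μ : Measure HPT} [IsProbabilityMeasure μ] (hT : TransInv μ)
    (hD : DomMarkov μ) (c : List ℤ) (o : List Step) (n : ℕ) {B : Set (ℕ → unitInterval)}
    (hB : MeasurableSet B)
    (hB' : ∀ U U' : ℕ → unitInterval, (∀ j < n, U j = U' j) → (U ∈ B ↔ U' ∈ B))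
    {S : Set (HPT × (ℕ → unitInterval))} (hS : MeasurableSet S) :
    (μ.prod unif) {p | p.1 ∈ {H' : HPT | H'.outs c = o} ∧ p.2 ∈ B ∧
        (p.1.exec c, fun k => p.2 (n + k)) ∈ S} =
      μ {H' : HPT | H'.outs c = o} * unif B * (μ.prod unif) S := by
  have hAm : MeasurableSet {H' : HPT | H'.outs c = o} := measurableSet_outs _ _
  have hdrop : Measurable (fun (U : ℕ → unitInterval) (k : ℕ) => U (n + k)) :=
    measurable_pi_lambda _ fun k => measurable_pi_apply (n + k)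
  have hΦ : Measurable (fun p : HPT × (ℕ → unitInterval) =>
      (p.1.exec c, fun k => p.2 (n + k))) :=
    ((measurable_exec c).comp measurable_fst).prodMk (hdrop.comp measurable_snd)
  have hκ : μ {H' : HPT | H'.outs c = o} * unif B ≠ ⊤ :=
    ENNReal.mul_ne_top (measure_ne_top _ _) (measure_ne_top _ _)
  have : IsFiniteMeasure ((μ {H' : HPT | H'.outs c = o} * unif B) • μ) :=
    Measure.smul_finite _ hκ
  have key : (((μ {H' : HPT | H'.outs c = o} * unif B) • μ).prod unif) =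
      ((μ.prod unif).restrict ({H' : HPT | H'.outs c = o} ×ˢ B)).map
        (fun p : HPT × (ℕ → unitInterval) => (p.1.exec c, fun k => p.2 (n + k))) := by
    refine Measure.prod_eq fun s t hs ht => ?_
    rw [Measure.map_apply hΦ (hs.prod ht), Measure.restrict_apply (hΦ (hs.prod ht))]
    have e : (fun p : HPT × (ℕ → unitInterval) => (p.1.exec c, fun k => p.2 (n + k))) ⁻¹'
        (s ×ˢ t) ∩ ({H' : HPT | H'.outs c = o} ×ˢ B) =
        {H' : HPT | H'.outs c = o ∧ H'.exec c ∈ s} ×ˢ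
          {U : ℕ → unitInterval | U ∈ B ∧ (fun k => U (n + k)) ∈ t} := by
      ext p
      constructor
      · rintro ⟨⟨h1, h2⟩, h3, h4⟩
        exact ⟨⟨h3, h1⟩, h4, h2⟩
      · rintro ⟨⟨h3, h1⟩, h4, h2⟩
        exact ⟨⟨h1, h2⟩, h3, h4⟩
    rw [e, Measure.prod_prod, law_exec hT hD c o hs, unif_split n hB hB' ht,
      Measure.smul_apply, smul_eq_mul]
    ring
  have e2 : {p : HPT × (ℕ → unitInterval) | p.1 ∈ {H' : HPT | H'.outs c = o} ∧ p.2 ∈ B ∧
      (p.1.exec c, fun k => p.2 (n + k)) ∈ S} =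
      (fun p : HPT × (ℕ → unitInterval) => (p.1.exec c, fun k => p.2 (n + k))) ⁻¹' S ∩
        ({H' : HPT | H'.outs c = o} ×ˢ B) := by
    ext p
    constructor
    · rintro ⟨h1, h2, h3⟩
      exact ⟨h3, h1, h2⟩
    · rintro ⟨h3, h1, h2⟩
      exact ⟨h1, h2, h3⟩
  rw [e2, ← Measure.restrict_apply (hΦ hS), ← Measure.map_apply hΦ hS, ← key,
    Measure.prod_smul_left, Measure.smul_apply, smul_eq_mul]

theorem fresh {μ : Measure HPT} [IsProbabilityMeasure μ] (hT : TransInv μ) (hD : DomMarkov μ)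
    (c₀ : List ℤ) (n : ℕ) (h : List ℤ × List Step × List ℕ) {E : Set (ℕ → unitInterval)}
    (hE : MeasurableSet E)
    (hE' : ∀ U U' : ℕ → unitInterval, (∀ j < n, U j = U' j) → (U ∈ E ↔ U' ∈ E))
    {S : Set (HPT × (ℕ → unitInterval))} (hS : MeasurableSet S) :
    (μ.prod unif) {p | hist c₀ p.1 p.2 n = h ∧ p.2 ∈ E ∧
        (reg c₀ p.1 (p.1.walk p.2) n, fun k => p.2 (n + k)) ∈ S} =
      (μ.prod unif) {p | hist c₀ p.1 p.2 n = h ∧ p.2 ∈ E} * (μ.prod unif) S := by
  by_cases hex : ∃ (H : HPT) (U : ℕ → unitInterval), hist c₀ H U n = h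
  · obtain ⟨H, U, rfl⟩ := hex
    set c := cmdP c₀ H (H.walk U) n with hc
    set A : Set HPT := {H' | H'.outs c = H.outs c} with hA
    set B : Set (ℕ → unitInterval) :=
      {U' | U' ∈ E ∧ ∀ j < n, ⌊(U' j : ℝ) * H.deg (H.walk U j)⌋₊ = HPT.kap H U j} with hB
    have hAm : MeasurableSet A := measurableSet_outs _ _
    have hBm : MeasurableSet B := fresh_meas_aux hE n _ _
    have hB' : ∀ V V' : ℕ → unitInterval, (∀ j < n, V j = V' j) → (V ∈ B ↔ V' ∈ B) := by
      intro V V' hV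
      refine and_congr (hE' V V' hV) (forall_congr' fun j => forall_congr' fun hj => ?_)
      rw [hV j hj]
    have e1 : {p : HPT × (ℕ → unitInterval) | hist c₀ p.1 p.2 n = hist c₀ H U n ∧ p.2 ∈ E ∧
        (reg c₀ p.1 (p.1.walk p.2) n, fun k => p.2 (n + k)) ∈ S} =
        {p | p.1 ∈ A ∧ p.2 ∈ B ∧ (p.1.exec c, fun k => p.2 (n + k)) ∈ S} := by
      ext p
      constructor
      · rintro ⟨h1, h2, h3⟩
        have h4 := (hist_rect c₀ H U n p.1 p.2).1 h1
        refine ⟨h4.1, ⟨h2, h4.2⟩, ?_⟩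
        rw [reg_eq_exec, h1] at h3
        exact h3
      · rintro ⟨h1, h2, h3⟩
        have h4 := (hist_rect c₀ H U n p.1 p.2).2 ⟨h1, h2.2⟩
        refine ⟨h4, h2.1, ?_⟩
        rw [reg_eq_exec, h4]
        exact h3
    have e2 : {p : HPT × (ℕ → unitInterval) | hist c₀ p.1 p.2 n = hist c₀ H U n ∧ p.2 ∈ E} =
        A ×ˢ B := by
      ext p
      constructor
      · rintro ⟨h1, h2⟩
        have h4 := (hist_rect c₀ H U n p.1 p.2).1 h1
        exact ⟨h4.1, ⟨h2, h4.2⟩⟩
      · rintro ⟨h1, h2⟩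
        exact ⟨(hist_rect c₀ H U n p.1 p.2).2 ⟨h1, h2.2⟩, h2.1⟩
    rw [e1, e2, Measure.prod_prod]
    exact fresh_prod_aux hT hD c (H.outs c) n hBm hB' hS
  · have e1 : {p : HPT × (ℕ → unitInterval) | hist c₀ p.1 p.2 n = h ∧ p.2 ∈ E ∧
        (reg c₀ p.1 (p.1.walk p.2) n, fun k => p.2 (n + k)) ∈ S} = ∅ := by
      ext p
      refine ⟨fun hp => hex ⟨p.1, p.2, hp.1⟩, fun hp => hp.elim⟩
    have e2 : {p : HPT × (ℕ → unitInterval) | hist c₀ p.1 p.2 n = h ∧ p.2 ∈ E} = ∅ := by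
      ext p
      refine ⟨fun hp => hex ⟨p.1, p.2, hp.1⟩, fun hp => hp.elim⟩
    rw [e1, e2, measure_empty, zero_mul]

theorem fresh_at {μ : Measure HPT} [IsProbabilityMeasure μ] (hT : TransInv μ)
    (hD : DomMarkov μ) (c₀ : List ℤ) (n : ℕ) (h : List ℤ × List Step × List ℕ)
    {E : Set (ℕ → unitInterval)} (hE : MeasurableSet E)
    (hE' : ∀ U U' : ℕ → unitInterval, (∀ j < n, U j = U' j) → (U ∈ E ↔ U' ∈ E))
    {S : Set (HPT × (ℕ → unitInterval))} (hS : MeasurableSet S) :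
    (μ.prod unif) {p | hist c₀ p.1 p.2 n = h ∧ p.2 ∈ E ∧
        (regAt c₀ p.1 (p.1.walk p.2) n, fun k => p.2 (n + k)) ∈ S} =
      (μ.prod unif) {p | hist c₀ p.1 p.2 n = h ∧ p.2 ∈ E} * (μ.prod unif) S := by
  by_cases hex : ∃ (H : HPT) (U : ℕ → unitInterval), hist c₀ H U n = h
  · obtain ⟨H, U, rfl⟩ := hex
    set i := pidx c₀ H (H.walk U) n with hi
    have hmp : MeasurePreserving (HPT.shift i) μ μ := by
      refine ⟨measurable_shift i, ?_⟩
      ext B hB
      rw [Measure.map_apply (measurable_shift i) hB]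
      exact hT i B hB
    have hmp2 : MeasurePreserving (Prod.map (HPT.shift i) (id : (ℕ → unitInterval) → _))
        (μ.prod unif) (μ.prod unif) := hmp.prod (MeasurePreserving.id unif)
    have hS' : MeasurableSet (Prod.map (HPT.shift i) (id : (ℕ → unitInterval) → _) ⁻¹' S) :=
      hmp2.measurable hS
    have key := fresh hT hD c₀ n (hist c₀ H U n) hE hE' hS'
    rw [hmp2.measure_preimage hS.nullMeasurableSet] at key
    rw [← key]
    congr 1
    ext p
    refine and_congr_right fun h1 => and_congr_right fun _ => ?_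
    obtain ⟨φ, ψ, hsim⟩ := hist_sim_of_eq h1
    have h2 := hsim.pidx_eq le_rfl
    rw [regAt, h2]
    exact Iff.rfl
  · have e1 : {p : HPT × (ℕ → unitInterval) | hist c₀ p.1 p.2 n = h ∧ p.2 ∈ E ∧
        (regAt c₀ p.1 (p.1.walk p.2) n, fun k => p.2 (n + k)) ∈ S} = ∅ := by
      ext p
      refine ⟨fun hp => hex ⟨p.1, p.2, hp.1⟩, fun hp => hp.elim⟩
    have e2 : {p : HPT × (ℕ → unitInterval) | hist c₀ p.1 p.2 n = h ∧ p.2 ∈ E} = ∅ := by
      ext p
      refine ⟨fun hp => hex ⟨p.1, p.2, hp.1⟩, fun hp => hp.elim⟩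
    rw [e1, e2, measure_empty, zero_mul]

end Pool.Agent.Spd
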