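import Pool.Agent.Spd.W02

/-!
# SPD M5: law of an exploration

From `law_outs` and `law_outs'` (`W02`).
-/

namespace Pool.Agent.Spd

open MeasureTheory

theorem law_exec {μ : Measure HPT} [IsProbabilityMeasure μ] (hT : TransInv μ)
    (hD : DomMarkov μ) (c : List ℤ) (o : List Step) {B : Set HPT} (hB : MeasurableSet B) :
    μ {H | H.outs c = o ∧ H.exec c ∈ B} = μ {H | H.outs c = o} * μ B := by
  by_cases hl : o.length = c.length
  · rw [law_outs hT hD c o hl hB, law_outs' hT hD c o hl]
  · have h : ∀ H : HPT, H.outs c ≠ o := by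
      intro H hH
      exact hl (by rw [← hH, HPT.outs_length])
    have h1 : {H : HPT | H.outs c = o ∧ H.exec c ∈ B} = ∅ := by
      ext H
      simp [h H]
    have h2 : {H : HPT | H.outs c = o} = ∅ := by
      ext H
      simp [h H]
    rw [h1, h2]
    simp

/-- The unexplored region has the original law. -/
theorem law_map {μ : Measure HPT} [IsProbabilityMeasure μ] (hT : TransInv μ)
    (hD : DomMarkov μ) (c : List ℤ) : μ.map (fun H : HPT => H.exec c) = μ := by
  ext B hB
  rw [Measure.map_apply (HPT.measurable_exec c) hB]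
  have h1 : (fun H : HPT => H.exec c) ⁻¹' B =
      ⋃ o : List Step, {H : HPT | H.outs c = o ∧ H.exec c ∈ B} := by
    ext H
    simp
  have h2 : (⋃ o : List Step, {H : HPT | H.outs c = o}) = Set.univ := by
    ext H
    simp
  have h3 := measure_iUnion (μ := μ) (f := fun o : List Step => {H : HPT | H.outs c = o})
    (fun s t hst => Set.disjoint_left.2 fun H h h' => hst (h.symm.trans h'))
    (fun s => HPT.measurableSet_outs c s)
  rw [h2, measure_univ] at h3
  have h5 := measure_iUnion (μ := μ)
    (f := fun o : List Step => {H : HPT | H.outs c = o ∧ H.exec c ∈ B})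
    (fun s t hst => Set.disjoint_left.2 fun H h h' => hst (h.1.symm.trans h'.1))
    (fun s => (HPT.measurableSet_outs c s).inter (HPT.measurable_exec c hB))
  rw [h1, h5]
  have h4 : ∀ o : List Step, μ {H : HPT | H.outs c = o ∧ H.exec c ∈ B} =
      μ {H : HPT | H.outs c = o} * μ B := fun o => law_exec hT hD c o hB
  rw [tsum_congr h4, ENNReal.tsum_mul_right, ← h3, one_mul]

end Pool.Agent.Spd
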