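import Pool.Agent.Spd.HistB
import Pool.Agent.Spd.Law
import Pool.Agent.Spd.Unif

/-!
(Part `Fresh1`: `hist_rect`, `reg_eq_exec`, `measurableSet_hist`, `measurable_reg`, `measurable_regAt`.
The text below is the common header of the parts.)

# SPD M7: freshness

* `hist_rect`: if some `(H, U)` has the history `h` at time `n`, let `l` be the list of the degrees
  `H.deg (H.walk U j)`, `j < n`.  `(H', U')` has the history `h` iff `H'.outs h.1 = h.2.1` and
  `⌊U' j * l[j]⌋ = h.2.2[j]` for `j < n`: `→`: `hist_sim_of_eq`, fields `kap`, `deg`;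
  `←`: `hist_sim` (`ho`; `hk`: if the degrees agree, `kap H' U' j = ⌊U' j * l[j]⌋ = kap H U j`), and
  `HSim.hist_eq`.
* `measurableSet_hist`: a rectangle or empty.
* `reg_eq_exec`: by definition `reg = exec (cmdP ..)` and `cmdP .. = (hist ..).1`.
* `fresh`: both sides vanish if nobody has the history `h`.  Otherwise `{hist = h} = A ×ˢ B`; with
  `c = h.1`, `B' = B ∩ E` (depends on the coordinates `< n` only):
  the measure of `{(H, U) | H.outs c = o, U ∈ B', (H.exec c, drop n U) ∈ S}` is
  `μ A * unif B' * (μ × unif) S`: for rectangles `S = S₁ ×ˢ S₂` this is `law_exec` and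
  `unif_split`; then uniqueness of product measures (`Measure.prod_eq`, applied to the image of
  the restricted measure).
* `fresh_at`: on `{hist = h}` the index `pidx` is constant (`HSim.pidx_eq`), so `regAt` is
  `(exec h.1 H).shift i`; apply `fresh` to `S' = {(G, V) | (G.shift i, V) ∈ S}` and `TransInv`
  (`(μ × unif) S' = (μ × unif) S`: `Measure.prod_apply_symm` or `MeasurePreserving.prod`).
-/

namespace Pool.Agent.Spd

open MeasureTheory

namespace HPT

theorem hist_rect (c₀ : List ℤ) (H : HPT) (U : ℕ → unitInterval) (n : ℕ) (H' : HPT)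
    (U' : ℕ → unitInterval) :
    hist c₀ H' U' n = hist c₀ H U n ↔
      H'.outs (cmdP c₀ H (H.walk U) n) = H.outs (cmdP c₀ H (H.walk U) n) ∧
        ∀ j < n, ⌊(U' j : ℝ) * H.deg (H.walk U j)⌋₊ = HPT.kap H U j := by
  constructor
  · intro h
    obtain ⟨φ, ψ, hs⟩ := hist_sim_of_eq h
    refine ⟨hs.outs n le_rfl, fun j hj => ?_⟩
    have h1 := hs.kap j hj
    rw [← hs.deg j hj]
    exact h1
  · rintro ⟨ho, hk⟩
    obtain ⟨φ, ψ, hs⟩ := hist_sim (U := U) (U' := U') ho (fun j hj hd => by
      have h1 := hk j hj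
      rw [← hd] at h1
      exact h1)
    exact hs.hist_eq le_rfl

theorem reg_eq_exec (c₀ : List ℤ) (H : HPT) (U : ℕ → unitInterval) (n : ℕ) :
    reg c₀ H (H.walk U) n = H.exec (hist c₀ H U n).1 := rfl

theorem measurableSet_hist (c₀ : List ℤ) (n : ℕ) (h : List ℤ × List Step × List ℕ) :
    MeasurableSet {p : HPT × (ℕ → unitInterval) | hist c₀ p.1 p.2 n = h} := by
  by_cases hex : ∃ p : HPT × (ℕ → unitInterval), hist c₀ p.1 p.2 n = h
  · obtain ⟨⟨H, U⟩, hH⟩ := hex
    have hH' : hist c₀ H U n = h := hH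
    have hset : {p : HPT × (ℕ → unitInterval) | hist c₀ p.1 p.2 n = h} =
        {p | p.1.outs (cmdP c₀ H (H.walk U) n) = H.outs (cmdP c₀ H (H.walk U) n)} ∩
          ⋂ j : ℕ, ⋂ _ : j < n,
            {p | ⌊(p.2 j : ℝ) * H.deg (H.walk U j)⌋₊ = HPT.kap H U j} := by
      ext p
      have h1 := hist_rect c₀ H U n p.1 p.2
      rw [hH'] at h1
      rw [Set.mem_inter_iff, Set.mem_iInter₂]
      exact h1
    rw [hset]
    refine MeasurableSet.inter (measurable_fst (measurableSet_outs _ _)) ?_
    refine MeasurableSet.iInter fun j => MeasurableSet.iInter fun _ => ?_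
    have hm : Measurable fun p : HPT × (ℕ → unitInterval) =>
        ⌊(p.2 j : ℝ) * H.deg (H.walk U j)⌋₊ := by
      refine Nat.measurable_floor.comp (Measurable.mul_const ?_ _)
      exact measurable_subtype_coe.comp ((measurable_pi_apply j).comp measurable_snd)
    exact hm (measurableSet_singleton _)
  · have hset : {p : HPT × (ℕ → unitInterval) | hist c₀ p.1 p.2 n = h} = ∅ := by
      refine Set.eq_empty_iff_forall_notMem.2 fun p hp => hex ⟨p, hp⟩
    rw [hset]
    exact MeasurableSet.empty

/-- A function which is a measurable function of the map on every event of the form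
`{hist = h}` is measurable. -/
private theorem measurable_of_hist (c₀ : List ℤ) (n : ℕ) (f : HPT × (ℕ → unitInterval) → HPT)
    (g : List ℤ × List Step × List ℕ → HPT → HPT) (hg : ∀ h, Measurable (g h))
    (hf : ∀ p : HPT × (ℕ → unitInterval), f p = g (hist c₀ p.1 p.2 n) p.1) :
    Measurable f := by
  intro B hB
  have hset : f ⁻¹' B = ⋃ h : List ℤ × List Step × List ℕ,
      ({p : HPT × (ℕ → unitInterval) | hist c₀ p.1 p.2 n = h} ∩ {p | g h p.1 ∈ B}) := by
    ext p
    rw [Set.mem_iUnion]
    constructor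
    · intro hp
      refine ⟨hist c₀ p.1 p.2 n, rfl, ?_⟩
      have h1 : f p ∈ B := hp
      rw [hf p] at h1
      exact h1
    · rintro ⟨h, h1, h2⟩
      have h3 : hist c₀ p.1 p.2 n = h := h1
      have h4 : g h p.1 ∈ B := h2
      have h5 : f p ∈ B := by
        rw [hf p, h3]
        exact h4
      exact h5
  rw [hset]
  refine MeasurableSet.iUnion fun h => (measurableSet_hist c₀ n h).inter ?_
  exact (hg h).comp measurable_fst hB

theorem measurable_reg (c₀ : List ℤ) (n : ℕ) :
    Measurable (fun p : HPT × (ℕ → unitInterval) => reg c₀ p.1 (p.1.walk p.2) n) :=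
  measurable_of_hist c₀ n _ (fun h H => H.exec h.1) (fun h => measurable_exec h.1)
    (fun _ => rfl)

theorem measurable_regAt (c₀ : List ℤ) (n : ℕ) :
    Measurable (fun p : HPT × (ℕ → unitInterval) => regAt c₀ p.1 (p.1.walk p.2) n) := by
  classical
  let i : List ℤ × List Step × List ℕ → ℤ := fun h =>
    if hex : ∃ p : HPT × (ℕ → unitInterval), hist c₀ p.1 p.2 n = h then
      pidx c₀ hex.choose.1 (hex.choose.1.walk hex.choose.2) n else 0
  refine measurable_of_hist c₀ n _ (fun h H => (H.exec h.1).shift (i h))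
    (fun h => (measurable_shift (i h)).comp (measurable_exec h.1)) (fun p => ?_)
  have hex : ∃ q : HPT × (ℕ → unitInterval), hist c₀ q.1 q.2 n = hist c₀ p.1 p.2 n := ⟨p, rfl⟩
  obtain ⟨φ, ψ, hs⟩ := hist_sim_of_eq hex.choose_spec
  have h1 : pidx c₀ hex.choose.1 (hex.choose.1.walk hex.choose.2) n =
      pidx c₀ p.1 (p.1.walk p.2) n := hs.pidx_eq le_rfl
  have h2 : i (hist c₀ p.1 p.2 n) = pidx c₀ p.1 (p.1.walk p.2) n := by
    rw [← h1]
    exact dif_pos hex
  change (reg c₀ p.1 (p.1.walk p.2) n).shift (pidx c₀ p.1 (p.1.walk p.2) n) =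
    (p.1.exec (hist c₀ p.1 p.2 n).1).shift (i (hist c₀ p.1 p.2 n))
  rw [h2]
  rfl

end HPT

open HPT

end Pool.Agent.Spd
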