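import Pool.Agent.Spd.Off

/-!
# SPD G01: regeneration times, definitions (no sorry)

`Stays c₀ H w n` (file `Frame`): `n` is a pioneer time and afterwards the path stays strictly above
the line of `reg n`.  A regeneration time is such a time `n ≥ 1` at which exactly one dart of the
position has been explored.
-/

namespace Pool.Agent.Spd

open MeasureTheory

namespace HPT

/-- `n` is a regeneration time of the path `w`. -/
def Reg (c₀ : List ℤ) (H : HPT) (w : ℕ → ℕ) (n : ℕ) : Prop :=
  1 ≤ n ∧ Stays c₀ H w n ∧ expD c₀ H w n = 1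

/-- At time `n` it is still possible that `m ≤ n` is a regeneration time. -/
def Cand (c₀ : List ℤ) (H : HPT) (w : ℕ → ℕ) (m n : ℕ) : Prop :=
  1 ≤ m ∧ Pio c₀ H w m ∧ expD c₀ H w m = 1 ∧
    ∀ j, m < j → j ≤ n → Abv H (reg c₀ H w m) (w j)

open Classical in
/-- Number of the dart taken at the pioneer time `n`, in the rotation of the unexplored region. -/
noncomputable def kapR (c₀ : List ℤ) (H : HPT) (w : ℕ → ℕ) (n : ℕ) : ℕ :=
  if Pio c₀ H w n then
    sInf {κ | H.M.inv (w (n + 1)) = (regAt c₀ H w n).M.rot^[κ]
      ((regAt c₀ H w n).M.inv ((regAt c₀ H w n).M.bd (-1)))}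
  else 0

open Classical in
/-- Pioneer times in `[a, b)`. -/
noncomputable def pios (c₀ : List ℤ) (H : HPT) (w : ℕ → ℕ) (a b : ℕ) : Finset ℕ :=
  (Finset.Ico a b).filter (fun m => Pio c₀ H w m)

end HPT

open HPT

/-- A map, the number of the first dart of the walk, and the variables of the later steps. -/
abbrev Sp := HPT × ℕ × (ℕ → unitInterval)

/-- The path of an element of `Sp`. -/
noncomputable def pth (z : Sp) : ℕ → ℕ := z.1.walkK z.2.1 z.2.2

/-- The walk as an element of `Sp`. -/
noncomputable def qmap (p : HPT × (ℕ → unitInterval)) : Sp :=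
  (p.1, HPT.kap p.1 p.2 0, fun j => p.2 (j + 1))

/-- What is seen from the pioneer time `n`. -/
noncomputable def seen (c₀ : List ℤ) (p : HPT × (ℕ → unitInterval)) (n : ℕ) : Sp :=
  (regAt c₀ p.1 (p.1.walk p.2) n, kapR c₀ p.1 (p.1.walk p.2) n, fun j => p.2 (n + 1 + j))

/-- What is seen from the pioneer time `n`. -/
noncomputable def seenZ (z : Sp) (n : ℕ) : Sp :=
  (regAt [] z.1 (pth z) n, kapR [] z.1 (pth z) n, fun j => z.2.2 (n + j))

/-- First regeneration time. -/
noncomputable def fstT (z : Sp) : ℕ := sInf {n | Reg [] z.1 (pth z) n}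

/-- The renewal map. -/
noncomputable def theta (z : Sp) : Sp := seenZ z (fstT z)

/-- Number of pioneers in the first slab. -/
noncomputable def slabK (z : Sp) : ℕ := (pios [] z.1 (pth z) 0 (fstT z)).card

open Classical in
/-- The walk started at the root with the dart number `κ`, restricted to the event that it never
returns, where `D` additional darts at the root vertex are counted. -/
noncomputable def mD (μ : Measure HPT) (D : ℕ) : Measure Sp :=
  (μ.prod (Measure.count.prod unif)).withDensity
    (fun z => if z.1.Esc z.2.1 z.2.2 then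
      ((z.1.deg (z.1.M.bd 0) + D : ℕ) : ENNReal)⁻¹ else 0)

/-- The renewal law. -/
noncomputable def nu (μ : Measure HPT) : Measure Sp :=
  (mD μ 1 Set.univ)⁻¹ • mD μ 1

/-- The regeneration probability. -/
noncomputable def pReg (μ : Measure HPT) : ENNReal := mD μ 1 Set.univ

end Pool.Agent.Spd
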