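import Pool.Agent.Spd.G02a

/-!
(Part `G02b`: `pio_seen`, `reg_seen`, `seenZ_seen`, `pio_seenZ`, `reg_seenZ`, `seenZ_seenZ`, `stays_zero`.  The text below is the common header of the parts.)

# SPD G02: consistency of the frames

* `liftU z`: the variables `U` with `U 0 = ((κ % deg) + 1/2) / deg`, `U (n+1) = z.2.2 n`.  Then
  `kap G U 0 = κ % deg` (`deg_pos`, `⌊(m + 1/2)/d * d⌋ = m`) and `rot^[κ] = rot^[κ % deg]` at the root
  (`Function.iterate_mod_minimalPeriod_eq`; `deg (inv (bd (-1))) = deg (bd 0)` by `deg_sameV`), so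
  `pth z = G.walk U` by `walk_eq_walkK`.
* `pth_qmap`: `walk_eq_walkK`.
* `seenZ_lift`, `seenZ_qmap`: unfold.
* `kapR_spec`: `esc_iff` gives `κ < deg` with the equation and `Esc κ`; `kapR` is the least number
  with the equation; two numbers `< deg` with the equation are equal (`iter_injOn` for `G`; the
  degree of `inv (G.bd (-1))` is that of `G.bd 0`).
* `pth_seen`: `esc_walk`.
* `reg_seen` ...: `frame_stays`, `frame_expD`, `frame_pio`, `frame_regAt` with
  `frame G w n = pth (seen c₀ p n)`; `kapR`: `frame_pio`, `frame_regAt`,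
  `G.inv = H.inv` (`Sub.inv_eq`), `frame .. (m + 1) = w (n + (m + 1))`.
* The versions for `seenZ` follow from those for `seen` with `c₀ = []`, `p = (z.1, liftU z)`.
-/

namespace Pool.Agent.Spd

open MeasureTheory HPT

theorem pio_seen {c₀ : List ℤ} {p : HPT × (ℕ → unitInterval)} {n : ℕ}
    (h : Stays c₀ p.1 (p.1.walk p.2) n) (m : ℕ) :
    Pio [] (seen c₀ p n).1 (pth (seen c₀ p n)) m ↔ Pio c₀ p.1 (p.1.walk p.2) (n + m) := by
  rw [pth_seen h]
  exact frame_pio (walk_isPath p.1 p.2) h m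

theorem reg_seen {c₀ : List ℤ} {p : HPT × (ℕ → unitInterval)} {n : ℕ}
    (h : Stays c₀ p.1 (p.1.walk p.2) n) {m : ℕ} (hm : 1 ≤ m) :
    Reg [] (seen c₀ p n).1 (pth (seen c₀ p n)) m ↔ Reg c₀ p.1 (p.1.walk p.2) (n + m) := by
  obtain ⟨k, rfl⟩ : ∃ k, m = k + 1 := ⟨m - 1, by omega⟩
  rw [pth_seen h]
  have h1 := frame_stays (walk_isPath p.1 p.2) h k
  have h2 := frame_expD (walk_isPath p.1 p.2) h k
  unfold Reg
  have h3 : (1 ≤ k + 1) ↔ (1 ≤ n + (k + 1)) := by
    constructor <;> intro _ <;> omega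
  rw [← h1, ← h2, ← h3]
  rfl

theorem seenZ_seen {c₀ : List ℤ} {p : HPT × (ℕ → unitInterval)} {n : ℕ}
    (h : Stays c₀ p.1 (p.1.walk p.2) n) {m : ℕ} (hm : 1 ≤ m)
    (hp : Pio c₀ p.1 (p.1.walk p.2) (n + m)) :
    seenZ (seen c₀ p n) m = seen c₀ p (n + m) := by
  have _hm := hm
  have P := walk_isPath p.1 p.2
  have h1 := frame_regAt P h hp
  have h2 := (frame_pio P h m).2 hp
  have h3 : (regAt c₀ p.1 (p.1.walk p.2) n).M.inv = p.1.M.inv :=
    (regAt_sub (c₀ := c₀) (H := p.1) (w := p.1.walk p.2) (n := n)).inv_eq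
  unfold seenZ
  rw [pth_seen h]
  refine Prod.ext h1 (Prod.ext ?_ ?_)
  · change kapR [] (regAt c₀ p.1 (p.1.walk p.2) n)
      (frame (regAt c₀ p.1 (p.1.walk p.2) n) (p.1.walk p.2) n) m =
      kapR c₀ p.1 (p.1.walk p.2) (n + m)
    unfold kapR
    rw [if_pos h2, if_pos hp, h1, h3]
    rfl
  · funext j
    change p.2 (n + 1 + (m + j)) = p.2 (n + m + 1 + j)
    exact congrArg p.2 (by omega)

theorem pio_seenZ {z : Sp} {n : ℕ} (h : Stays [] z.1 (pth z) n) (m : ℕ) :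
    Pio [] (seenZ z n).1 (pth (seenZ z n)) m ↔ Pio [] z.1 (pth z) (n + m) := by
  rw [pth_lift z] at h
  rw [seenZ_lift z n, pth_lift z]
  exact pio_seen (p := (z.1, liftU z)) h m

theorem reg_seenZ {z : Sp} {n : ℕ} (h : Stays [] z.1 (pth z) n) {m : ℕ} (hm : 1 ≤ m) :
    Reg [] (seenZ z n).1 (pth (seenZ z n)) m ↔ Reg [] z.1 (pth z) (n + m) := by
  rw [pth_lift z] at h
  rw [seenZ_lift z n, pth_lift z]
  exact reg_seen (p := (z.1, liftU z)) h hm

theorem seenZ_seenZ {z : Sp} {n : ℕ} (h : Stays [] z.1 (pth z) n) {m : ℕ} (hm : 1 ≤ m)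
    (hp : Pio [] z.1 (pth z) (n + m)) :
    seenZ (seenZ z n) m = seenZ z (n + m) := by
  rw [pth_lift z] at h hp
  rw [seenZ_lift z n, seenZ_lift z (n + m)]
  exact seenZ_seen (p := (z.1, liftU z)) h hm hp

/-- An escaping element of `Sp` stays above the boundary; and it is seen from time `0`. -/
theorem stays_zero {z : Sp} (h : z.1.Esc z.2.1 z.2.2) : Stays [] z.1 (pth z) 0 := by
  have P := pth_isPath z
  have h0 : reg [] z.1 (pth z) 0 = z.1 := rfl
  refine ⟨⟨0, ?_⟩, fun m hm => ?_⟩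
  · have h1 := z.1.ok.bd_prev 0
    rw [P.start, h0]
    rwa [zero_sub] at h1
  · obtain ⟨k, rfl⟩ : ∃ k, m = k + 1 := ⟨m - 1, by omega⟩
    rw [h0]
    rcases trich (Sub.refl z.1) (P.mem (k + 1)) with h1 | ⟨i, h1⟩ | h1
    · exact absurd (P.mem (k + 1)) (h1 _ (z.1.ok.sameV_refl _))
    · exact absurd h1 (h.2 k i)
    · exact h1

end Pool.Agent.Spd
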