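import Pool.Agent.Spd.G01

/-!
(Part `G02a`: `liftU`, `pth_lift`, `pth_qmap`, `pth_isPath`, `seenZ_lift`, `seenZ_qmap`,
`kapR_spec`, `pth_seen`.  The text below is the common header of the parts.)

# SPD G02: consistency of the frames

* `liftU z`: the variables `U` with `U 0 = ((κ % deg) + 1/2) / deg`, `U (n+1) = z.2.2 n`.  Then
  `kap G U 0 = κ % deg` (`deg_pos`, `⌊(m + 1/2)/d * d⌋ = m`) and `rot^[κ] = rot^[κ % deg]` at the root
  (`Function.iterate_mod_minimalPeriod_eq`; `deg (inv (bd (-1))) = deg (bd 0)` by `deg_sameV`), so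
  `pth z = G.walk U` by `walk_eq_walkK`.
* `pth_qmap`: `walk_eq_walkK`.
* `seenZ_lift`, `seenZ_qmap`: unfold.
* `kapR_spec`: `esc_iff` gives `κ < deg` with the equation and `Esc κ`; `kapR` is the least number
  with the equation; two numbers `< deg` with the equation are equal (`iter_injOn` for `G`; the
  degree of `inv (G.bd (-1))` is that of `G.bd 0`).
* `pth_seen`: `esc_walk`.
* `reg_seen` ...: `frame_stays`, `frame_expD`, `frame_pio`, `frame_regAt` with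
  `frame G w n = pth (seen c₀ p n)`; `kapR`: `frame_pio`, `frame_regAt`,
  `G.inv = H.inv` (`Sub.inv_eq`), `frame .. (m + 1) = w (n + (m + 1))`.
* The versions for `seenZ` follow from those for `seen` with `c₀ = []`, `p = (z.1, liftU z)`.
-/

namespace Pool.Agent.Spd

open MeasureTheory HPT

/-- Variables that give the path of `z`. -/
noncomputable def liftU (z : Sp) : ℕ → unitInterval
  | 0 => ⟨max 0 (min 1 (((z.2.1 % z.1.deg (z.1.M.bd 0) : ℕ) + 1 / 2 : ℝ) /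
      (z.1.deg (z.1.M.bd 0) : ℕ))), by simp, by simp⟩
  | n + 1 => z.2.2 n

private theorem deg_start (G : HPT) : G.deg (G.M.inv (G.M.bd (-1))) = G.deg (G.M.bd 0) := by
  have h := G.ok.bd_prev 0
  rw [zero_sub] at h
  exact G.deg_sameV (G.ok.bd_mem 0) h

private theorem walkK_mod (G : HPT) (κ : ℕ) (V : ℕ → unitInterval) :
    G.walkK (κ % G.deg (G.M.bd 0)) V = G.walkK κ V := by
  funext n
  cases n with
  | zero => rfl
  | succ n =>
    change G.walkFrom _ V n = G.walkFrom _ V n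
    have h : G.M.rot^[κ % G.deg (G.M.bd 0)] (G.M.inv (G.M.bd (-1))) =
        G.M.rot^[κ] (G.M.inv (G.M.bd (-1))) := by
      rw [← deg_start]
      exact Function.iterate_mod_minimalPeriod_eq
    rw [h]

private theorem kap_lift (z : Sp) :
    z.1.kap (liftU z) 0 = z.2.1 % z.1.deg (z.1.M.bd 0) := by
  obtain ⟨D, hD⟩ : ∃ D, D = z.1.deg (z.1.M.bd 0) := ⟨_, rfl⟩
  obtain ⟨m, hm⟩ : ∃ m, m = z.2.1 % z.1.deg (z.1.M.bd 0) := ⟨_, rfl⟩
  have hD0 : 0 < D := by
    rw [hD]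
    exact z.1.deg_pos (z.1.ok.bd_mem 0)
  have hmD : m < D := by
    rw [hm, ← hD]
    exact Nat.mod_lt _ hD0
  have hDr : (0 : ℝ) < D := by exact_mod_cast hD0
  have hmr : (m : ℝ) + 1 ≤ D := by exact_mod_cast hmD
  have h0 : ((liftU z 0 : unitInterval) : ℝ) = ((m : ℝ) + 1 / 2) / D := by
    change max 0 (min 1 (((z.2.1 % z.1.deg (z.1.M.bd 0) : ℕ) + 1 / 2 : ℝ) /
      (z.1.deg (z.1.M.bd 0) : ℕ))) = _
    rw [← hm, ← hD]
    have h1 : ((m : ℝ) + 1 / 2) / D ≤ 1 := by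
      rw [div_le_one hDr]
      linarith
    have h2 : 0 ≤ ((m : ℝ) + 1 / 2) / D := by positivity
    rw [min_eq_right h1, max_eq_right h2]
  unfold HPT.kap
  have h3 : z.1.walk (liftU z) 0 = z.1.M.inv (z.1.M.bd (-1)) := rfl
  rw [h3, h0, deg_start, ← hm, ← hD, div_mul_cancel₀ _ hDr.ne']
  rw [Nat.floor_eq_iff (by positivity)]
  constructor <;> linarith

theorem pth_lift (z : Sp) : pth z = z.1.walk (liftU z) := by
  funext n
  rw [walk_eq_walkK, kap_lift]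
  have h : (fun j => liftU z (j + 1)) = z.2.2 := rfl
  rw [h, walkK_mod]
  rfl

theorem pth_qmap (p : HPT × (ℕ → unitInterval)) : pth (qmap p) = p.1.walk p.2 := by
  funext n
  rw [walk_eq_walkK]
  rfl

theorem pth_isPath (z : Sp) : IsPath z.1 (pth z) := walkK_isPath z.1 z.2.1 z.2.2

theorem seenZ_lift (z : Sp) (n : ℕ) : seenZ z n = seen [] (z.1, liftU z) n := by
  unfold seenZ seen
  rw [pth_lift]
  have h : (fun j => z.2.2 (n + j)) = fun j => liftU z (n + 1 + j) := by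
    funext j
    have h1 : n + 1 + j = (n + j) + 1 := by omega
    rw [h1]
    rfl
  rw [h]

theorem seenZ_qmap (p : HPT × (ℕ → unitInterval)) (n : ℕ) : seenZ (qmap p) n = seen [] p n := by
  unfold seenZ seen
  rw [pth_qmap]
  have h : (fun j => (qmap p).2.2 (n + j)) = fun j => p.2 (n + 1 + j) := by
    funext j
    have h1 : n + 1 + j = (n + j) + 1 := by omega
    rw [h1]
    rfl
  rw [h]
  rfl

theorem kapR_spec {c₀ : List ℤ} {p : HPT × (ℕ → unitInterval)} {n : ℕ}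
    (h : Stays c₀ p.1 (p.1.walk p.2) n) :
    (seen c₀ p n).1.Esc (seen c₀ p n).2.1 (seen c₀ p n).2.2 ∧
      p.1.M.inv (p.1.walk p.2 (n + 1)) = (seen c₀ p n).1.M.rot^[(seen c₀ p n).2.1]
        ((seen c₀ p n).1.M.inv ((seen c₀ p n).1.M.bd (-1))) := by
  have hp : Pio c₀ p.1 (p.1.walk p.2) n := h.1
  obtain ⟨κ, hκ, he, hE⟩ := (esc_iff p.2 hp).1 h
  change (regAt c₀ p.1 (p.1.walk p.2) n).Esc (kapR c₀ p.1 (p.1.walk p.2) n)
      (fun j => p.2 (n + 1 + j)) ∧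
    p.1.M.inv (p.1.walk p.2 (n + 1)) = (regAt c₀ p.1 (p.1.walk p.2) n).M.rot^[
      kapR c₀ p.1 (p.1.walk p.2) n] ((regAt c₀ p.1 (p.1.walk p.2) n).M.inv
        ((regAt c₀ p.1 (p.1.walk p.2) n).M.bd (-1)))
  have hk : kapR c₀ p.1 (p.1.walk p.2) n = κ := by
    unfold kapR
    rw [if_pos hp]
    have hne : {κ | p.1.M.inv (p.1.walk p.2 (n + 1)) = (regAt c₀ p.1 (p.1.walk p.2) n).M.rot^[κ]
      ((regAt c₀ p.1 (p.1.walk p.2) n).M.inv
        ((regAt c₀ p.1 (p.1.walk p.2) n).M.bd (-1)))}.Nonempty := ⟨κ, he⟩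
    have h1 := Nat.sInf_mem hne
    have h2 := Nat.sInf_le (show κ ∈ {κ | p.1.M.inv (p.1.walk p.2 (n + 1)) =
      (regAt c₀ p.1 (p.1.walk p.2) n).M.rot^[κ] ((regAt c₀ p.1 (p.1.walk p.2) n).M.inv
        ((regAt c₀ p.1 (p.1.walk p.2) n).M.bd (-1)))} from he)
    refine (regAt c₀ p.1 (p.1.walk p.2) n).iter_injOn (Set.mem_Iio.2 ?_) (Set.mem_Iio.2 ?_)
      (h1.symm.trans he)
    · rw [deg_start]
      exact lt_of_le_of_lt h2 hκ
    · rw [deg_start]
      exact hκ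
  rw [hk]
  exact ⟨hE, he⟩

theorem pth_seen {c₀ : List ℤ} {p : HPT × (ℕ → unitInterval)} {n : ℕ}
    (h : Stays c₀ p.1 (p.1.walk p.2) n) :
    pth (seen c₀ p n) = frame (regAt c₀ p.1 (p.1.walk p.2) n) (p.1.walk p.2) n := by
  obtain ⟨h1, h2⟩ := kapR_spec h
  exact (esc_walk p.2 h.1 h2 h1).symm

end Pool.Agent.Spd
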