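import Pool.Agent.Spd.G03a

/-!
(Part `G03b`: `seen_law`.  The text below is the common header of the parts.)

# SPD G03: the law of what is seen from a pioneer time

`p_D(C) = mD μ D C`.

* `mD_apply`: `mD μ D C = ∫⁻ G, ∑ κ ∈ range (deg G), (deg G + D)⁻¹ * unif {V | Esc κ V ∧ (G, κ, V) ∈ C} ∂μ`
  (`withDensity_apply`, `lintegral_prod`, `lintegral_count`; `Esc κ` includes `κ < deg`, so the sum
  over `κ` is finite; `measurableSet_esc`, `measurable_deg0`).
* `mD_eq_choice`: with `U = (V 0, V 1, ...)`: the measure of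
  `S κ = {(G, V) | κ < deg G ∧ ⌊V 0 * (deg G + D)⌋ = a + κ ∧ G.Esc κ (V (1 + ·)) ∧ (G, κ, V (1 + ·)) ∈ C}`
  under `μ × unif` is `∫⁻ G, 1[κ < deg] (deg + D)⁻¹ unif {V | Esc κ V ∧ (G, κ, V) ∈ C}`
  (`unif_choice` with `n = 0`, `E = univ`, `k = a + κ < deg + D` since `a ≤ D`); sum over `κ`.
* `seen_law`: on `{hist = h}` (pioneer, `expD = D`, `offD = a` are constant: `hist_sim_of_eq`,
  `HSim.expD_eq`, `off_eq`; `a ≤ D` by `off_add_le` and `deg_split`), with `G = regAt`, `V = drop n U`: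
  for `U n ≠ 1` (a.e.: `unif_ne_one`): `Stays ∧ seen ∈ C` holds iff for some `κ`
  `(G, V) ∈ S κ`: `esc_iff`, `choice_iff` (`kap = ⌊V 0 * deg_H⌋`, `deg_H = deg G + D` by
  `deg_split`), `kapR_spec`; the `κ` is unique, so the events are disjoint; `fresh_at` for each `κ`.
-/

namespace Pool.Agent.Spd

open MeasureTheory HPT

/-- The choice `κ` at the root vertex, with `D` more darts, `a` of them before. -/
private def gsS (D a : ℕ) (C : Set Sp) (κ : ℕ) : Set (HPT × (ℕ → unitInterval)) :=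
  {p | κ < p.1.deg (p.1.M.bd 0) ∧
      ⌊(p.2 0 : ℝ) * (p.1.deg (p.1.M.bd 0) + D : ℕ)⌋₊ = a + κ ∧
      p.1.Esc κ (fun j => p.2 (1 + j)) ∧ ((p.1, κ, fun j => p.2 (1 + j)) : Sp) ∈ C}

private theorem gsS_meas (D a : ℕ) {C : Set Sp} (hC : MeasurableSet C) (κ : ℕ) :
    MeasurableSet (gsS D a C κ) := by
  have hdeg : Measurable (fun p : HPT × (ℕ → unitInterval) => p.1.deg (p.1.M.bd 0)) :=
    measurable_deg0.comp measurable_fst
  have htl : Measurable (fun (p : HPT × (ℕ → unitInterval)) (j : ℕ) => p.2 (1 + j)) :=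
    measurable_pi_iff.2 fun j => (measurable_pi_apply (1 + j)).comp measurable_snd
  have h1 : MeasurableSet {p : HPT × (ℕ → unitInterval) | κ < p.1.deg (p.1.M.bd 0)} :=
    measurableSet_lt measurable_const hdeg
  have h2 : MeasurableSet {p : HPT × (ℕ → unitInterval) |
      ⌊(p.2 0 : ℝ) * (p.1.deg (p.1.M.bd 0) + D : ℕ)⌋₊ = a + κ} := by
    have hU : Measurable (fun p : HPT × (ℕ → unitInterval) => (p.2 0 : ℝ)) :=
      measurable_subtype_coe.comp ((measurable_pi_apply 0).comp measurable_snd)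
    have hN : Measurable (fun p : HPT × (ℕ → unitInterval) =>
        ((p.1.deg (p.1.M.bd 0) + D : ℕ) : ℝ)) :=
      (measurable_from_nat (f := fun m : ℕ => ((m + D : ℕ) : ℝ))).comp hdeg
    exact (Nat.measurable_floor.comp (hU.mul hN)) (measurableSet_singleton (a + κ))
  have h3 : MeasurableSet {p : HPT × (ℕ → unitInterval) |
      p.1.Esc κ (fun j => p.2 (1 + j))} :=
    (measurable_fst.prodMk htl) (measurableSet_esc κ)
  have h4 : MeasurableSet {p : HPT × (ℕ → unitInterval) |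
      ((p.1, κ, fun j => p.2 (1 + j)) : Sp) ∈ C} :=
    (measurable_fst.prodMk (measurable_const.prodMk htl)) hC
  exact h1.inter (h2.inter (h3.inter h4))

theorem seen_law {μ : Measure HPT} [IsProbabilityMeasure μ] (hT : TransInv μ)
    (hD : DomMarkov μ) (c₀ : List ℤ) (n : ℕ) (h : List ℤ × List Step × List ℕ) (D : ℕ)
    (hh : ∀ p : HPT × (ℕ → unitInterval), hist c₀ p.1 p.2 n = h →
      Pio c₀ p.1 (p.1.walk p.2) n ∧ expD c₀ p.1 (p.1.walk p.2) n = D)
    {E : Set (ℕ → unitInterval)} (hE : MeasurableSet E)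
    (hE' : ∀ U U' : ℕ → unitInterval, (∀ j < n, U j = U' j) → (U ∈ E ↔ U' ∈ E))
    {C : Set Sp} (hC : MeasurableSet C) :
    (μ.prod unif) {p | hist c₀ p.1 p.2 n = h ∧ p.2 ∈ E ∧ Stays c₀ p.1 (p.1.walk p.2) n ∧
        seen c₀ p n ∈ C} =
      (μ.prod unif) {p | hist c₀ p.1 p.2 n = h ∧ p.2 ∈ E} * mD μ D C := by
  classical
  by_cases hex : ∃ q : HPT × (ℕ → unitInterval), hist c₀ q.1 q.2 n = h
  · obtain ⟨q, hq⟩ := hex
    obtain ⟨hqP, hqD⟩ := hh q hq
    set a := offD c₀ q.1 (q.1.walk q.2) n with ha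
    have haD : a ≤ D := by
      have h1 := off_add_le (walk_isPath q.1 q.2) hqP
      have h2 := deg_split (walk_isPath q.1 q.2) hqP
      rw [h2, hqD] at h1
      omega
    have hoff : ∀ p : HPT × (ℕ → unitInterval), hist c₀ p.1 p.2 n = h →
        offD c₀ p.1 (p.1.walk p.2) n = a := by
      intro p hp
      obtain ⟨φ, ψ, hs⟩ := hist_sim_of_eq (hp.trans hq.symm)
      exact hs.off_eq le_rfl hqP
    let T : ℕ → Set (HPT × (ℕ → unitInterval)) := fun κ =>
      {p | hist c₀ p.1 p.2 n = h ∧ p.2 ∈ E ∧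
        (regAt c₀ p.1 (p.1.walk p.2) n, fun k => p.2 (n + k)) ∈ gsS D a C κ}
    have hTm : ∀ κ, MeasurableSet (T κ) := by
      intro κ
      have h1 : Measurable (fun p : HPT × (ℕ → unitInterval) =>
          (regAt c₀ p.1 (p.1.walk p.2) n, fun k => p.2 (n + k))) :=
        (measurable_regAt c₀ n).prodMk (measurable_pi_iff.2 fun k =>
          (measurable_pi_apply (n + k)).comp measurable_snd)
      exact (measurableSet_hist c₀ n h).inter ((measurable_snd hE).inter
        (h1 (gsS_meas D a hC κ)))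
    have hTd : Pairwise (Function.onFun Disjoint T) := by
      intro κ κ' hκ
      rw [Function.onFun, Set.disjoint_left]
      rintro p ⟨-, -, -, h1, -⟩ ⟨-, -, -, h2, -⟩
      rw [h1] at h2
      exact hκ (by omega)
    have hTv : ∀ κ, (μ.prod unif) (T κ) =
        (μ.prod unif) {p | hist c₀ p.1 p.2 n = h ∧ p.2 ∈ E} * (μ.prod unif) (gsS D a C κ) :=
      fun κ => fresh_at hT hD c₀ n h hE hE' (gsS_meas D a hC κ)
    have hae : ({p | hist c₀ p.1 p.2 n = h ∧ p.2 ∈ E ∧ Stays c₀ p.1 (p.1.walk p.2) n ∧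
        seen c₀ p n ∈ C} : Set (HPT × (ℕ → unitInterval))) =ᵐ[μ.prod unif] ⋃ κ, T κ := by
      have h0 : ∀ᵐ p ∂(μ.prod unif), p.2 n ≠ 1 :=
        Measure.quasiMeasurePreserving_snd.ae (unif_ne_one n)
      filter_upwards [h0] with p hp1
      refine propext ?_
      change (hist c₀ p.1 p.2 n = h ∧ p.2 ∈ E ∧ Stays c₀ p.1 (p.1.walk p.2) n ∧
        seen c₀ p n ∈ C) ↔ p ∈ ⋃ κ, T κ
      rw [Set.mem_iUnion]
      by_cases hp : hist c₀ p.1 p.2 n = h
      swap
      · exact ⟨fun h1 => absurd h1.1 hp, fun ⟨κ, h1⟩ => absurd h1.1 hp⟩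
      obtain ⟨hpP, hpD⟩ := hh p hp
      have hpa := hoff p hp
      have hch := fun κ hκ => choice_iff (c₀ := c₀) (H := p.1) p.2 hpP hp1 (κ := κ) hκ
      have hkap : HPT.kap p.1 p.2 n =
          ⌊(p.2 n : ℝ) * ((regAt c₀ p.1 (p.1.walk p.2) n).deg
            ((regAt c₀ p.1 (p.1.walk p.2) n).M.bd 0) + D : ℕ)⌋₊ := by
        have h2 := deg_split (walk_isPath p.1 p.2) hpP
        rw [hpD] at h2
        rw [HPT.kap, h2]
      have hfun : (fun j => p.2 (n + 1 + j)) = fun j => p.2 (n + (1 + j)) := by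
        funext j
        rw [add_assoc]
      constructor
      · rintro ⟨-, hE1, hS, hC1⟩
        obtain ⟨h1, h2⟩ := kapR_spec hS
        refine ⟨(seen c₀ p n).2.1, hp, hE1, h1.1, ?_, ?_, ?_⟩
        · have h3 := (hch _ h1.1).1 h2
          rw [hpa, hkap] at h3
          exact h3
        · have h4 : (seen c₀ p n).2.2 = fun j => p.2 (n + (1 + j)) := hfun
          rw [h4] at h1
          exact h1
        · have h4 : seen c₀ p n = (regAt c₀ p.1 (p.1.walk p.2) n, (seen c₀ p n).2.1,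
              fun j => p.2 (n + (1 + j))) := by
            rw [← hfun]
            rfl
          rw [h4] at hC1
          exact hC1
      · rintro ⟨κ, -, hE1, hκ, h1, h2, h3⟩
        have h4 : HPT.kap p.1 p.2 n = a + κ := by
          rw [hkap]
          exact h1
        have h5 := (hch κ hκ).2 (by rw [hpa, h4])
        have h6 : (regAt c₀ p.1 (p.1.walk p.2) n).Esc κ (fun j => p.2 (n + 1 + j)) := by
          rw [hfun]
          exact h2
        have hS : Stays c₀ p.1 (p.1.walk p.2) n := (esc_iff p.2 hpP).2 ⟨κ, hκ, h5, h6⟩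
        obtain ⟨h7, h8⟩ := kapR_spec hS
        have h9 := (hch _ h7.1).1 h8
        rw [hpa, h4] at h9
        have h10 : (seen c₀ p n).2.1 = κ := by omega
        refine ⟨hp, hE1, hS, ?_⟩
        have h11 : seen c₀ p n = (regAt c₀ p.1 (p.1.walk p.2) n, (seen c₀ p n).2.1,
            fun j => p.2 (n + (1 + j))) := by
          rw [← hfun]
          rfl
        rw [h11, h10]
        exact h3
    rw [measure_congr hae, measure_iUnion hTd hTm, mD_eq_choice μ D a haD hC,
      ← ENNReal.tsum_mul_left]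
    exact tsum_congr hTv
  · have e1 : {p : HPT × (ℕ → unitInterval) | hist c₀ p.1 p.2 n = h ∧ p.2 ∈ E ∧
        Stays c₀ p.1 (p.1.walk p.2) n ∧ seen c₀ p n ∈ C} = ∅ := by
      ext p
      exact ⟨fun hp => hex ⟨p, hp.1⟩, fun hp => hp.elim⟩
    have e2 : {p : HPT × (ℕ → unitInterval) | hist c₀ p.1 p.2 n = h ∧ p.2 ∈ E} = ∅ := by
      ext p
      exact ⟨fun hp => hex ⟨p, hp.1⟩, fun hp => hp.elim⟩
    rw [e1, e2, measure_empty, zero_mul]

end Pool.Agent.Spd
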