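import Pool.Agent.Spd.G03a

/-!
(Part `G03c`: `mD_le`, `mD_qmap`, `pReg_le_one`, `pReg_pos`.  The text below is the common header of the parts.)

# SPD G03: the law of what is seen from a pioneer time

`p_D(C) = mD μ D C`.

* `mD_apply`: `mD μ D C = ∫⁻ G, ∑ κ ∈ range (deg G), (deg G + D)⁻¹ * unif {V | Esc κ V ∧ (G, κ, V) ∈ C} ∂μ`
  (`withDensity_apply`, `lintegral_prod`, `lintegral_count`; `Esc κ` includes `κ < deg`, so the sum
  over `κ` is finite; `measurableSet_esc`, `measurable_deg0`).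
* `mD_eq_choice`: with `U = (V 0, V 1, ...)`: the measure of
  `S κ = {(G, V) | κ < deg G ∧ ⌊V 0 * (deg G + D)⌋ = a + κ ∧ G.Esc κ (V (1 + ·)) ∧ (G, κ, V (1 + ·)) ∈ C}`
  under `μ × unif` is `∫⁻ G, 1[κ < deg] (deg + D)⁻¹ unif {V | Esc κ V ∧ (G, κ, V) ∈ C}`
  (`unif_choice` with `n = 0`, `E = univ`, `k = a + κ < deg + D` since `a ≤ D`); sum over `κ`.
* `seen_law`: on `{hist = h}` (pioneer, `expD = D`, `offD = a` are constant: `hist_sim_of_eq`,
  `HSim.expD_eq`, `off_eq`; `a ≤ D` by `off_add_le` and `deg_split`), with `G = regAt`, `V = drop n U`: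
  for `U n ≠ 1` (a.e.: `unif_ne_one`): `Stays ∧ seen ∈ C` holds iff for some `κ`
  `(G, V) ∈ S κ`: `esc_iff`, `choice_iff` (`kap = ⌊V 0 * deg_H⌋`, `deg_H = deg G + D` by
  `deg_split`), `kapR_spec`; the `κ` is unique, so the events are disjoint; `fresh_at` for each `κ`.
-/

namespace Pool.Agent.Spd

open MeasureTheory HPT

private theorem g3c_kap (G : HPT) (U : ℕ → unitInterval) :
    G.kap U 0 = ⌊(U 0 : ℝ) * (G.deg (G.M.bd 0) : ℕ)⌋₊ := by
  have h1 : G.deg (G.M.inv (G.M.bd (-1))) = G.deg (G.M.bd 0) :=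
    G.deg_sameV (G.ok.bd_mem 0) (G.ok.bd_prev 0)
  have h2 : G.kap U 0 = ⌊(U 0 : ℝ) * (G.deg (G.M.inv (G.M.bd (-1))) : ℕ)⌋₊ := rfl
  rw [h2, h1]

private theorem g3c_shift (U : ℕ → unitInterval) :
    (fun j => U (0 + 1 + j)) = fun j => U (j + 1) := by
  funext j
  congr 1
  omega

private theorem g3c_meas_kap :
    Measurable (fun p : HPT × (ℕ → unitInterval) => HPT.kap p.1 p.2 0) := by
  have h1 : (fun p : HPT × (ℕ → unitInterval) => HPT.kap p.1 p.2 0) =
      fun p => ⌊(p.2 0 : ℝ) * (p.1.deg (p.1.M.bd 0) : ℕ)⌋₊ := by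
    funext p
    exact g3c_kap p.1 p.2
  rw [h1]
  refine Nat.measurable_floor.comp (Measurable.mul ?_ ?_)
  · exact measurable_subtype_coe.comp ((measurable_pi_apply 0).comp measurable_snd)
  · exact (measurable_from_top (f := fun n : ℕ => (n : ℝ))).comp
      (measurable_deg0.comp measurable_fst)

private theorem g3c_meas_qmap : Measurable qmap := by
  refine measurable_fst.prodMk (g3c_meas_kap.prodMk ?_)
  exact measurable_pi_iff.2 fun j => (measurable_pi_apply (j + 1)).comp measurable_snd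

private theorem g3c_meas_esc : MeasurableSet {z : Sp | z.1.Esc z.2.1 z.2.2} := by
  have h1 : {z : Sp | z.1.Esc z.2.1 z.2.2} = ⋃ κ : ℕ, {z : Sp | z.2.1 = κ} ∩
      (fun z : Sp => (z.1, z.2.2)) ⁻¹' {p : HPT × (ℕ → unitInterval) | p.1.Esc κ p.2} := by
    ext z
    constructor
    · intro h
      exact Set.mem_iUnion.2 ⟨z.2.1, rfl, h⟩
    · intro h
      obtain ⟨κ, h2, h3⟩ := Set.mem_iUnion.1 h
      have h4 : z.2.1 = κ := h2
      have h5 : z.1.Esc κ z.2.2 := h3
      change z.1.Esc z.2.1 z.2.2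
      rw [h4]
      exact h5
  rw [h1]
  refine MeasurableSet.iUnion fun κ => MeasurableSet.inter ?_ ?_
  · exact (measurable_fst.comp measurable_snd) (measurableSet_singleton κ)
  · exact (measurable_fst.prodMk (measurable_snd.comp measurable_snd)) (measurableSet_esc κ)

private theorem g3c_meas_S (G : HPT) (κ : ℕ) {C : Set Sp} (hC : MeasurableSet C) :
    MeasurableSet {V : ℕ → unitInterval | G.Esc κ V ∧ ((G, κ, V) : Sp) ∈ C} := by
  refine MeasurableSet.inter ?_ ?_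
  · exact (measurable_const.prodMk measurable_id :
      Measurable fun V : ℕ → unitInterval => (G, V)) (measurableSet_esc κ)
  · exact (measurable_const.prodMk (measurable_const.prodMk measurable_id) :
      Measurable fun V : ℕ → unitInterval => ((G, κ, V) : Sp)) hC

private theorem g3c_inner (G : HPT) {C : Set Sp} (hC : MeasurableSet C) :
    unif {U | qmap (G, U) ∈ C ∧ (qmap (G, U)).1.Esc (qmap (G, U)).2.1 (qmap (G, U)).2.2} =
      ∑ κ ∈ Finset.range (G.deg (G.M.bd 0)), ((G.deg (G.M.bd 0) : ℕ) : ENNReal)⁻¹ *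
        unif {V | G.Esc κ V ∧ ((G, κ, V) : Sp) ∈ C} := by
  set d := G.deg (G.M.bd 0) with hd
  have h1 : {U | qmap (G, U) ∈ C ∧ (qmap (G, U)).1.Esc (qmap (G, U)).2.1 (qmap (G, U)).2.2} =
      ⋃ κ ∈ Finset.range d, {U : ℕ → unitInterval | U ∈ (Set.univ : Set (ℕ → unitInterval)) ∧
        ⌊(U 0 : ℝ) * d⌋₊ = κ ∧
        (fun j => U (0 + 1 + j)) ∈ {V | G.Esc κ V ∧ ((G, κ, V) : Sp) ∈ C}} := by
    ext U
    rw [Set.mem_iUnion₂]
    constructor
    · rintro ⟨h2, h3⟩
      have h4 : G.Esc (G.kap U 0) (fun j => U (j + 1)) := h3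
      refine ⟨G.kap U 0, Finset.mem_range.2 h4.1, Set.mem_univ _, (g3c_kap G U).symm, ?_⟩
      rw [g3c_shift]
      exact ⟨h4, h2⟩
    · rintro ⟨κ, h2, -, h3, h4⟩
      rw [g3c_shift] at h4
      have h5 : G.kap U 0 = κ := (g3c_kap G U).trans h3
      constructor
      · change ((G, G.kap U 0, fun j => U (j + 1)) : Sp) ∈ C
        rw [h5]
        exact h4.2
      · change G.Esc (G.kap U 0) (fun j => U (j + 1))
        rw [h5]
        exact h4.1
  rw [h1, measure_biUnion_finset]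
  · refine Finset.sum_congr rfl fun κ hκ => ?_
    rw [unif_choice 0 (Finset.mem_range.1 hκ) MeasurableSet.univ (fun _ _ _ => Iff.rfl)
      (g3c_meas_S G κ hC), measure_univ, one_mul]
  · intro κ _ κ' _ hne
    refine Set.disjoint_left.2 ?_
    rintro U ⟨-, h2, -⟩ ⟨-, h3, -⟩
    exact hne (h2.symm.trans h3)
  · intro κ _
    refine MeasurableSet.univ.inter (MeasurableSet.inter ?_ ?_)
    · have h2 : Measurable fun U : ℕ → unitInterval => ⌊(U 0 : ℝ) * d⌋₊ :=
        Nat.measurable_floor.comp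
          ((measurable_subtype_coe.comp (measurable_pi_apply 0)).mul_const _)
      exact h2 (measurableSet_singleton κ)
    · exact (g3c_meas_S G κ hC).preimage
        (measurable_pi_iff.2 fun j => measurable_pi_apply (0 + 1 + j))

/-- `mD` in terms of the law of the walk. -/
private theorem g3c_mD_qmap (μ : Measure HPT) [IsProbabilityMeasure μ] (D : ℕ) {C : Set Sp}
    (hC : MeasurableSet C) :
    mD μ D C = ∫⁻ p in {p | qmap p ∈ C ∧ (qmap p).1.Esc (qmap p).2.1 (qmap p).2.2},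
      (p.1.deg (p.1.M.bd 0) : ENNReal) * ((p.1.deg (p.1.M.bd 0) + D : ℕ) : ENNReal)⁻¹
        ∂(μ.prod unif) := by
  have hA : MeasurableSet {p | qmap p ∈ C ∧ (qmap p).1.Esc (qmap p).2.1 (qmap p).2.2} :=
    (g3c_meas_qmap hC).inter (g3c_meas_qmap g3c_meas_esc)
  have hw : Measurable fun p : HPT × (ℕ → unitInterval) =>
      (p.1.deg (p.1.M.bd 0) : ENNReal) * ((p.1.deg (p.1.M.bd 0) + D : ℕ) : ENNReal)⁻¹ :=
    (measurable_from_top (f := fun n : ℕ => (n : ENNReal) * ((n + D : ℕ) : ENNReal)⁻¹)).comp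
      (measurable_deg0.comp measurable_fst)
  rw [mD_apply μ D hC, ← lintegral_indicator hA, lintegral_prod _ (hw.indicator hA).aemeasurable]
  refine lintegral_congr fun G => ?_
  set d := G.deg (G.M.bd 0) with hd
  have hd0 : (d : ENNReal) ≠ 0 := by
    have := G.deg_pos (G.ok.bd_mem 0)
    exact_mod_cast this.ne'
  have h1 : (fun U : ℕ → unitInterval => ({p | qmap p ∈ C ∧
        (qmap p).1.Esc (qmap p).2.1 (qmap p).2.2} : Set (HPT × (ℕ → unitInterval))).indicator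
        (fun p => (p.1.deg (p.1.M.bd 0) : ENNReal) *
          ((p.1.deg (p.1.M.bd 0) + D : ℕ) : ENNReal)⁻¹) (G, U)) =
      ({U | qmap (G, U) ∈ C ∧ (qmap (G, U)).1.Esc (qmap (G, U)).2.1 (qmap (G, U)).2.2} :
        Set (ℕ → unitInterval)).indicator (fun _ => (d : ENNReal) * ((d + D : ℕ) : ENNReal)⁻¹) := by
    funext U
    rfl
  have hAG : MeasurableSet {U : ℕ → unitInterval | qmap (G, U) ∈ C ∧
      (qmap (G, U)).1.Esc (qmap (G, U)).2.1 (qmap (G, U)).2.2} :=
    (measurable_const.prodMk measurable_id : Measurable fun U : ℕ → unitInterval => (G, U)) hA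
  rw [h1, lintegral_indicator_const hAG, g3c_inner G hC, Finset.mul_sum]
  refine Finset.sum_congr rfl fun κ _ => ?_
  rw [show (d : ENNReal) * ((d + D : ℕ) : ENNReal)⁻¹ *
      ((d : ENNReal)⁻¹ * unif {V | G.Esc κ V ∧ ((G, κ, V) : Sp) ∈ C}) =
      ((d : ENNReal) * (d : ENNReal)⁻¹) * (((d + D : ℕ) : ENNReal)⁻¹ *
        unif {V | G.Esc κ V ∧ ((G, κ, V) : Sp) ∈ C}) by ring,
    ENNReal.mul_inv_cancel hd0 (ENNReal.natCast_ne_top d), one_mul]

/-- `mD` is at most the law of the walk. -/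
theorem mD_le (μ : Measure HPT) [IsProbabilityMeasure μ] (D : ℕ) {C : Set Sp}
    (hC : MeasurableSet C) : mD μ D C ≤ (μ.prod unif) {p | qmap p ∈ C} := by
  rw [g3c_mD_qmap μ D hC]
  calc ∫⁻ p in {p | qmap p ∈ C ∧ (qmap p).1.Esc (qmap p).2.1 (qmap p).2.2},
      (p.1.deg (p.1.M.bd 0) : ENNReal) * ((p.1.deg (p.1.M.bd 0) + D : ℕ) : ENNReal)⁻¹
        ∂(μ.prod unif)
      ≤ ∫⁻ _p in {p | qmap p ∈ C ∧ (qmap p).1.Esc (qmap p).2.1 (qmap p).2.2}, 1
        ∂(μ.prod unif) := by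
        refine lintegral_mono fun p => ?_
        have h0 := p.1.deg_pos (p.1.ok.bd_mem 0)
        rw [← div_eq_mul_inv]
        refine ENNReal.div_le_of_le_mul ?_
        rw [one_mul]
        exact_mod_cast Nat.le_add_right _ _
    _ = (μ.prod unif) {p | qmap p ∈ C ∧ (qmap p).1.Esc (qmap p).2.1 (qmap p).2.2} := by
        rw [setLIntegral_one]
    _ ≤ (μ.prod unif) {p | qmap p ∈ C} := measure_mono fun p hp => hp.1

/-- `mD` in terms of the law of the walk. -/
theorem mD_qmap (μ : Measure HPT) [IsProbabilityMeasure μ] (D : ℕ) {C : Set Sp}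
    (hC : MeasurableSet C) :
    mD μ D C = ∫⁻ p in {p | qmap p ∈ C ∧ (qmap p).1.Esc (qmap p).2.1 (qmap p).2.2},
      (p.1.deg (p.1.M.bd 0) : ENNReal) * ((p.1.deg (p.1.M.bd 0) + D : ℕ) : ENNReal)⁻¹
        ∂(μ.prod unif) :=
  g3c_mD_qmap μ D hC

theorem pReg_le_one (μ : Measure HPT) [IsProbabilityMeasure μ] : pReg μ ≤ 1 :=
  (mD_le μ 1 MeasurableSet.univ).trans prob_le_one

/-- The regeneration probability is positive iff the walk can escape. -/
theorem pReg_pos {μ : Measure HPT} [IsProbabilityMeasure μ] (h : 0 < escMass μ) :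
    0 < pReg μ := by
  rw [pos_iff_ne_zero]
  intro h0
  have h1 : pReg μ = ∫⁻ G, ((G.deg (G.M.bd 0) + 1 : ℕ) : ENNReal)⁻¹ *
      ∑' κ : ℕ, unif (Prod.mk G ⁻¹' {p : HPT × (ℕ → unitInterval) | p.1.Esc κ p.2}) ∂μ := by
    unfold pReg
    rw [mD_apply μ 1 MeasurableSet.univ]
    refine lintegral_congr fun G => ?_
    rw [← Finset.mul_sum]
    congr 1
    rw [tsum_eq_sum (s := Finset.range (G.deg (G.M.bd 0)))]
    · refine Finset.sum_congr rfl fun κ _ => ?_
      congr 1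
      ext V
      exact ⟨fun h => h.1, fun h => ⟨h, Set.mem_univ _⟩⟩
    · intro κ hκ
      have h2 : Prod.mk G ⁻¹' {p : HPT × (ℕ → unitInterval) | p.1.Esc κ p.2} = ∅ := by
        refine Set.eq_empty_of_forall_notMem fun V hV => ?_
        have h3 : G.Esc κ V := hV
        exact hκ (Finset.mem_range.2 h3.1)
      rw [h2, measure_empty]
  have hm : Measurable fun G : HPT => ∑' κ : ℕ,
      unif (Prod.mk G ⁻¹' {p : HPT × (ℕ → unitInterval) | p.1.Esc κ p.2}) :=
    Measurable.tsum fun κ => measurable_measure_prodMk_left (measurableSet_esc κ)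
  have hm' : Measurable fun G : HPT => ((G.deg (G.M.bd 0) + 1 : ℕ) : ENNReal)⁻¹ :=
    (measurable_from_top (f := fun n : ℕ => ((n + 1 : ℕ) : ENNReal)⁻¹)).comp measurable_deg0
  rw [h1] at h0
  replace h0 := (lintegral_eq_zero_iff (hm'.mul hm)).1 h0
  refine h.ne' ?_
  unfold escMass
  rw [← lintegral_zero (μ := μ)]
  refine lintegral_congr_ae ?_
  filter_upwards [h0] with G hG
  have h2 : ((G.deg (G.M.bd 0) + 1 : ℕ) : ENNReal)⁻¹ *
      ∑' κ : ℕ, unif (Prod.mk G ⁻¹' {p : HPT × (ℕ → unitInterval) | p.1.Esc κ p.2}) = 0 := hG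
  rcases mul_eq_zero.1 h2 with h3 | h3
  · exact absurd h3 (ENNReal.inv_ne_zero.2 (ENNReal.natCast_ne_top _))
  · refine le_antisymm ?_ bot_le
    rw [← h3]
    exact ENNReal.sum_le_tsum _

end Pool.Agent.Spd
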