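import Pool.Agent.Spd.G02
import Pool.Agent.Spd.Fresh
import Pool.Agent.Spd.MeasB

/-!
(Part `G03a`: `mD_apply`, `mD_eq_choice`.  The text below is the common header of the parts.)

# SPD G03: the law of what is seen from a pioneer time

`p_D(C) = mD μ D C`.

* `mD_apply`: `mD μ D C = ∫⁻ G, ∑ κ ∈ range (deg G), (deg G + D)⁻¹ * unif {V | Esc κ V ∧ (G, κ, V) ∈ C} ∂μ`
  (`withDensity_apply`, `lintegral_prod`, `lintegral_count`; `Esc κ` includes `κ < deg`, so the sum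
  over `κ` is finite; `measurableSet_esc`, `measurable_deg0`).
* `mD_eq_choice`: with `U = (V 0, V 1, ...)`: the measure of
  `S κ = {(G, V) | κ < deg G ∧ ⌊V 0 * (deg G + D)⌋ = a + κ ∧ G.Esc κ (V (1 + ·)) ∧ (G, κ, V (1 + ·)) ∈ C}`
  under `μ × unif` is `∫⁻ G, 1[κ < deg] (deg + D)⁻¹ unif {V | Esc κ V ∧ (G, κ, V) ∈ C}`
  (`unif_choice` with `n = 0`, `E = univ`, `k = a + κ < deg + D` since `a ≤ D`); sum over `κ`.
* `seen_law`: on `{hist = h}` (pioneer, `expD = D`, `offD = a` are constant: `hist_sim_of_eq`,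
  `HSim.expD_eq`, `off_eq`; `a ≤ D` by `off_add_le` and `deg_split`), with `G = regAt`, `V = drop n U`:
  for `U n ≠ 1` (a.e.: `unif_ne_one`): `Stays ∧ seen ∈ C` holds iff for some `κ`
  `(G, V) ∈ S κ`: `esc_iff`, `choice_iff` (`kap = ⌊V 0 * deg_H⌋`, `deg_H = deg G + D` by
  `deg_split`), `kapR_spec`; the `κ` is unique, so the events are disjoint; `fresh_at` for each `κ`.
-/

namespace Pool.Agent.Spd

open MeasureTheory HPT

private theorem g3a_meas_esc : MeasurableSet {z : Sp | z.1.Esc z.2.1 z.2.2} := by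
  have h1 : {z : Sp | z.1.Esc z.2.1 z.2.2} = ⋃ κ : ℕ, {z : Sp | z.2.1 = κ} ∩
      (fun z : Sp => (z.1, z.2.2)) ⁻¹' {p : HPT × (ℕ → unitInterval) | p.1.Esc κ p.2} := by
    ext z
    constructor
    · intro h
      exact Set.mem_iUnion.2 ⟨z.2.1, rfl, h⟩
    · intro h
      obtain ⟨κ, h2, h3⟩ := Set.mem_iUnion.1 h
      have h4 : z.2.1 = κ := h2
      have h5 : z.1.Esc κ z.2.2 := h3
      change z.1.Esc z.2.1 z.2.2
      rw [h4]
      exact h5
  rw [h1]
  refine MeasurableSet.iUnion fun κ => MeasurableSet.inter ?_ ?_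
  · exact (measurable_fst.comp measurable_snd) (measurableSet_singleton κ)
  · exact (measurable_fst.prodMk (measurable_snd.comp measurable_snd)) (measurableSet_esc κ)

private theorem g3a_meas_S (G : HPT) (κ : ℕ) {C : Set Sp} (hC : MeasurableSet C) :
    MeasurableSet {V : ℕ → unitInterval | G.Esc κ V ∧ ((G, κ, V) : Sp) ∈ C} := by
  refine MeasurableSet.inter ?_ ?_
  · exact (measurable_const.prodMk measurable_id :
      Measurable fun V : ℕ → unitInterval => (G, V)) (measurableSet_esc κ)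
  · exact (measurable_const.prodMk (measurable_const.prodMk measurable_id) :
      Measurable fun V : ℕ → unitInterval => ((G, κ, V) : Sp)) hC

theorem mD_apply (μ : Measure HPT) [IsProbabilityMeasure μ] (D : ℕ) {C : Set Sp}
    (hC : MeasurableSet C) :
    mD μ D C = ∫⁻ G, ∑ κ ∈ Finset.range (G.deg (G.M.bd 0)),
      ((G.deg (G.M.bd 0) + D : ℕ) : ENNReal)⁻¹ * unif {V | G.Esc κ V ∧ (G, κ, V) ∈ C} ∂μ := by
  classical
  have hw : Measurable fun z : Sp => ((z.1.deg (z.1.M.bd 0) + D : ℕ) : ENNReal)⁻¹ :=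
    (measurable_from_top (f := fun n : ℕ => ((n + D : ℕ) : ENNReal)⁻¹)).comp
      (measurable_deg0.comp measurable_fst)
  have hA : MeasurableSet {z : Sp | z.1.Esc z.2.1 z.2.2 ∧ z ∈ C} := g3a_meas_esc.inter hC
  have h1 : mD μ D C = ∫⁻ z : Sp, ({z : Sp | z.1.Esc z.2.1 z.2.2 ∧ z ∈ C}).indicator
      (fun z => ((z.1.deg (z.1.M.bd 0) + D : ℕ) : ENNReal)⁻¹) z
        ∂(μ.prod (Measure.count.prod unif)) := by
    unfold mD
    rw [withDensity_apply _ hC, ← lintegral_indicator hC]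
    refine lintegral_congr fun z => ?_
    by_cases h2 : z ∈ C
    · rw [Set.indicator_of_mem h2]
      by_cases h3 : z.1.Esc z.2.1 z.2.2
      · rw [Set.indicator_of_mem (show z ∈ {z : Sp | z.1.Esc z.2.1 z.2.2 ∧ z ∈ C} from ⟨h3, h2⟩),
          if_pos h3]
      · rw [Set.indicator_of_notMem (fun h : z ∈ {z : Sp | z.1.Esc z.2.1 z.2.2 ∧ z ∈ C} =>
          h3 h.1), if_neg h3]
    · rw [Set.indicator_of_notMem h2,
        Set.indicator_of_notMem (fun h : z ∈ {z : Sp | z.1.Esc z.2.1 z.2.2 ∧ z ∈ C} => h2 h.2)]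
  rw [h1, lintegral_prod _ (hw.indicator hA).aemeasurable]
  refine lintegral_congr fun G => ?_
  have h2 : Measurable fun y : ℕ × (ℕ → unitInterval) =>
      ({z : Sp | z.1.Esc z.2.1 z.2.2 ∧ z ∈ C}).indicator
        (fun z => ((z.1.deg (z.1.M.bd 0) + D : ℕ) : ENNReal)⁻¹) (G, y) :=
    (hw.indicator hA).comp measurable_prodMk_left
  rw [lintegral_prod _ h2.aemeasurable, lintegral_count]
  have h3 : ∀ κ : ℕ, ∫⁻ V, ({z : Sp | z.1.Esc z.2.1 z.2.2 ∧ z ∈ C}).indicator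
        (fun z => ((z.1.deg (z.1.M.bd 0) + D : ℕ) : ENNReal)⁻¹) (G, (κ, V)) ∂unif =
      ((G.deg (G.M.bd 0) + D : ℕ) : ENNReal)⁻¹ * unif {V | G.Esc κ V ∧ (G, κ, V) ∈ C} := by
    intro κ
    rw [← lintegral_indicator_const (g3a_meas_S G κ hC)]
    rfl
  rw [tsum_congr h3]
  refine tsum_eq_sum fun κ hκ => ?_
  have h4 : {V | G.Esc κ V ∧ ((G, κ, V) : Sp) ∈ C} = ∅ := by
    refine Set.eq_empty_of_forall_notMem fun V hV => ?_
    exact hκ (Finset.mem_range.2 hV.1.1)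
  rw [h4, measure_empty, mul_zero]

private theorem g3a_meas_sec (D a κ : ℕ) {C : Set Sp} (hC : MeasurableSet C) :
    MeasurableSet {p : HPT × (ℕ → unitInterval) | κ < p.1.deg (p.1.M.bd 0) ∧
      ⌊(p.2 0 : ℝ) * (p.1.deg (p.1.M.bd 0) + D : ℕ)⌋₊ = a + κ ∧
      p.1.Esc κ (fun j => p.2 (1 + j)) ∧ ((p.1, κ, fun j => p.2 (1 + j)) : Sp) ∈ C} := by
  have hdeg : Measurable (fun p : HPT × (ℕ → unitInterval) => p.1.deg (p.1.M.bd 0)) :=
    measurable_deg0.comp measurable_fst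
  have htl : Measurable (fun (p : HPT × (ℕ → unitInterval)) (j : ℕ) => p.2 (1 + j)) :=
    measurable_pi_iff.2 fun j => (measurable_pi_apply (1 + j)).comp measurable_snd
  have h1 : MeasurableSet {p : HPT × (ℕ → unitInterval) | κ < p.1.deg (p.1.M.bd 0)} :=
    measurableSet_lt measurable_const hdeg
  have h2 : MeasurableSet {p : HPT × (ℕ → unitInterval) |
      ⌊(p.2 0 : ℝ) * (p.1.deg (p.1.M.bd 0) + D : ℕ)⌋₊ = a + κ} := by
    have hU : Measurable (fun p : HPT × (ℕ → unitInterval) => (p.2 0 : ℝ)) :=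
      measurable_subtype_coe.comp ((measurable_pi_apply 0).comp measurable_snd)
    have hN : Measurable (fun p : HPT × (ℕ → unitInterval) =>
        ((p.1.deg (p.1.M.bd 0) + D : ℕ) : ℝ)) :=
      (measurable_from_nat (f := fun m : ℕ => ((m + D : ℕ) : ℝ))).comp hdeg
    exact (Nat.measurable_floor.comp (hU.mul hN)) (measurableSet_singleton (a + κ))
  have h3 : MeasurableSet {p : HPT × (ℕ → unitInterval) |
      p.1.Esc κ (fun j => p.2 (1 + j))} :=
    (measurable_fst.prodMk htl) (measurableSet_esc κ)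
  have h4 : MeasurableSet {p : HPT × (ℕ → unitInterval) |
      ((p.1, κ, fun j => p.2 (1 + j)) : Sp) ∈ C} :=
    (measurable_fst.prodMk (measurable_const.prodMk htl)) hC
  exact h1.inter (h2.inter (h3.inter h4))

theorem mD_eq_choice (μ : Measure HPT) [IsProbabilityMeasure μ] (D a : ℕ) (ha : a ≤ D)
    {C : Set Sp} (hC : MeasurableSet C) :
    mD μ D C = ∑' κ : ℕ, (μ.prod unif) {p | κ < p.1.deg (p.1.M.bd 0) ∧
      ⌊(p.2 0 : ℝ) * (p.1.deg (p.1.M.bd 0) + D : ℕ)⌋₊ = a + κ ∧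
      p.1.Esc κ (fun j => p.2 (1 + j)) ∧ ((p.1, κ, fun j => p.2 (1 + j)) : Sp) ∈ C} := by
  have h1 : ∀ κ : ℕ, (μ.prod unif) {p : HPT × (ℕ → unitInterval) | κ < p.1.deg (p.1.M.bd 0) ∧
      ⌊(p.2 0 : ℝ) * (p.1.deg (p.1.M.bd 0) + D : ℕ)⌋₊ = a + κ ∧
      p.1.Esc κ (fun j => p.2 (1 + j)) ∧ ((p.1, κ, fun j => p.2 (1 + j)) : Sp) ∈ C} =
      ∫⁻ G, unif {U | κ < G.deg (G.M.bd 0) ∧
        ⌊(U 0 : ℝ) * (G.deg (G.M.bd 0) + D : ℕ)⌋₊ = a + κ ∧
        G.Esc κ (fun j => U (1 + j)) ∧ ((G, κ, fun j => U (1 + j)) : Sp) ∈ C} ∂μ := by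
    intro κ
    rw [Measure.prod_apply (g3a_meas_sec D a κ hC)]
    rfl
  have h2 : ∀ (G : HPT) (κ : ℕ), κ < G.deg (G.M.bd 0) →
      unif {U | κ < G.deg (G.M.bd 0) ∧
        ⌊(U 0 : ℝ) * (G.deg (G.M.bd 0) + D : ℕ)⌋₊ = a + κ ∧
        G.Esc κ (fun j => U (1 + j)) ∧ ((G, κ, fun j => U (1 + j)) : Sp) ∈ C} =
      ((G.deg (G.M.bd 0) + D : ℕ) : ENNReal)⁻¹ * unif {V | G.Esc κ V ∧ (G, κ, V) ∈ C} := by
    intro G κ hκ
    have h3 := unif_choice 0 (D := G.deg (G.M.bd 0) + D) (k := a + κ) (by omega)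
      MeasurableSet.univ (fun _ _ _ => Iff.rfl) (g3a_meas_S G κ hC)
    rw [measure_univ, one_mul] at h3
    rw [← h3]
    congr 1
    ext U
    have h4 : (fun j => U (0 + 1 + j)) = fun j => U (1 + j) := by
      funext j
      rw [zero_add]
    constructor
    · rintro ⟨-, h5, h6⟩
      refine ⟨Set.mem_univ _, h5, ?_⟩
      rw [h4]
      exact h6
    · rintro ⟨-, h5, h6⟩
      rw [h4] at h6
      exact ⟨hκ, h5, h6⟩
  rw [mD_apply μ D hC, tsum_congr h1, ← lintegral_tsum]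
  · refine lintegral_congr fun G => ?_
    rw [tsum_eq_sum (s := Finset.range (G.deg (G.M.bd 0)))]
    · exact Finset.sum_congr rfl fun κ hκ => (h2 G κ (Finset.mem_range.1 hκ)).symm
    · intro κ hκ
      have h4 : {U : ℕ → unitInterval | κ < G.deg (G.M.bd 0) ∧
          ⌊(U 0 : ℝ) * (G.deg (G.M.bd 0) + D : ℕ)⌋₊ = a + κ ∧
          G.Esc κ (fun j => U (1 + j)) ∧ ((G, κ, fun j => U (1 + j)) : Sp) ∈ C} = ∅ := by
        refine Set.eq_empty_of_forall_notMem fun V hV => ?_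
        exact hκ (Finset.mem_range.2 hV.1)
      rw [h4, measure_empty]
  · intro κ
    exact (measurable_measure_prodMk_left (g3a_meas_sec D a κ hC)).aemeasurable

end Pool.Agent.Spd
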