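import Pool.Agent.Spd.G04a

/-!
(Part `G04b`: `measurable_seen`.  The text below is the common header of the parts.)

# SPD G04: functions of the history, measurability

* `measurableSet_histfun`: a property that is a function of the history at time `n` defines a
  measurable set: countable union of the sets `{hist = h}` (`measurableSet_hist`).
* `cand_histfun`: for `m ≤ n` the truth of `Cand c₀ H w m n` is determined by the history at time `n`
  (`hist_sim_of_eq`, `HSim.pio_iff`, `expD_eq`, `abv_iff`).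
* `reg_iff_cand`: `Reg m` iff `Cand m n` for all `n ≥ m`.
* `measurableSet_reg`, `measurableSet_stays`: countable intersections.
* `reg_iff_of_stays`: if `Stays n` and `m < n`, then `Reg m ↔ Cand m n` (`stays_iff`).
* `measurable_seen`: `regAt` is measurable (`Fresh1`); `kapR c₀ H w n` is a function of the history at
  time `n + 1`: at a pioneer time, let `k = kap H U n`, `dG = deg (regAt) = H.deg (w n) - expD n`
  (`deg_split`), `off = offD n`.  If `off ≤ k % deg < off + dG` then `kapR = k % deg - off`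
  (`off_rot`, uniqueness by `iter_injOn`), otherwise the set is empty (`off_mem_iff`: the dart is not in
  the region) and `kapR = 0`; `kap`, `deg` at time `n`, `expD`, `offD` are functions of the history at
  time `n + 1` (`HSim.kap`, `HSim.deg`, `expD_eq`, `off_eq`).
* `measurable_liftU`: `measurable_deg0`.
* `measurable_fstT`: `sInf` of measurable events: `{fstT = n}` is `{Reg n, no Reg before}`, plus
  `{no Reg at all}` if `n = 0`; `pth_lift`.
* `measurable_theta`: on `{fstT = n}` it is `seen [] (z.1, liftU z) n` (`seenZ_lift`).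
* `measurable_slabK`: on `{fstT = n}` it is the number of pioneers in `[0, n)`.
-/

namespace Pool.Agent.Spd

open MeasureTheory HPT

namespace HPT

/-- The number of the dart taken, in terms of data of the history. -/
private theorem kapR_eq {c₀ : List ℤ} {H : HPT} {U : ℕ → unitInterval} {n : ℕ}
    (hp : Pio c₀ H (H.walk U) n) :
    kapR c₀ H (H.walk U) n =
      sInf {κ | κ < H.deg (H.walk U n) - expD c₀ H (H.walk U) n ∧
        HPT.kap H U n % H.deg (H.walk U n) = offD c₀ H (H.walk U) n + κ} := by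
  have P : IsPath H (H.walk U) := walk_isPath H U
  have hw : H.walk U n ∈ H.M.D := P.mem n
  have hdp : 0 < H.deg (H.walk U n) := H.deg_pos hw
  have hsplit := deg_split P hp
  have hle := off_add_le P hp
  have hG := (regAt c₀ H (H.walk U) n).ok
  have hb : (regAt c₀ H (H.walk U) n).M.bd 0 ∈ (regAt c₀ H (H.walk U) n).M.D := hG.bd_mem 0
  have h2 : (regAt c₀ H (H.walk U) n).M.SameV ((regAt c₀ H (H.walk U) n).M.bd 0)
      ((regAt c₀ H (H.walk U) n).M.inv ((regAt c₀ H (H.walk U) n).M.bd (-1))) := by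
    have h := hG.bd_prev 0
    rwa [zero_sub] at h
  have hdo := (regAt c₀ H (H.walk U) n).deg_sameV hb h2
  have hdG := (regAt c₀ H (H.walk U) n).deg_pos hb
  have hinv : H.M.inv (H.walk U (n + 1)) =
      H.M.rot^[HPT.kap H U n % H.deg (H.walk U n)] (H.walk U n) := by
    have h3 : H.walk U (n + 1) = H.M.inv (H.M.rot^[HPT.kap H U n] (H.walk U n)) := rfl
    rw [h3, H.ok.inv_inv _ (H.ok.iter_mem hw _)]
    exact (Function.iterate_mod_minimalPeriod_eq).symm
  have hkey : ∀ κ < (regAt c₀ H (H.walk U) n).deg ((regAt c₀ H (H.walk U) n).M.bd 0),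
      (H.M.inv (H.walk U (n + 1)) = (regAt c₀ H (H.walk U) n).M.rot^[κ]
        ((regAt c₀ H (H.walk U) n).M.inv ((regAt c₀ H (H.walk U) n).M.bd (-1))) ↔
      HPT.kap H U n % H.deg (H.walk U n) = offD c₀ H (H.walk U) n + κ) := by
    intro κ hκ
    rw [← off_rot P hp hκ, hinv]
    constructor
    · intro h
      exact H.iter_injOn (Set.mem_Iio.2 (Nat.mod_lt _ hdp)) (Set.mem_Iio.2 (by omega)) h
    · intro h
      rw [h]
  have hdE : H.deg (H.walk U n) - expD c₀ H (H.walk U) n =
      (regAt c₀ H (H.walk U) n).deg ((regAt c₀ H (H.walk U) n).M.bd 0) := by omega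
  rw [hdE]
  unfold kapR
  rw [if_pos hp]
  set A : Set ℕ := {κ | H.M.inv (H.walk U (n + 1)) = (regAt c₀ H (H.walk U) n).M.rot^[κ]
        ((regAt c₀ H (H.walk U) n).M.inv ((regAt c₀ H (H.walk U) n).M.bd (-1)))} with hA
  set B : Set ℕ := {κ | κ < (regAt c₀ H (H.walk U) n).deg ((regAt c₀ H (H.walk U) n).M.bd 0) ∧
        HPT.kap H U n % H.deg (H.walk U n) = offD c₀ H (H.walk U) n + κ} with hB
  have hBA : ∀ κ ∈ B, κ ∈ A := fun κ hκ => (hkey κ hκ.1).2 hκ.2
  by_cases hne : A.Nonempty
  · have hmem : sInf A ∈ A := Nat.sInf_mem hne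
    have hlt : sInf A < (regAt c₀ H (H.walk U) n).deg
        ((regAt c₀ H (H.walk U) n).M.bd 0) := by
      have h4 : sInf A % (regAt c₀ H (H.walk U) n).deg
          ((regAt c₀ H (H.walk U) n).M.bd 0) ∈ A := by
        have h5 : H.M.inv (H.walk U (n + 1)) = (regAt c₀ H (H.walk U) n).M.rot^[sInf A]
            ((regAt c₀ H (H.walk U) n).M.inv ((regAt c₀ H (H.walk U) n).M.bd (-1))) := hmem
        change H.M.inv (H.walk U (n + 1)) = (regAt c₀ H (H.walk U) n).M.rot^[sInf A %
            (regAt c₀ H (H.walk U) n).deg ((regAt c₀ H (H.walk U) n).M.bd 0)]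
            ((regAt c₀ H (H.walk U) n).M.inv ((regAt c₀ H (H.walk U) n).M.bd (-1)))
        rw [h5, ← hdo]
        exact (Function.iterate_mod_minimalPeriod_eq).symm
      exact lt_of_le_of_lt (Nat.sInf_le h4) (Nat.mod_lt _ hdG)
    have hmemB : sInf A ∈ B := ⟨hlt, (hkey _ hlt).1 hmem⟩
    exact le_antisymm (Nat.sInf_le (hBA _ (Nat.sInf_mem ⟨_, hmemB⟩))) (Nat.sInf_le hmemB)
  · have hA0 : A = ∅ := Set.not_nonempty_iff_eq_empty.1 hne
    have hB0 : B = ∅ := Set.eq_empty_iff_forall_notMem.2 fun κ hκ => hne ⟨κ, hBA κ hκ⟩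
    rw [hA0, hB0]

private theorem kapR_histfun (c₀ : List ℤ) (n : ℕ)
    (p p' : HPT × (ℕ → unitInterval))
    (h : hist c₀ p.1 p.2 (n + 1) = hist c₀ p'.1 p'.2 (n + 1)) :
    kapR c₀ p.1 (p.1.walk p.2) n = kapR c₀ p'.1 (p'.1.walk p'.2) n := by
  obtain ⟨φ, ψ, hs⟩ := hist_sim_of_eq h
  by_cases hp : Pio c₀ p'.1 (p'.1.walk p'.2) n
  · have hp' : Pio c₀ p.1 (p.1.walk p.2) n := (hs.pio_iff (Nat.le_succ n)).2 hp
    rw [kapR_eq hp, kapR_eq hp', hs.deg n (Nat.lt_succ_self n), hs.kap n (Nat.lt_succ_self n),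
      hs.expD_eq (Nat.le_succ n), hs.off_eq (Nat.le_succ n) hp]
  · have hp' : ¬ Pio c₀ p.1 (p.1.walk p.2) n := fun hq => hp ((hs.pio_iff (Nat.le_succ n)).1 hq)
    unfold kapR
    rw [if_neg hp, if_neg hp']

end HPT

theorem measurable_seen (c₀ : List ℤ) (n : ℕ) :
    Measurable (fun p : HPT × (ℕ → unitInterval) => seen c₀ p n) := by
  have h1 := HPT.measurable_regAt c₀ n
  have h2 : Measurable (fun p : HPT × (ℕ → unitInterval) =>
      kapR c₀ p.1 (p.1.walk p.2) n) := by
    refine measurable_to_countable' fun k => ?_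
    refine measurableSet_histfun c₀ (n + 1)
      (fun p => kapR c₀ p.1 (p.1.walk p.2) n = k) fun p p' h => ?_
    rw [HPT.kapR_histfun c₀ n p p' h]
  have h3 : Measurable (fun p : HPT × (ℕ → unitInterval) => fun j : ℕ => p.2 (n + 1 + j)) :=
    measurable_pi_lambda _ fun j => (measurable_pi_apply (n + 1 + j)).comp measurable_snd
  exact h1.prodMk (h2.prodMk h3)

end Pool.Agent.Spd
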