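import Pool.Agent.Spd.G04b

/-!
(Part `G04c`: `measurable_qmap`, `measurable_liftU`, `measurableSet_escZ`, `measurableSet_regZ`,
`measurableSet_pioZ`, `measurable_fstT`, `measurable_theta`, `measurable_slabK`.  The text below is
the common header of the parts.)

# SPD G04: functions of the history, measurability

* `measurableSet_histfun`: a property that is a function of the history at time `n` defines a
  measurable set: countable union of the sets `{hist = h}` (`measurableSet_hist`).
* `cand_histfun`: for `m ≤ n` the truth of `Cand c₀ H w m n` is determined by the history at time `n`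
  (`hist_sim_of_eq`, `HSim.pio_iff`, `expD_eq`, `abv_iff`).
* `reg_iff_cand`: `Reg m` iff `Cand m n` for all `n ≥ m`.
* `measurableSet_reg`, `measurableSet_stays`: countable intersections.
* `reg_iff_of_stays`: if `Stays n` and `m < n`, then `Reg m ↔ Cand m n` (`stays_iff`).
* `measurable_seen`: `regAt` is measurable (`Fresh1`); `kapR c₀ H w n` is a function of the history at
  time `n + 1`: at a pioneer time, let `k = kap H U n`, `dG = deg (regAt) = H.deg (w n) - expD n`
  (`deg_split`), `off = offD n`.  If `off ≤ k % deg < off + dG` then `kapR = k % deg - off`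
  (`off_rot`, uniqueness by `iter_injOn`), otherwise the set is empty (`off_mem_iff`: the dart is not in
  the region) and `kapR = 0`; `kap`, `deg` at time `n`, `expD`, `offD` are functions of the history at
  time `n + 1` (`HSim.kap`, `HSim.deg`, `expD_eq`, `off_eq`).
* `measurable_liftU`: `measurable_deg0`.
* `measurable_fstT`: `sInf` of measurable events: `{fstT = n}` is `{Reg n, no Reg before}`, plus
  `{no Reg at all}` if `n = 0`; `pth_lift`.
* `measurable_theta`: on `{fstT = n}` it is `seen [] (z.1, liftU z) n` (`seenZ_lift`).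
* `measurable_slabK`: on `{fstT = n}` it is the number of pioneers in `[0, n)`.
-/

namespace Pool.Agent.Spd

open MeasureTheory HPT

theorem measurable_qmap : Measurable qmap := by
  have h0 : ∀ H : HPT, H.deg (H.M.inv (H.M.bd (-1))) = H.deg (H.M.bd 0) := fun H =>
    H.deg_sameV (H.ok.bd_inner 0).1 (H.ok.bd_prev 0)
  have h1 : (fun p : HPT × (ℕ → unitInterval) => HPT.kap p.1 p.2 0) =
      fun p => ⌊(p.2 0 : ℝ) * (p.1.deg (p.1.M.bd 0) : ℕ)⌋₊ := by
    funext p
    change ⌊(p.2 0 : ℝ) * (p.1.deg (p.1.M.inv (p.1.M.bd (-1))) : ℕ)⌋₊ = _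
    rw [h0]
  have h2 : Measurable fun p : HPT × (ℕ → unitInterval) => HPT.kap p.1 p.2 0 := by
    rw [h1]
    refine Nat.measurable_floor.comp (Measurable.mul ?_ ?_)
    · exact measurable_subtype_coe.comp ((measurable_pi_apply 0).comp measurable_snd)
    · exact (measurable_from_top (f := fun n : ℕ => (n : ℝ))).comp
        (measurable_deg0.comp measurable_fst)
  refine measurable_fst.prodMk (h2.prodMk ?_)
  exact measurable_pi_iff.2 fun j => (measurable_pi_apply (j + 1)).comp measurable_snd

theorem measurable_liftU : Measurable (fun z : Sp => (z.1, liftU z)) := by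
  refine measurable_fst.prodMk (measurable_pi_iff.2 fun n => ?_)
  cases n with
  | zero =>
    have h1 : Measurable fun z : Sp => (z.2.1, z.1.deg (z.1.M.bd 0)) :=
      (measurable_fst.comp measurable_snd).prodMk (measurable_deg0.comp measurable_fst)
    have h2 : Measurable fun q : ℕ × ℕ =>
        max (0 : ℝ) (min 1 (((q.1 % q.2 : ℕ) + 1 / 2 : ℝ) / (q.2 : ℕ))) :=
      Measurable.of_discrete
    exact (h2.comp h1).subtype_mk
  | succ n => exact (measurable_pi_apply n).comp (measurable_snd.comp measurable_snd)

theorem measurableSet_escZ : MeasurableSet {z : Sp | z.1.Esc z.2.1 z.2.2} := by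
  have h1 : {z : Sp | z.1.Esc z.2.1 z.2.2} =
      ⋃ κ : ℕ, ({z : Sp | z.2.1 = κ} ∩ {z : Sp | z.1.Esc κ z.2.2}) := by
    ext z
    simp only [Set.mem_iUnion, Set.mem_inter_iff, Set.mem_ofPred_eq]
    constructor
    · intro h
      exact ⟨z.2.1, rfl, h⟩
    · rintro ⟨κ, rfl, h⟩
      exact h
  rw [h1]
  refine MeasurableSet.iUnion fun κ => MeasurableSet.inter ?_ ?_
  · exact (measurable_fst.comp measurable_snd) (measurableSet_singleton κ)
  · exact (measurable_fst.prodMk (measurable_snd.comp measurable_snd)) (measurableSet_esc κ)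

theorem measurableSet_regZ (n : ℕ) : MeasurableSet {z : Sp | Reg [] z.1 (pth z) n} := by
  have h1 : {z : Sp | Reg [] z.1 (pth z) n} =
      (fun z : Sp => (z.1, liftU z)) ⁻¹' {p | Reg [] p.1 (p.1.walk p.2) n} := by
    ext z
    simp only [Set.mem_ofPred_eq, Set.mem_preimage]
    rw [pth_lift]
  rw [h1]
  exact measurable_liftU (measurableSet_reg [] n)

theorem measurableSet_pioZ (n : ℕ) : MeasurableSet {z : Sp | Pio [] z.1 (pth z) n} := by
  have h1 : {z : Sp | Pio [] z.1 (pth z) n} =
      (fun z : Sp => (z.1, liftU z)) ⁻¹' {p | Pio [] p.1 (p.1.walk p.2) n} := by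
    ext z
    simp only [Set.mem_ofPred_eq, Set.mem_preimage]
    rw [pth_lift]
  rw [h1]
  exact measurable_liftU (measurableSet_histfun [] n _ fun p p' h => pio_histfun [] le_rfl p p' h)

theorem measurable_fstT : Measurable fstT := by
  refine measurable_to_countable' fun n => ?_
  have h1 : fstT ⁻¹' {n} = ({z : Sp | Reg [] z.1 (pth z) n} ∩
      ⋂ m : ℕ, ⋂ _ : m < n, {z : Sp | Reg [] z.1 (pth z) m}ᶜ) ∪
      ({_z : Sp | n = 0} ∩ ⋂ m : ℕ, {z : Sp | Reg [] z.1 (pth z) m}ᶜ) := by
    ext z
    simp only [Set.mem_preimage, Set.mem_singleton_iff, Set.mem_union, Set.mem_inter_iff,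
      Set.mem_ofPred_eq, Set.mem_iInter, Set.mem_compl_iff]
    constructor
    · intro h
      by_cases hne : {n | Reg [] z.1 (pth z) n}.Nonempty
      · left
        have h2 := Nat.sInf_mem hne
        have h3 : sInf {n | Reg [] z.1 (pth z) n} = n := h
        rw [h3] at h2
        refine ⟨h2, fun m hm hm' => ?_⟩
        have h4 : sInf {n | Reg [] z.1 (pth z) n} ≤ m := Nat.sInf_le hm'
        omega
      · right
        have h2 := Set.not_nonempty_iff_eq_empty.1 hne
        have h3 : sInf {n | Reg [] z.1 (pth z) n} = n := h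
        rw [h2, Nat.sInf_empty] at h3
        refine ⟨h3.symm, fun m hm => hne ⟨m, hm⟩⟩
    · rintro (⟨h2, h3⟩ | ⟨h2, h3⟩)
      · refine le_antisymm (Nat.sInf_le h2) ?_
        by_contra hlt
        exact h3 _ (not_le.1 hlt)
          (Nat.sInf_mem (s := {n | Reg [] z.1 (pth z) n}) ⟨n, h2⟩)
      · have h4 : {n | Reg [] z.1 (pth z) n} = ∅ :=
          Set.eq_empty_iff_forall_notMem.2 fun m hm => h3 m hm
        change sInf {n | Reg [] z.1 (pth z) n} = n
        rw [h4, Nat.sInf_empty, h2]
  rw [h1]
  refine MeasurableSet.union (MeasurableSet.inter (measurableSet_regZ n) ?_)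
    (MeasurableSet.inter (MeasurableSet.const _) ?_)
  · exact MeasurableSet.iInter fun m => MeasurableSet.iInter fun _ => (measurableSet_regZ m).compl
  · exact MeasurableSet.iInter fun m => (measurableSet_regZ m).compl

/-- Measurability on the events `{fstT = n}`. -/
private theorem measurable_of_fstT {α : Type*} [MeasurableSpace α] (f : Sp → α)
    (g : ℕ → Sp → α) (hg : ∀ n, Measurable (g n)) (h : ∀ z, f z = g (fstT z) z) :
    Measurable f := by
  intro B hB
  have h1 : f ⁻¹' B = ⋃ n : ℕ, (fstT ⁻¹' {n} ∩ g n ⁻¹' B) := by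
    ext z
    simp only [Set.mem_preimage, Set.mem_iUnion, Set.mem_inter_iff, Set.mem_singleton_iff]
    constructor
    · intro hz
      refine ⟨fstT z, rfl, ?_⟩
      rw [← h]
      exact hz
    · rintro ⟨n, rfl, hz⟩
      rw [h]
      exact hz
  rw [h1]
  exact MeasurableSet.iUnion fun n =>
    (measurable_fstT (measurableSet_singleton n)).inter (hg n hB)

theorem measurable_theta : Measurable theta :=
  measurable_of_fstT theta (fun n z => seen [] (z.1, liftU z) n)
    (fun n => (measurable_seen [] n).comp measurable_liftU)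
    (fun z => seenZ_lift z (fstT z))

theorem measurable_slabK : Measurable slabK := by
  have h1 : ∀ n, Measurable fun p : HPT × (ℕ → unitInterval) =>
      (pios [] p.1 (p.1.walk p.2) 0 n).card := by
    intro n
    refine measurable_to_countable' fun k => ?_
    exact measurableSet_histfun [] n
      (fun p => (pios [] p.1 (p.1.walk p.2) 0 n).card = k)
      fun p p' h => by rw [pios_histfun [] p p' h]
  refine measurable_of_fstT slabK
    (fun n z => (pios [] z.1 (z.1.walk (liftU z)) 0 n).card)
    (fun n => (h1 n).comp measurable_liftU) (fun z => ?_)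
  change (pios [] z.1 (pth z) 0 (fstT z)).card = _
  rw [pth_lift]

end Pool.Agent.Spd
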