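import Pool.Agent.Spd.G02
import Pool.Agent.Spd.Fresh
import Pool.Agent.Spd.MeasB

/-!
(Part `G04a`: `measurableSet_histfun`, `pio_histfun`, `expD_histfun`, `cand_histfun`, `pios_histfun`, `reg_iff_cand`, `reg_iff_of_stays`, `measurableSet_reg`, `measurableSet_stays`.  The text below is the common header of the parts.)

# SPD G04: functions of the history, measurability

* `measurableSet_histfun`: a property that is a function of the history at time `n` defines a
  measurable set: countable union of the sets `{hist = h}` (`measurableSet_hist`).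
* `cand_histfun`: for `m ≤ n` the truth of `Cand c₀ H w m n` is determined by the history at time `n`
  (`hist_sim_of_eq`, `HSim.pio_iff`, `expD_eq`, `abv_iff`).
* `reg_iff_cand`: `Reg m` iff `Cand m n` for all `n ≥ m`.
* `measurableSet_reg`, `measurableSet_stays`: countable intersections.
* `reg_iff_of_stays`: if `Stays n` and `m < n`, then `Reg m ↔ Cand m n` (`stays_iff`).
* `measurable_seen`: `regAt` is measurable (`Fresh1`); `kapR c₀ H w n` is a function of the history at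
  time `n + 1`: at a pioneer time, let `k = kap H U n`, `dG = deg (regAt) = H.deg (w n) - expD n`
  (`deg_split`), `off = offD n`.  If `off ≤ k % deg < off + dG` then `kapR = k % deg - off`
  (`off_rot`, uniqueness by `iter_injOn`), otherwise the set is empty (`off_mem_iff`: the dart is not in
  the region) and `kapR = 0`; `kap`, `deg` at time `n`, `expD`, `offD` are functions of the history at
  time `n + 1` (`HSim.kap`, `HSim.deg`, `expD_eq`, `off_eq`).
* `measurable_liftU`: `measurable_deg0`.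
* `measurable_fstT`: `sInf` of measurable events: `{fstT = n}` is `{Reg n, no Reg before}`, plus
  `{no Reg at all}` if `n = 0`; `pth_lift`.
* `measurable_theta`: on `{fstT = n}` it is `seen [] (z.1, liftU z) n` (`seenZ_lift`).
* `measurable_slabK`: on `{fstT = n}` it is the number of pioneers in `[0, n)`.
-/

namespace Pool.Agent.Spd

open MeasureTheory HPT

theorem measurableSet_histfun (c₀ : List ℤ) (n : ℕ) (Φ : HPT × (ℕ → unitInterval) → Prop)
    (h : ∀ p p' : HPT × (ℕ → unitInterval), hist c₀ p.1 p.2 n = hist c₀ p'.1 p'.2 n →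
      (Φ p ↔ Φ p')) : MeasurableSet {p | Φ p} := by
  have e : {p | Φ p} = ⋃ h ∈ {h | ∃ p₀ : HPT × (ℕ → unitInterval),
      hist c₀ p₀.1 p₀.2 n = h ∧ Φ p₀}, {p : HPT × (ℕ → unitInterval) | hist c₀ p.1 p.2 n = h} := by
    ext p
    constructor
    · intro hp
      exact Set.mem_biUnion (x := hist c₀ p.1 p.2 n) ⟨p, rfl, hp⟩ rfl
    · intro hp
      obtain ⟨x, ⟨p₀, hx, hp₀⟩, hpx⟩ := Set.mem_iUnion₂.1 hp
      have hpx' : hist c₀ p.1 p.2 n = x := hpx
      exact (h p p₀ (hpx'.trans hx.symm)).2 hp₀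
  rw [e]
  exact MeasurableSet.biUnion (Set.to_countable _) fun h _ => measurableSet_hist c₀ n h

theorem pio_histfun (c₀ : List ℤ) {m n : ℕ} (hmn : m ≤ n)
    (p p' : HPT × (ℕ → unitInterval)) (h : hist c₀ p.1 p.2 n = hist c₀ p'.1 p'.2 n) :
    (Pio c₀ p.1 (p.1.walk p.2) m ↔ Pio c₀ p'.1 (p'.1.walk p'.2) m) := by
  obtain ⟨φ, ψ, S⟩ := hist_sim_of_eq h
  exact S.pio_iff hmn

theorem expD_histfun (c₀ : List ℤ) {m n : ℕ} (hmn : m ≤ n)
    (p p' : HPT × (ℕ → unitInterval)) (h : hist c₀ p.1 p.2 n = hist c₀ p'.1 p'.2 n) :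
    expD c₀ p.1 (p.1.walk p.2) m = expD c₀ p'.1 (p'.1.walk p'.2) m := by
  obtain ⟨φ, ψ, S⟩ := hist_sim_of_eq h
  exact S.expD_eq hmn

theorem cand_histfun (c₀ : List ℤ) {m n : ℕ} (hmn : m ≤ n)
    (p p' : HPT × (ℕ → unitInterval)) (h : hist c₀ p.1 p.2 n = hist c₀ p'.1 p'.2 n) :
    (Cand c₀ p.1 (p.1.walk p.2) m n ↔ Cand c₀ p'.1 (p'.1.walk p'.2) m n) := by
  obtain ⟨φ, ψ, S⟩ := hist_sim_of_eq h
  unfold Cand
  rw [S.pio_iff hmn, S.expD_eq hmn]
  refine and_congr_right fun _ => and_congr_right fun _ => and_congr_right fun _ => ?_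
  exact forall_congr' fun j => forall_congr' fun h1 => forall_congr' fun h2 =>
    S.abv_iff h1.le h2

theorem pios_histfun (c₀ : List ℤ) {a n : ℕ}
    (p p' : HPT × (ℕ → unitInterval)) (h : hist c₀ p.1 p.2 n = hist c₀ p'.1 p'.2 n) :
    pios c₀ p.1 (p.1.walk p.2) a n = pios c₀ p'.1 (p'.1.walk p'.2) a n := by
  classical
  unfold pios
  refine Finset.filter_congr fun m hm => ?_
  exact pio_histfun c₀ (Finset.mem_Ico.1 hm).2.le p p' h

theorem reg_iff_cand (c₀ : List ℤ) (H : HPT) (w : ℕ → ℕ) (m : ℕ) :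
    Reg c₀ H w m ↔ ∀ n, m ≤ n → Cand c₀ H w m n := by
  constructor
  · rintro ⟨h1, h2, h3⟩ n _
    exact ⟨h1, h2.1, h3, fun j hj _ => h2.2 j hj⟩
  · intro h
    obtain ⟨h1, h2, h3, -⟩ := h m le_rfl
    exact ⟨h1, ⟨h2, fun j hj => (h j hj.le).2.2.2 j hj le_rfl⟩, h3⟩

theorem reg_iff_of_stays {c₀ : List ℤ} {H : HPT} {w : ℕ → ℕ} (P : IsPath H w) {m n : ℕ}
    (S : Stays c₀ H w n) (hmn : m < n) : Reg c₀ H w m ↔ Cand c₀ H w m n := by
  unfold Reg Cand
  rw [stays_iff P S hmn]
  tauto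

theorem measurableSet_reg (c₀ : List ℤ) (n : ℕ) :
    MeasurableSet {p : HPT × (ℕ → unitInterval) | Reg c₀ p.1 (p.1.walk p.2) n} := by
  have e : {p : HPT × (ℕ → unitInterval) | Reg c₀ p.1 (p.1.walk p.2) n} =
      ⋂ k : ℕ, {p | n ≤ k → Cand c₀ p.1 (p.1.walk p.2) n k} := by
    ext p
    rw [Set.mem_iInter]
    exact reg_iff_cand c₀ p.1 (p.1.walk p.2) n
  rw [e]
  refine MeasurableSet.iInter fun k => ?_
  by_cases hk : n ≤ k
  · refine measurableSet_histfun c₀ k _ fun p p' h => ?_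
    have := cand_histfun c₀ hk p p' h
    exact ⟨fun h1 _ => this.1 (h1 hk), fun h1 _ => this.2 (h1 hk)⟩
  · have e2 : {p : HPT × (ℕ → unitInterval) | n ≤ k → Cand c₀ p.1 (p.1.walk p.2) n k} =
        Set.univ := Set.eq_univ_of_forall fun p h => absurd h hk
    rw [e2]
    exact MeasurableSet.univ

theorem measurableSet_stays (c₀ : List ℤ) (n : ℕ) :
    MeasurableSet {p : HPT × (ℕ → unitInterval) | Stays c₀ p.1 (p.1.walk p.2) n} := by
  have e : {p : HPT × (ℕ → unitInterval) | Stays c₀ p.1 (p.1.walk p.2) n} =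
      ⋂ k : ℕ, {p | n ≤ k → Pio c₀ p.1 (p.1.walk p.2) n ∧ ∀ j, n < j → j ≤ k →
        Abv p.1 (reg c₀ p.1 (p.1.walk p.2) n) (p.1.walk p.2 j)} := by
    ext p
    rw [Set.mem_iInter]
    constructor
    · intro h k _
      exact ⟨h.1, fun j hj _ => h.2 j hj⟩
    · intro h
      exact ⟨(h n le_rfl).1, fun j hj => (h j hj.le).2 j hj le_rfl⟩
  rw [e]
  refine MeasurableSet.iInter fun k => ?_
  by_cases hk : n ≤ k
  · refine measurableSet_histfun c₀ k _ fun p p' h => ?_
    obtain ⟨φ, ψ, S⟩ := hist_sim_of_eq h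
    refine forall_congr' fun _ => and_congr (S.pio_iff hk) ?_
    exact forall_congr' fun j => forall_congr' fun h1 => forall_congr' fun h2 =>
      S.abv_iff h1.le h2
  · have e2 : {p : HPT × (ℕ → unitInterval) | n ≤ k → Pio c₀ p.1 (p.1.walk p.2) n ∧
        ∀ j, n < j → j ≤ k → Abv p.1 (reg c₀ p.1 (p.1.walk p.2) n) (p.1.walk p.2 j)} =
        Set.univ := Set.eq_univ_of_forall fun p h => absurd h hk
    rw [e2]
    exact MeasurableSet.univ

end Pool.Agent.Spd
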