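import Pool.Agent.Spd.G05a

/-!
(Part `G05b`: `firstk`, `firstk_sum`, `card_firstk_le`, `card_firstk`.  The text below is the
common header of the parts.)

# SPD G05: counting explored darts at pioneers (pathwise) and integrals of functions of the region

* `vol_add`: induction on `n ≥ a`: `reg (n+1) = (regAt n).star` at a pioneer time (`reg_succ_pio`), the
  removed darts are added (disjoint; `starVol` counts the inner darts of `regAt n` that are not inner
  in the star; `Sub.fin`), otherwise `reg (n+1) = reg n`.
* `sum_expD`: `expD_bound` for `n` (all pioneers before `n`), `vol_add`.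
* `firstk c₀ H w a k n`: `n` is among the first `k` pioneer times `≥ a`.  `firstk_sum`: let `N` be given.
  The set `{m ∈ pios a N | card (pios a m) < k}` is `pios a N'` for some `a ≤ N' ≤ N`, or `N' = N`
  (`card (pios a m)` is nondecreasing in `m` and increases by one at each pioneer time), with
  `card (pios a N') ≤ k`; use `sum_expD` for `N'`.
* `card_firstk_le`, `card_firstk`: the same counting; if there are infinitely many pioneers the number
  of `n` with `firstk` is exactly `k`.
* `lint_fresh`: for `f` measurable on `HPT` and an event `Φ` that is a function of the history at time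
  `n`: `∫⁻ p in {Φ}, f (regAt n) = P(Φ) ∫⁻ f dμ`: `fresh_at` with `E = univ`,
  `S = B ×ˢ univ`, summed over the (countably many) histories satisfying `Φ`, gives the equality of the
  measures `(P.restrict Φ).map regAt = P(Φ) • μ`; `lintegral_map`.
-/

namespace Pool.Agent.Spd

open MeasureTheory HPT

namespace HPT

variable {H : HPT} {w : ℕ → ℕ} {c₀ : List ℤ}

/-- `n` is among the first `k` pioneer times `≥ a`. -/
def firstk (c₀ : List ℤ) (H : HPT) (w : ℕ → ℕ) (a k n : ℕ) : Prop :=
  a ≤ n ∧ Pio c₀ H w n ∧ (pios c₀ H w a n).card < k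

open Classical in
private theorem mem_pios {a b m : ℕ} :
    m ∈ pios c₀ H w a b ↔ (a ≤ m ∧ m < b) ∧ Pio c₀ H w m := by
  unfold pios
  rw [Finset.mem_filter, Finset.mem_Ico]

private theorem pios_mono {a b b' : ℕ} (h : b ≤ b') : pios c₀ H w a b ⊆ pios c₀ H w a b' := by
  intro m hm
  rw [mem_pios] at hm ⊢
  exact ⟨⟨hm.1.1, hm.1.2.trans_le h⟩, hm.2⟩

open Classical in
private theorem firstk_eq (c₀ : List ℤ) (H : HPT) (w : ℕ → ℕ) (a k N : ℕ) :
    ∃ N', a ≤ N' ∧ (Finset.range N).filter (fun n => firstk c₀ H w a k n) = pios c₀ H w a N' ∧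
      (pios c₀ H w a N').card ≤ k := by
  induction N with
  | zero =>
    refine ⟨a, le_rfl, ?_, ?_⟩
    · ext m
      rw [mem_pios, Finset.mem_filter, Finset.mem_range]
      constructor
      · intro h
        omega
      · intro h
        omega
    · have h : pios c₀ H w a a = ∅ := by
        ext m
        rw [mem_pios]
        constructor
        · intro h
          omega
        · intro h
          exact absurd h (Finset.notMem_empty m)
      rw [h]
      exact Nat.zero_le k
  | succ N ih =>
    by_cases hN : firstk c₀ H w a k N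
    · refine ⟨N + 1, hN.1.trans (Nat.le_succ N), ?_, ?_⟩
      · ext m
        rw [mem_pios, Finset.mem_filter, Finset.mem_range]
        constructor
        · rintro ⟨h1, h2, h3, _⟩
          exact ⟨⟨h2, h1⟩, h3⟩
        · rintro ⟨⟨h1, h2⟩, h3⟩
          refine ⟨h2, h1, h3, lt_of_le_of_lt (Finset.card_le_card (pios_mono ?_)) hN.2.2⟩
          omega
      · have h1 : pios c₀ H w a (N + 1) ⊆ insert N (pios c₀ H w a N) := by
          intro m hm
          rw [mem_pios] at hm
          rw [Finset.mem_insert, mem_pios]
          rcases Nat.lt_succ_iff_lt_or_eq.1 hm.1.2 with h | h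
          · exact Or.inr ⟨⟨hm.1.1, h⟩, hm.2⟩
          · exact Or.inl h
        have h2 := (Finset.card_le_card h1).trans (Finset.card_insert_le _ _)
        have h3 := hN.2.2
        omega
    · obtain ⟨N', h1, h2, h3⟩ := ih
      refine ⟨N', h1, ?_, h3⟩
      rw [Finset.range_add_one, Finset.filter_insert, if_neg hN, h2]

open Classical in
theorem firstk_sum (P : IsPath H w) (a k N : ℕ) :
    ∑ n ∈ (Finset.range N).filter (fun n => firstk c₀ H w a k n), expD c₀ H w n ≤
      k + ∑ n ∈ (Finset.range N).filter (fun n => firstk c₀ H w a k n),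
        (regAt c₀ H w n).starVol + expl c₀ H w a := by
  obtain ⟨N', h1, h2, h3⟩ := firstk_eq c₀ H w a k N
  rw [h2]
  have h4 := sum_expD (c₀ := c₀) P h1
  omega

open Classical in
theorem card_firstk_le (a k N : ℕ) :
    ((Finset.range N).filter (fun n => firstk c₀ H w a k n)).card ≤ k := by
  obtain ⟨N', _, h2, h3⟩ := firstk_eq c₀ H w a k N
  rw [h2]
  exact h3

private theorem exists_card (a k : ℕ) (hinf : ∀ n, ∃ m, n ≤ m ∧ Pio c₀ H w m) :
    ∃ N, k ≤ (pios c₀ H w a N).card := by
  induction k with
  | zero => exact ⟨0, Nat.zero_le _⟩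
  | succ k ih =>
    obtain ⟨N, hN⟩ := ih
    obtain ⟨m, hm, hp⟩ := hinf (max a N)
    have hma : a ≤ m := (le_max_left _ _).trans hm
    have hmN : N ≤ m := (le_max_right _ _).trans hm
    refine ⟨m + 1, ?_⟩
    have h1 : m ∉ pios c₀ H w a N := by
      rw [mem_pios]
      intro h
      omega
    have h2 : insert m (pios c₀ H w a N) ⊆ pios c₀ H w a (m + 1) := by
      intro x hx
      rw [Finset.mem_insert] at hx
      rcases hx with rfl | hx
      · rw [mem_pios]
        exact ⟨⟨hma, Nat.lt_succ_self x⟩, hp⟩
      · exact pios_mono (hmN.trans (Nat.le_succ m)) hx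
    have h3 := Finset.card_le_card h2
    rw [Finset.card_insert_of_notMem h1] at h3
    omega

open Classical in
theorem card_firstk (a k : ℕ) (hinf : ∀ n, ∃ m, n ≤ m ∧ Pio c₀ H w m) :
    ∃ N, ∀ N', N ≤ N' → ((Finset.range N').filter (fun n => firstk c₀ H w a k n)).card = k := by
  have hex := exists_card (c₀ := c₀) (H := H) (w := w) a k hinf
  refine ⟨Nat.find hex, fun N' hN' => le_antisymm (card_firstk_le a k N') ?_⟩
  refine (Nat.find_spec hex).trans (Finset.card_le_card ?_)
  intro m hm
  rw [mem_pios] at hm
  rw [Finset.mem_filter, Finset.mem_range]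
  exact ⟨hm.1.2.trans_le hN', hm.1.1, hm.2, not_le.1 (Nat.find_min hex hm.1.2)⟩

end HPT

end Pool.Agent.Spd
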