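import Pool.Agent.Spd.G05b

/-!
(Part `G05c`: `firstk_histfun`, `expl_histfun`, `lint_fresh`.  The text below is the common header of the parts.)

# SPD G05: counting explored darts at pioneers (pathwise) and integrals of functions of the region

* `vol_add`: induction on `n ≥ a`: `reg (n+1) = (regAt n).star` at a pioneer time (`reg_succ_pio`), the
  removed darts are added (disjoint; `starVol` counts the inner darts of `regAt n` that are not inner
  in the star; `Sub.fin`), otherwise `reg (n+1) = reg n`.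
* `sum_expD`: `expD_bound` for `n` (all pioneers before `n`), `vol_add`.
* `firstk c₀ H w a k n`: `n` is among the first `k` pioneer times `≥ a`.  `firstk_sum`: let `N` be given.
  The set `{m ∈ pios a N | card (pios a m) < k}` is `pios a N'` for some `a ≤ N' ≤ N`, or `N' = N`
  (`card (pios a m)` is nondecreasing in `m` and increases by one at each pioneer time), with
  `card (pios a N') ≤ k`; use `sum_expD` for `N'`.
* `card_firstk_le`, `card_firstk`: the same counting; if there are infinitely many pioneers the number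
  of `n` with `firstk` is exactly `k`.
* `lint_fresh`: for `f` measurable on `HPT` and an event `Φ` that is a function of the history at time
  `n`: `∫⁻ p in {Φ}, f (regAt n) = P(Φ) ∫⁻ f dμ`: `fresh_at` with `E = univ`,
  `S = B ×ˢ univ`, summed over the (countably many) histories satisfying `Φ`, gives the equality of the
  measures `(P.restrict Φ).map regAt = P(Φ) • μ`; `lintegral_map`.
-/

namespace Pool.Agent.Spd

open MeasureTheory HPT

namespace HPT

variable {H : HPT} {w : ℕ → ℕ} {c₀ : List ℤ}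

end HPT

private theorem pios_hist (c₀ : List ℤ) (a b n : ℕ) (hbn : b ≤ n + 1)
    (p p' : HPT × (ℕ → unitInterval)) (h : hist c₀ p.1 p.2 n = hist c₀ p'.1 p'.2 n) :
    pios c₀ p.1 (p.1.walk p.2) a b = pios c₀ p'.1 (p'.1.walk p'.2) a b := by
  classical
  obtain ⟨φ, ψ, hs⟩ := hist_sim_of_eq h
  ext m
  unfold pios
  rw [Finset.mem_filter, Finset.mem_filter, Finset.mem_Ico]
  refine and_congr_right fun hm => ?_
  exact hs.pio_iff (by omega)

theorem firstk_histfun (c₀ : List ℤ) (a k n : ℕ)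
    (p p' : HPT × (ℕ → unitInterval)) (h : hist c₀ p.1 p.2 n = hist c₀ p'.1 p'.2 n) :
    (firstk c₀ p.1 (p.1.walk p.2) a k n ↔ firstk c₀ p'.1 (p'.1.walk p'.2) a k n) := by
  obtain ⟨φ, ψ, hs⟩ := hist_sim_of_eq h
  unfold firstk
  rw [pios_hist c₀ a n n (Nat.le_succ n) p p' h, hs.pio_iff le_rfl]

theorem expl_histfun (c₀ : List ℤ) {a n : ℕ} (han : a ≤ n)
    (p p' : HPT × (ℕ → unitInterval)) (h : hist c₀ p.1 p.2 n = hist c₀ p'.1 p'.2 n) :
    expl c₀ p.1 (p.1.walk p.2) a = expl c₀ p'.1 (p'.1.walk p'.2) a := by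
  obtain ⟨φ, ψ, hs⟩ := hist_sim_of_eq h
  unfold expl
  rw [pios_hist c₀ 0 a n (han.trans (Nat.le_succ n)) p p' h, hs.vol_eq han]

theorem lint_fresh {μ : Measure HPT} [IsProbabilityMeasure μ] (hT : TransInv μ)
    (hD : DomMarkov μ) (c₀ : List ℤ) (n : ℕ) (Φ : HPT × (ℕ → unitInterval) → Prop)
    (hΦ : ∀ p p' : HPT × (ℕ → unitInterval), hist c₀ p.1 p.2 n = hist c₀ p'.1 p'.2 n →
      (Φ p ↔ Φ p')) {f : HPT → ENNReal} (hf : Measurable f) :
    ∫⁻ p in {p | Φ p}, f (regAt c₀ p.1 (p.1.walk p.2) n) ∂(μ.prod unif) =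
      (μ.prod unif) {p | Φ p} * ∫⁻ H, f H ∂μ := by
  classical
  -- one history
  have h1 : ∀ h : List ℤ × List Step × List ℕ,
      ∫⁻ p in {p | hist c₀ p.1 p.2 n = h}, f (regAt c₀ p.1 (p.1.walk p.2) n) ∂(μ.prod unif) =
        (μ.prod unif) {p | hist c₀ p.1 p.2 n = h} * ∫⁻ H, f H ∂μ := by
    intro h
    have hmeas : ((μ.prod unif).restrict {p | hist c₀ p.1 p.2 n = h}).map
        (fun p : HPT × (ℕ → unitInterval) => regAt c₀ p.1 (p.1.walk p.2) n) =
        ((μ.prod unif) {p | hist c₀ p.1 p.2 n = h}) • μ := by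
      ext B hB
      rw [Measure.map_apply (measurable_regAt c₀ n) hB,
        Measure.restrict_apply (measurable_regAt c₀ n hB), Measure.smul_apply, smul_eq_mul]
      have h2 := fresh_at hT hD c₀ n h (E := Set.univ) MeasurableSet.univ
        (fun _ _ _ => Iff.rfl) (S := B ×ˢ Set.univ) (hB.prod MeasurableSet.univ)
      have e1 : {p : HPT × (ℕ → unitInterval) | hist c₀ p.1 p.2 n = h ∧ p.2 ∈ Set.univ ∧
          (regAt c₀ p.1 (p.1.walk p.2) n, fun k => p.2 (n + k)) ∈ B ×ˢ Set.univ} =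
          (fun p : HPT × (ℕ → unitInterval) => regAt c₀ p.1 (p.1.walk p.2) n) ⁻¹' B ∩
            {p | hist c₀ p.1 p.2 n = h} := by
        ext p
        constructor
        · rintro ⟨h3, _, h4⟩
          exact ⟨h4.1, h3⟩
        · rintro ⟨h3, h4⟩
          exact ⟨h4, Set.mem_univ _, h3, Set.mem_univ _⟩
      have e2 : {p : HPT × (ℕ → unitInterval) | hist c₀ p.1 p.2 n = h ∧ p.2 ∈ Set.univ} =
          {p | hist c₀ p.1 p.2 n = h} := by
        ext p
        exact ⟨fun h3 => h3.1, fun h3 => ⟨h3, Set.mem_univ _⟩⟩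
      have e3 : (μ.prod unif) (B ×ˢ Set.univ) = μ B := by
        rw [Measure.prod_prod, measure_univ, mul_one]
      rw [e1, e2, e3] at h2
      exact h2
    rw [← lintegral_map hf (measurable_regAt c₀ n), hmeas, lintegral_smul_measure,
      smul_eq_mul]
  -- decomposition
  have hms : ∀ h : List ℤ × List Step × List ℕ, MeasurableSet
      ({p : HPT × (ℕ → unitInterval) | Φ p} ∩ {p | hist c₀ p.1 p.2 n = h}) := by
    intro h
    by_cases hex : ∃ p : HPT × (ℕ → unitInterval), Φ p ∧ hist c₀ p.1 p.2 n = h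
    · obtain ⟨q, hq1, hq2⟩ := hex
      have e : {p : HPT × (ℕ → unitInterval) | Φ p} ∩ {p | hist c₀ p.1 p.2 n = h} =
          {p | hist c₀ p.1 p.2 n = h} := by
        refine Set.inter_eq_right.2 fun p hp => ?_
        have hp' : hist c₀ p.1 p.2 n = h := hp
        exact (hΦ p q (hp'.trans hq2.symm)).2 hq1
      rw [e]
      exact measurableSet_hist c₀ n h
    · have e : {p : HPT × (ℕ → unitInterval) | Φ p} ∩ {p | hist c₀ p.1 p.2 n = h} = ∅ :=
        Set.eq_empty_iff_forall_notMem.2 fun p hp => hex ⟨p, hp.1, hp.2⟩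
      rw [e]
      exact MeasurableSet.empty
  have hU : {p : HPT × (ℕ → unitInterval) | Φ p} = ⋃ h : List ℤ × List Step × List ℕ,
      ({p : HPT × (ℕ → unitInterval) | Φ p} ∩ {p | hist c₀ p.1 p.2 n = h}) := by
    ext p
    rw [Set.mem_iUnion]
    exact ⟨fun hp => ⟨_, hp, rfl⟩, fun ⟨_, hp, _⟩ => hp⟩
  have hdis : Pairwise (Function.onFun Disjoint (fun h : List ℤ × List Step × List ℕ =>
      ({p : HPT × (ℕ → unitInterval) | Φ p} ∩ {p | hist c₀ p.1 p.2 n = h}))) := by
    intro h h' hne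
    refine Set.disjoint_left.2 fun p hp hp' => hne ?_
    have h3 : hist c₀ p.1 p.2 n = h := hp.2
    have h4 : hist c₀ p.1 p.2 n = h' := hp'.2
    exact h3.symm.trans h4
  have hone : ∀ h : List ℤ × List Step × List ℕ,
      ∫⁻ p in ({p : HPT × (ℕ → unitInterval) | Φ p} ∩ {p | hist c₀ p.1 p.2 n = h}),
        f (regAt c₀ p.1 (p.1.walk p.2) n) ∂(μ.prod unif) =
      (μ.prod unif) ({p : HPT × (ℕ → unitInterval) | Φ p} ∩ {p | hist c₀ p.1 p.2 n = h}) *
        ∫⁻ H, f H ∂μ := by
    intro h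
    by_cases hex : ∃ p : HPT × (ℕ → unitInterval), Φ p ∧ hist c₀ p.1 p.2 n = h
    · obtain ⟨q, hq1, hq2⟩ := hex
      have e : {p : HPT × (ℕ → unitInterval) | Φ p} ∩ {p | hist c₀ p.1 p.2 n = h} =
          {p | hist c₀ p.1 p.2 n = h} := by
        refine Set.inter_eq_right.2 fun p hp => ?_
        have hp' : hist c₀ p.1 p.2 n = h := hp
        exact (hΦ p q (hp'.trans hq2.symm)).2 hq1
      rw [e]
      exact h1 h
    · have e : {p : HPT × (ℕ → unitInterval) | Φ p} ∩ {p | hist c₀ p.1 p.2 n = h} = ∅ :=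
        Set.eq_empty_iff_forall_notMem.2 fun p hp => hex ⟨p, hp.1, hp.2⟩
      rw [e, Measure.restrict_empty, lintegral_zero_measure, measure_empty, zero_mul]
  rw [hU, lintegral_iUnion hms hdis, measure_iUnion hdis hms, ← ENNReal.tsum_mul_right]
  exact tsum_congr hone

end Pool.Agent.Spd
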