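import Pool.Agent.Spd.G04
import Pool.Agent.Spd.W16

/-!
(Part `G05a`: `vol_add`, `expl`, `sum_expD`.)

# SPD G05: counting explored darts at pioneers (pathwise)

* `vol_add`: induction on `n ≥ a`: `reg (n+1) = (regAt n).star` at a pioneer time
  (`reg_succ_pio`), the removed darts are added (disjoint; `starVol` counts the inner darts of
  `regAt n` that are not inner in the star; `Sub.fin`), otherwise `reg (n+1) = reg n`.
* `sum_expD`: `expD_bound` for `n` (all pioneers before `n`), `vol_add`.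
-/

namespace Pool.Agent.Spd

open MeasureTheory HPT

namespace HPT

variable {H : HPT} {w : ℕ → ℕ} {c₀ : List ℤ}

private theorem g5_shift_inner (k : ℤ) (K : HPT) (d : ℕ) :
    (K.shift k).M.Inner d ↔ K.M.Inner d := by
  constructor
  · rintro ⟨h1, h2⟩
    refine ⟨h1, fun i hi => h2 (i - k) ?_⟩
    simpa [HPT.shift, PreMap.shift] using hi
  · rintro ⟨h1, h2⟩
    exact ⟨h1, fun i hi => h2 (i + k) hi⟩

private theorem pios_succ_pio {a n : ℕ} (han : a ≤ n) (h : Pio c₀ H w n) :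
    pios c₀ H w a (n + 1) = insert n (pios c₀ H w a n) := by
  classical
  ext m
  rw [pios, Finset.mem_filter, Finset.mem_Ico, Finset.mem_insert, pios, Finset.mem_filter,
    Finset.mem_Ico]
  constructor
  · rintro ⟨⟨h1, h2⟩, h3⟩
    rcases Nat.lt_succ_iff_lt_or_eq.1 h2 with h4 | h4
    · exact Or.inr ⟨⟨h1, h4⟩, h3⟩
    · exact Or.inl h4
  · rintro (h1 | ⟨⟨h1, h2⟩, h3⟩)
    · rw [h1]
      exact ⟨⟨han, Nat.lt_succ_self n⟩, h⟩
    · exact ⟨⟨h1, Nat.lt_succ_of_lt h2⟩, h3⟩

private theorem pios_succ_not {a n : ℕ} (h : ¬ Pio c₀ H w n) :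
    pios c₀ H w a (n + 1) = pios c₀ H w a n := by
  classical
  ext m
  rw [pios, Finset.mem_filter, Finset.mem_Ico, pios, Finset.mem_filter, Finset.mem_Ico]
  constructor
  · rintro ⟨⟨h1, h2⟩, h3⟩
    rcases Nat.lt_succ_iff_lt_or_eq.1 h2 with h4 | h4
    · exact ⟨⟨h1, h4⟩, h3⟩
    · exact absurd (h4 ▸ h3) h
  · rintro ⟨⟨h1, h2⟩, h3⟩
    exact ⟨⟨h1, Nat.lt_succ_of_lt h2⟩, h3⟩

theorem vol_add {a n : ℕ} (han : a ≤ n) :
    Set.ncard {d | H.M.Inner d ∧ ¬ (reg c₀ H w n).M.Inner d} =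
      Set.ncard {d | H.M.Inner d ∧ ¬ (reg c₀ H w a).M.Inner d} +
        ∑ m ∈ pios c₀ H w a n, (regAt c₀ H w m).starVol := by
  classical
  induction n, han using Nat.le_induction with
  | base =>
    have h1 : pios c₀ H w a a = ∅ := by
      rw [pios, Finset.Ico_self, Finset.filter_empty]
    rw [h1, Finset.sum_empty, add_zero]
  | succ n han ih =>
    by_cases h : Pio c₀ H w n
    · have hn : n ∉ pios c₀ H w a n := by
        intro h1
        rw [pios, Finset.mem_filter, Finset.mem_Ico] at h1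
        exact lt_irrefl _ h1.1.2
      have hI : ∀ d, (regAt c₀ H w n).M.Inner d ↔ (reg c₀ H w n).M.Inner d :=
        fun d => g5_shift_inner _ _ d
      have hU : {d | H.M.Inner d ∧ ¬ (reg c₀ H w (n + 1)).M.Inner d} =
          {d | H.M.Inner d ∧ ¬ (reg c₀ H w n).M.Inner d} ∪
          {d | (regAt c₀ H w n).M.Inner d ∧ ¬ (regAt c₀ H w n).star.M.Inner d} := by
        ext d
        rw [Set.mem_union]
        change (H.M.Inner d ∧ ¬ (reg c₀ H w (n + 1)).M.Inner d) ↔
          (H.M.Inner d ∧ ¬ (reg c₀ H w n).M.Inner d) ∨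
            ((regAt c₀ H w n).M.Inner d ∧ ¬ (regAt c₀ H w n).star.M.Inner d)
        rw [reg_succ_pio h]
        constructor
        · rintro ⟨h1, h2⟩
          by_cases h3 : (reg c₀ H w n).M.Inner d
          · exact Or.inr ⟨(hI d).2 h3, h2⟩
          · exact Or.inl ⟨h1, h3⟩
        · rintro (⟨h1, h2⟩ | ⟨h1, h2⟩)
          · exact ⟨h1, fun h3 => h2 ((hI d).1 ((star_sub _).inner h3))⟩
          · exact ⟨(reg_sub n).inner ((hI d).1 h1), h2⟩
      have hD : Disjoint {d | H.M.Inner d ∧ ¬ (reg c₀ H w n).M.Inner d}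
          {d | (regAt c₀ H w n).M.Inner d ∧ ¬ (regAt c₀ H w n).star.M.Inner d} :=
        Set.disjoint_left.2 fun d h1 h2 => h1.2 ((hI d).1 h2.1)
      rw [hU, Set.ncard_union_eq hD (reg_sub n).fin (star_sub _).fin, ih, pios_succ_pio han h,
        Finset.sum_insert hn, starVol]
      ring
    · rw [reg_succ_not h, pios_succ_not h, ih]

/-- Explored at time `a`. -/
noncomputable def expl (c₀ : List ℤ) (H : HPT) (w : ℕ → ℕ) (a : ℕ) : ℕ :=
  (pios c₀ H w 0 a).card + Set.ncard {d | H.M.Inner d ∧ ¬ (reg c₀ H w a).M.Inner d}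

theorem sum_expD (P : IsPath H w) {a n : ℕ} (han : a ≤ n) :
    ∑ m ∈ pios c₀ H w a n, expD c₀ H w m ≤
      (pios c₀ H w a n).card + ∑ m ∈ pios c₀ H w a n, (regAt c₀ H w m).starVol +
        expl c₀ H w a := by
  classical
  have h0 : ∀ b, pios c₀ H w b n ⊆ (Finset.range n).filter (fun m => Pio c₀ H w m) := by
    intro b m hm
    rw [pios, Finset.mem_filter, Finset.mem_Ico] at hm
    exact Finset.mem_filter.2 ⟨Finset.mem_range.2 hm.1.2, hm.2⟩
  have h1 := expD_bound (c₀ := c₀) P n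
  have h2 : ∑ m ∈ pios c₀ H w a n, expD c₀ H w m ≤
      ∑ m ∈ (Finset.range n).filter (fun m => Pio c₀ H w m), expD c₀ H w m :=
    Finset.sum_le_sum_of_subset (h0 a)
  have h3 : ((Finset.range n).filter (fun m => Pio c₀ H w m)).card ≤
      (pios c₀ H w 0 a).card + (pios c₀ H w a n).card := by
    refine le_trans (Finset.card_le_card ?_) (Finset.card_union_le _ _)
    intro m hm
    obtain ⟨hm1, hm2⟩ := Finset.mem_filter.1 hm
    rw [Finset.mem_union, pios, Finset.mem_filter, Finset.mem_Ico, pios, Finset.mem_filter,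
      Finset.mem_Ico]
    rcases lt_or_ge m a with h4 | h4
    · exact Or.inl ⟨⟨Nat.zero_le _, h4⟩, hm2⟩
    · exact Or.inr ⟨⟨h4, Finset.mem_range.1 hm1⟩, hm2⟩
  have h4 := vol_add (c₀ := c₀) (H := H) (w := w) han
  rw [expl]
  have h5 : ∑ m ∈ (Finset.range n).filter (fun m => Pio c₀ H w m), expD c₀ H w m ≤
      ((Finset.range n).filter (fun m => Pio c₀ H w m)).card +
        Set.ncard {d | H.M.Inner d ∧ ¬ (reg c₀ H w n).M.Inner d} := by
    convert h1
  omega

end HPT

end Pool.Agent.Spd
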