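import Pool.Agent.Spd.G06a

/-!
(Part `G06b`: `special_law`.  The text below is the common header of the parts.)

# SPD G06: from every pioneer there is a chance to regenerate at the next step

`special G`: `G.step = N` and `G.rem.step = L 1 edge`.

* `seen_law_sum`: `seen_law` summed over the histories satisfying a property `Φ` that is a function of
  the history at time `n` and implies `Pio n`, `expD n = D`; `E = univ`.
* `reg_next`: let `Φ` be a function of the history at time `n` which implies `Pio n`, `expD n = D`.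
  `Φ' = Φ ∧ special (regAt n) ∧ kap n = offD n + 1` is a function of the history at time `n + 1`:
  `special (regAt n)`: the commands at time `n + 1` are `cmdP n ++ (i :: replicate s 0)`, so the outcomes at time
  `n + 1` begin with those at time `n` followed by `(regAt n).step, (regAt n).rem.step, ...` (`s = stopT`; if
  the region is special then `s = 1`; if `s = 0` it is not special), `HSim.outs`, `HSim.cmd`,
  `outs_append`; `kap`, `offD`: `HSim.kap`, `HSim.off_eq`.
  `P(Φ') = P(Φ) * μ special * (3 + D)⁻¹`: `good_star` (`deg = 3 + D`), `fresh_at` with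
  `S = {(G, V) | special G ∧ ⌊V 0 * (3 + D)⌋ = off + 1}` for each history (`off = offD` is constant,
  `off ≤ D`: `off_add_le`, `deg_split`), `unif_choice` (`n = 0`).
  On `Φ'`: `Pio (n+1)`, `expD (n+1) = 1` (`good_star`), so `P(Φ' ∧ Stays (n+1)) = P(Φ') * pReg`
  (`seen_law_sum` at time `n + 1` with `D = 1`, `C = univ`), and `Φ' ∧ Stays (n+1)` implies `Reg (n+1)`.
-/

namespace Pool.Agent.Spd

open MeasureTheory HPT

private theorem g6b_special_meas : MeasurableSet {G : HPT | special G} :=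
  (measurable_step (measurableSet_singleton Step.N)).inter
    ((measurable_step.comp measurable_rem) (measurableSet_singleton (Step.L 1 Tri.edge)))

/-- The special beginning and the choice `a + 1` among `3 + D` darts. -/
private def g6bS (D a : ℕ) : Set (HPT × (ℕ → unitInterval)) :=
  {G | special G} ×ˢ {V | ⌊(V 0 : ℝ) * ((3 + D : ℕ) : ℝ)⌋₊ = a + 1}

private theorem g6bS_meas (D a : ℕ) : MeasurableSet (g6bS D a) := by
  refine g6b_special_meas.prod ?_
  have h : Measurable fun V : ℕ → unitInterval => ⌊(V 0 : ℝ) * ((3 + D : ℕ) : ℝ)⌋₊ :=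
    Nat.measurable_floor.comp
      ((measurable_subtype_coe.comp (measurable_pi_apply 0)).mul_const _)
  exact h (measurableSet_singleton (a + 1))

private theorem g6bS_val (μ : Measure HPT) [IsProbabilityMeasure μ] {D a : ℕ} (ha : a ≤ D) :
    (μ.prod unif) (g6bS D a) = μ {G | special G} * ((3 + D : ℕ) : ENNReal)⁻¹ := by
  unfold g6bS
  rw [Measure.prod_prod, unif_floor 0 (by omega)]

theorem special_law {μ : Measure HPT} [IsProbabilityMeasure μ] (hT : TransInv μ)
    (hD : DomMarkov μ) (c₀ : List ℤ) (n D : ℕ) (Φ : HPT × (ℕ → unitInterval) → Prop)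
    (hΦ : ∀ p p' : HPT × (ℕ → unitInterval), hist c₀ p.1 p.2 n = hist c₀ p'.1 p'.2 n →
      (Φ p ↔ Φ p'))
    (hh : ∀ p, Φ p → Pio c₀ p.1 (p.1.walk p.2) n ∧ expD c₀ p.1 (p.1.walk p.2) n = D) :
    (μ.prod unif) {p | Φ p ∧ special (regAt c₀ p.1 (p.1.walk p.2) n) ∧
        HPT.kap p.1 p.2 n = offD c₀ p.1 (p.1.walk p.2) n + 1} =
      (μ.prod unif) {p | Φ p} * (μ {G | special G} * ((3 + D : ℕ) : ENNReal)⁻¹) := by
  classical
  set I : Set (List ℤ × List Step × List ℕ) := {h | ∃ p₀ : HPT × (ℕ → unitInterval),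
    hist c₀ p₀.1 p₀.2 n = h ∧ Φ p₀} with hI
  set B : List ℤ × List Step × List ℕ → Set (HPT × (ℕ → unitInterval)) := fun h =>
    {p | hist c₀ p.1 p.2 n = h} with hB
  set A : List ℤ × List Step × List ℕ → Set (HPT × (ℕ → unitInterval)) := fun h =>
    {p | hist c₀ p.1 p.2 n = h ∧ special (regAt c₀ p.1 (p.1.walk p.2) n) ∧
      HPT.kap p.1 p.2 n = offD c₀ p.1 (p.1.walk p.2) n + 1} with hA
  have eB : {p | Φ p} = ⋃ h ∈ I, B h := by
    ext p
    rw [Set.mem_iUnion₂]
    constructor
    · intro hp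
      exact ⟨_, ⟨p, rfl, hp⟩, rfl⟩
    · rintro ⟨h, ⟨p₀, hx, hp₀⟩, hpx⟩
      have hpx' : hist c₀ p.1 p.2 n = h := hpx
      exact (hΦ p p₀ (hpx'.trans hx.symm)).2 hp₀
  have eA : {p : HPT × (ℕ → unitInterval) | Φ p ∧
      special (regAt c₀ p.1 (p.1.walk p.2) n) ∧
        HPT.kap p.1 p.2 n = offD c₀ p.1 (p.1.walk p.2) n + 1} = ⋃ h ∈ I, A h := by
    ext p
    rw [Set.mem_iUnion₂]
    constructor
    · rintro ⟨hp, h1⟩
      exact ⟨_, ⟨p, rfl, hp⟩, rfl, h1⟩
    · rintro ⟨h, ⟨p₀, hx, hp₀⟩, hpx, h1⟩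
      exact ⟨(hΦ p p₀ (hpx.trans hx.symm)).2 hp₀, h1⟩
  have key : ∀ h ∈ I, MeasurableSet (A h) ∧ (μ.prod unif) (A h) =
      (μ.prod unif) (B h) * (μ {G | special G} * ((3 + D : ℕ) : ENNReal)⁻¹) := by
    rintro h ⟨q, hq, hΦq⟩
    obtain ⟨hqP, hqD⟩ := hh q hΦq
    set a := offD c₀ q.1 (q.1.walk q.2) n with ha
    have haD : a ≤ D := by
      have h1 := off_add_le (walk_isPath q.1 q.2) hqP
      have h2 := deg_split (walk_isPath q.1 q.2) hqP
      rw [h2, hqD] at h1
      omega
    have e1 : A h = {p | hist c₀ p.1 p.2 n = h ∧ p.2 ∈ Set.univ ∧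
        (regAt c₀ p.1 (p.1.walk p.2) n, fun k => p.2 (n + k)) ∈ g6bS D a} := by
      ext p
      refine and_congr_right fun hp => ?_
      have hΦp : Φ p := (hΦ p q (hp.trans hq.symm)).2 hΦq
      obtain ⟨hpP, hpD⟩ := hh p hΦp
      have hoff : offD c₀ p.1 (p.1.walk p.2) n = a := by
        obtain ⟨φ, ψ, hs⟩ := hist_sim_of_eq (hp.trans hq.symm)
        exact hs.off_eq le_rfl hqP
      have hkap : special (regAt c₀ p.1 (p.1.walk p.2) n) →
          HPT.kap p.1 p.2 n = ⌊(p.2 n : ℝ) * ((3 + D : ℕ) : ℝ)⌋₊ := by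
        intro hs
        have h2 := (good_star p.2 hpP hs.1 hs.2).1
        rw [hpD] at h2
        rw [HPT.kap, h2]
      constructor
      · rintro ⟨h1, h2⟩
        refine ⟨Set.mem_univ _, h1, ?_⟩
        rw [hkap h1, hoff] at h2
        exact h2
      · rintro ⟨-, h1, h2⟩
        refine ⟨h1, ?_⟩
        rw [hkap h1, hoff]
        exact h2
    have e2 : B h = {p | hist c₀ p.1 p.2 n = h ∧ p.2 ∈ Set.univ} := by
      ext p
      exact ⟨fun hp => ⟨hp, Set.mem_univ _⟩, fun hp => hp.1⟩
    constructor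
    · rw [e1]
      have h1 : Measurable (fun p : HPT × (ℕ → unitInterval) =>
          (regAt c₀ p.1 (p.1.walk p.2) n, fun k => p.2 (n + k))) :=
        (measurable_regAt c₀ n).prodMk (measurable_pi_iff.2 fun k =>
          (measurable_pi_apply (n + k)).comp measurable_snd)
      exact (measurableSet_hist c₀ n h).inter ((measurable_snd MeasurableSet.univ).inter
        (h1 (g6bS_meas D a)))
    · rw [e1, e2, ← g6bS_val μ haD]
      exact fresh_at hT hD c₀ n h MeasurableSet.univ (fun _ _ _ => Iff.rfl) (g6bS_meas D a)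
  have hdB : I.PairwiseDisjoint B := by
    intro h _ h' _ hne
    rw [Function.onFun, Set.disjoint_left]
    intro p (h1 : hist c₀ p.1 p.2 n = h) (h2 : hist c₀ p.1 p.2 n = h')
    exact hne (h1.symm.trans h2)
  have hdA : I.PairwiseDisjoint A := by
    intro h _ h' _ hne
    rw [Function.onFun, Set.disjoint_left]
    rintro p ⟨h1, -⟩ ⟨h2, -⟩
    exact hne (h1.symm.trans h2)
  rw [eA, eB, measure_biUnion (Set.to_countable I) hdA fun h hh => (key h hh).1,
    measure_biUnion (Set.to_countable I) hdB fun h _ => measurableSet_hist c₀ n h,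
    ← ENNReal.tsum_mul_right]
  exact tsum_congr fun h => (key h.1 h.2).2

end Pool.Agent.Spd
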