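import Pool.Agent.Spd.G06b

/-!
(Part `G06c`: `reg_next`.  The text below is the common header of the parts.)

# SPD G06: from every pioneer there is a chance to regenerate at the next step

`special G`: `G.step = N` and `G.rem.step = L 1 edge`.

* `seen_law_sum`: `seen_law` summed over the histories satisfying a property `Φ` that is a function of
  the history at time `n` and implies `Pio n`, `expD n = D`; `E = univ`.
* `reg_next`: let `Φ` be a function of the history at time `n` which implies `Pio n`, `expD n = D`.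
  `Φ' = Φ ∧ special (regAt n) ∧ kap n = offD n + 1` is a function of the history at time `n + 1`:
  `special (regAt n)`: the commands at time `n + 1` are `cmdP n ++ (i :: replicate s 0)`, so the outcomes at time
  `n + 1` begin with those at time `n` followed by `(regAt n).step, (regAt n).rem.step, ...` (`s = stopT`; if
  the region is special then `s = 1`; if `s = 0` it is not special), `HSim.outs`, `HSim.cmd`,
  `outs_append`; `kap`, `offD`: `HSim.kap`, `HSim.off_eq`.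
  `P(Φ') = P(Φ) * μ special * (3 + D)⁻¹`: `good_star` (`deg = 3 + D`), `fresh_at` with
  `S = {(G, V) | special G ∧ ⌊V 0 * (3 + D)⌋ = off + 1}` for each history (`off = offD` is constant,
  `off ≤ D`: `off_add_le`, `deg_split`), `unif_choice` (`n = 0`).
  On `Φ'`: `Pio (n+1)`, `expD (n+1) = 1` (`good_star`), so `P(Φ' ∧ Stays (n+1)) = P(Φ') * pReg`
  (`seen_law_sum` at time `n + 1` with `D = 1`, `C = univ`), and `Φ' ∧ Stays (n+1)` implies `Reg (n+1)`.
-/

namespace Pool.Agent.Spd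

open MeasureTheory HPT

theorem reg_next {μ : Measure HPT} [IsProbabilityMeasure μ] (hT : TransInv μ)
    (hD : DomMarkov μ) (c₀ : List ℤ) (n D : ℕ) (Φ : HPT × (ℕ → unitInterval) → Prop)
    (hΦ : ∀ p p' : HPT × (ℕ → unitInterval), hist c₀ p.1 p.2 n = hist c₀ p'.1 p'.2 n →
      (Φ p ↔ Φ p'))
    (hh : ∀ p, Φ p → Pio c₀ p.1 (p.1.walk p.2) n ∧ expD c₀ p.1 (p.1.walk p.2) n = D) :
    (μ.prod unif) {p | Φ p} * (μ {G | special G} * ((3 + D : ℕ) : ENNReal)⁻¹ * pReg μ) ≤
      (μ.prod unif) {p | Φ p ∧ Reg c₀ p.1 (p.1.walk p.2) (n + 1)} := by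
  have hmono : ∀ p p' : HPT × (ℕ → unitInterval),
      hist c₀ p.1 p.2 (n + 1) = hist c₀ p'.1 p'.2 (n + 1) →
        hist c₀ p.1 p.2 n = hist c₀ p'.1 p'.2 n := by
    intro p p' h
    obtain ⟨φ, ψ, S⟩ := hist_sim_of_eq h
    exact S.hist_eq (Nat.le_succ n)
  have hΨ : ∀ p p' : HPT × (ℕ → unitInterval),
      hist c₀ p.1 p.2 (n + 1) = hist c₀ p'.1 p'.2 (n + 1) →
      ((Φ p ∧ special (regAt c₀ p.1 (p.1.walk p.2) n) ∧
          HPT.kap p.1 p.2 n = offD c₀ p.1 (p.1.walk p.2) n + 1) ↔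
        (Φ p' ∧ special (regAt c₀ p'.1 (p'.1.walk p'.2) n) ∧
          HPT.kap p'.1 p'.2 n = offD c₀ p'.1 (p'.1.walk p'.2) n + 1)) := by
    intro p p' h
    have h0 : Φ p ↔ Φ p' := hΦ p p' (hmono p p' h)
    constructor
    · rintro ⟨h1, h2, h3⟩
      have hp := (hh p h1).1
      obtain ⟨φ, ψ, S⟩ := hist_sim_of_eq h.symm
      refine ⟨h0.1 h1, (special_histfun c₀ n p p' h hp).1 h2, ?_⟩
      rw [S.kap n (Nat.lt_succ_self n), S.off_eq (Nat.le_succ n) hp]
      exact h3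
    · rintro ⟨h1, h2, h3⟩
      have hp := (hh p' h1).1
      obtain ⟨φ, ψ, S⟩ := hist_sim_of_eq h
      refine ⟨h0.2 h1, (special_histfun c₀ n p' p h.symm hp).1 h2, ?_⟩
      rw [S.kap n (Nat.lt_succ_self n), S.off_eq (Nat.le_succ n) hp]
      exact h3
  have hh' : ∀ p : HPT × (ℕ → unitInterval),
      (Φ p ∧ special (regAt c₀ p.1 (p.1.walk p.2) n) ∧
        HPT.kap p.1 p.2 n = offD c₀ p.1 (p.1.walk p.2) n + 1) →
      Pio c₀ p.1 (p.1.walk p.2) (n + 1) ∧ expD c₀ p.1 (p.1.walk p.2) (n + 1) = 1 := by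
    rintro p ⟨h1, h2, h3⟩
    exact (good_star p.2 (hh p h1).1 h2.1 h2.2).2 h3
  have key := seen_law_sum hT hD c₀ (n + 1) 1
    (fun p => Φ p ∧ special (regAt c₀ p.1 (p.1.walk p.2) n) ∧
      HPT.kap p.1 p.2 n = offD c₀ p.1 (p.1.walk p.2) n + 1) hΨ hh' MeasurableSet.univ
  rw [special_law hT hD c₀ n D Φ hΦ hh] at key
  have e : (μ.prod unif) {p | Φ p} * (μ {G | special G} * ((3 + D : ℕ) : ENNReal)⁻¹ * pReg μ) =
      (μ.prod unif) {p | Φ p} * (μ {G | special G} * ((3 + D : ℕ) : ENNReal)⁻¹) *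
        mD μ 1 Set.univ := by
    rw [pReg, mul_assoc ((μ.prod unif) {p | Φ p})]
  rw [e, ← key]
  refine measure_mono ?_
  rintro p ⟨h1, h2, -⟩
  exact ⟨h1.1, Nat.succ_le_succ (Nat.zero_le n), h2, (hh' p h1).2⟩

end Pool.Agent.Spd
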