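import Pool.Agent.Spd.G05
import Pool.Agent.Spd.G03

/-!
(Part `G06a`: `special`, `seen_law_sum`, `special_histfun`.  The text below is the common header of the parts.)

# SPD G06: from every pioneer there is a chance to regenerate at the next step

`special G`: `G.step = N` and `G.rem.step = L 1 edge`.

* `seen_law_sum`: `seen_law` summed over the histories satisfying a property `Φ` that is a function of
  the history at time `n` and implies `Pio n`, `expD n = D`; `E = univ`.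
* `reg_next`: let `Φ` be a function of the history at time `n` which implies `Pio n`, `expD n = D`.
  `Φ' = Φ ∧ special (regAt n) ∧ kap n = offD n + 1` is a function of the history at time `n + 1`:
  `special (regAt n)`: the commands at time `n + 1` are `cmdP n ++ (i :: replicate s 0)`, so the outcomes at time
  `n + 1` begin with those at time `n` followed by `(regAt n).step, (regAt n).rem.step, ...` (`s = stopT`; if
  the region is special then `s = 1`; if `s = 0` it is not special), `HSim.outs`, `HSim.cmd`,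
  `outs_append`; `kap`, `offD`: `HSim.kap`, `HSim.off_eq`.
  `P(Φ') = P(Φ) * μ special * (3 + D)⁻¹`: `good_star` (`deg = 3 + D`), `fresh_at` with
  `S = {(G, V) | special G ∧ ⌊V 0 * (3 + D)⌋ = off + 1}` for each history (`off = offD` is constant,
  `off ≤ D`: `off_add_le`, `deg_split`), `unif_choice` (`n = 0`).
  On `Φ'`: `Pio (n+1)`, `expD (n+1) = 1` (`good_star`), so `P(Φ' ∧ Stays (n+1)) = P(Φ') * pReg`
  (`seen_law_sum` at time `n + 1` with `D = 1`, `C = univ`), and `Φ' ∧ Stays (n+1)` implies `Reg (n+1)`.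
-/

namespace Pool.Agent.Spd

open MeasureTheory HPT

/-- The special beginning of a map. -/
def special (G : HPT) : Prop := G.step = Step.N ∧ G.rem.step = Step.L 1 Tri.edge

private theorem g6_split {μ : Measure HPT} (c₀ : List ℤ) (n : ℕ)
    {X : Set (HPT × (ℕ → unitInterval))} (hX : MeasurableSet X) :
    (μ.prod unif) X = ∑' h : List ℤ × List Step × List ℕ,
      (μ.prod unif) ({p : HPT × (ℕ → unitInterval) | hist c₀ p.1 p.2 n = h} ∩ X) := by
  have h1 : X = ⋃ h : List ℤ × List Step × List ℕ,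
      ({p : HPT × (ℕ → unitInterval) | hist c₀ p.1 p.2 n = h} ∩ X) := by
    ext p
    rw [Set.mem_iUnion]
    exact ⟨fun hp => ⟨hist c₀ p.1 p.2 n, rfl, hp⟩, fun ⟨_, _, hp⟩ => hp⟩
  conv_lhs => rw [h1]
  refine measure_iUnion ?_ fun h => (measurableSet_hist c₀ n h).inter hX
  intro h h' hne
  rw [Function.onFun, Set.disjoint_left]
  rintro p ⟨hp, -⟩ ⟨hp', -⟩
  exact hne (hp.symm.trans hp')

theorem seen_law_sum {μ : Measure HPT} [IsProbabilityMeasure μ] (hT : TransInv μ)
    (hD : DomMarkov μ) (c₀ : List ℤ) (n D : ℕ) (Φ : HPT × (ℕ → unitInterval) → Prop)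
    (hΦ : ∀ p p' : HPT × (ℕ → unitInterval), hist c₀ p.1 p.2 n = hist c₀ p'.1 p'.2 n →
      (Φ p ↔ Φ p'))
    (hh : ∀ p, Φ p → Pio c₀ p.1 (p.1.walk p.2) n ∧ expD c₀ p.1 (p.1.walk p.2) n = D)
    {C : Set Sp} (hC : MeasurableSet C) :
    (μ.prod unif) {p | Φ p ∧ Stays c₀ p.1 (p.1.walk p.2) n ∧ seen c₀ p n ∈ C} =
      (μ.prod unif) {p | Φ p} * mD μ D C := by
  have hΦm : MeasurableSet {p : HPT × (ℕ → unitInterval) | Φ p} :=
    measurableSet_histfun c₀ n Φ hΦ
  have hXm : MeasurableSet {p : HPT × (ℕ → unitInterval) | Φ p ∧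
      Stays c₀ p.1 (p.1.walk p.2) n ∧ seen c₀ p n ∈ C} :=
    hΦm.inter ((measurableSet_stays c₀ n).inter (measurable_seen c₀ n hC))
  rw [g6_split c₀ n hXm, g6_split c₀ n hΦm, ← ENNReal.tsum_mul_right]
  refine tsum_congr fun h => ?_
  by_cases hex : ∃ q : HPT × (ℕ → unitInterval), hist c₀ q.1 q.2 n = h ∧ Φ q
  · obtain ⟨q, hq, hqΦ⟩ := hex
    have hall : ∀ p : HPT × (ℕ → unitInterval), hist c₀ p.1 p.2 n = h → Φ p := fun p hp =>
      (hΦ p q (hp.trans hq.symm)).2 hqΦ
    have h1 := seen_law hT hD c₀ n h D (fun p hp => hh p (hall p hp)) MeasurableSet.univ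
      (fun _ _ _ => Iff.rfl) hC
    have e1 : {p : HPT × (ℕ → unitInterval) | hist c₀ p.1 p.2 n = h} ∩ {p | Φ p ∧
        Stays c₀ p.1 (p.1.walk p.2) n ∧ seen c₀ p n ∈ C} =
        {p | hist c₀ p.1 p.2 n = h ∧ p.2 ∈ (Set.univ : Set (ℕ → unitInterval)) ∧
          Stays c₀ p.1 (p.1.walk p.2) n ∧ seen c₀ p n ∈ C} := by
      ext p
      constructor
      · rintro ⟨h2, -, h3⟩
        exact ⟨h2, trivial, h3⟩
      · rintro ⟨h2, -, h3⟩
        exact ⟨h2, hall p h2, h3⟩
    have e2 : {p : HPT × (ℕ → unitInterval) | hist c₀ p.1 p.2 n = h} ∩ {p | Φ p} =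
        {p | hist c₀ p.1 p.2 n = h ∧ p.2 ∈ (Set.univ : Set (ℕ → unitInterval))} := by
      ext p
      constructor
      · rintro ⟨h2, -⟩
        exact ⟨h2, trivial⟩
      · rintro ⟨h2, -⟩
        exact ⟨h2, hall p h2⟩
    rw [e1, e2]
    exact h1
  · have e1 : {p : HPT × (ℕ → unitInterval) | hist c₀ p.1 p.2 n = h} ∩ {p | Φ p ∧
        Stays c₀ p.1 (p.1.walk p.2) n ∧ seen c₀ p n ∈ C} = ∅ := by
      ext p
      refine ⟨?_, fun h2 => absurd h2 (Set.notMem_empty p)⟩
      rintro ⟨h2, h3, -⟩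
      exact absurd ⟨p, h2, h3⟩ hex
    have e2 : {p : HPT × (ℕ → unitInterval) | hist c₀ p.1 p.2 n = h} ∩ {p | Φ p} = ∅ := by
      ext p
      refine ⟨?_, fun h2 => absurd h2 (Set.notMem_empty p)⟩
      rintro ⟨h2, h3⟩
      exact absurd ⟨p, h2, h3⟩ hex
    rw [e1, e2, measure_empty, zero_mul]

private theorem g6_cmd {c₀ : List ℤ} {H : HPT} {w : ℕ → ℕ} {n : ℕ} (h : Pio c₀ H w n) :
    cmdP c₀ H w (n + 1) = cmdP c₀ H w n ++
      (pidx c₀ H w n :: List.replicate ((regAt c₀ H w n).stopT) 0) := by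
  have h1 : pidx c₀ H w n = h.choose := dif_pos h
  rw [regAt, h1, cmdP]
  exact dif_pos h

private theorem g6_outs {c₀ : List ℤ} {H : HPT} {w : ℕ → ℕ} {n : ℕ} (h : Pio c₀ H w n) :
    H.outs (cmdP c₀ H w (n + 1)) =
      H.outs (cmdP c₀ H w n) ++ (regAt c₀ H w n).starOuts := by
  rw [g6_cmd h, outs_append]
  exact congrArg _ (outs_star (reg c₀ H w n) (pidx c₀ H w n))

private theorem g6_special (G : HPT) :
    special G ↔ G.starOuts = [Step.N, Step.L 1 Tri.edge] := by
  constructor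
  · rintro ⟨h0, h1⟩
    unfold starOuts
    rw [(star_special G h0 h1).1]
    have h2 : (List.range (1 + 1)).map (fun j => (rem^[j] G).step) = [G.step, G.rem.step] := rfl
    rw [h2, h0, h1]
  · intro h
    have hlen : G.stopT + 1 = 2 := by
      have h1 := congrArg List.length h
      unfold starOuts at h1
      rwa [List.length_map, List.length_range] at h1
    unfold starOuts at h
    rw [hlen] at h
    have h2 : (List.range 2).map (fun j => (rem^[j] G).step) = [G.step, G.rem.step] := rfl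
    rw [h2] at h
    obtain ⟨h3, h4⟩ := List.cons.inj h
    exact ⟨h3, (List.cons.inj h4).1⟩

theorem special_histfun (c₀ : List ℤ) (n : ℕ)
    (p p' : HPT × (ℕ → unitInterval)) (h : hist c₀ p.1 p.2 (n + 1) = hist c₀ p'.1 p'.2 (n + 1))
    (hp : Pio c₀ p.1 (p.1.walk p.2) n) :
    (special (regAt c₀ p.1 (p.1.walk p.2) n) ↔ special (regAt c₀ p'.1 (p'.1.walk p'.2) n)) := by
  obtain ⟨φ, ψ, hs⟩ := hist_sim_of_eq h.symm
  have hp' : Pio c₀ p'.1 (p'.1.walk p'.2) n := (hs.pio_iff (Nat.le_succ n)).2 hp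
  have h0 : hist c₀ p'.1 p'.2 n = hist c₀ p.1 p.2 n := hs.hist_eq (Nat.le_succ n)
  have h1 : p'.1.outs (cmdP c₀ p'.1 (p'.1.walk p'.2) n) =
      p.1.outs (cmdP c₀ p.1 (p.1.walk p.2) n) := congrArg (fun x => x.2.1) h0
  have h2 : p'.1.outs (cmdP c₀ p'.1 (p'.1.walk p'.2) (n + 1)) =
      p.1.outs (cmdP c₀ p.1 (p.1.walk p.2) (n + 1)) := congrArg (fun x => x.2.1) h.symm
  rw [g6_outs hp, g6_outs hp', h1] at h2
  rw [g6_special, g6_special, List.append_cancel_left h2]

end Pool.Agent.Spd
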