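import Pool.Agent.Spd.G07a

/-!
(Part `G07b`: `sum_firstk_weight`.  The text below is the common header of the parts.)

# SPD G07: the expected number of regenerations among the first `k` pioneers

`P = μ × unif`, `v = ∫⁻ starVol dμ`, `c₁ = μ special * pReg`.  `Φ₀` is a function of the history at time `a`,
`fk n = firstk c₀ H w a k n` (a function of the history at time `n`).

* `sum_firstk`: `∑' n, P(Φ₀ ∧ fk n) = k P(Φ₀)`: `∑' n, 1[fk n] = k` a.s. on `Φ₀` by `card_firstk` and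
  `pio_inf` (for almost every `p`: `Measure.ae_prod_mem_iff`-type argument, or integrate `pio_inf` over
  `H`: `measure_prod_null`, the set is measurable: countable operations on `{Pio m}`); `lintegral_tsum`.
* `sum_firstk_weight`: `∑' n, ∫⁻_{Φ₀ ∧ fk n} (3 + expD n) ≤ k (4 + v) P(Φ₀) + ∫⁻_{Φ₀} expl a`: partial sums
  and `firstk_sum`: `∑_{n<N} 1[fk n] (3 + expD n) ≤ 3 k + k + ∑_{n<N} 1[fk n] starVol (regAt n) + expl a`
  (`card_firstk_le`), and `∫⁻_{Φ₀ ∧ fk n} starVol (regAt n) = P(Φ₀ ∧ fk n) v` (`lint_fresh`;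
  `Φ₀ ∧ fk n` is a function of the history at time `n`, since `fk n` implies `a ≤ n`), `sum_firstk`.
* `sum_reg_next`: `c₁ ∫⁻_{Φ₀ ∧ fk n} (3 + expD n)⁻¹ ≤ P(Φ₀ ∧ fk n ∧ Reg (n+1))`: `reg_next` for
  `Φ₀ ∧ fk n ∧ expD n = D`, summed over `D`.
* `freq`: for `c = (4 + v)⁻¹` and `x = 3 + D`: `2 c ≤ x⁻¹ + c² x` (`(1 - c x)² ≥ 0`), so
  `2 c k P(Φ₀) c₁ ≤ ∑' n P(Φ₀ ∧ fk n ∧ Reg (n+1)) + c² c₁ (k (4 + v) P(Φ₀) + ∫⁻_{Φ₀} expl a)`, and
  `c² (4 + v) = c`; subtract the finite number `c c₁ k P(Φ₀)`.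
* `some_reg`: `Φ₀ = {hist a = h}`, `expl a = e` is constant; `∑' n 1[fk n ∧ Reg (n+1)] ≤ k 1[∃ n > a, Reg n]`
  (`card_firstk_le`); divide by `k`, `k → ∞`.
-/

namespace Pool.Agent.Spd

open MeasureTheory HPT

private theorem g7b_meas (c₀ : List ℤ) (n : ℕ) (Ψ : HPT × (ℕ → unitInterval) → Prop)
    (hΨ : ∀ p p' : HPT × (ℕ → unitInterval), hist c₀ p.1 p.2 n = hist c₀ p'.1 p'.2 n →
      (Ψ p ↔ Ψ p')) : MeasurableSet {p | Ψ p} := by
  have hset : {p | Ψ p} = ⋃ h : {h : List ℤ × List Step × List ℕ // ∃ p, Ψ p ∧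
      hist c₀ p.1 p.2 n = h}, {p : HPT × (ℕ → unitInterval) | hist c₀ p.1 p.2 n = h.1} := by
    ext p
    rw [Set.mem_iUnion]
    constructor
    · intro hp
      exact ⟨⟨hist c₀ p.1 p.2 n, p, hp, rfl⟩, rfl⟩
    · rintro ⟨⟨h, p', hp', hh⟩, h1⟩
      have h2 : hist c₀ p.1 p.2 n = h := h1
      exact (hΨ p p' (h2.trans hh.symm)).2 hp'
  rw [hset]
  exact MeasurableSet.iUnion fun h => measurableSet_hist c₀ n h.1

private theorem g7b_sum {α : Type} [MeasurableSpace α] (P : Measure α) (f : ℕ → α → ENNReal)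
    (N : ℕ) : ∑ n ∈ Finset.range N, ∫⁻ p, f n p ∂P ≤
      ∫⁻ p, ∑ n ∈ Finset.range N, f n p ∂P := by
  induction N with
  | zero => simp
  | succ N ih =>
    simp only [Finset.sum_range_succ]
    exact le_trans (add_le_add ih le_rfl) (le_lintegral_add _ _)

private theorem g7b_mono {c₀ : List ℤ} {a n : ℕ} (han : a ≤ n)
    {Φ : HPT × (ℕ → unitInterval) → Prop}
    (hΦ : ∀ p p' : HPT × (ℕ → unitInterval), hist c₀ p.1 p.2 a = hist c₀ p'.1 p'.2 a →
      (Φ p ↔ Φ p')) (p p' : HPT × (ℕ → unitInterval))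
    (h : hist c₀ p.1 p.2 n = hist c₀ p'.1 p'.2 n) : Φ p ↔ Φ p' := by
  obtain ⟨φ, ψ, hs⟩ := hist_sim_of_eq h
  exact hΦ p p' (hs.hist_eq han)

theorem sum_firstk_weight {μ : Measure HPT} [IsProbabilityMeasure μ] (hT : TransInv μ)
    (hD : DomMarkov μ) (c₀ : List ℤ) (a k : ℕ) (Φ : HPT × (ℕ → unitInterval) → Prop)
    (hΦ : ∀ p p' : HPT × (ℕ → unitInterval), hist c₀ p.1 p.2 a = hist c₀ p'.1 p'.2 a →
      (Φ p ↔ Φ p')) :
    ∑' n, ∫⁻ p in {p | Φ p ∧ firstk c₀ p.1 (p.1.walk p.2) a k n},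
      ((3 + expD c₀ p.1 (p.1.walk p.2) n : ℕ) : ENNReal) ∂(μ.prod unif) ≤
      k * (4 + vStar μ) * (μ.prod unif) {p | Φ p} +
        ∫⁻ p in {p | Φ p}, (expl c₀ p.1 (p.1.walk p.2) a : ENNReal) ∂(μ.prod unif) := by
  classical
  set P : Measure (HPT × (ℕ → unitInterval)) := μ.prod unif with hP
  let A : ℕ → Set (HPT × (ℕ → unitInterval)) := fun n =>
    {p | Φ p ∧ firstk c₀ p.1 (p.1.walk p.2) a k n}
  let B : Set (HPT × (ℕ → unitInterval)) := {p | Φ p}
  let s : ℕ → HPT × (ℕ → unitInterval) → ENNReal := fun n p =>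
    ((regAt c₀ p.1 (p.1.walk p.2) n).starVol : ENNReal)
  have hAf : ∀ n, ∀ p p' : HPT × (ℕ → unitInterval), hist c₀ p.1 p.2 n = hist c₀ p'.1 p'.2 n →
      ((Φ p ∧ firstk c₀ p.1 (p.1.walk p.2) a k n) ↔
        (Φ p' ∧ firstk c₀ p'.1 (p'.1.walk p'.2) a k n)) := by
    intro n p p' h
    have h1 := firstk_histfun c₀ a k n p p' h
    constructor
    · rintro ⟨h2, h3⟩
      exact ⟨(g7b_mono h3.1 hΦ p p' h).1 h2, h1.1 h3⟩
    · rintro ⟨h2, h3⟩
      exact ⟨(g7b_mono h3.1 hΦ p p' h).2 h2, h1.2 h3⟩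
  have hA : ∀ n, MeasurableSet (A n) := fun n => g7b_meas c₀ n _ (hAf n)
  have hB : MeasurableSet B := g7b_meas c₀ a Φ hΦ
  have hs : ∀ n, Measurable (s n) := fun n =>
    (measurable_from_top (f := fun m : ℕ => (m : ENNReal))).comp
      (measurable_starVol.comp (measurable_regAt c₀ n))
  have hfr : ∀ n, ∫⁻ p in A n, s n p ∂P = P (A n) * vStar μ := fun n =>
    lint_fresh hT hD c₀ n _ (hAf n)
      ((measurable_from_top (f := fun m : ℕ => (m : ENNReal))).comp measurable_starVol)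
  refine ENNReal.tsum_le_of_sum_range_le fun N => ?_
  have hpt : ∀ p : HPT × (ℕ → unitInterval), ∑ n ∈ Finset.range N, (A n).indicator
      (fun p => ((3 + expD c₀ p.1 (p.1.walk p.2) n : ℕ) : ENNReal)) p ≤
      (B.indicator (fun _ => ((4 * k : ℕ) : ENNReal)) p +
        ∑ n ∈ Finset.range N, (A n).indicator (s n) p) +
        B.indicator (fun p => (expl c₀ p.1 (p.1.walk p.2) a : ENNReal)) p := by
    intro p
    by_cases hp : Φ p
    · have hpB : p ∈ B := hp
      rw [Set.indicator_of_mem hpB, Set.indicator_of_mem hpB]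
      have h1 : ∀ (g : ℕ → HPT × (ℕ → unitInterval) → ENNReal),
          ∑ n ∈ Finset.range N, (A n).indicator (g n) p =
          ∑ n ∈ (Finset.range N).filter (fun n => firstk c₀ p.1 (p.1.walk p.2) a k n),
            g n p := by
        intro g
        rw [Finset.sum_filter]
        refine Finset.sum_congr rfl fun n _ => ?_
        by_cases hn : firstk c₀ p.1 (p.1.walk p.2) a k n
        · have : p ∈ A n := ⟨hp, hn⟩
          rw [Set.indicator_of_mem this, if_pos hn]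
        · have : p ∉ A n := fun h => hn h.2
          rw [Set.indicator_of_notMem this, if_neg hn]
      rw [h1 s, h1 (fun n p => ((3 + expD c₀ p.1 (p.1.walk p.2) n : ℕ) : ENNReal))]
      have h2 := firstk_sum (c₀ := c₀) (walk_isPath p.1 p.2) a k N
      have h3 := card_firstk_le (H := p.1) (w := p.1.walk p.2) (c₀ := c₀) a k N
      have h4 : ∑ n ∈ (Finset.range N).filter (fun n => firstk c₀ p.1 (p.1.walk p.2) a k n),
          (3 + expD c₀ p.1 (p.1.walk p.2) n) ≤ 4 * k +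
          ∑ n ∈ (Finset.range N).filter (fun n => firstk c₀ p.1 (p.1.walk p.2) a k n),
            (regAt c₀ p.1 (p.1.walk p.2) n).starVol + expl c₀ p.1 (p.1.walk p.2) a := by
        rw [Finset.sum_add_distrib, Finset.sum_const, smul_eq_mul]
        omega
      have h5 : ((∑ n ∈ (Finset.range N).filter
          (fun n => firstk c₀ p.1 (p.1.walk p.2) a k n),
          (3 + expD c₀ p.1 (p.1.walk p.2) n) : ℕ) : ENNReal) ≤ ((4 * k +
          ∑ n ∈ (Finset.range N).filter (fun n => firstk c₀ p.1 (p.1.walk p.2) a k n),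
            (regAt c₀ p.1 (p.1.walk p.2) n).starVol + expl c₀ p.1 (p.1.walk p.2) a : ℕ) :
            ENNReal) := Nat.cast_le.2 h4
      rw [Nat.cast_sum, Nat.cast_add, Nat.cast_add, Nat.cast_sum] at h5
      exact h5
    · have h0 : ∀ n, p ∉ A n := fun n h => hp h.1
      rw [Finset.sum_eq_zero fun n _ => Set.indicator_of_notMem (h0 n) _]
      exact zero_le
  have hL : ∑ n ∈ Finset.range N, ∫⁻ p in A n,
      ((3 + expD c₀ p.1 (p.1.walk p.2) n : ℕ) : ENNReal) ∂P ≤
      ∫⁻ p, ∑ n ∈ Finset.range N, (A n).indicator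
        (fun p => ((3 + expD c₀ p.1 (p.1.walk p.2) n : ℕ) : ENNReal)) p ∂P := by
    refine le_trans (le_of_eq ?_) (g7b_sum P _ N)
    exact Finset.sum_congr rfl fun n _ => (lintegral_indicator (hA n) _).symm
  refine hL.trans ((lintegral_mono hpt).trans ?_)
  have hm1 : Measurable (B.indicator (fun _ : HPT × (ℕ → unitInterval) =>
      ((4 * k : ℕ) : ENNReal))) := measurable_const.indicator hB
  have hm2 : ∀ n, Measurable ((A n).indicator (s n)) := fun n => (hs n).indicator (hA n)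
  have hm3 : Measurable (fun p => ∑ n ∈ Finset.range N, (A n).indicator (s n) p) :=
    Finset.measurable_sum _ fun n _ => hm2 n
  have hm4 : Measurable (fun p => B.indicator (fun _ : HPT × (ℕ → unitInterval) =>
      ((4 * k : ℕ) : ENNReal)) p + ∑ n ∈ Finset.range N, (A n).indicator (s n) p) :=
    hm1.add hm3
  rw [lintegral_add_left hm4, lintegral_add_left hm1,
    lintegral_finsetSum _ (fun n _ => hm2 n), lintegral_indicator hB, lintegral_indicator hB]
  refine add_le_add ?_ le_rfl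
  have h6 : ∑ n ∈ Finset.range N, ∫⁻ p, (A n).indicator (s n) p ∂P ≤
      k * vStar μ * P B := by
    have h7 : ∀ n, ∫⁻ p, (A n).indicator (s n) p ∂P = P (A n) * vStar μ := fun n => by
      rw [lintegral_indicator (hA n)]
      exact hfr n
    simp only [h7]
    rw [← Finset.sum_mul]
    have h8 : ∑ n ∈ Finset.range N, P (A n) ≤ k * P B := by
      rw [← sum_firstk c₀ a k Φ hΦ]
      exact ENNReal.sum_le_tsum _
    calc (∑ n ∈ Finset.range N, P (A n)) * vStar μ ≤ (k * P B) * vStar μ :=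
          mul_le_mul' h8 le_rfl
      _ = k * vStar μ * P B := by ring
  rw [setLIntegral_const]
  refine (add_le_add le_rfl h6).trans (le_of_eq ?_)
  change ((4 * k : ℕ) : ENNReal) * P B + k * vStar μ * P B = k * (4 + vStar μ) * P B
  push_cast
  ring

end Pool.Agent.Spd
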