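import Pool.Agent.Spd.G07a

/-!
(Part `G07c`: `sum_reg_next`.  The text below is the common header of the parts.)

# SPD G07: the expected number of regenerations among the first `k` pioneers

`P = μ × unif`, `v = ∫⁻ starVol dμ`, `c₁ = μ special * pReg`.  `Φ₀` is a function of the history at
time `a`,
`fk n = firstk c₀ H w a k n` (a function of the history at time `n`).

* `sum_firstk`: `∑' n, P(Φ₀ ∧ fk n) = k P(Φ₀)`: `∑' n, 1[fk n] = k` a.s. on `Φ₀` by `card_firstk`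
and
  `pio_inf` (for almost every `p`: `Measure.ae_prod_mem_iff`-type argument, or integrate `pio_inf`
over
  `H`: `measure_prod_null`, the set is measurable: countable operations on `{Pio m}`);
`lintegral_tsum`.
* `sum_firstk_weight`: `∑' n, ∫⁻_{Φ₀ ∧ fk n} (3 + expD n) ≤ k (4 + v) P(Φ₀) + ∫⁻_{Φ₀} expl a`:
partial sums
  and `firstk_sum`:
`∑_{n<N} 1[fk n] (3 + expD n) ≤ 3 k + k + ∑_{n<N} 1[fk n] starVol (regAt n) + expl a`
  (`card_firstk_le`), and `∫⁻_{Φ₀ ∧ fk n} starVol (regAt n) = P(Φ₀ ∧ fk n) v` (`lint_fresh`;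
  `Φ₀ ∧ fk n` is a function of the history at time `n`, since `fk n` implies `a ≤ n`), `sum_firstk`.
* `sum_reg_next`: `c₁ ∫⁻_{Φ₀ ∧ fk n} (3 + expD n)⁻¹ ≤ P(Φ₀ ∧ fk n ∧ Reg (n+1))`: `reg_next` for
  `Φ₀ ∧ fk n ∧ expD n = D`, summed over `D`.
* `freq`: for `c = (4 + v)⁻¹` and `x = 3 + D`: `2 c ≤ x⁻¹ + c² x` (`(1 - c x)² ≥ 0`), so
  `2 c k P(Φ₀) c₁ ≤ ∑' n P(Φ₀ ∧ fk n ∧ Reg (n+1)) + c² c₁ (k (4 + v) P(Φ₀) + ∫⁻_{Φ₀} expl a)`, and
  `c² (4 + v) = c`; subtract the finite number `c c₁ k P(Φ₀)`.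
* `some_reg`: `Φ₀ = {hist a = h}`, `expl a = e` is constant;
`∑' n 1[fk n ∧ Reg (n+1)] ≤ k 1[∃ n > a, Reg n]`
  (`card_firstk_le`); divide by `k`, `k → ∞`.
-/

namespace Pool.Agent.Spd

open MeasureTheory HPT

private theorem g7c_hist {c₀ : List ℤ} {a n : ℕ} (han : a ≤ n)
    (p p' : HPT × (ℕ → unitInterval)) (h : hist c₀ p.1 p.2 n = hist c₀ p'.1 p'.2 n) :
    hist c₀ p.1 p.2 a = hist c₀ p'.1 p'.2 a := by
  obtain ⟨φ, ψ, hs⟩ := hist_sim_of_eq h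
  exact hs.hist_eq han

private theorem g7c_expD {c₀ : List ℤ} {n : ℕ}
    (p p' : HPT × (ℕ → unitInterval)) (h : hist c₀ p.1 p.2 n = hist c₀ p'.1 p'.2 n) :
    expD c₀ p.1 (p.1.walk p.2) n = expD c₀ p'.1 (p'.1.walk p'.2) n := by
  obtain ⟨φ, ψ, hs⟩ := hist_sim_of_eq h
  exact hs.expD_eq le_rfl

theorem sum_reg_next {μ : Measure HPT} [IsProbabilityMeasure μ] (hT : TransInv μ)
    (hD : DomMarkov μ) (c₀ : List ℤ) (a k n : ℕ) (Φ : HPT × (ℕ → unitInterval) → Prop)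
    (hΦ : ∀ p p' : HPT × (ℕ → unitInterval), hist c₀ p.1 p.2 a = hist c₀ p'.1 p'.2 a →
      (Φ p ↔ Φ p')) :
    μ {G | special G} * pReg μ *
      ∫⁻ p in {p | Φ p ∧ firstk c₀ p.1 (p.1.walk p.2) a k n},
        ((3 + expD c₀ p.1 (p.1.walk p.2) n : ℕ) : ENNReal)⁻¹ ∂(μ.prod unif) ≤
      (μ.prod unif) {p | Φ p ∧ firstk c₀ p.1 (p.1.walk p.2) a k n ∧
        Reg c₀ p.1 (p.1.walk p.2) (n + 1)} := by
  classical
  set P := μ.prod unif with hP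
  set A : ℕ → Set (HPT × (ℕ → unitInterval)) := fun D =>
    {p | (Φ p ∧ firstk c₀ p.1 (p.1.walk p.2) a k n) ∧
      expD c₀ p.1 (p.1.walk p.2) n = D} with hA
  set R : Set (HPT × (ℕ → unitInterval)) := {p | Reg c₀ p.1 (p.1.walk p.2) (n + 1)} with hR
  have hfun : ∀ (D : ℕ) (p p' : HPT × (ℕ → unitInterval)),
      hist c₀ p.1 p.2 n = hist c₀ p'.1 p'.2 n →
      (((Φ p ∧ firstk c₀ p.1 (p.1.walk p.2) a k n) ∧ expD c₀ p.1 (p.1.walk p.2) n = D) ↔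
        ((Φ p' ∧ firstk c₀ p'.1 (p'.1.walk p'.2) a k n) ∧
          expD c₀ p'.1 (p'.1.walk p'.2) n = D)) := by
    intro D p p' h
    rw [firstk_histfun c₀ a k n p p' h, g7c_expD p p' h]
    refine and_congr_left fun _ => and_congr_left fun hf => ?_
    exact hΦ p p' (g7c_hist hf.1 p p' h)
  have hAm : ∀ D, MeasurableSet (A D) := fun D => measurableSet_histfun c₀ n _ (hfun D)
  have hAd : Pairwise (Function.onFun Disjoint A) := by
    intro D D' hDD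
    refine Set.disjoint_left.2 fun p hp hp' => hDD ?_
    rw [← hp.2, ← hp'.2]
  have hAU : {p | Φ p ∧ firstk c₀ p.1 (p.1.walk p.2) a k n} = ⋃ D, A D := by
    ext p
    rw [Set.mem_iUnion]
    exact ⟨fun h => ⟨_, h, rfl⟩, fun ⟨D, h, _⟩ => h⟩
  have hI : ∫⁻ p in {p | Φ p ∧ firstk c₀ p.1 (p.1.walk p.2) a k n},
      ((3 + expD c₀ p.1 (p.1.walk p.2) n : ℕ) : ENNReal)⁻¹ ∂P =
      ∑' D : ℕ, ((3 + D : ℕ) : ENNReal)⁻¹ * P (A D) := by
    rw [hAU, lintegral_iUnion hAm hAd]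
    refine tsum_congr fun D => ?_
    have h1 : ∫⁻ p in A D, ((3 + expD c₀ p.1 (p.1.walk p.2) n : ℕ) : ENNReal)⁻¹ ∂P =
        ∫⁻ _p in A D, ((3 + D : ℕ) : ENNReal)⁻¹ ∂P := by
      refine setLIntegral_congr_fun (hAm D) fun p hp => ?_
      have h2 : expD c₀ p.1 (p.1.walk p.2) n = D := hp.2
      rw [h2]
    rw [h1, setLIntegral_const]
  have hS : P {p | Φ p ∧ firstk c₀ p.1 (p.1.walk p.2) a k n ∧
      Reg c₀ p.1 (p.1.walk p.2) (n + 1)} = ∑' D : ℕ, P (A D ∩ R) := by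
    have h1 : {p | Φ p ∧ firstk c₀ p.1 (p.1.walk p.2) a k n ∧
        Reg c₀ p.1 (p.1.walk p.2) (n + 1)} = (⋃ D, A D) ∩ R := by
      rw [← hAU]
      ext p
      exact and_assoc.symm
    rw [h1, ← Measure.restrict_apply (MeasurableSet.iUnion hAm), measure_iUnion hAd hAm]
    exact tsum_congr fun D => Measure.restrict_apply (hAm D)
  rw [hI, hS, ← ENNReal.tsum_mul_left]
  refine ENNReal.tsum_le_tsum fun D => ?_
  have h1 := reg_next hT hD c₀ n D _ (hfun D) (fun p hp => ⟨hp.1.2.2.1, hp.2⟩)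
  refine le_trans (le_of_eq ?_) h1
  change μ {G | special G} * pReg μ * (((3 + D : ℕ) : ENNReal)⁻¹ * P (A D)) =
    P (A D) * (μ {G | special G} * ((3 + D : ℕ) : ENNReal)⁻¹ * pReg μ)
  ring

end Pool.Agent.Spd
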