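import Pool.Agent.Spd.G07b
import Pool.Agent.Spd.G07c

/-!
(Part `G07d`: `freq`.  The text below is the common header of the parts.)

# SPD G07: the expected number of regenerations among the first `k` pioneers

`P = μ × unif`, `v = ∫⁻ starVol dμ`, `c₁ = μ special * pReg`.  `Φ₀` is a function of the history at time `a`,
`fk n = firstk c₀ H w a k n` (a function of the history at time `n`).

* `sum_firstk`: `∑' n, P(Φ₀ ∧ fk n) = k P(Φ₀)`: `∑' n, 1[fk n] = k` a.s. on `Φ₀` by `card_firstk` and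
  `pio_inf` (for almost every `p`: `Measure.ae_prod_mem_iff`-type argument, or integrate `pio_inf` over
  `H`: `measure_prod_null`, the set is measurable: countable operations on `{Pio m}`); `lintegral_tsum`.
* `sum_firstk_weight`: `∑' n, ∫⁻_{Φ₀ ∧ fk n} (3 + expD n) ≤ k (4 + v) P(Φ₀) + ∫⁻_{Φ₀} expl a`: partial sums
  and `firstk_sum`: `∑_{n<N} 1[fk n] (3 + expD n) ≤ 3 k + k + ∑_{n<N} 1[fk n] starVol (regAt n) + expl a`
  (`card_firstk_le`), and `∫⁻_{Φ₀ ∧ fk n} starVol (regAt n) = P(Φ₀ ∧ fk n) v` (`lint_fresh`;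
  `Φ₀ ∧ fk n` is a function of the history at time `n`, since `fk n` implies `a ≤ n`), `sum_firstk`.
* `sum_reg_next`: `c₁ ∫⁻_{Φ₀ ∧ fk n} (3 + expD n)⁻¹ ≤ P(Φ₀ ∧ fk n ∧ Reg (n+1))`: `reg_next` for
  `Φ₀ ∧ fk n ∧ expD n = D`, summed over `D`.
* `freq`: for `c = (4 + v)⁻¹` and `x = 3 + D`: `2 c ≤ x⁻¹ + c² x` (`(1 - c x)² ≥ 0`), so
  `2 c k P(Φ₀) c₁ ≤ ∑' n P(Φ₀ ∧ fk n ∧ Reg (n+1)) + c² c₁ (k (4 + v) P(Φ₀) + ∫⁻_{Φ₀} expl a)`, and
  `c² (4 + v) = c`; subtract the finite number `c c₁ k P(Φ₀)`.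
* `some_reg`: `Φ₀ = {hist a = h}`, `expl a = e` is constant; `∑' n 1[fk n ∧ Reg (n+1)] ≤ k 1[∃ n > a, Reg n]`
  (`card_firstk_le`); divide by `k`, `k → ∞`.
-/

namespace Pool.Agent.Spd

open MeasureTheory HPT

private theorem measurable_expD (c₀ : List ℤ) (n : ℕ) :
    Measurable (fun p : HPT × (ℕ → unitInterval) => expD c₀ p.1 (p.1.walk p.2) n) := by
  refine measurable_to_countable' fun D => ?_
  exact measurableSet_histfun c₀ n (fun p => expD c₀ p.1 (p.1.walk p.2) n = D) fun p p' h => by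
    rw [expD_histfun c₀ le_rfl p p' h]

private theorem two_mul_le' {c : ENNReal} (hc : c ≠ ⊤) {x : ℕ} (hx : 0 < x) :
    2 * c ≤ (x : ENNReal)⁻¹ + c ^ 2 * x := by
  lift c to NNReal using hc
  have hx' : (0 : NNReal) < x := by exact_mod_cast hx
  rw [← ENNReal.coe_natCast, ← ENNReal.coe_inv hx'.ne']
  norm_cast
  rw [← NNReal.coe_le_coe]
  push_cast
  have h1 : (0 : ℝ) < x := by exact_mod_cast hx
  have h2 : (x : ℝ)⁻¹ + (c : ℝ) ^ 2 * x - 2 * c = (1 - c * x) ^ 2 / x := by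
    field_simp
    ring
  have h3 : 0 ≤ (1 - (c : ℝ) * x) ^ 2 / x := by positivity
  linarith

theorem freq {μ : Measure HPT} [IsProbabilityMeasure μ] (hT : TransInv μ)
    (hD : DomMarkov μ) (hv : vStar μ < ⊤) (c₀ : List ℤ) (a k : ℕ)
    (Φ : HPT × (ℕ → unitInterval) → Prop)
    (hΦ : ∀ p p' : HPT × (ℕ → unitInterval), hist c₀ p.1 p.2 a = hist c₀ p'.1 p'.2 a →
      (Φ p ↔ Φ p')) :
    μ {G | special G} * pReg μ * (4 + vStar μ)⁻¹ * k * (μ.prod unif) {p | Φ p} ≤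
      (∑' n, (μ.prod unif) {p | Φ p ∧ firstk c₀ p.1 (p.1.walk p.2) a k n ∧
        Reg c₀ p.1 (p.1.walk p.2) (n + 1)}) +
      μ {G | special G} * pReg μ * ((4 + vStar μ)⁻¹) ^ 2 *
        ∫⁻ p in {p | Φ p}, (expl c₀ p.1 (p.1.walk p.2) a : ENNReal) ∂(μ.prod unif) := by
  set P := μ.prod unif with hP
  set c := (4 + vStar μ)⁻¹ with hc
  set c₁ := μ {G | special G} * pReg μ with hc₁
  set A : ℕ → Set (HPT × (ℕ → unitInterval)) :=
    fun n => {p | Φ p ∧ firstk c₀ p.1 (p.1.walk p.2) a k n} with hA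
  set X : ℕ → HPT × (ℕ → unitInterval) → ENNReal :=
    fun n p => ((3 + expD c₀ p.1 (p.1.walk p.2) n : ℕ) : ENNReal) with hX
  set I := ∫⁻ p in {p | Φ p}, (expl c₀ p.1 (p.1.walk p.2) a : ENNReal) ∂P with hI
  set R := ∑' n, P {p | Φ p ∧ firstk c₀ p.1 (p.1.walk p.2) a k n ∧
        Reg c₀ p.1 (p.1.walk p.2) (n + 1)} with hR
  have h40 : 4 + vStar μ ≠ 0 := by
    intro h
    have h1 := (add_eq_zero.1 h).1
    norm_num at h1
  have h4t : 4 + vStar μ ≠ ⊤ := ENNReal.add_ne_top.2 ⟨by norm_num, hv.ne⟩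
  have hct : c ≠ ⊤ := ENNReal.inv_ne_top.2 h40
  have hcc : c * (4 + vStar μ) = 1 := ENNReal.inv_mul_cancel h40 h4t
  have hXm : ∀ n, Measurable (X n) := fun n =>
    (measurable_from_top (f := fun d : ℕ => ((3 + d : ℕ) : ENNReal))).comp (measurable_expD c₀ n)
  have step : ∀ n, 2 * c * P (A n) ≤
      ∫⁻ p in A n, (X n p)⁻¹ ∂P + c ^ 2 * ∫⁻ p in A n, X n p ∂P := by
    intro n
    calc 2 * c * P (A n) = ∫⁻ _ in A n, 2 * c ∂P := (setLIntegral_const _ _).symm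
      _ ≤ ∫⁻ p in A n, ((X n p)⁻¹ + c ^ 2 * X n p) ∂P :=
          lintegral_mono fun p => two_mul_le' hct (by omega)
      _ = _ := by
          rw [← lintegral_const_mul _ (hXm n)]
          exact lintegral_add_left (μ := P.restrict (A n)) (f := fun p => (X n p)⁻¹)
            (hXm n).inv (fun p => c ^ 2 * X n p)
  have s1 : ∑' n, P (A n) = k * P {p | Φ p} := sum_firstk c₀ a k Φ hΦ
  have s2 : ∑' n, ∫⁻ p in A n, X n p ∂P ≤ k * (4 + vStar μ) * P {p | Φ p} + I :=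
    sum_firstk_weight hT hD c₀ a k Φ hΦ
  have s3 : c₁ * ∑' n, ∫⁻ p in A n, (X n p)⁻¹ ∂P ≤ R := by
    rw [← ENNReal.tsum_mul_left]
    exact ENNReal.tsum_le_tsum fun n => sum_reg_next hT hD c₀ a k n Φ hΦ
  have s4 : 2 * c * (k * P {p | Φ p}) ≤
      (∑' n, ∫⁻ p in A n, (X n p)⁻¹ ∂P) + c ^ 2 * ∑' n, ∫⁻ p in A n, X n p ∂P := by
    rw [← s1, ← ENNReal.tsum_mul_left, ← ENNReal.tsum_mul_left, ← ENNReal.tsum_add]
    exact ENNReal.tsum_le_tsum step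
  have s5 : c₁ * c * k * P {p | Φ p} + c₁ * c * k * P {p | Φ p} ≤
      (R + c₁ * c ^ 2 * I) + c₁ * c * k * P {p | Φ p} := by
    calc c₁ * c * k * P {p | Φ p} + c₁ * c * k * P {p | Φ p}
        = c₁ * (2 * c * (k * P {p | Φ p})) := by ring
      _ ≤ c₁ * ((∑' n, ∫⁻ p in A n, (X n p)⁻¹ ∂P) + c ^ 2 * ∑' n, ∫⁻ p in A n, X n p ∂P) := by
          gcongr
      _ = c₁ * (∑' n, ∫⁻ p in A n, (X n p)⁻¹ ∂P) +
          c₁ * c ^ 2 * ∑' n, ∫⁻ p in A n, X n p ∂P := by ring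
      _ ≤ R + c₁ * c ^ 2 * (k * (4 + vStar μ) * P {p | Φ p} + I) := by
          gcongr
      _ = (R + c₁ * c ^ 2 * I) + c₁ * c * k * P {p | Φ p} * (c * (4 + vStar μ)) := by ring
      _ = _ := by rw [hcc, mul_one]
  have hfin : c₁ * c * k * P {p | Φ p} ≠ ⊤ := by
    refine ENNReal.mul_ne_top (ENNReal.mul_ne_top (ENNReal.mul_ne_top ?_ hct)
      (ENNReal.natCast_ne_top k)) (measure_ne_top _ _)
    exact ENNReal.mul_ne_top (measure_ne_top _ _)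
      (ne_top_of_le_ne_top ENNReal.one_ne_top (pReg_le_one μ))
  exact (ENNReal.add_le_add_iff_right hfin).1 s5

end Pool.Agent.Spd
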