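import Pool.Agent.Spd.G07d

/-!
(Part `G07e`: `some_reg`.  The text below is the common header of the parts.)

# SPD G07: the expected number of regenerations among the first `k` pioneers

`P = μ × unif`, `v = ∫⁻ starVol dμ`, `c₁ = μ special * pReg`.  `Φ₀` is a function of the history at time `a`,
`fk n = firstk c₀ H w a k n` (a function of the history at time `n`).

* `sum_firstk`: `∑' n, P(Φ₀ ∧ fk n) = k P(Φ₀)`: `∑' n, 1[fk n] = k` a.s. on `Φ₀` by `card_firstk` and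
  `pio_inf` (for almost every `p`: `Measure.ae_prod_mem_iff`-type argument, or integrate `pio_inf` over
  `H`: `measure_prod_null`, the set is measurable: countable operations on `{Pio m}`); `lintegral_tsum`.
* `sum_firstk_weight`: `∑' n, ∫⁻_{Φ₀ ∧ fk n} (3 + expD n) ≤ k (4 + v) P(Φ₀) + ∫⁻_{Φ₀} expl a`: partial sums
  and `firstk_sum`: `∑_{n<N} 1[fk n] (3 + expD n) ≤ 3 k + k + ∑_{n<N} 1[fk n] starVol (regAt n) + expl a`
  (`card_firstk_le`), and `∫⁻_{Φ₀ ∧ fk n} starVol (regAt n) = P(Φ₀ ∧ fk n) v` (`lint_fresh`;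
  `Φ₀ ∧ fk n` is a function of the history at time `n`, since `fk n` implies `a ≤ n`), `sum_firstk`.
* `sum_reg_next`: `c₁ ∫⁻_{Φ₀ ∧ fk n} (3 + expD n)⁻¹ ≤ P(Φ₀ ∧ fk n ∧ Reg (n+1))`: `reg_next` for
  `Φ₀ ∧ fk n ∧ expD n = D`, summed over `D`.
* `freq`: for `c = (4 + v)⁻¹` and `x = 3 + D`: `2 c ≤ x⁻¹ + c² x` (`(1 - c x)² ≥ 0`), so
  `2 c k P(Φ₀) c₁ ≤ ∑' n P(Φ₀ ∧ fk n ∧ Reg (n+1)) + c² c₁ (k (4 + v) P(Φ₀) + ∫⁻_{Φ₀} expl a)`, and
  `c² (4 + v) = c`; subtract the finite number `c c₁ k P(Φ₀)`.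
* `some_reg`: `Φ₀ = {hist a = h}`, `expl a = e` is constant; `∑' n 1[fk n ∧ Reg (n+1)] ≤ k 1[∃ n > a, Reg n]`
  (`card_firstk_le`); divide by `k`, `k → ∞`.
-/

namespace Pool.Agent.Spd

open MeasureTheory HPT

open Classical in
/-- The regenerations after the first `k` pioneers, counted with the event that there is one. -/
private theorem some_reg_sum {μ : Measure HPT} [IsProbabilityMeasure μ] (c₀ : List ℤ) (a k : ℕ)
    (h : List ℤ × List Step × List ℕ) :
    ∑' n, (μ.prod unif) {p | hist c₀ p.1 p.2 a = h ∧ firstk c₀ p.1 (p.1.walk p.2) a k n ∧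
        Reg c₀ p.1 (p.1.walk p.2) (n + 1)} ≤
      k * (μ.prod unif) {p | (∃ n, a < n ∧ Reg c₀ p.1 (p.1.walk p.2) n) ∧
        hist c₀ p.1 p.2 a = h} := by
  have hA : MeasurableSet {p : HPT × (ℕ → unitInterval) | hist c₀ p.1 p.2 a = h} :=
    measurableSet_histfun c₀ a (fun p => hist c₀ p.1 p.2 a = h)
      (fun p p' hp => by rw [hp])
  have hS : ∀ n, MeasurableSet {p : HPT × (ℕ → unitInterval) | hist c₀ p.1 p.2 a = h ∧
      firstk c₀ p.1 (p.1.walk p.2) a k n ∧ Reg c₀ p.1 (p.1.walk p.2) (n + 1)} := fun n =>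
    hA.inter ((measurableSet_histfun c₀ n _ (firstk_histfun c₀ a k n)).inter
      (measurableSet_reg c₀ (n + 1)))
  have hE : MeasurableSet {p : HPT × (ℕ → unitInterval) |
      ∃ n, a < n ∧ Reg c₀ p.1 (p.1.walk p.2) n} := by
    have h1 : {p : HPT × (ℕ → unitInterval) | ∃ n, a < n ∧ Reg c₀ p.1 (p.1.walk p.2) n} =
        ⋃ n : ℕ, ⋃ _ : a < n, {p | Reg c₀ p.1 (p.1.walk p.2) n} := by
      ext p
      simp only [Set.mem_iUnion, Set.mem_ofPred_eq, exists_prop]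
    rw [h1]
    exact MeasurableSet.iUnion fun n => MeasurableSet.iUnion fun _ => measurableSet_reg c₀ n
  have hΨ : MeasurableSet {p : HPT × (ℕ → unitInterval) |
      (∃ n, a < n ∧ Reg c₀ p.1 (p.1.walk p.2) n) ∧ hist c₀ p.1 p.2 a = h} := hE.inter hA
  rw [ENNReal.tsum_eq_iSup_nat]
  refine iSup_le fun N => ?_
  have h1 : ∀ n ∈ Finset.range N, (μ.prod unif) {p | hist c₀ p.1 p.2 a = h ∧
      firstk c₀ p.1 (p.1.walk p.2) a k n ∧ Reg c₀ p.1 (p.1.walk p.2) (n + 1)} =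
      ∫⁻ p, Set.indicator {p | hist c₀ p.1 p.2 a = h ∧
      firstk c₀ p.1 (p.1.walk p.2) a k n ∧ Reg c₀ p.1 (p.1.walk p.2) (n + 1)} 1 p
        ∂(μ.prod unif) := fun n _ => (lintegral_indicator_one (hS n)).symm
  rw [Finset.sum_congr rfl h1, ← lintegral_finset_sum _
    (fun n _ => measurable_one.indicator (hS n)), ← lintegral_indicator_one hΨ,
    ← lintegral_const_mul _ (measurable_one.indicator hΨ)]
  refine lintegral_mono fun p => ?_
  by_cases hp : (∃ n, a < n ∧ Reg c₀ p.1 (p.1.walk p.2) n) ∧ hist c₀ p.1 p.2 a = h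
  · have h2 : ∑ n ∈ Finset.range N, Set.indicator {p : HPT × (ℕ → unitInterval) |
        hist c₀ p.1 p.2 a = h ∧ firstk c₀ p.1 (p.1.walk p.2) a k n ∧
        Reg c₀ p.1 (p.1.walk p.2) (n + 1)} (1 : HPT × (ℕ → unitInterval) → ENNReal) p ≤
        ∑ n ∈ (Finset.range N).filter (fun n => firstk c₀ p.1 (p.1.walk p.2) a k n), 1 := by
      rw [Finset.sum_filter]
      refine Finset.sum_le_sum fun n _ => ?_
      by_cases h3 : hist c₀ p.1 p.2 a = h ∧ firstk c₀ p.1 (p.1.walk p.2) a k n ∧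
        Reg c₀ p.1 (p.1.walk p.2) (n + 1)
      · rw [Set.indicator_of_mem (by exact h3), if_pos h3.2.1]
        rfl
      · rw [Set.indicator_of_notMem (by exact h3)]
        exact zero_le
    refine h2.trans ?_
    rw [Finset.sum_const, nsmul_eq_mul, mul_one, Set.indicator_of_mem (by exact hp)]
    simp only [Pi.one_apply, mul_one]
    exact_mod_cast card_firstk_le a k N
  · have h2 : ∑ n ∈ Finset.range N, Set.indicator {p : HPT × (ℕ → unitInterval) |
        hist c₀ p.1 p.2 a = h ∧ firstk c₀ p.1 (p.1.walk p.2) a k n ∧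
        Reg c₀ p.1 (p.1.walk p.2) (n + 1)} (1 : HPT × (ℕ → unitInterval) → ENNReal) p = 0 := by
      refine Finset.sum_eq_zero fun n _ => ?_
      rw [Set.indicator_of_notMem]
      rintro ⟨h3, h4, h5⟩
      exact hp ⟨⟨n + 1, Nat.lt_succ_of_le h4.1, h5⟩, h3⟩
    rw [h2]
    exact zero_le

/-- Division by `k → ∞`. -/
private theorem some_reg_div {x y E : ENNReal} (hy : y ≠ ⊤) (hE : E ≠ ⊤)
    (h : ∀ k : ℕ, k * x ≤ k * y + E) : x ≤ y := by
  by_contra hxy
  rw [not_le] at hxy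
  have h1 : x - y ≠ 0 := (tsub_pos_of_lt hxy).ne'
  obtain ⟨k, hk⟩ := ENNReal.exists_nat_mul_gt h1 hE
  have h2 : (k : ENNReal) * x = k * y + k * (x - y) := by
    rw [← mul_add, add_tsub_cancel_of_le hxy.le]
  have h3 := h k
  rw [h2] at h3
  have h4 : (k : ENNReal) * y ≠ ⊤ := ENNReal.mul_ne_top (ENNReal.natCast_ne_top k) hy
  exact absurd ((ENNReal.add_le_add_iff_left h4).1 h3) (not_le.2 hk)

/-- From every history there is a chance to regenerate later. -/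
theorem some_reg {μ : Measure HPT} [IsProbabilityMeasure μ] (hT : TransInv μ)
    (hD : DomMarkov μ) (hv : vStar μ < ⊤) (c₀ : List ℤ) (a : ℕ)
    (h : List ℤ × List Step × List ℕ) :
    μ {G | special G} * pReg μ * (4 + vStar μ)⁻¹ *
        (μ.prod unif) {p | hist c₀ p.1 p.2 a = h} ≤
      (μ.prod unif) {p | (∃ n, a < n ∧ Reg c₀ p.1 (p.1.walk p.2) n) ∧
        hist c₀ p.1 p.2 a = h} := by
  have hP : IsProbabilityMeasure (μ.prod unif) := inferInstance
  have hI : ∃ e : ℕ, ∀ p ∈ {p : HPT × (ℕ → unitInterval) | hist c₀ p.1 p.2 a = h},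
      expl c₀ p.1 (p.1.walk p.2) a = e := by
    by_cases hne : ∃ p₀ : HPT × (ℕ → unitInterval), hist c₀ p₀.1 p₀.2 a = h
    · obtain ⟨p₀, hp₀⟩ := hne
      refine ⟨expl c₀ p₀.1 (p₀.1.walk p₀.2) a, fun p hp => ?_⟩
      have hp' : hist c₀ p.1 p.2 a = h := hp
      exact expl_histfun c₀ le_rfl p p₀ (hp'.trans hp₀.symm)
    · exact ⟨0, fun p hp => (hne ⟨p, hp⟩).elim⟩
  obtain ⟨e, he⟩ := hI
  have hA : MeasurableSet {p : HPT × (ℕ → unitInterval) | hist c₀ p.1 p.2 a = h} :=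
    measurableSet_histfun c₀ a (fun p => hist c₀ p.1 p.2 a = h)
      (fun p p' hp => by rw [hp])
  have h4 : (4 + vStar μ)⁻¹ ≠ ⊤ := by
    rw [Ne, ENNReal.inv_eq_top]
    exact fun h0 => absurd (add_eq_zero.1 h0).1 four_ne_zero
  have hint : ∫⁻ p in {p | hist c₀ p.1 p.2 a = h},
      (expl c₀ p.1 (p.1.walk p.2) a : ENNReal) ∂(μ.prod unif) ≠ ⊤ := by
    have h5 : ∫⁻ p in {p | hist c₀ p.1 p.2 a = h},
        (expl c₀ p.1 (p.1.walk p.2) a : ENNReal) ∂(μ.prod unif) =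
        ∫⁻ p in {p | hist c₀ p.1 p.2 a = h}, (e : ENNReal) ∂(μ.prod unif) := by
      refine setLIntegral_congr_fun hA fun p hp => ?_
      change ((expl c₀ p.1 (p.1.walk p.2) a : ℕ) : ENNReal) = e
      rw [he p hp]
    rw [h5, setLIntegral_const]
    exact ENNReal.mul_ne_top (ENNReal.natCast_ne_top e) (measure_ne_top _ _)
  have hE : μ {G | special G} * pReg μ * ((4 + vStar μ)⁻¹) ^ 2 *
      ∫⁻ p in {p | hist c₀ p.1 p.2 a = h},
        (expl c₀ p.1 (p.1.walk p.2) a : ENNReal) ∂(μ.prod unif) ≠ ⊤ := by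
    refine ENNReal.mul_ne_top (ENNReal.mul_ne_top (ENNReal.mul_ne_top (measure_ne_top _ _) ?_)
      (ENNReal.pow_ne_top h4)) hint
    exact ne_top_of_le_ne_top ENNReal.one_ne_top (pReg_le_one μ)
  refine some_reg_div (measure_ne_top _ _) hE fun k => ?_
  have h5 := freq hT hD hv c₀ a k (fun p => hist c₀ p.1 p.2 a = h)
    (fun p p' hp => by rw [hp])
  have h6 := some_reg_sum (μ := μ) c₀ a k h
  calc (k : ENNReal) * (μ {G | special G} * pReg μ * (4 + vStar μ)⁻¹ *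
        (μ.prod unif) {p | hist c₀ p.1 p.2 a = h})
      = μ {G | special G} * pReg μ * (4 + vStar μ)⁻¹ * k *
        (μ.prod unif) {p | hist c₀ p.1 p.2 a = h} := by ring
    _ ≤ _ := h5
    _ ≤ _ := add_le_add_left h6 _

end Pool.Agent.Spd
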