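import Pool.Agent.Spd.PioB1

/-!
(Part `PioB2`: `stay_null`, `pio_inf`.  The text below is the common header of the parts.)

# SPD M9b: the walk leaves the swallowed part

`L`, `D` from `exit_word` (we may assume `1 ≤ D`); `q = (D : ENNReal)⁻¹ ^ L > 0`.

* `stay_bound`: for every `z ∈ H.D` with `Blw H G z`:
  `unif {U | ∀ j ≤ k * L, Blw H G (walkFrom z U j)} ≤ (1 - q)^k`.
  `k = 1` (any such `z`): the complement contains
  `{U | ∀ j < l.length, ⌊U j * d_j⌋ = κ_j}`, whose measure is `∏ 1/d_j ≥ q` (product measure of a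
  cylinder: `Measure.infinitePi_pi`, or `unif_choice` repeatedly), because then `walkFrom z U j` is
  outside for `j = l.length ≤ L`.
  Step: `walkFrom_add`: the walk after time `L` is `walkFrom z' (drop L U)` with
  `z' = walkFrom z U L`; sum over the values `z'` (countable; `{walkFrom z U L = z', stays up to L}`
  depends on the coordinates `< L` only; measurable, since it is a finite union of sets given by
  values of the `⌊U j * d⌋`), `unif_split`, induction hypothesis.
* `stay_null`: `{∀ j, Blw ..}` has measure `≤ (1 - q)^k` for all `k`; if `z` is not strictly below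
  `G` take `j = 0`.
* `pio_inf`: if there is no pioneer time `≥ n` then `reg m = reg n =: G` for `m ≥ n`
  (`reg_succ_not`) and `walk U m` is strictly below `G` for `m ≥ n` (`pio_or_blw`),
  `walk U (n + j) = walkFrom z (drop n U) j` with `z = walk U n` (`walk_eq`, `walkFrom_add`).
  `G = H.exec c` for one of countably many `c`, `z` is one of countably many darts; for fixed
  `c`, `z`, `n` the set of `U` such that `walkFrom z (drop n U) j` is strictly below `H.exec c` for all
  `j` is a null set by `stay_null` and `unif_drop` (`quasiMeasurePreserving` of `drop n`).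
-/

namespace Pool.Agent.Spd

open MeasureTheory

namespace HPT

theorem stay_null {G H : HPT} (S : Sub G H) {z : ℕ} (hz : z ∈ H.M.D) :
    ∀ᵐ U ∂unif, ∃ j, ¬ Blw H G (H.walkFrom z U j) := by
  by_cases hz0 : Blw H G z
  · obtain ⟨L, q, hq, hb⟩ := stay_bound S
    rw [ae_iff]
    have h1 : ∀ k : ℕ, unif {U | ¬ ∃ j, ¬ Blw H G (H.walkFrom z U j)} ≤ (1 - q) ^ k := by
      intro k
      refine le_trans (measure_mono ?_) (hb k z hz hz0)
      intro U hU j _
      by_contra h
      exact hU ⟨j, h⟩
    have h2 : (1 - q : ENNReal) < 1 :=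
      ENNReal.sub_lt_self ENNReal.one_ne_top one_ne_zero hq.ne'
    have h3 := ge_of_tendsto' (ENNReal.tendsto_pow_atTop_nhds_zero_of_lt_one h2) h1
    exact le_antisymm h3 zero_le
  · exact Filter.Eventually.of_forall fun U => ⟨0, hz0⟩

theorem pio_inf (H : HPT) (c₀ : List ℤ) :
    ∀ᵐ U ∂unif, ∀ n, ∃ m, n ≤ m ∧ Pio c₀ H (H.walk U) m := by
  have key : ∀ᵐ U ∂unif, ∀ (n : ℕ) (c : List ℤ) (z : ℕ), z ∈ H.M.D →
      ∃ j, ¬ Blw H (H.exec c) (H.walkFrom z (fun k => U (n + k)) j) := by
    rw [ae_all_iff]
    intro n
    rw [ae_all_iff]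
    intro c
    rw [ae_all_iff]
    intro z
    by_cases hz : z ∈ H.M.D
    · have h1 := stay_null (exec_sub H c) hz
      have hm : AEMeasurable (fun (U : ℕ → unitInterval) (k : ℕ) => U (n + k)) unif :=
        (measurable_pi_iff.2 fun k => measurable_pi_apply (n + k)).aemeasurable
      rw [← unif_drop n] at h1
      have h2 := ae_of_ae_map hm h1
      filter_upwards [h2] with U hU _
      exact hU
    · exact Filter.Eventually.of_forall fun U h => absurd h hz
  filter_upwards [key] with U hU n
  by_contra hno
  have hno' : ∀ m, n ≤ m → ¬ Pio c₀ H (H.walk U) m := fun m hm hp => hno ⟨m, hm, hp⟩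
  have P := walk_isPath H U
  have hreg : ∀ j, reg c₀ H (H.walk U) (n + j) = reg c₀ H (H.walk U) n := by
    intro j
    induction j with
    | zero => rfl
    | succ j ih =>
      have h1 := reg_succ_not (hno' (n + j) (Nat.le_add_right n j))
      rw [← ih, ← h1]
      rfl
  obtain ⟨j, hj⟩ := hU n (cmdP c₀ H (H.walk U) n) (H.walk U n) (P.mem n)
  apply hj
  have h2 : H.walkFrom (H.walk U n) (fun k => U (n + k)) j = H.walk U (n + j) := by
    rw [walk_eq, walk_eq, walkFrom_add]
  rw [h2]
  have h3 := (pio_or_blw (c₀ := c₀) P (n + j)).resolve_left (hno' (n + j) (Nat.le_add_right n j))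
  rw [hreg j] at h3
  exact h3

end HPT

end Pool.Agent.Spd
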