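import Pool.Agent.Spd.G06
import Pool.Agent.Spd.PioB

/-!
(Part `G07a`: `vStar`, `pio_inf_ae`, `sum_firstk`.  The text below is the common header of the parts.)

# SPD G07: the expected number of regenerations among the first `k` pioneers

`P = μ × unif`, `v = ∫⁻ starVol dμ`, `c₁ = μ special * pReg`.  `Φ₀` is a function of the history at time `a`,
`fk n = firstk c₀ H w a k n` (a function of the history at time `n`).

* `sum_firstk`: `∑' n, P(Φ₀ ∧ fk n) = k P(Φ₀)`: `∑' n, 1[fk n] = k` a.s. on `Φ₀` by `card_firstk` and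
  `pio_inf` (for almost every `p`: `Measure.ae_prod_mem_iff`-type argument, or integrate `pio_inf` over
  `H`: `measure_prod_null`, the set is measurable: countable operations on `{Pio m}`); `lintegral_tsum`.
* `sum_firstk_weight`: `∑' n, ∫⁻_{Φ₀ ∧ fk n} (3 + expD n) ≤ k (4 + v) P(Φ₀) + ∫⁻_{Φ₀} expl a`: partial sums
  and `firstk_sum`: `∑_{n<N} 1[fk n] (3 + expD n) ≤ 3 k + k + ∑_{n<N} 1[fk n] starVol (regAt n) + expl a`
  (`card_firstk_le`), and `∫⁻_{Φ₀ ∧ fk n} starVol (regAt n) = P(Φ₀ ∧ fk n) v` (`lint_fresh`;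
  `Φ₀ ∧ fk n` is a function of the history at time `n`, since `fk n` implies `a ≤ n`), `sum_firstk`.
* `sum_reg_next`: `c₁ ∫⁻_{Φ₀ ∧ fk n} (3 + expD n)⁻¹ ≤ P(Φ₀ ∧ fk n ∧ Reg (n+1))`: `reg_next` for
  `Φ₀ ∧ fk n ∧ expD n = D`, summed over `D`.
* `freq`: for `c = (4 + v)⁻¹` and `x = 3 + D`: `2 c ≤ x⁻¹ + c² x` (`(1 - c x)² ≥ 0`), so
  `2 c k P(Φ₀) c₁ ≤ ∑' n P(Φ₀ ∧ fk n ∧ Reg (n+1)) + c² c₁ (k (4 + v) P(Φ₀) + ∫⁻_{Φ₀} expl a)`, and
  `c² (4 + v) = c`; subtract the finite number `c c₁ k P(Φ₀)`.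
* `some_reg`: `Φ₀ = {hist a = h}`, `expl a = e` is constant; `∑' n 1[fk n ∧ Reg (n+1)] ≤ k 1[∃ n > a, Reg n]`
  (`card_firstk_le`); divide by `k`, `k → ∞`.
-/

namespace Pool.Agent.Spd

open MeasureTheory HPT

/-- Mean volume of the star. -/
noncomputable def vStar (μ : Measure HPT) : ENNReal := ∫⁻ H, (H.starVol : ENNReal) ∂μ

private theorem g07a_histfun {c₀ : List ℤ} {a n : ℕ} (han : a ≤ n)
    {p p' : HPT × (ℕ → unitInterval)} (h : hist c₀ p.1 p.2 n = hist c₀ p'.1 p'.2 n) :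
    hist c₀ p.1 p.2 a = hist c₀ p'.1 p'.2 a := by
  obtain ⟨φ, ψ, S⟩ := hist_sim_of_eq h
  exact S.hist_eq han

theorem pio_inf_ae {μ : Measure HPT} [IsProbabilityMeasure μ] (c₀ : List ℤ) :
    ∀ᵐ p ∂(μ.prod unif), ∀ n, ∃ m, n ≤ m ∧ Pio c₀ p.1 (p.1.walk p.2) m := by
  have hm : MeasurableSet {p : HPT × (ℕ → unitInterval) |
      ∀ n, ∃ m, n ≤ m ∧ Pio c₀ p.1 (p.1.walk p.2) m} := by
    have e : {p : HPT × (ℕ → unitInterval) | ∀ n, ∃ m, n ≤ m ∧ Pio c₀ p.1 (p.1.walk p.2) m} =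
        ⋂ n : ℕ, ⋃ m : ℕ, ⋃ _ : n ≤ m, {p : HPT × (ℕ → unitInterval) |
          Pio c₀ p.1 (p.1.walk p.2) m} := by
      ext p
      simp only [Set.mem_ofPred_eq, Set.mem_iInter, Set.mem_iUnion, exists_prop]
    rw [e]
    exact MeasurableSet.iInter fun n => MeasurableSet.iUnion fun m => MeasurableSet.iUnion
      fun _ => measurableSet_histfun c₀ m _ fun p p' h => pio_histfun c₀ le_rfl p p' h
  rw [Measure.ae_prod_iff_ae_ae hm]
  exact Filter.Eventually.of_forall fun H => pio_inf H c₀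

open Classical in
private theorem g07a_tsum {H : HPT} {w : ℕ → ℕ} {c₀ : List ℤ} (a k : ℕ)
    (hinf : ∀ n, ∃ m, n ≤ m ∧ Pio c₀ H w m) :
    ∑' n, (if firstk c₀ H w a k n then (1 : ENNReal) else 0) = k := by
  obtain ⟨N, hN⟩ := card_firstk (H := H) (w := w) (c₀ := c₀) a k hinf
  have h1 : ∀ n ∉ Finset.range N, (if firstk c₀ H w a k n then (1 : ENNReal) else 0) = 0 := by
    intro n hn
    rw [if_neg]
    intro hf
    have hNn : N ≤ n := not_lt.1 fun h => hn (Finset.mem_range.2 h)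
    have h2 := hN N le_rfl
    have h3 := hN (n + 1) (by omega)
    have h4 : (Finset.range N).filter (fun n => firstk c₀ H w a k n) ⊂
        (Finset.range (n + 1)).filter (fun n => firstk c₀ H w a k n) := by
      refine Finset.ssubset_iff_subset_ne.2 ⟨?_, ?_⟩
      · exact Finset.filter_subset_filter _ (Finset.range_subset_range.2 (by omega))
      · intro he
        have : n ∈ (Finset.range N).filter (fun n => firstk c₀ H w a k n) := by
          rw [he]
          exact Finset.mem_filter.2 ⟨Finset.mem_range.2 (by omega), hf⟩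
        exact hn (Finset.mem_filter.1 this).1
    have h5 := Finset.card_lt_card h4
    omega
  rw [tsum_eq_sum h1, Finset.sum_boole, hN N le_rfl]

theorem sum_firstk {μ : Measure HPT} [IsProbabilityMeasure μ] (c₀ : List ℤ) (a k : ℕ)
    (Φ : HPT × (ℕ → unitInterval) → Prop)
    (hΦ : ∀ p p' : HPT × (ℕ → unitInterval), hist c₀ p.1 p.2 a = hist c₀ p'.1 p'.2 a →
      (Φ p ↔ Φ p')) :
    ∑' n, (μ.prod unif) {p | Φ p ∧ firstk c₀ p.1 (p.1.walk p.2) a k n} =
      k * (μ.prod unif) {p | Φ p} := by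
  classical
  have hmΦ : MeasurableSet {p : HPT × (ℕ → unitInterval) | Φ p} :=
    measurableSet_histfun c₀ a _ hΦ
  have hmA : ∀ n, MeasurableSet {p : HPT × (ℕ → unitInterval) |
      Φ p ∧ firstk c₀ p.1 (p.1.walk p.2) a k n} := by
    intro n
    by_cases han : a ≤ n
    · refine measurableSet_histfun c₀ n _ fun p p' h => ?_
      rw [hΦ p p' (g07a_histfun han h), firstk_histfun c₀ a k n p p' h]
    · have e : {p : HPT × (ℕ → unitInterval) |
          Φ p ∧ firstk c₀ p.1 (p.1.walk p.2) a k n} = ∅ := by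
        ext p
        simp only [Set.mem_ofPred_eq, Set.mem_empty_iff_false, iff_false]
        exact fun h => han h.2.1
      rw [e]
      exact MeasurableSet.empty
  have h1 : ∀ n, (μ.prod unif) {p | Φ p ∧ firstk c₀ p.1 (p.1.walk p.2) a k n} =
      ∫⁻ p, ({p : HPT × (ℕ → unitInterval) |
        Φ p ∧ firstk c₀ p.1 (p.1.walk p.2) a k n}).indicator 1 p ∂(μ.prod unif) := fun n =>
    (lintegral_indicator_one (hmA n)).symm
  simp_rw [h1]
  rw [← lintegral_tsum fun n => (measurable_one.indicator (hmA n)).aemeasurable]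
  have h2 : (k : ENNReal) * (μ.prod unif) {p | Φ p} =
      ∫⁻ p, ({p : HPT × (ℕ → unitInterval) | Φ p}).indicator (fun _ => (k : ENNReal)) p
        ∂(μ.prod unif) := (lintegral_indicator_const hmΦ _).symm
  rw [h2]
  refine lintegral_congr_ae ?_
  filter_upwards [pio_inf_ae (μ := μ) c₀] with p hp
  by_cases hΦp : Φ p
  · rw [Set.indicator_of_mem (show p ∈ {p | Φ p} from hΦp), ← g07a_tsum a k hp]
    refine tsum_congr fun n => ?_
    by_cases hf : firstk c₀ p.1 (p.1.walk p.2) a k n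
    · rw [if_pos hf, Set.indicator_of_mem (show p ∈ {p : HPT × (ℕ → unitInterval) |
        Φ p ∧ firstk c₀ p.1 (p.1.walk p.2) a k n} from ⟨hΦp, hf⟩), Pi.one_apply]
    · rw [if_neg hf, Set.indicator_of_notMem (show p ∉ {p : HPT × (ℕ → unitInterval) |
        Φ p ∧ firstk c₀ p.1 (p.1.walk p.2) a k n} from fun h => hf h.2)]
  · rw [Set.indicator_of_notMem (show p ∉ {p | Φ p} from hΦp)]
    have h3 : ∀ n, ({p : HPT × (ℕ → unitInterval) |
        Φ p ∧ firstk c₀ p.1 (p.1.walk p.2) a k n}).indicator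
          (1 : HPT × (ℕ → unitInterval) → ENNReal) p = 0 := fun n =>
      Set.indicator_of_notMem (show p ∉ {p : HPT × (ℕ → unitInterval) |
        Φ p ∧ firstk c₀ p.1 (p.1.walk p.2) a k n} from fun h => hΦp h.1) _
    simp only [h3, tsum_zero]

end Pool.Agent.Spd
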