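import Pool.Agent.Spd.G08a
import Pool.Agent.Spd.G07

/-!
(Part `G08b`: `hist_refine`, `inf_reg`.  The text below is the common header of the parts.)

# SPD G08: there are infinitely many regeneration times

* `levy_cell` (abstract): `F n` = sigma-algebra generated by `h n` (increasing by `hr`), `A` belongs to
  `⨆ F n`.  `E[1_A | F n] ≥ c` a.e. for `n ≥ a` (`F n` is generated by the countable partition
  `{h n = x}`: check the integrals over the cells), and `E[1_A | F n] → E[1_A | ⨆ F n] = 1_A` a.e.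
  (`MeasureTheory.tendsto_ae_condExp`), so `1_A ≥ c > 0` a.e.
  (Or without conditional expectations: `A` is approximated in measure by a set `Z` of the algebra
  `⋃ F n`; `P(A ∩ Zᶜ) ≥ c P(Zᶜ)` for `Z ∈ F n`, `n ≥ a`, by summation over the cells contained in `Zᶜ`;
  `P(A ∩ Zᶜ) → 0`, `P(Zᶜ) → P(Aᶜ)`.)
* `hist_refine`: `hist c₀ p.1 p.2 n` is a function of `hist c₀ p.1 p.2 (n + 1)`: `hist_sim_of_eq`,
  `HSim.hist_eq`; choose representatives.
* `inf_reg`: for fixed `a` let `A = {∃ n > a, Reg n}`; `Reg n = ⋂ m ≥ n, {Cand n m}` (`reg_iff_cand`), and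
  `{Cand n m}` is a union of cells `{hist m = h}` (`cand_histfun`), so `A ∈ ⨆ F n`.  For `m ≥ a`:
  `P(A ∩ {hist m = h}) ≥ P({∃ n > m, Reg n} ∩ {hist m = h}) ≥ c P{hist m = h}` (`some_reg`), `c > 0`.
-/

namespace Pool.Agent.Spd

open MeasureTheory HPT

theorem hist_refine (c₀ : List ℤ) (n : ℕ) :
    ∃ g : List ℤ × List Step × List ℕ → List ℤ × List Step × List ℕ,
      ∀ p : HPT × (ℕ → unitInterval), hist c₀ p.1 p.2 n = g (hist c₀ p.1 p.2 (n + 1)) := by
  classical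
  refine ⟨fun x => if hx : ∃ q : HPT × (ℕ → unitInterval), hist c₀ q.1 q.2 (n + 1) = x then
    hist c₀ hx.choose.1 hx.choose.2 n else ([], [], []), fun p => ?_⟩
  have hx : ∃ q : HPT × (ℕ → unitInterval),
      hist c₀ q.1 q.2 (n + 1) = hist c₀ p.1 p.2 (n + 1) := ⟨p, rfl⟩
  change _ = dite _ _ _
  rw [dif_pos hx]
  obtain ⟨φ, ψ, h⟩ := hist_sim_of_eq hx.choose_spec
  exact (h.hist_eq (Nat.le_succ n)).symm

private theorem reg_meas (c₀ : List ℤ) (n : ℕ) :
    MeasurableSet[⨆ n, MeasurableSpace.comap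
      (fun p : HPT × (ℕ → unitInterval) => hist c₀ p.1 p.2 n) ⊤]
      {p : HPT × (ℕ → unitInterval) | Reg c₀ p.1 (p.1.walk p.2) n} := by
  have h1 : {p : HPT × (ℕ → unitInterval) | Reg c₀ p.1 (p.1.walk p.2) n} =
      ⋂ m : ℕ, {p : HPT × (ℕ → unitInterval) | n ≤ m → Cand c₀ p.1 (p.1.walk p.2) n m} := by
    ext p
    rw [Set.mem_iInter]
    exact reg_iff_cand c₀ p.1 (p.1.walk p.2) n
  rw [h1]
  refine MeasurableSet.iInter fun m => ?_
  refine le_iSup (fun n => MeasurableSpace.comap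
      (fun p : HPT × (ℕ → unitInterval) => hist c₀ p.1 p.2 n) ⊤) m _ ?_
  refine ⟨{x | ∃ p : HPT × (ℕ → unitInterval), hist c₀ p.1 p.2 m = x ∧
    (n ≤ m → Cand c₀ p.1 (p.1.walk p.2) n m)}, trivial, ?_⟩
  ext p
  constructor
  · rintro ⟨q, hq, hc⟩ hnm
    exact (cand_histfun c₀ hnm q p hq).1 (hc hnm)
  · intro hp
    exact ⟨p, rfl, hp⟩

theorem inf_reg {μ : Measure HPT} [IsProbabilityMeasure μ] (hT : TransInv μ)
    (hD : DomMarkov μ) (hv : vStar μ < ⊤) (hs : 0 < μ {G | special G}) (hp : 0 < pReg μ)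
    (c₀ : List ℤ) :
    ∀ᵐ p ∂(μ.prod unif), ∀ a, ∃ n, a < n ∧ Reg c₀ p.1 (p.1.walk p.2) n := by
  rw [ae_all_iff]
  intro a
  have hc : 0 < μ {G | special G} * pReg μ * (4 + vStar μ)⁻¹ := by
    refine ENNReal.mul_pos (ENNReal.mul_pos hs.ne' hp.ne').ne' ?_
    rw [ENNReal.inv_ne_zero]
    exact (ENNReal.add_lt_top.2 ⟨by simp, hv⟩).ne
  let mX : MeasurableSpace (List ℤ × List Step × List ℕ) := ⊤
  have : DiscreteMeasurableSpace (List ℤ × List Step × List ℕ) := ⟨fun _ => trivial⟩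
  refine levy_cell (P := μ.prod unif)
    (fun n (p : HPT × (ℕ → unitInterval)) => hist c₀ p.1 p.2 n) (fun n => ?_)
    (fun n => hist_refine c₀ n)
    (A := {p | ∃ n, a < n ∧ Reg c₀ p.1 (p.1.walk p.2) n}) ?_ hc a ?_
  · intro S _
    exact measurableSet_histfun c₀ n (fun p => hist c₀ p.1 p.2 n ∈ S)
      fun p p' h => by rw [h]
  · have h1 : {p : HPT × (ℕ → unitInterval) | ∃ n, a < n ∧ Reg c₀ p.1 (p.1.walk p.2) n} =
        ⋃ n : ℕ, ⋃ _ : a < n, {p | Reg c₀ p.1 (p.1.walk p.2) n} := by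
      ext p
      simp
    rw [h1]
    exact MeasurableSet.iUnion fun n => MeasurableSet.iUnion fun _ => reg_meas c₀ n
  · intro n hn x
    refine (some_reg hT hD hv c₀ n x).trans (measure_mono ?_)
    rintro p ⟨⟨k, hk, hr⟩, hx⟩
    exact ⟨⟨k, lt_of_le_of_lt hn hk, hr⟩, hx⟩

end Pool.Agent.Spd
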