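import Pool.Agent.Spd.Defs

/-!
(Part `G08a`: `levy_cell`.  The text below is the common header of the parts.)

# SPD G08: there are infinitely many regeneration times

* `levy_cell` (abstract): `F n` = sigma-algebra generated by `h n` (increasing by `hr`), `A` belongs to
  `⨆ F n`.  `E[1_A | F n] ≥ c` a.e. for `n ≥ a` (`F n` is generated by the countable partition
  `{h n = x}`: check the integrals over the cells), and `E[1_A | F n] → E[1_A | ⨆ F n] = 1_A` a.e.
  (`MeasureTheory.tendsto_ae_condExp`), so `1_A ≥ c > 0` a.e.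
  (Or without conditional expectations: `A` is approximated in measure by a set `Z` of the algebra
  `⋃ F n`; `P(A ∩ Zᶜ) ≥ c P(Zᶜ)` for `Z ∈ F n`, `n ≥ a`, by summation over the cells contained in `Zᶜ`;
  `P(A ∩ Zᶜ) → 0`, `P(Zᶜ) → P(Aᶜ)`.)
* `hist_refine`: `hist c₀ p.1 p.2 n` is a function of `hist c₀ p.1 p.2 (n + 1)`: `hist_sim_of_eq`,
  `HSim.hist_eq`; choose representatives.
* `inf_reg`: for fixed `a` let `A = {∃ n > a, Reg n}`; `Reg n = ⋂ m ≥ n, {Cand n m}` (`reg_iff_cand`), and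
  `{Cand n m}` is a union of cells `{hist m = h}` (`cand_histfun`), so `A ∈ ⨆ F n`.  For `m ≥ a`:
  `P(A ∩ {hist m = h}) ≥ P({∃ n > m, Reg n} ∩ {hist m = h}) ≥ c P{hist m = h}` (`some_reg`), `c > 0`.
-/

namespace Pool.Agent.Spd

open MeasureTheory

private theorem exists_factor {Ω X : Type*} (h : ℕ → Ω → X)
    (hr : ∀ n, ∃ g : X → X, ∀ ω, h n ω = g (h (n + 1) ω)) {n m : ℕ} (hnm : n ≤ m) :
    ∃ g : X → X, ∀ ω, h n ω = g (h m ω) := by
  induction m, hnm using Nat.le_induction with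
  | base => exact ⟨id, fun _ => rfl⟩
  | succ m _ ih =>
    obtain ⟨g, hg⟩ := ih
    obtain ⟨g', hg'⟩ := hr m
    exact ⟨g ∘ g', fun ω => by rw [hg, hg', Function.comp]⟩

/-- The events that depend on `h n` for some `n ≥ a`. -/
private def cylC {Ω X : Type*} (h : ℕ → Ω → X) (a : ℕ) : Set (Set Ω) :=
  {Z | ∃ n, a ≤ n ∧ ∃ B : Set X, h n ⁻¹' B = Z}

private theorem cylC_common {Ω X : Type*} {h : ℕ → Ω → X}
    (hr : ∀ n, ∃ g : X → X, ∀ ω, h n ω = g (h (n + 1) ω)) {a : ℕ} {Z W : Set Ω}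
    (hZ : Z ∈ cylC h a) (hW : W ∈ cylC h a) :
    ∃ n, a ≤ n ∧ ∃ B B' : Set X, h n ⁻¹' B = Z ∧ h n ⁻¹' B' = W := by
  obtain ⟨n, hn, B, rfl⟩ := hZ
  obtain ⟨m, hm, B', rfl⟩ := hW
  obtain ⟨g, hg⟩ := exists_factor h hr (le_max_left n m)
  obtain ⟨g', hg'⟩ := exists_factor h hr (le_max_right n m)
  refine ⟨max n m, hn.trans (le_max_left _ _), g ⁻¹' B, g' ⁻¹' B', ?_, ?_⟩
  · ext ω
    simp only [Set.mem_preimage, hg]
  · ext ω
    simp only [Set.mem_preimage, hg']

private theorem cylC_ring {Ω X : Type*} {h : ℕ → Ω → X}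
    (hr : ∀ n, ∃ g : X → X, ∀ ω, h n ω = g (h (n + 1) ω)) (a : ℕ) : IsSetRing (cylC h a) where
  empty_mem := ⟨a, le_rfl, ∅, rfl⟩
  union_mem := by
    intro s t hs ht
    obtain ⟨n, hn, B, B', rfl, rfl⟩ := cylC_common hr hs ht
    exact ⟨n, hn, B ∪ B', rfl⟩
  sdiff_mem := by
    intro s t hs ht
    obtain ⟨n, hn, B, B', rfl, rfl⟩ := cylC_common hr hs ht
    exact ⟨n, hn, B \ B', rfl⟩

private theorem cylC_gen {Ω : Type*} {X : Type*} [mX : MeasurableSpace X]
    [DiscreteMeasurableSpace X] {h : ℕ → Ω → X}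
    (hr : ∀ n, ∃ g : X → X, ∀ ω, h n ω = g (h (n + 1) ω)) (a : ℕ) :
    (⨆ n, MeasurableSpace.comap (h n) mX) = MeasurableSpace.generateFrom (cylC h a) := by
  refine le_antisymm (iSup_le fun n => ?_) (MeasurableSpace.generateFrom_le ?_)
  · rintro Z ⟨B, -, rfl⟩
    obtain ⟨g, hg⟩ := exists_factor h hr (le_max_left n a)
    refine MeasurableSpace.measurableSet_generateFrom ⟨max n a, le_max_right _ _, g ⁻¹' B, ?_⟩
    ext ω
    simp only [Set.mem_preimage, hg]
  · rintro Z ⟨n, -, B, rfl⟩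
    exact (le_iSup (fun n => MeasurableSpace.comap (h n) mX) n) _
      ⟨B, MeasurableSet.of_discrete, rfl⟩

theorem levy_cell {Ω : Type*} [mΩ : MeasurableSpace Ω] {P : Measure Ω} [IsProbabilityMeasure P]
    {X : Type*} [Countable X] [mX : MeasurableSpace X] [DiscreteMeasurableSpace X]
    (h : ℕ → Ω → X) (hm : ∀ n, Measurable (h n))
    (hr : ∀ n, ∃ g : X → X, ∀ ω, h n ω = g (h (n + 1) ω)) {A : Set Ω}
    (hA : MeasurableSet[⨆ n, MeasurableSpace.comap (h n) mX] A) {c : ENNReal} (hc : 0 < c)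
    (a : ℕ) (hcell : ∀ n, a ≤ n → ∀ x, c * P {ω | h n ω = x} ≤ P (A ∩ {ω | h n ω = x})) :
    P Aᶜ = 0 := by
  have hle : (⨆ n, MeasurableSpace.comap (h n) mX) ≤ mΩ := iSup_le fun n => (hm n).comap_le
  have hAm : MeasurableSet A := hle _ hA
  have hcm : ∀ n x, MeasurableSet {ω | h n ω = x} := fun n x =>
    hm n (MeasurableSet.of_discrete (s := {x}))
  -- the inequality for the events of `cylC`
  have hcyl : ∀ Z ∈ cylC h a, c * P Z ≤ P (A ∩ Z) := by
    rintro Z ⟨n, hn, B, rfl⟩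
    have h1 : h n ⁻¹' B = ⋃ x ∈ B, {ω | h n ω = x} := by
      ext ω
      simp
    have hd : B.PairwiseDisjoint fun x => {ω | h n ω = x} := by
      intro x _ y _ hxy
      refine Set.disjoint_left.2 fun ω h2 h3 => hxy ?_
      rw [← (h2 : h n ω = x), ← (h3 : h n ω = y)]
    have h2 : P (h n ⁻¹' B) = ∑' x : B, P {ω | h n ω = x} := by
      rw [h1, measure_biUnion B.to_countable hd fun x _ => hcm n x]
    have h3 : P (A ∩ h n ⁻¹' B) = ∑' x : B, P (A ∩ {ω | h n ω = x}) := by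
      rw [h1, Set.inter_iUnion₂, measure_biUnion B.to_countable
        (fun x hx y hy hxy => (hd hx hy hxy).mono Set.inter_subset_right Set.inter_subset_right)
        fun x _ => hAm.inter (hcm n x)]
    rw [h2, h3, ← ENNReal.tsum_mul_left]
    exact ENNReal.tsum_le_tsum fun x => hcell n hn x
  have hmin : 0 < min c 1 := lt_min hc one_pos
  have hkey : ∀ ε : ENNReal, 0 < ε → min c 1 * P Aᶜ ≤ ε + ε := by
    intro ε hε
    have happ := exists_measure_symmDiff_lt_of_generateFrom_isSetRing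
      (mα := ⨆ n, MeasurableSpace.comap (h n) mX) (μ := P.trim hle) (cylC_ring hr a)
      ⟨{Set.univ}, Set.countable_singleton _,
        Set.singleton_subset_iff.2 ⟨a, le_rfl, Set.univ, rfl⟩, by simp⟩ (cylC_gen hr a)
      hA.compl hε
    obtain ⟨t, ht, htε⟩ := happ
    have htm : MeasurableSet[⨆ n, MeasurableSpace.comap (h n) mX] t := by
      rw [cylC_gen hr a]
      exact MeasurableSpace.measurableSet_generateFrom ht
    rw [trim_measurableSet_eq hle (MeasurableSet.symmDiff htm hA.compl)] at htε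
    have h1 : P (A ∩ t) ≤ ε := by
      refine (measure_mono fun ω hω => ?_).trans htε.le
      exact Or.inl ⟨hω.2, fun h => h hω.1⟩
    have h2 : P (Aᶜ \ t) ≤ ε := by
      refine (measure_mono fun ω hω => ?_).trans htε.le
      exact Or.inr hω
    calc min c 1 * P Aᶜ ≤ min c 1 * (P t + P (Aᶜ \ t)) := by
          gcongr
          refine (measure_mono fun ω hω => ?_).trans (measure_union_le _ _)
          by_cases hωt : ω ∈ t
          · exact Or.inl hωt
          · exact Or.inr ⟨hω, hωt⟩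
      _ = min c 1 * P t + min c 1 * P (Aᶜ \ t) := mul_add _ _ _
      _ ≤ c * P t + 1 * P (Aᶜ \ t) := by
          gcongr
          · exact min_le_left _ _
          · exact min_le_right _ _
      _ ≤ ε + ε := by
          rw [one_mul]
          exact add_le_add ((hcyl t ht).trans h1) h2
  have h0 : min c 1 * P Aᶜ = 0 := by
    by_contra hne
    have hpos : 0 < min c 1 * P Aᶜ := pos_iff_ne_zero.2 hne
    have hlt : min c 1 * P Aᶜ < ⊤ := by
      refine ENNReal.mul_lt_top ?_ (measure_lt_top _ _)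
      exact lt_of_le_of_lt (min_le_right _ _) ENNReal.one_lt_top
    have h1 := hkey (min c 1 * P Aᶜ / 4) (ENNReal.div_pos hpos.ne' (by simp))
    rw [← ENNReal.add_div, ← two_mul, show (4 : ENNReal) = 2 * 2 by norm_num,
      ENNReal.mul_div_mul_left _ _ two_ne_zero ENNReal.ofNat_ne_top] at h1
    exact absurd h1 (not_le.2 (ENNReal.half_lt_self hpos.ne' hlt.ne))
  exact (mul_eq_zero.1 h0).resolve_left hmin.ne'

end Pool.Agent.Spd
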