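import Pool.Agent.Spd.G08

/-!
(Part `G09b`: `lint_seen`.  The text below is the common header of the parts.)

# SPD G09: the number of pioneers in a slab has finite mean under the renewal law

`c₀ = []`, `w = H.walk U`.

* `slab_seen`: if `Reg n` and `n' > n` is the next regeneration time, then
  `slabK (seen [] p n) = card (pios [] H w n n')`: `fstT (seen [] p n) = n' - n` (`reg_seen`),
  `pio_seen`.
* `slab_sum`: the regeneration times `n < N` with `firstk 1 k n`: the intervals `[n, n')` are disjoint;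
  for all of them but the last one `n'` is again such a time, so their pioneers are among the first `k`
  pioneers `≥ 1`: the sum of `slabK` over them is at most `k` (`card_firstk_le`); the last one
  contributes at most `M`.
* `lint_seen`: `∫⁻_{Φ ∧ Stays n} f (seen n) = P(Φ ∧ Stays n) ∫⁻ f dν` if `Φ` is a function of the history at
  time `n` and implies `Pio n`, `expD n = 1`: by `seen_law_sum` the measures
  `(P.restrict (Φ ∧ Stays n)).map (seen n)` and `P(Φ) • mD μ 1` are equal, `mD μ 1 = pReg • ν`, and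
  `P(Φ ∧ Stays n) = P(Φ) pReg`.
* `expl_one`: `expl [] H w 1 = 1 + starVol H`: time `0` is a pioneer time with `regAt = H`
  (`w 0 = inv (bd (-1)) ~ bd 0`), `reg 1 = H.star`.
* `lint_slabK`: let `q k = ∑' n, P(firstk 1 k n ∧ Reg n)`.  `slab_sum` integrated (`lint_seen` with
  `f = min slabK M`, `Φ = firstk 1 k n ∧ expD n = 1`): `q k * ∫⁻ min slabK M dν ≤ k + M`.  By `freq` with `a = 1`,
  `Φ₀ = True`: `cR k ≤ q (k+1) + C`, `cR = μ special * pReg * (4 + v)⁻¹`, `C < ⊤` (if `firstk 1 k n` and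
  `Reg (n+1)` then `firstk 1 (k+1) (n+1)`).  So `(cR k - C) ∫⁻ min slabK M dν ≤ k + 1 + M`; divide by `k`,
  `k → ∞`: `cR ∫⁻ min slabK M dν ≤ 1`; then `M → ∞`.
-/

namespace Pool.Agent.Spd

open MeasureTheory HPT

theorem lint_seen {μ : Measure HPT} [IsProbabilityMeasure μ] (hT : TransInv μ)
    (hD : DomMarkov μ) (hp : 0 < pReg μ) (c₀ : List ℤ) (n : ℕ)
    (Φ : HPT × (ℕ → unitInterval) → Prop)
    (hΦ : ∀ p p' : HPT × (ℕ → unitInterval), hist c₀ p.1 p.2 n = hist c₀ p'.1 p'.2 n →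
      (Φ p ↔ Φ p'))
    (hh : ∀ p, Φ p → Pio c₀ p.1 (p.1.walk p.2) n ∧ expD c₀ p.1 (p.1.walk p.2) n = 1)
    {f : Sp → ENNReal} (hf : Measurable f) :
    ∫⁻ p in {p | Φ p ∧ Stays c₀ p.1 (p.1.walk p.2) n}, f (seen c₀ p n) ∂(μ.prod unif) =
      (μ.prod unif) {p | Φ p ∧ Stays c₀ p.1 (p.1.walk p.2) n} * ∫⁻ z, f z ∂(nu μ) := by
  have hseen : Measurable (fun p : HPT × (ℕ → unitInterval) => seen c₀ p n) :=
    measurable_seen c₀ n
  have hA : MeasurableSet {p : HPT × (ℕ → unitInterval) |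
      Φ p ∧ Stays c₀ p.1 (p.1.walk p.2) n} :=
    (measurableSet_histfun c₀ n Φ hΦ).inter (measurableSet_stays c₀ n)
  have hlaw : ∀ C : Set Sp, MeasurableSet C →
      (μ.prod unif) {p | Φ p ∧ Stays c₀ p.1 (p.1.walk p.2) n ∧ seen c₀ p n ∈ C} =
        (μ.prod unif) {p | Φ p} * mD μ 1 C := fun C hC =>
    seen_law_sum hT hD c₀ n 1 Φ hΦ hh hC
  have huniv : (μ.prod unif) {p | Φ p ∧ Stays c₀ p.1 (p.1.walk p.2) n} =
      (μ.prod unif) {p | Φ p} * pReg μ := by
    have h1 := hlaw Set.univ MeasurableSet.univ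
    simpa only [Set.mem_univ, and_true, pReg] using h1
  have hp0 : pReg μ ≠ 0 := hp.ne'
  have hpt : pReg μ ≠ ⊤ := ((pReg_le_one μ).trans_lt ENNReal.one_lt_top).ne
  have hmap : ((μ.prod unif).restrict {p | Φ p ∧ Stays c₀ p.1 (p.1.walk p.2) n}).map
      (fun p => seen c₀ p n) =
      (μ.prod unif) {p | Φ p ∧ Stays c₀ p.1 (p.1.walk p.2) n} • nu μ := by
    refine Measure.ext fun C hC => ?_
    rw [Measure.map_apply hseen hC, Measure.restrict_apply (hseen hC), Measure.smul_apply,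
      smul_eq_mul, huniv]
    have h2 : (fun p : HPT × (ℕ → unitInterval) => seen c₀ p n) ⁻¹' C ∩
        {p | Φ p ∧ Stays c₀ p.1 (p.1.walk p.2) n} =
        {p | Φ p ∧ Stays c₀ p.1 (p.1.walk p.2) n ∧ seen c₀ p n ∈ C} := by
      ext p
      change (seen c₀ p n ∈ C ∧ Φ p ∧ Stays c₀ p.1 (p.1.walk p.2) n) ↔
        (Φ p ∧ Stays c₀ p.1 (p.1.walk p.2) n ∧ seen c₀ p n ∈ C)
      tauto
    rw [h2, hlaw C hC]
    have h3 : nu μ C = (pReg μ)⁻¹ * mD μ 1 C := by
      unfold nu pReg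
      rw [Measure.smul_apply, smul_eq_mul]
    rw [h3, mul_assoc, ← mul_assoc (pReg μ), ENNReal.mul_inv_cancel hp0 hpt, one_mul]
  rw [← lintegral_map (μ := (μ.prod unif).restrict
    {p | Φ p ∧ Stays c₀ p.1 (p.1.walk p.2) n}) hf hseen, hmap, lintegral_smul_measure,
    smul_eq_mul]

end Pool.Agent.Spd
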