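import Pool.Agent.Spd.G09a
import Pool.Agent.Spd.G09b

/-!
(Part `G09c`: `expl_one`, `lint_slabK`.  The text below is the common header of the parts.)

# SPD G09: the number of pioneers in a slab has finite mean under the renewal law

`c₀ = []`, `w = H.walk U`.

* `slab_seen`: if `Reg n` and `n' > n` is the next regeneration time, then
  `slabK (seen [] p n) = card (pios [] H w n n')`: `fstT (seen [] p n) = n' - n` (`reg_seen`),
  `pio_seen`.
* `slab_sum`: the regeneration times `n < N` with `firstk 1 k n`: the intervals `[n, n')` are disjoint;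
  for all of them but the last one `n'` is again such a time, so their pioneers are among the first `k`
  pioneers `≥ 1`: the sum of `slabK` over them is at most `k` (`card_firstk_le`); the last one
  contributes at most `M`.
* `lint_seen`: `∫⁻_{Φ ∧ Stays n} f (seen n) = P(Φ ∧ Stays n) ∫⁻ f dν` if `Φ` is a function of the history at
  time `n` and implies `Pio n`, `expD n = 1`: by `seen_law_sum` the measures
  `(P.restrict (Φ ∧ Stays n)).map (seen n)` and `P(Φ) • mD μ 1` are equal, `mD μ 1 = pReg • ν`, and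
  `P(Φ ∧ Stays n) = P(Φ) pReg`.
* `expl_one`: `expl [] H w 1 = 1 + starVol H`: time `0` is a pioneer time with `regAt = H`
  (`w 0 = inv (bd (-1)) ~ bd 0`), `reg 1 = H.star`.
* `lint_slabK`: let `q k = ∑' n, P(firstk 1 k n ∧ Reg n)`.  `slab_sum` integrated (`lint_seen` with
  `f = min slabK M`, `Φ = firstk 1 k n ∧ expD n = 1`): `q k * ∫⁻ min slabK M dν ≤ k + M`.  By `freq` with `a = 1`,
  `Φ₀ = True`: `cR k ≤ q (k+1) + C`, `cR = μ special * pReg * (4 + v)⁻¹`, `C < ⊤` (if `firstk 1 k n` and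
  `Reg (n+1)` then `firstk 1 (k+1) (n+1)`).  So `(cR k - C) ∫⁻ min slabK M dν ≤ k + 1 + M`; divide by `k`,
  `k → ∞`: `cR ∫⁻ min slabK M dν ≤ 1`; then `M → ∞`.
-/

namespace Pool.Agent.Spd

open MeasureTheory HPT

private theorem g09c_samev (H : HPT) : H.M.SameV (H.M.bd 0) (H.M.inv (H.M.bd (-1))) := by
  refine ⟨1, ?_⟩
  have h := H.ok.fc_outer 0
  simpa [PreMap.rot] using h

theorem expl_one (H : HPT) (U : ℕ → unitInterval) :
    expl [] H (H.walk U) 1 = 1 + H.starVol := by
  have hp : Pio [] H (H.walk U) 0 := ⟨0, g09c_samev H⟩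
  have hi : pidx [] H (H.walk U) 0 = 0 := by
    have h1 : H.M.SameV (H.M.bd (pidx [] H (H.walk U) 0)) (H.M.inv (H.M.bd (-1))) := by
      unfold pidx
      rw [dif_pos hp]
      exact hp.choose_spec
    exact H.ok.simple _ _ (H.ok.sameV_trans h1
      (H.ok.sameV_symm (H.ok.bd_mem _) (g09c_samev H)))
  have hr : regAt [] H (H.walk U) 0 = H := by
    unfold regAt
    rw [hi]
    exact shift_zero _
  have hpios : pios [] H (H.walk U) 0 1 = {0} := by
    ext m
    simp only [pios, Finset.mem_filter, Finset.mem_Ico, Finset.mem_singleton]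
    constructor
    · rintro ⟨⟨_, h⟩, _⟩
      omega
    · rintro rfl
      exact ⟨⟨le_rfl, Nat.one_pos⟩, hp⟩
  have hv := vol_add (c₀ := []) (H := H) (w := H.walk U) (Nat.zero_le 1)
  have he : {d | H.M.Inner d ∧ ¬ (reg [] H (H.walk U) 0).M.Inner d} = ∅ := by
    ext d
    simp only [Set.mem_ofPred_eq, Set.mem_empty_iff_false, iff_false, not_and, not_not]
    exact fun h => h
  unfold expl
  rw [hv, hpios, Finset.sum_singleton, Finset.card_singleton, hr, he, Set.ncard_empty, zero_add]

private theorem g09c_sum_lint {Ω : Type*} [MeasurableSpace Ω] (P : Measure Ω) (g : ℕ → Ω → ENNReal)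
    (N : ℕ) : ∑ n ∈ Finset.range N, ∫⁻ p, g n p ∂P ≤
      ∫⁻ p, ∑ n ∈ Finset.range N, g n p ∂P := by
  induction N with
  | zero => simp
  | succ N ih =>
    simp only [Finset.sum_range_succ]
    exact (add_le_add ih le_rfl).trans (le_lintegral_add _ _)

private theorem g09c_arith {x B : ENNReal} (hB : B ≠ ⊤) (h : ∀ k : ℕ, x * k ≤ k + B) : x ≤ 1 := by
  by_contra hx
  rw [not_le] at hx
  have hd : x - 1 ≠ 0 := (tsub_pos_of_lt hx).ne'
  obtain ⟨n, hn⟩ := ENNReal.exists_nat_mul_gt hd hB
  have h1 : (n : ENNReal) + n * (x - 1) ≤ n + B := by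
    refine le_trans (le_of_eq ?_) (h n)
    rw [mul_comm x, ← mul_one (n : ENNReal), mul_assoc, one_mul, ← mul_add, mul_one,
      add_tsub_cancel_of_le hx.le]
  exact absurd h1 (not_le.2 (ENNReal.add_lt_add_left (ENNReal.natCast_ne_top n) hn))

theorem lint_slabK {μ : Measure HPT} [IsProbabilityMeasure μ] (hT : TransInv μ)
    (hD : DomMarkov μ) (hv : vStar μ < ⊤) (hs : 0 < μ {G | special G}) (hp : 0 < pReg μ) :
    ∫⁻ z, (slabK z : ENNReal) ∂(nu μ) < ⊤ := by
  classical
  have : IsProbabilityMeasure unif := by unfold unif; infer_instance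
  have hpt : pReg μ ≠ ⊤ := ((pReg_le_one μ).trans_lt ENNReal.one_lt_top).ne
  have hst : μ {G | special G} ≠ ⊤ := measure_ne_top _ _
  have h4t : 4 + vStar μ ≠ ⊤ := ENNReal.add_ne_top.2 ⟨by simp, hv.ne⟩
  have h40 : 4 + vStar μ ≠ 0 := by simp
  set cR : ENNReal := μ {G | special G} * pReg μ * (4 + vStar μ)⁻¹ with hcR
  have hcR0 : cR ≠ 0 := by
    rw [hcR]
    exact mul_ne_zero (mul_ne_zero hs.ne' hp.ne') (ENNReal.inv_ne_zero.2 h4t)
  -- the events
  let S : ℕ → ℕ → Set (HPT × (ℕ → unitInterval)) := fun k n =>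
    {p | firstk [] p.1 (p.1.walk p.2) 1 k n ∧ Reg [] p.1 (p.1.walk p.2) n}
  have hSm : ∀ k n, MeasurableSet (S k n) := fun k n =>
    (measurableSet_histfun [] n _ (firstk_histfun [] 1 k n)).inter (measurableSet_reg [] n)
  let f : ℕ → Sp → ENNReal := fun M z => ((min (slabK z) M : ℕ) : ENNReal)
  have hfm : ∀ M, Measurable (f M) := fun M =>
    (Measurable.of_discrete (f := fun x : ℕ => ((min x M : ℕ) : ENNReal))).comp measurable_slabK
  have hseen : ∀ k n M, ∫⁻ p in S k n, f M (seen [] p n) ∂(μ.prod unif) =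
      (μ.prod unif) (S k n) * ∫⁻ z, f M z ∂(nu μ) := by
    intro k n M
    have h1 := lint_seen hT hD hp [] n
      (fun p => firstk [] p.1 (p.1.walk p.2) 1 k n ∧ expD [] p.1 (p.1.walk p.2) n = 1)
      (fun p p' h => by
        rw [firstk_histfun [] 1 k n p p' h, expD_histfun [] le_rfl p p' h])
      (fun p h => ⟨h.1.2.1, h.2⟩) (hfm M)
    have hset : {p : HPT × (ℕ → unitInterval) |
        (firstk [] p.1 (p.1.walk p.2) 1 k n ∧ expD [] p.1 (p.1.walk p.2) n = 1) ∧
          Stays [] p.1 (p.1.walk p.2) n} = S k n := by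
      ext p
      constructor
      · rintro ⟨⟨h2, h3⟩, h4⟩
        exact ⟨h2, h2.1, h4, h3⟩
      · rintro ⟨h2, _, h4, h3⟩
        exact ⟨⟨h2, h3⟩, h4⟩
    rw [hset] at h1
    exact h1
  have hsum : ∀ k M : ℕ, (∑' n, (μ.prod unif) (S k n)) * ∫⁻ z, f M z ∂(nu μ) ≤ k + M := by
    intro k M
    rw [← ENNReal.tsum_mul_right, ENNReal.tsum_eq_iSup_nat]
    refine iSup_le fun N => ?_
    calc ∑ n ∈ Finset.range N, (μ.prod unif) (S k n) * ∫⁻ z, f M z ∂(nu μ)
        = ∑ n ∈ Finset.range N, ∫⁻ p,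
            (S k n).indicator (fun p => f M (seen [] p n)) p ∂(μ.prod unif) := by
          refine Finset.sum_congr rfl fun n _ => ?_
          rw [← hseen, lintegral_indicator (hSm k n)]
      _ ≤ ∫⁻ p, ∑ n ∈ Finset.range N,
            (S k n).indicator (fun p => f M (seen [] p n)) p ∂(μ.prod unif) :=
          g09c_sum_lint _ _ N
      _ ≤ ∫⁻ _, ((k + M : ℕ) : ENNReal) ∂(μ.prod unif) := by
          refine lintegral_mono_ae ?_
          filter_upwards [inf_reg hT hD hv hs hp []] with p hinf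
          have h1 := slab_sum hinf k M N
          refine le_trans (le_of_eq ?_) (Nat.cast_le.2 h1)
          rw [Nat.cast_sum, Finset.sum_filter]
          refine Finset.sum_congr rfl fun n _ => ?_
          by_cases hn : firstk [] p.1 (p.1.walk p.2) 1 k n ∧ Reg [] p.1 (p.1.walk p.2) n
          · have hn' : p ∈ S k n := hn
            rw [Set.indicator_of_mem hn', if_pos hn]
          · have hn' : p ∉ S k n := hn
            rw [Set.indicator_of_notMem hn', if_neg hn]
      _ = k + M := by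
          rw [lintegral_const, measure_univ, mul_one, Nat.cast_add]
  -- the frequency
  set C : ENNReal := μ {G | special G} * pReg μ * ((4 + vStar μ)⁻¹) ^ 2 * (1 + vStar μ) with hC
  have hCt : C ≠ ⊤ := by
    rw [hC]
    refine ENNReal.mul_ne_top (ENNReal.mul_ne_top (ENNReal.mul_ne_top hst hpt) ?_) ?_
    · exact ENNReal.pow_ne_top (ENNReal.inv_ne_top.2 h40)
    · exact ENNReal.add_ne_top.2 ⟨ENNReal.one_ne_top, hv.ne⟩
  have hfreq : ∀ k : ℕ, cR * k ≤ (∑' n, (μ.prod unif) (S (k + 1) n)) + C := by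
    intro k
    have h1 := freq hT hD hv [] 1 k (fun _ => True) (fun _ _ _ => Iff.rfl)
    have h2 : (μ.prod unif) {_p : HPT × (ℕ → unitInterval) | True} = 1 := by
      rw [Set.ofPred_true, measure_univ]
    have h3 : ∫⁻ p in {_p : HPT × (ℕ → unitInterval) | True},
        (expl [] p.1 (p.1.walk p.2) 1 : ENNReal) ∂(μ.prod unif) = 1 + vStar μ := by
      rw [Set.ofPred_true, setLIntegral_univ]
      have h4 : ∀ p : HPT × (ℕ → unitInterval), (expl [] p.1 (p.1.walk p.2) 1 : ENNReal) =
          1 + (p.1.starVol : ENNReal) := by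
        intro p
        rw [expl_one, Nat.cast_add, Nat.cast_one]
      simp only [h4]
      have h5 : Measurable (fun H : HPT => (1 + (H.starVol : ENNReal))) :=
        measurable_const.add ((Measurable.of_discrete (f := fun x : ℕ => (x : ENNReal))).comp
          measurable_starVol)
      rw [lintegral_prod (fun p : HPT × (ℕ → unitInterval) => 1 + (p.1.starVol : ENNReal))
        (h5.comp measurable_fst).aemeasurable]
      simp only [lintegral_const, measure_univ, mul_one]
      rw [lintegral_add_left measurable_const, lintegral_const, measure_univ, mul_one]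
      rfl
    rw [h2, mul_one, h3] at h1
    refine h1.trans (add_le_add ?_ le_rfl)
    refine le_trans ?_ (ENNReal.tsum_comp_le_tsum_of_injective (Nat.succ_injective)
      (fun n => (μ.prod unif) (S (k + 1) n)))
    refine ENNReal.tsum_le_tsum fun n => measure_mono ?_
    rintro p ⟨_, ⟨h4, h5, h6⟩, h7⟩
    refine ⟨⟨by omega, h7.2.1.1, ?_⟩, h7⟩
    have h8 : pios [] p.1 (p.1.walk p.2) 1 (n + 1) ⊆
        insert n (pios [] p.1 (p.1.walk p.2) 1 n) := by
      intro m hm
      simp only [pios, Finset.mem_filter, Finset.mem_Ico, Finset.mem_insert] at hm ⊢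
      rcases Nat.lt_or_ge m n with h9 | h9
      · exact Or.inr ⟨⟨hm.1.1, h9⟩, hm.2⟩
      · exact Or.inl (by omega)
    have h9 := (Finset.card_le_card h8).trans (Finset.card_insert_le _ _)
    change (pios [] p.1 (p.1.walk p.2) 1 (n + 1)).card < k + 1
    omega
  -- the bound for the truncated integrals
  have hI : ∀ M : ℕ, ∫⁻ z, f M z ∂(nu μ) ≤ cR⁻¹ := by
    intro M
    have hIM : ∫⁻ z, f M z ∂(nu μ) ≤ M := by
      calc ∫⁻ z, f M z ∂(nu μ) ≤ ∫⁻ _, (M : ENNReal) ∂(nu μ) :=
            lintegral_mono fun z => Nat.cast_le.2 (min_le_right _ _)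
        _ = M * (nu μ) Set.univ := lintegral_const _
        _ ≤ M * 1 := by
            refine mul_le_mul_right ?_ _
            unfold nu
            rw [Measure.smul_apply, smul_eq_mul]
            exact (ENNReal.inv_mul_cancel hp.ne' hpt).le
        _ = M := mul_one _
    have hx : cR * ∫⁻ z, f M z ∂(nu μ) ≤ 1 := by
      refine g09c_arith (B := 1 + M + C * M) ?_ ?_
      · exact ENNReal.add_ne_top.2 ⟨ENNReal.add_ne_top.2 ⟨ENNReal.one_ne_top,
          ENNReal.natCast_ne_top M⟩, ENNReal.mul_ne_top hCt (ENNReal.natCast_ne_top M)⟩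
      · intro k
        calc cR * (∫⁻ z, f M z ∂(nu μ)) * k = cR * k * ∫⁻ z, f M z ∂(nu μ) := by ring
          _ ≤ ((∑' n, (μ.prod unif) (S (k + 1) n)) + C) * ∫⁻ z, f M z ∂(nu μ) :=
              mul_le_mul_left (hfreq k) _
          _ = (∑' n, (μ.prod unif) (S (k + 1) n)) * ∫⁻ z, f M z ∂(nu μ) +
                C * ∫⁻ z, f M z ∂(nu μ) := add_mul _ _ _
          _ ≤ ((k + 1 : ℕ) + M) + C * M :=
              add_le_add (hsum (k + 1) M) (mul_le_mul_right hIM _)
          _ = k + (1 + M + C * M) := by push_cast; ring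
    rw [ENNReal.le_inv_iff_mul_le, mul_comm]
    exact hx
  have hlim : ∫⁻ z, (slabK z : ENNReal) ∂(nu μ) = ⨆ M : ℕ, ∫⁻ z, f M z ∂(nu μ) := by
    rw [← lintegral_iSup hfm ?_]
    · refine lintegral_congr fun z => le_antisymm ?_ (iSup_le fun M => ?_)
      · refine le_iSup_of_le (slabK z) ?_
        simp [f]
      · exact Nat.cast_le.2 (min_le_left _ _)
    · intro M M' hM z
      exact Nat.cast_le.2 (min_le_min_left _ hM)
  rw [hlim]
  exact (iSup_le hI).trans_lt (ENNReal.inv_lt_top.2 (pos_iff_ne_zero.2 hcR0))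

end Pool.Agent.Spd
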