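import Pool.Agent.Spd.G09a
import Pool.Agent.Spd.G09b
import Pool.Agent.Spd.G09c

/-!
# SPD: module `G09` (only imports)
-/
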