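import Pool.Agent.Spd.G08

/-!
(Part `G09a`: `slab_seen`, `slab_sum`.  The text below is the common header of the parts.)

# SPD G09: the number of pioneers in a slab has finite mean under the renewal law

`c₀ = []`, `w = H.walk U`.

* `slab_seen`: if `Reg n` and `n' > n` is the next regeneration time, then
  `slabK (seen [] p n) = card (pios [] H w n n')`: `fstT (seen [] p n) = n' - n` (`reg_seen`),
  `pio_seen`.
* `slab_sum`: the regeneration times `n < N` with `firstk 1 k n`: the intervals `[n, n')` are disjoint;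
  for all of them but the last one `n'` is again such a time, so their pioneers are among the first `k`
  pioneers `≥ 1`: the sum of `slabK` over them is at most `k` (`card_firstk_le`); the last one
  contributes at most `M`.
* `lint_seen`: `∫⁻_{Φ ∧ Stays n} f (seen n) = P(Φ ∧ Stays n) ∫⁻ f dν` if `Φ` is a function of the history at
  time `n` and implies `Pio n`, `expD n = 1`: by `seen_law_sum` the measures
  `(P.restrict (Φ ∧ Stays n)).map (seen n)` and `P(Φ) • mD μ 1` are equal, `mD μ 1 = pReg • ν`, and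
  `P(Φ ∧ Stays n) = P(Φ) pReg`.
* `expl_one`: `expl [] H w 1 = 1 + starVol H`: time `0` is a pioneer time with `regAt = H`
  (`w 0 = inv (bd (-1)) ~ bd 0`), `reg 1 = H.star`.
* `lint_slabK`: let `q k = ∑' n, P(firstk 1 k n ∧ Reg n)`.  `slab_sum` integrated (`lint_seen` with
  `f = min slabK M`, `Φ = firstk 1 k n ∧ expD n = 1`): `q k * ∫⁻ min slabK M dν ≤ k + M`.  By `freq` with `a = 1`,
  `Φ₀ = True`: `cR k ≤ q (k+1) + C`, `cR = μ special * pReg * (4 + v)⁻¹`, `C < ⊤` (if `firstk 1 k n` and
  `Reg (n+1)` then `firstk 1 (k+1) (n+1)`).  So `(cR k - C) ∫⁻ min slabK M dν ≤ k + 1 + M`; divide by `k`,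
  `k → ∞`: `cR ∫⁻ min slabK M dν ≤ 1`; then `M → ∞`.
-/

namespace Pool.Agent.Spd

open MeasureTheory HPT

theorem slab_seen {p : HPT × (ℕ → unitInterval)} {n n' : ℕ}
    (h : Reg [] p.1 (p.1.walk p.2) n) (h' : Reg [] p.1 (p.1.walk p.2) n') (hn : n < n')
    (hno : ∀ m, n < m → m < n' → ¬ Reg [] p.1 (p.1.walk p.2) m) :
    slabK (seen [] p n) = (pios [] p.1 (p.1.walk p.2) n n').card := by
  have hS : Stays [] p.1 (p.1.walk p.2) n := h.2.1
  have hfst : fstT (seen [] p n) = n' - n := by
    unfold fstT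
    refine le_antisymm (Nat.sInf_le ?_) (le_csInf ⟨n' - n, ?_⟩ ?_)
    · refine (reg_seen hS (by omega)).2 ?_
      rw [show n + (n' - n) = n' by omega]
      exact h'
    · refine (reg_seen hS (by omega)).2 ?_
      rw [show n + (n' - n) = n' by omega]
      exact h'
    · intro m hm
      have h1 : 1 ≤ m := hm.1
      have h2 := (reg_seen hS h1).1 hm
      by_contra h3
      exact hno (n + m) (by omega) (by omega) h2
  classical
  unfold slabK
  rw [hfst]
  unfold pios
  refine Finset.card_bij (fun m _ => n + m) ?_ ?_ ?_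
  · intro m hm
    rw [Finset.mem_filter, Finset.mem_Ico] at hm ⊢
    exact ⟨⟨by omega, by omega⟩, (pio_seen hS m).1 hm.2⟩
  · intro m _ m' _ hmm
    omega
  · intro m hm
    rw [Finset.mem_filter, Finset.mem_Ico] at hm
    refine ⟨m - n, ?_, by omega⟩
    rw [Finset.mem_filter, Finset.mem_Ico]
    refine ⟨⟨Nat.zero_le _, by omega⟩, (pio_seen hS (m - n)).2 ?_⟩
    rw [show n + (m - n) = m by omega]
    exact hm.2

open Classical in
theorem slab_sum {p : HPT × (ℕ → unitInterval)}
    (hinf : ∀ a, ∃ n, a < n ∧ Reg [] p.1 (p.1.walk p.2) n) (k M N : ℕ) :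
    ∑ n ∈ (Finset.range N).filter (fun n => firstk [] p.1 (p.1.walk p.2) 1 k n ∧
      Reg [] p.1 (p.1.walk p.2) n), min (slabK (seen [] p n)) M ≤ k + M := by
  let nx : ℕ → ℕ := fun n => Nat.find (hinf n)
  have nx1 : ∀ n, n < nx n ∧ Reg [] p.1 (p.1.walk p.2) (nx n) := fun n => Nat.find_spec (hinf n)
  have nx2 : ∀ n m, n < m → m < nx n → ¬ Reg [] p.1 (p.1.walk p.2) m := fun n m h1 h2 h3 =>
    Nat.find_min (hinf n) h2 ⟨h1, h3⟩
  have nx3 : ∀ n m, n < m → Reg [] p.1 (p.1.walk p.2) m → nx n ≤ m := fun n m h1 h3 =>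
    Nat.find_min' (hinf n) ⟨h1, h3⟩
  obtain ⟨S, hSdef⟩ : ∃ S : Finset ℕ, S = (Finset.range N).filter (fun n =>
    firstk [] p.1 (p.1.walk p.2) 1 k n ∧ Reg [] p.1 (p.1.walk p.2) n) := ⟨_, rfl⟩
  rw [← hSdef]
  have hSm : ∀ n, n ∈ S ↔ n < N ∧ firstk [] p.1 (p.1.walk p.2) 1 k n ∧
      Reg [] p.1 (p.1.walk p.2) n := by
    intro n
    rw [hSdef, Finset.mem_filter, Finset.mem_range]
  rcases S.eq_empty_or_nonempty with hS | hS
  · rw [hS, Finset.sum_empty]
    exact Nat.zero_le _
  · have hl : S.max' hS ∈ S := S.max'_mem hS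
    obtain ⟨l, hldef⟩ : ∃ l, l = S.max' hS := ⟨_, rfl⟩
    rw [← hldef] at hl
    have hlmax : ∀ n ∈ S, n ≤ l := by
      intro n hn
      rw [hldef]
      exact S.le_max' n hn
    rw [← Finset.add_sum_erase S _ hl]
    have h2 : ∑ x ∈ S.erase l, min (slabK (seen [] p x)) M ≤ k := by
      have e1 : ∑ x ∈ S.erase l, min (slabK (seen [] p x)) M ≤
          ∑ x ∈ S.erase l, (pios [] p.1 (p.1.walk p.2) x (nx x)).card := by
        refine Finset.sum_le_sum fun x hx => (min_le_left _ _).trans (le_of_eq ?_)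
        exact slab_seen ((hSm x).1 (Finset.mem_of_mem_erase hx)).2.2 (nx1 x).2 (nx1 x).1 (nx2 x)
      have e2 : ((S.erase l).biUnion fun x => pios [] p.1 (p.1.walk p.2) x (nx x)).card =
          ∑ x ∈ S.erase l, (pios [] p.1 (p.1.walk p.2) x (nx x)).card := by
        refine Finset.card_biUnion fun x hx y hy hxy => ?_
        have hx' := (hSm x).1 (Finset.mem_of_mem_erase hx)
        have hy' := (hSm y).1 (Finset.mem_of_mem_erase hy)
        refine Finset.disjoint_left.2 ?_
        intro m hm1 hm2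
        unfold pios at hm1 hm2
        rw [Finset.mem_filter, Finset.mem_Ico] at hm1 hm2
        rcases Nat.lt_or_gt_of_ne hxy with h3 | h3
        · have := nx3 x y h3 hy'.2.2
          omega
        · have := nx3 y x h3 hx'.2.2
          omega
      have e3 : ((S.erase l).biUnion fun x => pios [] p.1 (p.1.walk p.2) x (nx x)) ⊆
          (Finset.range N).filter (fun n => firstk [] p.1 (p.1.walk p.2) 1 k n) := by
        intro m hm
        obtain ⟨x, hx, hmx⟩ := Finset.mem_biUnion.1 hm
        have hx' := (hSm x).1 (Finset.mem_of_mem_erase hx)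
        have hl' := (hSm l).1 hl
        have hxl : x < l := lt_of_le_of_ne (hlmax x (Finset.mem_of_mem_erase hx))
          (Finset.ne_of_mem_erase hx)
        have h3 := nx3 x l hxl hl'.2.2
        unfold pios at hmx
        rw [Finset.mem_filter, Finset.mem_Ico] at hmx
        rw [Finset.mem_filter, Finset.mem_range]
        refine ⟨by omega, hx'.2.1.1.trans hmx.1.1, hmx.2, lt_of_le_of_lt ?_ hl'.2.1.2.2⟩
        refine Finset.card_le_card ?_
        intro j hj
        unfold pios at hj ⊢
        rw [Finset.mem_filter, Finset.mem_Ico] at hj ⊢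
        exact ⟨⟨hj.1.1, by omega⟩, hj.2⟩
      exact e1.trans (e2.symm.le.trans ((Finset.card_le_card e3).trans
        (card_firstk_le (c₀ := []) (H := p.1) (w := p.1.walk p.2) 1 k N)))
    have h1 : min (slabK (seen [] p l)) M ≤ M := min_le_right _ _
    omega

end Pool.Agent.Spd
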