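import Pool.Agent.Spd.G10a

/-!
(Part `G10b`: `good_ae`, `esc_iff_stays`.  The text below is the common header of the parts.)

# SPD G10: the renewal law is preserved by the renewal map

`P = μ × unif`.

* `ae_nu`: `mD μ 1 ≪ P.map qmap` (`mD_le`): the complement of the set is measurable and `P`-null after
  `qmap`; `nu` is a multiple of `mD μ 1`.
* `ae_nu_esc`: the density vanishes outside (`measurableSet_escZ`).
* `good_ae`: `inf_reg` for `c₀ = []`, `pth (qmap p) = walk` (`pth_qmap`), `ae_nu`; measurable by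
  `measurableSet_regZ`.
* `theta_inv`: let `C` be measurable.  By `mD_qmap`: `mD μ 1 {z | theta z ∈ C}` is the integral of
  `deg/(deg + 1)` over `{p | Esc (qmap p), theta (qmap p) ∈ C}`.  For a.e. such `p` the first
  regeneration time `n = fstT (qmap p) ≥ 1` exists, `theta (qmap p) = seenZ (qmap p) n = seen [] p n`
  (`seenZ_qmap`).  `Esc (qmap p)` iff `Stays [] H w 0` (`stays_zero` and conversely `kapR_spec`-like:
  `Stays 0` says that the walk is above the line of `H` from time `1` on, i.e. not on the boundary; up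
  to `U 0 = 1`, a null set).  On `{Reg n}`: `Stays 0` iff `∀ j, 0 < j ≤ n → Abv H (reg 0) (w j)`
  (`stays_iff`), and `fstT (qmap p) = n` iff `¬ Cand m n` for `1 ≤ m < n` (`reg_iff_of_stays`): functions of
  the history at time `n`, as is `deg (bd 0) = H.deg (w 0)` (`HSim.deg`, `n ≥ 1`).  So for each `n` and
  each value `d` of the degree, `seen_law_sum` (`Φ` = all these properties and `Pio n`, `expD n = 1`)
  gives `P(Φ ∧ Stays n ∧ seen n ∈ C) = P(Φ) mD μ 1 C`.  Summing: `mD μ 1 {theta ∈ C} = κ * mD μ 1 C` with a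
  constant `κ` that does not depend on `C`; for `C = univ`: `pReg = κ pReg`, and `0 < pReg ≤ 1`, so `κ = 1`.
-/

namespace Pool.Agent.Spd

open MeasureTheory HPT

/-- The density of `mD` vanishes outside the escaping elements. -/
private theorem nu_esc {μ : Measure HPT} :
    ∀ᵐ z ∂(nu μ), z.1.Esc z.2.1 z.2.2 := by
  classical
  have h1 : mD μ 1 {z : Sp | ¬ z.1.Esc z.2.1 z.2.2} = 0 := by
    unfold mD
    have hm : MeasurableSet {z : Sp | ¬ z.1.Esc z.2.1 z.2.2} := measurableSet_escZ.compl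
    rw [withDensity_apply _ hm]
    refine (setLIntegral_congr_fun hm (g := fun _ => 0) ?_).trans (by simp)
    intro z hz
    exact if_neg hz
  rw [ae_iff]
  unfold nu
  rw [Measure.smul_apply, h1, smul_zero]

theorem good_ae {μ : Measure HPT} [IsProbabilityMeasure μ] (hT : TransInv μ)
    (hD : DomMarkov μ) (hv : vStar μ < ⊤) (hs : 0 < μ {G | special G}) (hp : 0 < pReg μ) :
    ∀ᵐ z ∂(nu μ), Good z := by
  have hm : MeasurableSet {z : Sp | ∀ a, ∃ n, a < n ∧ Reg [] z.1 (pth z) n} := by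
    have h1 : {z : Sp | ∀ a, ∃ n, a < n ∧ Reg [] z.1 (pth z) n} =
        ⋂ a : ℕ, ⋃ n : ℕ, ⋃ _ : a < n, {z : Sp | Reg [] z.1 (pth z) n} := by
      ext z
      simp
    rw [h1]
    exact MeasurableSet.iInter fun a => MeasurableSet.iUnion fun n =>
      MeasurableSet.iUnion fun _ => measurableSet_regZ n
  have h2 : ∀ᵐ z ∂(nu μ), ∀ a, ∃ n, a < n ∧ Reg [] z.1 (pth z) n := by
    refine ae_nu (Φ := fun z => ∀ a, ∃ n, a < n ∧ Reg [] z.1 (pth z) n) hm ?_
    filter_upwards [inf_reg hT hD hv hs hp []] with p hpp a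
    obtain ⟨n, hn, hr⟩ := hpp a
    refine ⟨n, hn, ?_⟩
    rw [pth_qmap]
    exact hr
  filter_upwards [nu_esc, h2] with z hz1 hz2
  exact ⟨hz1, hz2⟩

/-- Up to a null set, escaping is the same as staying above the line after time `0`. -/
theorem esc_iff_stays (p : HPT × (ℕ → unitInterval)) (hU : p.2 0 ≠ 1) :
    (qmap p).1.Esc (qmap p).2.1 (qmap p).2.2 ↔ Stays [] p.1 (p.1.walk p.2) 0 := by
  constructor
  · intro h
    have h1 := stays_zero h
    rw [pth_qmap] at h1
    exact h1
  · rintro ⟨-, h⟩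
    obtain ⟨H, U⟩ := p
    change U 0 ≠ 1 at hU
    change ∀ m, 0 < m → Abv H (reg [] H (H.walk U) 0) (H.walk U m) at h
    change H.Esc (H.kap U 0) (fun j => U (j + 1))
    refine ⟨?_, fun n i hi => ?_⟩
    · have hd : H.deg (H.walk U 0) = H.deg (H.M.bd 0) := by
        have h1 := H.ok.bd_prev 0
        rw [zero_sub] at h1
        exact H.deg_sameV (H.ok.bd_mem 0) h1
      have hpos : 0 < H.deg (H.M.bd 0) := H.deg_pos (H.ok.bd_mem 0)
      unfold kap
      rw [hd, Nat.floor_lt (mul_nonneg (U 0).2.1 (Nat.cast_nonneg _))]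
      have hlt : (U 0 : ℝ) < 1 := lt_of_le_of_ne (U 0).2.2 fun h1 => hU (Subtype.ext h1)
      have hpos' : (0 : ℝ) < (H.deg (H.M.bd 0) : ℝ) := by exact_mod_cast hpos
      nlinarith
    · rw [← walk_eq_walkK] at hi
      exact not_on_of_abv (Sub.refl H) ((walk_isPath H U).mem (n + 1))
        (h (n + 1) (Nat.succ_pos n)) ⟨i, hi⟩

end Pool.Agent.Spd
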