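import Pool.Agent.Spd.G10b

/-!
(Part `G10c`: `theta_inv`.  The text below is the common header of the parts.)

# SPD G10: the renewal law is preserved by the renewal map

`P = μ × unif`.

* `ae_nu`: `mD μ 1 ≪ P.map qmap` (`mD_le`): the complement of the set is measurable and `P`-null after
  `qmap`; `nu` is a multiple of `mD μ 1`.
* `ae_nu_esc`: the density vanishes outside (`measurableSet_escZ`).
* `good_ae`: `inf_reg` for `c₀ = []`, `pth (qmap p) = walk` (`pth_qmap`), `ae_nu`; measurable by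
  `measurableSet_regZ`.
* `theta_inv`: let `C` be measurable.  By `mD_qmap`: `mD μ 1 {z | theta z ∈ C}` is the integral of
  `deg/(deg + 1)` over `{p | Esc (qmap p), theta (qmap p) ∈ C}`.  For a.e. such `p` the first
  regeneration time `n = fstT (qmap p) ≥ 1` exists, `theta (qmap p) = seenZ (qmap p) n = seen [] p n`
  (`seenZ_qmap`).  `Esc (qmap p)` iff `Stays [] H w 0` (`stays_zero` and conversely `kapR_spec`-like:
  `Stays 0` says that the walk is above the line of `H` from time `1` on, i.e. not on the boundary; up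
  to `U 0 = 1`, a null set).  On `{Reg n}`: `Stays 0` iff `∀ j, 0 < j ≤ n → Abv H (reg 0) (w j)`
  (`stays_iff`), and `fstT (qmap p) = n` iff `¬ Cand m n` for `1 ≤ m < n` (`reg_iff_of_stays`): functions of
  the history at time `n`, as is `deg (bd 0) = H.deg (w 0)` (`HSim.deg`, `n ≥ 1`).  So for each `n` and
  each value `d` of the degree, `seen_law_sum` (`Φ` = all these properties and `Pio n`, `expD n = 1`)
  gives `P(Φ ∧ Stays n ∧ seen n ∈ C) = P(Φ) mD μ 1 C`.  Summing: `mD μ 1 {theta ∈ C} = κ * mD μ 1 C` with a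
  constant `κ` that does not depend on `C`; for `C = univ`: `pReg = κ pReg`, and `0 < pReg ≤ 1`, so `κ = 1`.
-/

namespace Pool.Agent.Spd

open MeasureTheory HPT

/-- `n` is a candidate for the first regeneration time and the walk is above the boundary up to
time `n` (a function of the history at time `n`). -/
private def fstH (p : HPT × (ℕ → unitInterval)) (n : ℕ) : Prop :=
  (1 ≤ n ∧ Pio [] p.1 (p.1.walk p.2) n ∧ expD [] p.1 (p.1.walk p.2) n = 1) ∧
    (Pio [] p.1 (p.1.walk p.2) 0 ∧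
      ∀ j, 0 < j → j ≤ n → Abv p.1 (reg [] p.1 (p.1.walk p.2) 0) (p.1.walk p.2 j)) ∧
    ∀ m, m < n → ¬ Cand [] p.1 (p.1.walk p.2) m n

private theorem fstH_histfun (n : ℕ) (p p' : HPT × (ℕ → unitInterval))
    (h : hist [] p.1 p.2 n = hist [] p'.1 p'.2 n) : fstH p n ↔ fstH p' n := by
  obtain ⟨φ, ψ, S⟩ := hist_sim_of_eq h
  unfold fstH
  rw [S.pio_iff le_rfl, S.expD_eq le_rfl, S.pio_iff (Nat.zero_le n)]
  refine and_congr_right fun _ => and_congr (and_congr_right fun _ => ?_) ?_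
  · exact forall_congr' fun j => forall_congr' fun h1 => forall_congr' fun h2 =>
      S.abv_iff h1.le h2
  · exact forall_congr' fun m => forall_congr' fun hm =>
      not_congr (cand_histfun [] hm.le p p' h)

private theorem deg_histfun {n : ℕ} (hn : 1 ≤ n) (p p' : HPT × (ℕ → unitInterval))
    (h : hist [] p.1 p.2 n = hist [] p'.1 p'.2 n) :
    p.1.deg (p.1.M.bd 0) = p'.1.deg (p'.1.M.bd 0) := by
  obtain ⟨φ, ψ, S⟩ := hist_sim_of_eq h
  have e : ∀ q : HPT × (ℕ → unitInterval), q.1.deg (q.1.walk q.2 0) = q.1.deg (q.1.M.bd 0) := by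
    intro q
    have h1 := q.1.ok.bd_prev 0
    rw [zero_sub] at h1
    exact q.1.deg_sameV (q.1.ok.bd_mem 0) h1
  have h2 := S.deg 0 hn
  rw [e, e] at h2
  exact h2

private theorem fst_eq {p : HPT × (ℕ → unitInterval)} {n : ℕ} (h : fstH p n)
    (hS : Stays [] p.1 (p.1.walk p.2) n) : sInf {m | Reg [] p.1 (p.1.walk p.2) m} = n := by
  obtain ⟨⟨hn, hp, hd⟩, h0, hc⟩ := h
  have hreg : Reg [] p.1 (p.1.walk p.2) n := ⟨hn, hS, hd⟩
  refine le_antisymm (Nat.sInf_le hreg) ?_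
  by_contra hlt
  rw [not_le] at hlt
  have h1 : Reg [] p.1 (p.1.walk p.2) (sInf {m | Reg [] p.1 (p.1.walk p.2) m}) :=
    Nat.sInf_mem (⟨n, hreg⟩ : {m | Reg [] p.1 (p.1.walk p.2) m}.Nonempty)
  exact hc _ hlt ((reg_iff_of_stays (walk_isPath p.1 p.2) hS hlt).1 h1)

private theorem key_iff (p : HPT × (ℕ → unitInterval)) (hU : p.2 0 ≠ 1)
    (hR : ∃ n, Reg [] p.1 (p.1.walk p.2) n) (C : Set Sp) :
    (theta (qmap p) ∈ C ∧ (qmap p).1.Esc (qmap p).2.1 (qmap p).2.2) ↔
      ∃ n, fstH p n ∧ Stays [] p.1 (p.1.walk p.2) n ∧ seen [] p n ∈ C := by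
  have P := walk_isPath p.1 p.2
  have hf : fstT (qmap p) = sInf {n | Reg [] p.1 (p.1.walk p.2) n} := by
    unfold fstT
    rw [pth_qmap]
    rfl
  rw [esc_iff_stays p hU]
  unfold theta
  rw [seenZ_qmap, hf]
  constructor
  · rintro ⟨h1, h2⟩
    have hreg : Reg [] p.1 (p.1.walk p.2) (sInf {n | Reg [] p.1 (p.1.walk p.2) n}) :=
      Nat.sInf_mem (show {n | Reg [] p.1 (p.1.walk p.2) n}.Nonempty from hR)
    have hS := hreg.2.1
    refine ⟨_, ⟨⟨hreg.1, hS.1, hreg.2.2⟩, (stays_iff P hS hreg.1).1 h2, fun m hm hc => ?_⟩,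
      hS, h1⟩
    exact Nat.notMem_of_lt_sInf hm ((reg_iff_of_stays P hS hm).2 hc)
  · rintro ⟨n, h1, hS, hC⟩
    rw [fst_eq h1 hS]
    exact ⟨hC, (stays_iff P hS h1.1.1).2 h1.2.1⟩

private theorem lint_deg {α : Type*} [MeasurableSpace α] (P : Measure α) (A : Set α)
    {g : α → ℕ} (hg : Measurable g) (f : ℕ → ENNReal) :
    ∫⁻ p in A, f (g p) ∂P = ∑' d, f d * P (A ∩ {p | g p = d}) := by
  rw [← lintegral_map (f := f) measurable_from_top hg, lintegral_countable']
  refine tsum_congr fun d => ?_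
  rw [Measure.map_apply hg (measurableSet_singleton d),
    Measure.restrict_apply (hg (measurableSet_singleton d)), Set.inter_comm]
  rfl

private theorem meas_deg :
    Measurable fun p : HPT × (ℕ → unitInterval) => p.1.deg (p.1.M.bd 0) :=
  measurable_deg0.comp measurable_fst

private theorem mass {μ : Measure HPT} [IsProbabilityMeasure μ] (hT : TransInv μ)
    (hD : DomMarkov μ) (n : ℕ) {C : Set Sp} (hC : MeasurableSet C) :
    ∫⁻ p in {p | fstH p n ∧ Stays [] p.1 (p.1.walk p.2) n ∧ seen [] p n ∈ C},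
      (p.1.deg (p.1.M.bd 0) : ENNReal) * ((p.1.deg (p.1.M.bd 0) + 1 : ℕ) : ENNReal)⁻¹
        ∂(μ.prod unif) =
    (∫⁻ p in {p | fstH p n},
      (p.1.deg (p.1.M.bd 0) : ENNReal) * ((p.1.deg (p.1.M.bd 0) + 1 : ℕ) : ENNReal)⁻¹
        ∂(μ.prod unif)) * mD μ 1 C := by
  rw [lint_deg (μ.prod unif) {p | fstH p n ∧ Stays [] p.1 (p.1.walk p.2) n ∧ seen [] p n ∈ C}
      meas_deg fun d => (d : ENNReal) * ((d + 1 : ℕ) : ENNReal)⁻¹,
    lint_deg (μ.prod unif) {p | fstH p n}
      meas_deg fun d => (d : ENNReal) * ((d + 1 : ℕ) : ENNReal)⁻¹, ← ENNReal.tsum_mul_right]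
  refine tsum_congr fun d => ?_
  have key := seen_law_sum hT hD [] n 1 (fun p => fstH p n ∧ p.1.deg (p.1.M.bd 0) = d)
    (fun p p' h => ?_) (fun p h => ⟨h.1.1.2.1, h.1.1.2.2⟩) hC
  · have e1 : {p | fstH p n ∧ Stays [] p.1 (p.1.walk p.2) n ∧ seen [] p n ∈ C} ∩
        {p : HPT × (ℕ → unitInterval) | p.1.deg (p.1.M.bd 0) = d} =
        {p | (fstH p n ∧ p.1.deg (p.1.M.bd 0) = d) ∧ Stays [] p.1 (p.1.walk p.2) n ∧
          seen [] p n ∈ C} := by
      ext p
      simp only [Set.mem_inter_iff, Set.mem_ofPred_eq]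
      tauto
    have e2 : {p | fstH p n} ∩ {p : HPT × (ℕ → unitInterval) | p.1.deg (p.1.M.bd 0) = d} =
        {p | fstH p n ∧ p.1.deg (p.1.M.bd 0) = d} := rfl
    rw [e1, e2, key]
    ring
  · constructor
    · rintro ⟨h1, h2⟩
      exact ⟨(fstH_histfun n p p' h).1 h1, (deg_histfun h1.1.1 p p' h).symm.trans h2⟩
    · rintro ⟨h1, h2⟩
      exact ⟨(fstH_histfun n p p' h).2 h1, (deg_histfun h1.1.1 p p' h).trans h2⟩

theorem theta_inv {μ : Measure HPT} [IsProbabilityMeasure μ] (hT : TransInv μ)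
    (hD : DomMarkov μ) (hv : vStar μ < ⊤) (hs : 0 < μ {G | special G}) (hp : 0 < pReg μ) :
    MeasurePreserving theta (nu μ) (nu μ) := by
  have hκ : ∀ C : Set Sp, MeasurableSet C → mD μ 1 (theta ⁻¹' C) =
      (∑' n, ∫⁻ p in {p | fstH p n},
        (p.1.deg (p.1.M.bd 0) : ENNReal) * ((p.1.deg (p.1.M.bd 0) + 1 : ℕ) : ENNReal)⁻¹
          ∂(μ.prod unif)) * mD μ 1 C := by
    intro C hC
    have hset : ({p | qmap p ∈ theta ⁻¹' C ∧ (qmap p).1.Esc (qmap p).2.1 (qmap p).2.2} :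
        Set (HPT × (ℕ → unitInterval))) =ᵐ[μ.prod unif]
        ⋃ n, {p | fstH p n ∧ Stays [] p.1 (p.1.walk p.2) n ∧ seen [] p n ∈ C} := by
      have h0 : ∀ᵐ p ∂(μ.prod unif), p.2 0 ≠ 1 :=
        Measure.quasiMeasurePreserving_snd.ae (unif_ne_one 0)
      filter_upwards [h0, inf_reg hT hD hv hs hp []] with p hp1 hp2
      refine propext ?_
      obtain ⟨n, -, hn⟩ := hp2 0
      have h3 := key_iff p hp1 ⟨n, hn⟩ C
      change (theta (qmap p) ∈ C ∧ (qmap p).1.Esc (qmap p).2.1 (qmap p).2.2) ↔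
        p ∈ ⋃ n, {p | fstH p n ∧ Stays [] p.1 (p.1.walk p.2) n ∧ seen [] p n ∈ C}
      rw [Set.mem_iUnion]
      exact h3
    rw [mD_qmap μ 1 (measurable_theta hC), setLIntegral_congr hset, lintegral_iUnion,
      ← ENNReal.tsum_mul_right]
    · exact tsum_congr fun n => mass hT hD n hC
    · intro n
      exact (measurableSet_histfun [] n _ (fstH_histfun n)).inter
        ((measurableSet_stays [] n).inter (measurable_seen [] n hC))
    · intro n n' hne
      rw [Function.onFun, Set.disjoint_left]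
      rintro p ⟨h1, h2, -⟩ ⟨h3, h4, -⟩
      exact hne ((fst_eq h1 h2).symm.trans (fst_eq h3 h4))
  have h1 := hκ Set.univ MeasurableSet.univ
  rw [Set.preimage_univ] at h1
  have hp0 : mD μ 1 Set.univ ≠ 0 := hp.ne'
  have hpt : mD μ 1 Set.univ ≠ ⊤ := ((pReg_le_one μ).trans_lt ENNReal.one_lt_top).ne
  have h2 : (∑' n, ∫⁻ p in {p | fstH p n},
        (p.1.deg (p.1.M.bd 0) : ENNReal) * ((p.1.deg (p.1.M.bd 0) + 1 : ℕ) : ENNReal)⁻¹
          ∂(μ.prod unif)) = 1 := by
    refine (ENNReal.mul_left_inj hp0 hpt).1 ?_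
    rw [← h1, one_mul]
  refine ⟨measurable_theta, ?_⟩
  ext C hC
  rw [Measure.map_apply measurable_theta hC]
  unfold nu
  rw [Measure.smul_apply, Measure.smul_apply, hκ C hC, h2, one_mul]

end Pool.Agent.Spd
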