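import Pool.Agent.Spd.G08

/-!
(Part `G10a`: `Good`, `measurableSet_good`, `nu_prob`, `ae_nu`.  The text below is the common header of the parts.)

# SPD G10: the renewal law is preserved by the renewal map

`P = μ × unif`.

* `ae_nu`: `mD μ 1 ≪ P.map qmap` (`mD_le`): the complement of the set is measurable and `P`-null after
  `qmap`; `nu` is a multiple of `mD μ 1`.
* `ae_nu_esc`: the density vanishes outside (`measurableSet_escZ`).
* `good_ae`: `inf_reg` for `c₀ = []`, `pth (qmap p) = walk` (`pth_qmap`), `ae_nu`; measurable by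
  `measurableSet_regZ`.
* `theta_inv`: let `C` be measurable.  By `mD_qmap`: `mD μ 1 {z | theta z ∈ C}` is the integral of
  `deg/(deg + 1)` over `{p | Esc (qmap p), theta (qmap p) ∈ C}`.  For a.e. such `p` the first
  regeneration time `n = fstT (qmap p) ≥ 1` exists, `theta (qmap p) = seenZ (qmap p) n = seen [] p n`
  (`seenZ_qmap`).  `Esc (qmap p)` iff `Stays [] H w 0` (`stays_zero` and conversely `kapR_spec`-like:
  `Stays 0` says that the walk is above the line of `H` from time `1` on, i.e. not on the boundary; up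
  to `U 0 = 1`, a null set).  On `{Reg n}`: `Stays 0` iff `∀ j, 0 < j ≤ n → Abv H (reg 0) (w j)`
  (`stays_iff`), and `fstT (qmap p) = n` iff `¬ Cand m n` for `1 ≤ m < n` (`reg_iff_of_stays`): functions of
  the history at time `n`, as is `deg (bd 0) = H.deg (w 0)` (`HSim.deg`, `n ≥ 1`).  So for each `n` and
  each value `d` of the degree, `seen_law_sum` (`Φ` = all these properties and `Pio n`, `expD n = 1`)
  gives `P(Φ ∧ Stays n ∧ seen n ∈ C) = P(Φ) mD μ 1 C`.  Summing: `mD μ 1 {theta ∈ C} = κ * mD μ 1 C` with a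
  constant `κ` that does not depend on `C`; for `C = univ`: `pReg = κ pReg`, and `0 < pReg ≤ 1`, so `κ = 1`.
-/

namespace Pool.Agent.Spd

open MeasureTheory HPT

/-- Escaping elements with infinitely many regeneration times. -/
def Good (z : Sp) : Prop :=
  z.1.Esc z.2.1 z.2.2 ∧ ∀ a, ∃ n, a < n ∧ Reg [] z.1 (pth z) n

theorem measurableSet_good : MeasurableSet {z : Sp | Good z} := by
  have h1 : {z : Sp | Good z} = {z : Sp | z.1.Esc z.2.1 z.2.2} ∩
      ⋂ a : ℕ, ⋃ n : ℕ, ⋃ _ : a < n, {z : Sp | Reg [] z.1 (pth z) n} := by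
    ext z
    simp only [Set.mem_inter_iff, Set.mem_iInter, Set.mem_iUnion, Set.mem_ofPred_eq, exists_prop]
    exact Iff.rfl
  rw [h1]
  exact measurableSet_escZ.inter (MeasurableSet.iInter fun a => MeasurableSet.iUnion fun n =>
    MeasurableSet.iUnion fun _ => measurableSet_regZ n)

theorem nu_prob {μ : Measure HPT} [IsProbabilityMeasure μ] (hp : 0 < pReg μ) :
    IsProbabilityMeasure (nu μ) := by
  refine ⟨?_⟩
  have h1 : pReg μ ≠ ⊤ := ne_top_of_le_ne_top ENNReal.one_ne_top (pReg_le_one μ)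
  unfold nu
  rw [Measure.smul_apply, smul_eq_mul]
  exact ENNReal.inv_mul_cancel hp.ne' h1

theorem ae_nu {μ : Measure HPT} [IsProbabilityMeasure μ] {Φ : Sp → Prop}
    (hm : MeasurableSet {z | Φ z}) (h : ∀ᵐ p ∂(μ.prod unif), Φ (qmap p)) :
    ∀ᵐ z ∂(nu μ), Φ z := by
  rw [ae_iff] at h ⊢
  have h1 : mD μ 1 {z | ¬ Φ z} = 0 := by
    refine le_antisymm ?_ bot_le
    refine (mD_le μ 1 (C := {z | ¬ Φ z}) hm.compl).trans ?_
    exact h.le
  unfold nu
  rw [Measure.smul_apply, h1, smul_zero]

end Pool.Agent.Spd
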