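import Pool.Agent.Spd.G10

/-!
# SPD G11: what is seen from the first regeneration time after `a`

`σ = sigT c₀ p a`.  `P(outs c₀ = o, U ∈ E, seen σ ∈ C) = P(outs c₀ = o, U ∈ E) ν(C)` when `E` depends on the
variables `< a` only.

Sum over `n > a` and the histories `h` at time `n`: on `{Reg n}` the event `{σ = n}` is
`∀ m, a < m < n → ¬ Cand m n` (`reg_iff_of_stays`), a function of the history at time `n`; so is
`outs c₀ = o` (`cmdP_init`: the commands at time `n` are `c₀ ++ c`, and `outs (c₀ ++ c) = outs c₀ ++ ..`,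
`outs_append`, `outs_length`).  By `seen_law` (`D = 1`, the given `E`; the hypothesis `hh` for histories
with `Pio n`, `expD n = 1`): `P(hist n = h, U ∈ E, Stays n, seen n ∈ C) = P(hist n = h, U ∈ E) mD μ 1 C`.
So the left side is `κ * mD μ 1 C` with `κ` independent of `C`; `C = univ`: since `σ` exists a.s.
(`inf_reg`), `P(outs c₀ = o, U ∈ E) = κ * pReg`.
-/

namespace Pool.Agent.Spd

open MeasureTheory HPT

/-- First regeneration time after `a`. -/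
noncomputable def sigT (c₀ : List ℤ) (p : HPT × (ℕ → unitInterval)) (a : ℕ) : ℕ :=
  sInf {n | a < n ∧ Reg c₀ p.1 (p.1.walk p.2) n}

private theorem g11_split {μ : Measure HPT} (c₀ : List ℤ) (n : ℕ)
    {X : Set (HPT × (ℕ → unitInterval))} (hX : MeasurableSet X) :
    (μ.prod unif) X = ∑' h : List ℤ × List Step × List ℕ,
      (μ.prod unif) ({p : HPT × (ℕ → unitInterval) | hist c₀ p.1 p.2 n = h} ∩ X) := by
  have h1 : X = ⋃ h : List ℤ × List Step × List ℕ,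
      ({p : HPT × (ℕ → unitInterval) | hist c₀ p.1 p.2 n = h} ∩ X) := by
    ext p
    rw [Set.mem_iUnion]
    exact ⟨fun hp => ⟨hist c₀ p.1 p.2 n, rfl, hp⟩, fun ⟨_, _, hp⟩ => hp⟩
  conv_lhs => rw [h1]
  refine measure_iUnion ?_ fun h => (measurableSet_hist c₀ n h).inter hX
  intro h h' hne
  rw [Function.onFun, Set.disjoint_left]
  rintro p ⟨hp, -⟩ ⟨hp', -⟩
  exact hne (hp.symm.trans hp')

private theorem g11_meas {c₀ : List ℤ} {n : ℕ} {Φ : HPT × (ℕ → unitInterval) → Prop}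
    (hΦm : MeasurableSet {p : HPT × (ℕ → unitInterval) | Φ p})
    {E : Set (ℕ → unitInterval)} (hE : MeasurableSet E) {C : Set Sp} (hC : MeasurableSet C) :
    MeasurableSet {p : HPT × (ℕ → unitInterval) | Φ p ∧ p.2 ∈ E ∧
      Stays c₀ p.1 (p.1.walk p.2) n ∧ seen c₀ p n ∈ C} :=
  hΦm.inter ((measurable_snd hE).inter
    ((measurableSet_stays c₀ n).inter (measurable_seen c₀ n hC)))

private theorem g11_law {μ : Measure HPT} [IsProbabilityMeasure μ] (hT : TransInv μ)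
    (hD : DomMarkov μ) (c₀ : List ℤ) (n D : ℕ) (Φ : HPT × (ℕ → unitInterval) → Prop)
    (hΦ : ∀ p p' : HPT × (ℕ → unitInterval), hist c₀ p.1 p.2 n = hist c₀ p'.1 p'.2 n →
      (Φ p ↔ Φ p'))
    (hh : ∀ p, Φ p → Pio c₀ p.1 (p.1.walk p.2) n ∧ expD c₀ p.1 (p.1.walk p.2) n = D)
    {E : Set (ℕ → unitInterval)} (hE : MeasurableSet E)
    (hE' : ∀ U U' : ℕ → unitInterval, (∀ j < n, U j = U' j) → (U ∈ E ↔ U' ∈ E))
    {C : Set Sp} (hC : MeasurableSet C) :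
    (μ.prod unif) {p | Φ p ∧ p.2 ∈ E ∧ Stays c₀ p.1 (p.1.walk p.2) n ∧ seen c₀ p n ∈ C} =
      (μ.prod unif) {p | Φ p ∧ p.2 ∈ E} * mD μ D C := by
  have hΦm : MeasurableSet {p : HPT × (ℕ → unitInterval) | Φ p} :=
    measurableSet_histfun c₀ n Φ hΦ
  have hXm := g11_meas (c₀ := c₀) (n := n) hΦm hE hC
  have hYm : MeasurableSet {p : HPT × (ℕ → unitInterval) | Φ p ∧ p.2 ∈ E} :=
    hΦm.inter (measurable_snd hE)
  rw [g11_split c₀ n hXm, g11_split c₀ n hYm, ← ENNReal.tsum_mul_right]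
  refine tsum_congr fun h => ?_
  by_cases hex : ∃ q : HPT × (ℕ → unitInterval), hist c₀ q.1 q.2 n = h ∧ Φ q
  · obtain ⟨q, hq, hqΦ⟩ := hex
    have hall : ∀ p : HPT × (ℕ → unitInterval), hist c₀ p.1 p.2 n = h → Φ p := fun p hp =>
      (hΦ p q (hp.trans hq.symm)).2 hqΦ
    have h1 := seen_law hT hD c₀ n h D (fun p hp => hh p (hall p hp)) hE hE' hC
    have e1 : {p : HPT × (ℕ → unitInterval) | hist c₀ p.1 p.2 n = h} ∩ {p | Φ p ∧ p.2 ∈ E ∧
        Stays c₀ p.1 (p.1.walk p.2) n ∧ seen c₀ p n ∈ C} =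
        {p | hist c₀ p.1 p.2 n = h ∧ p.2 ∈ E ∧
          Stays c₀ p.1 (p.1.walk p.2) n ∧ seen c₀ p n ∈ C} := by
      ext p
      constructor
      · rintro ⟨h2, -, h3⟩
        exact ⟨h2, h3⟩
      · rintro ⟨h2, h3⟩
        exact ⟨h2, hall p h2, h3⟩
    have e2 : {p : HPT × (ℕ → unitInterval) | hist c₀ p.1 p.2 n = h} ∩ {p | Φ p ∧ p.2 ∈ E} =
        {p | hist c₀ p.1 p.2 n = h ∧ p.2 ∈ E} := by
      ext p
      constructor
      · rintro ⟨h2, -, h3⟩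
        exact ⟨h2, h3⟩
      · rintro ⟨h2, h3⟩
        exact ⟨h2, hall p h2, h3⟩
    rw [e1, e2]
    exact h1
  · have e1 : {p : HPT × (ℕ → unitInterval) | hist c₀ p.1 p.2 n = h} ∩ {p | Φ p ∧ p.2 ∈ E ∧
        Stays c₀ p.1 (p.1.walk p.2) n ∧ seen c₀ p n ∈ C} = ∅ := by
      ext p
      refine ⟨?_, fun h2 => absurd h2 (Set.notMem_empty p)⟩
      rintro ⟨h2, h3, -⟩
      exact absurd ⟨p, h2, h3⟩ hex
    have e2 : {p : HPT × (ℕ → unitInterval) | hist c₀ p.1 p.2 n = h} ∩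
        {p | Φ p ∧ p.2 ∈ E} = ∅ := by
      ext p
      refine ⟨?_, fun h2 => absurd h2 (Set.notMem_empty p)⟩
      rintro ⟨h2, h3, -⟩
      exact absurd ⟨p, h2, h3⟩ hex
    rw [e1, e2, measure_empty, zero_mul]

/-- The properties of the history at the first regeneration time `n` after `a`. -/
private def g11P (c₀ : List ℤ) (o : List Step) (a n : ℕ) (p : HPT × (ℕ → unitInterval)) : Prop :=
  p.1.outs c₀ = o ∧ a < n ∧ Pio c₀ p.1 (p.1.walk p.2) n ∧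
    expD c₀ p.1 (p.1.walk p.2) n = 1 ∧ ∀ m, a < m → m < n → ¬ Cand c₀ p.1 (p.1.walk p.2) m n

private theorem g11_outs (c₀ : List ℤ) (n : ℕ) (p p' : HPT × (ℕ → unitInterval))
    (h : hist c₀ p.1 p.2 n = hist c₀ p'.1 p'.2 n) : p.1.outs c₀ = p'.1.outs c₀ := by
  obtain ⟨c, hc⟩ := cmdP_init c₀ p.1 (p.1.walk p.2) n
  have h1 : cmdP c₀ p.1 (p.1.walk p.2) n = cmdP c₀ p'.1 (p'.1.walk p'.2) n :=
    congrArg (fun x => x.1) h
  have h2 : p.1.outs (cmdP c₀ p.1 (p.1.walk p.2) n) =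
      p'.1.outs (cmdP c₀ p'.1 (p'.1.walk p'.2) n) := congrArg (fun x => x.2.1) h
  rw [← h1, hc, outs_append, outs_append] at h2
  exact (List.append_inj h2 (by rw [outs_length, outs_length])).1

private theorem g11P_hist (c₀ : List ℤ) (o : List Step) (a n : ℕ)
    (p p' : HPT × (ℕ → unitInterval)) (h : hist c₀ p.1 p.2 n = hist c₀ p'.1 p'.2 n) :
    g11P c₀ o a n p ↔ g11P c₀ o a n p' := by
  unfold g11P
  rw [g11_outs c₀ n p p' h, pio_histfun c₀ le_rfl p p' h, expD_histfun c₀ le_rfl p p' h]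
  refine and_congr_right fun _ => and_congr_right fun _ => and_congr_right fun _ =>
    and_congr_right fun _ => ?_
  refine forall_congr' fun m => forall_congr' fun _ => forall_congr' fun hm => ?_
  rw [cand_histfun c₀ hm.le p p' h]

private theorem g11_sig {c₀ : List ℤ} {p : HPT × (ℕ → unitInterval)} {a n : ℕ} :
    (a < n ∧ Pio c₀ p.1 (p.1.walk p.2) n ∧ expD c₀ p.1 (p.1.walk p.2) n = 1 ∧
      ∀ m, a < m → m < n → ¬ Cand c₀ p.1 (p.1.walk p.2) m n) ∧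
      Stays c₀ p.1 (p.1.walk p.2) n ↔
    (a < n ∧ Reg c₀ p.1 (p.1.walk p.2) n) ∧ sigT c₀ p a = n := by
  have P := walk_isPath p.1 p.2
  constructor
  · rintro ⟨⟨h1, h2, h3, h4⟩, S⟩
    have hR : a < n ∧ Reg c₀ p.1 (p.1.walk p.2) n := ⟨h1, by omega, S, h3⟩
    refine ⟨hR, le_antisymm (Nat.sInf_le hR) ?_⟩
    refine le_csInf ⟨n, hR⟩ fun m hm => ?_
    by_contra hlt
    rw [not_le] at hlt
    exact h4 m hm.1 hlt ((reg_iff_of_stays P S hlt).1 hm.2)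
  · rintro ⟨⟨h1, h2⟩, h3⟩
    have S := h2.2.1
    refine ⟨⟨h1, S.1, h2.2.2, fun m hm hmn hc => ?_⟩, S⟩
    have h4 := (reg_iff_of_stays P S hmn).2 hc
    have h5 : sigT c₀ p a ≤ m := Nat.sInf_le ⟨hm, h4⟩
    omega

private theorem g11_sum {μ : Measure HPT} [IsProbabilityMeasure μ] (hT : TransInv μ)
    (hD : DomMarkov μ) (hv : vStar μ < ⊤) (hs : 0 < μ {G | special G}) (hp : 0 < pReg μ)
    (c₀ : List ℤ) (o : List Step) (a : ℕ) {E : Set (ℕ → unitInterval)} (hE : MeasurableSet E)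
    (hE' : ∀ U U' : ℕ → unitInterval, (∀ j < a, U j = U' j) → (U ∈ E ↔ U' ∈ E))
    {C : Set Sp} (hC : MeasurableSet C) :
    (μ.prod unif) {p | p.1.outs c₀ = o ∧ p.2 ∈ E ∧ seen c₀ p (sigT c₀ p a) ∈ C} =
      (∑' n, (μ.prod unif) {p | g11P c₀ o a n p ∧ p.2 ∈ E}) * mD μ 1 C := by
  rw [← ENNReal.tsum_mul_right]
  have h1 : ∀ n, (μ.prod unif) {p | g11P c₀ o a n p ∧ p.2 ∈ E} * mD μ 1 C =
      (μ.prod unif) {p | g11P c₀ o a n p ∧ p.2 ∈ E ∧ Stays c₀ p.1 (p.1.walk p.2) n ∧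
        seen c₀ p n ∈ C} := by
    intro n
    by_cases han : a < n
    · exact (g11_law hT hD c₀ n 1 (g11P c₀ o a n) (g11P_hist c₀ o a n)
        (fun p hp => ⟨hp.2.2.1, hp.2.2.2.1⟩) hE
        (fun U U' h => hE' U U' fun j hj => h j (hj.trans han)) hC).symm
    · have e1 : {p : HPT × (ℕ → unitInterval) | g11P c₀ o a n p ∧ p.2 ∈ E} = ∅ := by
        ext p
        exact ⟨fun h => absurd h.1.2.1 han, fun h => absurd h (Set.notMem_empty p)⟩
      have e2 : {p : HPT × (ℕ → unitInterval) | g11P c₀ o a n p ∧ p.2 ∈ E ∧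
          Stays c₀ p.1 (p.1.walk p.2) n ∧ seen c₀ p n ∈ C} = ∅ := by
        ext p
        exact ⟨fun h => absurd h.1.2.1 han, fun h => absurd h (Set.notMem_empty p)⟩
      rw [e1, e2, measure_empty, zero_mul]
  rw [tsum_congr h1]
  have hm : ∀ n, MeasurableSet {p : HPT × (ℕ → unitInterval) | g11P c₀ o a n p ∧ p.2 ∈ E ∧
      Stays c₀ p.1 (p.1.walk p.2) n ∧ seen c₀ p n ∈ C} := fun n =>
    g11_meas (measurableSet_histfun c₀ n _ (g11P_hist c₀ o a n)) hE hC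
  have key : ∀ (p : HPT × (ℕ → unitInterval)) (n : ℕ), p ∈ {p : HPT × (ℕ → unitInterval) |
      g11P c₀ o a n p ∧ p.2 ∈ E ∧ Stays c₀ p.1 (p.1.walk p.2) n ∧ seen c₀ p n ∈ C} ↔
      (p.1.outs c₀ = o ∧ p.2 ∈ E ∧ seen c₀ p n ∈ C) ∧
        ((a < n ∧ Reg c₀ p.1 (p.1.walk p.2) n) ∧ sigT c₀ p a = n) := by
    intro p n
    rw [← g11_sig]
    constructor
    · rintro ⟨⟨h2, h3⟩, h4, h5, h6⟩
      exact ⟨⟨h2, h4, h6⟩, h3, h5⟩
    · rintro ⟨⟨h2, h4, h6⟩, h3, h5⟩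
      exact ⟨⟨h2, h3⟩, h4, h5, h6⟩
  rw [← measure_iUnion (fun n n' hne => ?_) hm]
  · refine measure_congr ?_
    filter_upwards [inf_reg hT hD hv hs hp c₀] with p hinf
    refine propext ?_
    change (p.1.outs c₀ = o ∧ p.2 ∈ E ∧ seen c₀ p (sigT c₀ p a) ∈ C) ↔
      p ∈ ⋃ n, {p : HPT × (ℕ → unitInterval) | g11P c₀ o a n p ∧ p.2 ∈ E ∧
        Stays c₀ p.1 (p.1.walk p.2) n ∧ seen c₀ p n ∈ C}
    rw [Set.mem_iUnion]
    constructor
    · intro h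
      have h2 : sigT c₀ p a ∈ {n | a < n ∧ Reg c₀ p.1 (p.1.walk p.2) n} :=
        Nat.sInf_mem (hinf a)
      exact ⟨sigT c₀ p a, (key p _).2 ⟨h, h2, rfl⟩⟩
    · rintro ⟨n, hn⟩
      obtain ⟨h2, -, h3⟩ := (key p n).1 hn
      rw [h3]
      exact h2
  · rw [Function.onFun, Set.disjoint_left]
    intro p h2 h3
    exact hne (((key p n).1 h2).2.2.symm.trans ((key p n').1 h3).2.2)

theorem first_law {μ : Measure HPT} [IsProbabilityMeasure μ] (hT : TransInv μ)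
    (hD : DomMarkov μ) (hv : vStar μ < ⊤) (hs : 0 < μ {G | special G}) (hp : 0 < pReg μ)
    (c₀ : List ℤ) (o : List Step) (a : ℕ) {E : Set (ℕ → unitInterval)} (hE : MeasurableSet E)
    (hE' : ∀ U U' : ℕ → unitInterval, (∀ j < a, U j = U' j) → (U ∈ E ↔ U' ∈ E))
    {C : Set Sp} (hC : MeasurableSet C) :
    (μ.prod unif) {p | p.1.outs c₀ = o ∧ p.2 ∈ E ∧ seen c₀ p (sigT c₀ p a) ∈ C} =
      (μ.prod unif) {p | p.1.outs c₀ = o ∧ p.2 ∈ E} * nu μ C := by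
  have h1 := g11_sum hT hD hv hs hp c₀ o a hE hE' hC
  have h2 := g11_sum hT hD hv hs hp c₀ o a hE hE' MeasurableSet.univ
  have e : {p : HPT × (ℕ → unitInterval) | p.1.outs c₀ = o ∧ p.2 ∈ E ∧
      seen c₀ p (sigT c₀ p a) ∈ (Set.univ : Set Sp)} = {p | p.1.outs c₀ = o ∧ p.2 ∈ E} := by
    ext p
    exact ⟨fun h => ⟨h.1, h.2.1⟩, fun h => ⟨h.1, h.2, Set.mem_univ _⟩⟩
  rw [e] at h2
  rw [h1, h2]
  have h3 : nu μ C = (pReg μ)⁻¹ * mD μ 1 C := rfl
  have h4 : mD μ 1 Set.univ = pReg μ := rfl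
  rw [h3, h4, mul_assoc, ← mul_assoc (pReg μ), ENNReal.mul_inv_cancel hp.ne'
    (lt_of_le_of_lt (pReg_le_one μ) ENNReal.one_lt_top).ne, one_mul]

end Pool.Agent.Spd
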