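import Pool.Agent.Spd.G12a

/-!
(Part `G12b`: `volSmall_nu`.)

# SPD G12: the stars of the pioneers are small compared with their number

* `volSmall_nu`: measurability (`starVol (regAt n)`, `card (pios 0 n)` are measurable functions of
  `p`, on `Sp` via `liftU`) and `ae_nu`.
-/

namespace Pool.Agent.Spd

open MeasureTheory HPT

private theorem g12_meas_card (n : ℕ) : Measurable fun p : HPT × (ℕ → unitInterval) =>
    (pios [] p.1 (p.1.walk p.2) 0 n).card := by
  refine measurable_to_countable' fun j => ?_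
  refine measurableSet_histfun [] n (fun p => (pios [] p.1 (p.1.walk p.2) 0 n).card = j)
    fun p p' h => ?_
  rw [pios_histfun [] p p' h]

private theorem g12_meas_pio (n : ℕ) : MeasurableSet {p : HPT × (ℕ → unitInterval) |
    Pio [] p.1 (p.1.walk p.2) n} :=
  measurableSet_histfun [] n _ fun p p' h => pio_histfun [] le_rfl p p' h

private theorem g12_meas : MeasurableSet {p : HPT × (ℕ → unitInterval) |
    VolSmall p.1 (p.1.walk p.2)} := by
  have e : {p : HPT × (ℕ → unitInterval) | VolSmall p.1 (p.1.walk p.2)} =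
      ⋂ k : ℕ, ⋃ N : ℕ, ⋂ n : ℕ, {p | N ≤ n → Pio [] p.1 (p.1.walk p.2) n →
        k * (regAt [] p.1 (p.1.walk p.2) n).starVol ≤
          (pios [] p.1 (p.1.walk p.2) 0 n).card} := by
    ext p
    simp only [Set.mem_iInter, Set.mem_iUnion]
    exact Iff.rfl
  rw [e]
  refine MeasurableSet.iInter fun k => MeasurableSet.iUnion fun N => MeasurableSet.iInter fun n => ?_
  by_cases hN : N ≤ n
  · have e2 : {p : HPT × (ℕ → unitInterval) | N ≤ n → Pio [] p.1 (p.1.walk p.2) n →
        k * (regAt [] p.1 (p.1.walk p.2) n).starVol ≤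
          (pios [] p.1 (p.1.walk p.2) 0 n).card} =
        {p : HPT × (ℕ → unitInterval) | Pio [] p.1 (p.1.walk p.2) n}ᶜ ∪
        {p : HPT × (ℕ → unitInterval) | k * (regAt [] p.1 (p.1.walk p.2) n).starVol ≤
          (pios [] p.1 (p.1.walk p.2) 0 n).card} := by
      ext p
      rw [Set.mem_union, Set.mem_compl_iff]
      change (N ≤ n → Pio [] p.1 (p.1.walk p.2) n → _) ↔ (¬ Pio [] p.1 (p.1.walk p.2) n) ∨ _
      constructor
      · intro h
        by_cases h1 : Pio [] p.1 (p.1.walk p.2) n
        · exact Or.inr (h hN h1)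
        · exact Or.inl h1
      · rintro (h | h) _ h1
        · exact absurd h1 h
        · exact h
    rw [e2]
    refine (g12_meas_pio n).compl.union (measurableSet_le ?_ (g12_meas_card n))
    exact measurable_const.mul (measurable_starVol.comp (measurable_regAt [] n))
  · have e2 : {p : HPT × (ℕ → unitInterval) | N ≤ n → Pio [] p.1 (p.1.walk p.2) n →
        k * (regAt [] p.1 (p.1.walk p.2) n).starVol ≤
          (pios [] p.1 (p.1.walk p.2) 0 n).card} = Set.univ :=
      Set.eq_univ_of_forall fun p h => absurd h hN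
    rw [e2]
    exact MeasurableSet.univ

theorem volSmall_nu {μ : Measure HPT} [IsProbabilityMeasure μ] (hT : TransInv μ)
    (hD : DomMarkov μ) (hv : vStar μ < ⊤) :
    ∀ᵐ z ∂(nu μ), VolSmall z.1 (pth z) := by
  refine ae_nu (Φ := fun z => VolSmall z.1 (pth z)) ?_ ?_
  · have e : {z : Sp | VolSmall z.1 (pth z)} = (fun z : Sp => (z.1, liftU z)) ⁻¹'
        {p : HPT × (ℕ → unitInterval) | VolSmall p.1 (p.1.walk p.2)} := by
      ext z
      change VolSmall z.1 (pth z) ↔ VolSmall z.1 (z.1.walk (liftU z))
      rw [pth_lift]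
    rw [e]
    exact measurable_liftU g12_meas
  · filter_upwards [vol_small_ae hT hD hv] with p hp
    rw [pth_qmap]
    exact hp

end Pool.Agent.Spd
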