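import Pool.Agent.Spd.G12a

/-!
(Part `G12c`: `volN`, `volSmall_tendsto`, `volN_pio`.  The text below is the common header of the parts.)

# SPD G12: the stars of the pioneers are small compared with their number

`VolSmall H w`: for every `k`, for all late pioneer times `n`,
`k * starVol (regAt n) ≤ card (pios 0 n)` (the number of the pioneer).

* `vol_level`: `P{∃ n, Pio n, card (pios 0 n) = j, k * starVol (regAt n) > j} ≤ μ {H | k * starVol H > j}`: sum
  over `n` of `P(Φ_n) μ{..}` (`lint_fresh` with an indicator function, `Φ_n = Pio n ∧ card (pios 0 n) = j`, a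
  function of the history at time `n`), and the events `Φ_n` are disjoint for different `n`.
* `vol_small_ae`: `∑_j μ {k * starVol > j} ≤ 1 + k ∫⁻ starVol < ⊤` (`∑_j 1[j < x] ≤ x` for the natural number
  `x = k * starVol H`), so by Borel-Cantelli (`measure_limsup_atTop_eq_zero` / `ae_eventually_notMem`) for
  a.e. `p` only finitely many `j` have such a pioneer; the number `card (pios 0 n)` tends to infinity
  along the pioneer times (each number belongs to exactly one pioneer time), so for late `n` the
  inequality holds.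
* `volSmall_nu`: measurability (`starVol (regAt n)`, `card (pios 0 n)` are measurable functions of `p`, on
  `Sp` via `liftU`) and `ae_nu`.
* `volSmall_tendsto`: `V j = starVol (regAt (T j))`, `T j = Nat.nth Pio j`, `card (pios 0 (T j)) = j`
  (`Nat.count`), so `V j / j → 0`.
-/

namespace Pool.Agent.Spd

open MeasureTheory HPT

/-- Volume of the star of the `j`-th pioneer. -/
noncomputable def volN (H : HPT) (w : ℕ → ℕ) (j : ℕ) : ℕ :=
  (regAt [] H w (Nat.nth (fun n => Pio [] H w n) j)).starVol

private theorem g12c_card (H : HPT) (w : ℕ → ℕ) (n : ℕ) :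
    (pios [] H w 0 n).card = @Nat.count (fun m => Pio [] H w m)
      (fun _ => Classical.propDecidable _) n := by
  classical
  unfold pios
  rw [Nat.count_eq_card_filter_range, Finset.range_eq_Ico]

theorem volSmall_tendsto {H : HPT} {w : ℕ → ℕ} (h : VolSmall H w)
    (hinf : ∀ n, ∃ m, n ≤ m ∧ Pio [] H w m) :
    Filter.Tendsto (fun j : ℕ => (volN H w j : ℝ) / j) Filter.atTop (nhds 0) := by
  classical
  have hI : (setOf fun m => Pio [] H w m).Infinite := by
    refine Set.infinite_of_forall_exists_gt fun n => ?_
    obtain ⟨m, h1, h2⟩ := hinf (n + 1)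
    exact ⟨m, h2, h1⟩
  rw [Metric.tendsto_atTop]
  intro ε hε
  obtain ⟨k, hk⟩ := exists_nat_gt (1 / ε)
  have hk0 : (0 : ℝ) < k := lt_trans (by positivity) hk
  obtain ⟨N, hN⟩ := h k
  refine ⟨N + 1, fun j hj => ?_⟩
  have hT : N ≤ Nat.nth (fun n => Pio [] H w n) j :=
    le_trans (by omega) ((Nat.nth_strictMono hI).le_apply)
  have h1 := hN _ hT (Nat.nth_mem_of_infinite hI j)
  rw [g12c_card] at h1
  have h2 : @Nat.count (fun m => Pio [] H w m) (fun _ => Classical.propDecidable _)
      (Nat.nth (fun n => Pio [] H w n) j) = j := by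
    convert Nat.count_nth_of_infinite hI j
  rw [h2] at h1
  change k * volN H w j ≤ j at h1
  have h3 : (k : ℝ) * volN H w j ≤ j := by exact_mod_cast h1
  have hj0 : (0 : ℝ) < j := by
    have : 0 < j := by omega
    exact_mod_cast this
  have h4 : (0 : ℝ) ≤ (volN H w j : ℝ) / j := by positivity
  rw [Real.dist_eq, sub_zero, abs_of_nonneg h4]
  have h5 : (volN H w j : ℝ) / j ≤ 1 / k := by
    rw [div_le_div_iff₀ hj0 hk0]
    linarith
  refine lt_of_le_of_lt h5 ?_
  rw [div_lt_iff₀ hk0]
  rw [div_lt_iff₀ hε] at hk
  linarith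

theorem volN_pio {H : HPT} {w : ℕ → ℕ} {n : ℕ} (h : Pio [] H w n) :
    volN H w (pios [] H w 0 n).card = (regAt [] H w n).starVol := by
  classical
  unfold volN
  rw [g12c_card]
  congr 2
  convert Nat.nth_count h

end Pool.Agent.Spd
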