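import Pool.Agent.Spd.G10

/-!
(Part `G12a`: `VolSmall`, `vol_small_ae`.  The text below is the common header of the parts.)

# SPD G12: the stars of the pioneers are small compared with their number

`VolSmall H w`: for every `k`, for all late pioneer times `n`,
`k * starVol (regAt n) ≤ card (pios 0 n)` (the number of the pioneer).

* `vol_level`: `P{∃ n, Pio n, card (pios 0 n) = j, k * starVol (regAt n) > j} ≤ μ {H | k * starVol H > j}`: sum
  over `n` of `P(Φ_n) μ{..}` (`lint_fresh` with an indicator function, `Φ_n = Pio n ∧ card (pios 0 n) = j`, a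
  function of the history at time `n`), and the events `Φ_n` are disjoint for different `n`.
* `vol_small_ae`: `∑_j μ {k * starVol > j} ≤ 1 + k ∫⁻ starVol < ⊤` (`∑_j 1[j < x] ≤ x` for the natural number
  `x = k * starVol H`), so by Borel-Cantelli (`measure_limsup_atTop_eq_zero` / `ae_eventually_notMem`) for
  a.e. `p` only finitely many `j` have such a pioneer; the number `card (pios 0 n)` tends to infinity
  along the pioneer times (each number belongs to exactly one pioneer time), so for late `n` the
  inequality holds.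
* `volSmall_nu`: measurability (`starVol (regAt n)`, `card (pios 0 n)` are measurable functions of `p`, on
  `Sp` via `liftU`) and `ae_nu`.
* `volSmall_tendsto`: `V j = starVol (regAt (T j))`, `T j = Nat.nth Pio j`, `card (pios 0 (T j)) = j`
  (`Nat.count`), so `V j / j → 0`.
-/

namespace Pool.Agent.Spd

open MeasureTheory HPT

/-- The stars of late pioneers are small. -/
def VolSmall (H : HPT) (w : ℕ → ℕ) : Prop :=
  ∀ k : ℕ, ∃ N, ∀ n, N ≤ n → Pio [] H w n →
    k * (regAt [] H w n).starVol ≤ (pios [] H w 0 n).card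

private theorem g12a_pio {μ : Measure HPT} [IsProbabilityMeasure μ] (hT : TransInv μ)
    (hD : DomMarkov μ) (n : ℕ) (Φ : HPT × (ℕ → unitInterval) → Prop)
    (hΦ : ∀ p p' : HPT × (ℕ → unitInterval), hist [] p.1 p.2 n = hist [] p'.1 p'.2 n →
      (Φ p ↔ Φ p')) {S : Set HPT} (hS : MeasurableSet S) :
    (μ.prod unif) {p | Φ p ∧ regAt [] p.1 (p.1.walk p.2) n ∈ S} =
      (μ.prod unif) {p | Φ p} * μ S := by
  have hm : MeasurableSet {p : HPT × (ℕ → unitInterval) | Φ p} := measurableSet_histfun [] n Φ hΦ
  have hR : MeasurableSet {p : HPT × (ℕ → unitInterval) | regAt [] p.1 (p.1.walk p.2) n ∈ S} :=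
    measurable_regAt [] n hS
  have h1 := lint_fresh hT hD [] n Φ hΦ (f := S.indicator 1) (measurable_one.indicator hS)
  rw [lintegral_indicator_one hS] at h1
  rw [← h1]
  have h2 : (fun p : HPT × (ℕ → unitInterval) =>
      S.indicator (1 : HPT → ENNReal) (regAt [] p.1 (p.1.walk p.2) n)) =
      ({p : HPT × (ℕ → unitInterval) | regAt [] p.1 (p.1.walk p.2) n ∈ S}).indicator 1 := by
    funext p
    rfl
  rw [h2, lintegral_indicator_one hR, Measure.restrict_apply hR]
  congr 1
  ext p
  exact and_comm

open Classical in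
private theorem g12a_disj {μ : Measure HPT} [IsProbabilityMeasure μ] (j : ℕ) :
    ∑' n, (μ.prod unif) {p : HPT × (ℕ → unitInterval) | Pio [] p.1 (p.1.walk p.2) n ∧
      (pios [] p.1 (p.1.walk p.2) 0 n).card = j} ≤ 1 := by
  rw [← measure_iUnion]
  · exact prob_le_one
  · have key : ∀ n n' : ℕ, n < n' → ∀ p : HPT × (ℕ → unitInterval),
        Pio [] p.1 (p.1.walk p.2) n → (pios [] p.1 (p.1.walk p.2) 0 n).card = j →
        (pios [] p.1 (p.1.walk p.2) 0 n').card = j → False := by
      intro n n' hn p h1 h2 h3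
      have h4 : pios [] p.1 (p.1.walk p.2) 0 n ⊂ pios [] p.1 (p.1.walk p.2) 0 n' := by
        refine Finset.ssubset_iff_subset_ne.2 ⟨?_, ?_⟩
        · exact Finset.filter_subset_filter _ (Finset.Ico_subset_Ico le_rfl hn.le)
        · intro he
          have h5 : n ∈ pios [] p.1 (p.1.walk p.2) 0 n' := by
            unfold pios
            exact Finset.mem_filter.2 ⟨Finset.mem_Ico.2 ⟨Nat.zero_le _, hn⟩, h1⟩
          rw [← he] at h5
          unfold pios at h5
          exact absurd (Finset.mem_Ico.1 (Finset.mem_filter.1 h5).1).2 (lt_irrefl n)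
      have h6 := Finset.card_lt_card h4
      omega
    intro n n' hn
    refine Set.disjoint_left.2 ?_
    rintro p ⟨h1, h2⟩ ⟨h3, h4⟩
    rcases lt_or_gt_of_ne hn with h | h
    · exact key n n' h p h1 h2 h4
    · exact key n' n h p h3 h4 h2
  · intro n
    refine measurableSet_histfun [] n _ fun p p' h => ?_
    rw [pio_histfun [] le_rfl p p' h, pios_histfun [] p p' h]

private theorem g12a_sum {μ : Measure HPT} (hv : vStar μ < ⊤) (k : ℕ) :
    ∑' j : ℕ, μ {G : HPT | j < k * G.starVol} ≠ ⊤ := by
  have hm : ∀ j : ℕ, MeasurableSet {G : HPT | j < k * G.starVol} := fun j =>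
    (measurable_from_top (f := fun n : ℕ => k * n)).comp measurable_starVol
      (measurableSet_Ioi (a := j))
  have h1 : ∀ j : ℕ, μ {G : HPT | j < k * G.starVol} =
      ∫⁻ G, ({G : HPT | j < k * G.starVol}).indicator 1 G ∂μ := fun j =>
    (lintegral_indicator_one (hm j)).symm
  simp_rw [h1]
  rw [← lintegral_tsum fun j => (measurable_one.indicator (hm j)).aemeasurable]
  have h2 : ∀ G : HPT, ∑' j : ℕ, ({G : HPT | j < k * G.starVol}).indicator
      (1 : HPT → ENNReal) G = k * (G.starVol : ENNReal) := by
    intro G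
    rw [tsum_eq_sum (s := Finset.range (k * G.starVol))]
    · rw [Finset.sum_congr rfl (g := fun _ => (1 : ENNReal))]
      · rw [Finset.sum_const, Finset.card_range, nsmul_eq_mul, mul_one, Nat.cast_mul]
      · intro j hj
        exact Set.indicator_of_mem (show G ∈ {G : HPT | j < k * G.starVol} from
          Finset.mem_range.1 hj) _
    · intro j hj
      exact Set.indicator_of_notMem (show G ∉ {G : HPT | j < k * G.starVol} from
        fun h => hj (Finset.mem_range.2 h)) _
  simp_rw [h2]
  have hs : Measurable fun G : HPT => (G.starVol : ENNReal) :=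
    (measurable_from_top (f := fun n : ℕ => (n : ENNReal))).comp measurable_starVol
  rw [lintegral_const_mul _ hs]
  exact ENNReal.mul_ne_top (ENNReal.natCast_ne_top k) hv.ne

theorem vol_small_ae {μ : Measure HPT} [IsProbabilityMeasure μ] (hT : TransInv μ)
    (hD : DomMarkov μ) (hv : vStar μ < ⊤) :
    ∀ᵐ p ∂(μ.prod unif), VolSmall p.1 (p.1.walk p.2) := by
  unfold VolSmall
  rw [ae_all_iff]
  intro k
  have hm : ∀ j : ℕ, MeasurableSet {G : HPT | j < k * G.starVol} := fun j =>
    (measurable_from_top (f := fun n : ℕ => k * n)).comp measurable_starVol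
      (measurableSet_Ioi (a := j))
  have h1 : ∑' n, (μ.prod unif) {p : HPT × (ℕ → unitInterval) |
      Pio [] p.1 (p.1.walk p.2) n ∧ (pios [] p.1 (p.1.walk p.2) 0 n).card <
        k * (regAt [] p.1 (p.1.walk p.2) n).starVol} ≠ ⊤ := by
    refine ne_top_of_le_ne_top (g12a_sum hv k) ?_
    calc ∑' n, (μ.prod unif) {p : HPT × (ℕ → unitInterval) |
        Pio [] p.1 (p.1.walk p.2) n ∧ (pios [] p.1 (p.1.walk p.2) 0 n).card <
          k * (regAt [] p.1 (p.1.walk p.2) n).starVol}
        ≤ ∑' n, ∑' j : ℕ, (μ.prod unif) {p : HPT × (ℕ → unitInterval) |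
            Pio [] p.1 (p.1.walk p.2) n ∧ (pios [] p.1 (p.1.walk p.2) 0 n).card = j} *
              μ {G : HPT | j < k * G.starVol} := by
          refine ENNReal.tsum_le_tsum fun n => ?_
          have h2 : ∀ j : ℕ, (μ.prod unif) {p : HPT × (ℕ → unitInterval) |
              Pio [] p.1 (p.1.walk p.2) n ∧ (pios [] p.1 (p.1.walk p.2) 0 n).card = j} *
                μ {G : HPT | j < k * G.starVol} =
              (μ.prod unif) {p : HPT × (ℕ → unitInterval) |
                (Pio [] p.1 (p.1.walk p.2) n ∧ (pios [] p.1 (p.1.walk p.2) 0 n).card = j) ∧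
                regAt [] p.1 (p.1.walk p.2) n ∈ {G : HPT | j < k * G.starVol}} := by
            intro j
            refine (g12a_pio hT hD n _ ?_ (hm j)).symm
            intro p p' h
            rw [pio_histfun [] le_rfl p p' h, pios_histfun [] p p' h]
          simp_rw [h2]
          refine le_trans (measure_mono ?_) (measure_iUnion_le _)
          rintro p ⟨h3, h4⟩
          exact Set.mem_iUnion.2 ⟨_, ⟨h3, rfl⟩, h4⟩
      _ = ∑' j : ℕ, ∑' n, (μ.prod unif) {p : HPT × (ℕ → unitInterval) |
            Pio [] p.1 (p.1.walk p.2) n ∧ (pios [] p.1 (p.1.walk p.2) 0 n).card = j} *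
              μ {G : HPT | j < k * G.starVol} := ENNReal.tsum_comm
      _ ≤ ∑' j : ℕ, μ {G : HPT | j < k * G.starVol} := by
          refine ENNReal.tsum_le_tsum fun j => ?_
          rw [ENNReal.tsum_mul_right]
          exact mul_le_of_le_one_left' (g12a_disj j)
  filter_upwards [ae_eventually_notMem h1] with p hp
  obtain ⟨N, hN⟩ := Filter.eventually_atTop.1 hp
  refine ⟨N, fun n hn hpio => ?_⟩
  by_contra h
  exact hN n hn ⟨hpio, not_le.1 h⟩

end Pool.Agent.Spd
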