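import Pool.Agent.Spd.G13a

/-!
(Part `G13b`: `line_le`, `near_pio`, `pio_le_rmax`.
The text below is the common header of the parts.)

# SPD G13: distances along the exploration (pathwise)

`rmax H G` = maximal distance (in `H`) of the line of the sub-map `G` from the boundary of `H`.

* `le_rmax`, `rmax_attained`: `line_bdd`: a bounded set of natural numbers (`Nat.sSup_mem`,
  `le_csSup`).
* `rmax_shift`: the same set.
* `rmax_comp`: for a line vertex `x` of `K` (`K.bd i ∈ G.D`): `H.distBd x ≤ G.distBd x + rmax H G`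
  (`dist_le_add`).
* `line_le`: induction on `n`: `star_dist` at pioneer times (`reg_succ_pio`), `n = 0`: `reg 0 = H`
  (`exec_nil`), distance `0`.
* `near_pio`: let `x = (reg n).bd i` attain the maximum.  `reg_line_nbr` with `c₀ = []`: either `x` has the
  origin of some `H.bd j`: distance `0`; or it is a neighbour of `w m`, `m < n`: `distBd_adj`,
  `distBd_sameV`.
* `pos_le`: let `w m` be the position at time `m`.  `pio_or_blw`: if `m` is a pioneer time, it is on the line
  of `reg m`: `line_le`.  Otherwise it is strictly below `reg m`; let `j < m` be maximal with `w m` not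
  strictly below `reg j` (`j = 0` qualifies: `w m ∈ H.D`); then `reg (j+1) ≠ reg j`, so `j` is a pioneer time,
  `w m`'s vertex has a dart `e ∈ (reg j).D`, strictly below `(regAt j).star = reg (j+1)`.  `swallow_dist` in
  `G = regAt j`: `G.distBd e ≤ starVol + 1` (`Blw G G.star e` follows from `Blw H (reg (j+1)) e`,
  `Sub.sameV`); `dist_le_add` with `line_le`:
  `H.distBd e ≤ starVol + 1 + card (pios 0 j) ≤ card (pios 0 m) + starVol` (as `j ∈ pios 0 m`).
* `dist_step`: `w m ~ inv (w (m+1))`: `distBd_sameV`, `distBd_adj`.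
-/

namespace Pool.Agent.Spd

namespace HPT

variable {H G K : HPT} {w : ℕ → ℕ}

private theorem pios_succ_pio (c₀ : List ℤ) {n : ℕ} (h : Pio c₀ H w n) :
    (pios c₀ H w 0 (n + 1)).card = (pios c₀ H w 0 n).card + 1 := by
  classical
  have h1 : pios c₀ H w 0 (n + 1) = insert n (pios c₀ H w 0 n) := by
    ext m
    simp only [pios, Finset.mem_filter, Finset.mem_Ico, Finset.mem_insert]
    constructor
    · rintro ⟨⟨-, h2⟩, h3⟩
      rcases Nat.lt_succ_iff_lt_or_eq.1 h2 with h4 | h4
      · exact Or.inr ⟨⟨Nat.zero_le _, h4⟩, h3⟩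
      · exact Or.inl h4
    · rintro (h2 | ⟨⟨-, h2⟩, h3⟩)
      · subst h2
        exact ⟨⟨Nat.zero_le _, Nat.lt_succ_self _⟩, h⟩
      · exact ⟨⟨Nat.zero_le _, Nat.lt_succ_of_lt h2⟩, h3⟩
  have h2 : n ∉ pios c₀ H w 0 n := by
    simp [pios]
  rw [h1, Finset.card_insert_of_notMem h2]

private theorem pios_mono (c₀ : List ℤ) (n : ℕ) :
    (pios c₀ H w 0 n).card ≤ (pios c₀ H w 0 (n + 1)).card := by
  classical
  apply Finset.card_le_card
  intro m hm
  simp only [pios, Finset.mem_filter, Finset.mem_Ico] at hm ⊢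
  exact ⟨⟨Nat.zero_le _, Nat.lt_succ_of_lt hm.1.2⟩, hm.2⟩

theorem line_le (P : IsPath H w) (n : ℕ) (i : ℤ) :
    H.distBd ((reg [] H w n).M.bd i) ≤ (pios [] H w 0 n).card := by
  induction n generalizing i with
  | zero =>
    have h1 : reg [] H w 0 = H := rfl
    rw [h1, (distBd_eq_zero H (H.ok.bd_mem i)).2 ⟨i, 0, rfl⟩]
    exact Nat.zero_le _
  | succ n ih =>
    by_cases h : Pio [] H w n
    · rw [reg_succ_pio h, pios_succ_pio [] h]
      exact star_dist ((reg_sub n).shift _) (fun j => ih _) i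
    · rw [reg_succ_not h]
      exact (ih i).trans (pios_mono [] n)

theorem near_pio (P : IsPath H w) (n : ℕ) : rmax H (reg [] H w n) = 0 ∨
    ∃ m < n, rmax H (reg [] H w n) ≤ H.distBd (w m) + 1 := by
  obtain ⟨i, hi⟩ := rmax_attained (reg_sub (c₀ := []) (w := w) (H := H) n)
  rcases reg_line_nbr (c₀ := []) P n i with ⟨j, hj⟩ | ⟨m, hm, hp, x, hx1, hx2⟩
  · left
    rw [hi]
    have h1 : H.exec [] = H := rfl
    rw [h1] at hj
    exact (distBd_eq_zero H ((reg_sub n).memD ((reg [] H w n).ok.bd_mem i))).2 ⟨j, hj⟩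
  · right
    refine ⟨m, hm, ?_⟩
    rw [hi]
    have hwm : w m ∈ H.M.D := P.mem m
    have hx : x ∈ H.M.D := H.ok.sameV_mem hwm hx1
    have hix : H.M.inv x ∈ H.M.D := H.ok.inv_mem x hx
    rw [← distBd_sameV H hix hx2, distBd_sameV H hwm hx1]
    have h2 := distBd_adj H hix
    rwa [H.ok.inv_inv x hx] at h2

theorem pio_le_rmax (P : IsPath H w) {n : ℕ} (h : Pio [] H w n) :
    H.distBd (w n) ≤ rmax H (reg [] H w n) := by
  have h1 := pidx_spec h
  rw [← distBd_sameV H ((reg_sub n).memD ((reg [] H w n).ok.bd_mem _)) h1]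
  exact le_rmax (reg_sub n) _

end HPT

end Pool.Agent.Spd
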