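import Pool.Agent.Spd.G13b

/-!
(Part `G13c`: `pos_le`, `dist_step`, `dist_steps`.  The text below is the common header of the
parts.)

# SPD G13: distances along the exploration (pathwise)

`rmax H G` = maximal distance (in `H`) of the line of the sub-map `G` from the boundary of `H`.

* `le_rmax`, `rmax_attained`: `line_bdd`: a bounded set of natural numbers (`Nat.sSup_mem`,
  `le_csSup`).
* `rmax_shift`: the same set.
* `rmax_comp`: for a line vertex `x` of `K` (`K.bd i ∈ G.D`): `H.distBd x ≤ G.distBd x + rmax H G`
  (`dist_le_add`).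
* `line_le`: induction on `n`: `star_dist` at pioneer times (`reg_succ_pio`), `n = 0`: `reg 0 = H`
  (`exec_nil`), distance `0`.
* `near_pio`: let `x = (reg n).bd i` attain the maximum.  `reg_line_nbr` with `c₀ = []`: either
  `x` has the
  origin of some `H.bd j`: distance `0`; or it is a neighbour of `w m`, `m < n`: `distBd_adj`,
  `distBd_sameV`.
* `pos_le`: let `w m` be the position at time `m`.  `pio_or_blw`: if `m` is a pioneer time, it is
  on the line
  of `reg m`: `line_le`.  Otherwise it is strictly below `reg m`; let `j < m` be maximal with `w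
  m` not
  strictly below `reg j` (`j = 0` qualifies: `w m ∈ H.D`); then `reg (j+1) ≠ reg j`, so `j` is a
  pioneer time,
  `w m`'s vertex has a dart `e ∈ (reg j).D`, strictly below `(regAt j).star = reg (j+1)`. 
  `swallow_dist` in
  `G = regAt j`: `G.distBd e ≤ starVol + 1` (`Blw G G.star e` follows from `Blw H (reg (j+1)) e`,
  `Sub.sameV`); `dist_le_add` with `line_le`:
  `H.distBd e ≤ starVol + 1 + card (pios 0 j) ≤ card (pios 0 m) + starVol` (as `j ∈ pios 0 m`).
* `dist_step`: `w m ~ inv (w (m+1))`: `distBd_sameV`, `distBd_adj`.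
-/

namespace Pool.Agent.Spd

namespace HPT

variable {H G K : HPT} {w : ℕ → ℕ}

theorem pos_le (P : IsPath H w) (m : ℕ) : H.distBd (w m) ≤ (pios [] H w 0 m).card ∨
    ∃ j, j < m ∧ Pio [] H w j ∧
      H.distBd (w m) ≤ (pios [] H w 0 m).card + (regAt [] H w j).starVol := by
  classical
  rcases pio_or_blw (c₀ := []) P m with h | h
  · obtain ⟨i, hi⟩ := h
    have h1 := line_le P m i
    rw [H.distBd_sameV ((reg_sub m).memD ((reg [] H w m).ok.bd_mem i)) hi] at h1
    exact Or.inl h1
  · right
    have hex : ∃ k, Blw H (reg [] H w k) (w m) := ⟨m, h⟩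
    have hk := Nat.find_spec hex
    have hkm : Nat.find hex ≤ m := Nat.find_min' hex h
    rcases Nat.eq_zero_or_pos (Nat.find hex) with h0 | h0
    · rw [h0] at hk
      exact absurd (P.mem m) (hk (w m) (H.ok.sameV_refl _))
    · obtain ⟨j, hj⟩ := Nat.exists_eq_succ_of_ne_zero h0.ne'
      rw [hj] at hk hkm
      have hjn : ¬ Blw H (reg [] H w j) (w m) := Nat.find_min hex (by omega)
      have hp : Pio [] H w j := by
        by_contra hc
        rw [Nat.succ_eq_add_one, reg_succ_not hc] at hk
        exact hjn hk
      rw [Nat.succ_eq_add_one, reg_succ_pio hp] at hk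
      obtain ⟨e, he⟩ := not_forall.1 hjn
      rw [Classical.not_imp, not_not] at he
      obtain ⟨he1, he2⟩ := he
      have S : Sub (regAt [] H w j) H := (reg_sub j).shift _
      have heG : e ∈ (regAt [] H w j).M.D := he2
      have hb : Blw (regAt [] H w j) (regAt [] H w j).star e := by
        intro e' he'
        exact hk e' (H.ok.sameV_trans he1 ((S.sameV heG e').1 he').1)
      have h1 := swallow_dist (regAt [] H w j) heG hb
      have h2 := dist_le_add S (m := (pios [] H w 0 j).card)
        (fun i => line_le P j (i + pidx [] H w j)) heG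
      have h3 := H.distBd_sameV (P.mem m) he1
      have h4 : (pios [] H w 0 j).card + 1 ≤ (pios [] H w 0 m).card := by
        have h5 : j ∉ pios [] H w 0 j := by
          intro hj'
          have h6 := (Finset.mem_Ico.1 (Finset.mem_filter.1 hj').1).2
          omega
        rw [← Finset.card_insert_of_notMem h5]
        refine Finset.card_le_card fun x hx => ?_
        rcases Finset.mem_insert.1 hx with rfl | hx
        · exact Finset.mem_filter.2 ⟨Finset.mem_Ico.2 ⟨Nat.zero_le _, by omega⟩, hp⟩
        · obtain ⟨h6, h7⟩ := Finset.mem_filter.1 hx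
          have h8 := (Finset.mem_Ico.1 h6).2
          exact Finset.mem_filter.2 ⟨Finset.mem_Ico.2 ⟨Nat.zero_le _, by omega⟩, h7⟩
      exact ⟨j, by omega, hp, by omega⟩

theorem dist_step (P : IsPath H w) (m : ℕ) :
    H.distBd (w (m + 1)) ≤ H.distBd (w m) + 1 ∧ H.distBd (w m) ≤ H.distBd (w (m + 1)) + 1 := by
  have h1 := H.distBd_sameV (P.mem m) (P.step m)
  have h2 := H.distBd_adj (P.mem (m + 1))
  have h3 := H.distBd_adj (H.ok.inv_mem _ (P.mem (m + 1)))
  rw [H.ok.inv_inv _ (P.mem (m + 1))] at h3
  omega

theorem dist_steps (P : IsPath H w) {m n : ℕ} (hmn : m ≤ n) :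
    H.distBd (w n) ≤ H.distBd (w m) + (n - m) ∧ H.distBd (w m) ≤ H.distBd (w n) + (n - m) := by
  induction n, hmn using Nat.le_induction with
  | base => omega
  | succ n hn ih =>
    have h := dist_step P n
    omega

end HPT

end Pool.Agent.Spd
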