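import Pool.Agent.Spd.G01

/-!
(Part `G13a`: `rmax`, `le_rmax`, `rmax_attained`, `rmax_le`, `rmax_shift`, `rmax_comp`.  The text below is the common header of the parts.)

# SPD G13: distances along the exploration (pathwise)

`rmax H G` = maximal distance (in `H`) of the line of the sub-map `G` from the boundary of `H`.

* `le_rmax`, `rmax_attained`: `line_bdd`: a bounded set of natural numbers (`Nat.sSup_mem`,
  `le_csSup`).
* `rmax_shift`: the same set.
* `rmax_comp`: for a line vertex `x` of `K` (`K.bd i ∈ G.D`): `H.distBd x ≤ G.distBd x + rmax H G`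
  (`dist_le_add`).
* `line_le`: induction on `n`: `star_dist` at pioneer times (`reg_succ_pio`), `n = 0`: `reg 0 = H`
  (`exec_nil`), distance `0`.
* `near_pio`: let `x = (reg n).bd i` attain the maximum.  `reg_line_nbr` with `c₀ = []`: either `x` has the
  origin of some `H.bd j`: distance `0`; or it is a neighbour of `w m`, `m < n`: `distBd_adj`,
  `distBd_sameV`.
* `pos_le`: let `w m` be the position at time `m`.  `pio_or_blw`: if `m` is a pioneer time, it is on the line
  of `reg m`: `line_le`.  Otherwise it is strictly below `reg m`; let `j < m` be maximal with `w m` not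
  strictly below `reg j` (`j = 0` qualifies: `w m ∈ H.D`); then `reg (j+1) ≠ reg j`, so `j` is a pioneer time,
  `w m`'s vertex has a dart `e ∈ (reg j).D`, strictly below `(regAt j).star = reg (j+1)`.  `swallow_dist` in
  `G = regAt j`: `G.distBd e ≤ starVol + 1` (`Blw G G.star e` follows from `Blw H (reg (j+1)) e`,
  `Sub.sameV`); `dist_le_add` with `line_le`:
  `H.distBd e ≤ starVol + 1 + card (pios 0 j) ≤ card (pios 0 m) + starVol` (as `j ∈ pios 0 m`).
* `dist_step`: `w m ~ inv (w (m+1))`: `distBd_sameV`, `distBd_adj`.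
-/

namespace Pool.Agent.Spd

namespace HPT

/-- Maximal distance of the line of `G` from the boundary of `H`. -/
noncomputable def rmax (H G : HPT) : ℕ := sSup (Set.range (fun i : ℤ => H.distBd (G.M.bd i)))

variable {H G K : HPT} {w : ℕ → ℕ}

private theorem g13_bdd (S : Sub G H) :
    BddAbove (Set.range (fun i : ℤ => H.distBd (G.M.bd i))) := by
  obtain ⟨m, hm⟩ := line_bdd S
  exact ⟨m, by rintro _ ⟨i, rfl⟩; exact hm i⟩

theorem le_rmax (S : Sub G H) (i : ℤ) : H.distBd (G.M.bd i) ≤ rmax H G :=
  le_csSup (g13_bdd S) ⟨i, rfl⟩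

theorem rmax_attained (S : Sub G H) : ∃ i, rmax H G = H.distBd (G.M.bd i) := by
  obtain ⟨i, hi⟩ := Nat.sSup_mem (Set.range_nonempty _) (g13_bdd S)
  exact ⟨i, hi.symm⟩

theorem rmax_le (S : Sub G H) {m : ℕ} (h : ∀ i, H.distBd (G.M.bd i) ≤ m) : rmax H G ≤ m := by
  obtain ⟨i, hi⟩ := rmax_attained S
  rw [hi]
  exact h i

theorem rmax_shift (i : ℤ) : rmax H (G.shift i) = rmax H G := by
  have h1 : Set.range (fun j : ℤ => H.distBd ((G.shift i).M.bd j)) =
      Set.range (fun j : ℤ => H.distBd (G.M.bd j)) := by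
    ext x
    constructor
    · rintro ⟨j, rfl⟩
      exact ⟨j + i, rfl⟩
    · rintro ⟨j, rfl⟩
      refine ⟨j - i, ?_⟩
      change H.distBd (G.M.bd (j - i + i)) = H.distBd (G.M.bd j)
      rw [sub_add_cancel]
  unfold rmax
  rw [h1]

theorem rmax_comp (S : Sub G H) (T : Sub K G) : rmax H K ≤ rmax H G + rmax G K := by
  refine rmax_le (T.trans S) fun i => ?_
  have h1 := dist_le_add S (le_rmax S) (T.memD (K.ok.bd_mem i))
  have h2 := le_rmax T i
  omega

end HPT

end Pool.Agent.Spd
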