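import Pool.Agent.Spd.G14a

/-!
(Part `G14b`: `Rz`, `Rz_sub`, `Rz_one`.  The text below is the common header of the parts.)

# SPD G14: the sequence of regeneration times

`Good z`: `Esc` and infinitely many regeneration times.  `tauN z k = ∑ i < k, fstT (theta^i z)`.

* `fst_spec`: `Nat.sInf_mem`, `Nat.notMem_of_lt_sInf`; `Reg` includes `1 ≤ n`.
* `good_theta`: `n = fstT z`, `Stays n`; `theta z = seenZ z n` escapes (`kapR_spec` through
  `seenZ_lift`) and
  `reg_seenZ`.
* `renew`: induction on `k ≥ 1`: `theta^[k+1] z = theta (theta^[k] z) = seenZ (seenZ z τ_k) (fstT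
  ..)`,
  `= seenZ z (τ_k + fstT ..)` by `seenZ_seenZ`; `Reg` by `reg_seenZ`.
  (`Function.iterate_succ_apply'`; for `k = 1`: `theta z = seenZ z (fstT z)`.)
* `tauN_add`: `Finset.sum_range_add`-like, `Function.iterate_add_apply`.
* `tauN_strictMono`: `1 ≤ fstT`.
* `Rz k z = rmax z.1 (reg [] z.1 (pth z) (tauN z k))`.
* `Rz_sub`: `m, n ≥ 1`, `z' = theta^[m] z = seenZ z τ`, `τ = tauN z m`: `pth z' = frame ..`
  (`pth_seen`
through `seenZ_lift`), so `reg [] z'.1 (pth z') (tauN z' n) = reg [] z.1 (pth z) (τ + tauN z' n)`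
  by
`frame_reg` (`tauN z' n ≥ 1`), `z'.1 = regAt [] z.1 (pth z) τ` is a shift of `reg ..`:
  `rmax_shift`,
  `rmax_comp` (`reg_mono`, `Sub.shift'`).
* `Rz_one`: `rmax_le`, `line_le`, `slabK`.
* `kap_le`: induction on `n`: pioneers in `[0, tauN z (n+1))` are those in `[tauN z i, tauN z
  (i+1))`, `i ≤ n`,
  whose number is `slabK (theta^[i] z)` (`pio_seenZ`).
* `measurable_Rz`: on `{tauN z k = n}` (measurable, `measurable_fstT`, `measurable_theta`) it is
  `rmax z.1 (reg [] z.1 (pth z) n)`; on a cell `{hist [] z.1 (liftU z) n = h}` the region is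
  `z.1.exec h.1`, and `rmax H (H.exec c)` is a countable supremum of measurable functions
  (`measurable_distLine`; bounded for each `H`).
-/

namespace Pool.Agent.Spd

open MeasureTheory HPT

/-- Maximal distance of the line at the `k`-th regeneration. -/
noncomputable def Rz (k : ℕ) (z : Sp) : ℕ := rmax z.1 (reg [] z.1 (pth z) (tauN z k))

theorem Rz_sub {z : Sp} (h : Good z) {m n : ℕ} (hm : 1 ≤ m) (hn : 1 ≤ n) :
    Rz (m + n) z ≤ Rz m z + Rz n (theta^[m] z) := by
  obtain ⟨hR, hz⟩ := renew h hm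
  have hS : Stays [] z.1 (pth z) (tauN z m) := hR.2.1
  have hν : 0 < tauN (theta^[m] z) n := by
    have h1 := tauN_strictMono (good_iter h m) (show 0 < n from hn)
    exact lt_of_le_of_lt (Nat.zero_le _) h1
  obtain ⟨k, hk⟩ : ∃ k, tauN (theta^[m] z) n = k + 1 := ⟨_, (Nat.succ_pred_eq_of_pos hν).symm⟩
  have hp : pth (theta^[m] z) =
      frame (regAt [] z.1 (pth z) (tauN z m)) (pth z) (tauN z m) := by
    have hS' : Stays [] z.1 (z.1.walk (liftU z)) (tauN z m) := by
      rw [← pth_lift z]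
      exact hS
    have h1 : pth (seen [] (z.1, liftU z) (tauN z m)) =
        frame (regAt [] z.1 (z.1.walk (liftU z)) (tauN z m)) (z.1.walk (liftU z)) (tauN z m) :=
      pth_seen (p := (z.1, liftU z)) hS'
    rw [hz, seenZ_lift, h1, ← pth_lift z]
  have hz1 : (theta^[m] z).1 = regAt [] z.1 (pth z) (tauN z m) := by
    rw [hz]
    rfl
  have hreg : reg [] (theta^[m] z).1 (pth (theta^[m] z)) (tauN (theta^[m] z) n) =
      reg [] z.1 (pth z) (tauN z (m + n)) := by
    rw [hz1, hp, hk, frame_reg (pth_isPath z) hS k, tauN_add, hk]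
  unfold Rz
  rw [hreg, hz1]
  have hle : tauN z m ≤ tauN z (m + n) := by
    rw [tauN_add]
    exact Nat.le_add_right _ _
  have h2 := rmax_comp (H := z.1) (G := regAt [] z.1 (pth z) (tauN z m)) regAt_sub
    ((reg_mono (c₀ := []) (H := z.1) (w := pth z) hle).shift' (pidx [] z.1 (pth z) (tauN z m)))
  have h3 : rmax z.1 (regAt [] z.1 (pth z) (tauN z m)) =
      rmax z.1 (reg [] z.1 (pth z) (tauN z m)) := rmax_shift _
  rw [h3] at h2
  exact h2

theorem Rz_one (z : Sp) : Rz 1 z ≤ slabK z := by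
  have h1 : tauN z 1 = fstT z := by
    unfold tauN
    rw [Finset.sum_range_one]
    rfl
  unfold Rz
  rw [h1]
  exact rmax_le (reg_sub _) fun i => line_le (pth_isPath z) (fstT z) i

end Pool.Agent.Spd
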