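import Pool.Agent.Spd.G14a

/-! (Part `G14c`: `kap_le`. The text below is the common header of the parts.)

# SPD G14: the sequence of regeneration times

`Good z`: `Esc` and infinitely many regeneration times. `tauN z k = ∑ i < k, fstT (theta^i z)`.

* `fst_spec`: `Nat.sInf_mem`, `Nat.notMem_of_lt_sInf`; `Reg` includes `1 ≤ n`. * `good_theta`: `n
= fstT z`, `Stays n`; `theta z = seenZ z n` escapes (`kapR_spec` through `seenZ_lift`) and
`reg_seenZ`. * `renew`: induction on `k ≥ 1`: `theta^[k+1] z = theta (theta^[k] z) = seenZ (seenZ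
z τ_k) (fstT ..)`, `= seenZ z (τ_k + fstT ..)` by `seenZ_seenZ`; `Reg` by `reg_seenZ`.
(`Function.iterate_succ_apply'`; for `k = 1`: `theta z = seenZ z (fstT z)`.) * `tauN_add`:
`Finset.sum_range_add`-like, `Function.iterate_add_apply`. * `tauN_strictMono`: `1 ≤ fstT`. * `Rz
k z = rmax z.1 (reg [] z.1 (pth z) (tauN z k))`. * `Rz_sub`: `m, n ≥ 1`, `z' = theta^[m] z = seenZ
z τ`, `τ = tauN z m`: `pth z' = frame ..` (`pth_seen` through `seenZ_lift`), so `reg [] z'.1 (pth
z') (tauN z' n) = reg [] z.1 (pth z) (τ + tauN z' n)` by `frame_reg` (`tauN z' n ≥ 1`), `z'.1 =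
regAt [] z.1 (pth z) τ` is a shift of `reg ..`: `rmax_shift`, `rmax_comp` (`reg_mono`,
`Sub.shift'`). * `Rz_one`: `rmax_le`, `line_le`, `slabK`. * `kap_le`: induction on `n`: pioneers
in `[0, tauN z (n+1))` are those in `[tauN z i, tauN z (i+1))`, `i ≤ n`, whose number is `slabK
(theta^[i] z)` (`pio_seenZ`). * `measurable_Rz`: on `{tauN z k = n}` (measurable,
`measurable_fstT`, `measurable_theta`) it is `rmax z.1 (reg [] z.1 (pth z) n)`; on a cell `{hist
[] z.1 (liftU z) n = h}` the region is `z.1.exec h.1`, and `rmax H (H.exec c)` is a countable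
supremum of measurable functions (`measurable_distLine`; bounded for each `H`). -/

namespace Pool.Agent.Spd

open MeasureTheory HPT

private theorem slab_piece {z : Sp} (h : Good z) (k : ℕ) :
    (pios [] z.1 (pth z) (tauN z k) (tauN z k + fstT (theta^[k] z))).card =
      slabK (theta^[k] z) := by
  classical
  rcases Nat.eq_zero_or_pos k with rfl | hk
  · have h0 : tauN z 0 = 0 := by
      unfold tauN
      rw [Finset.range_zero, Finset.sum_empty]
    rw [h0, zero_add]
    rfl
  · obtain ⟨h1, h2⟩ := renew h hk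
    have h3 : pios [] z.1 (pth z) (tauN z k) (tauN z k + fstT (theta^[k] z)) =
        (pios [] (theta^[k] z).1 (pth (theta^[k] z)) 0 (fstT (theta^[k] z))).map
          (addLeftEmbedding (tauN z k)) := by
      ext m
      unfold pios
      rw [Finset.mem_map, Finset.mem_filter, Finset.mem_Ico]
      constructor
      · rintro ⟨⟨h4, h5⟩, h6⟩
        refine ⟨m - tauN z k, ?_, ?_⟩
        · rw [Finset.mem_filter, Finset.mem_Ico]
          refine ⟨⟨Nat.zero_le _, by omega⟩, ?_⟩
          have h7 := pio_seenZ h1.2.1 (m - tauN z k)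
          rw [← h2, show tauN z k + (m - tauN z k) = m by omega] at h7
          exact h7.2 h6
        · change tauN z k + (m - tauN z k) = m
          omega
      · rintro ⟨j, hj, rfl⟩
        rw [Finset.mem_filter, Finset.mem_Ico] at hj
        change (tauN z k ≤ tauN z k + j ∧ tauN z k + j < _) ∧
          Pio [] z.1 (pth z) (tauN z k + j)
        refine ⟨⟨by omega, by omega⟩, ?_⟩
        have h7 := pio_seenZ h1.2.1 j
        rw [← h2] at h7
        exact h7.1 hj.2
    rw [h3, Finset.card_map]
    rfl

private theorem slab_sum {z : Sp} (h : Good z) (k : ℕ) :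
    (pios [] z.1 (pth z) 0 (tauN z k)).card ≤ ∑ i ∈ Finset.range k, slabK (theta^[i] z) := by
  classical
  induction k with
  | zero =>
    have h0 : tauN z 0 = 0 := by
      unfold tauN
      rw [Finset.range_zero, Finset.sum_empty]
    rw [h0]
    unfold pios
    simp
  | succ k ih =>
    have h1 : tauN z (k + 1) = tauN z k + fstT (theta^[k] z) := by
      unfold tauN
      rw [Finset.sum_range_succ]
    have h2 : pios [] z.1 (pth z) 0 (tauN z (k + 1)) ⊆
        pios [] z.1 (pth z) 0 (tauN z k) ∪
          pios [] z.1 (pth z) (tauN z k) (tauN z k + fstT (theta^[k] z)) := by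
      intro m hm
      unfold pios at hm ⊢
      rw [Finset.mem_filter, Finset.mem_Ico, h1] at hm
      rw [Finset.mem_union, Finset.mem_filter, Finset.mem_filter, Finset.mem_Ico,
        Finset.mem_Ico]
      rcases Nat.lt_or_ge m (tauN z k) with h3 | h3
      · exact Or.inl ⟨⟨Nat.zero_le _, h3⟩, hm.2⟩
      · exact Or.inr ⟨⟨h3, hm.1.2⟩, hm.2⟩
    rw [Finset.sum_range_succ]
    refine (Finset.card_le_card h2).trans ((Finset.card_union_le _ _).trans ?_)
    rw [slab_piece h k]
    omega

theorem kap_le {z : Sp} (h : Good z) {n m : ℕ} (hm : m < tauN z (n + 1)) :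
    (pios [] z.1 (pth z) 0 m).card ≤ ∑ i ∈ Finset.range (n + 1), slabK (theta^[i] z) := by
  classical
  refine (Finset.card_le_card ?_).trans (slab_sum h (n + 1))
  intro j hj
  unfold pios at hj ⊢
  rw [Finset.mem_filter, Finset.mem_Ico] at hj ⊢
  exact ⟨⟨Nat.zero_le _, by omega⟩, hj.2⟩

end Pool.Agent.Spd
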