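import Pool.Agent.Spd.G14b

/-!
(Part `G14d`: `measurable_tauN`, `measurable_Rz`.  The text below is the common header of the
parts.)

# SPD G14: the sequence of regeneration times

`Good z`: `Esc` and infinitely many regeneration times.  `tauN z k = ∑ i < k, fstT (theta^i z)`.

* `measurable_Rz`: on `{tauN z k = n}` (measurable, `measurable_fstT`, `measurable_theta`) it is
  `rmax z.1 (reg [] z.1 (pth z) n)`; on a cell `{hist [] z.1 (liftU z) n = h}` the region is
  `z.1.exec h.1`, and `rmax H (H.exec c)` is a countable supremum of measurable functions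
  (`measurable_distLine`).
-/

namespace Pool.Agent.Spd

open MeasureTheory HPT

theorem measurable_tauN (k : ℕ) : Measurable (fun z : Sp => tauN z k) := by
  unfold tauN
  exact Finset.measurable_fun_sum _ fun i _ => measurable_fstT.comp (measurable_theta.iterate i)

/-- The maximal distance of the line of an explored region is a measurable function. -/
private theorem measurable_rmax_exec (c : List ℤ) :
    Measurable (fun H : HPT => rmax H (H.exec c)) := by
  have h1 : Measurable (fun H : HPT => ⨆ i : ℤ, H.distBd ((H.exec c).M.bd i)) :=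
    Measurable.iSup fun i => measurable_distLine c i
  exact h1

/-- For a fixed time the maximal distance of the line of the unexplored region is measurable. -/
private theorem measurable_rmax_reg (n : ℕ) : Measurable
    (fun p : HPT × (ℕ → unitInterval) => rmax p.1 (reg [] p.1 (p.1.walk p.2) n)) := by
  intro B hB
  have hset : (fun p : HPT × (ℕ → unitInterval) =>
      rmax p.1 (reg [] p.1 (p.1.walk p.2) n)) ⁻¹' B =
      ⋃ h : List ℤ × List Step × List ℕ,
        ({p : HPT × (ℕ → unitInterval) | hist [] p.1 p.2 n = h} ∩
          {p | rmax p.1 (p.1.exec h.1) ∈ B}) := by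
    ext p
    rw [Set.mem_iUnion]
    constructor
    · intro hp
      exact ⟨hist [] p.1 p.2 n, rfl, hp⟩
    · rintro ⟨h, h1, h2⟩
      have h3 : hist [] p.1 p.2 n = h := h1
      have h4 : rmax p.1 (p.1.exec h.1) ∈ B := h2
      rw [← h3] at h4
      exact h4
  rw [hset]
  refine MeasurableSet.iUnion fun h => (measurableSet_hist [] n h).inter ?_
  exact ((measurable_rmax_exec h.1).comp measurable_fst) hB

theorem measurable_Rz (k : ℕ) : Measurable (fun z : Sp => Rz k z) := by
  intro B hB
  have hset : (fun z : Sp => Rz k z) ⁻¹' B = ⋃ n : ℕ,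
      ((fun z : Sp => tauN z k) ⁻¹' {n} ∩ (fun z : Sp => (z.1, liftU z)) ⁻¹'
        ((fun p : HPT × (ℕ → unitInterval) =>
          rmax p.1 (reg [] p.1 (p.1.walk p.2) n)) ⁻¹' B)) := by
    ext z
    simp only [Set.mem_preimage, Set.mem_iUnion, Set.mem_inter_iff, Set.mem_singleton_iff]
    constructor
    · intro hz
      refine ⟨tauN z k, rfl, ?_⟩
      rw [← pth_lift]
      exact hz
    · rintro ⟨n, rfl, hz⟩
      rw [← pth_lift] at hz
      exact hz
  rw [hset]
  exact MeasurableSet.iUnion fun n => (measurable_tauN k (measurableSet_singleton n)).inter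
    (measurable_liftU (measurable_rmax_reg n hB))

end Pool.Agent.Spd
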