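import Pool.Agent.Spd.G12
import Pool.Agent.Spd.G13

/-!
(Part `G14a`: `fst_spec`, `good_theta`, `good_iter`, `tauN`, `renew`, `tauN_add`, `tauN_strictMono`.  The text below is the common header of the parts.)

# SPD G14: the sequence of regeneration times

`Good z`: `Esc` and infinitely many regeneration times.  `tauN z k = ∑ i < k, fstT (theta^i z)`.

* `fst_spec`: `Nat.sInf_mem`, `Nat.notMem_of_lt_sInf`; `Reg` includes `1 ≤ n`.
* `good_theta`: `n = fstT z`, `Stays n`; `theta z = seenZ z n` escapes (`kapR_spec` through `seenZ_lift`) and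
  `reg_seenZ`.
* `renew`: induction on `k ≥ 1`: `theta^[k+1] z = theta (theta^[k] z) = seenZ (seenZ z τ_k) (fstT ..)`,
  `= seenZ z (τ_k + fstT ..)` by `seenZ_seenZ`; `Reg` by `reg_seenZ`.
  (`Function.iterate_succ_apply'`; for `k = 1`: `theta z = seenZ z (fstT z)`.)
* `tauN_add`: `Finset.sum_range_add`-like, `Function.iterate_add_apply`.
* `tauN_strictMono`: `1 ≤ fstT`.
* `Rz k z = rmax z.1 (reg [] z.1 (pth z) (tauN z k))`.
* `Rz_sub`: `m, n ≥ 1`, `z' = theta^[m] z = seenZ z τ`, `τ = tauN z m`: `pth z' = frame ..` (`pth_seen`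
  through `seenZ_lift`), so `reg [] z'.1 (pth z') (tauN z' n) = reg [] z.1 (pth z) (τ + tauN z' n)` by
  `frame_reg` (`tauN z' n ≥ 1`), `z'.1 = regAt [] z.1 (pth z) τ` is a shift of `reg ..`: `rmax_shift`,
  `rmax_comp` (`reg_mono`, `Sub.shift'`).
* `Rz_one`: `rmax_le`, `line_le`, `slabK`.
* `kap_le`: induction on `n`: pioneers in `[0, tauN z (n+1))` are those in `[tauN z i, tauN z (i+1))`, `i ≤ n`,
  whose number is `slabK (theta^[i] z)` (`pio_seenZ`).
* `measurable_Rz`: on `{tauN z k = n}` (measurable, `measurable_fstT`, `measurable_theta`) it is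
  `rmax z.1 (reg [] z.1 (pth z) n)`; on a cell `{hist [] z.1 (liftU z) n = h}` the region is
  `z.1.exec h.1`, and `rmax H (H.exec c)` is a countable supremum of measurable functions
  (`measurable_distLine`; bounded for each `H`).
-/

namespace Pool.Agent.Spd

open MeasureTheory HPT

theorem fst_spec {z : Sp} (h : Good z) :
    Reg [] z.1 (pth z) (fstT z) ∧ 1 ≤ fstT z ∧ ∀ m < fstT z, ¬ Reg [] z.1 (pth z) m := by
  have hne : {n | Reg [] z.1 (pth z) n}.Nonempty := by
    obtain ⟨n, -, hn⟩ := h.2 0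
    exact ⟨n, hn⟩
  have h1 : Reg [] z.1 (pth z) (fstT z) := Nat.sInf_mem hne
  exact ⟨h1, h1.1, fun m hm => Nat.notMem_of_lt_sInf hm⟩

theorem good_theta {z : Sp} (h : Good z) : Good (theta z) := by
  obtain ⟨h1, h2, -⟩ := fst_spec h
  have hs : Stays [] z.1 (pth z) (fstT z) := h1.2.1
  refine ⟨?_, fun a => ?_⟩
  · have h3 := hs
    rw [pth_lift] at h3
    have h4 := (kapR_spec (p := (z.1, liftU z)) h3).1
    rw [← seenZ_lift] at h4
    exact h4
  · obtain ⟨n, hn, hr⟩ := h.2 (fstT z + a)
    refine ⟨n - fstT z, by omega, ?_⟩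
    refine (reg_seenZ hs (by omega)).2 ?_
    rw [show fstT z + (n - fstT z) = n by omega]
    exact hr

theorem good_iter {z : Sp} (h : Good z) (k : ℕ) : Good (theta^[k] z) := by
  induction k with
  | zero => exact h
  | succ k ih =>
      rw [Function.iterate_succ_apply']
      exact good_theta ih

/-- Time of the `k`-th regeneration. -/
noncomputable def tauN (z : Sp) (k : ℕ) : ℕ := ∑ i ∈ Finset.range k, fstT (theta^[i] z)

theorem renew {z : Sp} (h : Good z) {k : ℕ} (hk : 1 ≤ k) :
    Reg [] z.1 (pth z) (tauN z k) ∧ theta^[k] z = seenZ z (tauN z k) := by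
  induction k, hk using Nat.le_induction with
  | base =>
      have h1 : tauN z 1 = fstT z := by
        unfold tauN
        rw [Finset.sum_range_one, Function.iterate_zero_apply]
      rw [h1]
      exact ⟨(fst_spec h).1, rfl⟩
  | succ k hk ih =>
      obtain ⟨h1, h2⟩ := ih
      have h3 : tauN z (k + 1) = tauN z k + fstT (theta^[k] z) := by
        unfold tauN
        rw [Finset.sum_range_succ]
      obtain ⟨h4, h5, -⟩ := fst_spec (good_iter h k)
      have h6 : Reg [] z.1 (pth z) (tauN z k + fstT (theta^[k] z)) := by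
        rw [h2] at h4 h5 ⊢
        exact (reg_seenZ h1.2.1 h5).1 h4
      rw [h3]
      refine ⟨h6, ?_⟩
      rw [Function.iterate_succ_apply']
      rw [h2] at h5 h6 ⊢
      exact seenZ_seenZ h1.2.1 h5 h6.2.1.1

theorem tauN_add (z : Sp) (m n : ℕ) : tauN z (m + n) = tauN z m + tauN (theta^[m] z) n := by
  unfold tauN
  rw [Finset.sum_range_add]
  congr 1
  refine Finset.sum_congr rfl fun i _ => ?_
  rw [add_comm m i, Function.iterate_add_apply]

theorem tauN_strictMono {z : Sp} (h : Good z) : StrictMono (tauN z) := by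
  refine strictMono_nat_of_lt_succ fun n => ?_
  have h1 : tauN z (n + 1) = tauN z n + fstT (theta^[n] z) := by
    unfold tauN
    rw [Finset.sum_range_succ]
  have h2 := (fst_spec (good_iter h n)).2.1
  omega

end Pool.Agent.Spd
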