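import Mathlib

/-!
# SPD block K: Kingman's theorem (almost everywhere convergence, no ergodicity), MP_0d5543_pr

Mathlib only.  `kingman`: nonnegative integrable subadditive sequences over a measure preserving map.
`avg_dichotomy`: averages of a nonnegative measurable function (integrable or not) converge to a
finite limit or tend to infinity, almost everywhere.
-/

open MeasureTheory Filter Topology

set_option linter.unusedSectionVars false

namespace Pool.Agent.Spd

variable {Z : Type*} [MeasurableSpace Z] {μ : Measure Z} {θ : Z → Z}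

/-! ### The maximal inequality (Garsia) -/

/-- `max (0, S_1, ..., S_n)` by recursion -/
noncomputable def mx (θ : Z → Z) (f : Z → ℝ) : ℕ → Z → ℝ
  | 0 => fun _ => 0
  | n + 1 => fun z => max 0 (f z + mx θ f n (θ z))

theorem mx_nonneg (f : Z → ℝ) (n : ℕ) (z : Z) : 0 ≤ mx θ f n z := by
  cases n with
  | zero => exact le_refl _
  | succ n => exact le_max_left _ _

theorem mx_mono (f : Z → ℝ) (n : ℕ) (z : Z) : mx θ f n z ≤ mx θ f (n + 1) z := by
  induction n generalizing z with
  | zero => exact mx_nonneg f 1 z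
  | succ n ih =>
    show max 0 (f z + mx θ f n (θ z)) ≤ max 0 (f z + mx θ f (n + 1) (θ z))
    exact max_le_max le_rfl (add_le_add le_rfl (ih _))

theorem sum_le_mx (f : Z → ℝ) (n : ℕ) (z : Z) {k : ℕ} (hk : k ≤ n) :
    birkhoffSum θ f k z ≤ mx θ f n z := by
  induction n generalizing z k with
  | zero =>
    obtain rfl : k = 0 := by omega
    simp [mx]
  | succ n ih =>
    rcases Nat.eq_zero_or_pos k with rfl | hk0
    · simpa using mx_nonneg f (n + 1) z
    · obtain ⟨j, rfl⟩ := Nat.exists_eq_add_of_lt hk0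
      rw [zero_add, birkhoffSum_succ']
      have := ih (θ z) (k := j) (by omega)
      exact (add_le_add le_rfl this).trans (le_max_right _ _)

theorem mx_measurable (hθ : Measurable θ) {f : Z → ℝ} (hf : Measurable f) (n : ℕ) :
    Measurable (mx θ f n) := by
  induction n with
  | zero => exact measurable_const
  | succ n ih => exact measurable_const.max (hf.add (ih.comp hθ))

theorem mx_integrable (hθ : MeasurePreserving θ μ μ) {f : Z → ℝ} (hf : Integrable f μ)
    (hfm : Measurable f) (n : ℕ) : Integrable (mx θ f n) μ := by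
  induction n with
  | zero => exact integrable_zero _ _ _
  | succ n ih =>
    have h1 : Integrable (fun z => mx θ f n (θ z)) μ :=
      (hθ.integrable_comp (mx_measurable hθ.measurable hfm n).aestronglyMeasurable).mpr ih
    have h2 : Integrable (fun z => f z + mx θ f n (θ z)) μ := hf.add h1
    have h3 := (integrable_zero Z ℝ μ).sup h2
    exact h3

theorem garsia (hθ : MeasurePreserving θ μ μ) {f : Z → ℝ} (hf : Integrable f μ)
    (hfm : Measurable f) (n : ℕ) :
    0 ≤ ∫ z in {z | 0 < mx θ f n z}, f z ∂μ := by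
  have hM := mx_integrable hθ hf hfm n
  have hMm := mx_measurable hθ.measurable hfm n
  have hE : MeasurableSet {z | 0 < mx θ f n z} := measurableSet_lt measurable_const hMm
  have hMT : Integrable (fun z => mx θ f n (θ z)) μ :=
    (hθ.integrable_comp hMm.aestronglyMeasurable).mpr hM
  have hint : ∫ z, mx θ f n (θ z) ∂μ = ∫ z, mx θ f n z ∂μ := by
    have := integral_map (μ := μ) hθ.measurable.aemeasurable
      (f := mx θ f n) (by rw [hθ.map_eq]; exact hMm.aestronglyMeasurable)
    rw [hθ.map_eq] at this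
    exact this.symm
  -- on the set, mx n z ≤ f z + mx n (θ z)
  have h1 : ∫ z in {z | 0 < mx θ f n z}, (mx θ f n z - mx θ f n (θ z)) ∂μ ≤
      ∫ z in {z | 0 < mx θ f n z}, f z ∂μ := by
    apply setIntegral_mono_on (hM.sub hMT).integrableOn hf.integrableOn hE
    intro z hz
    have hz' : 0 < mx θ f n z := hz
    cases n with
    | zero => simp [mx] at hz'
    | succ n =>
      have h2 : mx θ f (n + 1) z = f z + mx θ f n (θ z) := by
        have : mx θ f (n + 1) z = max 0 (f z + mx θ f n (θ z)) := rfl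
        rw [this] at hz' ⊢
        exact max_eq_right (le_of_lt (by
          by_contra hc
          rw [max_eq_left (not_lt.mp hc)] at hz'
          exact lt_irrefl _ hz'))
      have h3 := mx_mono (θ := θ) f n (θ z)
      show mx θ f (n + 1) z - mx θ f (n + 1) (θ z) ≤ f z
      rw [h2]
      linarith
  have h4 : ∫ z in {z | 0 < mx θ f n z}, (mx θ f n z - mx θ f n (θ z)) ∂μ =
      ∫ z in {z | 0 < mx θ f n z}, mx θ f n z ∂μ - ∫ z in {z | 0 < mx θ f n z}, mx θ f n (θ z) ∂μ :=
    integral_sub hM.integrableOn hMT.integrableOn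
  have h5 : ∫ z in {z | 0 < mx θ f n z}, mx θ f n z ∂μ = ∫ z, mx θ f n z ∂μ := by
    apply setIntegral_eq_integral_of_forall_compl_eq_zero
    intro z hz
    have : ¬ 0 < mx θ f n z := hz
    exact le_antisymm (not_lt.mp this) (mx_nonneg f n z)
  have h6 : ∫ z in {z | 0 < mx θ f n z}, mx θ f n (θ z) ∂μ ≤ ∫ z, mx θ f n (θ z) ∂μ :=
    setIntegral_le_integral hMT (Eventually.of_forall fun z => mx_nonneg f n (θ z))
  rw [h4, h5] at h1
  linarith

/-- maximal inequality for averages of a nonnegative function -/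
theorem maximal [IsProbabilityMeasure μ] (hθ : MeasurePreserving θ μ μ) {h : Z → ℝ}
    (hh : Integrable h μ) (hm : Measurable h) (h0 : ∀ z, 0 ≤ h z) {lam : ℝ} (hl : 0 < lam) :
    μ {z | ∃ n : ℕ, 1 ≤ n ∧ lam * n < birkhoffSum θ h n z} ≤ ENNReal.ofReal ((∫ z, h z ∂μ) / lam) := by
  set f : Z → ℝ := fun z => h z - lam with hfdef
  have hf : Integrable f μ := hh.sub (integrable_const _)
  have hfm : Measurable f := hm.sub_const _
  have hsum : ∀ k z, birkhoffSum θ f k z = birkhoffSum θ h k z - lam * k := by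
    intro k z
    simp only [birkhoffSum, hfdef, Finset.sum_sub_distrib, Finset.sum_const, Finset.card_range,
      nsmul_eq_mul]
    ring
  -- finite level sets
  have hlev : ∀ n, μ {z | 0 < mx θ f n z} ≤ ENNReal.ofReal ((∫ z, h z ∂μ) / lam) := by
    intro n
    have hE : MeasurableSet {z | 0 < mx θ f n z} :=
      measurableSet_lt measurable_const (mx_measurable hθ.measurable hfm n)
    have h1 := garsia hθ hf hfm n
    have h2 : ∫ z in {z | 0 < mx θ f n z}, f z ∂μ =
        ∫ z in {z | 0 < mx θ f n z}, h z ∂μ - lam * (μ.real {z | 0 < mx θ f n z}) := by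
      rw [hfdef, integral_sub hh.integrableOn (integrable_const _).integrableOn]
      simp [mul_comm]
    have h3 : ∫ z in {z | 0 < mx θ f n z}, h z ∂μ ≤ ∫ z, h z ∂μ :=
      setIntegral_le_integral hh (Eventually.of_forall h0)
    have h4 : μ.real {z | 0 < mx θ f n z} ≤ (∫ z, h z ∂μ) / lam := by
      rw [le_div_iff₀ hl]
      linarith
    rw [← ENNReal.ofReal_toReal (measure_ne_top μ {z | 0 < mx θ f n z})]
    exact ENNReal.ofReal_le_ofReal h4
  have hsub : {z | ∃ n : ℕ, 1 ≤ n ∧ lam * n < birkhoffSum θ h n z} ⊆ ⋃ n, {z | 0 < mx θ f n z} := by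
    rintro z ⟨n, _, hn⟩
    refine Set.mem_iUnion.mpr ⟨n, ?_⟩
    have h1 := sum_le_mx (θ := θ) f n z le_rfl
    rw [hsum] at h1
    show 0 < mx θ f n z
    linarith
  refine (measure_mono hsub).trans ?_
  have hmono : Monotone fun n => {z | 0 < mx θ f n z} := by
    apply monotone_nat_of_le_succ
    intro n z hz
    exact lt_of_lt_of_le hz (mx_mono f n z)
  rw [hmono.measure_iUnion]
  exact iSup_le hlev

/-! ### The decomposition of an orbit -/

/-- pure statement about a subadditive array `a k n` (= `R n (θ^k z)`) -/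
theorem decompose {a : ℕ → ℕ → ℝ}
    (hsub : ∀ k m n, 1 ≤ m → 1 ≤ n → a k (m + n) ≤ a k m + a (k + m) n)
    {c K : ℝ} (hc : 0 ≤ c) (hK : 0 ≤ K) {N : ℕ} {b u : ℕ → ℝ} (hb : ∀ i, 0 ≤ b i) (hu : ∀ i, 0 ≤ u i)
    (hau : ∀ i, a i 1 ≤ K + u i)
    (hgood : ∀ k, a k 1 ≤ b k ∨ ∃ l, 1 ≤ l ∧ l ≤ N ∧ a k l ≤ l * c) :
    ∀ n, 1 ≤ n → ∀ k, a k n ≤ n * c + (∑ i ∈ Finset.range n, (b (k + i) + u (k + i))) + N * K := by
  -- crude bound
  have hcrude : ∀ n, 1 ≤ n → ∀ k, a k n ≤ n * K + ∑ i ∈ Finset.range n, u (k + i) := by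
    intro n hn
    induction n, hn using Nat.le_induction with
    | base => intro k; simpa using hau k
    | succ n hn ih =>
      intro k
      have h1 := hsub k n 1 hn le_rfl
      have h2 := ih k
      have h3 := hau (k + n)
      rw [Finset.sum_range_succ]
      push_cast
      linarith
  have hh0 : ∀ i, 0 ≤ b i + u i := fun i => add_nonneg (hb i) (hu i)
  intro n
  induction n using Nat.strong_induction_on with
  | _ n ih =>
    intro hn k
    have hNK : (0 : ℝ) ≤ N * K := by positivity
    rcases hgood k with hk | ⟨l, hl1, hlN, hal⟩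
    · -- bad position: one step
      rcases Nat.eq_or_lt_of_le hn with h1 | h1
      · rw [← h1]
        simp only [Nat.cast_one, one_mul, Finset.range_one, Finset.sum_singleton, add_zero]
        linarith [hu k]
      · obtain ⟨m, rfl⟩ : ∃ m, n = 1 + m := ⟨n - 1, by omega⟩
        have h2 := hsub k 1 m le_rfl (by omega)
        have h3 := ih m (by omega) (by omega) (k + 1)
        rw [add_comm 1 m, Finset.sum_range_succ', add_comm m 1]
        have h4 : ∑ i ∈ Finset.range m, (b (k + 1 + i) + u (k + 1 + i)) =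
            ∑ i ∈ Finset.range m, (b (k + (i + 1)) + u (k + (i + 1))) := by
          apply Finset.sum_congr rfl
          intro i _
          rw [show k + 1 + i = k + (i + 1) by ring]
        rw [h4] at h3
        rw [add_zero]
        push_cast
        nlinarith [hu k]
    · rcases lt_trichotomy n l with h | h | h
      · -- the block does not fit: crude bound
        have h1 := hcrude n hn k
        have h2 : (n : ℝ) * K ≤ N * K := by
          apply mul_le_mul_of_nonneg_right _ hK
          exact_mod_cast (by omega : n ≤ N)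
        have h3 : ∑ i ∈ Finset.range n, u (k + i) ≤ ∑ i ∈ Finset.range n, (b (k + i) + u (k + i)) :=
          Finset.sum_le_sum fun i _ => by linarith [hb (k + i)]
        have h4 : (0 : ℝ) ≤ n * c := by positivity
        linarith
      · subst h
        have h3 : 0 ≤ ∑ i ∈ Finset.range n, (b (k + i) + u (k + i)) :=
          Finset.sum_nonneg fun i _ => hh0 _
        linarith
      · obtain ⟨m, rfl⟩ : ∃ m, n = l + m := ⟨n - l, by omega⟩
        have h2 := hsub k l m hl1 (by omega)
        have h3 := ih m (by omega) (by omega) (k + l)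
        rw [Finset.sum_range_add]
        have h4 : ∑ i ∈ Finset.range m, (b (k + l + i) + u (k + l + i)) =
            ∑ i ∈ Finset.range m, (b (k + (l + i)) + u (k + (l + i))) := by
          apply Finset.sum_congr rfl
          intro i _
          rw [show k + l + i = k + (l + i) by ring]
        rw [h4] at h3
        have h5 : 0 ≤ ∑ i ∈ Finset.range l, (b (k + i) + u (k + i)) :=
          Finset.sum_nonneg fun i _ => hh0 _
        push_cast
        nlinarith

/-! ### The sets of small lower limit -/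

/-- points with `liminf R n z / n < α` -/
def low (R : ℕ → Z → ℝ) (α : ℝ) : Set Z :=
  {z | ∃ j : ℕ, ∃ᶠ n : ℕ in atTop, R n z < (α - 1 / ((j : ℝ) + 1)) * n}

theorem low_measurable {R : ℕ → Z → ℝ} (hm : ∀ n, Measurable (R n)) (α : ℝ) :
    MeasurableSet (low R α) := by
  have : low R α = ⋃ j : ℕ, ⋂ N : ℕ, ⋃ n : ℕ, ⋃ (_ : N ≤ n),
      {z | R n z < (α - 1 / ((j : ℝ) + 1)) * n} := by
    ext z
    simp only [low, frequently_atTop, Set.mem_ofPred_eq, Set.mem_iUnion, Set.mem_iInter, exists_prop]
  rw [this]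
  exact MeasurableSet.iUnion fun j => MeasurableSet.iInter fun N => MeasurableSet.iUnion fun n =>
    MeasurableSet.iUnion fun _ => measurableSet_lt (hm n) measurable_const

theorem low_pos {R : ℕ → Z → ℝ} (h0 : ∀ n z, 0 ≤ R n z) {α : ℝ} {z : Z} (hz : z ∈ low R α) :
    0 < α := by
  obtain ⟨j, hj⟩ := hz
  obtain ⟨n, hn⟩ := hj.exists
  have h1 := h0 n z
  have h2 : (0 : ℝ) < 1 / ((j : ℝ) + 1) := by positivity
  by_contra hc
  have hc' := not_lt.mp hc
  have h3 : (α - 1 / ((j : ℝ) + 1)) * n ≤ 0 := by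
    apply mul_nonpos_of_nonpos_of_nonneg
    · linarith
    · exact Nat.cast_nonneg n
  linarith

/-- in `low R α` some `R l z ≤ l α`, `1 ≤ l` -/
theorem low_exists {R : ℕ → Z → ℝ} {α : ℝ} {z : Z} (hz : z ∈ low R α) :
    ∃ l : ℕ, 1 ≤ l ∧ R l z ≤ l * α := by
  obtain ⟨j, hj⟩ := hz
  obtain ⟨n, hn, hn1⟩ := (hj.and_eventually (eventually_ge_atTop 1)).exists
  refine ⟨n, hn1, ?_⟩
  have h2 : (0 : ℝ) < 1 / ((j : ℝ) + 1) := by positivity
  have h3 : (0 : ℝ) ≤ n := Nat.cast_nonneg n
  nlinarith

theorem low_of_frequently {R : ℕ → Z → ℝ} {a α : ℝ} (h : a < α) {z : Z}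
    (hz : ∃ᶠ n : ℕ in atTop, R n z < a * n) : z ∈ low R α := by
  obtain ⟨j, hj⟩ := exists_nat_one_div_lt (sub_pos.mpr h)
  refine ⟨j, hz.mono fun n hn => lt_of_lt_of_le hn ?_⟩
  apply mul_le_mul_of_nonneg_right _ (Nat.cast_nonneg n)
  linarith

/-- `θ z ∈ low → z ∈ low` -/
theorem low_back {R : ℕ → Z → ℝ}
    (hsub : ∀ m n z, 1 ≤ m → 1 ≤ n → R (m + n) z ≤ R m z + R n (θ^[m] z)) {α : ℝ} {z : Z}
    (hz : θ z ∈ low R α) : z ∈ low R α := by
  obtain ⟨j, hj⟩ := hz
  refine ⟨j + 1, ?_⟩
  have hd : (0 : ℝ) < 1 / ((j : ℝ) + 1) - 1 / (((j + 1 : ℕ) : ℝ) + 1) := by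
    push_cast
    rw [sub_pos]
    apply one_div_lt_one_div_of_lt <;> linarith [(Nat.cast_nonneg j : (0 : ℝ) ≤ j)]
  set d : ℝ := 1 / ((j : ℝ) + 1) - 1 / (((j + 1 : ℕ) : ℝ) + 1) with hd'
  obtain ⟨N, hN⟩ := exists_nat_gt ((R 1 z + |α| + 1) / d)
  rw [frequently_atTop] at hj ⊢
  intro A
  obtain ⟨n, hn, hn'⟩ := hj (max (max A N) 1)
  have hn1 : 1 ≤ n := le_trans (le_max_right _ _) hn
  have hnN : N ≤ n := le_trans (le_trans (le_max_right _ _) (le_max_left _ _)) hn
  have hnA : A ≤ n := le_trans (le_trans (le_max_left _ _) (le_max_left _ _)) hn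
  refine ⟨n + 1, by omega, ?_⟩
  have h1 := hsub 1 n z le_rfl hn1
  rw [Function.iterate_one] at h1
  rw [div_lt_iff₀ hd] at hN
  have h2 : (N : ℝ) ≤ n := by exact_mod_cast hnN
  have h3 : R 1 z + |α| + 1 < d * n := by nlinarith
  have h4 : (1 : ℝ) / (((j + 1 : ℕ) : ℝ) + 1) ≤ 1 := by
    rw [div_le_one (by positivity)]
    have : (0 : ℝ) ≤ ((j + 1 : ℕ) : ℝ) := Nat.cast_nonneg _
    linarith
  have h5 := neg_abs_le α
  rw [add_comm n 1]
  push_cast at *
  nlinarith

theorem low_ae [IsProbabilityMeasure μ] (hθ : MeasurePreserving θ μ μ) {R : ℕ → Z → ℝ}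
    (hm : ∀ n, Measurable (R n))
    (hsub : ∀ m n z, 1 ≤ m → 1 ≤ n → R (m + n) z ≤ R m z + R n (θ^[m] z)) (α : ℝ) :
    ∀ᵐ z ∂μ, z ∈ low R α → ∀ i : ℕ, θ^[i] z ∈ low R α := by
  have hE := low_measurable hm α
  have hsubset : θ ⁻¹' (low R α) ⊆ low R α := fun z hz => low_back hsub hz
  have h1 : μ (low R α \ θ ⁻¹' (low R α)) = 0 := by
    rw [measure_sdiff hsubset (hθ.measurable hE).nullMeasurableSet (measure_ne_top _ _),
      hθ.measure_preimage hE.nullMeasurableSet, tsub_self]
  have h2 : ∀ᵐ z ∂μ, z ∈ low R α → θ z ∈ low R α := by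
    rw [ae_iff]
    convert h1 using 2
    ext z
    simp
  have h3 : ∀ᵐ z ∂μ, ∀ i : ℕ, (θ^[i] z ∈ low R α → θ (θ^[i] z) ∈ low R α) := by
    rw [ae_all_iff]
    intro i
    exact (hθ.iterate i).quasiMeasurePreserving.ae h2
  filter_upwards [h3] with z hz hz0 i
  induction i with
  | zero => exact hz0
  | succ i ih =>
    rw [Function.iterate_succ_apply']
    exact hz i ih

/-- an integral which is smaller than every `ofReal` of a null sequence -/
theorem measure_zero_of_le {s : Set Z} {c : ℕ → ℝ} (hc : Tendsto c atTop (𝓝 0))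
    (h : ∀ N, μ s ≤ ENNReal.ofReal (c N)) : μ s = 0 := by
  have h1 : Tendsto (fun N => ENNReal.ofReal (c N)) atTop (𝓝 0) := by
    have := ENNReal.tendsto_ofReal hc
    simpa using this
  exact le_antisymm (ge_of_tendsto' h1 h) zero_le

/-- **upcrossings are null** -/
theorem no_upcrossing [IsProbabilityMeasure μ] (hθ : MeasurePreserving θ μ μ) (R : ℕ → Z → ℝ)
    (hm : ∀ n, Measurable (R n)) (h0 : ∀ n z, 0 ≤ R n z)
    (hsub : ∀ m n z, 1 ≤ m → 1 ≤ n → R (m + n) z ≤ R m z + R n (θ^[m] z))
    (hint : Integrable (R 1) μ) {α β : ℝ} (hα : 0 < α) (hαβ : α < β) :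
    ∀ᵐ z ∂μ, z ∈ low R α → ¬ ∃ᶠ n : ℕ in atTop, β * n < R n z := by
  have hE := low_measurable hm α
  -- bad sets
  set B : ℕ → Set Z := fun N => {w | w ∈ low R α ∧ ∀ l : ℕ, l ≤ N → 1 ≤ l → l * α < R l w} with hB
  have hBm : ∀ N, MeasurableSet (B N) := by
    intro N
    have : B N = low R α ∩ ⋂ l : ℕ, ⋂ (_ : l ≤ N), ⋂ (_ : 1 ≤ l), {w | (l : ℝ) * α < R l w} := by
      ext w
      simp only [hB, Set.mem_ofPred_eq, Set.mem_inter_iff, Set.mem_iInter]
    rw [this]
    exact hE.inter (MeasurableSet.iInter fun l => MeasurableSet.iInter fun _ =>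
      MeasurableSet.iInter fun _ => measurableSet_lt measurable_const (hm l))
  set U : ℕ → Set Z := fun N => {w | (N : ℝ) < R 1 w} with hU
  have hUm : ∀ N : ℕ, MeasurableSet (U N) := fun N =>
    measurableSet_lt measurable_const (hm 1)
  set h : ℕ → Z → ℝ := fun N w => (B N).indicator (R 1) w + (U N).indicator (R 1) w
    with hh
  have hhm : ∀ N, Measurable (h N) := fun N =>
    ((hm 1).indicator (hBm N)).add ((hm 1).indicator (hUm N))
  have hhi : ∀ N, Integrable (h N) μ := fun N =>
    (hint.indicator (hBm N)).add (hint.indicator (hUm N))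
  have hb0 : ∀ N w, 0 ≤ (B N).indicator (R 1) w := fun N w =>
    Set.indicator_nonneg (fun _ _ => h0 1 _) w
  have hu0 : ∀ (N : ℕ) w, 0 ≤ (U N).indicator (R 1) w := fun N w =>
    Set.indicator_nonneg (fun _ _ => h0 1 _) w
  have hh0 : ∀ N w, 0 ≤ h N w := fun N w => add_nonneg (hb0 N w) (hu0 N w)
  -- integrals tend to zero
  have hlim : Tendsto (fun N => ∫ w, h N w ∂μ) atTop (𝓝 0) := by
    have : Tendsto (fun N => ∫ w, h N w ∂μ) atTop (𝓝 (∫ w, (0 : ℝ) ∂μ)) := by
      apply tendsto_integral_of_dominated_convergence (fun w => R 1 w + R 1 w)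
      · exact fun N => (hhm N).aestronglyMeasurable
      · exact hint.add hint
      · intro N
        apply Eventually.of_forall
        intro w
        rw [Real.norm_of_nonneg (hh0 N w)]
        exact add_le_add (Set.indicator_le_self' (fun _ _ => h0 1 _) w)
          (Set.indicator_le_self' (fun _ _ => h0 1 _) w)
      · apply Eventually.of_forall
        intro w
        apply tendsto_const_nhds.congr'
        have e1 : ∀ᶠ N : ℕ in atTop, w ∉ U N := by
          obtain ⟨N, hN⟩ := exists_nat_gt (R 1 w)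
          filter_upwards [eventually_ge_atTop N] with n hn hc
          have hc' : (n : ℝ) < R 1 w := hc
          have : (N : ℝ) ≤ n := by exact_mod_cast hn
          linarith
        have e2 : ∀ᶠ N : ℕ in atTop, w ∉ B N := by
          by_cases hw : w ∈ low R α
          · obtain ⟨l, hl1, hl⟩ := low_exists hw
            filter_upwards [eventually_ge_atTop l] with n hn hc
            have := hc.2 l hn hl1
            linarith
          · exact Eventually.of_forall fun N hc => hw hc.1
        filter_upwards [e1, e2] with N h1 h2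
        simp only [hh]
        rw [Set.indicator_of_notMem h1, Set.indicator_of_notMem h2, add_zero]
    simpa using this
  -- the exceptional set is small
  set lam : ℝ := (β - α) / 2 with hlam
  have hlam0 : 0 < lam := by rw [hlam]; linarith
  have hinv := low_ae hθ hm hsub α
  have hsmall : ∀ N : ℕ, μ {z | ¬ (z ∈ low R α → ¬ ∃ᶠ n : ℕ in atTop, β * n < R n z)} ≤
      ENNReal.ofReal ((∫ w, h N w ∂μ) / lam) := by
    intro N
    refine le_trans (measure_mono_ae ?_) (maximal hθ (hhi N) (hhm N) (hh0 N) hlam0)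
    filter_upwards [hinv] with z hz hz1
    have hz2 : z ∈ low R α ∧ ∃ᶠ n : ℕ in atTop, β * n < R n z := by
      have : ¬ (z ∈ low R α → ¬ ∃ᶠ n : ℕ in atTop, β * n < R n z) := hz1
      push Not at this
      exact this
    obtain ⟨hzE, hfreq⟩ := hz2
    have horb := hz hzE
    -- the decomposition
    have hdec := decompose (a := fun k n => R n (θ^[k] z))
      (fun k m n hm1 hn1 => by
        have := hsub m n (θ^[k] z) hm1 hn1
        rwa [← Function.iterate_add_apply, add_comm m k] at this)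
      (c := α) (K := N) hα.le (Nat.cast_nonneg N) (N := N)
      (b := fun i => (B N).indicator (R 1) (θ^[i] z))
      (u := fun i => (U N).indicator (R 1) (θ^[i] z))
      (fun i => hb0 N _) (fun i => hu0 N _)
      (fun i => by
        by_cases hc : (N : ℝ) < R 1 (θ^[i] z)
        · have : θ^[i] z ∈ U N := hc
          simp only [Set.indicator_of_mem this]
          linarith [(Nat.cast_nonneg N : (0 : ℝ) ≤ N)]
        · have : θ^[i] z ∉ U N := hc
          simp only [Set.indicator_of_notMem this]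
          linarith)
      (fun k => by
        by_cases hc : θ^[k] z ∈ B N
        · left
          simp only [Set.indicator_of_mem hc]
          exact le_rfl
        · right
          have : ¬ (θ^[k] z ∈ low R α ∧ ∀ l : ℕ, l ≤ N → 1 ≤ l → l * α < R l (θ^[k] z)) := hc
          push Not at this
          obtain ⟨l, hl, hl1, hle⟩ := this (horb k)
          exact ⟨l, hl1, hl, hle⟩)
    obtain ⟨A, hA⟩ := exists_nat_gt ((N : ℝ) * N / lam)
    obtain ⟨n, hn1, hn2⟩ := (hfreq.and_eventually (eventually_ge_atTop (max A 1))).exists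
    have hn3 : 1 ≤ n := le_trans (le_max_right _ _) hn2
    have hn4 : (A : ℝ) ≤ n := by exact_mod_cast le_trans (le_max_left _ _) hn2
    refine ⟨n, hn3, ?_⟩
    have h1 := hdec n hn3 0
    simp only [Function.iterate_zero, id_eq, zero_add] at h1
    have h2 : birkhoffSum θ (h N) n z = ∑ i ∈ Finset.range n, ((B N).indicator (R 1) (θ^[i] z) +
        (U N).indicator (R 1) (θ^[i] z)) := rfl
    rw [h2]
    rw [div_lt_iff₀ hlam0] at hA
    have h3 : (N : ℝ) * N < lam * n := by nlinarith
    have h4 : β * (n : ℝ) = α * n + 2 * (lam * n) := by rw [hlam]; ring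
    linarith
  rw [ae_iff]
  apply measure_zero_of_le (c := fun N => (∫ w, h N w ∂μ) / lam) _ hsmall
  simpa using hlim.div_const lam

theorem le_birkhoff {R : ℕ → Z → ℝ}
    (hsub : ∀ m n z, 1 ≤ m → 1 ≤ n → R (m + n) z ≤ R m z + R n (θ^[m] z)) {n : ℕ} (hn : 1 ≤ n)
    (z : Z) : R n z ≤ birkhoffSum θ (R 1) n z := by
  induction n, hn using Nat.le_induction with
  | base => simp
  | succ n hn ih =>
    rw [birkhoffSum_succ]
    have := hsub n 1 z hn le_rfl
    linarith

theorem bdd_ae [IsProbabilityMeasure μ] (hθ : MeasurePreserving θ μ μ) {f : Z → ℝ}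
    (hf : Integrable f μ) (hm : Measurable f) (h0 : ∀ z, 0 ≤ f z) :
    ∀ᵐ z ∂μ, ∃ C : ℝ, ∀ n : ℕ, 1 ≤ n → birkhoffSum θ f n z ≤ C * n := by
  rw [ae_iff]
  apply measure_zero_of_le (c := fun N => (∫ w, f w ∂μ) / ((N : ℝ) + 1))
  · exact tendsto_const_nhds.div_atTop
      (tendsto_atTop_add_const_right _ _ tendsto_natCast_atTop_atTop)
  · intro N
    refine (measure_mono ?_).trans (maximal hθ hf hm h0 (lam := (N : ℝ) + 1) (by positivity))
    intro z hz
    have hz' : ¬ ∃ C : ℝ, ∀ n : ℕ, 1 ≤ n → birkhoffSum θ f n z ≤ C * n := hz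
    push Not at hz'
    obtain ⟨n, hn, h1⟩ := hz' ((N : ℝ) + 1)
    exact ⟨n, hn, h1⟩

/-- **Kingman**: `R n z / n` converges a.e. -/
theorem kingman [IsProbabilityMeasure μ] (hθ : MeasurePreserving θ μ μ) (R : ℕ → Z → ℝ)
    (hm : ∀ n, Measurable (R n)) (h0 : ∀ n z, 0 ≤ R n z)
    (hsub : ∀ m n z, 1 ≤ m → 1 ≤ n → R (m + n) z ≤ R m z + R n (θ^[m] z))
    (hint : Integrable (R 1) μ) :
    ∀ᵐ z ∂μ, ∃ r : ℝ, 0 ≤ r ∧ Tendsto (fun n : ℕ => R n z / n) atTop (𝓝 r) := by
  have h1 : ∀ᵐ z ∂μ, ∀ a b : ℚ, 0 < (a : ℝ) → (a : ℝ) < b → z ∈ low R a →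
      ¬ ∃ᶠ n : ℕ in atTop, (b : ℝ) * n < R n z := by
    rw [ae_all_iff]
    intro a
    rw [ae_all_iff]
    intro b
    by_cases ha : 0 < (a : ℝ)
    · by_cases hab : (a : ℝ) < b
      · filter_upwards [no_upcrossing hθ R hm h0 hsub hint ha hab] with z hz _ _ using hz
      · exact Eventually.of_forall fun z _ hc => absurd hc hab
    · exact Eventually.of_forall fun z hc => absurd hc ha
  have h2 := bdd_ae hθ hint (hm 1) (h0 1)
  filter_upwards [h1, h2] with z hz hbd
  obtain ⟨C, hC⟩ := hbd
  have hle : ∀ n : ℕ, 1 ≤ n → R n z / n ≤ C := by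
    intro n hn
    rw [div_le_iff₀ (by exact_mod_cast hn)]
    exact (le_birkhoff hsub hn z).trans (hC n hn)
  have hge : ∀ n : ℕ, 0 ≤ R n z / n := fun n => div_nonneg (h0 n z) (Nat.cast_nonneg n)
  have hex : ∃ c : ℝ, Tendsto (fun n : ℕ => R n z / n) atTop (𝓝 c) := by
    refine tendsto_of_no_upcrossings (s := Set.range ((↑) : ℚ → ℝ)) Rat.denseRange_cast
      ?_ ?_ ?_
    · rintro _ ⟨a, rfl⟩ _ ⟨b, rfl⟩ hab ⟨hfa, hfb⟩
      -- choose c between a and b
      obtain ⟨c, hac, hcb⟩ := exists_rat_btwn hab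
      have hpos : 0 < (a : ℝ) := by
        obtain ⟨n, hn⟩ := hfa.exists
        exact lt_of_le_of_lt (hge n) hn
      refine hz c b (hpos.trans hac) hcb (low_of_frequently hac ?_) ?_
      · have := hfa.and_eventually (eventually_ge_atTop 1)
        refine this.mono fun n hn => ?_
        have hn0 : (0 : ℝ) < n := by exact_mod_cast hn.2
        exact (div_lt_iff₀ hn0).mp hn.1
      · have := hfb.and_eventually (eventually_ge_atTop 1)
        refine this.mono fun n hn => ?_
        have hn0 : (0 : ℝ) < n := by exact_mod_cast hn.2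
        exact (lt_div_iff₀ hn0).mp hn.1
    · exact ⟨C, by
        rw [eventually_map]
        filter_upwards [eventually_ge_atTop 1] with n hn using hle n hn⟩
    · exact ⟨0, by
        rw [eventually_map]
        exact Eventually.of_forall hge⟩
  obtain ⟨c, hc⟩ := hex
  exact ⟨c, ge_of_tendsto' hc hge, hc⟩

/-! ### Averages of nonnegative functions -/

theorem birkhoff_sub (f : Z → ℝ) (m n : ℕ) (z : Z) :
    birkhoffSum θ f (m + n) z ≤ birkhoffSum θ f m z + birkhoffSum θ f n (θ^[m] z) :=
  (birkhoffSum_add θ f m n z).le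

theorem birkhoff_measurable (hθ : Measurable θ) {f : Z → ℝ} (hf : Measurable f) (n : ℕ) :
    Measurable (birkhoffSum θ f n) :=
  Finset.measurable_fun_sum _ fun i _ => hf.comp (hθ.iterate i)

theorem birkhoff_nonneg {f : Z → ℝ} (h0 : ∀ z, 0 ≤ f z) (n : ℕ) (z : Z) :
    0 ≤ birkhoffSum θ f n z := Finset.sum_nonneg fun _ _ => h0 _

theorem birkhoff_ae [IsProbabilityMeasure μ] (hθ : MeasurePreserving θ μ μ) {f : Z → ℝ}
    (hf : Integrable f μ) (hm : Measurable f) (h0 : ∀ z, 0 ≤ f z) :
    ∀ᵐ z ∂μ, ∃ r : ℝ, 0 ≤ r ∧ Tendsto (fun n : ℕ => birkhoffSum θ f n z / n) atTop (𝓝 r) :=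
  kingman hθ (birkhoffSum θ f) (birkhoff_measurable hθ.measurable hm) (birkhoff_nonneg h0)
    (fun m n z _ _ => birkhoff_sub f m n z) (by simpa using hf)

theorem integral_birkhoff [IsProbabilityMeasure μ] (hθ : MeasurePreserving θ μ μ) {f : Z → ℝ}
    (hf : Integrable f μ) (hm : Measurable f) (n : ℕ) :
    ∫ z, birkhoffSum θ f n z ∂μ = n * ∫ z, f z ∂μ := by
  simp only [birkhoffSum]
  have h1 : ∀ i : ℕ, Integrable (fun z => f (θ^[i] z)) μ := fun i =>
    ((hθ.iterate i).integrable_comp hm.aestronglyMeasurable).mpr hf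
  rw [integral_finsetSum _ fun i _ => h1 i]
  have h2 : ∀ i : ℕ, ∫ z, f (θ^[i] z) ∂μ = ∫ z, f z ∂μ := by
    intro i
    have := integral_map (μ := μ) (hθ.iterate i).measurable.aemeasurable
      (f := f) (by rw [(hθ.iterate i).map_eq]; exact hm.aestronglyMeasurable)
    rw [(hθ.iterate i).map_eq] at this
    exact this.symm
  simp [h2]

/-- `f` is integrable on `low` -/
theorem low_integrable [IsProbabilityMeasure μ] (hθ : MeasurePreserving θ μ μ) (f : Z → ℝ)
    (hm : Measurable f) (h0 : ∀ z, 0 ≤ f z) (α : ℝ) :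
    Integrable ((low (birkhoffSum θ f) α).indicator f) μ := by
  have hsub : ∀ m n z, 1 ≤ m → 1 ≤ n →
      birkhoffSum θ f (m + n) z ≤ birkhoffSum θ f m z + birkhoffSum θ f n (θ^[m] z) :=
    fun m n z _ _ => birkhoff_sub f m n z
  have hmb := birkhoff_measurable hθ.measurable hm
  set E := low (birkhoffSum θ f) α with hEdef
  have hE : MeasurableSet E := low_measurable hmb α
  have hback : ∀ z, θ z ∈ E → z ∈ E := fun z hz => low_back hsub hz
  have hinv := low_ae hθ hmb hsub α
  -- truncations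
  set F : ℕ → Z → ℝ := fun M => E.indicator (fun z => min (f z) M) with hF
  have hFm : ∀ M, Measurable (F M) := fun M => (hm.min measurable_const).indicator hE
  have hF0 : ∀ M z, 0 ≤ F M z := fun M z =>
    Set.indicator_nonneg (fun z _ => le_min (h0 z) (Nat.cast_nonneg M)) z
  have hFM : ∀ M z, F M z ≤ M := by
    intro M z
    by_cases hz : z ∈ E
    · simp only [hF, Set.indicator_of_mem hz]; exact min_le_right _ _
    · simp only [hF, Set.indicator_of_notMem hz]; exact Nat.cast_nonneg M
  have hFi : ∀ M, Integrable (F M) μ := fun M =>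
    Integrable.of_bound (hFm M).aestronglyMeasurable (M : ℝ)
      (Eventually.of_forall fun z => by rw [Real.norm_of_nonneg (hF0 M z)]; exact hFM M z)
  -- the integral of a truncation is at most |α|
  have hFint : ∀ M, ∫ z, F M z ∂μ ≤ |α| := by
    intro M
    have hk := birkhoff_ae hθ (hFi M) (hFm M) (hF0 M)
    classical
    set G : Z → ℝ := fun z => if h : ∃ r : ℝ, 0 ≤ r ∧
      Tendsto (fun n : ℕ => birkhoffSum θ (F M) n z / n) atTop (𝓝 r) then h.choose else 0 with hG
    have hGt : ∀ᵐ z ∂μ, 0 ≤ G z ∧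
        Tendsto (fun n : ℕ => birkhoffSum θ (F M) n z / n) atTop (𝓝 (G z)) := by
      filter_upwards [hk] with z hz
      have : G z = hz.choose := by simp only [hG]; rw [dif_pos hz]
      rw [this]
      exact hz.choose_spec
    have hGle : ∀ᵐ z ∂μ, ‖G z‖ ≤ |α| := by
      filter_upwards [hGt, hinv] with z hz hzi
      rw [Real.norm_of_nonneg hz.1]
      by_cases hzE : z ∈ E
      · -- frequently the average is below α
        have horb := hzi hzE
        obtain ⟨j, hj⟩ := hzE
        by_contra hc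
        have hc' := not_le.mp hc
        have hev : ∀ᶠ n : ℕ in atTop, |α| < birkhoffSum θ (F M) n z / n :=
          hz.2.eventually (lt_mem_nhds hc')
        obtain ⟨n, hn, hn1, hn2⟩ := (hj.and_eventually (hev.and (eventually_ge_atTop 1))).exists
        have hn0 : (0 : ℝ) < n := by exact_mod_cast hn2
        rw [lt_div_iff₀ hn0] at hn1
        have h1 : birkhoffSum θ (F M) n z ≤ birkhoffSum θ f n z := by
          apply Finset.sum_le_sum
          intro i _
          have e1 : F M (θ^[i] z) = min (f (θ^[i] z)) (M : ℝ) := Set.indicator_of_mem (horb i) _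
          rw [e1]
          exact min_le_left _ _
        have h2 : (0 : ℝ) < 1 / ((j : ℝ) + 1) := by positivity
        have h3 := le_abs_self α
        nlinarith
      · -- all terms vanish
        have horb : ∀ i : ℕ, θ^[i] z ∉ E := by
          intro i
          induction i with
          | zero => exact hzE
          | succ i ih =>
            rw [Function.iterate_succ_apply']
            exact fun hc => ih (hback _ hc)
        have h1 : ∀ n : ℕ, birkhoffSum θ (F M) n z / n = 0 := by
          intro n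
          have : birkhoffSum θ (F M) n z = 0 := by
            apply Finset.sum_eq_zero
            intro i _
            exact Set.indicator_of_notMem (horb i) _
          rw [this, zero_div]
        have h2 : Tendsto (fun n : ℕ => birkhoffSum θ (F M) n z / n) atTop (𝓝 0) := by
          simp [h1]
        rw [tendsto_nhds_unique hz.2 h2]
        exact abs_nonneg α
    have hlim : Tendsto (fun n : ℕ => ∫ z, birkhoffSum θ (F M) n z / n ∂μ) atTop
        (𝓝 (∫ z, G z ∂μ)) := by
      apply tendsto_integral_of_dominated_convergence (fun _ => (M : ℝ))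
      · exact fun n => ((birkhoff_measurable hθ.measurable (hFm M) n).div_const _).aestronglyMeasurable
      · exact integrable_const _
      · intro n
        apply Eventually.of_forall
        intro z
        rw [Real.norm_of_nonneg (div_nonneg (birkhoff_nonneg (hF0 M) n z) (Nat.cast_nonneg n))]
        rcases Nat.eq_zero_or_pos n with rfl | hn
        · simp
        · rw [div_le_iff₀ (by exact_mod_cast hn)]
          calc birkhoffSum θ (F M) n z ≤ ∑ i ∈ Finset.range n, (M : ℝ) :=
                Finset.sum_le_sum fun i _ => hFM M _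
            _ = M * n := by simp [mul_comm]
      · filter_upwards [hGt] with z hz using hz.2
    have hconst : ∀ᶠ n : ℕ in atTop, ∫ z, birkhoffSum θ (F M) n z / n ∂μ = ∫ z, F M z ∂μ := by
      filter_upwards [eventually_ge_atTop 1] with n hn
      have hn0 : (n : ℝ) ≠ 0 := by exact_mod_cast (by omega : n ≠ 0)
      rw [integral_div, integral_birkhoff hθ (hFi M) (hFm M)]
      field_simp
    have h1 : ∫ z, F M z ∂μ = ∫ z, G z ∂μ :=
      tendsto_nhds_unique (tendsto_const_nhds.congr' (hconst.mono fun n hn => hn.symm)) hlim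
    rw [h1]
    have h2 := norm_integral_le_of_norm_le_const hGle
    rw [probReal_univ, mul_one] at h2
    exact (le_abs_self _).trans h2
  -- Fatou
  refine ⟨(hm.indicator hE).aestronglyMeasurable, ?_⟩
  have hpt : ∀ z, Tendsto (fun M : ℕ => ENNReal.ofReal (F M z)) atTop
      (𝓝 (ENNReal.ofReal (E.indicator f z))) := by
    intro z
    apply ENNReal.tendsto_ofReal
    apply tendsto_const_nhds.congr'
    obtain ⟨A, hA⟩ := exists_nat_gt (f z)
    filter_upwards [eventually_ge_atTop A] with M hM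
    have h1 : f z ≤ M := hA.le.trans (by exact_mod_cast hM)
    by_cases hz : z ∈ E
    · simp only [hF, Set.indicator_of_mem hz, min_eq_left h1]
    · simp only [hF, Set.indicator_of_notMem hz]
  have hnorm : ∀ z, ‖E.indicator f z‖ₑ = ENNReal.ofReal (E.indicator f z) := by
    intro z
    rw [← ofReal_norm, Real.norm_of_nonneg (Set.indicator_nonneg (fun z _ => h0 z) z)]
  rw [hasFiniteIntegral_iff_enorm]
  calc ∫⁻ z, ‖E.indicator f z‖ₑ ∂μ
      = ∫⁻ z, liminf (fun M : ℕ => ENNReal.ofReal (F M z)) atTop ∂μ := by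
        apply lintegral_congr
        intro z
        rw [hnorm z, (hpt z).liminf_eq]
    _ ≤ liminf (fun M : ℕ => ∫⁻ z, ENNReal.ofReal (F M z) ∂μ) atTop :=
        lintegral_liminf_le fun M => (hFm M).ennreal_ofReal
    _ ≤ ENNReal.ofReal |α| := by
        apply liminf_le_of_frequently_le'
        apply Frequently.of_forall
        intro M
        rw [← ofReal_integral_eq_lintegral_ofReal (hFi M) (Eventually.of_forall (hF0 M))]
        exact ENNReal.ofReal_le_ofReal (hFint M)
    _ < ⊤ := ENNReal.ofReal_lt_top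

/-- averages of a nonnegative measurable function converge in `[0, ∞]`, a.e. -/
theorem avg_dichotomy [IsProbabilityMeasure μ] (hθ : MeasurePreserving θ μ μ) (f : Z → ℝ)
    (hm : Measurable f) (h0 : ∀ z, 0 ≤ f z) :
    ∀ᵐ z ∂μ, (∃ t : ℝ, 0 ≤ t ∧
        Tendsto (fun n : ℕ => (∑ i ∈ Finset.range n, f (θ^[i] z)) / n) atTop (𝓝 t)) ∨
      Tendsto (fun n : ℕ => (∑ i ∈ Finset.range n, f (θ^[i] z)) / n) atTop atTop := by
  have hsub : ∀ m n z, 1 ≤ m → 1 ≤ n →
      birkhoffSum θ f (m + n) z ≤ birkhoffSum θ f m z + birkhoffSum θ f n (θ^[m] z) :=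
    fun m n z _ _ => birkhoff_sub f m n z
  have hmb := birkhoff_measurable hθ.measurable hm
  have h1 : ∀ᵐ z ∂μ, ∀ A : ℕ, z ∈ low (birkhoffSum θ f) (A : ℝ) → ∃ t : ℝ, 0 ≤ t ∧
      Tendsto (fun n : ℕ => birkhoffSum θ f n z / n) atTop (𝓝 t) := by
    rw [ae_all_iff]
    intro A
    have hE := low_measurable hmb (A : ℝ)
    have hk := birkhoff_ae hθ (low_integrable hθ f hm h0 (A : ℝ)) (hm.indicator hE)
      (fun z => Set.indicator_nonneg (fun z _ => h0 z) z)
    filter_upwards [hk, low_ae hθ hmb hsub (A : ℝ)] with z hz hzi hzE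
    obtain ⟨r, hr0, hr⟩ := hz
    refine ⟨r, hr0, hr.congr fun n => ?_⟩
    congr 1
    apply Finset.sum_congr rfl
    intro i _
    exact Set.indicator_of_mem (hzi hzE i) f
  filter_upwards [h1] with z hz
  by_cases hc : ∃ A : ℕ, z ∈ low (birkhoffSum θ f) (A : ℝ)
  · left
    obtain ⟨A, hA⟩ := hc
    exact hz A hA
  · right
    push Not at hc
    rw [tendsto_atTop]
    intro b
    obtain ⟨A, hA⟩ := exists_nat_gt (b + 1)
    have h2 : ¬ z ∈ low (birkhoffSum θ f) (A : ℝ) := hc A
    have h3 : ¬ ∃ᶠ n : ℕ in atTop, birkhoffSum θ f n z < ((A : ℝ) - 1 / (((0 : ℕ) : ℝ) + 1)) * n :=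
      fun h => h2 ⟨0, h⟩
    rw [not_frequently] at h3
    filter_upwards [h3, eventually_ge_atTop 1] with n hn hn1
    have hn0 : (0 : ℝ) < n := by exact_mod_cast hn1
    have h4 := not_lt.mp hn
    show b ≤ birkhoffSum θ f n z / n
    rw [le_div_iff₀ hn0]
    push_cast at h4
    nlinarith

end Pool.Agent.Spd
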