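import Mathlib

/-!
# SPD block K, deterministic lemmas of section 8 (MP_0d5543_pr)

`sandwich_a`: regenerations with a linear time scale.
`sandwich_b`: regenerations with a superlinear time scale.
Mathlib only.
-/

open Filter Topology

namespace Pool.Agent.Spd

/-- for a strictly increasing `tau` every `m` lies in some `[tau n, tau (n+1))` or below `tau 0` -/
theorem exists_block {tau : ℕ → ℕ} (ht : StrictMono tau) (m : ℕ) :
    ∃ n, (n = 0 ∨ tau n ≤ m) ∧ m < tau (n + 1) := by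
  have hex : ∃ n, m < tau (n + 1) := ⟨m, lt_of_lt_of_le (Nat.lt_succ_self m)
    (ht.id_le (m + 1))⟩
  classical
  refine ⟨Nat.find hex, ?_, Nat.find_spec hex⟩
  rcases Nat.eq_zero_or_pos (Nat.find hex) with h0 | h0
  · left; exact h0
  · right
    have := Nat.find_min hex (Nat.sub_lt h0 one_pos)
    have he : Nat.find hex - 1 + 1 = Nat.find hex := by omega
    rw [he] at this
    exact not_lt.mp this

/-- `u n = a n + o(n)`, in the form of bounds for all `n` -/
def Lin (u : ℕ → ℝ) (a : ℝ) : Prop := ∀ δ : ℝ, 0 < δ → ∃ K : ℝ, 0 ≤ K ∧ ∀ n : ℕ, |u n - a * n| ≤ δ * n + K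

theorem lin_of_tendsto {u : ℕ → ℝ} {a : ℝ} (h : Tendsto (fun n : ℕ => u n / n) atTop (𝓝 a)) :
    Lin u a := by
  intro δ hδ
  obtain ⟨N, hN⟩ := (Metric.tendsto_atTop.mp h) δ hδ
  refine ⟨∑ i ∈ Finset.range (N + 1), |u i - a * i|, Finset.sum_nonneg fun _ _ => abs_nonneg _, ?_⟩
  intro n
  rcases Nat.lt_or_ge n (N + 1) with hn | hn
  · have h1 : |u n - a * n| ≤ ∑ i ∈ Finset.range (N + 1), |u i - a * i| :=
      Finset.single_le_sum (f := fun i : ℕ => |u i - a * i|) (fun _ _ => abs_nonneg _)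
        (Finset.mem_range.mpr hn)
    have h2 : (0 : ℝ) ≤ δ * n := by positivity
    linarith
  · have h1 := hN n (by omega)
    rw [Real.dist_eq] at h1
    have hn0 : (0 : ℝ) < n := by exact_mod_cast (by omega : 0 < n)
    have h2 : |u n - a * n| = |u n / n - a| * n := by
      rw [← abs_of_pos hn0, ← abs_mul, abs_of_pos hn0]
      congr 1
      field_simp
    have h3 : (0 : ℝ) ≤ ∑ i ∈ Finset.range (N + 1), |u i - a * i| :=
      Finset.sum_nonneg fun _ _ => abs_nonneg _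
    rw [h2]
    nlinarith

theorem tendsto_of_lin {u : ℕ → ℝ} {a : ℝ} (h : Lin u a) :
    Tendsto (fun n : ℕ => u n / n) atTop (𝓝 a) := by
  rw [Metric.tendsto_atTop]
  intro ε hε
  obtain ⟨K, hK0, hK⟩ := h (ε / 2) (by linarith)
  obtain ⟨N, hN⟩ := exists_nat_gt (K / (ε / 2))
  refine ⟨N + 1, fun n hn => ?_⟩
  have hn0 : (0 : ℝ) < n := by exact_mod_cast (by omega : 0 < n)
  have h1 := hK n
  rw [Real.dist_eq]
  have h2 : |u n / n - a| = |u n - a * n| / n := by
    rw [← abs_of_pos hn0, ← abs_div, abs_of_pos hn0]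
    congr 1
    field_simp
  rw [h2, div_lt_iff₀ hn0]
  have h3 : K < ε / 2 * n := by
    rw [div_lt_iff₀ (by linarith)] at hN
    have h4 : (N : ℝ) ≤ n := by exact_mod_cast (by omega : N ≤ n)
    nlinarith
  linarith

/-- gaps of a sequence with linear growth are `o(n)` -/
theorem lin_gap {u : ℕ → ℝ} {a : ℝ} (h : Lin u a) (ha : 0 ≤ a) :
    ∀ δ : ℝ, 0 < δ → ∃ K : ℝ, 0 ≤ K ∧ ∀ n : ℕ, |u (n + 1) - u n| ≤ δ * n + K := by
  intro δ hδ
  obtain ⟨K, hK0, hK⟩ := h (δ / 2) (by linarith)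
  refine ⟨2 * K + a + δ, by positivity, fun n => ?_⟩
  have h1 := abs_le.mp (hK (n + 1))
  have h2 := abs_le.mp (hK n)
  push_cast at h1
  rw [abs_le]
  constructor <;> nlinarith [h1.1, h1.2, h2.1, h2.2]

theorem lip_of_step {x : ℕ → ℝ} (hx : ∀ m, |x (m + 1) - x m| ≤ 1) (m k : ℕ) :
    |x (m + k) - x m| ≤ k := by
  induction k with
  | zero => simp
  | succ k ih =>
    have h1 := hx (m + k)
    have h2 : x (m + (k + 1)) - x m = (x (m + k + 1) - x (m + k)) + (x (m + k) - x m) := by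
      rw [← add_assoc]; ring
    rw [h2]
    calc |(x (m + k + 1) - x (m + k)) + (x (m + k) - x m)|
        ≤ |x (m + k + 1) - x (m + k)| + |x (m + k) - x m| := abs_add_le _ _
      _ ≤ 1 + k := add_le_add h1 ih
      _ = ((k + 1 : ℕ) : ℝ) := by push_cast; ring

theorem lip_le {x : ℕ → ℝ} (hx : ∀ m, |x (m + 1) - x m| ≤ 1) {m n : ℕ} (h : m ≤ n) :
    |x n - x m| ≤ (n : ℝ) - m := by
  obtain ⟨k, rfl⟩ := Nat.exists_eq_add_of_le h
  have := lip_of_step hx m k
  push_cast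
  linarith

/-- the sequence along the regeneration times -/
theorem lin_reg {tau : ℕ → ℕ} (ht : StrictMono tau) {t r C : ℝ} (ht0 : 0 < t)
    (htau : Lin (fun n => (tau n : ℝ)) t)
    {x : ℕ → ℝ} (hx0 : ∀ m, 0 ≤ x m) (hx : ∀ m, |x (m + 1) - x m| ≤ 1)
    {R : ℕ → ℝ} (hR : Lin R r)
    (hxR : ∀ n, 1 ≤ n → x (tau n) ≤ R n)
    (hRx : ∀ n, 1 ≤ n → R n ≤ C ∨ ∃ i < n, R n ≤ 1 + x (tau i) + ((tau (i + 1) : ℝ) - tau i)) :
    Lin (fun n => x (tau n)) r := by
  -- upper bound for x (tau i)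
  have hup : ∀ δ : ℝ, 0 < δ → ∃ K : ℝ, 0 ≤ K ∧ ∀ n : ℕ, x (tau n) ≤ r * n + δ * n + K := by
    intro δ hδ
    obtain ⟨K, hK0, hK⟩ := hR δ hδ
    refine ⟨K + x (tau 0), add_nonneg hK0 (hx0 _), fun n => ?_⟩
    rcases Nat.eq_zero_or_pos n with rfl | hn
    · simp; linarith
    · have h1 := hxR n hn
      have h2 := abs_le.mp (hK n)
      have h3 := hx0 (tau 0)
      linarith [h2.2]
  rcases le_or_gt r 0 with hr | hr
  · -- r ≤ 0: x ≥ 0
    intro δ hδ
    obtain ⟨K, hK0, hK⟩ := hup δ hδ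
    refine ⟨K, hK0, fun n => ?_⟩
    rw [abs_le]
    have h1 := hx0 (tau n)
    have h2 := hK n
    have h3 : (0 : ℝ) ≤ n := Nat.cast_nonneg n
    constructor
    · nlinarith
    · linarith
  intro ε hε
  -- choice of δ
  set A : ℝ := 6 + 4 * t / r with hA
  have hA0 : 0 < A := by positivity
  set δ : ℝ := ε / A with hδdef
  have hδ : 0 < δ := by positivity
  have hδA : δ * A = ε := by rw [hδdef]; field_simp
  obtain ⟨K1, hK10, hK1⟩ := hR δ hδ
  obtain ⟨K2, hK20, hK2⟩ := htau δ hδ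
  obtain ⟨K3, hK30, hK3⟩ := lin_gap htau ht0.le δ hδ
  obtain ⟨K4, hK40, hK4⟩ := hup δ hδ
  refine ⟨|C| + K1 + K4 + 1 + K3 + 2 * K2 + t / r * (1 + K4 + K3 + K1) + r * 0, by positivity,
    fun n => ?_⟩
  have hn0 : (0 : ℝ) ≤ n := Nat.cast_nonneg n
  have hAge : δ ≤ ε := by
    rw [← hδA]
    have : (1 : ℝ) ≤ A := by rw [hA]; have : 0 ≤ 4 * t / r := by positivity
                             linarith
    nlinarith
  have hq : 0 ≤ t / r * (1 + K4 + K3 + K1) := by positivity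
  rw [abs_le]
  constructor
  · -- lower bound
    rcases Nat.eq_zero_or_pos n with rfl | hn
    · have := hx0 (tau 0)
      have hC := abs_nonneg C
      simp only [Nat.cast_zero, mul_zero, sub_zero, zero_add, add_zero]
      linarith
    rcases hRx n hn with hC | ⟨i, hi, hRi⟩
    · -- R n ≤ C
      have h1 := abs_le.mp (hK1 n)
      have h2 := hx0 (tau n)
      have h3 := le_abs_self C
      have h4 : δ * n ≤ ε * n := by nlinarith
      nlinarith [h1.1]
    · have hin : (i : ℝ) ≤ n := by exact_mod_cast hi.le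
      have hi0 : (0 : ℝ) ≤ i := Nat.cast_nonneg i
      have h1 := (abs_le.mp (hK1 n)).1
      have h3 := (abs_le.mp (hK3 i)).2
      have h4 := hK4 i
      have h5 := (abs_le.mp (hK2 n)).2
      have h6 := (abs_le.mp (hK2 i)).1
      have hlip := (abs_le.mp (lip_le hx (ht.monotone hi.le))).1
      simp only at h3 h5 h6
      -- r (n - i) ≤ 3 δ n + K
      have hδi : δ * i ≤ δ * n := by nlinarith
      have h7 : r * (n - i) ≤ 3 * δ * n + (1 + K4 + K3 + K1) := by nlinarith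
      have h8 : (n : ℝ) - i ≤ (3 * δ * n + (1 + K4 + K3 + K1)) / r := by
        rw [le_div_iff₀ hr]; linarith
      have h9 : t * (n - i) ≤ t / r * (3 * δ * n) + t / r * (1 + K4 + K3 + K1) := by
        have := mul_le_mul_of_nonneg_left h8 ht0.le
        calc t * (n - i) ≤ t * ((3 * δ * n + (1 + K4 + K3 + K1)) / r) := this
          _ = _ := by field_simp
      have h10 : ε * n = 6 * δ * n + t / r * (4 * δ * n) := by
        rw [← hδA, hA]; field_simp
      have h11 : 0 ≤ t / r * (δ * n) := by positivity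
      have hC := abs_nonneg C
      nlinarith
  · have h1 := hK4 n
    have h2 : δ * n ≤ ε * n := by nlinarith
    have hC := abs_nonneg C
    linarith

/-- **(a)** linear time scale: `x m / m → r / t`. -/
theorem sandwich_a {tau : ℕ → ℕ} (ht : StrictMono tau) {t r C : ℝ} (ht0 : 0 < t)
    (htau : Tendsto (fun n : ℕ => (tau n : ℝ) / n) atTop (𝓝 t))
    {x : ℕ → ℝ} (hx0 : ∀ m, 0 ≤ x m) (hx : ∀ m, |x (m + 1) - x m| ≤ 1)
    {R : ℕ → ℝ} (hR : Tendsto (fun n : ℕ => R n / n) atTop (𝓝 r))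
    (hxR : ∀ n, 1 ≤ n → x (tau n) ≤ R n)
    (hRx : ∀ n, 1 ≤ n → R n ≤ C ∨ ∃ i < n, R n ≤ 1 + x (tau i) + ((tau (i + 1) : ℝ) - tau i)) :
    Tendsto (fun m : ℕ => x m / m) atTop (𝓝 (r / t)) := by
  have htl : Lin (fun n => (tau n : ℝ)) t := lin_of_tendsto htau
  have hxl := lin_reg ht ht0 htl hx0 hx (lin_of_tendsto hR) hxR hRx
  apply tendsto_of_lin
  intro ε hε
  set A : ℝ := 2 + 2 * |r / t| with hA
  have hA0 : 0 < A := by positivity
  set δ : ℝ := ε / A with hδdef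
  have hδ : 0 < δ := by positivity
  have hδA : δ * A = ε := by rw [hδdef]; field_simp
  obtain ⟨K1, hK10, hK1⟩ := hxl δ hδ
  obtain ⟨K2, hK20, hK2⟩ := htl δ hδ
  obtain ⟨K3, hK30, hK3⟩ := lin_gap htl ht0.le δ hδ
  refine ⟨K3 + K1 + |r / t| * K2 + |r / t| * K3 +
    ∑ i ∈ Finset.range (tau 0), |x i - r / t * i|, by positivity, fun m => ?_⟩
  have hsum : 0 ≤ ∑ i ∈ Finset.range (tau 0), |x i - r / t * i| := by positivity
  have hm0 : (0 : ℝ) ≤ m := Nat.cast_nonneg m
  rcases Nat.lt_or_ge m (tau 0) with hm | hm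
  · have h1 : |x m - r / t * m| ≤ ∑ i ∈ Finset.range (tau 0), |x i - r / t * i| :=
      Finset.single_le_sum (f := fun i : ℕ => |x i - r / t * i|) (fun _ _ => abs_nonneg _)
        (Finset.mem_range.mpr hm)
    have h2 : 0 ≤ K3 + K1 + |r / t| * K2 + |r / t| * K3 := by positivity
    have h3 : 0 ≤ ε * m := by positivity
    linarith
  obtain ⟨n, hn, hnm⟩ := exists_block ht m
  have hn' : tau n ≤ m := by
    rcases hn with rfl | hn
    · exact hm
    · exact hn
  have hnn : (n : ℝ) ≤ m := by exact_mod_cast (ht.id_le n).trans hn'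
  have hD : (m : ℝ) - tau n ≤ δ * n + K3 := by
    have h1 := (abs_le.mp (hK3 n)).2
    have h2 : (m : ℝ) ≤ tau (n + 1) := by exact_mod_cast hnm.le
    linarith
  have hD0 : (0 : ℝ) ≤ (m : ℝ) - tau n := by
    have : (tau n : ℝ) ≤ m := by exact_mod_cast hn'
    linarith
  have e1 := lip_le hx hn'
  have e2 := hK1 n
  have e3 := hK2 n
  have hkey : x m - r / t * m = (x m - x (tau n)) + (x (tau n) - r * n) +
      (-(r / t)) * ((tau n : ℝ) - t * n) + (-(r / t)) * ((m : ℝ) - tau n) := by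
    field_simp
    ring
  rw [hkey]
  have b1 : |(-(r / t)) * ((tau n : ℝ) - t * n)| ≤ |r / t| * (δ * n + K2) := by
    rw [abs_mul, abs_neg]
    exact mul_le_mul_of_nonneg_left e3 (abs_nonneg _)
  have b2 : |(-(r / t)) * ((m : ℝ) - tau n)| ≤ |r / t| * (δ * n + K3) := by
    rw [abs_mul, abs_neg, abs_of_nonneg hD0]
    exact mul_le_mul_of_nonneg_left hD (abs_nonneg _)
  have b3 : |x m - x (tau n)| ≤ δ * n + K3 := e1.trans hD
  have hfin : ε * n ≤ ε * m := by nlinarith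
  have hεn : ε * n = 2 * (δ * n) + 2 * (|r / t| * (δ * n)) := by
    rw [← hδA, hA]; ring
  calc |(x m - x (tau n)) + (x (tau n) - r * n) +
      (-(r / t)) * ((tau n : ℝ) - t * n) + (-(r / t)) * ((m : ℝ) - tau n)|
      ≤ |x m - x (tau n)| + |x (tau n) - r * n| + |(-(r / t)) * ((tau n : ℝ) - t * n)| +
        |(-(r / t)) * ((m : ℝ) - tau n)| := by
        refine (abs_add_le _ _).trans (add_le_add ((abs_add_le _ _).trans
          (add_le_add (abs_add_le _ _) le_rfl)) le_rfl)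
    _ ≤ ε * m + (K3 + K1 + |r / t| * K2 + |r / t| * K3 +
          ∑ i ∈ Finset.range (tau 0), |x i - r / t * i|) := by
        have e2' : |x (tau n) - r * n| ≤ δ * n + K1 := e2
        nlinarith

/-- **(b)** superlinear time scale: `x m / m → 0`. -/
theorem sandwich_b {tau : ℕ → ℕ} (ht : StrictMono tau)
    (htau : Tendsto (fun n : ℕ => (tau n : ℝ) / n) atTop atTop)
    {x : ℕ → ℝ} (hx0 : ∀ m, 0 ≤ x m) {kap : ℕ → ℕ} {S : ℕ → ℝ} {B C : ℝ}
    (hkap : ∀ n m, m < tau (n + 1) → (kap m : ℝ) ≤ S (n + 1))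
    (hS : ∀ n, 1 ≤ n → S n ≤ B * n)
    {V : ℕ → ℝ} (hV : Tendsto (fun j : ℕ => V j / j) atTop (𝓝 0))
    (hx : ∀ m, x m ≤ C + kap m ∨ ∃ j ≤ kap m, x m ≤ C + kap m + V j) :
    Tendsto (fun m : ℕ => x m / m) atTop (𝓝 0) := by
  apply tendsto_of_lin
  obtain ⟨K, hK0, hK⟩ := lin_of_tendsto hV 1 one_pos
  -- x m ≤ |C| + 2 * kap m + K
  have hxk : ∀ m, x m ≤ |C| + 2 * kap m + K := by
    intro m
    have h0 : (0 : ℝ) ≤ kap m := Nat.cast_nonneg _
    have hC := le_abs_self C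
    rcases hx m with h | ⟨j, hj, h⟩
    · linarith
    · have h1 := (abs_le.mp (hK j)).2
      have h2 : (j : ℝ) ≤ kap m := by exact_mod_cast hj
      linarith
  intro ε hε
  set B' : ℝ := |B| + 1 with hB'
  have hB'0 : 0 < B' := by positivity
  obtain ⟨N, hN⟩ := (tendsto_atTop_atTop.mp htau) (2 * B' / ε)
  refine ⟨|C| + K + 2 * B' * (N + 2), by positivity, fun m => ?_⟩
  have hm0 : (0 : ℝ) ≤ m := Nat.cast_nonneg m
  rw [zero_mul, sub_zero, abs_of_nonneg (hx0 m)]
  obtain ⟨n, hn, hnm⟩ := exists_block ht m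
  have hk : (kap m : ℝ) ≤ B' * (n + 1) := by
    have h1 := hkap n m hnm
    have h2 := hS (n + 1) (by omega)
    have h3 : B * ((n + 1 : ℕ) : ℝ) ≤ B' * (n + 1) := by
      have : B ≤ B' := by rw [hB']; linarith [le_abs_self B]
      push_cast
      have hn1 : (0 : ℝ) ≤ (n : ℝ) + 1 := by positivity
      nlinarith
    linarith
  have h1 := hxk m
  rcases Nat.lt_or_ge n (N + 1) with hnN | hnN
  · have h2 : (n : ℝ) + 1 ≤ N + 2 := by
      have : (n : ℝ) < N + 1 := by exact_mod_cast hnN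
      linarith
    have h3 : 0 ≤ ε * m := by positivity
    nlinarith
  · have hn1 : 1 ≤ n := by omega
    have hn' : tau n ≤ m := by
      rcases hn with h | h
      · omega
      · exact h
    have h2 := hN n (by omega)
    have hnpos : (0 : ℝ) < n := by exact_mod_cast hn1
    rw [div_le_div_iff₀ hε hnpos] at h2
    have h3 : (tau n : ℝ) ≤ m := by exact_mod_cast hn'
    have h4 : 2 * B' * n ≤ ε * m := by nlinarith
    have h5 : (0 : ℝ) ≤ 2 * B' * (N + 1) := by positivity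
    nlinarith

end Pool.Agent.Spd
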