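import Pool.Agent.Spd.G14
import Pool.Agent.Spd.G09
import Pool.Agent.Spd.K1
import Pool.Agent.Spd.K2

/-!
(Part `G15c`: `speed_of_good`.  The text below is the common header of the parts.)

# SPD G15: the speed exists under the renewal law

For `nu`-almost every `z` (`Good z`, `VolSmall`):

* `kingman` for `θ = theta` (`theta_inv`), `R n z = if Good z then Rz n z else 0` (real valued; `Good` is
  invariant, `good_theta`; measurable: `measurableSet_good`, `measurable_Rz`); `Rz_sub`, `R 1 ≤ slabK` is
  integrable (`lint_slabK`).  So `Rz n z / n → r`.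
* `kingman` for the additive sequence `S n z = ∑ i < n, slabK (theta^i z)`: `S n / n` converges, so
  `S n ≤ B n` for `n ≥ 1`.
* `avg_dichotomy` for `f = fstT`: `tauN z n / n` converges to some `t ≥ 0` or tends to infinity; in the
  first case `t ≥ 1` because `fstT ≥ 1` on `Good`.
* `x m = z.1.distBd (pth z m)` (`dist_step`).
* first case: `sandwich_a` with `C = 0`: `x (tau n) ≤ R n`: `pio_le_rmax` (`Reg` implies `Pio`);
  `R n ≤ 0` or `R n ≤ 1 + x m` for some `m < tau n` (`near_pio`), `m ∈ [tau i, tau (i+1))` with `i < n`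
  (`exists_block`, `tau 0 = 0`), `x m ≤ x (tau i) + (m - tau i)` (`dist_steps`).
* second case: `sandwich_b` with `kap m = card (pios 0 m)`, `S`, `V = volN` (`kap_le`, `pos_le`, `volN_pio`,
  `volSmall_tendsto`; infinitely many pioneers because there are infinitely many regenerations).
-/

namespace Pool.Agent.Spd

open MeasureTheory HPT

/-- The deterministic part: cases of the time scale. -/
theorem speed_of_good {z : Sp} (h : Good z) (hV : VolSmall z.1 (pth z)) {r B : ℝ}
    (hr : Filter.Tendsto (fun n : ℕ => (Rz n z : ℝ) / n) Filter.atTop (nhds r))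
    (hB : ∀ n : ℕ, 1 ≤ n → (∑ i ∈ Finset.range n, (slabK (theta^[i] z) : ℝ)) ≤ B * n)
    (ht : (∃ t : ℝ, Filter.Tendsto (fun n : ℕ => (tauN z n : ℝ) / n) Filter.atTop (nhds t)) ∨
      Filter.Tendsto (fun n : ℕ => (tauN z n : ℝ) / n) Filter.atTop Filter.atTop) :
    ∃ v : ℝ, Filter.Tendsto (fun m : ℕ => (z.1.distBd (pth z m) : ℝ) / m) Filter.atTop
      (nhds v) := by
  have P := pth_isPath z
  have hmono : StrictMono (tauN z) := tauN_strictMono h
  have hx0 : ∀ m : ℕ, (0 : ℝ) ≤ (z.1.distBd (pth z m) : ℝ) := fun m => Nat.cast_nonneg _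
  have hx : ∀ m : ℕ, |(z.1.distBd (pth z (m + 1)) : ℝ) - (z.1.distBd (pth z m) : ℝ)| ≤ 1 := by
    intro m
    obtain ⟨h1, h2⟩ := dist_step P m
    have h1' : (z.1.distBd (pth z (m + 1)) : ℝ) ≤ z.1.distBd (pth z m) + 1 := by
      exact_mod_cast h1
    have h2' : (z.1.distBd (pth z m) : ℝ) ≤ z.1.distBd (pth z (m + 1)) + 1 := by
      exact_mod_cast h2
    rw [abs_le]
    constructor <;> linarith
  have htau0 : tauN z 0 = 0 := by
    unfold tauN
    rw [Finset.sum_range_zero]
  rcases ht with ⟨t, ht⟩ | ht
  · have ht1 : 1 ≤ t := by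
      refine ge_of_tendsto ht ?_
      filter_upwards [Filter.eventually_ge_atTop 1] with n hn
      have hn0 : (0 : ℝ) < n := by exact_mod_cast hn
      rw [le_div_iff₀ hn0, one_mul]
      exact_mod_cast hmono.id_le n
    refine ⟨r / t, sandwich_a hmono (C := 0) (by linarith) ht hx0 hx
      (R := fun n => (Rz n z : ℝ)) hr ?_ ?_⟩
    · intro n hn
      have h1 : Pio [] z.1 (pth z) (tauN z n) := (renew h hn).1.2.1.1
      exact_mod_cast pio_le_rmax P h1
    · intro n hn
      rcases near_pio P (tauN z n) with h1 | ⟨m, hm, h1⟩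
      · left
        have h2 : Rz n z = 0 := h1
        simp only [h2, Nat.cast_zero, le_refl]
      · right
        obtain ⟨i, hi, hmi⟩ := exists_block hmono m
        have him : tauN z i ≤ m := by
          rcases hi with hi | hi
          · rw [hi, htau0]
            exact Nat.zero_le _
          · exact hi
        refine ⟨i, hmono.lt_iff_lt.1 (lt_of_le_of_lt him hm), ?_⟩
        have h2 := (dist_steps P him).1
        have h3 : Rz n z ≤ z.1.distBd (pth z (tauN z i)) + (m - tauN z i) + 1 :=
          h1.trans (by omega)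
        have h4 : Rz n z + tauN z i ≤ 1 + z.1.distBd (pth z (tauN z i)) + tauN z (i + 1) := by
          omega
        have h5 : (Rz n z : ℝ) + tauN z i ≤
            1 + z.1.distBd (pth z (tauN z i)) + tauN z (i + 1) := by
          exact_mod_cast h4
        linarith
  · have hinf : ∀ n, ∃ m, n ≤ m ∧ Pio [] z.1 (pth z) m := by
      intro n
      obtain ⟨m, hm, hR⟩ := h.2 n
      exact ⟨m, hm.le, hR.2.1.1⟩
    refine ⟨0, sandwich_b hmono ht hx0 (kap := fun m => (pios [] z.1 (pth z) 0 m).card)
      (S := fun n => ∑ i ∈ Finset.range n, (slabK (theta^[i] z) : ℝ)) (B := B) (C := 0) ?_ hB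
      (V := fun j => (volN z.1 (pth z) j : ℝ)) (volSmall_tendsto hV hinf) ?_⟩
    · intro n m hm
      exact_mod_cast kap_le h hm
    · intro m
      rcases pos_le P m with h1 | ⟨j, hj, hjP, h1⟩
      · left
        rw [zero_add]
        exact_mod_cast h1
      · right
        refine ⟨(pios [] z.1 (pth z) 0 j).card, ?_, ?_⟩
        · refine Finset.card_le_card ?_
          intro i hi
          classical
          unfold pios at hi ⊢
          rw [Finset.mem_filter, Finset.mem_Ico] at hi ⊢
          exact ⟨⟨hi.1.1, by omega⟩, hi.2⟩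
        · rw [zero_add, volN_pio hjP]
          exact_mod_cast h1

end Pool.Agent.Spd
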