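import Pool.Agent.Spd.G15a
import Pool.Agent.Spd.G15b
import Pool.Agent.Spd.G15c

/-!
(Part `G15d`: `speed_nu`.  The text below is the common header of the parts.)

# SPD G15: the speed exists under the renewal law

For `nu`-almost every `z` (`Good z`, `VolSmall`):

* `kingman` for `θ = theta` (`theta_inv`), `R n z = if Good z then Rz n z else 0` (real valued; `Good` is
  invariant, `good_theta`; measurable: `measurableSet_good`, `measurable_Rz`); `Rz_sub`, `R 1 ≤ slabK` is
  integrable (`lint_slabK`).  So `Rz n z / n → r`.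
* `kingman` for the additive sequence `S n z = ∑ i < n, slabK (theta^i z)`: `S n / n` converges, so
  `S n ≤ B n` for `n ≥ 1`.
* `avg_dichotomy` for `f = fstT`: `tauN z n / n` converges to some `t ≥ 0` or tends to infinity; in the
  first case `t ≥ 1` because `fstT ≥ 1` on `Good`.
* `x m = z.1.distBd (pth z m)` (`dist_step`).
* first case: `sandwich_a` with `C = 0`: `x (tau n) ≤ R n`: `pio_le_rmax` (`Reg` implies `Pio`);
  `R n ≤ 0` or `R n ≤ 1 + x m` for some `m < tau n` (`near_pio`), `m ∈ [tau i, tau (i+1))` with `i < n`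
  (`exists_block`, `tau 0 = 0`), `x m ≤ x (tau i) + (m - tau i)` (`dist_steps`).
* second case: `sandwich_b` with `kap m = card (pios 0 m)`, `S`, `V = volN` (`kap_le`, `pos_le`, `volN_pio`,
  `volSmall_tendsto`; infinitely many pioneers because there are infinitely many regenerations).
-/

namespace Pool.Agent.Spd

open MeasureTheory HPT

theorem speed_nu {μ : Measure HPT} [IsProbabilityMeasure μ] (hT : TransInv μ)
    (hD : DomMarkov μ) (hv : vStar μ < ⊤) (hs : 0 < μ {G | special G}) (hp : 0 < pReg μ) :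
    ∀ᵐ z ∂(nu μ), ∃ v : ℝ,
      Filter.Tendsto (fun m : ℕ => (z.1.distBd (pth z m) : ℝ) / m) Filter.atTop (nhds v) := by
  have hprob : IsProbabilityMeasure (nu μ) := nu_prob hp
  have hθ := theta_inv hT hD hv hs hp
  have hdic := avg_dichotomy hθ (fun z : Sp => (fstT z : ℝ))
    (measurable_from_top.comp measurable_fstT) (fun z => Nat.cast_nonneg _)
  filter_upwards [good_ae hT hD hv hs hp, volSmall_nu hT hD hv, kingman_Rz hT hD hv hs hp,
    slabK_bound hT hD hv hs hp, hdic] with z h1 h2 h3 h4 h5
  obtain ⟨r, hr⟩ := h3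
  obtain ⟨B, hB⟩ := h4
  refine speed_of_good h1 h2 hr hB ?_
  have key : ∀ n : ℕ, (tauN z n : ℝ) = ∑ i ∈ Finset.range n, (fstT (theta^[i] z) : ℝ) := by
    intro n
    unfold tauN
    push_cast
    rfl
  simp only [key]
  rcases h5 with ⟨t, -, ht⟩ | ht
  · exact Or.inl ⟨t, ht⟩
  · exact Or.inr ht

end Pool.Agent.Spd
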