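import Pool.Agent.Spd.G14
import Pool.Agent.Spd.G09
import Pool.Agent.Spd.K1
import Pool.Agent.Spd.K2

/-!
(Part `G15a`: `kingman_Rz`.  The text below is the common header of the parts.)

# SPD G15: the speed exists under the renewal law

For `nu`-almost every `z` (`Good z`, `VolSmall`):

* `kingman` for `θ = theta` (`theta_inv`), `R n z = if Good z then Rz n z else 0` (real valued; `Good` is
  invariant, `good_theta`; measurable: `measurableSet_good`, `measurable_Rz`); `Rz_sub`, `R 1 ≤ slabK` is
  integrable (`lint_slabK`).  So `Rz n z / n → r`.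
* `kingman` for the additive sequence `S n z = ∑ i < n, slabK (theta^i z)`: `S n / n` converges, so
  `S n ≤ B n` for `n ≥ 1`.
* `avg_dichotomy` for `f = fstT`: `tauN z n / n` converges to some `t ≥ 0` or tends to infinity; in the
  first case `t ≥ 1` because `fstT ≥ 1` on `Good`.
* `x m = z.1.distBd (pth z m)` (`dist_step`).
* first case: `sandwich_a` with `C = 0`: `x (tau n) ≤ R n`: `pio_le_rmax` (`Reg` implies `Pio`);
  `R n ≤ 0` or `R n ≤ 1 + x m` for some `m < tau n` (`near_pio`), `m ∈ [tau i, tau (i+1))` with `i < n`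
  (`exists_block`, `tau 0 = 0`), `x m ≤ x (tau i) + (m - tau i)` (`dist_steps`).
* second case: `sandwich_b` with `kap m = card (pios 0 m)`, `S`, `V = volN` (`kap_le`, `pos_le`, `volN_pio`,
  `volSmall_tendsto`; infinitely many pioneers because there are infinitely many regenerations).
-/

namespace Pool.Agent.Spd

open MeasureTheory HPT

theorem kingman_Rz {μ : Measure HPT} [IsProbabilityMeasure μ] (hT : TransInv μ)
    (hD : DomMarkov μ) (hv : vStar μ < ⊤) (hs : 0 < μ {G | special G}) (hp : 0 < pReg μ) :
    ∀ᵐ z ∂(nu μ), ∃ r : ℝ,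
      Filter.Tendsto (fun n : ℕ => (Rz n z : ℝ) / n) Filter.atTop (nhds r) := by
  classical
  have := nu_prob (μ := μ) hp
  have hθ : MeasurePreserving theta (nu μ) (nu μ) := theta_inv hT hD hv hs hp
  let R : ℕ → Sp → ℝ := fun n z => if Good z then (Rz n z : ℝ) else 0
  have hm : ∀ n, Measurable (R n) := fun n =>
    Measurable.ite measurableSet_good
      ((Measurable.of_discrete (f := fun x : ℕ => (x : ℝ))).comp (measurable_Rz n))
      measurable_const
  have h0 : ∀ n z, 0 ≤ R n z := by
    intro n z
    by_cases h : Good z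
    · simp only [R, if_pos h]
      positivity
    · simp only [R, if_neg h]
      exact le_refl _
  have hsub : ∀ m n z, 1 ≤ m → 1 ≤ n → R (m + n) z ≤ R m z + R n (theta^[m] z) := by
    intro m n z h1 h2
    by_cases h : Good z
    · have h3 := Rz_sub h h1 h2
      simp only [R, if_pos h, if_pos (good_iter h m)]
      exact_mod_cast h3
    · have h3 : R (m + n) z = 0 := by simp only [R, if_neg h]
      rw [h3]
      exact add_nonneg (h0 _ _) (h0 _ _)
  have hint : Integrable (R 1) (nu μ) := by
    refine ⟨(hm 1).aestronglyMeasurable, ?_⟩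
    refine lt_of_le_of_lt (lintegral_mono fun z => ?_) (lint_slabK hT hD hv hs hp)
    rw [Real.enorm_eq_ofReal (h0 1 z)]
    by_cases h : Good z
    · simp only [R, if_pos h]
      rw [ENNReal.ofReal_natCast]
      exact_mod_cast Rz_one z
    · simp only [R, if_neg h]
      rw [ENNReal.ofReal_zero]
      exact zero_le
  filter_upwards [kingman hθ R hm h0 hsub hint, good_ae hT hD hv hs hp] with z hz hg
  obtain ⟨r, _, hr⟩ := hz
  refine ⟨r, ?_⟩
  simpa only [R, if_pos hg] using hr

end Pool.Agent.Spd
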