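import Pool.Agent.Spd.G16a

/-!
(Part `G16b`: `speed_ae`.  The text below is the common header of the parts.)

# SPD G16: the speed exists and is constant

* `spZ z = limsup (distBd (pth z m) / m)`, `spP p = limsup (distBd (walk m) / m)` (real numbers);
  measurable: `measurable_distWalk`, `measurable_liftU`, `Measurable.limsup`; if the sequence converges to
  `v` then the value is `v` (`Filter.Tendsto.limsup_eq`).
* `speed_seen`: `Stays n`, `z = seen c₀ p n`; for `m ≥ 1`: `pth z m = walk (n + m)` (`pth_seen`), and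
  `z.1.distBd (pth z m) ≤ H.distBd (walk (n+m)) ≤ z.1.distBd (pth z m) + C` (`frame_dist`, `C` from
  `line_bdd` for `reg n`).  So if `z.1.distBd (pth z m) / m → v` then `H.distBd (walk m) / m → v`.
* `speed_ae`: let `N` be a measurable `nu`-null set containing the `z` without limit (`speed_nu`,
  `exists_measurable_superset_of_null`).  By `first_law`: `P(outs c₀ = c₀.., U ∈ univ, seen σ ∈ N)`, summed over
  `o`, is `0`; so for a.e. `p`, with `σ = sigT c₀ p a` (which exists, `inf_reg`): `Stays σ`, the limit for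
  `z = seen c₀ p σ` exists, so the limit for `p` exists and `spP p = spZ (seen c₀ p σ)`.
* `speed_const`: `const_of_indep` for `V = spP`: for `c, o, n, E, B`: a.e. `spP p = spZ (seen c p (sigT c p n))`, so
  `P(outs c = o, U ∈ E, V ∈ B) = P(outs c = o, U ∈ E) ν(spZ ∈ B)` (`first_law`, `C = spZ ⁻¹' B`), and
  (`c = []`, `o = []`, `E = univ`) `P(V ∈ B) = ν(spZ ∈ B)`.
-/

namespace Pool.Agent.Spd

open MeasureTheory HPT

theorem speed_ae {μ : Measure HPT} [IsProbabilityMeasure μ] (hT : TransInv μ)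
    (hD : DomMarkov μ) (hv : vStar μ < ⊤) (hs : 0 < μ {G | special G}) (hp : 0 < pReg μ)
    (c₀ : List ℤ) (a : ℕ) :
    ∀ᵐ p ∂(μ.prod unif), Filter.Tendsto (fun m : ℕ => (p.1.distBd (p.1.walk p.2 m) : ℝ) / m)
      Filter.atTop (nhds (spP p)) ∧ spP p = spZ (seen c₀ p (sigT c₀ p a)) := by
  set B : Set Sp := {z | ¬ ∃ v : ℝ,
    Filter.Tendsto (fun m : ℕ => (z.1.distBd (pth z m) : ℝ) / m) Filter.atTop (nhds v)} with hBdef
  have hB : nu μ B = 0 := ae_iff.1 (speed_nu hT hD hv hs hp)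
  have hN : nu μ (toMeasurable (nu μ) B) = 0 := (measure_toMeasurable B).trans hB
  have hsub : B ⊆ toMeasurable (nu μ) B := subset_toMeasurable _ _
  have h1 : ∀ o : List Step, (μ.prod unif) {p | p.1.outs c₀ = o ∧
      seen c₀ p (sigT c₀ p a) ∈ toMeasurable (nu μ) B} = 0 := by
    intro o
    have h := first_law hT hD hv hs hp c₀ o a MeasurableSet.univ (fun _ _ _ => Iff.rfl)
      (measurableSet_toMeasurable (nu μ) B)
    rw [hN, mul_zero] at h
    simpa only [Set.mem_univ, true_and] using h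
  have h2 : ∀ᵐ p ∂(μ.prod unif), seen c₀ p (sigT c₀ p a) ∉ toMeasurable (nu μ) B := by
    rw [ae_iff]
    have h3 : {p : HPT × (ℕ → unitInterval) |
        ¬ seen c₀ p (sigT c₀ p a) ∉ toMeasurable (nu μ) B} =
        ⋃ o : List Step, {p | p.1.outs c₀ = o ∧
          seen c₀ p (sigT c₀ p a) ∈ toMeasurable (nu μ) B} := by
      ext p
      simp
    rw [h3]
    exact measure_iUnion_null h1
  filter_upwards [h2, inf_reg hT hD hv hs hp c₀] with p hp1 hp2
  have hreg : a < sigT c₀ p a ∧ Reg c₀ p.1 (p.1.walk p.2) (sigT c₀ p a) :=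
    Nat.sInf_mem (hp2 a : {n | a < n ∧ Reg c₀ p.1 (p.1.walk p.2) n}.Nonempty)
  have hz : seen c₀ p (sigT c₀ p a) ∉ B := fun h => hp1 (hsub h)
  rw [hBdef, Set.mem_ofPred_eq, not_not] at hz
  obtain ⟨v, hv'⟩ := hz
  have hlim := speed_seen hreg.2.2.1 hv'
  have e1 : spP p = v := hlim.limsup_eq
  have e2 : spZ (seen c₀ p (sigT c₀ p a)) = v := hv'.limsup_eq
  rw [e1, e2]
  exact ⟨hlim, rfl⟩

end Pool.Agent.Spd
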