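import Pool.Agent.Spd.G16b

/-!
(Part `G16c`: `speed_const`.  The text below is the common header of the parts.)

# SPD G16: the speed exists and is constant

* `spZ z = limsup (distBd (pth z m) / m)`, `spP p = limsup (distBd (walk m) / m)` (real numbers);
  measurable: `measurable_distWalk`, `measurable_liftU`, `Measurable.limsup`; if the sequence
  converges to `v` then the value is `v` (`Filter.Tendsto.limsup_eq`).
* `speed_seen`: `Stays n`, `z = seen c₀ p n`; for `m ≥ 1`: `pth z m = walk (n + m)` (`pth_seen`), and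
  `z.1.distBd (pth z m) ≤ H.distBd (walk (n+m)) ≤ z.1.distBd (pth z m) + C` (`frame_dist`, `C` from
  `line_bdd` for `reg n`).  So if `z.1.distBd (pth z m) / m → v` then
  `H.distBd (walk m) / m → v`.
* `speed_ae`: let `N` be a measurable `nu`-null set containing the `z` without limit (`speed_nu`,
  `exists_measurable_superset_of_null`).  By `first_law`:
  `P(outs c₀ = c₀.., U ∈ univ, seen σ ∈ N)`, summed over `o`, is `0`; so for a.e. `p`, with
  `σ = sigT c₀ p a` (which exists, `inf_reg`): `Stays σ`, the limit for `z = seen c₀ p σ` exists, so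
  the limit for `p` exists and `spP p = spZ (seen c₀ p σ)`.
* `speed_const`: `const_of_indep` for `V = spP`: for `c, o, n, E, B`: a.e.
  `spP p = spZ (seen c p (sigT c p n))`, so
  `P(outs c = o, U ∈ E, V ∈ B) = P(outs c = o, U ∈ E) ν(spZ ∈ B)` (`first_law`, `C = spZ ⁻¹' B`),
  and (`c = []`, `o = []`, `E = univ`) `P(V ∈ B) = ν(spZ ∈ B)`.
-/

namespace Pool.Agent.Spd

open MeasureTheory HPT

theorem speed_const {μ : Measure HPT} [IsProbabilityMeasure μ] (hT : TransInv μ)
    (hD : DomMarkov μ) (hv : vStar μ < ⊤) (hs : 0 < μ {G | special G}) (hp : 0 < pReg μ) :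
    ∃ v : ℝ, ∀ᵐ p ∂(μ.prod unif),
      Filter.Tendsto (fun m : ℕ => (p.1.distBd (p.1.walk p.2 m) : ℝ) / m)
        Filter.atTop (nhds v) := by
  -- the event `V ∈ B` seen from the first regeneration time after `n`
  have hlaw : ∀ (c : List ℤ) (o : List Step) (n : ℕ) (E : Set (ℕ → unitInterval)),
      MeasurableSet E → (∀ U U' : ℕ → unitInterval, (∀ j < n, U j = U' j) → (U ∈ E ↔ U' ∈ E)) →
      ∀ B : Set ℝ, MeasurableSet B →
        (μ.prod unif) {p | p.1.outs c = o ∧ p.2 ∈ E ∧ spP p ∈ B} =
          (μ.prod unif) {p | p.1.outs c = o ∧ p.2 ∈ E} * nu μ (spZ ⁻¹' B) := by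
    intro c o n E hE hE' B hB
    rw [← first_law hT hD hv hs hp c o n hE hE' (measurable_spZ hB)]
    refine measure_congr ?_
    filter_upwards [speed_ae hT hD hv hs hp c n] with p hp1
    refine propext ?_
    change (p.1.outs c = o ∧ p.2 ∈ E ∧ spP p ∈ B) ↔
      (p.1.outs c = o ∧ p.2 ∈ E ∧ spZ (seen c p (sigT c p n)) ∈ B)
    rw [hp1.2]
  have hnu : ∀ B : Set ℝ, MeasurableSet B →
      (μ.prod unif) {p | spP p ∈ B} = nu μ (spZ ⁻¹' B) := by
    intro B hB
    have h := hlaw [] [] 0 Set.univ MeasurableSet.univ (fun _ _ _ => by simp) B hB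
    have e1 : {p : HPT × (ℕ → unitInterval) | p.1.outs [] = [] ∧ p.2 ∈ Set.univ ∧ spP p ∈ B} =
        {p | spP p ∈ B} := by
      ext p
      have : p.1.outs [] = [] := rfl
      simp only [Set.mem_ofPred_eq, this, Set.mem_univ, true_and]
    have e2 : {p : HPT × (ℕ → unitInterval) | p.1.outs [] = [] ∧ p.2 ∈ Set.univ} =
        Set.univ := by
      ext p
      have : p.1.outs [] = [] := rfl
      simp only [Set.mem_ofPred_eq, this, Set.mem_univ, and_true]
    rw [e1, e2, measure_univ, one_mul] at h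
    exact h
  obtain ⟨v, hv'⟩ := const_of_indep (μ := μ) measurable_spP (fun c o n E hE hE' B hB => by
    rw [hlaw c o n E hE hE' B hB, hnu B hB])
  refine ⟨v, ?_⟩
  filter_upwards [hv', speed_ae hT hD hv hs hp [] 0] with p h1 h2
  rw [← h1]
  exact h2.1

end Pool.Agent.Spd
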