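import Pool.Agent.Spd.G15
import Pool.Agent.Spd.G11
import Pool.Agent.Spd.Const

/-!
(Part `G16a`: `spZ`, `spP`, `measurable_spZ`, `measurable_spP`, `speed_seen`.  The text below is the common header of the parts.)

# SPD G16: the speed exists and is constant

* `spZ z = limsup (distBd (pth z m) / m)`, `spP p = limsup (distBd (walk m) / m)` (real numbers);
  measurable: `measurable_distWalk`, `measurable_liftU`, `Measurable.limsup`; if the sequence converges to
  `v` then the value is `v` (`Filter.Tendsto.limsup_eq`).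
* `speed_seen`: `Stays n`, `z = seen c₀ p n`; for `m ≥ 1`: `pth z m = walk (n + m)` (`pth_seen`), and
  `z.1.distBd (pth z m) ≤ H.distBd (walk (n+m)) ≤ z.1.distBd (pth z m) + C` (`frame_dist`, `C` from
  `line_bdd` for `reg n`).  So if `z.1.distBd (pth z m) / m → v` then `H.distBd (walk m) / m → v`.
* `speed_ae`: let `N` be a measurable `nu`-null set containing the `z` without limit (`speed_nu`,
  `exists_measurable_superset_of_null`).  By `first_law`: `P(outs c₀ = c₀.., U ∈ univ, seen σ ∈ N)`, summed over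
  `o`, is `0`; so for a.e. `p`, with `σ = sigT c₀ p a` (which exists, `inf_reg`): `Stays σ`, the limit for
  `z = seen c₀ p σ` exists, so the limit for `p` exists and `spP p = spZ (seen c₀ p σ)`.
* `speed_const`: `const_of_indep` for `V = spP`: for `c, o, n, E, B`: a.e. `spP p = spZ (seen c p (sigT c p n))`, so
  `P(outs c = o, U ∈ E, V ∈ B) = P(outs c = o, U ∈ E) ν(spZ ∈ B)` (`first_law`, `C = spZ ⁻¹' B`), and
  (`c = []`, `o = []`, `E = univ`) `P(V ∈ B) = ν(spZ ∈ B)`.
-/

namespace Pool.Agent.Spd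

open MeasureTheory HPT

noncomputable def spZ (z : Sp) : ℝ :=
  Filter.limsup (fun m : ℕ => (z.1.distBd (pth z m) : ℝ) / m) Filter.atTop

noncomputable def spP (p : HPT × (ℕ → unitInterval)) : ℝ :=
  Filter.limsup (fun m : ℕ => (p.1.distBd (p.1.walk p.2 m) : ℝ) / m) Filter.atTop

private theorem G16a_spP : Measurable spP := by
  refine Measurable.limsup fun m => ?_
  exact (measurable_from_nat.comp (measurable_distWalk m)).div_const (m : ℝ)

theorem measurable_spZ : Measurable spZ := by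
  have h : spZ = fun z : Sp => spP (z.1, liftU z) := by
    funext z
    unfold spZ spP
    rw [pth_lift z]
  rw [h]
  exact G16a_spP.comp measurable_liftU

theorem measurable_spP : Measurable spP := G16a_spP

theorem speed_seen {c₀ : List ℤ} {p : HPT × (ℕ → unitInterval)} {n : ℕ}
    (h : Stays c₀ p.1 (p.1.walk p.2) n) {v : ℝ}
    (hv : Filter.Tendsto (fun m : ℕ => ((seen c₀ p n).1.distBd (pth (seen c₀ p n) m) : ℝ) / m)
      Filter.atTop (nhds v)) :
    Filter.Tendsto (fun m : ℕ => (p.1.distBd (p.1.walk p.2 m) : ℝ) / m) Filter.atTop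
      (nhds v) := by
  obtain ⟨C, hC⟩ := line_bdd (reg_sub (c₀ := c₀) (H := p.1) (w := p.1.walk p.2) n)
  have hd := frame_dist (walk_isPath p.1 p.2) h hC
  rw [pth_seen h] at hv
  have hv1 := (Filter.tendsto_add_atTop_iff_nat 1).2 hv
  have hva : Filter.Tendsto (fun k : ℕ =>
      ((regAt c₀ p.1 (p.1.walk p.2) n).distBd (p.1.walk p.2 (n + (k + 1))) : ℝ) /
        ((k + 1 : ℕ) : ℝ)) Filter.atTop (nhds v) := hv1
  have hc : Filter.Tendsto (fun k : ℕ => (C : ℝ) / ((k + 1 : ℕ) : ℝ)) Filter.atTop (nhds 0) :=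
    (tendsto_const_div_atTop_nhds_zero_nat (C : ℝ)).comp (Filter.tendsto_add_atTop_nat 1)
  have hvc := hva.add hc
  rw [add_zero] at hvc
  have hb : Filter.Tendsto (fun k : ℕ =>
      (p.1.distBd (p.1.walk p.2 (n + (k + 1))) : ℝ) / ((k + 1 : ℕ) : ℝ))
      Filter.atTop (nhds v) := by
    refine tendsto_of_tendsto_of_tendsto_of_le_of_le hva hvc (fun k => ?_) (fun k => ?_)
    · have h1 : ((regAt c₀ p.1 (p.1.walk p.2) n).distBd (p.1.walk p.2 (n + (k + 1))) : ℝ) ≤
          (p.1.distBd (p.1.walk p.2 (n + (k + 1))) : ℝ) := by exact_mod_cast (hd k).1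
      exact div_le_div_of_nonneg_right h1 (Nat.cast_nonneg _)
    · have h1 : (p.1.distBd (p.1.walk p.2 (n + (k + 1))) : ℝ) ≤
          ((regAt c₀ p.1 (p.1.walk p.2) n).distBd (p.1.walk p.2 (n + (k + 1))) : ℝ) + C := by
        exact_mod_cast (hd k).2
      change _ ≤ _ / ((k + 1 : ℕ) : ℝ) + (C : ℝ) / ((k + 1 : ℕ) : ℝ)
      rw [← add_div]
      exact div_le_div_of_nonneg_right h1 (Nat.cast_nonneg _)
  have h1 : Filter.Tendsto (fun k : ℕ => 1 - (n : ℝ) / ((k + (n + 1) : ℕ) : ℝ)) Filter.atTop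
      (nhds (1 - 0)) :=
    tendsto_const_nhds.sub ((tendsto_const_div_atTop_nhds_zero_nat (n : ℝ)).comp
      (Filter.tendsto_add_atTop_nat (n + 1)))
  have h2 := hb.mul h1
  rw [sub_zero, mul_one] at h2
  refine (Filter.tendsto_add_atTop_iff_nat (n + 1)).1 (h2.congr fun k => ?_)
  have h3 : n + (k + 1) = k + (n + 1) := by omega
  have h4 : ((k : ℝ) + 1) ≠ 0 := by positivity
  have h5 : ((k : ℝ) + (n + 1)) ≠ 0 := by positivity
  rw [h3]
  push_cast
  field_simp
  ring

end Pool.Agent.Spd
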