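import Pool.Agent.Spd.HistA1

/-!
(Part `HistA2`: `hist_sim_of_eq`, `HSim.hist_eq`, `HSim.mono`.  The text below is the common header of the parts.)

# SPD S9: the exploration along the walk is determined by the history

`w = H.walk U`, `w' = H'.walk U'`, `c = cmdP c₀ H w n`.  The hypothesis `ho` says that the outcomes
of `H'` along `c` are those of `H`; `hk`: the choices agree as soon as the degrees agree.

* `cmdP_prefix`: induction on `n` (`cmdP (n+1) = cmdP n ++ ..`).
* `hist_sim`: `sim_of_outs c ho` gives `φ`, `ψ` with `Sim H (H.exec c₁) H' (H'.exec c₁) φ ψ` for all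
  prefixes `c₁` of `c`.  Show by induction on `m ≤ n`: `cmdP c₀ H' w' m = cmdP c₀ H w m`,
  `φ (w m) = w' m`, and the degrees agree for times `< m`.
  - `m = 0`: both `c₀`; `w 0 = inv (H.bd (-1))`, `bdy`.
  - step `m < n`: let `G = reg c₀ H w m`, `G' = H'.exec (cmdP c₀ H w m) = reg c₀ H' w' m`.
    `w m` is not inner in `G` (`not_inner_path`, `walk_isPath`), so `H.SameV (G.bd i) (w m) ↔
    H'.SameV (G'.bd i) (w' m)` (`Sim.on_iff` with `K = G`).  If `m` is not a pioneer time for `H`, it
    is not for `H'`, nothing is added.  If it is, with index `i` (unique: `on_unique`), the same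
    index for `H'`; `cmdP (m+1) = cmdP m ++ (i :: replicate s 0)`, `s = (G.shift i).stopT`, and this
    is a prefix of `c`, so `H'.outs (cmdP (m+1)) = H.outs (cmdP (m+1))` (`outs_append`), hence
    `G'.outs (i :: replicate s 0) = G.outs (i :: replicate s 0)`, i.e. the first `s + 1` outcomes of
    `G'.shift i` and `G.shift i` at index `0` agree, so `(G'.shift i).stopT = s` (`stop_of_outs`).
    (`outs (i :: replicate s 0) G = outs (replicate (s+1) 0) (G.shift i)`, using `shift_zero`.)
  - `w m` is strictly below `reg (m+1)` (`blw_path`): `Sim.deg` and `Sim.iter` for the region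
    `reg (m+1)`: the degrees at time `m` agree, so `kap H' U' m = kap H U m`, and
    `φ (rot^[κ] (w m)) = rot^[κ] (w' m)`, `φ (inv x) = inv (φ x)` for `x = rot^[κ] (w m)` (strictly
    below, so `x` and `inv x` are explored), which is `φ (w (m+1)) = w' (m+1)`.
* `hist_sim_of_eq`: `hist = hist'` gives `cmdP` equal, outcomes equal, choices equal.
* `hist_eq_of`: `hist c₀ H' U' m` and `hist c₀ H U m` for `m ≤ n` from `HSim`.
-/

namespace Pool.Agent.Spd

namespace HPT

variable {c₀ : List ℤ} {H H' : HPT} {U U' : ℕ → unitInterval} {n : ℕ}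

theorem hist_sim_of_eq (h : hist c₀ H' U' n = hist c₀ H U n) :
    ∃ φ ψ, HSim c₀ H U H' U' n φ ψ := by
  have h1 : cmdP c₀ H' (H'.walk U') n = cmdP c₀ H (H.walk U) n := congrArg (fun p => p.1) h
  have h2 : H'.outs (cmdP c₀ H' (H'.walk U') n) = H.outs (cmdP c₀ H (H.walk U) n) :=
    congrArg (fun p => p.2.1) h
  have h3 : (List.range n).map (HPT.kap H' U') = (List.range n).map (HPT.kap H U) :=
    congrArg (fun p => p.2.2) h
  rw [h1] at h2
  refine hist_sim h2 fun j hj _ => ?_
  exact List.map_inj_left.1 h3 j (List.mem_range.2 hj)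

theorem HSim.hist_eq {φ ψ : ℕ → ℕ} (h : HSim c₀ H U H' U' n φ ψ) {m : ℕ} (hm : m ≤ n) :
    hist c₀ H' U' m = hist c₀ H U m := by
  have h1 : cmdP c₀ H' (H'.walk U') m = cmdP c₀ H (H.walk U) m := h.cmd m hm
  have h2 := h.outs m hm
  have h3 : (List.range m).map (HPT.kap H' U') = (List.range m).map (HPT.kap H U) :=
    List.map_inj_left.2 fun j hj => h.kap j (lt_of_lt_of_le (List.mem_range.1 hj) hm)
  unfold hist
  rw [h1, h2, h3]

theorem HSim.mono {φ ψ : ℕ → ℕ} (h : HSim c₀ H U H' U' n φ ψ) {m : ℕ} (hm : m ≤ n) :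
    HSim c₀ H U H' U' m φ ψ := by
  exact ⟨fun j hj => h.sim j (hj.trans hm), fun j hj => h.cmd j (hj.trans hm),
    fun j hj => h.pos j (hj.trans hm), fun j hj => h.deg j (lt_of_lt_of_le hj hm),
    fun j hj => h.kap j (lt_of_lt_of_le hj hm), fun j hj => h.outs j (hj.trans hm)⟩

end HPT

end Pool.Agent.Spd
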