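import Pool.Agent.Spd.SimH
import Pool.Agent.Spd.PathReg

/-!
(Part `HistA1`: `HSim`, `cmdP_prefix`, `hist_sim`.  The text below is the common header of the parts.)

# SPD S9: the exploration along the walk is determined by the history

`w = H.walk U`, `w' = H'.walk U'`, `c = cmdP c₀ H w n`.  The hypothesis `ho` says that the outcomes
of `H'` along `c` are those of `H`; `hk`: the choices agree as soon as the degrees agree.

* `cmdP_prefix`: induction on `n` (`cmdP (n+1) = cmdP n ++ ..`).
* `hist_sim`: `sim_of_outs c ho` gives `φ`, `ψ` with `Sim H (H.exec c₁) H' (H'.exec c₁) φ ψ` for all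
  prefixes `c₁` of `c`.  Show by induction on `m ≤ n`: `cmdP c₀ H' w' m = cmdP c₀ H w m`,
  `φ (w m) = w' m`, and the degrees agree for times `< m`.
  - `m = 0`: both `c₀`; `w 0 = inv (H.bd (-1))`, `bdy`.
  - step `m < n`: let `G = reg c₀ H w m`, `G' = H'.exec (cmdP c₀ H w m) = reg c₀ H' w' m`.
    `w m` is not inner in `G` (`not_inner_path`, `walk_isPath`), so `H.SameV (G.bd i) (w m) ↔
    H'.SameV (G'.bd i) (w' m)` (`Sim.on_iff` with `K = G`).  If `m` is not a pioneer time for `H`, it
    is not for `H'`, nothing is added.  If it is, with index `i` (unique: `on_unique`), the same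
    index for `H'`; `cmdP (m+1) = cmdP m ++ (i :: replicate s 0)`, `s = (G.shift i).stopT`, and this
    is a prefix of `c`, so `H'.outs (cmdP (m+1)) = H.outs (cmdP (m+1))` (`outs_append`), hence
    `G'.outs (i :: replicate s 0) = G.outs (i :: replicate s 0)`, i.e. the first `s + 1` outcomes of
    `G'.shift i` and `G.shift i` at index `0` agree, so `(G'.shift i).stopT = s` (`stop_of_outs`).
    (`outs (i :: replicate s 0) G = outs (replicate (s+1) 0) (G.shift i)`, using `shift_zero`.)
  - `w m` is strictly below `reg (m+1)` (`blw_path`): `Sim.deg` and `Sim.iter` for the region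
    `reg (m+1)`: the degrees at time `m` agree, so `kap H' U' m = kap H U m`, and
    `φ (rot^[κ] (w m)) = rot^[κ] (w' m)`, `φ (inv x) = inv (φ x)` for `x = rot^[κ] (w m)` (strictly
    below, so `x` and `inv x` are explored), which is `φ (w (m+1)) = w' (m+1)`.
* `hist_sim_of_eq`: `hist = hist'` gives `cmdP` equal, outcomes equal, choices equal.
* `hist_eq_of`: `hist c₀ H' U' m` and `hist c₀ H U m` for `m ≤ n` from `HSim`.
-/

namespace Pool.Agent.Spd

namespace HPT

/-- The explorations along the walks of `(H, U)` and `(H', U')` are the same up to time `n`. -/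
structure HSim (c₀ : List ℤ) (H : HPT) (U : ℕ → unitInterval) (H' : HPT) (U' : ℕ → unitInterval)
    (n : ℕ) (φ ψ : ℕ → ℕ) : Prop where
  sim : ∀ m ≤ n, Sim H (reg c₀ H (H.walk U) m) H' (reg c₀ H' (H'.walk U') m) φ ψ
  cmd : ∀ m ≤ n, cmdP c₀ H' (H'.walk U') m = cmdP c₀ H (H.walk U) m
  pos : ∀ m ≤ n, φ (H.walk U m) = H'.walk U' m
  deg : ∀ m < n, H'.deg (H'.walk U' m) = H.deg (H.walk U m)
  kap : ∀ m < n, kap H' U' m = kap H U m
  outs : ∀ m ≤ n, H'.outs (cmdP c₀ H (H.walk U) m) = H.outs (cmdP c₀ H (H.walk U) m)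

variable {c₀ : List ℤ} {H H' : HPT} {U U' : ℕ → unitInterval} {n : ℕ}

theorem cmdP_prefix (c₀ : List ℤ) (H : HPT) (w : ℕ → ℕ) {m n : ℕ} (hmn : m ≤ n) :
    ∃ c, cmdP c₀ H w n = cmdP c₀ H w m ++ c := by
  induction n, hmn using Nat.le_induction with
  | base => exact ⟨[], (List.append_nil _).symm⟩
  | succ n _ ih =>
    obtain ⟨c, hc⟩ := ih
    by_cases h : ∃ i, H.M.SameV ((H.exec (cmdP c₀ H w n)).M.bd i) (w n)
    · refine ⟨c ++ (h.choose ::
        List.replicate (((H.exec (cmdP c₀ H w n)).shift h.choose).stopT) 0), ?_⟩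
      rw [cmdP, dif_pos h, ← List.append_assoc, ← hc]
    · refine ⟨c, ?_⟩
      rw [cmdP, dif_neg h, hc]

private theorem outs_cons_zero (G : HPT) (i : ℤ) (s : ℕ) :
    G.outs (i :: List.replicate s 0) = (G.shift i).outs (List.replicate (s + 1) 0) := by
  have h1 : G.outs (i :: List.replicate s 0) =
      (G.shift i).step :: (G.shift i).rem.outs (List.replicate s 0) := rfl
  have h2 : (G.shift i).outs (List.replicate (s + 1) 0) =
      ((G.shift i).shift 0).step :: ((G.shift i).shift 0).rem.outs (List.replicate s 0) := rfl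
  rw [h1, h2, shift_zero]

private theorem outs_split {H H' : HPT} {c c₁ c₂ : List ℤ} (hc : c = c₁ ++ c₂)
    (ho : H'.outs c = H.outs c) :
    H'.outs c₁ = H.outs c₁ ∧ (H'.exec c₁).outs c₂ = (H.exec c₁).outs c₂ := by
  rw [hc, outs_append, outs_append] at ho
  exact List.append_inj ho (by rw [outs_length, outs_length])

private theorem hist_aux {φ ψ : ℕ → ℕ}
    (ho : H'.outs (cmdP c₀ H (H.walk U) n) = H.outs (cmdP c₀ H (H.walk U) n))
    (hk : ∀ j < n, H'.deg (H'.walk U' j) = H.deg (H.walk U j) → HPT.kap H' U' j = HPT.kap H U j)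
    (hS : ∀ c₁ c₂, cmdP c₀ H (H.walk U) n = c₁ ++ c₂ →
      Sim H (H.exec c₁) H' (H'.exec c₁) φ ψ) (m : ℕ) (hm : m ≤ n) :
    cmdP c₀ H' (H'.walk U') m = cmdP c₀ H (H.walk U) m ∧ φ (H.walk U m) = H'.walk U' m ∧
      ∀ j < m, H'.deg (H'.walk U' j) = H.deg (H.walk U j) := by
  induction m with
  | zero =>
    refine ⟨rfl, ?_, fun j hj => absurd hj (Nat.not_lt_zero j)⟩
    exact (hS [] _ (List.nil_append _).symm).bdy (-1)
  | succ m ih =>
    obtain ⟨hc, hp, hd⟩ := ih (by omega)
    have hlt : m < n := by omega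
    have P := walk_isPath H U
    obtain ⟨c₂, hc₂⟩ := cmdP_prefix c₀ H (H.walk U) hlt.le
    obtain ⟨c₃, hc₃⟩ := cmdP_prefix c₀ H (H.walk U) hm
    have hG := hS _ _ hc₂
    have hG1 := hS _ _ hc₃
    have S : Sub (H.exec (cmdP c₀ H (H.walk U) m)) H := exec_sub H _
    have S' : Sub (H'.exec (cmdP c₀ H (H.walk U) m)) H' := exec_sub H' _
    have S1 : Sub (H.exec (cmdP c₀ H (H.walk U) (m + 1))) H := exec_sub H _
    have S1' : Sub (H'.exec (cmdP c₀ H (H.walk U) (m + 1))) H' := exec_sub H' _
    have hmem : H.walk U m ∈ H.M.D := P.mem m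
    have hni : ¬ (H.exec (cmdP c₀ H (H.walk U) m)).M.Inner (H.walk U m) :=
      not_inner_path (c₀ := c₀) P m
    have hon : ∀ i, H.M.SameV ((H.exec (cmdP c₀ H (H.walk U) m)).M.bd i) (H.walk U m) ↔
        H'.M.SameV ((H'.exec (cmdP c₀ H (H.walk U) m)).M.bd i) (H'.walk U' m) := by
      intro i
      have h1 := Sim.on_iff S S' hG hG S S' (Sub.refl _) hmem hni i
      rwa [hp] at h1
    -- the commands agree at time `m + 1`
    have hc1 : cmdP c₀ H' (H'.walk U') (m + 1) = cmdP c₀ H (H.walk U) (m + 1) := by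
      by_cases h : ∃ i, H.M.SameV ((H.exec (cmdP c₀ H (H.walk U) m)).M.bd i) (H.walk U m)
      · have h' : ∃ i, H'.M.SameV ((H'.exec (cmdP c₀ H' (H'.walk U') m)).M.bd i)
            (H'.walk U' m) := by
          obtain ⟨i, hi⟩ := h
          refine ⟨i, ?_⟩
          rw [hc]
          exact (hon i).1 hi
        have e1 : cmdP c₀ H (H.walk U) (m + 1) = cmdP c₀ H (H.walk U) m ++
            (h.choose :: List.replicate
              (((H.exec (cmdP c₀ H (H.walk U) m)).shift h.choose).stopT) 0) := by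
          rw [cmdP, dif_pos h]
        have e2 : cmdP c₀ H' (H'.walk U') (m + 1) = cmdP c₀ H' (H'.walk U') m ++
            (h'.choose :: List.replicate
              (((H'.exec (cmdP c₀ H' (H'.walk U') m)).shift h'.choose).stopT) 0) := by
          rw [cmdP, dif_pos h']
        have hidx : h'.choose = h.choose := by
          have h2 := h'.choose_spec
          have h3 := (hon _).1 h.choose_spec
          generalize h'.choose = a at h2 ⊢
          rw [hc] at h2
          exact on_unique S' h2 h3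
        have hstop : ((H'.exec (cmdP c₀ H (H.walk U) m)).shift h.choose).stopT =
            ((H.exec (cmdP c₀ H (H.walk U) m)).shift h.choose).stopT := by
          apply stop_of_outs
          have h4 := (outs_split hc₃ ho).1
          have h5 := (outs_split e1 h4).2
          rw [outs_cons_zero, outs_cons_zero] at h5
          exact h5
        rw [e2, e1, hidx, hc, hstop]
      · have h' : ¬ ∃ i, H'.M.SameV ((H'.exec (cmdP c₀ H' (H'.walk U') m)).M.bd i)
            (H'.walk U' m) := by
          rintro ⟨i, hi⟩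
          rw [hc] at hi
          exact h ⟨i, (hon i).2 hi⟩
        have e1 : cmdP c₀ H (H.walk U) (m + 1) = cmdP c₀ H (H.walk U) m := by
          rw [cmdP, dif_neg h]
        have e2 : cmdP c₀ H' (H'.walk U') (m + 1) = cmdP c₀ H' (H'.walk U') m := by
          rw [cmdP, dif_neg h']
        rw [e1, e2, hc]
    have hb : Blw H (H.exec (cmdP c₀ H (H.walk U) (m + 1))) (H.walk U m) :=
      blw_path (c₀ := c₀) P (Nat.lt_succ_self m)
    have hdeg : H'.deg (H'.walk U' m) = H.deg (H.walk U m) := by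
      have h1 := Sim.deg S1 S1' hG1 hmem hb
      rwa [hp] at h1
    have hkap : kap H' U' m = kap H U m := hk m hlt hdeg
    refine ⟨hc1, ?_, ?_⟩
    · have hit := Sim.iter S1 hG1 hmem hb (kap H U m)
      have hx : H.M.SameV (H.walk U m) (H.M.rot^[kap H U m] (H.walk U m)) := ⟨_, rfl⟩
      have hxm : H.M.rot^[kap H U m] (H.walk U m) ∈ H.M.D := H.ok.iter_mem hmem _
      have hx1 : ¬ (H.exec (cmdP c₀ H (H.walk U) (m + 1))).M.Inner
          (H.M.rot^[kap H U m] (H.walk U m)) := fun hI => hb _ hx hI.1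
      have hx2 := (adj_not_cross S1 hmem hb hx).2
      have hinv := hG1.inv _ hxm hx1 hx2
      have e1 : H.walk U (m + 1) = H.M.inv (H.M.rot^[kap H U m] (H.walk U m)) := rfl
      have e2 : H'.walk U' (m + 1) = H'.M.inv (H'.M.rot^[kap H' U' m] (H'.walk U' m)) := rfl
      rw [e1, e2, hinv, hit, hkap, hp]
    · intro j hj
      rcases Nat.lt_succ_iff_lt_or_eq.1 hj with h1 | h1
      · exact hd j h1
      · rw [h1]
        exact hdeg

theorem hist_sim (ho : H'.outs (cmdP c₀ H (H.walk U) n) = H.outs (cmdP c₀ H (H.walk U) n))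
    (hk : ∀ j < n, H'.deg (H'.walk U' j) = H.deg (H.walk U j) → HPT.kap H' U' j = HPT.kap H U j) :
    ∃ φ ψ, HSim c₀ H U H' U' n φ ψ := by
  obtain ⟨φ, ψ, hS⟩ := sim_of_outs _ ho
  have key := hist_aux ho hk hS
  refine ⟨φ, ψ, ?_, ?_, ?_, ?_, ?_, ?_⟩
  · intro m hm
    obtain ⟨c₂, hc₂⟩ := cmdP_prefix c₀ H (H.walk U) hm
    have h1 := hS _ _ hc₂
    unfold reg
    rw [(key m hm).1]
    exact h1
  · exact fun m hm => (key m hm).1
  · exact fun m hm => (key m hm).2.1
  · exact fun m hm => (key n le_rfl).2.2 m hm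
  · exact fun m hm => hk m hm ((key n le_rfl).2.2 m hm)
  · intro m hm
    obtain ⟨c₂, hc₂⟩ := cmdP_prefix c₀ H (H.walk U) hm
    exact (outs_split hc₂ ho).1

end HPT

end Pool.Agent.Spd
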