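import Pool.Agent.Spd.HistB1

/-!
(Part `HistB2`: `off_eq`, `abv_iff`.  The text below is the common header of the parts.)

# SPD S11: functions of the history

`h : HSim c₀ H U H' U' n φ ψ`, `w = H.walk U`, `w' = H'.walk U'`; for `m ≤ n` the maps `φ`, `ψ` are an
isomorphism of the explored parts at time `m`, and `φ (w m) = w' m`; `w m` is explored at time `m`
(`not_inner_path`).

* `pio_iff`, `pidx_eq`: `Sim.on_iff` with `K = reg m` and `d = w m`; `pidx_unique`.
* `regAt_sim`: `Sim.shift` (the index is the same).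
* `expD_eq`: `φ` maps `{e | SameV (w m) e ∧ e ∉ (reg m).D}` bijectively to the set for `H'`: these
  darts are explored; `Sim.sameV`, `Sim.mem_iff`; surjective by `ψ` (`Sim.symm`).  At a pioneer time or
  not.
* `off_eq`: for `j ≤ offD` the darts `rot^[j] (w m)` are explored and so are the `inv` of those with
  `j < offD` (they are not in `G.D`, `off_lt`-argument of `Off.lean`, so their inverses are not inner),
  so `φ (rot^[j] (w m)) = rot^[j] (w' m)` for `j ≤ offD` (`Sim.rot_step`), and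
  `φ (inv (G.bd (-1))) = inv (G'.bd (-1))`; so `offD' ≤ offD`, and symmetrically.
* `abv_iff`: `Sim.abv_iff` with `G = reg j`, `K = reg m`, `d = w j`.
* `stays_upto`: the characterisation used for regeneration times before `n`.
-/

namespace Pool.Agent.Spd

namespace HPT

private theorem shift_inner_iff (G : HPT) (k : ℤ) (d : ℕ) :
    (G.shift k).M.Inner d ↔ G.M.Inner d := by
  constructor
  · rintro ⟨h1, h2⟩
    refine ⟨h1, fun i hi => h2 (i - k) ?_⟩
    simpa [HPT.shift, PreMap.shift] using hi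
  · rintro ⟨h1, h2⟩
    exact ⟨h1, fun i hi => h2 (i + k) hi⟩

private theorem off_le {c₀ : List ℤ} {H H' : HPT} {w w' : ℕ → ℕ} {φ ψ : ℕ → ℕ} {m : ℕ}
    (P : IsPath H w) (hp : Pio c₀ H w m)
    (h : Sim H (regAt c₀ H w m) H' (regAt c₀ H' w' m) φ ψ) (hφ : φ (w m) = w' m) :
    offD c₀ H' w' m ≤ offD c₀ H w m := by
  have hsub : Sub (reg c₀ H w m) H := reg_sub m
  have hmem : ∀ x ∈ H.M.D, x ∉ (regAt c₀ H w m).M.D →
      ¬ (regAt c₀ H w m).M.Inner x ∧ ¬ (regAt c₀ H w m).M.Inner (H.M.inv x) := by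
    intro x hx hxG
    refine ⟨fun hI => hxG hI.1, fun hI => hxG ?_⟩
    exact (hsub.mem_iff x).2 ⟨hx, Or.inr ((shift_inner_iff _ _ _).1 hI)⟩
  have hdeg : 0 < (regAt c₀ H w m).deg ((regAt c₀ H w m).M.bd 0) :=
    deg_pos _ ((regAt c₀ H w m).ok.bd_mem 0)
  have hle := off_add_le P hp
  have hout : ∀ j < offD c₀ H w m, H.M.rot^[j] (w m) ∉ (regAt c₀ H w m).M.D := by
    intro j hj hj'
    have hjd : j < H.deg (w m) := by omega
    have := (off_mem_iff P hp hjd).1 hj'
    omega
  have hiter : ∀ j ≤ offD c₀ H w m, φ (H.M.rot^[j] (w m)) = H'.M.rot^[j] (w' m) := by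
    intro j
    induction j with
    | zero => intro _; simpa using hφ
    | succ j ih =>
      intro hj
      have hx := H.ok.iter_mem (P.mem m) j
      obtain ⟨h1, h2⟩ := hmem _ hx (hout j (by omega))
      rw [Function.iterate_succ_apply', Function.iterate_succ_apply',
        h.rot_step hx h1 h2, ih (by omega)]
  apply Nat.sInf_le
  change H'.M.rot^[offD c₀ H w m] (w' m) = H'.M.inv ((regAt c₀ H' w' m).M.bd (-1))
  rw [← hiter _ le_rfl, off_spec P hp, h.line]

namespace HSim

variable {c₀ : List ℤ} {H H' : HPT} {U U' : ℕ → unitInterval} {n : ℕ} {φ ψ : ℕ → ℕ}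

theorem off_eq (h : HSim c₀ H U H' U' n φ ψ) {m : ℕ} (hm : m ≤ n)
    (hp : Pio c₀ H (H.walk U) m) :
    offD c₀ H' (H'.walk U') m = offD c₀ H (H.walk U) m := by
  have hp' : Pio c₀ H' (H'.walk U') m := (h.pio_iff hm).2 hp
  have P := walk_isPath H U
  have P' := walk_isPath H' U'
  have hs := h.regAt_sim hm
  have hs0 := h.sim m hm
  have hw : H.walk U m ∈ H.M.D := P.mem m
  have hψ : ψ (H'.walk U' m) = H.walk U m := by
    rw [← h.pos m hm]
    exact (hs0.map _ hw (not_inner_path P m)).2.2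
  have hs' : Sim H' (regAt c₀ H' (H'.walk U') m) H (regAt c₀ H (H.walk U) m) ψ φ := by
    have h1 := Sim.symm (reg_sub m) (reg_sub m) hs0
    have h2 := h1.shift (pidx c₀ H (H.walk U) m)
    have h3 := h.pidx_eq hm
    unfold regAt
    rw [h3]
    exact h2
  exact le_antisymm (off_le P hp hs (h.pos m hm)) (off_le P' hp' hs' hψ)

theorem abv_iff (h : HSim c₀ H U H' U' n φ ψ) {m j : ℕ} (hmj : m ≤ j) (hj : j ≤ n) :
    Abv H' (reg c₀ H' (H'.walk U') m) (H'.walk U' j) ↔
      Abv H (reg c₀ H (H.walk U) m) (H.walk U j) := by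
  have P := walk_isPath H U
  have h1 := Sim.abv_iff (reg_sub j) (reg_sub j) (h.sim j hj) (h.sim m (hmj.trans hj))
    (reg_sub m) (reg_sub m) (reg_mono hmj) (P.mem j) (not_inner_path P j)
  rw [h.pos j hj] at h1
  exact h1.symm

end HSim

end HPT

end Pool.Agent.Spd
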