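import Pool.Agent.Spd.Off1

/-!
(Part `Off2`: `off_add_le`, `off_mem_iff`.  The text below is the common header of the parts.)

# SPD S10: the position of the unexplored darts in the rotation at a pioneer

`n` is a pioneer time, `G = regAt c₀ H w n` (rooted at the position), `o = inv (G.bd (-1))` is the
first dart of `G` at the root vertex (an outer dart of `G`), `dG = G.deg (G.bd 0)`.  Turning with
`rot` in `G` from `o` one meets `fc (G.bd (-1)), ...` and finally `G.bd 0`; the next one is `o`.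

* `off_rot'`: for `κ < dG`: `H.rot^[κ] o = G.rot^[κ] o`: as long as `x = G.rot^[κ] o` is not
  `G.bd 0`, `inv x` is inner in `G`, so `G.rot x = G.fc (inv x) = H.rot x` (`inv x` not inner in `G`
  means that `x` is a line dart `G.bd j` with the origin of `G.bd 0`, so `x = G.bd 0`; and
  `G.rot (G.bd 0) = o` by `fc_outer`, so `G.bd 0` is the last one).
* `off_spec`: `w n` has the origin of `G.bd 0`, hence of `o` (`bd_prev`), so the set is nonempty
  (`Nat.sInf_mem`).
* `off_lt`: for `j < offD` the dart `rot^[j] (w n)` is not in `G.D`: otherwise take the least such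
  `j`; if `j = 0`, `w n ∈ G.D` is not inner in `G` (`not_inner_path`), so it is outer at the root
  vertex: `w n = o`, `offD = 0`.  If `j > 0`, `x = rot^[j] (w n) = fc (inv y)`, `y` not in `G.D`, so
  `inv y` is not inner in `G` (its inverse would be in `G.D`), so `x` is not inner in `G`, so it is
  outer: `x = o`, against the minimality of `offD`.
* `off_add_le`: the darts `rot^[j] (w n)`, `j < offD`, and `rot^[offD + κ] (w n)`, `κ < dG`, are all
  different (not in `G.D`, resp. in `G.D` and distinct; for the first ones minimal period), so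
  their number is at most `deg`.  In detail: if `deg_H < offD + dG`, then (`offD < deg_H`) with
  `κ = deg_H - offD < dG`: `w n = rot^[deg_H] (w n) = G.rot^[κ] o ∈ G.D` not inner, so `w n = o`,
  `offD = 0`, `κ = deg_H ≥ 1`, `G.rot^[κ] o = o` with `0 < κ < dG`: contradiction.
* `off_mem_iff`: by the above and `deg_split` (the number of darts not in `G.D` is `expD`).
* `choice_iff`: `inv (walk (n+1)) = rot^[kap] (walk n)`, and `rot^[j] (walk n)` is injective for
  `j < deg`; `kap ≤ deg`, and `kap < deg` if `U n < 1`.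
* `good_star`: `deg_split`, `star_special` for `G`; `kap = offD + 1` gives
  `inv (walk (n+1)) = G.rot^[1] o`, so `walk (n+1) = inv (G.rot^[1] o) ~ G.star.bd 1`, where
  `G.star = reg (n+1)` (`reg_succ_pio`).  So `n + 1` is a pioneer time.  Its vertex is not on the
  line of `G` (`star_special`: `G.step = N`; or: it is not `~ G.bd j`), so it is strictly above the
  line of `G` (`trich`), all its darts are in `G.D` and `SameV` in `H` and `G` agree, so the set
  counted by `expD` is the singleton of `star_special`.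
-/

namespace Pool.Agent.Spd

namespace HPT

variable {H : HPT} {w : ℕ → ℕ} {c₀ : List ℤ} {n : ℕ}

private theorem off_outer (P : IsPath H w) (hp : Pio c₀ H w n)
    (h : w n ∈ (regAt c₀ H w n).M.D) :
    w n = (regAt c₀ H w n).M.inv ((regAt c₀ H w n).M.bd (-1)) := by
  have S : Sub (regAt c₀ H w n) H := regAt_sub
  have hG := (regAt c₀ H w n).ok
  have hb : (regAt c₀ H w n).M.bd 0 ∈ (regAt c₀ H w n).M.D := hG.bd_mem 0
  have h0 : H.M.SameV ((regAt c₀ H w n).M.bd 0) (w n) := regAt_bd hp
  have hni : ¬ (regAt c₀ H w n).M.Inner (w n) := by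
    intro hi
    refine not_inner_path (c₀ := c₀) P n ⟨hi.1, fun i hj => ?_⟩
    refine hi.2 (i - pidx c₀ H w n) ?_
    rw [hj]
    change (reg c₀ H w n).M.inv _ = (reg c₀ H w n).M.inv ((reg c₀ H w n).M.bd _)
    rw [sub_add_cancel]
  rcases hG.inner_or_outer h with h1 | ⟨j, h1⟩
  · exact absurd h1 hni
  · have h2 : (regAt c₀ H w n).M.SameV ((regAt c₀ H w n).M.bd 0) (w n) :=
      (S.sameV hb _).2 ⟨h0, h⟩
    have h3 := hG.bd_next j
    have h4 : (regAt c₀ H w n).M.SameV ((regAt c₀ H w n).M.bd 0)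
        ((regAt c₀ H w n).M.bd (j + 1)) := by
      rw [h1] at h2
      exact hG.sameV_trans h2 h3
    have h5 := hG.simple 0 (j + 1) h4
    have h6 : j = -1 := by omega
    rw [h1, h6]

private theorem off_lt_deg (P : IsPath H w) (hp : Pio c₀ H w n) :
    offD c₀ H w n < H.deg (w n) := by
  obtain ⟨κ, h1, h2⟩ := (H.sameV_iff_lt (P.mem n)).1
    (⟨offD c₀ H w n, off_spec P hp⟩ : H.M.SameV (w n)
      (H.M.inv ((regAt c₀ H w n).M.bd (-1))))
  exact lt_of_le_of_lt (Nat.sInf_le h2) h1

private theorem off_deg (H : HPT) (w : ℕ → ℕ) (c₀ : List ℤ) (n : ℕ) :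
    (regAt c₀ H w n).deg ((regAt c₀ H w n).M.inv ((regAt c₀ H w n).M.bd (-1))) =
      (regAt c₀ H w n).deg ((regAt c₀ H w n).M.bd 0) := by
  have hG := (regAt c₀ H w n).ok
  have h := hG.bd_prev 0
  rw [zero_sub] at h
  exact (regAt c₀ H w n).deg_sameV (hG.bd_mem 0) h

theorem off_add_le (P : IsPath H w) (hp : Pio c₀ H w n) :
    offD c₀ H w n + (regAt c₀ H w n).deg ((regAt c₀ H w n).M.bd 0) ≤ H.deg (w n) := by
  by_contra hc
  have S : Sub (regAt c₀ H w n) H := regAt_sub
  have hG := (regAt c₀ H w n).ok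
  have hlt := off_lt_deg P hp
  have ho : (regAt c₀ H w n).M.inv ((regAt c₀ H w n).M.bd (-1)) ∈ (regAt c₀ H w n).M.D :=
    hG.inv_mem _ (hG.bd_mem (-1))
  have h1 := off_rot P hp (κ := H.deg (w n) - offD c₀ H w n) (by omega)
  rw [Nat.add_sub_cancel' hlt.le, H.iter_deg] at h1
  have h2 : w n ∈ (regAt c₀ H w n).M.D := by
    rw [h1]
    exact hG.iter_mem ho _
  have h3 := off_outer P hp h2
  have h4 : offD c₀ H w n = 0 := by
    refine Nat.le_zero.1 (Nat.sInf_le ?_)
    change w n = _
    rw [h3, S.inv_eq]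
  rw [h4, Nat.sub_zero, h3] at h1
  have h5 : (regAt c₀ H w n).deg
      ((regAt c₀ H w n).M.inv ((regAt c₀ H w n).M.bd (-1))) ≤
      H.deg ((regAt c₀ H w n).M.inv ((regAt c₀ H w n).M.bd (-1))) :=
    Function.IsPeriodicPt.minimalPeriod_le (by rw [← h3]; omega) h1.symm
  rw [off_deg, ← h3] at h5
  omega

theorem off_mem_iff (P : IsPath H w) (hp : Pio c₀ H w n) {k : ℕ} (hk : k < H.deg (w n)) :
    H.M.rot^[k] (w n) ∈ (regAt c₀ H w n).M.D ↔
      offD c₀ H w n ≤ k ∧
        k < offD c₀ H w n + (regAt c₀ H w n).deg ((regAt c₀ H w n).M.bd 0) := by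
  have S : Sub (regAt c₀ H w n) H := regAt_sub
  have hG := (regAt c₀ H w n).ok
  have ho : (regAt c₀ H w n).M.inv ((regAt c₀ H w n).M.bd (-1)) ∈ (regAt c₀ H w n).M.D :=
    hG.inv_mem _ (hG.bd_mem (-1))
  have hle := off_add_le P hp
  constructor
  · intro h
    have hspec := off_spec P hp
    have h1 : H.M.SameV (H.M.inv ((regAt c₀ H w n).M.bd (-1))) (H.M.rot^[k] (w n)) :=
      H.ok.sameV_trans (H.ok.sameV_symm (P.mem n) ⟨_, hspec⟩) ⟨k, rfl⟩
    rw [← S.inv_eq] at h1
    have h2 := (S.sameV ho _).2 ⟨h1, h⟩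
    obtain ⟨κ, h3, h4⟩ := ((regAt c₀ H w n).sameV_iff_lt ho).1 h2
    rw [off_deg] at h3
    rw [← off_rot P hp h3] at h4
    have h5 := H.iter_injOn (Set.mem_Iio.2 (by omega : offD c₀ H w n + κ < H.deg (w n)))
      (Set.mem_Iio.2 hk) h4
    omega
  · rintro ⟨h1, h2⟩
    obtain ⟨κ, rfl⟩ := Nat.exists_eq_add_of_le h1
    rw [off_rot P hp (by omega)]
    exact hG.iter_mem ho κ

end HPT

end Pool.Agent.Spd
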