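import Pool.Agent.Spd.Off2

/-!
(Part `Off3`: `choice_iff`, `good_star`.  The text below is the common header of the parts.)

# SPD S10: the position of the unexplored darts in the rotation at a pioneer

`n` is a pioneer time, `G = regAt c₀ H w n` (rooted at the position), `o = inv (G.bd (-1))` is the
first dart of `G` at the root vertex (an outer dart of `G`), `dG = G.deg (G.bd 0)`.  Turning with
`rot` in `G` from `o` one meets `fc (G.bd (-1)), ...` and finally `G.bd 0`; the next one is `o`.

* `off_rot'`: for `κ < dG`: `H.rot^[κ] o = G.rot^[κ] o`: as long as `x = G.rot^[κ] o` is not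
  `G.bd 0`, `inv x` is inner in `G`, so `G.rot x = G.fc (inv x) = H.rot x` (`inv x` not inner in `G`
  means that `x` is a line dart `G.bd j` with the origin of `G.bd 0`, so `x = G.bd 0`; and
  `G.rot (G.bd 0) = o` by `fc_outer`, so `G.bd 0` is the last one).
* `off_spec`: `w n` has the origin of `G.bd 0`, hence of `o` (`bd_prev`), so the set is nonempty
  (`Nat.sInf_mem`).
* `off_lt`: for `j < offD` the dart `rot^[j] (w n)` is not in `G.D`: otherwise take the least such
  `j`; if `j = 0`, `w n ∈ G.D` is not inner in `G` (`not_inner_path`), so it is outer at the root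
  vertex: `w n = o`, `offD = 0`.  If `j > 0`, `x = rot^[j] (w n) = fc (inv y)`, `y` not in `G.D`, so
  `inv y` is not inner in `G` (its inverse would be in `G.D`), so `x` is not inner in `G`, so it is
  outer: `x = o`, against the minimality of `offD`.
* `off_add_le`: the darts `rot^[j] (w n)`, `j < offD`, and `rot^[offD + κ] (w n)`, `κ < dG`, are all
  different (not in `G.D`, resp. in `G.D` and distinct; for the first ones minimal period), so
  their number is at most `deg`.  In detail: if `deg_H < offD + dG`, then (`offD < deg_H`) with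
  `κ = deg_H - offD < dG`: `w n = rot^[deg_H] (w n) = G.rot^[κ] o ∈ G.D` not inner, so `w n = o`,
  `offD = 0`, `κ = deg_H ≥ 1`, `G.rot^[κ] o = o` with `0 < κ < dG`: contradiction.
* `off_mem_iff`: by the above and `deg_split` (the number of darts not in `G.D` is `expD`).
* `choice_iff`: `inv (walk (n+1)) = rot^[kap] (walk n)`, and `rot^[j] (walk n)` is injective for
  `j < deg`; `kap ≤ deg`, and `kap < deg` if `U n < 1`.
* `good_star`: `deg_split`, `star_special` for `G`; `kap = offD + 1` gives
  `inv (walk (n+1)) = G.rot^[1] o`, so `walk (n+1) = inv (G.rot^[1] o) ~ G.star.bd 1`, where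
  `G.star = reg (n+1)` (`reg_succ_pio`).  So `n + 1` is a pioneer time.  Its vertex is not on the
  line of `G` (`star_special`: `G.step = N`; or: it is not `~ G.bd j`), so it is strictly above the
  line of `G` (`trich`), all its darts are in `G.D` and `SameV` in `H` and `G` agree, so the set
  counted by `expD` is the singleton of `star_special`.
-/

namespace Pool.Agent.Spd

namespace HPT

variable {H : HPT} {w : ℕ → ℕ} {c₀ : List ℤ} {n : ℕ}

private theorem inv_walk (U : ℕ → unitInterval) (n : ℕ) :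
    H.M.inv (H.walk U (n + 1)) = H.M.rot^[HPT.kap H U n] (H.walk U n) := by
  have h := (walk_isPath H U).mem n
  exact H.ok.inv_inv _ (H.ok.iter_mem h _)

/-- The walk takes the dart number `κ` of the unexplored region at the pioneer time `n`. -/
theorem choice_iff (U : ℕ → unitInterval) (hp : Pio c₀ H (H.walk U) n) (hU : U n ≠ 1) {κ : ℕ}
    (hκ : κ < (regAt c₀ H (H.walk U) n).deg ((regAt c₀ H (H.walk U) n).M.bd 0)) :
    H.M.inv (H.walk U (n + 1)) = (regAt c₀ H (H.walk U) n).M.rot^[κ]
        ((regAt c₀ H (H.walk U) n).M.inv ((regAt c₀ H (H.walk U) n).M.bd (-1))) ↔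
      HPT.kap H U n = offD c₀ H (H.walk U) n + κ := by
  have P := walk_isPath H U
  have hw : H.walk U n ∈ H.M.D := P.mem n
  have hpos : 0 < H.deg (H.walk U n) := H.deg_pos hw
  have hlt : HPT.kap H U n < H.deg (H.walk U n) := by
    have hU1 : (U n : ℝ) < 1 := by
      rcases lt_or_eq_of_le (U n).2.2 with h | h
      · exact h
      · exact absurd (Subtype.ext h) hU
    have hU0 : 0 ≤ (U n : ℝ) := (U n).2.1
    have hd : (0 : ℝ) < (H.deg (H.walk U n) : ℝ) := by exact_mod_cast hpos
    unfold HPT.kap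
    rw [Nat.floor_lt (mul_nonneg hU0 hd.le)]
    calc (U n : ℝ) * (H.deg (H.walk U n) : ℝ) < 1 * (H.deg (H.walk U n) : ℝ) :=
          mul_lt_mul_of_pos_right hU1 hd
      _ = (H.deg (H.walk U n) : ℝ) := one_mul _
  have hle := off_add_le P hp
  have hlt2 : offD c₀ H (H.walk U) n + κ < H.deg (H.walk U n) := by omega
  rw [← off_rot P hp hκ, inv_walk]
  exact Function.iterate_eq_iterate_iff_of_lt_minimalPeriod hlt hlt2

/-- The special star: afterwards the walk is at a pioneer with one explored dart. -/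
theorem good_star (U : ℕ → unitInterval) (hp : Pio c₀ H (H.walk U) n)
    (h0 : (regAt c₀ H (H.walk U) n).step = Step.N)
    (h1 : (regAt c₀ H (H.walk U) n).rem.step = Step.L 1 Tri.edge) :
    H.deg (H.walk U n) = 3 + expD c₀ H (H.walk U) n ∧
    (HPT.kap H U n = offD c₀ H (H.walk U) n + 1 →
      Pio c₀ H (H.walk U) (n + 1) ∧ expD c₀ H (H.walk U) (n + 1) = 1) := by
  have P := walk_isPath H U
  obtain ⟨hstop, hdeg, hnew, hset⟩ := star_special (regAt c₀ H (H.walk U) n) h0 h1
  have S : Sub (regAt c₀ H (H.walk U) n) H := regAt_sub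
  have hreg := reg_succ_pio hp
  have hrot := off_rot P hp (κ := 1) (by rw [hdeg]; norm_num)
  have hsplit := deg_split P hp
  set G := regAt c₀ H (H.walk U) n with hG
  refine ⟨by rw [hsplit, hdeg], fun hk => ?_⟩
  have hok := G.ok
  have hb1 : G.M.bd (-1) ∈ G.M.D := hok.bd_mem (-1)
  have ho : G.M.inv (G.M.bd (-1)) ∈ G.M.D := hok.inv_mem _ hb1
  -- the new position
  have hx : H.walk U (n + 1) = G.M.inv (G.M.rot^[1] (G.M.inv (G.M.bd (-1)))) := by
    have h2 := inv_walk (H := H) U n
    rw [hk, hrot] at h2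
    rw [← h2, S.inv_eq, H.ok.inv_inv _ (P.mem (n + 1))]
  rw [← hx] at hnew hset
  have hxD : H.walk U (n + 1) ∈ G.M.D := by
    rw [hx]
    exact hok.inv_mem _ (hok.iter_mem ho 1)
  have hxH : H.walk U (n + 1) ∈ H.M.D := S.memD hxD
  have hsD : G.star.M.bd 1 ∈ G.M.D := hok.sameV_mem hxD hnew
  have hnewH : H.M.SameV (H.walk U (n + 1)) (G.star.M.bd 1) := ((S.sameV hxD _).1 hnew).1
  have hnewH' : H.M.SameV (G.star.M.bd 1) (H.walk U (n + 1)) := H.ok.sameV_symm hxH hnewH
  have hnew' : G.M.SameV (G.star.M.bd 1) (H.walk U (n + 1)) := hok.sameV_symm hxD hnew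
  -- it is not on the line of `G`
  obtain ⟨hw, -, hbd⟩ := step_N G h0
  obtain ⟨-, F, -, -, -, hbd2⟩ := step_L G.rem h1
  have hstar : G.star = G.rem.rem := by
    unfold star
    rw [hstop]
    rfl
  have s1 : G.star.M.bd 1 = G.M.inv (G.M.fc (G.M.bd 0)) := by
    rw [hstar, hbd2, lineL, hbd]
    simp [lineN]
  have hbm : G.M.fc (G.M.bd 0) ∈ G.M.D := hok.fc_mem (hok.bd_mem 0)
  have hs2 : G.M.SameV (G.star.M.bd 1) (G.M.fc (G.M.fc (G.M.bd 0))) := by
    rw [s1]
    exact hok.tgt hbm
  have hnot : ¬ On H G (H.walk U (n + 1)) := by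
    rintro ⟨i, hi⟩
    have h2 : G.M.SameV (G.M.bd i) (H.walk U (n + 1)) :=
      (S.sameV (hok.bd_mem i) _).2 ⟨hi, hxD⟩
    exact hw i (hok.sameV_trans h2 (hok.sameV_trans hnew hs2))
  have habv : Abv H G (H.walk U (n + 1)) := by
    rcases trich S hxH with h2 | h2 | h2
    · exact absurd hxD (h2 _ (H.ok.sameV_refl _))
    · exact absurd h2 hnot
    · exact h2
  refine ⟨⟨1, ?_⟩, ?_⟩
  · rw [hreg]
    exact hnewH'
  · unfold expD
    rw [hreg]
    have he : {e | H.M.SameV (H.walk U (n + 1)) e ∧ e ∉ G.star.M.D} =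
        {H.walk U (n + 1)} := by
      rw [← hset]
      ext e
      simp only [Set.mem_ofPred_eq]
      constructor
      · rintro ⟨h2, h3⟩
        have h4 : e ∈ G.M.D := (habv e h2).1.1
        exact ⟨(S.sameV hsD e).2 ⟨H.ok.sameV_trans hnewH' h2, h4⟩, h3⟩
      · rintro ⟨h2, h3⟩
        exact ⟨H.ok.sameV_trans hnewH ((S.sameV hsD e).1 h2).1, h3⟩
    rw [he, Set.ncard_singleton]

end HPT

end Pool.Agent.Spd
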