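import Pool.Agent.Spd.HistA
import Pool.Agent.Spd.Off

/-!
(Part `HistB1`: `pio_iff`, `pidx_eq`, `regAt_sim`, `expD_eq`, `vol_eq`.  The text below is the
common header of the parts.)

# SPD S11: functions of the history

`h : HSim c₀ H U H' U' n φ ψ`, `w = H.walk U`, `w' = H'.walk U'`; for `m ≤ n` the maps `φ`, `ψ` are an
isomorphism of the explored parts at time `m`, and `φ (w m) = w' m`; `w m` is explored at time `m`
(`not_inner_path`).

* `pio_iff`, `pidx_eq`: `Sim.on_iff` with `K = reg m` and `d = w m`; `pidx_unique`.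
* `regAt_sim`: `Sim.shift` (the index is the same).
* `expD_eq`: `φ` maps `{e | SameV (w m) e ∧ e ∉ (reg m).D}` bijectively to the set for `H'`: these
  darts are explored; `Sim.sameV`, `Sim.mem_iff`; surjective by `ψ` (`Sim.symm`).  At a pioneer time or
  not.
* `off_eq`: for `j ≤ offD` the darts `rot^[j] (w m)` are explored and so are the `inv` of those with
  `j < offD` (they are not in `G.D`, `off_lt`-argument of `Off.lean`, so their inverses are not inner),
  so `φ (rot^[j] (w m)) = rot^[j] (w' m)` for `j ≤ offD` (`Sim.rot_step`), and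
  `φ (inv (G.bd (-1))) = inv (G'.bd (-1))`; so `offD' ≤ offD`, and symmetrically.
* `abv_iff`: `Sim.abv_iff` with `G = reg j`, `K = reg m`, `d = w j`.
* `stays_upto`: the characterisation used for regeneration times before `n`.
-/

namespace Pool.Agent.Spd

namespace HPT

namespace HSim

variable {c₀ : List ℤ} {H H' : HPT} {U U' : ℕ → unitInterval} {n : ℕ} {φ ψ : ℕ → ℕ}

private theorem on_iff_aux (h : HSim c₀ H U H' U' n φ ψ) {m : ℕ} (hm : m ≤ n) (i : ℤ) :
    H.M.SameV ((reg c₀ H (H.walk U) m).M.bd i) (H.walk U m) ↔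
      H'.M.SameV ((reg c₀ H' (H'.walk U') m).M.bd i) (H'.walk U' m) := by
  rw [← h.pos m hm]
  exact Sim.on_iff (reg_sub m) (reg_sub m) (h.sim m hm) (h.sim m hm) (reg_sub m) (reg_sub m)
    (Sub.refl _) ((walk_isPath H U).mem m) (not_inner_path (walk_isPath H U) m) i

theorem pio_iff (h : HSim c₀ H U H' U' n φ ψ) {m : ℕ} (hm : m ≤ n) :
    Pio c₀ H' (H'.walk U') m ↔ Pio c₀ H (H.walk U) m := by
  constructor
  · rintro ⟨i, hi⟩
    exact ⟨i, (on_iff_aux h hm i).2 hi⟩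
  · rintro ⟨i, hi⟩
    exact ⟨i, (on_iff_aux h hm i).1 hi⟩

theorem pidx_eq (h : HSim c₀ H U H' U' n φ ψ) {m : ℕ} (hm : m ≤ n) :
    pidx c₀ H' (H'.walk U') m = pidx c₀ H (H.walk U) m := by
  by_cases hp : Pio c₀ H (H.walk U) m
  · exact pidx_unique ((on_iff_aux h hm _).1 (pidx_spec hp))
  · have hp' : ¬ Pio c₀ H' (H'.walk U') m := fun hq => hp ((pio_iff h hm).1 hq)
    unfold pidx
    rw [dif_neg hp, dif_neg hp']

theorem regAt_sim (h : HSim c₀ H U H' U' n φ ψ) {m : ℕ} (hm : m ≤ n) :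
    Sim H (regAt c₀ H (H.walk U) m) H' (regAt c₀ H' (H'.walk U') m) φ ψ := by
  unfold regAt
  rw [pidx_eq h hm]
  exact Sim.shift (h.sim m hm) _

theorem expD_eq (h : HSim c₀ H U H' U' n φ ψ) {m : ℕ} (hm : m ≤ n) :
    expD c₀ H' (H'.walk U') m = expD c₀ H (H.walk U) m := by
  have hs := h.sim m hm
  have S : Sub (reg c₀ H (H.walk U) m) H := reg_sub m
  have S' : Sub (reg c₀ H' (H'.walk U') m) H' := reg_sub m
  have hw : H.walk U m ∈ H.M.D := (walk_isPath H U).mem m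
  have hwn : ¬ (reg c₀ H (H.walk U) m).M.Inner (H.walk U m) :=
    not_inner_path (walk_isPath H U) m
  have hw' : H'.walk U' m ∈ H'.M.D := (walk_isPath H' U').mem m
  unfold expD
  have himg : {e | H'.M.SameV (H'.walk U' m) e ∧ e ∉ (reg c₀ H' (H'.walk U') m).M.D} =
      φ '' {e | H.M.SameV (H.walk U m) e ∧ e ∉ (reg c₀ H (H.walk U) m).M.D} := by
    ext e'
    constructor
    · rintro ⟨h1, h2⟩
      have he' : e' ∈ H'.M.D := H'.ok.sameV_mem hw' h1
      have hn' : ¬ (reg c₀ H' (H'.walk U') m).M.Inner e' := fun hI => h2 hI.1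
      obtain ⟨h3, h4, h5⟩ := hs.map' e' he' hn'
      refine ⟨ψ e', ⟨?_, ?_⟩, h5⟩
      · rw [Sim.sameV S S' hs hw hwn h3 h4, h.pos m hm, h5]
        exact h1
      · intro h6
        have h7 := (Sim.mem_iff S S' hs h3 h4).1 h6
        rw [h5] at h7
        exact h2 h7
    · rintro ⟨e, ⟨h1, h2⟩, rfl⟩
      have he : e ∈ H.M.D := H.ok.sameV_mem hw h1
      have hn : ¬ (reg c₀ H (H.walk U) m).M.Inner e := fun hI => h2 hI.1
      refine ⟨?_, ?_⟩
      · have h3 := (Sim.sameV S S' hs hw hwn he hn).1 h1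
        rw [h.pos m hm] at h3
        exact h3
      · exact fun h3 => h2 ((Sim.mem_iff S S' hs he hn).2 h3)
  rw [himg]
  refine Set.ncard_image_of_injOn ?_
  rintro a ⟨ha1, ha2⟩ b ⟨hb1, hb2⟩ hab
  have ha := (hs.map a (H.ok.sameV_mem hw ha1) (fun hI => ha2 hI.1)).2.2
  have hb := (hs.map b (H.ok.sameV_mem hw hb1) (fun hI => hb2 hI.1)).2.2
  rw [← ha, ← hb, hab]

/-- Number of inner darts removed up to time `m`. -/
theorem vol_eq (h : HSim c₀ H U H' U' n φ ψ) {m : ℕ} (hm : m ≤ n) :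
    Set.ncard {d | H'.M.Inner d ∧ ¬ (reg c₀ H' (H'.walk U') m).M.Inner d} =
      Set.ncard {d | H.M.Inner d ∧ ¬ (reg c₀ H (H.walk U) m).M.Inner d} := by
  have hs := h.sim m hm
  have S : Sub (reg c₀ H (H.walk U) m) H := reg_sub m
  have S' : Sub (reg c₀ H' (H'.walk U') m) H' := reg_sub m
  have hb : Sim H H H' H' φ ψ := Sim.base S S' hs
  have himg : {d | H'.M.Inner d ∧ ¬ (reg c₀ H' (H'.walk U') m).M.Inner d} =
      φ '' {d | H.M.Inner d ∧ ¬ (reg c₀ H (H.walk U) m).M.Inner d} := by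
    ext e'
    constructor
    · rintro ⟨h1, h2⟩
      obtain ⟨h3, h4, h5⟩ := hs.map' e' h1.1 h2
      refine ⟨ψ e', ⟨?_, h4⟩, h5⟩
      rw [Sim.inner_iff hs hb (Sub.refl _) (Sub.refl _) h3 h4, h5]
      exact h1
    · rintro ⟨e, ⟨h1, h2⟩, rfl⟩
      exact ⟨(Sim.inner_iff hs hb (Sub.refl _) (Sub.refl _) h1.1 h2).1 h1,
        (hs.map e h1.1 h2).2.1⟩
  rw [himg]
  refine Set.ncard_image_of_injOn ?_
  rintro a ⟨ha1, ha2⟩ b ⟨hb1, hb2⟩ hab
  have ha := (hs.map a ha1.1 ha2).2.2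
  have hb := (hs.map b hb1.1 hb2).2.2
  rw [← ha, ← hb, hab]

end HSim

end HPT

end Pool.Agent.Spd
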