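import Pool.Agent.Spd.W14

/-!
# SPD I01: the label machine

While a finite connected set `K` of vertices is explored, the state is an interval `[A, B]` of positions of the
current line (relative to the current root) and a label for each position (`true` = the vertex is
in `K`).  One step: `k` = least position in `[A, B]` with label `true`; if `k = B` the interval is
extended to `B + 1` with label `b₁`; the root is moved to `k` and the root edge is peeled with outcome
`s`; the third vertex gets the label `b₂`; positions are renumbered as in `lineN`, `lineR`, `lineL`.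
-/

namespace Pool.Agent.Spd

/-- State of the label machine. -/
structure LSt where
  A : ℤ
  B : ℤ
  lab : ℤ → Bool

namespace LSt

/-- There is a label `true` in the interval. -/
def Alive (σ : LSt) : Prop := ∃ j, σ.A ≤ j ∧ j ≤ σ.B ∧ σ.lab j = true

/-- Least position with label `true`. -/
noncomputable def pos (σ : LSt) : ℤ := sInf {j | σ.A ≤ j ∧ j ≤ σ.B ∧ σ.lab j = true}

/-- Extension of the interval (if the least `true` position is the right end) and re-rooting. -/
noncomputable def pre (σ : LSt) (b₁ : Bool) : LSt where
  A := σ.A - σ.pos
  B := (if σ.B = σ.pos then σ.B + 1 else σ.B) - σ.pos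
  lab := fun j => if σ.B = σ.pos ∧ j = 1 then b₁ else σ.lab (j + σ.pos)

/-- Effect of a peeling at the root. -/
def post (σ : LSt) (b₂ : Bool) : Step → LSt
  | .N => ⟨σ.A, σ.B + 1, fun j => if j ≤ 0 then σ.lab j else if j = 1 then b₂ else σ.lab (j - 1)⟩
  | .R k _ => ⟨σ.A, max (σ.B - k) 1,
      fun j => if j ≤ 0 then σ.lab j else if j = 1 then b₂ else σ.lab (j + k)⟩
  | .L k _ => ⟨min (σ.A + k) 0, σ.B,
      fun j => if j < 0 then σ.lab (j - k) else if j = 0 then b₂ else σ.lab j⟩

/-- Inputs of the machine: two bits and an outcome. -/
abbrev In := (Bool × Bool) × Step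

/-- One step. -/
noncomputable def nxt (σ : LSt) (i : In) : LSt := (σ.pre i.1.1).post i.1.2 i.2

/-- State after a list of inputs. -/
noncomputable def run (σ : LSt) : List In → LSt
  | [] => σ
  | i :: w => run (σ.nxt i) w

/-- Commands (positions of the peelings, relative to the current roots). -/
noncomputable def cmds (σ : LSt) : List In → List ℤ
  | [] => []
  | i :: w => σ.pos :: cmds (σ.nxt i) w

/-- The machine is alive before each step. -/
def Runs (σ : LSt) : List In → Prop
  | [] => True
  | i :: w => σ.Alive ∧ Runs (σ.nxt i) w

end LSt

/-- Number of `false` bits of an input. -/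
def inF (i : LSt.In) : ℕ := (if i.1.1 then 0 else 1) + (if i.1.2 then 0 else 1)

/-- Number of `false` bits of a list of inputs. -/
def listF (w : List LSt.In) : ℕ := (w.map inF).sum

/-- Sum of the sizes of the outcomes. -/
def listSz (w : List LSt.In) : ℕ := (w.map fun i => i.2.size).sum

/-- Sum of the changes of the boundary length. -/
def listDl (w : List LSt.In) : ℤ := (w.map fun i => i.2.delta).sum

end Pool.Agent.Spd
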