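import Pool.Agent.Spd.I01

/-!
# SPD I02: the interval grows at least like the boundary length

`LSt.cnt σ` = number of positions in `[A, B]` with label `false`.

* `pos_mem`: if `σ.Alive` then `A ≤ pos ≤ B`, `lab pos = true` and `pos` is the least such position
  (`Int.csInf_mem`, the set is bounded below by `A`).
* `pre_facts`: if alive: `(pre b₁).A ≤ 0 < (pre b₁).B`, `(pre b₁).lab 0 = true`, the length
  `B - A` does not decrease, `cnt (pre b₁) ≤ cnt σ + (if b₁ then 0 else 1)`.
* `post_facts` (with `A ≤ 0`, `1 ≤ B`): `B' - A' ≥ B - A + delta s`;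
  `cnt' ≤ cnt + (if b₂ then 0 else 1)`: the
  `false` positions of the new state are the position of the third vertex (if `b₂ = false`) and
  positions that correspond injectively to `false` positions of the old one (`N`: `j ↦ j`
  (`j ≤ 0`), `j ↦ j - 1`
  (`j ≥ 2`); `R k`: `j ↦ j`, `j ↦ j + k` (`2 ≤ j ≤ B'`, then `B' = B - k` or there is no such `j`);
  `L k`: `j ↦ j - k` (`A' ≤ j < 0`, then `A' = A + k`), `j ↦ j` (`j ≥ 1`)).
* `run_facts`: induction on the list.
* `end_bound`: if the machine has stopped (`¬ Alive`), all labels in `[A, B]` are `false`, so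
  `cnt = B - A + 1` (or `0` if this is negative).
-/

namespace Pool.Agent.Spd

namespace LSt

/-- Number of positions in the interval with label `false`. -/
noncomputable def cnt (σ : LSt) : ℕ := ((Finset.Icc σ.A σ.B).filter fun j => σ.lab j = false).card

theorem pos_mem {σ : LSt} (h : σ.Alive) : σ.A ≤ σ.pos ∧ σ.pos ≤ σ.B ∧ σ.lab σ.pos = true ∧
    ∀ j, σ.A ≤ j → j < σ.pos → σ.lab j = false := by
  have hb : BddBelow {j | σ.A ≤ j ∧ j ≤ σ.B ∧ σ.lab j = true} := ⟨σ.A, fun j hj => hj.1⟩
  have hm : σ.pos ∈ {j | σ.A ≤ j ∧ j ≤ σ.B ∧ σ.lab j = true} := Int.csInf_mem h hb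
  refine ⟨hm.1, hm.2.1, hm.2.2, fun j hA hj => ?_⟩
  by_contra hcon
  have h1 : σ.lab j = true := by simpa using hcon
  have h2 : σ.pos ≤ j := csInf_le hb ⟨hA, hj.le.trans hm.2.1, h1⟩
  omega

/-- Comparison of the numbers of `false` positions. -/
private theorem cnt_le {σ σ' : LSt} (b : Bool) (s₀ : ℤ) (g : ℤ → ℤ)
    (hg : ∀ j, σ'.A ≤ j → j ≤ σ'.B → σ'.lab j = false → j ≠ s₀ →
      σ.A ≤ g j ∧ g j ≤ σ.B ∧ σ.lab (g j) = false)
    (hinj : ∀ i j, i ≠ s₀ → j ≠ s₀ → g i = g j → i = j)
    (hb : b = true → ¬ (σ'.A ≤ s₀ ∧ s₀ ≤ σ'.B ∧ σ'.lab s₀ = false)) :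
    σ'.cnt ≤ σ.cnt + (if b then 0 else 1) := by
  classical
  have key : (((Finset.Icc σ'.A σ'.B).filter fun j => σ'.lab j = false).erase s₀).card ≤
      σ.cnt := by
    unfold cnt
    refine Finset.card_le_card_of_injOn g ?_ ?_
    · intro j hj
      rw [Finset.mem_coe, Finset.mem_erase, Finset.mem_filter, Finset.mem_Icc] at hj
      obtain ⟨h1, h2, h3⟩ := hg j hj.2.1.1 hj.2.1.2 hj.2.2 hj.1
      rw [Finset.mem_coe, Finset.mem_filter, Finset.mem_Icc]
      exact ⟨⟨h1, h2⟩, h3⟩
    · intro i hi j hj hij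
      rw [Finset.mem_coe, Finset.mem_erase] at hi hj
      exact hinj i j hi.1 hj.1 hij
  cases b with
  | true =>
    have h1 : s₀ ∉ (Finset.Icc σ'.A σ'.B).filter fun j => σ'.lab j = false := by
      rw [Finset.mem_filter, Finset.mem_Icc]
      intro h2
      exact hb rfl ⟨h2.1.1, h2.1.2, h2.2⟩
    rw [Finset.erase_eq_of_notMem h1] at key
    simpa [cnt] using key
  | false =>
    have h2 : σ'.cnt ≤ (((Finset.Icc σ'.A σ'.B).filter fun j => σ'.lab j = false).erase
      s₀).card + 1 := by
      have h1 := Finset.pred_card_le_card_erase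
        (s := (Finset.Icc σ'.A σ'.B).filter fun j => σ'.lab j = false) (a := s₀)
      unfold cnt
      omega
    simp only [Bool.false_eq_true, if_false]
    omega

theorem pre_facts {σ : LSt} (h : σ.Alive) (b₁ : Bool) :
    (σ.pre b₁).A ≤ 0 ∧ 1 ≤ (σ.pre b₁).B ∧ (σ.pre b₁).lab 0 = true ∧
      σ.B - σ.A ≤ (σ.pre b₁).B - (σ.pre b₁).A ∧
      (σ.pre b₁).cnt ≤ σ.cnt + (if b₁ then 0 else 1) := by
  obtain ⟨h1, h2, h3, _⟩ := pos_mem h
  by_cases hB : σ.B = σ.pos
  · refine ⟨?_, ?_, ?_, ?_, ?_⟩
    · simp only [pre]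
      omega
    · simp only [pre, if_pos hB]
      omega
    · simp only [pre]
      rw [if_neg (by omega), zero_add]
      exact h3
    · simp only [pre, if_pos hB]
      omega
    · refine cnt_le b₁ 1 (fun j => j + σ.pos) ?_ ?_ ?_
      · intro j hA hB' hl hj
        simp only [pre, if_pos hB] at hA hB' hl ⊢
        rw [if_neg (by omega)] at hl
        exact ⟨by omega, by omega, hl⟩
      · intro i j _ _ hij
        exact add_right_cancel hij
      · intro hb hcon
        obtain ⟨_, _, hl⟩ := hcon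
        simp only [pre] at hl
        rw [if_pos ⟨hB, trivial⟩, hb] at hl
        exact Bool.noConfusion hl
  · refine ⟨?_, ?_, ?_, ?_, ?_⟩
    · simp only [pre]
      omega
    · simp only [pre, if_neg hB]
      omega
    · simp only [pre]
      rw [if_neg (by omega), zero_add]
      exact h3
    · simp only [pre, if_neg hB]
      omega
    · refine cnt_le b₁ (σ.B - σ.pos + 1) (fun j => j + σ.pos) ?_ ?_ ?_
      · intro j hA hB' hl hj
        simp only [pre, if_neg hB] at hA hB' hl ⊢
        rw [if_neg (fun h4 => hB h4.1)] at hl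
        exact ⟨by omega, by omega, hl⟩
      · intro i j _ _ hij
        exact add_right_cancel hij
      · intro hb hcon
        obtain ⟨_, hl, _⟩ := hcon
        simp only [pre, if_neg hB] at hl
        omega

theorem post_facts {σ : LSt} (hA : σ.A ≤ 0) (hB : 1 ≤ σ.B) (b₂ : Bool) (s : Step) :
    σ.B - σ.A + s.delta ≤ (σ.post b₂ s).B - (σ.post b₂ s).A ∧
      (σ.post b₂ s).cnt ≤ σ.cnt + (if b₂ then 0 else 1) := by
  cases s with
  | N =>
    refine ⟨?_, ?_⟩
    · simp only [post, Step.delta]
      omega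
    · refine cnt_le b₂ 1 (fun j => if j ≤ 0 then j else j - 1) ?_ ?_ ?_
      · intro j h1 h2 hl hj
        simp only [post] at h1 h2 hl ⊢
        by_cases hj0 : j ≤ 0
        · rw [if_pos hj0] at hl ⊢
          exact ⟨by omega, by omega, hl⟩
        · rw [if_neg hj0, if_neg hj] at hl
          rw [if_neg hj0]
          exact ⟨by omega, by omega, hl⟩
      · intro i j hi hj hij
        split_ifs at hij <;> omega
      · intro hb hcon
        obtain ⟨_, _, hl⟩ := hcon
        simp only [post] at hl
        rw [if_neg (by omega), if_pos trivial, hb] at hl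
        exact Bool.noConfusion hl
  | R k τ =>
    refine ⟨?_, ?_⟩
    · simp only [post, Step.delta]
      omega
    · refine cnt_le b₂ 1 (fun j => if j ≤ 0 then j else j + k) ?_ ?_ ?_
      · intro j h1 h2 hl hj
        simp only [post] at h1 h2 hl ⊢
        by_cases hj0 : j ≤ 0
        · rw [if_pos hj0] at hl ⊢
          exact ⟨by omega, by omega, hl⟩
        · rw [if_neg hj0, if_neg hj] at hl
          rw [if_neg hj0]
          exact ⟨by omega, by omega, hl⟩
      · intro i j hi hj hij
        split_ifs at hij <;> omega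
      · intro hb hcon
        obtain ⟨_, _, hl⟩ := hcon
        simp only [post] at hl
        rw [if_neg (by omega), if_pos trivial, hb] at hl
        exact Bool.noConfusion hl
  | L k τ =>
    refine ⟨?_, ?_⟩
    · simp only [post, Step.delta]
      omega
    · refine cnt_le b₂ 0 (fun j => if j < 0 then j - k else j) ?_ ?_ ?_
      · intro j h1 h2 hl hj
        simp only [post] at h1 h2 hl ⊢
        by_cases hj0 : j < 0
        · rw [if_pos hj0] at hl ⊢
          exact ⟨by omega, by omega, hl⟩
        · rw [if_neg hj0, if_neg hj] at hl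
          rw [if_neg hj0]
          exact ⟨by omega, by omega, hl⟩
      · intro i j hi hj hij
        split_ifs at hij <;> omega
      · intro hb hcon
        obtain ⟨_, _, hl⟩ := hcon
        simp only [post] at hl
        rw [if_neg (by omega), if_pos trivial, hb] at hl
        exact Bool.noConfusion hl

theorem run_facts {σ : LSt} {w : List In} (h : σ.Runs w) :
    σ.B - σ.A + listDl w ≤ (σ.run w).B - (σ.run w).A ∧ (σ.run w).cnt ≤ σ.cnt + listF w := by
  induction w generalizing σ with
  | nil =>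
    simp [listDl, listF, run]
  | cons i w ih =>
    obtain ⟨h1, h2⟩ := h
    obtain ⟨h3, h4⟩ := ih h2
    obtain ⟨h5, h6, _, h8, h9⟩ := pre_facts h1 i.1.1
    obtain ⟨h10, h11⟩ := post_facts h5 h6 i.1.2 i.2
    have e1 : listDl (i :: w) = i.2.delta + listDl w := by
      simp [listDl]
    have e2 : listF (i :: w) = inF i + listF w := by
      simp [listF]
    have e3 : σ.run (i :: w) = (σ.nxt i).run w := rfl
    have e4 : σ.nxt i = (σ.pre i.1.1).post i.1.2 i.2 := rfl
    rw [e1, e2, e3]
    rw [e4] at h3 h4 ⊢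
    unfold inF
    constructor
    · linarith
    · omega

/-- If the machine starts with `[0, L]`, all labels `true`, and has stopped, then
`L + 1 + ∑ delta ≤ number of false bits`. -/
theorem end_bound (L : ℕ) {w : List In}
    (h : (⟨0, L, fun _ => true⟩ : LSt).Runs w)
    (he : ¬ ((⟨0, L, fun _ => true⟩ : LSt).run w).Alive) :
    (L : ℤ) + 1 + listDl w ≤ listF w := by
  obtain ⟨h1, h2⟩ := run_facts h
  have h3 : (⟨0, L, fun _ => true⟩ : LSt).cnt = 0 := by
    simp [cnt]
  rw [h3] at h2
  obtain ⟨σ, hσ⟩ : ∃ σ : LSt, σ = (⟨0, L, fun _ => true⟩ : LSt).run w := ⟨_, rfl⟩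
  rw [← hσ] at h1 h2 he
  have h4 : σ.cnt = (Finset.Icc σ.A σ.B).card := by
    unfold cnt
    rw [Finset.filter_true_of_mem]
    intro j hj
    rw [Finset.mem_Icc] at hj
    by_contra hcon
    exact he ⟨j, hj.1, hj.2, by simpa using hcon⟩
  rw [Int.card_Icc] at h4
  simp only at h1
  omega

end LSt

end Pool.Agent.Spd
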