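import Pool.Agent.Spd.Loc1

/-!
(Part `Loc2`: `abv_rot`, `adj_not_cross`, `blw_mono`, `abv_mono`, `on_iff_of_abv`,
`blw_finite`.  The text below is the common header of the parts.)

# SPD A17: position of a vertex with respect to the line of a sub-map

* `trich`: assume that some `e' ~ e` is in `G.D` and that `e` is not on the line.  The darts `f ~ e`
  in `G.D` are inner in `G` (an outer dart `inv (G.bd i)` has the origin of `G.bd (i+1)`,
  `bd_next` for `G`, so `e` would be on the line), and `inv f` is inner too (otherwise `f` is a line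
  dart `G.bd i` by `Sub.line_of`, whose origin is on the line).  Then `rot f = fc (inv f)` is inner
  in `G`, hence in `G.D`: by iteration the whole class is in `G.D`, so `Abv`.
* exclusiveness: `On` and `Blw`: `G.bd i ∈ G.D`.  `On` and `Abv`: `G.bd i` has an inverse which is
  not inner in `G` (`line_out`).
* `abv_rot`: above the line, `G` and `H` have the same rotation.
* `adj_not_cross`: if `e` is strictly below and `x ~ e` then `inv x` is not strictly above
  (`inv x ∈ G.D` would give `x ∈ G.D`, since `inv x` and `inv (inv x) = x` are inner in `G`).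
* `boundary_not_abv`: a boundary vertex of `H` is never strictly above: the outer dart
  `inv (H.bd (i-1))` is at `v_i` and it is not inner.
-/

namespace Pool.Agent.Spd

namespace HPT

variable {G H K : HPT}

private theorem iter_eq (S : Sub G H) {e : ℕ} (ha : Abv H G e) (κ : ℕ) :
    G.M.rot^[κ] e = H.M.rot^[κ] e := by
  induction κ with
  | zero => rfl
  | succ n ih =>
    rw [Function.iterate_succ_apply', Function.iterate_succ_apply', ih]
    have h1 : G.M.Inner (H.M.inv (H.M.rot^[n] e)) := (ha _ ⟨n, rfl⟩).2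
    change G.M.fc (G.M.inv (H.M.rot^[n] e)) = H.M.fc (H.M.inv (H.M.rot^[n] e))
    rw [S.inv_eq, S.fc_eq _ h1]

theorem abv_rot (S : Sub G H) {e : ℕ} (he : e ∈ H.M.D) (ha : Abv H G e) (κ : ℕ) :
    G.M.rot^[κ] e = H.M.rot^[κ] e ∧ G.deg e = H.deg e := by
  refine ⟨iter_eq S ha κ, ?_⟩
  change Function.minimalPeriod G.M.rot e = Function.minimalPeriod H.M.rot e
  rw [Function.minimalPeriod_eq_minimalPeriod_iff]
  intro n
  change G.M.rot^[n] e = e ↔ H.M.rot^[n] e = e
  rw [iter_eq S ha n]

theorem adj_not_cross (S : Sub G H) {e x : ℕ} (he : e ∈ H.M.D) (hb : Blw H G e)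
    (hx : H.M.SameV e x) : ¬ Abv H G (H.M.inv x) ∧ ¬ G.M.Inner (H.M.inv x) := by
  have h1 : ¬ G.M.Inner (H.M.inv x) := fun h =>
    hb x hx ((S.mem_iff x).2 ⟨H.ok.sameV_mem he hx, Or.inr h⟩)
  exact ⟨fun h => h1 (h _ ⟨0, rfl⟩).1, h1⟩

/-- Smaller regions: below is inherited, above is inherited upwards. -/
theorem blw_mono (S : Sub K G) {e : ℕ} (hb : Blw H G e) : Blw H K e :=
  fun e' he' h => hb e' he' ((S.mem_iff e').1 h).1

theorem abv_mono (S : Sub K G) {e : ℕ} (hb : Abv H K e) : Abv H G e :=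
  fun e' he' => ⟨S.cutting.sub _ (hb e' he').1, S.cutting.sub _ (hb e' he').2⟩

/-- For a vertex above the line of `G`, positions with respect to a sub-map `K` of `G` are the same
in `H` and in `G`. -/
theorem on_iff_of_abv (S : Sub G H) (T : Sub K G) {e : ℕ} (he : e ∈ H.M.D) (ha : Abv H G e)
    (i : ℤ) : H.M.SameV (K.M.bd i) e ↔ G.M.SameV (K.M.bd i) e := by
  have hG : G.M.Inner (K.M.bd i) := T.cutting.sub _ (T.cutting.line_mem i)
  have hH : H.M.Inner (K.M.bd i) := S.cutting.sub _ hG
  have heG : e ∈ G.M.D := (ha e ⟨0, rfl⟩).1.1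
  constructor
  · intro h
    obtain ⟨n, hn⟩ := H.ok.sameV_symm hH.1 h
    refine G.ok.sameV_symm heG ⟨n, ?_⟩
    rw [iter_eq S ha n, hn]
  · intro h
    obtain ⟨n, hn⟩ := G.ok.sameV_symm hG.1 h
    refine H.ok.sameV_symm he ⟨n, ?_⟩
    rw [← iter_eq S ha n, hn]

/-- Only finitely many vertices are strictly below; in terms of darts: finitely many inner darts
have their origin strictly below. -/
theorem blw_finite (S : Sub G H) : {d | d ∈ H.M.D ∧ Blw H G d}.Finite := by
  refine (S.fin.union (S.fin.image H.M.inv)).subset ?_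
  rintro d ⟨hd, hb⟩
  have h1 : d ∉ G.M.D := hb d ⟨0, rfl⟩
  have h2 : ¬ G.M.Inner d := fun h => h1 ((S.mem_iff d).2 ⟨hd, Or.inl h⟩)
  have h3 : ¬ G.M.Inner (H.M.inv d) := fun h => h1 ((S.mem_iff d).2 ⟨hd, Or.inr h⟩)
  rcases H.ok.inner_or_outer hd with hi | ⟨i, hi⟩
  · exact Or.inl ⟨hi, h2⟩
  · right
    have h4 : H.M.inv d = H.M.bd i := by
      rw [hi]
      exact H.ok.inv_inv _ (H.ok.bd_mem i)
    refine ⟨H.M.inv d, ⟨?_, h3⟩, H.ok.inv_inv d hd⟩
    rw [h4]
    exact H.ok.bd_inner i

end HPT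

end Pool.Agent.Spd
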