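import Pool.Agent.Spd.W03
import Pool.Agent.Spd.Adm
import Pool.Agent.Spd.I01
import Pool.Agent.Spd.Loc

/-!
# SPD I03: one peeling: surviving vertices and removed darts

Notation: `r = bd 0`, `a = fc r`, `b = fc a` (root triangle), `G = H.rem`, `S : Sub G H` (`rem_sub`), the line
of `G` is `lineN H.M`, `lineR H.M k`, `lineL H.M k` (`step_N`, `step_R`, `step_L`).

* `line_pos`: a vertex `v_j` (`A ≤ j ≤ B`) which meets `G` is on the line of `G` at a position in the new
  interval.  As it meets `G` it is not `Blw`, by `boundary_not_abv` it is not `Abv`, so by `trich` it is `On`: there is `i` with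
  `SameV (G.bd i) (bd j)`.  By the description of the line and `simple` (`inv b ~ bd 0` by `tgt` and `fc_tri`, `inv a ~ b`):
  `N`: `i = j` (`j ≤ 0`), `i = j + 1` (`j ≥ 1`); (`i = 1` is excluded by `step_N`).
  `R k`: `i = j ≤ 0` or `i = j - k` with `j ≥ k + 1` (`i = 1` for `j = k + 1`);
  `L k`: `i = j ≥ 1` or `i = j + k` with `j ≤ -k`.  Compare with the interval of `post`.
* `removed_pos`: `x` is a removed dart (`x ∈ H.D`, `x ∉ G.D`, i.e. neither `x` nor `inv x` is inner in `G`) whose
  vertex meets `G`.  Not `Blw`; not `Abv` (`x` is not inner in `G`), so `SameV (G.bd i) x` for some `i`.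
  Claim: `i ∈ {0, 2}` for `N`, `i ∈ {0, 1}` for `R`, `L`; then `i` is in the new interval since `A ≤ 0`, `1 ≤ B`.
  `N`: the only removed darts are `r ~ G.bd 0` and `inv r ~ bd 1 = G.bd 2`: if `x` is inner in `H` it is one of `r, a, b`, but
  `inv a`, `inv b` are on the line of `G`; if `x = inv (bd i)` is outer then `bd i = inv x` is `r`, `a` or `b`, and
  `a = bd i` is impossible as `inv a` is inner.
  `R k`: if `x` is inner in `H`: `x ∈ {r, a} ∪ F` (`inv b` is on the line of `G`).  `r`: position `0`.  `a ~ bd 1`: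
  excluded by the case `R` of the argument for `line_pos` (`v_1` is swallowed, as `1 ≤ k`).  `x ∈ F`:
  `hole_vertex_R`: the vertex is not `v_i` for `i ≤ 0` and for `i ≥ k + 2`, and `G.bd i ~ v_i` (`i ≤ 0`), `G.bd i = bd (i + k)`
  (`i ≥ 1`): so `i = 1`.  If `x = inv (bd i')`: `bd i' ∈ {r, a} ∪ F` (`inv b` is inner).
  `bd i' = r`: `x ~ bd 1` is swallowed.  `bd i' = a`: `x = inv a ~ b ~ bd (k+1)`: position `1`.  `bd i' ∈ F`: `1 ≤ i' ≤ k` by
  `hole_vertex_R` (`bd (k + 1)` is on the line of `G`, so it is inner in `G`, not in `F`), `x ~ bd (i' + 1)`, which is swallowed or `bd (k+1)`.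
  `L k`: symmetric with `hole_vertex_L`: `x ∈ {r, b} ∪ F` (`inv a = G.bd 0`): `r ~ bd 0` is swallowed, `b ~ bd (-k)`
  is position `0`, `x ∈ F` at `v_i` with `-k ≤ i ≤ 0`; or `x = inv (bd i')` with `bd i' ∈ {r, b} ∪ F`: `inv r ~ bd 1`
  position `1`; `bd i' = b`: then `x = inv b ~ r` is swallowed; `bd i' ∈ F`: `-k ≤ i' ≤ -1` (`bd 0 ∉ F` by `hole_disj`),
  `x ~ bd (i' + 1)` is swallowed.
-/

namespace Pool.Agent.Spd

namespace HPT

/-- `inv b` has the origin of `bd 0`. -/
private theorem i03_b (H : HPT) :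
    H.M.SameV (H.M.inv (H.M.fc (H.M.fc (H.M.bd 0)))) (H.M.bd 0) := by
  have h := H.ok
  have hb := h.fc_mem (h.fc_mem (h.bd_mem 0))
  have h1 := h.tgt hb
  rw [h.fc_tri _ (h.bd_inner 0)] at h1
  exact h1

/-- `inv a` has the origin of `b`. -/
private theorem i03_a (H : HPT) :
    H.M.SameV (H.M.inv (H.M.fc (H.M.bd 0))) (H.M.fc (H.M.fc (H.M.bd 0))) :=
  H.ok.tgt (H.ok.fc_mem (H.ok.bd_mem 0))

/-- `a` has the origin of `bd 1`. -/
private theorem i03_one (H : HPT) : H.M.SameV (H.M.fc (H.M.bd 0)) (H.M.bd 1) := by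
  have h := H.ok
  have h1 := h.tgt (h.bd_mem 0)
  have h2 := h.bd_next 0
  rw [zero_add] at h2
  have hr := h.inv_mem _ (h.bd_mem 0)
  exact h.sameV_trans (h.sameV_symm hr h1) h2

private theorem i03_idx (H : HPT) {x i j} (hi : H.M.SameV (H.M.bd i) x)
    (hj : H.M.SameV x (H.M.bd j)) : i = j :=
  H.ok.simple i j (H.ok.sameV_trans hi hj)

private theorem i03_N (H : HPT) (hs : H.step = .N) {i j : ℤ}
    (hi : H.M.SameV (H.rem.M.bd i) (H.M.bd j)) : (i ≤ 0 ∧ j = i) ∨ (2 ≤ i ∧ j = i - 1) := by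
  have h := H.ok
  obtain ⟨h1, -, h3⟩ := step_N H hs
  rw [h3] at hi
  unfold lineN at hi
  have hb := h.inv_mem _ (h.fc_mem (h.fc_mem (h.bd_mem 0)))
  have ha := h.inv_mem _ (h.fc_mem (h.bd_mem 0))
  split_ifs at hi with c1 c2 c3
  · have := h.simple _ _ hi
    omega
  · have := h.simple _ _ (h.sameV_trans (h.sameV_symm hb (i03_b H)) hi)
    omega
  · exact absurd (h.sameV_trans (h.sameV_symm ha hi) (i03_a H)) (h1 j)
  · have := h.simple _ _ hi
    omega

private theorem i03_R (H : HPT) {k : ℕ} {τ : Tri k} (hs : H.step = .R k τ) {i j : ℤ}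
    (hi : H.M.SameV (H.rem.M.bd i) (H.M.bd j)) : (i ≤ 0 ∧ j = i) ∨ (1 ≤ i ∧ j = i + k) := by
  have h := H.ok
  obtain ⟨h1, F, -, -, -, h3⟩ := step_R H hs
  rw [h3] at hi
  unfold lineR at hi
  have hb := h.inv_mem _ (h.fc_mem (h.fc_mem (h.bd_mem 0)))
  split_ifs at hi with c1 c2
  · have := h.simple _ _ hi
    omega
  · have := h.simple _ _ (h.sameV_trans (h.sameV_symm hb (i03_b H)) hi)
    omega
  · have := h.simple _ _ hi
    omega

private theorem i03_L (H : HPT) {k : ℕ} {τ : Tri k} (hs : H.step = .L k τ) {i j : ℤ}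
    (hi : H.M.SameV (H.rem.M.bd i) (H.M.bd j)) : (i ≤ 0 ∧ j = i - k) ∨ (1 ≤ i ∧ j = i) := by
  have h := H.ok
  obtain ⟨h1, F, -, -, -, h3⟩ := step_L H hs
  rw [h3] at hi
  unfold lineL at hi
  have ha := h.inv_mem _ (h.fc_mem (h.bd_mem 0))
  have hb := h.fc_mem (h.fc_mem (h.bd_mem 0))
  split_ifs at hi with c1 c2
  · have := h.simple _ _ hi
    omega
  · have h4 := h.sameV_trans h1 (h.sameV_symm ha (i03_a H))
    have := h.simple _ _ (h.sameV_trans h4 hi)
    omega
  · have := h.simple _ _ hi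
    omega

/-- A vertex which meets `G`, but has a dart that is not inner in `G`, or is a boundary
vertex, is on the line of `G`. -/
private theorem i03_on (H : HPT) {x e : ℕ} (hx : x ∈ H.M.D) (he : e ∈ H.rem.M.D)
    (hxe : H.M.SameV x e) (hna : ¬ Abv H H.rem x) : ∃ i, H.M.SameV (H.rem.M.bd i) x := by
  rcases trich (rem_sub H) hx with h1 | h1 | h1
  · exact absurd he (h1 e hxe)
  · exact h1
  · exact absurd h1 hna

theorem line_pos (H : HPT) (σ : LSt) (hA : σ.A ≤ 0) (hB : 1 ≤ σ.B) (b₂ : Bool) {j : ℤ}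
    (h1 : σ.A ≤ j) (h2 : j ≤ σ.B) {e : ℕ} (he : e ∈ H.rem.M.D)
    (hj : H.M.SameV (H.M.bd j) e) : ∃ j', (σ.post b₂ H.step).A ≤ j' ∧
      j' ≤ (σ.post b₂ H.step).B ∧ H.M.SameV (H.rem.M.bd j') (H.M.bd j) := by
  have h := H.ok
  obtain ⟨i, hi⟩ := i03_on H (h.bd_mem j) he hj (boundary_not_abv (rem_sub H) j)
  refine ⟨i, ?_, ?_, hi⟩
  · cases hs : H.step with
    | N =>
      change σ.A ≤ i
      rcases i03_N H hs hi with h3 | h3 <;> omega
    | R k τ =>
      change σ.A ≤ i
      rcases i03_R H hs hi with h3 | h3 <;> omega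
    | L k τ =>
      change min (σ.A + k) 0 ≤ i
      rcases i03_L H hs hi with h3 | h3 <;> omega
  · cases hs : H.step with
    | N =>
      change i ≤ σ.B + 1
      rcases i03_N H hs hi with h3 | h3 <;> omega
    | R k τ =>
      change i ≤ max (σ.B - k) 1
      rcases i03_R H hs hi with h3 | h3 <;> omega
    | L k τ =>
      change i ≤ σ.B
      rcases i03_L H hs hi with h3 | h3 <;> omega

theorem removed_pos (H : HPT) (σ : LSt) (hA : σ.A ≤ 0) (hB : 1 ≤ σ.B) (b₂ : Bool) {x : ℕ}
    (hx : x ∈ H.M.D) (hx' : x ∉ H.rem.M.D) {e : ℕ} (he : e ∈ H.rem.M.D)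
    (hxe : H.M.SameV x e) : ∃ j', (σ.post b₂ H.step).A ≤ j' ∧
      j' ≤ (σ.post b₂ H.step).B ∧ H.M.SameV (H.rem.M.bd j') x := by
  have h := H.ok
  have S := rem_sub H
  have hn1 : ¬ H.rem.M.Inner x := fun h1 => hx' h1.1
  have hn2 : ¬ H.rem.M.Inner (H.M.inv x) := fun h1 => hx' ((S.mem_iff x).2 ⟨hx, Or.inr h1⟩)
  obtain ⟨i, hi⟩ := i03_on H hx he hxe (not_abv_of_not_inner hn1)
  have hr := h.bd_inner 0
  have ha := h.fc_inner _ hr
  have hb := h.fc_inner _ ha
  have hia := h.inv_mem _ ha.1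
  have hib := h.inv_mem _ hb.1
  -- the outer darts
  have hout : H.M.Inner x ∨ ∃ i', x = H.M.inv (H.M.bd i') ∧ ¬ H.rem.M.Inner (H.M.bd i') ∧
      H.M.SameV x (H.M.bd (i' + 1)) := by
    rcases h.inner_or_outer hx with h1 | ⟨i', h1⟩
    · exact Or.inl h1
    · refine Or.inr ⟨i', h1, ?_, ?_⟩
      · rw [h1, h.inv_inv _ (h.bd_mem i')] at hn2
        exact hn2
      · rw [h1]
        exact h.bd_next i'
  refine ⟨i, ?_, ?_, hi⟩ <;> cases hs : H.step with
  | N =>
    have key : i = 0 ∨ i = 2 := by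
      obtain ⟨h1, h2, h3⟩ := step_N H hs
      have g0 : H.rem.M.bd 0 = H.M.inv (H.M.fc (H.M.fc (H.M.bd 0))) := by
        rw [h3]; simp [lineN]
      have g1 : H.rem.M.bd 1 = H.M.inv (H.M.fc (H.M.bd 0)) := by
        rw [h3]; simp [lineN]
      have i0 := H.rem.ok.bd_inner 0
      have i1 := H.rem.ok.bd_inner 1
      rw [g0] at i0
      rw [g1] at i1
      have hcase : ∀ y, H.M.Inner y → ¬ H.rem.M.Inner y → y = H.M.bd 0 ∨ y = H.M.fc (H.M.bd 0) ∨
          y = H.M.fc (H.M.fc (H.M.bd 0)) := by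
        intro y hy1 hy2
        by_contra hc
        push Not at hc
        exact hy2 ((h2 y).2 ⟨hy1, hc⟩)
      rcases hout with h4 | ⟨i', h4, h5, h6⟩
      · rcases hcase x h4 hn1 with rfl | rfl | rfl
        · rcases i03_N H hs hi with h7 | h7 <;> omega
        · exact absurd i1 hn2
        · exact absurd i0 hn2
      · rcases hcase _ (h.bd_inner i') h5 with h7 | h7 | h7
        · have := h.bd_inj h7
          rcases i03_N H hs (h.sameV_trans hi h6) with h8 | h8 <;> omega
        · rw [h7] at h4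
          rw [← h4] at i1
          exact absurd i1 hn1
        · rw [h7] at h4
          rw [← h4] at i0
          exact absurd i0 hn1
    first
      | (change σ.A ≤ i; omega)
      | (change i ≤ σ.B + 1; omega)
  | R k τ =>
    have key : i = 0 ∨ i = 1 := by
      obtain ⟨h1, F, -, hF, h2, h3⟩ := step_R H hs
      have hk := tri_pos τ
      have g0 : H.rem.M.bd 0 = H.M.inv (H.M.fc (H.M.fc (H.M.bd 0))) := by
        rw [h3]; simp [lineR]
      have g1 : H.rem.M.bd 1 = H.M.bd (k + 1) := by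
        rw [h3]; simp [lineR, add_comm]
      have i0 := H.rem.ok.bd_inner 0
      have i1 := H.rem.ok.bd_inner 1
      rw [g0] at i0
      rw [g1] at i1
      have hcase : ∀ y, H.M.Inner y → ¬ H.rem.M.Inner y → y = H.M.bd 0 ∨ y = H.M.fc (H.M.bd 0) ∨
          y = H.M.fc (H.M.fc (H.M.bd 0)) ∨ y ∈ F := by
        intro y hy1 hy2
        by_contra hc
        push Not at hc
        exact hy2 ((h2 y).2 ⟨hy1, hc⟩)
      have hv1 : ¬ H.M.SameV (H.rem.M.bd i) (H.M.bd 1) := by
        intro h4
        rcases i03_R H hs h4 with h5 | h5 <;> omega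
      rcases hout with h4 | ⟨i', h4, h5, h6⟩
      · rcases hcase x h4 hn1 with rfl | rfl | rfl | h7
        · rcases i03_R H hs hi with h7 | h7 <;> omega
        · exact absurd (h.sameV_trans hi (i03_one H)) hv1
        · exact absurd i0 hn2
        · by_contra hc
          rcases lt_or_ge i 0 with h8 | h8
          · have h9 : H.rem.M.bd i = H.M.bd i := by
              rw [h3]; unfold lineR; rw [if_pos h8]
            rw [h9] at hi
            exact hole_vertex_R H hk h1 hF (Or.inl h8.le) h7 hi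
          · have h9 : H.rem.M.bd i = H.M.bd (i + k) := by
              rw [h3]; unfold lineR; rw [if_neg (by omega), if_neg (by omega)]
            rw [h9] at hi
            exact hole_vertex_R H hk h1 hF (Or.inr (by omega)) h7 hi
      · rcases hcase _ (h.bd_inner i') h5 with h7 | h7 | h7 | h7
        · have h8 := h.bd_inj h7
          rw [h8, zero_add] at h6
          exact absurd (h.sameV_trans hi h6) hv1
        · rw [h7] at h4
          have h8 : H.M.SameV x (H.M.bd (k + 1)) := by
            rw [h4]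
            exact h.sameV_trans (i03_a H) (h.sameV_symm (h.bd_mem _) h1)
          rcases i03_R H hs (h.sameV_trans hi h8) with h9 | h9 <;> omega
        · rw [h7] at h4
          rw [← h4] at i0
          exact absurd i0 hn1
        · have h8 : ¬ (i' ≤ 0 ∨ (k : ℤ) + 2 ≤ i') := fun h8 =>
            hole_vertex_R H hk h1 hF h8 h7 (h.sameV_refl _)
          have h9 : i' ≠ k + 1 := by
            rintro rfl
            exact ((h2 _).1 i1).2.2.2.2 h7
          rcases i03_R H hs (h.sameV_trans hi h6) with h10 | h10 <;> omega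
    first
      | (change σ.A ≤ i; omega)
      | (change i ≤ max (σ.B - k) 1; omega)
  | L k τ =>
    have key : i = 0 ∨ i = 1 := by
      obtain ⟨h1, F, -, hF, h2, h3⟩ := step_L H hs
      have hk := tri_pos τ
      have g0 : H.rem.M.bd 0 = H.M.inv (H.M.fc (H.M.bd 0)) := by
        rw [h3]; simp [lineL]
      have i0 := H.rem.ok.bd_inner 0
      rw [g0] at i0
      have hcase : ∀ y, H.M.Inner y → ¬ H.rem.M.Inner y → y = H.M.bd 0 ∨ y = H.M.fc (H.M.bd 0) ∨
          y = H.M.fc (H.M.fc (H.M.bd 0)) ∨ y ∈ F := by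
        intro y hy1 hy2
        by_contra hc
        push Not at hc
        exact hy2 ((h2 y).2 ⟨hy1, hc⟩)
      have hv0 : ¬ H.M.SameV (H.rem.M.bd i) (H.M.bd 0) := by
        intro h4
        rcases i03_L H hs h4 with h5 | h5 <;> omega
      rcases hout with h4 | ⟨i', h4, h5, h6⟩
      · rcases hcase x h4 hn1 with rfl | rfl | rfl | h7
        · exact absurd hi hv0
        · exact absurd i0 hn2
        · have h8 := h.sameV_trans hi (h.sameV_symm (h.bd_mem _) h1)
          rcases i03_L H hs h8 with h9 | h9 <;> omega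
        · by_contra hc
          rcases lt_or_ge i 0 with h8 | h8
          · have h9 : H.rem.M.bd i = H.M.bd (i - k) := by
              rw [h3]; unfold lineL; rw [if_pos h8]
            rw [h9] at hi
            exact hole_vertex_L H hk h1 hF (Or.inr (by omega)) h7 hi
          · have h9 : H.rem.M.bd i = H.M.bd i := by
              rw [h3]; unfold lineL; rw [if_neg (by omega), if_neg (by omega)]
            rw [h9] at hi
            exact hole_vertex_L H hk h1 hF (Or.inl (by omega)) h7 hi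
      · rcases hcase _ (h.bd_inner i') h5 with h7 | h7 | h7 | h7
        · have h8 := h.bd_inj h7
          rcases i03_L H hs (h.sameV_trans hi h6) with h9 | h9 <;> omega
        · rw [h7] at h4
          rw [← h4] at i0
          exact absurd i0 hn1
        · rw [h7] at h4
          rw [h4] at hi
          exact absurd (h.sameV_trans hi (i03_b H)) hv0
        · have h8 : ¬ (1 ≤ i' ∨ i' ≤ -(k : ℤ) - 1) := fun h8 =>
            hole_vertex_L H hk h1 hF h8 h7 (h.sameV_refl _)
          have h9 : i' ≠ 0 := by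
            rintro rfl
            exact (hole_disj h hk (Or.inr ⟨h1, hF⟩)).1 h7
          rcases i03_L H hs (h.sameV_trans hi h6) with h10 | h10 <;> omega
    first
      | (change min (σ.A + k) 0 ≤ i; omega)
      | (change i ≤ σ.B; omega)

end HPT

end Pool.Agent.Spd
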