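import Pool.Agent.Spd.I03
import Pool.Agent.Spd.Star

/-!
# SPD I04: one peeling: labels, right end, number of removed darts

Notation: `r = bd 0`, `a = fc r`, `b = fc a`, `G = H.rem`; the line of `G` is given by `step_N`, `step_R`, `step_L`.

* `label_post`: by the definition of `post` and of the line.  `N`: `G.bd j' = bd j'` (`j' < 0`), `G.bd 0 = inv b ~ bd 0`
  (`tgt`, `fc_tri`), `G.bd 1 = inv a ~ b` (third vertex), `G.bd j' = bd (j' - 1)` (`j' ≥ 2`).
  `R k`: `j' < 0`, `j' = 0` as before, `G.bd 1 = bd (k + 1) ~ b`, `G.bd j' = bd (j' + k)` (`j' ≥ 2`; then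
  `j' ≤ max (B - k) 1` gives `j' + k ≤ B`).  `L k`: `j' < 0`: `bd (j' - k)` (then `A' < 0`, so `A' = A + k`),
  `G.bd 0 = inv a ~ b`, `j' ≥ 1`: `bd j'`.
* `right_line`: same descriptions (`N`: `j = j' - 1`; `R k`: `j = j' + k`; `L k`: `j = j'`); use `B ≥ 1`.
* `root_removed`: `r` is not inner in `G` and `inv r` is not inner in `H`.
* `third_facts`: `fc_inner`, `step_*`, `tgt` for `b` with `fc b = r`.
* `removed_card`: every removed dart is in `{r, inv r} ∪ {a} ∪ F ∪ {inv (bd i) : 1 ≤ i ≤ k}` for `R k` (resp. `{b}` and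
  `-k ≤ i ≤ -1` for `L k`), only `{r, inv r}` for `N` (see `I03`; if `x = inv (bd i)` is removed and `bd i = a` then
  `i = 1`, as `a ~ bd 1`).  `F.card = 3 * faces` (`fill_card`), `faces + 1 = k + 2 verts` (`faces_eq`), so the
  number is at most `3 + k + 3 (k + 2 v - 1) = 2 (3 v + 2 k)`.
-/

namespace Pool.Agent.Spd

namespace HPT

private theorem i4_b (H : HPT) : H.M.Inner (H.M.fc (H.M.fc (H.M.bd 0))) :=
  H.ok.fc_inner _ (H.ok.fc_inner _ (H.ok.bd_inner 0))

private theorem i4_invb (H : HPT) :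
    H.M.SameV (H.M.inv (H.M.fc (H.M.fc (H.M.bd 0)))) (H.M.bd 0) := by
  have h := H.ok.tgt (i4_b H).1
  rwa [H.ok.fc_tri _ (H.ok.bd_inner 0)] at h

private theorem i4_inva (H : HPT) :
    H.M.SameV (H.M.inv (H.M.fc (H.M.bd 0))) (H.M.fc (H.M.fc (H.M.bd 0))) :=
  H.ok.tgt (H.ok.fc_inner _ (H.ok.bd_inner 0)).1

private theorem i4_line (H : HPT) {x : ℕ} {j : ℤ} (h : H.rem.M.bd j = H.M.inv x) :
    H.rem.M.Inner (H.M.inv x) := h ▸ H.rem.ok.bd_inner j

private theorem i4_line' (H : HPT) {i j : ℤ} (h : H.rem.M.bd j = H.M.inv (H.M.bd i)) : False :=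
  (Sub.inner (rem_sub H) (i4_line H h)).2 i rfl

private theorem i4_card {S : Set ℕ} {T : Finset ℕ} {n : ℕ} (h : S ⊆ (↑T : Set ℕ))
    (hc : T.card ≤ n) : S.Finite ∧ S.ncard ≤ n := by
  refine ⟨T.finite_toSet.subset h, ?_⟩
  calc S.ncard ≤ (↑T : Set ℕ).ncard := Set.ncard_le_ncard h T.finite_toSet
    _ = T.card := Set.ncard_coe_finset T
    _ ≤ n := hc

private theorem i4_fin (F : Finset ℕ) (p q r : ℕ) (k : ℕ) (f : ℕ → ℕ) :
    (insert p (insert q (insert r (F ∪ (Finset.range k).image f)))).card ≤ 3 + F.card + k := by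
  have h1 : (insert p (insert q (insert r (F ∪ (Finset.range k).image f)))).card ≤
      (insert q (insert r (F ∪ (Finset.range k).image f))).card + 1 := Finset.card_insert_le _ _
  have h2 : (insert q (insert r (F ∪ (Finset.range k).image f))).card ≤
      (insert r (F ∪ (Finset.range k).image f)).card + 1 := Finset.card_insert_le _ _
  have h3 : (insert r (F ∪ (Finset.range k).image f)).card ≤
      (F ∪ (Finset.range k).image f).card + 1 := Finset.card_insert_le _ _
  have h4 : (F ∪ (Finset.range k).image f).card ≤ F.card + ((Finset.range k).image f).card :=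
    Finset.card_union_le _ _
  have h5 : ((Finset.range k).image f).card ≤ k :=
    Finset.card_image_le.trans (Finset.card_range k).le
  omega

theorem label_post (H : HPT) (σ : LSt) (hA : σ.A ≤ 0) (hB : 1 ≤ σ.B) (b₂ : Bool) {j' : ℤ}
    (h1 : (σ.post b₂ H.step).A ≤ j') (h2 : j' ≤ (σ.post b₂ H.step).B) :
    (∃ j, σ.A ≤ j ∧ j ≤ σ.B ∧ H.M.SameV (H.rem.M.bd j') (H.M.bd j) ∧
      (σ.post b₂ H.step).lab j' = σ.lab j) ∨
    (H.M.SameV (H.rem.M.bd j') (H.M.fc (H.M.fc (H.M.bd 0))) ∧
      (σ.post b₂ H.step).lab j' = b₂) := by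
  rcases hs : H.step with _ | ⟨k, τ⟩ | ⟨k, τ⟩
  · obtain ⟨-, -, hl⟩ := step_N H hs
    rw [hs] at h1 h2
    have e1 : σ.A ≤ j' := h1
    have e2 : j' ≤ σ.B + 1 := h2
    have hlab : (σ.post b₂ Step.N).lab j' =
      if j' ≤ 0 then σ.lab j' else if j' = 1 then b₂ else σ.lab (j' - 1) := rfl
    have hline : H.rem.M.bd j' = if j' < 0 then H.M.bd j' else if j' = 0 then
      H.M.inv (H.M.fc (H.M.fc (H.M.bd 0))) else
        if j' = 1 then H.M.inv (H.M.fc (H.M.bd 0)) else H.M.bd (j' - 1) := congrFun hl j'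
    rw [hlab, hline]
    rcases lt_trichotomy j' 0 with h | h | h
    · left
      refine ⟨j', e1, by omega, ?_, ?_⟩
      · rw [if_pos h]
        exact H.ok.sameV_refl _
      · rw [if_pos h.le]
    · left
      refine ⟨0, by omega, by omega, ?_, ?_⟩
      · rw [if_neg (by omega), if_pos h]
        exact i4_invb H
      · rw [if_pos h.le, h]
    · by_cases h' : j' = 1
      · right
        refine ⟨?_, ?_⟩
        · rw [if_neg (by omega), if_neg (by omega), if_pos h']
          exact i4_inva H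
        · rw [if_neg (by omega), if_pos h']
      · left
        refine ⟨j' - 1, by omega, by omega, ?_, ?_⟩
        · rw [if_neg (by omega), if_neg (by omega), if_neg h']
          exact H.ok.sameV_refl _
        · rw [if_neg (by omega), if_neg h']
  · obtain ⟨hw, -, -, -, -, hl⟩ := step_R H hs
    rw [hs] at h1 h2
    have e1 : σ.A ≤ j' := h1
    have e2 : j' ≤ max (σ.B - k) 1 := h2
    have hk := tri_pos τ
    have hlab : (σ.post b₂ (Step.R k τ)).lab j' =
      if j' ≤ 0 then σ.lab j' else if j' = 1 then b₂ else σ.lab (j' + k) := rfl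
    have hline : H.rem.M.bd j' = if j' < 0 then H.M.bd j' else if j' = 0 then
      H.M.inv (H.M.fc (H.M.fc (H.M.bd 0))) else H.M.bd (j' + k) := congrFun hl j'
    rw [hlab, hline]
    rcases lt_trichotomy j' 0 with h | h | h
    · left
      refine ⟨j', e1, by omega, ?_, ?_⟩
      · rw [if_pos h]
        exact H.ok.sameV_refl _
      · rw [if_pos h.le]
    · left
      refine ⟨0, by omega, by omega, ?_, ?_⟩
      · rw [if_neg (by omega), if_pos h]
        exact i4_invb H
      · rw [if_pos h.le, h]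
    · by_cases h' : j' = 1
      · right
        refine ⟨?_, ?_⟩
        · rw [if_neg (by omega), if_neg (by omega), h', add_comm]
          exact hw
        · rw [if_neg (by omega), if_pos h']
      · left
        refine ⟨j' + k, by omega, by omega, ?_, ?_⟩
        · rw [if_neg (by omega), if_neg (by omega)]
          exact H.ok.sameV_refl _
        · rw [if_neg (by omega), if_neg h']
  · obtain ⟨-, -, -, -, -, hl⟩ := step_L H hs
    rw [hs] at h1 h2
    have e1 : min (σ.A + k) 0 ≤ j' := h1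
    have e2 : j' ≤ σ.B := h2
    have hk := tri_pos τ
    have hlab : (σ.post b₂ (Step.L k τ)).lab j' =
      if j' < 0 then σ.lab (j' - k) else if j' = 0 then b₂ else σ.lab j' := rfl
    have hline : H.rem.M.bd j' = if j' < 0 then H.M.bd (j' - k) else if j' = 0 then
      H.M.inv (H.M.fc (H.M.bd 0)) else H.M.bd j' := congrFun hl j'
    rw [hlab, hline]
    rcases lt_trichotomy j' 0 with h | h | h
    · left
      refine ⟨j' - k, by omega, by omega, ?_, ?_⟩
      · rw [if_pos h]
        exact H.ok.sameV_refl _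
      · rw [if_pos h]
    · right
      refine ⟨?_, ?_⟩
      · rw [if_neg (by omega), if_pos h]
        exact i4_inva H
      · rw [if_neg (by omega), if_pos h]
    · left
      refine ⟨j', by omega, e2, ?_, ?_⟩
      · rw [if_neg (by omega), if_neg (by omega)]
        exact H.ok.sameV_refl _
      · rw [if_neg (by omega), if_neg (by omega)]

theorem right_line (H : HPT) (σ : LSt) (hA : σ.A ≤ 0) (hB : 1 ≤ σ.B) (b₂ : Bool) {j' : ℤ}
    (h : (σ.post b₂ H.step).B ≤ j') : ∃ j, σ.B ≤ j ∧ H.rem.M.bd j' = H.M.bd j := by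
  rcases hs : H.step with _ | ⟨k, τ⟩ | ⟨k, τ⟩
  · obtain ⟨-, -, hl⟩ := step_N H hs
    rw [hs] at h
    have e2 : σ.B + 1 ≤ j' := h
    have hline : H.rem.M.bd j' = if j' < 0 then H.M.bd j' else if j' = 0 then
      H.M.inv (H.M.fc (H.M.fc (H.M.bd 0))) else
        if j' = 1 then H.M.inv (H.M.fc (H.M.bd 0)) else H.M.bd (j' - 1) := congrFun hl j'
    refine ⟨j' - 1, by omega, ?_⟩
    rw [hline, if_neg (by omega), if_neg (by omega), if_neg (by omega)]
  · obtain ⟨-, -, -, -, -, hl⟩ := step_R H hs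
    rw [hs] at h
    have e2 : max (σ.B - k) 1 ≤ j' := h
    have hline : H.rem.M.bd j' = if j' < 0 then H.M.bd j' else if j' = 0 then
      H.M.inv (H.M.fc (H.M.fc (H.M.bd 0))) else H.M.bd (j' + k) := congrFun hl j'
    refine ⟨j' + k, by omega, ?_⟩
    rw [hline, if_neg (by omega), if_neg (by omega)]
  · obtain ⟨-, -, -, -, -, hl⟩ := step_L H hs
    rw [hs] at h
    have e2 : σ.B ≤ j' := h
    have hline : H.rem.M.bd j' = if j' < 0 then H.M.bd (j' - k) else if j' = 0 then
      H.M.inv (H.M.fc (H.M.bd 0)) else H.M.bd j' := congrFun hl j'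
    refine ⟨j', e2, ?_⟩
    rw [hline, if_neg (by omega), if_neg (by omega)]

theorem root_removed (H : HPT) : H.M.bd 0 ∉ H.rem.M.D ∧ ¬ H.rem.M.Inner (H.M.bd 0) := by
  have h1 : ¬ H.rem.M.Inner (H.M.bd 0) := by
    intro hI
    rcases hs : H.step with _ | ⟨k, τ⟩ | ⟨k, τ⟩
    · obtain ⟨-, hd, -⟩ := step_N H hs
      exact ((hd _).1 hI).2.1 rfl
    · obtain ⟨-, F, -, -, hd, -⟩ := step_R H hs
      exact ((hd _).1 hI).2.1 rfl
    · obtain ⟨-, F, -, -, hd, -⟩ := step_L H hs
      exact ((hd _).1 hI).2.1 rfl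
  refine ⟨fun hD => ?_, h1⟩
  rcases (((rem_sub H).mem_iff _).1 hD).2 with h2 | h2
  · exact h1 h2
  · exact (Sub.inner (rem_sub H) h2).2 0 rfl

theorem third_facts (H : HPT) : H.M.Inner (H.M.fc (H.M.fc (H.M.bd 0))) ∧
    ¬ H.rem.M.Inner (H.M.fc (H.M.fc (H.M.bd 0))) ∧
    H.M.SameV (H.M.bd 0) (H.M.inv (H.M.fc (H.M.fc (H.M.bd 0)))) := by
  refine ⟨i4_b H, fun hI => ?_, ?_⟩
  · rcases hs : H.step with _ | ⟨k, τ⟩ | ⟨k, τ⟩
    · obtain ⟨-, hd, -⟩ := step_N H hs
      exact ((hd _).1 hI).2.2.2 rfl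
    · obtain ⟨-, F, -, -, hd, -⟩ := step_R H hs
      exact ((hd _).1 hI).2.2.2.1 rfl
    · obtain ⟨-, F, -, -, hd, -⟩ := step_L H hs
      exact ((hd _).1 hI).2.2.2.1 rfl
  · exact H.ok.sameV_symm (H.ok.inv_mem _ (i4_b H).1) (i4_invb H)

theorem removed_card (H : HPT) : {x | x ∈ H.M.D ∧ x ∉ H.rem.M.D}.Finite ∧
    Set.ncard {x | x ∈ H.M.D ∧ x ∉ H.rem.M.D} ≤ 2 * H.step.size := by
  classical
  have hmem : ∀ x, x ∈ H.M.D → x ∉ H.rem.M.D → ¬ H.rem.M.Inner x ∧ ¬ H.rem.M.Inner (H.M.inv x) := by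
    intro x hx hx'
    exact ⟨fun hI => hx' (((rem_sub H).mem_iff x).2 ⟨hx, Or.inl hI⟩),
      fun hI => hx' (((rem_sub H).mem_iff x).2 ⟨hx, Or.inr hI⟩)⟩
  rcases hs : H.step with _ | ⟨k, τ⟩ | ⟨k, τ⟩
  · obtain ⟨-, hd, hl⟩ := step_N H hs
    have l0 : H.rem.M.bd 0 = H.M.inv (H.M.fc (H.M.fc (H.M.bd 0))) := congrFun hl 0
    have l1 : H.rem.M.bd 1 = H.M.inv (H.M.fc (H.M.bd 0)) := congrFun hl 1
    refine i4_card (T := {H.M.bd 0, H.M.inv (H.M.bd 0)}) ?_ Finset.card_le_two
    rintro x ⟨hx, hx'⟩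
    obtain ⟨n1, n2⟩ := hmem x hx hx'
    rw [Finset.mem_coe, Finset.mem_insert, Finset.mem_singleton]
    rcases H.ok.inner_or_outer hx with hI | ⟨i, hi⟩
    · left
      by_contra hne
      refine n1 ((hd x).2 ⟨hI, hne, ?_, ?_⟩)
      · rintro rfl
        exact n2 (i4_line H l1)
      · rintro rfl
        exact n2 (i4_line H l0)
    · right
      have hx2 : H.M.inv x = H.M.bd i := by rw [hi, H.ok.inv_inv _ (H.ok.bd_mem i)]
      have hi0 : H.M.bd i = H.M.bd 0 := by
        by_contra hne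
        rw [hx2] at n2
        refine n2 ((hd _).2 ⟨H.ok.bd_inner i, hne, fun h => ?_, fun h => ?_⟩)
        · rw [← h] at l1
          exact i4_line' H l1
        · rw [← h] at l0
          exact i4_line' H l0
      rw [hi, hi0]
  · obtain ⟨hw, F, hf, hB, hd, hl⟩ := step_R H hs
    have hk := tri_pos τ
    have l0 : H.rem.M.bd 0 = H.M.inv (H.M.fc (H.M.fc (H.M.bd 0))) := congrFun hl 0
    have l1 : H.rem.M.bd 1 = H.M.bd (1 + k) := congrFun hl 1
    have hcard := fill_card H.ok hf
    have hfaces := faces_eq τ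
    refine i4_card (T := insert (H.M.bd 0) (insert (H.M.inv (H.M.bd 0)) (insert
      (H.M.fc (H.M.bd 0)) (F ∪ (Finset.range k).image
        fun i : ℕ => H.M.inv (H.M.bd (i + 1)))))) ?_ ?_
    · rintro x ⟨hx, hx'⟩
      obtain ⟨n1, n2⟩ := hmem x hx hx'
      rw [Finset.mem_coe, Finset.mem_insert, Finset.mem_insert, Finset.mem_insert, Finset.mem_union,
        Finset.mem_image]
      rcases H.ok.inner_or_outer hx with hI | ⟨i, hi⟩
      · by_contra hne
        push Not at hne
        refine n1 ((hd x).2 ⟨hI, hne.1, hne.2.2.1, ?_, hne.2.2.2.1⟩)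
        rintro rfl
        exact n2 (i4_line H l0)
      · have hx2 : H.M.inv x = H.M.bd i := by rw [hi, H.ok.inv_inv _ (H.ok.bd_mem i)]
        rw [hx2] at n2
        by_cases c0 : H.M.bd i = H.M.bd 0
        · right; left
          rw [hi, c0]
        have hi1 : 1 ≤ i ∧ i ≤ k := by
          by_cases c1 : H.M.bd i = H.M.fc (H.M.bd 0)
          · have s1 := H.ok.tgt (H.ok.bd_mem 0)
            rw [← c1] at s1
            have s2 : H.M.SameV (H.M.inv (H.M.bd 0)) (H.M.bd 1) := by
              have := H.ok.bd_next 0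
              rwa [zero_add] at this
            have s3 := H.ok.sameV_trans
              (H.ok.sameV_symm (H.ok.inv_mem _ (H.ok.bd_mem 0)) s2) s1
            have s4 := H.ok.simple _ _ s3
            omega
          · have c2 : H.M.bd i ∈ F := by
              by_contra hF
              refine n2 ((hd _).2 ⟨H.ok.bd_inner i, c0, c1, fun h => ?_, hF⟩)
              rw [← h] at l0
              exact i4_line' H l0
            have c3 : ¬ (i ≤ 0 ∨ (k : ℤ) + 2 ≤ i) := fun hc =>
              hole_vertex_R H hk hw hB hc c2 (H.ok.sameV_refl _)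
            have c4 : i ≠ 1 + k := by
              rintro rfl
              have c5 : H.rem.M.Inner (H.M.bd (1 + k)) := l1 ▸ H.rem.ok.bd_inner 1
              exact ((hd _).1 c5).2.2.2.2 c2
            omega
        right; right; right; right
        refine ⟨(i - 1).toNat, Finset.mem_range.2 (by omega), ?_⟩
        have e1 : (((i - 1).toNat : ℕ) : ℤ) + 1 = i := by omega
        rw [e1, hi]
    · refine (i4_fin _ _ _ _ _ _).trans ?_
      change 3 + F.card + k ≤ 2 * (3 * τ.verts + 2 * k)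
      omega
  · obtain ⟨hw, F, hf, hB, hd, hl⟩ := step_L H hs
    have hk := tri_pos τ
    have l0 : H.rem.M.bd 0 = H.M.inv (H.M.fc (H.M.bd 0)) := congrFun hl 0
    have hcard := fill_card H.ok hf
    have hfaces := faces_eq τ
    refine i4_card (T := insert (H.M.bd 0) (insert (H.M.inv (H.M.bd 0)) (insert
      (H.M.fc (H.M.fc (H.M.bd 0))) (F ∪ (Finset.range k).image
        fun i : ℕ => H.M.inv (H.M.bd (-(i : ℤ) - 1)))))) ?_ ?_
    · rintro x ⟨hx, hx'⟩
      obtain ⟨n1, n2⟩ := hmem x hx hx'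
      rw [Finset.mem_coe, Finset.mem_insert, Finset.mem_insert, Finset.mem_insert, Finset.mem_union,
        Finset.mem_image]
      rcases H.ok.inner_or_outer hx with hI | ⟨i, hi⟩
      · by_contra hne
        push Not at hne
        refine n1 ((hd x).2 ⟨hI, hne.1, ?_, hne.2.2.1, hne.2.2.2.1⟩)
        rintro rfl
        exact n2 (i4_line H l0)
      · have hx2 : H.M.inv x = H.M.bd i := by rw [hi, H.ok.inv_inv _ (H.ok.bd_mem i)]
        rw [hx2] at n2
        by_cases c0 : H.M.bd i = H.M.bd 0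
        · right; left
          rw [hi, c0]
        have hi1 : -(k : ℤ) ≤ i ∧ i ≤ -1 := by
          by_cases c1 : H.M.bd i = H.M.fc (H.M.fc (H.M.bd 0))
          · rw [← c1] at hw
            have s4 := H.ok.simple _ _ hw
            omega
          · have c2 : H.M.bd i ∈ F := by
              by_contra hF
              refine n2 ((hd _).2 ⟨H.ok.bd_inner i, c0, fun h => ?_, c1, hF⟩)
              rw [← h] at l0
              exact i4_line' H l0
            have c3 : ¬ (1 ≤ i ∨ i ≤ -(k : ℤ) - 1) := fun hc =>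
              hole_vertex_L H hk hw hB hc c2 (H.ok.sameV_refl _)
            have c4 : i ≠ 0 := by
              rintro rfl
              exact c0 rfl
            omega
        right; right; right; right
        refine ⟨(-i - 1).toNat, Finset.mem_range.2 (by omega), ?_⟩
        have e1 : -(((-i - 1).toNat : ℕ) : ℤ) - 1 = i := by omega
        rw [e1, hi]
    · refine (i4_fin _ _ _ _ _ _).trans ?_
      change 3 + F.card + k ≤ 2 * (3 * τ.verts + 2 * k)
      omega

end HPT

end Pool.Agent.Spd
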