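import Pool.Agent.Spd.I02
import Pool.Agent.Spd.I04

/-!
# SPD I05: the exploration of `K` and the label machine: one step

`K` is admissible in `H` (`Adm H L K`), `G` a sub-map of `H` (the unexplored region), `σ` the
state of
the label machine.  Invariant `Inv H L K G σ`:
* `lab`: the labels on `[A, B]` say whether the vertex is in `K`;
* `J`: every removed dart, and every `bd i` with `0 ≤ i ≤ L`, whose vertex meets `G`, is at a
  position of the line of
  `G` in `[A, B]`;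
* `J3`: from `B` on the line of `G` consists of boundary darts of `H`.

`inv_init`: clear (`J`: `x = bd i`, take `j = i`).

`inv_step`: let `k = σ.pos` (`LSt.pos_mem`: `A ≤ k ≤ B`, `lab k = true`), `G₁ = G.shift k`, `s =
G₁.step`, `G' = G₁.rem`.
Bits: `b₁ = (G.bd (B + 1) ∈ K)` if `B = k` and `b₁ = true` otherwise; `b₂ = (third vertex of G₁ ∈
K)`, i.e. the dart
`z = G₁.fc (G₁.fc (G₁.bd 0))` is in `K`.
(1) The invariant holds for `G₁` and `σ₁ = σ.pre b₁` (renumbering; new position `1` in the case `B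
= k`), with
`A₁ ≤ 0`, `1 ≤ B₁` (`LSt.pre_facts`).
(2) It holds for `G'` and `σ₁.post b₂ s`: `sub`: `rem_sub`, `Sub.trans`, `Sub.shift`; `lab`:
`label_post` and `K` saturated (`Adm.sat`, in both
directions; relations `SameV` in `G` and `H` agree on darts of `G`: `Sub.sameV`);
`J`: if `x ∉ G.D` or `x = bd i`: its vertex meets `G` too, so it is at a position `j ∈ [A₁, B₁]`
of `G₁`; apply `line_pos` to `G₁`.
If `x ∈ G.D`, `x ∉ G'.D`: `removed_pos`.  (The dart `e ∈ G'.D` is in `G.D`; `Sub.sameV` transfers.)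
`J3`: `right_line`.
(3) Counting (`avail`): `avail` does not increase, as inner darts of `G'` are inner in `G`.
If `b₂ = false`: `d = inv z` (computed in `H`; `inv_eq`) is in `K` (`third_facts`: `SameV (G₁.bd
0) d`, `G₁.bd 0 ∈ K` since the
label of `k` is `true`), `inv d = z ∉ K`, `z` is inner in `G` but not in `G'`, and inner in `H`:
so `d` is counted
for `G` and not for `G'`.  If `b₁ = false`: then `B = k`, `d = G.bd k ∈ K`; `inv d ~ G.bd (k + 1)`
(`bd_next`) is not in `K`;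
`inv d` is outer in `H` by `J3` (with `j = B`) and `d` is inner in `G`, not in `G'`
(`root_removed`), and `inv d` is not inner in `G`.  The two darts are
different (one reversal is inner in `H`, the other is not).
(4) The number of darts of `K` in `G.D` decreases: `G.bd k ∈ K` and `root_removed`.
-/

namespace Pool.Agent.Spd

open Classical in
/-- Darts of `K` that can still be charged for a bit `false`. -/
noncomputable def avail (H G : HPT) (K : Finset ℕ) : ℕ :=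
  (K.filter fun d => H.M.inv d ∉ K ∧
    (G.M.Inner (H.M.inv d) ∨ (G.M.Inner d ∧ ¬ H.M.Inner (H.M.inv d)))).card

/-- Invariant of the exploration of `K`. -/
structure Inv (H : HPT) (L : ℕ) (K : Finset ℕ) (G : HPT) (σ : LSt) : Prop where
  sub : HPT.Sub G H
  lab : ∀ j, σ.A ≤ j → j ≤ σ.B → (σ.lab j = true ↔ G.M.bd j ∈ K)
  J : ∀ x ∈ H.M.D, (x ∉ G.M.D ∨ ∃ i : ℤ, 0 ≤ i ∧ i ≤ L ∧ x = H.M.bd i) →
    ∀ e ∈ G.M.D, H.M.SameV x e → ∃ j, σ.A ≤ j ∧ j ≤ σ.B ∧ H.M.SameV (G.M.bd j) x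
  J3 : ∀ j, σ.B ≤ j → ∃ i, G.M.bd j = H.M.bd i

private theorem sat_iff {H : HPT} {L : ℕ} {K : Finset ℕ} (hK : Adm H L K) {d e : ℕ}
    (hd : d ∈ H.M.D) (h : H.M.SameV d e) : d ∈ K ↔ e ∈ K :=
  ⟨fun h1 => hK.sat d h1 e h, fun h1 => hK.sat e h1 d (H.ok.sameV_symm hd h)⟩

theorem inv_init {H : HPT} {L : ℕ} {K : Finset ℕ} (hK : Adm H L K) :
    Inv H L K H ⟨0, L, fun _ => true⟩ := by
  refine ⟨HPT.Sub.refl H, fun j h1 h2 => ⟨fun _ => hK.line j h1 h2, fun _ => rfl⟩, ?_,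
    fun j _ => ⟨j, rfl⟩⟩
  rintro x hx (h1 | ⟨i, h1, h2, h3⟩) e he hxe
  · exact absurd hx h1
  · exact ⟨i, h1, h2, by rw [h3]; exact H.ok.sameV_refl _⟩

private theorem inv_pre {H : HPT} {L : ℕ} {K : Finset ℕ} {G : HPT} {σ : LSt}
    (I : Inv H L K G σ) (b₁ : Bool)
    (hb : σ.B = σ.pos → (b₁ = true ↔ G.M.bd (σ.B + 1) ∈ K)) :
    Inv H L K (G.shift σ.pos) (σ.pre b₁) := by
  have eA : (σ.pre b₁).A = σ.A - σ.pos := rfl
  have eB : (σ.pre b₁).B = (if σ.B = σ.pos then σ.B + 1 else σ.B) - σ.pos := rfl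
  have eL : ∀ j, (σ.pre b₁).lab j = if σ.B = σ.pos ∧ j = 1 then b₁ else σ.lab (j + σ.pos) :=
    fun j => rfl
  have hbd : ∀ j, (G.shift σ.pos).M.bd j = G.M.bd (j + σ.pos) := fun j => rfl
  have hge : σ.B - σ.pos ≤ (σ.pre b₁).B := by
    rw [eB]
    split_ifs <;> omega
  refine ⟨I.sub.shift σ.pos, fun j h1 h2 => ?_, fun x hx hx' e he hxe => ?_, fun j hj => ?_⟩
  · rw [eL, hbd]
    rw [eA] at h1
    rw [eB] at h2
    by_cases hc : σ.B = σ.pos ∧ j = 1
    · rw [if_pos hc, hb hc.1, hc.2, add_comm, ← hc.1]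
    · rw [if_neg hc]
      refine I.lab _ (by omega) ?_
      by_cases h3 : σ.B = σ.pos
      · rw [if_pos h3] at h2
        have h4 : j ≠ 1 := fun h5 => hc ⟨h3, h5⟩
        omega
      · rw [if_neg h3] at h2
        omega
  · obtain ⟨j, h1, h2, h3⟩ := I.J x hx hx' e he hxe
    refine ⟨j - σ.pos, by rw [eA]; omega, by omega, ?_⟩
    rw [hbd, sub_add_cancel]
    exact h3
  · obtain ⟨i, hi⟩ := I.J3 (j + σ.pos) (by omega)
    exact ⟨i, by rw [hbd, hi]⟩

private theorem inv_post {H : HPT} {L : ℕ} {K : Finset ℕ} (hK : Adm H L K) {G : HPT} {σ : LSt}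
    (I : Inv H L K G σ) (hA : σ.A ≤ 0) (hB : 1 ≤ σ.B) (b₂ : Bool)
    (hb : b₂ = true ↔ G.M.fc (G.M.fc (G.M.bd 0)) ∈ K) :
    Inv H L K G.rem (σ.post b₂ G.step) := by
  have S : HPT.Sub G.rem G := G.rem_sub
  have T : HPT.Sub G.rem H := S.trans I.sub
  have hbdG : ∀ j, G.rem.M.bd j ∈ G.M.D := fun j => S.memD (G.rem.ok.bd_mem j)
  have hbdH : ∀ j, G.rem.M.bd j ∈ H.M.D := fun j => T.memD (G.rem.ok.bd_mem j)
  refine ⟨T, fun j h1 h2 => ?_, fun x hx hx' e he hxe => ?_, fun j hj => ?_⟩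
  · rcases G.label_post σ hA hB b₂ h1 h2 with ⟨i, h3, h4, h5, h6⟩ | ⟨h5, h6⟩
    · rw [h6, I.lab i h3 h4]
      exact (sat_iff hK (hbdH j) ((I.sub.sameV (hbdG j) _).1 h5).1).symm
    · rw [h6, hb]
      exact (sat_iff hK (hbdH j) ((I.sub.sameV (hbdG j) _).1 h5).1).symm
  · have heG : e ∈ G.M.D := S.memD he
    by_cases hc : x ∉ G.M.D ∨ ∃ i : ℤ, 0 ≤ i ∧ i ≤ L ∧ x = H.M.bd i
    · obtain ⟨j, h1, h2, h3⟩ := I.J x hx hc e heG hxe
      have h4 : G.M.SameV (G.M.bd j) e :=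
        (I.sub.sameV (G.ok.bd_mem j) e).2 ⟨H.ok.sameV_trans h3 hxe, heG⟩
      obtain ⟨j', h5, h6, h7⟩ := G.line_pos σ hA hB b₂ h1 h2 he h4
      exact ⟨j', h5, h6, H.ok.sameV_trans ((I.sub.sameV (hbdG j') _).1 h7).1 h3⟩
    · rw [not_or, not_not] at hc
      have h1 : x ∉ G.rem.M.D := hx'.resolve_right hc.2
      have h4 : G.M.SameV x e := (I.sub.sameV hc.1 e).2 ⟨hxe, heG⟩
      obtain ⟨j', h5, h6, h7⟩ := G.removed_pos σ hA hB b₂ hc.1 h1 he h4
      exact ⟨j', h5, h6, ((I.sub.sameV (hbdG j') _).1 h7).1⟩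
  · obtain ⟨i, h1, h2⟩ := G.right_line σ hA hB b₂ hj
    rw [h2]
    exact I.J3 i h1

private theorem card_aux {S S' : Finset ℕ} (h : S' ⊆ S) {b₁ b₂ : Bool} (d₁ d₂ : ℕ)
    (h1 : b₁ = false → d₁ ∈ S ∧ d₁ ∉ S') (h2 : b₂ = false → d₂ ∈ S ∧ d₂ ∉ S')
    (h12 : b₁ = false → b₂ = false → d₁ ≠ d₂) :
    (if b₁ then 0 else 1) + (if b₂ then 0 else 1) + S'.card ≤ S.card := by
  cases b₁ with
  | true =>
    cases b₂ with
    | true => simpa using Finset.card_le_card h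
    | false =>
      have h3 : insert d₂ S' ⊆ S := Finset.insert_subset (h2 rfl).1 h
      have h4 := Finset.card_le_card h3
      rw [Finset.card_insert_of_notMem (h2 rfl).2] at h4
      simp only [if_true, Bool.false_eq_true, if_false]
      omega
  | false =>
    cases b₂ with
    | true =>
      have h3 : insert d₁ S' ⊆ S := Finset.insert_subset (h1 rfl).1 h
      have h4 := Finset.card_le_card h3
      rw [Finset.card_insert_of_notMem (h1 rfl).2] at h4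
      simp only [if_true, Bool.false_eq_true, if_false]
      omega
    | false =>
      have h3 : insert d₁ (insert d₂ S') ⊆ S :=
        Finset.insert_subset (h1 rfl).1 (Finset.insert_subset (h2 rfl).1 h)
      have h4 := Finset.card_le_card h3
      have h5 : d₁ ∉ insert d₂ S' := by
        rw [Finset.mem_insert, not_or]
        exact ⟨h12 rfl rfl, (h1 rfl).2⟩
      rw [Finset.card_insert_of_notMem h5, Finset.card_insert_of_notMem (h2 rfl).2] at h4
      simp only [Bool.false_eq_true, if_false]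
      omega

open Classical in
theorem inv_step {H : HPT} {L : ℕ} {K : Finset ℕ} (hK : Adm H L K) {G : HPT} {σ : LSt}
    (I : Inv H L K G σ) (ha : σ.Alive) : ∃ b : Bool × Bool,
      Inv H L K (G.shift σ.pos).rem (σ.nxt (b, (G.shift σ.pos).step)) ∧
      inF (b, (G.shift σ.pos).step) + avail H (G.shift σ.pos).rem K ≤ avail H G K ∧
      (K.filter fun d => d ∈ (G.shift σ.pos).rem.M.D).card < (K.filter fun d => d ∈ G.M.D).card := by
  obtain ⟨hk1, hk2, hk3, -⟩ := LSt.pos_mem ha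
  have hbd0 : (G.shift σ.pos).M.bd 0 = G.M.bd σ.pos := by
    rw [HPT.shift_bd, zero_add]
  have hkK : G.M.bd σ.pos ∈ K := (I.lab _ hk1 hk2).1 hk3
  obtain ⟨b₁, hb₁, hb₁'⟩ : ∃ b₁ : Bool, (σ.B = σ.pos → (b₁ = true ↔ G.M.bd (σ.B + 1) ∈ K)) ∧
      (b₁ = false → σ.B = σ.pos ∧ G.M.bd (σ.B + 1) ∉ K) := by
    by_cases h : σ.B = σ.pos ∧ G.M.bd (σ.B + 1) ∉ K
    · exact ⟨false, fun _ => ⟨fun h1 => absurd h1 (by simp), fun h1 => absurd h1 h.2⟩, fun _ => h⟩
    · refine ⟨true, fun h1 => ⟨fun _ => ?_, fun _ => rfl⟩, fun h1 => absurd h1 (by simp)⟩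
      by_contra h2
      exact h ⟨h1, h2⟩
  obtain ⟨b₂, hb₂⟩ : ∃ b₂ : Bool, (b₂ = true ↔
      (G.shift σ.pos).M.fc ((G.shift σ.pos).M.fc ((G.shift σ.pos).M.bd 0)) ∈ K) :=
    ⟨decide ((G.shift σ.pos).M.fc ((G.shift σ.pos).M.fc ((G.shift σ.pos).M.bd 0)) ∈ K),
      decide_eq_true_iff⟩
  obtain ⟨hA, hB, -, -, -⟩ := LSt.pre_facts ha b₁
  have I₁ := inv_pre I b₁ hb₁
  have I₂ := inv_post hK I₁ hA hB b₂ hb₂
  have S : HPT.Sub (G.shift σ.pos).rem (G.shift σ.pos) := (G.shift σ.pos).rem_sub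
  have hin : ∀ d, (G.shift σ.pos).rem.M.Inner d → G.M.Inner d := fun d hd =>
    (G.shift_inner σ.pos d).1 (S.inner hd)
  obtain ⟨hr1, hr2⟩ := (G.shift σ.pos).root_removed
  rw [hbd0] at hr1 hr2
  refine ⟨(b₁, b₂), I₂, ?_, ?_⟩
  · change (if b₁ then 0 else 1) + (if b₂ then 0 else 1) + avail H (G.shift σ.pos).rem K ≤
      avail H G K
    unfold avail
    obtain ⟨hz1, hz2, hz3⟩ := (G.shift σ.pos).third_facts
    generalize (G.shift σ.pos).M.fc ((G.shift σ.pos).M.fc ((G.shift σ.pos).M.bd 0)) = z at *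
    have hzG : G.M.Inner z := (G.shift_inner σ.pos z).1 hz1
    have hzH : H.M.Inner z := I.sub.inner hzG
    have hzz : H.M.inv (H.M.inv z) = z := H.ok.inv_inv z hzH.1
    have hzK : H.M.inv z ∈ K := by
      rw [hbd0] at hz3
      have h1 : G.M.SameV (G.M.bd σ.pos) (G.M.inv z) := hz3
      rw [I.sub.sameV (G.ok.bd_mem _), I.sub.inv_eq] at h1
      exact hK.sat _ hkK _ h1.1
    have hout : b₁ = false → ¬ H.M.Inner (H.M.inv (G.M.bd σ.pos)) := fun h1 h2 => by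
      obtain ⟨i, hi⟩ := I.J3 σ.B le_rfl
      rw [← (hb₁' h1).1, hi] at h2
      exact h2.2 i rfl
    refine card_aux ?_ (G.M.bd σ.pos) (H.M.inv z) (fun h1 => ?_) (fun h1 => ?_) (fun h1 _ h3 => ?_)
    · intro d hd
      rw [Finset.mem_filter] at hd ⊢
      obtain ⟨h1, h2, h3⟩ := hd
      refine ⟨h1, h2, ?_⟩
      rcases h3 with h3 | ⟨h3, h4⟩
      · exact Or.inl (hin _ h3)
      · exact Or.inr ⟨hin _ h3, h4⟩
    · rw [Finset.mem_filter, Finset.mem_filter]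
      refine ⟨⟨hkK, fun h2 => ?_, Or.inr ⟨G.ok.bd_inner _, hout h1⟩⟩, ?_⟩
      · have h3 := G.ok.bd_next σ.pos
        have h4 : G.M.inv (G.M.bd σ.pos) ∈ G.M.D := G.ok.inv_mem _ (G.ok.bd_mem _)
        rw [I.sub.sameV h4, I.sub.inv_eq] at h3
        have h5 := hK.sat _ h2 _ h3.1
        rw [← (hb₁' h1).1] at h5
        exact (hb₁' h1).2 h5
      · rintro ⟨-, -, h3 | ⟨h3, -⟩⟩
        · exact hout h1 (I.sub.inner (hin _ h3))
        · exact hr2 h3
    · rw [Finset.mem_filter, Finset.mem_filter, hzz]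
      refine ⟨⟨hzK, fun h2 => ?_, Or.inl hzG⟩, ?_⟩
      · rw [← hb₂, h1] at h2
        exact absurd h2 (by simp)
      · rintro ⟨-, -, h3 | ⟨-, h3⟩⟩
        · exact hz2 h3
        · exact h3 hzH
    · apply hout h1
      rw [h3, hzz]
      exact hzH
  · refine Finset.card_lt_card ⟨fun d hd => ?_, fun h1 => ?_⟩
    · rw [Finset.mem_filter] at hd ⊢
      exact ⟨hd.1, S.memD hd.2⟩
    · have h2 := h1 (Finset.mem_filter.2 ⟨hkK, G.ok.bd_mem _⟩)
      exact hr1 (Finset.mem_filter.1 h2).2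

end Pool.Agent.Spd
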