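import Pool.Agent.Spd.I05

/-!
# SPD I06: the complete exploration of `K`

* `run_exists`: induction on the number of darts of `K` in `G.D`.  If `σ` is not alive: `w = []`.  Otherwise
  `inv_step` gives the bits `b`, put `i = (b, (G.shift σ.pos).step)`; the induction hypothesis for
  `(G.shift σ.pos).rem`, `σ.nxt i` gives `w`; take `i :: w`: `outs_cons`, `exec_cons`; removed darts:
  `{x ∈ G.D, x ∉ End.D} = {x ∈ G.D, x ∉ G'.D} ∪ {x ∈ G'.D, x ∉ End.D}` with `removed_card` (for `G.shift σ.pos`,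
  which has the same darts).
* `adm_run`: start with `inv_init`.  `Runs`, `outs`: from `run_exists`.  `L + 1 + listDl w ≤ listF w`: `LSt.end_bound`.
  `listF w ≤ avail H H K ≤ bdry H K`.  At the end (`G` = final region, not alive, so all labels in `[A, B]` are `false`):
  let `Z` be the set of the `d ∈ K` whose vertex does not meet `G` (`Blw H G d`).  `Z` is saturated
  (`blw_sameV`), contains `bd i` for `0 ≤ i ≤ L`: otherwise its vertex meets `G`, so by `J` it is at a position `j ∈ [A, B]`,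
  `G.bd j ∈ K` by saturation, so the label is `true`: contradiction.  If `d ∈ Z` and `inv d ∈ K` then `inv d ∈ Z`: `d ∉ G.D`, so
  `inv d ∉ G.D` (`G.D` is closed under `inv`), `inv d` is a removed dart; if its vertex meets `G`, `J` gives again a position `j ∈ [A, B]`
  with `G.bd j ∈ K`.  So `Z = K` (`Adm.conn`), all darts of `K` are removed, and `K.card ≤ 2 listSz w`.
-/

namespace Pool.Agent.Spd

open Classical in
theorem run_exists {H : HPT} {L : ℕ} {K : Finset ℕ} (hK : Adm H L K) (n : ℕ) :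
    ∀ (G : HPT) (σ : LSt), Inv H L K G σ → (K.filter fun d => d ∈ G.M.D).card ≤ n →
      ∃ w : List LSt.In, σ.Runs w ∧ ¬ (σ.run w).Alive ∧ G.outs (σ.cmds w) = w.map Prod.snd ∧
        listF w + avail H (G.exec (σ.cmds w)) K ≤ avail H G K ∧
        Inv H L K (G.exec (σ.cmds w)) (σ.run w) ∧
        {x | x ∈ G.M.D ∧ x ∉ (G.exec (σ.cmds w)).M.D}.Finite ∧
        Set.ncard {x | x ∈ G.M.D ∧ x ∉ (G.exec (σ.cmds w)).M.D} ≤ 2 * listSz w := by
  have hstop : ∀ (G : HPT) (σ : LSt), Inv H L K G σ → ¬ σ.Alive →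
      ∃ w : List LSt.In, σ.Runs w ∧ ¬ (σ.run w).Alive ∧ G.outs (σ.cmds w) = w.map Prod.snd ∧
        listF w + avail H (G.exec (σ.cmds w)) K ≤ avail H G K ∧
        Inv H L K (G.exec (σ.cmds w)) (σ.run w) ∧
        {x | x ∈ G.M.D ∧ x ∉ (G.exec (σ.cmds w)).M.D}.Finite ∧
        Set.ncard {x | x ∈ G.M.D ∧ x ∉ (G.exec (σ.cmds w)).M.D} ≤ 2 * listSz w := by
    intro G σ I ha
    have h1 : {x | x ∈ G.M.D ∧ x ∉ (G.exec (σ.cmds [])).M.D} = ∅ := by
      ext x
      constructor
      · rintro ⟨h2, h3⟩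
        exact absurd h2 h3
      · intro h2
        exact absurd h2 (Set.notMem_empty x)
    refine ⟨[], trivial, ha, rfl, ?_, I, ?_, ?_⟩
    · have h2 : listF [] = 0 := rfl
      rw [h2, zero_add]
      exact le_rfl
    · rw [h1]
      exact Set.finite_empty
    · rw [h1, Set.ncard_empty]
      exact Nat.zero_le _
  induction n with
  | zero =>
    intro G σ I hn
    by_cases ha : σ.Alive
    · obtain ⟨b, -, -, h3⟩ := inv_step hK I ha
      omega
    · exact hstop G σ I ha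
  | succ n ih =>
    intro G σ I hn
    by_cases ha : σ.Alive
    · obtain ⟨b, h1, h2, h3⟩ := inv_step hK I ha
      obtain ⟨w, e1, e2, e3, e4, e5, e6, e7⟩ := ih _ _ h1 (by omega)
      have hx : σ.cmds ((b, (G.shift σ.pos).step) :: w) =
          σ.pos :: (σ.nxt (b, (G.shift σ.pos).step)).cmds w := rfl
      have hy : G.exec (σ.cmds ((b, (G.shift σ.pos).step) :: w)) =
          (G.shift σ.pos).rem.exec ((σ.nxt (b, (G.shift σ.pos).step)).cmds w) := rfl
      have hsz : listSz ((b, (G.shift σ.pos).step) :: w) =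
          (G.shift σ.pos).step.size + listSz w := by
        simp [listSz]
      have hF : listF ((b, (G.shift σ.pos).step) :: w) =
          inF (b, (G.shift σ.pos).step) + listF w := by
        simp [listF]
      obtain ⟨r1, r2⟩ := HPT.removed_card (G.shift σ.pos)
      have hsub : {x | x ∈ G.M.D ∧ x ∉ (G.exec
          (σ.cmds ((b, (G.shift σ.pos).step) :: w))).M.D} ⊆
          {x | x ∈ (G.shift σ.pos).M.D ∧ x ∉ (G.shift σ.pos).rem.M.D} ∪
          {x | x ∈ (G.shift σ.pos).rem.M.D ∧ x ∉ ((G.shift σ.pos).rem.exec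
            ((σ.nxt (b, (G.shift σ.pos).step)).cmds w)).M.D} := by
        rintro x ⟨h4, h5⟩
        rw [hy] at h5
        by_cases h6 : x ∈ (G.shift σ.pos).rem.M.D
        · exact Or.inr ⟨h6, h5⟩
        · exact Or.inl ⟨h4, h6⟩
      refine ⟨(b, (G.shift σ.pos).step) :: w, ⟨ha, e1⟩, e2, ?_, ?_, e5, ?_, ?_⟩
      · rw [hx]
        change (G.shift σ.pos).step :: (G.shift σ.pos).rem.outs _ = _
        rw [e3]
        rfl
      · rw [hy, hF]
        omega
      · exact (r1.union e6).subset hsub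
      · rw [hsz]
        refine (Set.ncard_le_ncard hsub (r1.union e6)).trans ((Set.ncard_union_le _ _).trans ?_)
        omega
    · exact hstop G σ I ha

theorem adm_run {H : HPT} {L : ℕ} {K : Finset ℕ} (hK : Adm H L K) : ∃ w : List LSt.In,
    (⟨0, L, fun _ => true⟩ : LSt).Runs w ∧
    H.outs ((⟨0, L, fun _ => true⟩ : LSt).cmds w) = w.map Prod.snd ∧
    (L : ℤ) + 1 + listDl w ≤ listF w ∧ listF w ≤ bdry H K ∧ K.card ≤ 2 * listSz w := by
  classical
  obtain ⟨w, e1, e2, e3, e4, e5, e6, e7⟩ := run_exists hK _ H ⟨0, L, fun _ => true⟩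
    (inv_init hK) le_rfl
  refine ⟨w, e1, e3, LSt.end_bound L e1 e2, ?_, ?_⟩
  · have h1 : avail H H K ≤ bdry H K := by
      unfold avail bdry
      refine Finset.card_le_card ?_
      intro d hd
      rw [Finset.mem_filter] at hd ⊢
      exact ⟨hd.1, hd.2.1⟩
    omega
  · obtain ⟨G, hG⟩ : ∃ G : HPT, G = H.exec ((⟨0, L, fun _ => true⟩ : LSt).cmds w) := ⟨_, rfl⟩
    obtain ⟨σ, hσ⟩ : ∃ σ : LSt, σ = (⟨0, L, fun _ => true⟩ : LSt).run w := ⟨_, rfl⟩
    rw [← hG, ← hσ] at e5
    rw [← hG] at e6 e7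
    rw [← hσ] at e2
    have hkey : ∀ x ∈ K, (x ∉ G.M.D ∨ ∃ i : ℤ, 0 ≤ i ∧ i ≤ L ∧ x = H.M.bd i) →
        HPT.Blw H G x := by
      intro x hx hx' e he heG
      obtain ⟨j, h1, h2, h3⟩ := e5.J x (hK.sub x hx) hx' e heG he
      have h4 : G.M.bd j ∈ K := hK.sat x hx _
        (H.ok.sameV_symm (e5.sub.memD (G.ok.bd_mem j)) h3)
      exact e2 ⟨j, h1, h2, (e5.lab j h1 h2).2 h4⟩
    have hout : ∀ x, HPT.Blw H G x → x ∉ G.M.D := fun x hx => hx x (H.ok.sameV_refl x)
    have hZ := hK.conn (K.filter fun d => HPT.Blw H G d) (Finset.filter_subset _ _) (by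
      intro d hd e hde
      rw [Finset.mem_filter] at hd ⊢
      exact ⟨hK.sat d hd.1 e hde, HPT.blw_sameV e5.sub (hK.sub d hd.1) hde hd.2⟩) (by
      intro i h0 hL
      rw [Finset.mem_filter]
      exact ⟨hK.line i h0 hL, hkey _ (hK.line i h0 hL) (Or.inr ⟨i, h0, hL, rfl⟩)⟩) (by
      intro d hd hdK
      rw [Finset.mem_filter] at hd ⊢
      refine ⟨hdK, hkey _ hdK (Or.inl fun h1 => ?_)⟩
      have h2 := G.ok.inv_mem _ h1
      rw [e5.sub.inv_eq, H.ok.inv_inv d (hK.sub d hd.1)] at h2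
      exact hout d hd.2 h2)
    have hsub : (K : Set ℕ) ⊆ {x | x ∈ H.M.D ∧ x ∉ G.M.D} := by
      intro x hx
      have hxK : x ∈ K := Finset.mem_coe.1 hx
      rw [← hZ, Finset.mem_filter] at hxK
      exact ⟨hK.sub x hxK.1, hout x hxK.2⟩
    have h1 := Set.ncard_le_ncard hsub e6
    rw [Set.ncard_coe_finset] at h1
    omega

end Pool.Agent.Spd
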