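import Pool.Agent.Spd.Peel

/-!
(Part `Loc1`: `trich`, `not_on_of_blw`, `not_on_of_abv`, `not_blw_of_abv`, `not_abv_of_not_inner`, `blw_sameV`, `abv_sameV`, `on_sameV`, `on_unique`, `boundary_not_abv`.  The text below is the common header of the parts.)

# SPD A17: position of a vertex with respect to the line of a sub-map

* `trich`: assume that some `e' ~ e` is in `G.D` and that `e` is not on the line.  The darts `f ~ e`
  in `G.D` are inner in `G` (an outer dart `inv (G.bd i)` has the origin of `G.bd (i+1)`,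
  `bd_next` for `G`, so `e` would be on the line), and `inv f` is inner too (otherwise `f` is a line
  dart `G.bd i` by `Sub.line_of`, whose origin is on the line).  Then `rot f = fc (inv f)` is inner
  in `G`, hence in `G.D`: by iteration the whole class is in `G.D`, so `Abv`.
* exclusiveness: `On` and `Blw`: `G.bd i ∈ G.D`.  `On` and `Abv`: `G.bd i` has an inverse which is
  not inner in `G` (`line_out`).
* `abv_rot`: above the line, `G` and `H` have the same rotation.
* `adj_not_cross`: if `e` is strictly below and `x ~ e` then `inv x` is not strictly above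
  (`inv x ∈ G.D` would give `x ∈ G.D`, since `inv x` and `inv (inv x) = x` are inner in `G`).
* `boundary_not_abv`: a boundary vertex of `H` is never strictly above: the outer dart
  `inv (H.bd (i-1))` is at `v_i` and it is not inner.
-/

set_option linter.unusedVariables false

namespace Pool.Agent.Spd

namespace HPT

variable {G H K : HPT}

theorem trich (S : Sub G H) {e : ℕ} (he : e ∈ H.M.D) :
    Blw H G e ∨ On H G e ∨ Abv H G e := by
  by_cases hB : Blw H G e
  · exact Or.inl hB
  by_cases hO : On H G e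
  · exact Or.inr (Or.inl hO)
  refine Or.inr (Or.inr ?_)
  have hB' : ∃ e0, H.M.SameV e e0 ∧ e0 ∈ G.M.D := by
    by_contra hc
    exact hB fun e' h1 h2 => hc ⟨e', h1, h2⟩
  obtain ⟨e0, he0, hG0⟩ := hB'
  -- the darts of the class in `G` are inner, with inner inverse
  have hA : ∀ f, H.M.SameV e f → f ∈ G.M.D → G.M.Inner f ∧ G.M.Inner (H.M.inv f) := by
    intro f hf hfG
    have hfe : H.M.SameV f e := H.ok.sameV_symm he hf
    have h1 : G.M.Inner f := by
      rcases G.ok.inner_or_outer hfG with h | ⟨i, hi⟩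
      · exact h
      · exfalso
        have h2 : G.M.SameV f (G.M.bd (i + 1)) := by
          rw [hi]
          exact G.ok.bd_next i
        have h3 := ((S.sameV hfG _).1 h2).1
        have h4 : H.M.SameV e (G.M.bd (i + 1)) := H.ok.sameV_trans hf h3
        exact hO ⟨i + 1, H.ok.sameV_symm he h4⟩
    refine ⟨h1, ?_⟩
    by_contra h2
    obtain ⟨i, hi⟩ := S.line_of h1 h2
    rw [hi] at hfe
    exact hO ⟨i, hfe⟩
  have hB : ∀ n, H.M.rot^[n] e0 ∈ G.M.D := by
    intro n
    induction n with
    | zero => exact hG0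
    | succ n ih =>
      rw [Function.iterate_succ_apply']
      have h1 := (hA _ (H.ok.sameV_trans he0 ⟨n, rfl⟩) ih).2
      have h2 := G.ok.fc_inner _ h1
      rw [S.fc_eq _ h1] at h2
      exact h2.1
  intro e' he'
  obtain ⟨n, hn⟩ := H.ok.sameV_trans (H.ok.sameV_symm he he0) he'
  refine hA e' he' ?_
  rw [← hn]
  exact hB n

theorem not_on_of_blw (S : Sub G H) {e : ℕ} (he : e ∈ H.M.D) (hb : Blw H G e) :
    ¬ On H G e := by
  rintro ⟨i, hi⟩
  have h1 : G.M.bd i ∈ H.M.D := S.memD (G.ok.bd_mem i)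
  exact hb _ (H.ok.sameV_symm h1 hi) (G.ok.bd_mem i)

theorem not_on_of_abv (S : Sub G H) {e : ℕ} (he : e ∈ H.M.D) (ha : Abv H G e) :
    ¬ On H G e := by
  rintro ⟨i, hi⟩
  have h1 : G.M.bd i ∈ H.M.D := S.memD (G.ok.bd_mem i)
  exact S.cutting.line_out i (ha _ (H.ok.sameV_symm h1 hi)).2

theorem not_blw_of_abv {e : ℕ} (ha : Abv H G e) : ¬ Blw H G e := by
  intro hb
  exact hb e ⟨0, rfl⟩ (ha e ⟨0, rfl⟩).1.1

/-- The vertex of a dart that is not inner in `G` is not strictly above. -/
theorem not_abv_of_not_inner {e : ℕ} (hn : ¬ G.M.Inner e) : ¬ Abv H G e :=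
  fun h => hn (h e ⟨0, rfl⟩).1

theorem blw_sameV (S : Sub G H) {e f : ℕ} (he : e ∈ H.M.D) (hef : H.M.SameV e f)
    (hb : Blw H G e) : Blw H G f := by
  intro e' he'
  exact hb e' (H.ok.sameV_trans hef he')

theorem abv_sameV (S : Sub G H) {e f : ℕ} (he : e ∈ H.M.D) (hef : H.M.SameV e f)
    (hb : Abv H G e) : Abv H G f := by
  intro e' he'
  exact hb e' (H.ok.sameV_trans hef he')

theorem on_sameV (S : Sub G H) {e f : ℕ} (he : e ∈ H.M.D) (hef : H.M.SameV e f)
    (hb : On H G e) : On H G f := by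
  obtain ⟨i, hi⟩ := hb
  exact ⟨i, H.ok.sameV_trans hi hef⟩

/-- Position on the line is unique. -/
theorem on_unique (S : Sub G H) {e : ℕ} {i j : ℤ} (hi : H.M.SameV (G.M.bd i) e)
    (hj : H.M.SameV (G.M.bd j) e) : i = j := by
  have h1 : G.M.bd j ∈ H.M.D := S.memD (G.ok.bd_mem j)
  exact S.cutting.simple i j (H.ok.sameV_trans hi (H.ok.sameV_symm h1 hj))

theorem boundary_not_abv (S : Sub G H) (i : ℤ) : ¬ Abv H G (H.M.bd i) := by
  intro ha
  have h1 := (ha _ (H.ok.bd_prev i)).1
  exact (S.inner h1).2 (i - 1) rfl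

end HPT

end Pool.Agent.Spd
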