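import Pool.Agent.Spd.Peel1

/-!
(Part `Peel2`: `rem_sub`, `rem_M_cut`, `peel_eqv`, `exec_nil`, `exec_cons`, `exec_append`, `outs_append`, `outs_length`, `exec_sub`, `exec_replicate`.  The text below is the common header of the parts.)

# SPD A16: specification of `step` and `rem`

* `peel_spec`: `peel_exists` and the definition by choice.
* `step_N` ...: unfold `Peel`; `rem.M` is a `cut`, `Cutting.cut_inner` gives the inner darts.
* `k` is positive in `R k τ`, `L k τ` because `Tri 0` is empty.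
* `step_eq_iff` (three versions): `peel_unique`, with the `Peel` constructed from the data.
* `rem_sub`: `Sub.of_cutting`; finitely many inner darts are removed.
* `step_eqv`: equivalent maps have the same peeling (literally the same `rem.M` by `Eqv.cut`).
-/

namespace Pool.Agent.Spd

namespace HPT

/-- The three shapes of the remaining map: there is a cutting with cofinite inner darts. -/
private theorem rem_cutting (H : HPT) : ∃ (R : Set ℕ) (L : ℤ → ℕ), Cutting H.M R L ∧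
    {d | H.M.Inner d ∧ d ∉ R}.Finite ∧ H.rem.M = H.M.cut R L := by
  have h := H.peel_spec
  cases hs : H.step with
  | N =>
    rw [hs] at h
    obtain ⟨hw, hM⟩ : (∀ i, ¬ H.M.SameV (H.M.bd i) (H.M.fc (H.M.fc (H.M.bd 0)))) ∧
      H.rem.M = H.M.cut {d | H.M.Inner d ∧ d ≠ H.M.bd 0 ∧ d ≠ H.M.fc (H.M.bd 0) ∧
        d ≠ H.M.fc (H.M.fc (H.M.bd 0))} (lineN H.M) := h
    refine ⟨_, _, cutting_N H.ok hw, ?_, hM⟩
    refine (Set.toFinite {H.M.bd 0, H.M.fc (H.M.bd 0), H.M.fc (H.M.fc (H.M.bd 0))}).subset ?_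
    rintro d ⟨h1, h2⟩
    by_contra h3
    simp only [Set.mem_insert_iff, Set.mem_singleton_iff, not_or] at h3
    exact h2 ⟨h1, h3.1, h3.2.1, h3.2.2⟩
  | R k τ =>
    rw [hs] at h
    obtain ⟨hw, F, hF, hM⟩ : H.M.SameV (H.M.bd (k + 1)) (H.M.fc (H.M.fc (H.M.bd 0))) ∧
      ∃ F : Finset ℕ, H.M.Fill τ (holeR H.M k) F ∧
      H.rem.M = H.M.cut {d | H.M.Inner d ∧ d ≠ H.M.bd 0 ∧ d ≠ H.M.fc (H.M.bd 0) ∧
        d ≠ H.M.fc (H.M.fc (H.M.bd 0)) ∧ d ∉ F} (lineR H.M k) := h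
    have hk := tri_pos τ
    have hB : Bounds H.M (holeR H.M k) F := fill_bounds H.ok (holeR_poly H.ok hk hw) hF
    refine ⟨_, _, cutting_R H.ok hk hw hB, ?_, hM⟩
    refine ((Set.toFinite {H.M.bd 0, H.M.fc (H.M.bd 0), H.M.fc (H.M.fc (H.M.bd 0))}).union
      F.finite_toSet).subset ?_
    rintro d ⟨h1, h2⟩
    by_contra h3
    simp only [Set.mem_union, Set.mem_insert_iff, Set.mem_singleton_iff, not_or,
      Finset.mem_coe] at h3
    exact h2 ⟨h1, h3.1.1, h3.1.2.1, h3.1.2.2, h3.2⟩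
  | L k τ =>
    rw [hs] at h
    obtain ⟨hw, F, hF, hM⟩ : H.M.SameV (H.M.bd (-k)) (H.M.fc (H.M.fc (H.M.bd 0))) ∧
      ∃ F : Finset ℕ, H.M.Fill τ (holeL H.M k) F ∧
      H.rem.M = H.M.cut {d | H.M.Inner d ∧ d ≠ H.M.bd 0 ∧ d ≠ H.M.fc (H.M.bd 0) ∧
        d ≠ H.M.fc (H.M.fc (H.M.bd 0)) ∧ d ∉ F} (lineL H.M k) := h
    have hk := tri_pos τ
    have hB : Bounds H.M (holeL H.M k) F := fill_bounds H.ok (holeL_poly H.ok hk hw) hF
    refine ⟨_, _, cutting_L H.ok hk hw hB, ?_, hM⟩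
    refine ((Set.toFinite {H.M.bd 0, H.M.fc (H.M.bd 0), H.M.fc (H.M.fc (H.M.bd 0))}).union
      F.finite_toSet).subset ?_
    rintro d ⟨h1, h2⟩
    by_contra h3
    simp only [Set.mem_union, Set.mem_insert_iff, Set.mem_singleton_iff, not_or,
      Finset.mem_coe] at h3
    exact h2 ⟨h1, h3.1.1, h3.1.2.1, h3.1.2.2, h3.2⟩

theorem rem_sub (H : HPT) : Sub H.rem H := by
  obtain ⟨R, L, C, hf, hM⟩ := rem_cutting H
  exact Sub.of_cutting C hf hM

theorem rem_M_cut (H : HPT) : H.rem.M = H.M.cut {d | H.rem.M.Inner d} H.rem.M.bd := by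
  obtain ⟨R, L, C, hf, hM⟩ := rem_cutting H
  have hI : {d | H.rem.M.Inner d} = R := by
    ext d
    change H.rem.M.Inner d ↔ d ∈ R
    rw [hM]
    exact C.cut_inner H.ok d
  have hL : H.rem.M.bd = L := by rw [hM]; rfl
  rw [hI, hL]
  exact hM

private theorem fill_eqv {M M' : PreMap} (h : M.IsHPT) (E : M.Eqv M') {k : ℕ} (τ : Tri k) :
    ∀ (cs : List ℕ) (F : Finset ℕ), (∀ d ∈ cs, d ∈ M.D) → M.Fill τ cs F → M'.Fill τ cs F := by
  induction τ with
  | edge =>
    rintro cs F hcs ⟨d, hd, rfl, rfl⟩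
    refine ⟨d, ?_, ?_, rfl⟩
    · rw [← E.D]; exact hd
    · rw [E.inv]
  | new t ih =>
    rintro cs F hcs ⟨d, ds, F', rfl, hd, hne, hf, hdF, rfl⟩
    have hd1 := h.fc_inner d hd
    have hd2 := h.fc_inner _ hd1
    have e1 : M'.fc d = M.fc d := (E.fc d hd.1).symm
    have e2 : M'.fc (M.fc d) = M.fc (M.fc d) := (E.fc _ hd1.1).symm
    refine ⟨d, ds, F', rfl, (E.inner d).1 hd, ?_, ?_, hdF, ?_⟩
    · intro e he
      rw [e1, e2, ← E.sameV h (hcs e he)]
      exact hne e he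
    · rw [e1, e2, ← E.inv]
      refine ih _ _ ?_ hf
      intro e he
      rcases List.mem_cons.1 he with rfl | he
      · exact h.inv_mem _ hd2.1
      · rcases List.mem_cons.1 he with rfl | he
        · exact h.inv_mem _ hd1.1
        · exact hcs e (List.mem_cons_of_mem _ he)
    · rw [e1, e2]
  | split t₁ t₂ ih₁ ih₂ =>
    rintro cs F hcs ⟨d, ds₁, ds₂, F₁, F₂, rfl, hd, hf₁, hf₂, h1, h2, h3, rfl⟩
    have hd1 := h.fc_inner d hd
    have hd2 := h.fc_inner _ hd1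
    have e1 : M'.fc d = M.fc d := (E.fc d hd.1).symm
    have e2 : M'.fc (M.fc d) = M.fc (M.fc d) := (E.fc _ hd1.1).symm
    refine ⟨d, ds₁, ds₂, F₁, F₂, rfl, (E.inner d).1 hd, ?_, ?_, h1, h2, h3, ?_⟩
    · rw [e1, ← E.inv]
      refine ih₁ _ _ ?_ hf₁
      intro e he
      rcases List.mem_append.1 he with he | he
      · exact hcs e (List.mem_cons_of_mem _ (List.mem_append_left _ he))
      · rw [List.mem_singleton] at he
        rw [he]
        exact h.inv_mem _ hd1.1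
    · rw [e1, e2, ← E.inv]
      refine ih₂ _ _ ?_ hf₂
      intro e he
      rcases List.mem_cons.1 he with rfl | he
      · exact h.inv_mem _ hd2.1
      · exact hcs e (List.mem_cons_of_mem _ (List.mem_append_right _ he))
    · rw [e1, e2]

theorem peel_eqv {H H' : HPT} (E : H.M.Eqv H'.M) : H.step = H'.step ∧ H.rem = H'.rem := by
  have h := H.peel_spec
  have hr := H.ok.bd_inner 0
  have ha := H.ok.fc_inner _ hr
  have hb := H.ok.fc_inner _ ha
  have hbd : H'.M.bd = H.M.bd := E.bd.symm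
  have hinv : H'.M.inv = H.M.inv := E.inv.symm
  have e1 : H'.M.fc (H.M.bd 0) = H.M.fc (H.M.bd 0) := (E.fc _ hr.1).symm
  have e2 : H'.M.fc (H.M.fc (H.M.bd 0)) = H.M.fc (H.M.fc (H.M.bd 0)) := (E.fc _ ha.1).symm
  have hIn : ∀ d, H'.M.Inner d ↔ H.M.Inner d := fun d => (E.inner d).symm
  have hS : ∀ i e, H'.M.SameV (H.M.bd i) e ↔ H.M.SameV (H.M.bd i) e := fun i e =>
    (E.sameV H.ok (H.ok.bd_inner i).1 e).symm
  have key : H'.M.Peel H.step H.rem.M := by
    cases hs : H.step with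
    | N =>
      rw [hs] at h
      obtain ⟨hw, hM⟩ : (∀ i, ¬ H.M.SameV (H.M.bd i) (H.M.fc (H.M.fc (H.M.bd 0)))) ∧
        H.rem.M = H.M.cut {d | H.M.Inner d ∧ d ≠ H.M.bd 0 ∧ d ≠ H.M.fc (H.M.bd 0) ∧
          d ≠ H.M.fc (H.M.fc (H.M.bd 0))} (lineN H.M) := h
      have g1 : ∀ i, ¬ H'.M.SameV (H'.M.bd i) (H'.M.fc (H'.M.fc (H'.M.bd 0))) := by
        intro i
        rw [hbd, e1, e2, hS]
        exact hw i
      have gR : {d | H'.M.Inner d ∧ d ≠ H'.M.bd 0 ∧ d ≠ H'.M.fc (H'.M.bd 0) ∧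
          d ≠ H'.M.fc (H'.M.fc (H'.M.bd 0))} = {d | H.M.Inner d ∧ d ≠ H.M.bd 0 ∧
          d ≠ H.M.fc (H.M.bd 0) ∧ d ≠ H.M.fc (H.M.fc (H.M.bd 0))} := by
        ext d
        simp only [Set.mem_ofPred_eq]
        rw [hIn, hbd, e1, e2]
      have gL : lineN H'.M = lineN H.M := by
        unfold lineN
        rw [hbd, e1, e2, hinv]
      have g2 : H.rem.M = H'.M.cut {d | H'.M.Inner d ∧ d ≠ H'.M.bd 0 ∧ d ≠ H'.M.fc (H'.M.bd 0) ∧
          d ≠ H'.M.fc (H'.M.fc (H'.M.bd 0))} (lineN H'.M) := by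
        rw [gR, gL, hM]
        exact E.cut (fun d hd => hd.1.1) _
      exact ⟨g1, g2⟩
    | R k τ =>
      rw [hs] at h
      obtain ⟨hw, F, hF, hM⟩ : H.M.SameV (H.M.bd (k + 1)) (H.M.fc (H.M.fc (H.M.bd 0))) ∧
        ∃ F : Finset ℕ, H.M.Fill τ (holeR H.M k) F ∧
        H.rem.M = H.M.cut {d | H.M.Inner d ∧ d ≠ H.M.bd 0 ∧ d ≠ H.M.fc (H.M.bd 0) ∧
          d ≠ H.M.fc (H.M.fc (H.M.bd 0)) ∧ d ∉ F} (lineR H.M k) := h
      have g1 : H'.M.SameV (H'.M.bd (k + 1)) (H'.M.fc (H'.M.fc (H'.M.bd 0))) := by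
        rw [hbd, e1, e2, hS]
        exact hw
      have gR : {d | H'.M.Inner d ∧ d ≠ H'.M.bd 0 ∧ d ≠ H'.M.fc (H'.M.bd 0) ∧
          d ≠ H'.M.fc (H'.M.fc (H'.M.bd 0)) ∧ d ∉ F} = {d | H.M.Inner d ∧ d ≠ H.M.bd 0 ∧
          d ≠ H.M.fc (H.M.bd 0) ∧ d ≠ H.M.fc (H.M.fc (H.M.bd 0)) ∧ d ∉ F} := by
        ext d
        simp only [Set.mem_ofPred_eq]
        rw [hIn, hbd, e1, e2]
      have gL : lineR H'.M k = lineR H.M k := by
        unfold lineR
        rw [hbd, e1, e2, hinv]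
      have gH : holeR H'.M k = holeR H.M k := by
        unfold holeR
        rw [hbd, e1, hinv]
      have g2 : H.rem.M = H'.M.cut {d | H'.M.Inner d ∧ d ≠ H'.M.bd 0 ∧ d ≠ H'.M.fc (H'.M.bd 0) ∧
          d ≠ H'.M.fc (H'.M.fc (H'.M.bd 0)) ∧ d ∉ F} (lineR H'.M k) := by
        rw [gR, gL, hM]
        exact E.cut (fun d hd => hd.1.1) _
      have gF : H'.M.Fill τ (holeR H'.M k) F := by
        rw [gH]
        refine fill_eqv H.ok E τ _ _ ?_ hF
        intro e he
        unfold holeR at he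
        rcases List.mem_append.1 he with he | he
        · obtain ⟨j, -, rfl⟩ := List.mem_map.1 he
          exact (H.ok.bd_inner _).1
        · rw [List.mem_singleton] at he
          rw [he]
          exact H.ok.inv_mem _ ha.1
      exact ⟨g1, F, gF, g2⟩
    | L k τ =>
      rw [hs] at h
      obtain ⟨hw, F, hF, hM⟩ : H.M.SameV (H.M.bd (-k)) (H.M.fc (H.M.fc (H.M.bd 0))) ∧
        ∃ F : Finset ℕ, H.M.Fill τ (holeL H.M k) F ∧
        H.rem.M = H.M.cut {d | H.M.Inner d ∧ d ≠ H.M.bd 0 ∧ d ≠ H.M.fc (H.M.bd 0) ∧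
          d ≠ H.M.fc (H.M.fc (H.M.bd 0)) ∧ d ∉ F} (lineL H.M k) := h
      have g1 : H'.M.SameV (H'.M.bd (-k)) (H'.M.fc (H'.M.fc (H'.M.bd 0))) := by
        rw [hbd, e1, e2, hS]
        exact hw
      have gR : {d | H'.M.Inner d ∧ d ≠ H'.M.bd 0 ∧ d ≠ H'.M.fc (H'.M.bd 0) ∧
          d ≠ H'.M.fc (H'.M.fc (H'.M.bd 0)) ∧ d ∉ F} = {d | H.M.Inner d ∧ d ≠ H.M.bd 0 ∧
          d ≠ H.M.fc (H.M.bd 0) ∧ d ≠ H.M.fc (H.M.fc (H.M.bd 0)) ∧ d ∉ F} := by
        ext d
        simp only [Set.mem_ofPred_eq]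
        rw [hIn, hbd, e1, e2]
      have gL : lineL H'.M k = lineL H.M k := by
        unfold lineL
        rw [hbd, e1, hinv]
      have gH : holeL H'.M k = holeL H.M k := by
        unfold holeL
        rw [hbd, e1, e2, hinv]
      have g2 : H.rem.M = H'.M.cut {d | H'.M.Inner d ∧ d ≠ H'.M.bd 0 ∧ d ≠ H'.M.fc (H'.M.bd 0) ∧
          d ≠ H'.M.fc (H'.M.fc (H'.M.bd 0)) ∧ d ∉ F} (lineL H'.M k) := by
        rw [gR, gL, hM]
        exact E.cut (fun d hd => hd.1.1) _
      have gF : H'.M.Fill τ (holeL H'.M k) F := by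
        rw [gH]
        refine fill_eqv H.ok E τ _ _ ?_ hF
        intro e he
        unfold holeL at he
        rcases List.mem_append.1 he with he | he
        · obtain ⟨j, -, rfl⟩ := List.mem_map.1 he
          exact (H.ok.bd_inner _).1
        · rw [List.mem_singleton] at he
          rw [he]
          exact H.ok.inv_mem _ hb.1
      exact ⟨g1, F, gF, g2⟩
  obtain ⟨q1, q2⟩ := peel_unique H'.ok H'.peel_spec key
  exact ⟨q1.symm, ext_M q2.symm⟩

theorem exec_nil (H : HPT) : H.exec [] = H := rfl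

theorem exec_cons (H : HPT) (i : ℤ) (c : List ℤ) : H.exec (i :: c) = (H.shift i).rem.exec c := rfl

theorem exec_append (H : HPT) (c c' : List ℤ) : H.exec (c ++ c') = (H.exec c).exec c' := by
  unfold exec
  rw [List.foldl_append]

theorem outs_append (H : HPT) (c c' : List ℤ) :
    H.outs (c ++ c') = H.outs c ++ (H.exec c).outs c' := by
  induction c generalizing H with
  | nil => rfl
  | cons i c ih =>
    rw [exec_cons]
    change (H.shift i).step :: (H.shift i).rem.outs (c ++ c') =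
      (H.shift i).step :: ((H.shift i).rem.outs c ++ _)
    rw [ih]

theorem outs_length (H : HPT) (c : List ℤ) : (H.outs c).length = c.length := by
  induction c generalizing H with
  | nil => rfl
  | cons i c ih =>
    change ((H.shift i).step :: (H.shift i).rem.outs c).length = (i :: c).length
    rw [List.length_cons, List.length_cons, ih]

theorem exec_sub (H : HPT) (c : List ℤ) : Sub (H.exec c) H := by
  induction c generalizing H with
  | nil => exact Sub.refl H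
  | cons i c ih =>
    rw [exec_cons]
    have h1 : Sub (H.shift i) H := (Sub.refl H).shift i
    exact ((ih _).trans (rem_sub _)).trans h1

theorem exec_replicate (H : HPT) (n : ℕ) : H.exec (List.replicate n 0) = rem^[n] H := by
  induction n generalizing H with
  | zero => rfl
  | succ n ih =>
    rw [List.replicate_succ, exec_cons, shift_zero, ih]
    rfl

end HPT

end Pool.Agent.Spd
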