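import Pool.Agent.Spd.Count
import Pool.Agent.Spd.Peel

/-!
# SPD M4: measurability, criteria

The sigma-algebra on `HPT` is generated by the sets `{H | H.outs c = o}`; there are countably many
pairs `(c, o)` (`Step.countable` in `W01`).  `W01` has `measurableSet_outs`, `measurable_shift`,
`measurable_step`, `measurable_rem`, `measurable_exec`.

* `measurable_of_local`: `f ⁻¹' S` is the union of the sets `{outs c = o}` over the (countably many)
  pairs `(c, o)` such that `f H' ∈ S` for all `H'` with `H'.outs c = o`.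
* `measurable_of_local₂`: the same on `HPT × (ℕ → I)`: for a list `l` of numbers and a list `v` put
  `B l v = {U | ∀ j < l.length, ⌊U j * l[j]⌋ = v[j]}` (measurable); `f ⁻¹' S` is the union of the
  sets `{outs c = o} ×ˢ B l v` over the countably many `(c, o, l, v)` for which it is contained in
  `f ⁻¹' S`.
-/

namespace Pool.Agent.Spd

open MeasureTheory

namespace HPT

theorem measurable_of_local {α : Type*} [MeasurableSpace α] (f : HPT → α)
    (h : ∀ H, ∃ c : List ℤ, ∀ H' : HPT, H'.outs c = H.outs c → f H' = f H) :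
    Measurable f := by
  intro S _
  have h1 : f ⁻¹' S = ⋃ p : List ℤ × List Step,
      ({H : HPT | H.outs p.1 = p.2} ∩ {_H | ∀ H' : HPT, H'.outs p.1 = p.2 → f H' ∈ S}) := by
    ext H
    simp only [Set.mem_preimage, Set.mem_iUnion, Set.mem_inter_iff, Set.mem_ofPred_eq]
    constructor
    · intro hH
      obtain ⟨c, hc⟩ := h H
      exact ⟨(c, H.outs c), rfl, fun H' hH' => by rw [hc H' hH']; exact hH⟩
    · rintro ⟨p, h2, h3⟩
      exact h3 H h2
  rw [h1]
  exact MeasurableSet.iUnion fun p => (measurableSet_outs _ _).inter (MeasurableSet.const _)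

private theorem measA_floor (j : ℕ) (a b : ℕ) : MeasurableSet
    {p : HPT × (ℕ → unitInterval) | ⌊(p.2 j : ℝ) * (a : ℕ)⌋₊ = b} := by
  have h1 : Measurable fun p : HPT × (ℕ → unitInterval) => ⌊(p.2 j : ℝ) * (a : ℕ)⌋₊ :=
    Nat.measurable_floor.comp
      ((measurable_subtype_coe.comp ((measurable_pi_apply j).comp measurable_snd)).mul_const _)
  exact h1 (measurableSet_singleton b)

theorem measurable_of_local₂ {α : Type*} [MeasurableSpace α] (f : HPT × (ℕ → unitInterval) → α)
    (h : ∀ H U, ∃ (c : List ℤ) (l : List ℕ), ∀ (H' : HPT) (U' : ℕ → unitInterval),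
      H'.outs c = H.outs c →
      (∀ j < l.length, ⌊(U' j : ℝ) * (l.getD j 0 : ℕ)⌋₊ = ⌊(U j : ℝ) * (l.getD j 0 : ℕ)⌋₊) →
      f (H', U') = f (H, U)) :
    Measurable f := by
  intro S _
  have h1 : f ⁻¹' S = ⋃ p : (List ℤ × List Step) × (List ℕ × List ℕ),
      ((Prod.fst ⁻¹' {H : HPT | H.outs p.1.1 = p.1.2} ∩
        ⋂ j : ℕ, ⋂ _ : j < p.2.1.length, {q : HPT × (ℕ → unitInterval) |
          ⌊(q.2 j : ℝ) * (p.2.1.getD j 0 : ℕ)⌋₊ = p.2.2.getD j 0}) ∩
        {_q | ∀ (H' : HPT) (U' : ℕ → unitInterval), H'.outs p.1.1 = p.1.2 →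
          (∀ j < p.2.1.length, ⌊(U' j : ℝ) * (p.2.1.getD j 0 : ℕ)⌋₊ = p.2.2.getD j 0) →
          f (H', U') ∈ S}) := by
    ext ⟨H, U⟩
    simp only [Set.mem_preimage, Set.mem_iUnion, Set.mem_inter_iff, Set.mem_ofPred_eq,
      Set.mem_iInter]
    constructor
    · intro hH
      obtain ⟨c, l, hc⟩ := h H U
      have h2 : ∀ j < l.length, ((List.range l.length).map
          fun j => ⌊(U j : ℝ) * (l.getD j 0 : ℕ)⌋₊).getD j 0 =
            ⌊(U j : ℝ) * (l.getD j 0 : ℕ)⌋₊ := by
        intro j hj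
        rw [List.getD_eq_getElem _ _ (by simpa using hj)]
        simp
      refine ⟨((c, H.outs c), (l, (List.range l.length).map
        fun j => ⌊(U j : ℝ) * (l.getD j 0 : ℕ)⌋₊)), ⟨rfl, fun j hj => (h2 j hj).symm⟩, ?_⟩
      intro H' U' h3 h4
      rw [hc H' U' h3 fun j hj => (h4 j hj).trans (h2 j hj)]
      exact hH
    · rintro ⟨p, ⟨h2, h3⟩, h4⟩
      exact h4 H U h2 h3
  rw [h1]
  refine MeasurableSet.iUnion fun p => MeasurableSet.inter (MeasurableSet.inter ?_ ?_)
    (MeasurableSet.const _)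
  · exact measurable_fst (measurableSet_outs _ _)
  · exact MeasurableSet.iInter fun j => MeasurableSet.iInter fun _ => measA_floor j _ _

end HPT

end Pool.Agent.Spd
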