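import Pool.Agent.Spd.SimG

/-!
# SPD S8: a finer exploration determines a coarser one

* `sim_back`: induction on `c`, generalizing `K`, `K'`, with `back_step`, `back_sub`, `back_sim` for
  `K.shift i`, `K'.shift i` (`Sim.shift`, `Sub.shift`): `G` is a sub-map of `(K.shift i).rem`,
  because `K.exec (i :: c) = (K.shift i).rem.exec c` is a sub-map of it (`exec_sub`, `Sub.trans`;
  `G` is a sub-map of `K.exec (i :: c)` by hypothesis).
* `back_outs`: for `K = H`, `K' = H'`: `Sim.base`, `Sub.refl`.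
* `outs_of_outs`: `sim_of_outs` for `c₁` gives `Sim H (H.exec c₁) H' (H'.exec c₁) φ ψ`; then
  `back_outs` with `G = H.exec c₁`.
-/

namespace Pool.Agent.Spd

namespace HPT

variable {H G H' G' K K' : HPT} {φ ψ : ℕ → ℕ}

theorem sim_back (S : Sub G H) (S' : Sub G' H') (h : Sim H G H' G' φ ψ) (c : List ℤ)
    (hK : Sim H K H' K' φ ψ) (T : Sub K H) (T' : Sub K' H') (R : Sub G (K.exec c))
    (R' : Sub G' K') :
    K'.outs c = K.outs c ∧ Sub G' (K'.exec c) ∧ Sim H (K.exec c) H' (K'.exec c) φ ψ := by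
  induction c generalizing K K' with
  | nil => exact ⟨rfl, R', hK⟩
  | cons i c ih =>
    rw [exec_cons] at R
    rw [exec_cons, exec_cons]
    have hK₁ := hK.shift i
    have T₁ : Sub (K.shift i) H := T.shift i
    have T₁' : Sub (K'.shift i) H' := T'.shift i
    have R₁ : Sub G (K.shift i).rem := R.trans (exec_sub _ c)
    have R₁' : Sub G' (K'.shift i) := R'.shift' i
    have h1 := back_step S S' h hK₁ T₁ T₁' R₁ R₁'
    have h2 := (back_sub S S' h hK₁ T₁ T₁' R₁ R₁').2.2
    have h3 := back_sim S S' h hK₁ T₁ T₁' R₁ R₁'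
    obtain ⟨h4, h5, h6⟩ := ih h3 ((rem_sub _).trans T₁) ((rem_sub _).trans T₁') R h2
    refine ⟨?_, h5, h6⟩
    change (K'.shift i).step :: (K'.shift i).rem.outs c =
      (K.shift i).step :: (K.shift i).rem.outs c
    rw [h1, h4]

theorem back_outs (S : Sub G H) (S' : Sub G' H') (h : Sim H G H' G' φ ψ) (c : List ℤ)
    (R : Sub G (H.exec c)) :
    H'.outs c = H.outs c ∧ Sub G' (H'.exec c) ∧ Sim H (H.exec c) H' (H'.exec c) φ ψ :=
  sim_back S S' h c (h.base S S') (Sub.refl H) (Sub.refl H') R S'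

/-- If `c₁` explores everything that `c` explores, then the outcomes along `c₁` determine those
along `c`. -/
theorem outs_of_outs {H H' : HPT} {c c₁ : List ℤ} (R : Sub (H.exec c₁) (H.exec c))
    (ho : H'.outs c₁ = H.outs c₁) : H'.outs c = H.outs c := by
  obtain ⟨φ, ψ, h⟩ := sim_of_outs c₁ ho
  exact (back_outs (exec_sub H c₁) (exec_sub H' c₁) (h c₁ [] (List.append_nil c₁).symm) c R).1

end HPT

end Pool.Agent.Spd
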