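import Pool.Agent.Spd.MeasA
import Pool.Agent.Spd.FairB
import Pool.Agent.Spd.SimNear
import Pool.Agent.Spd.SimH

/-!
(Part `MeasB1`: `fair_tool`.  The text below is the common header of the parts.)

# SPD M8: locally determined functions

TOOL (`fair_tool`): for a finite set `F` of darts of `H` and `c : List ℤ` there is `k` such that the
exploration `fair k` swallows the vertices of `F` (`exhaust_blw`), explores more than `c`
(`fair_fine`), and for every `H'` with the same outcomes along `fair k` there are `φ`, `ψ` with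
`Sim H (H.exec (fair k)) H' (H'.exec (fair k)) φ ψ` (`sim_of_outs`, `c₁ = fair k`) and
`Sim H (H.exec c) H' (H'.exec c) φ ψ` (`back_outs`), `H'.outs c = H.outs c`.

* `measurable_deg0`: `measurable_of_local` with `F = {H.bd 0}`: `φ (H.bd 0) = H'.bd 0` (`h.bdy 0` and
  `h.inv` for the explored darts `inv (H.bd 0)`, `H.bd 0`), `Sim.deg`.
* `measurable_distLine`: `e = (H.exec c).bd i`, `F = {f | Reach H (H.distBd e) e f}`
  (`reach_finite`); `φ e = (H'.exec c).bd i` (`line` for `H.exec c`, `h.inv` since `e` is explored: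
  strictly below), `sim_dist`.
* `measurable_distWalk`: `measurable_of_local₂`: `F` = the darts `H.walk U j`, `j ≤ n`, and the
  `Reach`-ball of `H.walk U n` of radius `distBd`; `l` = list of the degrees `H.deg (H.walk U j)`,
  `j < n`; `walk_sim` and `sim_dist`.
* `measurableSet_ret`: `{(G, U) | ∃ i, SameV (G.bd i) (G.walkK κ U (n+1))}` is locally determined: `F` =
  `G.bd 0` and the darts `G.walkK κ U j`, `j ≤ n + 1`; `walkFrom_sim` for
  `e = inv (rot^[κ] (inv (bd (-1))))` (`φ e = e'` by `Sim.iter` at the root vertex, `h.inv`), and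
  `Sim.on_iff` with `K = G` (the reference map, `Sim.base`).
* `measurableSet_esc`: `κ < deg` (`measurable_deg0`) and a countable intersection.
* `measurable_stopT`: `{stopT = s}` is the union of the sets `{outs (replicate (s+1) 0) = o}` with
  `o` of length `s + 1`, whose last entry is the first one of type `L` (`stop_spec`, `stop_min`,
  `outs` along `replicate`: the outcome number `t` is `(rem^[t] H).step`).
* `measurable_star`: on `{stopT = s}` it is `H.exec (replicate (s+1) 0)` (`exec_replicate`).
* `measurable_starOuts`, `measurable_starVol`: `starVol_eq`.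
-/

namespace Pool.Agent.Spd

open MeasureTheory

namespace HPT

theorem fair_tool (H : HPT) {F : Set ℕ} (hF : F.Finite) (hD : ∀ d ∈ F, d ∈ H.M.D)
    (c : List ℤ) : ∃ k, (∀ d ∈ F, Blw H (H.exec (fair k)) d) ∧
      Sub (H.exec (fair k)) (H.exec c) ∧
      ∀ H' : HPT, H'.outs (fair k) = H.outs (fair k) → ∃ φ ψ,
        Sim H (H.exec (fair k)) H' (H'.exec (fair k)) φ ψ ∧
        Sim H (H.exec c) H' (H'.exec c) φ ψ ∧ H'.outs c = H.outs c := by
  obtain ⟨k₁, h₁⟩ := exhaust_blw H hF hD
  obtain ⟨k₂, h₂⟩ := fair_fine H c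
  refine ⟨max k₁ k₂, h₁ _ (le_max_left _ _), h₂ _ (le_max_right _ _), fun H' ho => ?_⟩
  obtain ⟨φ, ψ, h⟩ := sim_of_outs (fair (max k₁ k₂)) ho
  have hs := h (fair (max k₁ k₂)) [] (List.append_nil _).symm
  obtain ⟨h3, -, h4⟩ := back_outs (exec_sub H _) (exec_sub H' _) hs c (h₂ _ (le_max_right _ _))
  exact ⟨φ, ψ, hs, h4, h3⟩

end HPT

end Pool.Agent.Spd
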