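import Pool.Agent.Spd.Frame

/-!
(Part `Off1`: `offD`, `off_spec`, `off_rot`.  The text below is the common header of the parts.)

# SPD S10: the position of the unexplored darts in the rotation at a pioneer

`n` is a pioneer time, `G = regAt c₀ H w n` (rooted at the position), `o = inv (G.bd (-1))` is the
first dart of `G` at the root vertex (an outer dart of `G`), `dG = G.deg (G.bd 0)`.  Turning with
`rot` in `G` from `o` one meets `fc (G.bd (-1)), ...` and finally `G.bd 0`; the next one is `o`.

* `off_rot'`: for `κ < dG`: `H.rot^[κ] o = G.rot^[κ] o`: as long as `x = G.rot^[κ] o` is not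
  `G.bd 0`, `inv x` is inner in `G`, so `G.rot x = G.fc (inv x) = H.rot x` (`inv x` not inner in `G`
  means that `x` is a line dart `G.bd j` with the origin of `G.bd 0`, so `x = G.bd 0`; and
  `G.rot (G.bd 0) = o` by `fc_outer`, so `G.bd 0` is the last one).
* `off_spec`: `w n` has the origin of `G.bd 0`, hence of `o` (`bd_prev`), so the set is nonempty
  (`Nat.sInf_mem`).
* `off_lt`: for `j < offD` the dart `rot^[j] (w n)` is not in `G.D`: otherwise take the least such
  `j`; if `j = 0`, `w n ∈ G.D` is not inner in `G` (`not_inner_path`), so it is outer at the root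
  vertex: `w n = o`, `offD = 0`.  If `j > 0`, `x = rot^[j] (w n) = fc (inv y)`, `y` not in `G.D`, so
  `inv y` is not inner in `G` (its inverse would be in `G.D`), so `x` is not inner in `G`, so it is
  outer: `x = o`, against the minimality of `offD`.
* `off_add_le`: the darts `rot^[j] (w n)`, `j < offD`, and `rot^[offD + κ] (w n)`, `κ < dG`, are all
  different (not in `G.D`, resp. in `G.D` and distinct; for the first ones minimal period), so
  their number is at most `deg`.  In detail: if `deg_H < offD + dG`, then (`offD < deg_H`) with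
  `κ = deg_H - offD < dG`: `w n = rot^[deg_H] (w n) = G.rot^[κ] o ∈ G.D` not inner, so `w n = o`,
  `offD = 0`, `κ = deg_H ≥ 1`, `G.rot^[κ] o = o` with `0 < κ < dG`: contradiction.
* `off_mem_iff`: by the above and `deg_split` (the number of darts not in `G.D` is `expD`).
* `choice_iff`: `inv (walk (n+1)) = rot^[kap] (walk n)`, and `rot^[j] (walk n)` is injective for
  `j < deg`; `kap ≤ deg`, and `kap < deg` if `U n < 1`.
* `good_star`: `deg_split`, `star_special` for `G`; `kap = offD + 1` gives
  `inv (walk (n+1)) = G.rot^[1] o`, so `walk (n+1) = inv (G.rot^[1] o) ~ G.star.bd 1`, where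
  `G.star = reg (n+1)` (`reg_succ_pio`).  So `n + 1` is a pioneer time.  Its vertex is not on the
  line of `G` (`star_special`: `G.step = N`; or: it is not `~ G.bd j`), so it is strictly above the
  line of `G` (`trich`), all its darts are in `G.D` and `SameV` in `H` and `G` agree, so the set
  counted by `expD` is the singleton of `star_special`.
-/

namespace Pool.Agent.Spd

namespace HPT

/-- Number of rotations from the dart `w n` to the first dart of the unexplored region. -/
noncomputable def offD (c₀ : List ℤ) (H : HPT) (w : ℕ → ℕ) (n : ℕ) : ℕ :=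
  sInf {k | H.M.rot^[k] (w n) = H.M.inv ((regAt c₀ H w n).M.bd (-1))}

variable {H : HPT} {w : ℕ → ℕ} {c₀ : List ℤ} {n : ℕ}

theorem off_spec (P : IsPath H w) (hp : Pio c₀ H w n) :
    H.M.rot^[offD c₀ H w n] (w n) = H.M.inv ((regAt c₀ H w n).M.bd (-1)) := by
  have S : Sub (regAt c₀ H w n) H := regAt_sub
  have hG := (regAt c₀ H w n).ok
  have hb : (regAt c₀ H w n).M.bd 0 ∈ (regAt c₀ H w n).M.D := hG.bd_mem 0
  have h0 : H.M.SameV ((regAt c₀ H w n).M.bd 0) (w n) := regAt_bd hp
  have h1 : H.M.SameV (w n) ((regAt c₀ H w n).M.bd 0) := H.ok.sameV_symm (S.memD hb) h0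
  have h2 := hG.bd_prev 0
  rw [zero_sub, S.sameV hb, S.inv_eq] at h2
  have h3 : ∃ k, k ∈ {k | H.M.rot^[k] (w n) = H.M.inv ((regAt c₀ H w n).M.bd (-1))} :=
    H.ok.sameV_trans h1 h2.1
  have _hP := P
  exact Nat.sInf_mem h3

theorem off_rot (P : IsPath H w) (hp : Pio c₀ H w n) {κ : ℕ}
    (hκ : κ < (regAt c₀ H w n).deg ((regAt c₀ H w n).M.bd 0)) :
    H.M.rot^[offD c₀ H w n + κ] (w n) = (regAt c₀ H w n).M.rot^[κ]
      ((regAt c₀ H w n).M.inv ((regAt c₀ H w n).M.bd (-1))) := by
  have S : Sub (regAt c₀ H w n) H := regAt_sub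
  have hG := (regAt c₀ H w n).ok
  have hspec := off_spec P hp
  have hb : (regAt c₀ H w n).M.bd 0 ∈ (regAt c₀ H w n).M.D := hG.bd_mem 0
  have hb1 : (regAt c₀ H w n).M.bd (-1) ∈ (regAt c₀ H w n).M.D := hG.bd_mem (-1)
  have ho : (regAt c₀ H w n).M.inv ((regAt c₀ H w n).M.bd (-1)) ∈ (regAt c₀ H w n).M.D :=
    hG.inv_mem _ hb1
  have h2 : (regAt c₀ H w n).M.SameV ((regAt c₀ H w n).M.bd 0)
      ((regAt c₀ H w n).M.inv ((regAt c₀ H w n).M.bd (-1))) := by
    have h := hG.bd_prev 0
    rwa [zero_sub] at h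
  have hdeg := (regAt c₀ H w n).deg_sameV hb h2
  have hrot0 : (regAt c₀ H w n).M.rot ((regAt c₀ H w n).M.bd 0) =
      (regAt c₀ H w n).M.inv ((regAt c₀ H w n).M.bd (-1)) := by
    have h := hG.fc_outer 0
    rw [zero_sub] at h
    exact h
  rw [Nat.add_comm, Function.iterate_add_apply, hspec]
  induction κ with
  | zero => rw [Function.iterate_zero_apply, Function.iterate_zero_apply, S.inv_eq]
  | succ κ ih =>
    rw [Function.iterate_succ_apply', Function.iterate_succ_apply',
      ih (Nat.lt_of_succ_lt hκ)]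
    set x := (regAt c₀ H w n).M.rot^[κ]
      ((regAt c₀ H w n).M.inv ((regAt c₀ H w n).M.bd (-1))) with hx
    have hxD : x ∈ (regAt c₀ H w n).M.D := hG.iter_mem ho κ
    have hxne : x ≠ (regAt c₀ H w n).M.bd 0 := by
      intro hx0
      have h3 : (regAt c₀ H w n).M.rot^[κ + 1]
          ((regAt c₀ H w n).M.inv ((regAt c₀ H w n).M.bd (-1))) =
          (regAt c₀ H w n).M.inv ((regAt c₀ H w n).M.bd (-1)) := by
        rw [Function.iterate_succ_apply', ← hx, hx0, hrot0]
      have h4 : Function.minimalPeriod (regAt c₀ H w n).M.rot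
          ((regAt c₀ H w n).M.inv ((regAt c₀ H w n).M.bd (-1))) ≤ κ + 1 :=
        Function.IsPeriodicPt.minimalPeriod_le (Nat.succ_pos κ) h3
      have h5 : (regAt c₀ H w n).deg
          ((regAt c₀ H w n).M.inv ((regAt c₀ H w n).M.bd (-1))) ≤ κ + 1 := h4
      rw [hdeg] at h5
      omega
    have hin : (regAt c₀ H w n).M.Inner ((regAt c₀ H w n).M.inv x) := by
      rcases hG.inner_or_outer (hG.inv_mem _ hxD) with h3 | ⟨j, h3⟩
      · exact h3
      · exfalso
        have h4 : x = (regAt c₀ H w n).M.bd j := by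
          rw [← hG.inv_inv x hxD, h3, hG.inv_inv _ (hG.bd_mem j)]
        have h5 : (regAt c₀ H w n).M.SameV ((regAt c₀ H w n).M.bd 0)
            ((regAt c₀ H w n).M.bd j) := by
          rw [← h4]
          exact hG.sameV_trans h2 ⟨κ, rfl⟩
        have h6 := hG.simple 0 j h5
        exact hxne (by rw [h4, ← h6])
    change H.M.fc (H.M.inv x) =
      (regAt c₀ H w n).M.fc ((regAt c₀ H w n).M.inv x)
    rw [S.fc_eq _ hin, S.inv_eq]

end HPT

end Pool.Agent.Spd
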