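import Pool.Agent.Spd.Basic

/-!
# SPD A02: vertices, degrees and rotation

`H.deg d = Function.minimalPeriod rot d`.  All darts of `D` are periodic under `rot` (`rot_fin`).

* `deg_pos`: `Function.minimalPeriod_pos_of_mem_periodicPts`.
* `iter_deg`: `Function.iterate_minimalPeriod`.
* `sameV_iff_lt`: `rot^[n] d` depends only on `n` modulo the minimal period
  (`Function.iterate_mod_minimalPeriod_eq`).
* `deg_sameV`: the minimal period is the same along an orbit
  (`Function.minimalPeriod_apply_iterate`).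
* `ncard_cls`: `κ ↦ rot^[κ] d` is injective on `κ < deg d`
  (`Function.iterate_injOn_Iio_minimalPeriod`) with image `{e | SameV d e}`.
* `rotation_between`: `z` is reached from `x` by rotating, `z ≠ x`... : if the status with respect
  to `G` changes only when crossing darts of boundary edges of `G`, and the orbit of `x` meets the
  boundary darts of `G` only at `u` and `v` with `u ≠ v`, then the dart following `u` has the same
  status as `v`:  write `v = rot^[m] u`, `0 < m` minimal; all darts `rot^[j] u`, `0 < j < m`, are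
  different from `u` and `v` (minimality; if `rot^[j] u = u` then `rot^[m-j] u = v` contradicts
  minimality), so the status is constant from `rot u` to `v` by `status_rot`.
* `rotation_single`: `rot u ∈ G ↔ inv u ∈ G` (`status_rot`); the status is constant from `rot u`
  to `rot^[deg u] u = u`, since the darts `rot^[j] u`, `0 < j < deg u`, are different from `u`.
-/

namespace Pool.Agent.Spd

namespace HPT

variable (H : HPT)

theorem deg_pos {d : ℕ} (hd : d ∈ H.M.D) : 0 < H.deg d := by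
  obtain ⟨n, hn, h⟩ := H.ok.rot_fin d hd
  exact Function.minimalPeriod_pos_of_mem_periodicPts ⟨n, hn, h⟩

theorem iter_deg (d : ℕ) : H.M.rot^[H.deg d] d = d :=
  Function.iterate_minimalPeriod

theorem sameV_iff_lt {d e : ℕ} (hd : d ∈ H.M.D) :
    H.M.SameV d e ↔ ∃ κ < H.deg d, H.M.rot^[κ] d = e := by
  constructor
  · rintro ⟨n, rfl⟩
    exact ⟨n % H.deg d, Nat.mod_lt _ (H.deg_pos hd),
      Function.iterate_mod_minimalPeriod_eq⟩
  · rintro ⟨κ, -, rfl⟩
    exact ⟨κ, rfl⟩

theorem iter_injOn {d : ℕ} : Set.InjOn (fun κ => H.M.rot^[κ] d) (Set.Iio (H.deg d)) :=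
  Function.iterate_injOn_Iio_minimalPeriod

theorem deg_sameV {d e : ℕ} (hd : d ∈ H.M.D) (h : H.M.SameV d e) : H.deg e = H.deg d := by
  obtain ⟨n, rfl⟩ := h
  obtain ⟨m, hm, h⟩ := H.ok.rot_fin d hd
  exact Function.minimalPeriod_apply_iterate ⟨m, hm, h⟩ n

private theorem cls_eq {d : ℕ} (hd : d ∈ H.M.D) :
    {e | H.M.SameV d e} = (fun κ => H.M.rot^[κ] d) '' Set.Iio (H.deg d) := by
  ext e
  rw [Set.mem_setOf_eq, H.sameV_iff_lt hd]
  constructor
  · rintro ⟨κ, h1, h2⟩
    exact ⟨κ, h1, h2⟩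
  · rintro ⟨κ, h1, h2⟩
    exact ⟨κ, h1, h2⟩

theorem cls_finite {d : ℕ} (hd : d ∈ H.M.D) : {e | H.M.SameV d e}.Finite := by
  rw [cls_eq H hd]
  exact (Set.finite_Iio _).image _

theorem ncard_cls {d : ℕ} (hd : d ∈ H.M.D) : Set.ncard {e | H.M.SameV d e} = H.deg d := by
  rw [cls_eq H hd, Set.ncard_image_of_injOn H.iter_injOn]
  rw [← Finset.coe_Iio, Set.ncard_coe_finset, Nat.card_Iio]

theorem deg_eq_card {d : ℕ} (hd : d ∈ H.M.D) :
    H.deg d = ((Finset.range (H.deg d)).image (fun κ => H.M.rot^[κ] d)).card := by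
  rw [Finset.card_image_of_injOn, Finset.card_range]
  intro a ha b hb hab
  rw [Finset.mem_coe, Finset.mem_range] at ha hb
  exact H.iter_injOn ha hb hab

/-- Rotation along darts which are not on boundary edges keeps the status. -/
private theorem status_steps {G : Set ℕ} (h1 : ∀ d ∈ G, H.M.Inner d ∧ H.M.fc d ∈ G) {u : ℕ}
    (hu : u ∈ H.M.D) (m : ℕ)
    (hno : ∀ j, 0 < j → j < m + 1 → (H.M.rot^[j] u ∈ G ↔ H.M.inv (H.M.rot^[j] u) ∈ G)) :
    H.M.rot u ∈ G ↔ H.M.rot^[m + 1] u ∈ G := by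
  induction m with
  | zero => exact Iff.rfl
  | succ m ih =>
    rw [ih fun j h2 h3 => hno j h2 (by omega), hno (m + 1) (by omega) (by omega)]
    rw [Function.iterate_succ_apply' _ (m + 1)]
    exact (H.ok.status_rot h1 (H.ok.iter_mem hu (m + 1))).symm

/-- `u ≠ v` are the only darts at their vertex that lie on boundary edges of `G`: then `rot u` and
`v` have the same status. -/
theorem rotation_between {G : Set ℕ} (h1 : ∀ d ∈ G, H.M.Inner d ∧ H.M.fc d ∈ G) {u v : ℕ}
    (hu : u ∈ H.M.D) (huv : H.M.SameV u v) (hne : u ≠ v)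
    (hno : ∀ z, H.M.SameV u z → z ≠ u → z ≠ v → (z ∈ G ↔ H.M.inv z ∈ G)) :
    H.M.rot u ∈ G ↔ v ∈ G := by
  obtain ⟨κ, hκ, rfl⟩ := (H.sameV_iff_lt hu).1 huv
  have hκ0 : κ ≠ 0 := by
    rintro rfl
    exact hne rfl
  obtain ⟨m, rfl⟩ := Nat.exists_eq_succ_of_ne_zero hκ0
  refine H.status_steps h1 hu m fun j hj1 hj2 => hno _ ⟨j, rfl⟩ ?_ ?_
  · intro h2
    have h3 := H.iter_injOn (Set.mem_Iio.2 (by omega : j < H.deg u))
      (Set.mem_Iio.2 (by omega : 0 < H.deg u)) h2
    omega
  · intro h2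
    have h3 := H.iter_injOn (Set.mem_Iio.2 (by omega : j < H.deg u)) (Set.mem_Iio.2 hκ) h2
    omega

/-- A single dart `u` at a vertex cannot be the only one on a boundary edge of `G`. -/
theorem rotation_single {G : Set ℕ} (h1 : ∀ d ∈ G, H.M.Inner d ∧ H.M.fc d ∈ G) {u : ℕ}
    (hu : u ∈ H.M.D)
    (hno : ∀ z, H.M.SameV u z → z ≠ u → (z ∈ G ↔ H.M.inv z ∈ G)) :
    H.M.inv u ∈ G ↔ u ∈ G := by
  rw [← H.ok.status_rot h1 hu]
  have h0 := H.deg_pos hu
  obtain ⟨m, hm⟩ := Nat.exists_eq_succ_of_ne_zero h0.ne'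
  have h2 := H.status_steps h1 hu m fun j hj1 hj2 => hno _ ⟨j, rfl⟩ (by
    intro h2
    have h3 := H.iter_injOn (Set.mem_Iio.2 (by omega : j < H.deg u))
      (Set.mem_Iio.2 (by omega : 0 < H.deg u)) h2
    omega)
  rw [h2]
  have h3 := H.iter_deg u
  rw [hm] at h3
  rw [h3]

end HPT

end Pool.Agent.Spd
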