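import Pool.Agent.Spd.Star

/-!
(Part `PathReg1`: `IsPath`, `walk_eq`, `walkFrom_add`, `walk_isPath`, `walkK_isPath`, `walk_eq_walkK`, `reg_zero`, `reg_succ_pio`, `reg_succ_not`, `pidx_spec`, `regAt_bd`, `pidx_unique`, `reg_sub`, `reg_mono`, `cmdP_init`.  The text below is the common header of the parts.)

# SPD A19: exploration along a path

`w` is a path of darts (`IsPath`): the position at time `n` is the origin of `w n`, and
`inv (w (n+1))` is the dart taken at time `n`.  `w 0` is an outer dart.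

* `reg_succ_pio`: definition of `cmdP`, `exec_append`, `exec_star`.
* `not_inner_and_blw` (induction on `n`): `w n` is not inner in `reg n`; and `w m` is strictly below
  `reg n` for `m < n`.  `n = 0`: `w 0 = inv (bd (-1))` is not inner in `H`.  Step: at a pioneer time
  the star of the position is explored, so `w n` is strictly below `reg (n+1)` (`star_blw` in
  `reg n`; transfer to `H`: all darts `e ~ w n` in `H` that are in `reg n` are `~` in `reg n`).
  Otherwise `w n` is not on the line, not above (`w n` not inner), so it is strictly below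
  (`trich`).  Older positions: `blw_mono`.  `inv (w (n+1)) ~ w n` is strictly below, so `w (n+1)` is
  not inner in `reg (n+1)` (`adj_not_cross` with `inv (inv ..)`).
* `reg_line_nbr`: induction with `star_line`; vertices of the line of `reg n` are vertices of `H`.
-/

namespace Pool.Agent.Spd

namespace HPT

/-- Paths of darts starting at the root vertex with the dart `inv (bd (-1))`. -/
structure IsPath (H : HPT) (w : ℕ → ℕ) : Prop where
  start : w 0 = H.M.inv (H.M.bd (-1))
  mem : ∀ n, w n ∈ H.M.D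
  step : ∀ n, H.M.SameV (w n) (H.M.inv (w (n + 1)))

theorem walk_eq (H : HPT) (U : ℕ → unitInterval) (n : ℕ) :
    H.walk U n = H.walkFrom (H.M.inv (H.M.bd (-1))) U n := by
  induction n with
  | zero => rfl
  | succ n ih => rw [walk, walkFrom, ih]

theorem walkFrom_add (H : HPT) (e : ℕ) (U : ℕ → unitInterval) (m n : ℕ) :
    H.walkFrom e U (m + n) = H.walkFrom (H.walkFrom e U m) (fun j => U (m + j)) n := by
  induction n with
  | zero => rfl
  | succ n ih =>
    have h1 : H.walkFrom e U (m + (n + 1)) = H.M.inv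
        (H.M.rot^[⌊(U (m + n) : ℝ) * H.deg (H.walkFrom e U (m + n))⌋₊]
          (H.walkFrom e U (m + n))) := rfl
    rw [h1, ih]
    rfl

private theorem walkFrom_mem (H : HPT) {e : ℕ} (he : e ∈ H.M.D) (U : ℕ → unitInterval) (n : ℕ) :
    H.walkFrom e U n ∈ H.M.D := by
  induction n with
  | zero => exact he
  | succ n ih => exact H.ok.inv_mem _ (H.ok.iter_mem ih _)

private theorem walkFrom_step (H : HPT) {e : ℕ} (he : e ∈ H.M.D) (U : ℕ → unitInterval) (n : ℕ) :
    H.M.SameV (H.walkFrom e U n) (H.M.inv (H.walkFrom e U (n + 1))) := by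
  have h1 : H.M.inv (H.walkFrom e U (n + 1)) =
      H.M.rot^[⌊(U n : ℝ) * H.deg (H.walkFrom e U n)⌋₊] (H.walkFrom e U n) :=
    H.ok.inv_inv _ (H.ok.iter_mem (walkFrom_mem H he U n) _)
  rw [h1]
  exact ⟨_, rfl⟩

private theorem start_mem (H : HPT) : H.M.inv (H.M.bd (-1)) ∈ H.M.D :=
  H.ok.inv_mem _ (H.ok.bd_mem _)

theorem walk_isPath (H : HPT) (U : ℕ → unitInterval) : IsPath H (H.walk U) := by
  refine ⟨rfl, fun n => ?_, fun n => ?_⟩
  · rw [walk_eq]
    exact walkFrom_mem H (start_mem H) U n
  · rw [walk_eq, walk_eq]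
    exact walkFrom_step H (start_mem H) U n

theorem walkK_isPath (H : HPT) (κ : ℕ) (U : ℕ → unitInterval) : IsPath H (H.walkK κ U) := by
  have h0 : H.M.rot^[κ] (H.M.inv (H.M.bd (-1))) ∈ H.M.D := H.ok.iter_mem (start_mem H) κ
  have h1 := H.ok.inv_mem _ h0
  refine ⟨rfl, fun n => ?_, fun n => ?_⟩
  · cases n with
    | zero => exact start_mem H
    | succ n => exact walkFrom_mem H h1 U n
  · cases n with
    | zero =>
      have h2 : H.M.inv (H.walkK κ U (0 + 1)) = H.M.rot^[κ] (H.M.inv (H.M.bd (-1))) :=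
        H.ok.inv_inv _ h0
      rw [h2]
      exact ⟨κ, rfl⟩
    | succ n => exact walkFrom_step H h1 U n

/-- The walk is `walkK` with the first choice `kap H U 0`. -/
theorem walk_eq_walkK (H : HPT) (U : ℕ → unitInterval) (n : ℕ) :
    H.walk U n = H.walkK (H.kap U 0) (fun j => U (j + 1)) n := by
  cases n with
  | zero => rfl
  | succ n =>
    rw [walk_eq, add_comm n 1, walkFrom_add, add_comm 1 n]
    have h1 : (fun j => U (1 + j)) = fun j => U (j + 1) := by
      funext j
      rw [add_comm]
    rw [h1]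
    rfl

variable {H : HPT} {w : ℕ → ℕ} {c₀ : List ℤ}

theorem reg_zero : reg c₀ H w 0 = H.exec c₀ := rfl

theorem reg_succ_pio {n : ℕ} (h : Pio c₀ H w n) :
    reg c₀ H w (n + 1) = (regAt c₀ H w n).star := by
  have h1 : cmdP c₀ H w (n + 1) = cmdP c₀ H w n ++
      (h.choose :: List.replicate (((H.exec (cmdP c₀ H w n)).shift h.choose).stopT) 0) := by
    rw [cmdP]
    exact dif_pos h
  have h2 : pidx c₀ H w n = h.choose := dif_pos h
  rw [reg, h1, exec_append, exec_star, regAt, h2]
  rfl

theorem reg_succ_not {n : ℕ} (h : ¬ Pio c₀ H w n) : reg c₀ H w (n + 1) = reg c₀ H w n := by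
  have h1 : cmdP c₀ H w (n + 1) = cmdP c₀ H w n := by
    rw [cmdP]
    exact dif_neg h
  rw [reg, h1]
  rfl

theorem pidx_spec {n : ℕ} (h : Pio c₀ H w n) :
    H.M.SameV ((reg c₀ H w n).M.bd (pidx c₀ H w n)) (w n) := by
  have h2 : pidx c₀ H w n = h.choose := dif_pos h
  rw [h2]
  exact h.choose_spec

theorem regAt_bd {n : ℕ} (h : Pio c₀ H w n) : H.M.SameV ((regAt c₀ H w n).M.bd 0) (w n) := by
  rw [regAt, shift_bd, zero_add]
  exact pidx_spec h

private theorem reg_sub_aux (n : ℕ) : Sub (reg c₀ H w n) H := exec_sub H _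

theorem pidx_unique {n : ℕ} {i : ℤ} (h : H.M.SameV ((reg c₀ H w n).M.bd i) (w n)) :
    pidx c₀ H w n = i :=
  on_unique (reg_sub_aux n) (pidx_spec ⟨i, h⟩) h

theorem reg_sub (n : ℕ) : Sub (reg c₀ H w n) H := reg_sub_aux n

theorem reg_mono {m n : ℕ} (hmn : m ≤ n) : Sub (reg c₀ H w n) (reg c₀ H w m) := by
  induction n, hmn using Nat.le_induction with
  | base => exact Sub.refl _
  | succ n _ ih =>
    by_cases h : Pio c₀ H w n
    · rw [reg_succ_pio h]
      refine (star_sub _).trans (Sub.trans ?_ ih)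
      exact (Sub.refl (reg c₀ H w n)).shift _
    · rw [reg_succ_not h]
      exact ih

/-- The initial exploration only matters through its result. -/
theorem cmdP_init (c₀ : List ℤ) (H : HPT) (w : ℕ → ℕ) (n : ℕ) :
    ∃ c, cmdP c₀ H w n = c₀ ++ c := by
  induction n with
  | zero => exact ⟨[], (List.append_nil c₀).symm⟩
  | succ n ih =>
    obtain ⟨c, hc⟩ := ih
    by_cases h : ∃ i, H.M.SameV ((H.exec (cmdP c₀ H w n)).M.bd i) (w n)
    · refine ⟨c ++ (h.choose ::
        List.replicate (((H.exec (cmdP c₀ H w n)).shift h.choose).stopT) 0), ?_⟩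
      rw [cmdP, dif_pos h, ← List.append_assoc, ← hc]
    · refine ⟨c, ?_⟩
      rw [cmdP, dif_neg h, hc]

end HPT

end Pool.Agent.Spd
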