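import Pool.Agent.Spd.PeelEx

/-!
(Part `Peel1`: `ext_M`, `shift_zero`, `shift_shift`, `shift_bd`, `shift_inner`, `shift_sameV`,
`peel_spec`, `tri_pos`, `step_N`, `step_R`, `step_L`, `step_eq_N_iff`, `step_eq_R_iff`,
`step_eq_L_iff`.  The text below is the common header of the parts.)

# SPD A16: specification of `step` and `rem`

* `peel_spec`: `peel_exists` and the definition by choice.
* `step_N` ...: unfold `Peel`; `rem.M` is a `cut`, `Cutting.cut_inner` gives the inner darts.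
* `k` is positive in `R k τ`, `L k τ` because `Tri 0` is empty.
* `step_eq_iff` (three versions): `peel_unique`, with the `Peel` constructed from the data.
* `rem_sub`: `Sub.of_cutting`; finitely many inner darts are removed.
* `step_eqv`: equivalent maps have the same peeling (literally the same `rem.M` by `Eqv.cut`).
-/

namespace Pool.Agent.Spd

namespace HPT

theorem ext_M {H H' : HPT} (h : H.M = H'.M) : H = H' := by
  cases H; cases H'; simp only [HPT.mk.injEq]; exact h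

theorem shift_zero (H : HPT) : H.shift 0 = H := by
  apply ext_M
  change ({ H.M with bd := fun i => H.M.bd (i + 0) } : PreMap) = H.M
  simp only [add_zero]

theorem shift_shift (H : HPT) (i j : ℤ) : (H.shift i).shift j = H.shift (i + j) := by
  apply ext_M
  change ({ H.M with bd := fun x => H.M.bd (x + j + i) } : PreMap) =
    { H.M with bd := fun x => H.M.bd (x + (i + j)) }
  have h : ∀ x : ℤ, x + j + i = x + (i + j) := fun x => by ring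
  simp only [h]

theorem shift_bd (H : HPT) (i j : ℤ) : (H.shift i).M.bd j = H.M.bd (j + i) := rfl

theorem shift_inner (H : HPT) (i : ℤ) (d : ℕ) : (H.shift i).M.Inner d ↔ H.M.Inner d := by
  constructor
  · rintro ⟨h1, h2⟩
    refine ⟨h1, fun j hj => h2 (j - i) ?_⟩
    rw [hj]
    change H.M.inv (H.M.bd j) = H.M.inv (H.M.bd (j - i + i))
    rw [sub_add_cancel]
  · rintro ⟨h1, h2⟩
    exact ⟨h1, fun j hj => h2 (j + i) hj⟩

theorem shift_sameV (H : HPT) (i : ℤ) (d e : ℕ) :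
    (H.shift i).M.SameV d e ↔ H.M.SameV d e := Iff.rfl

theorem peel_spec (H : HPT) : H.M.Peel H.step H.rem.M := by
  unfold step rem peel
  rw [dif_pos (peel_exists H)]
  exact (peel_exists H).choose_spec

theorem tri_pos {k : ℕ} (τ : Tri k) : 0 < k := by
  cases τ <;> omega

theorem step_N (H : HPT) (hs : H.step = Step.N) :
    (∀ i, ¬ H.M.SameV (H.M.bd i) (H.M.fc (H.M.fc (H.M.bd 0)))) ∧
    (∀ d, H.rem.M.Inner d ↔ H.M.Inner d ∧ d ≠ H.M.bd 0 ∧ d ≠ H.M.fc (H.M.bd 0) ∧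
      d ≠ H.M.fc (H.M.fc (H.M.bd 0))) ∧
    H.rem.M.bd = lineN H.M := by
  have h := H.peel_spec
  rw [hs] at h
  obtain ⟨hw, hM⟩ : (∀ i, ¬ H.M.SameV (H.M.bd i) (H.M.fc (H.M.fc (H.M.bd 0)))) ∧
    H.rem.M = H.M.cut {d | H.M.Inner d ∧ d ≠ H.M.bd 0 ∧ d ≠ H.M.fc (H.M.bd 0) ∧
      d ≠ H.M.fc (H.M.fc (H.M.bd 0))} (lineN H.M) := h
  refine ⟨hw, fun d => ?_, ?_⟩
  · rw [hM, Cutting.cut_inner H.ok (cutting_N H.ok hw)]
    rfl
  · rw [hM]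
    rfl

theorem step_R (H : HPT) {k : ℕ} {τ : Tri k} (hs : H.step = Step.R k τ) :
    H.M.SameV (H.M.bd (k + 1)) (H.M.fc (H.M.fc (H.M.bd 0))) ∧
    ∃ F : Finset ℕ, H.M.Fill τ (holeR H.M k) F ∧ Bounds H.M (holeR H.M k) F ∧
    (∀ d, H.rem.M.Inner d ↔ H.M.Inner d ∧ d ≠ H.M.bd 0 ∧ d ≠ H.M.fc (H.M.bd 0) ∧
      d ≠ H.M.fc (H.M.fc (H.M.bd 0)) ∧ d ∉ F) ∧
    H.rem.M.bd = lineR H.M k := by
  have h := H.peel_spec
  rw [hs] at h
  obtain ⟨hw, F, hF, hM⟩ : H.M.SameV (H.M.bd (k + 1)) (H.M.fc (H.M.fc (H.M.bd 0))) ∧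
    ∃ F : Finset ℕ, H.M.Fill τ (holeR H.M k) F ∧
    H.rem.M = H.M.cut {d | H.M.Inner d ∧ d ≠ H.M.bd 0 ∧ d ≠ H.M.fc (H.M.bd 0) ∧
      d ≠ H.M.fc (H.M.fc (H.M.bd 0)) ∧ d ∉ F} (lineR H.M k) := h
  have hk := tri_pos τ
  have hB : Bounds H.M (holeR H.M k) F := fill_bounds H.ok (holeR_poly H.ok hk hw) hF
  refine ⟨hw, F, hF, hB, fun d => ?_, ?_⟩
  · rw [hM, Cutting.cut_inner H.ok (cutting_R H.ok hk hw hB)]
    rfl
  · rw [hM]
    rfl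

theorem step_L (H : HPT) {k : ℕ} {τ : Tri k} (hs : H.step = Step.L k τ) :
    H.M.SameV (H.M.bd (-k)) (H.M.fc (H.M.fc (H.M.bd 0))) ∧
    ∃ F : Finset ℕ, H.M.Fill τ (holeL H.M k) F ∧ Bounds H.M (holeL H.M k) F ∧
    (∀ d, H.rem.M.Inner d ↔ H.M.Inner d ∧ d ≠ H.M.bd 0 ∧ d ≠ H.M.fc (H.M.bd 0) ∧
      d ≠ H.M.fc (H.M.fc (H.M.bd 0)) ∧ d ∉ F) ∧
    H.rem.M.bd = lineL H.M k := by
  have h := H.peel_spec
  rw [hs] at h
  obtain ⟨hw, F, hF, hM⟩ : H.M.SameV (H.M.bd (-k)) (H.M.fc (H.M.fc (H.M.bd 0))) ∧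
    ∃ F : Finset ℕ, H.M.Fill τ (holeL H.M k) F ∧
    H.rem.M = H.M.cut {d | H.M.Inner d ∧ d ≠ H.M.bd 0 ∧ d ≠ H.M.fc (H.M.bd 0) ∧
      d ≠ H.M.fc (H.M.fc (H.M.bd 0)) ∧ d ∉ F} (lineL H.M k) := h
  have hk := tri_pos τ
  have hB : Bounds H.M (holeL H.M k) F := fill_bounds H.ok (holeL_poly H.ok hk hw) hF
  refine ⟨hw, F, hF, hB, fun d => ?_, ?_⟩
  · rw [hM, Cutting.cut_inner H.ok (cutting_L H.ok hk hw hB)]
    rfl
  · rw [hM]
    rfl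

theorem step_eq_N_iff (H : HPT) :
    H.step = Step.N ↔ ∀ i, ¬ H.M.SameV (H.M.bd i) (H.M.fc (H.M.fc (H.M.bd 0))) := by
  refine ⟨fun hs => (H.step_N hs).1, fun hw => ?_⟩
  have h : H.M.Peel Step.N (H.M.cut {d | H.M.Inner d ∧ d ≠ H.M.bd 0 ∧ d ≠ H.M.fc (H.M.bd 0) ∧
      d ≠ H.M.fc (H.M.fc (H.M.bd 0))} (lineN H.M)) := ⟨hw, rfl⟩
  exact (peel_unique H.ok H.peel_spec h).1

theorem step_eq_R_iff (H : HPT) {k : ℕ} (τ : Tri k) : H.step = Step.R k τ ↔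
    H.M.SameV (H.M.bd (k + 1)) (H.M.fc (H.M.fc (H.M.bd 0))) ∧
      ∃ F, H.M.Fill τ (holeR H.M k) F := by
  constructor
  · intro hs
    obtain ⟨hw, F, hF, -⟩ := H.step_R hs
    exact ⟨hw, F, hF⟩
  · rintro ⟨hw, F, hF⟩
    have h : H.M.Peel (Step.R k τ) (H.M.cut {d | H.M.Inner d ∧ d ≠ H.M.bd 0 ∧
        d ≠ H.M.fc (H.M.bd 0) ∧ d ≠ H.M.fc (H.M.fc (H.M.bd 0)) ∧ d ∉ F} (lineR H.M k)) :=
      ⟨hw, F, hF, rfl⟩
    exact (peel_unique H.ok H.peel_spec h).1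

theorem step_eq_L_iff (H : HPT) {k : ℕ} (τ : Tri k) : H.step = Step.L k τ ↔
    H.M.SameV (H.M.bd (-k)) (H.M.fc (H.M.fc (H.M.bd 0))) ∧
      ∃ F, H.M.Fill τ (holeL H.M k) F := by
  constructor
  · intro hs
    obtain ⟨hw, F, hF, -⟩ := H.step_L hs
    exact ⟨hw, F, hF⟩
  · rintro ⟨hw, F, hF⟩
    have h : H.M.Peel (Step.L k τ) (H.M.cut {d | H.M.Inner d ∧ d ≠ H.M.bd 0 ∧
        d ≠ H.M.fc (H.M.bd 0) ∧ d ≠ H.M.fc (H.M.fc (H.M.bd 0)) ∧ d ∉ F} (lineL H.M k)) :=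
      ⟨hw, F, hF, rfl⟩
    exact (peel_unique H.ok H.peel_spec h).1

end HPT

end Pool.Agent.Spd
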