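import Pool.Agent.Spd.PeelEx1

/-!
(Part `PeelEx2`: `cutting_R`.  The text below is the common header of the parts.)

# SPD A15: every half-planar triangulation can be peeled

`r = bd 0`, `a = fc r`, `b = fc a`.
* `third_cases`: if `SameV (bd i) b` then `i ≠ 0, 1` (`face_ne`: `bd 0 = r`; `a` has the origin of
  `bd 1`, by `tgt` and `bd_next`), so `i = k + 1` or `i = -k` with `k ≥ 1`.
* `peel_R`: chord `g = inv a` from `v_{k+1}` to `v_1` (`Chord.lean`, `p = 1`): `F`, the code from
  `fill_exists` (`chord_poly`, `chord_bounds`; the list `chordList M 1 k (inv a)` is the one of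
  `Peel` up to `1 + j = j + 1`).  `chord_cutting` gives the cut `M₁` with line `..., bd 0, a,
  bd (k+1), ...`; its root triangle is an ear (`M₁.fc (bd 0) = a = M₁.bd 1`), `cutting_ear`, and
  `Cutting.trans`, `cut_cut` give the region of `Peel`.
* `peel_L`: chord `g = inv b` from `v_0` to `v_{-k}`, `p = -k`: in `M₁.shift (1 - k)` the root is
  `r` and `bd (-1) = b`: `cutting_ear'`.
* `peel_exists`: the three cases; in each case the result is an HPT by `Cutting.isHPT`.
-/

namespace Pool.Agent.Spd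

variable {M : PreMap}

private theorem holeR_eq (M : PreMap) (k : ℕ) :
    holeR M k = chordList M 1 k (M.inv (M.fc (M.bd 0))) := by
  unfold holeR chordList
  congr 1
  refine List.map_congr_left fun j _ => ?_
  rw [add_comm]

theorem cutting_R (h : M.IsHPT) {k : ℕ} (hk : 0 < k)
    (hw : M.SameV (M.bd (k + 1)) (M.fc (M.fc (M.bd 0)))) {F : Finset ℕ}
    (B : Bounds M (holeR M k) F) :
    Cutting M {d | M.Inner d ∧ d ≠ M.bd 0 ∧ d ≠ M.fc (M.bd 0) ∧ d ≠ M.fc (M.fc (M.bd 0)) ∧ d ∉ F}
      (lineR M k) := by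
  set r := M.bd 0 with hr
  set a := M.fc r with ha
  set b := M.fc a with hb
  have hrD : r ∈ M.D := h.bd_mem 0
  have haD : a ∈ M.D := h.fc_mem hrD
  have hiaD : M.inv a ∈ M.D := h.inv_mem a haD
  have hirD : M.inv r ∈ M.D := h.inv_mem r hrD
  have hiia : M.inv (M.inv a) = a := h.inv_inv a haD
  have h1 : M.SameV (M.bd (1 + k)) (M.inv a) := by
    rw [add_comm]
    exact h.sameV_trans hw (h.sameV_symm hiaD (h.tgt haD))
  have h2 : M.SameV (M.bd 1) (M.inv (M.inv a)) := by
    rw [hiia]
    have h3 : M.SameV (M.inv r) (M.bd 1) := by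
      have h4 := h.bd_next 0
      rwa [zero_add] at h4
    exact h.sameV_trans (h.sameV_symm hirD h3) (h.tgt hrD)
  rw [holeR_eq] at B
  have C1 := chord_cutting h hk h1 h2 hiaD B
  have H1 := C1.isHPT h
  set R1 : Set ℕ := {d | M.Inner d ∧ d ∉ F} with hR1
  set L1 := chordLine M 1 k (M.inv a) with hL1
  have l0 : L1 0 = r := by
    rw [hL1]
    unfold chordLine
    rw [if_pos (by norm_num)]
  have l1 : L1 1 = a := by
    rw [hL1]
    unfold chordLine
    rw [if_neg (lt_irrefl _), if_pos rfl, hiia]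
  have b0 : (M.cut R1 L1).bd 0 = r := l0
  have b1 : (M.cut R1 L1).bd 1 = a := l1
  have rR : r ∈ R1 := l0 ▸ C1.line_mem 0
  have aR : a ∈ R1 := l1 ▸ C1.line_mem 1
  have f0 : (M.cut R1 L1).fc r = a := C1.cut_fc rR
  have f1 : (M.cut R1 L1).fc a = b := C1.cut_fc aR
  have C2 := cutting_ear H1 (by rw [b0, b1, f0])
  have C3 := C1.trans h C2
  rw [b0, f0, f1] at C3
  have e1 : {d | (M.cut R1 L1).Inner d ∧ d ≠ r ∧ d ≠ a ∧ d ≠ b} =
      {d | M.Inner d ∧ d ≠ r ∧ d ≠ a ∧ d ≠ b ∧ d ∉ F} := by
    ext d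
    simp only [Set.mem_ofPred_eq]
    rw [C1.cut_inner h]
    simp only [hR1, Set.mem_ofPred_eq]
    tauto
  have e2 : (fun i : ℤ => if i < 0 then (M.cut R1 L1).bd i else if i = 0 then
      (M.cut R1 L1).inv b else (M.cut R1 L1).bd (i + 1)) = lineR M k := by
    funext i
    unfold lineR
    rcases lt_trichotomy i 0 with hi | hi | hi
    · rw [if_pos hi, if_pos hi]
      change L1 i = M.bd i
      rw [hL1]
      unfold chordLine
      rw [if_pos (by omega)]
    · subst hi
      rw [if_neg (lt_irrefl _), if_pos rfl, if_neg (lt_irrefl _), if_pos rfl]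
      rfl
    · rw [if_neg (not_lt.2 hi.le), if_neg hi.ne', if_neg (not_lt.2 hi.le), if_neg hi.ne']
      change L1 (i + 1) = M.bd (i + k)
      rw [hL1]
      unfold chordLine
      rw [if_neg (by omega), if_neg (by omega)]
      congr 1
      ring
  rw [e1, e2] at C3
  exact C3

end Pool.Agent.Spd
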