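import Pool.Agent.Spd.PeelEx1

/-!
(Part `PeelEx3`: `cutting_L`.  The text below is the common header of the parts.)

# SPD A15: every half-planar triangulation can be peeled

`r = bd 0`, `a = fc r`, `b = fc a`.
* `third_cases`: if `SameV (bd i) b` then `i ≠ 0, 1` (`face_ne`: `bd 0 = r`; `a` has the origin of
  `bd 1`, by `tgt` and `bd_next`), so `i = k + 1` or `i = -k` with `k ≥ 1`.
* `peel_R`: chord `g = inv a` from `v_{k+1}` to `v_1` (`Chord.lean`, `p = 1`): `F`, the code from
  `fill_exists` (`chord_poly`, `chord_bounds`; the list `chordList M 1 k (inv a)` is the one of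
  `Peel` up to `1 + j = j + 1`).  `chord_cutting` gives the cut `M₁` with line `..., bd 0, a,
  bd (k+1), ...`; its root triangle is an ear (`M₁.fc (bd 0) = a = M₁.bd 1`), `cutting_ear`, and
  `Cutting.trans`, `cut_cut` give the region of `Peel`.
* `peel_L`: chord `g = inv b` from `v_0` to `v_{-k}`, `p = -k`: in `M₁.shift (1 - k)` the root is
  `r` and `bd (-1) = b`: `cutting_ear'`.
* `peel_exists`: the three cases; in each case the result is an HPT by `Cutting.isHPT`.
-/

namespace Pool.Agent.Spd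

variable {M : PreMap}

/-- The root is moved along the boundary: a region of the shifted map is a region of the map. -/
private theorem cutting_of_shift {M : PreMap} {m : ℤ} {R : Set ℕ} {L : ℤ → ℕ}
    (C : Cutting (M.shift m) R L) : Cutting M R L := by
  refine ⟨fun d hd => ⟨(C.sub d hd).1, fun i hi => (C.sub d hd).2 (i - m) ?_⟩, C.fc_mem,
    C.line_mem, C.line_out, C.only, C.path, C.simple⟩
  rw [hi]
  change M.inv (M.bd i) = M.inv (M.bd (i - m + m))
  rw [sub_add_cancel]

theorem cutting_L (h : M.IsHPT) {k : ℕ} (hk : 0 < k)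
    (hw : M.SameV (M.bd (-k)) (M.fc (M.fc (M.bd 0)))) {F : Finset ℕ}
    (B : Bounds M (holeL M k) F) :
    Cutting M {d | M.Inner d ∧ d ≠ M.bd 0 ∧ d ≠ M.fc (M.bd 0) ∧ d ≠ M.fc (M.fc (M.bd 0)) ∧ d ∉ F}
      (lineL M k) := by
  have hr := h.bd_inner 0
  have ha := h.fc_inner _ hr
  have hb := h.fc_inner _ ha
  have htri := h.fc_tri _ hr
  set r := M.bd 0 with hrd
  set a := M.fc r with had
  set b := M.fc a with hbd
  have hlist : holeL M k = chordList M (-k) k (M.inv b) := by
    unfold holeL chordList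
    congr 1
    refine List.map_congr_left fun j _ => ?_
    congr 1
    ring
  rw [hlist] at B
  have h1 : M.SameV (M.bd (-(k : ℤ) + k)) (M.inv b) := by
    rw [neg_add_cancel, ← hrd]
    have e := h.tgt hb.1
    rw [htri] at e
    exact h.sameV_symm (h.inv_mem _ hb.1) e
  have h2 : M.SameV (M.bd (-k)) (M.inv (M.inv b)) := by
    rw [h.inv_inv _ hb.1]
    exact hw
  have hg : M.inv b ∈ M.D := h.inv_mem _ hb.1
  have C1 := chord_cutting h hk h1 h2 hg B
  set R1 : Set ℕ := {d | M.Inner d ∧ d ∉ F} with hR1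
  set L1 := chordLine M (-k) k (M.inv b) with hL1
  have hM1 := C1.isHPT h
  have hL1gt : ∀ i : ℤ, -(k : ℤ) < i → L1 i = M.bd (i + k - 1) := by
    intro i hi
    rw [hL1]
    unfold chordLine
    rw [if_neg (by omega), if_neg (by omega)]
  have hL1lt : ∀ i : ℤ, i < -(k : ℤ) → L1 i = M.bd i := by
    intro i hi
    rw [hL1]
    unfold chordLine
    rw [if_pos hi]
  have hL1eq : L1 (-(k : ℤ)) = b := by
    rw [hL1]
    unfold chordLine
    rw [if_neg (by omega), if_pos rfl, h.inv_inv _ hb.1]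
  set M1 := M.cut R1 L1 with hM1d
  have hM2 := HPT.shift_ok (1 - (k : ℤ)) hM1
  have hbd : ∀ i : ℤ, (M1.shift (1 - (k : ℤ))).bd i = L1 (i + (1 - k)) := fun i => rfl
  have h0 : L1 (0 + (1 - (k : ℤ))) = r := by
    rw [hL1gt _ (by omega), hrd]
    congr 1
    ring
  have hrR : r ∈ R1 := by
    rw [← h0]
    exact C1.line_mem _
  have haR : a ∈ R1 := C1.fc_mem r hrR
  have hfr : M1.fc r = a := C1.cut_fc hrR
  have hfa : M1.fc a = b := C1.cut_fc haR
  have hear : (M1.shift (1 - (k : ℤ))).fc ((M1.shift (1 - (k : ℤ))).fc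
      ((M1.shift (1 - (k : ℤ))).bd 0)) = (M1.shift (1 - (k : ℤ))).bd (-1) := by
    rw [hbd, hbd, h0]
    change M1.fc (M1.fc r) = _
    rw [hfr, hfa, ← hL1eq]
    congr 1
    ring
  have C2 := cutting_of_shift (cutting_ear' hM2 hear)
  have C3 := C1.trans h C2
  have e0 : (M1.shift (1 - (k : ℤ))).bd 0 = r := h0
  have e1 : (M1.shift (1 - (k : ℤ))).fc ((M1.shift (1 - (k : ℤ))).bd 0) = a := by
    rw [e0]
    exact hfr
  have e2 : (M1.shift (1 - (k : ℤ))).fc ((M1.shift (1 - (k : ℤ))).fc
      ((M1.shift (1 - (k : ℤ))).bd 0)) = b := by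
    rw [e1]
    exact hfa
  have hIn : ∀ d, (M1.shift (1 - (k : ℤ))).Inner d ↔ M.Inner d ∧ d ∉ F := by
    intro d
    have e3 : (M1.shift (1 - (k : ℤ))).Inner d ↔ M1.Inner d := by
      constructor
      · rintro ⟨a1, a2⟩
        refine ⟨a1, fun i hi => a2 (i - (1 - k)) ?_⟩
        rw [hi]
        change M.inv (L1 i) = M.inv (L1 (i - (1 - k) + (1 - k)))
        rw [sub_add_cancel]
      · rintro ⟨a1, a2⟩
        exact ⟨a1, fun i hi => a2 (i + (1 - k)) hi⟩
    rw [e3, C1.cut_inner h]
    rfl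
  convert C3 using 1
  · ext d
    simp only [Set.mem_ofPred_eq]
    rw [hIn, e2, e1, e0]
    tauto
  · funext i
    unfold lineL
    rw [e1, hbd, hbd]
    by_cases hi : i < 0
    · rw [if_pos hi, if_pos hi, hL1lt _ (by omega)]
      congr 1
      ring
    · rw [if_neg hi, if_neg hi]
      by_cases hi0 : i = 0
      · rw [if_pos hi0, if_pos hi0]
        rfl
      · rw [if_neg hi0, if_neg hi0, hL1gt _ (by omega)]
        congr 1
        ring

end Pool.Agent.Spd
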