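import Pool.Agent.Spd.PeelEx2
import Pool.Agent.Spd.PeelEx3

/-!
(Part `PeelEx4`: `hole_disj`, `peel_exists`, `peel_unique`.  The text below is the common header of the parts.)

# SPD A15: every half-planar triangulation can be peeled

`r = bd 0`, `a = fc r`, `b = fc a`.
* `third_cases`: if `SameV (bd i) b` then `i ≠ 0, 1` (`face_ne`: `bd 0 = r`; `a` has the origin of
  `bd 1`, by `tgt` and `bd_next`), so `i = k + 1` or `i = -k` with `k ≥ 1`.
* `peel_R`: chord `g = inv a` from `v_{k+1}` to `v_1` (`Chord.lean`, `p = 1`): `F`, the code from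
  `fill_exists` (`chord_poly`, `chord_bounds`; the list `chordList M 1 k (inv a)` is the one of
  `Peel` up to `1 + j = j + 1`).  `chord_cutting` gives the cut `M₁` with line `..., bd 0, a,
  bd (k+1), ...`; its root triangle is an ear (`M₁.fc (bd 0) = a = M₁.bd 1`), `cutting_ear`, and
  `Cutting.trans`, `cut_cut` give the region of `Peel`.
* `peel_L`: chord `g = inv b` from `v_0` to `v_{-k}`, `p = -k`: in `M₁.shift (1 - k)` the root is
  `r` and `bd (-1) = b`: `cutting_ear'`.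
* `peel_exists`: the three cases; in each case the result is an HPT by `Cutting.isHPT`.
-/

namespace Pool.Agent.Spd

variable {M : PreMap}

private theorem holeR_eq (M : PreMap) (k : ℕ) :
    holeR M k = chordList M 1 k (M.inv (M.fc (M.bd 0))) := by
  unfold holeR chordList
  congr 1
  apply List.map_congr_left
  intro j _
  rw [add_comm]

private theorem holeL_eq (M : PreMap) (k : ℕ) :
    holeL M k = chordList M (-k) k (M.inv (M.fc (M.fc (M.bd 0)))) := by
  unfold holeL chordList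
  congr 1
  apply List.map_congr_left
  intro j _
  congr 1
  ring

private theorem R_ends (h : M.IsHPT) {k : ℕ}
    (hw : M.SameV (M.bd (k + 1)) (M.fc (M.fc (M.bd 0)))) :
    M.SameV (M.bd (1 + k)) (M.inv (M.fc (M.bd 0))) ∧
      M.SameV (M.bd 1) (M.inv (M.inv (M.fc (M.bd 0)))) ∧ M.inv (M.fc (M.bd 0)) ∈ M.D := by
  have hr : M.bd 0 ∈ M.D := h.bd_mem 0
  have ha : M.fc (M.bd 0) ∈ M.D := h.fc_mem hr
  have hia : M.inv (M.fc (M.bd 0)) ∈ M.D := h.inv_mem _ ha
  refine ⟨?_, ?_, hia⟩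
  · rw [add_comm]
    exact h.sameV_trans hw (h.sameV_symm hia (h.tgt ha))
  · rw [h.inv_inv _ ha]
    have h1 : M.SameV (M.inv (M.bd 0)) (M.bd 1) := by simpa using h.bd_next 0
    exact h.sameV_trans (h.sameV_symm (h.inv_mem _ hr) h1) (h.tgt hr)

private theorem L_ends (h : M.IsHPT) {k : ℕ}
    (hw : M.SameV (M.bd (-k)) (M.fc (M.fc (M.bd 0)))) :
    M.SameV (M.bd (-k + k)) (M.inv (M.fc (M.fc (M.bd 0)))) ∧
      M.SameV (M.bd (-k)) (M.inv (M.inv (M.fc (M.fc (M.bd 0))))) ∧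
      M.inv (M.fc (M.fc (M.bd 0))) ∈ M.D := by
  have hr : M.bd 0 ∈ M.D := h.bd_mem 0
  have hb : M.fc (M.fc (M.bd 0)) ∈ M.D := h.fc_mem (h.fc_mem hr)
  have hib : M.inv (M.fc (M.fc (M.bd 0))) ∈ M.D := h.inv_mem _ hb
  refine ⟨?_, ?_, hib⟩
  · rw [neg_add_cancel]
    have h1 := h.tgt hb
    rw [h.fc_tri _ (h.bd_inner 0)] at h1
    exact h.sameV_symm hib h1
  · rw [h.inv_inv _ hb]
    exact hw

/-- The darts of the root triangle are not in the hole. -/
theorem hole_disj (h : M.IsHPT) {k : ℕ} (hk : 0 < k) {F : Finset ℕ}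
    (hF : (M.SameV (M.bd (k + 1)) (M.fc (M.fc (M.bd 0))) ∧ Bounds M (holeR M k) F) ∨
      (M.SameV (M.bd (-k)) (M.fc (M.fc (M.bd 0))) ∧ Bounds M (holeL M k) F)) :
    M.bd 0 ∉ F ∧ M.fc (M.bd 0) ∉ F ∧ M.fc (M.fc (M.bd 0)) ∉ F := by
  have hr : M.bd 0 ∈ M.D := h.bd_mem 0
  have ha : M.fc (M.bd 0) ∈ M.D := h.fc_mem hr
  have hb : M.fc (M.fc (M.bd 0)) ∈ M.D := h.fc_mem ha
  have hcl : ∀ d ∈ (F : Set ℕ), M.Inner d ∧ M.fc d ∈ (F : Set ℕ) := by
    rcases hF with ⟨_, B⟩ | ⟨_, B⟩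
    · exact fun d hd => ⟨(B.1 d (Finset.mem_coe.1 hd)).1, Finset.mem_coe.2 (B.1 d
        (Finset.mem_coe.1 hd)).2⟩
    · exact fun d hd => ⟨(B.1 d (Finset.mem_coe.1 hd)).1, Finset.mem_coe.2 (B.1 d
        (Finset.mem_coe.1 hd)).2⟩
  have i1 : M.fc (M.bd 0) ∈ F ↔ M.bd 0 ∈ F := by
    simpa using h.fc_mem_iff hcl hr
  have i2 : M.fc (M.fc (M.bd 0)) ∈ F ↔ M.fc (M.bd 0) ∈ F := by
    simpa using h.fc_mem_iff hcl ha
  rcases hF with ⟨hw, B⟩ | ⟨hw, B⟩
  · obtain ⟨h1, h2, h3⟩ := R_ends h hw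
    rw [holeR_eq] at B
    have := (chord_g h hk h1 h2 h3 B).1
    rw [h.inv_inv _ ha] at this
    exact ⟨fun q => this (i1.2 q), this, fun q => this (i2.1 q)⟩
  · obtain ⟨h1, h2, h3⟩ := L_ends h hw
    rw [holeL_eq] at B
    have := (chord_g h hk h1 h2 h3 B).1
    rw [h.inv_inv _ hb] at this
    exact ⟨fun q => this (i2.2 (i1.2 q)), fun q => this (i2.2 q), this⟩

theorem peel_exists (H : HPT) : ∃ p : Step × HPT, H.M.Peel p.1 p.2.M := by
  have h := H.ok
  rcases third_cases h with hw | ⟨k, hk, hw⟩ | ⟨k, hk, hw⟩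
  · exact ⟨(Step.N, ⟨_, (cutting_N h hw).isHPT h⟩), hw, rfl⟩
  · obtain ⟨h1, h2, h3⟩ := R_ends h hw
    obtain ⟨F, B⟩ := chord_bounds h hk h1 h2 h3
    rw [← holeR_eq] at B
    obtain ⟨τ, f⟩ := fill_exists h (k := k) (by simp [holeR]) (holeR_poly h hk hw) B
    exact ⟨(Step.R k τ, ⟨_, (cutting_R h hk hw B).isHPT h⟩), hw, F, f, rfl⟩
  · obtain ⟨h1, h2, h3⟩ := L_ends h hw
    obtain ⟨F, B⟩ := chord_bounds h hk h1 h2 h3
    rw [← holeL_eq] at B
    obtain ⟨τ, f⟩ := fill_exists h (k := k) (by simp [holeL]) (holeL_poly h hk hw) B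
    exact ⟨(Step.L k τ, ⟨_, (cutting_L h hk hw B).isHPT h⟩), hw, F, f, rfl⟩

private theorem tri_pos' {k : ℕ} (τ : Tri k) : 0 < k := by
  cases τ <;> omega

private theorem same_index (h : M.IsHPT) {i j : ℤ} {x : ℕ} (hi : M.SameV (M.bd i) x)
    (hj : M.SameV (M.bd j) x) : i = j :=
  h.simple i j (h.sameV_trans hi (h.sameV_symm (h.bd_mem j) hj))

theorem peel_unique (h : M.IsHPT) {s s' : Step} {M' M'' : PreMap} (p : M.Peel s M')
    (p' : M.Peel s' M'') : s = s' ∧ M' = M'' := by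
  cases s with
  | N =>
    obtain ⟨p1, p2⟩ := p
    cases s' with
    | N =>
      obtain ⟨q1, q2⟩ := p'
      exact ⟨rfl, p2.trans q2.symm⟩
    | R k' τ' => exact absurd p'.1 (p1 _)
    | L k' τ' => exact absurd p'.1 (p1 _)
  | R k τ =>
    obtain ⟨p1, F, p2, p3⟩ := p
    have hk := tri_pos' τ
    cases s' with
    | N => exact absurd p1 (p'.1 _)
    | R k' τ' =>
      obtain ⟨q1, F', q2, q3⟩ := p'
      have hkk : k = k' := by
        have := same_index h p1 q1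
        omega
      subst hkk
      obtain ⟨rfl, rfl⟩ := fill_unique h (holeR_poly h hk p1) p2 q2
      exact ⟨rfl, p3.trans q3.symm⟩
    | L k' τ' =>
      obtain ⟨q1, F', q2, q3⟩ := p'
      have := same_index h p1 q1
      omega
  | L k τ =>
    obtain ⟨p1, F, p2, p3⟩ := p
    have hk := tri_pos' τ
    cases s' with
    | N => exact absurd p1 (p'.1 _)
    | R k' τ' =>
      obtain ⟨q1, F', q2, q3⟩ := p'
      have := same_index h p1 q1
      omega
    | L k' τ' =>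
      obtain ⟨q1, F', q2, q3⟩ := p'
      have hkk : k = k' := by
        have := same_index h p1 q1
        omega
      subst hkk
      obtain ⟨rfl, rfl⟩ := fill_unique h (holeL_poly h hk p1) p2 q2
      exact ⟨rfl, p3.trans q3.symm⟩

end Pool.Agent.Spd
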