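import Pool.Agent.Spd.PeelEx1
import Pool.Agent.Spd.PeelEx2
import Pool.Agent.Spd.PeelEx3
import Pool.Agent.Spd.PeelEx4

/-!
# SPD: module `PeelEx` (only imports)
-/
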