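import Pool.Agent.Spd.PeelN
import Pool.Agent.Spd.Ear
import Pool.Agent.Spd.Chord
import Pool.Agent.Spd.FillCut

/-!
(Part `PeelEx1`: `third_cases`, `holeR`, `holeL`, `lineR`, `lineL`, `holeR_poly`, `holeL_poly`.  The text below is the common header of the parts.)

# SPD A15: every half-planar triangulation can be peeled

`r = bd 0`, `a = fc r`, `b = fc a`.
* `third_cases`: if `SameV (bd i) b` then `i ≠ 0, 1` (`face_ne`: `bd 0 = r`; `a` has the origin of
  `bd 1`, by `tgt` and `bd_next`), so `i = k + 1` or `i = -k` with `k ≥ 1`.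
* `peel_R`: chord `g = inv a` from `v_{k+1}` to `v_1` (`Chord.lean`, `p = 1`): `F`, the code from
  `fill_exists` (`chord_poly`, `chord_bounds`; the list `chordList M 1 k (inv a)` is the one of
  `Peel` up to `1 + j = j + 1`).  `chord_cutting` gives the cut `M₁` with line `..., bd 0, a,
  bd (k+1), ...`; its root triangle is an ear (`M₁.fc (bd 0) = a = M₁.bd 1`), `cutting_ear`, and
  `Cutting.trans`, `cut_cut` give the region of `Peel`.
* `peel_L`: chord `g = inv b` from `v_0` to `v_{-k}`, `p = -k`: in `M₁.shift (1 - k)` the root is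
  `r` and `bd (-1) = b`: `cutting_ear'`.
* `peel_exists`: the three cases; in each case the result is an HPT by `Cutting.isHPT`.
-/

namespace Pool.Agent.Spd

variable {M : PreMap}

/-- The dart `fc (bd 0)` has the origin of `bd 1`. -/
private theorem bd_one_a (h : M.IsHPT) : M.SameV (M.bd 1) (M.fc (M.bd 0)) := by
  have h0 := h.bd_mem 0
  have h1 := h.bd_next 0
  rw [zero_add] at h1
  exact h.sameV_trans (h.sameV_symm (h.inv_mem _ h0) h1) (h.tgt h0)

theorem third_cases (h : M.IsHPT) :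
    (∀ i, ¬ M.SameV (M.bd i) (M.fc (M.fc (M.bd 0)))) ∨
    (∃ k : ℕ, 0 < k ∧ M.SameV (M.bd (k + 1)) (M.fc (M.fc (M.bd 0)))) ∨
    (∃ k : ℕ, 0 < k ∧ M.SameV (M.bd (-k)) (M.fc (M.fc (M.bd 0)))) := by
  by_cases hex : ∃ i, M.SameV (M.bd i) (M.fc (M.fc (M.bd 0)))
  · right
    obtain ⟨i, hi⟩ := hex
    obtain ⟨_, f2, f3⟩ := h.face_ne (h.bd_inner 0)
    have hi0 : i ≠ 0 := by
      rintro rfl
      exact f3 hi
    have hi1 : i ≠ 1 := by
      rintro rfl
      exact f2 (h.sameV_trans (h.sameV_symm (h.bd_mem 1) (bd_one_a h)) hi)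
    rcases lt_or_gt_of_ne hi0 with h2 | h2
    · right
      refine ⟨(-i).toNat, by omega, ?_⟩
      have h3 : (-((-i).toNat : ℤ)) = i := by omega
      rw [h3]
      exact hi
    · left
      refine ⟨(i - 1).toNat, by omega, ?_⟩
      have h3 : ((i - 1).toNat : ℤ) + 1 = i := by omega
      rw [h3]
      exact hi
  · left
    exact fun i hi => hex ⟨i, hi⟩

/-- The polygon of the outcome `R k τ`. -/
def holeR (M : PreMap) (k : ℕ) : List ℕ :=
  (List.range k).map (fun j : ℕ => M.bd (j + 1)) ++ [M.inv (M.fc (M.bd 0))]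

/-- The polygon of the outcome `L k τ`. -/
def holeL (M : PreMap) (k : ℕ) : List ℕ :=
  (List.range k).map (fun j : ℕ => M.bd (j - k)) ++ [M.inv (M.fc (M.fc (M.bd 0)))]

/-- The line after the outcome `R k τ`. -/
def lineR (M : PreMap) (k : ℕ) : ℤ → ℕ := fun i =>
  if i < 0 then M.bd i else if i = 0 then M.inv (M.fc (M.fc (M.bd 0))) else M.bd (i + k)

/-- The line after the outcome `L k τ`. -/
def lineL (M : PreMap) (k : ℕ) : ℤ → ℕ := fun i =>
  if i < 0 then M.bd (i - k) else if i = 0 then M.inv (M.fc (M.bd 0)) else M.bd i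

theorem holeR_poly (h : M.IsHPT) {k : ℕ} (hk : 0 < k)
    (hw : M.SameV (M.bd (k + 1)) (M.fc (M.fc (M.bd 0)))) : Poly M (holeR M k) := by
  have h0 := h.bd_mem 0
  have ha := h.fc_mem h0
  have hia := h.inv_mem _ ha
  have e : holeR M k = chordList M 1 k (M.inv (M.fc (M.bd 0))) := by
    unfold holeR chordList
    congr 1
    refine List.map_congr_left fun j _ => ?_
    rw [add_comm]
  rw [e]
  refine chord_poly h hk ?_ ?_ hia
  · rw [add_comm]
    exact h.sameV_trans hw (h.sameV_symm hia (h.tgt ha))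
  · rw [h.inv_inv _ ha]
    exact bd_one_a h

theorem holeL_poly (h : M.IsHPT) {k : ℕ} (hk : 0 < k)
    (hw : M.SameV (M.bd (-k)) (M.fc (M.fc (M.bd 0)))) : Poly M (holeL M k) := by
  have h0 := h.bd_mem 0
  have ha := h.fc_mem h0
  have hb := h.fc_mem ha
  have hib := h.inv_mem _ hb
  have e : holeL M k = chordList M (-k) k (M.inv (M.fc (M.fc (M.bd 0)))) := by
    unfold holeL chordList
    congr 1
    refine List.map_congr_left fun j _ => ?_
    congr 1
    ring
  rw [e]
  refine chord_poly h hk ?_ ?_ hib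
  · rw [neg_add_cancel]
    have h1 := h.tgt hb
    rw [h.fc_tri _ (h.bd_inner 0)] at h1
    exact h.sameV_symm hib h1
  · rw [h.inv_inv _ hb]
    exact hw

end Pool.Agent.Spd
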