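import Pool.Agent.Spd.CutC

/-!
# SPD A06: removing the root triangle whose third vertex is not on the boundary

Notation: `r = bd 0 : v_0 → v_1`, `a = fc r : v_1 → w`, `b = fc a : w → v_0`
(`tgt`: `inv r` has the origin of `a`, `inv a` that of `b`, `inv b` that of `fc b = r`).
`R` = inner darts except `r, a, b`; line `..., bd (-1), inv b, inv a, bd 1, ...`.

* `sub`: trivial.  `fc_mem`: `fc` is injective on darts and permutes `r, a, b`.
* `line_mem`: `inv b`, `inv a` are inner: if `inv a = inv (bd j)` then `a = bd j`, whose target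
  `w` is a boundary vertex (`bd_next`), excluded; the same for `b` (its origin is `w`).  They are
  none of `r, a, b`: `inv_ne`, `inv_ne_fc`, `inv_ne_fc2` for the three darts of the face.  `bd j`
  with `j ≠ 0` is not `r` (`bd_inj`), not `a` (`a = bd j` has target `w` on the boundary) and not
  `b` (origin `w`).
* `line_out`: `inv (bd j)` is not inner; `inv (inv a) = a`, `inv (inv b) = b` are not in `R`.
* `only`: let `d ∈ R`, `inv d ∉ R`: either `inv d` is outer, so `d = bd j` and `j ≠ 0`; or `inv d`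
  is `r` (then `d = inv r` is outer, impossible), `a` or `b`.
* `path`: at `-1 → 0`: `inv (bd (-1))` has the origin of `bd 0 = r`, and `inv b` too; `0 → 1`:
  `inv (inv b) = b` has origin `w` like `inv a`; `1 → 2`: `a` has the origin of `bd 1`.
* `simple`: the origins are `v_i` (`i < 0`), `v_0`, `w`, `v_{i-1}` (`i ≥ 2`); `simple` of `M` and
  the hypothesis on `w`.
-/

namespace Pool.Agent.Spd

/-- The line after removing the root triangle with a new vertex. -/
def lineN (M : PreMap) : ℤ → ℕ := fun i =>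
  if i < 0 then M.bd i else if i = 0 then M.inv (M.fc (M.fc (M.bd 0))) else
    if i = 1 then M.inv (M.fc (M.bd 0)) else M.bd (i - 1)

theorem cutting_N {M : PreMap} (h : M.IsHPT)
    (hw : ∀ i, ¬ M.SameV (M.bd i) (M.fc (M.fc (M.bd 0)))) :
    Cutting M {d | M.Inner d ∧ d ≠ M.bd 0 ∧ d ≠ M.fc (M.bd 0) ∧ d ≠ M.fc (M.fc (M.bd 0))}
      (lineN M) := by
  obtain ⟨r, hrd⟩ : ∃ r, r = M.bd 0 := ⟨_, rfl⟩
  obtain ⟨a, had⟩ : ∃ a, a = M.fc r := ⟨_, rfl⟩
  obtain ⟨b, hbd⟩ : ∃ b, b = M.fc a := ⟨_, rfl⟩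
  have hr : M.Inner r := by rw [hrd]; exact h.bd_inner 0
  have ha : M.Inner a := by rw [had]; exact h.fc_inner r hr
  have hb : M.Inner b := by rw [hbd]; exact h.fc_inner a ha
  have hbr : M.fc b = r := by rw [hbd, had]; exact h.fc_tri r hr
  have h2 : M.fc (M.fc (M.bd 0)) = b ∧ M.fc (M.bd 0) = a := by
    rw [hbd, had, hrd]
    exact ⟨rfl, rfl⟩
  have hw' : ∀ i, ¬ M.SameV (M.bd i) b := by
    intro i
    rw [← h2.1]
    exact hw i
  have tr : M.SameV (M.inv r) a := by rw [had]; exact h.tgt hr.1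
  have ta : M.SameV (M.inv a) b := by rw [hbd]; exact h.tgt ha.1
  have tb : M.SameV (M.inv b) r := by
    have := h.tgt hb.1
    rwa [hbr] at this
  have hA : ∀ j, a ≠ M.bd j := by
    intro j hj
    have h3 := h.bd_next j
    rw [← hj] at h3
    exact hw' (j + 1) (h.sameV_trans (h.sameV_symm (h.inv_mem a ha.1) h3) ta)
  have hB : ∀ j, b ≠ M.bd j := fun j hj => hw' j (by rw [← hj]; exact h.sameV_refl b)
  have hiA : M.Inner (M.inv a) := by
    refine ⟨h.inv_mem a ha.1, fun i hi => hA i ?_⟩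
    rw [← h.inv_inv a ha.1, hi, h.inv_inv _ (h.bd_mem i)]
  have hiB : M.Inner (M.inv b) := by
    refine ⟨h.inv_mem b hb.1, fun i hi => hB i ?_⟩
    rw [← h.inv_inv b hb.1, hi, h.inv_inv _ (h.bd_mem i)]
  have n1 : M.inv r ≠ a := by rw [had]; exact h.inv_ne_fc hr
  have n2 : M.inv a ≠ b := by rw [hbd]; exact h.inv_ne_fc ha
  have n3 : M.inv b ≠ r := by
    have := h.inv_ne_fc hb
    rwa [hbr] at this
  have n4 : M.inv a ≠ r := fun h3 => n1 (by rw [← h3]; exact h.inv_inv a ha.1)
  have n5 : M.inv b ≠ a := fun h3 => n2 (by rw [← h3]; exact h.inv_inv b hb.1)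
  obtain ⟨R, hR⟩ : ∃ R : Set ℕ, R = {d | M.Inner d ∧ d ≠ r ∧ d ≠ a ∧ d ≠ b} := ⟨_, rfl⟩
  have hRm : ∀ d, d ∈ R ↔ M.Inner d ∧ d ≠ r ∧ d ≠ a ∧ d ≠ b := by
    intro d
    rw [hR]
    rfl
  have hRA : M.inv a ∈ R := (hRm _).2 ⟨hiA, n4, h.inv_ne a ha.1, n2⟩
  have hRB : M.inv b ∈ R := (hRm _).2 ⟨hiB, n3, n5, h.inv_ne b hb.1⟩
  have hRbd : ∀ j, j ≠ 0 → M.bd j ∈ R := by
    intro j hj
    refine (hRm _).2 ⟨h.bd_inner j, fun h3 => hj ?_, (hA j).symm, (hB j).symm⟩
    rw [hrd] at h3
    exact h.bd_inj h3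
  have l1 : ∀ i, i < 0 → lineN M i = M.bd i := fun i hi => if_pos hi
  have l2 : lineN M 0 = M.inv b := by
    unfold lineN
    rw [if_neg (lt_irrefl _), if_pos rfl, h2.1]
  have l3 : lineN M 1 = M.inv a := by
    unfold lineN
    rw [if_neg (by norm_num), if_neg (by norm_num), if_pos rfl, h2.2]
  have l4 : ∀ i, 2 ≤ i → lineN M i = M.bd (i - 1) := by
    intro i hi
    unfold lineN
    rw [if_neg (by omega), if_neg (by omega), if_neg (by omega)]
  have cases4 : ∀ i : ℤ, i < 0 ∨ i = 0 ∨ i = 1 ∨ 2 ≤ i := fun i => by omega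
  have hgoal : Cutting M R (lineN M) := by
    refine ⟨fun d hd => ((hRm d).1 hd).1, ?_, ?_, ?_, ?_, ?_, ?_⟩
    · intro d hd
      obtain ⟨h3, h4, h5, h6⟩ := (hRm d).1 hd
      refine (hRm _).2 ⟨h.fc_inner d h3, fun h7 => h6 ?_, fun h7 => h4 ?_, fun h7 => h5 ?_⟩
      · exact h.fc_inj h3.1 hb.1 (h7.trans hbr.symm)
      · exact h.fc_inj h3.1 hr.1 (h7.trans had)
      · exact h.fc_inj h3.1 ha.1 (h7.trans hbd)
    · intro i
      rcases cases4 i with hi | rfl | rfl | hi
      · rw [l1 i hi]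
        exact hRbd i (by omega)
      · rw [l2]
        exact hRB
      · rw [l3]
        exact hRA
      · rw [l4 i hi]
        exact hRbd _ (by omega)
    · intro i h3
      have h4 : ∀ j, M.inv (M.bd j) ∉ R := fun j hj => ((hRm _).1 hj).1.2 j rfl
      rcases cases4 i with hi | rfl | rfl | hi
      · rw [l1 i hi] at h3
        exact h4 _ h3
      · rw [l2, h.inv_inv b hb.1] at h3
        exact ((hRm _).1 h3).2.2.2 rfl
      · rw [l3, h.inv_inv a ha.1] at h3
        exact ((hRm _).1 h3).2.2.1 rfl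
      · rw [l4 i hi] at h3
        exact h4 _ h3
    · intro d hd
      by_cases h3 : M.inv d ∈ R
      · exact Or.inl h3
      refine Or.inr ?_
      obtain ⟨h4, h5, h6, h7⟩ := (hRm d).1 hd
      have hdd := h.inv_inv d h4.1
      rcases h.inner_or_outer (h.inv_mem d h4.1) with h8 | ⟨j, hj⟩
      · by_cases h9 : M.inv d = r
        · exfalso
          rw [h9, hrd] at hdd
          exact h4.2 0 hdd.symm
        · by_cases h10 : M.inv d = a
          · refine ⟨1, ?_⟩
            rw [l3, ← h10, hdd]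
          · by_cases h11 : M.inv d = b
            · refine ⟨0, ?_⟩
              rw [l2, ← h11, hdd]
            · exact absurd ((hRm _).2 ⟨h8, h9, h10, h11⟩) h3
      · rw [hj, h.inv_inv _ (h.bd_mem j)] at hdd
        have hj0 : j ≠ 0 := by
          rintro rfl
          exact h5 (by rw [← hdd, hrd])
        rcases lt_or_gt_of_ne hj0 with h8 | h8
        · exact ⟨j, by rw [l1 j h8, hdd]⟩
        · refine ⟨j + 1, ?_⟩
          rw [l4 _ (by omega), ← hdd]
          congr 1
          omega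
    · intro i
      have hcase : i < -1 ∨ i = -1 ∨ i = 0 ∨ i = 1 ∨ 2 ≤ i := by omega
      rcases hcase with hi | rfl | rfl | rfl | hi
      · rw [l1 i (by omega), l1 (i + 1) (by omega)]
        exact h.bd_next i
      · rw [l1 (-1) (by norm_num), show (-1 : ℤ) + 1 = 0 by norm_num, l2]
        have h3 := h.bd_next (-1)
        rw [show (-1 : ℤ) + 1 = 0 by norm_num, ← hrd] at h3
        exact h.sameV_trans h3 (h.sameV_symm (h.inv_mem b hb.1) tb)
      · rw [show (0 : ℤ) + 1 = 1 by norm_num, l2, l3, h.inv_inv b hb.1]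
        exact h.sameV_symm (h.inv_mem a ha.1) ta
      · rw [show (1 : ℤ) + 1 = 2 by norm_num, l3, l4 2 le_rfl, h.inv_inv a ha.1,
          show (2 : ℤ) - 1 = 1 by norm_num]
        have h3 := h.bd_next 0
        rw [show (0 : ℤ) + 1 = 1 by norm_num, ← hrd] at h3
        exact h.sameV_trans (h.sameV_symm (h.inv_mem r hr.1) tr) h3
      · rw [l4 i hi, l4 (i + 1) (by omega)]
        have h3 := h.bd_next (i - 1)
        rw [sub_add_cancel] at h3
        rw [add_sub_cancel_right]
        exact h3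
    · have hlD : ∀ i, lineN M i ∈ M.D := by
        intro i
        rcases cases4 i with hi | rfl | rfl | hi
        · rw [l1 i hi]
          exact h.bd_mem i
        · rw [l2]
          exact hiB.1
        · rw [l3]
          exact hiA.1
        · rw [l4 i hi]
          exact h.bd_mem _
      have hσ : ∀ i, i ≠ 1 → ∃ j, M.SameV (lineN M i) (M.bd j) ∧
          ((i ≤ 0 ∧ j = i) ∨ (2 ≤ i ∧ j = i - 1)) := by
        intro i hi1
        rcases cases4 i with hi | rfl | rfl | hi
        · rw [l1 i hi]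
          exact ⟨i, h.sameV_refl _, Or.inl ⟨by omega, rfl⟩⟩
        · rw [l2]
          refine ⟨0, ?_, Or.inl ⟨le_rfl, rfl⟩⟩
          rw [← hrd]
          exact tb
        · exact absurd rfl hi1
        · rw [l4 i hi]
          exact ⟨i - 1, h.sameV_refl _, Or.inr ⟨hi, rfl⟩⟩
      have h1 : ∀ j, j ≠ 1 → ¬ M.SameV (lineN M 1) (lineN M j) := by
        intro j hj h3
        obtain ⟨k, hk, -⟩ := hσ j hj
        rw [l3] at h3
        have h4 := h.sameV_trans h3 hk
        exact hw' k (h.sameV_trans (h.sameV_symm hiA.1 h4) ta)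
      intro i j hij
      by_cases hi : i = 1
      · subst hi
        by_contra hj
        exact h1 j (fun h3 => hj h3.symm) hij
      · by_cases hj : j = 1
        · subst hj
          exact absurd (h.sameV_symm (hlD i) hij) (h1 i hi)
        · obtain ⟨k, hk, hk'⟩ := hσ i hi
          obtain ⟨k', hk2, hk2'⟩ := hσ j hj
          have h3 := h.simple k k' (h.sameV_trans (h.sameV_symm (hlD i) hk)
            (h.sameV_trans hij hk2))
          omega
  rw [hR, hbd, had, hrd] at hgoal
  exact hgoal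

end Pool.Agent.Spd
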