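import Pool.Agent.Spd.PathReg

/-!
# SPD M9a: words that lead out of the swallowed part

`Z = {d ∈ H.D | Blw H G d}` is finite (`blw_finite`).  For `z ∈ H.D` and a word `κ_1, ..., κ_L` of
rotation numbers let `go z [κ_1, ...] = go (inv (rot^[κ_1] z)) [κ_2, ...]`; the corresponding list of
pairs is `(deg z, κ_1), ...` with `κ_1 < deg z`.  If `⌊U j * d_j⌋ = κ_j` for all `j`, then
`walkFrom z U j` is the dart `go z [κ_1, ..., κ_j]`.

Let `Z' ⊆ Z` be the set of those `z` from which no word leads out of `Z`.  If `z ∈ Z'`, `x ~ z`, then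
`x = rot^[κ] z` with `κ < deg z` (`sameV_iff_lt`), and `inv x` is reached with the letter `κ`, so
`inv x ∈ Z'` (`inv x ∉ Z` would be an exit); from `inv x` the letter `0` leads to `inv (inv x) = x`, so
`x ∈ Z'` too.  So `Z'` is closed under `inv` and `rot`, hence under `fc` (`fc d = rot (inv d)`), and
the converses: if `inv d ∈ Z'` then `d ∈ Z'`; if `fc d ∈ Z'` then `inv d ~ fc d` is in `Z'`
(`tgt`), so `d ∈ Z'`.  By `conn` (`EqvGen` induction) `Z'` is empty or all of `H.D`; but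
`G.bd 0` is a dart of `H` whose vertex is on the line of `G`, so not in `Z` (`not_on_of_blw`).
So every `z ∈ Z` has a word; `L`, `D` = maxima over the finite set `Z` (the letters and degrees of
the chosen words are finitely many; take `D` larger than all of them).
-/

namespace Pool.Agent.Spd

namespace HPT

private theorem walkFrom_succ_left (H : HPT) (e : ℕ) (U : ℕ → unitInterval) (n : ℕ) :
    H.walkFrom e U (n + 1) = H.walkFrom (H.M.inv (H.M.rot^[⌊(U 0 : ℝ) * H.deg e⌋₊] e))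
      (fun j => U (j + 1)) n := by
  induction n with
  | zero => rfl
  | succ n ih =>
    rw [walkFrom, ih]
    rfl

/-- From `z` a word leads out of the swallowed part. -/
private def Exit (H G : HPT) (z : ℕ) : Prop :=
  ∃ l : List (ℕ × ℕ), (∀ p ∈ l, p.2 < p.1) ∧
    ∀ U : ℕ → unitInterval,
      (∀ j < l.length, ⌊(U j : ℝ) * ((l.getD j (0, 0)).1 : ℕ)⌋₊ = (l.getD j (0, 0)).2) →
      ¬ Blw H G (H.walkFrom z U l.length)

private theorem exit_cons {G H : HPT} {z κ : ℕ} (hκ : κ < H.deg z)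
    (h : Exit H G (H.M.inv (H.M.rot^[κ] z))) : Exit H G z := by
  obtain ⟨l, hl, hU⟩ := h
  refine ⟨(H.deg z, κ) :: l, ?_, ?_⟩
  · intro p hp
    rcases List.mem_cons.1 hp with rfl | hp
    · exact hκ
    · exact hl p hp
  · intro U hj
    rw [List.length_cons, walkFrom_succ_left]
    have h0 := hj 0 (by simp)
    simp only [List.getD_cons_zero] at h0
    rw [h0]
    refine hU (fun j => U (j + 1)) fun j hjl => ?_
    have h1 := hj (j + 1) (by simpa using hjl)
    simpa only [List.getD_cons_succ] using h1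

private theorem exit_base {G H : HPT} {z : ℕ} (h : ¬ Blw H G z) : Exit H G z :=
  ⟨[], by simp, fun _ _ => h⟩

private theorem exit_step {G H : HPT} {z x : ℕ} (hz : z ∈ H.M.D) (hx : H.M.SameV z x)
    (h : Exit H G (H.M.inv x)) : Exit H G z := by
  obtain ⟨κ, hκ, rfl⟩ := (H.sameV_iff_lt hz).1 hx
  exact exit_cons hκ h

private theorem exit_back {G H : HPT} {z x : ℕ} (hz : z ∈ H.M.D) (hx : H.M.SameV z x)
    (h : Exit H G x) : Exit H G z := by
  have hxD := H.ok.sameV_mem hz hx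
  refine exit_step hz hx (exit_step (x := H.M.inv x) (H.ok.inv_mem x hxD) ⟨0, rfl⟩ ?_)
  rw [H.ok.inv_inv x hxD]
  exact h

private theorem exit_rel {G H : HPT} {x y : ℕ}
    (h : x ∈ H.M.D ∧ (y = H.M.inv x ∨ y = H.M.fc x)) : Exit H G x ↔ Exit H G y := by
  obtain ⟨hx, rfl | rfl⟩ := h
  · constructor
    · intro h
      refine exit_step (x := H.M.inv x) (H.ok.inv_mem x hx) ⟨0, rfl⟩ ?_
      rw [H.ok.inv_inv x hx]
      exact h
    · exact fun h => exit_step (x := x) hx ⟨0, rfl⟩ h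
  · have h1 := H.ok.tgt hx
    have h2 := H.ok.sameV_symm (H.ok.inv_mem x hx) h1
    constructor
    · intro h
      refine exit_back (H.ok.fc_mem hx) h2 ?_
      refine exit_step (x := H.M.inv x) (H.ok.inv_mem x hx) ⟨0, rfl⟩ ?_
      rw [H.ok.inv_inv x hx]
      exact h
    · intro h
      refine exit_step (x := x) hx ⟨0, rfl⟩ ?_
      exact exit_back (H.ok.inv_mem x hx) h1 h

private theorem exit_gen {G H : HPT} {x y : ℕ}
    (h : Relation.EqvGen (fun x y => x ∈ H.M.D ∧ (y = H.M.inv x ∨ y = H.M.fc x)) x y) :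
    Exit H G x ↔ Exit H G y := by
  induction h with
  | rel x y h => exact exit_rel h
  | refl x => exact Iff.rfl
  | symm x y _ ih => exact ih.symm
  | trans x y z _ _ ih1 ih2 => exact ih1.trans ih2

private theorem exit_all {G H : HPT} (S : Sub G H) {z : ℕ} (hz : z ∈ H.M.D) : Exit H G z := by
  have h1 : G.M.bd 0 ∈ H.M.D := S.memD (G.ok.bd_mem 0)
  refine (exit_gen (H.ok.conn _ h1 _ hz)).1 (exit_base fun hb => ?_)
  exact hb _ ⟨0, rfl⟩ (G.ok.bd_mem 0)

theorem exit_word {G H : HPT} (S : Sub G H) : ∃ L D : ℕ, ∀ z ∈ H.M.D, Blw H G z →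
    ∃ l : List (ℕ × ℕ), l.length ≤ L ∧ (∀ p ∈ l, p.2 < p.1 ∧ p.1 ≤ D) ∧
      ∀ U : ℕ → unitInterval,
        (∀ j < l.length, ⌊(U j : ℝ) * ((l.getD j (0, 0)).1 : ℕ)⌋₊ = (l.getD j (0, 0)).2) →
        ¬ Blw H G (H.walkFrom z U l.length) := by
  classical
  have hfin := blw_finite S
  have hex : ∀ z : ℕ, ∃ l : List (ℕ × ℕ), z ∈ H.M.D → (∀ p ∈ l, p.2 < p.1) ∧
      ∀ U : ℕ → unitInterval,
        (∀ j < l.length, ⌊(U j : ℝ) * ((l.getD j (0, 0)).1 : ℕ)⌋₊ = (l.getD j (0, 0)).2) →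
        ¬ Blw H G (H.walkFrom z U l.length) := by
    intro z
    by_cases hz : z ∈ H.M.D
    · obtain ⟨l, h1, h2⟩ := exit_all S hz
      exact ⟨l, fun _ => ⟨h1, h2⟩⟩
    · exact ⟨[], fun h => absurd h hz⟩
  choose w hw using hex
  refine ⟨hfin.toFinset.sup fun z => (w z).length,
    hfin.toFinset.sup fun z => (w z).toFinset.sup Prod.fst, fun z hz hb => ⟨w z, ?_, ?_, ?_⟩⟩
  · exact Finset.le_sup (f := fun z => (w z).length) (hfin.mem_toFinset.2 ⟨hz, hb⟩)
  · intro p hp
    refine ⟨(hw z hz).1 p hp, ?_⟩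
    refine le_trans (Finset.le_sup (f := Prod.fst) (List.mem_toFinset.2 hp)) ?_
    exact Finset.le_sup (f := fun z => (w z).toFinset.sup Prod.fst)
      (hfin.mem_toFinset.2 ⟨hz, hb⟩)
  · exact (hw z hz).2

end HPT

end Pool.Agent.Spd
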