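import Pool.Agent.Spd.PioA
import Pool.Agent.Spd.Unif
import Pool.Agent.Spd.C16

/-!
(Part `PioB1`: `walkFrom_congr`, `stay_bound`; `measurable_walkFrom` is in `C16`.)

# SPD M9b: the walk leaves the swallowed part

`L`, `D` from `exit_word` (we may assume `1 ≤ D`); `q = (D : ENNReal)⁻¹ ^ L > 0`.

* `stay_bound`: for every `z ∈ H.D` with `Blw H G z`:
  `unif {U | ∀ j ≤ k * L, Blw H G (walkFrom z U j)} ≤ (1 - q)^k`.
  `k = 1` (any such `z`): the complement contains
  `{U | ∀ j < l.length, ⌊U j * d_j⌋ = κ_j}`, whose measure is `∏ 1/d_j ≥ q`, because then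
  `walkFrom z U j` is outside for `j = l.length ≤ L`.
  Step: `walkFrom_add`: the walk after time `L` is `walkFrom z' (drop L U)` with
  `z' = walkFrom z U L`; sum over the values `z'`, `unif_split`, induction hypothesis.
-/

namespace Pool.Agent.Spd

open MeasureTheory

namespace HPT

/-- `walkFrom z U n` depends only on the first `n` variables. -/
theorem walkFrom_congr (H : HPT) (z : ℕ) {U U' : ℕ → unitInterval} {n : ℕ}
    (h : ∀ j < n, U j = U' j) {j : ℕ} (hj : j ≤ n) : H.walkFrom z U j = H.walkFrom z U' j := by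
  induction j with
  | zero => rfl
  | succ j ih =>
    have h1 := ih (by omega)
    have h2 := h j (by omega)
    change H.M.inv (H.M.rot^[⌊(U j : ℝ) * H.deg (H.walkFrom z U j)⌋₊] (H.walkFrom z U j)) =
      H.M.inv (H.M.rot^[⌊(U' j : ℝ) * H.deg (H.walkFrom z U' j)⌋₊] (H.walkFrom z U' j))
    rw [h1, h2]

private theorem wf_mem (H : HPT) {e : ℕ} (he : e ∈ H.M.D) (U : ℕ → unitInterval) (n : ℕ) :
    H.walkFrom e U n ∈ H.M.D := by
  induction n with
  | zero => exact he
  | succ n ih => exact H.ok.inv_mem _ (H.ok.iter_mem ih _)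

/-- the set of `U` which follow the word `l` -/
private def follow (l : List (ℕ × ℕ)) : Set (ℕ → unitInterval) :=
  {U | ∀ j < l.length, ⌊(U j : ℝ) * ((l.getD j (0, 0)).1 : ℕ)⌋₊ = (l.getD j (0, 0)).2}

private theorem follow_meas (l : List (ℕ × ℕ)) : MeasurableSet (follow l) := by
  have h : follow l = ⋂ j : ℕ, ⋂ _ : j < l.length,
      {U : ℕ → unitInterval | ⌊(U j : ℝ) * ((l.getD j (0, 0)).1 : ℕ)⌋₊ =
        (l.getD j (0, 0)).2} := by
    ext U
    simp only [follow, Set.mem_iInter, Set.mem_ofPred_eq]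
  rw [h]
  refine MeasurableSet.iInter fun j => MeasurableSet.iInter fun _ => ?_
  have h2 : Measurable fun U : ℕ → unitInterval =>
      ⌊(U j : ℝ) * ((l.getD j (0, 0)).1 : ℕ)⌋₊ :=
    Nat.measurable_floor.comp
      ((measurable_subtype_coe.comp (measurable_pi_apply j)).mul_const _)
  exact h2 (measurableSet_singleton _)

private theorem follow_cons (p : ℕ × ℕ) (l : List (ℕ × ℕ)) :
    follow (p :: l) = {U | U ∈ (Set.univ : Set (ℕ → unitInterval)) ∧
      ⌊(U 0 : ℝ) * p.1⌋₊ = p.2 ∧ (fun j => U (0 + 1 + j)) ∈ follow l} := by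
  ext U
  constructor
  · intro h
    refine ⟨Set.mem_univ _, ?_, ?_⟩
    · have := h 0 (by simp)
      simpa using this
    · intro j hj
      have := h (j + 1) (by simpa using hj)
      have e : 0 + 1 + j = j + 1 := by omega
      simpa only [e, List.getD_cons_succ] using this
  · rintro ⟨-, h1, h2⟩ j hj
    cases j with
    | zero => simpa using h1
    | succ j =>
      have := h2 j (by simpa using hj)
      have e : 0 + 1 + j = j + 1 := by omega
      simpa only [e, List.getD_cons_succ] using this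

private theorem follow_ge {D : ℕ} (l : List (ℕ × ℕ)) (h : ∀ p ∈ l, p.2 < p.1 ∧ p.1 ≤ D) :
    ((D : ENNReal)⁻¹) ^ l.length ≤ unif (follow l) := by
  induction l with
  | nil =>
    have h1 : follow [] = Set.univ := by
      ext U
      simp [follow]
    rw [h1, measure_univ]
    simp
  | cons p l ih =>
    have hp := h p (by simp)
    have ih' := ih fun q hq => h q (by simp [hq])
    rw [follow_cons, unif_choice 0 hp.1 MeasurableSet.univ (fun _ _ _ => Iff.rfl)
      (follow_meas l), measure_univ, one_mul, List.length_cons, pow_succ']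
    refine mul_le_mul' ?_ ih'
    exact ENNReal.inv_le_inv.2 (by exact_mod_cast hp.2)

theorem stay_bound {G H : HPT} (S : Sub G H) : ∃ (L : ℕ) (q : ENNReal), 0 < q ∧ ∀ k : ℕ,
    ∀ z ∈ H.M.D, Blw H G z →
      unif {U | ∀ j ≤ k * L, Blw H G (H.walkFrom z U j)} ≤ (1 - q) ^ k := by
  obtain ⟨L, D₀, hLD⟩ := exit_word S
  obtain ⟨D, hD1, hD0⟩ : ∃ D : ℕ, 1 ≤ D ∧ D₀ ≤ D := ⟨D₀ + 1, by omega, by omega⟩
  have hinv : ((D : ENNReal)⁻¹) ≤ 1 := ENNReal.inv_le_one.2 (by exact_mod_cast hD1)
  have hone : ∀ z ∈ H.M.D, Blw H G z →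
      unif {U | ∀ j ≤ L, Blw H G (H.walkFrom z U j)} ≤ 1 - ((D : ENNReal)⁻¹) ^ L := by
    intro z hz hb
    obtain ⟨l, h1, h2, h3⟩ := hLD z hz hb
    have h4 : {U | ∀ j ≤ L, Blw H G (H.walkFrom z U j)} ⊆ (follow l)ᶜ := by
      intro U hU hf
      exact h3 U hf (hU l.length h1)
    refine (measure_mono h4).trans ?_
    rw [prob_compl_eq_one_sub (follow_meas l)]
    refine tsub_le_tsub_left ?_ 1
    refine le_trans ?_ (follow_ge (D := D) l fun p hp => ⟨(h2 p hp).1, (h2 p hp).2.trans hD0⟩)
    exact pow_le_pow_right_of_le_one' hinv h1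
  refine ⟨L, ((D : ENNReal)⁻¹) ^ L, ?_, ?_⟩
  · exact ENNReal.pow_pos (ENNReal.inv_pos.2 (ENNReal.natCast_ne_top D)) L
  · intro k
    induction k with
    | zero =>
      intro z _ _
      rw [pow_zero]
      exact prob_le_one
    | succ k ih =>
      intro z hz hb
      let E : ℕ → Set (ℕ → unitInterval) := fun z' =>
        {U | (∀ j ≤ L, Blw H G (H.walkFrom z U j)) ∧ H.walkFrom z U L = z'}
      let T : ℕ → Set (ℕ → unitInterval) := fun z' =>
        {V | ∀ j ≤ k * L, Blw H G (H.walkFrom z' V j)}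
      have hBm : ∀ (x j : ℕ), MeasurableSet {U : ℕ → unitInterval |
          Blw H G (H.walkFrom x U j)} := fun x j =>
        (measurable_walkFrom H x j) (MeasurableSet.of_discrete (s := {e | Blw H G e}))
      have hAm : ∀ (x m : ℕ), MeasurableSet {U : ℕ → unitInterval |
          ∀ j ≤ m, Blw H G (H.walkFrom x U j)} := by
        intro x m
        have h : {U : ℕ → unitInterval | ∀ j ≤ m, Blw H G (H.walkFrom x U j)} =
            ⋂ j : ℕ, ⋂ _ : j ≤ m, {U | Blw H G (H.walkFrom x U j)} := by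
          ext U
          simp only [Set.mem_iInter, Set.mem_ofPred_eq]
        rw [h]
        exact MeasurableSet.iInter fun j => MeasurableSet.iInter fun _ => hBm x j
      have hEm : ∀ z', MeasurableSet (E z') := fun z' =>
        (hAm z L).inter ((measurable_walkFrom H z L) (measurableSet_singleton z'))
      have hTm : ∀ z', MeasurableSet (T z') := fun z' => hAm z' (k * L)
      have hcov : {U | ∀ j ≤ (k + 1) * L, Blw H G (H.walkFrom z U j)} ⊆
          ⋃ z' : ℕ, {U | U ∈ E z' ∧ (fun j => U (L + j)) ∈ T z'} := by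
        intro U hU
        refine Set.mem_iUnion.2 ⟨H.walkFrom z U L, ⟨fun j hj => hU j ?_, rfl⟩, fun j hj => ?_⟩
        · calc j ≤ L := hj
            _ ≤ (k + 1) * L := Nat.le_mul_of_pos_left L (Nat.succ_pos k)
        · rw [← walkFrom_add]
          refine hU (L + j) ?_
          rw [add_mul, one_mul]
          omega
      have hsplit : ∀ z', unif {U | U ∈ E z' ∧ (fun j => U (L + j)) ∈ T z'} =
          unif (E z') * unif (T z') := by
        intro z'
        refine unif_split L (hEm z') ?_ (hTm z')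
        intro U U' h
        have h1 : ∀ j ≤ L, H.walkFrom z U j = H.walkFrom z U' j := fun j hj =>
          walkFrom_congr H z h hj
        constructor
        · rintro ⟨h2, h3⟩
          exact ⟨fun j hj => h1 j hj ▸ h2 j hj, (h1 L le_rfl) ▸ h3⟩
        · rintro ⟨h2, h3⟩
          exact ⟨fun j hj => (h1 j hj).symm ▸ h2 j hj, (h1 L le_rfl).symm ▸ h3⟩
      have hle : ∀ z', unif (E z') * unif (T z') ≤
          unif (E z') * (1 - ((D : ENNReal)⁻¹) ^ L) ^ k := by
        intro z'
        by_cases hE : (E z').Nonempty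
        · obtain ⟨U, h2, h3⟩ := hE
          refine mul_le_mul' le_rfl (ih z' ?_ ?_)
          · rw [← h3]
            exact wf_mem H hz U L
          · rw [← h3]
            exact h2 L le_rfl
        · rw [Set.not_nonempty_iff_eq_empty.1 hE, measure_empty, zero_mul, zero_mul]
      have hsum : ∑' z', unif (E z') ≤ 1 - ((D : ENNReal)⁻¹) ^ L := by
        rw [← measure_iUnion ?_ hEm]
        · refine le_trans (measure_mono ?_) (hone z hz hb)
          exact Set.iUnion_subset fun z' U hU => hU.1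
        · intro x y hxy
          refine Set.disjoint_left.2 ?_
          rintro U ⟨-, h3⟩ ⟨-, h4⟩
          exact hxy (h3.symm.trans h4)
      calc unif {U | ∀ j ≤ (k + 1) * L, Blw H G (H.walkFrom z U j)}
          ≤ unif (⋃ z' : ℕ, {U | U ∈ E z' ∧ (fun j => U (L + j)) ∈ T z'}) := measure_mono hcov
        _ ≤ ∑' z', unif {U | U ∈ E z' ∧ (fun j => U (L + j)) ∈ T z'} := measure_iUnion_le _
        _ = ∑' z', unif (E z') * unif (T z') := by simp only [hsplit]
        _ ≤ ∑' z', unif (E z') * (1 - ((D : ENNReal)⁻¹) ^ L) ^ k := ENNReal.tsum_le_tsum hle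
        _ = (∑' z', unif (E z')) * (1 - ((D : ENNReal)⁻¹) ^ L) ^ k := ENNReal.tsum_mul_right
        _ ≤ (1 - ((D : ENNReal)⁻¹) ^ L) * (1 - ((D : ENNReal)⁻¹) ^ L) ^ k :=
            mul_le_mul' hsum le_rfl
        _ = _ := (pow_succ' _ _).symm

end HPT

end Pool.Agent.Spd
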