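import Pool.Agent.Spd.CutC

/-!
# SPD A08: polygons and their fillings modulo 2

`Poly M cs`: `cs` is a simple closed path of at least two darts.  `Bounds M cs F`: `F` is a finite
`fc`-invariant set of inner darts whose oriented boundary is `cs` (for a degenerate 2-gon
`[d, inv d]` the boundary is empty).

* `poly_inv`: if `d ∈ cs` and `inv d ∈ cs` then `cs = [x, inv x]` for some `x`: the dart after `d`
  (cyclically) has the origin of `inv d`, so it is `inv d` (distinct origins), and the dart after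
  `inv d` is `d`.
* `polyFill`: apply `acyc` to `c = {e | exactly one of e, inv e is in cs}` (a `Finset`: a filter of
  `cs.toFinset ∪ (cs.map inv).toFinset`).  Parity: if `cs = [x, inv x]` then `c` is empty.
  Otherwise `c` consists of the `e` and `inv e`, `e ∈ cs` (`poly_inv`), and the darts of `c` at a
  vertex are: none, or the dart `e ∈ cs` leaving it and `inv e'` where `e' ∈ cs` is the dart before
  `e`; these two are different.
* `Bounds.unique`: the symmetric difference of `F` and `F'` is `fc`-invariant, and has empty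
  boundary: for `e ∈ F \ F'`, if `inv e ∉ F` then `e ∈ cs`, `inv e ∉ cs`, so `e ∈ F'`,
  contradiction, so `inv e ∈ F`; if `inv e ∈ F'` then (as `e ∉ F'`) `inv e ∈ cs`, `e ∉ cs`, so
  `inv e ∈ F`, `e ∉ F`, contradiction.  So `closed_empty`.
* `Bounds.of_deg`: for `cs = [x, inv x]`: `F = ∅` by `closed_empty`.
-/

namespace Pool.Agent.Spd

/-- Simple closed path of darts. -/
def Poly (M : PreMap) (cs : List ℕ) : Prop :=
  2 ≤ cs.length ∧ (∀ d ∈ cs, d ∈ M.D) ∧
    List.IsChain (fun x y => M.SameV (M.inv x) y) (cs ++ cs.take 1) ∧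
    cs.Pairwise (fun x y => ¬ M.SameV x y)

/-- `F` is bounded by the closed path `cs` (interior to the left). -/
def Bounds (M : PreMap) (cs : List ℕ) (F : Finset ℕ) : Prop :=
  (∀ d ∈ F, M.Inner d ∧ M.fc d ∈ F) ∧
    ∀ d ∈ M.D, (d ∈ F ∧ M.inv d ∉ F ↔ d ∈ cs ∧ M.inv d ∉ cs)

variable {M : PreMap}

/-- consecutive darts -/
private theorem Poly_step {cs : List ℕ} (P : Poly M cs) (i : ℕ) (hi : i < cs.length) :
    M.SameV (M.inv cs[i]) (cs[(i + 1) % cs.length]'(Nat.mod_lt _ (by omega))) := by
  have h1 := List.isChain_iff_getElem.1 P.2.2.1 i (by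
    have := P.1
    rw [List.length_append, List.length_take]
    omega)
  rw [List.getElem_append_left hi] at h1
  rcases Nat.lt_or_ge (i + 1) cs.length with h2 | h2
  · rw [List.getElem_append_left h2] at h1
    simpa only [Nat.mod_eq_of_lt h2] using h1
  · have h3 : i + 1 = cs.length := by omega
    rw [List.getElem_append_right h2, List.getElem_take] at h1
    have h4 : (i + 1) % cs.length = 0 := by rw [h3, Nat.mod_self]
    have h5 : i + 1 - cs.length = 0 := by omega
    simpa only [h4, h5] using h1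

/-- darts of the polygon have distinct origins -/
private theorem Poly_idx (h : M.IsHPT) {cs : List ℕ} (P : Poly M cs) {i j : ℕ}
    (hi : i < cs.length) (hj : j < cs.length) (hij : M.SameV cs[i] cs[j]) : i = j := by
  rcases Nat.lt_trichotomy i j with h1 | h1 | h1
  · exact absurd hij (List.pairwise_iff_getElem.1 P.2.2.2 i j hi hj h1)
  · exact h1
  · have h2 := h.sameV_symm (P.2.1 _ (List.getElem_mem hi)) hij
    exact absurd h2 (List.pairwise_iff_getElem.1 P.2.2.2 j i hj hi h1)

private theorem Poly_mod {n i j : ℕ} (hi : i < n) (hj : j < n)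
    (h : (i + 1) % n = (j + 1) % n) : i = j := by
  have e : ∀ k, k < n → (k + 1) % n = if k + 1 = n then 0 else k + 1 := by
    intro k hk
    split_ifs with h1
    · rw [h1, Nat.mod_self]
    · exact Nat.mod_eq_of_lt (by omega)
  rw [e i hi, e j hj] at h
  split_ifs at h <;> omega

theorem poly_inv (h : M.IsHPT) {cs : List ℕ} (P : Poly M cs) {d : ℕ} (hd : d ∈ cs)
    (hi : M.inv d ∈ cs) : ∃ x, cs = [x, M.inv x] := by
  obtain ⟨i, hi1, hi2⟩ := List.getElem_of_mem hd
  obtain ⟨j, hj1, hj2⟩ := List.getElem_of_mem hi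
  have hdD : d ∈ M.D := P.2.1 d hd
  have hii : M.inv (M.inv d) = d := h.inv_inv d hdD
  have e1 : j = (i + 1) % cs.length := by
    have h1 := Poly_step P i hi1
    rw [hi2, ← hj2] at h1
    exact Poly_idx h P hj1 (Nat.mod_lt _ (by omega)) h1
  have e2 : i = (j + 1) % cs.length := by
    have h1 := Poly_step P j hj1
    rw [hj2, hii, ← hi2] at h1
    exact Poly_idx h P hi1 (Nat.mod_lt _ (by omega)) h1
  have h2 := P.1
  have e : ∀ k, k < cs.length → (k + 1) % cs.length =
      if k + 1 = cs.length then 0 else k + 1 := by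
    intro k hk
    split_ifs with h1
    · rw [h1, Nat.mod_self]
    · exact Nat.mod_eq_of_lt (by omega)
  rw [e i hi1] at e1
  rw [e j hj1] at e2
  have hlen : cs.length = 2 := by
    split_ifs at e1 e2 <;> omega
  obtain ⟨a, b, rfl⟩ := List.length_eq_two.1 hlen
  rw [List.mem_cons, List.mem_singleton] at hd hi
  have hne := h.inv_ne d hdD
  rcases hd with rfl | rfl
  · rcases hi with hi | hi
    · exact absurd hi hne
    · exact ⟨d, by rw [hi]⟩
  · rcases hi with hi | hi
    · refine ⟨a, ?_⟩
      rw [← hi, hii]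
    · exact absurd hi hne

theorem poly_eq_of_sameV (h : M.IsHPT) {cs : List ℕ} (P : Poly M cs) {d e : ℕ} (hd : d ∈ cs)
    (he : e ∈ cs) (hde : M.SameV d e) : d = e := by
  obtain ⟨i, hi1, rfl⟩ := List.getElem_of_mem hd
  obtain ⟨j, hj1, rfl⟩ := List.getElem_of_mem he
  have h1 := Poly_idx h P hi1 hj1 hde
  subst h1
  rfl

theorem poly_nodup (h : M.IsHPT) {cs : List ℕ} (P : Poly M cs) : cs.Nodup := by
  refine List.Pairwise.imp ?_ P.2.2.2
  rintro a b hab rfl
  exact hab (h.sameV_refl a)

/-- the dart after `x` -/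
private theorem Poly_succ {cs : List ℕ} (P : Poly M cs) {x : ℕ} (hx : x ∈ cs) :
    ∃ y ∈ cs, M.SameV (M.inv x) y := by
  obtain ⟨i, hi1, rfl⟩ := List.getElem_of_mem hx
  exact ⟨_, List.getElem_mem _, Poly_step P i hi1⟩

/-- the dart before `y` -/
private theorem Poly_pred (h : M.IsHPT) {cs : List ℕ} (P : Poly M cs) {y : ℕ} (hy : y ∈ cs) :
    ∃ x ∈ cs, M.SameV (M.inv x) y ∧ ∀ x' ∈ cs, M.SameV (M.inv x') y → x' = x := by
  obtain ⟨j, hj1, rfl⟩ := List.getElem_of_mem hy
  have hn := P.1
  have huniq : ∀ i (hi : i < cs.length), M.SameV (M.inv cs[i]) cs[j] →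
      (i + 1) % cs.length = j := by
    intro i hi hij
    have h1 := Poly_step P i hi
    have h2 := h.sameV_symm (h.inv_mem _ (P.2.1 _ (List.getElem_mem hi))) h1
    exact Poly_idx h P (Nat.mod_lt _ (by omega)) hj1 (h.sameV_trans h2 hij)
  obtain ⟨i, hi, hij⟩ : ∃ i, i < cs.length ∧ (i + 1) % cs.length = j := by
    rcases Nat.eq_zero_or_pos j with h0 | h0
    · refine ⟨cs.length - 1, by omega, ?_⟩
      rw [h0, Nat.sub_add_cancel (by omega), Nat.mod_self]
    · refine ⟨j - 1, by omega, ?_⟩
      rw [Nat.sub_add_cancel (by omega), Nat.mod_eq_of_lt hj1]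
  have h3 := Poly_step P i hi
  simp only [hij] at h3
  refine ⟨cs[i], List.getElem_mem hi, h3, ?_⟩
  intro x' hx' hx'y
  obtain ⟨k, hk, rfl⟩ := List.getElem_of_mem hx'
  have h4 := huniq k hk hx'y
  have h5 := Poly_mod hk hi (h4.trans hij.symm)
  subst h5
  rfl

theorem polyFill (h : M.IsHPT) {cs : List ℕ} (P : Poly M cs) :
    ∃ F : Finset ℕ, (∀ d ∈ F, M.Inner d ∧ M.fc d ∈ F) ∧
      ∀ d ∈ M.D, ((d ∈ F ↔ M.inv d ∈ F) ↔ (d ∈ cs ↔ M.inv d ∈ cs)) := by
  classical
  set c : Finset ℕ := (cs.toFinset ∪ (cs.map M.inv).toFinset).filter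
    (fun e => ¬ (e ∈ cs ↔ M.inv e ∈ cs)) with hc
  have hmem : ∀ d, d ∈ M.D → (d ∈ c ↔ ¬ (d ∈ cs ↔ M.inv d ∈ cs)) := by
    intro d hd
    rw [hc, Finset.mem_filter, and_iff_right_iff_imp]
    intro hne
    rw [Finset.mem_union, List.mem_toFinset, List.mem_toFinset, List.mem_map]
    by_cases h1 : d ∈ cs
    · exact Or.inl h1
    · right
      have h2 : M.inv d ∈ cs := by
        by_contra h3
        exact hne ⟨fun h4 => absurd h4 h1, fun h4 => absurd h4 h3⟩
      exact ⟨M.inv d, h2, h.inv_inv d hd⟩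
  have hcD : ∀ d ∈ c, d ∈ M.D := by
    intro d hd
    rw [hc, Finset.mem_filter, Finset.mem_union, List.mem_toFinset, List.mem_toFinset,
      List.mem_map] at hd
    rcases hd.1 with h1 | ⟨a, ha, rfl⟩
    · exact P.2.1 d h1
    · exact h.inv_mem a (P.2.1 a ha)
  have hcinv : ∀ d ∈ c, M.inv d ∈ c := by
    intro d hd
    have hdD := hcD d hd
    have h1 := (hmem d hdD).1 hd
    rw [hmem _ (h.inv_mem d hdD), h.inv_inv d hdD]
    exact fun h2 => h1 h2.symm
  obtain ⟨F, hF1, hF2⟩ := h.acyc c (fun d hd => ⟨hcD d hd, hcinv d hd⟩) (by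
    intro d hd
    by_cases hy : ∃ y ∈ cs, M.SameV d y
    · obtain ⟨y, hy, hdy⟩ := hy
      obtain ⟨x, hx, hxy, hxu⟩ := Poly_pred h P hy
      have hyD := P.2.1 y hy
      have hxD := P.2.1 x hx
      have hixD := h.inv_mem x hxD
      have hiix := h.inv_inv x hxD
      have hdix : M.SameV d (M.inv x) :=
        h.sameV_trans hdy (h.sameV_symm hixD hxy)
      -- the darts of `c` at the vertex
      have hsub : ∀ e, e ∈ c → M.SameV d e → e = y ∨ e = M.inv x := by
        intro e he hde
        have heD := hcD e he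
        have h1 := (hmem e heD).1 he
        by_cases h2 : e ∈ cs
        · left
          exact poly_eq_of_sameV h P h2 hy (h.sameV_trans (h.sameV_symm hd hde) hdy)
        · right
          have h3 : M.inv e ∈ cs := by
            by_contra h3
            exact h1 ⟨fun h4 => absurd h4 h2, fun h4 => absurd h4 h3⟩
          have h4 := hxu (M.inv e) h3 (by
            rw [h.inv_inv e heD]
            exact h.sameV_trans (h.sameV_symm hd hde) hdy)
          rw [← h4, h.inv_inv e heD]
      by_cases hyx : y = M.inv x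
      · have h0 : {e | e ∈ c ∧ M.SameV d e} = ∅ := by
          rw [Set.eq_empty_iff_forall_notMem]
          rintro e ⟨he, hde⟩
          have h1 : e = y := by
            rcases hsub e he hde with h1 | h1
            · exact h1
            · rw [h1, hyx]
          subst h1
          have h2 := (hmem e hyD).1 he
          apply h2
          refine ⟨fun _ => ?_, fun _ => hy⟩
          rw [hyx, hiix]
          exact hx
        rw [h0, Set.ncard_empty]
        exact Even.zero
      · have hyc : y ∈ c := by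
          rw [hmem y hyD]
          intro h1
          have h2 := h1.1 hy
          obtain ⟨a, ha⟩ := poly_inv h P hy h2
          have haD : a ∈ M.D := P.2.1 a (by rw [ha]; exact List.mem_cons_self)
          have haa := h.inv_inv a haD
          have hne := h.loopless y hyD
          rw [ha, List.mem_cons, List.mem_singleton] at hx hy
          rcases hy with rfl | rfl
          · rcases hx with rfl | rfl
            · exact h.loopless _ hxD (h.sameV_symm hixD hxy)
            · exact hyx haa.symm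
          · rcases hx with rfl | rfl
            · exact hyx rfl
            · exact h.loopless _ hxD (h.sameV_symm hixD hxy)
        have hxc : M.inv x ∈ c := by
          rw [hmem _ hixD, hiix]
          intro h1
          have h2 := h1.2 hx
          exact hyx (poly_eq_of_sameV h P h2 hy hxy).symm
        have h0 : {e | e ∈ c ∧ M.SameV d e} = {y, M.inv x} := by
          ext e
          rw [Set.mem_ofPred_eq, Set.mem_insert_iff, Set.mem_singleton_iff]
          constructor
          · rintro ⟨he, hde⟩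
            exact hsub e he hde
          · rintro (rfl | rfl)
            · exact ⟨hyc, hdy⟩
            · exact ⟨hxc, hdix⟩
        rw [h0, Set.ncard_pair hyx]
        exact even_two
    · have h0 : {e | e ∈ c ∧ M.SameV d e} = ∅ := by
        rw [Set.eq_empty_iff_forall_notMem]
        rintro e ⟨he, hde⟩
        have heD := hcD e he
        have h1 := (hmem e heD).1 he
        apply h1
        have h2 : e ∉ cs := fun h2 => hy ⟨e, h2, hde⟩
        have h3 : M.inv e ∉ cs := by
          intro h3
          obtain ⟨z, hz, hez⟩ := Poly_succ P h3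
          rw [h.inv_inv e heD] at hez
          exact hy ⟨z, hz, h.sameV_trans hde hez⟩
        exact ⟨fun h4 => absurd h4 h2, fun h4 => absurd h4 h3⟩
      rw [h0, Set.ncard_empty]
      exact Even.zero)
  refine ⟨F, hF1, fun d hd => ?_⟩
  have h1 := hF2 d hd
  rw [hmem d hd] at h1
  tauto

theorem Bounds.unique (h : M.IsHPT) {cs : List ℕ} {F F' : Finset ℕ}
    (B : Bounds M cs F) (B' : Bounds M cs F') : F = F' := by
  classical
  have key : ∀ {F F' : Finset ℕ}, Bounds M cs F → Bounds M cs F' → ∀ d, d ∈ F → d ∉ F' →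
      (M.fc d ∈ F ∧ M.fc d ∉ F') ∧ (M.inv d ∈ F ∧ M.inv d ∉ F') := by
    intro F F' B B' d hd hd'
    have hdD : d ∈ M.D := (B.1 d hd).1.1
    refine ⟨⟨(B.1 d hd).2, fun h1 => hd' ?_⟩, ?_⟩
    · exact (h.fc_mem_iff (G := (F' : Set ℕ)) B'.1 hdD).1 h1
    · have h2 : M.inv d ∈ F := by
        by_contra h3
        exact hd' ((B'.2 d hdD).2 ((B.2 d hdD).1 ⟨hd, h3⟩)).1
      refine ⟨h2, fun h3 => ?_⟩
      have hiD := h.inv_mem d hdD
      have hii := h.inv_inv d hdD
      have h4 := (B'.2 _ hiD).1 ⟨h3, by rw [hii]; exact hd'⟩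
      have h5 := (B.2 _ hiD).2 h4
      rw [hii] at h5
      exact h5.2 hd
  have h0 := h.closed_empty ((F \ F') ∪ (F' \ F)) (by
    intro d hd
    rw [Finset.mem_union, Finset.mem_sdiff, Finset.mem_sdiff] at hd
    rcases hd with ⟨h1, h2⟩ | ⟨h1, h2⟩
    · refine ⟨(B.1 d h1).1, Finset.mem_union_left _ (Finset.mem_sdiff.2 ?_)⟩
      exact (key B B' d h1 h2).1
    · refine ⟨(B'.1 d h1).1, Finset.mem_union_right _ (Finset.mem_sdiff.2 ?_)⟩
      exact (key B' B d h1 h2).1) (by
    intro d hd
    rw [Finset.mem_union, Finset.mem_sdiff, Finset.mem_sdiff] at hd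
    rcases hd with ⟨h1, h2⟩ | ⟨h1, h2⟩
    · exact Finset.mem_union_left _ (Finset.mem_sdiff.2 (key B B' d h1 h2).2)
    · exact Finset.mem_union_right _ (Finset.mem_sdiff.2 (key B' B d h1 h2).2))
  rw [Finset.union_eq_empty, Finset.sdiff_eq_empty_iff_subset,
    Finset.sdiff_eq_empty_iff_subset] at h0
  exact Finset.Subset.antisymm h0.1 h0.2

theorem Bounds.of_deg (h : M.IsHPT) {x : ℕ} (hx : x ∈ M.D) {F : Finset ℕ}
    (B : Bounds M [x, M.inv x] F) : F = ∅ := by
  refine h.closed_empty F B.1 fun d hd => ?_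
  by_contra h1
  have hdD := (B.1 d hd).1.1
  have h2 := (B.2 d hdD).1 ⟨hd, h1⟩
  rw [List.mem_cons, List.mem_singleton, List.mem_cons, List.mem_singleton] at h2
  rcases h2.1 with h3 | h3
  · exact h2.2 (Or.inr (by rw [h3]))
  · exact h2.2 (Or.inl (by rw [h3, h.inv_inv x hx]))

/-- The first dart of a polygon belongs to its filling, unless it is degenerate. -/
theorem Bounds.head_mem (h : M.IsHPT) {d : ℕ} {ds : List ℕ} {F : Finset ℕ}
    (P : Poly M (d :: ds)) (B : Bounds M (d :: ds) F) : d ∈ F ∨ (ds = [M.inv d] ∧ F = ∅) := by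
  have hdm : d ∈ d :: ds := List.mem_cons_self
  have hdD : d ∈ M.D := P.2.1 d hdm
  by_cases h1 : M.inv d ∈ d :: ds
  · right
    obtain ⟨x, hx⟩ := poly_inv h P hdm h1
    rw [List.cons.injEq] at hx
    obtain ⟨rfl, rfl⟩ := hx
    exact ⟨rfl, B.of_deg h hdD⟩
  · left
    exact ((B.2 d hdD).2 ⟨hdm, h1⟩).1

end Pool.Agent.Spd
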