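import Pool.Agent.Spd.Loc

/-!
# SPD S1: isomorphisms between explored parts: first facts

A dart `d` of `H` is explored with respect to the sub-map `G` if it is not an inner dart of `G`.
`Sim H G H' G' φ ψ`: `φ`, `ψ` are inverse bijections between the explored darts of `(H, G)` and of
`(H', G')`, compatible with `inv` (when both darts are explored) and `fc`, and sending the outer
darts `inv (G.bd i)` of `G` to those of `G'` (same index), the same for `H`, `H'`.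

Facts used everywhere: for `d ∈ H.D`: `G.Inner (fc d) ↔ G.Inner d` (`Cutting.fc_mem_iff` for
`S.cutting`); if `G.Inner x` and `¬ G.Inner (inv x)` then `x = G.bd j` (`Sub.line_of`);
`inv (G.bd j)` is a dart of `H` that is not inner in `G` (`Cutting.line_out`).

* `Sim.symm`: `inv`: let `d' ` and `inv d'` be explored, `d = ψ d'`.  If `inv d` is inner in `G` then
  `inv d = G.bd j`, `d = inv (G.bd j)`, `d' = φ d = inv (G'.bd j)`, `inv d' = G'.bd j` is inner in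
  `G'`: contradiction.  So `inv d` is explored, `φ (inv d) = inv (φ d) = inv d'`, apply `ψ`.
  `fc`: `d = ψ d'`, `φ (fc d) = fc d'`, `fc d` is explored, apply `ψ`.  `line`, `bdy`: apply `ψ` to
  the fields of `h` (`ψ (φ d) = d`).
* `sim_init`: the explored darts are the outer darts `inv (H.bd i)`;
  `φ d = inv (H'.bd i)` if `d = inv (H.bd i)` (choose `i`; it is unique, `bd_inj`, `inv_inv`);
  `inv` is vacuous (`inv (inv (H.bd i)) = H.bd i` is inner), `fc` is `fc_outer`.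
* `Sim.base`: the explored darts for `(H, H)` are the outer darts of `H`, use `bdy` and `map`.
-/

namespace Pool.Agent.Spd

namespace HPT

variable {H G H' G' K K' : HPT} {φ ψ φ₁ ψ₁ : ℕ → ℕ}

theorem fc_inner_iff (S : Sub G H) {d : ℕ} (hd : d ∈ H.M.D) :
    G.M.Inner (H.M.fc d) ↔ G.M.Inner d :=
  S.cutting.fc_mem_iff H.ok hd

private theorem line_mem (S : Sub G H) (i : ℤ) :
    H.M.inv (G.M.bd i) ∈ H.M.D ∧ ¬ G.M.Inner (H.M.inv (G.M.bd i)) :=
  ⟨H.ok.inv_mem _ (S.memD (G.ok.bd_mem i)), S.cutting.line_out i⟩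

private theorem bdy_mem (S : Sub G H) (i : ℤ) :
    H.M.inv (H.M.bd i) ∈ H.M.D ∧ ¬ G.M.Inner (H.M.inv (H.M.bd i)) :=
  ⟨H.ok.inv_mem _ (H.ok.bd_mem i), fun h => (S.inner h).2 i rfl⟩

private theorem outer_of (H : HPT) {d : ℕ} (hd : d ∈ H.M.D) (hn : ¬ H.M.Inner d) :
    ∃ i, d = H.M.inv (H.M.bd i) :=
  (H.ok.inner_or_outer hd).resolve_left hn

/-- An explored dart whose inverse is inner is an outer dart of the region. -/
private theorem line_of_inv (S : Sub G H) {d : ℕ} (hd : d ∈ H.M.D) (hn : ¬ G.M.Inner d)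
    (hi : G.M.Inner (H.M.inv d)) : ∃ j, d = H.M.inv (G.M.bd j) := by
  obtain ⟨j, hj⟩ := S.line_of hi (by rwa [H.ok.inv_inv d hd])
  exact ⟨j, by rw [← hj, H.ok.inv_inv d hd]⟩

theorem Sim.symm (S : Sub G H) (S' : Sub G' H') (h : Sim H G H' G' φ ψ) :
    Sim H' G' H G ψ φ := by
  refine ⟨h.map', h.map, fun d' hd' hn' hi' => ?_, fun d' hd' hn' => ?_, fun i => ?_,
    fun i => ?_⟩
  · obtain ⟨hd, hn, hφ⟩ := h.map' d' hd' hn'
    by_cases hi : G.M.Inner (H.M.inv (ψ d'))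
    · exfalso
      obtain ⟨j, hj⟩ := line_of_inv S hd hn hi
      have h1 := h.line j
      rw [← hj, hφ] at h1
      apply hi'
      rw [h1, H'.ok.inv_inv _ (S'.memD (G'.ok.bd_mem j))]
      exact G'.ok.bd_inner j
    · have h1 := h.inv _ hd hn hi
      rw [hφ] at h1
      rw [← h1]
      exact (h.map _ (H.ok.inv_mem _ hd) hi).2.2
  · obtain ⟨hd, hn, hφ⟩ := h.map' d' hd' hn'
    have h1 := h.fc _ hd hn
    rw [hφ] at h1
    rw [← h1]
    exact (h.map _ (H.ok.fc_mem hd) (fun h2 => hn ((fc_inner_iff S hd).1 h2))).2.2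
  · rw [← h.line i]
    exact (h.map _ (line_mem S i).1 (line_mem S i).2).2.2
  · rw [← h.bdy i]
    exact (h.map _ (bdy_mem S i).1 (bdy_mem S i).2).2.2

theorem Sim.congr (S : Sub G H) (S' : Sub G' H') (h : Sim H G H' G' φ ψ)
    (h1 : ∀ d ∈ H.M.D, ¬ G.M.Inner d → φ₁ d = φ d)
    (h2 : ∀ d ∈ H'.M.D, ¬ G'.M.Inner d → ψ₁ d = ψ d) : Sim H G H' G' φ₁ ψ₁ := by
  refine ⟨fun d hd hn => ?_, fun d hd hn => ?_, fun d hd hn hi => ?_, fun d hd hn => ?_,
    fun i => ?_, fun i => ?_⟩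
  · obtain ⟨h3, h4, h5⟩ := h.map d hd hn
    rw [h1 d hd hn]
    exact ⟨h3, h4, by rw [h2 _ h3 h4, h5]⟩
  · obtain ⟨h3, h4, h5⟩ := h.map' d hd hn
    rw [h2 d hd hn]
    exact ⟨h3, h4, by rw [h1 _ h3 h4, h5]⟩
  · rw [h1 d hd hn, h1 _ (H.ok.inv_mem d hd) hi]
    exact h.inv d hd hn hi
  · rw [h1 d hd hn, h1 _ (H.ok.fc_mem hd) (fun h3 => hn ((fc_inner_iff S hd).1 h3))]
    exact h.fc d hd hn
  · rw [h1 _ (line_mem S i).1 (line_mem S i).2]
    exact h.line i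
  · rw [h1 _ (bdy_mem S i).1 (bdy_mem S i).2]
    exact h.bdy i

open Classical in
/-- The outer dart with the same index. -/
private noncomputable def tr (H H' : HPT) (d : ℕ) : ℕ :=
  if h : ∃ i, d = H.M.inv (H.M.bd i) then H'.M.inv (H'.M.bd h.choose) else 0

private theorem tr_eq (H H' : HPT) (i : ℤ) :
    tr H H' (H.M.inv (H.M.bd i)) = H'.M.inv (H'.M.bd i) := by
  have hex : ∃ j, H.M.inv (H.M.bd i) = H.M.inv (H.M.bd j) := ⟨i, rfl⟩
  have h1 : hex.choose = i := by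
    have h2 := congrArg H.M.inv hex.choose_spec
    rw [H.ok.inv_inv _ (H.ok.bd_mem _), H.ok.inv_inv _ (H.ok.bd_mem _)] at h2
    exact (H.ok.bd_inj h2).symm
  have h2 : tr H H' (H.M.inv (H.M.bd i)) = H'.M.inv (H'.M.bd hex.choose) := dif_pos hex
  rw [h2, h1]

private theorem tr_map (H H' : HPT) : ∀ d ∈ H.M.D, ¬ H.M.Inner d →
    tr H H' d ∈ H'.M.D ∧ ¬ H'.M.Inner (tr H H' d) ∧ tr H' H (tr H H' d) = d := by
  intro d hd hn
  obtain ⟨i, rfl⟩ := outer_of H hd hn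
  rw [tr_eq, tr_eq]
  exact ⟨H'.ok.inv_mem _ (H'.ok.bd_mem i), fun h => h.2 i rfl, rfl⟩

theorem sim_init (H H' : HPT) : ∃ φ ψ, Sim H H H' H' φ ψ := by
  refine ⟨tr H H', tr H' H, tr_map H H', tr_map H' H, fun d hd hn hi => ?_,
    fun d hd hn => ?_, tr_eq H H', tr_eq H H'⟩
  · exfalso
    obtain ⟨i, rfl⟩ := outer_of H hd hn
    apply hi
    rw [H.ok.inv_inv _ (H.ok.bd_mem i)]
    exact H.ok.bd_inner i
  · obtain ⟨i, rfl⟩ := outer_of H hd hn
    rw [H.ok.fc_outer, tr_eq, tr_eq, H'.ok.fc_outer]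

theorem Sim.base (S : Sub G H) (S' : Sub G' H') (h : Sim H G H' G' φ ψ) :
    Sim H H H' H' φ ψ := by
  have hψ : ∀ i, ψ (H'.M.inv (H'.M.bd i)) = H.M.inv (H.M.bd i) := (h.symm S S').bdy
  refine ⟨fun d hd hn => ?_, fun d hd hn => ?_, fun d hd hn hi => ?_, fun d hd hn => ?_,
    h.bdy, h.bdy⟩
  · obtain ⟨i, rfl⟩ := outer_of H hd hn
    rw [h.bdy, hψ]
    exact ⟨H'.ok.inv_mem _ (H'.ok.bd_mem i), fun h1 => h1.2 i rfl, rfl⟩
  · obtain ⟨i, rfl⟩ := outer_of H' hd hn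
    rw [hψ, h.bdy]
    exact ⟨H.ok.inv_mem _ (H.ok.bd_mem i), fun h1 => h1.2 i rfl, rfl⟩
  · exfalso
    obtain ⟨i, rfl⟩ := outer_of H hd hn
    apply hi
    rw [H.ok.inv_inv _ (H.ok.bd_mem i)]
    exact H.ok.bd_inner i
  · exact h.fc d hd (fun h1 => hn (S.inner h1))

private theorem shift_inner' (G : HPT) (i : ℤ) (d : ℕ) :
    (G.shift i).M.Inner d ↔ G.M.Inner d := by
  constructor
  · rintro ⟨h1, h2⟩
    refine ⟨h1, fun j hj => h2 (j - i) ?_⟩
    have h3 : (G.shift i).M.bd (j - i) = G.M.bd (j - i + i) := rfl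
    have h4 : (G.shift i).M.inv = G.M.inv := rfl
    rw [h3, h4, sub_add_cancel]
    exact hj
  · rintro ⟨h1, h2⟩
    exact ⟨h1, fun j hj => h2 (j + i) hj⟩

theorem Sim.shift (h : Sim H G H' G' φ ψ) (i : ℤ) :
    Sim H (G.shift i) H' (G'.shift i) φ ψ := by
  refine ⟨fun d hd hn => ?_, fun d hd hn => ?_, fun d hd hn hi => ?_, fun d hd hn => ?_,
    fun j => h.line (j + i), h.bdy⟩
  · rw [shift_inner'] at hn ⊢
    exact h.map d hd hn
  · rw [shift_inner'] at hn ⊢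
    exact h.map' d hd hn
  · rw [shift_inner'] at hn hi
    exact h.inv d hd hn hi
  · rw [shift_inner'] at hn
    exact h.fc d hd hn

/-- Change of the reference maps by a shift. -/
theorem Sim.shift' (h : Sim H G H' G' φ ψ) (i : ℤ) :
    Sim (H.shift i) G (H'.shift i) G' φ ψ :=
  ⟨h.map, h.map', h.inv, h.fc, h.line, fun j => h.bdy (j + i)⟩

/-- Explored darts of the region itself are the outer darts. -/
theorem Sim.mem_iff (S : Sub G H) (S' : Sub G' H') (h : Sim H G H' G' φ ψ) {d : ℕ}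
    (hd : d ∈ H.M.D) (hn : ¬ G.M.Inner d) : d ∈ G.M.D ↔ φ d ∈ G'.M.D := by
  have key : ∀ {H G H' G' : HPT} {φ ψ : ℕ → ℕ}, Sub G H → Sub G' H' → Sim H G H' G' φ ψ →
      ∀ {d : ℕ}, d ∈ H.M.D → ¬ G.M.Inner d → d ∈ G.M.D → φ d ∈ G'.M.D := by
    intro H G H' G' φ ψ S S' h d hd hn h1
    obtain ⟨j, rfl⟩ := line_of_inv S hd hn (((S.mem_iff d).1 h1).2.resolve_left hn)
    rw [h.line, ← S'.inv_eq]
    exact G'.ok.inv_mem _ (G'.ok.bd_mem j)
  refine ⟨key S S' h hd hn, fun h1 => ?_⟩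
  obtain ⟨h2, h3, h4⟩ := h.map d hd hn
  have h5 := key S' S (h.symm S S') h2 h3 h1
  rwa [h4] at h5

/-- Status with respect to a coarser region. -/
theorem Sim.inner_iff (h : Sim H G H' G' φ ψ) (hK : Sim H K H' K' φ ψ) (T : Sub K H)
    (T' : Sub K' H') {d : ℕ} (hd : d ∈ H.M.D) (hn : ¬ G.M.Inner d) :
    K.M.Inner d ↔ K'.M.Inner (φ d) := by
  obtain ⟨h1, -, h2⟩ := h.map d hd hn
  constructor
  · intro h3
    by_contra h4
    have h5 := (hK.map' _ h1 h4).2.1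
    rw [h2] at h5
    exact h5 h3
  · intro h3
    by_contra h4
    exact (hK.map d hd h4).2.1 h3

end HPT

end Pool.Agent.Spd
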