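import Pool.Agent.Spd.SimB1

/-!
(Part `SimB2`: `Sim.on_iff`, `Sim.blw`, `Sim.iter`, `Sim.deg`, `Sim.abv_iff`.  The text below is the common header of the parts.)

# SPD S2: isomorphisms between explored parts: rotation and vertices

Recall `rot d = fc (inv d)`.  Explored = dart of `H`, not inner in `G`.

* `Sim.rot_step`: `d` and `inv d` explored: `φ (rot d) = φ (fc (inv d)) = fc (φ (inv d)) =
  fc (inv (φ d))`.
* `exp_rot`: `rot d` is explored iff `inv d` is (`fc_inner_iff`).
* `Sim.sameV_mp` (KEY): let `rot^[n] d = e`, `d`, `e` explored; strong induction on `n`.  `n = 0`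
  is trivial.  If `inv d` is explored, then `rot d` is explored, `φ (rot d) = rot (φ d)`, and the
  induction hypothesis applies to `rot d`, `n - 1`.  Otherwise `inv d` is inner in `G`, so
  `inv d = G.bd j` (`Sub.line_of`), `d = inv (G.bd j)`, and `SameV d (G.bd (j+1))` (`path`).  Let
  `M` be minimal with `rot^[M] d = G.bd (j+1)` (`M > 0`).  For `0 < m ≤ M` the dart `rot^[m] d` is
  inner in `G`: `rot d = fc (G.bd j)` is; if `x = rot^[m] d` is inner in `G` and `m < M`, then
  `inv x` is inner in `G`, since otherwise `x = G.bd l` with the same origin as `G.bd (j+1)`, so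
  `x = G.bd (j+1)` (`simple`), against minimality; so `rot x = fc (inv x)` is inner.
  As `e` is explored, `n > M`, and `rot^[M+1] d = fc (inv (G.bd (j+1)))` is explored.  By the
  induction hypothesis for `rot^[M+1] d` and `n - M - 1`:
  `SameV (φ (fc (inv (G.bd (j+1))))) (φ e)`, where `φ (fc (inv (G.bd (j+1)))) =
  fc (inv (G'.bd (j+1))) = rot (G'.bd (j+1))`, which has the origin of
  `inv (G'.bd j) = φ (inv (G.bd j)) = φ d` (`path` for `G'`).
* `Sim.sameV`: both directions with `Sim.symm`.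
* `Sim.on_iff`: `K.bd i` has the origin of `inv (K.bd (i-1))` (`path`), which is not inner in `K`,
  hence explored, and `φ (inv (K.bd (i-1))) = inv (K'.bd (i-1))` by `hK.line`.
* `Sim.blw`: no dart of the vertex is in `G.D`.  If `e' ~ φ d` is in `G'.D`, then the vertex of `φ d`
  is not strictly below `G'`, and not above (`φ d` is not inner in `G'`), so it is on the line of
  `G'` (`trich`): `SameV (G'.bd i) (φ d)`, so `SameV (G.bd i) d` by `on_iff` (`K = G`), and
  `G.bd i ∈ G.D`: contradiction.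
* `Sim.iter`: strictly below: all darts of the vertex and their inverses are explored (if
  `inv x` were inner in `G` then `x = inv (inv x) ∈ G.D`); iterate `rot_step`.
* `Sim.deg`: `deg` is the least period `> 0`; `φ` is injective on explored darts.
* `Sim.abv_iff`: not on the line (`on_iff`), and inner (`inner_iff`): a vertex is strictly above
  iff it is not on the line and its dart is inner (`trich`, `not_on_of_abv`).
-/

namespace Pool.Agent.Spd

namespace HPT

variable {H G H' G' K K' : HPT} {φ ψ : ℕ → ℕ}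

private theorem sameV_bd_iff (T : Sub K H) (d : ℕ) (i : ℤ) :
    H.M.SameV (K.M.bd i) d ↔ H.M.SameV (H.M.inv (K.M.bd (i - 1))) d := by
  have h1 : H.M.SameV (H.M.inv (K.M.bd (i - 1))) (K.M.bd i) := by
    have := T.cutting.path (i - 1)
    rwa [sub_add_cancel] at this
  have h2 : H.M.inv (K.M.bd (i - 1)) ∈ H.M.D :=
    H.ok.inv_mem _ (T.inner (K.ok.bd_inner (i - 1))).1
  exact ⟨fun h => H.ok.sameV_trans h1 h, fun h => H.ok.sameV_trans (H.ok.sameV_symm h2 h1) h⟩

/-- Position on the line of a coarser region `K`. -/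
theorem Sim.on_iff (S : Sub G H) (S' : Sub G' H') (h : Sim H G H' G' φ ψ)
    (hK : Sim H K H' K' φ ψ) (T : Sub K H) (T' : Sub K' H') (GK : Sub G K) {d : ℕ}
    (hd : d ∈ H.M.D) (hn : ¬ G.M.Inner d) (i : ℤ) :
    H.M.SameV (K.M.bd i) d ↔ H'.M.SameV (K'.M.bd i) (φ d) := by
  have h2 : H.M.inv (K.M.bd (i - 1)) ∈ H.M.D :=
    H.ok.inv_mem _ (T.inner (K.ok.bd_inner (i - 1))).1
  have h3 : ¬ G.M.Inner (H.M.inv (K.M.bd (i - 1))) := fun hi =>
    T.cutting.line_out (i - 1) (GK.inner hi)
  rw [sameV_bd_iff T, sameV_bd_iff T', ← hK.line (i - 1)]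
  exact Sim.sameV S S' h h2 h3 hd hn

private theorem not_inner_of_blw {d : ℕ} (hb : Blw H G d) : ¬ G.M.Inner d := fun hi =>
  hb d (H.ok.sameV_refl d) hi.1

theorem Sim.blw (S : Sub G H) (S' : Sub G' H') (h : Sim H G H' G' φ ψ) {d : ℕ}
    (hd : d ∈ H.M.D) (hb : Blw H G d) : Blw H' G' (φ d) := by
  have hn : ¬ G.M.Inner d := not_inner_of_blw hb
  obtain ⟨h1, h2, -⟩ := h.map d hd hn
  rcases trich S' h1 with h3 | ⟨i, h3⟩ | h3
  · exact h3
  · exact absurd ⟨i, (Sim.on_iff S S' h h S S' (Sub.refl G) hd hn i).2 h3⟩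
      (not_on_of_blw S hd hb)
  · exact absurd h3 (not_abv_of_not_inner h2)

theorem Sim.iter (S : Sub G H) (h : Sim H G H' G' φ ψ) {d : ℕ}
    (hd : d ∈ H.M.D) (hb : Blw H G d) (k : ℕ) :
    φ (H.M.rot^[k] d) = H'.M.rot^[k] (φ d) := by
  induction k with
  | zero => rfl
  | succ k ih =>
    have hx : H.M.SameV d (H.M.rot^[k] d) := ⟨k, rfl⟩
    have h1 : ¬ G.M.Inner (H.M.rot^[k] d) := not_inner_of_blw (blw_sameV S hd hx hb)
    rw [Function.iterate_succ_apply', Function.iterate_succ_apply', ← ih]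
    exact Sim.rot_step h (H.ok.iter_mem hd k) h1 (adj_not_cross S hd hb hx).2

theorem Sim.deg (S : Sub G H) (S' : Sub G' H') (h : Sim H G H' G' φ ψ) {d : ℕ}
    (hd : d ∈ H.M.D) (hb : Blw H G d) : H'.deg (φ d) = H.deg d := by
  have hn : ¬ G.M.Inner d := not_inner_of_blw hb
  unfold HPT.deg
  rw [Function.minimalPeriod_eq_minimalPeriod_iff]
  intro k
  have hx : H.M.SameV d (H.M.rot^[k] d) := ⟨k, rfl⟩
  have h1 : ¬ G.M.Inner (H.M.rot^[k] d) := not_inner_of_blw (blw_sameV S hd hx hb)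
  have h2 := h.map _ (H.ok.iter_mem hd k) h1
  have h3 := h.map d hd hn
  unfold Function.IsPeriodicPt Function.IsFixedPt
  rw [← Sim.iter S h hd hb k]
  constructor
  · intro h4
    rw [← h2.2.2, h4, h3.2.2]
  · intro h4
    rw [h4]

private theorem abv_iff_aux (T : Sub K H) {d : ℕ} (hd : d ∈ H.M.D) :
    Abv H K d ↔ ¬ On H K d ∧ K.M.Inner d := by
  constructor
  · intro h
    exact ⟨not_on_of_abv T hd h, (h d (H.ok.sameV_refl d)).1⟩
  · rintro ⟨h1, h2⟩
    rcases trich T hd with h3 | h3 | h3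
    · exact absurd h2 (not_inner_of_blw h3)
    · exact absurd h3 h1
    · exact h3

theorem Sim.abv_iff (S : Sub G H) (S' : Sub G' H') (h : Sim H G H' G' φ ψ)
    (hK : Sim H K H' K' φ ψ) (T : Sub K H) (T' : Sub K' H') (GK : Sub G K) {d : ℕ}
    (hd : d ∈ H.M.D) (hn : ¬ G.M.Inner d) :
    Abv H K d ↔ Abv H' K' (φ d) := by
  rw [abv_iff_aux T hd, abv_iff_aux T' (h.map d hd hn).1, Sim.inner_iff h hK T T' hd hn]
  have : On H K d ↔ On H' K' (φ d) :=
    exists_congr fun i => Sim.on_iff S S' h hK T T' GK hd hn i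
  rw [this]

end HPT

end Pool.Agent.Spd
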