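import Pool.Agent.Spd.SimA

/-!
(Part `SimB1`: `exp_rot`, `Sim.rot_step`, `Sim.sameV_mp`, `Sim.sameV`.  The text below is the common header of the parts.)

# SPD S2: isomorphisms between explored parts: rotation and vertices

Recall `rot d = fc (inv d)`.  Explored = dart of `H`, not inner in `G`.

* `Sim.rot_step`: `d` and `inv d` explored: `φ (rot d) = φ (fc (inv d)) = fc (φ (inv d)) =
  fc (inv (φ d))`.
* `exp_rot`: `rot d` is explored iff `inv d` is (`fc_inner_iff`).
* `Sim.sameV_mp` (KEY): let `rot^[n] d = e`, `d`, `e` explored; strong induction on `n`.  `n = 0`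
  is trivial.  If `inv d` is explored, then `rot d` is explored, `φ (rot d) = rot (φ d)`, and the
  induction hypothesis applies to `rot d`, `n - 1`.  Otherwise `inv d` is inner in `G`, so
  `inv d = G.bd j` (`Sub.line_of`), `d = inv (G.bd j)`, and `SameV d (G.bd (j+1))` (`path`).  Let
  `M` be minimal with `rot^[M] d = G.bd (j+1)` (`M > 0`).  For `0 < m ≤ M` the dart `rot^[m] d` is
  inner in `G`: `rot d = fc (G.bd j)` is; if `x = rot^[m] d` is inner in `G` and `m < M`, then
  `inv x` is inner in `G`, since otherwise `x = G.bd l` with the same origin as `G.bd (j+1)`, so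
  `x = G.bd (j+1)` (`simple`), against minimality; so `rot x = fc (inv x)` is inner.
  As `e` is explored, `n > M`, and `rot^[M+1] d = fc (inv (G.bd (j+1)))` is explored.  By the
  induction hypothesis for `rot^[M+1] d` and `n - M - 1`:
  `SameV (φ (fc (inv (G.bd (j+1))))) (φ e)`, where `φ (fc (inv (G.bd (j+1)))) =
  fc (inv (G'.bd (j+1))) = rot (G'.bd (j+1))`, which has the origin of
  `inv (G'.bd j) = φ (inv (G.bd j)) = φ d` (`path` for `G'`).
* `Sim.sameV`: both directions with `Sim.symm`.
* `Sim.on_iff`: `K.bd i` has the origin of `inv (K.bd (i-1))` (`path`), which is not inner in `K`,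
  hence explored, and `φ (inv (K.bd (i-1))) = inv (K'.bd (i-1))` by `hK.line`.
* `Sim.blw`: no dart of the vertex is in `G.D`.  If `e' ~ φ d` is in `G'.D`, then the vertex of `φ d`
  is not strictly below `G'`, and not above (`φ d` is not inner in `G'`), so it is on the line of
  `G'` (`trich`): `SameV (G'.bd i) (φ d)`, so `SameV (G.bd i) d` by `on_iff` (`K = G`), and
  `G.bd i ∈ G.D`: contradiction.
* `Sim.iter`: strictly below: all darts of the vertex and their inverses are explored (if
  `inv x` were inner in `G` then `x = inv (inv x) ∈ G.D`); iterate `rot_step`.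
* `Sim.deg`: `deg` is the least period `> 0`; `φ` is injective on explored darts.
* `Sim.abv_iff`: not on the line (`on_iff`), and inner (`inner_iff`): a vertex is strictly above
  iff it is not on the line and its dart is inner (`trich`, `not_on_of_abv`).
-/

namespace Pool.Agent.Spd

namespace HPT

variable {H G H' G' K K' : HPT} {φ ψ : ℕ → ℕ}

theorem exp_rot (S : Sub G H) {d : ℕ} (hd : d ∈ H.M.D) :
    G.M.Inner (H.M.rot d) ↔ G.M.Inner (H.M.inv d) :=
  fc_inner_iff S (H.ok.inv_mem d hd)

theorem Sim.rot_step (h : Sim H G H' G' φ ψ) {d : ℕ}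
    (hd : d ∈ H.M.D) (h1 : ¬ G.M.Inner d) (h2 : ¬ G.M.Inner (H.M.inv d)) :
    φ (H.M.rot d) = H'.M.rot (φ d) := by
  unfold PreMap.rot
  rw [h.fc _ (H.ok.inv_mem d hd) h2, h.inv d hd h1 h2]

theorem Sim.sameV_mp (S : Sub G H) (S' : Sub G' H') (h : Sim H G H' G' φ ψ) {d e : ℕ}
    (hd : d ∈ H.M.D) (h1 : ¬ G.M.Inner d) (h2 : ¬ G.M.Inner e)
    (hde : H.M.SameV d e) : H'.M.SameV (φ d) (φ e) := by
  obtain ⟨n, hn⟩ := hde
  induction n using Nat.strong_induction_on generalizing d with
  | _ n ih =>
    rcases Nat.eq_zero_or_pos n with h0 | hpos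
    · subst h0
      rw [← hn]
      exact ⟨0, rfl⟩
    obtain ⟨m, rfl⟩ : ∃ m, n = m + 1 := ⟨n - 1, by omega⟩
    by_cases h3 : G.M.Inner (H.M.inv d)
    · have h4 : ¬ G.M.Inner (H.M.inv (H.M.inv d)) := by
        rw [H.ok.inv_inv d hd]
        exact h1
      obtain ⟨j, hj⟩ := S.line_of h3 h4
      have hdj : d = H.M.inv (G.M.bd j) := by
        rw [← hj, H.ok.inv_inv d hd]
      have hV : H.M.SameV d (G.M.bd (j + 1)) := by
        rw [hdj]
        exact S.cutting.path j
      obtain ⟨M, hM, hmin⟩ : ∃ M, H.M.rot^[M] d = G.M.bd (j + 1) ∧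
          ∀ m < M, H.M.rot^[m] d ≠ G.M.bd (j + 1) := by
        classical
        exact ⟨Nat.find hV, Nat.find_spec hV, fun m hm => Nat.find_min hV hm⟩
      have hin : ∀ m, 1 ≤ m → m ≤ M → G.M.Inner (H.M.rot^[m] d) := by
        intro m hm
        induction m, hm using Nat.le_induction with
        | base =>
          intro _
          exact (exp_rot S hd).2 h3
        | succ m hm ih2 =>
          intro hmM
          have h5 := ih2 (by omega)
          have hx : H.M.rot^[m] d ∈ H.M.D := H.ok.iter_mem hd m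
          have h6 : G.M.Inner (H.M.inv (H.M.rot^[m] d)) := by
            by_contra h7
            obtain ⟨l, hl⟩ := S.line_of h5 h7
            have h8 : H.M.SameV (H.M.rot^[m] d) (G.M.bd (j + 1)) :=
              H.ok.sameV_trans (H.ok.sameV_symm hd ⟨m, rfl⟩) hV
            rw [hl] at h8
            have h9 := S.cutting.simple l (j + 1) h8
            exact hmin m (by omega) (by rw [hl, h9])
          rw [Function.iterate_succ_apply']
          exact (exp_rot S hx).2 h6
      have hnM : M < m + 1 := by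
        by_contra hc
        have h5 := hin (m + 1) (by omega) (by omega)
        rw [hn] at h5
        exact h2 h5
      have h5 : H.M.rot^[M + 1] d = H.M.fc (H.M.inv (G.M.bd (j + 1))) := by
        rw [Function.iterate_succ_apply', hM]
        rfl
      have hib : H.M.inv (G.M.bd (j + 1)) ∈ H.M.D :=
        H.ok.inv_mem _ (S.memD (G.ok.bd_mem (j + 1)))
      have hne : ¬ G.M.Inner (H.M.inv (G.M.bd (j + 1))) := S.cutting.line_out (j + 1)
      have hx : H.M.rot^[M + 1] d ∈ H.M.D := H.ok.iter_mem hd _
      have hxn : ¬ G.M.Inner (H.M.rot^[M + 1] d) := by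
        rw [h5, fc_inner_iff S hib]
        exact hne
      have h6 := ih (m - M) (by omega) hx hxn (by
        rw [← Function.iterate_add_apply, show m - M + (M + 1) = m + 1 by omega]
        exact hn)
      have h7 : φ (H.M.rot^[M + 1] d) = H'.M.rot (G'.M.bd (j + 1)) := by
        rw [h5, h.fc _ hib hne, h.line (j + 1)]
        rfl
      rw [h7] at h6
      have h8 : φ d = H'.M.inv (G'.M.bd j) := by
        rw [hdj, h.line]
      rw [h8]
      exact H'.ok.sameV_trans (H'.ok.sameV_trans (S'.cutting.path j) (H'.ok.sameV_rot _)) h6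
    · have h4 : H.M.rot d ∈ H.M.D := H.ok.rot_mem hd
      have h5 : ¬ G.M.Inner (H.M.rot d) := fun hc => h3 ((exp_rot S hd).1 hc)
      have h6 := ih m (by omega) h4 h5 (by
        rw [← Function.iterate_succ_apply]
        exact hn)
      rw [h.rot_step hd h1 h3] at h6
      exact H'.ok.sameV_trans (H'.ok.sameV_rot _) h6

theorem Sim.sameV (S : Sub G H) (S' : Sub G' H') (h : Sim H G H' G' φ ψ) {d e : ℕ}
    (hd : d ∈ H.M.D) (h1 : ¬ G.M.Inner d) (he : e ∈ H.M.D) (h2 : ¬ G.M.Inner e) :
    H.M.SameV d e ↔ H'.M.SameV (φ d) (φ e) := by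
  refine ⟨Sim.sameV_mp S S' h hd h1 h2, fun h3 => ?_⟩
  obtain ⟨a1, a2, a3⟩ := h.map d hd h1
  obtain ⟨-, b2, b3⟩ := h.map e he h2
  have h4 := Sim.sameV_mp S' S (h.symm S S') a1 a2 b2 h3
  rwa [a3, b3] at h4

end HPT

end Pool.Agent.Spd
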