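import Pool.Agent.Spd.SimB

/-!
# SPD S3: extension of an isomorphism of explored parts by a finite set of inner darts

`X` is a finite set of inner darts of `G`, closed under `fc`; the region `K` has the inner darts of
`G` outside `X`; the same for `X'`, `G'`, `K'`.  `f : X → X'` with inverse `g` is compatible with
`fc` and with `inv` inside `X`; the line darts of `G` in `X` correspond; the new line darts
correspond.

Define `φ₁ d = f d` for `d ∈ X` and `φ₁ d = φ d` otherwise; `ψ₁ d' = g d'` for `d' ∈ X'` and `ψ d'`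
otherwise.  The darts of `H` explored for `K` are those explored for `G` and those of `X` (disjoint
union, since the darts of `X` are inner in `G`).

* `map`, `map'`: by cases.
* `inv`: let `d`, `inv d` be explored for `K`.  Both explored for `G`: `h.inv`.  Both in `X`:
`hinv`.
  `d ∈ X`, `inv d` explored for `G`: `d` is inner in `G` and `inv d` is not, so `d = G.bd j`
  (`Sub.line_of`), `f d = G'.bd j` by `hln`, `φ (inv d) = inv (G'.bd j)` by `h.line`.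
  `inv d ∈ X`, `d` explored for `G`: `inv d = G.bd j`, `d = inv (G.bd j)`,
  `φ d = inv (G'.bd j)`, `f (inv d) = G'.bd j = inv (inv (G'.bd j))`.
* `fc`: `fc` preserves `X` and the explored darts for `G` (`fc_inner_iff`).
* `line`: by `hnew`: the first alternative is about `inv (K.bd i) ∈ X`; in the second one
  `K.bd i = G.bd j`, `K'.bd i = G'.bd j`: `h.line` (`inv (G.bd j)` is not inner in `G`, not in `X`).
* `bdy`: outer darts of `H` are not inner in `G`.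
-/

namespace Pool.Agent.Spd

namespace HPT

theorem sim_extend {H G H' G' K K' : HPT} {φ ψ f g : ℕ → ℕ} {X X' : Set ℕ}
    (S : Sub G H) (S' : Sub G' H') (h : Sim H G H' G' φ ψ)
    (hX : ∀ d ∈ X, G.M.Inner d) (hX' : ∀ d ∈ X', G'.M.Inner d)
    (hK : ∀ d, K.M.Inner d ↔ G.M.Inner d ∧ d ∉ X)
    (hK' : ∀ d, K'.M.Inner d ↔ G'.M.Inner d ∧ d ∉ X')
    (hfc : ∀ d ∈ X, H.M.fc d ∈ X ∧ f (H.M.fc d) = H'.M.fc (f d))
    (hf : ∀ d ∈ X, f d ∈ X' ∧ g (f d) = d) (hg : ∀ d ∈ X', g d ∈ X ∧ f (g d) = d)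
    (hinv : ∀ d ∈ X, H.M.inv d ∈ X → f (H.M.inv d) = H'.M.inv (f d))
    (hln : ∀ j, G.M.bd j ∈ X → f (G.M.bd j) = G'.M.bd j)
    (hnew : ∀ i, (H.M.inv (K.M.bd i) ∈ X ∧ f (H.M.inv (K.M.bd i)) = H'.M.inv (K'.M.bd i)) ∨
      ∃ j, K.M.bd i = G.M.bd j ∧ K'.M.bd i = G'.M.bd j) :
    ∃ φ₁ ψ₁, Sim H K H' K' φ₁ ψ₁ ∧ (∀ d ∈ H.M.D, ¬ G.M.Inner d → φ₁ d = φ d) ∧
      (∀ d ∈ H'.M.D, ¬ G'.M.Inner d → ψ₁ d = ψ d) := by
  classical
  -- not inner in `K` and not in `X`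
  have hN : ∀ d, ¬ K.M.Inner d → d ∉ X → ¬ G.M.Inner d := fun d h1 h2 h3 => h1 ((hK d).2 ⟨h3, h2⟩)
  have hN' : ∀ d, ¬ K'.M.Inner d → d ∉ X' → ¬ G'.M.Inner d :=
    fun d h1 h2 h3 => h1 ((hK' d).2 ⟨h3, h2⟩)
  have hout : ∀ j, ¬ G.M.Inner (H.M.inv (G.M.bd j)) := fun j => S.cutting.line_out j
  have hout' : ∀ j, ¬ G'.M.Inner (H'.M.inv (G'.M.bd j)) := fun j => S'.cutting.line_out j
  have hbD : ∀ j, G.M.bd j ∈ H.M.D := fun j => S.memD (G.ok.bd_mem j)
  have hbD' : ∀ j, G'.M.bd j ∈ H'.M.D := fun j => S'.memD (G'.ok.bd_mem j)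
  have e1 : ∀ d ∈ X, (if d ∈ X then f d else φ d) = f d := fun d hd => if_pos hd
  have e2 : ∀ d, d ∉ X → (if d ∈ X then f d else φ d) = φ d := fun d hd => if_neg hd
  have e3 : ∀ d ∈ X', (if d ∈ X' then g d else ψ d) = g d := fun d hd => if_pos hd
  have e4 : ∀ d, d ∉ X' → (if d ∈ X' then g d else ψ d) = ψ d := fun d hd => if_neg hd
  refine ⟨fun d => if d ∈ X then f d else φ d, fun d => if d ∈ X' then g d else ψ d,
    ⟨?_, ?_, ?_, ?_, ?_, ?_⟩, ?_, ?_⟩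
  · -- map
    intro d hd hn
    by_cases hdX : d ∈ X
    · obtain ⟨h1, h2⟩ := hf d hdX
      simp only [e1 d hdX, e3 _ h1]
      exact ⟨S'.memD (hX' _ h1).1, fun h3 => ((hK' _).1 h3).2 h1, h2⟩
    · obtain ⟨h1, h2, h3⟩ := h.map d hd (hN d hn hdX)
      have h4 : φ d ∉ X' := fun h5 => h2 (hX' _ h5)
      simp only [e2 d hdX, e4 _ h4]
      exact ⟨h1, fun h5 => h2 ((hK' _).1 h5).1, h3⟩
  · -- map'
    intro d hd hn
    by_cases hdX : d ∈ X'
    · obtain ⟨h1, h2⟩ := hg d hdX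
      simp only [e3 d hdX, e1 _ h1]
      exact ⟨S.memD (hX _ h1).1, fun h3 => ((hK _).1 h3).2 h1, h2⟩
    · obtain ⟨h1, h2, h3⟩ := h.map' d hd (hN' d hn hdX)
      have h4 : ψ d ∉ X := fun h5 => h2 (hX _ h5)
      simp only [e4 d hdX, e2 _ h4]
      exact ⟨h1, fun h5 => h2 ((hK _).1 h5).1, h3⟩
  · -- inv
    intro d hd hn1 hn2
    by_cases hdX : d ∈ X <;> by_cases hiX : H.M.inv d ∈ X
    · simp only [e1 d hdX, e1 _ hiX]
      exact hinv d hdX hiX
    · obtain ⟨j, hj⟩ := S.line_of (hX d hdX) (hN _ hn2 hiX)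
      simp only [e1 d hdX, e2 _ hiX]
      rw [hj, h.line j, hln j (hj ▸ hdX)]
    · have h1 : ¬ G.M.Inner (H.M.inv (H.M.inv d)) := by
        rw [H.ok.inv_inv d hd]
        exact hN d hn1 hdX
      obtain ⟨j, hj⟩ := S.line_of (hX _ hiX) h1
      have h2 : d = H.M.inv (G.M.bd j) := by rw [← hj, H.ok.inv_inv d hd]
      simp only [e2 d hdX, e1 _ hiX]
      rw [hj, hln j (hj ▸ hiX), h2, h.line j, H'.ok.inv_inv _ (hbD' j)]
    · simp only [e2 d hdX, e2 _ hiX]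
      exact h.inv d hd (hN d hn1 hdX) (hN _ hn2 hiX)
  · -- fc
    intro d hd hn
    by_cases hdX : d ∈ X
    · obtain ⟨h1, h2⟩ := hfc d hdX
      simp only [e1 d hdX, e1 _ h1]
      exact h2
    · have h1 := hN d hn hdX
      have h2 : H.M.fc d ∉ X := fun h3 => h1 ((fc_inner_iff S hd).1 (hX _ h3))
      simp only [e2 d hdX, e2 _ h2]
      exact h.fc d hd h1
  · -- line
    intro i
    rcases hnew i with ⟨h1, h2⟩ | ⟨j, h1, h2⟩
    · simp only [e1 _ h1]
      exact h2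
    · rw [h1, h2]
      have h3 : H.M.inv (G.M.bd j) ∉ X := fun h4 => hout j (hX _ h4)
      simp only [e2 _ h3]
      exact h.line j
  · -- bdy
    intro i
    have h3 : H.M.inv (H.M.bd i) ∉ X := fun h4 => (S.inner (hX _ h4)).2 i rfl
    simp only [e2 _ h3]
    exact h.bdy i
  · intro d hd hn
    exact e2 d fun h4 => hn (hX _ h4)
  · intro d hd hn
    exact e4 d fun h4 => hn (hX' _ h4)

end HPT

end Pool.Agent.Spd
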