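import Pool.Agent.Spd.SimC
import Pool.Agent.Spd.FillIso

/-!
(Part `SimD2`: `sim_peel_R`.  The text below is the common header of the parts.)

# SPD S4: one peeling step extends an isomorphism of explored parts

`sim_extend` with `K = G.rem`, `K' = G'.rem`, `X` = root triangle and hole.  Notation
`r = G.bd 0`, `a = G.fc r`, `b = G.fc a` (all inner in `G`, `G.fc = H.fc` there by `Sub.fc_eq`),
`r', a', b'` for `G'`.

* `sim_peel_N`: `X = {r, a, b}`, `f r = r'`, `f a = a'`, `f b = b'` (three different darts,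
  `face_ne`), `g` its inverse.  `hinv` is vacuous: `inv r` is not inner in `G`; `inv a`, `inv b` are
  inner in `G.rem` (they are line darts of `G.rem`: `lineN`), so not in `X`.  `hln`: `G.bd j ∈ X`:
  `G.bd 0 = r` goes to `r'`; `G.bd j = a` or `b` is impossible (the origins of line darts are on the
  line, the origin of `b` is not; `a = G.bd j` has its target, the origin of `b`, on the line).
  `hnew`: `lineN`: `inv (inv b) = b`, `inv (inv a) = a`, the other indices are old line darts.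
* `sim_peel_R`: `step_R` for `G` and `G'` with the same `k`, `τ`: holes `F`, `F'`;
  `fill_iso` for `G.M`, `G'.M`, `holeR G.M k`, `holeR G'.M k` gives `f₀ : F → F'`, `g₀`.
  `X = {r, a, b} ∪ F` (`hole_disj`: disjoint), `f = f₀` on `F`.  `inv` inside `X`: `d, inv d ∈ F`:
  `f₀`; `inv r` is not inner; `inv b` is the line dart number 0 of `G.rem` (`lineR`), not in `X`;
  `inv a`: it is the last dart (number `k`) of `holeR`; if `inv a ∈ F` then `f₀ (inv a) = inv a'`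
  (third clause of `fill_iso`), which treats `d = a` and `d = inv a` (`inv (inv a) = a`); if
  `inv a ∉ F`, `inv a ∈ {r, a, b}` is impossible (`inv_ne`, `inv_ne_fc`, `inv_ne_fc2`).
  `hln`: `G.bd j ∈ F`: by `Bounds`, `G.bd j ∈ holeR` (its inverse is not inner, so not in `F`), it is
  not `inv a` (whose inverse `a` is inner), so `G.bd j = G.bd (m + 1)`, `m < k`, `j = m + 1`
  (`bd_inj`), and the third clause of `fill_iso` gives `f₀ (G.bd j) = G'.bd j`.  `G.bd j = r`: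
  `j = 0`.  `G.bd j = a`: its target is the origin of `b`, i.e. of `G.bd (k+1)`, so `j = k`; the
  origin of `a` is that of `G.bd 1`, so `j = 1 = k`; `τ : Tri 1`.  By `Bounds`: `holeR =
  [G.bd 1, inv (G.bd 1)]`, so `F = ∅` (`Bounds.of_deg`), `F' = ∅` too (same code: `fill_card`), and
  `G'.bd 1 ∉ F'` gives by `Bounds.head_mem` that `holeR G'.M 1` is degenerate:
  `inv a' = inv (G'.bd 1)`, `a' = G'.bd 1`.  `G.bd j = b`: origin of `G.bd (k+1)`, target of `G.bd 0`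
  ... : `j = k + 1` and its target, the origin of `r`, is that of `G.bd (k + 2)`: impossible.
  `hnew`: `lineR`: index 0: `inv (inv b) = b`, the others are old line darts.
* `sim_peel_L`: the mirror image with `holeL`, `lineL`; the roles of `a` and `b` are exchanged
  (`inv b` is the last dart of the hole, `inv a` the new line dart).
-/

namespace Pool.Agent.Spd

namespace HPT

private theorem holeR_getD_lt (M : PreMap) {k i : ℕ} (hi : i < k) :
    (holeR M k).getD i 0 = M.bd (i + 1) := by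
  unfold holeR
  rw [List.getD_append _ _ _ _ (by simpa using hi)]
  simp [List.getD, hi]

private theorem holeR_getD_last (M : PreMap) (k : ℕ) :
    (holeR M k).getD k 0 = M.inv (M.fc (M.bd 0)) := by
  unfold holeR
  rw [List.getD_append_right _ _ _ _ (by simp)]
  simp

private theorem mem_holeR {M : PreMap} {k d : ℕ} (hd : d ∈ holeR M k) :
    (∃ m < k, d = M.bd (m + 1)) ∨ d = M.inv (M.fc (M.bd 0)) := by
  unfold holeR at hd
  rw [List.mem_append, List.mem_map] at hd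
  rcases hd with ⟨m, hm, rfl⟩ | hd
  · exact Or.inl ⟨m, List.mem_range.1 hm, rfl⟩
  · exact Or.inr (List.mem_singleton.1 hd)

/-- Origin index of a boundary dart equal to `a`: it is `1 = k`. -/
private theorem bd_eq_a {M : PreMap} (h : M.IsHPT) {k : ℕ} {j : ℤ}
    (hw : M.SameV (M.bd (k + 1)) (M.fc (M.fc (M.bd 0)))) (hj : M.bd j = M.fc (M.bd 0)) :
    j = 1 ∧ k = 1 := by
  have hr := h.bd_mem 0
  have ha := h.fc_mem hr
  have hb := h.fc_mem ha
  have t1 := h.tgt hr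
  have t2 := h.tgt ha
  have n0 := h.bd_next 0
  have nj := h.bd_next j
  rw [hj] at nj
  have e1 : M.SameV (M.bd (0 + 1)) (M.bd j) := by
    rw [hj]
    exact h.sameV_trans (h.sameV_symm (h.inv_mem _ hr) n0) t1
  have e2 : M.SameV (M.bd (j + 1)) (M.bd (k + 1)) :=
    h.sameV_trans (h.sameV_symm (h.inv_mem _ ha) nj)
      (h.sameV_trans t2 (h.sameV_symm (h.bd_mem _) hw))
  have e3 := h.simple _ _ e1
  have e4 := h.simple _ _ e2
  constructor
  · omega
  · have : (k : ℤ) = 1 := by omega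
    exact_mod_cast this

private theorem bd_ne_b {M : PreMap} (h : M.IsHPT) {k : ℕ} (j : ℤ)
    (hw : M.SameV (M.bd (k + 1)) (M.fc (M.fc (M.bd 0)))) :
    M.bd j ≠ M.fc (M.fc (M.bd 0)) := by
  intro hj
  have hr := h.bd_mem 0
  have ha := h.fc_mem hr
  have hb := h.fc_mem ha
  rw [← hj] at hw
  have e1 := h.simple _ _ hw
  have t3 := h.tgt hb
  rw [h.fc_tri _ (h.bd_inner 0)] at t3
  have nj := h.bd_next j
  rw [hj] at nj
  have e2 := h.simple _ _ (h.sameV_trans (h.sameV_symm (h.inv_mem _ hb) nj) t3)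
  omega

/-- Data of the removed part for the outcome `R`. -/
private structure Dat (H G : HPT) (k : ℕ) (F : Finset ℕ) : Prop where
  sub : Sub G H
  pos : 0 < k
  wth : G.M.SameV (G.M.bd (k + 1)) (G.M.fc (G.M.fc (G.M.bd 0)))
  bnd : Bounds G.M (holeR G.M k) F
  inn : ∀ d, G.rem.M.Inner d ↔ G.M.Inner d ∧ d ≠ G.M.bd 0 ∧ d ≠ G.M.fc (G.M.bd 0) ∧
    d ≠ G.M.fc (G.M.fc (G.M.bd 0)) ∧ d ∉ F
  lin : G.rem.M.bd = lineR G.M k

/-- The removed darts. -/
private def Xs (G : HPT) (F : Finset ℕ) : Set ℕ :=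
  {d | d = G.M.bd 0 ∨ d = G.M.fc (G.M.bd 0) ∨ d = G.M.fc (G.M.fc (G.M.bd 0)) ∨ d ∈ F}

open Classical in
/-- The map on the removed darts. -/
private noncomputable def ff (G G' : HPT) (f₀ : ℕ → ℕ) (d : ℕ) : ℕ :=
  if d = G.M.bd 0 then G'.M.bd 0 else if d = G.M.fc (G.M.bd 0) then G'.M.fc (G'.M.bd 0) else
    if d = G.M.fc (G.M.fc (G.M.bd 0)) then G'.M.fc (G'.M.fc (G'.M.bd 0)) else f₀ d

section

variable {H G H' G' : HPT} {k : ℕ} {F F' : Finset ℕ} {f₀ g₀ : ℕ → ℕ}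

private theorem ne_ra (G : HPT) : G.M.fc (G.M.bd 0) ≠ G.M.bd 0 := by
  intro e
  have := (G.ok.face_ne (G.ok.bd_inner 0)).1
  rw [e] at this
  exact this (G.ok.sameV_refl _)

private theorem ne_ab (G : HPT) : G.M.fc (G.M.fc (G.M.bd 0)) ≠ G.M.fc (G.M.bd 0) := by
  intro e
  have := (G.ok.face_ne (G.ok.bd_inner 0)).2.1
  rw [e] at this
  exact this (G.ok.sameV_refl _)

private theorem ne_rb (G : HPT) : G.M.fc (G.M.fc (G.M.bd 0)) ≠ G.M.bd 0 := by
  intro e
  have := (G.ok.face_ne (G.ok.bd_inner 0)).2.2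
  rw [e] at this
  exact this (G.ok.sameV_refl _)

private theorem ff_r (G G' : HPT) (f₀ : ℕ → ℕ) : ff G G' f₀ (G.M.bd 0) = G'.M.bd 0 :=
  if_pos rfl

private theorem ff_a (G G' : HPT) (f₀ : ℕ → ℕ) :
    ff G G' f₀ (G.M.fc (G.M.bd 0)) = G'.M.fc (G'.M.bd 0) := by
  unfold ff
  rw [if_neg (ne_ra G), if_pos rfl]

private theorem ff_b (G G' : HPT) (f₀ : ℕ → ℕ) :
    ff G G' f₀ (G.M.fc (G.M.fc (G.M.bd 0))) = G'.M.fc (G'.M.fc (G'.M.bd 0)) := by
  unfold ff
  rw [if_neg (ne_rb G), if_neg (ne_ab G), if_pos rfl]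

private theorem Dat.disj (D : Dat H G k F) :
    G.M.bd 0 ∉ F ∧ G.M.fc (G.M.bd 0) ∉ F ∧ G.M.fc (G.M.fc (G.M.bd 0)) ∉ F :=
  hole_disj G.ok D.pos (Or.inl ⟨D.wth, D.bnd⟩)

private theorem ff_F (D : Dat H G k F) (G' : HPT) (f₀ : ℕ → ℕ) {d : ℕ} (hd : d ∈ F) :
    ff G G' f₀ d = f₀ d := by
  obtain ⟨h1, h2, h3⟩ := D.disj
  have e1 : d ≠ G.M.bd 0 := by
    rintro rfl
    exact h1 hd
  have e2 : d ≠ G.M.fc (G.M.bd 0) := by
    rintro rfl
    exact h2 hd
  have e3 : d ≠ G.M.fc (G.M.fc (G.M.bd 0)) := by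
    rintro rfl
    exact h3 hd
  unfold ff
  rw [if_neg e1, if_neg e2, if_neg e3]

private theorem Dat.inner (D : Dat H G k F) {d : ℕ} (hd : d ∈ Xs G F) : G.M.Inner d := by
  have hr := G.ok.bd_inner 0
  have ha := G.ok.fc_inner _ hr
  have hb := G.ok.fc_inner _ ha
  rcases hd with rfl | rfl | rfl | hd
  · exact hr
  · exact ha
  · exact hb
  · exact (D.bnd.1 d hd).1

private theorem Dat.innK (D : Dat H G k F) (d : ℕ) :
    G.rem.M.Inner d ↔ G.M.Inner d ∧ d ∉ Xs G F := by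
  rw [D.inn d]
  have e : d ∈ Xs G F ↔ (d = G.M.bd 0 ∨ d = G.M.fc (G.M.bd 0) ∨
      d = G.M.fc (G.M.fc (G.M.bd 0)) ∨ d ∈ F) := Iff.rfl
  rw [e]
  tauto

private theorem ff_mem (D : Dat H G k F)
    (h₀ : ∀ e ∈ F, f₀ e ∈ F' ∧ g₀ (f₀ e) = e) (D' : Dat H' G' k F')
    {d : ℕ} (hd : d ∈ Xs G F) : ff G G' f₀ d ∈ Xs G' F' ∧ ff G' G g₀ (ff G G' f₀ d) = d := by
  rcases hd with rfl | rfl | rfl | hd
  · rw [ff_r, ff_r]
    exact ⟨Or.inl rfl, rfl⟩
  · rw [ff_a, ff_a]
    exact ⟨Or.inr (Or.inl rfl), rfl⟩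
  · rw [ff_b, ff_b]
    exact ⟨Or.inr (Or.inr (Or.inl rfl)), rfl⟩
  · obtain ⟨h1, h2⟩ := h₀ d hd
    rw [ff_F D G' f₀ hd, ff_F D' G g₀ h1]
    exact ⟨Or.inr (Or.inr (Or.inr h1)), h2⟩

/-- `inv b` is a line dart of the remaining map. -/
private theorem Dat.inv_b (D : Dat H G k F) : G.M.inv (G.M.fc (G.M.fc (G.M.bd 0))) ∉ Xs G F := by
  have h1 := G.rem.ok.bd_inner 0
  have h2 : G.rem.M.bd 0 = G.M.inv (G.M.fc (G.M.fc (G.M.bd 0))) := by
    rw [D.lin]
    unfold lineR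
    rw [if_neg (lt_irrefl _), if_pos rfl]
  rw [h2, D.innK] at h1
  exact h1.2

private theorem Dat.inv_r (D : Dat H G k F) : G.M.inv (G.M.bd 0) ∉ Xs G F :=
  fun h => (D.inner h).2 0 rfl

end

theorem sim_peel_R {H G H' G' : HPT} {φ ψ : ℕ → ℕ} (S : Sub G H) (S' : Sub G' H')
    (h : Sim H G H' G' φ ψ) {k : ℕ} {τ : Tri k} (hs : G.step = Step.R k τ)
    (hs' : G'.step = Step.R k τ) :
    ∃ φ₁ ψ₁, Sim H G.rem H' G'.rem φ₁ ψ₁ ∧ (∀ d ∈ H.M.D, ¬ G.M.Inner d → φ₁ d = φ d) ∧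
      (∀ d ∈ H'.M.D, ¬ G'.M.Inner d → ψ₁ d = ψ d) := by
  have hk : 0 < k := tri_pos τ
  obtain ⟨hw, F, hF, B, hI, hl⟩ := G.step_R hs
  obtain ⟨hw', F', hF', B', hI', hl'⟩ := G'.step_R hs'
  have D : Dat H G k F := ⟨S, hk, hw, B, hI, hl⟩
  have D' : Dat H' G' k F' := ⟨S', hk, hw', B', hI', hl'⟩
  have P := holeR_poly G.ok hk hw
  have P' := holeR_poly G'.ok hk hw'
  obtain ⟨f₀, g₀, i1, i2, i3⟩ := fill_iso G.ok G'.ok τ P P' hF hF'
  have hr := G.ok.bd_inner 0
  have ha := G.ok.fc_inner _ hr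
  have hb := G.ok.fc_inner _ ha
  have hr' := G'.ok.bd_inner 0
  have ha' := G'.ok.fc_inner _ hr'
  have hb' := G'.ok.fc_inner _ ha'
  have ef : ∀ d ∈ Xs G F, H.M.fc d = G.M.fc d := fun d hd => (S.fc_eq d (D.inner hd)).symm
  have ef' : ∀ d ∈ Xs G' F', H'.M.fc d = G'.M.fc d := fun d hd => (S'.fc_eq d (D'.inner hd)).symm
  have hmem : ∀ d ∈ Xs G F, ff G G' f₀ d ∈ Xs G' F' ∧ ff G' G g₀ (ff G G' f₀ d) = d := fun d hd =>
    ff_mem D (fun e he => ⟨(i1 e he).1, (i1 e he).2.1⟩) D' hd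
  have hmem' : ∀ d ∈ Xs G' F', ff G' G g₀ d ∈ Xs G F ∧ ff G G' f₀ (ff G' G g₀ d) = d :=
    fun d hd => ff_mem D' (fun e he => ⟨(i2 e he).1, (i2 e he).2.1⟩) D hd
  -- the dart `inv a`
  have hia : G.M.inv (G.M.fc (G.M.bd 0)) ∈ Xs G F → G.M.inv (G.M.fc (G.M.bd 0)) ∈ F ∧
      f₀ (G.M.inv (G.M.fc (G.M.bd 0))) = G'.M.inv (G'.M.fc (G'.M.bd 0)) := by
    intro h1
    have h2 : G.M.inv (G.M.fc (G.M.bd 0)) ∈ F := by
      rcases h1 with h1 | h1 | h1 | h1
      · exfalso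
        apply G.ok.inv_ne_fc hr
        have h4 := G.ok.inv_inv _ ha.1
        rw [h1] at h4
        exact h4
      · exact absurd h1 (G.ok.inv_ne _ ha.1)
      · exact absurd h1 (G.ok.inv_ne_fc ha)
      · exact h1
    refine ⟨h2, ?_⟩
    have h3 := (i3 k (Nat.lt_succ_self k)).2
    rw [holeR_getD_last, holeR_getD_last] at h3
    exact h3 h2
  refine sim_extend (K := G.rem) (K' := G'.rem) (f := ff G G' f₀) (g := ff G' G g₀)
    (X := Xs G F) (X' := Xs G' F') S S' h (fun d hd => D.inner hd) (fun d hd => D'.inner hd)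
    D.innK D'.innK ?_ hmem hmem' ?_ ?_ ?_
  · -- fc
    intro d hd
    rw [ef d hd, ef' _ (hmem d hd).1]
    rcases hd with rfl | rfl | rfl | hd
    · rw [ff_a, ff_r]
      exact ⟨Or.inr (Or.inl rfl), rfl⟩
    · rw [ff_b, ff_a]
      exact ⟨Or.inr (Or.inr (Or.inl rfl)), rfl⟩
    · rw [G.ok.fc_tri _ hr, ff_b, ff_r, G'.ok.fc_tri _ hr']
      exact ⟨Or.inl rfl, rfl⟩
    · have h1 := (D.bnd.1 d hd).2
      rw [ff_F D G' f₀ hd, ff_F D G' f₀ h1]
      exact ⟨Or.inr (Or.inr (Or.inr h1)), (i1 d hd).2.2.1⟩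
  · -- inv
    intro d hd hi
    rw [← S.inv_eq] at hi ⊢
    rw [← S'.inv_eq]
    rcases hd with rfl | rfl | rfl | hd
    · exact absurd hi D.inv_r
    · obtain ⟨h1, h2⟩ := hia hi
      rw [ff_F D G' f₀ h1, ff_a, h2]
    · exact absurd hi D.inv_b
    · have hdD : d ∈ G.M.D := (D.bnd.1 d hd).1.1
      have hii := G.ok.inv_inv d hdD
      rcases hi with h1 | h1 | h1 | h1
      · exfalso
        apply D.inv_r
        rw [← h1, hii]
        exact Or.inr (Or.inr (Or.inr hd))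
      · have h2 : G.M.inv (G.M.fc (G.M.bd 0)) = d := by rw [← h1, hii]
        have h3 := (hia (by rw [h2]; exact Or.inr (Or.inr (Or.inr hd)))).2
        rw [h2] at h3
        rw [h1, ff_a, ff_F D G' f₀ hd, h3, G'.ok.inv_inv _ ha'.1]
      · exfalso
        apply D.inv_b
        rw [← h1, hii]
        exact Or.inr (Or.inr (Or.inr hd))
      · rw [ff_F D G' f₀ h1, ff_F D G' f₀ hd]
        exact (i1 d hd).2.2.2 h1
  · -- line darts in the removed part
    intro j hj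
    rcases hj with h1 | h1 | h1 | h1
    · have := G.ok.bd_inj h1
      subst this
      exact ff_r G G' f₀
    · obtain ⟨hj1, hk1⟩ := bd_eq_a G.ok hw h1
      subst hj1
      subst hk1
      rw [h1, ff_a]
      have hcs : holeR G.M 1 = [G.M.bd 1, G.M.inv (G.M.bd 1)] := by
        unfold holeR
        rw [h1]
        simp [h1]
      have hF0 : F = ∅ := by
        have B1 := D.bnd
        rw [hcs] at B1
        exact Bounds.of_deg G.ok (G.ok.bd_mem 1) B1
      have hF0' : F' = ∅ := by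
        rw [Finset.eq_empty_iff_forall_notMem]
        intro e he
        have := (i2 e he).1
        rw [hF0] at this
        exact absurd this (Finset.notMem_empty _)
      have hcs' : holeR G'.M 1 = [G'.M.bd 1, G'.M.inv (G'.M.fc (G'.M.bd 0))] := by
        unfold holeR
        simp
      have B1' := D'.bnd
      have P1' := P'
      rw [hcs'] at B1' P1'
      rcases Bounds.head_mem G'.ok P1' B1' with h2 | ⟨h2, -⟩
      · rw [hF0'] at h2
        exact absurd h2 (Finset.notMem_empty _)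
      · have h3 : G'.M.inv (G'.M.fc (G'.M.bd 0)) = G'.M.inv (G'.M.bd 1) := by
          simpa using h2
        rw [← G'.ok.inv_inv _ ha'.1, h3, G'.ok.inv_inv _ (G'.ok.bd_mem 1)]
    · exact absurd h1 (bd_ne_b G.ok j hw)
    · have h2 : G.M.inv (G.M.bd j) ∉ F := fun h3 => (D.bnd.1 _ h3).1.2 j rfl
      have h3 := ((D.bnd.2 _ (G.ok.bd_mem j)).1 ⟨h1, h2⟩).1
      rcases mem_holeR h3 with ⟨m, hm, h4⟩ | h4
      · have h5 := G.ok.bd_inj h4
        subst h5
        have h6 := (i3 m (by omega)).2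
        rw [holeR_getD_lt G.M hm, holeR_getD_lt G'.M hm] at h6
        rw [ff_F D G' f₀ h1]
        exact h6 h1
      · exfalso
        apply ha.2 j
        rw [h4, G.ok.inv_inv _ ha.1]
  · -- the new line
    intro i
    rw [hl, hl', ← S.inv_eq, ← S'.inv_eq]
    unfold lineR
    by_cases hi : i < 0
    · rw [if_pos hi, if_pos hi]
      exact Or.inr ⟨i, rfl, rfl⟩
    · by_cases hi0 : i = 0
      · rw [if_neg hi, if_neg hi, if_pos hi0, if_pos hi0, G.ok.inv_inv _ hb.1,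
          G'.ok.inv_inv _ hb'.1, ff_b]
        exact Or.inl ⟨Or.inr (Or.inr (Or.inl rfl)), rfl⟩
      · rw [if_neg hi, if_neg hi, if_neg hi0, if_neg hi0]
        exact Or.inr ⟨i + k, rfl, rfl⟩

end HPT

end Pool.Agent.Spd
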