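import Pool.Agent.Spd.SimC
import Pool.Agent.Spd.FillIso

/-!
(Part `SimD1`: `sim_peel_N`.  The text below is the common header of the parts.)

# SPD S4: one peeling step extends an isomorphism of explored parts

`sim_extend` with `K = G.rem`, `K' = G'.rem`, `X` = root triangle and hole.  Notation
`r = G.bd 0`, `a = G.fc r`, `b = G.fc a` (all inner in `G`, `G.fc = H.fc` there by `Sub.fc_eq`),
`r', a', b'` for `G'`.

* `sim_peel_N`: `X = {r, a, b}`, `f r = r'`, `f a = a'`, `f b = b'` (three different darts,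
  `face_ne`), `g` its inverse.  `hinv` is vacuous: `inv r` is not inner in `G`; `inv a`, `inv b` are
  inner in `G.rem` (they are line darts of `G.rem`: `lineN`), so not in `X`.  `hln`: `G.bd j ∈ X`:
  `G.bd 0 = r` goes to `r'`; `G.bd j = a` or `b` is impossible (the origins of line darts are on the
  line, the origin of `b` is not; `a = G.bd j` has its target, the origin of `b`, on the line).
  `hnew`: `lineN`: `inv (inv b) = b`, `inv (inv a) = a`, the other indices are old line darts.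
* `sim_peel_R`: `step_R` for `G` and `G'` with the same `k`, `τ`: holes `F`, `F'`;
  `fill_iso` for `G.M`, `G'.M`, `holeR G.M k`, `holeR G'.M k` gives `f₀ : F → F'`, `g₀`.
  `X = {r, a, b} ∪ F` (`hole_disj`: disjoint), `f = f₀` on `F`.  `inv` inside `X`: `d, inv d ∈ F`:
  `f₀`; `inv r` is not inner; `inv b` is the line dart number 0 of `G.rem` (`lineR`), not in `X`;
  `inv a`: it is the last dart (number `k`) of `holeR`; if `inv a ∈ F` then `f₀ (inv a) = inv a'`
  (third clause of `fill_iso`), which treats `d = a` and `d = inv a` (`inv (inv a) = a`); if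
  `inv a ∉ F`, `inv a ∈ {r, a, b}` is impossible (`inv_ne`, `inv_ne_fc`, `inv_ne_fc2`).
  `hln`: `G.bd j ∈ F`: by `Bounds`, `G.bd j ∈ holeR` (its inverse is not inner, so not in `F`), it is
  not `inv a` (whose inverse `a` is inner), so `G.bd j = G.bd (m + 1)`, `m < k`, `j = m + 1`
  (`bd_inj`), and the third clause of `fill_iso` gives `f₀ (G.bd j) = G'.bd j`.  `G.bd j = r`:
  `j = 0`.  `G.bd j = a`: its target is the origin of `b`, i.e. of `G.bd (k+1)`, so `j = k`; the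
  origin of `a` is that of `G.bd 1`, so `j = 1 = k`; `τ : Tri 1`.  By `Bounds`: `holeR =
  [G.bd 1, inv (G.bd 1)]`, so `F = ∅` (`Bounds.of_deg`), `F' = ∅` too (same code: `fill_card`), and
  `G'.bd 1 ∉ F'` gives by `Bounds.head_mem` that `holeR G'.M 1` is degenerate:
  `inv a' = inv (G'.bd 1)`, `a' = G'.bd 1`.  `G.bd j = b`: origin of `G.bd (k+1)`, target of `G.bd 0`
  ... : `j = k + 1` and its target, the origin of `r`, is that of `G.bd (k + 2)`: impossible.
  `hnew`: `lineR`: index 0: `inv (inv b) = b`, the others are old line darts.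
* `sim_peel_L`: the mirror image with `holeL`, `lineL`; the roles of `a` and `b` are exchanged
  (`inv b` is the last dart of the hole, `inv a` the new line dart).
-/

namespace Pool.Agent.Spd

namespace HPT

/-- Data of a peeling step with outcome `N`. -/
private structure NData (G : HPT) (r a b : ℕ) : Prop where
  hr : r = G.M.bd 0
  ha : G.M.fc r = a
  hb : G.M.fc a = b
  hc : G.M.fc b = r
  ir : G.M.Inner r
  ia : G.M.Inner a
  ib : G.M.Inner b
  ra : r ≠ a
  rb : r ≠ b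
  ab : a ≠ b
  la : ∀ j, G.M.bd j ≠ a
  lb : ∀ j, G.M.bd j ≠ b
  invr : ¬ G.M.Inner (G.M.inv r)
  inva : G.M.inv a ≠ r ∧ G.M.inv a ≠ a ∧ G.M.inv a ≠ b
  invb : G.M.inv b ≠ r ∧ G.M.inv b ≠ a ∧ G.M.inv b ≠ b
  rem : ∀ d, G.rem.M.Inner d ↔ G.M.Inner d ∧ d ≠ r ∧ d ≠ a ∧ d ≠ b
  neg : ∀ i, i < 0 → G.rem.M.bd i = G.M.bd i
  zero : G.rem.M.bd 0 = G.M.inv b
  one : G.rem.M.bd 1 = G.M.inv a
  two : ∀ i, 2 ≤ i → G.rem.M.bd i = G.M.bd (i - 1)

private theorem nData (G : HPT) (hs : G.step = Step.N) : ∃ r a b, NData G r a b := by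
  obtain ⟨hw, hrem, hline⟩ := G.step_N hs
  have h := G.ok
  obtain ⟨r, hrd⟩ : ∃ r, r = G.M.bd 0 := ⟨_, rfl⟩
  obtain ⟨a, had⟩ : ∃ a, a = G.M.fc r := ⟨_, rfl⟩
  obtain ⟨b, hbd⟩ : ∃ b, b = G.M.fc a := ⟨_, rfl⟩
  have hr : G.M.Inner r := by rw [hrd]; exact h.bd_inner 0
  have ha : G.M.Inner a := by rw [had]; exact h.fc_inner r hr
  have hb : G.M.Inner b := by rw [hbd]; exact h.fc_inner a ha
  have hbr : G.M.fc b = r := by rw [hbd, had]; exact h.fc_tri r hr
  rw [← hrd, ← had, ← hbd] at hw hrem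
  have ta : G.M.SameV (G.M.inv a) b := by rw [hbd]; exact h.tgt ha.1
  have hA : ∀ j, G.M.bd j ≠ a := by
    intro j hj
    have h3 := h.bd_next j
    rw [hj] at h3
    exact hw (j + 1) (h.sameV_trans (h.sameV_symm (h.inv_mem a ha.1) h3) ta)
  have hB : ∀ j, G.M.bd j ≠ b := fun j hj => hw j (by rw [← hj]; exact h.sameV_refl _)
  have n1 : G.M.inv r ≠ a := by rw [had]; exact h.inv_ne_fc hr
  have n2 : G.M.inv a ≠ b := by rw [hbd]; exact h.inv_ne_fc ha
  have n3 : G.M.inv b ≠ r := by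
    have := h.inv_ne_fc hb
    rwa [hbr] at this
  have n4 : G.M.inv a ≠ r := fun h3 => n1 (by rw [← h3]; exact h.inv_inv a ha.1)
  have n5 : G.M.inv b ≠ a := fun h3 => n2 (by rw [← h3]; exact h.inv_inv b hb.1)
  refine ⟨r, a, b, ⟨hrd, had.symm, hbd.symm, hbr, hr, ha, hb, ?_, ?_, ?_, hA, hB, ?_,
    ⟨n4, h.inv_ne a ha.1, n2⟩, ⟨n3, n5, h.inv_ne b hb.1⟩, hrem, ?_, ?_, ?_, ?_⟩⟩
  · rw [hrd]
    exact hA 0
  · rw [hrd]
    exact hB 0
  · intro h3
    have h4 := (h.face_ne ha).1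
    rw [← hbd, ← h3] at h4
    exact h4 (h.sameV_refl a)
  · intro h3
    rw [hrd] at h3
    exact h3.2 0 rfl
  · intro i hi
    rw [hline]
    exact if_pos hi
  · rw [hline]
    unfold lineN
    rw [if_neg (lt_irrefl _), if_pos rfl, ← hrd, ← had, ← hbd]
  · rw [hline]
    unfold lineN
    rw [if_neg (by norm_num), if_neg (by norm_num), if_pos rfl, ← hrd, ← had]
  · intro i hi
    rw [hline]
    unfold lineN
    rw [if_neg (by omega), if_neg (by omega), if_neg (by omega)]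

theorem sim_peel_N {H G H' G' : HPT} {φ ψ : ℕ → ℕ} (S : Sub G H) (S' : Sub G' H')
    (h : Sim H G H' G' φ ψ) (hs : G.step = Step.N) (hs' : G'.step = Step.N) :
    ∃ φ₁ ψ₁, Sim H G.rem H' G'.rem φ₁ ψ₁ ∧ (∀ d ∈ H.M.D, ¬ G.M.Inner d → φ₁ d = φ d) ∧
      (∀ d ∈ H'.M.D, ¬ G'.M.Inner d → ψ₁ d = ψ d) := by
  obtain ⟨r, a, b, N⟩ := nData G hs
  obtain ⟨r', a', b', N'⟩ := nData G' hs'
  have e1 : ∀ d, H.M.inv d = G.M.inv d := fun d => by rw [S.inv_eq]
  have e2 : ∀ d, H'.M.inv d = G'.M.inv d := fun d => by rw [S'.inv_eq]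
  have fa : H.M.fc r = a := by rw [← S.fc_eq r N.ir]; exact N.ha
  have fb : H.M.fc a = b := by rw [← S.fc_eq a N.ia]; exact N.hb
  have fr : H.M.fc b = r := by rw [← S.fc_eq b N.ib]; exact N.hc
  have fa' : H'.M.fc r' = a' := by rw [← S'.fc_eq r' N'.ir]; exact N'.ha
  have fb' : H'.M.fc a' = b' := by rw [← S'.fc_eq a' N'.ia]; exact N'.hb
  have fr' : H'.M.fc b' = r' := by rw [← S'.fc_eq b' N'.ib]; exact N'.hc
  obtain ⟨f, hf⟩ : ∃ f : ℕ → ℕ, f = fun d => if d = r then r' else if d = a then a' else b' :=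
    ⟨_, rfl⟩
  obtain ⟨g, hg⟩ : ∃ g : ℕ → ℕ, g = fun d => if d = r' then r else if d = a' then a else b :=
    ⟨_, rfl⟩
  have f1 : f r = r' := by rw [hf]; exact if_pos rfl
  have f2 : f a = a' := by
    rw [hf]
    exact (if_neg N.ra.symm).trans (if_pos rfl)
  have f3 : f b = b' := by
    rw [hf]
    exact (if_neg N.rb.symm).trans (if_neg N.ab.symm)
  have g1 : g r' = r := by rw [hg]; exact if_pos rfl
  have g2 : g a' = a := by
    rw [hg]
    exact (if_neg N'.ra.symm).trans (if_pos rfl)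
  have g3 : g b' = b := by
    rw [hg]
    exact (if_neg N'.rb.symm).trans (if_neg N'.ab.symm)
  have hX : ∀ d, d ∈ ({r, a, b} : Set ℕ) ↔ d = r ∨ d = a ∨ d = b := fun d => Iff.rfl
  have hX' : ∀ d, d ∈ ({r', a', b'} : Set ℕ) ↔ d = r' ∨ d = a' ∨ d = b' := fun d => Iff.rfl
  refine sim_extend (K := G.rem) (K' := G'.rem) (f := f) (g := g) (X := {r, a, b})
    (X' := {r', a', b'}) S S' h ?_ ?_ ?_ ?_ ?_ ?_ ?_ ?_ ?_ ?_
  · intro d hd
    rcases (hX d).1 hd with rfl | rfl | rfl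
    exacts [N.ir, N.ia, N.ib]
  · intro d hd
    rcases (hX' d).1 hd with rfl | rfl | rfl
    exacts [N'.ir, N'.ia, N'.ib]
  · intro d
    rw [N.rem d, hX]
    tauto
  · intro d
    rw [N'.rem d, hX']
    tauto
  · intro d hd
    rcases (hX d).1 hd with rfl | rfl | rfl
    · rw [fa, f1, f2, fa']
      exact ⟨Or.inr (Or.inl rfl), rfl⟩
    · rw [fb, f2, f3, fb']
      exact ⟨Or.inr (Or.inr rfl), rfl⟩
    · rw [fr, f3, f1, fr']
      exact ⟨Or.inl rfl, rfl⟩
  · intro d hd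
    rcases (hX d).1 hd with rfl | rfl | rfl
    · rw [f1]
      exact ⟨Or.inl rfl, g1⟩
    · rw [f2]
      exact ⟨Or.inr (Or.inl rfl), g2⟩
    · rw [f3]
      exact ⟨Or.inr (Or.inr rfl), g3⟩
  · intro d hd
    rcases (hX' d).1 hd with rfl | rfl | rfl
    · rw [g1]
      exact ⟨Or.inl rfl, f1⟩
    · rw [g2]
      exact ⟨Or.inr (Or.inl rfl), f2⟩
    · rw [g3]
      exact ⟨Or.inr (Or.inr rfl), f3⟩
  · intro d hd hi
    exfalso
    rw [e1] at hi
    rcases (hX d).1 hd with rfl | rfl | rfl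
    · rcases (hX _).1 hi with h1 | h1 | h1
      · exact N.invr (by rw [h1]; exact N.ir)
      · exact N.invr (by rw [h1]; exact N.ia)
      · exact N.invr (by rw [h1]; exact N.ib)
    · rcases (hX _).1 hi with h1 | h1 | h1
      exacts [N.inva.1 h1, N.inva.2.1 h1, N.inva.2.2 h1]
    · rcases (hX _).1 hi with h1 | h1 | h1
      exacts [N.invb.1 h1, N.invb.2.1 h1, N.invb.2.2 h1]
  · intro j hj
    rcases (hX _).1 hj with h1 | h1 | h1
    · have h2 : j = 0 := by
        rw [N.hr] at h1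
        exact G.ok.bd_inj h1
      rw [h1, f1, h2]
      exact N'.hr
    · exact absurd h1 (N.la j)
    · exact absurd h1 (N.lb j)
  · intro i
    have hcase : i < 0 ∨ i = 0 ∨ i = 1 ∨ 2 ≤ i := by omega
    rcases hcase with hi | rfl | rfl | hi
    · exact Or.inr ⟨i, N.neg i hi, N'.neg i hi⟩
    · refine Or.inl ?_
      rw [N.zero, N'.zero, e1, e2, G.ok.inv_inv b N.ib.1, G'.ok.inv_inv b' N'.ib.1]
      exact ⟨Or.inr (Or.inr rfl), f3⟩
    · refine Or.inl ?_
      rw [N.one, N'.one, e1, e2, G.ok.inv_inv a N.ia.1, G'.ok.inv_inv a' N'.ia.1]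
      exact ⟨Or.inr (Or.inl rfl), f2⟩
    · exact Or.inr ⟨i - 1, N.two i hi, N'.two i hi⟩

end HPT

end Pool.Agent.Spd
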