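import Pool.Agent.Spd.SimD

/-!
# SPD S5: the outcomes determine the explored part

* `sim_peel`: cases on the common outcome, `SimD`.
* `sim_exec`: induction on `c`, generalizing `G`, `G'`, `φ`, `ψ`.  `c = []`: the given `φ`, `ψ`
  (`c₁ = []`).  `c = i :: c'`: `Sim.shift`, `sim_peel` for `G.shift i`, `G'.shift i` (the first
  outcomes agree; `Sub.shift`), then the induction hypothesis for `(G.shift i).rem` and
  `(G'.shift i).rem` (`rem_sub`, `Sub.trans`); all later maps agree with the earlier ones on the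
  darts explored earlier (a dart not inner in `G` is not inner in `(G.shift i).rem`); `c₁ = []` by
  `Sim.congr`, `c₁ = i :: c₁'` by the induction hypothesis.
* `sim_of_outs`: start with `sim_init`, `G = H`, `G' = H'`.
-/

namespace Pool.Agent.Spd

namespace HPT

theorem sim_peel {H G H' G' : HPT} {φ ψ : ℕ → ℕ} (S : Sub G H) (S' : Sub G' H')
    (h : Sim H G H' G' φ ψ) (hs : G'.step = G.step) :
    ∃ φ₁ ψ₁, Sim H G.rem H' G'.rem φ₁ ψ₁ ∧ (∀ d ∈ H.M.D, ¬ G.M.Inner d → φ₁ d = φ d) ∧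
      (∀ d ∈ H'.M.D, ¬ G'.M.Inner d → ψ₁ d = ψ d) := by
  cases hst : G.step with
  | N => exact sim_peel_N S S' h hst (hs.trans hst)
  | R k τ => exact sim_peel_R S S' h hst (hs.trans hst)
  | L k τ => exact sim_peel_L S S' h hst (hs.trans hst)

theorem sim_exec {H G H' G' : HPT} {φ ψ : ℕ → ℕ} (S : Sub G H) (S' : Sub G' H')
    (h : Sim H G H' G' φ ψ) (c : List ℤ) (ho : G'.outs c = G.outs c) :
    ∃ φ₁ ψ₁, (∀ c₁ c₂, c = c₁ ++ c₂ → Sim H (G.exec c₁) H' (G'.exec c₁) φ₁ ψ₁) ∧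
      (∀ d ∈ H.M.D, ¬ G.M.Inner d → φ₁ d = φ d) ∧
      (∀ d ∈ H'.M.D, ¬ G'.M.Inner d → ψ₁ d = ψ d) := by
  induction c generalizing G G' φ ψ with
  | nil =>
    refine ⟨φ, ψ, fun c₁ c₂ hc => ?_, fun _ _ _ => rfl, fun _ _ _ => rfl⟩
    have h1 : c₁ = [] := (List.append_eq_nil_iff.1 hc.symm).1
    subst h1
    exact h
  | cons i c ih =>
    have ho' : (G'.shift i).step :: outs c (G'.shift i).rem =
        (G.shift i).step :: outs c (G.shift i).rem := ho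
    obtain ⟨h1, h2⟩ := List.cons_eq_cons.1 ho'
    obtain ⟨φ₁, ψ₁, k1, k2, k3⟩ := sim_peel (S.shift i) (S'.shift i) (h.shift i) h1
    obtain ⟨φ₂, ψ₂, l1, l2, l3⟩ := ih ((rem_sub (G.shift i)).trans (S.shift i))
      ((rem_sub (G'.shift i)).trans (S'.shift i)) k1 h2
    have e1 : ∀ d ∈ H.M.D, ¬ G.M.Inner d → φ₂ d = φ d := by
      intro d hd hn
      have n1 : ¬ (G.shift i).M.Inner d := fun hh => hn ((shift_inner G i d).1 hh)
      rw [l2 d hd fun hh => n1 ((rem_sub (G.shift i)).inner hh), k2 d hd n1]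
    have e2 : ∀ d ∈ H'.M.D, ¬ G'.M.Inner d → ψ₂ d = ψ d := by
      intro d hd hn
      have n1 : ¬ (G'.shift i).M.Inner d := fun hh => hn ((shift_inner G' i d).1 hh)
      rw [l3 d hd fun hh => n1 ((rem_sub (G'.shift i)).inner hh), k3 d hd n1]
    refine ⟨φ₂, ψ₂, fun c₁ c₂ hc => ?_, e1, e2⟩
    cases c₁ with
    | nil => exact Sim.congr S S' h e1 e2
    | cons j c₁ =>
      obtain ⟨h3, h4⟩ := List.cons_eq_cons.1 hc
      subst h3
      exact l1 c₁ c₂ h4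

theorem sim_of_outs {H H' : HPT} (c : List ℤ) (ho : H'.outs c = H.outs c) :
    ∃ φ ψ, ∀ c₁ c₂, c = c₁ ++ c₂ → Sim H (H.exec c₁) H' (H'.exec c₁) φ ψ := by
  obtain ⟨φ, ψ, h⟩ := sim_init H H'
  obtain ⟨φ₁, ψ₁, h1, -, -⟩ := sim_exec (Sub.refl H) (Sub.refl H') h c ho
  exact ⟨φ₁, ψ₁, h1⟩

end HPT

end Pool.Agent.Spd
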