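import Pool.Agent.Spd.SimB

/-!
# SPD S6: fillings are transported by isomorphisms of explored parts

All darts of `cs`, their inverses, and all darts of `F` are explored (not inner in `G`).  Induction
on the code `τ`, generalizing `cs` and `F`.  `φ` is compatible with `fc` on explored darts, with
`inv` (both explored), with `SameV` of explored darts (`Sim.sameV`); an explored dart `d` is inner in
`H` iff `φ d` is inner in `H'` (`Sim.inner_iff` with `K = H`, `Sim.base`).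

* `edge`: `cs = [d, inv d]`.
* `new t`: `cs = d :: ds`, `a = fc d`, `b = fc a`, `cs' = inv b :: inv a :: ds`, `F = {d,a,b} ∪ F'`.
  `a`, `b` are in `F`, so explored.  `inv a`, `inv b`: `cs'` is a polygon (`new_bounds`: use
  `fill_bounds` for `cs`, `F`; or directly), `Bounds M cs' F'` (`fill_bounds`) and `cs'` has length
  `≥ 3` (`cs` has length `≥ 2`), so it is not degenerate (`poly_inv`): `inv a ∈ cs'`,
  `inv (inv a) = a ∉ cs'`, so `inv a ∈ F' ⊆ F`; the same for `inv b`.  Induction hypothesis for `t`.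
  `(F'.image φ)`: `φ d ∉ F'.image φ` by injectivity on explored darts (`ψ (φ x) = x`).
* `split t₁ t₂`: `cs = d :: (ds₁ ++ ds₂)`, `cs₁ = ds₁ ++ [inv a]`, `cs₂ = inv b :: ds₂`
  (polygons by `split_poly`; its hypotheses by `fill_length` and `fill_chain`).  `a ∈ F`.
  `inv a`: if `a ∈ cs₁` (`cs₁` degenerate, `poly_inv`) then `a ∈ ds₁ ⊆ cs` (`a ≠ inv a`), so `inv a`
  is explored by hypothesis; otherwise `inv a ∈ cs₁`, `a ∉ cs₁`, so `inv a ∈ F₁`.  The same for
  `inv b`.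
  `List.map φ (ds₁ ++ ds₂) = ..`, disjointness of images by injectivity.
-/

namespace Pool.Agent.Spd

namespace HPT

variable {H G H' G' : HPT} {φ ψ : ℕ → ℕ}

private theorem map_inj (h : Sim H G H' G' φ ψ) {d e : ℕ} (hd : d ∈ H.M.D)
    (h1 : ¬ G.M.Inner d) (he : e ∈ H.M.D) (h2 : ¬ G.M.Inner e) (hde : φ d = φ e) : d = e := by
  rw [← (h.map d hd h1).2.2, ← (h.map e he h2).2.2, hde]

private theorem not_mem_image (h : Sim H G H' G' φ ψ) {d : ℕ} (hd : d ∈ H.M.D)
    (h1 : ¬ G.M.Inner d) {F : Finset ℕ} (hF : ∀ x ∈ F, x ∈ H.M.D ∧ ¬ G.M.Inner x)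
    (hdF : d ∉ F) : φ d ∉ F.image φ := by
  intro hm
  obtain ⟨x, hx, hxd⟩ := Finset.mem_image.1 hm
  have := map_inj h (hF x hx).1 (hF x hx).2 hd h1 hxd
  exact hdF (this ▸ hx)

/-- A dart whose inverse belongs to a polygon with at least three sides is in the filling. -/
private theorem mem_of_inv (ok : H.M.IsHPT) {cs : List ℕ} {F : Finset ℕ} (P : Poly H.M cs)
    (B : Bounds H.M cs F) {a : ℕ} (ha : a ∈ H.M.D) (h1 : H.M.inv a ∈ cs) (h2 : a ∉ cs) :
    H.M.inv a ∈ F := by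
  have h3 := (B.2 (H.M.inv a) (ok.inv_mem a ha)).2 ⟨h1, by rw [ok.inv_inv a ha]; exact h2⟩
  exact h3.1

theorem fill_transfer {H G H' G' : HPT} {φ ψ : ℕ → ℕ} (S : Sub G H) (S' : Sub G' H')
    (h : Sim H G H' G' φ ψ) {k : ℕ} (τ : Tri k) {cs : List ℕ} {F : Finset ℕ}
    (P : Poly H.M cs) (hcs : ∀ d ∈ cs, ¬ G.M.Inner d ∧ ¬ G.M.Inner (H.M.inv d))
    (hF : ∀ d ∈ F, ¬ G.M.Inner d) (f : H.M.Fill τ cs F) :
    H'.M.Fill τ (cs.map φ) (F.image φ) := by
  have hbase := Sim.base S S' h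
  have inn : ∀ d ∈ H.M.D, ¬ G.M.Inner d → (H.M.Inner d ↔ H'.M.Inner (φ d)) :=
    fun d hd hn => Sim.inner_iff h hbase (Sub.refl H) (Sub.refl H') hd hn
  have ok := H.ok
  induction τ generalizing cs F with
  | edge =>
    obtain ⟨d, hd, rfl, rfl⟩ := f
    have h1 := hcs d (by simp)
    have h2 := h.map d hd h1.1
    refine ⟨φ d, h2.1, ?_, by simp⟩
    simp only [List.map_cons, List.map_nil]
    rw [h.inv d hd h1.1 h1.2]
  | new t ih =>
    have B := fill_bounds ok P f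
    have hFD : ∀ x ∈ F, x ∈ H.M.D ∧ ¬ G.M.Inner x := fun x hx => ⟨(B.1 x hx).1.1, hF x hx⟩
    obtain ⟨d, ds, F', rfl, hd, hw, f', hdF, hFe⟩ := f
    have hdD : d ∈ H.M.D := hd.1
    have ha : H.M.Inner (H.M.fc d) := ok.fc_inner d hd
    have hb : H.M.Inner (H.M.fc (H.M.fc d)) := ok.fc_inner _ ha
    have hdm : d ∈ F := by rw [hFe]; simp
    have ham : H.M.fc d ∈ F := by rw [hFe]; simp
    have hbm : H.M.fc (H.M.fc d) ∈ F := by rw [hFe]; simp
    have hsub : ∀ x ∈ F', x ∈ F := fun x hx => by rw [hFe]; simp [hx]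
    have P' := (new_bounds ok P B hdm hw).1
    have B' := fill_bounds ok P' f'
    have hlen : 1 ≤ ds.length := by
      have := P.1
      simp only [List.length_cons] at this
      omega
    have hnd : ∀ x ∈ H.M.D, H.M.inv x ∈ (H.M.inv (H.M.fc (H.M.fc d)) ::
        H.M.inv (H.M.fc d) :: ds) → x ∉ (H.M.inv (H.M.fc (H.M.fc d)) ::
        H.M.inv (H.M.fc d) :: ds) := by
      intro x _ h1 h2
      obtain ⟨y, hy⟩ := poly_inv ok P' h2 h1
      have := congrArg List.length hy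
      simp only [List.length_cons, List.length_nil] at this
      omega
    have hia : H.M.inv (H.M.fc d) ∈ F' := by
      have h1 : H.M.inv (H.M.fc d) ∈ (H.M.inv (H.M.fc (H.M.fc d)) ::
        H.M.inv (H.M.fc d) :: ds) := by simp
      exact mem_of_inv ok P' B' ha.1 h1 (hnd _ ha.1 h1)
    have hib : H.M.inv (H.M.fc (H.M.fc d)) ∈ F' := by
      have h1 : H.M.inv (H.M.fc (H.M.fc d)) ∈ (H.M.inv (H.M.fc (H.M.fc d)) ::
        H.M.inv (H.M.fc d) :: ds) := by simp
      exact mem_of_inv ok P' B' hb.1 h1 (hnd _ hb.1 h1)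
    have eia : φ (H.M.inv (H.M.fc d)) = H'.M.inv (H'.M.fc (φ d)) := by
      rw [h.inv _ ha.1 (hF _ ham) (hF _ (hsub _ hia)), h.fc d hdD (hF _ hdm)]
    have eb : φ (H.M.fc (H.M.fc d)) = H'.M.fc (H'.M.fc (φ d)) := by
      rw [h.fc _ ha.1 (hF _ ham), h.fc d hdD (hF _ hdm)]
    have eib : φ (H.M.inv (H.M.fc (H.M.fc d))) = H'.M.inv (H'.M.fc (H'.M.fc (φ d))) := by
      rw [h.inv _ hb.1 (hF _ hbm) (hF _ (hsub _ hib)), eb]
    have f'' := ih P' (by
      intro e he
      rcases List.mem_cons.1 he with rfl | he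
      · exact ⟨hF _ (hsub _ hib), by rw [ok.inv_inv _ hb.1]; exact hF _ hbm⟩
      · rcases List.mem_cons.1 he with rfl | he
        · exact ⟨hF _ (hsub _ hia), by rw [ok.inv_inv _ ha.1]; exact hF _ ham⟩
        · exact hcs e (List.mem_cons_of_mem _ he)) (fun x hx => hF x (hsub x hx)) f'
    refine ⟨φ d, ds.map φ, F'.image φ, by simp, (inn d hdD (hF _ hdm)).1 hd, ?_, ?_, ?_, ?_⟩
    · intro e he
      obtain ⟨x, hx, rfl⟩ := List.mem_map.1 he
      rw [← eb, ← Sim.sameV S S' h (P.2.1 x hx) (hcs x hx).1 hb.1 (hF _ hbm)]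
      exact hw x hx
    · simpa only [List.map_cons, eia, eib] using f''
    · exact not_mem_image h hdD (hF _ hdm) (fun x hx => hFD x (hsub x hx)) hdF
    · rw [hFe, Finset.image_union, Finset.image_insert, Finset.image_insert,
        Finset.image_singleton, eb, h.fc d hdD (hF _ hdm)]
  | split t₁ t₂ ih₁ ih₂ =>
    have B := fill_bounds ok P f
    have hFD : ∀ x ∈ F, x ∈ H.M.D ∧ ¬ G.M.Inner x := fun x hx => ⟨(B.1 x hx).1.1, hF x hx⟩
    obtain ⟨d, ds₁, ds₂, F₁, F₂, rfl, hd, f₁, f₂, hdF₁, hdF₂, hdis, hFe⟩ := f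
    have hdD : d ∈ H.M.D := hd.1
    have ha : H.M.Inner (H.M.fc d) := ok.fc_inner d hd
    have hb : H.M.Inner (H.M.fc (H.M.fc d)) := ok.fc_inner _ ha
    have hdm : d ∈ F := by rw [hFe]; simp
    have ham : H.M.fc d ∈ F := by rw [hFe]; simp
    have hbm : H.M.fc (H.M.fc d) ∈ F := by rw [hFe]; simp
    have hsub₁ : ∀ x ∈ F₁, x ∈ F := fun x hx => by rw [hFe]; simp [hx]
    have hsub₂ : ∀ x ∈ F₂, x ∈ F := fun x hx => by rw [hFe]; simp [hx]
    have hn₁ : ds₁ ≠ [] := by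
      rintro rfl
      have := fill_length f₁
      simp at this
    have hn₂ : ds₂ ≠ [] := by
      rintro rfl
      have := fill_length f₂
      simp at this
    have hP := split_poly ok P hd hn₁ hn₂ (by
      obtain ⟨y, s, rfl⟩ := List.exists_cons_of_ne_nil hn₂
      intro e he
      simp only [List.head?_cons, Option.mem_def, Option.some.injEq] at he
      subst he
      have h1 := (fill_chain ok f₂).2
      simp only [List.cons_append, List.isChain_cons_cons] at h1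
      have h2 := h1.1
      rwa [ok.inv_inv _ hb.1] at h2)
    obtain ⟨P₁, P₂⟩ := hP
    have B₁ := fill_bounds ok P₁ f₁
    have B₂ := fill_bounds ok P₂ f₂
    have hcs₁ : ∀ x ∈ ds₁, ¬ G.M.Inner x ∧ ¬ G.M.Inner (H.M.inv x) := fun x hx =>
      hcs x (by simp [hx])
    have hcs₂ : ∀ x ∈ ds₂, ¬ G.M.Inner x ∧ ¬ G.M.Inner (H.M.inv x) := fun x hx =>
      hcs x (by simp [hx])
    have hia : ¬ G.M.Inner (H.M.inv (H.M.fc d)) := by
      by_cases h1 : H.M.fc d ∈ ds₁ ++ [H.M.inv (H.M.fc d)]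
      · rcases List.mem_append.1 h1 with h2 | h2
        · exact (hcs₁ _ h2).2
        · exact absurd (List.mem_singleton.1 h2).symm (ok.inv_ne _ ha.1)
      · exact hF _ (hsub₁ _ (mem_of_inv ok P₁ B₁ ha.1 (by simp) h1))
    have hib : ¬ G.M.Inner (H.M.inv (H.M.fc (H.M.fc d))) := by
      by_cases h1 : H.M.fc (H.M.fc d) ∈ H.M.inv (H.M.fc (H.M.fc d)) :: ds₂
      · rcases List.mem_cons.1 h1 with h2 | h2
        · exact absurd h2.symm (ok.inv_ne _ hb.1)
        · exact (hcs₂ _ h2).2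
      · exact hF _ (hsub₂ _ (mem_of_inv ok P₂ B₂ hb.1 (by simp) h1))
    have eia : φ (H.M.inv (H.M.fc d)) = H'.M.inv (H'.M.fc (φ d)) := by
      rw [h.inv _ ha.1 (hF _ ham) hia, h.fc d hdD (hF _ hdm)]
    have eb : φ (H.M.fc (H.M.fc d)) = H'.M.fc (H'.M.fc (φ d)) := by
      rw [h.fc _ ha.1 (hF _ ham), h.fc d hdD (hF _ hdm)]
    have eib : φ (H.M.inv (H.M.fc (H.M.fc d))) = H'.M.inv (H'.M.fc (H'.M.fc (φ d))) := by
      rw [h.inv _ hb.1 (hF _ hbm) hib, eb]
    have g₁ := ih₁ P₁ (by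
      intro e he
      rcases List.mem_append.1 he with he | he
      · exact hcs₁ e he
      · rw [List.mem_singleton.1 he]
        exact ⟨hia, by rw [ok.inv_inv _ ha.1]; exact hF _ ham⟩)
      (fun x hx => hF x (hsub₁ x hx)) f₁
    have g₂ := ih₂ P₂ (by
      intro e he
      rcases List.mem_cons.1 he with rfl | he
      · exact ⟨hib, by rw [ok.inv_inv _ hb.1]; exact hF _ hbm⟩
      · exact hcs₂ e he)
      (fun x hx => hF x (hsub₂ x hx)) f₂
    refine ⟨φ d, ds₁.map φ, ds₂.map φ, F₁.image φ, F₂.image φ, by simp,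
      (inn d hdD (hF _ hdm)).1 hd, ?_, ?_, ?_, ?_, ?_, ?_⟩
    · simpa only [List.map_append, List.map_cons, List.map_nil, eia] using g₁
    · simpa only [List.map_cons, eib] using g₂
    · exact not_mem_image h hdD (hF _ hdm) (fun x hx => hFD x (hsub₁ x hx)) hdF₁
    · exact not_mem_image h hdD (hF _ hdm) (fun x hx => hFD x (hsub₂ x hx)) hdF₂
    · rw [Finset.disjoint_left]
      intro y hy₁ hy₂
      obtain ⟨x₁, hx₁, rfl⟩ := Finset.mem_image.1 hy₁
      obtain ⟨x₂, hx₂, h12⟩ := Finset.mem_image.1 hy₂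
      have e := map_inj h (hFD _ (hsub₂ _ hx₂)).1 (hFD _ (hsub₂ _ hx₂)).2
        (hFD _ (hsub₁ _ hx₁)).1 (hFD _ (hsub₁ _ hx₁)).2 h12
      exact Finset.disjoint_left.1 hdis hx₁ (e ▸ hx₂)
    · rw [hFe, Finset.image_union, Finset.image_union, Finset.image_insert,
        Finset.image_insert, Finset.image_singleton, eb, h.fc d hdD (hF _ hdm)]

end HPT

end Pool.Agent.Spd
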