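import Pool.Agent.Spd.SimG1

/-!
(Part `SimG2`: `back_hole`.  The text below is the common header of the parts.)

# SPD S7: a finer exploration determines a coarser one (one step)

`h : Sim H G H' G' φ ψ`, and the same `φ`, `ψ` are an isomorphism for the coarser regions `K`, `K'`
(`hK`; `G` is a sub-map of `K`, `G'` of `K'`), and `G` is even a sub-map of `K.rem`, i.e. the darts
removed by the peeling of `K` are explored for `G`.  Then `K'` has the same outcome, `G'` is a
sub-map of `K'.rem`, and `φ`, `ψ` are an isomorphism for `K.rem`, `K'.rem`.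

`r = K.bd 0`, `a = fc r`, `b = fc a` are not inner in `K.rem`, so explored (not inner in `G`).
`φ r = K'.bd 0`: `hK.line 0` gives `φ (inv r) = inv r'`, and `φ (inv (inv r)) = inv (φ (inv r))`
(`h.inv`, both explored).  So `φ a = a'`, `φ b = b'` (`h.fc`; `K.fc = H.fc` on inner darts of `K`,
`Sub.fc_eq`).  For explored `d` in `K.D`: `K.M.SameV (K.bd i) d ↔ K'.M.SameV (K'.bd i) (φ d)`
(`Sub.sameV`, `Sim.on_iff`, `Sim.mem_iff`).

* `back_N`: `step_eq_N_iff` for `K` and `K'` and the equivalence above for `d = b`.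
* `back_R`: `step_R` for `K`: the hole `F`, `Fill τ (holeR K.M k) F`, all darts of `F` and
  `r, a, b` are explored (not inner in `K.rem`); the darts of `holeR` and their inverses are
  explored: the inverses of `bd (j+1)` are not inner in `K`; the inverse of `inv a` is `a`;
  `bd (j+1)`, `inv a`: in `F`, or `F = ∅` and `holeR` is degenerate (`Bounds`, `poly_inv`), then
  `k = 1`, `bd 1 = a`, `inv a = inv (bd 1)`.  `fill_sub` (to `H`), `fill_transfer`, `fill_sub`
  (back to `K'`): `K'.M.Fill τ ((holeR K.M k).map φ) (F.image φ)`, and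
  `(holeR K.M k).map φ = holeR K'.M k` (`hK.line` and `h.inv`: `φ (K.bd (j+1)) = K'.bd (j+1)`).
  So `step_eq_R_iff` gives the outcome.
* `back_L`: the mirror image.
* `back_sub`: once `K'.step = K.step`: the darts removed from `K'` are `r', a', b'` and the darts of
  `F'` with `F' = F.image φ` (`fill_unique`), all of the form `φ d`, `d` explored for `G`, so not
  inner in `G'`: an inner dart of `G'` is inner in `K'` and not removed, hence inner in `K'.rem`;
  `Sub.restrict`.  In all three cases.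
* `back_sim`: fields: `map`: `d` explored for `K.rem`: either not inner in `K` (`hK.map`), or removed,
  then `φ d` is removed.  `map'`: the same with `ψ`.  `inv`, `fc`: from `h` (darts explored for `K.rem`
  are explored for `G`).  `line`: `K.rem.bd i` is an old line dart (`hK.line`) or `inv a` / `inv b`
  (`lineN`, `lineR`, `lineL`).  `bdy`: `h.bdy`.
-/

namespace Pool.Agent.Spd

namespace HPT

variable {H G H' G' K K' : HPT} {φ ψ : ℕ → ℕ}

private theorem SimG2_rem {d : ℕ} (hd : K.rem.M.Inner d) :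
    d ≠ K.M.fc (K.M.bd 0) ∧ d ≠ K.M.fc (K.M.fc (K.M.bd 0)) := by
  cases hs : K.step with
  | N => exact (((K.step_N hs).2.1 d).1 hd).2.2
  | R k τ =>
    obtain ⟨-, F, -, -, h1, -⟩ := K.step_R hs
    have h2 := (h1 d).1 hd
    exact ⟨h2.2.2.1, h2.2.2.2.1⟩
  | L k τ =>
    obtain ⟨-, F, -, -, h1, -⟩ := K.step_L hs
    have h2 := (h1 d).1 hd
    exact ⟨h2.2.2.1, h2.2.2.2.1⟩

private theorem SimG2_hole (S : Sub G H) (S' : Sub G' H') (h : Sim H G H' G' φ ψ)
    (hK : Sim H K H' K' φ ψ) (T : Sub K H) (T' : Sub K' H') (R : Sub G K.rem)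
    {k : ℕ} {τ : Tri k} {F : Finset ℕ} (hF : ∀ d ∈ F, ¬ K.rem.M.Inner d ∧ K.M.Inner d)
    (p : ℕ → ℤ) {c c' : ℕ} (hc : K.M.Inner c) (hc1 : ¬ K.rem.M.Inner c) (hφ : φ c = c')
    (hc' : c' ∈ K'.M.D)
    (P : Poly K.M ((List.range k).map (fun j => K.M.bd (p j)) ++ [K.M.inv c]))
    (f : K.M.Fill τ ((List.range k).map (fun j => K.M.bd (p j)) ++ [K.M.inv c]) F) :
    K'.M.Fill τ ((List.range k).map (fun j => K'.M.bd (p j)) ++ [K'.M.inv c'])
      (F.image φ) := by
  have hinv : ∀ d, K.M.inv d = H.M.inv d := fun d => congrFun T.inv_eq d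
  have hinv' : ∀ d, K'.M.inv d = H'.M.inv d := fun d => congrFun T'.inv_eq d
  have hR : ∀ d, G.M.Inner d → K.rem.M.Inner d := fun d hd => R.inner hd
  have hRK : ∀ d, G.M.Inner d → K.M.Inner d := fun d hd => K.rem_sub.inner (hR d hd)
  have hB := fill_bounds K.ok P f
  have hcD := hc.1
  have hin : ∀ i, ¬ G.M.Inner (K.M.inv (K.M.bd i)) := fun i h1 => (hRK _ h1).2 i rfl
  set cs : List ℕ := (List.range k).map (fun j => K.M.bd (p j)) ++ [K.M.inv c] with hcs
  have hmem : ∀ d, d ∈ cs ↔ (∃ j, j < k ∧ d = K.M.bd (p j)) ∨ d = K.M.inv c := by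
    intro d
    rw [hcs, List.mem_append, List.mem_map, List.mem_singleton]
    constructor
    · rintro (⟨j, hj, rfl⟩ | h1)
      · exact Or.inl ⟨j, List.mem_range.1 hj, rfl⟩
      · exact Or.inr h1
    · rintro (⟨j, hj, rfl⟩ | h1)
      · exact Or.inl ⟨j, List.mem_range.2 hj, rfl⟩
      · exact Or.inr h1
  -- explored
  have hex1 : ∀ d ∈ cs, ¬ G.M.Inner d := by
    intro d hd hG
    have h1 := hR d hG
    have h2 : K.M.inv d ∈ cs := by
      by_contra h3
      exact (hF d ((hB.2 d (P.2.1 d hd)).2 ⟨hd, h3⟩).1).1 h1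
    obtain ⟨x, hx⟩ := poly_inv K.ok P hd h2
    have hlen : k = 1 := by
      have h3 := congrArg List.length hx
      rw [hcs, List.length_append, List.length_map, List.length_range] at h3
      simpa using h3
    subst hlen
    have h4 : cs = [K.M.bd (p 0), K.M.inv c] := rfl
    rw [h4, List.cons.injEq, List.cons.injEq] at hx
    obtain ⟨h5, h6, -⟩ := hx
    have h7 : c = K.M.bd (p 0) := by
      have h8 := congrArg K.M.inv h6
      rw [K.ok.inv_inv c hcD] at h8
      have hxD : x ∈ K.M.D := by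
        rw [← h5]
        exact K.ok.bd_mem _
      rw [K.ok.inv_inv x hxD] at h8
      rw [h8, h5]
    rw [h4, List.mem_cons, List.mem_singleton] at hd
    rcases hd with rfl | rfl
    · rw [← h7] at h1
      exact hc1 h1
    · rw [h7] at hG
      exact hin _ hG
  have hex2 : ∀ d ∈ cs, ¬ G.M.Inner (K.M.inv d) := by
    intro d hd hG
    rcases (hmem d).1 hd with ⟨j, -, rfl⟩ | rfl
    · exact hin _ hG
    · rw [K.ok.inv_inv c hcD] at hG
      exact hc1 (hR _ hG)
  have hcsD : ∀ d ∈ cs, d ∈ K.M.D := P.2.1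
  have f1 : H.M.Fill τ cs F := (fill_sub T τ cs F hcsD fun d hd => (hF d hd).2).1 f
  have P1 : Poly H.M cs := (poly_sub T cs hcsD).1 P
  have f2 := fill_transfer S S' h τ P1 (fun d hd => ⟨hex1 d hd, by
    rw [← hinv]
    exact hex2 d hd⟩) (fun d hd hG => (hF d hd).1 (hR d hG)) f1
  -- the image of the polygon
  have hbd : ∀ j, j < k → φ (K.M.bd (p j)) = K'.M.bd (p j) := by
    intro j hj
    have hm : K.M.bd (p j) ∈ cs := (hmem _).2 (Or.inl ⟨j, hj, rfl⟩)
    have hD : K.M.bd (p j) ∈ K.M.D := K.ok.bd_mem _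
    have e1 := K.ok.inv_inv _ hD
    have e2 := h.inv (K.M.inv (K.M.bd (p j))) (T.memD (K.ok.inv_mem _ hD)) (hex2 _ hm) (by
      rw [← hinv, e1]
      exact hex1 _ hm)
    have e3 := hK.line (p j)
    rw [← hinv, ← hinv'] at e3
    rw [← hinv, e1, e3, ← hinv', K'.ok.inv_inv _ (K'.ok.bd_mem _)] at e2
    exact e2
  have hbc : φ (K.M.inv c) = K'.M.inv c' := by
    have hm : K.M.inv c ∈ cs := (hmem _).2 (Or.inr rfl)
    have e2 := h.inv c (T.memD hcD) (fun hG => hc1 (hR _ hG)) (by
      rw [← hinv]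
      exact hex1 _ hm)
    rw [← hinv, hφ, ← hinv'] at e2
    exact e2
  have hmap : cs.map φ = (List.range k).map (fun j => K'.M.bd (p j)) ++ [K'.M.inv c'] := by
    rw [hcs, List.map_append, List.map_map, List.map_singleton, hbc]
    congr 1
    refine List.map_congr_left fun j hj => ?_
    exact hbd j (List.mem_range.1 hj)
  rw [hmap] at f2
  refine (fill_sub T' τ _ _ ?_ ?_).2 f2
  · intro d hd
    rw [List.mem_append, List.mem_map, List.mem_singleton] at hd
    rcases hd with ⟨j, -, rfl⟩ | rfl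
    · exact K'.ok.bd_mem _
    · exact K'.ok.inv_mem _ hc'
  · intro d hd
    obtain ⟨e, he, rfl⟩ := Finset.mem_image.1 hd
    have h1 := hF e he
    exact (Sim.inner_iff h hK T T' (T.memD h1.2.1) (fun hG => h1.1 (hR e hG))).1 h1.2

/-- The hole is sent to the hole. -/
theorem back_hole (S : Sub G H) (S' : Sub G' H') (h : Sim H G H' G' φ ψ)
    (hK : Sim H K H' K' φ ψ) (T : Sub K H) (T' : Sub K' H') (R : Sub G K.rem) (R' : Sub G' K')
    {k : ℕ} {τ : Tri k} {F : Finset ℕ} (hF : ∀ d ∈ F, ¬ K.rem.M.Inner d ∧ K.M.Inner d) :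
    (K.M.SameV (K.M.bd (k + 1)) (K.M.fc (K.M.fc (K.M.bd 0))) → K.M.Fill τ (holeR K.M k) F →
      K'.M.Fill τ (holeR K'.M k) (F.image φ)) ∧
    (K.M.SameV (K.M.bd (-k)) (K.M.fc (K.M.fc (K.M.bd 0))) → K.M.Fill τ (holeL K.M k) F →
      K'.M.Fill τ (holeL K'.M k) (F.image φ)) := by
  obtain ⟨-, ha, hb, -⟩ := back_tri S S' h hK T T' R R'
  have hr := K.ok.bd_inner 0
  have haI := K.ok.fc_inner _ hr
  have hbI := K.ok.fc_inner _ haI
  have hr' := K'.ok.bd_inner 0
  have haI' := K'.ok.fc_inner _ hr'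
  have hbI' := K'.ok.fc_inner _ haI'
  refine ⟨fun hw f => ?_, fun hw f => ?_⟩
  · exact SimG2_hole S S' h hK T T' R hF (fun j => (j : ℤ) + 1) haI
      (fun hd => (SimG2_rem hd).1 rfl) ha haI'.1 (holeR_poly K.ok (tri_pos τ) hw) f
  · exact SimG2_hole S S' h hK T T' R hF (fun j => (j : ℤ) - k) hbI
      (fun hd => (SimG2_rem hd).2 rfl) hb hbI'.1 (holeL_poly K.ok (tri_pos τ) hw) f

end HPT

end Pool.Agent.Spd
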