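import Pool.Agent.Spd.SimG3

/-!
(Part `SimG4`: `back_sub`.  The text below is the common header of the parts.)

# SPD S7: a finer exploration determines a coarser one (one step)

`h : Sim H G H' G' φ ψ`, and the same `φ`, `ψ` are an isomorphism for the coarser regions `K`, `K'`
(`hK`; `G` is a sub-map of `K`, `G'` of `K'`), and `G` is even a sub-map of `K.rem`, i.e. the darts
removed by the peeling of `K` are explored for `G`.  Then `K'` has the same outcome, `G'` is a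
sub-map of `K'.rem`, and `φ`, `ψ` are an isomorphism for `K.rem`, `K'.rem`.

`r = K.bd 0`, `a = fc r`, `b = fc a` are not inner in `K.rem`, so explored (not inner in `G`).
`φ r = K'.bd 0`: `hK.line 0` gives `φ (inv r) = inv r'`, and `φ (inv (inv r)) = inv (φ (inv r))`
(`h.inv`, both explored).  So `φ a = a'`, `φ b = b'` (`h.fc`; `K.fc = H.fc` on inner darts of `K`,
`Sub.fc_eq`).  For explored `d` in `K.D`: `K.M.SameV (K.bd i) d ↔ K'.M.SameV (K'.bd i) (φ d)`
(`Sub.sameV`, `Sim.on_iff`, `Sim.mem_iff`).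

* `back_N`: `step_eq_N_iff` for `K` and `K'` and the equivalence above for `d = b`.
* `back_R`: `step_R` for `K`: the hole `F`, `Fill τ (holeR K.M k) F`, all darts of `F` and
  `r, a, b` are explored (not inner in `K.rem`); the darts of `holeR` and their inverses are
  explored: the inverses of `bd (j+1)` are not inner in `K`; the inverse of `inv a` is `a`;
  `bd (j+1)`, `inv a`: in `F`, or `F = ∅` and `holeR` is degenerate (`Bounds`, `poly_inv`), then
  `k = 1`, `bd 1 = a`, `inv a = inv (bd 1)`.  `fill_sub` (to `H`), `fill_transfer`, `fill_sub`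
  (back to `K'`): `K'.M.Fill τ ((holeR K.M k).map φ) (F.image φ)`, and
  `(holeR K.M k).map φ = holeR K'.M k` (`hK.line` and `h.inv`: `φ (K.bd (j+1)) = K'.bd (j+1)`).
  So `step_eq_R_iff` gives the outcome.
* `back_L`: the mirror image.
* `back_sub`: once `K'.step = K.step`: the darts removed from `K'` are `r', a', b'` and the darts of
  `F'` with `F' = F.image φ` (`fill_unique`), all of the form `φ d`, `d` explored for `G`, so not
  inner in `G'`: an inner dart of `G'` is inner in `K'` and not removed, hence inner in `K'.rem`;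
  `Sub.restrict`.  In all three cases.
* `back_sim`: fields: `map`: `d` explored for `K.rem`: either not inner in `K` (`hK.map`), or removed,
  then `φ d` is removed.  `map'`: the same with `ψ`.  `inv`, `fc`: from `h` (darts explored for `K.rem`
  are explored for `G`).  `line`: `K.rem.bd i` is an old line dart (`hK.line`) or `inv a` / `inv b`
  (`lineN`, `lineR`, `lineL`).  `bdy`: `h.bdy`.
-/

namespace Pool.Agent.Spd

namespace HPT

variable {H G H' G' K K' : HPT} {φ ψ : ℕ → ℕ}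

private theorem back_removed (S : Sub G H) (S' : Sub G' H') (h : Sim H G H' G' φ ψ)
    (hK : Sim H K H' K' φ ψ) (T : Sub K H) (T' : Sub K' H') (R : Sub G K.rem) (R' : Sub G' K') :
    ∃ X : Finset ℕ, (∀ d, K.rem.M.Inner d ↔ K.M.Inner d ∧ d ∉ X) ∧ (∀ d ∈ X, K.M.Inner d) ∧
      (∀ d, K'.rem.M.Inner d ↔ K'.M.Inner d ∧ d ∉ X.image φ) := by
  have hst := back_step S S' h hK T T' R R'
  obtain ⟨t1, t2, t3, -⟩ := back_tri S S' h hK T T' R R'
  have i0 : K.M.Inner (K.M.bd 0) := K.ok.bd_inner 0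
  have i1 : K.M.Inner (K.M.fc (K.M.bd 0)) := K.ok.fc_inner _ i0
  have i2 : K.M.Inner (K.M.fc (K.M.fc (K.M.bd 0))) := K.ok.fc_inner _ i1
  have fin : ∀ F : Finset ℕ, (∀ d ∈ F, K.M.Inner d) →
      (∀ d, K.rem.M.Inner d ↔ K.M.Inner d ∧ d ≠ K.M.bd 0 ∧ d ≠ K.M.fc (K.M.bd 0) ∧
        d ≠ K.M.fc (K.M.fc (K.M.bd 0)) ∧ d ∉ F) →
      (∀ d, K'.rem.M.Inner d ↔ K'.M.Inner d ∧ d ≠ K'.M.bd 0 ∧ d ≠ K'.M.fc (K'.M.bd 0) ∧
        d ≠ K'.M.fc (K'.M.fc (K'.M.bd 0)) ∧ d ∉ F.image φ) →
      ∃ X : Finset ℕ, (∀ d, K.rem.M.Inner d ↔ K.M.Inner d ∧ d ∉ X) ∧ (∀ d ∈ X, K.M.Inner d) ∧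
        (∀ d, K'.rem.M.Inner d ↔ K'.M.Inner d ∧ d ∉ X.image φ) := by
    intro F hF h1 h2
    refine ⟨{K.M.bd 0, K.M.fc (K.M.bd 0), K.M.fc (K.M.fc (K.M.bd 0))} ∪ F, ?_, ?_, ?_⟩
    · intro d
      rw [h1]
      simp only [Finset.mem_union, Finset.mem_insert, Finset.mem_singleton, not_or, and_assoc,
        ne_eq]
    · intro d hd
      rw [Finset.mem_union, Finset.mem_insert, Finset.mem_insert, Finset.mem_singleton] at hd
      rcases hd with (hd | hd | hd) | hd
      · rw [hd]; exact i0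
      · rw [hd]; exact i1
      · rw [hd]; exact i2
      · exact hF d hd
    · intro d
      rw [h2, Finset.image_union, Finset.image_insert, Finset.image_insert,
        Finset.image_singleton, t1, t2, t3]
      simp only [Finset.mem_union, Finset.mem_insert, Finset.mem_singleton, not_or, and_assoc,
        ne_eq]
  rcases hs : K.step with _ | ⟨k, τ⟩ | ⟨k, τ⟩
  · have hs' := hst.trans hs
    obtain ⟨-, h1, -⟩ := step_N K hs
    obtain ⟨-, h2, -⟩ := step_N K' hs'
    refine fin ∅ (fun d hd => absurd hd (Finset.notMem_empty d)) (fun d => ?_) (fun d => ?_)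
    · rw [h1]
      simp
    · rw [h2]
      simp
  · have hs' := hst.trans hs
    obtain ⟨p1, F, f1, B1, h1, -⟩ := step_R K hs
    obtain ⟨p2, F', f2, B2, h2, -⟩ := step_R K' hs'
    have hF : ∀ d ∈ F, ¬ K.rem.M.Inner d ∧ K.M.Inner d := fun d hd =>
      ⟨fun hI => ((h1 d).1 hI).2.2.2.2 hd, (B1.1 d hd).1⟩
    have f3 := (back_hole S S' h hK T T' R R' (k := k) (τ := τ) hF).1 p1 f1
    have hP := holeR_poly K'.ok (tri_pos τ) p2
    have hFF := (fill_unique K'.ok hP f2 f3).2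
    exact fin F (fun d hd => (hF d hd).2) h1 (hFF ▸ h2)
  · have hs' := hst.trans hs
    obtain ⟨p1, F, f1, B1, h1, -⟩ := step_L K hs
    obtain ⟨p2, F', f2, B2, h2, -⟩ := step_L K' hs'
    have hF : ∀ d ∈ F, ¬ K.rem.M.Inner d ∧ K.M.Inner d := fun d hd =>
      ⟨fun hI => ((h1 d).1 hI).2.2.2.2 hd, (B1.1 d hd).1⟩
    have f3 := (back_hole S S' h hK T T' R R' (k := k) (τ := τ) hF).2 p1 f1
    have hP := holeL_poly K'.ok (tri_pos τ) p2
    have hFF := (fill_unique K'.ok hP f2 f3).2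
    exact fin F (fun d hd => (hF d hd).2) h1 (hFF ▸ h2)

theorem back_sub (S : Sub G H) (S' : Sub G' H') (h : Sim H G H' G' φ ψ)
    (hK : Sim H K H' K' φ ψ) (T : Sub K H) (T' : Sub K' H') (R : Sub G K.rem) (R' : Sub G' K') :
    (∀ d, K.M.Inner d → ¬ K.rem.M.Inner d → K'.M.Inner (φ d) ∧ ¬ K'.rem.M.Inner (φ d)) ∧
    (∀ d, K'.M.Inner d → ¬ K'.rem.M.Inner d → K.M.Inner (ψ d) ∧ ¬ K.rem.M.Inner (ψ d)) ∧
    Sub G' K'.rem := by
  obtain ⟨X, h1, h2, h3⟩ := back_removed S S' h hK T T' R R'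
  have hX : ∀ d ∈ X, ¬ G.M.Inner d := fun d hd hI => ((h1 d).1 (R.inner hI)).2 hd
  have hm : ∀ d ∈ X, d ∈ H.M.D := fun d hd => (T.inner (h2 d hd)).1
  refine ⟨fun d hd hr => ?_, fun d hd hr => ?_, ?_⟩
  · have hdX : d ∈ X := by
      by_contra hn
      exact hr ((h1 d).2 ⟨hd, hn⟩)
    refine ⟨(Sim.inner_iff h hK T T' (hm d hdX) (hX d hdX)).1 hd, fun hI => ?_⟩
    exact ((h3 _).1 hI).2 (Finset.mem_image_of_mem φ hdX)
  · have hdX : d ∈ X.image φ := by
      by_contra hn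
      exact hr ((h3 d).2 ⟨hd, hn⟩)
    obtain ⟨e, he, rfl⟩ := Finset.mem_image.1 hdX
    rw [(h.map e (hm e he) (hX e he)).2.2]
    exact ⟨h2 e he, fun hI => ((h1 e).1 hI).2 he⟩
  · refine Sub.restrict (rem_sub K') R' (fun d hd => (h3 d).2 ⟨R'.inner hd, fun hdX => ?_⟩)
    obtain ⟨e, he, rfl⟩ := Finset.mem_image.1 hdX
    exact (h.map e (hm e he) (hX e he)).2.1 hd

end HPT

end Pool.Agent.Spd
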