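import Pool.Agent.Spd.SimG4

/-!
(Part `SimG5`: `back_sim`.  The text below is the common header of the parts.)

# SPD S7: a finer exploration determines a coarser one (one step)

`h : Sim H G H' G' φ ψ`, and the same `φ`, `ψ` are an isomorphism for the coarser regions `K`, `K'`
(`hK`; `G` is a sub-map of `K`, `G'` of `K'`), and `G` is even a sub-map of `K.rem`, i.e. the darts
removed by the peeling of `K` are explored for `G`.  Then `K'` has the same outcome, `G'` is a
sub-map of `K'.rem`, and `φ`, `ψ` are an isomorphism for `K.rem`, `K'.rem`.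

`r = K.bd 0`, `a = fc r`, `b = fc a` are not inner in `K.rem`, so explored (not inner in `G`).
`φ r = K'.bd 0`: `hK.line 0` gives `φ (inv r) = inv r'`, and `φ (inv (inv r)) = inv (φ (inv r))`
(`h.inv`, both explored).  So `φ a = a'`, `φ b = b'` (`h.fc`; `K.fc = H.fc` on inner darts of `K`,
`Sub.fc_eq`).  For explored `d` in `K.D`: `K.M.SameV (K.bd i) d ↔ K'.M.SameV (K'.bd i) (φ d)`
(`Sub.sameV`, `Sim.on_iff`, `Sim.mem_iff`).

* `back_N`: `step_eq_N_iff` for `K` and `K'` and the equivalence above for `d = b`.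
* `back_R`: `step_R` for `K`: the hole `F`, `Fill τ (holeR K.M k) F`, all darts of `F` and
  `r, a, b` are explored (not inner in `K.rem`); the darts of `holeR` and their inverses are
  explored: the inverses of `bd (j+1)` are not inner in `K`; the inverse of `inv a` is `a`;
  `bd (j+1)`, `inv a`: in `F`, or `F = ∅` and `holeR` is degenerate (`Bounds`, `poly_inv`), then
  `k = 1`, `bd 1 = a`, `inv a = inv (bd 1)`.  `fill_sub` (to `H`), `fill_transfer`, `fill_sub`
  (back to `K'`): `K'.M.Fill τ ((holeR K.M k).map φ) (F.image φ)`, and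
  `(holeR K.M k).map φ = holeR K'.M k` (`hK.line` and `h.inv`: `φ (K.bd (j+1)) = K'.bd (j+1)`).
  So `step_eq_R_iff` gives the outcome.
* `back_L`: the mirror image.
* `back_sub`: once `K'.step = K.step`: the darts removed from `K'` are `r', a', b'` and the darts of
  `F'` with `F' = F.image φ` (`fill_unique`), all of the form `φ d`, `d` explored for `G`, so not
  inner in `G'`: an inner dart of `G'` is inner in `K'` and not removed, hence inner in `K'.rem`;
  `Sub.restrict`.  In all three cases.
* `back_sim`: fields: `map`: `d` explored for `K.rem`: either not inner in `K` (`hK.map`), or removed,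
  then `φ d` is removed.  `map'`: the same with `ψ`.  `inv`, `fc`: from `h` (darts explored for `K.rem`
  are explored for `G`).  `line`: `K.rem.bd i` is an old line dart (`hK.line`) or `inv a` / `inv b`
  (`lineN`, `lineR`, `lineL`).  `bdy`: `h.bdy`.
-/

namespace Pool.Agent.Spd

namespace HPT

variable {H G H' G' K K' : HPT} {φ ψ : ℕ → ℕ}

theorem back_sim (S : Sub G H) (S' : Sub G' H') (h : Sim H G H' G' φ ψ)
    (hK : Sim H K H' K' φ ψ) (T : Sub K H) (T' : Sub K' H') (R : Sub G K.rem) (R' : Sub G' K') :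
    Sim H K.rem H' K'.rem φ ψ := by
  obtain ⟨-, ha, hb, -⟩ := back_tri S S' h hK T T' R R'
  have hs := back_step S S' h hK T T' R R'
  obtain ⟨hm, hm', R''⟩ := back_sub S S' h hK T T' R R'
  -- explored for the peeled region implies explored for `G`
  have e1 : ∀ d, ¬ K.rem.M.Inner d → ¬ G.M.Inner d := fun d hd hG => hd (R.inner hG)
  have e2 : ∀ d, ¬ K'.rem.M.Inner d → ¬ G'.M.Inner d := fun d hd hG => hd (R''.inner hG)
  refine ⟨?_, ?_, ?_, ?_, ?_, h.bdy⟩
  · intro d hd hn
    by_cases hKd : K.M.Inner d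
    · obtain ⟨h3, -, h5⟩ := h.map d hd (e1 d hn)
      exact ⟨h3, (hm d hKd hn).2, h5⟩
    · obtain ⟨h3, h4, h5⟩ := hK.map d hd hKd
      exact ⟨h3, fun h6 => h4 ((rem_sub K').inner h6), h5⟩
  · intro d hd hn
    by_cases hKd : K'.M.Inner d
    · obtain ⟨h3, -, h5⟩ := h.map' d hd (e2 d hn)
      exact ⟨h3, (hm' d hKd hn).2, h5⟩
    · obtain ⟨h3, h4, h5⟩ := hK.map' d hd hKd
      exact ⟨h3, fun h6 => h4 ((rem_sub K).inner h6), h5⟩
  · intro d hd hn hn'
    exact h.inv d hd (e1 d hn) (e1 _ hn')
  · intro d hd hn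
    exact h.fc d hd (e1 d hn)
  · -- the new line darts
    have ka : φ (H.M.inv (K.M.inv (K.M.fc (K.M.bd 0)))) =
        H'.M.inv (K'.M.inv (K'.M.fc (K'.M.bd 0))) := by
      rw [T.inv_eq, T'.inv_eq, H.ok.inv_inv _ (T.memD (K.ok.fc_mem (K.ok.bd_mem 0))),
        H'.ok.inv_inv _ (T'.memD (K'.ok.fc_mem (K'.ok.bd_mem 0))), ha]
    have kb : φ (H.M.inv (K.M.inv (K.M.fc (K.M.fc (K.M.bd 0))))) =
        H'.M.inv (K'.M.inv (K'.M.fc (K'.M.fc (K'.M.bd 0)))) := by
      rw [T.inv_eq, T'.inv_eq,
        H.ok.inv_inv _ (T.memD (K.ok.fc_mem (K.ok.fc_mem (K.ok.bd_mem 0)))),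
        H'.ok.inv_inv _ (T'.memD (K'.ok.fc_mem (K'.ok.fc_mem (K'.ok.bd_mem 0)))), hb]
    intro i
    cases hst : K.step with
    | N =>
      rw [(step_N K hst).2.2, (step_N K' (hs.trans hst)).2.2]
      unfold lineN
      by_cases h1 : i < 0
      · rw [if_pos h1, if_pos h1]
        exact hK.line i
      · rw [if_neg h1, if_neg h1]
        by_cases h2 : i = 0
        · rw [if_pos h2, if_pos h2]
          exact kb
        · rw [if_neg h2, if_neg h2]
          by_cases h3 : i = 1
          · rw [if_pos h3, if_pos h3]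
            exact ka
          · rw [if_neg h3, if_neg h3]
            exact hK.line (i - 1)
    | R k τ =>
      obtain ⟨-, -, -, -, -, hl⟩ := step_R K hst
      obtain ⟨-, -, -, -, -, hl'⟩ := step_R K' (hs.trans hst)
      rw [hl, hl']
      unfold lineR
      by_cases h1 : i < 0
      · rw [if_pos h1, if_pos h1]
        exact hK.line i
      · rw [if_neg h1, if_neg h1]
        by_cases h2 : i = 0
        · rw [if_pos h2, if_pos h2]
          exact kb
        · rw [if_neg h2, if_neg h2]
          exact hK.line (i + k)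
    | L k τ =>
      obtain ⟨-, -, -, -, -, hl⟩ := step_L K hst
      obtain ⟨-, -, -, -, -, hl'⟩ := step_L K' (hs.trans hst)
      rw [hl, hl']
      unfold lineL
      by_cases h1 : i < 0
      · rw [if_pos h1, if_pos h1]
        exact hK.line (i - k)
      · rw [if_neg h1, if_neg h1]
        by_cases h2 : i = 0
        · rw [if_pos h2, if_pos h2]
          exact ka
        · rw [if_neg h2, if_neg h2]
          exact hK.line i

end HPT

end Pool.Agent.Spd
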