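import Pool.Agent.Spd.SimE
import Pool.Agent.Spd.SimF

/-!
(Part `SimG1`: `back_tri`.  The text below is the common header of the parts.)

# SPD S7: a finer exploration determines a coarser one (one step)

`h : Sim H G H' G' φ ψ`, and the same `φ`, `ψ` are an isomorphism for the coarser regions `K`, `K'`
(`hK`; `G` is a sub-map of `K`, `G'` of `K'`), and `G` is even a sub-map of `K.rem`, i.e. the darts
removed by the peeling of `K` are explored for `G`.  Then `K'` has the same outcome, `G'` is a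
sub-map of `K'.rem`, and `φ`, `ψ` are an isomorphism for `K.rem`, `K'.rem`.

`r = K.bd 0`, `a = fc r`, `b = fc a` are not inner in `K.rem`, so explored (not inner in `G`).
`φ r = K'.bd 0`: `hK.line 0` gives `φ (inv r) = inv r'`, and `φ (inv (inv r)) = inv (φ (inv r))`
(`h.inv`, both explored).  So `φ a = a'`, `φ b = b'` (`h.fc`; `K.fc = H.fc` on inner darts of `K`,
`Sub.fc_eq`).  For explored `d` in `K.D`: `K.M.SameV (K.bd i) d ↔ K'.M.SameV (K'.bd i) (φ d)`
(`Sub.sameV`, `Sim.on_iff`, `Sim.mem_iff`).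

* `back_N`: `step_eq_N_iff` for `K` and `K'` and the equivalence above for `d = b`.
* `back_R`: `step_R` for `K`: the hole `F`, `Fill τ (holeR K.M k) F`, all darts of `F` and
  `r, a, b` are explored (not inner in `K.rem`); the darts of `holeR` and their inverses are
  explored: the inverses of `bd (j+1)` are not inner in `K`; the inverse of `inv a` is `a`;
  `bd (j+1)`, `inv a`: in `F`, or `F = ∅` and `holeR` is degenerate (`Bounds`, `poly_inv`), then
  `k = 1`, `bd 1 = a`, `inv a = inv (bd 1)`.  `fill_sub` (to `H`), `fill_transfer`, `fill_sub`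
  (back to `K'`): `K'.M.Fill τ ((holeR K.M k).map φ) (F.image φ)`, and
  `(holeR K.M k).map φ = holeR K'.M k` (`hK.line` and `h.inv`: `φ (K.bd (j+1)) = K'.bd (j+1)`).
  So `step_eq_R_iff` gives the outcome.
* `back_L`: the mirror image.
* `back_sub`: once `K'.step = K.step`: the darts removed from `K'` are `r', a', b'` and the darts of
  `F'` with `F' = F.image φ` (`fill_unique`), all of the form `φ d`, `d` explored for `G`, so not
  inner in `G'`: an inner dart of `G'` is inner in `K'` and not removed, hence inner in `K'.rem`;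
  `Sub.restrict`.  In all three cases.
* `back_sim`: fields: `map`: `d` explored for `K.rem`: either not inner in `K` (`hK.map`), or removed,
  then `φ d` is removed.  `map'`: the same with `ψ`.  `inv`, `fc`: from `h` (darts explored for `K.rem`
  are explored for `G`).  `line`: `K.rem.bd i` is an old line dart (`hK.line`) or `inv a` / `inv b`
  (`lineN`, `lineR`, `lineL`).  `bdy`: `h.bdy`.
-/

namespace Pool.Agent.Spd

namespace HPT

variable {H G H' G' K K' : HPT} {φ ψ : ℕ → ℕ}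

private theorem rem_ne (K : HPT) {d : ℕ} (hd : K.rem.M.Inner d) :
    d ≠ K.M.bd 0 ∧ d ≠ K.M.fc (K.M.bd 0) ∧ d ≠ K.M.fc (K.M.fc (K.M.bd 0)) := by
  rcases hs : K.step with _ | ⟨k, τ⟩ | ⟨k, τ⟩
  · have h := ((K.step_N hs).2.1 d).1 hd
    exact ⟨h.2.1, h.2.2.1, h.2.2.2⟩
  · obtain ⟨_, F, _, _, hI, _⟩ := K.step_R hs
    have h := (hI d).1 hd
    exact ⟨h.2.1, h.2.2.1, h.2.2.2.1⟩
  · obtain ⟨_, F, _, _, hI, _⟩ := K.step_L hs
    have h := (hI d).1 hd
    exact ⟨h.2.1, h.2.2.1, h.2.2.2.1⟩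

/-- The root triangle is sent to the root triangle. -/
theorem back_tri (S : Sub G H) (S' : Sub G' H') (h : Sim H G H' G' φ ψ)
    (hK : Sim H K H' K' φ ψ) (T : Sub K H) (T' : Sub K' H') (R : Sub G K.rem) (R' : Sub G' K') :
    φ (K.M.bd 0) = K'.M.bd 0 ∧ φ (K.M.fc (K.M.bd 0)) = K'.M.fc (K'.M.bd 0) ∧
      φ (K.M.fc (K.M.fc (K.M.bd 0))) = K'.M.fc (K'.M.fc (K'.M.bd 0)) ∧
      ∀ i, K.M.SameV (K.M.bd i) (K.M.fc (K.M.fc (K.M.bd 0))) ↔
        K'.M.SameV (K'.M.bd i) (K'.M.fc (K'.M.fc (K'.M.bd 0))) := by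
  have GK : Sub G K := R.trans (rem_sub K)
  have er : K.M.Inner (K.M.bd 0) := K.ok.bd_inner 0
  have er' : K'.M.Inner (K'.M.bd 0) := K'.ok.bd_inner 0
  have ea : K.M.Inner (K.M.fc (K.M.bd 0)) := K.ok.fc_inner _ er
  have ea' : K'.M.Inner (K'.M.fc (K'.M.bd 0)) := K'.ok.fc_inner _ er'
  have eb : K.M.Inner (K.M.fc (K.M.fc (K.M.bd 0))) := K.ok.fc_inner _ ea
  have eb' : K'.M.Inner (K'.M.fc (K'.M.fc (K'.M.bd 0))) := K'.ok.fc_inner _ ea'
  have nr : ¬ G.M.Inner (K.M.bd 0) := fun hx => (rem_ne K (R.inner hx)).1 rfl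
  have na : ¬ G.M.Inner (K.M.fc (K.M.bd 0)) := fun hx => (rem_ne K (R.inner hx)).2.1 rfl
  have nb : ¬ G.M.Inner (K.M.fc (K.M.fc (K.M.bd 0))) :=
    fun hx => (rem_ne K (R.inner hx)).2.2 rfl
  have mr : K.M.bd 0 ∈ H.M.D := (T.inner er).1
  have mr' : K'.M.bd 0 ∈ H'.M.D := (T'.inner er').1
  have h1 : φ (K.M.bd 0) = K'.M.bd 0 := by
    have hi : ¬ G.M.Inner (H.M.inv (K.M.bd 0)) :=
      fun hx => T.cutting.line_out 0 (GK.inner hx)
    have hii : H.M.inv (H.M.inv (K.M.bd 0)) = K.M.bd 0 := H.ok.inv_inv _ mr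
    have h2 := h.inv (H.M.inv (K.M.bd 0)) (H.ok.inv_mem _ mr) hi (by rw [hii]; exact nr)
    rw [hii, hK.line 0, H'.ok.inv_inv _ mr'] at h2
    exact h2
  have h2 : φ (K.M.fc (K.M.bd 0)) = K'.M.fc (K'.M.bd 0) := by
    rw [T.fc_eq _ er, h.fc _ mr nr, h1, T'.fc_eq _ er']
  have h3 : φ (K.M.fc (K.M.fc (K.M.bd 0))) = K'.M.fc (K'.M.fc (K'.M.bd 0)) := by
    rw [T.fc_eq _ ea, h.fc _ (T.inner ea).1 na, h2, T'.fc_eq _ ea']
  refine ⟨h1, h2, h3, fun i => ?_⟩
  rw [T.sameV (K.ok.bd_inner i).1, T'.sameV (K'.ok.bd_inner i).1,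
    and_iff_left eb.1, and_iff_left eb'.1, ← h3]
  exact h.on_iff S S' hK T T' GK (T.inner eb).1 nb i

end HPT

end Pool.Agent.Spd
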