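import Pool.Agent.Spd.SimH
import Pool.Agent.Spd.Dist
import Pool.Agent.Spd.PathReg

/-!
(Part `SimNear1`: `Reach`, `reach_mem`, `reach_self`, `reach_finite`, `sim_near`, `sim_dist`.  The text below is the common header of the parts.)

# SPD S12: distances and walks are transported by isomorphisms of explored parts

`Reach H n e f`: the origin of `f` is at distance at most `n` from the origin of `e`.

* `reach_finite`: induction on `n`: vertices are finite (`cls_finite`), finite unions.
* `reach_self`: `Reach H n e e` for all `n`.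
* `reach_mem`: all `f` with `Reach H n e f` are darts of `H`.
* `sim_near`: induction on `n`, generalizing `e`.  `n = 0`: `Sim.on_iff` with `K = H`
  (`Sim.base`): `SameV (H.bd i) e ↔ SameV (H'.bd i) (φ e)`.  Step: `e` is strictly below `G`, so all
  darts `x ~ e` and their inverses are explored (`Sim.iter`-argument), the class of `φ e` consists of
  the `φ x`, `x ~ e` (`Sim.iter`: `φ (rot^[k] e) = rot^[k] (φ e)`), and `φ (inv x) = inv (φ x)`
  (`h.inv`).  `x` and `inv x` satisfy the hypothesis for `n`.  So `e' ∈ near n ∨ inv e' ∈ near n`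
  is transported by the induction hypothesis.
* `sim_dist`: `d = H.distBd e`: `e ∈ near d`, `e ∉ near (d-1)` if `d > 0` (`distBd_le_iff`);
  `sim_near` for `d` and `d - 1`.
* `walkFrom_sim`: induction on `j ≤ n`: `φ (walkFrom e U j) = walkFrom e' U' j`, using `Sim.deg`,
  `Sim.iter` and `h.inv` at the strictly below vertex of `walkFrom e U j`, `j < n`; the new dart is
  `inv x` with `x` at this vertex, so it is explored.
* `walk_sim`: `walk_eq`, start `inv (H.bd (-1))` with `h.bdy`.
-/

namespace Pool.Agent.Spd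

namespace HPT

/-- The origin of `f` is at distance at most `n` from the origin of `e`. -/
def Reach (H : HPT) : ℕ → ℕ → ℕ → Prop
  | 0, e, f => H.M.SameV e f
  | n + 1, e, f => ∃ x, H.M.SameV e x ∧ (Reach H n x f ∨ Reach H n (H.M.inv x) f)

variable {H G H' G' : HPT} {φ ψ : ℕ → ℕ}

theorem reach_mem (H : HPT) (n : ℕ) {e f : ℕ} (he : e ∈ H.M.D) (h : Reach H n e f) :
    f ∈ H.M.D := by
  induction n generalizing e with
  | zero => exact H.ok.sameV_mem he h
  | succ n ih =>
    obtain ⟨x, hx, h1 | h1⟩ := h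
    · exact ih (H.ok.sameV_mem he hx) h1
    · exact ih (H.ok.inv_mem _ (H.ok.sameV_mem he hx)) h1

theorem reach_self (H : HPT) (n : ℕ) (e : ℕ) : Reach H n e e := by
  induction n with
  | zero => exact ⟨0, rfl⟩
  | succ n ih => exact ⟨e, ⟨0, rfl⟩, Or.inl ih⟩

private theorem reach_mono (H : HPT) {m n : ℕ} (hmn : m ≤ n) {e f : ℕ} (h : Reach H m e f) :
    Reach H n e f := by
  induction n, hmn using Nat.le_induction with
  | base => exact h
  | succ n _ ih => exact ⟨e, ⟨0, rfl⟩, Or.inl ih⟩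

theorem reach_finite (H : HPT) (n : ℕ) {e : ℕ} (he : e ∈ H.M.D) :
    {f | Reach H n e f}.Finite := by
  induction n generalizing e with
  | zero => exact H.cls_finite he
  | succ n ih =>
    have h1 : (⋃ x ∈ {x | H.M.SameV e x},
        ({f | Reach H n x f} ∪ {f | Reach H n (H.M.inv x) f})).Finite :=
      (H.cls_finite he).biUnion fun x hx => (ih (H.ok.sameV_mem he hx)).union
        (ih (H.ok.inv_mem _ (H.ok.sameV_mem he hx)))
    refine h1.subset ?_
    rintro f ⟨x, hx, h2⟩
    simp only [Set.mem_iUnion]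
    exact ⟨x, hx, h2⟩

private theorem near1_not_inner {d : ℕ} (hb : Blw H G d) : ¬ G.M.Inner d := fun hi =>
  hb d (H.ok.sameV_refl d) hi.1

theorem sim_near (S : Sub G H) (S' : Sub G' H') (h : Sim H G H' G' φ ψ) (n : ℕ) {e : ℕ}
    (he : e ∈ H.M.D) (hb : ∀ f, Reach H n e f → Blw H G f) :
    e ∈ H.near n ↔ φ e ∈ H'.near n := by
  induction n generalizing e with
  | zero =>
    have hn : ¬ G.M.Inner e := near1_not_inner (hb e (reach_self H 0 e))
    exact exists_congr fun i => Sim.on_iff S S' h (h.base S S') (Sub.refl H) (Sub.refl H') S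
      he hn i
  | succ n ih =>
    have hbe : Blw H G e := hb e (reach_self H (n + 1) e)
    have key : ∀ k, ((H.M.rot^[k] e ∈ H.near n ∨ H.M.inv (H.M.rot^[k] e) ∈ H.near n) ↔
        (H'.M.rot^[k] (φ e) ∈ H'.near n ∨ H'.M.inv (H'.M.rot^[k] (φ e)) ∈ H'.near n)) := by
      intro k
      have hx : H.M.SameV e (H.M.rot^[k] e) := ⟨k, rfl⟩
      have hxD : H.M.rot^[k] e ∈ H.M.D := H.ok.iter_mem he k
      have h1 : ¬ G.M.Inner (H.M.rot^[k] e) := near1_not_inner (blw_sameV S he hx hbe)
      have h2 := (adj_not_cross S he hbe hx).2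
      rw [← Sim.iter S h he hbe k, ← h.inv _ hxD h1 h2]
      exact or_congr (ih hxD fun f hf => hb f ⟨_, hx, Or.inl hf⟩)
        (ih (H.ok.inv_mem _ hxD) fun f hf => hb f ⟨_, hx, Or.inr hf⟩)
    constructor
    · rintro ⟨x, ⟨k, rfl⟩, hx⟩
      exact ⟨_, ⟨k, rfl⟩, (key k).1 hx⟩
    · rintro ⟨x, ⟨k, rfl⟩, hx⟩
      exact ⟨_, ⟨k, rfl⟩, (key k).2 hx⟩

theorem sim_dist (S : Sub G H) (S' : Sub G' H') (h : Sim H G H' G' φ ψ) {e : ℕ}
    (he : e ∈ H.M.D) (hb : ∀ f, Reach H (H.distBd e) e f → Blw H G f) :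
    H'.distBd (φ e) = H.distBd e := by
  have hn : ¬ G.M.Inner e := near1_not_inner (hb e (reach_self H _ e))
  have he' : φ e ∈ H'.M.D := (h.map e he hn).1
  have hle : ∀ m ≤ H.distBd e, (H.distBd e ≤ m ↔ H'.distBd (φ e) ≤ m) := by
    intro m hm
    rw [H.distBd_le_iff he, H'.distBd_le_iff he']
    exact sim_near S S' h m he fun f hf => hb f (reach_mono H hm hf)
  have h1 := (hle _ le_rfl).1 le_rfl
  exact le_antisymm h1 ((hle _ h1).2 le_rfl)

end HPT

end Pool.Agent.Spd
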