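import Pool.Agent.Spd.SplitD1

/-!
(Part `SplitD2`: `split_bounds`.  The text below is the common header of the parts.)

# SPD A10: the split case: the two parts of a polygon are disjoint

Situation: `cs = d :: (ds₁ ++ ds₂)` is a polygon bounding `F`, `inv d ∉ cs`, the face of `d`
has the darts `d : x₁ → x₂`, `a = fc d : x₂ → w`, `b = fc a : w → x₁`; `w` is the origin of the first
dart of `ds₂` (`ds₁, ds₂` nonempty).  So `cs₁ = ds₁ ++ [inv a]` and `cs₂ = inv b :: ds₂` are
polygons (`split_poly`: origins of `ds₁`: `x₂, ...` not `w`; `inv a` has origin `w`; `inv b` has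
origin `x₁`).  Let `F₁`, `F₂` be the fillings modulo 2 (`polyFill`).

* `d, a, b ∈ F` (`Bounds.head_mem`, `fc`-invariance).
* (mod 2) For every dart `e`: [e ∈ cs xor inv e ∈ cs] + [e ∈ cs₁ xor ..] + [e ∈ cs₂ xor ..] is the
  same as [exactly one of `e, inv e` is in `{d, a, b}`].  Hence the set
  `S = F + F₁ + F₂ + {d,a,b}` (sum modulo 2, a `Finset` symmetric difference) is `fc`-invariant
  and has empty boundary, so it is empty (`closed_empty`): `F₁ + F₂ = F \ {d, a, b}`.
* edges of `cs₁` and of `cs₂` are different: if `e ∈ cs₁` and (`e ∈ cs₂` or `inv e ∈ cs₂`) compare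
  origins and targets (the vertices of `cs₁` are `x₂, ..., w`, those of `cs₂` are `w, ..., x₁`;
  they have only `w` in common, and an edge has two different end points).
* statuses: for `e ∈ cs₂` (or its inverse) `e ∈ F₁ ↔ inv e ∈ F₁`.  Going along
  `ds₂` and then `inv b`, consecutive darts `e, e'` of `cs₂` meet at a vertex `y ≠ w`, at which no
  dart belongs to an edge of `cs₁`, so `status_const` gives `inv e ∈ F₁ ↔ e' ∈ F₁`.  So all darts
  of `cs₂` and their inverses have the same `F₁`-status, that of `inv b` and `b`.  In the same way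
  all darts of `cs₁` and their inverses have the same `F₂`-status as `a` (go from `inv a` through
  `x₂` along `ds₁`).  `a` and `b` are in one face, so `F₁`-status of `b` = that of `a`; the face
  `{d,a,b}` is not in `F₁ + F₂`, so its `F₁`-status and `F₂`-status agree: call it `s`.
* `s` true: then `F₁ ∪ F₂` has no boundary dart `e` (`e ∈ F₁`, `inv e ∉ F₁`: `e` is on an edge of
  `cs₁`, so `inv e ∈ F₂`), so it is empty by `closed_empty`, but it contains `a`.
* `s` false: `F₁ ∩ F₂` has no boundary dart, so it is empty.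
So `F₁`, `F₂` are disjoint, do not contain `d, a, b`, and `F = {d,a,b} ∪ F₁ ∪ F₂`.
* orientation: `Bounds M cs₁ F₁`: let `e ∈ F₁`, `inv e ∉ F₁`: exactly one of `e, inv e` is in `cs₁`
  (in particular `cs₁` is not degenerate).  If `inv e ∈ ds₁ ⊆ cs` then `inv e ∈ F`, `e ∉ F`, but
  `e ∈ F₁ ⊆ F`; if `inv e = inv a` then `e = a ∉ F₁`.  So `e ∈ cs₁`.  Conversely let `e ∈ cs₁`,
  `inv e ∉ cs₁`: exactly one of `e, inv e` is in `F₁`; if it is `inv e` then `inv e` has
  `inv (inv e) = e ∉ F₁` and the first part gives `inv e ∈ cs₁`, contradiction.  Same for `cs₂`.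
-/

namespace Pool.Agent.Spd

variable {M : PreMap}

/-- The indicator of a proposition modulo 2. -/
private noncomputable def chi (p : Prop) : ZMod 2 := by
  classical exact if p then 1 else 0

private theorem chi_true {p : Prop} (hp : p) : chi p = 1 := by
  simp [chi, hp]

private theorem chi_false {p : Prop} (hp : ¬ p) : chi p = 0 := by
  simp [chi, hp]

private theorem chi_or {p q : Prop} (hpq : p → ¬ q) : chi (p ∨ q) = chi p + chi q := by
  by_cases hp : p
  · rw [chi_true (Or.inl hp), chi_true hp, chi_false (hpq hp), add_zero]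
  · by_cases hq : q
    · rw [chi_true (Or.inr hq), chi_true hq, chi_false hp, zero_add]
    · rw [chi_false (fun h => h.elim hp hq), chi_false hp, chi_false hq, add_zero]

private theorem chi_congr {p q : Prop} (hpq : p ↔ q) : chi p = chi q := by
  rw [show p = q from propext hpq]

private theorem two_zero : (2 : ZMod 2) = 0 := by decide

private theorem one_one : (1 : ZMod 2) + 1 = 0 := by decide

private theorem chi_par {p q r s : Prop} (hh : (p ↔ q) ↔ (r ↔ s)) :
    chi p + chi q = chi r + chi s := by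
  by_cases hp : p <;> by_cases hq : q <;> by_cases hr : r <;> by_cases hs : s <;>
    first
    | (simp only [chi_true, chi_false, *, not_false_eq_true, one_one, add_zero, zero_add]; done)
    | (exfalso; tauto)

/-- All darts of a path have the same status. -/
private theorem chain_status (h : M.IsHPT) {G : Finset ℕ}
    (h1 : ∀ d ∈ G, M.Inner d ∧ M.fc d ∈ G) : ∀ (l : List ℕ) (x : ℕ),
    List.IsChain (fun x y => M.SameV (M.inv x) y) (x :: l) → (∀ y ∈ x :: l, y ∈ M.D) →
    (∀ y ∈ x :: l, (y ∈ G ↔ M.inv y ∈ G)) →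
    (∀ y ∈ l, ∀ z, M.SameV y z → (z ∈ G ↔ M.inv z ∈ G)) → ∀ y ∈ l, (y ∈ G ↔ x ∈ G) := by
  intro l
  induction l with
  | nil => intro x _ _ _ _ y hy; simp at hy
  | cons z l ih =>
    intro x hc hD hst hv y hy
    rw [List.isChain_cons_cons] at hc
    have hz : z ∈ G ↔ x ∈ G := by
      have hxD : M.inv x ∈ M.D := h.inv_mem x (hD x (by simp))
      have h2 := h.status_const (G := (G : Set ℕ)) (fun d hd => h1 d hd) hxD hc.1 (fun w hw => by
        have hzx : M.SameV z (M.inv x) := h.sameV_symm hxD hc.1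
        exact hv z (by simp) w (h.sameV_trans hzx hw))
      rw [hst x (by simp)]
      exact h2.symm
    rcases List.mem_cons.1 hy with rfl | hy
    · exact hz
    · exact (ih z hc.2 (fun y hy => hD y (by simp [hy])) (fun y hy => hst y (by simp [hy]))
        (fun y hy => hv y (by simp [hy])) y hy).trans hz

/-- The target of a dart of a polygon is the origin of a dart of the polygon. -/
private theorem poly_next {cs : List ℕ} (P : Poly M cs) {e : ℕ} (he : e ∈ cs) :
    ∃ e' ∈ cs, M.SameV (M.inv e) e' := by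
  obtain ⟨l1, l2, rfl⟩ := List.append_of_mem he
  have hc := P.2.2.1
  cases l2 with
  | cons z l2 =>
    refine ⟨z, by simp, ?_⟩
    rw [List.append_assoc] at hc
    have h2 := (List.isChain_append.1 hc).2.1
    simp only [List.cons_append, List.isChain_cons_cons] at h2
    exact h2.1
  | nil =>
    cases l1 with
    | nil =>
      refine ⟨e, by simp, ?_⟩
      simpa using hc
    | cons y l1 =>
      refine ⟨y, by simp, ?_⟩
      simp only [List.cons_append, List.take_succ_cons, List.take_zero, List.append_assoc,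
        List.nil_append] at hc
      have hc' : List.IsChain (fun x y => M.SameV (M.inv x) y) ((y :: l1) ++ [e, y]) := hc
      have h2 := (List.isChain_append.1 hc').2.1
      simp only [List.isChain_cons_cons] at h2
      exact h2.1

private theorem bounds_aux (h : M.IsHPT) {cs' : List ℕ} {F' : Finset ℕ}
    (h1 : ∀ d ∈ F', M.Inner d ∧ M.fc d ∈ F')
    (h2 : ∀ e ∈ M.D, ((e ∈ F' ↔ M.inv e ∈ F') ↔ (e ∈ cs' ↔ M.inv e ∈ cs')))
    (hno : ∀ e ∈ M.D, e ∈ F' → M.inv e ∈ cs' → False) : Bounds M cs' F' := by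
  have key : ∀ e ∈ M.D, e ∈ F' → M.inv e ∉ F' → e ∈ cs' ∧ M.inv e ∉ cs' := by
    intro e he h3 h4
    have h5 : ¬ (e ∈ cs' ↔ M.inv e ∈ cs') := fun hh => h4 (((h2 e he).2 hh).1 h3)
    have h6 : M.inv e ∉ cs' := fun hh => hno e he h3 hh
    refine ⟨?_, h6⟩
    by_contra h7
    exact h5 ⟨fun hh => absurd hh h7, fun hh => absurd hh h6⟩
  refine ⟨h1, fun e he => ⟨fun hh => key e he hh.1 hh.2, fun hh => ?_⟩⟩
  have h5 : ¬ (e ∈ F' ↔ M.inv e ∈ F') := fun h3 => hh.2 (((h2 e he).1 h3).1 hh.1)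
  by_cases h6 : e ∈ F'
  · exact ⟨h6, fun h7 => h5 ⟨fun _ => h7, fun _ => h6⟩⟩
  · have h7 : M.inv e ∈ F' := by
      by_contra h7
      exact h5 ⟨fun hx => absurd hx h6, fun hx => absurd hx h7⟩
    have h8 := key (M.inv e) (h.inv_mem e he) h7 (by rwa [h.inv_inv e he])
    exact absurd h8.1 hh.2

theorem split_bounds (h : M.IsHPT) {d : ℕ} {ds₁ ds₂ : List ℕ} {F : Finset ℕ}
    (P : Poly M (d :: (ds₁ ++ ds₂))) (B : Bounds M (d :: (ds₁ ++ ds₂)) F)
    (hd : M.Inner d) (h1 : ds₁ ≠ []) (h2 : ds₂ ≠ [])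
    (hw : ∀ e ∈ ds₂.head?, M.SameV (M.fc (M.fc d)) e) :
    ∃ F₁ F₂ : Finset ℕ, Bounds M (ds₁ ++ [M.inv (M.fc d)]) F₁ ∧
      Bounds M (M.inv (M.fc (M.fc d)) :: ds₂) F₂ ∧ d ∉ F₁ ∧ d ∉ F₂ ∧ Disjoint F₁ F₂ ∧
      F = {d, M.fc d, M.fc (M.fc d)} ∪ (F₁ ∪ F₂) := by
  classical
  obtain ⟨P1, P2⟩ := split_poly h P hd h1 h2 hw
  obtain ⟨F₁, hF11, hF12⟩ := polyFill h P1
  obtain ⟨F₂, hF21, hF22⟩ := polyFill h P2
  obtain ⟨e₁, r₁, rfl⟩ := List.exists_cons_of_ne_nil h1
  obtain ⟨e₂, r₂, rfl⟩ := List.exists_cons_of_ne_nil h2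
  set a := M.fc d with ha
  set b := M.fc a with hb
  have hai : M.Inner a := h.fc_inner d hd
  have hbi : M.Inner b := h.fc_inner a hai
  have hdD := hd.1
  have haD := hai.1
  have hbD := hbi.1
  have hfb : M.fc b = d := h.fc_tri d hd
  have hbe2 : M.SameV b e₂ := hw e₂ (by simp)
  -- the vertex `w`
  have hiaD := h.inv_mem a haD
  have hibD := h.inv_mem b hbD
  have hidD := h.inv_mem d hdD
  have hiae2 : M.SameV (M.inv a) e₂ := h.sameV_trans (h.tgt haD) hbe2
  have hibd : M.SameV (M.inv b) d := by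
    have := h.tgt hbD
    rwa [hfb] at this
  have hPD := P.2.1
  have hPchain := P.2.2.1
  have hPpair := P.2.2.2
  have hde1 : M.SameV (M.inv d) e₁ := by
    have h3 := hPchain
    simp only [List.cons_append, List.isChain_cons_cons] at h3
    exact h3.1
  have hae1 : M.SameV a e₁ := h.sameV_trans (h.sameV_symm hidD (h.tgt hdD)) hde1
  -- distinct vertices
  rw [List.pairwise_cons, List.pairwise_append] at hPpair
  obtain ⟨hpd, hp1, hp2, hp12⟩ := hPpair
  have hD1 : ∀ e ∈ e₁ :: r₁, e ∈ M.D := fun e he => hPD e (by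
    rw [List.mem_cons, List.mem_append]; exact Or.inr (Or.inl he))
  have hD2 : ∀ e ∈ e₂ :: r₂, e ∈ M.D := fun e he => hPD e (by
    rw [List.mem_cons, List.mem_append]; exact Or.inr (Or.inr he))
  -- a vertex on both polygons is `w`
  have hboth : ∀ z ∈ M.D, (∃ e ∈ (e₁ :: r₁) ++ [M.inv a], M.SameV z e) →
      (∃ e ∈ M.inv b :: (e₂ :: r₂), M.SameV z e) → M.SameV z e₂ := by
    rintro z hz ⟨e, he, hze⟩ ⟨e', he', hze'⟩
    have heD := h.sameV_mem hz hze
    rw [List.mem_append, List.mem_singleton] at he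
    rcases he with he | rfl
    · exfalso
      have hez : M.SameV e z := h.sameV_symm hz hze
      rw [List.mem_cons] at he'
      rcases he' with rfl | he'
      · have h3 : M.SameV e d := h.sameV_trans (h.sameV_trans hez hze') hibd
        exact hpd e (List.mem_append.2 (Or.inl he)) (h.sameV_symm (hD1 e he) h3)
      · exact hp12 e he e' he' (h.sameV_trans hez hze')
    · exact h.sameV_trans hze hiae2
  have hinv1 : ∀ e ∈ (e₁ :: r₁) ++ [M.inv a], ∃ e' ∈ (e₁ :: r₁) ++ [M.inv a],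
      M.SameV (M.inv e) e' := fun e he => poly_next P1 he
  have hinv2 : ∀ e ∈ M.inv b :: (e₂ :: r₂), ∃ e' ∈ M.inv b :: (e₂ :: r₂),
      M.SameV (M.inv e) e' := fun e he => poly_next P2 he
  -- vertices of the edges
  have hv1 : ∀ e ∈ M.D, (e ∈ (e₁ :: r₁) ++ [M.inv a] ∨ M.inv e ∈ (e₁ :: r₁) ++ [M.inv a]) →
      ∃ e' ∈ (e₁ :: r₁) ++ [M.inv a], M.SameV e e' := by
    rintro e heD (he | he)
    · exact ⟨e, he, h.sameV_refl e⟩
    · have := hinv1 _ he
      rwa [h.inv_inv e heD] at this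
  have hv2 : ∀ e ∈ M.D, (e ∈ M.inv b :: (e₂ :: r₂) ∨ M.inv e ∈ M.inv b :: (e₂ :: r₂)) →
      ∃ e' ∈ M.inv b :: (e₂ :: r₂), M.SameV e e' := by
    rintro e heD (he | he)
    · exact ⟨e, he, h.sameV_refl e⟩
    · have := hinv2 _ he
      rwa [h.inv_inv e heD] at this
  -- no common edges
  have hedge : ∀ e ∈ M.D, (e ∈ (e₁ :: r₁) ++ [M.inv a] ∨ M.inv e ∈ (e₁ :: r₁) ++ [M.inv a]) →
      (e ∈ M.inv b :: (e₂ :: r₂) ∨ M.inv e ∈ M.inv b :: (e₂ :: r₂)) → False := by
    intro e heD he1 he2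
    have hieD := h.inv_mem e heD
    have h3 := hboth e heD (hv1 e heD he1) (hv2 e heD he2)
    have h4 := hboth (M.inv e) hieD
      (hv1 (M.inv e) hieD (by rw [h.inv_inv e heD]; exact he1.symm))
      (hv2 (M.inv e) hieD (by rw [h.inv_inv e heD]; exact he2.symm))
    exact h.loopless e heD (h.sameV_trans h3 (h.sameV_symm hieD h4))
  -- the status with respect to `F₁` of the darts of the second polygon
  have hs1 : ∀ e ∈ M.inv b :: (e₂ :: r₂), (e ∈ F₁ ↔ M.inv e ∈ F₁) := by
    intro e he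
    have heD := P2.2.1 e he
    refine (hF12 e heD).2 ⟨fun hx => ?_, fun hx => ?_⟩
    · exact (hedge e heD (Or.inl hx) (Or.inl he)).elim
    · exact (hedge e heD (Or.inr hx) (Or.inl he)).elim
  have hs2 : ∀ e ∈ (e₁ :: r₁) ++ [M.inv a], (e ∈ F₂ ↔ M.inv e ∈ F₂) := by
    intro e he
    have heD := P1.2.1 e he
    refine (hF22 e heD).2 ⟨fun hx => ?_, fun hx => ?_⟩
    · exact (hedge e heD (Or.inl he) (Or.inl hx)).elim
    · exact (hedge e heD (Or.inl he) (Or.inr hx)).elim
  have hst1 : ∀ e ∈ M.inv b :: (e₂ :: r₂), (e ∈ F₁ ↔ e₂ ∈ F₁) := by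
    have hchain : List.IsChain (fun x y => M.SameV (M.inv x) y) (e₂ :: (r₂ ++ [M.inv b])) := by
      have h3 := P2.2.2.1
      simp only [List.take_succ_cons, List.take_zero, List.cons_append] at h3
      rw [List.isChain_cons_cons] at h3
      exact h3.2
    have h3 := chain_status h (G := F₁) hF11 (r₂ ++ [M.inv b]) e₂ hchain (fun y hy => by
      refine P2.2.1 y ?_
      simp only [List.mem_cons, List.mem_append, List.not_mem_nil, or_false] at hy ⊢
      tauto) (fun y hy => by
      refine hs1 y ?_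
      simp only [List.mem_cons, List.mem_append, List.not_mem_nil, or_false] at hy ⊢
      tauto) (fun y hy z hyz => by
      have hy' : y ∈ M.inv b :: (e₂ :: r₂) := by
        simp only [List.mem_cons, List.mem_append, List.not_mem_nil, or_false] at hy ⊢
        tauto
      have hyD := P2.2.1 y hy'
      have hzD := h.sameV_mem hyD hyz
      have hzy := h.sameV_symm hyD hyz
      have hnw : ¬ M.SameV z e₂ := by
        intro h4
        have h5 : M.SameV y e₂ := h.sameV_trans hyz h4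
        rw [List.mem_append, List.mem_singleton] at hy
        rcases hy with hy | rfl
        · exact (List.pairwise_cons.1 hp2).1 y hy (h.sameV_symm hyD h5)
        · exact hpd e₂ (by simp) (h.sameV_trans (h.sameV_symm hibD hibd) h5)
      refine (hF12 z hzD).2 ⟨fun hx => ?_, fun hx => ?_⟩
      · exact (hnw (hboth z hzD (hv1 z hzD (Or.inl hx)) ⟨y, hy', hzy⟩)).elim
      · exact (hnw (hboth z hzD (hv1 z hzD (Or.inr hx)) ⟨y, hy', hzy⟩)).elim)
    intro e he
    rw [List.mem_cons, List.mem_cons] at he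
    rcases he with rfl | rfl | he
    · exact h3 _ (by simp)
    · exact Iff.rfl
    · exact h3 e (by simp [he])
  have hst2 : ∀ e ∈ (e₁ :: r₁) ++ [M.inv a], (e ∈ F₂ ↔ M.inv a ∈ F₂) := by
    have hchain : List.IsChain (fun x y => M.SameV (M.inv x) y) (M.inv a :: (e₁ :: r₁)) := by
      rw [List.isChain_cons_cons]
      refine ⟨by rw [h.inv_inv a haD]; exact hae1, ?_⟩
      have h3 := hPchain
      rw [List.cons_append, List.append_assoc] at h3
      have h4 : List.IsChain (fun x y => M.SameV (M.inv x) y)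
          ((e₁ :: r₁) ++ ((e₂ :: r₂) ++ List.take 1 (d :: (e₁ :: r₁ ++ e₂ :: r₂)))) :=
        (List.isChain_cons_cons.1 h3).2
      exact (List.isChain_append.1 h4).1
    have h3 := chain_status h (G := F₂) hF21 (e₁ :: r₁) (M.inv a) hchain (fun y hy => by
      refine P1.2.1 y ?_
      simp only [List.mem_cons, List.mem_append, List.not_mem_nil, or_false] at hy ⊢
      tauto) (fun y hy => by
      refine hs2 y ?_
      simp only [List.mem_cons, List.mem_append, List.not_mem_nil, or_false] at hy ⊢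
      tauto) (fun y hy z hyz => by
      have hy' : y ∈ (e₁ :: r₁) ++ [M.inv a] := List.mem_append.2 (Or.inl hy)
      have hyD := P1.2.1 y hy'
      have hzD := h.sameV_mem hyD hyz
      have hzy := h.sameV_symm hyD hyz
      have hnw : ¬ M.SameV z e₂ := fun h4 =>
        hp12 y hy e₂ (by simp) (h.sameV_trans hyz h4)
      refine (hF22 z hzD).2 ⟨fun hx => ?_, fun hx => ?_⟩
      · exact (hnw (hboth z hzD ⟨y, hy', hzy⟩ (hv2 z hzD (Or.inl hx)))).elim
      · exact (hnw (hboth z hzD ⟨y, hy', hzy⟩ (hv2 z hzD (Or.inr hx)))).elim)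
    intro e he
    rw [List.mem_append, List.mem_singleton] at he
    rcases he with he | rfl
    · exact h3 e he
    · exact Iff.rfl
  -- faces
  have hfc1 : ∀ {e : ℕ}, e ∈ M.D → (M.fc e ∈ F₁ ↔ e ∈ F₁) := fun he =>
    h.fc_mem_iff (G := (F₁ : Set ℕ)) (fun d hd => hF11 d hd) he
  have hfc2 : ∀ {e : ℕ}, e ∈ M.D → (M.fc e ∈ F₂ ↔ e ∈ F₂) := fun he =>
    h.fc_mem_iff (G := (F₂ : Set ℕ)) (fun d hd => hF21 d hd) he
  have hfcF : ∀ {e : ℕ}, e ∈ M.D → (M.fc e ∈ F ↔ e ∈ F) := fun he =>
    h.fc_mem_iff (G := (F : Set ℕ)) (fun d hd => B.1 d hd) he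
  have hba1 : b ∈ F₁ ↔ a ∈ F₁ := hfc1 haD
  have hba2 : b ∈ F₂ ↔ a ∈ F₂ := hfc2 haD
  have had1 : a ∈ F₁ ↔ d ∈ F₁ := hfc1 hdD
  have had2 : a ∈ F₂ ↔ d ∈ F₂ := hfc2 hdD
  -- statuses in terms of `a`
  have hA1 : ∀ e ∈ M.inv b :: (e₂ :: r₂), (e ∈ F₁ ↔ a ∈ F₁) := by
    intro e he
    rw [hst1 e he, ← hst1 (M.inv b) (by simp), hs1 (M.inv b) (by simp), h.inv_inv b hbD, hba1]
  have hA2 : ∀ e ∈ (e₁ :: r₁) ++ [M.inv a], (e ∈ F₂ ↔ a ∈ F₂) := by
    intro e he
    rw [hst2 e he, hs2 (M.inv a) (by simp), h.inv_inv a haD]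
  -- the sum modulo 2
  have hPnd := poly_nodup h P
  have hfn : ¬ M.SameV d a ∧ ¬ M.SameV a b ∧ ¬ M.SameV d b := h.face_ne hd
  have hda : d ≠ a := fun hh => hfn.1 ⟨0, hh⟩
  have hdb : d ≠ b := fun hh => hfn.2.2 ⟨0, hh⟩
  have hab : a ≠ b := fun hh => hfn.2.1 ⟨0, hh⟩
  have hdn1 : ∀ e ∈ e₁ :: r₁, e ≠ d := fun e he hh =>
    hpd e (List.mem_append.2 (Or.inl he)) (hh ▸ h.sameV_refl e)
  have hdn2 : ∀ e ∈ e₂ :: r₂, e ≠ d := fun e he hh =>
    hpd e (List.mem_append.2 (Or.inr he)) (hh ▸ h.sameV_refl e)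
  have h12 : ∀ e ∈ e₁ :: r₁, e ∉ e₂ :: r₂ := fun e he he' =>
    hp12 e he e he' (h.sameV_refl e)
  have hia1 : M.inv a ∉ e₁ :: r₁ := fun he =>
    hp12 _ he e₂ (by simp) hiae2
  have hib2 : M.inv b ∉ e₂ :: r₂ := fun he =>
    hpd _ (List.mem_append.2 (Or.inr he)) (h.sameV_symm hibD hibd)
  have hinj : ∀ {e f : ℕ}, e ∈ M.D → f ∈ M.D → (M.inv e = f ↔ e = M.inv f) := by
    intro e f he hf
    constructor
    · intro hh
      rw [← hh, h.inv_inv e he]
    · intro hh
      rw [hh, h.inv_inv f hf]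
  have cF : ∀ e ∈ M.D, chi (e ∈ F) + chi (M.inv e ∈ F) =
      chi (e ∈ d :: ((e₁ :: r₁) ++ (e₂ :: r₂))) +
        chi (M.inv e ∈ d :: ((e₁ :: r₁) ++ (e₂ :: r₂))) := by
    intro e he
    have b1 := B.2 e he
    have b2 := B.2 (M.inv e) (h.inv_mem e he)
    rw [h.inv_inv e he] at b2
    refine chi_par ?_
    constructor
    · intro hh
      constructor
      · intro hx
        by_contra hy
        exact (b1.2 ⟨hx, hy⟩).2 (hh.1 (b1.2 ⟨hx, hy⟩).1)
      · intro hx
        by_contra hy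
        exact (b2.2 ⟨hx, hy⟩).2 (hh.2 (b2.2 ⟨hx, hy⟩).1)
    · intro hh
      constructor
      · intro hx
        by_contra hy
        exact (b1.1 ⟨hx, hy⟩).2 (hh.1 (b1.1 ⟨hx, hy⟩).1)
      · intro hx
        by_contra hy
        exact (b2.1 ⟨hx, hy⟩).2 (hh.2 (b2.1 ⟨hx, hy⟩).1)
  have cF1 : ∀ e ∈ M.D, chi (e ∈ F₁) + chi (M.inv e ∈ F₁) =
      chi (e ∈ (e₁ :: r₁) ++ [M.inv a]) + chi (M.inv e ∈ (e₁ :: r₁) ++ [M.inv a]) :=
    fun e he => chi_par (hF12 e he)
  have cF2 : ∀ e ∈ M.D, chi (e ∈ F₂) + chi (M.inv e ∈ F₂) =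
      chi (e ∈ M.inv b :: (e₂ :: r₂)) + chi (M.inv e ∈ M.inv b :: (e₂ :: r₂)) :=
    fun e he => chi_par (hF22 e he)
  have xcs : ∀ e, chi (e ∈ d :: ((e₁ :: r₁) ++ (e₂ :: r₂))) =
      chi (e = d) + (chi (e ∈ e₁ :: r₁) + chi (e ∈ e₂ :: r₂)) := by
    intro e
    rw [← chi_or (fun he => h12 e he), ← chi_or]
    · refine chi_congr ?_
      rw [List.mem_cons, List.mem_append]
    · rintro rfl (he | he)
      · exact hdn1 _ he rfl
      · exact hdn2 _ he rfl
  have xcs1 : ∀ e, chi (e ∈ (e₁ :: r₁) ++ [M.inv a]) =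
      chi (e ∈ e₁ :: r₁) + chi (e = M.inv a) := by
    intro e
    rw [← chi_or]
    · refine chi_congr ?_
      rw [List.mem_append, List.mem_singleton]
    · rintro he rfl
      exact hia1 he
  have xcs2 : ∀ e, chi (e ∈ M.inv b :: (e₂ :: r₂)) =
      chi (e = M.inv b) + chi (e ∈ e₂ :: r₂) := by
    intro e
    rw [← chi_or]
    · refine chi_congr ?_
      rw [List.mem_cons]
    · rintro rfl he
      exact hib2 he
  have xD : ∀ e, chi (e ∈ ({d, a, b} : Finset ℕ)) = chi (e = d) + (chi (e = a) + chi (e = b)) := by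
    intro e
    rw [← chi_or (p := e = a) (q := e = b) (fun he hf => hab (he.symm.trans hf)), ← chi_or]
    · refine chi_congr ?_
      rw [Finset.mem_insert, Finset.mem_insert, Finset.mem_singleton]
    · rintro rfl (he | he)
      · exact hda he
      · exact hdb he
  let Sg : ℕ → ZMod 2 := fun e =>
    chi (e ∈ F) + chi (e ∈ F₁) + chi (e ∈ F₂) + chi (e ∈ ({d, a, b} : Finset ℕ))
  have hsum : ∀ e ∈ M.D, Sg e + Sg (M.inv e) = 0 := by
    intro e he
    have i1 : chi (M.inv e = M.inv a) = chi (e = a) :=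
      chi_congr (by rw [hinj he hiaD, h.inv_inv a haD])
    have i2 : chi (M.inv e = M.inv b) = chi (e = b) :=
      chi_congr (by rw [hinj he hibD, h.inv_inv b hbD])
    have i3 : chi (M.inv e = a) = chi (e = M.inv a) := chi_congr (hinj he haD)
    have i4 : chi (M.inv e = b) = chi (e = M.inv b) := chi_congr (hinj he hbD)
    have j0 := cF e he
    have j1 := cF1 e he
    have j2 := cF2 e he
    rw [xcs, xcs] at j0
    rw [xcs1, xcs1, i1] at j1
    rw [xcs2, xcs2, i2] at j2
    have j3 := xD e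
    have j4 := xD (M.inv e)
    rw [i3, i4] at j4
    change chi (e ∈ F) + chi (e ∈ F₁) + chi (e ∈ F₂) + chi (e ∈ ({d, a, b} : Finset ℕ)) +
      (chi (M.inv e ∈ F) + chi (M.inv e ∈ F₁) + chi (M.inv e ∈ F₂) +
        chi (M.inv e ∈ ({d, a, b} : Finset ℕ))) = 0
    linear_combination j0 + j1 + j2 + j3 + j4 + (chi (e = d) + chi (M.inv e = d) +
      chi (e ∈ e₁ :: r₁) + chi (M.inv e ∈ e₁ :: r₁) + chi (e ∈ e₂ :: r₂) +
      chi (M.inv e ∈ e₂ :: r₂) + chi (e = a) + chi (e = b) + chi (e = M.inv a) +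
      chi (e = M.inv b)) * two_zero
  have hfcD : ∀ {e : ℕ}, e ∈ M.D → (M.fc e ∈ ({d, a, b} : Finset ℕ) ↔
      e ∈ ({d, a, b} : Finset ℕ)) := fun he =>
    h.fc_mem_iff (G := ((({d, a, b} : Finset ℕ)) : Set ℕ)) (fun z hz => by
      rw [Finset.mem_coe, Finset.mem_insert, Finset.mem_insert, Finset.mem_singleton] at hz
      rw [Finset.mem_coe, Finset.mem_insert, Finset.mem_insert, Finset.mem_singleton]
      rcases hz with rfl | rfl | rfl
      · exact ⟨hd, Or.inr (Or.inl rfl)⟩
      · exact ⟨hai, Or.inr (Or.inr rfl)⟩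
      · exact ⟨hbi, Or.inl hfb⟩) he
  have hSall : ∀ e, Sg e = 0 := by
    let S : Finset ℕ := (F ∪ F₁ ∪ F₂ ∪ {d, a, b}).filter fun e => Sg e = 1
    have hin : ∀ e ∈ F ∪ F₁ ∪ F₂ ∪ {d, a, b}, M.Inner e := by
      intro e he
      rw [Finset.mem_union, Finset.mem_union, Finset.mem_union, Finset.mem_insert,
        Finset.mem_insert, Finset.mem_singleton] at he
      rcases he with ((he | he) | he) | (rfl | rfl | rfl)
      · exact (B.1 e he).1
      · exact (hF11 e he).1
      · exact (hF21 e he).1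
      · exact hd
      · exact hai
      · exact hbi
    have hout : ∀ e, e ∉ F ∪ F₁ ∪ F₂ ∪ {d, a, b} → Sg e = 0 := by
      intro e he
      rw [Finset.mem_union, Finset.mem_union, Finset.mem_union, not_or, not_or, not_or] at he
      change chi (e ∈ F) + chi (e ∈ F₁) + chi (e ∈ F₂) + chi (e ∈ ({d, a, b} : Finset ℕ)) = 0
      rw [chi_false he.1.1.1, chi_false he.1.1.2, chi_false he.1.2, chi_false he.2]
      simp
    have hmem : ∀ e, Sg e = 1 → e ∈ S := by
      intro e he
      refine Finset.mem_filter.2 ⟨?_, he⟩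
      by_contra hx
      rw [hout e hx] at he
      exact absurd he (by decide)
    have h01 : ∀ x : ZMod 2, x = 0 ∨ x = 1 := by decide
    have hS := h.closed_empty S (fun e he => by
      obtain ⟨he1, he2⟩ := Finset.mem_filter.1 he
      have heD := (hin e he1).1
      refine ⟨hin e he1, hmem _ ?_⟩
      rw [← he2]
      change chi (M.fc e ∈ F) + chi (M.fc e ∈ F₁) + chi (M.fc e ∈ F₂) +
        chi (M.fc e ∈ ({d, a, b} : Finset ℕ)) = chi (e ∈ F) + chi (e ∈ F₁) + chi (e ∈ F₂) +
          chi (e ∈ ({d, a, b} : Finset ℕ))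
      rw [chi_congr (hfcF heD), chi_congr (hfc1 heD), chi_congr (hfc2 heD),
        chi_congr (hfcD heD)]) (fun e he => by
      obtain ⟨he1, he2⟩ := Finset.mem_filter.1 he
      have heD := (hin e he1).1
      refine hmem _ ?_
      have h3 := hsum e heD
      rw [he2] at h3
      rcases h01 (Sg (M.inv e)) with h4 | h4
      · rw [h4] at h3
        exact absurd h3 (by decide)
      · exact h4)
    intro e
    rcases h01 (Sg e) with h4 | h4
    · exact h4
    · have := hmem e h4
      rw [hS] at this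
      exact absurd this (Finset.notMem_empty e)
  have hSall' : ∀ e, chi (e ∈ F) + chi (e ∈ F₁) + chi (e ∈ F₂) +
      chi (e ∈ ({d, a, b} : Finset ℕ)) = 0 := hSall
  -- the face of `d`
  have hdF : d ∈ F := by
    rcases Bounds.head_mem h P B with h3 | h3
    · exact h3
    · have := congrArg List.length h3.1
      simp at this
  have haF : a ∈ F := (hfcF hdD).2 hdF
  have ha12 : a ∈ F₁ ↔ a ∈ F₂ := by
    have h3 := hSall' a
    rw [chi_true haF, chi_true (show a ∈ ({d, a, b} : Finset ℕ) by simp)] at h3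
    by_cases hx : a ∈ F₁ <;> by_cases hy : a ∈ F₂
    · exact ⟨fun _ => hy, fun _ => hx⟩
    · rw [chi_true hx, chi_false hy] at h3
      exact absurd h3 (by decide)
    · rw [chi_false hx, chi_true hy] at h3
      exact absurd h3 (by decide)
    · exact ⟨fun hz => absurd hz hx, fun hz => absurd hz hy⟩
  -- boundary edges of the parts
  have hbd1 : ∀ e ∈ F₁, M.inv e ∉ F₁ → (e ∈ F₂ ↔ a ∈ F₂) ∧ (M.inv e ∈ F₂ ↔ a ∈ F₂) := by
    intro e he hie
    have heD := (hF11 e he).1.1
    have h3 : ¬ (e ∈ (e₁ :: r₁) ++ [M.inv a] ↔ M.inv e ∈ (e₁ :: r₁) ++ [M.inv a]) :=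
      fun hh => hie (((hF12 e heD).2 hh).1 he)
    by_cases h4 : e ∈ (e₁ :: r₁) ++ [M.inv a]
    · exact ⟨hA2 e h4, (hs2 e h4).symm.trans (hA2 e h4)⟩
    · have h5 : M.inv e ∈ (e₁ :: r₁) ++ [M.inv a] := by
        by_contra h5
        exact h3 ⟨fun hx => absurd hx h4, fun hx => absurd hx h5⟩
      have h6 := hs2 _ h5
      rw [h.inv_inv e heD] at h6
      exact ⟨h6.symm.trans (hA2 _ h5), hA2 _ h5⟩
  have hbd2 : ∀ e ∈ F₂, M.inv e ∉ F₂ → (e ∈ F₁ ↔ a ∈ F₁) ∧ (M.inv e ∈ F₁ ↔ a ∈ F₁) := by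
    intro e he hie
    have heD := (hF21 e he).1.1
    have h3 : ¬ (e ∈ M.inv b :: (e₂ :: r₂) ↔ M.inv e ∈ M.inv b :: (e₂ :: r₂)) :=
      fun hh => hie (((hF22 e heD).2 hh).1 he)
    by_cases h4 : e ∈ M.inv b :: (e₂ :: r₂)
    · exact ⟨hA1 e h4, (hs1 e h4).symm.trans (hA1 e h4)⟩
    · have h5 : M.inv e ∈ M.inv b :: (e₂ :: r₂) := by
        by_contra h5
        exact h3 ⟨fun hx => absurd hx h4, fun hx => absurd hx h5⟩
      have h6 := hs1 _ h5
      rw [h.inv_inv e heD] at h6
      exact ⟨h6.symm.trans (hA1 _ h5), hA1 _ h5⟩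
  have haF1 : a ∉ F₁ := by
    intro hx
    have hy := ha12.1 hx
    have hU := h.closed_empty (F₁ ∪ F₂) (fun e he => by
      rcases Finset.mem_union.1 he with he | he
      · exact ⟨(hF11 e he).1, Finset.mem_union_left _ (hF11 e he).2⟩
      · exact ⟨(hF21 e he).1, Finset.mem_union_right _ (hF21 e he).2⟩) (fun e he => by
      rcases Finset.mem_union.1 he with he | he
      · by_cases hie : M.inv e ∈ F₁
        · exact Finset.mem_union_left _ hie
        · exact Finset.mem_union_right _ ((hbd1 e he hie).2.2 hy)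
      · by_cases hie : M.inv e ∈ F₂
        · exact Finset.mem_union_right _ hie
        · exact Finset.mem_union_left _ ((hbd2 e he hie).2.2 hx))
    have : a ∈ F₁ ∪ F₂ := Finset.mem_union_left _ hx
    rw [hU] at this
    exact absurd this (Finset.notMem_empty a)
  have haF2 : a ∉ F₂ := fun hx => haF1 (ha12.2 hx)
  have hdisj : F₁ ∩ F₂ = ∅ := by
    refine h.closed_empty (F₁ ∩ F₂) (fun e he => ?_) (fun e he => ?_)
    · obtain ⟨he1, he2⟩ := Finset.mem_inter.1 he
      exact ⟨(hF11 e he1).1, Finset.mem_inter.2 ⟨(hF11 e he1).2, (hF21 e he2).2⟩⟩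
    · obtain ⟨he1, he2⟩ := Finset.mem_inter.1 he
      refine Finset.mem_inter.2 ⟨?_, ?_⟩
      · by_contra hie
        exact haF2 ((hbd1 e he1 hie).1.1 he2)
      · by_contra hie
        exact haF1 ((hbd2 e he2 hie).1.1 he1)
  have hdF1 : d ∉ F₁ := fun hx => haF1 (had1.2 hx)
  have hdF2 : d ∉ F₂ := fun hx => haF2 (had2.2 hx)
  have hbF1 : b ∉ F₁ := fun hx => haF1 (hba1.1 hx)
  have hbF2 : b ∉ F₂ := fun hx => haF2 (hba2.1 hx)
  have hFeq : F = {d, a, b} ∪ (F₁ ∪ F₂) := by
    ext e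
    have h3 := hSall' e
    rw [Finset.mem_union, Finset.mem_union]
    by_cases hD : e ∈ ({d, a, b} : Finset ℕ)
    · have hn1 : e ∉ F₁ := by
        rw [Finset.mem_insert, Finset.mem_insert, Finset.mem_singleton] at hD
        rcases hD with rfl | rfl | rfl <;> assumption
      have hn2 : e ∉ F₂ := by
        rw [Finset.mem_insert, Finset.mem_insert, Finset.mem_singleton] at hD
        rcases hD with rfl | rfl | rfl <;> assumption
      rw [chi_false hn1, chi_false hn2, chi_true hD] at h3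
      refine ⟨fun _ => Or.inl hD, fun _ => ?_⟩
      by_contra hx
      rw [chi_false hx] at h3
      exact absurd h3 (by decide)
    · rw [chi_false hD] at h3
      by_cases hx : e ∈ F₁
      · have hy : e ∉ F₂ := fun hy => by
          have : e ∈ F₁ ∩ F₂ := Finset.mem_inter.2 ⟨hx, hy⟩
          rw [hdisj] at this
          exact absurd this (Finset.notMem_empty e)
        rw [chi_true hx, chi_false hy] at h3
        refine ⟨fun _ => Or.inr (Or.inl hx), fun _ => ?_⟩
        by_contra hz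
        rw [chi_false hz] at h3
        exact absurd h3 (by decide)
      · rw [chi_false hx] at h3
        by_cases hy : e ∈ F₂
        · rw [chi_true hy] at h3
          refine ⟨fun _ => Or.inr (Or.inr hy), fun _ => ?_⟩
          by_contra hz
          rw [chi_false hz] at h3
          exact absurd h3 (by decide)
        · rw [chi_false hy] at h3
          constructor
          · intro hz
            rw [chi_true hz] at h3
            exact absurd h3 (by decide)
          · rintro (hz | hz | hz)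
            · exact absurd hz hD
            · exact absurd hz hx
            · exact absurd hz hy
  -- orientation
  have hcsinv : ∀ e ∈ d :: ((e₁ :: r₁) ++ (e₂ :: r₂)),
      M.inv e ∉ d :: ((e₁ :: r₁) ++ (e₂ :: r₂)) := by
    intro e he hie
    obtain ⟨x, hx⟩ := poly_inv h P he hie
    have := congrArg List.length hx
    simp at this
  have hori : ∀ e ∈ M.D, e ∈ F → M.inv e ∈ d :: ((e₁ :: r₁) ++ (e₂ :: r₂)) → False := by
    intro e he heF hie
    have h3 := B.2 (M.inv e) (h.inv_mem e he)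
    rw [h.inv_inv e he] at h3
    have h4 := hcsinv _ hie
    rw [h.inv_inv e he] at h4
    exact (h3.2 ⟨hie, h4⟩).2 heF
  refine ⟨F₁, F₂, bounds_aux h hF11 hF12 ?_, bounds_aux h hF21 hF22 ?_, hdF1, hdF2,
    Finset.disjoint_iff_inter_eq_empty.2 hdisj, hFeq⟩
  · intro e he heF hie
    rw [List.mem_append, List.mem_singleton] at hie
    rcases hie with hie | hie
    · refine hori e he (by rw [hFeq]; simp [heF]) ?_
      exact List.mem_cons.2 (Or.inr (List.mem_append.2 (Or.inl hie)))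
    · have : e = a := by
        rw [← h.inv_inv e he, hie, h.inv_inv a haD]
      exact haF1 (this ▸ heF)
  · intro e he heF hie
    rw [List.mem_cons] at hie
    rcases hie with hie | hie
    · have : e = b := by
        rw [← h.inv_inv e he, hie, h.inv_inv b hbD]
      exact hbF2 (this ▸ heF)
    · refine hori e he (by rw [hFeq]; simp [heF]) ?_
      exact List.mem_cons.2 (Or.inr (List.mem_append.2 (Or.inr hie)))

end Pool.Agent.Spd
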