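import Pool.Agent.Spd.Poly

/-!
(Part `SplitD1`: `split_poly`.  The text below is the common header of the parts.)

# SPD A10: the split case: the two parts of a polygon are disjoint

Situation: `cs = d :: (ds₁ ++ ds₂)` is a polygon bounding `F`, `inv d ∉ cs`, the face of `d` has
the darts `d : x₁ → x₂`, `a = fc d : x₂ → w`, `b = fc a : w → x₁`, and `w` is the origin of the first
dart of `ds₂` (`ds₁, ds₂` nonempty).  So `cs₁ = ds₁ ++ [inv a]` and `cs₂ = inv b :: ds₂` are
polygons (`split_poly`: origins of `ds₁`: `x₂, ...` not `w`; `inv a` has origin `w`; `inv b` has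
origin `x₁`).  Let `F₁`, `F₂` be the fillings modulo 2 (`polyFill`).

* `d, a, b ∈ F` (`Bounds.head_mem`, `fc`-invariance).
* (mod 2) For every dart `e`: [e ∈ cs xor inv e ∈ cs] + [e ∈ cs₁ xor ..] + [e ∈ cs₂ xor ..] is the
  same as [exactly one of `e, inv e` is in `{d, a, b}`].  Hence the set
  `S = F + F₁ + F₂ + {d,a,b}` (sum modulo 2, a `Finset` symmetric difference) is `fc`-invariant
  and has empty boundary, so it is empty (`closed_empty`): `F₁ + F₂ = F \ {d, a, b}`.
* edges of `cs₁` and of `cs₂` are different: if `e ∈ cs₁` and (`e ∈ cs₂` or `inv e ∈ cs₂`) compare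
  origins and targets (the vertices of `cs₁` are `x₂, ..., w`, those of `cs₂` are `w, ..., x₁`;
  they have only `w` in common, and an edge has two different end points).
* statuses: for `e ∈ cs₂` (or its inverse) `e ∈ F₁ ↔ inv e ∈ F₁`.  Going along
  `ds₂` and then `inv b`, consecutive darts `e, e'` of `cs₂` meet at a vertex `y ≠ w`, at which no
  dart belongs to an edge of `cs₁`, so `status_const` gives `inv e ∈ F₁ ↔ e' ∈ F₁`.  So all darts
  of `cs₂` and their inverses have the same `F₁`-status, that of `inv b` and `b`.  In the same way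
  all darts of `cs₁` and their inverses have the same `F₂`-status as `a` (go from `inv a` through
  `x₂` along `ds₁`).  `a` and `b` are in one face, so `F₁`-status of `b` = that of `a`; the face
  `{d,a,b}` is not in `F₁ + F₂`, so its `F₁`-status and `F₂`-status agree: call it `s`.
* `s` true: then `F₁ ∪ F₂` has no boundary dart `e` (`e ∈ F₁`, `inv e ∉ F₁`: `e` is on an edge of
  `cs₁`, so `inv e ∈ F₂`), so it is empty by `closed_empty`, but it contains `a`.
* `s` false: `F₁ ∩ F₂` has no boundary dart, so it is empty.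
So `F₁`, `F₂` are disjoint, do not contain `d, a, b`, and `F = {d,a,b} ∪ F₁ ∪ F₂`.
* orientation: `Bounds M cs₁ F₁`: let `e ∈ F₁`, `inv e ∉ F₁`: exactly one of `e, inv e` is in `cs₁`
  (in particular `cs₁` is not degenerate).  If `inv e ∈ ds₁ ⊆ cs` then `inv e ∈ F`, `e ∉ F`, but
  `e ∈ F₁ ⊆ F`; if `inv e = inv a` then `e = a ∉ F₁`.  So `e ∈ cs₁`.  Conversely let `e ∈ cs₁`,
  `inv e ∉ cs₁`: exactly one of `e, inv e` is in `F₁`; if it is `inv e` then `inv e` has
  `inv (inv e) = e ∉ F₁` and the first part gives `inv e ∈ cs₁`, contradiction.  Same for `cs₂`.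
-/

namespace Pool.Agent.Spd

variable {M : PreMap}

theorem split_poly (h : M.IsHPT) {d : ℕ} {ds₁ ds₂ : List ℕ} (P : Poly M (d :: (ds₁ ++ ds₂)))
    (hd : M.Inner d) (h1 : ds₁ ≠ []) (h2 : ds₂ ≠ [])
    (hw : ∀ e ∈ ds₂.head?, M.SameV (M.fc (M.fc d)) e) :
    Poly M (ds₁ ++ [M.inv (M.fc d)]) ∧ Poly M (M.inv (M.fc (M.fc d)) :: ds₂) := by
  obtain ⟨x, t, rfl⟩ := List.exists_cons_of_ne_nil h1
  obtain ⟨y, s, rfl⟩ := List.exists_cons_of_ne_nil h2
  obtain ⟨-, hD, hch, hpw⟩ := P
  have hdD : d ∈ M.D := hd.1
  have haD : M.fc d ∈ M.D := h.fc_mem hdD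
  have hbD : M.fc (M.fc d) ∈ M.D := h.fc_mem haD
  have hiaD := h.inv_mem _ haD
  have hibD := h.inv_mem _ hbD
  have hia := h.inv_inv _ haD
  have hib := h.inv_inv _ hbD
  have hby : M.SameV (M.fc (M.fc d)) y := hw y rfl
  have hxD : ∀ e ∈ x :: t, e ∈ M.D := fun e he =>
    hD e (List.mem_cons_of_mem _ (List.mem_append_left _ he))
  have hyD : ∀ e ∈ y :: s, e ∈ M.D := fun e he =>
    hD e (List.mem_cons_of_mem _ (List.mem_append_right _ he))
  -- `inv a` has the origin `w`
  have hay : M.SameV (M.inv (M.fc d)) y := h.sameV_trans (h.tgt haD) hby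
  have hya : M.SameV y (M.inv (M.fc d)) := h.sameV_symm hiaD hay
  -- `inv b` has the origin `x₁`
  have hbd : M.SameV (M.inv (M.fc (M.fc d))) d := by
    have h3 := h.tgt hbD
    rwa [h.fc_tri d hd] at h3
  have hdb : M.SameV d (M.inv (M.fc (M.fc d))) := h.sameV_symm hibD hbd
  have htake : (d :: ((x :: t) ++ (y :: s))).take 1 = [d] := rfl
  rw [htake, List.cons_append, List.isChain_cons, List.append_assoc, List.isChain_append,
    List.isChain_append] at hch
  obtain ⟨hdx, hcx, ⟨hcy, -, hyl⟩, hxl⟩ := hch
  have hdx' : M.SameV (M.inv d) x := hdx x rfl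
  have hax : M.SameV (M.fc d) x :=
    h.sameV_trans (h.sameV_symm (h.inv_mem _ hdD) (h.tgt hdD)) hdx'
  rw [List.pairwise_cons, List.pairwise_append] at hpw
  obtain ⟨hpd, hpx, hpy, hpxy⟩ := hpw
  constructor
  · refine ⟨?_, ?_, ?_, ?_⟩
    · rw [List.length_append, List.length_cons, List.length_singleton]
      omega
    · intro e he
      rw [List.mem_append, List.mem_singleton] at he
      rcases he with he | rfl
      · exact hxD e he
      · exact hiaD
    · have htake1 : ((x :: t) ++ [M.inv (M.fc d)]).take 1 = [x] := rfl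
      rw [htake1, List.append_assoc, List.isChain_append]
      refine ⟨hcx, ?_, ?_⟩
      · rw [List.singleton_append, List.isChain_pair, hia]
        exact hax
      · intro u hu v hv
        rw [List.singleton_append, List.head?_cons, Option.mem_some_iff] at hv
        subst hv
        exact h.sameV_trans (hxl u hu y rfl) hya
    · rw [List.pairwise_append]
      refine ⟨hpx, List.pairwise_singleton _ _, ?_⟩
      intro u hu v hv huv
      rw [List.mem_singleton] at hv
      subst hv
      exact hpxy u hu y List.mem_cons_self (h.sameV_trans huv hay)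
  · refine ⟨?_, ?_, ?_, ?_⟩
    · rw [List.length_cons, List.length_cons]
      omega
    · intro e he
      rw [List.mem_cons] at he
      rcases he with rfl | he
      · exact hibD
      · exact hyD e he
    · have htake2 : (M.inv (M.fc (M.fc d)) :: (y :: s)).take 1 = [M.inv (M.fc (M.fc d))] := rfl
      rw [htake2, List.cons_append, List.isChain_cons, List.isChain_append]
      refine ⟨?_, hcy, List.isChain_singleton _, ?_⟩
      · intro v hv
        rw [List.cons_append, List.head?_cons, Option.mem_some_iff] at hv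
        subst hv
        rw [hib]
        exact hby
      · intro u hu v hv
        rw [List.head?_cons, Option.mem_some_iff] at hv
        subst hv
        exact h.sameV_trans (hyl u hu d rfl) hdb
    · rw [List.pairwise_cons]
      refine ⟨?_, hpy⟩
      intro v hv hbv
      exact hpd v (List.mem_append_right _ hv) (h.sameV_trans hdb hbv)

end Pool.Agent.Spd
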