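import Pool.Agent.Spd.Loc

/-!
(Part `Star1`: `stop_exists`, `stop_spec`, `stop_min`, `root_stays`, `iter_rem_sub`, `star_sub`, `star_blw`.  The text below is the common header of the parts.)

# SPD A18: exploration of the star of the root vertex

* `stop_exists`: as long as the outcome is `N` or `R k τ`, the new root dart `inv b` has the same
  origin `v_0` (`b : w → v_0`), and the old root dart `bd 0` (origin `v_0`) is removed for ever; the
  darts at `v_0` are finitely many (`cls_finite`, all in `H`), so some outcome is `L`.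
* `star_blw`: after the outcome `L k τ` no dart at `v_0` remains: `v_0` is not a vertex of the new
  line (`lineL`: the origins are `v_{i-k}` (`i < 0`), `v_{-k}`, `v_i` (`i ≥ 1`)), and it is not
  above the line since it was on the previous line: `trich`; an `Abv` vertex of `rem` would be
  `Abv` in the previous map (`abv_mono`), against `boundary_not_abv`.
* `shape_aux` (invariant for `G = rem^[t] H`, all outcomes before `t` different from `L`): there
  are `q, m ≥ 1` with `G.bd i = bd i` for `i < 0`, `G.bd i = bd (i - q + m)` for `i ≥ q`, and for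
  `0 < i < q` the origin of `G.bd i` is not on the boundary of `H` and is a neighbour of `v_0`.
  `t = 0`: `q = m = 1`.  Outcome `N` (`lineN`): `q + 1, m`; the new vertex `w` is the origin of
  `inv a`, `b : w → v_0`; `w` is not on the line of `G`; it is a vertex of `G`, so it is above the
  line of `G` (`trich` in `G`, `G`), and a boundary vertex of `H` is never above
  (`boundary_not_abv`, positions in `H`).  Outcome `R k`: (`lineR`) if `k + 1 ≥ q` then `q' = 1`,
  `m' = k + 1 - q + m`; if `k + 1 < q` then `q' = q - k`, `m' = m`.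
* `star_shape`: the last outcome `L k τ`: `bd' i = G.bd (i - k) = bd (i - k)` (`i < 0`),
  `bd' 0 = inv a` from `v_{-k}`, `bd' i = G.bd i` (`i ≥ 1`): `q, m` unchanged; `b : v_{-k} → v_0`
  shows that `v_{-k}` is a neighbour of `v_0`.
-/

namespace Pool.Agent.Spd

namespace HPT

private theorem keep (G : HPT) (h : ¬ G.step.isL) :
    G.M.SameV (G.M.bd 0) (G.rem.M.bd 0) ∧ ¬ G.rem.M.Inner (G.M.bd 0) := by
  have hr := G.ok.bd_inner 0
  have ha := G.ok.fc_inner _ hr
  have hb := G.ok.fc_inner _ ha
  have h1 : G.M.SameV (G.M.bd 0) (G.M.inv (G.M.fc (G.M.fc (G.M.bd 0)))) := by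
    have h2 := G.ok.tgt hb.1
    rw [G.ok.fc_tri _ hr] at h2
    exact G.ok.sameV_symm (G.ok.inv_mem _ hb.1) h2
  cases hs : G.step with
  | N =>
    obtain ⟨_, h3, h4⟩ := step_N G hs
    refine ⟨?_, fun h5 => ((h3 _).1 h5).2.1 rfl⟩
    rw [h4]
    have h6 : lineN G.M 0 = G.M.inv (G.M.fc (G.M.fc (G.M.bd 0))) := by simp [lineN]
    rw [h6]
    exact h1
  | R k τ =>
    obtain ⟨_, F, _, _, h3, h4⟩ := step_R G hs
    refine ⟨?_, fun h5 => ((h3 _).1 h5).2.1 rfl⟩
    rw [h4]
    have h6 : lineR G.M k 0 = G.M.inv (G.M.fc (G.M.fc (G.M.bd 0))) := by simp [lineR]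
    rw [h6]
    exact h1
  | L k τ =>
    rw [hs] at h
    exact absurd trivial h

theorem iter_rem_sub (H : HPT) (m : ℕ) : Sub (rem^[m] H) H := by
  rw [← exec_replicate]
  exact exec_sub _ _

private theorem stays (H : HPT) (m : ℕ) (hm : ∀ j < m, ¬ (rem^[j] H).step.isL) :
    H.M.SameV (H.M.bd 0) ((rem^[m] H).M.bd 0) := by
  induction m with
  | zero => exact H.ok.sameV_refl _
  | succ m ih =>
    have h1 := ih fun j hj => hm j (by omega)
    have h2 := (keep _ (hm m (by omega))).1
    rw [(iter_rem_sub H m).sameV ((rem^[m] H).ok.bd_mem 0)] at h2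
    rw [Function.iterate_succ_apply']
    exact H.ok.sameV_trans h1 h2.1

theorem stop_exists (H : HPT) : ∃ n, (rem^[n] H).step.isL := by
  by_contra hcon
  push Not at hcon
  set T : ℕ → Set ℕ := fun n => {e | H.M.SameV (H.M.bd 0) e ∧ (rem^[n] H).M.Inner e} with hT
  have hfin : ∀ n, (T n).Finite := fun n =>
    (H.cls_finite (H.ok.bd_mem 0)).subset fun e he => he.1
  have hlt : ∀ n, (T (n + 1)).ncard < (T n).ncard := by
    intro n
    refine Set.ncard_lt_ncard ?_ (hfin n)
    rw [Set.ssubset_iff_of_subset]
    · refine ⟨(rem^[n] H).M.bd 0, ⟨stays H n fun j _ => hcon j, (rem^[n] H).ok.bd_inner 0⟩, ?_⟩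
      rintro ⟨_, h2⟩
      rw [Function.iterate_succ_apply'] at h2
      exact (keep _ (hcon n)).2 h2
    · rintro e ⟨h1, h2⟩
      rw [Function.iterate_succ_apply'] at h2
      exact ⟨h1, (rem_sub _).inner h2⟩
  have hle : ∀ n, (T n).ncard + n ≤ (T 0).ncard := by
    intro n
    induction n with
    | zero => exact le_rfl
    | succ n ih =>
      have := hlt n
      omega
  have := hle ((T 0).ncard + 1)
  omega

theorem stop_spec (H : HPT) : (rem^[H.stopT] H).step.isL :=
  Nat.sInf_mem (s := {n | (rem^[n] H).step.isL}) (stop_exists H)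

theorem stop_min (H : HPT) {m : ℕ} (hm : m < H.stopT) : ¬ (rem^[m] H).step.isL :=
  Nat.notMem_of_lt_sInf (s := {n | (rem^[n] H).step.isL}) hm

/-- As long as the outcomes are not `L`, the root vertex stays the root vertex. -/
theorem root_stays (H : HPT) {m : ℕ} (hm : m ≤ H.stopT) :
    H.M.SameV (H.M.bd 0) ((rem^[m] H).M.bd 0) :=
  stays H m fun _ hj => stop_min H (lt_of_lt_of_le hj hm)

theorem star_sub (H : HPT) : Sub H.star H := iter_rem_sub H _

theorem star_blw (H : HPT) : Blw H H.star (H.M.bd 0) := by
  have hS := star_sub H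
  rcases trich hS (H.ok.bd_mem 0) with h | h | h
  · exact h
  · exfalso
    obtain ⟨i, hi⟩ := h
    set G : HPT := rem^[H.stopT] H with hG
    have hSG : Sub G H := iter_rem_sub H _
    have hstar : H.star = G.rem := by
      rw [hG]
      exact Function.iterate_succ_apply' _ _ _
    have hroot : H.M.SameV (H.M.bd 0) (G.M.bd 0) := root_stays H le_rfl
    have hL : G.step.isL := stop_spec H
    rw [hstar] at hi
    have hmem : G.rem.M.bd i ∈ G.M.D := (rem_sub G).memD (G.rem.ok.bd_mem i)
    have h1 : G.M.SameV (G.rem.M.bd i) (G.M.bd 0) := by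
      rw [hSG.sameV hmem]
      exact ⟨H.ok.sameV_trans hi hroot, G.ok.bd_mem 0⟩
    cases hs : G.step with
    | N =>
      rw [hs] at hL
      exact hL
    | R k τ =>
      rw [hs] at hL
      exact hL
    | L k τ =>
      obtain ⟨hk, F, _, _, _, h4⟩ := step_L G hs
      have hr := G.ok.bd_inner 0
      have ha := G.ok.fc_inner _ hr
      have hb := G.ok.fc_inner _ ha
      rw [h4, lineL] at h1
      rcases lt_trichotomy i 0 with hi0 | hi0 | hi0
      · rw [if_pos hi0] at h1
        have := G.ok.simple _ _ h1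
        omega
      · rw [if_neg (by omega), if_pos hi0] at h1
        have h5 := G.ok.tgt ha.1
        have h6 := G.ok.sameV_trans (G.ok.sameV_symm (G.ok.inv_mem _ ha.1) h1) h5
        exact (G.ok.face_ne hr).2.2 h6
      · rw [if_neg (by omega), if_neg (by omega)] at h1
        have := G.ok.simple _ _ h1
        omega
  · exact absurd h (boundary_not_abv hS 0)

end HPT

end Pool.Agent.Spd
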