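import Pool.Agent.Spd.Defs

/-!
(Part `Unif1`: `unif_drop`, `unif_split`.  The text below is the common header of the parts.)

# SPD M6: the sequence of uniform random variables

`unif = Measure.infinitePi (fun _ => volume)` on `ℕ → unitInterval`.

* `unif_drop`: the family `U ↦ U (n + k)`, `k ∈ ℕ`, is i.i.d. uniform: check cylinders
  (`Measure.infinitePi_pi`, `Measure.eq_infinitePi`).
* `unif_split`: let `E` depend on the coordinates `< n` only.  The coordinates are independent under
  `unif` (`iIndepFun_infinitePi`), so the blocks `{0, ..., n-1}` and `{n, n+1, ...}` are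
  (`iIndepFun.indepFun_finset`-like; or: the map `U ↦ ((U j)_{j<n}, drop n U)` sends `unif` to the
  product of `Measure.pi` and `unif`: check on rectangles of cylinders).
* `unif_floor`: the law of `U n` is uniform; `⌊x D⌋ = k` iff `k / D ≤ x < (k+1) / D`.
* `unif_choice`: `unif_split` twice.
-/

namespace Pool.Agent.Spd

open MeasureTheory

instance : IsProbabilityMeasure unif := by
  unfold unif
  infer_instance

private theorem meas_drop (n : ℕ) :
    Measurable (fun (U : ℕ → unitInterval) (k : ℕ) => U (n + k)) :=
  measurable_pi_iff.2 fun k => measurable_pi_apply (n + k)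

theorem unif_drop (n : ℕ) : unif.map (fun U k => U (n + k)) = unif := by
  unfold unif
  exact Measure.map_infinitePi_infinitePi_of_inj (Ω := fun _ : ℕ => unitInterval)
    (P := fun _ => volume) (f := fun k => n + k) (add_right_injective n)

theorem unif_split (n : ℕ) {E : Set (ℕ → unitInterval)} (hE : MeasurableSet E)
    (hE' : ∀ U U' : ℕ → unitInterval, (∀ j < n, U j = U' j) → (U ∈ E ↔ U' ∈ E))
    {S : Set (ℕ → unitInterval)} (hS : MeasurableSet S) :
    unif {U | U ∈ E ∧ (fun k => U (n + k)) ∈ S} = unif E * unif S := by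
  have hi : ProbabilityTheory.iIndepFun (fun (i : ℕ) (U : ℕ → unitInterval) => U i) unif :=
    ProbabilityTheory.iIndepFun_infinitePi (X := fun _ (x : unitInterval) => x)
      (fun _ => measurable_id)
  have h1 := ProbabilityTheory.indep_iSup_of_disjoint (fun i => (measurable_pi_apply i).comap_le)
    hi.iIndep (S := {j : ℕ | j < n}) (T := {j : ℕ | n ≤ j})
    (Set.disjoint_left.2 fun j (h2 : j < n) (h3 : n ≤ j) => absurd h2 (not_lt.2 h3))
  have hcoord : ∀ (A : Set ℕ) (j : ℕ), j ∈ A →
      Measurable[⨆ i ∈ A, MeasurableSpace.comap (fun U : ℕ → unitInterval => U i) inferInstance]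
        (fun U : ℕ → unitInterval => U j) := by
    intro A j hj
    have h2 : MeasurableSpace.comap (fun U : ℕ → unitInterval => U j) inferInstance ≤
        ⨆ i ∈ A, MeasurableSpace.comap (fun U : ℕ → unitInterval => U i) inferInstance :=
      le_iSup₂ (f := fun i (_ : i ∈ A) =>
        MeasurableSpace.comap (fun U : ℕ → unitInterval => U i) inferInstance) j hj
    exact measurable_iff_comap_le.2 h2
  have h2 : MeasurableSet[⨆ i ∈ {j : ℕ | j < n},
      MeasurableSpace.comap (fun U : ℕ → unitInterval => U i) inferInstance] E := by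
    have h3 : E = (fun (U : ℕ → unitInterval) (j : ℕ) => if j < n then U j else 0) ⁻¹' E := by
      ext U
      exact hE' U _ fun j hj => by simp [hj]
    rw [h3]
    refine MeasurableSet.preimage hE ?_
    refine @measurable_pi_iff _ _ _ (_) _ _ |>.2 fun j => ?_
    by_cases hj : j < n
    · simpa [hj] using hcoord {j : ℕ | j < n} j hj
    · simp only [hj, if_false]
      exact @measurable_const _ _ (_) (_) _
  have h4 : MeasurableSet[⨆ i ∈ {j : ℕ | n ≤ j},
      MeasurableSpace.comap (fun U : ℕ → unitInterval => U i) inferInstance]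
      ((fun (U : ℕ → unitInterval) (k : ℕ) => U (n + k)) ⁻¹' S) := by
    refine MeasurableSet.preimage hS ?_
    refine @measurable_pi_iff _ _ _ (_) _ _ |>.2 fun k => ?_
    exact hcoord {j : ℕ | n ≤ j} (n + k) (Nat.le_add_right n k)
  have h5 := (ProbabilityTheory.Indep_iff _ _ _).1 h1 _ _ h2 h4
  have h6 : unif ((fun (U : ℕ → unitInterval) (k : ℕ) => U (n + k)) ⁻¹' S) = unif S := by
    rw [← Measure.map_apply (meas_drop n) hS, unif_drop]
  rw [h6] at h5
  exact h5

end Pool.Agent.Spd
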