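import Pool.Agent.Spd.Peel

/-!
# SPD W01: measurability of the peeling operations

The sigma-algebra of `HPT` is generated by the sets `{H | H.outs c = o}`.

* Countability of `Tri k`: injection into lists/natural numbers by recursion, e.g. define
  `code : {k : ℕ} → Tri k → ℕ` (or into a plain inductive tree type with `deriving Encodable`) and
  show that `(k, τ) ↦ code τ` is injective; for `Step` use the countability of `Σ k, Tri k`.
* `measurable_shift`: `{H | (H.shift k).outs c = o}`: for `c = []` it is everything or nothing; for
  `c = i :: c'` it is `{H | H.outs ((k + i) :: c') = o}` by `shift_shift` (file `Peel1`).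
* `measurable_step`: `Step` is countable with the sigma-algebra of all subsets, and
  `{H | H.step = s} = {H | H.outs [0] = [s]}` (`shift 0 = id`).
* `measurable_rem`: `{H | H.rem.outs c = o}` is the union over `s` of
`{H | H.outs (0 :: c) = s :: o}`
  (`measurable_generateFrom`).
* `measurable_exec`: induction on `c`, composition.
-/

namespace Pool.Agent.Spd

open MeasureTheory

private def codeT : {k : ℕ} → Tri k → ℕ
  | _, .edge => 0
  | _, .new t => 2 * codeT t + 1
  | _, .split t₁ t₂ => 2 * Nat.pair (codeT t₁) (codeT t₂) + 2

private theorem codeT_inj {k : ℕ} (t : Tri k) :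
    ∀ {k' : ℕ} (t' : Tri k'), codeT t = codeT t' → k = k' ∧ HEq t t' := by
  induction t with
  | edge =>
    intro k' t' h
    cases t' with
    | edge => exact ⟨rfl, HEq.rfl⟩
    | new t' => simp only [codeT] at h; omega
    | split a b => simp only [codeT] at h; omega
  | @new k t ih =>
    intro k' t' h
    cases t' with
    | edge => simp only [codeT] at h; omega
    | @new k' t' =>
      simp only [codeT] at h
      obtain ⟨h1, h2⟩ := ih t' (by omega)
      have h3 : k = k' := by omega
      subst h3
      rw [eq_of_heq h2]
      exact ⟨rfl, HEq.rfl⟩
    | split a b => simp only [codeT] at h; omega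
  | @split i j a b iha ihb =>
    intro k' t' h
    cases t' with
    | edge => simp only [codeT] at h; omega
    | new t' => simp only [codeT] at h; omega
    | @split i' j' a' b' =>
      simp only [codeT] at h
      have h0 : Nat.pair (codeT a) (codeT b) = Nat.pair (codeT a') (codeT b') := by omega
      obtain ⟨h1, h2⟩ := Nat.pair_eq_pair.1 h0
      obtain ⟨h3, h4⟩ := iha a' h1
      obtain ⟨h5, h6⟩ := ihb b' h2
      have h7 : i = i' := by omega
      have h8 : j = j' := by omega
      subst h7
      subst h8
      rw [eq_of_heq h4, eq_of_heq h6]
      exact ⟨rfl, HEq.rfl⟩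

instance Tri.countable (k : ℕ) : Countable (Tri k) := by
  have h : Function.Injective (codeT : Tri k → ℕ) := fun t t' htt => eq_of_heq (codeT_inj t t' htt).2
  exact h.countable

instance Step.countable : Countable Step := by
  have h : Function.Injective (fun s : Step => match s with
      | .N => (none : Option (Bool × (Σ k, Tri k)))
      | .R k τ => some (true, ⟨k, τ⟩)
      | .L k τ => some (false, ⟨k, τ⟩)) := by
    intro s s' hs
    cases s <;> cases s' <;> simp at hs ⊢
    · exact hs
    · exact hs
  exact h.countable

instance : MeasurableSpace Step := ⊤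

instance : DiscreteMeasurableSpace Step := ⟨fun _ => trivial⟩

namespace HPT

theorem outs_nil (H : HPT) : H.outs [] = [] := rfl

theorem outs_cons (H : HPT) (i : ℤ) (c : List ℤ) :
    H.outs (i :: c) = (H.shift i).step :: (H.shift i).rem.outs c := rfl

theorem measurableSet_outs (c : List ℤ) (o : List Step) : MeasurableSet {H : HPT | H.outs c = o} :=
  MeasurableSpace.measurableSet_generateFrom ⟨c, o, rfl⟩

theorem measurable_shift (k : ℤ) : Measurable (fun H : HPT => H.shift k) := by
  refine measurable_generateFrom ?_
  rintro _ ⟨c, o, rfl⟩
  cases c with
  | nil =>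
    by_cases ho : ([] : List Step) = o
    · have : (fun H : HPT => H.shift k) ⁻¹' {H | H.outs [] = o} = Set.univ := by
        ext H
        simp [outs_nil, ho]
      rw [this]
      exact MeasurableSet.univ
    · have : (fun H : HPT => H.shift k) ⁻¹' {H | H.outs [] = o} = ∅ := by
        ext H
        simp [outs_nil, ho]
      rw [this]
      exact MeasurableSet.empty
  | cons i c =>
    have : (fun H : HPT => H.shift k) ⁻¹' {H | H.outs (i :: c) = o} =
        {H | H.outs ((k + i) :: c) = o} := by
      ext H
      simp only [Set.mem_preimage, Set.mem_setOf_eq, outs_cons, shift_shift]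
    rw [this]
    exact measurableSet_outs _ _

theorem measurable_step : Measurable (fun H : HPT => H.step) := by
  refine measurable_to_countable' fun s => ?_
  have : (fun H : HPT => H.step) ⁻¹' {s} = {H | H.outs [0] = [s]} := by
    ext H
    simp only [Set.mem_preimage, Set.mem_singleton_iff, Set.mem_setOf_eq, outs_cons, outs_nil,
      shift_zero, List.cons.injEq, and_true]
  rw [this]
  exact measurableSet_outs _ _

theorem measurable_rem : Measurable (fun H : HPT => H.rem) := by
  refine measurable_generateFrom ?_
  rintro _ ⟨c, o, rfl⟩
  have : (fun H : HPT => H.rem) ⁻¹' {H | H.outs c = o} =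
      ⋃ s : Step, {H | H.outs (0 :: c) = s :: o} := by
    ext H
    simp only [Set.mem_preimage, Set.mem_setOf_eq, Set.mem_iUnion, outs_cons, shift_zero,
      List.cons.injEq]
    constructor
    · intro h
      exact ⟨H.step, rfl, h⟩
    · rintro ⟨s, -, h⟩
      exact h
  rw [this]
  exact MeasurableSet.iUnion fun s => measurableSet_outs _ _

theorem measurable_exec (c : List ℤ) : Measurable (fun H : HPT => H.exec c) := by
  induction c with
  | nil => exact measurable_id
  | cons i c ih =>
    exact ih.comp (measurable_rem.comp (measurable_shift i))

end HPT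

end Pool.Agent.Spd
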