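import Pool.Agent.Spd.Peel

/-!
# SPD W03: tools for commuting two peelings, and the relation between `R 1 edge` and `L 1 edge`

`r = bd 0`, `a = fc r`, `b = fc a` always denotes the root triangle (of `H`).

* `root_same`: if `G` is a sub-map of `H` (`Sub G H`, with `G.M.bd 0 = H.M.bd 0`) then `G` has the same root
  triangle, because `fc` agrees on the inner darts of `G` (`Sub.fc_eq`, `G.ok.bd_inner`, `fc_inner`).
* `hole_vertex_R`: `H.M.SameV (bd (k+1)) b`, `Bounds H.M (holeR H.M k) F`; a dart `x ∈ F` is never at a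
  boundary vertex `v_i` with `i ≤ 0` or `i ≥ k + 2`: the boundary darts of `F` (darts `z` with exactly
  one of `z`, `inv z` in `F`) are the darts of `holeR` and their inverses, whose origins are
  `v_1, ..., v_{k+1}` (`bd_next`, `tgt`); so at `v_i` the status is constant (`status_const`), and the
  outer dart `inv (bd (i-1))` at `v_i` (`bd_prev`) is not inner, so not in `F`.
* `hole_vertex_L`: the same for `holeL` (vertices `v_{-k}, ..., v_0`).
* `comm_edge`: by `step_eq_R_iff` with `k = 1`: `holeR M 1 = [bd 1, inv a]` is filled by `edge` iff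
  `inv a = inv (bd 1)`, i.e. `a = bd 1` (`inv_inv`); then `SameV (bd 2) b` holds (`b = fc a`, `tgt`,
  `bd_next`).  So `H.step = R 1 edge ↔ fc (bd 0) = bd 1`.  Similarly `(H.shift 1).step = L 1 edge ↔
  fc (fc (bd 1)) = bd 0` (`holeL (M.shift 1) 1 = [bd 0, inv (fc (fc (bd 1)))]`; `SameV (bd 0) (fc (fc (bd 1)))` is
  then trivial).  The two conditions are equivalent by `fc_tri`.
-/

namespace Pool.Agent.Spd

namespace HPT

theorem root_same {G H : HPT} (S : Sub G H) (h : G.M.bd 0 = H.M.bd 0) :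
    G.M.fc (G.M.bd 0) = H.M.fc (H.M.bd 0) ∧
      G.M.fc (G.M.fc (G.M.bd 0)) = H.M.fc (H.M.fc (H.M.bd 0)) := by
  have h0 := G.ok.bd_inner 0
  have h1 : G.M.fc (G.M.bd 0) = H.M.fc (H.M.bd 0) := by
    rw [S.fc_eq _ h0, h]
  refine ⟨h1, ?_⟩
  rw [S.fc_eq _ (G.ok.fc_inner _ h0), h1]

/-- The dart `fc (bd 0)` has the origin of `bd 1`. -/
private theorem w03_one_a {M : PreMap} (h : M.IsHPT) : M.SameV (M.bd 1) (M.fc (M.bd 0)) := by
  have h0 := h.bd_mem 0
  have h1 := h.bd_next 0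
  rw [zero_add] at h1
  exact h.sameV_trans (h.sameV_symm (h.inv_mem _ h0) h1) (h.tgt h0)

private theorem w03_index {M : PreMap} (h : M.IsHPT) {i j : ℤ} {x : ℕ}
    (hi : M.SameV (M.bd i) x) (hj : M.SameV (M.bd j) x) : i = j :=
  h.simple i j (h.sameV_trans hi (h.sameV_symm (h.bd_mem j) hj))

/-- A hole is not seen from a boundary vertex that is not a vertex of its boundary. -/
private theorem w03_hole {M : PreMap} (h : M.IsHPT) {cs : List ℕ} {F : Finset ℕ}
    (B : Bounds M cs F) {i : ℤ}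
    (h1 : ∀ z ∈ cs, ¬ M.SameV (M.bd i) z) (h2 : ∀ z ∈ cs, ¬ M.SameV (M.bd i) (M.inv z))
    {x : ℕ} (hx : x ∈ F) : ¬ M.SameV (M.bd i) x := by
  intro hix
  have hcl : ∀ d ∈ (F : Set ℕ), M.Inner d ∧ M.fc d ∈ (F : Set ℕ) := fun d hd =>
    ⟨(B.1 d (Finset.mem_coe.1 hd)).1, Finset.mem_coe.2 (B.1 d (Finset.mem_coe.1 hd)).2⟩
  have hno : ∀ z, M.SameV (M.bd i) z → (z ∈ (F : Set ℕ) ↔ M.inv z ∈ (F : Set ℕ)) := by
    intro z hz
    have hzD := h.sameV_mem (h.bd_mem i) hz
    have hii := h.inv_inv z hzD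
    rw [Finset.mem_coe, Finset.mem_coe]
    constructor
    · intro h3
      by_contra h4
      exact h1 z ((B.2 z hzD).1 ⟨h3, h4⟩).1 hz
    · intro h3
      by_contra h4
      have h5 := (B.2 (M.inv z) (h.inv_mem z hzD)).1 ⟨h3, by rw [hii]; exact h4⟩
      have h6 := h2 _ h5.1
      rw [hii] at h6
      exact h6 hz
  have e1 := h.status_const hcl (h.bd_mem i) hix hno
  have e2 := h.status_const hcl (h.bd_mem i) (h.bd_prev i) hno
  have e3 : M.inv (M.bd (i - 1)) ∈ (F : Set ℕ) := e2.1 (e1.2 (Finset.mem_coe.2 hx))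
  exact (hcl _ e3).1.2 (i - 1) rfl

theorem hole_vertex_R (H : HPT) {k : ℕ} (hk : 0 < k)
    (hw : H.M.SameV (H.M.bd (k + 1)) (H.M.fc (H.M.fc (H.M.bd 0)))) {F : Finset ℕ}
    (B : Bounds H.M (holeR H.M k) F) {i : ℤ} (hi : i ≤ 0 ∨ (k : ℤ) + 2 ≤ i) {x : ℕ} (hx : x ∈ F) :
    ¬ H.M.SameV (H.M.bd i) x := by
  have h := H.ok
  have ha := h.fc_mem (h.bd_mem 0)
  have hia := h.inv_mem _ ha
  have hm : ∀ z ∈ holeR H.M k, (∃ j : ℕ, j < k ∧ z = H.M.bd (j + 1)) ∨
      z = H.M.inv (H.M.fc (H.M.bd 0)) := by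
    intro z hz
    unfold holeR at hz
    rcases List.mem_append.1 hz with hz | hz
    · obtain ⟨j, hj, rfl⟩ := List.mem_map.1 hz
      exact Or.inl ⟨j, List.mem_range.1 hj, rfl⟩
    · exact Or.inr (List.mem_singleton.1 hz)
  refine w03_hole h B ?_ ?_ hx
  · intro z hz hs
    rcases hm z hz with ⟨j, hj, rfl⟩ | rfl
    · have := h.simple _ _ hs
      omega
    · have := w03_index h (h.sameV_trans hs (h.tgt ha)) hw
      omega
  · intro z hz hs
    rcases hm z hz with ⟨j, hj, rfl⟩ | rfl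
    · have := h.simple _ _ (h.sameV_trans hs (h.bd_next (j + 1)))
      omega
    · rw [h.inv_inv _ ha] at hs
      have := w03_index h hs (w03_one_a h)
      omega

theorem hole_vertex_L (H : HPT) {k : ℕ} (hk : 0 < k)
    (hw : H.M.SameV (H.M.bd (-k)) (H.M.fc (H.M.fc (H.M.bd 0)))) {F : Finset ℕ}
    (B : Bounds H.M (holeL H.M k) F) {i : ℤ} (hi : 1 ≤ i ∨ i ≤ -(k : ℤ) - 1) {x : ℕ} (hx : x ∈ F) :
    ¬ H.M.SameV (H.M.bd i) x := by
  have h := H.ok
  have hb := h.fc_mem (h.fc_mem (h.bd_mem 0))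
  have hib := h.inv_mem _ hb
  have hm : ∀ z ∈ holeL H.M k, (∃ j : ℕ, j < k ∧ z = H.M.bd (j - k)) ∨
      z = H.M.inv (H.M.fc (H.M.fc (H.M.bd 0))) := by
    intro z hz
    unfold holeL at hz
    rcases List.mem_append.1 hz with hz | hz
    · obtain ⟨j, hj, rfl⟩ := List.mem_map.1 hz
      exact Or.inl ⟨j, List.mem_range.1 hj, rfl⟩
    · exact Or.inr (List.mem_singleton.1 hz)
  refine w03_hole h B ?_ ?_ hx
  · intro z hz hs
    rcases hm z hz with ⟨j, hj, rfl⟩ | rfl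
    · have := h.simple _ _ hs
      omega
    · have h1 := h.tgt hb
      rw [h.fc_tri _ (h.bd_inner 0)] at h1
      have := h.simple _ _ (h.sameV_trans hs h1)
      omega
  · intro z hz hs
    rcases hm z hz with ⟨j, hj, rfl⟩ | rfl
    · have := h.simple _ _ (h.sameV_trans hs (h.bd_next (j - k)))
      omega
    · rw [h.inv_inv _ hb] at hs
      have := w03_index h hs hw
      omega

theorem comm_edge (H : HPT) : (H.shift 1).step = .L 1 .edge ↔ H.step = .R 1 .edge := by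
  have h := H.ok
  have h0 := h.bd_inner 0
  have h1 := h.bd_inner 1
  have ha := h.fc_mem h0.1
  have hb := h.fc_mem (h.fc_mem h1.1)
  have key : H.M.fc (H.M.fc (H.M.bd 1)) = H.M.bd 0 ↔ H.M.fc (H.M.bd 0) = H.M.bd 1 := by
    constructor
    · intro h2
      rw [← h2, h.fc_tri _ h1]
    · intro h2
      rw [← h2, h.fc_tri _ h0]
  have hR : H.step = .R 1 .edge ↔ H.M.fc (H.M.bd 0) = H.M.bd 1 := by
    rw [step_eq_R_iff]
    have e : holeR H.M 1 = [H.M.bd 1, H.M.inv (H.M.fc (H.M.bd 0))] := by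
      simp [holeR]
    constructor
    · rintro ⟨-, F, d, hd, hcs, -⟩
      rw [e] at hcs
      simp only [List.cons.injEq, and_true] at hcs
      obtain ⟨rfl, h3⟩ := hcs
      rw [← h.inv_inv _ ha, h3, h.inv_inv _ h1.1]
    · intro h2
      refine ⟨?_, ∅, H.M.bd 1, h1.1, ?_, rfl⟩
      · rw [h2]
        have h3 := h.bd_next 1
        exact h.sameV_trans (h.sameV_symm (h.inv_mem _ h1.1) h3) (h.tgt h1.1)
      · rw [e, h2]
  have hL : (H.shift 1).step = .L 1 .edge ↔ H.M.fc (H.M.fc (H.M.bd 1)) = H.M.bd 0 := by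
    rw [step_eq_L_iff]
    have e : holeL (H.shift 1).M 1 = [H.M.bd 0, H.M.inv (H.M.fc (H.M.fc (H.M.bd 1)))] := by
      simp [holeL, shift, PreMap.shift]
    constructor
    · rintro ⟨-, F, d, hd, hcs, -⟩
      rw [e] at hcs
      simp only [List.cons.injEq, and_true] at hcs
      obtain ⟨rfl, h3⟩ := hcs
      have h4 : H.M.inv (H.M.fc (H.M.fc (H.M.bd 1))) = H.M.inv (H.M.bd 0) := h3
      rw [← h.inv_inv _ hb, h4, h.inv_inv _ h0.1]
    · intro h2
      refine ⟨?_, ∅, H.M.bd 0, h0.1, ?_, rfl⟩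
      · change H.M.SameV (H.M.bd (-((1 : ℕ) : ℤ) + 1)) (H.M.fc (H.M.fc (H.M.bd (0 + 1))))
        rw [zero_add, h2]
        have h3 : -((1 : ℕ) : ℤ) + 1 = 0 := by norm_num
        rw [h3]
        exact h.sameV_refl _
      · rw [e, h2]
        rfl
  rw [hR, hL, key]

end HPT

end Pool.Agent.Spd
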