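import Pool.Agent.Spd.Explore

/-!
# SPD W09: the recursion for the generating functions of polygons

`Zs k t = ∑ over τ : Tri k of t ^ verts τ` in `[0, ∞]`.

* `sum_tri_one`: a `τ : Tri 1` is `edge` or `new t` with `t : Tri 2` (a `split` has index `≥ 2`).
* `sum_tri_succ`: a `τ : Tri (k + 2)` is `new t` with `t : Tri (k + 3)` or `split t₁ t₂` with
  `t₁ : Tri (i + 1)`, `t₂ : Tri (j + 1)`, `i + j = k`.
  Both are most easily stated for an arbitrary function `F` on codes: give an explicit equivalence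
  (`Tri 1 ≃ Unit ⊕ Tri 2`, `Tri (k + 2) ≃ Tri (k + 3) ⊕ Σ p : antidiagonal k, Tri (p.1 + 1) × Tri (p.2 + 1)`)
  or show that the maps `new`, `split` are injective, have disjoint ranges and cover everything
  (`tsum_eq` for a disjoint union of ranges, `Function.Injective.tsum_eq`).  For the index bookkeeping it may
  help to work with the type `Σ k, Tri k` (where `⟨i + j + 2, split t₁ t₂⟩` needs no cast) and
  indicator functions.
* `Zs_one`, `Zs_succ`: insert `F = t ^ verts` and multiply out (`ENNReal.tsum_mul_left`,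
  `ENNReal.tsum_prod`).
-/

namespace Pool.Agent.Spd

open Finset

private theorem w09_sum {α β : Type} (f : α ⊕ β → ENNReal) :
    ∑' x, f x = ∑' a, f (.inl a) + ∑' b, f (.inr b) :=
  Summable.tsum_sum ENNReal.summable ENNReal.summable

theorem sum_tri_one (F : Tri 1 → ENNReal) :
    ∑' τ, F τ = F .edge + ∑' t : Tri 2, F (.new t) := by
  let G : Unit ⊕ Tri 2 → Tri 1 := fun x => match x with
    | .inl _ => .edge
    | .inr t => .new t
  have hG : Function.Bijective G := by
    constructor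
    · intro x y h
      match x, y, h with
      | .inl _, .inl _, _ => rfl
      | .inl _, .inr t, h => exact absurd h (by simp [G])
      | .inr t, .inl _, h => exact absurd h (by simp [G])
      | .inr t, .inr t', h =>
        have h1 : (Tri.new t : Tri 1) = Tri.new t' := h
        injection h1 with _ h2
        rw [h2]
    · intro τ
      cases τ with
      | edge => exact ⟨.inl (), rfl⟩
      | new t => exact ⟨.inr t, rfl⟩
  rw [← (Equiv.ofBijective G hG).tsum_eq, w09_sum, tsum_fintype]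
  simp [G]

/-- The code `split t₁ t₂` as a code of index `k + 2` when `i + j = k`. -/
def Tri.splitAt {k i j : ℕ} (h : i + j = k) (t₁ : Tri (i + 1)) (t₂ : Tri (j + 1)) : Tri (k + 2) :=
  h ▸ Tri.split t₁ t₂

private def w09_dec : {n : ℕ} → Tri n → Option ((p : ℕ × ℕ) × (Tri (p.1 + 1) × Tri (p.2 + 1)))
  | _, .edge => none
  | _, .new _ => none
  | _, .split (i := i) (j := j) t₁ t₂ => some ⟨(i, j), (t₁, t₂)⟩

private theorem w09_dec_split {k i j : ℕ} (h : i + j = k) (t₁ : Tri (i + 1)) (t₂ : Tri (j + 1)) :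
    w09_dec (Tri.splitAt h t₁ t₂) = some ⟨(i, j), (t₁, t₂)⟩ := by
  subst h
  rfl

private theorem w09_verts {k i j : ℕ} (h : i + j = k) (t₁ : Tri (i + 1)) (t₂ : Tri (j + 1)) :
    (Tri.splitAt h t₁ t₂).verts = t₁.verts + t₂.verts := by
  subst h
  rfl

private theorem w09_cases {k : ℕ} (τ : Tri (k + 2)) : (∃ t : Tri (k + 3), τ = .new t) ∨
    ∃ (i j : ℕ) (h : i + j = k) (t₁ : Tri (i + 1)) (t₂ : Tri (j + 1)),
      τ = Tri.splitAt h t₁ t₂ := by
  cases τ with
  | new t => exact Or.inl ⟨t, rfl⟩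
  | split t₁ t₂ => exact Or.inr ⟨_, _, rfl, t₁, t₂, rfl⟩

theorem sum_tri_succ (k : ℕ) (F : Tri (k + 2) → ENNReal) :
    ∑' τ, F τ = (∑' t : Tri (k + 3), F (.new t)) +
      ∑ p ∈ (antidiagonal k).attach, ∑' q : Tri (p.1.1 + 1) × Tri (p.1.2 + 1),
        F (Tri.splitAt (mem_antidiagonal.1 p.2) q.1 q.2) := by
  let G : Tri (k + 3) ⊕ ((p : {x // x ∈ antidiagonal k}) × (Tri (p.1.1 + 1) × Tri (p.1.2 + 1))) →
      Tri (k + 2) := fun x => match x with
    | .inl t => .new t
    | .inr ⟨p, q⟩ => Tri.splitAt (mem_antidiagonal.1 p.2) q.1 q.2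
  have hnew : ∀ t : Tri (k + 3), w09_dec (Tri.new t : Tri (k + 2)) = none := fun t => rfl
  have hG : Function.Bijective G := by
    constructor
    · intro x y h
      match x, y, h with
      | .inl t, .inl t', h =>
        have h1 : (Tri.new t : Tri (k + 2)) = Tri.new t' := h
        injection h1 with _ h2
        rw [h2]
      | .inl t, .inr ⟨p, q⟩, h =>
        have h1 := congrArg w09_dec h
        have h2 : w09_dec (G (.inr ⟨p, q⟩)) = some ⟨(p.1.1, p.1.2), (q.1, q.2)⟩ :=
          w09_dec_split _ _ _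
        rw [h2] at h1
        exact absurd h1 (by rw [show w09_dec (G (.inl t)) = none from hnew t]; simp)
      | .inr ⟨p, q⟩, .inl t, h =>
        have h1 := congrArg w09_dec h
        have h2 : w09_dec (G (.inr ⟨p, q⟩)) = some ⟨(p.1.1, p.1.2), (q.1, q.2)⟩ :=
          w09_dec_split _ _ _
        rw [h2] at h1
        exact absurd h1 (by rw [show w09_dec (G (.inl t)) = none from hnew t]; simp)
      | .inr ⟨⟨⟨i, j⟩, hp⟩, q⟩, .inr ⟨⟨⟨i', j'⟩, hp'⟩, q'⟩, h =>
        have h1 := congrArg w09_dec h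
        have h2 : w09_dec (G (.inr ⟨⟨⟨i, j⟩, hp⟩, q⟩)) = some ⟨(i, j), (q.1, q.2)⟩ :=
          w09_dec_split _ _ _
        have h3 : w09_dec (G (.inr ⟨⟨⟨i', j'⟩, hp'⟩, q'⟩)) = some ⟨(i', j'), (q'.1, q'.2)⟩ :=
          w09_dec_split _ _ _
        rw [h2, h3] at h1
        have h4 := Option.some.inj h1
        obtain ⟨h5, h6⟩ := Sigma.mk.inj h4
        obtain ⟨rfl, rfl⟩ := Prod.mk.inj h5
        have h7 := eq_of_heq h6
        have h8 : q = q' := h7
        rw [h8]
    · intro τ
      rcases w09_cases τ with ⟨t, rfl⟩ | ⟨i, j, h, t₁, t₂, rfl⟩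
      · exact ⟨.inl t, rfl⟩
      · exact ⟨.inr ⟨⟨(i, j), mem_antidiagonal.2 h⟩, (t₁, t₂)⟩, rfl⟩
  rw [← (Equiv.ofBijective G hG).tsum_eq, w09_sum, ENNReal.tsum_sigma']
  congr 1
  rw [tsum_fintype, univ_eq_attach]
  rfl

/-- Partition function of the polygon with `k + 1` sides. -/
noncomputable def Zs (k : ℕ) (t : ENNReal) : ENNReal := ∑' τ : Tri k, t ^ τ.verts

theorem Zs_one (t : ENNReal) : Zs 1 t = 1 + t * Zs 2 t := by
  unfold Zs
  rw [sum_tri_one, ← ENNReal.tsum_mul_left]
  congr 1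
  · exact pow_zero t
  · refine tsum_congr fun τ => ?_
    rw [← pow_succ']
    rfl

theorem Zs_succ (k : ℕ) (t : ENNReal) : Zs (k + 2) t =
    t * Zs (k + 3) t + ∑ p ∈ antidiagonal k, Zs (p.1 + 1) t * Zs (p.2 + 1) t := by
  rw [← Finset.sum_attach (antidiagonal k) fun p => Zs (p.1 + 1) t * Zs (p.2 + 1) t]
  unfold Zs
  rw [sum_tri_succ, ← ENNReal.tsum_mul_left]
  congr 1
  · refine tsum_congr fun τ => ?_
    rw [← pow_succ']
    rfl
  · refine Finset.sum_congr rfl fun p _ => ?_
    rw [ENNReal.tsum_prod', ← ENNReal.tsum_mul_right]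
    refine tsum_congr fun a => ?_
    rw [← ENNReal.tsum_mul_left]
    refine tsum_congr fun b => ?_
    rw [w09_verts, pow_add]

end Pool.Agent.Spd
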