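import Pool.Agent.Spd.W09

/-!
# SPD W10: the partition functions are the least solution of the recursion

Let `y : ℕ → [0, ∞]` with `1 + t * y 2 ≤ y 1` and
`t * y (k+3) + ∑_{i+j=k} y (i+1) * y (j+1) ≤ y (k+2)`.  Then `Zs k t ≤ y k` for `k ≥ 1`.

Proof.  Height of a code: `edge ↦ 0`, `new t ↦ height t + 1`, `split ↦ max + 1`.  Show by
induction on `n`: for all `k ≥ 1` the sum over the codes of height `< n` is at most `y k` (the sum
over codes is written with `F τ = if height τ < n then t ^ verts τ else 0`, and `sum_tri_one`,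
`sum_tri_succ` express it by the sums of height `< n - 1`).  Then let `n → ∞`: every finite set of
codes has bounded height.
-/

namespace Pool.Agent.Spd

open Finset

/-- Height of a code. -/
private def ht : {k : ℕ} → Tri k → ℕ
  | _, .edge => 0
  | _, .new t => ht t + 1
  | _, .split t₁ t₂ => max (ht t₁) (ht t₂) + 1

open Classical in
private noncomputable def G (t : ENNReal) (n : ℕ) {k : ℕ} (τ : Tri k) : ENNReal :=
  if ht τ < n then t ^ τ.verts else 0

private theorem G_edge (t : ENNReal) (n : ℕ) : G t (n + 1) Tri.edge = 1 := by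
  simp [G, ht, Tri.verts]

private theorem G_new (t : ENNReal) (n : ℕ) {k : ℕ} (τ : Tri (k + 2)) :
    G t (n + 1) (Tri.new τ) = t * G t n τ := by
  unfold G
  have h : ht (Tri.new τ) = ht τ + 1 := rfl
  have hv : (Tri.new τ).verts = τ.verts + 1 := rfl
  rw [h, hv]
  by_cases hn : ht τ < n
  · rw [if_pos (by omega), if_pos hn, pow_succ, mul_comm]
  · rw [if_neg (by omega), if_neg hn, mul_zero]

private theorem G_split (t : ENNReal) (n : ℕ) {k i j : ℕ} (h : i + j = k) (t₁ : Tri (i + 1))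
    (t₂ : Tri (j + 1)) : G t (n + 1) (Tri.splitAt h t₁ t₂) = G t n t₁ * G t n t₂ := by
  subst h
  have e : Tri.splitAt rfl t₁ t₂ = Tri.split t₁ t₂ := rfl
  rw [e]
  unfold G
  have h : ht (Tri.split t₁ t₂) = max (ht t₁) (ht t₂) + 1 := rfl
  have hv : (Tri.split t₁ t₂).verts = t₁.verts + t₂.verts := rfl
  rw [h, hv]
  by_cases h1 : ht t₁ < n
  · by_cases h2 : ht t₂ < n
    · rw [if_pos (by omega), if_pos h1, if_pos h2, pow_add]
    · rw [if_neg (by omega), if_neg h2, mul_zero]
  · rw [if_neg (by omega), if_neg h1, zero_mul]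

private theorem sum_G_le {t : ENNReal} {y : ℕ → ENNReal} (h1 : 1 + t * y 2 ≤ y 1)
    (h2 : ∀ k, t * y (k + 3) + ∑ p ∈ antidiagonal k, y (p.1 + 1) * y (p.2 + 1) ≤ y (k + 2))
    (n : ℕ) : ∀ k, 1 ≤ k → ∑' τ : Tri k, G t n τ ≤ y k := by
  induction n with
  | zero =>
    intro k _
    have : ∀ τ : Tri k, G t 0 τ = 0 := fun τ => by simp [G]
    simp [this]
  | succ n ih =>
    intro k hk
    rcases k with _ | _ | k
    · omega
    · refine le_trans ?_ h1
      rw [sum_tri_one, G_edge]
      refine add_le_add le_rfl ?_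
      have : ∀ τ : Tri 2, G t (n + 1) (Tri.new τ) = t * G t n τ := fun τ => G_new t n τ
      simp only [this]
      rw [ENNReal.tsum_mul_left]
      exact mul_le_mul_right (ih 2 (by omega)) t
    · refine le_trans ?_ (h2 k)
      rw [sum_tri_succ]
      refine add_le_add ?_ ?_
      · have : ∀ τ : Tri (k + 3), G t (n + 1) (Tri.new τ) = t * G t n τ := fun τ => G_new t n τ
        simp only [this]
        rw [ENNReal.tsum_mul_left]
        exact mul_le_mul_right (ih (k + 3) (by omega)) t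
      · rw [← Finset.sum_attach (antidiagonal k)]
        refine Finset.sum_le_sum fun p _ => ?_
        simp only [G_split]
        rw [ENNReal.tsum_prod (f := fun (a : Tri (p.1.1 + 1)) (b : Tri (p.1.2 + 1)) =>
          G t n a * G t n b)]
        simp only [ENNReal.tsum_mul_left, ENNReal.tsum_mul_right]
        exact mul_le_mul' (ih _ (by omega)) (ih _ (by omega))

theorem Zs_le {t : ENNReal} {y : ℕ → ENNReal} (h1 : 1 + t * y 2 ≤ y 1)
    (h2 : ∀ k, t * y (k + 3) + ∑ p ∈ antidiagonal k, y (p.1 + 1) * y (p.2 + 1) ≤ y (k + 2))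
    (k : ℕ) (hk : 1 ≤ k) : Zs k t ≤ y k := by
  unfold Zs
  rw [ENNReal.tsum_eq_iSup_sum]
  refine iSup_le fun s => ?_
  have hs : ∀ τ ∈ s, G t (s.sup ht + 1) τ = t ^ τ.verts := by
    intro τ hτ
    unfold G
    rw [if_pos]
    have := Finset.le_sup (f := ht) hτ
    omega
  calc ∑ τ ∈ s, t ^ τ.verts = ∑ τ ∈ s, G t (s.sup ht + 1) τ :=
        Finset.sum_congr rfl fun τ hτ => (hs τ hτ).symm
    _ ≤ ∑' τ : Tri k, G t (s.sup ht + 1) τ := ENNReal.sum_le_tsum s
    _ ≤ y k := sum_G_le h1 h2 _ k hk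

/-- `Zs` is increasing in `t`. -/
theorem Zs_mono {k : ℕ} {s t : ENNReal} (h : s ≤ t) : Zs k s ≤ Zs k t := by
  unfold Zs
  exact ENNReal.tsum_le_tsum fun τ => pow_le_pow_left' h _

theorem one_le_Zs_one (t : ENNReal) : 1 ≤ Zs 1 t := by
  rw [Zs_one]
  exact le_self_add

end Pool.Agent.Spd
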