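import Mathlib

/-!
# SPD W11: the explicit solution (Catalan numbers)

For `a` real put `h = (1 - a) / 2`, `t = a ^ 2 * h`, `b = a * h` and
`y_k = (a C_{k-1} - h C_k) / a^{2k}`, `k ≥ 1`, with the Catalan numbers `C_k`.

* `catalan_le`: `C_k ≤ 4 C_{k-1}` (`(k + 1) C_k = (4k - 2) C_{k-1}`, from
  `Nat.succ_mul_catalan_eq_centralBinom` and `Nat.succ_mul_centralBinom_succ`).
* `yk_nonneg`: for `2/3 ≤ a ≤ 1` we have `4 h ≤ a`.
* sums over the antidiagonal (`catalan_succ'`: `C_{n+1} = ∑_{i+j=n} C_i C_j`), for `i, j ≥ 1`,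
  written with `p ∈ antidiagonal k`, `i = p.1 + 1`, `j = p.2 + 1`:
  `∑ C_{i-1} C_{j-1} = ∑ C_{p.1} C_{p.2} = C_{k+1}`;
  `∑ C_{i-1} C_j = ∑ C_{p.1} C_{p.2+1} = C_{k+2} - C_{k+1}` (the sum over `antidiagonal (k+1)` minus
  the term with second index `0`); `∑ C_i C_j = C_{k+3} - 2 C_{k+2}` (the sum over
  `antidiagonal (k+2)` minus the two end terms).
* `yk_one`: `y_1 = (a - h)/a^2`, `y_2 = (a - 2h)/a^4`, `1 + a^2 h (a - 2h)/a^4 = (a - h)/a^2` because
  `a^2 + h a - 2 h^2 = a - h`, i.e. `(a + 2h)(a - h) = a - h` and `a + 2 h = 1`.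
* `yk_succ`: multiply by `a^{2k+4}`; with `n = k + 2`:
  `a^{2n} (∑ y_i y_j + t y_{n+1}) = a^2 C_{n-1} - 2 a h (C_n - C_{n-1}) + h^2 (C_{n+1} - 2 C_n) + a h C_n
  - h^2 C_{n+1} = a (a + 2h) C_{n-1} - h (a + 2h) C_n = a^{2n} y_n`.
* `sum_yk`: telescoping: `b^k y_k = h^k (a C_{k-1} - h C_k)/a^k`, so with `z = h / a`
  `b^k y_k = h (z^{k-1} C_{k-1} - z^k C_k)`; the partial sums are `h (1 - z^n C_n)`.
* `tendsto_zC`: `C_n ≤ 4^n` and `4 z < 1` for `a > 2/3`.
-/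

namespace Pool.Agent.Spd

open Finset

/-- The explicit solution. -/
noncomputable def yk (a : ℝ) (k : ℕ) : ℝ :=
  (a * (catalan (k - 1) : ℝ) - (1 - a) / 2 * (catalan k : ℝ)) / a ^ (2 * k)

theorem catalan_le (k : ℕ) : catalan (k + 1) ≤ 4 * catalan k := by
  have h1 := succ_mul_catalan_eq_centralBinom k
  have h2 := succ_mul_catalan_eq_centralBinom (k + 1)
  have h3 := Nat.succ_mul_centralBinom_succ k
  rw [← h1, ← h2] at h3
  -- (k+1) * ((k+1+1) * C (k+1)) = 2*(2k+1) * ((k+1) * C k)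
  have h4 : (k + 1 + 1) * catalan (k + 1) = 2 * (2 * k + 1) * catalan k := by
    have h5 : (k + 1) * ((k + 1 + 1) * catalan (k + 1)) =
        (k + 1) * (2 * (2 * k + 1) * catalan k) := by
      rw [h3]; ring
    exact Nat.eq_of_mul_eq_mul_left (Nat.succ_pos k) h5
  have h6 : (k + 1 + 1) * catalan (k + 1) ≤ (k + 1 + 1) * (4 * catalan k) := by
    rw [h4]
    nlinarith [Nat.zero_le (catalan k)]
  exact Nat.le_of_mul_le_mul_left h6 (by omega)

theorem catalan_le_pow (k : ℕ) : catalan k ≤ 4 ^ k := by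
  induction k with
  | zero => simp
  | succ k ih =>
    calc catalan (k + 1) ≤ 4 * catalan k := catalan_le k
      _ ≤ 4 * 4 ^ k := Nat.mul_le_mul_left 4 ih
      _ = 4 ^ (k + 1) := by ring

theorem yk_nonneg {a : ℝ} (h1 : 2 / 3 ≤ a) (h2 : a ≤ 1) (k : ℕ) (hk : 1 ≤ k) : 0 ≤ yk a k := by
  obtain ⟨m, rfl⟩ : ∃ m, k = m + 1 := ⟨k - 1, by omega⟩
  have ha : 0 < a := by linarith
  unfold yk
  apply div_nonneg _ (by positivity)
  have h3 : (catalan (m + 1) : ℝ) ≤ 4 * (catalan m : ℝ) := by exact_mod_cast catalan_le m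
  have h4 : (0 : ℝ) ≤ (catalan m : ℝ) := Nat.cast_nonneg _
  have h5 : (1 - a) / 2 * (catalan (m + 1) : ℝ) ≤ (1 - a) / 2 * (4 * (catalan m : ℝ)) :=
    mul_le_mul_of_nonneg_left h3 (by linarith)
  have h6 : (1 - a) / 2 * (4 * (catalan m : ℝ)) ≤ a * (catalan m : ℝ) := by
    have : 0 ≤ (3 * a - 2) * (catalan m : ℝ) := mul_nonneg (by linarith) h4
    nlinarith
  simp only [Nat.add_sub_cancel]
  linarith

theorem yk_one {a : ℝ} (ha : 0 < a) : yk a 1 = 1 + a ^ 2 * ((1 - a) / 2) * yk a 2 := by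
  unfold yk
  have h0 : (catalan 0 : ℝ) = 1 := by simp
  have h1 : (catalan 1 : ℝ) = 1 := by simp
  have h2 : (catalan 2 : ℝ) = 2 := by simp [catalan_two]
  simp only [Nat.sub_self, show 2 - 1 = 1 from rfl]
  rw [h0, h1, h2]
  have : a ≠ 0 := ha.ne'
  field_simp
  ring

private theorem S1 (k : ℕ) : ∑ p ∈ antidiagonal k, (catalan p.1 : ℝ) * (catalan p.2 : ℝ) =
    (catalan (k + 1) : ℝ) := by
  rw [catalan_succ']
  push_cast
  rfl

private theorem S2 (k : ℕ) : ∑ p ∈ antidiagonal k, (catalan p.1 : ℝ) * (catalan (p.2 + 1) : ℝ) =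
    (catalan (k + 2) : ℝ) - (catalan (k + 1) : ℝ) := by
  have h := S1 (k + 1)
  rw [Finset.Nat.sum_antidiagonal_succ'] at h
  simp only [catalan_zero, Nat.cast_one, mul_one] at h
  rw [show k + 2 = k + 1 + 1 from rfl, ← h]
  ring

private theorem S2' (k : ℕ) : ∑ p ∈ antidiagonal k, (catalan (p.1 + 1) : ℝ) * (catalan p.2 : ℝ) =
    (catalan (k + 2) : ℝ) - (catalan (k + 1) : ℝ) := by
  have h := S1 (k + 1)
  rw [Finset.Nat.sum_antidiagonal_succ] at h
  simp only [catalan_zero, Nat.cast_one, one_mul] at h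
  rw [show k + 2 = k + 1 + 1 from rfl, ← h]
  ring

private theorem S3 (k : ℕ) :
    ∑ p ∈ antidiagonal k, (catalan (p.1 + 1) : ℝ) * (catalan (p.2 + 1) : ℝ) =
    (catalan (k + 3) : ℝ) - 2 * (catalan (k + 2) : ℝ) := by
  have h := S2 (k + 1)
  rw [Finset.Nat.sum_antidiagonal_succ] at h
  simp only [catalan_zero, Nat.cast_one, one_mul] at h
  rw [show k + 1 + 2 = k + 3 from rfl, show k + 1 + 1 = k + 2 from rfl] at h
  linarith

theorem yk_succ {a : ℝ} (ha : 0 < a) (k : ℕ) :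
    yk a (k + 2) = a ^ 2 * ((1 - a) / 2) * yk a (k + 3) +
      ∑ p ∈ antidiagonal k, yk a (p.1 + 1) * yk a (p.2 + 1) := by
  have hane : a ≠ 0 := ha.ne'
  have hsum : ∑ p ∈ antidiagonal k, yk a (p.1 + 1) * yk a (p.2 + 1) =
      (a ^ 2 * (catalan (k + 1) : ℝ) -
        a * ((1 - a) / 2) * (2 * ((catalan (k + 2) : ℝ) - (catalan (k + 1) : ℝ))) +
        ((1 - a) / 2) ^ 2 * ((catalan (k + 3) : ℝ) - 2 * (catalan (k + 2) : ℝ))) /
        a ^ (2 * k + 4) := by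
    have hterm : ∀ p ∈ antidiagonal k, yk a (p.1 + 1) * yk a (p.2 + 1) =
        (a ^ 2 * ((catalan p.1 : ℝ) * (catalan p.2 : ℝ)) -
          a * ((1 - a) / 2) * ((catalan p.1 : ℝ) * (catalan (p.2 + 1) : ℝ) +
            (catalan (p.1 + 1) : ℝ) * (catalan p.2 : ℝ)) +
          ((1 - a) / 2) ^ 2 * ((catalan (p.1 + 1) : ℝ) * (catalan (p.2 + 1) : ℝ))) /
        a ^ (2 * k + 4) := by
      intro p hp
      rw [Finset.HasAntidiagonal.mem_antidiagonal] at hp
      unfold yk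
      simp only [Nat.add_sub_cancel]
      rw [div_mul_div_comm, ← pow_add]
      congr 1
      · ring
      · congr 1
        omega
    rw [Finset.sum_congr rfl hterm, ← Finset.sum_div]
    congr 1
    rw [Finset.sum_add_distrib, Finset.sum_sub_distrib, ← Finset.mul_sum, ← Finset.mul_sum,
      ← Finset.mul_sum, Finset.sum_add_distrib, S1, S2, S2', S3]
    ring
  rw [hsum]
  unfold yk
  simp only [show k + 2 - 1 = k + 1 from rfl, show k + 3 - 1 = k + 2 from rfl]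
  have e1 : a ^ (2 * (k + 2)) = a ^ (2 * k + 4) := by congr 1
  have e2 : a ^ (2 * (k + 3)) = a ^ (2 * k + 4) * a ^ 2 := by rw [← pow_add]; congr 1
  rw [e1, e2]
  have hp : a ^ (2 * k + 4) ≠ 0 := pow_ne_zero _ hane
  generalize a ^ (2 * k + 4) = P at hp ⊢
  field_simp
  ring

theorem sum_yk {a : ℝ} (ha : 0 < a) (n : ℕ) :
    ∑ k ∈ range n, (a * ((1 - a) / 2)) ^ (k + 1) * yk a (k + 1) =
      (1 - a) / 2 * (1 - ((1 - a) / 2 / a) ^ n * (catalan n : ℝ)) := by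
  have hane : a ≠ 0 := ha.ne'
  induction n with
  | zero => simp
  | succ n ih =>
    rw [Finset.sum_range_succ, ih]
    unfold yk
    simp only [Nat.add_sub_cancel]
    have e1 : a ^ (2 * (n + 1)) = a ^ (n + 1) * a ^ (n + 1) := by rw [← pow_add]; congr 1; omega
    rw [e1, mul_pow, div_pow _ a, div_pow _ a]
    have hp : a ^ n ≠ 0 := pow_ne_zero _ hane
    rw [pow_succ a n, pow_succ ((1 - a) / 2) n]
    generalize a ^ n = P at hp ⊢
    generalize ((1 - a) / 2) ^ n = Q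
    field_simp
    ring

theorem tendsto_zC {a : ℝ} (h1 : 2 / 3 < a) (h2 : a < 1) :
    Filter.Tendsto (fun n : ℕ => ((1 - a) / 2 / a) ^ n * (catalan n : ℝ)) Filter.atTop
      (nhds 0) := by
  have ha : 0 < a := by linarith
  have hz0 : 0 ≤ (1 - a) / 2 / a := by
    apply div_nonneg (by linarith) ha.le
  have hz1 : (1 - a) / 2 / a * 4 < 1 := by
    rw [div_mul_eq_mul_div, div_lt_one ha]
    linarith
  have h3 : Filter.Tendsto (fun n : ℕ => ((1 - a) / 2 / a * 4) ^ n) Filter.atTop (nhds 0) :=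
    tendsto_pow_atTop_nhds_zero_of_lt_one (by positivity) hz1
  refine squeeze_zero (fun n => by positivity) (fun n => ?_) h3
  rw [mul_pow]
  have h4 : (catalan n : ℝ) ≤ 4 ^ n := by exact_mod_cast catalan_le_pow n
  exact mul_le_mul_of_nonneg_left h4 (by positivity)

end Pool.Agent.Spd
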