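import Pool.Agent.Spd.W10
import Pool.Agent.Spd.W11

/-!
# SPD W12: the partition functions are given by the explicit solution

Let `a ∈ [2/3, 1)`, `h = (1 - a)/2`, `t = a^2 h`, `b = a h`.

* `Zs_le_yk`: `Zs_le` (W10) with `y k = ENNReal.ofReal (yk a k)`; the hypotheses are `yk_one`,
  `yk_succ`, with `yk_nonneg` (`ENNReal.ofReal_add`, `ENNReal.ofReal_mul`, `ENNReal.ofReal_sum_of_nonneg`).
* `sum_le`: every partial sum of `∑ b^(k+1) Zs (k+1) t` is at most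
  `ENNReal.ofReal (∑ b^(k+1) yk a (k+1)) ≤ ENNReal.ofReal h` by `sum_yk` (`ENNReal.tsum_eq_iSup_nat`).
* `quad`: for any `t, x` let `F = ∑' k, x^(k+1) Zs (k+1) t`, `Z = Zs 1 t`.  Then
  `x * F + t * x * Z = x^2 + t * F + x * F^2`.  Indeed `G := ∑' k, x^(k+1) Zs (k+2) t` satisfies
  `F = x * Z + x * G` (split off the first term), and by `Zs_one`, `Zs_succ`
  `F = x * (1 + t Zs 2 t) + ∑' k, x^(k+2) (t Zs (k+3) t + ∑ ...) = x + t G + F^2`
  (`t * x * Zs 2 t + ∑' k, t x^(k+2) Zs (k+3) t = t G`; the square is a Cauchy product: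
  `ENNReal` version via `tsum_mul_tsum_eq_tsum_sum_antidiagonal`-type lemma or by
  `ENNReal.tsum_mul_right`, reindexing over the antidiagonals
  (`Finset.sigmaAntidiagonalEquivProd`)).  Multiply by `x`: `x F = x^2 + t x G + x F^2` and
  `t F = t x Z + t x G`.  Adding `t x Z`: `x F + t x Z = x^2 + t F + x F^2`.
* `Zs_eq` for `2/3 < a < 1`: at `x = b` all quantities are finite (`F ≤ h`, `Z ≤ y_1`); pass to real
  numbers and divide by `b`: `F + t Z = b + a F + F^2` (`t / b = a`).  The same identity holds for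
  `Y = ∑ b^(k+1) y_(k+1) = h` (`sum_yk`, `tendsto_zC`) and `y_1`: `h + t y_1 = b + a h + h^2` (check it
  directly: `y_1 = (a - h)/a^2`, `a = 1 - 2 h`).  With `1 - a = 2 h`: `(F - h)^2 = h^2 - b + t Z` and
  `0 = h^2 - b + t y_1`, so `(F - h)^2 = t (Z - y_1) ≤ 0`, hence `F = h`.  So
  `∑ b^(k+1) (y_(k+1) - Z_(k+1)) = 0` with nonnegative terms, and `b > 0`: all terms vanish.
-/

namespace Pool.Agent.Spd

open Finset

private theorem t_nonneg {a : ℝ} (h2 : a < 1) : 0 ≤ a ^ 2 * ((1 - a) / 2) :=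
  mul_nonneg (sq_nonneg a) (by linarith)

theorem Zs_le_yk {a : ℝ} (h1 : 2 / 3 ≤ a) (h2 : a < 1) (k : ℕ) (hk : 1 ≤ k) :
    Zs k (ENNReal.ofReal (a ^ 2 * ((1 - a) / 2))) ≤ ENNReal.ofReal (yk a k) := by
  have ha : 0 < a := by linarith
  have ht := t_nonneg h2
  refine Zs_le (y := fun k => ENNReal.ofReal (yk a k)) ?_ ?_ k hk
  · refine le_of_eq ?_
    change 1 + _ * ENNReal.ofReal (yk a 2) = ENNReal.ofReal (yk a 1)
    rw [yk_one ha, ENNReal.ofReal_add zero_le_one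
      (mul_nonneg ht (yk_nonneg h1 h2.le 2 (by norm_num))), ENNReal.ofReal_one,
      ENNReal.ofReal_mul ht]
  · intro k
    refine le_of_eq ?_
    change _ * ENNReal.ofReal (yk a (k + 3)) + ∑ p ∈ antidiagonal k,
      ENNReal.ofReal (yk a (p.1 + 1)) * ENNReal.ofReal (yk a (p.2 + 1)) =
      ENNReal.ofReal (yk a (k + 2))
    have hy : ∀ j : ℕ, 0 ≤ yk a (j + 1) := fun j => yk_nonneg h1 h2.le _ (by omega)
    rw [yk_succ ha k, ENNReal.ofReal_add (mul_nonneg ht (hy _))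
      (Finset.sum_nonneg fun p _ => mul_nonneg (hy _) (hy _)), ENNReal.ofReal_mul ht,
      ENNReal.ofReal_sum_of_nonneg fun p _ => mul_nonneg (hy _) (hy _)]
    congr 1
    exact Finset.sum_congr rfl fun p _ => (ENNReal.ofReal_mul (hy _)).symm

private theorem sum_y_le {a : ℝ} (h1 : 2 / 3 ≤ a) (h2 : a < 1) :
    ∑' k : ℕ, ENNReal.ofReal (a * ((1 - a) / 2)) ^ (k + 1) *
      ENNReal.ofReal (yk a (k + 1)) ≤ ENNReal.ofReal ((1 - a) / 2) := by
  have ha : 0 < a := by linarith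
  have hh : 0 ≤ (1 - a) / 2 := by linarith
  have hb : 0 ≤ a * ((1 - a) / 2) := mul_nonneg ha.le hh
  refine ENNReal.tsum_le_of_sum_range_le fun n => ?_
  have hy : ∀ j : ℕ, 0 ≤ yk a (j + 1) := fun j => yk_nonneg h1 h2.le _ (by omega)
  have e : ∑ k ∈ range n, ENNReal.ofReal (a * ((1 - a) / 2)) ^ (k + 1) *
      ENNReal.ofReal (yk a (k + 1)) =
      ENNReal.ofReal (∑ k ∈ range n, (a * ((1 - a) / 2)) ^ (k + 1) * yk a (k + 1)) := by
    rw [ENNReal.ofReal_sum_of_nonneg fun k _ => mul_nonneg (pow_nonneg hb _) (hy k)]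
    refine Finset.sum_congr rfl fun k _ => ?_
    rw [ENNReal.ofReal_mul (pow_nonneg hb _), ENNReal.ofReal_pow hb]
  rw [e, sum_yk ha]
  refine ENNReal.ofReal_le_ofReal ?_
  have h3 : 0 ≤ ((1 - a) / 2 / a) ^ n * (catalan n : ℝ) :=
    mul_nonneg (pow_nonneg (div_nonneg hh ha.le) _) (Nat.cast_nonneg _)
  nlinarith [mul_nonneg hh h3]

theorem sum_le {a : ℝ} (h1 : 2 / 3 ≤ a) (h2 : a < 1) :
    ∑' k : ℕ, ENNReal.ofReal (a * ((1 - a) / 2)) ^ (k + 1) *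
      Zs (k + 1) (ENNReal.ofReal (a ^ 2 * ((1 - a) / 2))) ≤ ENNReal.ofReal ((1 - a) / 2) := by
  refine (ENNReal.tsum_le_tsum fun k => ?_).trans (sum_y_le h1 h2)
  exact mul_le_mul' le_rfl (Zs_le_yk h1 h2 (k + 1) (by omega))

private theorem cauchy (f : ℕ → ENNReal) :
    (∑' k, f k) ^ 2 = ∑' n, ∑ p ∈ antidiagonal n, f p.1 * f p.2 := by
  rw [pow_two, ← ENNReal.tsum_mul_right]
  have h1 : ∀ i : ℕ, f i * ∑' k, f k = ∑' j, f i * f j := fun i => ENNReal.tsum_mul_left.symm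
  simp only [h1]
  rw [← ENNReal.tsum_prod (f := fun i j => f i * f j),
    ← HasAntidiagonal.sigmaAntidiagonalEquivProd.tsum_eq, ENNReal.tsum_sigma']
  refine tsum_congr fun n => ?_
  rw [tsum_fintype, ← Finset.sum_coe_sort (antidiagonal n) fun p => f p.1 * f p.2]
  rfl

theorem quad (t x : ENNReal) :
    x * (∑' k : ℕ, x ^ (k + 1) * Zs (k + 1) t) + t * x * Zs 1 t =
      x ^ 2 + t * (∑' k : ℕ, x ^ (k + 1) * Zs (k + 1) t) +
        x * (∑' k : ℕ, x ^ (k + 1) * Zs (k + 1) t) ^ 2 := by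
  set F := ∑' k : ℕ, x ^ (k + 1) * Zs (k + 1) t with hF
  set G := ∑' k : ℕ, x ^ (k + 1) * Zs (k + 2) t with hG
  have e0 : ∑' k : ℕ, x ^ (k + 2) * Zs (k + 2) t = x * G := by
    rw [hG, ← ENNReal.tsum_mul_left]
    refine tsum_congr fun k => ?_
    ring
  have e1 : F = x * Zs 1 t + x * G := by
    rw [hF, tsum_eq_zero_add' ENNReal.summable, ← e0]
    congr 1
    rw [zero_add, pow_one]
  have e2 : G = x * Zs 2 t + ∑' k : ℕ, x ^ (k + 2) * Zs (k + 3) t := by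
    rw [hG, tsum_eq_zero_add' ENNReal.summable]
    congr 1
    rw [zero_add, pow_one]
  have e3 : ∑' k : ℕ, x ^ (k + 2) * Zs (k + 2) t =
      t * (∑' k : ℕ, x ^ (k + 2) * Zs (k + 3) t) + F ^ 2 := by
    rw [hF, cauchy, ← ENNReal.tsum_mul_left, ← ENNReal.tsum_add]
    refine tsum_congr fun k => ?_
    rw [Zs_succ, mul_add, Finset.mul_sum]
    congr 1
    · ring
    · refine Finset.sum_congr rfl fun p hp => ?_
      rw [HasAntidiagonal.mem_antidiagonal] at hp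
      rw [← hp]
      ring
  have e4 : F = x + t * G + F ^ 2 := by
    conv_lhs => rw [e1, ← e0, e3, Zs_one]
    rw [e2]
    ring
  have e5 : t * F = t * x * Zs 1 t + t * x * G := by
    conv_lhs => rw [e1]
    ring
  rw [e5]
  conv_lhs => rw [e4]
  ring

private theorem sum_eq_aux {a : ℝ} (h1 : 2 / 3 < a) (h2 : a < 1) :
    ∑' k : ℕ, ENNReal.ofReal (a * ((1 - a) / 2)) ^ (k + 1) *
      Zs (k + 1) (ENNReal.ofReal (a ^ 2 * ((1 - a) / 2))) = ENNReal.ofReal ((1 - a) / 2) := by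
  have ha : 0 < a := by linarith
  have hh : 0 < (1 - a) / 2 := by linarith
  have hb : 0 < a * ((1 - a) / 2) := mul_pos ha hh
  have ht := t_nonneg h2
  have hq := quad (ENNReal.ofReal (a ^ 2 * ((1 - a) / 2))) (ENNReal.ofReal (a * ((1 - a) / 2)))
  have hF := sum_le h1.le h2
  have hZ := Zs_le_yk h1.le h2 1 le_rfl
  set F := ∑' k : ℕ, ENNReal.ofReal (a * ((1 - a) / 2)) ^ (k + 1) *
      Zs (k + 1) (ENNReal.ofReal (a ^ 2 * ((1 - a) / 2))) with hFdef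
  set Z := Zs 1 (ENNReal.ofReal (a ^ 2 * ((1 - a) / 2))) with hZdef
  have hFt : F ≠ ⊤ := ne_top_of_le_ne_top ENNReal.ofReal_ne_top hF
  have hZt : Z ≠ ⊤ := ne_top_of_le_ne_top ENNReal.ofReal_ne_top hZ
  obtain ⟨f, hf0, hf⟩ : ∃ f : ℝ, 0 ≤ f ∧ F = ENNReal.ofReal f :=
    ⟨F.toReal, ENNReal.toReal_nonneg, (ENNReal.ofReal_toReal hFt).symm⟩
  obtain ⟨z, hz0, hz⟩ : ∃ z : ℝ, 0 ≤ z ∧ Z = ENNReal.ofReal z :=
    ⟨Z.toReal, ENNReal.toReal_nonneg, (ENNReal.ofReal_toReal hZt).symm⟩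
  have hy1 : yk a 1 = (a - (1 - a) / 2) / a ^ 2 := by
    unfold yk
    have c0 : (catalan 0 : ℝ) = 1 := by simp
    have c1 : (catalan 1 : ℝ) = 1 := by simp
    simp only [Nat.sub_self, mul_one]
    rw [c0, c1, mul_one, mul_one]
  rw [hz] at hZ
  have hzy : z ≤ yk a 1 :=
    (ENNReal.ofReal_le_ofReal_iff (yk_nonneg h1.le h2.le 1 le_rfl)).1 hZ
  rw [hf, hz] at hq
  rw [← ENNReal.ofReal_mul hb.le, ← ENNReal.ofReal_mul ht, ← ENNReal.ofReal_mul
    (mul_nonneg ht hb.le), ← ENNReal.ofReal_add (mul_nonneg hb.le hf0)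
    (mul_nonneg (mul_nonneg ht hb.le) hz0), ← ENNReal.ofReal_pow hb.le,
    ← ENNReal.ofReal_mul ht, ← ENNReal.ofReal_pow hf0, ← ENNReal.ofReal_mul hb.le,
    ← ENNReal.ofReal_add (pow_nonneg hb.le 2) (mul_nonneg ht hf0),
    ← ENNReal.ofReal_add (add_nonneg (pow_nonneg hb.le 2) (mul_nonneg ht hf0))
    (mul_nonneg hb.le (pow_nonneg hf0 2)),
    ENNReal.ofReal_eq_ofReal_iff (by positivity) (by positivity)] at hq
  have hdiv : f + a ^ 2 * ((1 - a) / 2) * z = a * ((1 - a) / 2) + a * f + f ^ 2 := by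
    apply mul_left_cancel₀ hb.ne'
    linear_combination hq
  have hty : a ^ 2 * ((1 - a) / 2) * yk a 1 = (1 - a) / 2 * (a - (1 - a) / 2) := by
    rw [hy1]
    field_simp
  have hle : a ^ 2 * ((1 - a) / 2) * z ≤ a ^ 2 * ((1 - a) / 2) * yk a 1 :=
    mul_le_mul_of_nonneg_left hzy ht
  have hsq : (f - (1 - a) / 2) ^ 2 ≤ 0 := by
    nlinarith
  have hfe : f = (1 - a) / 2 := by
    have := pow_eq_zero_iff (two_ne_zero) |>.1 (le_antisymm hsq (sq_nonneg _))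
    linarith
  rw [hf, hfe]

theorem Zs_eq {a : ℝ} (h1 : 2 / 3 < a) (h2 : a < 1) (k : ℕ) (hk : 1 ≤ k) :
    Zs k (ENNReal.ofReal (a ^ 2 * ((1 - a) / 2))) = ENNReal.ofReal (yk a k) := by
  have ha : 0 < a := by linarith
  have hh : 0 < (1 - a) / 2 := by linarith
  have hb : 0 < a * ((1 - a) / 2) := mul_pos ha hh
  obtain ⟨j, rfl⟩ : ∃ j, k = j + 1 := ⟨k - 1, by omega⟩
  refine le_antisymm (Zs_le_yk h1.le h2 _ hk) ?_
  by_contra hlt
  push Not at hlt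
  have hS := sum_eq_aux h1 h2
  have hY := sum_y_le h1.le h2
  have hlt2 : ∑' k : ℕ, ENNReal.ofReal (a * ((1 - a) / 2)) ^ (k + 1) *
      Zs (k + 1) (ENNReal.ofReal (a ^ 2 * ((1 - a) / 2))) <
      ∑' k : ℕ, ENNReal.ofReal (a * ((1 - a) / 2)) ^ (k + 1) *
      ENNReal.ofReal (yk a (k + 1)) := by
    refine ENNReal.tsum_lt_tsum (i := j) ?_ ?_ ?_
    · rw [hS]
      exact ENNReal.ofReal_ne_top
    · intro k
      exact mul_le_mul' le_rfl (Zs_le_yk h1.le h2 (k + 1) (by omega))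
    · refine (ENNReal.mul_lt_mul_iff_right ?_ ?_).2 hlt
      · exact pow_ne_zero _ (ENNReal.ofReal_pos.2 hb).ne'
      · exact ENNReal.pow_ne_top ENNReal.ofReal_ne_top
  rw [hS] at hlt2
  exact absurd hY (not_le.2 hlt2)

theorem sum_eq {a : ℝ} (h1 : 2 / 3 < a) (h2 : a < 1) :
    ∑' k : ℕ, ENNReal.ofReal (a * ((1 - a) / 2)) ^ (k + 1) *
      Zs (k + 1) (ENNReal.ofReal (a ^ 2 * ((1 - a) / 2))) = ENNReal.ofReal ((1 - a) / 2) :=
  sum_eq_aux h1 h2

end Pool.Agent.Spd
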