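import Pool.Agent.Spd.W13

/-!
# SPD W14: Chernoff bound for the change of the boundary length, exponential moments

`Step.size s` = number of edges removed by a peeling with outcome `s`: `N ↦ 1`, and a polygon with
`k + 1` sides and `v` inner vertices has `3 v + 2 k - 1` edges.  `Step.delta s` = change of the length
of the boundary.

* `size_le`: `3 v + 2 k ≤ 2 (k + 2 v)`.
* `exp_bound`: let `2/3 < a'' < a < 1`, `b'' = a''(1-a'')/2`, `t'' = a''^2 (1-a'')/2`; let `x ≥ 1`,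
  `y ≥ 1` (real numbers) with `b x y^2 ≤ b''` and `t y^4 ≤ t''`, where `b = a(1-a)/2`, `t = a b`.
  Then `∑' k τ, p (R k τ) * x^k * (y^2)^(k + 2 verts τ) ≤ (1 - a'')/2`, because
  `β^k (αβ)^v x^k y^(2k+4v) = (b x y^2)^k (t y^4)^v ≤ b''^k t''^v`, then `Zs_mono`-like summation and
  `sum_le` (W12) for `a''`.
* `chernoff`: put `ψ(u) = u^2 (1 - u)`; it is strictly decreasing on `[2/3, 1]`; choose any `a''` in
  `(2/3, a)`; `ψ(a'') > ψ(a)` means `a / a'' < b'' / b`.  Choose `X` with `1 < a/a'' < X < b''/b`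
  (`lam = log X > 0`), then `y > 1` so close to `1` that `b X y^2 ≤ b''`, `t y^4 ≤ t''` (possible as
  `t < t''`) and `(a / X) y + (1 - a'') < 1` (possible as `a / X < a''`).  `eps = log y`.  Then
  `exp (-lam delta + eps size)` is `y / X` for `N`, and for `R k τ`, `L k τ` it is
  `X^k y^size ≤ X^k (y^2)^(k + 2v)`.  The sum is at most `a y / X + 2 (1 - a'')/2 < 1`.
* `sum_size_lt_top`: `size ≤ eps^-1 exp (eps size) ≤ eps^-1 exp(lam) exp (-lam delta + eps size)`, since
  `delta ≤ 1`.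
-/

namespace Pool.Agent.Spd

/-- Number of edges removed by a peeling. -/
def Step.size : Step → ℕ
  | .N => 1
  | .R k τ => 3 * τ.verts + 2 * k
  | .L k τ => 3 * τ.verts + 2 * k

/-- Change of the boundary length. -/
def Step.delta : Step → ℤ
  | .N => 1
  | .R k _ => -k
  | .L k _ => -k

theorem Step.one_le_size (s : Step) : 1 ≤ s.size := by
  cases s with
  | N => exact le_rfl
  | R k τ =>
    have hk : k ≠ 0 := by
      rintro rfl
      exact tri_zero.false τ
    simp only [Step.size]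
    omega
  | L k τ =>
    have hk : k ≠ 0 := by
      rintro rfl
      exact tri_zero.false τ
    simp only [Step.size]
    omega

private theorem term_eq {a b c : ℝ} (ha : 0 ≤ a) (hb : 0 ≤ b) (k v : ℕ) :
    ENNReal.ofReal b ^ k * (ENNReal.ofReal a * ENNReal.ofReal b) ^ v * ENNReal.ofReal c =
      ENNReal.ofReal (b ^ k * (a * b) ^ v * c) := by
  rw [← ENNReal.ofReal_mul ha, ← ENNReal.ofReal_pow hb, ← ENNReal.ofReal_pow (mul_nonneg ha hb),
    ← ENNReal.ofReal_mul (pow_nonneg hb k), ← ENNReal.ofReal_mul]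
  positivity

private theorem sum_le' {a₂ : ℝ} (h1 : 2 / 3 < a₂) (h2 : a₂ < 1) :
    ∑' k, ∑' τ : Tri k, ENNReal.ofReal (a₂ * ((1 - a₂) / 2)) ^ k *
      ENNReal.ofReal (a₂ ^ 2 * ((1 - a₂) / 2)) ^ τ.verts ≤ ENNReal.ofReal ((1 - a₂) / 2) := by
  have h3 : ∀ k : ℕ, ∑' τ : Tri k, ENNReal.ofReal (a₂ * ((1 - a₂) / 2)) ^ k *
      ENNReal.ofReal (a₂ ^ 2 * ((1 - a₂) / 2)) ^ τ.verts =
      ENNReal.ofReal (a₂ * ((1 - a₂) / 2)) ^ k *
        Zs k (ENNReal.ofReal (a₂ ^ 2 * ((1 - a₂) / 2))) := by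
    intro k
    rw [ENNReal.tsum_mul_left]
    rfl
  simp only [h3]
  rw [tsum_eq_zero_add' ENNReal.summable]
  have h4 : Zs 0 (ENNReal.ofReal (a₂ ^ 2 * ((1 - a₂) / 2))) = 0 := by
    unfold Zs
    have := tri_zero
    exact tsum_empty
  rw [h4, mul_zero, zero_add]
  exact sum_le h1.le h2

theorem exp_bound {p : Step → ENNReal} {a a₂ x y : ℝ} {β : ENNReal} (h1 : 2 / 3 < a₂)
    (h12 : a₂ < a) (h2 : a < 1) (h : StepLaw p (ENNReal.ofReal a) β) (hx : 1 ≤ x) (hy : 1 ≤ y)
    (hb : a * ((1 - a) / 2) * x * y ^ 2 ≤ a₂ * ((1 - a₂) / 2))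
    (ht : a ^ 2 * ((1 - a) / 2) * y ^ 4 ≤ a₂ ^ 2 * ((1 - a₂) / 2)) :
    ∑' k, ∑' τ : Tri k, p (.R k τ) * ENNReal.ofReal (x ^ k * y ^ (2 * (k + 2 * τ.verts))) ≤
      ENNReal.ofReal ((1 - a₂) / 2) := by
  have hβ := beta_eq (h1.trans h12) h2 h
  have ha0 : 0 < a := by linarith
  have ha1 : 0 < (1 - a) / 2 := by linarith
  have ha20 : 0 < a₂ := by linarith
  have ha21 : 0 < (1 - a₂) / 2 := by linarith
  refine le_trans (ENNReal.tsum_le_tsum fun k => ENNReal.tsum_le_tsum fun τ => ?_)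
    (sum_le' h1 (h12.trans h2))
  rw [h.R, hβ, term_eq ha0.le (by positivity),
    ← ENNReal.ofReal_pow (by positivity), ← ENNReal.ofReal_pow (by positivity),
    ← ENNReal.ofReal_mul (by positivity)]
  apply ENNReal.ofReal_le_ofReal
  have h3 : (a * ((1 - a) / 2)) ^ k * (a * (a * ((1 - a) / 2))) ^ τ.verts *
      (x ^ k * y ^ (2 * (k + 2 * τ.verts))) =
      (a * ((1 - a) / 2) * x * y ^ 2) ^ k * (a ^ 2 * ((1 - a) / 2) * y ^ 4) ^ τ.verts := by
    rw [mul_pow (a * ((1 - a) / 2) * x) (y ^ 2) k, mul_pow (a * ((1 - a) / 2)) x k,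
      mul_pow (a ^ 2 * ((1 - a) / 2)) (y ^ 4), ← pow_mul, ← pow_mul,
      show 2 * (k + 2 * τ.verts) = 2 * k + 4 * τ.verts by ring, pow_add,
      show a * (a * ((1 - a) / 2)) = a ^ 2 * ((1 - a) / 2) by ring]
    ring
  rw [h3]
  exact mul_le_mul (pow_le_pow_left₀ (by positivity) hb k)
    (pow_le_pow_left₀ (by positivity) ht _) (by positivity) (by positivity)

theorem chernoff {p : Step → ENNReal} {a : ℝ} {β : ENNReal} (h1 : 2 / 3 < a) (h2 : a < 1)
    (h : StepLaw p (ENNReal.ofReal a) β) : ∃ lam eps : ℝ, 0 < lam ∧ 0 < eps ∧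
      ∑' s, p s * ENNReal.ofReal (Real.exp (-lam * s.delta + eps * s.size)) < 1 := by
  obtain ⟨c, hc1, hc2⟩ := exists_between h1
  have ha0 : 0 < a := by linarith
  have ha1 : 0 < 1 - a := by linarith
  have hc0 : 0 < c := by linarith
  have hc3 : 0 < 1 - c := by linarith
  have hpsi : a ^ 2 * (1 - a) < c ^ 2 * (1 - c) := by
    nlinarith [mul_pos (sub_pos.2 hc2) (sub_pos.2 h1), mul_pos (sub_pos.2 hc2) (sub_pos.2 hc1),
      mul_pos (sub_pos.2 h1) (sub_pos.2 hc1), mul_pos (mul_pos (sub_pos.2 hc2) ha0) hc0,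
      mul_pos (mul_pos (sub_pos.2 hc2) (sub_pos.2 h1)) ha0,
      mul_pos (mul_pos (sub_pos.2 hc2) (sub_pos.2 hc1)) ha0,
      mul_pos (mul_pos (sub_pos.2 hc2) (sub_pos.2 hc1)) hc0]
  have hlt : a / c < c * (1 - c) / (a * (1 - a)) := by
    rw [div_lt_div_iff₀ hc0 (mul_pos ha0 ha1)]
    nlinarith
  obtain ⟨X, hX1, hX2⟩ := exists_between hlt
  have hX0 : 1 < X := lt_trans ((one_lt_div hc0).2 hc2) hX1
  have hXp : 0 < X := by linarith
  have hXa : a / X < c := by
    rw [div_lt_iff₀ hXp]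
    rw [div_lt_iff₀ hc0] at hX1
    linarith
  have hXb : a * ((1 - a) / 2) * X < c * ((1 - c) / 2) := by
    rw [lt_div_iff₀ (mul_pos ha0 ha1)] at hX2
    nlinarith
  have ht2 : a ^ 2 * ((1 - a) / 2) < c ^ 2 * ((1 - c) / 2) := by linarith
  have hev : ∀ᶠ y : ℝ in nhdsWithin 1 (Set.Ioi 1), a * ((1 - a) / 2) * X * y ^ 2 <
      c * ((1 - c) / 2) ∧ a ^ 2 * ((1 - a) / 2) * y ^ 4 < c ^ 2 * ((1 - c) / 2) ∧
      a / X * y < c := by
    apply nhdsWithin_le_nhds
    have e1 : Filter.Tendsto (fun y : ℝ => a * ((1 - a) / 2) * X * y ^ 2) (nhds 1)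
        (nhds (a * ((1 - a) / 2) * X * 1 ^ 2)) := by
      apply Continuous.tendsto
      fun_prop
    have e2 : Filter.Tendsto (fun y : ℝ => a ^ 2 * ((1 - a) / 2) * y ^ 4) (nhds 1)
        (nhds (a ^ 2 * ((1 - a) / 2) * 1 ^ 4)) := by
      apply Continuous.tendsto
      fun_prop
    have e3 : Filter.Tendsto (fun y : ℝ => a / X * y) (nhds 1) (nhds (a / X * 1)) := by
      apply Continuous.tendsto
      fun_prop
    filter_upwards [e1.eventually_lt_const (by simpa using hXb),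
      e2.eventually_lt_const (by simpa using ht2),
      e3.eventually_lt_const (by simpa using hXa)] with y g1 g2 g3
    exact ⟨g1, g2, g3⟩
  obtain ⟨y, ⟨hy1, hy2, hy3⟩, hy⟩ := (hev.and self_mem_nhdsWithin).exists
  have hy' : (1 : ℝ) < y := hy
  have hyp : 0 < y := by linarith
  refine ⟨Real.log X, Real.log y, Real.log_pos hX0, Real.log_pos hy', ?_⟩
  have hbd := exp_bound hc1 hc2 h2 h hX0.le hy'.le hy1.le hy2.le
  have hRL : ∀ (k : ℕ) (τ : Tri k), p (.L k τ) = p (.R k τ) := fun k τ => by rw [h.R, h.L]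
  have hexp : ∀ k v : ℕ, Real.exp (-Real.log X * ((-(k : ℤ) : ℤ) : ℝ) +
      Real.log y * ((3 * v + 2 * k : ℕ) : ℝ)) ≤ X ^ k * y ^ (2 * (k + 2 * v)) := by
    intro k v
    rw [Real.exp_add]
    have g1 : Real.exp (-Real.log X * ((-(k : ℤ) : ℤ) : ℝ)) = X ^ k := by
      rw [show -Real.log X * ((-(k : ℤ) : ℤ) : ℝ) = (k : ℝ) * Real.log X by push_cast; ring,
        Real.exp_nat_mul, Real.exp_log hXp]
    have g2 : Real.exp (Real.log y * ((3 * v + 2 * k : ℕ) : ℝ)) = y ^ (3 * v + 2 * k) := by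
      rw [mul_comm, Real.exp_nat_mul, Real.exp_log hyp]
    rw [g1, g2]
    apply mul_le_mul_of_nonneg_left _ (by positivity)
    exact pow_le_pow_right₀ hy'.le (by omega)
  rw [sum_step]
  have s1 : (∑' k, ∑' τ : Tri k, p (.R k τ) * ENNReal.ofReal (Real.exp
      (-Real.log X * ((Step.R k τ).delta : ℝ) + Real.log y * ((Step.R k τ).size : ℝ)))) ≤
      ENNReal.ofReal ((1 - c) / 2) := by
    refine le_trans (ENNReal.tsum_le_tsum fun k => ENNReal.tsum_le_tsum fun τ => ?_) hbd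
    exact mul_le_mul_right (ENNReal.ofReal_le_ofReal (hexp k τ.verts)) _
  have s2 : (∑' k, ∑' τ : Tri k, p (.L k τ) * ENNReal.ofReal (Real.exp
      (-Real.log X * ((Step.L k τ).delta : ℝ) + Real.log y * ((Step.L k τ).size : ℝ)))) ≤
      ENNReal.ofReal ((1 - c) / 2) := by
    refine le_trans (ENNReal.tsum_le_tsum fun k => ENNReal.tsum_le_tsum fun τ => ?_) hbd
    rw [hRL]
    exact mul_le_mul_right (ENNReal.ofReal_le_ofReal (hexp k τ.verts)) _
  have s0 : p .N * ENNReal.ofReal (Real.exp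
      (-Real.log X * (Step.N.delta : ℝ) + Real.log y * (Step.N.size : ℝ))) =
      ENNReal.ofReal (a / X * y) := by
    rw [h.N, ← ENNReal.ofReal_mul ha0.le]
    congr 1
    have g1 : (Step.N.delta : ℝ) = 1 := by simp [Step.delta]
    have g2 : (Step.N.size : ℝ) = 1 := by simp [Step.size]
    rw [g1, g2, mul_one, mul_one, Real.exp_add, Real.exp_neg, Real.exp_log hXp,
      Real.exp_log hyp]
    ring
  rw [s0]
  calc ENNReal.ofReal (a / X * y) + _ + _ ≤ ENNReal.ofReal (a / X * y) +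
        ENNReal.ofReal ((1 - c) / 2) + ENNReal.ofReal ((1 - c) / 2) :=
        add_le_add (add_le_add le_rfl s1) s2
    _ = ENNReal.ofReal (a / X * y + (1 - c) / 2 + (1 - c) / 2) := by
        rw [← ENNReal.ofReal_add (by positivity) (by positivity),
          ← ENNReal.ofReal_add (by positivity) (by positivity)]
    _ < 1 := by
        rw [ENNReal.ofReal_lt_one]
        linarith

theorem sum_size_lt_top {p : Step → ENNReal} {a : ℝ} {β : ENNReal} (h1 : 2 / 3 < a) (h2 : a < 1)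
    (h : StepLaw p (ENNReal.ofReal a) β) : ∑' s, p s * (s.size : ENNReal) < ⊤ := by
  obtain ⟨lam, eps, hl, he, hlt⟩ := chernoff h1 h2 h
  have hC : 0 < eps⁻¹ * Real.exp lam := by positivity
  have hd : ∀ s : Step, (s.delta : ℝ) ≤ 1 := by
    intro s
    cases s with
    | N => simp [Step.delta]
    | R k τ =>
      have : (0 : ℝ) ≤ k := Nat.cast_nonneg k
      simp only [Step.delta, Int.cast_neg, Int.cast_natCast]
      linarith
    | L k τ =>
      have : (0 : ℝ) ≤ k := Nat.cast_nonneg k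
      simp only [Step.delta, Int.cast_neg, Int.cast_natCast]
      linarith
  have hs : ∀ s : Step, (s.size : ENNReal) ≤ ENNReal.ofReal (eps⁻¹ * Real.exp lam) *
      ENNReal.ofReal (Real.exp (-lam * s.delta + eps * s.size)) := by
    intro s
    rw [← ENNReal.ofReal_mul hC.le, ← ENNReal.ofReal_natCast]
    apply ENNReal.ofReal_le_ofReal
    have g1 : Real.exp (-lam + eps * s.size) ≤ Real.exp (-lam * s.delta + eps * s.size) := by
      apply Real.exp_le_exp.2
      nlinarith [hd s]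
    have g2 : eps * (s.size : ℝ) ≤ Real.exp (eps * s.size) := by
      have := Real.add_one_le_exp (eps * (s.size : ℝ))
      linarith
    have g3 : eps⁻¹ * Real.exp lam * Real.exp (-lam + eps * s.size) =
        eps⁻¹ * Real.exp (eps * s.size) := by
      rw [Real.exp_add, Real.exp_neg]
      field_simp
    calc (s.size : ℝ) = eps⁻¹ * (eps * s.size) := by field_simp
      _ ≤ eps⁻¹ * Real.exp (eps * s.size) := mul_le_mul_of_nonneg_left g2 (by positivity)
      _ = eps⁻¹ * Real.exp lam * Real.exp (-lam + eps * s.size) := g3.symm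
      _ ≤ _ := mul_le_mul_of_nonneg_left g1 hC.le
  calc ∑' s, p s * (s.size : ENNReal) ≤ ∑' s, ENNReal.ofReal (eps⁻¹ * Real.exp lam) *
        (p s * ENNReal.ofReal (Real.exp (-lam * s.delta + eps * s.size))) := by
        refine ENNReal.tsum_le_tsum fun s => ?_
        rw [mul_left_comm]
        exact mul_le_mul_right (hs s) _
    _ = ENNReal.ofReal (eps⁻¹ * Real.exp lam) *
        ∑' s, p s * ENNReal.ofReal (Real.exp (-lam * s.delta + eps * s.size)) :=
        ENNReal.tsum_mul_left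
    _ < ⊤ := ENNReal.mul_lt_top ENNReal.ofReal_lt_top (hlt.trans ENNReal.one_lt_top)

end Pool.Agent.Spd
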